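import Pool.Agent.Lib.MP_b6d339_lc.Pos.L1

/-!
# Erdős 592, three levels: patterns
-/

namespace MPb6R

open MPb6P

/-- reversed class -/
def xNFzE2B3I3B2EzF_rNA2AzE2B3I3B2EzF : List PE := [⟨0, 4, 4, 0⟩, ⟨1, 4, 4, 11⟩, ⟨1, 3, 3, 10⟩, ⟨0, 2, 2, 6⟩, ⟨0, 3, 3, 15⟩, ⟨0, 3, 3, 6⟩, ⟨0, 2, 2, 10⟩, ⟨1, 3, 3, 5⟩, ⟨0, 2, 2, 5⟩, ⟨1, 4, 4, 0⟩, ⟨0, 4, 4, 0⟩]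

/-- reversed class -/
def xNFzE2B3I3B2EzF_rNFzE2B3H2BzIzB3H3B2EzC : List PE := [⟨0, 4, 4, 0⟩, ⟨1, 4, 4, 7⟩, ⟨1, 3, 3, 10⟩, ⟨0, 2, 2, 6⟩, ⟨0, 3, 3, 14⟩, ⟨0, 3, 3, 6⟩, ⟨1, 3, 3, 15⟩, ⟨1, 3, 3, 6⟩, ⟨0, 2, 2, 14⟩, ⟨0, 3, 3, 6⟩, ⟨0, 2, 2, 10⟩, ⟨1, 3, 3, 11⟩, ⟨1, 4, 4, 0⟩, ⟨0, 4, 4, 0⟩]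

/-- reversed class -/
def xNFzE2B3I3B2EzF_rNFzE2B3H2BzIzB3H3B2EzA2A2F : List PE := [⟨0, 4, 4, 0⟩, ⟨1, 4, 4, 11⟩, ⟨0, 2, 2, 5⟩, ⟨0, 2, 2, 5⟩, ⟨1, 3, 3, 10⟩, ⟨0, 2, 2, 6⟩, ⟨0, 3, 3, 14⟩, ⟨0, 3, 3, 6⟩, ⟨1, 3, 3, 15⟩, ⟨1, 3, 3, 6⟩, ⟨0, 2, 2, 14⟩, ⟨0, 3, 3, 6⟩, ⟨0, 2, 2, 10⟩, ⟨1, 3, 3, 11⟩, ⟨1, 4, 4, 0⟩, ⟨0, 4, 4, 0⟩]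

/-- reversed class -/
def xNFzE2B3I3B2EzF_rNFzE2B3H2BzIzB3H3B2EzAyA2F : List PE := [⟨0, 4, 4, 0⟩, ⟨1, 4, 4, 11⟩, ⟨0, 2, 2, 5⟩, ⟨1, 2, 2, 5⟩, ⟨1, 3, 3, 10⟩, ⟨0, 2, 2, 6⟩, ⟨0, 3, 3, 14⟩, ⟨0, 3, 3, 6⟩, ⟨1, 3, 3, 15⟩, ⟨1, 3, 3, 6⟩, ⟨0, 2, 2, 14⟩, ⟨0, 3, 3, 6⟩, ⟨0, 2, 2, 10⟩, ⟨1, 3, 3, 11⟩, ⟨1, 4, 4, 0⟩, ⟨0, 4, 4, 0⟩]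

/-- reversed class -/
def xNFzE2B3I3B2EzF_rNFzE2B3H2BzIzB3H3B2EzAzA2F : List PE := [⟨0, 4, 4, 0⟩, ⟨1, 4, 4, 11⟩, ⟨0, 2, 2, 5⟩, ⟨1, 3, 3, 5⟩, ⟨1, 3, 3, 10⟩, ⟨0, 2, 2, 6⟩, ⟨0, 3, 3, 14⟩, ⟨0, 3, 3, 6⟩, ⟨1, 3, 3, 15⟩, ⟨1, 3, 3, 6⟩, ⟨0, 2, 2, 14⟩, ⟨0, 3, 3, 6⟩, ⟨0, 2, 2, 10⟩, ⟨1, 3, 3, 11⟩, ⟨1, 4, 4, 0⟩, ⟨0, 4, 4, 0⟩]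

/-- reversed class -/
def xNFzE2B3I3B2EzF_rNFzE2B3H2BzIzB3H3B2EzA2AyF : List PE := [⟨0, 4, 4, 0⟩, ⟨1, 4, 4, 11⟩, ⟨1, 2, 2, 5⟩, ⟨0, 2, 2, 5⟩, ⟨1, 3, 3, 10⟩, ⟨0, 2, 2, 6⟩, ⟨0, 3, 3, 14⟩, ⟨0, 3, 3, 6⟩, ⟨1, 3, 3, 15⟩, ⟨1, 3, 3, 6⟩, ⟨0, 2, 2, 14⟩, ⟨0, 3, 3, 6⟩, ⟨0, 2, 2, 10⟩, ⟨1, 3, 3, 11⟩, ⟨1, 4, 4, 0⟩, ⟨0, 4, 4, 0⟩]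

/-- reversed class -/
def xNFzE2B3I3B2EzF_rNFzE2A3H2BzIzB3H3A2EzAyAyF : List PE := [⟨0, 4, 4, 0⟩, ⟨1, 4, 4, 11⟩, ⟨1, 2, 2, 5⟩, ⟨1, 2, 2, 5⟩, ⟨1, 3, 3, 10⟩, ⟨0, 2, 2, 5⟩, ⟨0, 3, 3, 14⟩, ⟨0, 3, 3, 6⟩, ⟨1, 3, 3, 15⟩, ⟨1, 3, 3, 6⟩, ⟨0, 2, 2, 14⟩, ⟨0, 3, 3, 5⟩, ⟨0, 2, 2, 10⟩, ⟨1, 3, 3, 11⟩, ⟨1, 4, 4, 0⟩, ⟨0, 4, 4, 0⟩]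

/-- reversed class -/
def xNFzE2B3I3B2EzF_rNFzE2ByA3H2BzIzB3H3A2EzAyAyF : List PE := [⟨0, 4, 4, 0⟩, ⟨1, 4, 4, 11⟩, ⟨1, 2, 2, 5⟩, ⟨1, 2, 2, 5⟩, ⟨1, 3, 3, 10⟩, ⟨0, 2, 2, 5⟩, ⟨0, 3, 3, 14⟩, ⟨0, 3, 3, 6⟩, ⟨1, 3, 3, 15⟩, ⟨1, 3, 3, 6⟩, ⟨0, 2, 2, 14⟩, ⟨0, 3, 3, 5⟩, ⟨1, 2, 2, 6⟩, ⟨0, 2, 2, 10⟩, ⟨1, 3, 3, 11⟩, ⟨1, 4, 4, 0⟩, ⟨0, 4, 4, 0⟩]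

/-- reversed class -/
def xNFzE2B3I3B2EzF_rNFyAzAzE2B3H3BzIzB2H3B2EzF : List PE := [⟨0, 4, 4, 0⟩, ⟨1, 4, 4, 11⟩, ⟨1, 3, 3, 10⟩, ⟨0, 2, 2, 6⟩, ⟨0, 3, 3, 14⟩, ⟨0, 2, 2, 6⟩, ⟨1, 3, 3, 15⟩, ⟨1, 3, 3, 6⟩, ⟨0, 3, 3, 14⟩, ⟨0, 3, 3, 6⟩, ⟨0, 2, 2, 10⟩, ⟨1, 3, 3, 5⟩, ⟨1, 3, 3, 5⟩, ⟨1, 2, 2, 11⟩, ⟨1, 4, 4, 0⟩, ⟨0, 4, 4, 0⟩]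

/-- reversed class -/
def xNFzE2B3I3B2EzF_rNFzA2AzE2B3H3BzIzB2H3B2EzF : List PE := [⟨0, 4, 4, 0⟩, ⟨1, 4, 4, 11⟩, ⟨1, 3, 3, 10⟩, ⟨0, 2, 2, 6⟩, ⟨0, 3, 3, 14⟩, ⟨0, 2, 2, 6⟩, ⟨1, 3, 3, 15⟩, ⟨1, 3, 3, 6⟩, ⟨0, 3, 3, 14⟩, ⟨0, 3, 3, 6⟩, ⟨0, 2, 2, 10⟩, ⟨1, 3, 3, 5⟩, ⟨0, 2, 2, 5⟩, ⟨1, 3, 3, 11⟩, ⟨1, 4, 4, 0⟩, ⟨0, 4, 4, 0⟩]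

/-- reversed class -/
def xNFzE2B3I3B2EzF_rNFzE2ByA3H2BzIzB3H3A2EzAyAzF : List PE := [⟨0, 4, 4, 0⟩, ⟨1, 4, 4, 11⟩, ⟨1, 3, 3, 5⟩, ⟨1, 2, 2, 5⟩, ⟨1, 3, 3, 10⟩, ⟨0, 2, 2, 5⟩, ⟨0, 3, 3, 14⟩, ⟨0, 3, 3, 6⟩, ⟨1, 3, 3, 15⟩, ⟨1, 3, 3, 6⟩, ⟨0, 2, 2, 14⟩, ⟨0, 3, 3, 5⟩, ⟨1, 2, 2, 6⟩, ⟨0, 2, 2, 10⟩, ⟨1, 3, 3, 11⟩, ⟨1, 4, 4, 0⟩, ⟨0, 4, 4, 0⟩]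

/-- reversed class -/
def xNFzE2B3I3B2EzF_rNFzAyAzE2B3H3BzIzB2H3A2EzF : List PE := [⟨0, 4, 4, 0⟩, ⟨1, 4, 4, 11⟩, ⟨1, 3, 3, 10⟩, ⟨0, 2, 2, 5⟩, ⟨0, 3, 3, 14⟩, ⟨0, 2, 2, 6⟩, ⟨1, 3, 3, 15⟩, ⟨1, 3, 3, 6⟩, ⟨0, 3, 3, 14⟩, ⟨0, 3, 3, 6⟩, ⟨0, 2, 2, 10⟩, ⟨1, 3, 3, 5⟩, ⟨1, 2, 2, 5⟩, ⟨1, 3, 3, 11⟩, ⟨1, 4, 4, 0⟩, ⟨0, 4, 4, 0⟩]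

/-- reversed class -/
def xNFzE2B3I3B2EzF_rNFzE2B3H2BzIzB3H3B2EzAzAzF : List PE := [⟨0, 4, 4, 0⟩, ⟨1, 4, 4, 11⟩, ⟨1, 3, 3, 5⟩, ⟨1, 3, 3, 5⟩, ⟨1, 3, 3, 10⟩, ⟨0, 2, 2, 6⟩, ⟨0, 3, 3, 14⟩, ⟨0, 3, 3, 6⟩, ⟨1, 3, 3, 15⟩, ⟨1, 3, 3, 6⟩, ⟨0, 2, 2, 14⟩, ⟨0, 3, 3, 6⟩, ⟨0, 2, 2, 10⟩, ⟨1, 3, 3, 11⟩, ⟨1, 4, 4, 0⟩, ⟨0, 4, 4, 0⟩]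

/-- reversed class -/
def xNFzE2B3I3B2EzF_rNFzE2ByA3H2AzA2H3A2EzF : List PE := [⟨0, 4, 4, 0⟩, ⟨1, 4, 4, 11⟩, ⟨1, 3, 3, 10⟩, ⟨0, 2, 2, 5⟩, ⟨0, 3, 3, 14⟩, ⟨0, 2, 2, 5⟩, ⟨1, 3, 3, 5⟩, ⟨0, 2, 2, 14⟩, ⟨0, 3, 3, 5⟩, ⟨1, 2, 2, 6⟩, ⟨0, 2, 2, 10⟩, ⟨1, 3, 3, 11⟩, ⟨1, 4, 4, 0⟩, ⟨0, 4, 4, 0⟩]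

/-- reversed class -/
def xNFzE2B3I3B2EzF_rNFzE2A3H2AzAyB2H3A2EzF : List PE := [⟨0, 4, 4, 0⟩, ⟨1, 4, 4, 11⟩, ⟨1, 3, 3, 10⟩, ⟨0, 2, 2, 5⟩, ⟨0, 3, 3, 14⟩, ⟨0, 2, 2, 6⟩, ⟨1, 2, 2, 5⟩, ⟨1, 3, 3, 5⟩, ⟨0, 2, 2, 14⟩, ⟨0, 3, 3, 5⟩, ⟨0, 2, 2, 10⟩, ⟨1, 3, 3, 11⟩, ⟨1, 4, 4, 0⟩, ⟨0, 4, 4, 0⟩]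

/-- reversed class -/
def xNFzE2B3I3B2EzF_rNFzE2A3H2AzAyB2H3AyB2EzF : List PE := [⟨0, 4, 4, 0⟩, ⟨1, 4, 4, 11⟩, ⟨1, 3, 3, 10⟩, ⟨0, 2, 2, 6⟩, ⟨1, 2, 2, 5⟩, ⟨0, 3, 3, 14⟩, ⟨0, 2, 2, 6⟩, ⟨1, 2, 2, 5⟩, ⟨1, 3, 3, 5⟩, ⟨0, 2, 2, 14⟩, ⟨0, 3, 3, 5⟩, ⟨0, 2, 2, 10⟩, ⟨1, 3, 3, 11⟩, ⟨1, 4, 4, 0⟩, ⟨0, 4, 4, 0⟩]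

/-- reversed class -/
def xNFzE2B3I3B2EzF_rNFzE2A3H2AzIzA2H3AyB2EzF : List PE := [⟨0, 4, 4, 0⟩, ⟨1, 4, 4, 11⟩, ⟨1, 3, 3, 10⟩, ⟨0, 2, 2, 6⟩, ⟨1, 2, 2, 5⟩, ⟨0, 3, 3, 14⟩, ⟨0, 2, 2, 5⟩, ⟨1, 3, 3, 15⟩, ⟨1, 3, 3, 5⟩, ⟨0, 2, 2, 14⟩, ⟨0, 3, 3, 5⟩, ⟨0, 2, 2, 10⟩, ⟨1, 3, 3, 11⟩, ⟨1, 4, 4, 0⟩, ⟨0, 4, 4, 0⟩]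

/-- reversed class -/
def xNFzE2B3I3B2EzF_rNFzE2A3H2ByAzIzA2H3A2EzF : List PE := [⟨0, 4, 4, 0⟩, ⟨1, 4, 4, 11⟩, ⟨1, 3, 3, 10⟩, ⟨0, 2, 2, 5⟩, ⟨0, 3, 3, 14⟩, ⟨0, 2, 2, 5⟩, ⟨1, 3, 3, 15⟩, ⟨1, 3, 3, 5⟩, ⟨1, 2, 2, 6⟩, ⟨0, 2, 2, 14⟩, ⟨0, 3, 3, 5⟩, ⟨0, 2, 2, 10⟩, ⟨1, 3, 3, 11⟩, ⟨1, 4, 4, 0⟩, ⟨0, 4, 4, 0⟩]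

/-- reversed class -/
def xNFzE2B3I3B2EzF_rNFzE2A3H2AzIzAyB2H3AyB2EzF : List PE := [⟨0, 4, 4, 0⟩, ⟨1, 4, 4, 11⟩, ⟨1, 3, 3, 10⟩, ⟨0, 2, 2, 6⟩, ⟨1, 2, 2, 5⟩, ⟨0, 3, 3, 14⟩, ⟨0, 2, 2, 6⟩, ⟨1, 2, 2, 5⟩, ⟨1, 3, 3, 15⟩, ⟨1, 3, 3, 5⟩, ⟨0, 2, 2, 14⟩, ⟨0, 3, 3, 5⟩, ⟨0, 2, 2, 10⟩, ⟨1, 3, 3, 11⟩, ⟨1, 4, 4, 0⟩, ⟨0, 4, 4, 0⟩]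

/-- reversed class -/
def xNFzE2B3I3B2EzF_rNFzE2ByA3H2AzAyB2H3A2EzF : List PE := [⟨0, 4, 4, 0⟩, ⟨1, 4, 4, 11⟩, ⟨1, 3, 3, 10⟩, ⟨0, 2, 2, 5⟩, ⟨0, 3, 3, 14⟩, ⟨0, 2, 2, 6⟩, ⟨1, 2, 2, 5⟩, ⟨1, 3, 3, 5⟩, ⟨0, 2, 2, 14⟩, ⟨0, 3, 3, 5⟩, ⟨1, 2, 2, 6⟩, ⟨0, 2, 2, 10⟩, ⟨1, 3, 3, 11⟩, ⟨1, 4, 4, 0⟩, ⟨0, 4, 4, 0⟩]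

/-- reversed class -/
def xNFzE2B3I3B2EzF_rNFzE2ByA3H2ByAzAyB2H3A2EzF : List PE := [⟨0, 4, 4, 0⟩, ⟨1, 4, 4, 11⟩, ⟨1, 3, 3, 10⟩, ⟨0, 2, 2, 5⟩, ⟨0, 3, 3, 14⟩, ⟨0, 2, 2, 6⟩, ⟨1, 2, 2, 5⟩, ⟨1, 3, 3, 5⟩, ⟨1, 2, 2, 6⟩, ⟨0, 2, 2, 14⟩, ⟨0, 3, 3, 5⟩, ⟨1, 2, 2, 6⟩, ⟨0, 2, 2, 10⟩, ⟨1, 3, 3, 11⟩, ⟨1, 4, 4, 0⟩, ⟨0, 4, 4, 0⟩]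

/-- reversed class -/
def xNFzE2B3I3B2EzF_rNFzE2A3H2ByAzIzA2H3AyB2EzF : List PE := [⟨0, 4, 4, 0⟩, ⟨1, 4, 4, 11⟩, ⟨1, 3, 3, 10⟩, ⟨0, 2, 2, 6⟩, ⟨1, 2, 2, 5⟩, ⟨0, 3, 3, 14⟩, ⟨0, 2, 2, 5⟩, ⟨1, 3, 3, 15⟩, ⟨1, 3, 3, 5⟩, ⟨1, 2, 2, 6⟩, ⟨0, 2, 2, 14⟩, ⟨0, 3, 3, 5⟩, ⟨0, 2, 2, 10⟩, ⟨1, 3, 3, 11⟩, ⟨1, 4, 4, 0⟩, ⟨0, 4, 4, 0⟩]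

/-- reversed class -/
def xNFzE2B3I3B2EzF_rNFzE2ByA3H2ByAzIzAyB2H3A2EzF : List PE := [⟨0, 4, 4, 0⟩, ⟨1, 4, 4, 11⟩, ⟨1, 3, 3, 10⟩, ⟨0, 2, 2, 5⟩, ⟨0, 3, 3, 14⟩, ⟨0, 2, 2, 6⟩, ⟨1, 2, 2, 5⟩, ⟨1, 3, 3, 15⟩, ⟨1, 3, 3, 5⟩, ⟨1, 2, 2, 6⟩, ⟨0, 2, 2, 14⟩, ⟨0, 3, 3, 5⟩, ⟨1, 2, 2, 6⟩, ⟨0, 2, 2, 10⟩, ⟨1, 3, 3, 11⟩, ⟨1, 4, 4, 0⟩, ⟨0, 4, 4, 0⟩]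

/-- reversed class -/
def xNFzE2B3I3B2EzF_rNFzE2A3H3AyB2EzF : List PE := [⟨0, 4, 4, 0⟩, ⟨1, 4, 4, 11⟩, ⟨1, 3, 3, 10⟩, ⟨0, 2, 2, 6⟩, ⟨1, 2, 2, 5⟩, ⟨0, 3, 3, 14⟩, ⟨0, 3, 3, 5⟩, ⟨0, 2, 2, 10⟩, ⟨1, 3, 3, 11⟩, ⟨1, 4, 4, 0⟩, ⟨0, 4, 4, 0⟩]

/-- reversed class -/
def xNFzE2B3I3B2EzF_rNFzE2B3H2BzIzB3H3ByA2EzF : List PE := [⟨0, 4, 4, 0⟩, ⟨1, 4, 4, 11⟩, ⟨1, 3, 3, 10⟩, ⟨0, 2, 2, 5⟩, ⟨1, 2, 2, 6⟩, ⟨0, 3, 3, 14⟩, ⟨0, 3, 3, 6⟩, ⟨1, 3, 3, 15⟩, ⟨1, 3, 3, 6⟩, ⟨0, 2, 2, 14⟩, ⟨0, 3, 3, 6⟩, ⟨0, 2, 2, 10⟩, ⟨1, 3, 3, 11⟩, ⟨1, 4, 4, 0⟩, ⟨0, 4, 4, 0⟩]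

/-- reversed class -/
def xNFzE2B3I3B2EzF_rNFzE2B3IzC3B2EzF : List PE := [⟨0, 4, 4, 0⟩, ⟨1, 4, 4, 11⟩, ⟨1, 3, 3, 10⟩, ⟨0, 2, 2, 6⟩, ⟨0, 3, 3, 7⟩, ⟨1, 3, 3, 15⟩, ⟨0, 3, 3, 6⟩, ⟨0, 2, 2, 10⟩, ⟨1, 3, 3, 11⟩, ⟨1, 4, 4, 0⟩, ⟨0, 4, 4, 0⟩]

/-- reversed class -/
def xNFzE2B3I3B2EzF_rNFzE2B3H3AzB2H3B2EzF : List PE := [⟨0, 4, 4, 0⟩, ⟨1, 4, 4, 11⟩, ⟨1, 3, 3, 10⟩, ⟨0, 2, 2, 6⟩, ⟨0, 3, 3, 14⟩, ⟨0, 2, 2, 6⟩, ⟨1, 3, 3, 5⟩, ⟨0, 3, 3, 14⟩, ⟨0, 3, 3, 6⟩, ⟨0, 2, 2, 10⟩, ⟨1, 3, 3, 11⟩, ⟨1, 4, 4, 0⟩, ⟨0, 4, 4, 0⟩]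

/-- reversed class -/
def xNFzE2B3I3B2EzF_rNFzE2B3H2BzAyB3H3B2EzF : List PE := [⟨0, 4, 4, 0⟩, ⟨1, 4, 4, 11⟩, ⟨1, 3, 3, 10⟩, ⟨0, 2, 2, 6⟩, ⟨0, 3, 3, 14⟩, ⟨0, 3, 3, 6⟩, ⟨1, 2, 2, 5⟩, ⟨1, 3, 3, 6⟩, ⟨0, 2, 2, 14⟩, ⟨0, 3, 3, 6⟩, ⟨0, 2, 2, 10⟩, ⟨1, 3, 3, 11⟩, ⟨1, 4, 4, 0⟩, ⟨0, 4, 4, 0⟩]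

/-- reversed class -/
def xNFzE2B3I3B2EzF_rNFzE2ByA3H2AzAyB2H3AyB2EzF : List PE := [⟨0, 4, 4, 0⟩, ⟨1, 4, 4, 11⟩, ⟨1, 3, 3, 10⟩, ⟨0, 2, 2, 6⟩, ⟨1, 2, 2, 5⟩, ⟨0, 3, 3, 14⟩, ⟨0, 2, 2, 6⟩, ⟨1, 2, 2, 5⟩, ⟨1, 3, 3, 5⟩, ⟨0, 2, 2, 14⟩, ⟨0, 3, 3, 5⟩, ⟨1, 2, 2, 6⟩, ⟨0, 2, 2, 10⟩, ⟨1, 3, 3, 11⟩, ⟨1, 4, 4, 0⟩, ⟨0, 4, 4, 0⟩]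

/-- reversed class -/
def xNFzE2B3I3B2EzF_rNFzE2ByA3H2AzIzAyB2H3AyB2EzF : List PE := [⟨0, 4, 4, 0⟩, ⟨1, 4, 4, 11⟩, ⟨1, 3, 3, 10⟩, ⟨0, 2, 2, 6⟩, ⟨1, 2, 2, 5⟩, ⟨0, 3, 3, 14⟩, ⟨0, 2, 2, 6⟩, ⟨1, 2, 2, 5⟩, ⟨1, 3, 3, 15⟩, ⟨1, 3, 3, 5⟩, ⟨0, 2, 2, 14⟩, ⟨0, 3, 3, 5⟩, ⟨1, 2, 2, 6⟩, ⟨0, 2, 2, 10⟩, ⟨1, 3, 3, 11⟩, ⟨1, 4, 4, 0⟩, ⟨0, 4, 4, 0⟩]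

/-- reversed class -/
def xNFzE2A3H2ByAzIzAyB2H3A2EzF_rNBzE2A3H2ByAzIzAyB2H3A2EzF : List PE := [⟨0, 4, 4, 0⟩, ⟨1, 4, 4, 11⟩, ⟨1, 3, 3, 10⟩, ⟨0, 2, 2, 5⟩, ⟨0, 3, 3, 14⟩, ⟨0, 2, 2, 6⟩, ⟨1, 2, 2, 5⟩, ⟨1, 3, 3, 15⟩, ⟨1, 3, 3, 5⟩, ⟨1, 2, 2, 6⟩, ⟨0, 2, 2, 14⟩, ⟨0, 3, 3, 5⟩, ⟨0, 2, 2, 10⟩, ⟨1, 3, 3, 6⟩, ⟨1, 4, 4, 0⟩, ⟨0, 4, 4, 0⟩]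

/-- reversed class -/
def xNFzE2A3H2ByAzIzAyB2H3A2EzF_rNF2BzA2E2A3H2ByAzIzAyB2H3A2EzF : List PE := [⟨0, 4, 4, 0⟩, ⟨1, 4, 4, 11⟩, ⟨1, 3, 3, 10⟩, ⟨0, 2, 2, 5⟩, ⟨0, 3, 3, 14⟩, ⟨0, 2, 2, 6⟩, ⟨1, 2, 2, 5⟩, ⟨1, 3, 3, 15⟩, ⟨1, 3, 3, 5⟩, ⟨1, 2, 2, 6⟩, ⟨0, 2, 2, 14⟩, ⟨0, 3, 3, 5⟩, ⟨0, 2, 2, 10⟩, ⟨0, 2, 2, 5⟩, ⟨1, 3, 3, 6⟩, ⟨0, 2, 2, 11⟩, ⟨1, 4, 4, 0⟩, ⟨0, 4, 4, 0⟩]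

/-- reversed class -/
def xNFzE2A3H2ByAzIzAyB2H3A2EzF_rNFzA2A3H2ByAzIzAyB2H3A2EzF : List PE := [⟨0, 4, 4, 0⟩, ⟨1, 4, 4, 11⟩, ⟨1, 3, 3, 10⟩, ⟨0, 2, 2, 5⟩, ⟨0, 3, 3, 14⟩, ⟨0, 2, 2, 6⟩, ⟨1, 2, 2, 5⟩, ⟨1, 3, 3, 15⟩, ⟨1, 3, 3, 5⟩, ⟨1, 2, 2, 6⟩, ⟨0, 2, 2, 14⟩, ⟨0, 3, 3, 5⟩, ⟨0, 2, 2, 5⟩, ⟨1, 3, 3, 11⟩, ⟨1, 4, 4, 0⟩, ⟨0, 4, 4, 0⟩]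

/-- reversed class -/
def xNFzE2A3H2ByAzIzAyB2H3A2EzF_rNFzAzE2A3H2ByAzIzAyB2H3A2EzF : List PE := [⟨0, 4, 4, 0⟩, ⟨1, 4, 4, 11⟩, ⟨1, 3, 3, 10⟩, ⟨0, 2, 2, 5⟩, ⟨0, 3, 3, 14⟩, ⟨0, 2, 2, 6⟩, ⟨1, 2, 2, 5⟩, ⟨1, 3, 3, 15⟩, ⟨1, 3, 3, 5⟩, ⟨1, 2, 2, 6⟩, ⟨0, 2, 2, 14⟩, ⟨0, 3, 3, 5⟩, ⟨0, 2, 2, 10⟩, ⟨1, 3, 3, 5⟩, ⟨1, 3, 3, 11⟩, ⟨1, 4, 4, 0⟩, ⟨0, 4, 4, 0⟩]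

/-- reversed class -/
def xNFzE2A3H2ByAzIzAyB2H3A2EzF_rNFzByAzE2A3H2ByAzIzAyB2H3A2EzF : List PE := [⟨0, 4, 4, 0⟩, ⟨1, 4, 4, 11⟩, ⟨1, 3, 3, 10⟩, ⟨0, 2, 2, 5⟩, ⟨0, 3, 3, 14⟩, ⟨0, 2, 2, 6⟩, ⟨1, 2, 2, 5⟩, ⟨1, 3, 3, 15⟩, ⟨1, 3, 3, 5⟩, ⟨1, 2, 2, 6⟩, ⟨0, 2, 2, 14⟩, ⟨0, 3, 3, 5⟩, ⟨0, 2, 2, 10⟩, ⟨1, 3, 3, 5⟩, ⟨1, 2, 2, 6⟩, ⟨1, 3, 3, 11⟩, ⟨1, 4, 4, 0⟩, ⟨0, 4, 4, 0⟩]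

/-- reversed class -/
def xNFzE2A3H2AzIzA2H3AyB2EzF_rNBzE2A3H2AzIzA2H3AyB2EzF : List PE := [⟨0, 4, 4, 0⟩, ⟨1, 4, 4, 11⟩, ⟨1, 3, 3, 10⟩, ⟨0, 2, 2, 6⟩, ⟨1, 2, 2, 5⟩, ⟨0, 3, 3, 14⟩, ⟨0, 2, 2, 5⟩, ⟨1, 3, 3, 15⟩, ⟨1, 3, 3, 5⟩, ⟨0, 2, 2, 14⟩, ⟨0, 3, 3, 5⟩, ⟨0, 2, 2, 10⟩, ⟨1, 3, 3, 6⟩, ⟨1, 4, 4, 0⟩, ⟨0, 4, 4, 0⟩]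

/-- reversed class -/
def xNFzE2A3H2AzIzA2H3AyB2EzF_rNFzE2ByA3H2AzIzA2H3A2EzB2F : List PE := [⟨0, 4, 4, 0⟩, ⟨1, 4, 4, 11⟩, ⟨0, 2, 2, 6⟩, ⟨1, 3, 3, 10⟩, ⟨0, 2, 2, 5⟩, ⟨0, 3, 3, 14⟩, ⟨0, 2, 2, 5⟩, ⟨1, 3, 3, 15⟩, ⟨1, 3, 3, 5⟩, ⟨0, 2, 2, 14⟩, ⟨0, 3, 3, 5⟩, ⟨1, 2, 2, 6⟩, ⟨0, 2, 2, 10⟩, ⟨1, 3, 3, 11⟩, ⟨1, 4, 4, 0⟩, ⟨0, 4, 4, 0⟩]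

/-- reversed class -/
def xNFzE2A3H2AzIzA2H3AyB2EzF_rNFzAyE2ByA3H2AzIzA2H3A2E2A2AzAyAyF : List PE := [⟨0, 4, 4, 0⟩, ⟨1, 4, 4, 11⟩, ⟨1, 2, 2, 5⟩, ⟨1, 2, 2, 5⟩, ⟨1, 3, 3, 5⟩, ⟨0, 2, 2, 5⟩, ⟨0, 2, 2, 10⟩, ⟨0, 2, 2, 5⟩, ⟨0, 3, 3, 14⟩, ⟨0, 2, 2, 5⟩, ⟨1, 3, 3, 15⟩, ⟨1, 3, 3, 5⟩, ⟨0, 2, 2, 14⟩, ⟨0, 3, 3, 5⟩, ⟨1, 2, 2, 6⟩, ⟨0, 2, 2, 10⟩, ⟨1, 2, 2, 5⟩, ⟨1, 3, 3, 11⟩, ⟨1, 4, 4, 0⟩, ⟨0, 4, 4, 0⟩]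

/-- reversed class -/
def xNFzE2A3H2AzIzA2H3AyB2EzF_rNFzA2ByA3H2AzIzA2H3A2EzF : List PE := [⟨0, 4, 4, 0⟩, ⟨1, 4, 4, 11⟩, ⟨1, 3, 3, 10⟩, ⟨0, 2, 2, 5⟩, ⟨0, 3, 3, 14⟩, ⟨0, 2, 2, 5⟩, ⟨1, 3, 3, 15⟩, ⟨1, 3, 3, 5⟩, ⟨0, 2, 2, 14⟩, ⟨0, 3, 3, 5⟩, ⟨1, 2, 2, 6⟩, ⟨0, 2, 2, 5⟩, ⟨1, 3, 3, 11⟩, ⟨1, 4, 4, 0⟩, ⟨0, 4, 4, 0⟩]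

/-- reversed class -/
def xNFzE2A3H2AzIzA2H3AyB2EzF_rNFzA2E2ByA3H2AzIzA2H3A2EzAyBzF : List PE := [⟨0, 4, 4, 0⟩, ⟨1, 4, 4, 11⟩, ⟨1, 3, 3, 6⟩, ⟨1, 2, 2, 5⟩, ⟨1, 3, 3, 10⟩, ⟨0, 2, 2, 5⟩, ⟨0, 3, 3, 14⟩, ⟨0, 2, 2, 5⟩, ⟨1, 3, 3, 15⟩, ⟨1, 3, 3, 5⟩, ⟨0, 2, 2, 14⟩, ⟨0, 3, 3, 5⟩, ⟨1, 2, 2, 6⟩, ⟨0, 2, 2, 10⟩, ⟨0, 2, 2, 5⟩, ⟨1, 3, 3, 11⟩, ⟨1, 4, 4, 0⟩, ⟨0, 4, 4, 0⟩]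

/-- reversed class -/
def xNFzE2A3H2AzIzA2H3AyB2EzF_rNFzAyE2ByA3H2AzIzA2H3A2E2A2AzAyAzF : List PE := [⟨0, 4, 4, 0⟩, ⟨1, 4, 4, 11⟩, ⟨1, 3, 3, 5⟩, ⟨1, 2, 2, 5⟩, ⟨1, 3, 3, 5⟩, ⟨0, 2, 2, 5⟩, ⟨0, 2, 2, 10⟩, ⟨0, 2, 2, 5⟩, ⟨0, 3, 3, 14⟩, ⟨0, 2, 2, 5⟩, ⟨1, 3, 3, 15⟩, ⟨1, 3, 3, 5⟩, ⟨0, 2, 2, 14⟩, ⟨0, 3, 3, 5⟩, ⟨1, 2, 2, 6⟩, ⟨0, 2, 2, 10⟩, ⟨1, 2, 2, 5⟩, ⟨1, 3, 3, 11⟩, ⟨1, 4, 4, 0⟩, ⟨0, 4, 4, 0⟩]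

/-- reversed class -/
def xNFzE2A3H2AzIzA2H3AyB2EzF_rNFzE2ByA3H2AzIzA2H3A2EyAzF : List PE := [⟨0, 4, 4, 0⟩, ⟨1, 4, 4, 11⟩, ⟨1, 3, 3, 5⟩, ⟨1, 2, 2, 10⟩, ⟨0, 2, 2, 5⟩, ⟨0, 3, 3, 14⟩, ⟨0, 2, 2, 5⟩, ⟨1, 3, 3, 15⟩, ⟨1, 3, 3, 5⟩, ⟨0, 2, 2, 14⟩, ⟨0, 3, 3, 5⟩, ⟨1, 2, 2, 6⟩, ⟨0, 2, 2, 10⟩, ⟨1, 3, 3, 11⟩, ⟨1, 4, 4, 0⟩, ⟨0, 4, 4, 0⟩]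

/-- reversed class -/
def xNFzE2A3H2AzIzA2H3AyB2EzF_rNFzByAzA2A2A3H2A2AzIzA2H3AyB2EyAzF : List PE := [⟨0, 4, 4, 0⟩, ⟨1, 4, 4, 11⟩, ⟨1, 3, 3, 5⟩, ⟨1, 2, 2, 10⟩, ⟨0, 2, 2, 6⟩, ⟨1, 2, 2, 5⟩, ⟨0, 3, 3, 14⟩, ⟨0, 2, 2, 5⟩, ⟨1, 3, 3, 15⟩, ⟨1, 3, 3, 5⟩, ⟨0, 2, 2, 5⟩, ⟨0, 2, 2, 14⟩, ⟨0, 3, 3, 5⟩, ⟨0, 2, 2, 5⟩, ⟨0, 2, 2, 5⟩, ⟨1, 3, 3, 5⟩, ⟨1, 2, 2, 6⟩, ⟨1, 3, 3, 11⟩, ⟨1, 4, 4, 0⟩, ⟨0, 4, 4, 0⟩]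

/-- reversed class -/
def xNFzE2A3H2AzIzA2H3AyB2EzF_rNFzAyE2ByA3H2AzIzA2AyH3A2A2AzAyBzF : List PE := [⟨0, 4, 4, 0⟩, ⟨1, 4, 4, 11⟩, ⟨1, 3, 3, 6⟩, ⟨1, 2, 2, 5⟩, ⟨1, 3, 3, 5⟩, ⟨0, 2, 2, 5⟩, ⟨0, 2, 2, 5⟩, ⟨0, 3, 3, 14⟩, ⟨1, 2, 2, 5⟩, ⟨0, 2, 2, 5⟩, ⟨1, 3, 3, 15⟩, ⟨1, 3, 3, 5⟩, ⟨0, 2, 2, 14⟩, ⟨0, 3, 3, 5⟩, ⟨1, 2, 2, 6⟩, ⟨0, 2, 2, 10⟩, ⟨1, 2, 2, 5⟩, ⟨1, 3, 3, 11⟩, ⟨1, 4, 4, 0⟩, ⟨0, 4, 4, 0⟩]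

/-- reversed class -/
def xNFzE2A3H2AzIzA2H3AyB2EzF_rNFzAyE2ByA3H2AzIzA2H3A2EyA2AzAyBzF : List PE := [⟨0, 4, 4, 0⟩, ⟨1, 4, 4, 11⟩, ⟨1, 3, 3, 6⟩, ⟨1, 2, 2, 5⟩, ⟨1, 3, 3, 5⟩, ⟨0, 2, 2, 5⟩, ⟨1, 2, 2, 10⟩, ⟨0, 2, 2, 5⟩, ⟨0, 3, 3, 14⟩, ⟨0, 2, 2, 5⟩, ⟨1, 3, 3, 15⟩, ⟨1, 3, 3, 5⟩, ⟨0, 2, 2, 14⟩, ⟨0, 3, 3, 5⟩, ⟨1, 2, 2, 6⟩, ⟨0, 2, 2, 10⟩, ⟨1, 2, 2, 5⟩, ⟨1, 3, 3, 11⟩, ⟨1, 4, 4, 0⟩, ⟨0, 4, 4, 0⟩]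

/-- reversed class -/
def xNFzE2A3H2AzIzA2H3AyB2EzF_rNFzAzE2A3H2AzIzA2H3AyB2EzF : List PE := [⟨0, 4, 4, 0⟩, ⟨1, 4, 4, 11⟩, ⟨1, 3, 3, 10⟩, ⟨0, 2, 2, 6⟩, ⟨1, 2, 2, 5⟩, ⟨0, 3, 3, 14⟩, ⟨0, 2, 2, 5⟩, ⟨1, 3, 3, 15⟩, ⟨1, 3, 3, 5⟩, ⟨0, 2, 2, 14⟩, ⟨0, 3, 3, 5⟩, ⟨0, 2, 2, 10⟩, ⟨1, 3, 3, 5⟩, ⟨1, 3, 3, 11⟩, ⟨1, 4, 4, 0⟩, ⟨0, 4, 4, 0⟩]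

/-- reversed class -/
def xNFzE2A3H2AzIzA2H3AyB2EzF_rNFzE2ByA3H2AzIzA2H3A2AzAyBzF : List PE := [⟨0, 4, 4, 0⟩, ⟨1, 4, 4, 11⟩, ⟨1, 3, 3, 6⟩, ⟨1, 2, 2, 5⟩, ⟨1, 3, 3, 5⟩, ⟨0, 2, 2, 5⟩, ⟨0, 3, 3, 14⟩, ⟨0, 2, 2, 5⟩, ⟨1, 3, 3, 15⟩, ⟨1, 3, 3, 5⟩, ⟨0, 2, 2, 14⟩, ⟨0, 3, 3, 5⟩, ⟨1, 2, 2, 6⟩, ⟨0, 2, 2, 10⟩, ⟨1, 3, 3, 11⟩, ⟨1, 4, 4, 0⟩, ⟨0, 4, 4, 0⟩]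

/-- reversed class -/
def xNFzE2A3H2AzIzA2H3AyB2EzF_rNFzE2A3A2AzIzA2H3AyB2EzF : List PE := [⟨0, 4, 4, 0⟩, ⟨1, 4, 4, 11⟩, ⟨1, 3, 3, 10⟩, ⟨0, 2, 2, 6⟩, ⟨1, 2, 2, 5⟩, ⟨0, 3, 3, 14⟩, ⟨0, 2, 2, 5⟩, ⟨1, 3, 3, 15⟩, ⟨1, 3, 3, 5⟩, ⟨0, 2, 2, 5⟩, ⟨0, 3, 3, 5⟩, ⟨0, 2, 2, 10⟩, ⟨1, 3, 3, 11⟩, ⟨1, 4, 4, 0⟩, ⟨0, 4, 4, 0⟩]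

/-- reversed class -/
def xNFzE2A3H2AzIzA2H3AyB2EzF_rNFzE2A3H3A2AzIzA2H3AyB2EzF : List PE := [⟨0, 4, 4, 0⟩, ⟨1, 4, 4, 11⟩, ⟨1, 3, 3, 10⟩, ⟨0, 2, 2, 6⟩, ⟨1, 2, 2, 5⟩, ⟨0, 3, 3, 14⟩, ⟨0, 2, 2, 5⟩, ⟨1, 3, 3, 15⟩, ⟨1, 3, 3, 5⟩, ⟨0, 2, 2, 5⟩, ⟨0, 3, 3, 14⟩, ⟨0, 3, 3, 5⟩, ⟨0, 2, 2, 10⟩, ⟨1, 3, 3, 11⟩, ⟨1, 4, 4, 0⟩, ⟨0, 4, 4, 0⟩]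

/-- reversed class -/
def xNFzE2A3H3AyB2EzF_rNBzE2A3H3AyB2EzF : List PE := [⟨0, 4, 4, 0⟩, ⟨1, 4, 4, 11⟩, ⟨1, 3, 3, 10⟩, ⟨0, 2, 2, 6⟩, ⟨1, 2, 2, 5⟩, ⟨0, 3, 3, 14⟩, ⟨0, 3, 3, 5⟩, ⟨0, 2, 2, 10⟩, ⟨1, 3, 3, 6⟩, ⟨1, 4, 4, 0⟩, ⟨0, 4, 4, 0⟩]

/-- reversed class -/
def xNFzE2A3H3AyB2EzF_rNF2BzE2A3H3AyB2EzF : List PE := [⟨0, 4, 4, 0⟩, ⟨1, 4, 4, 11⟩, ⟨1, 3, 3, 10⟩, ⟨0, 2, 2, 6⟩, ⟨1, 2, 2, 5⟩, ⟨0, 3, 3, 14⟩, ⟨0, 3, 3, 5⟩, ⟨0, 2, 2, 10⟩, ⟨1, 3, 3, 6⟩, ⟨0, 2, 2, 11⟩, ⟨1, 4, 4, 0⟩, ⟨0, 4, 4, 0⟩]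

/-- reversed class -/
def xNFzE2A3H3AyB2EzF_rNFzE2A3H3AyB2AzF : List PE := [⟨0, 4, 4, 0⟩, ⟨1, 4, 4, 11⟩, ⟨1, 3, 3, 5⟩, ⟨0, 2, 2, 6⟩, ⟨1, 2, 2, 5⟩, ⟨0, 3, 3, 14⟩, ⟨0, 3, 3, 5⟩, ⟨0, 2, 2, 10⟩, ⟨1, 3, 3, 11⟩, ⟨1, 4, 4, 0⟩, ⟨0, 4, 4, 0⟩]

/-- reversed class -/
def xNFzE2A3H3AyB2EzF_rNFzA2E2ByA3H3A2EzAyBzF : List PE := [⟨0, 4, 4, 0⟩, ⟨1, 4, 4, 11⟩, ⟨1, 3, 3, 6⟩, ⟨1, 2, 2, 5⟩, ⟨1, 3, 3, 10⟩, ⟨0, 2, 2, 5⟩, ⟨0, 3, 3, 14⟩, ⟨0, 3, 3, 5⟩, ⟨1, 2, 2, 6⟩, ⟨0, 2, 2, 10⟩, ⟨0, 2, 2, 5⟩, ⟨1, 3, 3, 11⟩, ⟨1, 4, 4, 0⟩, ⟨0, 4, 4, 0⟩]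

/-- reversed class -/
def xNFzE2A3H3AyB2EzF_rNFzByAzA2A2A3H3AyB2EyAzF : List PE := [⟨0, 4, 4, 0⟩, ⟨1, 4, 4, 11⟩, ⟨1, 3, 3, 5⟩, ⟨1, 2, 2, 10⟩, ⟨0, 2, 2, 6⟩, ⟨1, 2, 2, 5⟩, ⟨0, 3, 3, 14⟩, ⟨0, 3, 3, 5⟩, ⟨0, 2, 2, 5⟩, ⟨0, 2, 2, 5⟩, ⟨1, 3, 3, 5⟩, ⟨1, 2, 2, 6⟩, ⟨1, 3, 3, 11⟩, ⟨1, 4, 4, 0⟩, ⟨0, 4, 4, 0⟩]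

/-- reversed class -/
def xNFzE2A3H3AyB2EzF_rNFzAyE2ByA3H3A2E2A2AzAyBzF : List PE := [⟨0, 4, 4, 0⟩, ⟨1, 4, 4, 11⟩, ⟨1, 3, 3, 6⟩, ⟨1, 2, 2, 5⟩, ⟨1, 3, 3, 5⟩, ⟨0, 2, 2, 5⟩, ⟨0, 2, 2, 10⟩, ⟨0, 2, 2, 5⟩, ⟨0, 3, 3, 14⟩, ⟨0, 3, 3, 5⟩, ⟨1, 2, 2, 6⟩, ⟨0, 2, 2, 10⟩, ⟨1, 2, 2, 5⟩, ⟨1, 3, 3, 11⟩, ⟨1, 4, 4, 0⟩, ⟨0, 4, 4, 0⟩]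

/-- reversed class -/
def xNFzE2A3H3AyB2EzF_rNFzByAzA2AyE2A3H3AyB2EyAzF : List PE := [⟨0, 4, 4, 0⟩, ⟨1, 4, 4, 11⟩, ⟨1, 3, 3, 5⟩, ⟨1, 2, 2, 10⟩, ⟨0, 2, 2, 6⟩, ⟨1, 2, 2, 5⟩, ⟨0, 3, 3, 14⟩, ⟨0, 3, 3, 5⟩, ⟨0, 2, 2, 10⟩, ⟨1, 2, 2, 5⟩, ⟨0, 2, 2, 5⟩, ⟨1, 3, 3, 5⟩, ⟨1, 2, 2, 6⟩, ⟨1, 3, 3, 11⟩, ⟨1, 4, 4, 0⟩, ⟨0, 4, 4, 0⟩]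

/-- reversed class -/
def xNFzE2A3H3AyB2EzF_rNFzAzE2A3H3AyB2EzF : List PE := [⟨0, 4, 4, 0⟩, ⟨1, 4, 4, 11⟩, ⟨1, 3, 3, 10⟩, ⟨0, 2, 2, 6⟩, ⟨1, 2, 2, 5⟩, ⟨0, 3, 3, 14⟩, ⟨0, 3, 3, 5⟩, ⟨0, 2, 2, 10⟩, ⟨1, 3, 3, 5⟩, ⟨1, 3, 3, 11⟩, ⟨1, 4, 4, 0⟩, ⟨0, 4, 4, 0⟩]

/-- reversed class -/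
def xNFzE2A3H3AyB2EzF_rNFzByAzA2A3H3AyB2EzF : List PE := [⟨0, 4, 4, 0⟩, ⟨1, 4, 4, 11⟩, ⟨1, 3, 3, 10⟩, ⟨0, 2, 2, 6⟩, ⟨1, 2, 2, 5⟩, ⟨0, 3, 3, 14⟩, ⟨0, 3, 3, 5⟩, ⟨0, 2, 2, 5⟩, ⟨1, 3, 3, 5⟩, ⟨1, 2, 2, 6⟩, ⟨1, 3, 3, 11⟩, ⟨1, 4, 4, 0⟩, ⟨0, 4, 4, 0⟩]

/-- reversed class -/
def xNFzE2A3H3AyB2EzF_rNFzByAzAyE2A3H3AyB2EzF : List PE := [⟨0, 4, 4, 0⟩, ⟨1, 4, 4, 11⟩, ⟨1, 3, 3, 10⟩, ⟨0, 2, 2, 6⟩, ⟨1, 2, 2, 5⟩, ⟨0, 3, 3, 14⟩, ⟨0, 3, 3, 5⟩, ⟨0, 2, 2, 10⟩, ⟨1, 2, 2, 5⟩, ⟨1, 3, 3, 5⟩, ⟨1, 2, 2, 6⟩, ⟨1, 3, 3, 11⟩, ⟨1, 4, 4, 0⟩, ⟨0, 4, 4, 0⟩]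

/-- reversed class -/
def xNFzE2A3H2ByAzIzA2H3AyB2EzF_rNBzE2A3H2ByAzIzA2H3AyB2EzF : List PE := [⟨0, 4, 4, 0⟩, ⟨1, 4, 4, 11⟩, ⟨1, 3, 3, 10⟩, ⟨0, 2, 2, 6⟩, ⟨1, 2, 2, 5⟩, ⟨0, 3, 3, 14⟩, ⟨0, 2, 2, 5⟩, ⟨1, 3, 3, 15⟩, ⟨1, 3, 3, 5⟩, ⟨1, 2, 2, 6⟩, ⟨0, 2, 2, 14⟩, ⟨0, 3, 3, 5⟩, ⟨0, 2, 2, 10⟩, ⟨1, 3, 3, 6⟩, ⟨1, 4, 4, 0⟩, ⟨0, 4, 4, 0⟩]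

/-- reversed class -/
def xNFzE2A3H2ByAzIzA2H3AyB2EzF_rNBzE2ByA3H2AzIzAyB2H3A2EzF : List PE := [⟨0, 4, 4, 0⟩, ⟨1, 4, 4, 11⟩, ⟨1, 3, 3, 10⟩, ⟨0, 2, 2, 5⟩, ⟨0, 3, 3, 14⟩, ⟨0, 2, 2, 6⟩, ⟨1, 2, 2, 5⟩, ⟨1, 3, 3, 15⟩, ⟨1, 3, 3, 5⟩, ⟨0, 2, 2, 14⟩, ⟨0, 3, 3, 5⟩, ⟨1, 2, 2, 6⟩, ⟨0, 2, 2, 10⟩, ⟨1, 3, 3, 6⟩, ⟨1, 4, 4, 0⟩, ⟨0, 4, 4, 0⟩]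

/-- reversed class -/
def xNFzE2A3H2ByAzIzA2H3AyB2EzF_rNF2BzAyE2ByA3H2AzIzAyB2H3A2E2A2AzAyBzF : List PE := [⟨0, 4, 4, 0⟩, ⟨1, 4, 4, 11⟩, ⟨1, 3, 3, 6⟩, ⟨1, 2, 2, 5⟩, ⟨1, 3, 3, 5⟩, ⟨0, 2, 2, 5⟩, ⟨0, 2, 2, 10⟩, ⟨0, 2, 2, 5⟩, ⟨0, 3, 3, 14⟩, ⟨0, 2, 2, 6⟩, ⟨1, 2, 2, 5⟩, ⟨1, 3, 3, 15⟩, ⟨1, 3, 3, 5⟩, ⟨0, 2, 2, 14⟩, ⟨0, 3, 3, 5⟩, ⟨1, 2, 2, 6⟩, ⟨0, 2, 2, 10⟩, ⟨1, 2, 2, 5⟩, ⟨1, 3, 3, 6⟩, ⟨0, 2, 2, 11⟩, ⟨1, 4, 4, 0⟩, ⟨0, 4, 4, 0⟩]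

/-- reversed class -/
def xNFzE2A3H2ByAzIzA2H3AyB2EzF_rNFzE2ByA3H2AzIzAyB2H3A2EzB2F : List PE := [⟨0, 4, 4, 0⟩, ⟨1, 4, 4, 11⟩, ⟨0, 2, 2, 6⟩, ⟨1, 3, 3, 10⟩, ⟨0, 2, 2, 5⟩, ⟨0, 3, 3, 14⟩, ⟨0, 2, 2, 6⟩, ⟨1, 2, 2, 5⟩, ⟨1, 3, 3, 15⟩, ⟨1, 3, 3, 5⟩, ⟨0, 2, 2, 14⟩, ⟨0, 3, 3, 5⟩, ⟨1, 2, 2, 6⟩, ⟨0, 2, 2, 10⟩, ⟨1, 3, 3, 11⟩, ⟨1, 4, 4, 0⟩, ⟨0, 4, 4, 0⟩]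

/-- reversed class -/
def xNFzE2A3H2ByAzIzA2H3AyB2EzF_rNFzByAzE2A3H2ByAzIzA2H3AyB2AzF : List PE := [⟨0, 4, 4, 0⟩, ⟨1, 4, 4, 11⟩, ⟨1, 3, 3, 5⟩, ⟨0, 2, 2, 6⟩, ⟨1, 2, 2, 5⟩, ⟨0, 3, 3, 14⟩, ⟨0, 2, 2, 5⟩, ⟨1, 3, 3, 15⟩, ⟨1, 3, 3, 5⟩, ⟨1, 2, 2, 6⟩, ⟨0, 2, 2, 14⟩, ⟨0, 3, 3, 5⟩, ⟨0, 2, 2, 10⟩, ⟨1, 3, 3, 5⟩, ⟨1, 2, 2, 6⟩, ⟨1, 3, 3, 11⟩, ⟨1, 4, 4, 0⟩, ⟨0, 4, 4, 0⟩]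

/-- reversed class -/
def xNFzE2A3H2ByAzIzA2H3AyB2EzF_rNFzA2E2ByA3H2AzIzAyB2H3A2E2AzAyBzF : List PE := [⟨0, 4, 4, 0⟩, ⟨1, 4, 4, 11⟩, ⟨1, 3, 3, 6⟩, ⟨1, 2, 2, 5⟩, ⟨1, 3, 3, 5⟩, ⟨0, 2, 2, 10⟩, ⟨0, 2, 2, 5⟩, ⟨0, 3, 3, 14⟩, ⟨0, 2, 2, 6⟩, ⟨1, 2, 2, 5⟩, ⟨1, 3, 3, 15⟩, ⟨1, 3, 3, 5⟩, ⟨0, 2, 2, 14⟩, ⟨0, 3, 3, 5⟩, ⟨1, 2, 2, 6⟩, ⟨0, 2, 2, 10⟩, ⟨0, 2, 2, 5⟩, ⟨1, 3, 3, 11⟩, ⟨1, 4, 4, 0⟩, ⟨0, 4, 4, 0⟩]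

/-- reversed class -/
def xNFzE2A3H2ByAzIzA2H3AyB2EzF_rNFzByAzA2A2A3H2ByAzIzA2H3AyB2EyAzF : List PE := [⟨0, 4, 4, 0⟩, ⟨1, 4, 4, 11⟩, ⟨1, 3, 3, 5⟩, ⟨1, 2, 2, 10⟩, ⟨0, 2, 2, 6⟩, ⟨1, 2, 2, 5⟩, ⟨0, 3, 3, 14⟩, ⟨0, 2, 2, 5⟩, ⟨1, 3, 3, 15⟩, ⟨1, 3, 3, 5⟩, ⟨1, 2, 2, 6⟩, ⟨0, 2, 2, 14⟩, ⟨0, 3, 3, 5⟩, ⟨0, 2, 2, 5⟩, ⟨0, 2, 2, 5⟩, ⟨1, 3, 3, 5⟩, ⟨1, 2, 2, 6⟩, ⟨1, 3, 3, 11⟩, ⟨1, 4, 4, 0⟩, ⟨0, 4, 4, 0⟩]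

/-- reversed class -/
def xNFzE2A3H2ByAzIzA2H3AyB2EzF_rNFzAyE2ByA3H2AzIzAyB2H3A2EyA2AzAyBzF : List PE := [⟨0, 4, 4, 0⟩, ⟨1, 4, 4, 11⟩, ⟨1, 3, 3, 6⟩, ⟨1, 2, 2, 5⟩, ⟨1, 3, 3, 5⟩, ⟨0, 2, 2, 5⟩, ⟨1, 2, 2, 10⟩, ⟨0, 2, 2, 5⟩, ⟨0, 3, 3, 14⟩, ⟨0, 2, 2, 6⟩, ⟨1, 2, 2, 5⟩, ⟨1, 3, 3, 15⟩, ⟨1, 3, 3, 5⟩, ⟨0, 2, 2, 14⟩, ⟨0, 3, 3, 5⟩, ⟨1, 2, 2, 6⟩, ⟨0, 2, 2, 10⟩, ⟨1, 2, 2, 5⟩, ⟨1, 3, 3, 11⟩, ⟨1, 4, 4, 0⟩, ⟨0, 4, 4, 0⟩]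

/-- reversed class -/
def xNFzE2A3H2ByAzIzA2H3AyB2EzF_rNFzByAzA2A2E2A3H2ByAzIzA2H3AyB2EyAzAzF : List PE := [⟨0, 4, 4, 0⟩, ⟨1, 4, 4, 11⟩, ⟨1, 3, 3, 5⟩, ⟨1, 3, 3, 5⟩, ⟨1, 2, 2, 10⟩, ⟨0, 2, 2, 6⟩, ⟨1, 2, 2, 5⟩, ⟨0, 3, 3, 14⟩, ⟨0, 2, 2, 5⟩, ⟨1, 3, 3, 15⟩, ⟨1, 3, 3, 5⟩, ⟨1, 2, 2, 6⟩, ⟨0, 2, 2, 14⟩, ⟨0, 3, 3, 5⟩, ⟨0, 2, 2, 10⟩, ⟨0, 2, 2, 5⟩, ⟨0, 2, 2, 5⟩, ⟨1, 3, 3, 5⟩, ⟨1, 2, 2, 6⟩, ⟨1, 3, 3, 11⟩, ⟨1, 4, 4, 0⟩, ⟨0, 4, 4, 0⟩]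

/-- reversed class -/
def xNFzE2A3H2ByAzIzA2H3AyB2EzF_rNFzE2ByA3H2AzIzAyB2H3A2EzAzF : List PE := [⟨0, 4, 4, 0⟩, ⟨1, 4, 4, 11⟩, ⟨1, 3, 3, 5⟩, ⟨1, 3, 3, 10⟩, ⟨0, 2, 2, 5⟩, ⟨0, 3, 3, 14⟩, ⟨0, 2, 2, 6⟩, ⟨1, 2, 2, 5⟩, ⟨1, 3, 3, 15⟩, ⟨1, 3, 3, 5⟩, ⟨0, 2, 2, 14⟩, ⟨0, 3, 3, 5⟩, ⟨1, 2, 2, 6⟩, ⟨0, 2, 2, 10⟩, ⟨1, 3, 3, 11⟩, ⟨1, 4, 4, 0⟩, ⟨0, 4, 4, 0⟩]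

/-- reversed class -/
def xNFzE2A3H2ByAzIzA2H3AyB2EzF_rNFzByAzA2A2E2A3H2ByAzIzA2H3AyB2EyAzAyBzF : List PE := [⟨0, 4, 4, 0⟩, ⟨1, 4, 4, 11⟩, ⟨1, 3, 3, 6⟩, ⟨1, 2, 2, 5⟩, ⟨1, 3, 3, 5⟩, ⟨1, 2, 2, 10⟩, ⟨0, 2, 2, 6⟩, ⟨1, 2, 2, 5⟩, ⟨0, 3, 3, 14⟩, ⟨0, 2, 2, 5⟩, ⟨1, 3, 3, 15⟩, ⟨1, 3, 3, 5⟩, ⟨1, 2, 2, 6⟩, ⟨0, 2, 2, 14⟩, ⟨0, 3, 3, 5⟩, ⟨0, 2, 2, 10⟩, ⟨0, 2, 2, 5⟩, ⟨0, 2, 2, 5⟩, ⟨1, 3, 3, 5⟩, ⟨1, 2, 2, 6⟩, ⟨1, 3, 3, 11⟩, ⟨1, 4, 4, 0⟩, ⟨0, 4, 4, 0⟩]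

/-- reversed class -/
def xNFzE2A3H2ByAzIzA2H3AyB2EzF_rNFzE2ByA3H2AzIzAyB2H3A2AzAyBzF : List PE := [⟨0, 4, 4, 0⟩, ⟨1, 4, 4, 11⟩, ⟨1, 3, 3, 6⟩, ⟨1, 2, 2, 5⟩, ⟨1, 3, 3, 5⟩, ⟨0, 2, 2, 5⟩, ⟨0, 3, 3, 14⟩, ⟨0, 2, 2, 6⟩, ⟨1, 2, 2, 5⟩, ⟨1, 3, 3, 15⟩, ⟨1, 3, 3, 5⟩, ⟨0, 2, 2, 14⟩, ⟨0, 3, 3, 5⟩, ⟨1, 2, 2, 6⟩, ⟨0, 2, 2, 10⟩, ⟨1, 3, 3, 11⟩, ⟨1, 4, 4, 0⟩, ⟨0, 4, 4, 0⟩]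

/-- reversed class -/
def xNFzE2A3H2ByAzIzA2H3AyB2EzF_rNFzByAzAyE2A3H2ByAzIzA2H3AyB2EzF : List PE := [⟨0, 4, 4, 0⟩, ⟨1, 4, 4, 11⟩, ⟨1, 3, 3, 10⟩, ⟨0, 2, 2, 6⟩, ⟨1, 2, 2, 5⟩, ⟨0, 3, 3, 14⟩, ⟨0, 2, 2, 5⟩, ⟨1, 3, 3, 15⟩, ⟨1, 3, 3, 5⟩, ⟨1, 2, 2, 6⟩, ⟨0, 2, 2, 14⟩, ⟨0, 3, 3, 5⟩, ⟨0, 2, 2, 10⟩, ⟨1, 2, 2, 5⟩, ⟨1, 3, 3, 5⟩, ⟨1, 2, 2, 6⟩, ⟨1, 3, 3, 11⟩, ⟨1, 4, 4, 0⟩, ⟨0, 4, 4, 0⟩]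

/-- reversed class -/
def xNF3I3F_rNB3I3F : List PE := [⟨0, 4, 4, 0⟩, ⟨1, 4, 4, 11⟩, ⟨0, 3, 3, 15⟩, ⟨0, 3, 3, 6⟩, ⟨1, 4, 4, 0⟩, ⟨0, 4, 4, 0⟩]

/-- reversed class -/
def xNF3I3F_rNCzB3I3B2F : List PE := [⟨0, 4, 4, 0⟩, ⟨1, 4, 4, 11⟩, ⟨0, 2, 2, 6⟩, ⟨0, 3, 3, 15⟩, ⟨0, 3, 3, 6⟩, ⟨1, 3, 3, 7⟩, ⟨1, 4, 4, 0⟩, ⟨0, 4, 4, 0⟩]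

/-- reversed class -/
def xNF3I3F_rNCzB3I3BzC2F : List PE := [⟨0, 4, 4, 0⟩, ⟨1, 4, 4, 11⟩, ⟨0, 2, 2, 7⟩, ⟨1, 3, 3, 6⟩, ⟨0, 3, 3, 15⟩, ⟨0, 3, 3, 6⟩, ⟨1, 3, 3, 7⟩, ⟨1, 4, 4, 0⟩, ⟨0, 4, 4, 0⟩]

/-- reversed class -/
def xNF3I3F_rNF2B3I3BzC2F : List PE := [⟨0, 4, 4, 0⟩, ⟨1, 4, 4, 11⟩, ⟨0, 2, 2, 7⟩, ⟨1, 3, 3, 6⟩, ⟨0, 3, 3, 15⟩, ⟨0, 3, 3, 6⟩, ⟨0, 2, 2, 11⟩, ⟨1, 4, 4, 0⟩, ⟨0, 4, 4, 0⟩]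

/-- reversed class -/
def xNF2B3I3B2F_rNFzE2B3I3B2E : List PE := [⟨0, 4, 4, 0⟩, ⟨1, 4, 4, 10⟩, ⟨0, 2, 2, 6⟩, ⟨0, 3, 3, 15⟩, ⟨0, 3, 3, 6⟩, ⟨0, 2, 2, 10⟩, ⟨1, 3, 3, 11⟩, ⟨1, 4, 4, 0⟩, ⟨0, 4, 4, 0⟩]


end MPb6R
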