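import Pool.Agent.Lib.MP_b6d339_lc.Cw3.YF2BzAyE2A3H2ByAzIzAyB2H3A2EyAzB2F
import Pool.Agent.Lib.MP_b6d339_lc.Cw3.XL
import Pool.Agent.Lib.MP_b6d339_lc.Cw3.T0
import Pool.Agent.Lib.MP_b6d339_lc.Cw3.T1
import Pool.Agent.Lib.MP_b6d339_lc.Cw3.T12
import Pool.Agent.Lib.MP_b6d339_lc.Cw3.T14
import Pool.Agent.Lib.MP_b6d339_lc.Cw3.T15
import Pool.Agent.Lib.MP_b6d339_lc.Cw3.T18
import Pool.Agent.Lib.MP_b6d339_lc.Cw3.T2
import Pool.Agent.Lib.MP_b6d339_lc.Cw3.T20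
import Pool.Agent.Lib.MP_b6d339_lc.Cw3.T21
import Pool.Agent.Lib.MP_b6d339_lc.Cw3.T23
import Pool.Agent.Lib.MP_b6d339_lc.Cw3.T25
import Pool.Agent.Lib.MP_b6d339_lc.Cw3.T3
import Pool.Agent.Lib.MP_b6d339_lc.Cw3.T36
import Pool.Agent.Lib.MP_b6d339_lc.Cw3.T4
import Pool.Agent.Lib.MP_b6d339_lc.Cw3.T5
import Pool.Agent.Lib.MP_b6d339_lc.Cw3.T6
import Pool.Agent.Lib.MP_b6d339_lc.Cw3.T7
import Pool.Agent.Lib.MP_b6d339_lc.Cw3.T8
import Pool.Agent.Lib.MP_b6d339_lc.Cw3.T9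

/-!
# Erdős 592, three levels: items
-/

namespace MPb6R

open MPb6P

noncomputable def iiNF2BzAyE2A3H2ByAzIzAyB2H3A2EyAzB2F : BT Itm := (.node (.node (.node (.node (.node (.node (.node (.leaf (.fwd 0 6 tpr4.df)) (.leaf (.bwd 6 27 tpr499.df))) (.node (.leaf (.fwd 33 27 tpr499.df)) (.leaf (.fwd 60 22 tpr504.df)))) (.node (.node (.leaf (.bwd 82 29 tpr22.df)) (.leaf (.bwd 111 22 tpr504.df))) (.node (.leaf (.fwd 133 17 tpr16.df)) (.leaf (.bwd 150 17 tpr16.df))))) (.node (.node (.node (.leaf (.fwd 167 21 tpr8.df)) (.leaf (.fwd 188 23 tpr5.df))) (.node (.leaf (.fwd 211 42 tpr344.df)) (.leaf (.fwd 253 25 tpr74.df)))) (.node (.node (.leaf (.fwd 278 24 tpr24.df)) (.leaf (.fwd 302 26 tpr1889.df))) (.leaf (.bwd 328 32 tpr17.df))))) (.node (.node (.node (.node (.leaf (.fwd 360 24 tpr743.df)) (.leaf (.fwd 384 37 tpr503.df))) (.node (.leaf (.fwd 421 18 tpr648.df))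 (.leaf (.fwd 439 22 tpr590.df)))) (.node (.node (.leaf (.bwd 461 18 tpr648.df)) (.leaf (.bwd 479 26 tpr2071.df))) (.leaf (.bwd 505 24 tpr24.df)))) (.node (.node (.node (.leaf (.fwd 529 28 tpr510.df)) (.leaf (.fwd 557 25 tpr106.df))) (.node (.leaf (.bwd 582 37 tpr503.df)) (.leaf (.fwd 619 19 tpr2067.df)))) (.node (.node (.leaf (.bwd 638 28 tpr510.df)) (.leaf (.bwd 666 19 tpr2067.df))) (.leaf (.bwd 685 32 tpr591.df)))))) (.node (.node (.node (.node (.node (.leaf (.fwd 717 38 tpr203.df)) (.leaf (.bwd 755 38 tpr203.df))) (.node (.leaf (.bwd 793 25 tpr106.df)) (.leaf (.bwd 818 38 tpr1636.df)))) (.node (.node (.leaf (.bwd 856 33 tpr1213.df)) (.leaf (.fwd 889 37 tpr406.df))) (.leaf (.fwd 926 25 tpr702.df)))) (.node (.node (.node (.leaf (.fwd 951 32 tpr518.df)) (.leaf (.fwd 983 17 tpr1714.df))) (.node (.leaf (.bwd 1000 29 tpr1006.df)) (.leaf (.bwd 1029 41 tpr1637.df))))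 (.node (.node (.leaf (.fwd 1070 37 tpr520.df)) (.leaf (.fwd 1107 30 tpr26.df))) (.leaf (.fwd 1137 26 tpr509.df))))) (.node (.node (.node (.node (.leaf (.bwd 1163 30 tpr26.df)) (.leaf (.bwd 1193 43 tpr565.df))) (.node (.leaf (.bwd 1236 24 tpr160.df)) (.leaf (.fwd 1260 39 tpr256.df)))) (.node (.node (.leaf (.fwd 1299 43 tpr565.df)) (.leaf (.fwd 1342 46 tpr593.df))) (.leaf (.bwd 1388 46 tpr593.df)))) (.node (.node (.node (.leaf (.bwd 1434 37 tpr1190.df)) (.leaf (.fwd 1471 44 tpr592.df))) (.node (.leaf (.bwd 1515 39 tpr256.df)) (.leaf (.fwd 1554 36 tpr1670.df)))) (.node (.node (.leaf (.bwd 1590 20 tpr103.df)) (.leaf (.bwd 1610 24 tpr743.df))) (.leaf (.bwd 1634 22 tpr515.df))))))) (.node (.node (.node (.node (.node (.node (.leaf (.bwd 1656 28 tpr507.df)) (.leaf (.fwd 1684 30 tpr603.df))) (.node (.leaf (.fwd 1714 23 tpr508.df)) (.leaf (.bwd 1737 23 tpr508.df))))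 (.node (.node (.leaf (.fwd 1760 21 tpr2072.df)) (.leaf (.fwd 1781 29 tpr1006.df))) (.leaf (.fwd 1810 38 tpr1636.df)))) (.node (.node (.node (.leaf (.fwd 1848 27 tpr82.df)) (.leaf (.fwd 1875 26 tpr516.df))) (.node (.leaf (.bwd 1901 49 tpr1647.df)) (.leaf (.fwd 1950 20 tpr103.df)))) (.node (.node (.leaf (.fwd 1970 29 tpr22.df)) (.leaf (.fwd 1999 22 tpr515.df))) (.leaf (.bwd 2021 27 tpr82.df))))) (.node (.node (.node (.node (.leaf (.fwd 2048 32 tpr591.df)) (.leaf (.bwd 2080 44 tpr592.df))) (.node (.leaf (.bwd 2124 30 tpr603.df)) (.leaf (.fwd 2154 32 tpr294.df)))) (.node (.node (.leaf (.bwd 2186 32 tpr522.df)) (.leaf (.fwd 2218 41 tpr502.df))) (.leaf (.fwd 2259 30 tpr513.df)))) (.node (.node (.node (.leaf (.fwd 2289 39 tpr514.df)) (.leaf (.bwd 2328 37 tpr520.df))) (.node (.leaf (.fwd 2365 32 tpr17.df)) (.leaf (.bwd 2397 30 tpr513.df)))) (.node (.node (.leaf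 (.bwd 2427 29 tpr1457.df)) (.leaf (.fwd 2456 41 tpr1637.df))) (.leaf (.bwd 2497 35 tpr2935.df)))))) (.node (.node (.node (.node (.node (.leaf (.bwd 2532 20 tpr505.df)) (.leaf (.fwd 2552 23 tpr632.df))) (.node (.leaf (.fwd 2575 33 tpr968.df)) (.leaf (.fwd 2608 27 tpr1646.df)))) (.node (.node (.leaf (.fwd 2635 25 tpr633.df)) (.leaf (.bwd 2660 36 tpr1670.df))) (.leaf (.bwd 2696 25 tpr74.df)))) (.node (.node (.node (.leaf (.fwd 2721 35 tpr123.df)) (.leaf (.fwd 2756 22 tpr118.df))) (.node (.leaf (.bwd 2778 26 tpr516.df)) (.leaf (.fwd 2804 43 tpr122.df)))) (.node (.node (.leaf (.fwd 2847 35 tpr13.df)) (.leaf (.bwd 2882 32 tpr710.df))) (.leaf (.bwd 2914 35 tpr123.df))))) (.node (.node (.node (.node (.leaf (.bwd 2949 37 tpr406.df)) (.leaf (.bwd 2986 35 tpr1200.df))) (.node (.leaf (.fwd 3021 32 tpr710.df)) (.leaf (.bwd 3053 43 tpr122.df)))) (.node (.node (.leaf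 (.fwd 3096 37 tpr1190.df)) (.leaf (.bwd 3133 22 tpr118.df))) (.leaf (.bwd 3155 35 tpr13.df)))) (.node (.node (.node (.leaf (.fwd 3190 24 tpr160.df)) (.leaf (.bwd 3214 42 tpr344.df))) (.node (.leaf (.fwd 3256 28 tpr546.df)) (.leaf (.bwd 3284 37 tpr555.df)))) (.node (.node (.leaf (.bwd 3321 28 tpr546.df)) (.leaf (.fwd 3349 15 tpr2073.df))) (.leaf (.bwd 3364 38 tpr1903.df))))))))

theorem iiNF2BzAyE2A3H2ByAzIzAyB2H3A2EyAzB2F_c : iiNF2BzAyE2A3H2ByAzIzAyB2H3A2EyAzB2F.all (itB (ng 49 nnNF2BzAyE2A3H2ByAzIzAyB2H3A2EyAzB2F)) = true := by decide +kernel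
theorem nbNF2BzAyE2A3H2ByAzIzAyB2H3A2EyAzB2F : nbB 49 3451 nnNF2BzAyE2A3H2ByAzIzAyB2H3A2EyAzB2F = true := by decide +kernel
theorem topNF2BzAyE2A3H2ByAzIzAyB2H3A2EyAzB2F : topY 3451 ttNF2BzAyE2A3H2ByAzIzAyB2H3A2EyAzB2F ceNF2BzAyE2A3H2ByAzIzAyB2H3A2EyAzB2F xNF2BzAyE2A3H2ByAzIzAyB2H3A2EyAzB2F iiNF2BzAyE2A3H2ByAzIzAyB2H3A2EyAzB2F = true := by decide +kernel

end MPb6R
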