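import Pool.Agent.Lib.MP_b6d339_lc.Cw3.YF2BzAyE2ByA3H2AzIzAyB2H3A2E2A2AzAyBzF
import Pool.Agent.Lib.MP_b6d339_lc.Cw3.XL
import Pool.Agent.Lib.MP_b6d339_lc.Cw3.T0
import Pool.Agent.Lib.MP_b6d339_lc.Cw3.T1
import Pool.Agent.Lib.MP_b6d339_lc.Cw3.T10
import Pool.Agent.Lib.MP_b6d339_lc.Cw3.T11
import Pool.Agent.Lib.MP_b6d339_lc.Cw3.T12
import Pool.Agent.Lib.MP_b6d339_lc.Cw3.T13
import Pool.Agent.Lib.MP_b6d339_lc.Cw3.T14
import Pool.Agent.Lib.MP_b6d339_lc.Cw3.T15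
import Pool.Agent.Lib.MP_b6d339_lc.Cw3.T16
import Pool.Agent.Lib.MP_b6d339_lc.Cw3.T17
import Pool.Agent.Lib.MP_b6d339_lc.Cw3.T18
import Pool.Agent.Lib.MP_b6d339_lc.Cw3.T19
import Pool.Agent.Lib.MP_b6d339_lc.Cw3.T2
import Pool.Agent.Lib.MP_b6d339_lc.Cw3.T20
import Pool.Agent.Lib.MP_b6d339_lc.Cw3.T21
import Pool.Agent.Lib.MP_b6d339_lc.Cw3.T22
import Pool.Agent.Lib.MP_b6d339_lc.Cw3.T23
import Pool.Agent.Lib.MP_b6d339_lc.Cw3.T25
import Pool.Agent.Lib.MP_b6d339_lc.Cw3.T26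
import Pool.Agent.Lib.MP_b6d339_lc.Cw3.T27
import Pool.Agent.Lib.MP_b6d339_lc.Cw3.T28
import Pool.Agent.Lib.MP_b6d339_lc.Cw3.T29
import Pool.Agent.Lib.MP_b6d339_lc.Cw3.T3
import Pool.Agent.Lib.MP_b6d339_lc.Cw3.T31
import Pool.Agent.Lib.MP_b6d339_lc.Cw3.T32
import Pool.Agent.Lib.MP_b6d339_lc.Cw3.T33
import Pool.Agent.Lib.MP_b6d339_lc.Cw3.T34
import Pool.Agent.Lib.MP_b6d339_lc.Cw3.T36
import Pool.Agent.Lib.MP_b6d339_lc.Cw3.T4
import Pool.Agent.Lib.MP_b6d339_lc.Cw3.T5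
import Pool.Agent.Lib.MP_b6d339_lc.Cw3.T6
import Pool.Agent.Lib.MP_b6d339_lc.Cw3.T7
import Pool.Agent.Lib.MP_b6d339_lc.Cw3.T8
import Pool.Agent.Lib.MP_b6d339_lc.Cw3.T9

/-!
# Erdős 592, three levels: items
-/

namespace MPb6R

open MPb6P

noncomputable def iiNF2BzAyE2ByA3H2AzIzAyB2H3A2E2A2AzAyBzF : BT Itm := (.node (.node (.node (.node (.node (.node (.node (.node (.node (.leaf (.fwd 0 23 tpr5.df)) (.leaf (.fwd 23 6 tpr4.df))) (.leaf (.fwd 29 13 tpr500.df))) (.node (.leaf (.bwd 42 21 tpr8.df)) (.leaf (.fwd 63 23 tpr559.df)))) (.node (.node (.node (.leaf (.bwd 86 22 tpr2487.df)) (.leaf (.bwd 108 29 tpr2486.df))) (.leaf (.fwd 137 29 tpr2523.df))) (.node (.leaf (.fwd 166 22 tpr2227.df)) (.leaf (.bwd 188 30 tpr1547.df))))) (.node (.node (.node (.node (.leaf (.fwd 218 29 tpr2163.df)) (.leaf (.fwd 247 42 tpr2507.df))) (.leaf (.fwd 289 39 tpr2532.df))) (.node (.leaf (.bwd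 328 35 tpr259.df)) (.leaf (.bwd 363 34 tpr575.df)))) (.node (.node (.leaf (.bwd 397 27 tpr2190.df)) (.leaf (.fwd 424 35 tpr2666.df))) (.node (.leaf (.fwd 459 28 tpr2113.df)) (.leaf (.bwd 487 22 tpr239.df)))))) (.node (.node (.node (.node (.node (.leaf (.fwd 509 32 tpr2545.df)) (.leaf (.fwd 541 25 tpr2186.df))) (.leaf (.bwd 566 22 tpr2674.df))) (.node (.leaf (.bwd 588 28 tpr2508.df)) (.leaf (.bwd 616 38 tpr2040.df)))) (.node (.node (.leaf (.fwd 654 44 tpr2260.df)) (.leaf (.fwd 698 26 tpr2682.df))) (.node (.leaf (.bwd 724 29 tpr2516.df)) (.leaf (.fwd 753 16 tpr168.df))))) (.node (.node (.node (.node (.leaf (.bwd 769 41 tpr2524.df)) (.leaf (.fwd 810 38 tpr2485.df))) (.leaf (.fwd 848 49 tpr2133.df))) (.node (.leaf (.fwd 897 33 tpr2171.df)) (.leaf (.bwd 930 34 tpr2013.df)))) (.node (.node (.leaf (.bwd 964 51 tpr2161.df)) (.leaf (.fwd 1015 25 tpr1311.df))) (.node (.leaf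 (.fwd 1040 28 tpr1472.df)) (.leaf (.fwd 1068 44 tpr2253.df))))))) (.node (.node (.node (.node (.node (.node (.leaf (.fwd 1112 61 tpr2676.df)) (.leaf (.bwd 1173 36 tpr2659.df))) (.leaf (.bwd 1209 40 tpr2538.df))) (.node (.leaf (.bwd 1249 25 tpr10.df)) (.leaf (.bwd 1274 44 tpr1747.df)))) (.node (.node (.leaf (.fwd 1318 23 tpr12.df)) (.leaf (.bwd 1341 19 tpr33.df))) (.node (.leaf (.bwd 1360 32 tpr113.df)) (.leaf (.fwd 1392 25 tpr51.df))))) (.node (.node (.node (.node (.leaf (.bwd 1417 30 tpr1323.df)) (.leaf (.bwd 1447 47 tpr2143.df))) (.leaf (.bwd 1494 53 tpr815.df))) (.node (.leaf (.fwd 1547 23 tpr780.df)) (.leaf (.fwd 1570 34 tpr738.df)))) (.node (.node (.leaf (.bwd 1604 43 tpr2514.df)) (.leaf (.fwd 1647 60 tpr2493.df))) (.node (.leaf (.bwd 1707 29 tpr2225.df)) (.leaf (.fwd 1736 30 tpr235.df)))))) (.node (.node (.node (.node (.node (.leaf (.bwd 1766 27 tpr499.df))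 (.leaf (.fwd 1793 52 tpr814.df))) (.leaf (.fwd 1845 42 tpr733.df))) (.node (.leaf (.fwd 1887 31 tpr2398.df)) (.leaf (.bwd 1918 61 tpr2325.df)))) (.node (.node (.leaf (.fwd 1979 45 tpr611.df)) (.leaf (.bwd 2024 37 tpr2669.df))) (.node (.leaf (.bwd 2061 31 tpr1365.df)) (.leaf (.bwd 2092 20 tpr63.df))))) (.node (.node (.node (.node (.leaf (.bwd 2112 54 tpr1354.df)) (.leaf (.fwd 2166 33 tpr35.df))) (.leaf (.fwd 2199 41 tpr2220.df))) (.node (.leaf (.fwd 2240 31 tpr1331.df)) (.leaf (.fwd 2271 38 tpr1334.df)))) (.node (.node (.leaf (.fwd 2309 34 tpr1341.df)) (.leaf (.bwd 2343 35 tpr2247.df))) (.node (.leaf (.bwd 2378 31 tpr2165.df)) (.leaf (.fwd 2409 37 tpr2521.df)))))))) (.node (.node (.node (.node (.node (.node (.node (.leaf (.bwd 2446 42 tpr1196.df)) (.leaf (.fwd 2488 45 tpr596.df))) (.leaf (.bwd 2533 39 tpr2295.df))) (.node (.leaf (.bwd 2572 37 tpr2111.df)) (.leaf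 (.bwd 2609 42 tpr1335.df)))) (.node (.node (.node (.leaf (.bwd 2651 37 tpr555.df)) (.leaf (.fwd 2688 20 tpr768.df))) (.leaf (.fwd 2708 37 tpr2395.df))) (.node (.leaf (.bwd 2745 26 tpr1336.df)) (.leaf (.bwd 2771 30 tpr2488.df))))) (.node (.node (.node (.node (.leaf (.fwd 2801 46 tpr1464.df)) (.leaf (.bwd 2847 23 tpr780.df))) (.leaf (.fwd 2870 31 tpr949.df))) (.node (.leaf (.bwd 2901 28 tpr990.df)) (.leaf (.fwd 2929 27 tpr82.df)))) (.node (.node (.leaf (.bwd 2956 30 tpr577.df)) (.leaf (.fwd 2986 23 tpr1255.df))) (.node (.leaf (.fwd 3009 22 tpr239.df)) (.leaf (.bwd 3031 33 tpr2501.df)))))) (.node (.node (.node (.node (.node (.leaf (.fwd 3064 33 tpr680.df)) (.leaf (.bwd 3097 35 tpr541.df))) (.leaf (.bwd 3132 20 tpr505.df))) (.node (.leaf (.fwd 3152 37 tpr583.df)) (.leaf (.fwd 3189 28 tpr507.df)))) (.node (.node (.leaf (.bwd 3217 32 tpr518.df)) (.leaf (.fwd 3249 15 tpr419.df)))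 (.node (.leaf (.bwd 3264 54 tpr1193.df)) (.leaf (.fwd 3318 44 tpr466.df))))) (.node (.node (.node (.node (.leaf (.bwd 3362 29 tpr9.df)) (.leaf (.bwd 3391 13 tpr11.df))) (.leaf (.fwd 3404 29 tpr656.df))) (.node (.leaf (.bwd 3433 39 tpr636.df)) (.leaf (.fwd 3472 38 tpr2510.df)))) (.node (.node (.leaf (.bwd 3510 23 tpr1562.df)) (.leaf (.bwd 3533 28 tpr721.df))) (.node (.leaf (.fwd 3561 33 tpr2527.df)) (.leaf (.fwd 3594 33 tpr645.df))))))) (.node (.node (.node (.node (.node (.node (.leaf (.fwd 3627 25 tpr1733.df)) (.leaf (.bwd 3652 26 tpr2272.df))) (.leaf (.fwd 3678 37 tpr2334.df))) (.node (.leaf (.bwd 3715 31 tpr2149.df)) (.leaf (.fwd 3746 39 tpr1900.df)))) (.node (.node (.leaf (.fwd 3785 35 tpr2166.df)) (.leaf (.bwd 3820 33 tpr1099.df))) (.node (.leaf (.fwd 3853 27 tpr506.df)) (.leaf (.bwd 3880 33 tpr2154.df))))) (.node (.node (.node (.node (.leaf (.bwd 3913 29 tpr2531.df))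 (.leaf (.bwd 3942 30 tpr997.df))) (.leaf (.bwd 3972 37 tpr2164.df))) (.node (.leaf (.bwd 4009 28 tpr2126.df)) (.leaf (.bwd 4037 33 tpr2513.df)))) (.node (.node (.leaf (.fwd 4070 33 tpr1215.df)) (.leaf (.bwd 4103 40 tpr2556.df))) (.node (.leaf (.fwd 4143 29 tpr2667.df)) (.leaf (.fwd 4172 35 tpr2229.df)))))) (.node (.node (.node (.node (.node (.leaf (.fwd 4207 35 tpr2262.df)) (.leaf (.fwd 4242 31 tpr2150.df))) (.leaf (.fwd 4273 38 tpr2231.df))) (.node (.leaf (.bwd 4311 34 tpr15.df)) (.leaf (.fwd 4345 31 tpr2256.df)))) (.node (.node (.leaf (.fwd 4376 26 tpr2515.df)) (.leaf (.bwd 4402 31 tpr2130.df))) (.node (.leaf (.bwd 4433 34 tpr2279.df)) (.leaf (.bwd 4467 27 tpr1247.df))))) (.node (.node (.node (.node (.leaf (.bwd 4494 34 tpr2512.df)) (.leaf (.bwd 4528 39 tpr1001.df))) (.leaf (.fwd 4567 44 tpr2189.df))) (.node (.leaf (.fwd 4611 46 tpr1765.df)) (.leaf (.fwd 4657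 49 tpr1647.df)))) (.node (.node (.leaf (.bwd 4706 42 tpr2233.df)) (.leaf (.fwd 4748 33 tpr2356.df))) (.node (.leaf (.fwd 4781 28 tpr627.df)) (.leaf (.fwd 4809 34 tpr1764.df))))))))) (.node (.node (.node (.node (.node (.node (.node (.node (.leaf (.fwd 4843 32 tpr247.df)) (.leaf (.bwd 4875 45 tpr2544.df))) (.leaf (.bwd 4920 36 tpr2208.df))) (.node (.leaf (.bwd 4956 19 tpr616.df)) (.leaf (.fwd 4975 38 tpr1767.df)))) (.node (.node (.node (.leaf (.fwd 5013 28 tpr2492.df)) (.leaf (.fwd 5041 22 tpr191.df))) (.leaf (.bwd 5063 31 tpr167.df))) (.node (.leaf (.bwd 5094 35 tpr1028.df)) (.leaf (.bwd 5129 22 tpr581.df))))) (.node (.node (.node (.node (.leaf (.fwd 5151 22 tpr982.df)) (.leaf (.fwd 5173 23 tpr508.df))) (.leaf (.fwd 5196 34 tpr619.df))) (.node (.leaf (.fwd 5230 30 tpr2167.df)) (.leaf (.bwd 5260 43 tpr2125.df)))) (.node (.node (.leaf (.fwd 5303 29 tpr2500.df)) (.leaf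 (.bwd 5332 34 tpr2504.df))) (.node (.leaf (.fwd 5366 48 tpr2177.df)) (.leaf (.fwd 5414 39 tpr210.df)))))) (.node (.node (.node (.node (.node (.leaf (.fwd 5453 40 tpr2546.df)) (.leaf (.fwd 5493 42 tpr2543.df))) (.leaf (.bwd 5535 39 tpr2123.df))) (.node (.leaf (.bwd 5574 31 tpr2498.df)) (.leaf (.bwd 5605 30 tpr2588.df)))) (.node (.node (.leaf (.fwd 5635 37 tpr2497.df)) (.leaf (.fwd 5672 28 tpr2236.df))) (.node (.leaf (.bwd 5700 43 tpr2491.df)) (.leaf (.fwd 5743 59 tpr2526.df))))) (.node (.node (.node (.node (.leaf (.bwd 5802 31 tpr2499.df)) (.leaf (.fwd 5833 62 tpr1754.df))) (.leaf (.fwd 5895 35 tpr2490.df))) (.node (.leaf (.fwd 5930 50 tpr2489.df)) (.leaf (.fwd 5980 60 tpr2495.df)))) (.node (.node (.leaf (.fwd 6040 38 tpr2116.df)) (.leaf (.fwd 6078 51 tpr2525.df))) (.node (.leaf (.bwd 6129 36 tpr2278.df)) (.leaf (.bwd 6165 51 tpr2505.df))))))) (.node (.node (.node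 (.node (.node (.node (.leaf (.fwd 6216 44 tpr2506.df)) (.leaf (.bwd 6260 27 tpr2496.df))) (.leaf (.bwd 6287 40 tpr2005.df))) (.node (.leaf (.fwd 6327 36 tpr2511.df)) (.leaf (.bwd 6363 32 tpr2528.df)))) (.node (.node (.leaf (.fwd 6395 42 tpr1138.df)) (.leaf (.bwd 6437 36 tpr1644.df))) (.node (.leaf (.bwd 6473 32 tpr1065.df)) (.leaf (.fwd 6505 27 tpr2267.df))))) (.node (.node (.node (.node (.leaf (.fwd 6532 42 tpr2542.df)) (.leaf (.bwd 6574 41 tpr2214.df))) (.leaf (.fwd 6615 51 tpr2226.df))) (.node (.leaf (.fwd 6666 25 tpr2255.df)) (.leaf (.fwd 6691 33 tpr1664.df)))) (.node (.node (.leaf (.fwd 6724 35 tpr2537.df)) (.leaf (.fwd 6759 34 tpr2259.df))) (.node (.leaf (.bwd 6793 50 tpr2206.df)) (.leaf (.fwd 6843 42 tpr344.df)))))) (.node (.node (.node (.node (.node (.leaf (.bwd 6885 60 tpr1145.df)) (.leaf (.fwd 6945 25 tpr2679.df))) (.leaf (.bwd 6970 32 tpr1692.df))) (.node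 (.leaf (.fwd 7002 27 tpr589.df)) (.leaf (.fwd 7029 39 tpr1653.df)))) (.node (.node (.leaf (.fwd 7068 37 tpr2239.df)) (.leaf (.fwd 7105 31 tpr198.df))) (.node (.leaf (.bwd 7136 39 tpr2529.df)) (.leaf (.bwd 7175 27 tpr2685.df))))) (.node (.node (.node (.node (.leaf (.bwd 7202 34 tpr1206.df)) (.leaf (.bwd 7236 39 tpr615.df))) (.leaf (.fwd 7275 32 tpr17.df))) (.node (.leaf (.bwd 7307 29 tpr2269.df)) (.leaf (.bwd 7336 36 tpr2509.df)))) (.node (.node (.leaf (.bwd 7372 35 tpr2131.df)) (.leaf (.bwd 7407 35 tpr2215.df))) (.node (.leaf (.fwd 7442 31 tpr2673.df)) (.leaf (.fwd 7473 40 tpr2683.df)))))))) (.node (.node (.node (.node (.node (.node (.node (.leaf (.fwd 7513 32 tpr1051.df)) (.leaf (.bwd 7545 26 tpr360.df))) (.leaf (.fwd 7571 35 tpr89.df))) (.node (.leaf (.fwd 7606 46 tpr2153.df)) (.leaf (.bwd 7652 35 tpr2689.df)))) (.node (.node (.node (.leaf (.bwd 7687 45 tpr2688.df))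 (.leaf (.bwd 7732 30 tpr2614.df))) (.leaf (.bwd 7762 22 tpr504.df))) (.node (.leaf (.fwd 7784 37 tpr555.df)) (.leaf (.fwd 7821 32 tpr1633.df))))) (.node (.node (.node (.node (.leaf (.bwd 7853 41 tpr1182.df)) (.leaf (.fwd 7894 30 tpr744.df))) (.leaf (.fwd 7924 38 tpr1554.df))) (.node (.leaf (.bwd 7962 58 tpr2230.df)) (.leaf (.bwd 8020 48 tpr2114.df)))) (.node (.node (.leaf (.bwd 8068 49 tpr2137.df)) (.leaf (.bwd 8117 28 tpr2112.df))) (.node (.leaf (.bwd 8145 44 tpr2242.df)) (.leaf (.fwd 8189 23 tpr456.df)))))) (.node (.node (.node (.node (.node (.leaf (.fwd 8212 39 tpr479.df)) (.leaf (.fwd 8251 24 tpr454.df))) (.leaf (.fwd 8275 35 tpr485.df))) (.node (.leaf (.fwd 8310 35 tpr1313.df)) (.leaf (.bwd 8345 28 tpr477.df)))) (.node (.node (.leaf (.bwd 8373 25 tpr106.df)) (.leaf (.fwd 8398 29 tpr582.df))) (.node (.leaf (.fwd 8427 44 tpr617.df)) (.leaf (.bwd 8471 42 tpr2217.df)))))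 (.node (.node (.node (.node (.leaf (.fwd 8513 32 tpr2277.df)) (.leaf (.bwd 8545 35 tpr849.df))) (.leaf (.bwd 8580 36 tpr1346.df))) (.node (.leaf (.fwd 8616 33 tpr2593.df)) (.leaf (.fwd 8649 36 tpr2699.df)))) (.node (.node (.leaf (.fwd 8685 25 tpr2696.df)) (.leaf (.bwd 8710 40 tpr62.df))) (.node (.leaf (.fwd 8750 32 tpr2704.df)) (.leaf (.bwd 8782 26 tpr2703.df))))))) (.node (.node (.node (.node (.node (.node (.leaf (.fwd 8808 28 tpr2698.df)) (.leaf (.bwd 8836 35 tpr2244.df))) (.leaf (.fwd 8871 30 tpr2705.df))) (.node (.leaf (.bwd 8901 55 tpr2187.df)) (.leaf (.fwd 8956 35 tpr2594.df)))) (.node (.node (.leaf (.fwd 8991 32 tpr1479.df)) (.leaf (.bwd 9023 31 tpr2595.df))) (.node (.leaf (.bwd 9054 26 tpr2712.df)) (.leaf (.fwd 9080 45 tpr2695.df))))) (.node (.node (.node (.node (.leaf (.fwd 9125 31 tpr1469.df)) (.leaf (.bwd 9156 27 tpr1476.df))) (.leaf (.fwd 9183 44 tpr2701.df)))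 (.node (.leaf (.fwd 9227 44 tpr2591.df)) (.leaf (.fwd 9271 45 tpr2917.df)))) (.node (.node (.leaf (.fwd 9316 61 tpr2671.df)) (.leaf (.fwd 9377 34 tpr2697.df))) (.node (.leaf (.bwd 9411 40 tpr2694.df)) (.leaf (.bwd 9451 33 tpr2718.df)))))) (.node (.node (.node (.node (.node (.leaf (.bwd 9484 25 tpr2706.df)) (.leaf (.fwd 9509 28 tpr2551.df))) (.leaf (.fwd 9537 29 tpr2668.df))) (.node (.leaf (.fwd 9566 46 tpr2700.df)) (.leaf (.bwd 9612 40 tpr2707.df)))) (.node (.node (.leaf (.bwd 9652 43 tpr2730.df)) (.leaf (.fwd 9695 31 tpr2246.df))) (.node (.leaf (.fwd 9726 42 tpr2721.df)) (.leaf (.bwd 9768 27 tpr2722.df))))) (.node (.node (.node (.node (.leaf (.fwd 9795 45 tpr2727.df)) (.leaf (.bwd 9840 31 tpr2729.df))) (.leaf (.bwd 9871 25 tpr1257.df))) (.node (.leaf (.fwd 9896 29 tpr464.df)) (.leaf (.bwd 9925 32 tpr2243.df)))) (.node (.node (.leaf (.fwd 9957 23 tpr605.df)) (.leaf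 (.bwd 9980 36 tpr453.df))) (.node (.leaf (.bwd 10016 28 tpr2648.df)) (.leaf (.fwd 10044 32 tpr591.df))))))))))

theorem iiNF2BzAyE2ByA3H2AzIzAyB2H3A2E2A2AzAyBzF_c : iiNF2BzAyE2ByA3H2AzIzAyB2H3A2E2A2AzAyBzF.all (itB (ng 62 nnNF2BzAyE2ByA3H2AzIzAyB2H3A2E2A2AzAyBzF)) = true := by decide +kernel
theorem nbNF2BzAyE2ByA3H2AzIzAyB2H3A2E2A2AzAyBzF : nbB 62 10138 nnNF2BzAyE2ByA3H2AzIzAyB2H3A2E2A2AzAyBzF = true := by decide +kernel
theorem topNF2BzAyE2ByA3H2AzIzAyB2H3A2E2A2AzAyBzF : topY 10138 ttNF2BzAyE2ByA3H2AzIzAyB2H3A2E2A2AzAyBzF ceNF2BzAyE2ByA3H2AzIzAyB2H3A2E2A2AzAyBzF xNF2BzAyE2ByA3H2AzIzAyB2H3A2E2A2AzAyBzF iiNF2BzAyE2ByA3H2AzIzAyB2H3A2E2A2AzAyBzF = true := by decide +kernel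

end MPb6R
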