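import Pool.Agent.Lib.MP_b6d339_lc.Cw3.YF2BzE2A3H3AyB2EzF
import Pool.Agent.Lib.MP_b6d339_lc.Cw3.XL
import Pool.Agent.Lib.MP_b6d339_lc.Cw3.T0
import Pool.Agent.Lib.MP_b6d339_lc.Cw3.T1
import Pool.Agent.Lib.MP_b6d339_lc.Cw3.T10
import Pool.Agent.Lib.MP_b6d339_lc.Cw3.T11
import Pool.Agent.Lib.MP_b6d339_lc.Cw3.T12
import Pool.Agent.Lib.MP_b6d339_lc.Cw3.T13
import Pool.Agent.Lib.MP_b6d339_lc.Cw3.T14
import Pool.Agent.Lib.MP_b6d339_lc.Cw3.T15
import Pool.Agent.Lib.MP_b6d339_lc.Cw3.T17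
import Pool.Agent.Lib.MP_b6d339_lc.Cw3.T18
import Pool.Agent.Lib.MP_b6d339_lc.Cw3.T19
import Pool.Agent.Lib.MP_b6d339_lc.Cw3.T2
import Pool.Agent.Lib.MP_b6d339_lc.Cw3.T20
import Pool.Agent.Lib.MP_b6d339_lc.Cw3.T22
import Pool.Agent.Lib.MP_b6d339_lc.Cw3.T23
import Pool.Agent.Lib.MP_b6d339_lc.Cw3.T24
import Pool.Agent.Lib.MP_b6d339_lc.Cw3.T25
import Pool.Agent.Lib.MP_b6d339_lc.Cw3.T26
import Pool.Agent.Lib.MP_b6d339_lc.Cw3.T3
import Pool.Agent.Lib.MP_b6d339_lc.Cw3.T4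
import Pool.Agent.Lib.MP_b6d339_lc.Cw3.T5
import Pool.Agent.Lib.MP_b6d339_lc.Cw3.T6
import Pool.Agent.Lib.MP_b6d339_lc.Cw3.T7
import Pool.Agent.Lib.MP_b6d339_lc.Cw3.T8
import Pool.Agent.Lib.MP_b6d339_lc.Cw3.T9

/-!
# Erdős 592, three levels: items
-/

namespace MPb6R

open MPb6P

noncomputable def iiNF2BzE2A3H3AyB2EzF : BT Itm := (.node (.node (.node (.node (.node (.node (.node (.node (.leaf (.fwd 0 23 tpr508.df)) (.leaf (.fwd 23 28 tpr511.df))) (.node (.leaf (.bwd 51 20 tpr505.df)) (.leaf (.bwd 71 33 tpr968.df)))) (.node (.node (.leaf (.bwd 104 23 tpr5.df)) (.leaf (.bwd 127 21 tpr8.df))) (.node (.leaf (.fwd 148 31 tpr607.df)) (.leaf (.fwd 179 27 tpr82.df))))) (.node (.node (.node (.leaf (.bwd 206 29 tpr656.df)) (.leaf (.bwd 235 16 tpr168.df))) (.node (.leaf (.fwd 251 32 tpr518.df)) (.leaf (.bwd 283 29 tpr608.df)))) (.node (.node (.leaf (.bwd 312 35 tpr89.df)) (.leaf (.fwd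 347 31 tpr606.df))) (.leaf (.bwd 378 34 tpr619.df))))) (.node (.node (.node (.node (.leaf (.bwd 412 32 tpr591.df)) (.leaf (.fwd 444 27 tpr236.df))) (.node (.leaf (.fwd 471 21 tpr90.df)) (.leaf (.bwd 492 31 tpr1532.df)))) (.node (.node (.leaf (.bwd 523 29 tpr618.df)) (.leaf (.fwd 552 36 tpr547.df))) (.node (.leaf (.bwd 588 31 tpr527.df)) (.leaf (.fwd 619 40 tpr62.df))))) (.node (.node (.node (.leaf (.bwd 659 37 tpr553.df)) (.leaf (.bwd 696 32 tpr620.df))) (.node (.leaf (.bwd 728 34 tpr548.df)) (.leaf (.fwd 762 16 tpr804.df)))) (.node (.node (.leaf (.bwd 778 22 tpr572.df)) (.leaf (.fwd 800 25 tpr644.df))) (.leaf (.fwd 825 28 tpr223.df)))))) (.node (.node (.node (.node (.node (.leaf (.fwd 853 34 tpr628.df)) (.leaf (.bwd 887 28 tpr1666.df))) (.node (.leaf (.bwd 915 30 tpr989.df)) (.leaf (.fwd 945 36 tpr634.df)))) (.node (.node (.leaf (.fwd 981 33 tpr661.df)) (.leaf (.bwd 1014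 37 tpr639.df))) (.node (.leaf (.fwd 1051 33 tpr1205.df)) (.leaf (.fwd 1084 36 tpr935.df))))) (.node (.node (.node (.leaf (.bwd 1120 35 tpr622.df)) (.leaf (.fwd 1155 37 tpr1570.df))) (.node (.leaf (.bwd 1192 35 tpr1904.df)) (.leaf (.bwd 1227 42 tpr1912.df)))) (.node (.node (.leaf (.fwd 1269 30 tpr537.df)) (.leaf (.fwd 1299 41 tpr549.df))) (.leaf (.fwd 1340 26 tpr675.df))))) (.node (.node (.node (.node (.leaf (.bwd 1366 29 tpr641.df)) (.leaf (.fwd 1395 49 tpr1665.df))) (.node (.leaf (.fwd 1444 40 tpr1905.df)) (.leaf (.fwd 1484 38 tpr1552.df)))) (.node (.node (.leaf (.bwd 1522 28 tpr225.df)) (.leaf (.fwd 1550 30 tpr513.df))) (.node (.leaf (.fwd 1580 20 tpr48.df)) (.leaf (.bwd 1600 35 tpr568.df))))) (.node (.node (.node (.leaf (.fwd 1635 27 tpr524.df)) (.leaf (.bwd 1662 33 tpr501.df))) (.node (.leaf (.fwd 1695 33 tpr645.df)) (.leaf (.bwd 1728 39 tpr210.df)))) (.node (.node (.leaf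 (.bwd 1767 33 tpr2080.df)) (.leaf (.fwd 1800 19 tpr429.df))) (.leaf (.bwd 1819 24 tpr609.df))))))) (.node (.node (.node (.node (.node (.node (.leaf (.bwd 1843 29 tpr1457.df)) (.leaf (.bwd 1872 29 tpr22.df))) (.node (.leaf (.fwd 1901 28 tpr507.df)) (.leaf (.fwd 1929 26 tpr509.df)))) (.node (.node (.leaf (.bwd 1955 37 tpr555.df)) (.leaf (.fwd 1992 29 tpr582.df))) (.node (.leaf (.bwd 2021 19 tpr616.df)) (.leaf (.fwd 2040 38 tpr519.df))))) (.node (.node (.node (.leaf (.fwd 2078 29 tpr545.df)) (.leaf (.bwd 2107 45 tpr596.df))) (.node (.leaf (.fwd 2152 21 tpr629.df)) (.leaf (.fwd 2173 22 tpr504.df)))) (.node (.node (.leaf (.bwd 2195 20 tpr103.df)) (.leaf (.bwd 2215 39 tpr642.df))) (.leaf (.fwd 2254 24 tpr458.df))))) (.node (.node (.node (.node (.leaf (.bwd 2278 24 tpr1544.df)) (.leaf (.bwd 2302 36 tpr75.df))) (.node (.leaf (.bwd 2338 18 tpr648.df)) (.leaf (.bwd 2356 22 tpr515.df))))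 (.node (.node (.leaf (.bwd 2378 22 tpr191.df)) (.leaf (.fwd 2400 30 tpr626.df))) (.node (.leaf (.fwd 2430 40 tpr966.df)) (.leaf (.fwd 2470 33 tpr44.df))))) (.node (.node (.node (.leaf (.fwd 2503 27 tpr506.df)) (.leaf (.bwd 2530 32 tpr251.df))) (.node (.leaf (.bwd 2562 26 tpr245.df)) (.leaf (.fwd 2588 41 tpr552.df)))) (.node (.node (.leaf (.bwd 2629 34 tpr664.df)) (.leaf (.bwd 2663 38 tpr526.df))) (.leaf (.bwd 2701 37 tpr687.df)))))) (.node (.node (.node (.node (.node (.leaf (.fwd 2738 36 tpr23.df)) (.leaf (.bwd 2774 33 tpr538.df))) (.node (.leaf (.fwd 2807 31 tpr517.df)) (.leaf (.bwd 2838 28 tpr610.df)))) (.node (.node (.leaf (.fwd 2866 32 tpr1065.df)) (.leaf (.fwd 2898 38 tpr1542.df))) (.node (.leaf (.fwd 2936 24 tpr667.df)) (.leaf (.bwd 2960 29 tpr666.df))))) (.node (.node (.node (.leaf (.fwd 2989 27 tpr499.df)) (.leaf (.fwd 3016 38 tpr203.df))) (.node (.leaf (.fwd 3054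 21 tpr72.df)) (.leaf (.fwd 3075 28 tpr510.df)))) (.node (.node (.leaf (.fwd 3103 25 tpr106.df)) (.leaf (.bwd 3128 38 tpr203.df))) (.leaf (.fwd 3166 42 tpr612.df))))) (.node (.node (.node (.node (.leaf (.fwd 3208 32 tpr247.df)) (.leaf (.bwd 3240 37 tpr681.df))) (.node (.leaf (.fwd 3277 48 tpr684.df)) (.leaf (.fwd 3325 28 tpr1406.df)))) (.node (.node (.leaf (.bwd 3353 33 tpr521.df)) (.leaf (.fwd 3386 30 tpr235.df))) (.node (.leaf (.fwd 3416 31 tpr1571.df)) (.leaf (.bwd 3447 26 tpr516.df))))) (.node (.node (.node (.leaf (.bwd 3473 29 tpr1540.df)) (.leaf (.bwd 3502 31 tpr704.df))) (.node (.leaf (.bwd 3533 29 tpr692.df)) (.leaf (.fwd 3562 37 tpr583.df)))) (.node (.node (.leaf (.fwd 3599 44 tpr592.df)) (.leaf (.bwd 3643 40 tpr1863.df))) (.leaf (.fwd 3683 41 tpr1970.df)))))))) (.node (.node (.node (.node (.node (.node (.node (.leaf (.fwd 3724 27 tpr589.df)) (.leaf (.bwd 3751 29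 tpr9.df))) (.node (.leaf (.bwd 3780 18 tpr18.df)) (.leaf (.bwd 3798 27 tpr625.df)))) (.node (.node (.leaf (.bwd 3825 28 tpr721.df)) (.leaf (.fwd 3853 35 tpr461.df))) (.node (.leaf (.bwd 3888 37 tpr523.df)) (.leaf (.bwd 3925 39 tpr514.df))))) (.node (.node (.node (.leaf (.bwd 3964 32 tpr522.df)) (.leaf (.fwd 3996 37 tpr1861.df))) (.node (.leaf (.bwd 4033 30 tpr626.df)) (.leaf (.bwd 4063 25 tpr51.df)))) (.node (.node (.leaf (.fwd 4088 26 tpr599.df)) (.leaf (.fwd 4114 29 tpr1834.df))) (.leaf (.fwd 4143 27 tpr682.df))))) (.node (.node (.node (.node (.leaf (.bwd 4170 45 tpr611.df)) (.leaf (.bwd 4215 36 tpr573.df))) (.node (.leaf (.bwd 4251 37 tpr520.df)) (.leaf (.fwd 4288 32 tpr963.df)))) (.node (.node (.leaf (.fwd 4320 25 tpr1266.df)) (.leaf (.bwd 4345 46 tpr593.df))) (.node (.leaf (.bwd 4391 43 tpr676.df)) (.leaf (.bwd 4434 37 tpr1199.df))))) (.node (.node (.node (.leaf (.bwd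 4471 25 tpr2077.df)) (.leaf (.bwd 4496 30 tpr613.df))) (.node (.leaf (.fwd 4526 36 tpr1194.df)) (.leaf (.bwd 4562 37 tpr503.df)))) (.node (.node (.leaf (.bwd 4599 23 tpr632.df)) (.leaf (.bwd 4622 30 tpr603.df))) (.leaf (.bwd 4652 30 tpr1547.df)))))) (.node (.node (.node (.node (.node (.leaf (.bwd 4682 27 tpr562.df)) (.leaf (.bwd 4709 27 tpr584.df))) (.node (.leaf (.bwd 4736 29 tpr151.df)) (.leaf (.fwd 4765 31 tpr939.df)))) (.node (.node (.leaf (.bwd 4796 13 tpr500.df)) (.leaf (.fwd 4809 20 tpr505.df))) (.node (.leaf (.bwd 4829 25 tpr74.df)) (.leaf (.fwd 4854 29 tpr978.df))))) (.node (.node (.node (.leaf (.bwd 4883 27 tpr82.df)) (.leaf (.fwd 4910 43 tpr122.df))) (.node (.leaf (.fwd 4953 28 tpr627.df)) (.leaf (.fwd 4981 25 tpr2079.df)))) (.node (.node (.leaf (.fwd 5006 41 tpr1637.df)) (.leaf (.fwd 5047 35 tpr703.df))) (.leaf (.fwd 5082 35 tpr602.df))))) (.node (.node (.node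 (.node (.leaf (.bwd 5117 36 tpr662.df)) (.leaf (.bwd 5153 36 tpr686.df))) (.node (.leaf (.bwd 5189 34 tpr628.df)) (.leaf (.fwd 5223 37 tpr1052.df)))) (.node (.node (.leaf (.bwd 5260 32 tpr294.df)) (.leaf (.bwd 5292 31 tpr576.df))) (.node (.leaf (.fwd 5323 26 tpr222.df)) (.leaf (.bwd 5349 30 tpr26.df))))) (.node (.node (.node (.leaf (.bwd 5379 33 tpr680.df)) (.leaf (.fwd 5412 35 tpr1605.df))) (.node (.leaf (.bwd 5447 22 tpr239.df)) (.leaf (.fwd 5469 35 tpr123.df)))) (.node (.node (.leaf (.fwd 5504 41 tpr1126.df)) (.leaf (.fwd 5545 31 tpr557.df))) (.leaf (.fwd 5576 34 tpr15.df))))))) (.node (.node (.node (.node (.node (.node (.leaf (.fwd 5610 28 tpr2076.df)) (.leaf (.fwd 5638 40 tpr705.df))) (.node (.leaf (.bwd 5678 33 tpr631.df)) (.leaf (.bwd 5711 18 tpr161.df)))) (.node (.node (.leaf (.fwd 5729 20 tpr2075.df)) (.leaf (.bwd 5749 15 tpr525.df))) (.node (.leaf (.fwd 5764 23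 tpr133.df)) (.leaf (.bwd 5787 20 tpr2078.df))))) (.node (.node (.node (.leaf (.bwd 5807 17 tpr215.df)) (.leaf (.fwd 5824 39 tpr1559.df))) (.node (.leaf (.fwd 5863 31 tpr167.df)) (.leaf (.bwd 5894 27 tpr499.df)))) (.node (.node (.leaf (.bwd 5921 25 tpr10.df)) (.leaf (.bwd 5946 20 tpr216.df))) (.leaf (.bwd 5966 25 tpr95.df))))) (.node (.node (.node (.node (.leaf (.bwd 5991 21 tpr107.df)) (.leaf (.fwd 6012 29 tpr9.df))) (.node (.leaf (.fwd 6041 26 tpr516.df)) (.leaf (.fwd 6067 18 tpr18.df)))) (.node (.node (.leaf (.bwd 6085 21 tpr25.df)) (.leaf (.bwd 6106 30 tpr45.df))) (.node (.leaf (.fwd 6136 19 tpr2081.df)) (.leaf (.bwd 6155 23 tpr12.df))))) (.node (.node (.node (.leaf (.fwd 6178 44 tpr725.df)) (.leaf (.fwd 6222 25 tpr1583.df))) (.node (.leaf (.bwd 6247 34 tpr92.df)) (.leaf (.fwd 6281 41 tpr97.df)))) (.node (.node (.leaf (.fwd 6322 38 tpr6.df)) (.leaf (.fwd 6360 24 tpr24.df)))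 (.leaf (.bwd 6384 36 tpr23.df)))))) (.node (.node (.node (.node (.node (.leaf (.fwd 6420 39 tpr636.df)) (.leaf (.fwd 6459 27 tpr979.df))) (.node (.leaf (.fwd 6486 28 tpr588.df)) (.leaf (.bwd 6514 23 tpr559.df)))) (.node (.node (.leaf (.bwd 6537 17 tpr16.df)) (.leaf (.fwd 6554 25 tpr1908.df))) (.node (.leaf (.fwd 6579 33 tpr501.df)) (.leaf (.fwd 6612 27 tpr1247.df))))) (.node (.node (.node (.leaf (.fwd 6639 27 tpr1553.df)) (.leaf (.fwd 6666 32 tpr17.df))) (.node (.leaf (.bwd 6698 31 tpr339.df)) (.leaf (.fwd 6729 29 tpr714.df)))) (.node (.node (.leaf (.fwd 6758 34 tpr1251.df)) (.leaf (.bwd 6792 37 tpr621.df))) (.leaf (.bwd 6829 37 tpr720.df))))) (.node (.node (.node (.node (.leaf (.bwd 6866 38 tpr393.df)) (.leaf (.fwd 6904 60 tpr1862.df))) (.node (.leaf (.fwd 6964 34 tpr54.df)) (.leaf (.fwd 6998 24 tpr730.df)))) (.node (.node (.leaf (.fwd 7022 28 tpr295.df)) (.leaf (.fwd 7050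 41 tpr502.df))) (.node (.leaf (.fwd 7091 39 tpr81.df)) (.leaf (.bwd 7130 41 tpr502.df))))) (.node (.node (.node (.leaf (.bwd 7171 30 tpr320.df)) (.leaf (.bwd 7201 42 tpr2083.df))) (.node (.leaf (.fwd 7243 24 tpr789.df)) (.leaf (.fwd 7267 56 tpr87.df)))) (.node (.node (.leaf (.bwd 7323 24 tpr24.df)) (.leaf (.bwd 7347 42 tpr733.df))) (.leaf (.bwd 7389 24 tpr293.df)))))))))

theorem iiNF2BzE2A3H3AyB2EzF_c : iiNF2BzE2A3H3AyB2EzF.all (itB (ng 60 nnNF2BzE2A3H3AyB2EzF)) = true := by decide +kernel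
theorem nbNF2BzE2A3H3AyB2EzF : nbB 60 7473 nnNF2BzE2A3H3AyB2EzF = true := by decide +kernel
theorem topNF2BzE2A3H3AyB2EzF : topY 7473 ttNF2BzE2A3H3AyB2EzF ceNF2BzE2A3H3AyB2EzF xNF2BzE2A3H3AyB2EzF iiNF2BzE2A3H3AyB2EzF = true := by decide +kernel

end MPb6R
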