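import Pool.Agent.Lib.MP_b6d339_lc.Cw3.YFyAzAzE2B3H3BzIzB2H3B2EzF
import Pool.Agent.Lib.MP_b6d339_lc.Cw3.XL
import Pool.Agent.Lib.MP_b6d339_lc.Cw3.T0
import Pool.Agent.Lib.MP_b6d339_lc.Cw3.T1
import Pool.Agent.Lib.MP_b6d339_lc.Cw3.T2
import Pool.Agent.Lib.MP_b6d339_lc.Cw3.T3
import Pool.Agent.Lib.MP_b6d339_lc.Cw3.T4
import Pool.Agent.Lib.MP_b6d339_lc.Cw3.T5

/-!
# Erdős 592, three levels: items
-/

namespace MPb6R

open MPb6P

noncomputable def iiNFyAzAzE2B3H3BzIzB2H3B2EzF : BT Itm := (.node (.node (.node (.node (.node (.node (.node (.node (.leaf (.bwd 0 6 tpr4.df)) (.leaf (.fwd 6 55 tpr314.df))) (.leaf (.fwd 61 23 tpr5.df))) (.node (.node (.leaf (.fwd 84 13 tpr11.df)) (.leaf (.bwd 97 21 tpr8.df))) (.leaf (.bwd 118 23 tpr5.df)))) (.node (.node (.node (.leaf (.fwd 141 35 tpr29.df)) (.leaf (.bwd 176 35 tpr13.df))) (.leaf (.fwd 211 17 tpr16.df))) (.node (.leaf (.bwd 228 25 tpr69.df))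 (.leaf (.bwd 253 29 tpr151.df))))) (.node (.node (.node (.node (.leaf (.fwd 282 31 tpr315.df)) (.leaf (.bwd 313 37 tpr316.df))) (.leaf (.fwd 350 46 tpr116.df))) (.node (.leaf (.fwd 396 28 tpr241.df)) (.leaf (.bwd 424 39 tpr78.df)))) (.node (.node (.node (.leaf (.bwd 463 39 tpr98.df)) (.leaf (.fwd 502 16 tpr220.df))) (.leaf (.bwd 518 17 tpr317.df))) (.node (.leaf (.fwd 535 17 tpr317.df)) (.leaf (.bwd 552 20 tpr42.df)))))) (.node (.node (.node (.node (.node (.leaf (.fwd 572 13 tpr14.df)) (.leaf (.bwd 585 36 tpr165.df))) (.leaf (.fwd 621 21 tpr318.df))) (.node (.leaf (.fwd 642 15 tpr319.df)) (.leaf (.fwd 657 30 tpr320.df)))) (.node (.node (.node (.leaf (.bwd 687 25 tpr51.df)) (.leaf (.fwd 712 31 tpr198.df))) (.leaf (.bwd 743 20 tpr102.df))) (.node (.leaf (.fwd 763 6 tpr4.df)) (.leaf (.bwd 769 23 tpr30.df))))) (.node (.node (.node (.node (.leaf (.fwd 792 24 tpr57.df)) (.leaf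 (.fwd 816 21 tpr90.df))) (.leaf (.bwd 837 24 tpr321.df))) (.node (.leaf (.fwd 861 27 tpr82.df)) (.leaf (.fwd 888 28 tpr27.df)))) (.node (.node (.node (.leaf (.bwd 916 36 tpr322.df)) (.leaf (.bwd 952 13 tpr11.df))) (.leaf (.fwd 965 24 tpr24.df))) (.node (.leaf (.bwd 989 39 tpr81.df)) (.leaf (.fwd 1028 21 tpr36.df))))))) (.node (.node (.node (.node (.node (.node (.leaf (.fwd 1049 43 tpr323.df)) (.leaf (.bwd 1092 50 tpr211.df))) (.leaf (.fwd 1142 46 tpr324.df))) (.node (.node (.leaf (.bwd 1188 29 tpr257.df)) (.leaf (.fwd 1217 36 tpr75.df))) (.leaf (.bwd 1253 25 tpr325.df)))) (.node (.node (.node (.leaf (.fwd 1278 25 tpr73.df)) (.leaf (.bwd 1303 41 tpr326.df))) (.leaf (.fwd 1344 37 tpr327.df))) (.node (.leaf (.fwd 1381 33 tpr129.df)) (.leaf (.bwd 1414 35 tpr328.df))))) (.node (.node (.node (.node (.leaf (.bwd 1449 30 tpr329.df)) (.leaf (.fwd 1479 20 tpr48.df))) (.leaf (.fwd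 1499 27 tpr134.df))) (.node (.leaf (.fwd 1526 26 tpr80.df)) (.leaf (.bwd 1552 40 tpr330.df)))) (.node (.node (.node (.leaf (.fwd 1592 30 tpr26.df)) (.leaf (.fwd 1622 21 tpr331.df))) (.leaf (.bwd 1643 45 tpr332.df))) (.node (.leaf (.fwd 1688 25 tpr74.df)) (.leaf (.bwd 1713 38 tpr125.df)))))) (.node (.node (.node (.node (.node (.leaf (.bwd 1751 35 tpr123.df)) (.leaf (.bwd 1786 27 tpr333.df))) (.leaf (.fwd 1813 26 tpr334.df))) (.node (.leaf (.bwd 1839 38 tpr335.df)) (.leaf (.bwd 1877 43 tpr336.df)))) (.node (.node (.node (.leaf (.bwd 1920 22 tpr83.df)) (.leaf (.bwd 1942 43 tpr122.df))) (.leaf (.bwd 1985 29 tpr121.df))) (.node (.leaf (.fwd 2014 25 tpr106.df)) (.leaf (.bwd 2039 22 tpr337.df))))) (.node (.node (.node (.node (.leaf (.fwd 2061 19 tpr338.df)) (.leaf (.fwd 2080 31 tpr339.df))) (.leaf (.bwd 2111 60 tpr190.df))) (.node (.leaf (.bwd 2171 26 tpr340.df)) (.leaf (.fwd 2197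 31 tpr341.df)))) (.node (.node (.node (.leaf (.bwd 2228 28 tpr156.df)) (.leaf (.bwd 2256 56 tpr87.df))) (.leaf (.fwd 2312 38 tpr342.df))) (.node (.leaf (.bwd 2350 48 tpr343.df)) (.leaf (.fwd 2398 42 tpr344.df)))))))) (.node (.node (.node (.node (.node (.node (.node (.leaf (.bwd 2440 41 tpr345.df)) (.leaf (.bwd 2481 24 tpr346.df))) (.leaf (.fwd 2505 24 tpr160.df))) (.node (.node (.leaf (.fwd 2529 50 tpr347.df)) (.leaf (.fwd 2579 39 tpr256.df))) (.leaf (.fwd 2618 19 tpr348.df)))) (.node (.node (.node (.leaf (.fwd 2637 26 tpr349.df)) (.leaf (.fwd 2663 42 tpr128.df))) (.leaf (.fwd 2705 33 tpr127.df))) (.node (.leaf (.fwd 2738 22 tpr350.df)) (.leaf (.fwd 2760 22 tpr351.df))))) (.node (.node (.node (.node (.leaf (.bwd 2782 34 tpr163.df)) (.leaf (.fwd 2816 44 tpr353.df))) (.leaf (.fwd 2860 39 tpr354.df))) (.node (.leaf (.fwd 2899 41 tpr355.df)) (.leaf (.bwd 2940 39 tpr356.df))))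 (.node (.node (.node (.leaf (.fwd 2979 25 tpr164.df)) (.leaf (.bwd 3004 40 tpr32.df))) (.leaf (.bwd 3044 35 tpr278.df))) (.node (.leaf (.fwd 3079 27 tpr56.df)) (.leaf (.bwd 3106 32 tpr359.df)))))) (.node (.node (.node (.node (.node (.leaf (.fwd 3138 26 tpr360.df)) (.leaf (.bwd 3164 31 tpr167.df))) (.leaf (.bwd 3195 42 tpr124.df))) (.node (.leaf (.bwd 3237 46 tpr361.df)) (.leaf (.fwd 3283 24 tpr66.df)))) (.node (.node (.node (.leaf (.fwd 3307 17 tpr362.df)) (.leaf (.bwd 3324 12 tpr363.df))) (.leaf (.bwd 3336 12 tpr364.df))) (.node (.leaf (.bwd 3348 34 tpr170.df)) (.leaf (.fwd 3382 24 tpr365.df))))) (.node (.node (.node (.node (.leaf (.bwd 3406 33 tpr366.df)) (.leaf (.bwd 3439 32 tpr367.df))) (.leaf (.bwd 3471 51 tpr368.df))) (.node (.leaf (.fwd 3522 41 tpr369.df)) (.leaf (.fwd 3563 22 tpr370.df)))) (.node (.node (.node (.leaf (.bwd 3585 17 tpr371.df)) (.leaf (.fwd 3602 28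 tpr372.df))) (.leaf (.bwd 3630 23 tpr374.df))) (.node (.leaf (.fwd 3653 37 tpr375.df)) (.leaf (.bwd 3690 28 tpr376.df))))))) (.node (.node (.node (.node (.node (.node (.leaf (.fwd 3718 49 tpr267.df)) (.leaf (.bwd 3767 42 tpr377.df))) (.leaf (.bwd 3809 23 tpr378.df))) (.node (.leaf (.bwd 3832 35 tpr379.df)) (.leaf (.fwd 3867 33 tpr44.df)))) (.node (.node (.node (.leaf (.bwd 3900 12 tpr228.df)) (.leaf (.fwd 3912 21 tpr381.df))) (.leaf (.bwd 3933 40 tpr382.df))) (.node (.leaf (.fwd 3973 17 tpr383.df)) (.leaf (.bwd 3990 35 tpr384.df))))) (.node (.node (.node (.node (.leaf (.fwd 4025 31 tpr385.df)) (.leaf (.fwd 4056 48 tpr173.df))) (.leaf (.fwd 4104 44 tpr386.df))) (.node (.leaf (.bwd 4148 52 tpr387.df)) (.leaf (.bwd 4200 54 tpr388.df)))) (.node (.node (.node (.leaf (.bwd 4254 28 tpr389.df)) (.leaf (.bwd 4282 33 tpr390.df))) (.leaf (.bwd 4315 28 tpr391.df))) (.node (.leaf (.fwd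 4343 36 tpr392.df)) (.leaf (.fwd 4379 38 tpr393.df)))))) (.node (.node (.node (.node (.node (.leaf (.fwd 4417 40 tpr394.df)) (.leaf (.fwd 4457 50 tpr396.df))) (.leaf (.bwd 4507 45 tpr397.df))) (.node (.leaf (.fwd 4552 27 tpr398.df)) (.leaf (.fwd 4579 52 tpr399.df)))) (.node (.node (.node (.leaf (.bwd 4631 37 tpr400.df)) (.leaf (.bwd 4668 25 tpr401.df))) (.leaf (.fwd 4693 26 tpr402.df))) (.node (.leaf (.fwd 4719 45 tpr403.df)) (.leaf (.bwd 4764 23 tpr404.df))))) (.node (.node (.node (.node (.leaf (.fwd 4787 46 tpr405.df)) (.leaf (.bwd 4833 37 tpr406.df))) (.leaf (.fwd 4870 53 tpr407.df))) (.node (.leaf (.fwd 4923 31 tpr408.df)) (.leaf (.fwd 4954 28 tpr409.df)))) (.node (.node (.node (.leaf (.fwd 4982 28 tpr410.df)) (.leaf (.fwd 5010 35 tpr411.df))) (.leaf (.bwd 5045 38 tpr412.df))) (.node (.leaf (.bwd 5083 32 tpr413.df)) (.leaf (.bwd 5115 18 tpr414.df)))))))))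

theorem iiNFyAzAzE2B3H3BzIzB2H3B2EzF_c : iiNFyAzAzE2B3H3BzIzB2H3B2EzF.all (itB (ng 60 nnNFyAzAzE2B3H3BzIzB2H3B2EzF)) = true := by decide +kernel
theorem nbNFyAzAzE2B3H3BzIzB2H3B2EzF : nbB 60 5193 nnNFyAzAzE2B3H3BzIzB2H3B2EzF = true := by decide +kernel
theorem topNFyAzAzE2B3H3BzIzB2H3B2EzF : topY 5193 ttNFyAzAzE2B3H3BzIzB2H3B2EzF ceNFyAzAzE2B3H3BzIzB2H3B2EzF xNFyAzAzE2B3H3BzIzB2H3B2EzF iiNFyAzAzE2B3H3BzIzB2H3B2EzF = true := by decide +kernel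

end MPb6R
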