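import Pool.Agent.Lib.MP_b6d339_lc.Cw3.YF2BzA2E2A3H2ByAzIzAyB2H3A2EzF

/-!
# Erdős 592, three levels: checks of claims
-/

namespace MPb6R

open MPb6P

theorem zoNF2BzA2E2A3H2ByAzIzAyB2H3A2EzF_0 : cyO 61 4518 nnNF2BzA2E2A3H2ByAzIzAyB2H3A2EzF ttNF2BzA2E2A3H2ByAzIzAyB2H3A2EzF ceNF2BzA2E2A3H2ByAzIzAyB2H3A2EzF xNF2BzA2E2A3H2ByAzIzAyB2H3A2EzF coNF2BzA2E2A3H2ByAzIzAyB2H3A2EzF_0 = true := by decide +kernel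

end MPb6R
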