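import Pool.Agent.Lib.MP_b6d339_lc.Cw3.YF2BzAyE2A3H2ByAzIzAyB2H3A2EyAzB2F

/-!
# Erdős 592, three levels: checks of claims
-/

namespace MPb6R

open MPb6P

theorem zoNF2BzAyE2A3H2ByAzIzAyB2H3A2EyAzB2F_0 : cyO 49 3451 nnNF2BzAyE2A3H2ByAzIzAyB2H3A2EyAzB2F ttNF2BzAyE2A3H2ByAzIzAyB2H3A2EyAzB2F ceNF2BzAyE2A3H2ByAzIzAyB2H3A2EyAzB2F xNF2BzAyE2A3H2ByAzIzAyB2H3A2EyAzB2F coNF2BzAyE2A3H2ByAzIzAyB2H3A2EyAzB2F_0 = true := by decide +kernel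

end MPb6R
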