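import Pool.Agent.Lib.MP_b6d339_lc.Cw3.YF2BzAyE2ByA3H2AzIzAyB2H3A2E2A2AzAyBzF

/-!
# Erdős 592, three levels: checks of claims
-/

namespace MPb6R

open MPb6P

theorem zeNF2BzAyE2ByA3H2AzIzAyB2H3A2E2A2AzAyBzF_10 : cyE 62 10138 nnNF2BzAyE2ByA3H2AzIzAyB2H3A2E2A2AzAyBzF ttNF2BzAyE2ByA3H2AzIzAyB2H3A2E2A2AzAyBzF coNF2BzAyE2ByA3H2AzIzAyB2H3A2E2A2AzAyBzF xNF2BzAyE2ByA3H2AzIzAyB2H3A2E2A2AzAyBzF ceNF2BzAyE2ByA3H2AzIzAyB2H3A2E2A2AzAyBzF_10 = true := by decide +kernel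

end MPb6R
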