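import Pool.Agent.Lib.MP_b6d339_lc.Cw3.YF2BzE2A3H3AyB2EzF

/-!
# Erdős 592, three levels: checks of claims
-/

namespace MPb6R

open MPb6P

theorem zoNF2BzE2A3H3AyB2EzF_4 : cyO 60 7473 nnNF2BzE2A3H3AyB2EzF ttNF2BzE2A3H3AyB2EzF ceNF2BzE2A3H3AyB2EzF xNF2BzE2A3H3AyB2EzF coNF2BzE2A3H3AyB2EzF_4 = true := by decide +kernel

end MPb6R
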