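import Pool.Agent.Lib.MP_b6d339_lc.Cw3.YFyAzAzE2B3H3BzIzB2H3B2EzF

/-!
# Erdős 592, three levels: checks of claims
-/

namespace MPb6R

open MPb6P

theorem zoNFyAzAzE2B3H3BzIzB2H3B2EzF_0 : cyO 60 5193 nnNFyAzAzE2B3H3BzIzB2H3B2EzF ttNFyAzAzE2B3H3BzIzB2H3B2EzF ceNFyAzAzE2B3H3BzIzB2H3B2EzF xNFyAzAzE2B3H3BzIzB2H3B2EzF coNFyAzAzE2B3H3BzIzB2H3B2EzF_0 = true := by decide +kernel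

theorem zeNFyAzAzE2B3H3BzIzB2H3B2EzF_0 : cyE 60 5193 nnNFyAzAzE2B3H3BzIzB2H3B2EzF ttNFyAzAzE2B3H3BzIzB2H3B2EzF coNFyAzAzE2B3H3BzIzB2H3B2EzF xNFyAzAzE2B3H3BzIzB2H3B2EzF ceNFyAzAzE2B3H3BzIzB2H3B2EzF_0 = true := by decide +kernel

end MPb6R
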