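import Pool.Agent.Lib.MP_b6d339_lc.Cw3.JF2BzA2E2A3H2ByAzIzAyB2H3A2EzF
import Pool.Agent.Lib.MP_b6d339_lc.Cw3.JF2BzAyE2A3H2ByAzIzAyB2H3A2EyAzB2F
import Pool.Agent.Lib.MP_b6d339_lc.Cw3.JF2BzAyE2ByA3H2AzIzAyB2H3A2E2A2AzAyBzF
import Pool.Agent.Lib.MP_b6d339_lc.Cw3.JF2BzE2A3H3AyB2EzF
import Pool.Agent.Lib.MP_b6d339_lc.Cw3.JFyAzAzE2B3H3BzIzB2H3B2EzF
import Pool.Agent.Lib.MP_b6d339_lc.Cw3.S10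
import Pool.Agent.Lib.MP_b6d339_lc.Cw3.S3
import Pool.Agent.Lib.MP_b6d339_lc.Cw3.S5
import Pool.Agent.Lib.MP_b6d339_lc.Cw3.S6
import Pool.Agent.Lib.MP_b6d339_lc.Cw3.S8
import Pool.Agent.Lib.MP_b6d339_lc.Cw3.S9
import Pool.Agent.Lib.MP_b6d339_lc.Cw3.T0
import Pool.Agent.Lib.MP_b6d339_lc.Cw3.T1
import Pool.Agent.Lib.MP_b6d339_lc.Cw3.T10
import Pool.Agent.Lib.MP_b6d339_lc.Cw3.T11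
import Pool.Agent.Lib.MP_b6d339_lc.Cw3.T12
import Pool.Agent.Lib.MP_b6d339_lc.Cw3.T13
import Pool.Agent.Lib.MP_b6d339_lc.Cw3.T14
import Pool.Agent.Lib.MP_b6d339_lc.Cw3.T15
import Pool.Agent.Lib.MP_b6d339_lc.Cw3.T16
import Pool.Agent.Lib.MP_b6d339_lc.Cw3.T17
import Pool.Agent.Lib.MP_b6d339_lc.Cw3.T18
import Pool.Agent.Lib.MP_b6d339_lc.Cw3.T19
import Pool.Agent.Lib.MP_b6d339_lc.Cw3.T2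
import Pool.Agent.Lib.MP_b6d339_lc.Cw3.T20
import Pool.Agent.Lib.MP_b6d339_lc.Cw3.T21
import Pool.Agent.Lib.MP_b6d339_lc.Cw3.T22
import Pool.Agent.Lib.MP_b6d339_lc.Cw3.T23
import Pool.Agent.Lib.MP_b6d339_lc.Cw3.T24
import Pool.Agent.Lib.MP_b6d339_lc.Cw3.T25
import Pool.Agent.Lib.MP_b6d339_lc.Cw3.T26
import Pool.Agent.Lib.MP_b6d339_lc.Cw3.T27
import Pool.Agent.Lib.MP_b6d339_lc.Cw3.T28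
import Pool.Agent.Lib.MP_b6d339_lc.Cw3.T29
import Pool.Agent.Lib.MP_b6d339_lc.Cw3.T3
import Pool.Agent.Lib.MP_b6d339_lc.Cw3.T30
import Pool.Agent.Lib.MP_b6d339_lc.Cw3.T31
import Pool.Agent.Lib.MP_b6d339_lc.Cw3.T32
import Pool.Agent.Lib.MP_b6d339_lc.Cw3.T33
import Pool.Agent.Lib.MP_b6d339_lc.Cw3.T34
import Pool.Agent.Lib.MP_b6d339_lc.Cw3.T36
import Pool.Agent.Lib.MP_b6d339_lc.Cw3.T4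
import Pool.Agent.Lib.MP_b6d339_lc.Cw3.T5
import Pool.Agent.Lib.MP_b6d339_lc.Cw3.T6
import Pool.Agent.Lib.MP_b6d339_lc.Cw3.T7
import Pool.Agent.Lib.MP_b6d339_lc.Cw3.T8
import Pool.Agent.Lib.MP_b6d339_lc.Cw3.T9
import Pool.Agent.Lib.MP_b6d339_lc.Cw3.XL
import Pool.Agent.Lib.MP_b6d339_lc.Cw3.ZF2BzA2E2A3H2ByAzIzAyB2H3A2EzF_0
import Pool.Agent.Lib.MP_b6d339_lc.Cw3.ZF2BzA2E2A3H2ByAzIzAyB2H3A2EzF_1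
import Pool.Agent.Lib.MP_b6d339_lc.Cw3.ZF2BzAyE2A3H2ByAzIzAyB2H3A2EyAzB2F_0
import Pool.Agent.Lib.MP_b6d339_lc.Cw3.ZF2BzAyE2A3H2ByAzIzAyB2H3A2EyAzB2F_1
import Pool.Agent.Lib.MP_b6d339_lc.Cw3.ZF2BzAyE2ByA3H2AzIzAyB2H3A2E2A2AzAyBzF_0
import Pool.Agent.Lib.MP_b6d339_lc.Cw3.ZF2BzAyE2ByA3H2AzIzAyB2H3A2E2A2AzAyBzF_1
import Pool.Agent.Lib.MP_b6d339_lc.Cw3.ZF2BzAyE2ByA3H2AzIzAyB2H3A2E2A2AzAyBzF_10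
import Pool.Agent.Lib.MP_b6d339_lc.Cw3.ZF2BzAyE2ByA3H2AzIzAyB2H3A2E2A2AzAyBzF_11
import Pool.Agent.Lib.MP_b6d339_lc.Cw3.ZF2BzAyE2ByA3H2AzIzAyB2H3A2E2A2AzAyBzF_12
import Pool.Agent.Lib.MP_b6d339_lc.Cw3.ZF2BzAyE2ByA3H2AzIzAyB2H3A2E2A2AzAyBzF_13
import Pool.Agent.Lib.MP_b6d339_lc.Cw3.ZF2BzAyE2ByA3H2AzIzAyB2H3A2E2A2AzAyBzF_14
import Pool.Agent.Lib.MP_b6d339_lc.Cw3.ZF2BzAyE2ByA3H2AzIzAyB2H3A2E2A2AzAyBzF_2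
import Pool.Agent.Lib.MP_b6d339_lc.Cw3.ZF2BzAyE2ByA3H2AzIzAyB2H3A2E2A2AzAyBzF_3
import Pool.Agent.Lib.MP_b6d339_lc.Cw3.ZF2BzAyE2ByA3H2AzIzAyB2H3A2E2A2AzAyBzF_4
import Pool.Agent.Lib.MP_b6d339_lc.Cw3.ZF2BzAyE2ByA3H2AzIzAyB2H3A2E2A2AzAyBzF_5
import Pool.Agent.Lib.MP_b6d339_lc.Cw3.ZF2BzAyE2ByA3H2AzIzAyB2H3A2E2A2AzAyBzF_6
import Pool.Agent.Lib.MP_b6d339_lc.Cw3.ZF2BzAyE2ByA3H2AzIzAyB2H3A2E2A2AzAyBzF_7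
import Pool.Agent.Lib.MP_b6d339_lc.Cw3.ZF2BzAyE2ByA3H2AzIzAyB2H3A2E2A2AzAyBzF_8
import Pool.Agent.Lib.MP_b6d339_lc.Cw3.ZF2BzAyE2ByA3H2AzIzAyB2H3A2E2A2AzAyBzF_9
import Pool.Agent.Lib.MP_b6d339_lc.Cw3.ZF2BzE2A3H3AyB2EzF_0
import Pool.Agent.Lib.MP_b6d339_lc.Cw3.ZF2BzE2A3H3AyB2EzF_1
import Pool.Agent.Lib.MP_b6d339_lc.Cw3.ZF2BzE2A3H3AyB2EzF_2
import Pool.Agent.Lib.MP_b6d339_lc.Cw3.ZF2BzE2A3H3AyB2EzF_3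
import Pool.Agent.Lib.MP_b6d339_lc.Cw3.ZF2BzE2A3H3AyB2EzF_4
import Pool.Agent.Lib.MP_b6d339_lc.Cw3.ZF2BzE2A3H3AyB2EzF_5
import Pool.Agent.Lib.MP_b6d339_lc.Cw3.ZFyAzAzE2B3H3BzIzB2H3B2EzF_0
import Pool.Agent.Lib.MP_b6d339_lc.Pos.XTreeC
import Pool.Agent.Lib.MP_b6d339_lc.Pos.YQ

/-!
# Erdős 592, three levels: classes of words
-/

namespace MPb6R

open MPb6P

theorem iiNA2AzE2B3I3B2EzF_k : iiNA2AzE2B3I3B2EzF.Fa (Itm.ok 206) := (BT.Fa_mk (BT.Fa_mk (BT.Fa_leaf (P := Itm.ok 206) (iqf tpr0_c)) (BT.Fa_leaf (P := Itm.ok 206) (iqb tpr1_c))) (BT.Fa_mk (BT.Fa_leaf (P := Itm.ok 206) (iqb tpr2_c)) (BT.Fa_leaf (P := Itm.ok 206) (iqf tpr3_c))))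

/-- all words of the class have labels -/
theorem pokNA2AzE2B3I3B2EzF : POK 206 xNA2AzE2B3I3B2EzF :=
  y_pok (C0 := ceNA2AzE2B3I3B2EzF) (C1 := coNA2AzE2B3I3B2EzF) topNA2AzE2B3I3B2EzF nbNA2AzE2B3I3B2EzF (BT.Fa_of_all iiNA2AzE2B3I3B2EzF_c)
    (cyE_spec zeNA2AzE2B3I3B2EzF_0)
    (cyO_spec zoNA2AzE2B3I3B2EzF_0)
    iiNA2AzE2B3I3B2EzF_k

theorem iiNBzE2A3H2AzIzA2H3AyB2EzF_k : iiNBzE2A3H2AzIzA2H3AyB2EzF.Fa (Itm.ok 206) := (BT.Fa_mk (BT.Fa_mk (BT.Fa_mk (BT.Fa_mk (BT.Fa_mk (BT.Fa_leaf (P := Itm.ok 206) (iqb tpr22_c)) (BT.Fa_leaf (P := Itm.ok 206) (iqf tpr499_c))) (BT.Fa_mk (BT.Fa_leaf (P := Itm.ok 206) (iqb tpr500_c)) (BT.Fa_leaf (P := Itm.ok 206) (iqb tpr8_c)))) (BT.Fa_mk (BT.Fa_mk (BT.Fa_leaf (P := Itm.ok 206) (iqb tpr505_c)) (BT.Fa_leaf (P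 := Itm.ok 206) (iqb tpr555_c))) (BT.Fa_leaf (P := Itm.ok 206) (iqf tpr507_c)))) (BT.Fa_mk (BT.Fa_mk (BT.Fa_mk (BT.Fa_leaf (P := Itm.ok 206) (iqf tpr509_c)) (BT.Fa_leaf (P := Itm.ok 206) (iqf tpr519_c))) (BT.Fa_leaf (P := Itm.ok 206) (iqb tpr568_c))) (BT.Fa_mk (BT.Fa_mk (BT.Fa_leaf (P := Itm.ok 206) (iqf tpr607_c)) (BT.Fa_leaf (P := Itm.ok 206) (iqb tpr616_c))) (BT.Fa_leaf (P := Itm.ok 206) (iqf tpr508_c))))) (BT.Fa_mk (BT.Fa_mk (BT.Fa_mk (BT.Fa_mk (BT.Fa_leaf (P := Itm.ok 206) (iqb tpr5_c)) (BT.Fa_leaf (P := Itm.ok 206) (iqf tpr511_c))) (BT.Fa_mk (BT.Fa_leaf (P := Itm.ok 206) (iqf tpr629_c)) (BT.Fa_leaf (P := Itm.ok 206) (iqb tpr10_c)))) (BT.Fa_mk (BT.Fa_mk (BT.Fa_leaf (P := Itm.ok 206) (iqf tpr545_c)) (BT.Fa_leaf (P := Itm.ok 206) (iqb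 tpr662_c))) (BT.Fa_leaf (P := Itm.ok 206) (iqf tpr566_c)))) (BT.Fa_mk (BT.Fa_mk (BT.Fa_mk (BT.Fa_leaf (P := Itm.ok 206) (iqf tpr602_c)) (BT.Fa_leaf (P := Itm.ok 206) (iqb tpr198_c))) (BT.Fa_leaf (P := Itm.ok 206) (iqb tpr507_c))) (BT.Fa_mk (BT.Fa_mk (BT.Fa_leaf (P := Itm.ok 206) (iqf tpr106_c)) (BT.Fa_leaf (P := Itm.ok 206) (iqf tpr647_c))) (BT.Fa_leaf (P := Itm.ok 206) (iqb tpr520_c))))))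

/-- all words of the class have labels -/
theorem pokNBzE2A3H2AzIzA2H3AyB2EzF : POK 206 xNBzE2A3H2AzIzA2H3AyB2EzF :=
  y_pok (C0 := ceNBzE2A3H2AzIzA2H3AyB2EzF) (C1 := coNBzE2A3H2AzIzA2H3AyB2EzF) topNBzE2A3H2AzIzA2H3AyB2EzF nbNBzE2A3H2AzIzA2H3AyB2EzF (BT.Fa_of_all iiNBzE2A3H2AzIzA2H3AyB2EzF_c)
    (cyE_spec zeNBzE2A3H2AzIzA2H3AyB2EzF_0)
    (cyO_spec zoNBzE2A3H2AzIzA2H3AyB2EzF_0)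
    iiNBzE2A3H2AzIzA2H3AyB2EzF_k

theorem iiNBzE2A3H2ByAzIzA2H3AyB2EzF_k : iiNBzE2A3H2ByAzIzA2H3AyB2EzF.Fa (Itm.ok 206) := (BT.Fa_mk (BT.Fa_mk (BT.Fa_mk (BT.Fa_mk (BT.Fa_mk (BT.Fa_leaf (P := Itm.ok 206) (iqb tpr5_c)) (BT.Fa_leaf (P := Itm.ok 206) (iqb tpr8_c))) (BT.Fa_mk (BT.Fa_leaf (P := Itm.ok 206) (iqb tpr500_c)) (BT.Fa_leaf (P := Itm.ok 206) (iqf tpr8_c)))) (BT.Fa_mk (BT.Fa_mk (BT.Fa_leaf (P := Itm.ok 206) (iqf tpr499_c)) (BT.Fa_leaf (P := Itm.ok 206) (iqf tpr4_c))) (BT.Fa_leaf (P := Itm.ok 206) (iqb tpr505_c)))) (BT.Fa_mk (BT.Fa_mk (BT.Fa_mk (BT.Fa_leaf (P := Itm.ok 206) (iqf tpr507_c)) (BT.Fa_leaf (P := Itm.ok 206) (iqf tpr607_c))) (BT.Fa_mk (BT.Fa_leaf (P := Itm.ok 206) (iqb tpr555_c)) (BT.Fa_leaf (P := Itm.ok 206) (iqf tpr502_c))))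 (BT.Fa_mk (BT.Fa_mk (BT.Fa_leaf (P := Itm.ok 206) (iqb tpr616_c)) (BT.Fa_leaf (P := Itm.ok 206) (iqf tpr546_c))) (BT.Fa_leaf (P := Itm.ok 206) (iqf tpr629_c))))) (BT.Fa_mk (BT.Fa_mk (BT.Fa_mk (BT.Fa_mk (BT.Fa_leaf (P := Itm.ok 206) (iqf tpr582_c)) (BT.Fa_leaf (P := Itm.ok 206) (iqf tpr509_c))) (BT.Fa_mk (BT.Fa_leaf (P := Itm.ok 206) (iqb tpr503_c)) (BT.Fa_leaf (P := Itm.ok 206) (iqf tpr545_c)))) (BT.Fa_mk (BT.Fa_mk (BT.Fa_leaf (P := Itm.ok 206) (iqf tpr519_c)) (BT.Fa_leaf (P := Itm.ok 206) (iqf tpr508_c))) (BT.Fa_leaf (P := Itm.ok 206) (iqf tpr10_c)))) (BT.Fa_mk (BT.Fa_mk (BT.Fa_mk (BT.Fa_leaf (P := Itm.ok 206) (iqb tpr507_c)) (BT.Fa_leaf (P := Itm.ok 206) (iqb tpr12_c))) (BT.Fa_mk (BT.Fa_leaf (P := Itm.ok 206) (iqb tpr656_c)) (BT.Fa_leaf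 (P := Itm.ok 206) (iqb tpr608_c)))) (BT.Fa_mk (BT.Fa_mk (BT.Fa_leaf (P := Itm.ok 206) (iqf tpr72_c)) (BT.Fa_leaf (P := Itm.ok 206) (iqf tpr703_c))) (BT.Fa_leaf (P := Itm.ok 206) (iqf tpr647_c))))))

/-- all words of the class have labels -/
theorem pokNBzE2A3H2ByAzIzA2H3AyB2EzF : POK 206 xNBzE2A3H2ByAzIzA2H3AyB2EzF :=
  y_pok (C0 := ceNBzE2A3H2ByAzIzA2H3AyB2EzF) (C1 := coNBzE2A3H2ByAzIzA2H3AyB2EzF) topNBzE2A3H2ByAzIzA2H3AyB2EzF nbNBzE2A3H2ByAzIzA2H3AyB2EzF (BT.Fa_of_all iiNBzE2A3H2ByAzIzA2H3AyB2EzF_c)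
    (cyE_spec zeNBzE2A3H2ByAzIzA2H3AyB2EzF_0)
    (cyO_spec zoNBzE2A3H2ByAzIzA2H3AyB2EzF_0)
    iiNBzE2A3H2ByAzIzA2H3AyB2EzF_k

theorem iiNBzE2A3H2ByAzIzAyB2H3A2EzF_k : iiNBzE2A3H2ByAzIzAyB2H3A2EzF.Fa (Itm.ok 206) := (BT.Fa_mk (BT.Fa_mk (BT.Fa_mk (BT.Fa_mk (BT.Fa_mk (BT.Fa_mk (BT.Fa_leaf (P := Itm.ok 206) (iqf tpr5_c)) (BT.Fa_leaf (P := Itm.ok 206) (iqf tpr8_c))) (BT.Fa_leaf (P := Itm.ok 206) (iqf tpr4_c))) (BT.Fa_mk (BT.Fa_leaf (P := Itm.ok 206) (iqf tpr500_c)) (BT.Fa_leaf (P := Itm.ok 206) (iqb tpr508_c)))) (BT.Fa_mk (BT.Fa_mk (BT.Fa_mk (BT.Fa_leaf (P := Itm.ok 206) (iqf tpr499_c)) (BT.Fa_leaf (P := Itm.ok 206) (iqb tpr8_c))) (BT.Fa_leaf (P := Itm.ok 206) (iqb tpr22_c))) (BT.Fa_mk (BT.Fa_leaf (P := Itm.ok 206) (iqf tpr103_c)) (BT.Fa_leaf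 (P := Itm.ok 206) (iqf tpr607_c))))) (BT.Fa_mk (BT.Fa_mk (BT.Fa_mk (BT.Fa_mk (BT.Fa_leaf (P := Itm.ok 206) (iqb tpr607_c)) (BT.Fa_leaf (P := Itm.ok 206) (iqf tpr17_c))) (BT.Fa_leaf (P := Itm.ok 206) (iqb tpr504_c))) (BT.Fa_mk (BT.Fa_leaf (P := Itm.ok 206) (iqf tpr518_c)) (BT.Fa_leaf (P := Itm.ok 206) (iqb tpr555_c)))) (BT.Fa_mk (BT.Fa_mk (BT.Fa_mk (BT.Fa_leaf (P := Itm.ok 206) (iqb tpr519_c)) (BT.Fa_leaf (P := Itm.ok 206) (iqb tpr511_c))) (BT.Fa_leaf (P := Itm.ok 206) (iqf tpr48_c))) (BT.Fa_mk (BT.Fa_leaf (P := Itm.ok 206) (iqb tpr1250_c)) (BT.Fa_leaf (P := Itm.ok 206) (iqf tpr1252_c)))))) (BT.Fa_mk (BT.Fa_mk (BT.Fa_mk (BT.Fa_mk (BT.Fa_mk (BT.Fa_leaf (P := Itm.ok 206) (iqf tpr508_c)) (BT.Fa_leaf (P := Itm.ok 206) (iqf tpr683_c))) (BT.Fa_leaf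 (P := Itm.ok 206) (iqb tpr505_c))) (BT.Fa_mk (BT.Fa_leaf (P := Itm.ok 206) (iqf tpr509_c)) (BT.Fa_leaf (P := Itm.ok 206) (iqb tpr723_c)))) (BT.Fa_mk (BT.Fa_mk (BT.Fa_mk (BT.Fa_leaf (P := Itm.ok 206) (iqb tpr500_c)) (BT.Fa_leaf (P := Itm.ok 206) (iqb tpr530_c))) (BT.Fa_leaf (P := Itm.ok 206) (iqf tpr511_c))) (BT.Fa_mk (BT.Fa_leaf (P := Itm.ok 206) (iqf tpr545_c)) (BT.Fa_leaf (P := Itm.ok 206) (iqf tpr519_c))))) (BT.Fa_mk (BT.Fa_mk (BT.Fa_mk (BT.Fa_mk (BT.Fa_leaf (P := Itm.ok 206) (iqf tpr635_c)) (BT.Fa_leaf (P := Itm.ok 206) (iqf tpr625_c))) (BT.Fa_leaf (P := Itm.ok 206) (iqb tpr701_c))) (BT.Fa_mk (BT.Fa_leaf (P := Itm.ok 206) (iqb tpr683_c)) (BT.Fa_leaf (P := Itm.ok 206) (iqb tpr513_c)))) (BT.Fa_mk (BT.Fa_mk (BT.Fa_mk (BT.Fa_leaf (P :=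 Itm.ok 206) (iqb tpr203_c)) (BT.Fa_leaf (P := Itm.ok 206) (iqb tpr294_c))) (BT.Fa_leaf (P := Itm.ok 206) (iqf tpr642_c))) (BT.Fa_mk (BT.Fa_leaf (P := Itm.ok 206) (iqb tpr1099_c)) (BT.Fa_leaf (P := Itm.ok 206) (iqb tpr588_c)))))))

/-- all words of the class have labels -/
theorem pokNBzE2A3H2ByAzIzAyB2H3A2EzF : POK 206 xNBzE2A3H2ByAzIzAyB2H3A2EzF :=
  y_pok (C0 := ceNBzE2A3H2ByAzIzAyB2H3A2EzF) (C1 := coNBzE2A3H2ByAzIzAyB2H3A2EzF) topNBzE2A3H2ByAzIzAyB2H3A2EzF nbNBzE2A3H2ByAzIzAyB2H3A2EzF (BT.Fa_of_all iiNBzE2A3H2ByAzIzAyB2H3A2EzF_c)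
    (cyE_spec zeNBzE2A3H2ByAzIzAyB2H3A2EzF_0)
    (cyO_spec zoNBzE2A3H2ByAzIzAyB2H3A2EzF_0)
    iiNBzE2A3H2ByAzIzAyB2H3A2EzF_k

theorem iiNBzE2A3H3AyB2EzF_k : iiNBzE2A3H3AyB2EzF.Fa (Itm.ok 206) := (BT.Fa_mk (BT.Fa_mk (BT.Fa_mk (BT.Fa_mk (BT.Fa_mk (BT.Fa_mk (BT.Fa_leaf (P := Itm.ok 206) (iqb tpr8_c)) (BT.Fa_leaf (P := Itm.ok 206) (iqf tpr508_c))) (BT.Fa_mk (BT.Fa_leaf (P := Itm.ok 206) (iqf tpr607_c)) (BT.Fa_leaf (P := Itm.ok 206) (iqf tpr82_c)))) (BT.Fa_mk (BT.Fa_mk (BT.Fa_leaf (P := Itm.ok 206) (iqb tpr780_c)) (BT.Fa_leaf (P := Itm.ok 206) (iqb tpr89_c))) (BT.Fa_mk (BT.Fa_leaf (P := Itm.ok 206) (iqf tpr48_c)) (BT.Fa_leaf (P := Itm.ok 206) (iqb tpr10_c))))) (BT.Fa_mk (BT.Fa_mk (BT.Fa_mk (BT.Fa_leaf (P := Itm.ok 206) (iqb tpr1532_c)) (BT.Fa_leaf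 (P := Itm.ok 206) (iqf tpr582_c))) (BT.Fa_mk (BT.Fa_leaf (P := Itm.ok 206) (iqf tpr17_c)) (BT.Fa_leaf (P := Itm.ok 206) (iqb tpr5_c)))) (BT.Fa_mk (BT.Fa_mk (BT.Fa_leaf (P := Itm.ok 206) (iqb tpr22_c)) (BT.Fa_leaf (P := Itm.ok 206) (iqf tpr2063_c))) (BT.Fa_mk (BT.Fa_leaf (P := Itm.ok 206) (iqf tpr507_c)) (BT.Fa_leaf (P := Itm.ok 206) (iqf tpr511_c)))))) (BT.Fa_mk (BT.Fa_mk (BT.Fa_mk (BT.Fa_mk (BT.Fa_leaf (P := Itm.ok 206) (iqf tpr513_c)) (BT.Fa_leaf (P := Itm.ok 206) (iqf tpr106_c))) (BT.Fa_mk (BT.Fa_leaf (P := Itm.ok 206) (iqf tpr524_c)) (BT.Fa_leaf (P := Itm.ok 206) (iqf tpr509_c)))) (BT.Fa_mk (BT.Fa_mk (BT.Fa_leaf (P := Itm.ok 206) (iqb tpr210_c)) (BT.Fa_leaf (P := Itm.ok 206) (iqf tpr2064_c))) (BT.Fa_mk (BT.Fa_leaf (P := Itm.ok 206)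 (iqf tpr2065_c)) (BT.Fa_leaf (P := Itm.ok 206) (iqb tpr505_c))))) (BT.Fa_mk (BT.Fa_mk (BT.Fa_mk (BT.Fa_leaf (P := Itm.ok 206) (iqb tpr503_c)) (BT.Fa_leaf (P := Itm.ok 206) (iqf tpr519_c))) (BT.Fa_mk (BT.Fa_leaf (P := Itm.ok 206) (iqb tpr618_c)) (BT.Fa_leaf (P := Itm.ok 206) (iqf tpr743_c)))) (BT.Fa_mk (BT.Fa_mk (BT.Fa_leaf (P := Itm.ok 206) (iqf tpr545_c)) (BT.Fa_leaf (P := Itm.ok 206) (iqb tpr576_c))) (BT.Fa_leaf (P := Itm.ok 206) (iqb tpr500_c)))))) (BT.Fa_mk (BT.Fa_mk (BT.Fa_mk (BT.Fa_mk (BT.Fa_mk (BT.Fa_leaf (P := Itm.ok 206) (iqf tpr629_c)) (BT.Fa_leaf (P := Itm.ok 206) (iqb tpr616_c))) (BT.Fa_mk (BT.Fa_leaf (P := Itm.ok 206) (iqf tpr167_c)) (BT.Fa_leaf (P := Itm.ok 206) (iqb tpr168_c)))) (BT.Fa_mk (BT.Fa_mk (BT.Fa_leaf (P := Itm.ok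 206) (iqb tpr608_c)) (BT.Fa_leaf (P := Itm.ok 206) (iqf tpr90_c))) (BT.Fa_mk (BT.Fa_leaf (P := Itm.ok 206) (iqb tpr591_c)) (BT.Fa_leaf (P := Itm.ok 206) (iqb tpr16_c))))) (BT.Fa_mk (BT.Fa_mk (BT.Fa_mk (BT.Fa_leaf (P := Itm.ok 206) (iqb tpr656_c)) (BT.Fa_leaf (P := Itm.ok 206) (iqf tpr72_c))) (BT.Fa_mk (BT.Fa_leaf (P := Itm.ok 206) (iqb tpr12_c)) (BT.Fa_leaf (P := Itm.ok 206) (iqb tpr1675_c)))) (BT.Fa_mk (BT.Fa_mk (BT.Fa_leaf (P := Itm.ok 206) (iqf tpr20_c)) (BT.Fa_leaf (P := Itm.ok 206) (iqb tpr593_c))) (BT.Fa_mk (BT.Fa_leaf (P := Itm.ok 206) (iqf tpr602_c)) (BT.Fa_leaf (P := Itm.ok 206) (iqb tpr26_c)))))) (BT.Fa_mk (BT.Fa_mk (BT.Fa_mk (BT.Fa_mk (BT.Fa_leaf (P := Itm.ok 206) (iqf tpr13_c)) (BT.Fa_leaf (P := Itm.ok 206) (iqb tpr203_c)))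 (BT.Fa_mk (BT.Fa_leaf (P := Itm.ok 206) (iqb tpr610_c)) (BT.Fa_leaf (P := Itm.ok 206) (iqf tpr44_c)))) (BT.Fa_mk (BT.Fa_mk (BT.Fa_leaf (P := Itm.ok 206) (iqf tpr502_c)) (BT.Fa_leaf (P := Itm.ok 206) (iqb tpr1045_c))) (BT.Fa_mk (BT.Fa_leaf (P := Itm.ok 206) (iqb tpr106_c)) (BT.Fa_leaf (P := Itm.ok 206) (iqb tpr225_c))))) (BT.Fa_mk (BT.Fa_mk (BT.Fa_mk (BT.Fa_leaf (P := Itm.ok 206) (iqf tpr2066_c)) (BT.Fa_leaf (P := Itm.ok 206) (iqb tpr590_c))) (BT.Fa_mk (BT.Fa_leaf (P := Itm.ok 206) (iqb tpr95_c)) (BT.Fa_leaf (P := Itm.ok 206) (iqb tpr662_c)))) (BT.Fa_mk (BT.Fa_mk (BT.Fa_leaf (P := Itm.ok 206) (iqb tpr751_c)) (BT.Fa_leaf (P := Itm.ok 206) (iqf tpr1406_c))) (BT.Fa_leaf (P := Itm.ok 206) (iqf tpr203_c)))))))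

/-- all words of the class have labels -/
theorem pokNBzE2A3H3AyB2EzF : POK 206 xNBzE2A3H3AyB2EzF :=
  y_pok (C0 := ceNBzE2A3H3AyB2EzF) (C1 := coNBzE2A3H3AyB2EzF) topNBzE2A3H3AyB2EzF nbNBzE2A3H3AyB2EzF (BT.Fa_of_all iiNBzE2A3H3AyB2EzF_c)
    (cyE_spec zeNBzE2A3H3AyB2EzF_0)
    (cyO_spec zoNBzE2A3H3AyB2EzF_0)
    iiNBzE2A3H3AyB2EzF_k

theorem iiNBzE2ByA3H2AzIzAyB2H3A2EzF_k : iiNBzE2ByA3H2AzIzAyB2H3A2EzF.Fa (Itm.ok 206) := (BT.Fa_mk (BT.Fa_mk (BT.Fa_mk (BT.Fa_mk (BT.Fa_mk (BT.Fa_mk (BT.Fa_leaf (P := Itm.ok 206) (iqf tpr500_c)) (BT.Fa_leaf (P := Itm.ok 206) (iqf tpr5_c))) (BT.Fa_mk (BT.Fa_leaf (P := Itm.ok 206) (iqf tpr8_c)) (BT.Fa_leaf (P := Itm.ok 206) (iqb tpr8_c)))) (BT.Fa_mk (BT.Fa_mk (BT.Fa_leaf (P := Itm.ok 206) (iqb tpr508_c)) (BT.Fa_leaf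 (P := Itm.ok 206) (iqf tpr103_c))) (BT.Fa_mk (BT.Fa_leaf (P := Itm.ok 206) (iqb tpr22_c)) (BT.Fa_leaf (P := Itm.ok 206) (iqf tpr82_c))))) (BT.Fa_mk (BT.Fa_mk (BT.Fa_mk (BT.Fa_leaf (P := Itm.ok 206) (iqb tpr607_c)) (BT.Fa_leaf (P := Itm.ok 206) (iqb tpr518_c))) (BT.Fa_mk (BT.Fa_leaf (P := Itm.ok 206) (iqb tpr577_c)) (BT.Fa_leaf (P := Itm.ok 206) (iqb tpr629_c)))) (BT.Fa_mk (BT.Fa_mk (BT.Fa_leaf (P := Itm.ok 206) (iqf tpr419_c)) (BT.Fa_leaf (P := Itm.ok 206) (iqb tpr705_c))) (BT.Fa_mk (BT.Fa_leaf (P := Itm.ok 206) (iqb tpr725_c)) (BT.Fa_leaf (P := Itm.ok 206) (iqb tpr1099_c)))))) (BT.Fa_mk (BT.Fa_mk (BT.Fa_mk (BT.Fa_mk (BT.Fa_leaf (P := Itm.ok 206) (iqb tpr1839_c)) (BT.Fa_leaf (P := Itm.ok 206) (iqf tpr1112_c))) (BT.Fa_mk (BT.Fa_leaf (P :=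 Itm.ok 206) (iqf tpr12_c)) (BT.Fa_leaf (P := Itm.ok 206) (iqb tpr44_c)))) (BT.Fa_mk (BT.Fa_mk (BT.Fa_leaf (P := Itm.ok 206) (iqb tpr499_c)) (BT.Fa_leaf (P := Itm.ok 206) (iqf tpr51_c))) (BT.Fa_mk (BT.Fa_leaf (P := Itm.ok 206) (iqb tpr9_c)) (BT.Fa_leaf (P := Itm.ok 206) (iqb tpr18_c))))) (BT.Fa_mk (BT.Fa_mk (BT.Fa_mk (BT.Fa_leaf (P := Itm.ok 206) (iqb tpr320_c)) (BT.Fa_leaf (P := Itm.ok 206) (iqf tpr780_c))) (BT.Fa_mk (BT.Fa_leaf (P := Itm.ok 206) (iqb tpr941_c)) (BT.Fa_leaf (P := Itm.ok 206) (iqb tpr1738_c)))) (BT.Fa_mk (BT.Fa_mk (BT.Fa_leaf (P := Itm.ok 206) (iqb tpr2383_c)) (BT.Fa_leaf (P := Itm.ok 206) (iqf tpr2464_c))) (BT.Fa_mk (BT.Fa_leaf (P := Itm.ok 206) (iqb tpr15_c)) (BT.Fa_leaf (P := Itm.ok 206) (iqb tpr48_c))))))) (BT.Fa_mk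 (BT.Fa_mk (BT.Fa_mk (BT.Fa_mk (BT.Fa_mk (BT.Fa_leaf (P := Itm.ok 206) (iqf tpr555_c)) (BT.Fa_leaf (P := Itm.ok 206) (iqb tpr507_c))) (BT.Fa_mk (BT.Fa_leaf (P := Itm.ok 206) (iqb tpr167_c)) (BT.Fa_leaf (P := Itm.ok 206) (iqf tpr968_c)))) (BT.Fa_mk (BT.Fa_mk (BT.Fa_leaf (P := Itm.ok 206) (iqb tpr585_c)) (BT.Fa_leaf (P := Itm.ok 206) (iqf tpr635_c))) (BT.Fa_mk (BT.Fa_leaf (P := Itm.ok 206) (iqf tpr568_c)) (BT.Fa_leaf (P := Itm.ok 206) (iqf tpr1741_c))))) (BT.Fa_mk (BT.Fa_mk (BT.Fa_mk (BT.Fa_leaf (P := Itm.ok 206) (iqf tpr1105_c)) (BT.Fa_leaf (P := Itm.ok 206) (iqb tpr1143_c))) (BT.Fa_mk (BT.Fa_leaf (P := Itm.ok 206) (iqb tpr734_c)) (BT.Fa_leaf (P := Itm.ok 206) (iqb tpr960_c)))) (BT.Fa_mk (BT.Fa_mk (BT.Fa_leaf (P := Itm.ok 206) (iqb tpr1719_c))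 (BT.Fa_leaf (P := Itm.ok 206) (iqf tpr499_c))) (BT.Fa_mk (BT.Fa_leaf (P := Itm.ok 206) (iqb tpr504_c)) (BT.Fa_leaf (P := Itm.ok 206) (iqf tpr17_c)))))) (BT.Fa_mk (BT.Fa_mk (BT.Fa_mk (BT.Fa_mk (BT.Fa_leaf (P := Itm.ok 206) (iqb tpr1126_c)) (BT.Fa_leaf (P := Itm.ok 206) (iqb tpr1811_c))) (BT.Fa_mk (BT.Fa_leaf (P := Itm.ok 206) (iqf tpr210_c)) (BT.Fa_leaf (P := Itm.ok 206) (iqb tpr106_c)))) (BT.Fa_mk (BT.Fa_mk (BT.Fa_leaf (P := Itm.ok 206) (iqf tpr617_c)) (BT.Fa_leaf (P := Itm.ok 206) (iqf tpr596_c))) (BT.Fa_mk (BT.Fa_leaf (P := Itm.ok 206) (iqb tpr615_c)) (BT.Fa_leaf (P := Itm.ok 206) (iqf tpr574_c))))) (BT.Fa_mk (BT.Fa_mk (BT.Fa_mk (BT.Fa_leaf (P := Itm.ok 206) (iqf tpr1050_c)) (BT.Fa_leaf (P := Itm.ok 206) (iqb tpr1250_c))) (BT.Fa_mk (BT.Fa_leaf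 (P := Itm.ok 206) (iqf tpr1252_c)) (BT.Fa_leaf (P := Itm.ok 206) (iqf tpr502_c)))) (BT.Fa_mk (BT.Fa_mk (BT.Fa_leaf (P := Itm.ok 206) (iqf tpr511_c)) (BT.Fa_leaf (P := Itm.ok 206) (iqb tpr1056_c))) (BT.Fa_mk (BT.Fa_leaf (P := Itm.ok 206) (iqb tpr824_c)) (BT.Fa_leaf (P := Itm.ok 206) (iqb tpr203_c))))))))

/-- all words of the class have labels -/
theorem pokNBzE2ByA3H2AzIzAyB2H3A2EzF : POK 206 xNBzE2ByA3H2AzIzAyB2H3A2EzF :=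
  y_pok (C0 := ceNBzE2ByA3H2AzIzAyB2H3A2EzF) (C1 := coNBzE2ByA3H2AzIzAyB2H3A2EzF) topNBzE2ByA3H2AzIzAyB2H3A2EzF nbNBzE2ByA3H2AzIzAyB2H3A2EzF (BT.Fa_of_all iiNBzE2ByA3H2AzIzAyB2H3A2EzF_c)
    (cyE_spec zeNBzE2ByA3H2AzIzAyB2H3A2EzF_0)
    (cyO_spec zoNBzE2ByA3H2AzIzAyB2H3A2EzF_0)
    iiNBzE2ByA3H2AzIzAyB2H3A2EzF_k

theorem iiNF2BzA2E2A3H2ByAzIzAyB2H3A2EzF_k : iiNF2BzA2E2A3H2ByAzIzAyB2H3A2EzF.Fa (Itm.ok 206) := (BT.Fa_mk (BT.Fa_mk (BT.Fa_mk (BT.Fa_mk (BT.Fa_mk (BT.Fa_mk (BT.Fa_mk (BT.Fa_mk (BT.Fa_leaf (P := Itm.ok 206) (iqf tpr5_c)) (BT.Fa_leaf (P := Itm.ok 206) (iqf tpr499_c))) (BT.Fa_leaf (P := Itm.ok 206) (iqf tpr15_c))) (BT.Fa_mk (BT.Fa_leaf (P := Itm.ok 206) (iqf tpr500_c)) (BT.Fa_leaf (P := Itm.ok 206) (iqb tpr508_c)))) (BT.Fa_mk (BT.Fa_mk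 (BT.Fa_leaf (P := Itm.ok 206) (iqb tpr23_c)) (BT.Fa_leaf (P := Itm.ok 206) (iqb tpr804_c))) (BT.Fa_mk (BT.Fa_leaf (P := Itm.ok 206) (iqf tpr22_c)) (BT.Fa_leaf (P := Itm.ok 206) (iqb tpr167_c))))) (BT.Fa_mk (BT.Fa_mk (BT.Fa_mk (BT.Fa_mk (BT.Fa_leaf (P := Itm.ok 206) (iqf tpr1644_c)) (BT.Fa_leaf (P := Itm.ok 206) (iqf tpr504_c))) (BT.Fa_leaf (P := Itm.ok 206) (iqb tpr607_c))) (BT.Fa_mk (BT.Fa_leaf (P := Itm.ok 206) (iqb tpr583_c)) (BT.Fa_leaf (P := Itm.ok 206) (iqb tpr509_c)))) (BT.Fa_mk (BT.Fa_mk (BT.Fa_leaf (P := Itm.ok 206) (iqf tpr198_c)) (BT.Fa_leaf (P := Itm.ok 206) (iqb tpr519_c))) (BT.Fa_mk (BT.Fa_leaf (P := Itm.ok 206) (iqb tpr511_c)) (BT.Fa_leaf (P := Itm.ok 206) (iqf tpr968_c)))))) (BT.Fa_mk (BT.Fa_mk (BT.Fa_mk (BT.Fa_mk (BT.Fa_mk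 (BT.Fa_leaf (P := Itm.ok 206) (iqb tpr701_c)) (BT.Fa_leaf (P := Itm.ok 206) (iqb tpr959_c))) (BT.Fa_leaf (P := Itm.ok 206) (iqb tpr569_c))) (BT.Fa_mk (BT.Fa_leaf (P := Itm.ok 206) (iqf tpr503_c)) (BT.Fa_leaf (P := Itm.ok 206) (iqb tpr1193_c)))) (BT.Fa_mk (BT.Fa_mk (BT.Fa_leaf (P := Itm.ok 206) (iqb tpr545_c)) (BT.Fa_leaf (P := Itm.ok 206) (iqb tpr683_c))) (BT.Fa_mk (BT.Fa_leaf (P := Itm.ok 206) (iqf tpr1714_c)) (BT.Fa_leaf (P := Itm.ok 206) (iqf tpr1248_c))))) (BT.Fa_mk (BT.Fa_mk (BT.Fa_mk (BT.Fa_mk (BT.Fa_leaf (P := Itm.ok 206) (iqf tpr979_c)) (BT.Fa_leaf (P := Itm.ok 206) (iqb tpr25_c))) (BT.Fa_leaf (P := Itm.ok 206) (iqf tpr514_c))) (BT.Fa_mk (BT.Fa_leaf (P := Itm.ok 206) (iqf tpr631_c)) (BT.Fa_leaf (P := Itm.ok 206) (iqb tpr500_c))))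 (BT.Fa_mk (BT.Fa_mk (BT.Fa_leaf (P := Itm.ok 206) (iqf tpr57_c)) (BT.Fa_leaf (P := Itm.ok 206) (iqb tpr216_c))) (BT.Fa_mk (BT.Fa_leaf (P := Itm.ok 206) (iqb tpr123_c)) (BT.Fa_leaf (P := Itm.ok 206) (iqb tpr1655_c))))))) (BT.Fa_mk (BT.Fa_mk (BT.Fa_mk (BT.Fa_mk (BT.Fa_mk (BT.Fa_mk (BT.Fa_leaf (P := Itm.ok 206) (iqb tpr968_c)) (BT.Fa_leaf (P := Itm.ok 206) (iqf tpr63_c))) (BT.Fa_leaf (P := Itm.ok 206) (iqf tpr705_c))) (BT.Fa_mk (BT.Fa_leaf (P := Itm.ok 206) (iqf tpr636_c)) (BT.Fa_leaf (P := Itm.ok 206) (iqf tpr167_c)))) (BT.Fa_mk (BT.Fa_mk (BT.Fa_leaf (P := Itm.ok 206) (iqb tpr200_c)) (BT.Fa_leaf (P := Itm.ok 206) (iqb tpr2461_c))) (BT.Fa_mk (BT.Fa_leaf (P := Itm.ok 206) (iqf tpr327_c)) (BT.Fa_leaf (P := Itm.ok 206) (iqb tpr767_c))))) (BT.Fa_mk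 (BT.Fa_mk (BT.Fa_mk (BT.Fa_mk (BT.Fa_leaf (P := Itm.ok 206) (iqf tpr565_c)) (BT.Fa_leaf (P := Itm.ok 206) (iqf tpr12_c))) (BT.Fa_leaf (P := Itm.ok 206) (iqb tpr103_c))) (BT.Fa_mk (BT.Fa_leaf (P := Itm.ok 206) (iqf tpr54_c)) (BT.Fa_leaf (P := Itm.ok 206) (iqb tpr789_c)))) (BT.Fa_mk (BT.Fa_mk (BT.Fa_leaf (P := Itm.ok 206) (iqb tpr22_c)) (BT.Fa_leaf (P := Itm.ok 206) (iqf tpr8_c))) (BT.Fa_mk (BT.Fa_leaf (P := Itm.ok 206) (iqb tpr2071_c)) (BT.Fa_leaf (P := Itm.ok 206) (iqb tpr559_c)))))) (BT.Fa_mk (BT.Fa_mk (BT.Fa_mk (BT.Fa_mk (BT.Fa_mk (BT.Fa_leaf (P := Itm.ok 206) (iqb tpr324_c)) (BT.Fa_leaf (P := Itm.ok 206) (iqb tpr555_c))) (BT.Fa_leaf (P := Itm.ok 206) (iqb tpr75_c))) (BT.Fa_mk (BT.Fa_leaf (P := Itm.ok 206) (iqb tpr107_c)) (BT.Fa_leaf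 (P := Itm.ok 206) (iqb tpr51_c)))) (BT.Fa_mk (BT.Fa_mk (BT.Fa_leaf (P := Itm.ok 206) (iqb tpr505_c)) (BT.Fa_leaf (P := Itm.ok 206) (iqb tpr215_c))) (BT.Fa_mk (BT.Fa_leaf (P := Itm.ok 206) (iqb tpr525_c)) (BT.Fa_leaf (P := Itm.ok 206) (iqf tpr103_c))))) (BT.Fa_mk (BT.Fa_mk (BT.Fa_mk (BT.Fa_leaf (P := Itm.ok 206) (iqf tpr9_c)) (BT.Fa_leaf (P := Itm.ok 206) (iqf tpr18_c))) (BT.Fa_mk (BT.Fa_leaf (P := Itm.ok 206) (iqb tpr8_c)) (BT.Fa_leaf (P := Itm.ok 206) (iqb tpr507_c)))) (BT.Fa_mk (BT.Fa_mk (BT.Fa_leaf (P := Itm.ok 206) (iqb tpr581_c)) (BT.Fa_leaf (P := Itm.ok 206) (iqb tpr518_c))) (BT.Fa_mk (BT.Fa_leaf (P := Itm.ok 206) (iqf tpr555_c)) (BT.Fa_leaf (P := Itm.ok 206) (iqf tpr1255_c)))))))) (BT.Fa_mk (BT.Fa_mk (BT.Fa_mk (BT.Fa_mk (BT.Fa_mk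 (BT.Fa_mk (BT.Fa_mk (BT.Fa_leaf (P := Itm.ok 206) (iqb tpr740_c)) (BT.Fa_leaf (P := Itm.ok 206) (iqf tpr510_c))) (BT.Fa_leaf (P := Itm.ok 206) (iqb tpr982_c))) (BT.Fa_mk (BT.Fa_leaf (P := Itm.ok 206) (iqf tpr588_c)) (BT.Fa_leaf (P := Itm.ok 206) (iqb tpr588_c)))) (BT.Fa_mk (BT.Fa_mk (BT.Fa_leaf (P := Itm.ok 206) (iqb tpr522_c)) (BT.Fa_leaf (P := Itm.ok 206) (iqb tpr510_c))) (BT.Fa_mk (BT.Fa_leaf (P := Itm.ok 206) (iqf tpr82_c)) (BT.Fa_leaf (P := Itm.ok 206) (iqf tpr617_c))))) (BT.Fa_mk (BT.Fa_mk (BT.Fa_mk (BT.Fa_mk (BT.Fa_leaf (P := Itm.ok 206) (iqb tpr527_c)) (BT.Fa_leaf (P := Itm.ok 206) (iqf tpr559_c))) (BT.Fa_leaf (P := Itm.ok 206) (iqb tpr617_c))) (BT.Fa_mk (BT.Fa_leaf (P := Itm.ok 206) (iqf tpr610_c)) (BT.Fa_leaf (P := Itm.ok 206)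 (iqf tpr527_c)))) (BT.Fa_mk (BT.Fa_mk (BT.Fa_leaf (P := Itm.ok 206) (iqf tpr544_c)) (BT.Fa_leaf (P := Itm.ok 206) (iqb tpr514_c))) (BT.Fa_mk (BT.Fa_leaf (P := Itm.ok 206) (iqf tpr683_c)) (BT.Fa_leaf (P := Itm.ok 206) (iqf tpr508_c)))))) (BT.Fa_mk (BT.Fa_mk (BT.Fa_mk (BT.Fa_mk (BT.Fa_mk (BT.Fa_leaf (P := Itm.ok 206) (iqf tpr613_c)) (BT.Fa_leaf (P := Itm.ok 206) (iqf tpr1262_c))) (BT.Fa_leaf (P := Itm.ok 206) (iqf tpr511_c))) (BT.Fa_mk (BT.Fa_leaf (P := Itm.ok 206) (iqf tpr545_c)) (BT.Fa_leaf (P := Itm.ok 206) (iqf tpr509_c)))) (BT.Fa_mk (BT.Fa_mk (BT.Fa_leaf (P := Itm.ok 206) (iqb tpr504_c)) (BT.Fa_leaf (P := Itm.ok 206) (iqf tpr583_c))) (BT.Fa_mk (BT.Fa_leaf (P := Itm.ok 206) (iqb tpr1250_c)) (BT.Fa_leaf (P := Itm.ok 206) (iqb tpr627_c)))))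 (BT.Fa_mk (BT.Fa_mk (BT.Fa_mk (BT.Fa_mk (BT.Fa_leaf (P := Itm.ok 206) (iqf tpr17_c)) (BT.Fa_leaf (P := Itm.ok 206) (iqf tpr680_c))) (BT.Fa_leaf (P := Itm.ok 206) (iqf tpr263_c))) (BT.Fa_mk (BT.Fa_leaf (P := Itm.ok 206) (iqf tpr543_c)) (BT.Fa_leaf (P := Itm.ok 206) (iqf tpr596_c)))) (BT.Fa_mk (BT.Fa_mk (BT.Fa_leaf (P := Itm.ok 206) (iqb tpr575_c)) (BT.Fa_leaf (P := Itm.ok 206) (iqf tpr522_c))) (BT.Fa_mk (BT.Fa_leaf (P := Itm.ok 206) (iqf tpr519_c)) (BT.Fa_leaf (P := Itm.ok 206) (iqf tpr75_c))))))) (BT.Fa_mk (BT.Fa_mk (BT.Fa_mk (BT.Fa_mk (BT.Fa_mk (BT.Fa_mk (BT.Fa_leaf (P := Itm.ok 206) (iqf tpr26_c)) (BT.Fa_leaf (P := Itm.ok 206) (iqf tpr648_c))) (BT.Fa_leaf (P := Itm.ok 206) (iqb tpr124_c))) (BT.Fa_mk (BT.Fa_leaf (P := Itm.ok 206) (iqf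 tpr466_c)) (BT.Fa_leaf (P := Itm.ok 206) (iqf tpr603_c)))) (BT.Fa_mk (BT.Fa_mk (BT.Fa_leaf (P := Itm.ok 206) (iqf tpr587_c)) (BT.Fa_leaf (P := Itm.ok 206) (iqf tpr2090_c))) (BT.Fa_mk (BT.Fa_leaf (P := Itm.ok 206) (iqb tpr1637_c)) (BT.Fa_leaf (P := Itm.ok 206) (iqf tpr1670_c))))) (BT.Fa_mk (BT.Fa_mk (BT.Fa_mk (BT.Fa_mk (BT.Fa_leaf (P := Itm.ok 206) (iqf tpr1636_c)) (BT.Fa_leaf (P := Itm.ok 206) (iqb tpr565_c))) (BT.Fa_leaf (P := Itm.ok 206) (iqf tpr315_c))) (BT.Fa_mk (BT.Fa_leaf (P := Itm.ok 206) (iqf tpr695_c)) (BT.Fa_leaf (P := Itm.ok 206) (iqb tpr630_c)))) (BT.Fa_mk (BT.Fa_mk (BT.Fa_leaf (P := Itm.ok 206) (iqf tpr1684_c)) (BT.Fa_leaf (P := Itm.ok 206) (iqb tpr676_c))) (BT.Fa_mk (BT.Fa_leaf (P := Itm.ok 206) (iqb tpr544_c)) (BT.Fa_leaf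 (P := Itm.ok 206) (iqf tpr592_c)))))) (BT.Fa_mk (BT.Fa_mk (BT.Fa_mk (BT.Fa_mk (BT.Fa_mk (BT.Fa_leaf (P := Itm.ok 206) (iqf tpr804_c)) (BT.Fa_leaf (P := Itm.ok 206) (iqf tpr151_c))) (BT.Fa_leaf (P := Itm.ok 206) (iqb tpr1647_c))) (BT.Fa_mk (BT.Fa_leaf (P := Itm.ok 206) (iqf tpr239_c)) (BT.Fa_leaf (P := Itm.ok 206) (iqb tpr593_c)))) (BT.Fa_mk (BT.Fa_mk (BT.Fa_leaf (P := Itm.ok 206) (iqf tpr24_c)) (BT.Fa_leaf (P := Itm.ok 206) (iqf tpr349_c))) (BT.Fa_mk (BT.Fa_leaf (P := Itm.ok 206) (iqf tpr129_c)) (BT.Fa_leaf (P := Itm.ok 206) (iqf tpr789_c))))) (BT.Fa_mk (BT.Fa_mk (BT.Fa_mk (BT.Fa_leaf (P := Itm.ok 206) (iqf tpr23_c)) (BT.Fa_leaf (P := Itm.ok 206) (iqb tpr585_c))) (BT.Fa_mk (BT.Fa_leaf (P := Itm.ok 206) (iqb tpr566_c)) (BT.Fa_leaf (P :=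 Itm.ok 206) (iqb tpr1714_c)))) (BT.Fa_mk (BT.Fa_mk (BT.Fa_leaf (P := Itm.ok 206) (iqf tpr702_c)) (BT.Fa_leaf (P := Itm.ok 206) (iqf tpr1213_c))) (BT.Fa_mk (BT.Fa_leaf (P := Itm.ok 206) (iqf tpr568_c)) (BT.Fa_leaf (P := Itm.ok 206) (iqb tpr697_c)))))))))

/-- all words of the class have labels -/
theorem pokNF2BzA2E2A3H2ByAzIzAyB2H3A2EzF : POK 206 xNF2BzA2E2A3H2ByAzIzAyB2H3A2EzF :=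
  y_pok (C0 := ceNF2BzA2E2A3H2ByAzIzAyB2H3A2EzF) (C1 := coNF2BzA2E2A3H2ByAzIzAyB2H3A2EzF) topNF2BzA2E2A3H2ByAzIzAyB2H3A2EzF nbNF2BzA2E2A3H2ByAzIzAyB2H3A2EzF (BT.Fa_of_all iiNF2BzA2E2A3H2ByAzIzAyB2H3A2EzF_c)
    (cyE_spec zeNF2BzA2E2A3H2ByAzIzAyB2H3A2EzF_0)
    (cyO_spec zoNF2BzA2E2A3H2ByAzIzAyB2H3A2EzF_0)
    iiNF2BzA2E2A3H2ByAzIzAyB2H3A2EzF_k

theorem iiNF2BzAyE2A3H2ByAzIzAyB2H3A2EyAzB2F_k : iiNF2BzAyE2A3H2ByAzIzAyB2H3A2EyAzB2F.Fa (Itm.ok 206) := (BT.Fa_mk (BT.Fa_mk (BT.Fa_mk (BT.Fa_mk (BT.Fa_mk (BT.Fa_mk (BT.Fa_mk (BT.Fa_leaf (P := Itm.ok 206) (iqf tpr4_c)) (BT.Fa_leaf (P := Itm.ok 206) (iqb tpr499_c))) (BT.Fa_mk (BT.Fa_leaf (P := Itm.ok 206) (iqf tpr499_c)) (BT.Fa_leaf (P := Itm.ok 206) (iqf tpr504_c)))) (BT.Fa_mk (BT.Fa_mk (BT.Fa_leaf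 (P := Itm.ok 206) (iqb tpr22_c)) (BT.Fa_leaf (P := Itm.ok 206) (iqb tpr504_c))) (BT.Fa_mk (BT.Fa_leaf (P := Itm.ok 206) (iqf tpr16_c)) (BT.Fa_leaf (P := Itm.ok 206) (iqb tpr16_c))))) (BT.Fa_mk (BT.Fa_mk (BT.Fa_mk (BT.Fa_leaf (P := Itm.ok 206) (iqf tpr8_c)) (BT.Fa_leaf (P := Itm.ok 206) (iqf tpr5_c))) (BT.Fa_mk (BT.Fa_leaf (P := Itm.ok 206) (iqf tpr344_c)) (BT.Fa_leaf (P := Itm.ok 206) (iqf tpr74_c)))) (BT.Fa_mk (BT.Fa_mk (BT.Fa_leaf (P := Itm.ok 206) (iqf tpr24_c)) (BT.Fa_leaf (P := Itm.ok 206) (iqf tpr1889_c))) (BT.Fa_leaf (P := Itm.ok 206) (iqb tpr17_c))))) (BT.Fa_mk (BT.Fa_mk (BT.Fa_mk (BT.Fa_mk (BT.Fa_leaf (P := Itm.ok 206) (iqf tpr743_c)) (BT.Fa_leaf (P := Itm.ok 206) (iqf tpr503_c))) (BT.Fa_mk (BT.Fa_leaf (P := Itm.ok 206) (iqf tpr648_c))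 (BT.Fa_leaf (P := Itm.ok 206) (iqf tpr590_c)))) (BT.Fa_mk (BT.Fa_mk (BT.Fa_leaf (P := Itm.ok 206) (iqb tpr648_c)) (BT.Fa_leaf (P := Itm.ok 206) (iqb tpr2071_c))) (BT.Fa_leaf (P := Itm.ok 206) (iqb tpr24_c)))) (BT.Fa_mk (BT.Fa_mk (BT.Fa_mk (BT.Fa_leaf (P := Itm.ok 206) (iqf tpr510_c)) (BT.Fa_leaf (P := Itm.ok 206) (iqf tpr106_c))) (BT.Fa_mk (BT.Fa_leaf (P := Itm.ok 206) (iqb tpr503_c)) (BT.Fa_leaf (P := Itm.ok 206) (iqf tpr2067_c)))) (BT.Fa_mk (BT.Fa_mk (BT.Fa_leaf (P := Itm.ok 206) (iqb tpr510_c)) (BT.Fa_leaf (P := Itm.ok 206) (iqb tpr2067_c))) (BT.Fa_leaf (P := Itm.ok 206) (iqb tpr591_c)))))) (BT.Fa_mk (BT.Fa_mk (BT.Fa_mk (BT.Fa_mk (BT.Fa_mk (BT.Fa_leaf (P := Itm.ok 206) (iqf tpr203_c)) (BT.Fa_leaf (P := Itm.ok 206) (iqb tpr203_c))) (BT.Fa_mk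 (BT.Fa_leaf (P := Itm.ok 206) (iqb tpr106_c)) (BT.Fa_leaf (P := Itm.ok 206) (iqb tpr1636_c)))) (BT.Fa_mk (BT.Fa_mk (BT.Fa_leaf (P := Itm.ok 206) (iqb tpr1213_c)) (BT.Fa_leaf (P := Itm.ok 206) (iqf tpr406_c))) (BT.Fa_leaf (P := Itm.ok 206) (iqf tpr702_c)))) (BT.Fa_mk (BT.Fa_mk (BT.Fa_mk (BT.Fa_leaf (P := Itm.ok 206) (iqf tpr518_c)) (BT.Fa_leaf (P := Itm.ok 206) (iqf tpr1714_c))) (BT.Fa_mk (BT.Fa_leaf (P := Itm.ok 206) (iqb tpr1006_c)) (BT.Fa_leaf (P := Itm.ok 206) (iqb tpr1637_c)))) (BT.Fa_mk (BT.Fa_mk (BT.Fa_leaf (P := Itm.ok 206) (iqf tpr520_c)) (BT.Fa_leaf (P := Itm.ok 206) (iqf tpr26_c))) (BT.Fa_leaf (P := Itm.ok 206) (iqf tpr509_c))))) (BT.Fa_mk (BT.Fa_mk (BT.Fa_mk (BT.Fa_mk (BT.Fa_leaf (P := Itm.ok 206) (iqb tpr26_c)) (BT.Fa_leaf (P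 := Itm.ok 206) (iqb tpr565_c))) (BT.Fa_mk (BT.Fa_leaf (P := Itm.ok 206) (iqb tpr160_c)) (BT.Fa_leaf (P := Itm.ok 206) (iqf tpr256_c)))) (BT.Fa_mk (BT.Fa_mk (BT.Fa_leaf (P := Itm.ok 206) (iqf tpr565_c)) (BT.Fa_leaf (P := Itm.ok 206) (iqf tpr593_c))) (BT.Fa_leaf (P := Itm.ok 206) (iqb tpr593_c)))) (BT.Fa_mk (BT.Fa_mk (BT.Fa_mk (BT.Fa_leaf (P := Itm.ok 206) (iqb tpr1190_c)) (BT.Fa_leaf (P := Itm.ok 206) (iqf tpr592_c))) (BT.Fa_mk (BT.Fa_leaf (P := Itm.ok 206) (iqb tpr256_c)) (BT.Fa_leaf (P := Itm.ok 206) (iqf tpr1670_c)))) (BT.Fa_mk (BT.Fa_mk (BT.Fa_leaf (P := Itm.ok 206) (iqb tpr103_c)) (BT.Fa_leaf (P := Itm.ok 206) (iqb tpr743_c))) (BT.Fa_leaf (P := Itm.ok 206) (iqb tpr515_c))))))) (BT.Fa_mk (BT.Fa_mk (BT.Fa_mk (BT.Fa_mk (BT.Fa_mk (BT.Fa_mk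 (BT.Fa_leaf (P := Itm.ok 206) (iqb tpr507_c)) (BT.Fa_leaf (P := Itm.ok 206) (iqf tpr603_c))) (BT.Fa_mk (BT.Fa_leaf (P := Itm.ok 206) (iqf tpr508_c)) (BT.Fa_leaf (P := Itm.ok 206) (iqb tpr508_c)))) (BT.Fa_mk (BT.Fa_mk (BT.Fa_leaf (P := Itm.ok 206) (iqf tpr2072_c)) (BT.Fa_leaf (P := Itm.ok 206) (iqf tpr1006_c))) (BT.Fa_leaf (P := Itm.ok 206) (iqf tpr1636_c)))) (BT.Fa_mk (BT.Fa_mk (BT.Fa_mk (BT.Fa_leaf (P := Itm.ok 206) (iqf tpr82_c)) (BT.Fa_leaf (P := Itm.ok 206) (iqf tpr516_c))) (BT.Fa_mk (BT.Fa_leaf (P := Itm.ok 206) (iqb tpr1647_c)) (BT.Fa_leaf (P := Itm.ok 206) (iqf tpr103_c)))) (BT.Fa_mk (BT.Fa_mk (BT.Fa_leaf (P := Itm.ok 206) (iqf tpr22_c)) (BT.Fa_leaf (P := Itm.ok 206) (iqf tpr515_c))) (BT.Fa_leaf (P := Itm.ok 206) (iqb tpr82_c)))))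 (BT.Fa_mk (BT.Fa_mk (BT.Fa_mk (BT.Fa_mk (BT.Fa_leaf (P := Itm.ok 206) (iqf tpr591_c)) (BT.Fa_leaf (P := Itm.ok 206) (iqb tpr592_c))) (BT.Fa_mk (BT.Fa_leaf (P := Itm.ok 206) (iqb tpr603_c)) (BT.Fa_leaf (P := Itm.ok 206) (iqf tpr294_c)))) (BT.Fa_mk (BT.Fa_mk (BT.Fa_leaf (P := Itm.ok 206) (iqb tpr522_c)) (BT.Fa_leaf (P := Itm.ok 206) (iqf tpr502_c))) (BT.Fa_leaf (P := Itm.ok 206) (iqf tpr513_c)))) (BT.Fa_mk (BT.Fa_mk (BT.Fa_mk (BT.Fa_leaf (P := Itm.ok 206) (iqf tpr514_c)) (BT.Fa_leaf (P := Itm.ok 206) (iqb tpr520_c))) (BT.Fa_mk (BT.Fa_leaf (P := Itm.ok 206) (iqf tpr17_c)) (BT.Fa_leaf (P := Itm.ok 206) (iqb tpr513_c)))) (BT.Fa_mk (BT.Fa_mk (BT.Fa_leaf (P := Itm.ok 206) (iqb tpr1457_c)) (BT.Fa_leaf (P := Itm.ok 206) (iqf tpr1637_c))) (BT.Fa_leaf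 (P := Itm.ok 206) (iqb tpr2935_c)))))) (BT.Fa_mk (BT.Fa_mk (BT.Fa_mk (BT.Fa_mk (BT.Fa_mk (BT.Fa_leaf (P := Itm.ok 206) (iqb tpr505_c)) (BT.Fa_leaf (P := Itm.ok 206) (iqf tpr632_c))) (BT.Fa_mk (BT.Fa_leaf (P := Itm.ok 206) (iqf tpr968_c)) (BT.Fa_leaf (P := Itm.ok 206) (iqf tpr1646_c)))) (BT.Fa_mk (BT.Fa_mk (BT.Fa_leaf (P := Itm.ok 206) (iqf tpr633_c)) (BT.Fa_leaf (P := Itm.ok 206) (iqb tpr1670_c))) (BT.Fa_leaf (P := Itm.ok 206) (iqb tpr74_c)))) (BT.Fa_mk (BT.Fa_mk (BT.Fa_mk (BT.Fa_leaf (P := Itm.ok 206) (iqf tpr123_c)) (BT.Fa_leaf (P := Itm.ok 206) (iqf tpr118_c))) (BT.Fa_mk (BT.Fa_leaf (P := Itm.ok 206) (iqb tpr516_c)) (BT.Fa_leaf (P := Itm.ok 206) (iqf tpr122_c)))) (BT.Fa_mk (BT.Fa_mk (BT.Fa_leaf (P := Itm.ok 206) (iqf tpr13_c)) (BT.Fa_leaf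 (P := Itm.ok 206) (iqb tpr710_c))) (BT.Fa_leaf (P := Itm.ok 206) (iqb tpr123_c))))) (BT.Fa_mk (BT.Fa_mk (BT.Fa_mk (BT.Fa_mk (BT.Fa_leaf (P := Itm.ok 206) (iqb tpr406_c)) (BT.Fa_leaf (P := Itm.ok 206) (iqb tpr1200_c))) (BT.Fa_mk (BT.Fa_leaf (P := Itm.ok 206) (iqf tpr710_c)) (BT.Fa_leaf (P := Itm.ok 206) (iqb tpr122_c)))) (BT.Fa_mk (BT.Fa_mk (BT.Fa_leaf (P := Itm.ok 206) (iqf tpr1190_c)) (BT.Fa_leaf (P := Itm.ok 206) (iqb tpr118_c))) (BT.Fa_leaf (P := Itm.ok 206) (iqb tpr13_c)))) (BT.Fa_mk (BT.Fa_mk (BT.Fa_mk (BT.Fa_leaf (P := Itm.ok 206) (iqf tpr160_c)) (BT.Fa_leaf (P := Itm.ok 206) (iqb tpr344_c))) (BT.Fa_mk (BT.Fa_leaf (P := Itm.ok 206) (iqf tpr546_c)) (BT.Fa_leaf (P := Itm.ok 206) (iqb tpr555_c)))) (BT.Fa_mk (BT.Fa_mk (BT.Fa_leaf (P :=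 Itm.ok 206) (iqb tpr546_c)) (BT.Fa_leaf (P := Itm.ok 206) (iqf tpr2073_c))) (BT.Fa_leaf (P := Itm.ok 206) (iqb tpr1903_c))))))))

/-- all words of the class have labels -/
theorem pokNF2BzAyE2A3H2ByAzIzAyB2H3A2EyAzB2F : POK 206 xNF2BzAyE2A3H2ByAzIzAyB2H3A2EyAzB2F :=
  y_pok (C0 := ceNF2BzAyE2A3H2ByAzIzAyB2H3A2EyAzB2F) (C1 := coNF2BzAyE2A3H2ByAzIzAyB2H3A2EyAzB2F) topNF2BzAyE2A3H2ByAzIzAyB2H3A2EyAzB2F nbNF2BzAyE2A3H2ByAzIzAyB2H3A2EyAzB2F (BT.Fa_of_all iiNF2BzAyE2A3H2ByAzIzAyB2H3A2EyAzB2F_c)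
    (cyE_spec zeNF2BzAyE2A3H2ByAzIzAyB2H3A2EyAzB2F_0)
    (cyO_spec zoNF2BzAyE2A3H2ByAzIzAyB2H3A2EyAzB2F_0)
    iiNF2BzAyE2A3H2ByAzIzAyB2H3A2EyAzB2F_k

theorem iiNF2BzAyE2ByA3H2AzIzAyB2H3A2E2A2AzAyBzF_k : iiNF2BzAyE2ByA3H2AzIzAyB2H3A2E2A2AzAyBzF.Fa (Itm.ok 206) := (BT.Fa_mk (BT.Fa_mk (BT.Fa_mk (BT.Fa_mk (BT.Fa_mk (BT.Fa_mk (BT.Fa_mk (BT.Fa_mk (BT.Fa_mk (BT.Fa_leaf (P := Itm.ok 206) (iqf tpr5_c)) (BT.Fa_leaf (P := Itm.ok 206) (iqf tpr4_c))) (BT.Fa_leaf (P := Itm.ok 206) (iqf tpr500_c))) (BT.Fa_mk (BT.Fa_leaf (P := Itm.ok 206) (iqb tpr8_c)) (BT.Fa_leaf (P := Itm.ok 206) (iqf tpr559_c)))) (BT.Fa_mk (BT.Fa_mk (BT.Fa_mk (BT.Fa_leaf (P := Itm.ok 206) (iqb tpr2487_c)) (BT.Fa_leaf (P := Itm.ok 206) (iqb tpr2486_c))) (BT.Fa_leaf (P := Itm.ok 206)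 (iqf tpr2523_c))) (BT.Fa_mk (BT.Fa_leaf (P := Itm.ok 206) (iqf tpr2227_c)) (BT.Fa_leaf (P := Itm.ok 206) (iqb tpr1547_c))))) (BT.Fa_mk (BT.Fa_mk (BT.Fa_mk (BT.Fa_mk (BT.Fa_leaf (P := Itm.ok 206) (iqf tpr2163_c)) (BT.Fa_leaf (P := Itm.ok 206) (iqf tpr2507_c))) (BT.Fa_leaf (P := Itm.ok 206) (iqf tpr2532_c))) (BT.Fa_mk (BT.Fa_leaf (P := Itm.ok 206) (iqb tpr259_c)) (BT.Fa_leaf (P := Itm.ok 206) (iqb tpr575_c)))) (BT.Fa_mk (BT.Fa_mk (BT.Fa_leaf (P := Itm.ok 206) (iqb tpr2190_c)) (BT.Fa_leaf (P := Itm.ok 206) (iqf tpr2666_c))) (BT.Fa_mk (BT.Fa_leaf (P := Itm.ok 206) (iqf tpr2113_c)) (BT.Fa_leaf (P := Itm.ok 206) (iqb tpr239_c)))))) (BT.Fa_mk (BT.Fa_mk (BT.Fa_mk (BT.Fa_mk (BT.Fa_mk (BT.Fa_leaf (P := Itm.ok 206) (iqf tpr2545_c)) (BT.Fa_leaf (P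 := Itm.ok 206) (iqf tpr2186_c))) (BT.Fa_leaf (P := Itm.ok 206) (iqb tpr2674_c))) (BT.Fa_mk (BT.Fa_leaf (P := Itm.ok 206) (iqb tpr2508_c)) (BT.Fa_leaf (P := Itm.ok 206) (iqb tpr2040_c)))) (BT.Fa_mk (BT.Fa_mk (BT.Fa_leaf (P := Itm.ok 206) (iqf tpr2260_c)) (BT.Fa_leaf (P := Itm.ok 206) (iqf tpr2682_c))) (BT.Fa_mk (BT.Fa_leaf (P := Itm.ok 206) (iqb tpr2516_c)) (BT.Fa_leaf (P := Itm.ok 206) (iqf tpr168_c))))) (BT.Fa_mk (BT.Fa_mk (BT.Fa_mk (BT.Fa_mk (BT.Fa_leaf (P := Itm.ok 206) (iqb tpr2524_c)) (BT.Fa_leaf (P := Itm.ok 206) (iqf tpr2485_c))) (BT.Fa_leaf (P := Itm.ok 206) (iqf tpr2133_c))) (BT.Fa_mk (BT.Fa_leaf (P := Itm.ok 206) (iqf tpr2171_c)) (BT.Fa_leaf (P := Itm.ok 206) (iqb tpr2013_c)))) (BT.Fa_mk (BT.Fa_mk (BT.Fa_leaf (P := Itm.ok 206)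 (iqb tpr2161_c)) (BT.Fa_leaf (P := Itm.ok 206) (iqf tpr1311_c))) (BT.Fa_mk (BT.Fa_leaf (P := Itm.ok 206) (iqf tpr1472_c)) (BT.Fa_leaf (P := Itm.ok 206) (iqf tpr2253_c))))))) (BT.Fa_mk (BT.Fa_mk (BT.Fa_mk (BT.Fa_mk (BT.Fa_mk (BT.Fa_mk (BT.Fa_leaf (P := Itm.ok 206) (iqf tpr2676_c)) (BT.Fa_leaf (P := Itm.ok 206) (iqb tpr2659_c))) (BT.Fa_leaf (P := Itm.ok 206) (iqb tpr2538_c))) (BT.Fa_mk (BT.Fa_leaf (P := Itm.ok 206) (iqb tpr10_c)) (BT.Fa_leaf (P := Itm.ok 206) (iqb tpr1747_c)))) (BT.Fa_mk (BT.Fa_mk (BT.Fa_leaf (P := Itm.ok 206) (iqf tpr12_c)) (BT.Fa_leaf (P := Itm.ok 206) (iqb tpr33_c))) (BT.Fa_mk (BT.Fa_leaf (P := Itm.ok 206) (iqb tpr113_c)) (BT.Fa_leaf (P := Itm.ok 206) (iqf tpr51_c))))) (BT.Fa_mk (BT.Fa_mk (BT.Fa_mk (BT.Fa_mk (BT.Fa_leaf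 (P := Itm.ok 206) (iqb tpr1323_c)) (BT.Fa_leaf (P := Itm.ok 206) (iqb tpr2143_c))) (BT.Fa_leaf (P := Itm.ok 206) (iqb tpr815_c))) (BT.Fa_mk (BT.Fa_leaf (P := Itm.ok 206) (iqf tpr780_c)) (BT.Fa_leaf (P := Itm.ok 206) (iqf tpr738_c)))) (BT.Fa_mk (BT.Fa_mk (BT.Fa_leaf (P := Itm.ok 206) (iqb tpr2514_c)) (BT.Fa_leaf (P := Itm.ok 206) (iqf tpr2493_c))) (BT.Fa_mk (BT.Fa_leaf (P := Itm.ok 206) (iqb tpr2225_c)) (BT.Fa_leaf (P := Itm.ok 206) (iqf tpr235_c)))))) (BT.Fa_mk (BT.Fa_mk (BT.Fa_mk (BT.Fa_mk (BT.Fa_mk (BT.Fa_leaf (P := Itm.ok 206) (iqb tpr499_c)) (BT.Fa_leaf (P := Itm.ok 206) (iqf tpr814_c))) (BT.Fa_leaf (P := Itm.ok 206) (iqf tpr733_c))) (BT.Fa_mk (BT.Fa_leaf (P := Itm.ok 206) (iqf tpr2398_c)) (BT.Fa_leaf (P := Itm.ok 206) (iqb tpr2325_c))))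 (BT.Fa_mk (BT.Fa_mk (BT.Fa_leaf (P := Itm.ok 206) (iqf tpr611_c)) (BT.Fa_leaf (P := Itm.ok 206) (iqb tpr2669_c))) (BT.Fa_mk (BT.Fa_leaf (P := Itm.ok 206) (iqb tpr1365_c)) (BT.Fa_leaf (P := Itm.ok 206) (iqb tpr63_c))))) (BT.Fa_mk (BT.Fa_mk (BT.Fa_mk (BT.Fa_mk (BT.Fa_leaf (P := Itm.ok 206) (iqb tpr1354_c)) (BT.Fa_leaf (P := Itm.ok 206) (iqf tpr35_c))) (BT.Fa_leaf (P := Itm.ok 206) (iqf tpr2220_c))) (BT.Fa_mk (BT.Fa_leaf (P := Itm.ok 206) (iqf tpr1331_c)) (BT.Fa_leaf (P := Itm.ok 206) (iqf tpr1334_c)))) (BT.Fa_mk (BT.Fa_mk (BT.Fa_leaf (P := Itm.ok 206) (iqf tpr1341_c)) (BT.Fa_leaf (P := Itm.ok 206) (iqb tpr2247_c))) (BT.Fa_mk (BT.Fa_leaf (P := Itm.ok 206) (iqb tpr2165_c)) (BT.Fa_leaf (P := Itm.ok 206) (iqf tpr2521_c)))))))) (BT.Fa_mk (BT.Fa_mk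 (BT.Fa_mk (BT.Fa_mk (BT.Fa_mk (BT.Fa_mk (BT.Fa_mk (BT.Fa_leaf (P := Itm.ok 206) (iqb tpr1196_c)) (BT.Fa_leaf (P := Itm.ok 206) (iqf tpr596_c))) (BT.Fa_leaf (P := Itm.ok 206) (iqb tpr2295_c))) (BT.Fa_mk (BT.Fa_leaf (P := Itm.ok 206) (iqb tpr2111_c)) (BT.Fa_leaf (P := Itm.ok 206) (iqb tpr1335_c)))) (BT.Fa_mk (BT.Fa_mk (BT.Fa_mk (BT.Fa_leaf (P := Itm.ok 206) (iqb tpr555_c)) (BT.Fa_leaf (P := Itm.ok 206) (iqf tpr768_c))) (BT.Fa_leaf (P := Itm.ok 206) (iqf tpr2395_c))) (BT.Fa_mk (BT.Fa_leaf (P := Itm.ok 206) (iqb tpr1336_c)) (BT.Fa_leaf (P := Itm.ok 206) (iqb tpr2488_c))))) (BT.Fa_mk (BT.Fa_mk (BT.Fa_mk (BT.Fa_mk (BT.Fa_leaf (P := Itm.ok 206) (iqf tpr1464_c)) (BT.Fa_leaf (P := Itm.ok 206) (iqb tpr780_c))) (BT.Fa_leaf (P := Itm.ok 206) (iqf tpr949_c)))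 (BT.Fa_mk (BT.Fa_leaf (P := Itm.ok 206) (iqb tpr990_c)) (BT.Fa_leaf (P := Itm.ok 206) (iqf tpr82_c)))) (BT.Fa_mk (BT.Fa_mk (BT.Fa_leaf (P := Itm.ok 206) (iqb tpr577_c)) (BT.Fa_leaf (P := Itm.ok 206) (iqf tpr1255_c))) (BT.Fa_mk (BT.Fa_leaf (P := Itm.ok 206) (iqf tpr239_c)) (BT.Fa_leaf (P := Itm.ok 206) (iqb tpr2501_c)))))) (BT.Fa_mk (BT.Fa_mk (BT.Fa_mk (BT.Fa_mk (BT.Fa_mk (BT.Fa_leaf (P := Itm.ok 206) (iqf tpr680_c)) (BT.Fa_leaf (P := Itm.ok 206) (iqb tpr541_c))) (BT.Fa_leaf (P := Itm.ok 206) (iqb tpr505_c))) (BT.Fa_mk (BT.Fa_leaf (P := Itm.ok 206) (iqf tpr583_c)) (BT.Fa_leaf (P := Itm.ok 206) (iqf tpr507_c)))) (BT.Fa_mk (BT.Fa_mk (BT.Fa_leaf (P := Itm.ok 206) (iqb tpr518_c)) (BT.Fa_leaf (P := Itm.ok 206) (iqf tpr419_c))) (BT.Fa_mk (BT.Fa_leaf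 (P := Itm.ok 206) (iqb tpr1193_c)) (BT.Fa_leaf (P := Itm.ok 206) (iqf tpr466_c))))) (BT.Fa_mk (BT.Fa_mk (BT.Fa_mk (BT.Fa_mk (BT.Fa_leaf (P := Itm.ok 206) (iqb tpr9_c)) (BT.Fa_leaf (P := Itm.ok 206) (iqb tpr11_c))) (BT.Fa_leaf (P := Itm.ok 206) (iqf tpr656_c))) (BT.Fa_mk (BT.Fa_leaf (P := Itm.ok 206) (iqb tpr636_c)) (BT.Fa_leaf (P := Itm.ok 206) (iqf tpr2510_c)))) (BT.Fa_mk (BT.Fa_mk (BT.Fa_leaf (P := Itm.ok 206) (iqb tpr1562_c)) (BT.Fa_leaf (P := Itm.ok 206) (iqb tpr721_c))) (BT.Fa_mk (BT.Fa_leaf (P := Itm.ok 206) (iqf tpr2527_c)) (BT.Fa_leaf (P := Itm.ok 206) (iqf tpr645_c))))))) (BT.Fa_mk (BT.Fa_mk (BT.Fa_mk (BT.Fa_mk (BT.Fa_mk (BT.Fa_mk (BT.Fa_leaf (P := Itm.ok 206) (iqf tpr1733_c)) (BT.Fa_leaf (P := Itm.ok 206) (iqb tpr2272_c))) (BT.Fa_leaf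 (P := Itm.ok 206) (iqf tpr2334_c))) (BT.Fa_mk (BT.Fa_leaf (P := Itm.ok 206) (iqb tpr2149_c)) (BT.Fa_leaf (P := Itm.ok 206) (iqf tpr1900_c)))) (BT.Fa_mk (BT.Fa_mk (BT.Fa_leaf (P := Itm.ok 206) (iqf tpr2166_c)) (BT.Fa_leaf (P := Itm.ok 206) (iqb tpr1099_c))) (BT.Fa_mk (BT.Fa_leaf (P := Itm.ok 206) (iqf tpr506_c)) (BT.Fa_leaf (P := Itm.ok 206) (iqb tpr2154_c))))) (BT.Fa_mk (BT.Fa_mk (BT.Fa_mk (BT.Fa_mk (BT.Fa_leaf (P := Itm.ok 206) (iqb tpr2531_c)) (BT.Fa_leaf (P := Itm.ok 206) (iqb tpr997_c))) (BT.Fa_leaf (P := Itm.ok 206) (iqb tpr2164_c))) (BT.Fa_mk (BT.Fa_leaf (P := Itm.ok 206) (iqb tpr2126_c)) (BT.Fa_leaf (P := Itm.ok 206) (iqb tpr2513_c)))) (BT.Fa_mk (BT.Fa_mk (BT.Fa_leaf (P := Itm.ok 206) (iqf tpr1215_c)) (BT.Fa_leaf (P := Itm.ok 206)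 (iqb tpr2556_c))) (BT.Fa_mk (BT.Fa_leaf (P := Itm.ok 206) (iqf tpr2667_c)) (BT.Fa_leaf (P := Itm.ok 206) (iqf tpr2229_c)))))) (BT.Fa_mk (BT.Fa_mk (BT.Fa_mk (BT.Fa_mk (BT.Fa_mk (BT.Fa_leaf (P := Itm.ok 206) (iqf tpr2262_c)) (BT.Fa_leaf (P := Itm.ok 206) (iqf tpr2150_c))) (BT.Fa_leaf (P := Itm.ok 206) (iqf tpr2231_c))) (BT.Fa_mk (BT.Fa_leaf (P := Itm.ok 206) (iqb tpr15_c)) (BT.Fa_leaf (P := Itm.ok 206) (iqf tpr2256_c)))) (BT.Fa_mk (BT.Fa_mk (BT.Fa_leaf (P := Itm.ok 206) (iqf tpr2515_c)) (BT.Fa_leaf (P := Itm.ok 206) (iqb tpr2130_c))) (BT.Fa_mk (BT.Fa_leaf (P := Itm.ok 206) (iqb tpr2279_c)) (BT.Fa_leaf (P := Itm.ok 206) (iqb tpr1247_c))))) (BT.Fa_mk (BT.Fa_mk (BT.Fa_mk (BT.Fa_mk (BT.Fa_leaf (P := Itm.ok 206) (iqb tpr2512_c)) (BT.Fa_leaf (P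 := Itm.ok 206) (iqb tpr1001_c))) (BT.Fa_leaf (P := Itm.ok 206) (iqf tpr2189_c))) (BT.Fa_mk (BT.Fa_leaf (P := Itm.ok 206) (iqf tpr1765_c)) (BT.Fa_leaf (P := Itm.ok 206) (iqf tpr1647_c)))) (BT.Fa_mk (BT.Fa_mk (BT.Fa_leaf (P := Itm.ok 206) (iqb tpr2233_c)) (BT.Fa_leaf (P := Itm.ok 206) (iqf tpr2356_c))) (BT.Fa_mk (BT.Fa_leaf (P := Itm.ok 206) (iqf tpr627_c)) (BT.Fa_leaf (P := Itm.ok 206) (iqf tpr1764_c))))))))) (BT.Fa_mk (BT.Fa_mk (BT.Fa_mk (BT.Fa_mk (BT.Fa_mk (BT.Fa_mk (BT.Fa_mk (BT.Fa_mk (BT.Fa_leaf (P := Itm.ok 206) (iqf tpr247_c)) (BT.Fa_leaf (P := Itm.ok 206) (iqb tpr2544_c))) (BT.Fa_leaf (P := Itm.ok 206) (iqb tpr2208_c))) (BT.Fa_mk (BT.Fa_leaf (P := Itm.ok 206) (iqb tpr616_c)) (BT.Fa_leaf (P := Itm.ok 206) (iqf tpr1767_c)))) (BT.Fa_mk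 (BT.Fa_mk (BT.Fa_mk (BT.Fa_leaf (P := Itm.ok 206) (iqf tpr2492_c)) (BT.Fa_leaf (P := Itm.ok 206) (iqf tpr191_c))) (BT.Fa_leaf (P := Itm.ok 206) (iqb tpr167_c))) (BT.Fa_mk (BT.Fa_leaf (P := Itm.ok 206) (iqb tpr1028_c)) (BT.Fa_leaf (P := Itm.ok 206) (iqb tpr581_c))))) (BT.Fa_mk (BT.Fa_mk (BT.Fa_mk (BT.Fa_mk (BT.Fa_leaf (P := Itm.ok 206) (iqf tpr982_c)) (BT.Fa_leaf (P := Itm.ok 206) (iqf tpr508_c))) (BT.Fa_leaf (P := Itm.ok 206) (iqf tpr619_c))) (BT.Fa_mk (BT.Fa_leaf (P := Itm.ok 206) (iqf tpr2167_c)) (BT.Fa_leaf (P := Itm.ok 206) (iqb tpr2125_c)))) (BT.Fa_mk (BT.Fa_mk (BT.Fa_leaf (P := Itm.ok 206) (iqf tpr2500_c)) (BT.Fa_leaf (P := Itm.ok 206) (iqb tpr2504_c))) (BT.Fa_mk (BT.Fa_leaf (P := Itm.ok 206) (iqf tpr2177_c)) (BT.Fa_leaf (P := Itm.ok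 206) (iqf tpr210_c)))))) (BT.Fa_mk (BT.Fa_mk (BT.Fa_mk (BT.Fa_mk (BT.Fa_mk (BT.Fa_leaf (P := Itm.ok 206) (iqf tpr2546_c)) (BT.Fa_leaf (P := Itm.ok 206) (iqf tpr2543_c))) (BT.Fa_leaf (P := Itm.ok 206) (iqb tpr2123_c))) (BT.Fa_mk (BT.Fa_leaf (P := Itm.ok 206) (iqb tpr2498_c)) (BT.Fa_leaf (P := Itm.ok 206) (iqb tpr2588_c)))) (BT.Fa_mk (BT.Fa_mk (BT.Fa_leaf (P := Itm.ok 206) (iqf tpr2497_c)) (BT.Fa_leaf (P := Itm.ok 206) (iqf tpr2236_c))) (BT.Fa_mk (BT.Fa_leaf (P := Itm.ok 206) (iqb tpr2491_c)) (BT.Fa_leaf (P := Itm.ok 206) (iqf tpr2526_c))))) (BT.Fa_mk (BT.Fa_mk (BT.Fa_mk (BT.Fa_mk (BT.Fa_leaf (P := Itm.ok 206) (iqb tpr2499_c)) (BT.Fa_leaf (P := Itm.ok 206) (iqf tpr1754_c))) (BT.Fa_leaf (P := Itm.ok 206) (iqf tpr2490_c))) (BT.Fa_mk (BT.Fa_leaf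 (P := Itm.ok 206) (iqf tpr2489_c)) (BT.Fa_leaf (P := Itm.ok 206) (iqf tpr2495_c)))) (BT.Fa_mk (BT.Fa_mk (BT.Fa_leaf (P := Itm.ok 206) (iqf tpr2116_c)) (BT.Fa_leaf (P := Itm.ok 206) (iqf tpr2525_c))) (BT.Fa_mk (BT.Fa_leaf (P := Itm.ok 206) (iqb tpr2278_c)) (BT.Fa_leaf (P := Itm.ok 206) (iqb tpr2505_c))))))) (BT.Fa_mk (BT.Fa_mk (BT.Fa_mk (BT.Fa_mk (BT.Fa_mk (BT.Fa_mk (BT.Fa_leaf (P := Itm.ok 206) (iqf tpr2506_c)) (BT.Fa_leaf (P := Itm.ok 206) (iqb tpr2496_c))) (BT.Fa_leaf (P := Itm.ok 206) (iqb tpr2005_c))) (BT.Fa_mk (BT.Fa_leaf (P := Itm.ok 206) (iqf tpr2511_c)) (BT.Fa_leaf (P := Itm.ok 206) (iqb tpr2528_c)))) (BT.Fa_mk (BT.Fa_mk (BT.Fa_leaf (P := Itm.ok 206) (iqf tpr1138_c)) (BT.Fa_leaf (P := Itm.ok 206) (iqb tpr1644_c))) (BT.Fa_mk (BT.Fa_leaf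 (P := Itm.ok 206) (iqb tpr1065_c)) (BT.Fa_leaf (P := Itm.ok 206) (iqf tpr2267_c))))) (BT.Fa_mk (BT.Fa_mk (BT.Fa_mk (BT.Fa_mk (BT.Fa_leaf (P := Itm.ok 206) (iqf tpr2542_c)) (BT.Fa_leaf (P := Itm.ok 206) (iqb tpr2214_c))) (BT.Fa_leaf (P := Itm.ok 206) (iqf tpr2226_c))) (BT.Fa_mk (BT.Fa_leaf (P := Itm.ok 206) (iqf tpr2255_c)) (BT.Fa_leaf (P := Itm.ok 206) (iqf tpr1664_c)))) (BT.Fa_mk (BT.Fa_mk (BT.Fa_leaf (P := Itm.ok 206) (iqf tpr2537_c)) (BT.Fa_leaf (P := Itm.ok 206) (iqf tpr2259_c))) (BT.Fa_mk (BT.Fa_leaf (P := Itm.ok 206) (iqb tpr2206_c)) (BT.Fa_leaf (P := Itm.ok 206) (iqf tpr344_c)))))) (BT.Fa_mk (BT.Fa_mk (BT.Fa_mk (BT.Fa_mk (BT.Fa_mk (BT.Fa_leaf (P := Itm.ok 206) (iqb tpr1145_c)) (BT.Fa_leaf (P := Itm.ok 206) (iqf tpr2679_c))) (BT.Fa_leaf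 (P := Itm.ok 206) (iqb tpr1692_c))) (BT.Fa_mk (BT.Fa_leaf (P := Itm.ok 206) (iqf tpr589_c)) (BT.Fa_leaf (P := Itm.ok 206) (iqf tpr1653_c)))) (BT.Fa_mk (BT.Fa_mk (BT.Fa_leaf (P := Itm.ok 206) (iqf tpr2239_c)) (BT.Fa_leaf (P := Itm.ok 206) (iqf tpr198_c))) (BT.Fa_mk (BT.Fa_leaf (P := Itm.ok 206) (iqb tpr2529_c)) (BT.Fa_leaf (P := Itm.ok 206) (iqb tpr2685_c))))) (BT.Fa_mk (BT.Fa_mk (BT.Fa_mk (BT.Fa_mk (BT.Fa_leaf (P := Itm.ok 206) (iqb tpr1206_c)) (BT.Fa_leaf (P := Itm.ok 206) (iqb tpr615_c))) (BT.Fa_leaf (P := Itm.ok 206) (iqf tpr17_c))) (BT.Fa_mk (BT.Fa_leaf (P := Itm.ok 206) (iqb tpr2269_c)) (BT.Fa_leaf (P := Itm.ok 206) (iqb tpr2509_c)))) (BT.Fa_mk (BT.Fa_mk (BT.Fa_leaf (P := Itm.ok 206) (iqb tpr2131_c)) (BT.Fa_leaf (P := Itm.ok 206) (iqb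 tpr2215_c))) (BT.Fa_mk (BT.Fa_leaf (P := Itm.ok 206) (iqf tpr2673_c)) (BT.Fa_leaf (P := Itm.ok 206) (iqf tpr2683_c)))))))) (BT.Fa_mk (BT.Fa_mk (BT.Fa_mk (BT.Fa_mk (BT.Fa_mk (BT.Fa_mk (BT.Fa_mk (BT.Fa_leaf (P := Itm.ok 206) (iqf tpr1051_c)) (BT.Fa_leaf (P := Itm.ok 206) (iqb tpr360_c))) (BT.Fa_leaf (P := Itm.ok 206) (iqf tpr89_c))) (BT.Fa_mk (BT.Fa_leaf (P := Itm.ok 206) (iqf tpr2153_c)) (BT.Fa_leaf (P := Itm.ok 206) (iqb tpr2689_c)))) (BT.Fa_mk (BT.Fa_mk (BT.Fa_mk (BT.Fa_leaf (P := Itm.ok 206) (iqb tpr2688_c)) (BT.Fa_leaf (P := Itm.ok 206) (iqb tpr2614_c))) (BT.Fa_leaf (P := Itm.ok 206) (iqb tpr504_c))) (BT.Fa_mk (BT.Fa_leaf (P := Itm.ok 206) (iqf tpr555_c)) (BT.Fa_leaf (P := Itm.ok 206) (iqf tpr1633_c))))) (BT.Fa_mk (BT.Fa_mk (BT.Fa_mk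 (BT.Fa_mk (BT.Fa_leaf (P := Itm.ok 206) (iqb tpr1182_c)) (BT.Fa_leaf (P := Itm.ok 206) (iqf tpr744_c))) (BT.Fa_leaf (P := Itm.ok 206) (iqf tpr1554_c))) (BT.Fa_mk (BT.Fa_leaf (P := Itm.ok 206) (iqb tpr2230_c)) (BT.Fa_leaf (P := Itm.ok 206) (iqb tpr2114_c)))) (BT.Fa_mk (BT.Fa_mk (BT.Fa_leaf (P := Itm.ok 206) (iqb tpr2137_c)) (BT.Fa_leaf (P := Itm.ok 206) (iqb tpr2112_c))) (BT.Fa_mk (BT.Fa_leaf (P := Itm.ok 206) (iqb tpr2242_c)) (BT.Fa_leaf (P := Itm.ok 206) (iqf tpr456_c)))))) (BT.Fa_mk (BT.Fa_mk (BT.Fa_mk (BT.Fa_mk (BT.Fa_mk (BT.Fa_leaf (P := Itm.ok 206) (iqf tpr479_c)) (BT.Fa_leaf (P := Itm.ok 206) (iqf tpr454_c))) (BT.Fa_leaf (P := Itm.ok 206) (iqf tpr485_c))) (BT.Fa_mk (BT.Fa_leaf (P := Itm.ok 206) (iqf tpr1313_c)) (BT.Fa_leaf (P := Itm.ok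 206) (iqb tpr477_c)))) (BT.Fa_mk (BT.Fa_mk (BT.Fa_leaf (P := Itm.ok 206) (iqb tpr106_c)) (BT.Fa_leaf (P := Itm.ok 206) (iqf tpr582_c))) (BT.Fa_mk (BT.Fa_leaf (P := Itm.ok 206) (iqf tpr617_c)) (BT.Fa_leaf (P := Itm.ok 206) (iqb tpr2217_c))))) (BT.Fa_mk (BT.Fa_mk (BT.Fa_mk (BT.Fa_mk (BT.Fa_leaf (P := Itm.ok 206) (iqf tpr2277_c)) (BT.Fa_leaf (P := Itm.ok 206) (iqb tpr849_c))) (BT.Fa_leaf (P := Itm.ok 206) (iqb tpr1346_c))) (BT.Fa_mk (BT.Fa_leaf (P := Itm.ok 206) (iqf tpr2593_c)) (BT.Fa_leaf (P := Itm.ok 206) (iqf tpr2699_c)))) (BT.Fa_mk (BT.Fa_mk (BT.Fa_leaf (P := Itm.ok 206) (iqf tpr2696_c)) (BT.Fa_leaf (P := Itm.ok 206) (iqb tpr62_c))) (BT.Fa_mk (BT.Fa_leaf (P := Itm.ok 206) (iqf tpr2704_c)) (BT.Fa_leaf (P := Itm.ok 206) (iqb tpr2703_c)))))))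 (BT.Fa_mk (BT.Fa_mk (BT.Fa_mk (BT.Fa_mk (BT.Fa_mk (BT.Fa_mk (BT.Fa_leaf (P := Itm.ok 206) (iqf tpr2698_c)) (BT.Fa_leaf (P := Itm.ok 206) (iqb tpr2244_c))) (BT.Fa_leaf (P := Itm.ok 206) (iqf tpr2705_c))) (BT.Fa_mk (BT.Fa_leaf (P := Itm.ok 206) (iqb tpr2187_c)) (BT.Fa_leaf (P := Itm.ok 206) (iqf tpr2594_c)))) (BT.Fa_mk (BT.Fa_mk (BT.Fa_leaf (P := Itm.ok 206) (iqf tpr1479_c)) (BT.Fa_leaf (P := Itm.ok 206) (iqb tpr2595_c))) (BT.Fa_mk (BT.Fa_leaf (P := Itm.ok 206) (iqb tpr2712_c)) (BT.Fa_leaf (P := Itm.ok 206) (iqf tpr2695_c))))) (BT.Fa_mk (BT.Fa_mk (BT.Fa_mk (BT.Fa_mk (BT.Fa_leaf (P := Itm.ok 206) (iqf tpr1469_c)) (BT.Fa_leaf (P := Itm.ok 206) (iqb tpr1476_c))) (BT.Fa_leaf (P := Itm.ok 206) (iqf tpr2701_c))) (BT.Fa_mk (BT.Fa_leaf (P := Itm.ok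 206) (iqf tpr2591_c)) (BT.Fa_leaf (P := Itm.ok 206) (iqf tpr2917_c)))) (BT.Fa_mk (BT.Fa_mk (BT.Fa_leaf (P := Itm.ok 206) (iqf tpr2671_c)) (BT.Fa_leaf (P := Itm.ok 206) (iqf tpr2697_c))) (BT.Fa_mk (BT.Fa_leaf (P := Itm.ok 206) (iqb tpr2694_c)) (BT.Fa_leaf (P := Itm.ok 206) (iqb tpr2718_c)))))) (BT.Fa_mk (BT.Fa_mk (BT.Fa_mk (BT.Fa_mk (BT.Fa_mk (BT.Fa_leaf (P := Itm.ok 206) (iqb tpr2706_c)) (BT.Fa_leaf (P := Itm.ok 206) (iqf tpr2551_c))) (BT.Fa_leaf (P := Itm.ok 206) (iqf tpr2668_c))) (BT.Fa_mk (BT.Fa_leaf (P := Itm.ok 206) (iqf tpr2700_c)) (BT.Fa_leaf (P := Itm.ok 206) (iqb tpr2707_c)))) (BT.Fa_mk (BT.Fa_mk (BT.Fa_leaf (P := Itm.ok 206) (iqb tpr2730_c)) (BT.Fa_leaf (P := Itm.ok 206) (iqf tpr2246_c))) (BT.Fa_mk (BT.Fa_leaf (P := Itm.ok 206)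 (iqf tpr2721_c)) (BT.Fa_leaf (P := Itm.ok 206) (iqb tpr2722_c))))) (BT.Fa_mk (BT.Fa_mk (BT.Fa_mk (BT.Fa_mk (BT.Fa_leaf (P := Itm.ok 206) (iqf tpr2727_c)) (BT.Fa_leaf (P := Itm.ok 206) (iqb tpr2729_c))) (BT.Fa_leaf (P := Itm.ok 206) (iqb tpr1257_c))) (BT.Fa_mk (BT.Fa_leaf (P := Itm.ok 206) (iqf tpr464_c)) (BT.Fa_leaf (P := Itm.ok 206) (iqb tpr2243_c)))) (BT.Fa_mk (BT.Fa_mk (BT.Fa_leaf (P := Itm.ok 206) (iqf tpr605_c)) (BT.Fa_leaf (P := Itm.ok 206) (iqb tpr453_c))) (BT.Fa_mk (BT.Fa_leaf (P := Itm.ok 206) (iqb tpr2648_c)) (BT.Fa_leaf (P := Itm.ok 206) (iqf tpr591_c))))))))))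

/-- all words of the class have labels -/
theorem pokNF2BzAyE2ByA3H2AzIzAyB2H3A2E2A2AzAyBzF : POK 206 xNF2BzAyE2ByA3H2AzIzAyB2H3A2E2A2AzAyBzF :=
  y_pok (C0 := ceNF2BzAyE2ByA3H2AzIzAyB2H3A2E2A2AzAyBzF) (C1 := coNF2BzAyE2ByA3H2AzIzAyB2H3A2E2A2AzAyBzF) topNF2BzAyE2ByA3H2AzIzAyB2H3A2E2A2AzAyBzF nbNF2BzAyE2ByA3H2AzIzAyB2H3A2E2A2AzAyBzF (BT.Fa_of_all iiNF2BzAyE2ByA3H2AzIzAyB2H3A2E2A2AzAyBzF_c)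
    (BT.Fa_mk (BT.Fa_mk (BT.Fa_mk (BT.Fa_mk (cyE_spec zeNF2BzAyE2ByA3H2AzIzAyB2H3A2E2A2AzAyBzF_0) (cyE_spec zeNF2BzAyE2ByA3H2AzIzAyB2H3A2E2A2AzAyBzF_1)) (cyE_spec zeNF2BzAyE2ByA3H2AzIzAyB2H3A2E2A2AzAyBzF_2)) (BT.Fa_mk (cyE_spec zeNF2BzAyE2ByA3H2AzIzAyB2H3A2E2A2AzAyBzF_3) (cyE_spec zeNF2BzAyE2ByA3H2AzIzAyB2H3A2E2A2AzAyBzF_4))) (BT.Fa_mk (BT.Fa_mk (BT.Fa_mk (cyE_spec zeNF2BzAyE2ByA3H2AzIzAyB2H3A2E2A2AzAyBzF_5) (BT.Fa_mk (cyE_spec zeNF2BzAyE2ByA3H2AzIzAyB2H3A2E2A2AzAyBzF_6) (cyE_spec zeNF2BzAyE2ByA3H2AzIzAyB2H3A2E2A2AzAyBzF_7))) (BT.Fa_mk (BT.Fa_mk (cyE_spec zeNF2BzAyE2ByA3H2AzIzAyB2H3A2E2A2AzAyBzF_8) (cyE_spec zeNF2BzAyE2ByA3H2AzIzAyB2H3A2E2A2AzAyBzF_9)) (cyE_spec zeNF2BzAyE2ByA3H2AzIzAyB2H3A2E2A2AzAyBzF_10))) (BT.Fa_mk (BT.Fa_mk (BT.Fa_mk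 (cyE_spec zeNF2BzAyE2ByA3H2AzIzAyB2H3A2E2A2AzAyBzF_11) (cyE_spec zeNF2BzAyE2ByA3H2AzIzAyB2H3A2E2A2AzAyBzF_12)) (cyE_spec zeNF2BzAyE2ByA3H2AzIzAyB2H3A2E2A2AzAyBzF_13)) (BT.Fa_mk (cyE_spec zeNF2BzAyE2ByA3H2AzIzAyB2H3A2E2A2AzAyBzF_14) (cyE_spec zeNF2BzAyE2ByA3H2AzIzAyB2H3A2E2A2AzAyBzF_15)))))
    (BT.Fa_mk (BT.Fa_mk (BT.Fa_mk (cyO_spec zoNF2BzAyE2ByA3H2AzIzAyB2H3A2E2A2AzAyBzF_0) (cyO_spec zoNF2BzAyE2ByA3H2AzIzAyB2H3A2E2A2AzAyBzF_1)) (BT.Fa_mk (cyO_spec zoNF2BzAyE2ByA3H2AzIzAyB2H3A2E2A2AzAyBzF_2) (cyO_spec zoNF2BzAyE2ByA3H2AzIzAyB2H3A2E2A2AzAyBzF_3))) (BT.Fa_mk (BT.Fa_mk (BT.Fa_mk (cyO_spec zoNF2BzAyE2ByA3H2AzIzAyB2H3A2E2A2AzAyBzF_4) (cyO_spec zoNF2BzAyE2ByA3H2AzIzAyB2H3A2E2A2AzAyBzF_5)) (BT.Fa_mk (cyO_spec zoNF2BzAyE2ByA3H2AzIzAyB2H3A2E2A2AzAyBzF_6)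 (cyO_spec zoNF2BzAyE2ByA3H2AzIzAyB2H3A2E2A2AzAyBzF_7))) (BT.Fa_mk (BT.Fa_mk (cyO_spec zoNF2BzAyE2ByA3H2AzIzAyB2H3A2E2A2AzAyBzF_8) (cyO_spec zoNF2BzAyE2ByA3H2AzIzAyB2H3A2E2A2AzAyBzF_9)) (BT.Fa_mk (cyO_spec zoNF2BzAyE2ByA3H2AzIzAyB2H3A2E2A2AzAyBzF_10) (cyO_spec zoNF2BzAyE2ByA3H2AzIzAyB2H3A2E2A2AzAyBzF_11)))))
    iiNF2BzAyE2ByA3H2AzIzAyB2H3A2E2A2AzAyBzF_k

theorem iiNF2BzE2A3H3AyB2EzF_k : iiNF2BzE2A3H3AyB2EzF.Fa (Itm.ok 206) := (BT.Fa_mk (BT.Fa_mk (BT.Fa_mk (BT.Fa_mk (BT.Fa_mk (BT.Fa_mk (BT.Fa_mk (BT.Fa_mk (BT.Fa_leaf (P := Itm.ok 206) (iqf tpr508_c)) (BT.Fa_leaf (P := Itm.ok 206) (iqf tpr511_c))) (BT.Fa_mk (BT.Fa_leaf (P := Itm.ok 206) (iqb tpr505_c)) (BT.Fa_leaf (P := Itm.ok 206) (iqb tpr968_c)))) (BT.Fa_mk (BT.Fa_mk (BT.Fa_leaf (P := Itm.ok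 206) (iqb tpr5_c)) (BT.Fa_leaf (P := Itm.ok 206) (iqb tpr8_c))) (BT.Fa_mk (BT.Fa_leaf (P := Itm.ok 206) (iqf tpr607_c)) (BT.Fa_leaf (P := Itm.ok 206) (iqf tpr82_c))))) (BT.Fa_mk (BT.Fa_mk (BT.Fa_mk (BT.Fa_leaf (P := Itm.ok 206) (iqb tpr656_c)) (BT.Fa_leaf (P := Itm.ok 206) (iqb tpr168_c))) (BT.Fa_mk (BT.Fa_leaf (P := Itm.ok 206) (iqf tpr518_c)) (BT.Fa_leaf (P := Itm.ok 206) (iqb tpr608_c)))) (BT.Fa_mk (BT.Fa_mk (BT.Fa_leaf (P := Itm.ok 206) (iqb tpr89_c)) (BT.Fa_leaf (P := Itm.ok 206) (iqf tpr606_c))) (BT.Fa_leaf (P := Itm.ok 206) (iqb tpr619_c))))) (BT.Fa_mk (BT.Fa_mk (BT.Fa_mk (BT.Fa_mk (BT.Fa_leaf (P := Itm.ok 206) (iqb tpr591_c)) (BT.Fa_leaf (P := Itm.ok 206) (iqf tpr236_c))) (BT.Fa_mk (BT.Fa_leaf (P := Itm.ok 206) (iqf tpr90_c)) (BT.Fa_leaf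 (P := Itm.ok 206) (iqb tpr1532_c)))) (BT.Fa_mk (BT.Fa_mk (BT.Fa_leaf (P := Itm.ok 206) (iqb tpr618_c)) (BT.Fa_leaf (P := Itm.ok 206) (iqf tpr547_c))) (BT.Fa_mk (BT.Fa_leaf (P := Itm.ok 206) (iqb tpr527_c)) (BT.Fa_leaf (P := Itm.ok 206) (iqf tpr62_c))))) (BT.Fa_mk (BT.Fa_mk (BT.Fa_mk (BT.Fa_leaf (P := Itm.ok 206) (iqb tpr553_c)) (BT.Fa_leaf (P := Itm.ok 206) (iqb tpr620_c))) (BT.Fa_mk (BT.Fa_leaf (P := Itm.ok 206) (iqb tpr548_c)) (BT.Fa_leaf (P := Itm.ok 206) (iqf tpr804_c)))) (BT.Fa_mk (BT.Fa_mk (BT.Fa_leaf (P := Itm.ok 206) (iqb tpr572_c)) (BT.Fa_leaf (P := Itm.ok 206) (iqf tpr644_c))) (BT.Fa_leaf (P := Itm.ok 206) (iqf tpr223_c)))))) (BT.Fa_mk (BT.Fa_mk (BT.Fa_mk (BT.Fa_mk (BT.Fa_mk (BT.Fa_leaf (P := Itm.ok 206) (iqf tpr628_c)) (BT.Fa_leaf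 (P := Itm.ok 206) (iqb tpr1666_c))) (BT.Fa_mk (BT.Fa_leaf (P := Itm.ok 206) (iqb tpr989_c)) (BT.Fa_leaf (P := Itm.ok 206) (iqf tpr634_c)))) (BT.Fa_mk (BT.Fa_mk (BT.Fa_leaf (P := Itm.ok 206) (iqf tpr661_c)) (BT.Fa_leaf (P := Itm.ok 206) (iqb tpr639_c))) (BT.Fa_mk (BT.Fa_leaf (P := Itm.ok 206) (iqf tpr1205_c)) (BT.Fa_leaf (P := Itm.ok 206) (iqf tpr935_c))))) (BT.Fa_mk (BT.Fa_mk (BT.Fa_mk (BT.Fa_leaf (P := Itm.ok 206) (iqb tpr622_c)) (BT.Fa_leaf (P := Itm.ok 206) (iqf tpr1570_c))) (BT.Fa_mk (BT.Fa_leaf (P := Itm.ok 206) (iqb tpr1904_c)) (BT.Fa_leaf (P := Itm.ok 206) (iqb tpr1912_c)))) (BT.Fa_mk (BT.Fa_mk (BT.Fa_leaf (P := Itm.ok 206) (iqf tpr537_c)) (BT.Fa_leaf (P := Itm.ok 206) (iqf tpr549_c))) (BT.Fa_leaf (P := Itm.ok 206) (iqf tpr675_c)))))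 (BT.Fa_mk (BT.Fa_mk (BT.Fa_mk (BT.Fa_mk (BT.Fa_leaf (P := Itm.ok 206) (iqb tpr641_c)) (BT.Fa_leaf (P := Itm.ok 206) (iqf tpr1665_c))) (BT.Fa_mk (BT.Fa_leaf (P := Itm.ok 206) (iqf tpr1905_c)) (BT.Fa_leaf (P := Itm.ok 206) (iqf tpr1552_c)))) (BT.Fa_mk (BT.Fa_mk (BT.Fa_leaf (P := Itm.ok 206) (iqb tpr225_c)) (BT.Fa_leaf (P := Itm.ok 206) (iqf tpr513_c))) (BT.Fa_mk (BT.Fa_leaf (P := Itm.ok 206) (iqf tpr48_c)) (BT.Fa_leaf (P := Itm.ok 206) (iqb tpr568_c))))) (BT.Fa_mk (BT.Fa_mk (BT.Fa_mk (BT.Fa_leaf (P := Itm.ok 206) (iqf tpr524_c)) (BT.Fa_leaf (P := Itm.ok 206) (iqb tpr501_c))) (BT.Fa_mk (BT.Fa_leaf (P := Itm.ok 206) (iqf tpr645_c)) (BT.Fa_leaf (P := Itm.ok 206) (iqb tpr210_c)))) (BT.Fa_mk (BT.Fa_mk (BT.Fa_leaf (P := Itm.ok 206) (iqb tpr2080_c))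 (BT.Fa_leaf (P := Itm.ok 206) (iqf tpr429_c))) (BT.Fa_leaf (P := Itm.ok 206) (iqb tpr609_c))))))) (BT.Fa_mk (BT.Fa_mk (BT.Fa_mk (BT.Fa_mk (BT.Fa_mk (BT.Fa_mk (BT.Fa_leaf (P := Itm.ok 206) (iqb tpr1457_c)) (BT.Fa_leaf (P := Itm.ok 206) (iqb tpr22_c))) (BT.Fa_mk (BT.Fa_leaf (P := Itm.ok 206) (iqf tpr507_c)) (BT.Fa_leaf (P := Itm.ok 206) (iqf tpr509_c)))) (BT.Fa_mk (BT.Fa_mk (BT.Fa_leaf (P := Itm.ok 206) (iqb tpr555_c)) (BT.Fa_leaf (P := Itm.ok 206) (iqf tpr582_c))) (BT.Fa_mk (BT.Fa_leaf (P := Itm.ok 206) (iqb tpr616_c)) (BT.Fa_leaf (P := Itm.ok 206) (iqf tpr519_c))))) (BT.Fa_mk (BT.Fa_mk (BT.Fa_mk (BT.Fa_leaf (P := Itm.ok 206) (iqf tpr545_c)) (BT.Fa_leaf (P := Itm.ok 206) (iqb tpr596_c))) (BT.Fa_mk (BT.Fa_leaf (P := Itm.ok 206) (iqf tpr629_c))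 (BT.Fa_leaf (P := Itm.ok 206) (iqf tpr504_c)))) (BT.Fa_mk (BT.Fa_mk (BT.Fa_leaf (P := Itm.ok 206) (iqb tpr103_c)) (BT.Fa_leaf (P := Itm.ok 206) (iqb tpr642_c))) (BT.Fa_leaf (P := Itm.ok 206) (iqf tpr458_c))))) (BT.Fa_mk (BT.Fa_mk (BT.Fa_mk (BT.Fa_mk (BT.Fa_leaf (P := Itm.ok 206) (iqb tpr1544_c)) (BT.Fa_leaf (P := Itm.ok 206) (iqb tpr75_c))) (BT.Fa_mk (BT.Fa_leaf (P := Itm.ok 206) (iqb tpr648_c)) (BT.Fa_leaf (P := Itm.ok 206) (iqb tpr515_c)))) (BT.Fa_mk (BT.Fa_mk (BT.Fa_leaf (P := Itm.ok 206) (iqb tpr191_c)) (BT.Fa_leaf (P := Itm.ok 206) (iqf tpr626_c))) (BT.Fa_mk (BT.Fa_leaf (P := Itm.ok 206) (iqf tpr966_c)) (BT.Fa_leaf (P := Itm.ok 206) (iqf tpr44_c))))) (BT.Fa_mk (BT.Fa_mk (BT.Fa_mk (BT.Fa_leaf (P := Itm.ok 206) (iqf tpr506_c)) (BT.Fa_leaf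 (P := Itm.ok 206) (iqb tpr251_c))) (BT.Fa_mk (BT.Fa_leaf (P := Itm.ok 206) (iqb tpr245_c)) (BT.Fa_leaf (P := Itm.ok 206) (iqf tpr552_c)))) (BT.Fa_mk (BT.Fa_mk (BT.Fa_leaf (P := Itm.ok 206) (iqb tpr664_c)) (BT.Fa_leaf (P := Itm.ok 206) (iqb tpr526_c))) (BT.Fa_leaf (P := Itm.ok 206) (iqb tpr687_c)))))) (BT.Fa_mk (BT.Fa_mk (BT.Fa_mk (BT.Fa_mk (BT.Fa_mk (BT.Fa_leaf (P := Itm.ok 206) (iqf tpr23_c)) (BT.Fa_leaf (P := Itm.ok 206) (iqb tpr538_c))) (BT.Fa_mk (BT.Fa_leaf (P := Itm.ok 206) (iqf tpr517_c)) (BT.Fa_leaf (P := Itm.ok 206) (iqb tpr610_c)))) (BT.Fa_mk (BT.Fa_mk (BT.Fa_leaf (P := Itm.ok 206) (iqf tpr1065_c)) (BT.Fa_leaf (P := Itm.ok 206) (iqf tpr1542_c))) (BT.Fa_mk (BT.Fa_leaf (P := Itm.ok 206) (iqf tpr667_c)) (BT.Fa_leaf (P := Itm.ok 206)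 (iqb tpr666_c))))) (BT.Fa_mk (BT.Fa_mk (BT.Fa_mk (BT.Fa_leaf (P := Itm.ok 206) (iqf tpr499_c)) (BT.Fa_leaf (P := Itm.ok 206) (iqf tpr203_c))) (BT.Fa_mk (BT.Fa_leaf (P := Itm.ok 206) (iqf tpr72_c)) (BT.Fa_leaf (P := Itm.ok 206) (iqf tpr510_c)))) (BT.Fa_mk (BT.Fa_mk (BT.Fa_leaf (P := Itm.ok 206) (iqf tpr106_c)) (BT.Fa_leaf (P := Itm.ok 206) (iqb tpr203_c))) (BT.Fa_leaf (P := Itm.ok 206) (iqf tpr612_c))))) (BT.Fa_mk (BT.Fa_mk (BT.Fa_mk (BT.Fa_mk (BT.Fa_leaf (P := Itm.ok 206) (iqf tpr247_c)) (BT.Fa_leaf (P := Itm.ok 206) (iqb tpr681_c))) (BT.Fa_mk (BT.Fa_leaf (P := Itm.ok 206) (iqf tpr684_c)) (BT.Fa_leaf (P := Itm.ok 206) (iqf tpr1406_c)))) (BT.Fa_mk (BT.Fa_mk (BT.Fa_leaf (P := Itm.ok 206) (iqb tpr521_c)) (BT.Fa_leaf (P := Itm.ok 206) (iqf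 tpr235_c))) (BT.Fa_mk (BT.Fa_leaf (P := Itm.ok 206) (iqf tpr1571_c)) (BT.Fa_leaf (P := Itm.ok 206) (iqb tpr516_c))))) (BT.Fa_mk (BT.Fa_mk (BT.Fa_mk (BT.Fa_leaf (P := Itm.ok 206) (iqb tpr1540_c)) (BT.Fa_leaf (P := Itm.ok 206) (iqb tpr704_c))) (BT.Fa_mk (BT.Fa_leaf (P := Itm.ok 206) (iqb tpr692_c)) (BT.Fa_leaf (P := Itm.ok 206) (iqf tpr583_c)))) (BT.Fa_mk (BT.Fa_mk (BT.Fa_leaf (P := Itm.ok 206) (iqf tpr592_c)) (BT.Fa_leaf (P := Itm.ok 206) (iqb tpr1863_c))) (BT.Fa_leaf (P := Itm.ok 206) (iqf tpr1970_c)))))))) (BT.Fa_mk (BT.Fa_mk (BT.Fa_mk (BT.Fa_mk (BT.Fa_mk (BT.Fa_mk (BT.Fa_mk (BT.Fa_leaf (P := Itm.ok 206) (iqf tpr589_c)) (BT.Fa_leaf (P := Itm.ok 206) (iqb tpr9_c))) (BT.Fa_mk (BT.Fa_leaf (P := Itm.ok 206) (iqb tpr18_c)) (BT.Fa_leaf (P :=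 Itm.ok 206) (iqb tpr625_c)))) (BT.Fa_mk (BT.Fa_mk (BT.Fa_leaf (P := Itm.ok 206) (iqb tpr721_c)) (BT.Fa_leaf (P := Itm.ok 206) (iqf tpr461_c))) (BT.Fa_mk (BT.Fa_leaf (P := Itm.ok 206) (iqb tpr523_c)) (BT.Fa_leaf (P := Itm.ok 206) (iqb tpr514_c))))) (BT.Fa_mk (BT.Fa_mk (BT.Fa_mk (BT.Fa_leaf (P := Itm.ok 206) (iqb tpr522_c)) (BT.Fa_leaf (P := Itm.ok 206) (iqf tpr1861_c))) (BT.Fa_mk (BT.Fa_leaf (P := Itm.ok 206) (iqb tpr626_c)) (BT.Fa_leaf (P := Itm.ok 206) (iqb tpr51_c)))) (BT.Fa_mk (BT.Fa_mk (BT.Fa_leaf (P := Itm.ok 206) (iqf tpr599_c)) (BT.Fa_leaf (P := Itm.ok 206) (iqf tpr1834_c))) (BT.Fa_leaf (P := Itm.ok 206) (iqf tpr682_c))))) (BT.Fa_mk (BT.Fa_mk (BT.Fa_mk (BT.Fa_mk (BT.Fa_leaf (P := Itm.ok 206) (iqb tpr611_c)) (BT.Fa_leaf (P := Itm.ok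 206) (iqb tpr573_c))) (BT.Fa_mk (BT.Fa_leaf (P := Itm.ok 206) (iqb tpr520_c)) (BT.Fa_leaf (P := Itm.ok 206) (iqf tpr963_c)))) (BT.Fa_mk (BT.Fa_mk (BT.Fa_leaf (P := Itm.ok 206) (iqf tpr1266_c)) (BT.Fa_leaf (P := Itm.ok 206) (iqb tpr593_c))) (BT.Fa_mk (BT.Fa_leaf (P := Itm.ok 206) (iqb tpr676_c)) (BT.Fa_leaf (P := Itm.ok 206) (iqb tpr1199_c))))) (BT.Fa_mk (BT.Fa_mk (BT.Fa_mk (BT.Fa_leaf (P := Itm.ok 206) (iqb tpr2077_c)) (BT.Fa_leaf (P := Itm.ok 206) (iqb tpr613_c))) (BT.Fa_mk (BT.Fa_leaf (P := Itm.ok 206) (iqf tpr1194_c)) (BT.Fa_leaf (P := Itm.ok 206) (iqb tpr503_c)))) (BT.Fa_mk (BT.Fa_mk (BT.Fa_leaf (P := Itm.ok 206) (iqb tpr632_c)) (BT.Fa_leaf (P := Itm.ok 206) (iqb tpr603_c))) (BT.Fa_leaf (P := Itm.ok 206) (iqb tpr1547_c)))))) (BT.Fa_mk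 (BT.Fa_mk (BT.Fa_mk (BT.Fa_mk (BT.Fa_mk (BT.Fa_leaf (P := Itm.ok 206) (iqb tpr562_c)) (BT.Fa_leaf (P := Itm.ok 206) (iqb tpr584_c))) (BT.Fa_mk (BT.Fa_leaf (P := Itm.ok 206) (iqb tpr151_c)) (BT.Fa_leaf (P := Itm.ok 206) (iqf tpr939_c)))) (BT.Fa_mk (BT.Fa_mk (BT.Fa_leaf (P := Itm.ok 206) (iqb tpr500_c)) (BT.Fa_leaf (P := Itm.ok 206) (iqf tpr505_c))) (BT.Fa_mk (BT.Fa_leaf (P := Itm.ok 206) (iqb tpr74_c)) (BT.Fa_leaf (P := Itm.ok 206) (iqf tpr978_c))))) (BT.Fa_mk (BT.Fa_mk (BT.Fa_mk (BT.Fa_leaf (P := Itm.ok 206) (iqb tpr82_c)) (BT.Fa_leaf (P := Itm.ok 206) (iqf tpr122_c))) (BT.Fa_mk (BT.Fa_leaf (P := Itm.ok 206) (iqf tpr627_c)) (BT.Fa_leaf (P := Itm.ok 206) (iqf tpr2079_c)))) (BT.Fa_mk (BT.Fa_mk (BT.Fa_leaf (P := Itm.ok 206) (iqf tpr1637_c))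 (BT.Fa_leaf (P := Itm.ok 206) (iqf tpr703_c))) (BT.Fa_leaf (P := Itm.ok 206) (iqf tpr602_c))))) (BT.Fa_mk (BT.Fa_mk (BT.Fa_mk (BT.Fa_mk (BT.Fa_leaf (P := Itm.ok 206) (iqb tpr662_c)) (BT.Fa_leaf (P := Itm.ok 206) (iqb tpr686_c))) (BT.Fa_mk (BT.Fa_leaf (P := Itm.ok 206) (iqb tpr628_c)) (BT.Fa_leaf (P := Itm.ok 206) (iqf tpr1052_c)))) (BT.Fa_mk (BT.Fa_mk (BT.Fa_leaf (P := Itm.ok 206) (iqb tpr294_c)) (BT.Fa_leaf (P := Itm.ok 206) (iqb tpr576_c))) (BT.Fa_mk (BT.Fa_leaf (P := Itm.ok 206) (iqf tpr222_c)) (BT.Fa_leaf (P := Itm.ok 206) (iqb tpr26_c))))) (BT.Fa_mk (BT.Fa_mk (BT.Fa_mk (BT.Fa_leaf (P := Itm.ok 206) (iqb tpr680_c)) (BT.Fa_leaf (P := Itm.ok 206) (iqf tpr1605_c))) (BT.Fa_mk (BT.Fa_leaf (P := Itm.ok 206) (iqb tpr239_c)) (BT.Fa_leaf (P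 := Itm.ok 206) (iqf tpr123_c)))) (BT.Fa_mk (BT.Fa_mk (BT.Fa_leaf (P := Itm.ok 206) (iqf tpr1126_c)) (BT.Fa_leaf (P := Itm.ok 206) (iqf tpr557_c))) (BT.Fa_leaf (P := Itm.ok 206) (iqf tpr15_c))))))) (BT.Fa_mk (BT.Fa_mk (BT.Fa_mk (BT.Fa_mk (BT.Fa_mk (BT.Fa_mk (BT.Fa_leaf (P := Itm.ok 206) (iqf tpr2076_c)) (BT.Fa_leaf (P := Itm.ok 206) (iqf tpr705_c))) (BT.Fa_mk (BT.Fa_leaf (P := Itm.ok 206) (iqb tpr631_c)) (BT.Fa_leaf (P := Itm.ok 206) (iqb tpr161_c)))) (BT.Fa_mk (BT.Fa_mk (BT.Fa_leaf (P := Itm.ok 206) (iqf tpr2075_c)) (BT.Fa_leaf (P := Itm.ok 206) (iqb tpr525_c))) (BT.Fa_mk (BT.Fa_leaf (P := Itm.ok 206) (iqf tpr133_c)) (BT.Fa_leaf (P := Itm.ok 206) (iqb tpr2078_c))))) (BT.Fa_mk (BT.Fa_mk (BT.Fa_mk (BT.Fa_leaf (P := Itm.ok 206) (iqb tpr215_c))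 (BT.Fa_leaf (P := Itm.ok 206) (iqf tpr1559_c))) (BT.Fa_mk (BT.Fa_leaf (P := Itm.ok 206) (iqf tpr167_c)) (BT.Fa_leaf (P := Itm.ok 206) (iqb tpr499_c)))) (BT.Fa_mk (BT.Fa_mk (BT.Fa_leaf (P := Itm.ok 206) (iqb tpr10_c)) (BT.Fa_leaf (P := Itm.ok 206) (iqb tpr216_c))) (BT.Fa_leaf (P := Itm.ok 206) (iqb tpr95_c))))) (BT.Fa_mk (BT.Fa_mk (BT.Fa_mk (BT.Fa_mk (BT.Fa_leaf (P := Itm.ok 206) (iqb tpr107_c)) (BT.Fa_leaf (P := Itm.ok 206) (iqf tpr9_c))) (BT.Fa_mk (BT.Fa_leaf (P := Itm.ok 206) (iqf tpr516_c)) (BT.Fa_leaf (P := Itm.ok 206) (iqf tpr18_c)))) (BT.Fa_mk (BT.Fa_mk (BT.Fa_leaf (P := Itm.ok 206) (iqb tpr25_c)) (BT.Fa_leaf (P := Itm.ok 206) (iqb tpr45_c))) (BT.Fa_mk (BT.Fa_leaf (P := Itm.ok 206) (iqf tpr2081_c)) (BT.Fa_leaf (P := Itm.ok 206) (iqb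 tpr12_c))))) (BT.Fa_mk (BT.Fa_mk (BT.Fa_mk (BT.Fa_leaf (P := Itm.ok 206) (iqf tpr725_c)) (BT.Fa_leaf (P := Itm.ok 206) (iqf tpr1583_c))) (BT.Fa_mk (BT.Fa_leaf (P := Itm.ok 206) (iqb tpr92_c)) (BT.Fa_leaf (P := Itm.ok 206) (iqf tpr97_c)))) (BT.Fa_mk (BT.Fa_mk (BT.Fa_leaf (P := Itm.ok 206) (iqf tpr6_c)) (BT.Fa_leaf (P := Itm.ok 206) (iqf tpr24_c))) (BT.Fa_leaf (P := Itm.ok 206) (iqb tpr23_c)))))) (BT.Fa_mk (BT.Fa_mk (BT.Fa_mk (BT.Fa_mk (BT.Fa_mk (BT.Fa_leaf (P := Itm.ok 206) (iqf tpr636_c)) (BT.Fa_leaf (P := Itm.ok 206) (iqf tpr979_c))) (BT.Fa_mk (BT.Fa_leaf (P := Itm.ok 206) (iqf tpr588_c)) (BT.Fa_leaf (P := Itm.ok 206) (iqb tpr559_c)))) (BT.Fa_mk (BT.Fa_mk (BT.Fa_leaf (P := Itm.ok 206) (iqb tpr16_c)) (BT.Fa_leaf (P := Itm.ok 206) (iqf tpr1908_c)))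 (BT.Fa_mk (BT.Fa_leaf (P := Itm.ok 206) (iqf tpr501_c)) (BT.Fa_leaf (P := Itm.ok 206) (iqf tpr1247_c))))) (BT.Fa_mk (BT.Fa_mk (BT.Fa_mk (BT.Fa_leaf (P := Itm.ok 206) (iqf tpr1553_c)) (BT.Fa_leaf (P := Itm.ok 206) (iqf tpr17_c))) (BT.Fa_mk (BT.Fa_leaf (P := Itm.ok 206) (iqb tpr339_c)) (BT.Fa_leaf (P := Itm.ok 206) (iqf tpr714_c)))) (BT.Fa_mk (BT.Fa_mk (BT.Fa_leaf (P := Itm.ok 206) (iqf tpr1251_c)) (BT.Fa_leaf (P := Itm.ok 206) (iqb tpr621_c))) (BT.Fa_leaf (P := Itm.ok 206) (iqb tpr720_c))))) (BT.Fa_mk (BT.Fa_mk (BT.Fa_mk (BT.Fa_mk (BT.Fa_leaf (P := Itm.ok 206) (iqb tpr393_c)) (BT.Fa_leaf (P := Itm.ok 206) (iqf tpr1862_c))) (BT.Fa_mk (BT.Fa_leaf (P := Itm.ok 206) (iqf tpr54_c)) (BT.Fa_leaf (P := Itm.ok 206) (iqf tpr730_c)))) (BT.Fa_mk (BT.Fa_mk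 (BT.Fa_leaf (P := Itm.ok 206) (iqf tpr295_c)) (BT.Fa_leaf (P := Itm.ok 206) (iqf tpr502_c))) (BT.Fa_mk (BT.Fa_leaf (P := Itm.ok 206) (iqf tpr81_c)) (BT.Fa_leaf (P := Itm.ok 206) (iqb tpr502_c))))) (BT.Fa_mk (BT.Fa_mk (BT.Fa_mk (BT.Fa_leaf (P := Itm.ok 206) (iqb tpr320_c)) (BT.Fa_leaf (P := Itm.ok 206) (iqb tpr2083_c))) (BT.Fa_mk (BT.Fa_leaf (P := Itm.ok 206) (iqf tpr789_c)) (BT.Fa_leaf (P := Itm.ok 206) (iqf tpr87_c)))) (BT.Fa_mk (BT.Fa_mk (BT.Fa_leaf (P := Itm.ok 206) (iqb tpr24_c)) (BT.Fa_leaf (P := Itm.ok 206) (iqb tpr733_c))) (BT.Fa_leaf (P := Itm.ok 206) (iqb tpr293_c)))))))))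

/-- all words of the class have labels -/
theorem pokNF2BzE2A3H3AyB2EzF : POK 206 xNF2BzE2A3H3AyB2EzF :=
  y_pok (C0 := ceNF2BzE2A3H3AyB2EzF) (C1 := coNF2BzE2A3H3AyB2EzF) topNF2BzE2A3H3AyB2EzF nbNF2BzE2A3H3AyB2EzF (BT.Fa_of_all iiNF2BzE2A3H3AyB2EzF_c)
    (BT.Fa_mk (cyE_spec zeNF2BzE2A3H3AyB2EzF_0) (BT.Fa_mk (BT.Fa_mk (cyE_spec zeNF2BzE2A3H3AyB2EzF_1) (cyE_spec zeNF2BzE2A3H3AyB2EzF_2)) (cyE_spec zeNF2BzE2A3H3AyB2EzF_3)))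
    (BT.Fa_mk (BT.Fa_mk (cyO_spec zoNF2BzE2A3H3AyB2EzF_0) (cyO_spec zoNF2BzE2A3H3AyB2EzF_1)) (BT.Fa_mk (BT.Fa_mk (cyO_spec zoNF2BzE2A3H3AyB2EzF_2) (cyO_spec zoNF2BzE2A3H3AyB2EzF_3)) (cyO_spec zoNF2BzE2A3H3AyB2EzF_4)))
    iiNF2BzE2A3H3AyB2EzF_k

theorem iiNFyAzAzE2B3H3BzIzB2H3B2EzF_k : iiNFyAzAzE2B3H3BzIzB2H3B2EzF.Fa (Itm.ok 206) := (BT.Fa_mk (BT.Fa_mk (BT.Fa_mk (BT.Fa_mk (BT.Fa_mk (BT.Fa_mk (BT.Fa_mk (BT.Fa_mk (BT.Fa_leaf (P := Itm.ok 206) (iqb tpr4_c)) (BT.Fa_leaf (P := Itm.ok 206) (iqf tpr314_c))) (BT.Fa_leaf (P := Itm.ok 206) (iqf tpr5_c))) (BT.Fa_mk (BT.Fa_mk (BT.Fa_leaf (P := Itm.ok 206) (iqf tpr11_c)) (BT.Fa_leaf (P := Itm.ok 206) (iqb tpr8_c))) (BT.Fa_leaf (P := Itm.ok 206) (iqb tpr5_c)))) (BT.Fa_mk (BT.Fa_mk (BT.Fa_mk (BT.Fa_leaf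 (P := Itm.ok 206) (iqf tpr29_c)) (BT.Fa_leaf (P := Itm.ok 206) (iqb tpr13_c))) (BT.Fa_leaf (P := Itm.ok 206) (iqf tpr16_c))) (BT.Fa_mk (BT.Fa_leaf (P := Itm.ok 206) (iqb tpr69_c)) (BT.Fa_leaf (P := Itm.ok 206) (iqb tpr151_c))))) (BT.Fa_mk (BT.Fa_mk (BT.Fa_mk (BT.Fa_mk (BT.Fa_leaf (P := Itm.ok 206) (iqf tpr315_c)) (BT.Fa_leaf (P := Itm.ok 206) (iqb tpr316_c))) (BT.Fa_leaf (P := Itm.ok 206) (iqf tpr116_c))) (BT.Fa_mk (BT.Fa_leaf (P := Itm.ok 206) (iqf tpr241_c)) (BT.Fa_leaf (P := Itm.ok 206) (iqb tpr78_c)))) (BT.Fa_mk (BT.Fa_mk (BT.Fa_mk (BT.Fa_leaf (P := Itm.ok 206) (iqb tpr98_c)) (BT.Fa_leaf (P := Itm.ok 206) (iqf tpr220_c))) (BT.Fa_leaf (P := Itm.ok 206) (iqb tpr317_c))) (BT.Fa_mk (BT.Fa_leaf (P := Itm.ok 206) (iqf tpr317_c)) (BT.Fa_leaf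 (P := Itm.ok 206) (iqb tpr42_c)))))) (BT.Fa_mk (BT.Fa_mk (BT.Fa_mk (BT.Fa_mk (BT.Fa_mk (BT.Fa_leaf (P := Itm.ok 206) (iqf tpr14_c)) (BT.Fa_leaf (P := Itm.ok 206) (iqb tpr165_c))) (BT.Fa_leaf (P := Itm.ok 206) (iqf tpr318_c))) (BT.Fa_mk (BT.Fa_leaf (P := Itm.ok 206) (iqf tpr319_c)) (BT.Fa_leaf (P := Itm.ok 206) (iqf tpr320_c)))) (BT.Fa_mk (BT.Fa_mk (BT.Fa_mk (BT.Fa_leaf (P := Itm.ok 206) (iqb tpr51_c)) (BT.Fa_leaf (P := Itm.ok 206) (iqf tpr198_c))) (BT.Fa_leaf (P := Itm.ok 206) (iqb tpr102_c))) (BT.Fa_mk (BT.Fa_leaf (P := Itm.ok 206) (iqf tpr4_c)) (BT.Fa_leaf (P := Itm.ok 206) (iqb tpr30_c))))) (BT.Fa_mk (BT.Fa_mk (BT.Fa_mk (BT.Fa_mk (BT.Fa_leaf (P := Itm.ok 206) (iqf tpr57_c)) (BT.Fa_leaf (P := Itm.ok 206) (iqf tpr90_c))) (BT.Fa_leaf (P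 := Itm.ok 206) (iqb tpr321_c))) (BT.Fa_mk (BT.Fa_leaf (P := Itm.ok 206) (iqf tpr82_c)) (BT.Fa_leaf (P := Itm.ok 206) (iqf tpr27_c)))) (BT.Fa_mk (BT.Fa_mk (BT.Fa_mk (BT.Fa_leaf (P := Itm.ok 206) (iqb tpr322_c)) (BT.Fa_leaf (P := Itm.ok 206) (iqb tpr11_c))) (BT.Fa_leaf (P := Itm.ok 206) (iqf tpr24_c))) (BT.Fa_mk (BT.Fa_leaf (P := Itm.ok 206) (iqb tpr81_c)) (BT.Fa_leaf (P := Itm.ok 206) (iqf tpr36_c))))))) (BT.Fa_mk (BT.Fa_mk (BT.Fa_mk (BT.Fa_mk (BT.Fa_mk (BT.Fa_mk (BT.Fa_leaf (P := Itm.ok 206) (iqf tpr323_c)) (BT.Fa_leaf (P := Itm.ok 206) (iqb tpr211_c))) (BT.Fa_leaf (P := Itm.ok 206) (iqf tpr324_c))) (BT.Fa_mk (BT.Fa_mk (BT.Fa_leaf (P := Itm.ok 206) (iqb tpr257_c)) (BT.Fa_leaf (P := Itm.ok 206) (iqf tpr75_c))) (BT.Fa_leaf (P := Itm.ok 206)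 (iqb tpr325_c)))) (BT.Fa_mk (BT.Fa_mk (BT.Fa_mk (BT.Fa_leaf (P := Itm.ok 206) (iqf tpr73_c)) (BT.Fa_leaf (P := Itm.ok 206) (iqb tpr326_c))) (BT.Fa_leaf (P := Itm.ok 206) (iqf tpr327_c))) (BT.Fa_mk (BT.Fa_leaf (P := Itm.ok 206) (iqf tpr129_c)) (BT.Fa_leaf (P := Itm.ok 206) (iqb tpr328_c))))) (BT.Fa_mk (BT.Fa_mk (BT.Fa_mk (BT.Fa_mk (BT.Fa_leaf (P := Itm.ok 206) (iqb tpr329_c)) (BT.Fa_leaf (P := Itm.ok 206) (iqf tpr48_c))) (BT.Fa_leaf (P := Itm.ok 206) (iqf tpr134_c))) (BT.Fa_mk (BT.Fa_leaf (P := Itm.ok 206) (iqf tpr80_c)) (BT.Fa_leaf (P := Itm.ok 206) (iqb tpr330_c)))) (BT.Fa_mk (BT.Fa_mk (BT.Fa_mk (BT.Fa_leaf (P := Itm.ok 206) (iqf tpr26_c)) (BT.Fa_leaf (P := Itm.ok 206) (iqf tpr331_c))) (BT.Fa_leaf (P := Itm.ok 206) (iqb tpr332_c))) (BT.Fa_mk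 (BT.Fa_leaf (P := Itm.ok 206) (iqf tpr74_c)) (BT.Fa_leaf (P := Itm.ok 206) (iqb tpr125_c)))))) (BT.Fa_mk (BT.Fa_mk (BT.Fa_mk (BT.Fa_mk (BT.Fa_mk (BT.Fa_leaf (P := Itm.ok 206) (iqb tpr123_c)) (BT.Fa_leaf (P := Itm.ok 206) (iqb tpr333_c))) (BT.Fa_leaf (P := Itm.ok 206) (iqf tpr334_c))) (BT.Fa_mk (BT.Fa_leaf (P := Itm.ok 206) (iqb tpr335_c)) (BT.Fa_leaf (P := Itm.ok 206) (iqb tpr336_c)))) (BT.Fa_mk (BT.Fa_mk (BT.Fa_mk (BT.Fa_leaf (P := Itm.ok 206) (iqb tpr83_c)) (BT.Fa_leaf (P := Itm.ok 206) (iqb tpr122_c))) (BT.Fa_leaf (P := Itm.ok 206) (iqb tpr121_c))) (BT.Fa_mk (BT.Fa_leaf (P := Itm.ok 206) (iqf tpr106_c)) (BT.Fa_leaf (P := Itm.ok 206) (iqb tpr337_c))))) (BT.Fa_mk (BT.Fa_mk (BT.Fa_mk (BT.Fa_mk (BT.Fa_leaf (P := Itm.ok 206) (iqf tpr338_c))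 (BT.Fa_leaf (P := Itm.ok 206) (iqf tpr339_c))) (BT.Fa_leaf (P := Itm.ok 206) (iqb tpr190_c))) (BT.Fa_mk (BT.Fa_leaf (P := Itm.ok 206) (iqb tpr340_c)) (BT.Fa_leaf (P := Itm.ok 206) (iqf tpr341_c)))) (BT.Fa_mk (BT.Fa_mk (BT.Fa_mk (BT.Fa_leaf (P := Itm.ok 206) (iqb tpr156_c)) (BT.Fa_leaf (P := Itm.ok 206) (iqb tpr87_c))) (BT.Fa_leaf (P := Itm.ok 206) (iqf tpr342_c))) (BT.Fa_mk (BT.Fa_leaf (P := Itm.ok 206) (iqb tpr343_c)) (BT.Fa_leaf (P := Itm.ok 206) (iqf tpr344_c)))))))) (BT.Fa_mk (BT.Fa_mk (BT.Fa_mk (BT.Fa_mk (BT.Fa_mk (BT.Fa_mk (BT.Fa_mk (BT.Fa_leaf (P := Itm.ok 206) (iqb tpr345_c)) (BT.Fa_leaf (P := Itm.ok 206) (iqb tpr346_c))) (BT.Fa_leaf (P := Itm.ok 206) (iqf tpr160_c))) (BT.Fa_mk (BT.Fa_mk (BT.Fa_leaf (P := Itm.ok 206) (iqf tpr347_c))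 (BT.Fa_leaf (P := Itm.ok 206) (iqf tpr256_c))) (BT.Fa_leaf (P := Itm.ok 206) (iqf tpr348_c)))) (BT.Fa_mk (BT.Fa_mk (BT.Fa_mk (BT.Fa_leaf (P := Itm.ok 206) (iqf tpr349_c)) (BT.Fa_leaf (P := Itm.ok 206) (iqf tpr128_c))) (BT.Fa_leaf (P := Itm.ok 206) (iqf tpr127_c))) (BT.Fa_mk (BT.Fa_leaf (P := Itm.ok 206) (iqf tpr350_c)) (BT.Fa_leaf (P := Itm.ok 206) (iqf tpr351_c))))) (BT.Fa_mk (BT.Fa_mk (BT.Fa_mk (BT.Fa_mk (BT.Fa_leaf (P := Itm.ok 206) (iqb tpr163_c)) (BT.Fa_leaf (P := Itm.ok 206) (iqf tpr353_c))) (BT.Fa_leaf (P := Itm.ok 206) (iqf tpr354_c))) (BT.Fa_mk (BT.Fa_leaf (P := Itm.ok 206) (iqf tpr355_c)) (BT.Fa_leaf (P := Itm.ok 206) (iqb tpr356_c)))) (BT.Fa_mk (BT.Fa_mk (BT.Fa_mk (BT.Fa_leaf (P := Itm.ok 206) (iqf tpr164_c)) (BT.Fa_leaf (P :=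 Itm.ok 206) (iqb tpr32_c))) (BT.Fa_leaf (P := Itm.ok 206) (iqb tpr278_c))) (BT.Fa_mk (BT.Fa_leaf (P := Itm.ok 206) (iqf tpr56_c)) (BT.Fa_leaf (P := Itm.ok 206) (iqb tpr359_c)))))) (BT.Fa_mk (BT.Fa_mk (BT.Fa_mk (BT.Fa_mk (BT.Fa_mk (BT.Fa_leaf (P := Itm.ok 206) (iqf tpr360_c)) (BT.Fa_leaf (P := Itm.ok 206) (iqb tpr167_c))) (BT.Fa_leaf (P := Itm.ok 206) (iqb tpr124_c))) (BT.Fa_mk (BT.Fa_leaf (P := Itm.ok 206) (iqb tpr361_c)) (BT.Fa_leaf (P := Itm.ok 206) (iqf tpr66_c)))) (BT.Fa_mk (BT.Fa_mk (BT.Fa_mk (BT.Fa_leaf (P := Itm.ok 206) (iqf tpr362_c)) (BT.Fa_leaf (P := Itm.ok 206) (iqb tpr363_c))) (BT.Fa_leaf (P := Itm.ok 206) (iqb tpr364_c))) (BT.Fa_mk (BT.Fa_leaf (P := Itm.ok 206) (iqb tpr170_c)) (BT.Fa_leaf (P := Itm.ok 206) (iqf tpr365_c)))))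 (BT.Fa_mk (BT.Fa_mk (BT.Fa_mk (BT.Fa_mk (BT.Fa_leaf (P := Itm.ok 206) (iqb tpr366_c)) (BT.Fa_leaf (P := Itm.ok 206) (iqb tpr367_c))) (BT.Fa_leaf (P := Itm.ok 206) (iqb tpr368_c))) (BT.Fa_mk (BT.Fa_leaf (P := Itm.ok 206) (iqf tpr369_c)) (BT.Fa_leaf (P := Itm.ok 206) (iqf tpr370_c)))) (BT.Fa_mk (BT.Fa_mk (BT.Fa_mk (BT.Fa_leaf (P := Itm.ok 206) (iqb tpr371_c)) (BT.Fa_leaf (P := Itm.ok 206) (iqf tpr372_c))) (BT.Fa_leaf (P := Itm.ok 206) (iqb tpr374_c))) (BT.Fa_mk (BT.Fa_leaf (P := Itm.ok 206) (iqf tpr375_c)) (BT.Fa_leaf (P := Itm.ok 206) (iqb tpr376_c))))))) (BT.Fa_mk (BT.Fa_mk (BT.Fa_mk (BT.Fa_mk (BT.Fa_mk (BT.Fa_mk (BT.Fa_leaf (P := Itm.ok 206) (iqf tpr267_c)) (BT.Fa_leaf (P := Itm.ok 206) (iqb tpr377_c))) (BT.Fa_leaf (P := Itm.ok 206) (iqb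 tpr378_c))) (BT.Fa_mk (BT.Fa_leaf (P := Itm.ok 206) (iqb tpr379_c)) (BT.Fa_leaf (P := Itm.ok 206) (iqf tpr44_c)))) (BT.Fa_mk (BT.Fa_mk (BT.Fa_mk (BT.Fa_leaf (P := Itm.ok 206) (iqb tpr228_c)) (BT.Fa_leaf (P := Itm.ok 206) (iqf tpr381_c))) (BT.Fa_leaf (P := Itm.ok 206) (iqb tpr382_c))) (BT.Fa_mk (BT.Fa_leaf (P := Itm.ok 206) (iqf tpr383_c)) (BT.Fa_leaf (P := Itm.ok 206) (iqb tpr384_c))))) (BT.Fa_mk (BT.Fa_mk (BT.Fa_mk (BT.Fa_mk (BT.Fa_leaf (P := Itm.ok 206) (iqf tpr385_c)) (BT.Fa_leaf (P := Itm.ok 206) (iqf tpr173_c))) (BT.Fa_leaf (P := Itm.ok 206) (iqf tpr386_c))) (BT.Fa_mk (BT.Fa_leaf (P := Itm.ok 206) (iqb tpr387_c)) (BT.Fa_leaf (P := Itm.ok 206) (iqb tpr388_c)))) (BT.Fa_mk (BT.Fa_mk (BT.Fa_mk (BT.Fa_leaf (P := Itm.ok 206) (iqb tpr389_c))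 (BT.Fa_leaf (P := Itm.ok 206) (iqb tpr390_c))) (BT.Fa_leaf (P := Itm.ok 206) (iqb tpr391_c))) (BT.Fa_mk (BT.Fa_leaf (P := Itm.ok 206) (iqf tpr392_c)) (BT.Fa_leaf (P := Itm.ok 206) (iqf tpr393_c)))))) (BT.Fa_mk (BT.Fa_mk (BT.Fa_mk (BT.Fa_mk (BT.Fa_mk (BT.Fa_leaf (P := Itm.ok 206) (iqf tpr394_c)) (BT.Fa_leaf (P := Itm.ok 206) (iqf tpr396_c))) (BT.Fa_leaf (P := Itm.ok 206) (iqb tpr397_c))) (BT.Fa_mk (BT.Fa_leaf (P := Itm.ok 206) (iqf tpr398_c)) (BT.Fa_leaf (P := Itm.ok 206) (iqf tpr399_c)))) (BT.Fa_mk (BT.Fa_mk (BT.Fa_mk (BT.Fa_leaf (P := Itm.ok 206) (iqb tpr400_c)) (BT.Fa_leaf (P := Itm.ok 206) (iqb tpr401_c))) (BT.Fa_leaf (P := Itm.ok 206) (iqf tpr402_c))) (BT.Fa_mk (BT.Fa_leaf (P := Itm.ok 206) (iqf tpr403_c)) (BT.Fa_leaf (P := Itm.ok 206)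 (iqb tpr404_c))))) (BT.Fa_mk (BT.Fa_mk (BT.Fa_mk (BT.Fa_mk (BT.Fa_leaf (P := Itm.ok 206) (iqf tpr405_c)) (BT.Fa_leaf (P := Itm.ok 206) (iqb tpr406_c))) (BT.Fa_leaf (P := Itm.ok 206) (iqf tpr407_c))) (BT.Fa_mk (BT.Fa_leaf (P := Itm.ok 206) (iqf tpr408_c)) (BT.Fa_leaf (P := Itm.ok 206) (iqf tpr409_c)))) (BT.Fa_mk (BT.Fa_mk (BT.Fa_mk (BT.Fa_leaf (P := Itm.ok 206) (iqf tpr410_c)) (BT.Fa_leaf (P := Itm.ok 206) (iqf tpr411_c))) (BT.Fa_leaf (P := Itm.ok 206) (iqb tpr412_c))) (BT.Fa_mk (BT.Fa_leaf (P := Itm.ok 206) (iqb tpr413_c)) (BT.Fa_leaf (P := Itm.ok 206) (iqb tpr414_c)))))))))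

/-- all words of the class have labels -/
theorem pokNFyAzAzE2B3H3BzIzB2H3B2EzF : POK 206 xNFyAzAzE2B3H3BzIzB2H3B2EzF :=
  y_pok (C0 := ceNFyAzAzE2B3H3BzIzB2H3B2EzF) (C1 := coNFyAzAzE2B3H3BzIzB2H3B2EzF) topNFyAzAzE2B3H3BzIzB2H3B2EzF nbNFyAzAzE2B3H3BzIzB2H3B2EzF (BT.Fa_of_all iiNFyAzAzE2B3H3BzIzB2H3B2EzF_c)
    (cyE_spec zeNFyAzAzE2B3H3BzIzB2H3B2EzF_0)
    (cyO_spec zoNFyAzAzE2B3H3BzIzB2H3B2EzF_0)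
    iiNFyAzAzE2B3H3BzIzB2H3B2EzF_k

theorem iiNFzA2A3H2ByAzIzAyB2H3A2EzF_k : iiNFzA2A3H2ByAzIzAyB2H3A2EzF.Fa (Itm.ok 206) := (BT.Fa_mk (BT.Fa_mk (BT.Fa_mk (BT.Fa_mk (BT.Fa_mk (BT.Fa_mk (BT.Fa_mk (BT.Fa_leaf (P := Itm.ok 206) (iqf tpr5_c)) (BT.Fa_leaf (P := Itm.ok 206) (iqf tpr500_c))) (BT.Fa_leaf (P := Itm.ok 206) (iqf tpr499_c))) (BT.Fa_mk (BT.Fa_leaf (P := Itm.ok 206) (iqf tpr103_c)) (BT.Fa_leaf (P := Itm.ok 206) (iqb tpr167_c)))) (BT.Fa_mk (BT.Fa_mk (BT.Fa_leaf (P := Itm.ok 206) (iqb tpr8_c)) (BT.Fa_leaf (P := Itm.ok 206) (iqb tpr507_c))) (BT.Fa_mk (BT.Fa_leaf (P := Itm.ok 206) (iqb tpr504_c)) (BT.Fa_leaf (P := Itm.ok 206) (iqf tpr16_c))))) (BT.Fa_mk (BT.Fa_mk (BT.Fa_mk (BT.Fa_mk (BT.Fa_leaf (P := Itm.ok 206) (iqb tpr78_c)) (BT.Fa_leaf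 (P := Itm.ok 206) (iqb tpr585_c))) (BT.Fa_leaf (P := Itm.ok 206) (iqf tpr695_c))) (BT.Fa_mk (BT.Fa_leaf (P := Itm.ok 206) (iqf tpr968_c)) (BT.Fa_leaf (P := Itm.ok 206) (iqb tpr630_c)))) (BT.Fa_mk (BT.Fa_mk (BT.Fa_leaf (P := Itm.ok 206) (iqf tpr198_c)) (BT.Fa_leaf (P := Itm.ok 206) (iqf tpr982_c))) (BT.Fa_mk (BT.Fa_leaf (P := Itm.ok 206) (iqb tpr566_c)) (BT.Fa_leaf (P := Itm.ok 206) (iqf tpr621_c)))))) (BT.Fa_mk (BT.Fa_mk (BT.Fa_mk (BT.Fa_mk (BT.Fa_mk (BT.Fa_leaf (P := Itm.ok 206) (iqf tpr339_c)) (BT.Fa_leaf (P := Itm.ok 206) (iqb tpr123_c))) (BT.Fa_leaf (P := Itm.ok 206) (iqf tpr74_c))) (BT.Fa_mk (BT.Fa_leaf (P := Itm.ok 206) (iqb tpr122_c)) (BT.Fa_leaf (P := Itm.ok 206) (iqf tpr75_c)))) (BT.Fa_mk (BT.Fa_mk (BT.Fa_leaf (P := Itm.ok 206)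 (iqf tpr26_c)) (BT.Fa_leaf (P := Itm.ok 206) (iqf tpr344_c))) (BT.Fa_mk (BT.Fa_leaf (P := Itm.ok 206) (iqf tpr9_c)) (BT.Fa_leaf (P := Itm.ok 206) (iqf tpr559_c))))) (BT.Fa_mk (BT.Fa_mk (BT.Fa_mk (BT.Fa_leaf (P := Itm.ok 206) (iqb tpr959_c)) (BT.Fa_leaf (P := Itm.ok 206) (iqf tpr587_c))) (BT.Fa_mk (BT.Fa_leaf (P := Itm.ok 206) (iqf tpr4_c)) (BT.Fa_leaf (P := Itm.ok 206) (iqf tpr23_c)))) (BT.Fa_mk (BT.Fa_mk (BT.Fa_leaf (P := Itm.ok 206) (iqf tpr466_c)) (BT.Fa_leaf (P := Itm.ok 206) (iqf tpr24_c))) (BT.Fa_mk (BT.Fa_leaf (P := Itm.ok 206) (iqf tpr106_c)) (BT.Fa_leaf (P := Itm.ok 206) (iqb tpr216_c))))))) (BT.Fa_mk (BT.Fa_mk (BT.Fa_mk (BT.Fa_mk (BT.Fa_mk (BT.Fa_mk (BT.Fa_leaf (P := Itm.ok 206) (iqf tpr33_c)) (BT.Fa_leaf (P := Itm.ok 206) (iqb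 tpr1193_c))) (BT.Fa_leaf (P := Itm.ok 206) (iqb tpr107_c))) (BT.Fa_mk (BT.Fa_leaf (P := Itm.ok 206) (iqb tpr124_c)) (BT.Fa_leaf (P := Itm.ok 206) (iqb tpr25_c)))) (BT.Fa_mk (BT.Fa_mk (BT.Fa_leaf (P := Itm.ok 206) (iqf tpr129_c)) (BT.Fa_leaf (P := Itm.ok 206) (iqf tpr63_c))) (BT.Fa_mk (BT.Fa_leaf (P := Itm.ok 206) (iqb tpr1655_c)) (BT.Fa_leaf (P := Itm.ok 206) (iqb tpr200_c))))) (BT.Fa_mk (BT.Fa_mk (BT.Fa_mk (BT.Fa_mk (BT.Fa_leaf (P := Itm.ok 206) (iqf tpr481_c)) (BT.Fa_leaf (P := Itm.ok 206) (iqb tpr500_c))) (BT.Fa_leaf (P := Itm.ok 206) (iqb tpr525_c))) (BT.Fa_mk (BT.Fa_leaf (P := Itm.ok 206) (iqf tpr648_c)) (BT.Fa_leaf (P := Itm.ok 206) (iqf tpr315_c)))) (BT.Fa_mk (BT.Fa_mk (BT.Fa_leaf (P := Itm.ok 206) (iqb tpr11_c)) (BT.Fa_leaf (P :=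 Itm.ok 206) (iqb tpr316_c))) (BT.Fa_mk (BT.Fa_leaf (P := Itm.ok 206) (iqb tpr767_c)) (BT.Fa_leaf (P := Itm.ok 206) (iqf tpr1684_c)))))) (BT.Fa_mk (BT.Fa_mk (BT.Fa_mk (BT.Fa_mk (BT.Fa_mk (BT.Fa_leaf (P := Itm.ok 206) (iqb tpr565_c)) (BT.Fa_leaf (P := Itm.ok 206) (iqf tpr349_c))) (BT.Fa_leaf (P := Itm.ok 206) (iqf tpr327_c))) (BT.Fa_mk (BT.Fa_leaf (P := Itm.ok 206) (iqf tpr8_c)) (BT.Fa_leaf (P := Itm.ok 206) (iqb tpr508_c)))) (BT.Fa_mk (BT.Fa_mk (BT.Fa_leaf (P := Itm.ok 206) (iqb tpr82_c)) (BT.Fa_leaf (P := Itm.ok 206) (iqf tpr635_c))) (BT.Fa_mk (BT.Fa_leaf (P := Itm.ok 206) (iqb tpr607_c)) (BT.Fa_leaf (P := Itm.ok 206) (iqf tpr642_c))))) (BT.Fa_mk (BT.Fa_mk (BT.Fa_mk (BT.Fa_leaf (P := Itm.ok 206) (iqb tpr683_c)) (BT.Fa_leaf (P := Itm.ok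 206) (iqb tpr701_c))) (BT.Fa_mk (BT.Fa_leaf (P := Itm.ok 206) (iqf tpr625_c)) (BT.Fa_leaf (P := Itm.ok 206) (iqf tpr238_c)))) (BT.Fa_mk (BT.Fa_mk (BT.Fa_leaf (P := Itm.ok 206) (iqf tpr636_c)) (BT.Fa_leaf (P := Itm.ok 206) (iqb tpr511_c))) (BT.Fa_mk (BT.Fa_leaf (P := Itm.ok 206) (iqf tpr633_c)) (BT.Fa_leaf (P := Itm.ok 206) (iqf tpr632_c))))))))

/-- all words of the class have labels -/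
theorem pokNFzA2A3H2ByAzIzAyB2H3A2EzF : POK 206 xNFzA2A3H2ByAzIzAyB2H3A2EzF :=
  y_pok (C0 := ceNFzA2A3H2ByAzIzAyB2H3A2EzF) (C1 := coNFzA2A3H2ByAzIzAyB2H3A2EzF) topNFzA2A3H2ByAzIzAyB2H3A2EzF nbNFzA2A3H2ByAzIzAyB2H3A2EzF (BT.Fa_of_all iiNFzA2A3H2ByAzIzAyB2H3A2EzF_c)
    (cyE_spec zeNFzA2A3H2ByAzIzAyB2H3A2EzF_0)
    (cyO_spec zoNFzA2A3H2ByAzIzAyB2H3A2EzF_0)
    iiNFzA2A3H2ByAzIzAyB2H3A2EzF_k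


end MPb6R
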