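import Pool.Agent.Lib.MP_b6d339_lc.Cw3.YFzA2E2ByA3H2AzIzA2H3A2EzAyBzF
import Pool.Agent.Lib.MP_b6d339_lc.Cw3.XL
import Pool.Agent.Lib.MP_b6d339_lc.Cw3.T0
import Pool.Agent.Lib.MP_b6d339_lc.Cw3.T1
import Pool.Agent.Lib.MP_b6d339_lc.Cw3.T10
import Pool.Agent.Lib.MP_b6d339_lc.Cw3.T11
import Pool.Agent.Lib.MP_b6d339_lc.Cw3.T12
import Pool.Agent.Lib.MP_b6d339_lc.Cw3.T13
import Pool.Agent.Lib.MP_b6d339_lc.Cw3.T14
import Pool.Agent.Lib.MP_b6d339_lc.Cw3.T15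
import Pool.Agent.Lib.MP_b6d339_lc.Cw3.T16
import Pool.Agent.Lib.MP_b6d339_lc.Cw3.T17
import Pool.Agent.Lib.MP_b6d339_lc.Cw3.T19
import Pool.Agent.Lib.MP_b6d339_lc.Cw3.T2
import Pool.Agent.Lib.MP_b6d339_lc.Cw3.T21
import Pool.Agent.Lib.MP_b6d339_lc.Cw3.T22
import Pool.Agent.Lib.MP_b6d339_lc.Cw3.T25
import Pool.Agent.Lib.MP_b6d339_lc.Cw3.T26
import Pool.Agent.Lib.MP_b6d339_lc.Cw3.T3
import Pool.Agent.Lib.MP_b6d339_lc.Cw3.T30
import Pool.Agent.Lib.MP_b6d339_lc.Cw3.T31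
import Pool.Agent.Lib.MP_b6d339_lc.Cw3.T32
import Pool.Agent.Lib.MP_b6d339_lc.Cw3.T5
import Pool.Agent.Lib.MP_b6d339_lc.Cw3.T6
import Pool.Agent.Lib.MP_b6d339_lc.Cw3.T7
import Pool.Agent.Lib.MP_b6d339_lc.Cw3.T8
import Pool.Agent.Lib.MP_b6d339_lc.Cw3.T9

/-!
# Erdős 592, three levels: items
-/

namespace MPb6R

open MPb6P

noncomputable def iiNFzA2E2ByA3H2AzIzA2H3A2EzAyBzF : BT Itm := (.node (.node (.node (.node (.node (.node (.node (.node (.leaf (.fwd 0 23 tpr5.df)) (.leaf (.bwd 23 13 tpr500.df))) (.leaf (.fwd 36 13 tpr500.df))) (.node (.node (.leaf (.bwd 49 25 tpr10.df)) (.leaf (.bwd 74 50 tpr1233.df))) (.leaf (.fwd 124 25 tpr51.df)))) (.node (.node (.node (.leaf (.fwd 149 6 tpr4.df)) (.leaf (.bwd 155 37 tpr583.df))) (.leaf (.fwd 192 27 tpr499.df))) (.node (.node (.leaf (.bwd 219 27 tpr499.df)) (.leaf (.fwd 246 43 tpr2024.df))) (.leaf (.bwd 289 36 tpr547.df)))))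 (.node (.node (.node (.node (.leaf (.bwd 325 23 tpr508.df)) (.leaf (.bwd 348 20 tpr48.df))) (.leaf (.bwd 368 25 tpr677.df))) (.node (.node (.leaf (.bwd 393 32 tpr113.df)) (.leaf (.fwd 425 43 tpr1325.df))) (.leaf (.fwd 468 40 tpr32.df)))) (.node (.node (.node (.leaf (.fwd 508 38 tpr526.df)) (.leaf (.fwd 546 37 tpr1359.df))) (.leaf (.fwd 583 27 tpr1320.df))) (.node (.leaf (.fwd 610 29 tpr111.df)) (.leaf (.fwd 639 45 tpr596.df)))))) (.node (.node (.node (.node (.node (.leaf (.fwd 684 39 tpr2404.df)) (.leaf (.fwd 723 31 tpr1305.df))) (.leaf (.bwd 754 39 tpr2099.df))) (.node (.node (.leaf (.fwd 793 24 tpr931.df)) (.leaf (.bwd 817 41 tpr188.df))) (.leaf (.fwd 858 23 tpr456.df)))) (.node (.node (.node (.leaf (.fwd 881 35 tpr541.df)) (.leaf (.fwd 916 39 tpr642.df))) (.leaf (.bwd 955 29 tpr582.df))) (.node (.node (.leaf (.fwd 984 30 tpr1730.df)) (.leaf (.fwd 1014 24 tpr454.df)))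 (.leaf (.bwd 1038 34 tpr748.df))))) (.node (.node (.node (.node (.leaf (.fwd 1072 39 tpr479.df)) (.leaf (.fwd 1111 35 tpr1313.df))) (.leaf (.bwd 1146 31 tpr607.df))) (.node (.node (.leaf (.fwd 1177 16 tpr168.df)) (.leaf (.bwd 1193 52 tpr1328.df))) (.leaf (.fwd 1245 37 tpr465.df)))) (.node (.node (.node (.leaf (.fwd 1282 20 tpr186.df)) (.leaf (.bwd 1302 28 tpr507.df))) (.leaf (.bwd 1330 28 tpr477.df))) (.node (.leaf (.bwd 1358 38 tpr519.df)) (.leaf (.bwd 1396 37 tpr556.df))))))) (.node (.node (.node (.node (.node (.node (.leaf (.fwd 1433 31 tpr198.df)) (.leaf (.fwd 1464 28 tpr940.df))) (.leaf (.bwd 1492 27 tpr82.df))) (.node (.node (.leaf (.fwd 1519 35 tpr2567.df)) (.leaf (.bwd 1554 22 tpr2095.df))) (.leaf (.fwd 1576 20 tpr1355.df)))) (.node (.node (.node (.leaf (.fwd 1596 45 tpr139.df)) (.leaf (.fwd 1641 30 tpr143.df))) (.leaf (.fwd 1671 35 tpr485.df))) (.node (.node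 (.leaf (.bwd 1706 26 tpr509.df)) (.leaf (.fwd 1732 30 tpr1374.df))) (.leaf (.fwd 1762 25 tpr1084.df))))) (.node (.node (.node (.node (.leaf (.bwd 1787 37 tpr555.df)) (.leaf (.fwd 1824 38 tpr1264.df))) (.leaf (.fwd 1862 29 tpr692.df))) (.node (.node (.leaf (.fwd 1891 31 tpr1010.df)) (.leaf (.bwd 1922 34 tpr575.df))) (.leaf (.fwd 1956 22 tpr515.df)))) (.node (.node (.node (.leaf (.fwd 1978 37 tpr583.df)) (.leaf (.bwd 2015 28 tpr510.df))) (.leaf (.bwd 2043 37 tpr2533.df))) (.node (.leaf (.bwd 2080 34 tpr54.df)) (.leaf (.fwd 2114 44 tpr466.df)))))) (.node (.node (.node (.node (.node (.leaf (.bwd 2158 13 tpr11.df)) (.leaf (.bwd 2171 28 tpr941.df))) (.leaf (.fwd 2199 50 tpr2570.df))) (.node (.node (.leaf (.bwd 2249 28 tpr588.df)) (.leaf (.bwd 2277 40 tpr705.df))) (.leaf (.bwd 2317 30 tpr2488.df)))) (.node (.node (.node (.leaf (.fwd 2347 34 tpr543.df)) (.leaf (.bwd 2381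 40 tpr2568.df))) (.leaf (.bwd 2421 61 tpr1736.df))) (.node (.leaf (.bwd 2482 33 tpr1370.df)) (.leaf (.bwd 2515 25 tpr2573.df))))) (.node (.node (.node (.node (.leaf (.bwd 2540 44 tpr1747.df)) (.leaf (.bwd 2584 28 tpr2112.df))) (.leaf (.bwd 2612 38 tpr526.df))) (.node (.node (.leaf (.bwd 2650 61 tpr2519.df)) (.leaf (.fwd 2711 37 tpr2093.df))) (.leaf (.bwd 2748 58 tpr2575.df)))) (.node (.node (.node (.leaf (.bwd 2806 42 tpr812.df)) (.leaf (.fwd 2848 45 tpr2464.df))) (.leaf (.fwd 2893 29 tpr2092.df))) (.node (.leaf (.bwd 2922 39 tpr2569.df)) (.leaf (.fwd 2961 21 tpr8.df)))))))) (.node (.node (.node (.node (.node (.node (.node (.leaf (.fwd 2982 21 tpr50.df)) (.leaf (.bwd 3003 27 tpr506.df))) (.leaf (.fwd 3030 35 tpr259.df))) (.node (.node (.leaf (.fwd 3065 27 tpr562.df)) (.leaf (.fwd 3092 23 tpr12.df))) (.leaf (.bwd 3115 31 tpr517.df)))) (.node (.node (.node (.leaf (.fwd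 3146 29 tpr46.df)) (.leaf (.bwd 3175 23 tpr133.df))) (.leaf (.bwd 3198 31 tpr761.df))) (.node (.node (.leaf (.fwd 3229 24 tpr789.df)) (.leaf (.fwd 3253 59 tpr803.df))) (.leaf (.fwd 3312 21 tpr107.df))))) (.node (.node (.node (.node (.leaf (.fwd 3333 32 tpr115.df)) (.leaf (.fwd 3365 20 tpr216.df))) (.leaf (.bwd 3385 32 tpr39.df))) (.node (.node (.leaf (.fwd 3417 50 tpr1309.df)) (.leaf (.fwd 3467 34 tpr92.df))) (.leaf (.bwd 3501 20 tpr63.df)))) (.node (.node (.node (.leaf (.bwd 3521 15 tpr38.df)) (.leaf (.bwd 3536 31 tpr21.df))) (.leaf (.bwd 3567 26 tpr1371.df))) (.node (.leaf (.bwd 3593 35 tpr259.df)) (.leaf (.bwd 3628 33 tpr645.df)))))) (.node (.node (.node (.node (.node (.leaf (.bwd 3661 15 tpr816.df)) (.leaf (.fwd 3676 31 tpr2571.df))) (.leaf (.fwd 3707 23 tpr780.df))) (.node (.node (.leaf (.bwd 3730 18 tpr2518.df)) (.leaf (.bwd 3748 37 tpr782.df))) (.leaf (.bwd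 3785 17 tpr144.df)))) (.node (.node (.node (.leaf (.bwd 3802 23 tpr1562.df)) (.leaf (.fwd 3825 29 tpr656.df))) (.leaf (.bwd 3854 24 tpr789.df))) (.node (.node (.leaf (.bwd 3878 28 tpr2031.df)) (.leaf (.bwd 3906 22 tpr2096.df))) (.leaf (.fwd 3928 25 tpr10.df))))) (.node (.node (.node (.node (.leaf (.bwd 3953 31 tpr606.df)) (.leaf (.bwd 3984 28 tpr295.df))) (.leaf (.bwd 4012 54 tpr1193.df))) (.node (.node (.leaf (.bwd 4066 32 tpr518.df)) (.leaf (.bwd 4098 32 tpr247.df))) (.leaf (.bwd 4130 31 tpr975.df)))) (.node (.node (.node (.leaf (.fwd 4161 22 tpr239.df)) (.leaf (.bwd 4183 42 tpr612.df))) (.leaf (.bwd 4225 28 tpr627.df))) (.node (.leaf (.bwd 4253 41 tpr502.df)) (.leaf (.fwd 4294 37 tpr503.df))))))) (.node (.node (.node (.node (.node (.node (.leaf (.fwd 4331 31 tpr576.df)) (.leaf (.bwd 4362 38 tpr203.df))) (.leaf (.bwd 4400 29 tpr545.df))) (.node (.node (.leaf (.bwd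 4429 35 tpr541.df)) (.leaf (.bwd 4464 28 tpr223.df))) (.leaf (.fwd 4492 22 tpr590.df)))) (.node (.node (.node (.leaf (.fwd 4514 37 tpr520.df)) (.leaf (.fwd 4551 22 tpr953.df))) (.leaf (.bwd 4573 31 tpr528.df))) (.node (.node (.leaf (.fwd 4604 19 tpr616.df)) (.leaf (.bwd 4623 27 tpr682.df))) (.leaf (.fwd 4650 23 tpr559.df))))) (.node (.node (.node (.node (.leaf (.bwd 4673 22 tpr581.df)) (.leaf (.fwd 4695 25 tpr679.df))) (.leaf (.fwd 4720 26 tpr2027.df))) (.node (.node (.leaf (.bwd 4746 30 tpr577.df)) (.leaf (.bwd 4776 35 tpr1028.df))) (.leaf (.fwd 4811 33 tpr2026.df)))) (.node (.node (.node (.leaf (.fwd 4844 28 tpr507.df)) (.leaf (.fwd 4872 39 tpr514.df))) (.leaf (.bwd 4911 30 tpr626.df))) (.node (.leaf (.bwd 4941 37 tpr1789.df)) (.leaf (.fwd 4978 48 tpr2576.df)))))) (.node (.node (.node (.node (.node (.leaf (.bwd 5026 52 tpr1839.df)) (.leaf (.bwd 5078 44 tpr725.df)))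 (.leaf (.fwd 5122 28 tpr627.df))) (.node (.node (.leaf (.fwd 5150 33 tpr968.df)) (.leaf (.bwd 5183 22 tpr239.df))) (.leaf (.bwd 5205 30 tpr513.df)))) (.node (.node (.node (.leaf (.bwd 5235 22 tpr2572.df)) (.leaf (.bwd 5257 21 tpr72.df))) (.leaf (.bwd 5278 53 tpr815.df))) (.node (.leaf (.fwd 5331 25 tpr1311.df)) (.leaf (.bwd 5356 21 tpr90.df))))) (.node (.node (.node (.node (.leaf (.bwd 5377 23 tpr640.df)) (.leaf (.fwd 5400 27 tpr977.df))) (.leaf (.bwd 5427 33 tpr2025.df))) (.node (.node (.leaf (.bwd 5460 26 tpr2539.df)) (.leaf (.bwd 5486 31 tpr939.df))) (.leaf (.fwd 5517 32 tpr518.df)))) (.node (.node (.node (.leaf (.bwd 5549 35 tpr1029.df)) (.leaf (.fwd 5584 35 tpr568.df))) (.leaf (.fwd 5619 31 tpr1538.df))) (.node (.leaf (.fwd 5650 28 tpr295.df)) (.leaf (.fwd 5678 31 tpr517.df)))))))))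

theorem iiNFzA2E2ByA3H2AzIzA2H3A2EzAyBzF_c : iiNFzA2E2ByA3H2AzIzA2H3A2EzAyBzF.all (itB (ng 61 nnNFzA2E2ByA3H2AzIzA2H3A2EzAyBzF)) = true := by decide +kernel
theorem nbNFzA2E2ByA3H2AzIzA2H3A2EzAyBzF : nbB 61 5770 nnNFzA2E2ByA3H2AzIzA2H3A2EzAyBzF = true := by decide +kernel
theorem topNFzA2E2ByA3H2AzIzA2H3A2EzAyBzF : topY 5770 ttNFzA2E2ByA3H2AzIzA2H3A2EzAyBzF ceNFzA2E2ByA3H2AzIzA2H3A2EzAyBzF xNFzA2E2ByA3H2AzIzA2H3A2EzAyBzF iiNFzA2E2ByA3H2AzIzA2H3A2EzAyBzF = true := by decide +kernel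

end MPb6R
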