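import Pool.Agent.Lib.MP_b6d339_lc.Cw3.YFzA2E2ByA3H2AzIzAyB2H3A2E2AzAyBzF
import Pool.Agent.Lib.MP_b6d339_lc.Cw3.XL
import Pool.Agent.Lib.MP_b6d339_lc.Cw3.T0
import Pool.Agent.Lib.MP_b6d339_lc.Cw3.T1
import Pool.Agent.Lib.MP_b6d339_lc.Cw3.T10
import Pool.Agent.Lib.MP_b6d339_lc.Cw3.T11
import Pool.Agent.Lib.MP_b6d339_lc.Cw3.T12
import Pool.Agent.Lib.MP_b6d339_lc.Cw3.T13
import Pool.Agent.Lib.MP_b6d339_lc.Cw3.T14
import Pool.Agent.Lib.MP_b6d339_lc.Cw3.T15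
import Pool.Agent.Lib.MP_b6d339_lc.Cw3.T16
import Pool.Agent.Lib.MP_b6d339_lc.Cw3.T17
import Pool.Agent.Lib.MP_b6d339_lc.Cw3.T19
import Pool.Agent.Lib.MP_b6d339_lc.Cw3.T2
import Pool.Agent.Lib.MP_b6d339_lc.Cw3.T21
import Pool.Agent.Lib.MP_b6d339_lc.Cw3.T22
import Pool.Agent.Lib.MP_b6d339_lc.Cw3.T23
import Pool.Agent.Lib.MP_b6d339_lc.Cw3.T25
import Pool.Agent.Lib.MP_b6d339_lc.Cw3.T26
import Pool.Agent.Lib.MP_b6d339_lc.Cw3.T3
import Pool.Agent.Lib.MP_b6d339_lc.Cw3.T30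
import Pool.Agent.Lib.MP_b6d339_lc.Cw3.T31
import Pool.Agent.Lib.MP_b6d339_lc.Cw3.T32
import Pool.Agent.Lib.MP_b6d339_lc.Cw3.T35
import Pool.Agent.Lib.MP_b6d339_lc.Cw3.T36
import Pool.Agent.Lib.MP_b6d339_lc.Cw3.T5
import Pool.Agent.Lib.MP_b6d339_lc.Cw3.T6
import Pool.Agent.Lib.MP_b6d339_lc.Cw3.T7
import Pool.Agent.Lib.MP_b6d339_lc.Cw3.T8
import Pool.Agent.Lib.MP_b6d339_lc.Cw3.T9

/-!
# Erdős 592, three levels: items
-/

namespace MPb6R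

open MPb6P

noncomputable def iiNFzA2E2ByA3H2AzIzAyB2H3A2E2AzAyBzF : BT Itm := (.node (.node (.node (.node (.node (.node (.node (.node (.leaf (.fwd 0 23 tpr5.df)) (.leaf (.fwd 23 6 tpr4.df))) (.leaf (.fwd 29 24 tpr789.df))) (.node (.node (.leaf (.bwd 53 24 tpr789.df)) (.leaf (.fwd 77 16 tpr168.df))) (.leaf (.bwd 93 27 tpr240.df)))) (.node (.node (.node (.leaf (.bwd 120 21 tpr8.df)) (.leaf (.fwd 141 38 tpr526.df))) (.leaf (.bwd 179 13 tpr11.df))) (.node (.leaf (.fwd 192 13 tpr500.df)) (.leaf (.fwd 205 27 tpr1320.df))))) (.node (.node (.node (.node (.leaf (.fwd 232 44 tpr466.df)) (.leaf (.bwd 276 37 tpr583.df))) (.leaf (.fwd 313 39 tpr642.df))) (.node (.leaf (.fwd 352 23 tpr559.df)) (.leaf (.fwd 375 29 tpr464.df)))) (.node (.node (.node (.leaf (.bwd 404 53 tpr815.df)) (.leaf (.fwd 457 29 tpr2918.df))) (.leaf (.bwd 486 41 tpr188.df))) (.node (.leaf (.bwd 527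 34 tpr575.df)) (.leaf (.fwd 561 20 tpr186.df)))))) (.node (.node (.node (.node (.node (.leaf (.fwd 581 37 tpr1359.df)) (.leaf (.bwd 618 23 tpr640.df))) (.leaf (.bwd 641 50 tpr1233.df))) (.node (.node (.leaf (.bwd 691 22 tpr239.df)) (.leaf (.fwd 713 21 tpr110.df))) (.leaf (.fwd 734 35 tpr2567.df)))) (.node (.node (.node (.leaf (.bwd 769 37 tpr556.df)) (.leaf (.bwd 806 39 tpr2099.df))) (.leaf (.bwd 845 37 tpr2533.df))) (.node (.leaf (.bwd 882 28 tpr941.df)) (.leaf (.bwd 910 37 tpr555.df))))) (.node (.node (.node (.node (.leaf (.bwd 947 27 tpr682.df)) (.leaf (.bwd 974 30 tpr577.df))) (.leaf (.fwd 1004 38 tpr1264.df))) (.node (.leaf (.fwd 1042 32 tpr1111.df)) (.leaf (.bwd 1074 40 tpr2568.df)))) (.node (.node (.node (.leaf (.bwd 1114 54 tpr1193.df)) (.leaf (.fwd 1168 29 tpr692.df))) (.leaf (.fwd 1197 37 tpr2093.df))) (.node (.leaf (.bwd 1234 31 tpr975.df)) (.leaf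 (.fwd 1265 35 tpr541.df))))))) (.node (.node (.node (.node (.node (.node (.leaf (.fwd 1300 29 tpr2092.df)) (.leaf (.bwd 1329 17 tpr1738.df))) (.leaf (.bwd 1346 44 tpr1747.df))) (.node (.node (.leaf (.bwd 1390 44 tpr1845.df)) (.leaf (.fwd 1434 50 tpr2570.df))) (.leaf (.fwd 1484 48 tpr2576.df)))) (.node (.node (.node (.leaf (.bwd 1532 19 tpr824.df)) (.leaf (.bwd 1551 34 tpr1842.df))) (.leaf (.fwd 1585 45 tpr2464.df))) (.node (.leaf (.bwd 1630 29 tpr623.df)) (.leaf (.bwd 1659 57 tpr1841.df))))) (.node (.node (.node (.node (.leaf (.bwd 1716 25 tpr10.df)) (.leaf (.fwd 1741 23 tpr12.df))) (.leaf (.fwd 1764 25 tpr51.df))) (.node (.leaf (.bwd 1789 37 tpr782.df)) (.leaf (.bwd 1826 17 tpr144.df)))) (.node (.node (.node (.leaf (.bwd 1843 20 tpr48.df)) (.leaf (.bwd 1863 31 tpr761.df))) (.leaf (.fwd 1894 28 tpr940.df))) (.node (.leaf (.fwd 1922 30 tpr143.df)) (.leaf (.fwd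 1952 40 tpr32.df)))))) (.node (.node (.node (.node (.node (.leaf (.bwd 1992 40 tpr1232.df)) (.leaf (.fwd 2032 45 tpr139.df))) (.leaf (.fwd 2077 21 tpr50.df))) (.node (.node (.leaf (.bwd 2098 27 tpr499.df)) (.leaf (.bwd 2125 26 tpr2539.df))) (.leaf (.fwd 2151 24 tpr931.df)))) (.node (.node (.node (.leaf (.fwd 2175 52 tpr814.df)) (.leaf (.bwd 2227 52 tpr1328.df))) (.leaf (.fwd 2279 20 tpr216.df))) (.node (.leaf (.bwd 2299 32 tpr1017.df)) (.leaf (.fwd 2331 34 tpr92.df))))) (.node (.node (.node (.node (.leaf (.fwd 2365 20 tpr1355.df)) (.leaf (.fwd 2385 35 tpr89.df))) (.leaf (.bwd 2420 32 tpr39.df))) (.node (.leaf (.bwd 2452 36 tpr547.df)) (.leaf (.bwd 2488 29 tpr582.df)))) (.node (.node (.node (.leaf (.fwd 2517 39 tpr2404.df)) (.leaf (.fwd 2556 50 tpr1309.df))) (.leaf (.fwd 2606 43 tpr1325.df))) (.node (.leaf (.bwd 2649 22 tpr953.df)) (.leaf (.fwd 2671 31 tpr1305.df))))))))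 (.node (.node (.node (.node (.node (.node (.node (.leaf (.bwd 2702 31 tpr21.df)) (.leaf (.fwd 2733 35 tpr568.df))) (.leaf (.bwd 2768 27 tpr506.df))) (.node (.node (.leaf (.fwd 2795 44 tpr617.df)) (.leaf (.fwd 2839 34 tpr614.df))) (.leaf (.bwd 2873 29 tpr9.df)))) (.node (.node (.node (.leaf (.bwd 2902 36 tpr2808.df)) (.leaf (.bwd 2938 47 tpr542.df))) (.leaf (.fwd 2985 53 tpr947.df))) (.node (.leaf (.bwd 3038 48 tpr1053.df)) (.leaf (.fwd 3086 34 tpr543.df))))) (.node (.node (.node (.node (.leaf (.bwd 3120 25 tpr106.df)) (.leaf (.bwd 3145 25 tpr677.df))) (.leaf (.fwd 3170 37 tpr583.df))) (.node (.leaf (.fwd 3207 39 tpr210.df)) (.leaf (.bwd 3246 42 tpr812.df)))) (.node (.node (.node (.leaf (.fwd 3288 24 tpr147.df)) (.leaf (.bwd 3312 15 tpr816.df))) (.leaf (.fwd 3327 32 tpr2094.df))) (.node (.leaf (.fwd 3359 45 tpr596.df)) (.leaf (.bwd 3404 22 tpr2095.df)))))) (.node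 (.node (.node (.node (.node (.leaf (.fwd 3426 29 tpr1344.df)) (.leaf (.fwd 3455 29 tpr656.df))) (.leaf (.bwd 3484 22 tpr2096.df))) (.node (.node (.leaf (.fwd 3506 28 tpr295.df)) (.leaf (.fwd 3534 23 tpr780.df))) (.leaf (.bwd 3557 35 tpr541.df)))) (.node (.node (.node (.leaf (.bwd 3592 23 tpr1562.df)) (.leaf (.bwd 3615 31 tpr517.df))) (.leaf (.bwd 3646 28 tpr588.df))) (.node (.leaf (.bwd 3674 26 tpr700.df)) (.leaf (.fwd 3700 29 tpr111.df))))) (.node (.node (.node (.node (.leaf (.bwd 3729 35 tpr849.df)) (.leaf (.bwd 3764 26 tpr1371.df))) (.leaf (.bwd 3790 31 tpr528.df))) (.node (.leaf (.bwd 3821 22 tpr581.df)) (.leaf (.fwd 3843 23 tpr508.df)))) (.node (.node (.node (.leaf (.bwd 3866 32 tpr518.df)) (.leaf (.bwd 3898 23 tpr780.df))) (.leaf (.fwd 3921 31 tpr198.df))) (.node (.leaf (.bwd 3952 35 tpr1028.df)) (.leaf (.fwd 3987 22 tpr959.df))))))) (.node (.node (.node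 (.node (.node (.node (.leaf (.fwd 4009 30 tpr1730.df)) (.leaf (.bwd 4039 38 tpr526.df))) (.leaf (.fwd 4077 31 tpr607.df))) (.node (.node (.leaf (.fwd 4108 37 tpr555.df)) (.leaf (.bwd 4145 37 tpr1789.df))) (.leaf (.bwd 4182 58 tpr2575.df)))) (.node (.node (.node (.leaf (.bwd 4240 32 tpr247.df)) (.leaf (.fwd 4272 33 tpr501.df))) (.leaf (.fwd 4305 22 tpr239.df))) (.node (.leaf (.fwd 4327 25 tpr679.df)) (.leaf (.bwd 4352 29 tpr22.df))))) (.node (.node (.node (.node (.leaf (.fwd 4381 26 tpr2027.df)) (.leaf (.fwd 4407 31 tpr949.df))) (.leaf (.fwd 4438 28 tpr511.df))) (.node (.leaf (.bwd 4466 52 tpr1839.df)) (.leaf (.bwd 4518 44 tpr725.df)))) (.node (.node (.node (.leaf (.fwd 4562 28 tpr627.df)) (.leaf (.bwd 4590 30 tpr626.df))) (.leaf (.fwd 4620 32 tpr17.df))) (.node (.leaf (.fwd 4652 31 tpr1010.df)) (.leaf (.fwd 4683 33 tpr680.df)))))) (.node (.node (.node (.node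 (.node (.leaf (.fwd 4716 38 tpr519.df)) (.leaf (.bwd 4754 39 tpr636.df))) (.leaf (.fwd 4793 32 tpr1248.df))) (.node (.node (.leaf (.fwd 4825 34 tpr619.df)) (.leaf (.bwd 4859 40 tpr705.df))) (.leaf (.bwd 4899 21 tpr90.df)))) (.node (.node (.node (.leaf (.fwd 4920 37 tpr465.df)) (.leaf (.bwd 4957 21 tpr72.df))) (.leaf (.fwd 4978 23 tpr456.df))) (.node (.leaf (.fwd 5001 25 tpr1311.df)) (.leaf (.fwd 5026 39 tpr479.df))))) (.node (.node (.node (.node (.leaf (.fwd 5065 24 tpr454.df)) (.leaf (.fwd 5089 35 tpr1313.df))) (.leaf (.bwd 5124 28 tpr477.df))) (.node (.leaf (.bwd 5152 30 tpr2488.df)) (.leaf (.fwd 5182 29 tpr46.df)))) (.node (.node (.node (.leaf (.bwd 5211 33 tpr1370.df)) (.leaf (.fwd 5244 25 tpr1257.df))) (.leaf (.fwd 5269 35 tpr485.df))) (.node (.leaf (.fwd 5304 36 tpr23.df)) (.leaf (.fwd 5340 31 tpr1538.df)))))))))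

theorem iiNFzA2E2ByA3H2AzIzAyB2H3A2E2AzAyBzF_c : iiNFzA2E2ByA3H2AzIzAyB2H3A2E2AzAyBzF.all (itB (ng 58 nnNFzA2E2ByA3H2AzIzAyB2H3A2E2AzAyBzF)) = true := by decide +kernel
theorem nbNFzA2E2ByA3H2AzIzAyB2H3A2E2AzAyBzF : nbB 58 5429 nnNFzA2E2ByA3H2AzIzAyB2H3A2E2AzAyBzF = true := by decide +kernel
theorem topNFzA2E2ByA3H2AzIzAyB2H3A2E2AzAyBzF : topY 5429 ttNFzA2E2ByA3H2AzIzAyB2H3A2E2AzAyBzF ceNFzA2E2ByA3H2AzIzAyB2H3A2E2AzAyBzF xNFzA2E2ByA3H2AzIzAyB2H3A2E2AzAyBzF iiNFzA2E2ByA3H2AzIzAyB2H3A2E2AzAyBzF = true := by decide +kernel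

end MPb6R
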