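import Pool.Agent.Lib.MP_b6d339_lc.Cw3.YFzA2E2ByA3H3A2EzAyBzF
import Pool.Agent.Lib.MP_b6d339_lc.Cw3.XL
import Pool.Agent.Lib.MP_b6d339_lc.Cw3.T0
import Pool.Agent.Lib.MP_b6d339_lc.Cw3.T1
import Pool.Agent.Lib.MP_b6d339_lc.Cw3.T10
import Pool.Agent.Lib.MP_b6d339_lc.Cw3.T11
import Pool.Agent.Lib.MP_b6d339_lc.Cw3.T12
import Pool.Agent.Lib.MP_b6d339_lc.Cw3.T13
import Pool.Agent.Lib.MP_b6d339_lc.Cw3.T14
import Pool.Agent.Lib.MP_b6d339_lc.Cw3.T15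
import Pool.Agent.Lib.MP_b6d339_lc.Cw3.T18
import Pool.Agent.Lib.MP_b6d339_lc.Cw3.T19
import Pool.Agent.Lib.MP_b6d339_lc.Cw3.T2
import Pool.Agent.Lib.MP_b6d339_lc.Cw3.T20
import Pool.Agent.Lib.MP_b6d339_lc.Cw3.T21
import Pool.Agent.Lib.MP_b6d339_lc.Cw3.T24
import Pool.Agent.Lib.MP_b6d339_lc.Cw3.T25
import Pool.Agent.Lib.MP_b6d339_lc.Cw3.T26
import Pool.Agent.Lib.MP_b6d339_lc.Cw3.T3
import Pool.Agent.Lib.MP_b6d339_lc.Cw3.T4
import Pool.Agent.Lib.MP_b6d339_lc.Cw3.T5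
import Pool.Agent.Lib.MP_b6d339_lc.Cw3.T6
import Pool.Agent.Lib.MP_b6d339_lc.Cw3.T7
import Pool.Agent.Lib.MP_b6d339_lc.Cw3.T8
import Pool.Agent.Lib.MP_b6d339_lc.Cw3.T9

/-!
# Erdős 592, three levels: items
-/

namespace MPb6R

open MPb6P

noncomputable def iiNFzA2E2ByA3H3A2EzAyBzF : BT Itm := (.node (.node (.node (.node (.node (.node (.node (.node (.leaf (.fwd 0 13 tpr500.df)) (.leaf (.fwd 13 16 tpr168.df))) (.leaf (.bwd 29 24 tpr789.df))) (.node (.leaf (.fwd 53 31 tpr1532.df)) (.leaf (.fwd 84 24 tpr789.df)))) (.node (.node (.node (.leaf (.fwd 108 23 tpr5.df)) (.leaf (.fwd 131 20 tpr216.df))) (.leaf (.bwd 151 27 tpr499.df))) (.node (.leaf (.bwd 178 23 tpr508.df)) (.leaf (.bwd 201 20 tpr48.df))))) (.node (.node (.node (.node (.leaf (.fwd 221 27 tpr499.df)) (.leaf (.bwd 248 21 tpr90.df))) (.leaf (.bwd 269 27 tpr82.df))) (.node (.leaf (.fwd 296 21 tpr8.df)) (.leaf (.bwd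 317 22 tpr581.df)))) (.node (.node (.node (.leaf (.bwd 339 26 tpr2084.df)) (.leaf (.fwd 365 35 tpr89.df))) (.leaf (.bwd 400 27 tpr682.df))) (.node (.leaf (.fwd 427 32 tpr251.df)) (.leaf (.bwd 459 28 tpr507.df)))))) (.node (.node (.node (.node (.node (.leaf (.bwd 487 21 tpr72.df)) (.leaf (.bwd 508 27 tpr240.df))) (.leaf (.fwd 535 22 tpr959.df))) (.node (.leaf (.fwd 557 28 tpr1121.df)) (.leaf (.bwd 585 31 tpr517.df)))) (.node (.node (.node (.leaf (.bwd 616 28 tpr511.df)) (.leaf (.bwd 644 37 tpr556.df))) (.leaf (.fwd 681 29 tpr2092.df))) (.node (.leaf (.bwd 710 27 tpr979.df)) (.leaf (.fwd 737 30 tpr1572.df))))) (.node (.node (.node (.node (.leaf (.bwd 767 29 tpr582.df)) (.leaf (.bwd 796 26 tpr509.df))) (.leaf (.fwd 822 26 tpr245.df))) (.node (.leaf (.bwd 848 36 tpr547.df)) (.leaf (.fwd 884 27 tpr625.df)))) (.node (.node (.node (.leaf (.bwd 911 31 tpr606.df)) (.leaf (.fwd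 942 37 tpr2093.df))) (.leaf (.bwd 979 24 tpr24.df))) (.node (.leaf (.bwd 1003 30 tpr513.df)) (.leaf (.fwd 1033 32 tpr2094.df))))))) (.node (.node (.node (.node (.node (.node (.leaf (.fwd 1065 27 tpr977.df)) (.leaf (.bwd 1092 22 tpr2095.df))) (.leaf (.fwd 1114 39 tpr642.df))) (.node (.leaf (.bwd 1153 17 tpr144.df)) (.leaf (.bwd 1170 21 tpr1545.df)))) (.node (.node (.node (.leaf (.bwd 1191 22 tpr2096.df)) (.leaf (.bwd 1213 46 tpr324.df))) (.leaf (.fwd 1259 25 tpr679.df))) (.node (.leaf (.bwd 1284 42 tpr812.df)) (.leaf (.fwd 1326 41 tpr2097.df))))) (.node (.node (.node (.node (.leaf (.bwd 1367 38 tpr1542.df)) (.leaf (.fwd 1405 29 tpr2098.df))) (.leaf (.bwd 1434 24 tpr730.df))) (.node (.leaf (.fwd 1458 30 tpr1730.df)) (.leaf (.bwd 1488 39 tpr2099.df)))) (.node (.node (.node (.leaf (.fwd 1527 25 tpr1104.df)) (.leaf (.bwd 1552 34 tpr543.df))) (.leaf (.fwd 1586 31 tpr1010.df)))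 (.node (.leaf (.fwd 1617 23 tpr12.df)) (.leaf (.fwd 1640 29 tpr1457.df)))))) (.node (.node (.node (.node (.node (.leaf (.fwd 1669 38 tpr526.df)) (.leaf (.bwd 1707 22 tpr20.df))) (.leaf (.bwd 1729 23 tpr640.df))) (.node (.leaf (.fwd 1752 25 tpr51.df)) (.leaf (.bwd 1777 34 tpr54.df)))) (.node (.node (.node (.leaf (.fwd 1811 20 tpr2078.df)) (.leaf (.bwd 1831 39 tpr1559.df))) (.leaf (.bwd 1870 25 tpr677.df))) (.node (.leaf (.bwd 1895 32 tpr39.df)) (.leaf (.bwd 1927 37 tpr583.df))))) (.node (.node (.node (.node (.leaf (.bwd 1964 23 tpr2100.df)) (.leaf (.fwd 1987 24 tpr2101.df))) (.leaf (.bwd 2011 28 tpr223.df))) (.node (.leaf (.bwd 2039 23 tpr1541.df)) (.leaf (.bwd 2062 37 tpr782.df)))) (.node (.node (.leaf (.fwd 2099 30 tpr45.df)) (.leaf (.bwd 2129 15 tpr816.df))) (.node (.leaf (.fwd 2144 45 tpr596.df)) (.leaf (.fwd 2189 29 tpr656.df)))))))) (.node (.node (.node (.node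 (.node (.node (.node (.leaf (.bwd 2218 33 tpr645.df)) (.leaf (.bwd 2251 28 tpr588.df))) (.leaf (.bwd 2279 35 tpr1942.df))) (.node (.leaf (.bwd 2314 25 tpr1583.df)) (.leaf (.fwd 2339 15 tpr419.df)))) (.node (.node (.node (.leaf (.bwd 2354 30 tpr235.df)) (.leaf (.fwd 2384 35 tpr657.df))) (.leaf (.bwd 2419 22 tpr560.df))) (.node (.leaf (.fwd 2441 29 tpr9.df)) (.leaf (.fwd 2470 22 tpr239.df))))) (.node (.node (.node (.node (.leaf (.fwd 2492 29 tpr1540.df)) (.leaf (.bwd 2521 25 tpr51.df))) (.leaf (.fwd 2546 22 tpr536.df))) (.node (.leaf (.fwd 2568 25 tpr10.df)) (.leaf (.bwd 2593 49 tpr1647.df)))) (.node (.node (.node (.leaf (.bwd 2642 32 tpr247.df)) (.leaf (.fwd 2674 22 tpr590.df))) (.leaf (.bwd 2696 26 tpr599.df))) (.node (.leaf (.bwd 2722 42 tpr612.df)) (.leaf (.bwd 2764 25 tpr644.df)))))) (.node (.node (.node (.node (.node (.leaf (.fwd 2789 35 tpr541.df)) (.leaf (.bwd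 2824 31 tpr1571.df))) (.leaf (.bwd 2855 31 tpr939.df))) (.node (.leaf (.fwd 2886 26 tpr2102.df)) (.leaf (.fwd 2912 31 tpr198.df)))) (.node (.node (.node (.leaf (.fwd 2943 24 tpr1611.df)) (.leaf (.fwd 2967 23 tpr559.df))) (.leaf (.fwd 2990 37 tpr583.df))) (.node (.leaf (.bwd 3027 31 tpr607.df)) (.leaf (.fwd 3058 31 tpr576.df))))) (.node (.node (.node (.node (.leaf (.fwd 3089 33 tpr2103.df)) (.leaf (.fwd 3122 27 tpr584.df))) (.leaf (.fwd 3149 35 tpr568.df))) (.node (.leaf (.fwd 3184 39 tpr210.df)) (.leaf (.bwd 3223 28 tpr627.df)))) (.node (.node (.leaf (.fwd 3251 32 tpr1248.df)) (.leaf (.bwd 3283 38 tpr2104.df))) (.node (.leaf (.fwd 3321 34 tpr691.df)) (.leaf (.fwd 3355 37 tpr503.df))))))) (.node (.node (.node (.node (.node (.node (.leaf (.fwd 3392 29 tpr22.df)) (.leaf (.fwd 3421 29 tpr641.df))) (.leaf (.fwd 3450 32 tpr2105.df))) (.node (.leaf (.fwd 3482 34 tpr1934.df))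 (.leaf (.bwd 3516 37 tpr1075.df)))) (.node (.node (.node (.leaf (.fwd 3553 41 tpr2106.df)) (.leaf (.fwd 3594 34 tpr543.df))) (.leaf (.fwd 3628 33 tpr1256.df))) (.node (.leaf (.fwd 3661 32 tpr567.df)) (.leaf (.fwd 3693 33 tpr521.df))))) (.node (.node (.node (.node (.leaf (.fwd 3726 44 tpr617.df)) (.leaf (.fwd 3770 37 tpr523.df))) (.leaf (.bwd 3807 38 tpr519.df))) (.node (.leaf (.fwd 3845 29 tpr608.df)) (.leaf (.bwd 3874 27 tpr1553.df)))) (.node (.node (.node (.leaf (.bwd 3901 25 tpr106.df)) (.leaf (.fwd 3926 22 tpr191.df))) (.leaf (.fwd 3948 22 tpr515.df))) (.node (.leaf (.bwd 3970 34 tpr575.df)) (.leaf (.fwd 4004 40 tpr544.df)))))) (.node (.node (.node (.node (.node (.leaf (.bwd 4044 29 tpr545.df)) (.leaf (.fwd 4073 37 tpr520.df))) (.leaf (.fwd 4110 44 tpr1548.df))) (.node (.leaf (.fwd 4154 24 tpr2107.df)) (.leaf (.bwd 4178 22 tpr2108.df)))) (.node (.node (.node (.leaf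 (.bwd 4200 40 tpr1232.df)) (.leaf (.bwd 4240 24 tpr2109.df))) (.leaf (.fwd 4264 44 tpr466.df))) (.node (.leaf (.bwd 4308 54 tpr1193.df)) (.leaf (.fwd 4362 25 tpr2077.df))))) (.node (.node (.node (.node (.leaf (.fwd 4387 34 tpr548.df)) (.leaf (.fwd 4421 30 tpr320.df))) (.leaf (.fwd 4451 23 tpr1255.df))) (.node (.leaf (.fwd 4474 28 tpr1666.df)) (.leaf (.fwd 4502 31 tpr527.df)))) (.node (.node (.leaf (.fwd 4533 24 tpr293.df)) (.leaf (.fwd 4557 21 tpr2110.df))) (.node (.leaf (.fwd 4578 33 tpr594.df)) (.leaf (.fwd 4611 30 tpr603.df)))))))))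

theorem iiNFzA2E2ByA3H3A2EzAyBzF_c : iiNFzA2E2ByA3H3A2EzAyBzF.all (itB (ng 54 nnNFzA2E2ByA3H3A2EzAyBzF)) = true := by decide +kernel
theorem nbNFzA2E2ByA3H3A2EzAyBzF : nbB 54 4695 nnNFzA2E2ByA3H3A2EzAyBzF = true := by decide +kernel
theorem topNFzA2E2ByA3H3A2EzAyBzF : topY 4695 ttNFzA2E2ByA3H3A2EzAyBzF ceNFzA2E2ByA3H3A2EzAyBzF xNFzA2E2ByA3H3A2EzAyBzF iiNFzA2E2ByA3H3A2EzAyBzF = true := by decide +kernel

end MPb6R
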