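import Pool.Agent.Lib.MP_b6d339_lc.Cw3.YFzAyAzE2B3H3BzIzB2H3A2EzF
import Pool.Agent.Lib.MP_b6d339_lc.Cw3.XL
import Pool.Agent.Lib.MP_b6d339_lc.Cw3.T0
import Pool.Agent.Lib.MP_b6d339_lc.Cw3.T1
import Pool.Agent.Lib.MP_b6d339_lc.Cw3.T2
import Pool.Agent.Lib.MP_b6d339_lc.Cw3.T3
import Pool.Agent.Lib.MP_b6d339_lc.Cw3.T4
import Pool.Agent.Lib.MP_b6d339_lc.Cw3.T5
import Pool.Agent.Lib.MP_b6d339_lc.Cw3.T6

/-!
# Erdős 592, three levels: items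
-/

namespace MPb6R

open MPb6P

noncomputable def iiNFzAyAzE2B3H3BzIzB2H3A2EzF : BT Itm := (.node (.node (.node (.node (.node (.node (.node (.node (.leaf (.bwd 0 6 tpr4.df)) (.leaf (.fwd 6 6 tpr4.df))) (.leaf (.bwd 12 56 tpr452.df))) (.node (.leaf (.bwd 68 23 tpr5.df)) (.leaf (.bwd 91 21 tpr8.df)))) (.node (.node (.leaf (.fwd 112 25 tpr10.df)) (.leaf (.fwd 137 13 tpr11.df))) (.node (.leaf (.fwd 150 13 tpr14.df)) (.leaf (.bwd 163 35 tpr13.df))))) (.node (.node (.node (.node (.leaf (.bwd 198 39 tpr98.df)) (.leaf (.bwd 237 13 tpr11.df))) (.leaf (.fwd 250 17 tpr16.df))) (.node (.leaf (.bwd 267 43 tpr292.df)) (.leaf (.fwd 310 27 tpr56.df)))) (.node (.node (.leaf (.bwd 337 40 tpr32.df)) (.leaf (.fwd 377 31 tpr198.df))) (.node (.leaf (.fwd 408 24 tpr57.df)) (.leaf (.fwd 432 26 tpr80.df)))))) (.node (.node (.node (.node (.node (.leaf (.fwd 458 27 tpr85.df)) (.leaf (.fwd 485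 31 tpr315.df))) (.leaf (.fwd 516 25 tpr74.df))) (.node (.leaf (.fwd 541 21 tpr36.df)) (.leaf (.fwd 562 36 tpr453.df)))) (.node (.node (.leaf (.bwd 598 42 tpr124.df)) (.leaf (.bwd 640 15 tpr152.df))) (.node (.leaf (.fwd 655 33 tpr129.df)) (.leaf (.bwd 688 35 tpr123.df))))) (.node (.node (.node (.leaf (.fwd 723 39 tpr7.df)) (.leaf (.bwd 762 24 tpr454.df))) (.node (.leaf (.fwd 786 24 tpr160.df)) (.leaf (.bwd 810 9 tpr41.df)))) (.node (.node (.leaf (.bwd 819 20 tpr42.df)) (.leaf (.fwd 839 20 tpr103.df))) (.node (.leaf (.bwd 859 36 tpr165.df)) (.leaf (.bwd 895 22 tpr83.df))))))) (.node (.node (.node (.node (.node (.node (.leaf (.fwd 917 42 tpr455.df)) (.leaf (.bwd 959 20 tpr216.df))) (.leaf (.fwd 979 35 tpr58.df))) (.node (.leaf (.fwd 1014 19 tpr33.df)) (.leaf (.fwd 1033 20 tpr48.df)))) (.node (.node (.leaf (.fwd 1053 30 tpr26.df)) (.leaf (.bwd 1083 23 tpr456.df))) (.node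 (.leaf (.bwd 1106 18 tpr37.df)) (.leaf (.fwd 1124 16 tpr220.df))))) (.node (.node (.node (.node (.leaf (.fwd 1140 20 tpr63.df)) (.leaf (.bwd 1160 32 tpr61.df))) (.leaf (.fwd 1192 25 tpr457.df))) (.node (.leaf (.bwd 1217 45 tpr332.df)) (.leaf (.bwd 1262 28 tpr93.df)))) (.node (.node (.leaf (.bwd 1290 20 tpr102.df)) (.leaf (.bwd 1310 24 tpr458.df))) (.node (.leaf (.fwd 1334 34 tpr459.df)) (.leaf (.bwd 1368 25 tpr304.df)))))) (.node (.node (.node (.node (.node (.leaf (.fwd 1393 27 tpr240.df)) (.leaf (.bwd 1420 43 tpr122.df))) (.leaf (.fwd 1463 27 tpr82.df))) (.node (.leaf (.bwd 1490 39 tpr78.df)) (.leaf (.bwd 1529 22 tpr230.df)))) (.node (.node (.leaf (.bwd 1551 29 tpr121.df)) (.leaf (.fwd 1580 30 tpr460.df))) (.node (.leaf (.bwd 1610 29 tpr151.df)) (.leaf (.bwd 1639 48 tpr77.df))))) (.node (.node (.node (.leaf (.bwd 1687 38 tpr105.df)) (.leaf (.fwd 1725 36 tpr75.df)))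 (.node (.leaf (.fwd 1761 23 tpr126.df)) (.leaf (.bwd 1784 35 tpr461.df)))) (.node (.node (.leaf (.fwd 1819 55 tpr462.df)) (.leaf (.bwd 1874 39 tpr463.df))) (.node (.leaf (.bwd 1913 29 tpr464.df)) (.leaf (.fwd 1942 24 tpr84.df)))))))) (.node (.node (.node (.node (.node (.node (.node (.leaf (.bwd 1966 37 tpr465.df)) (.leaf (.fwd 2003 26 tpr349.df))) (.leaf (.fwd 2029 44 tpr466.df))) (.node (.leaf (.fwd 2073 32 tpr467.df)) (.leaf (.fwd 2105 35 tpr194.df)))) (.node (.node (.leaf (.fwd 2140 25 tpr106.df)) (.leaf (.bwd 2165 22 tpr118.df))) (.node (.leaf (.bwd 2187 29 tpr257.df)) (.leaf (.bwd 2216 27 tpr119.df))))) (.node (.node (.node (.node (.leaf (.fwd 2243 26 tpr334.df)) (.leaf (.fwd 2269 41 tpr120.df))) (.leaf (.bwd 2310 42 tpr468.df))) (.node (.leaf (.fwd 2352 24 tpr24.df)) (.leaf (.bwd 2376 58 tpr469.df)))) (.node (.node (.leaf (.fwd 2434 39 tpr256.df)) (.leaf (.fwd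 2473 26 tpr470.df))) (.node (.leaf (.fwd 2499 18 tpr471.df)) (.leaf (.fwd 2517 27 tpr134.df)))))) (.node (.node (.node (.node (.node (.leaf (.bwd 2544 50 tpr211.df)) (.leaf (.fwd 2594 17 tpr472.df))) (.leaf (.fwd 2611 25 tpr73.df))) (.node (.leaf (.fwd 2636 21 tpr381.df)) (.leaf (.bwd 2657 37 tpr473.df)))) (.node (.node (.leaf (.fwd 2694 21 tpr474.df)) (.leaf (.fwd 2715 22 tpr475.df))) (.node (.leaf (.bwd 2737 56 tpr476.df)) (.leaf (.fwd 2793 28 tpr477.df))))) (.node (.node (.node (.leaf (.bwd 2821 23 tpr478.df)) (.leaf (.bwd 2844 41 tpr345.df))) (.node (.leaf (.bwd 2885 39 tpr479.df)) (.leaf (.fwd 2924 22 tpr480.df)))) (.node (.node (.leaf (.fwd 2946 30 tpr481.df)) (.leaf (.fwd 2976 37 tpr327.df))) (.node (.leaf (.bwd 3013 53 tpr482.df)) (.leaf (.bwd 3066 22 tpr483.df))))))) (.node (.node (.node (.node (.node (.node (.leaf (.bwd 3088 33 tpr484.df)) (.leaf (.bwd 3121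 35 tpr485.df))) (.leaf (.fwd 3156 32 tpr486.df))) (.node (.leaf (.bwd 3188 27 tpr487.df)) (.leaf (.fwd 3215 59 tpr489.df)))) (.node (.node (.leaf (.fwd 3274 25 tpr164.df)) (.leaf (.fwd 3299 23 tpr490.df))) (.node (.leaf (.fwd 3322 18 tpr491.df)) (.leaf (.fwd 3340 54 tpr310.df))))) (.node (.node (.node (.node (.leaf (.bwd 3394 21 tpr25.df)) (.leaf (.fwd 3415 58 tpr492.df))) (.leaf (.bwd 3473 31 tpr167.df))) (.node (.leaf (.bwd 3504 34 tpr170.df)) (.leaf (.bwd 3538 15 tpr493.df)))) (.node (.node (.leaf (.fwd 3553 23 tpr285.df)) (.leaf (.fwd 3576 23 tpr5.df))) (.node (.leaf (.fwd 3599 21 tpr8.df)) (.leaf (.bwd 3620 13 tpr14.df)))))) (.node (.node (.node (.node (.node (.leaf (.bwd 3633 28 tpr156.df)) (.leaf (.bwd 3661 23 tpr12.df))) (.leaf (.bwd 3684 56 tpr87.df))) (.node (.leaf (.bwd 3740 29 tpr494.df)) (.leaf (.fwd 3769 33 tpr44.df)))) (.node (.node (.leaf (.fwd 3802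 40 tpr62.df)) (.leaf (.bwd 3842 34 tpr495.df))) (.node (.leaf (.fwd 3876 29 tpr151.df)) (.leaf (.fwd 3905 45 tpr403.df))))) (.node (.node (.node (.leaf (.bwd 3950 60 tpr496.df)) (.leaf (.bwd 4010 30 tpr497.df))) (.node (.leaf (.bwd 4040 24 tpr293.df)) (.leaf (.fwd 4064 22 tpr191.df)))) (.node (.node (.leaf (.bwd 4086 39 tpr81.df)) (.leaf (.fwd 4125 24 tpr181.df))) (.node (.leaf (.fwd 4149 31 tpr408.df)) (.leaf (.fwd 4180 56 tpr498.df)))))))))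

theorem iiNFzAyAzE2B3H3BzIzB2H3A2EzF_c : iiNFzAyAzE2B3H3BzIzB2H3A2EzF.all (itB (ng 60 nnNFzAyAzE2B3H3BzIzB2H3A2EzF)) = true := by decide +kernel
theorem nbNFzAyAzE2B3H3BzIzB2H3A2EzF : nbB 60 4296 nnNFzAyAzE2B3H3BzIzB2H3A2EzF = true := by decide +kernel
theorem topNFzAyAzE2B3H3BzIzB2H3A2EzF : topY 4296 ttNFzAyAzE2B3H3BzIzB2H3A2EzF ceNFzAyAzE2B3H3BzIzB2H3A2EzF xNFzAyAzE2B3H3BzIzB2H3A2EzF iiNFzAyAzE2B3H3BzIzB2H3A2EzF = true := by decide +kernel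

end MPb6R
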