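import Pool.Agent.Lib.MP_b6d339_lc.Cw3.YFzA2ByA3H2AzIzA2H3A2EzF

/-!
# Erdős 592, three levels: checks of claims
-/

namespace MPb6R

open MPb6P

theorem zeNFzA2ByA3H2AzIzA2H3A2EzF_0 : cyE 62 3423 nnNFzA2ByA3H2AzIzA2H3A2EzF ttNFzA2ByA3H2AzIzA2H3A2EzF coNFzA2ByA3H2AzIzA2H3A2EzF xNFzA2ByA3H2AzIzA2H3A2EzF ceNFzA2ByA3H2AzIzA2H3A2EzF_0 = true := by decide +kernel

end MPb6R
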