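import Pool.Agent.Lib.MP_b6d339_lc.Cw3.YFzA2E2ByA3H2AzIzA2H3A2EzAyBzF

/-!
# Erdős 592, three levels: checks of claims
-/

namespace MPb6R

open MPb6P

theorem zeNFzA2E2ByA3H2AzIzA2H3A2EzAyBzF_2 : cyE 61 5770 nnNFzA2E2ByA3H2AzIzA2H3A2EzAyBzF ttNFzA2E2ByA3H2AzIzA2H3A2EzAyBzF coNFzA2E2ByA3H2AzIzA2H3A2EzAyBzF xNFzA2E2ByA3H2AzIzA2H3A2EzAyBzF ceNFzA2E2ByA3H2AzIzA2H3A2EzAyBzF_2 = true := by decide +kernel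

end MPb6R
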