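import Pool.Agent.Lib.MP_b6d339_lc.Cw3.YFzAyAzE2B3H3BzIzB2H3A2EzF

/-!
# Erdős 592, three levels: checks of claims
-/

namespace MPb6R

open MPb6P

theorem zoNFzAyAzE2B3H3BzIzB2H3A2EzF_0 : cyO 60 4296 nnNFzAyAzE2B3H3BzIzB2H3A2EzF ttNFzAyAzE2B3H3BzIzB2H3A2EzF ceNFzAyAzE2B3H3BzIzB2H3A2EzF xNFzAyAzE2B3H3BzIzB2H3A2EzF coNFzAyAzE2B3H3BzIzB2H3A2EzF_0 = true := by decide +kernel

end MPb6R
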