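import Pool.Agent.Lib.MP_b6d339_lc.Cw3.JFzA2ByA3H2AzIzA2H3A2EzF
import Pool.Agent.Lib.MP_b6d339_lc.Cw3.JFzA2E2ByA3H2AzIzA2H3A2EzAyBzF
import Pool.Agent.Lib.MP_b6d339_lc.Cw3.JFzA2E2ByA3H2AzIzAyB2H3A2E2AzAyBzF
import Pool.Agent.Lib.MP_b6d339_lc.Cw3.JFzA2E2ByA3H3A2EzAyBzF
import Pool.Agent.Lib.MP_b6d339_lc.Cw3.JFzAyAzE2B3H3BzIzB2H3A2EzF
import Pool.Agent.Lib.MP_b6d339_lc.Cw3.JFzAyE2ByA3H2AzIzA2H3A2E2A2AzAyAyF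
import Pool.Agent.Lib.MP_b6d339_lc.Cw3.S2
import Pool.Agent.Lib.MP_b6d339_lc.Cw3.S7
import Pool.Agent.Lib.MP_b6d339_lc.Cw3.T0
import Pool.Agent.Lib.MP_b6d339_lc.Cw3.T1
import Pool.Agent.Lib.MP_b6d339_lc.Cw3.T10
import Pool.Agent.Lib.MP_b6d339_lc.Cw3.T11
import Pool.Agent.Lib.MP_b6d339_lc.Cw3.T12
import Pool.Agent.Lib.MP_b6d339_lc.Cw3.T13
import Pool.Agent.Lib.MP_b6d339_lc.Cw3.T14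
import Pool.Agent.Lib.MP_b6d339_lc.Cw3.T15
import Pool.Agent.Lib.MP_b6d339_lc.Cw3.T16
import Pool.Agent.Lib.MP_b6d339_lc.Cw3.T17
import Pool.Agent.Lib.MP_b6d339_lc.Cw3.T18
import Pool.Agent.Lib.MP_b6d339_lc.Cw3.T19
import Pool.Agent.Lib.MP_b6d339_lc.Cw3.T2
import Pool.Agent.Lib.MP_b6d339_lc.Cw3.T20
import Pool.Agent.Lib.MP_b6d339_lc.Cw3.T21
import Pool.Agent.Lib.MP_b6d339_lc.Cw3.T22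
import Pool.Agent.Lib.MP_b6d339_lc.Cw3.T23
import Pool.Agent.Lib.MP_b6d339_lc.Cw3.T24
import Pool.Agent.Lib.MP_b6d339_lc.Cw3.T25
import Pool.Agent.Lib.MP_b6d339_lc.Cw3.T26
import Pool.Agent.Lib.MP_b6d339_lc.Cw3.T27
import Pool.Agent.Lib.MP_b6d339_lc.Cw3.T28
import Pool.Agent.Lib.MP_b6d339_lc.Cw3.T29
import Pool.Agent.Lib.MP_b6d339_lc.Cw3.T3
import Pool.Agent.Lib.MP_b6d339_lc.Cw3.T30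
import Pool.Agent.Lib.MP_b6d339_lc.Cw3.T31
import Pool.Agent.Lib.MP_b6d339_lc.Cw3.T32
import Pool.Agent.Lib.MP_b6d339_lc.Cw3.T33
import Pool.Agent.Lib.MP_b6d339_lc.Cw3.T35
import Pool.Agent.Lib.MP_b6d339_lc.Cw3.T36
import Pool.Agent.Lib.MP_b6d339_lc.Cw3.T4
import Pool.Agent.Lib.MP_b6d339_lc.Cw3.T5
import Pool.Agent.Lib.MP_b6d339_lc.Cw3.T6
import Pool.Agent.Lib.MP_b6d339_lc.Cw3.T7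
import Pool.Agent.Lib.MP_b6d339_lc.Cw3.T8
import Pool.Agent.Lib.MP_b6d339_lc.Cw3.T9
import Pool.Agent.Lib.MP_b6d339_lc.Cw3.XL
import Pool.Agent.Lib.MP_b6d339_lc.Cw3.ZFzA2ByA3H2AzIzA2H3A2EzF_0
import Pool.Agent.Lib.MP_b6d339_lc.Cw3.ZFzA2ByA3H2AzIzA2H3A2EzF_1
import Pool.Agent.Lib.MP_b6d339_lc.Cw3.ZFzA2E2ByA3H2AzIzA2H3A2EzAyBzF_0
import Pool.Agent.Lib.MP_b6d339_lc.Cw3.ZFzA2E2ByA3H2AzIzA2H3A2EzAyBzF_1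
import Pool.Agent.Lib.MP_b6d339_lc.Cw3.ZFzA2E2ByA3H2AzIzA2H3A2EzAyBzF_2
import Pool.Agent.Lib.MP_b6d339_lc.Cw3.ZFzA2E2ByA3H2AzIzA2H3A2EzAyBzF_3
import Pool.Agent.Lib.MP_b6d339_lc.Cw3.ZFzA2E2ByA3H2AzIzA2H3A2EzAyBzF_4
import Pool.Agent.Lib.MP_b6d339_lc.Cw3.ZFzA2E2ByA3H2AzIzAyB2H3A2E2AzAyBzF_0
import Pool.Agent.Lib.MP_b6d339_lc.Cw3.ZFzA2E2ByA3H2AzIzAyB2H3A2E2AzAyBzF_1
import Pool.Agent.Lib.MP_b6d339_lc.Cw3.ZFzA2E2ByA3H2AzIzAyB2H3A2E2AzAyBzF_2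
import Pool.Agent.Lib.MP_b6d339_lc.Cw3.ZFzA2E2ByA3H2AzIzAyB2H3A2E2AzAyBzF_3
import Pool.Agent.Lib.MP_b6d339_lc.Cw3.ZFzA2E2ByA3H3A2EzAyBzF_0
import Pool.Agent.Lib.MP_b6d339_lc.Cw3.ZFzA2E2ByA3H3A2EzAyBzF_1
import Pool.Agent.Lib.MP_b6d339_lc.Cw3.ZFzAyAzE2B3H3BzIzB2H3A2EzF_0
import Pool.Agent.Lib.MP_b6d339_lc.Cw3.ZFzAyAzE2B3H3BzIzB2H3A2EzF_1
import Pool.Agent.Lib.MP_b6d339_lc.Cw3.ZFzAyE2ByA3H2AzIzA2H3A2E2A2AzAyAyF_0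
import Pool.Agent.Lib.MP_b6d339_lc.Cw3.ZFzAyE2ByA3H2AzIzA2H3A2E2A2AzAyAyF_1
import Pool.Agent.Lib.MP_b6d339_lc.Cw3.ZFzAyE2ByA3H2AzIzA2H3A2E2A2AzAyAyF_10
import Pool.Agent.Lib.MP_b6d339_lc.Cw3.ZFzAyE2ByA3H2AzIzA2H3A2E2A2AzAyAyF_11
import Pool.Agent.Lib.MP_b6d339_lc.Cw3.ZFzAyE2ByA3H2AzIzA2H3A2E2A2AzAyAyF_12
import Pool.Agent.Lib.MP_b6d339_lc.Cw3.ZFzAyE2ByA3H2AzIzA2H3A2E2A2AzAyAyF_13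
import Pool.Agent.Lib.MP_b6d339_lc.Cw3.ZFzAyE2ByA3H2AzIzA2H3A2E2A2AzAyAyF_14
import Pool.Agent.Lib.MP_b6d339_lc.Cw3.ZFzAyE2ByA3H2AzIzA2H3A2E2A2AzAyAyF_2
import Pool.Agent.Lib.MP_b6d339_lc.Cw3.ZFzAyE2ByA3H2AzIzA2H3A2E2A2AzAyAyF_3
import Pool.Agent.Lib.MP_b6d339_lc.Cw3.ZFzAyE2ByA3H2AzIzA2H3A2E2A2AzAyAyF_4
import Pool.Agent.Lib.MP_b6d339_lc.Cw3.ZFzAyE2ByA3H2AzIzA2H3A2E2A2AzAyAyF_5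
import Pool.Agent.Lib.MP_b6d339_lc.Cw3.ZFzAyE2ByA3H2AzIzA2H3A2E2A2AzAyAyF_6
import Pool.Agent.Lib.MP_b6d339_lc.Cw3.ZFzAyE2ByA3H2AzIzA2H3A2E2A2AzAyAyF_7
import Pool.Agent.Lib.MP_b6d339_lc.Cw3.ZFzAyE2ByA3H2AzIzA2H3A2E2A2AzAyAyF_8
import Pool.Agent.Lib.MP_b6d339_lc.Cw3.ZFzAyE2ByA3H2AzIzA2H3A2E2A2AzAyAyF_9
import Pool.Agent.Lib.MP_b6d339_lc.Pos.XTreeC
import Pool.Agent.Lib.MP_b6d339_lc.Pos.YQ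

/-!
# Erdős 592, three levels: classes of words
-/

namespace MPb6R

open MPb6P

theorem iiNFzA2AzE2B3H3BzIzB2H3B2EzF_k : iiNFzA2AzE2B3H3BzIzB2H3B2EzF.Fa (Itm.ok 206) := (BT.Fa_mk (BT.Fa_mk (BT.Fa_mk (BT.Fa_mk (BT.Fa_mk (BT.Fa_mk (BT.Fa_mk (BT.Fa_leaf (P := Itm.ok 206) (iqb tpr4_c)) (BT.Fa_leaf (P := Itm.ok 206) (iqf tpr415_c))) (BT.Fa_mk (BT.Fa_leaf (P := Itm.ok 206) (iqf tpr5_c)) (BT.Fa_leaf (P := Itm.ok 206) (iqb tpr8_c)))) (BT.Fa_mk (BT.Fa_mk (BT.Fa_leaf (P := Itm.ok 206) (iqb tpr105_c)) (BT.Fa_leaf (P := Itm.ok 206) (iqf tpr9_c))) (BT.Fa_leaf (P := Itm.ok 206) (iqf tpr21_c)))) (BT.Fa_mk (BT.Fa_mk (BT.Fa_mk (BT.Fa_leaf (P := Itm.ok 206) (iqf tpr11_c)) (BT.Fa_leaf (P := Itm.ok 206) (iqb tpr416_c))) (BT.Fa_leaf (P := Itm.ok 206) (iqb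 tpr131_c))) (BT.Fa_mk (BT.Fa_mk (BT.Fa_leaf (P := Itm.ok 206) (iqf tpr315_c)) (BT.Fa_leaf (P := Itm.ok 206) (iqf tpr317_c))) (BT.Fa_leaf (P := Itm.ok 206) (iqb tpr417_c))))) (BT.Fa_mk (BT.Fa_mk (BT.Fa_mk (BT.Fa_mk (BT.Fa_leaf (P := Itm.ok 206) (iqb tpr215_c)) (BT.Fa_leaf (P := Itm.ok 206) (iqf tpr28_c))) (BT.Fa_mk (BT.Fa_leaf (P := Itm.ok 206) (iqb tpr107_c)) (BT.Fa_leaf (P := Itm.ok 206) (iqb tpr14_c)))) (BT.Fa_mk (BT.Fa_mk (BT.Fa_leaf (P := Itm.ok 206) (iqb tpr317_c)) (BT.Fa_leaf (P := Itm.ok 206) (iqb tpr12_c))) (BT.Fa_leaf (P := Itm.ok 206) (iqf tpr222_c)))) (BT.Fa_mk (BT.Fa_mk (BT.Fa_mk (BT.Fa_leaf (P := Itm.ok 206) (iqf tpr20_c)) (BT.Fa_leaf (P := Itm.ok 206) (iqb tpr51_c))) (BT.Fa_leaf (P := Itm.ok 206) (iqf tpr14_c))) (BT.Fa_mk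 (BT.Fa_mk (BT.Fa_leaf (P := Itm.ok 206) (iqf tpr16_c)) (BT.Fa_leaf (P := Itm.ok 206) (iqb tpr219_c))) (BT.Fa_leaf (P := Itm.ok 206) (iqb tpr168_c)))))) (BT.Fa_mk (BT.Fa_mk (BT.Fa_mk (BT.Fa_mk (BT.Fa_mk (BT.Fa_leaf (P := Itm.ok 206) (iqb tpr167_c)) (BT.Fa_leaf (P := Itm.ok 206) (iqb tpr46_c))) (BT.Fa_mk (BT.Fa_leaf (P := Itm.ok 206) (iqf tpr418_c)) (BT.Fa_leaf (P := Itm.ok 206) (iqf tpr362_c)))) (BT.Fa_mk (BT.Fa_mk (BT.Fa_leaf (P := Itm.ok 206) (iqf tpr281_c)) (BT.Fa_leaf (P := Itm.ok 206) (iqf tpr419_c))) (BT.Fa_leaf (P := Itm.ok 206) (iqf tpr53_c)))) (BT.Fa_mk (BT.Fa_mk (BT.Fa_mk (BT.Fa_leaf (P := Itm.ok 206) (iqf tpr57_c)) (BT.Fa_leaf (P := Itm.ok 206) (iqf tpr10_c))) (BT.Fa_leaf (P := Itm.ok 206) (iqf tpr56_c))) (BT.Fa_mk (BT.Fa_mk (BT.Fa_leaf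 (P := Itm.ok 206) (iqb tpr216_c)) (BT.Fa_leaf (P := Itm.ok 206) (iqb tpr420_c))) (BT.Fa_leaf (P := Itm.ok 206) (iqf tpr246_c))))) (BT.Fa_mk (BT.Fa_mk (BT.Fa_mk (BT.Fa_mk (BT.Fa_leaf (P := Itm.ok 206) (iqb tpr421_c)) (BT.Fa_leaf (P := Itm.ok 206) (iqf tpr241_c))) (BT.Fa_leaf (P := Itm.ok 206) (iqb tpr184_c))) (BT.Fa_mk (BT.Fa_mk (BT.Fa_leaf (P := Itm.ok 206) (iqf tpr422_c)) (BT.Fa_leaf (P := Itm.ok 206) (iqf tpr423_c))) (BT.Fa_leaf (P := Itm.ok 206) (iqb tpr111_c)))) (BT.Fa_mk (BT.Fa_mk (BT.Fa_mk (BT.Fa_leaf (P := Itm.ok 206) (iqb tpr424_c)) (BT.Fa_leaf (P := Itm.ok 206) (iqf tpr54_c))) (BT.Fa_leaf (P := Itm.ok 206) (iqb tpr60_c))) (BT.Fa_mk (BT.Fa_mk (BT.Fa_leaf (P := Itm.ok 206) (iqf tpr425_c)) (BT.Fa_leaf (P := Itm.ok 206) (iqf tpr221_c)))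 (BT.Fa_leaf (P := Itm.ok 206) (iqf tpr144_c))))))) (BT.Fa_mk (BT.Fa_mk (BT.Fa_mk (BT.Fa_mk (BT.Fa_mk (BT.Fa_mk (BT.Fa_leaf (P := Itm.ok 206) (iqb tpr94_c)) (BT.Fa_leaf (P := Itm.ok 206) (iqb tpr93_c))) (BT.Fa_mk (BT.Fa_leaf (P := Itm.ok 206) (iqf tpr41_c)) (BT.Fa_leaf (P := Itm.ok 206) (iqb tpr110_c)))) (BT.Fa_mk (BT.Fa_mk (BT.Fa_leaf (P := Itm.ok 206) (iqf tpr426_c)) (BT.Fa_leaf (P := Itm.ok 206) (iqf tpr48_c))) (BT.Fa_leaf (P := Itm.ok 206) (iqb tpr104_c)))) (BT.Fa_mk (BT.Fa_mk (BT.Fa_mk (BT.Fa_leaf (P := Itm.ok 206) (iqb tpr95_c)) (BT.Fa_leaf (P := Itm.ok 206) (iqf tpr63_c))) (BT.Fa_leaf (P := Itm.ok 206) (iqb tpr92_c))) (BT.Fa_mk (BT.Fa_mk (BT.Fa_leaf (P := Itm.ok 206) (iqb tpr35_c)) (BT.Fa_leaf (P := Itm.ok 206) (iqb tpr45_c))) (BT.Fa_leaf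 (P := Itm.ok 206) (iqf tpr427_c))))) (BT.Fa_mk (BT.Fa_mk (BT.Fa_mk (BT.Fa_mk (BT.Fa_leaf (P := Itm.ok 206) (iqf tpr428_c)) (BT.Fa_leaf (P := Itm.ok 206) (iqf tpr429_c))) (BT.Fa_leaf (P := Itm.ok 206) (iqf tpr39_c))) (BT.Fa_mk (BT.Fa_mk (BT.Fa_leaf (P := Itm.ok 206) (iqb tpr61_c)) (BT.Fa_leaf (P := Itm.ok 206) (iqb tpr430_c))) (BT.Fa_leaf (P := Itm.ok 206) (iqf tpr97_c)))) (BT.Fa_mk (BT.Fa_mk (BT.Fa_mk (BT.Fa_leaf (P := Itm.ok 206) (iqb tpr135_c)) (BT.Fa_leaf (P := Itm.ok 206) (iqb tpr136_c))) (BT.Fa_leaf (P := Itm.ok 206) (iqb tpr431_c))) (BT.Fa_mk (BT.Fa_mk (BT.Fa_leaf (P := Itm.ok 206) (iqb tpr432_c)) (BT.Fa_leaf (P := Itm.ok 206) (iqb tpr433_c))) (BT.Fa_leaf (P := Itm.ok 206) (iqf tpr434_c)))))) (BT.Fa_mk (BT.Fa_mk (BT.Fa_mk (BT.Fa_mk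 (BT.Fa_mk (BT.Fa_leaf (P := Itm.ok 206) (iqb tpr68_c)) (BT.Fa_leaf (P := Itm.ok 206) (iqf tpr435_c))) (BT.Fa_mk (BT.Fa_leaf (P := Itm.ok 206) (iqb tpr185_c)) (BT.Fa_leaf (P := Itm.ok 206) (iqb tpr166_c)))) (BT.Fa_mk (BT.Fa_mk (BT.Fa_leaf (P := Itm.ok 206) (iqf tpr436_c)) (BT.Fa_leaf (P := Itm.ok 206) (iqb tpr437_c))) (BT.Fa_leaf (P := Itm.ok 206) (iqf tpr438_c)))) (BT.Fa_mk (BT.Fa_mk (BT.Fa_mk (BT.Fa_leaf (P := Itm.ok 206) (iqb tpr5_c)) (BT.Fa_leaf (P := Itm.ok 206) (iqb tpr10_c))) (BT.Fa_leaf (P := Itm.ok 206) (iqf tpr439_c))) (BT.Fa_mk (BT.Fa_mk (BT.Fa_leaf (P := Itm.ok 206) (iqf tpr440_c)) (BT.Fa_leaf (P := Itm.ok 206) (iqb tpr441_c))) (BT.Fa_leaf (P := Itm.ok 206) (iqb tpr291_c))))) (BT.Fa_mk (BT.Fa_mk (BT.Fa_mk (BT.Fa_mk (BT.Fa_leaf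 (P := Itm.ok 206) (iqb tpr442_c)) (BT.Fa_leaf (P := Itm.ok 206) (iqf tpr181_c))) (BT.Fa_leaf (P := Itm.ok 206) (iqf tpr172_c))) (BT.Fa_mk (BT.Fa_mk (BT.Fa_leaf (P := Itm.ok 206) (iqb tpr444_c)) (BT.Fa_leaf (P := Itm.ok 206) (iqf tpr445_c))) (BT.Fa_leaf (P := Itm.ok 206) (iqf tpr446_c)))) (BT.Fa_mk (BT.Fa_mk (BT.Fa_mk (BT.Fa_leaf (P := Itm.ok 206) (iqb tpr9_c)) (BT.Fa_leaf (P := Itm.ok 206) (iqb tpr447_c))) (BT.Fa_leaf (P := Itm.ok 206) (iqb tpr448_c))) (BT.Fa_mk (BT.Fa_mk (BT.Fa_leaf (P := Itm.ok 206) (iqb tpr449_c)) (BT.Fa_leaf (P := Itm.ok 206) (iqb tpr213_c))) (BT.Fa_leaf (P := Itm.ok 206) (iqf tpr450_c))))))))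

/-- all words of the class have labels -/
theorem pokNFzA2AzE2B3H3BzIzB2H3B2EzF : POK 206 xNFzA2AzE2B3H3BzIzB2H3B2EzF :=
  y_pok (C0 := ceNFzA2AzE2B3H3BzIzB2H3B2EzF) (C1 := coNFzA2AzE2B3H3BzIzB2H3B2EzF) topNFzA2AzE2B3H3BzIzB2H3B2EzF nbNFzA2AzE2B3H3BzIzB2H3B2EzF (BT.Fa_of_all iiNFzA2AzE2B3H3BzIzB2H3B2EzF_c)
    (cyE_spec zeNFzA2AzE2B3H3BzIzB2H3B2EzF_0)
    (cyO_spec zoNFzA2AzE2B3H3BzIzB2H3B2EzF_0)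
    iiNFzA2AzE2B3H3BzIzB2H3B2EzF_k

theorem iiNFzA2ByA3H2AzIzA2H3A2EzF_k : iiNFzA2ByA3H2AzIzA2H3A2EzF.Fa (Itm.ok 206) := (BT.Fa_mk (BT.Fa_mk (BT.Fa_mk (BT.Fa_mk (BT.Fa_mk (BT.Fa_mk (BT.Fa_mk (BT.Fa_leaf (P := Itm.ok 206) (iqf tpr5_c)) (BT.Fa_leaf (P := Itm.ok 206) (iqb tpr499_c))) (BT.Fa_mk (BT.Fa_leaf (P := Itm.ok 206) (iqf tpr259_c)) (BT.Fa_leaf (P := Itm.ok 206) (iqb tpr500_c)))) (BT.Fa_mk (BT.Fa_mk (BT.Fa_leaf (P := Itm.ok 206) (iqf tpr500_c)) (BT.Fa_leaf (P := Itm.ok 206) (iqf tpr8_c))) (BT.Fa_leaf (P := Itm.ok 206) (iqb tpr2494_c)))) (BT.Fa_mk (BT.Fa_mk (BT.Fa_mk (BT.Fa_leaf (P := Itm.ok 206) (iqb tpr557_c)) (BT.Fa_leaf (P := Itm.ok 206) (iqf tpr609_c))) (BT.Fa_mk (BT.Fa_leaf (P := Itm.ok 206) (iqf tpr562_c)) (BT.Fa_leaf (P := Itm.ok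 206) (iqb tpr1681_c)))) (BT.Fa_mk (BT.Fa_mk (BT.Fa_leaf (P := Itm.ok 206) (iqf tpr110_c)) (BT.Fa_leaf (P := Itm.ok 206) (iqb tpr579_c))) (BT.Fa_leaf (P := Itm.ok 206) (iqb tpr1233_c))))) (BT.Fa_mk (BT.Fa_mk (BT.Fa_mk (BT.Fa_mk (BT.Fa_leaf (P := Itm.ok 206) (iqf tpr572_c)) (BT.Fa_leaf (P := Itm.ok 206) (iqb tpr606_c))) (BT.Fa_mk (BT.Fa_leaf (P := Itm.ok 206) (iqb tpr623_c)) (BT.Fa_leaf (P := Itm.ok 206) (iqf tpr734_c)))) (BT.Fa_mk (BT.Fa_mk (BT.Fa_leaf (P := Itm.ok 206) (iqf tpr573_c)) (BT.Fa_leaf (P := Itm.ok 206) (iqb tpr236_c))) (BT.Fa_leaf (P := Itm.ok 206) (iqf tpr1264_c)))) (BT.Fa_mk (BT.Fa_mk (BT.Fa_mk (BT.Fa_leaf (P := Itm.ok 206) (iqf tpr585_c)) (BT.Fa_leaf (P := Itm.ok 206) (iqf tpr1730_c))) (BT.Fa_mk (BT.Fa_leaf (P := Itm.ok 206)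 (iqb tpr508_c)) (BT.Fa_leaf (P := Itm.ok 206) (iqb tpr978_c)))) (BT.Fa_mk (BT.Fa_mk (BT.Fa_leaf (P := Itm.ok 206) (iqb tpr626_c)) (BT.Fa_leaf (P := Itm.ok 206) (iqb tpr2031_c))) (BT.Fa_leaf (P := Itm.ok 206) (iqf tpr1735_c)))))) (BT.Fa_mk (BT.Fa_mk (BT.Fa_mk (BT.Fa_mk (BT.Fa_mk (BT.Fa_leaf (P := Itm.ok 206) (iqb tpr545_c)) (BT.Fa_leaf (P := Itm.ok 206) (iqf tpr1094_c))) (BT.Fa_mk (BT.Fa_leaf (P := Itm.ok 206) (iqb tpr1258_c)) (BT.Fa_leaf (P := Itm.ok 206) (iqb tpr533_c)))) (BT.Fa_mk (BT.Fa_mk (BT.Fa_leaf (P := Itm.ok 206) (iqb tpr529_c)) (BT.Fa_leaf (P := Itm.ok 206) (iqf tpr570_c))) (BT.Fa_leaf (P := Itm.ok 206) (iqb tpr659_c)))) (BT.Fa_mk (BT.Fa_mk (BT.Fa_mk (BT.Fa_leaf (P := Itm.ok 206) (iqf tpr168_c)) (BT.Fa_leaf (P := Itm.ok 206) (iqf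 tpr12_c))) (BT.Fa_mk (BT.Fa_leaf (P := Itm.ok 206) (iqb tpr281_c)) (BT.Fa_leaf (P := Itm.ok 206) (iqf tpr665_c)))) (BT.Fa_mk (BT.Fa_mk (BT.Fa_leaf (P := Itm.ok 206) (iqb tpr564_c)) (BT.Fa_leaf (P := Itm.ok 206) (iqf tpr186_c))) (BT.Fa_leaf (P := Itm.ok 206) (iqb tpr640_c))))) (BT.Fa_mk (BT.Fa_mk (BT.Fa_mk (BT.Fa_mk (BT.Fa_leaf (P := Itm.ok 206) (iqb tpr1633_c)) (BT.Fa_leaf (P := Itm.ok 206) (iqb tpr238_c))) (BT.Fa_mk (BT.Fa_leaf (P := Itm.ok 206) (iqf tpr501_c)) (BT.Fa_leaf (P := Itm.ok 206) (iqb tpr188_c)))) (BT.Fa_mk (BT.Fa_mk (BT.Fa_leaf (P := Itm.ok 206) (iqf tpr656_c)) (BT.Fa_leaf (P := Itm.ok 206) (iqf tpr616_c))) (BT.Fa_leaf (P := Itm.ok 206) (iqb tpr72_c)))) (BT.Fa_mk (BT.Fa_mk (BT.Fa_mk (BT.Fa_leaf (P := Itm.ok 206) (iqb tpr677_c))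 (BT.Fa_leaf (P := Itm.ok 206) (iqb tpr761_c))) (BT.Fa_mk (BT.Fa_leaf (P := Itm.ok 206) (iqf tpr525_c)) (BT.Fa_leaf (P := Itm.ok 206) (iqb tpr788_c)))) (BT.Fa_mk (BT.Fa_mk (BT.Fa_leaf (P := Itm.ok 206) (iqf tpr54_c)) (BT.Fa_leaf (P := Itm.ok 206) (iqf tpr780_c))) (BT.Fa_leaf (P := Itm.ok 206) (iqb tpr589_c))))))) (BT.Fa_mk (BT.Fa_mk (BT.Fa_mk (BT.Fa_mk (BT.Fa_mk (BT.Fa_mk (BT.Fa_leaf (P := Itm.ok 206) (iqf tpr46_c)) (BT.Fa_leaf (P := Itm.ok 206) (iqb tpr10_c))) (BT.Fa_mk (BT.Fa_leaf (P := Itm.ok 206) (iqf tpr1126_c)) (BT.Fa_leaf (P := Itm.ok 206) (iqf tpr316_c)))) (BT.Fa_mk (BT.Fa_mk (BT.Fa_leaf (P := Itm.ok 206) (iqb tpr2540_c)) (BT.Fa_leaf (P := Itm.ok 206) (iqb tpr528_c))) (BT.Fa_leaf (P := Itm.ok 206) (iqb tpr51_c)))) (BT.Fa_mk (BT.Fa_mk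 (BT.Fa_mk (BT.Fa_leaf (P := Itm.ok 206) (iqf tpr9_c)) (BT.Fa_leaf (P := Itm.ok 206) (iqb tpr259_c))) (BT.Fa_mk (BT.Fa_leaf (P := Itm.ok 206) (iqf tpr499_c)) (BT.Fa_leaf (P := Itm.ok 206) (iqf tpr103_c)))) (BT.Fa_mk (BT.Fa_mk (BT.Fa_leaf (P := Itm.ok 206) (iqf tpr953_c)) (BT.Fa_leaf (P := Itm.ok 206) (iqf tpr1742_c))) (BT.Fa_leaf (P := Itm.ok 206) (iqf tpr419_c))))) (BT.Fa_mk (BT.Fa_mk (BT.Fa_mk (BT.Fa_mk (BT.Fa_leaf (P := Itm.ok 206) (iqf tpr10_c)) (BT.Fa_leaf (P := Itm.ok 206) (iqb tpr511_c))) (BT.Fa_mk (BT.Fa_leaf (P := Itm.ok 206) (iqb tpr507_c)) (BT.Fa_leaf (P := Itm.ok 206) (iqb tpr509_c)))) (BT.Fa_mk (BT.Fa_mk (BT.Fa_leaf (P := Itm.ok 206) (iqb tpr519_c)) (BT.Fa_leaf (P := Itm.ok 206) (iqf tpr1633_c))) (BT.Fa_leaf (P := Itm.ok 206)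 (iqf tpr982_c)))) (BT.Fa_mk (BT.Fa_mk (BT.Fa_mk (BT.Fa_leaf (P := Itm.ok 206) (iqb tpr1257_c)) (BT.Fa_leaf (P := Itm.ok 206) (iqb tpr725_c))) (BT.Fa_mk (BT.Fa_leaf (P := Itm.ok 206) (iqb tpr1829_c)) (BT.Fa_leaf (P := Itm.ok 206) (iqb tpr151_c)))) (BT.Fa_mk (BT.Fa_mk (BT.Fa_leaf (P := Itm.ok 206) (iqf tpr721_c)) (BT.Fa_leaf (P := Itm.ok 206) (iqf tpr658_c))) (BT.Fa_leaf (P := Itm.ok 206) (iqf tpr622_c)))))) (BT.Fa_mk (BT.Fa_mk (BT.Fa_mk (BT.Fa_mk (BT.Fa_mk (BT.Fa_leaf (P := Itm.ok 206) (iqf tpr640_c)) (BT.Fa_leaf (P := Itm.ok 206) (iqb tpr54_c))) (BT.Fa_mk (BT.Fa_leaf (P := Itm.ok 206) (iqb tpr782_c)) (BT.Fa_leaf (P := Itm.ok 206) (iqf tpr2029_c)))) (BT.Fa_mk (BT.Fa_mk (BT.Fa_leaf (P := Itm.ok 206) (iqf tpr323_c)) (BT.Fa_leaf (P := Itm.ok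 206) (iqf tpr18_c))) (BT.Fa_leaf (P := Itm.ok 206) (iqf tpr236_c)))) (BT.Fa_mk (BT.Fa_mk (BT.Fa_mk (BT.Fa_leaf (P := Itm.ok 206) (iqf tpr1681_c)) (BT.Fa_leaf (P := Itm.ok 206) (iqf tpr625_c))) (BT.Fa_mk (BT.Fa_leaf (P := Itm.ok 206) (iqf tpr16_c)) (BT.Fa_leaf (P := Itm.ok 206) (iqb tpr78_c)))) (BT.Fa_mk (BT.Fa_mk (BT.Fa_leaf (P := Itm.ok 206) (iqb tpr81_c)) (BT.Fa_leaf (P := Itm.ok 206) (iqb tpr87_c))) (BT.Fa_leaf (P := Itm.ok 206) (iqf tpr26_c))))) (BT.Fa_mk (BT.Fa_mk (BT.Fa_mk (BT.Fa_mk (BT.Fa_leaf (P := Itm.ok 206) (iqf tpr587_c)) (BT.Fa_leaf (P := Itm.ok 206) (iqf tpr474_c))) (BT.Fa_mk (BT.Fa_leaf (P := Itm.ok 206) (iqb tpr124_c)) (BT.Fa_leaf (P := Itm.ok 206) (iqb tpr630_c)))) (BT.Fa_mk (BT.Fa_mk (BT.Fa_leaf (P := Itm.ok 206) (iqb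 tpr458_c)) (BT.Fa_leaf (P := Itm.ok 206) (iqb tpr730_c))) (BT.Fa_leaf (P := Itm.ok 206) (iqf tpr556_c)))) (BT.Fa_mk (BT.Fa_mk (BT.Fa_mk (BT.Fa_leaf (P := Itm.ok 206) (iqf tpr48_c)) (BT.Fa_leaf (P := Itm.ok 206) (iqb tpr768_c))) (BT.Fa_leaf (P := Itm.ok 206) (iqb tpr504_c))) (BT.Fa_mk (BT.Fa_mk (BT.Fa_leaf (P := Itm.ok 206) (iqf tpr931_c)) (BT.Fa_leaf (P := Itm.ok 206) (iqf tpr548_c))) (BT.Fa_leaf (P := Itm.ok 206) (iqf tpr972_c))))))))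

/-- all words of the class have labels -/
theorem pokNFzA2ByA3H2AzIzA2H3A2EzF : POK 206 xNFzA2ByA3H2AzIzA2H3A2EzF :=
  y_pok (C0 := ceNFzA2ByA3H2AzIzA2H3A2EzF) (C1 := coNFzA2ByA3H2AzIzA2H3A2EzF) topNFzA2ByA3H2AzIzA2H3A2EzF nbNFzA2ByA3H2AzIzA2H3A2EzF (BT.Fa_of_all iiNFzA2ByA3H2AzIzA2H3A2EzF_c)
    (cyE_spec zeNFzA2ByA3H2AzIzA2H3A2EzF_0)
    (cyO_spec zoNFzA2ByA3H2AzIzA2H3A2EzF_0)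
    iiNFzA2ByA3H2AzIzA2H3A2EzF_k

theorem iiNFzA2E2ByA3H2AzIzA2H3A2EzAyBzF_k : iiNFzA2E2ByA3H2AzIzA2H3A2EzAyBzF.Fa (Itm.ok 206) := (BT.Fa_mk (BT.Fa_mk (BT.Fa_mk (BT.Fa_mk (BT.Fa_mk (BT.Fa_mk (BT.Fa_mk (BT.Fa_mk (BT.Fa_leaf (P := Itm.ok 206) (iqf tpr5_c)) (BT.Fa_leaf (P := Itm.ok 206) (iqb tpr500_c))) (BT.Fa_leaf (P := Itm.ok 206) (iqf tpr500_c))) (BT.Fa_mk (BT.Fa_mk (BT.Fa_leaf (P := Itm.ok 206) (iqb tpr10_c)) (BT.Fa_leaf (P := Itm.ok 206) (iqb tpr1233_c))) (BT.Fa_leaf (P := Itm.ok 206) (iqf tpr51_c)))) (BT.Fa_mk (BT.Fa_mk (BT.Fa_mk (BT.Fa_leaf (P := Itm.ok 206) (iqf tpr4_c)) (BT.Fa_leaf (P := Itm.ok 206) (iqb tpr583_c))) (BT.Fa_leaf (P := Itm.ok 206) (iqf tpr499_c))) (BT.Fa_mk (BT.Fa_mk (BT.Fa_leaf (P := Itm.ok 206) (iqb tpr499_c)) (BT.Fa_leaf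 (P := Itm.ok 206) (iqf tpr2024_c))) (BT.Fa_leaf (P := Itm.ok 206) (iqb tpr547_c))))) (BT.Fa_mk (BT.Fa_mk (BT.Fa_mk (BT.Fa_mk (BT.Fa_leaf (P := Itm.ok 206) (iqb tpr508_c)) (BT.Fa_leaf (P := Itm.ok 206) (iqb tpr48_c))) (BT.Fa_leaf (P := Itm.ok 206) (iqb tpr677_c))) (BT.Fa_mk (BT.Fa_mk (BT.Fa_leaf (P := Itm.ok 206) (iqb tpr113_c)) (BT.Fa_leaf (P := Itm.ok 206) (iqf tpr1325_c))) (BT.Fa_leaf (P := Itm.ok 206) (iqf tpr32_c)))) (BT.Fa_mk (BT.Fa_mk (BT.Fa_mk (BT.Fa_leaf (P := Itm.ok 206) (iqf tpr526_c)) (BT.Fa_leaf (P := Itm.ok 206) (iqf tpr1359_c))) (BT.Fa_leaf (P := Itm.ok 206) (iqf tpr1320_c))) (BT.Fa_mk (BT.Fa_leaf (P := Itm.ok 206) (iqf tpr111_c)) (BT.Fa_leaf (P := Itm.ok 206) (iqf tpr596_c)))))) (BT.Fa_mk (BT.Fa_mk (BT.Fa_mk (BT.Fa_mk (BT.Fa_mk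 (BT.Fa_leaf (P := Itm.ok 206) (iqf tpr2404_c)) (BT.Fa_leaf (P := Itm.ok 206) (iqf tpr1305_c))) (BT.Fa_leaf (P := Itm.ok 206) (iqb tpr2099_c))) (BT.Fa_mk (BT.Fa_mk (BT.Fa_leaf (P := Itm.ok 206) (iqf tpr931_c)) (BT.Fa_leaf (P := Itm.ok 206) (iqb tpr188_c))) (BT.Fa_leaf (P := Itm.ok 206) (iqf tpr456_c)))) (BT.Fa_mk (BT.Fa_mk (BT.Fa_mk (BT.Fa_leaf (P := Itm.ok 206) (iqf tpr541_c)) (BT.Fa_leaf (P := Itm.ok 206) (iqf tpr642_c))) (BT.Fa_leaf (P := Itm.ok 206) (iqb tpr582_c))) (BT.Fa_mk (BT.Fa_mk (BT.Fa_leaf (P := Itm.ok 206) (iqf tpr1730_c)) (BT.Fa_leaf (P := Itm.ok 206) (iqf tpr454_c))) (BT.Fa_leaf (P := Itm.ok 206) (iqb tpr748_c))))) (BT.Fa_mk (BT.Fa_mk (BT.Fa_mk (BT.Fa_mk (BT.Fa_leaf (P := Itm.ok 206) (iqf tpr479_c)) (BT.Fa_leaf (P := Itm.ok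 206) (iqf tpr1313_c))) (BT.Fa_leaf (P := Itm.ok 206) (iqb tpr607_c))) (BT.Fa_mk (BT.Fa_mk (BT.Fa_leaf (P := Itm.ok 206) (iqf tpr168_c)) (BT.Fa_leaf (P := Itm.ok 206) (iqb tpr1328_c))) (BT.Fa_leaf (P := Itm.ok 206) (iqf tpr465_c)))) (BT.Fa_mk (BT.Fa_mk (BT.Fa_mk (BT.Fa_leaf (P := Itm.ok 206) (iqf tpr186_c)) (BT.Fa_leaf (P := Itm.ok 206) (iqb tpr507_c))) (BT.Fa_leaf (P := Itm.ok 206) (iqb tpr477_c))) (BT.Fa_mk (BT.Fa_leaf (P := Itm.ok 206) (iqb tpr519_c)) (BT.Fa_leaf (P := Itm.ok 206) (iqb tpr556_c))))))) (BT.Fa_mk (BT.Fa_mk (BT.Fa_mk (BT.Fa_mk (BT.Fa_mk (BT.Fa_mk (BT.Fa_leaf (P := Itm.ok 206) (iqf tpr198_c)) (BT.Fa_leaf (P := Itm.ok 206) (iqf tpr940_c))) (BT.Fa_leaf (P := Itm.ok 206) (iqb tpr82_c))) (BT.Fa_mk (BT.Fa_mk (BT.Fa_leaf (P :=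 Itm.ok 206) (iqf tpr2567_c)) (BT.Fa_leaf (P := Itm.ok 206) (iqb tpr2095_c))) (BT.Fa_leaf (P := Itm.ok 206) (iqf tpr1355_c)))) (BT.Fa_mk (BT.Fa_mk (BT.Fa_mk (BT.Fa_leaf (P := Itm.ok 206) (iqf tpr139_c)) (BT.Fa_leaf (P := Itm.ok 206) (iqf tpr143_c))) (BT.Fa_leaf (P := Itm.ok 206) (iqf tpr485_c))) (BT.Fa_mk (BT.Fa_mk (BT.Fa_leaf (P := Itm.ok 206) (iqb tpr509_c)) (BT.Fa_leaf (P := Itm.ok 206) (iqf tpr1374_c))) (BT.Fa_leaf (P := Itm.ok 206) (iqf tpr1084_c))))) (BT.Fa_mk (BT.Fa_mk (BT.Fa_mk (BT.Fa_mk (BT.Fa_leaf (P := Itm.ok 206) (iqb tpr555_c)) (BT.Fa_leaf (P := Itm.ok 206) (iqf tpr1264_c))) (BT.Fa_leaf (P := Itm.ok 206) (iqf tpr692_c))) (BT.Fa_mk (BT.Fa_mk (BT.Fa_leaf (P := Itm.ok 206) (iqf tpr1010_c)) (BT.Fa_leaf (P := Itm.ok 206) (iqb tpr575_c)))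 (BT.Fa_leaf (P := Itm.ok 206) (iqf tpr515_c)))) (BT.Fa_mk (BT.Fa_mk (BT.Fa_mk (BT.Fa_leaf (P := Itm.ok 206) (iqf tpr583_c)) (BT.Fa_leaf (P := Itm.ok 206) (iqb tpr510_c))) (BT.Fa_leaf (P := Itm.ok 206) (iqb tpr2533_c))) (BT.Fa_mk (BT.Fa_leaf (P := Itm.ok 206) (iqb tpr54_c)) (BT.Fa_leaf (P := Itm.ok 206) (iqf tpr466_c)))))) (BT.Fa_mk (BT.Fa_mk (BT.Fa_mk (BT.Fa_mk (BT.Fa_mk (BT.Fa_leaf (P := Itm.ok 206) (iqb tpr11_c)) (BT.Fa_leaf (P := Itm.ok 206) (iqb tpr941_c))) (BT.Fa_leaf (P := Itm.ok 206) (iqf tpr2570_c))) (BT.Fa_mk (BT.Fa_mk (BT.Fa_leaf (P := Itm.ok 206) (iqb tpr588_c)) (BT.Fa_leaf (P := Itm.ok 206) (iqb tpr705_c))) (BT.Fa_leaf (P := Itm.ok 206) (iqb tpr2488_c)))) (BT.Fa_mk (BT.Fa_mk (BT.Fa_mk (BT.Fa_leaf (P := Itm.ok 206) (iqf tpr543_c))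 (BT.Fa_leaf (P := Itm.ok 206) (iqb tpr2568_c))) (BT.Fa_leaf (P := Itm.ok 206) (iqb tpr1736_c))) (BT.Fa_mk (BT.Fa_leaf (P := Itm.ok 206) (iqb tpr1370_c)) (BT.Fa_leaf (P := Itm.ok 206) (iqb tpr2573_c))))) (BT.Fa_mk (BT.Fa_mk (BT.Fa_mk (BT.Fa_mk (BT.Fa_leaf (P := Itm.ok 206) (iqb tpr1747_c)) (BT.Fa_leaf (P := Itm.ok 206) (iqb tpr2112_c))) (BT.Fa_leaf (P := Itm.ok 206) (iqb tpr526_c))) (BT.Fa_mk (BT.Fa_mk (BT.Fa_leaf (P := Itm.ok 206) (iqb tpr2519_c)) (BT.Fa_leaf (P := Itm.ok 206) (iqf tpr2093_c))) (BT.Fa_leaf (P := Itm.ok 206) (iqb tpr2575_c)))) (BT.Fa_mk (BT.Fa_mk (BT.Fa_mk (BT.Fa_leaf (P := Itm.ok 206) (iqb tpr812_c)) (BT.Fa_leaf (P := Itm.ok 206) (iqf tpr2464_c))) (BT.Fa_leaf (P := Itm.ok 206) (iqf tpr2092_c))) (BT.Fa_mk (BT.Fa_leaf (P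 := Itm.ok 206) (iqb tpr2569_c)) (BT.Fa_leaf (P := Itm.ok 206) (iqf tpr8_c)))))))) (BT.Fa_mk (BT.Fa_mk (BT.Fa_mk (BT.Fa_mk (BT.Fa_mk (BT.Fa_mk (BT.Fa_mk (BT.Fa_leaf (P := Itm.ok 206) (iqf tpr50_c)) (BT.Fa_leaf (P := Itm.ok 206) (iqb tpr506_c))) (BT.Fa_leaf (P := Itm.ok 206) (iqf tpr259_c))) (BT.Fa_mk (BT.Fa_mk (BT.Fa_leaf (P := Itm.ok 206) (iqf tpr562_c)) (BT.Fa_leaf (P := Itm.ok 206) (iqf tpr12_c))) (BT.Fa_leaf (P := Itm.ok 206) (iqb tpr517_c)))) (BT.Fa_mk (BT.Fa_mk (BT.Fa_mk (BT.Fa_leaf (P := Itm.ok 206) (iqf tpr46_c)) (BT.Fa_leaf (P := Itm.ok 206) (iqb tpr133_c))) (BT.Fa_leaf (P := Itm.ok 206) (iqb tpr761_c))) (BT.Fa_mk (BT.Fa_mk (BT.Fa_leaf (P := Itm.ok 206) (iqf tpr789_c)) (BT.Fa_leaf (P := Itm.ok 206) (iqf tpr803_c))) (BT.Fa_leaf (P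 := Itm.ok 206) (iqf tpr107_c))))) (BT.Fa_mk (BT.Fa_mk (BT.Fa_mk (BT.Fa_mk (BT.Fa_leaf (P := Itm.ok 206) (iqf tpr115_c)) (BT.Fa_leaf (P := Itm.ok 206) (iqf tpr216_c))) (BT.Fa_leaf (P := Itm.ok 206) (iqb tpr39_c))) (BT.Fa_mk (BT.Fa_mk (BT.Fa_leaf (P := Itm.ok 206) (iqf tpr1309_c)) (BT.Fa_leaf (P := Itm.ok 206) (iqf tpr92_c))) (BT.Fa_leaf (P := Itm.ok 206) (iqb tpr63_c)))) (BT.Fa_mk (BT.Fa_mk (BT.Fa_mk (BT.Fa_leaf (P := Itm.ok 206) (iqb tpr38_c)) (BT.Fa_leaf (P := Itm.ok 206) (iqb tpr21_c))) (BT.Fa_leaf (P := Itm.ok 206) (iqb tpr1371_c))) (BT.Fa_mk (BT.Fa_leaf (P := Itm.ok 206) (iqb tpr259_c)) (BT.Fa_leaf (P := Itm.ok 206) (iqb tpr645_c)))))) (BT.Fa_mk (BT.Fa_mk (BT.Fa_mk (BT.Fa_mk (BT.Fa_mk (BT.Fa_leaf (P := Itm.ok 206) (iqb tpr816_c)) (BT.Fa_leaf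 (P := Itm.ok 206) (iqf tpr2571_c))) (BT.Fa_leaf (P := Itm.ok 206) (iqf tpr780_c))) (BT.Fa_mk (BT.Fa_mk (BT.Fa_leaf (P := Itm.ok 206) (iqb tpr2518_c)) (BT.Fa_leaf (P := Itm.ok 206) (iqb tpr782_c))) (BT.Fa_leaf (P := Itm.ok 206) (iqb tpr144_c)))) (BT.Fa_mk (BT.Fa_mk (BT.Fa_mk (BT.Fa_leaf (P := Itm.ok 206) (iqb tpr1562_c)) (BT.Fa_leaf (P := Itm.ok 206) (iqf tpr656_c))) (BT.Fa_leaf (P := Itm.ok 206) (iqb tpr789_c))) (BT.Fa_mk (BT.Fa_mk (BT.Fa_leaf (P := Itm.ok 206) (iqb tpr2031_c)) (BT.Fa_leaf (P := Itm.ok 206) (iqb tpr2096_c))) (BT.Fa_leaf (P := Itm.ok 206) (iqf tpr10_c))))) (BT.Fa_mk (BT.Fa_mk (BT.Fa_mk (BT.Fa_mk (BT.Fa_leaf (P := Itm.ok 206) (iqb tpr606_c)) (BT.Fa_leaf (P := Itm.ok 206) (iqb tpr295_c))) (BT.Fa_leaf (P := Itm.ok 206) (iqb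 tpr1193_c))) (BT.Fa_mk (BT.Fa_mk (BT.Fa_leaf (P := Itm.ok 206) (iqb tpr518_c)) (BT.Fa_leaf (P := Itm.ok 206) (iqb tpr247_c))) (BT.Fa_leaf (P := Itm.ok 206) (iqb tpr975_c)))) (BT.Fa_mk (BT.Fa_mk (BT.Fa_mk (BT.Fa_leaf (P := Itm.ok 206) (iqf tpr239_c)) (BT.Fa_leaf (P := Itm.ok 206) (iqb tpr612_c))) (BT.Fa_leaf (P := Itm.ok 206) (iqb tpr627_c))) (BT.Fa_mk (BT.Fa_leaf (P := Itm.ok 206) (iqb tpr502_c)) (BT.Fa_leaf (P := Itm.ok 206) (iqf tpr503_c))))))) (BT.Fa_mk (BT.Fa_mk (BT.Fa_mk (BT.Fa_mk (BT.Fa_mk (BT.Fa_mk (BT.Fa_leaf (P := Itm.ok 206) (iqf tpr576_c)) (BT.Fa_leaf (P := Itm.ok 206) (iqb tpr203_c))) (BT.Fa_leaf (P := Itm.ok 206) (iqb tpr545_c))) (BT.Fa_mk (BT.Fa_mk (BT.Fa_leaf (P := Itm.ok 206) (iqb tpr541_c)) (BT.Fa_leaf (P := Itm.ok 206)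 (iqb tpr223_c))) (BT.Fa_leaf (P := Itm.ok 206) (iqf tpr590_c)))) (BT.Fa_mk (BT.Fa_mk (BT.Fa_mk (BT.Fa_leaf (P := Itm.ok 206) (iqf tpr520_c)) (BT.Fa_leaf (P := Itm.ok 206) (iqf tpr953_c))) (BT.Fa_leaf (P := Itm.ok 206) (iqb tpr528_c))) (BT.Fa_mk (BT.Fa_mk (BT.Fa_leaf (P := Itm.ok 206) (iqf tpr616_c)) (BT.Fa_leaf (P := Itm.ok 206) (iqb tpr682_c))) (BT.Fa_leaf (P := Itm.ok 206) (iqf tpr559_c))))) (BT.Fa_mk (BT.Fa_mk (BT.Fa_mk (BT.Fa_mk (BT.Fa_leaf (P := Itm.ok 206) (iqb tpr581_c)) (BT.Fa_leaf (P := Itm.ok 206) (iqf tpr679_c))) (BT.Fa_leaf (P := Itm.ok 206) (iqf tpr2027_c))) (BT.Fa_mk (BT.Fa_mk (BT.Fa_leaf (P := Itm.ok 206) (iqb tpr577_c)) (BT.Fa_leaf (P := Itm.ok 206) (iqb tpr1028_c))) (BT.Fa_leaf (P := Itm.ok 206) (iqf tpr2026_c)))) (BT.Fa_mk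 (BT.Fa_mk (BT.Fa_mk (BT.Fa_leaf (P := Itm.ok 206) (iqf tpr507_c)) (BT.Fa_leaf (P := Itm.ok 206) (iqf tpr514_c))) (BT.Fa_leaf (P := Itm.ok 206) (iqb tpr626_c))) (BT.Fa_mk (BT.Fa_leaf (P := Itm.ok 206) (iqb tpr1789_c)) (BT.Fa_leaf (P := Itm.ok 206) (iqf tpr2576_c)))))) (BT.Fa_mk (BT.Fa_mk (BT.Fa_mk (BT.Fa_mk (BT.Fa_mk (BT.Fa_leaf (P := Itm.ok 206) (iqb tpr1839_c)) (BT.Fa_leaf (P := Itm.ok 206) (iqb tpr725_c))) (BT.Fa_leaf (P := Itm.ok 206) (iqf tpr627_c))) (BT.Fa_mk (BT.Fa_mk (BT.Fa_leaf (P := Itm.ok 206) (iqf tpr968_c)) (BT.Fa_leaf (P := Itm.ok 206) (iqb tpr239_c))) (BT.Fa_leaf (P := Itm.ok 206) (iqb tpr513_c)))) (BT.Fa_mk (BT.Fa_mk (BT.Fa_mk (BT.Fa_leaf (P := Itm.ok 206) (iqb tpr2572_c)) (BT.Fa_leaf (P := Itm.ok 206) (iqb tpr72_c))) (BT.Fa_leaf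 (P := Itm.ok 206) (iqb tpr815_c))) (BT.Fa_mk (BT.Fa_leaf (P := Itm.ok 206) (iqf tpr1311_c)) (BT.Fa_leaf (P := Itm.ok 206) (iqb tpr90_c))))) (BT.Fa_mk (BT.Fa_mk (BT.Fa_mk (BT.Fa_mk (BT.Fa_leaf (P := Itm.ok 206) (iqb tpr640_c)) (BT.Fa_leaf (P := Itm.ok 206) (iqf tpr977_c))) (BT.Fa_leaf (P := Itm.ok 206) (iqb tpr2025_c))) (BT.Fa_mk (BT.Fa_mk (BT.Fa_leaf (P := Itm.ok 206) (iqb tpr2539_c)) (BT.Fa_leaf (P := Itm.ok 206) (iqb tpr939_c))) (BT.Fa_leaf (P := Itm.ok 206) (iqf tpr518_c)))) (BT.Fa_mk (BT.Fa_mk (BT.Fa_mk (BT.Fa_leaf (P := Itm.ok 206) (iqb tpr1029_c)) (BT.Fa_leaf (P := Itm.ok 206) (iqf tpr568_c))) (BT.Fa_leaf (P := Itm.ok 206) (iqf tpr1538_c))) (BT.Fa_mk (BT.Fa_leaf (P := Itm.ok 206) (iqf tpr295_c)) (BT.Fa_leaf (P := Itm.ok 206) (iqf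 tpr517_c)))))))))

/-- all words of the class have labels -/
theorem pokNFzA2E2ByA3H2AzIzA2H3A2EzAyBzF : POK 206 xNFzA2E2ByA3H2AzIzA2H3A2EzAyBzF :=
  y_pok (C0 := ceNFzA2E2ByA3H2AzIzA2H3A2EzAyBzF) (C1 := coNFzA2E2ByA3H2AzIzA2H3A2EzAyBzF) topNFzA2E2ByA3H2AzIzA2H3A2EzAyBzF nbNFzA2E2ByA3H2AzIzA2H3A2EzAyBzF (BT.Fa_of_all iiNFzA2E2ByA3H2AzIzA2H3A2EzAyBzF_c)
    (BT.Fa_mk (cyE_spec zeNFzA2E2ByA3H2AzIzA2H3A2EzAyBzF_0) (BT.Fa_mk (cyE_spec zeNFzA2E2ByA3H2AzIzA2H3A2EzAyBzF_1) (cyE_spec zeNFzA2E2ByA3H2AzIzA2H3A2EzAyBzF_2)))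
    (BT.Fa_mk (cyO_spec zoNFzA2E2ByA3H2AzIzA2H3A2EzAyBzF_0) (BT.Fa_mk (cyO_spec zoNFzA2E2ByA3H2AzIzA2H3A2EzAyBzF_1) (cyO_spec zoNFzA2E2ByA3H2AzIzA2H3A2EzAyBzF_2)))
    iiNFzA2E2ByA3H2AzIzA2H3A2EzAyBzF_k

theorem iiNFzA2E2ByA3H2AzIzAyB2H3A2E2AzAyBzF_k : iiNFzA2E2ByA3H2AzIzAyB2H3A2E2AzAyBzF.Fa (Itm.ok 206) := (BT.Fa_mk (BT.Fa_mk (BT.Fa_mk (BT.Fa_mk (BT.Fa_mk (BT.Fa_mk (BT.Fa_mk (BT.Fa_mk (BT.Fa_leaf (P := Itm.ok 206) (iqf tpr5_c)) (BT.Fa_leaf (P := Itm.ok 206) (iqf tpr4_c))) (BT.Fa_leaf (P := Itm.ok 206) (iqf tpr789_c))) (BT.Fa_mk (BT.Fa_mk (BT.Fa_leaf (P := Itm.ok 206) (iqb tpr789_c)) (BT.Fa_leaf (P := Itm.ok 206) (iqf tpr168_c))) (BT.Fa_leaf (P := Itm.ok 206) (iqb tpr240_c)))) (BT.Fa_mk (BT.Fa_mk (BT.Fa_mk (BT.Fa_leaf (P := Itm.ok 206)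 (iqb tpr8_c)) (BT.Fa_leaf (P := Itm.ok 206) (iqf tpr526_c))) (BT.Fa_leaf (P := Itm.ok 206) (iqb tpr11_c))) (BT.Fa_mk (BT.Fa_leaf (P := Itm.ok 206) (iqf tpr500_c)) (BT.Fa_leaf (P := Itm.ok 206) (iqf tpr1320_c))))) (BT.Fa_mk (BT.Fa_mk (BT.Fa_mk (BT.Fa_mk (BT.Fa_leaf (P := Itm.ok 206) (iqf tpr466_c)) (BT.Fa_leaf (P := Itm.ok 206) (iqb tpr583_c))) (BT.Fa_leaf (P := Itm.ok 206) (iqf tpr642_c))) (BT.Fa_mk (BT.Fa_leaf (P := Itm.ok 206) (iqf tpr559_c)) (BT.Fa_leaf (P := Itm.ok 206) (iqf tpr464_c)))) (BT.Fa_mk (BT.Fa_mk (BT.Fa_mk (BT.Fa_leaf (P := Itm.ok 206) (iqb tpr815_c)) (BT.Fa_leaf (P := Itm.ok 206) (iqf tpr2918_c))) (BT.Fa_leaf (P := Itm.ok 206) (iqb tpr188_c))) (BT.Fa_mk (BT.Fa_leaf (P := Itm.ok 206) (iqb tpr575_c)) (BT.Fa_leaf (P := Itm.ok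 206) (iqf tpr186_c)))))) (BT.Fa_mk (BT.Fa_mk (BT.Fa_mk (BT.Fa_mk (BT.Fa_mk (BT.Fa_leaf (P := Itm.ok 206) (iqf tpr1359_c)) (BT.Fa_leaf (P := Itm.ok 206) (iqb tpr640_c))) (BT.Fa_leaf (P := Itm.ok 206) (iqb tpr1233_c))) (BT.Fa_mk (BT.Fa_mk (BT.Fa_leaf (P := Itm.ok 206) (iqb tpr239_c)) (BT.Fa_leaf (P := Itm.ok 206) (iqf tpr110_c))) (BT.Fa_leaf (P := Itm.ok 206) (iqf tpr2567_c)))) (BT.Fa_mk (BT.Fa_mk (BT.Fa_mk (BT.Fa_leaf (P := Itm.ok 206) (iqb tpr556_c)) (BT.Fa_leaf (P := Itm.ok 206) (iqb tpr2099_c))) (BT.Fa_leaf (P := Itm.ok 206) (iqb tpr2533_c))) (BT.Fa_mk (BT.Fa_leaf (P := Itm.ok 206) (iqb tpr941_c)) (BT.Fa_leaf (P := Itm.ok 206) (iqb tpr555_c))))) (BT.Fa_mk (BT.Fa_mk (BT.Fa_mk (BT.Fa_mk (BT.Fa_leaf (P := Itm.ok 206) (iqb tpr682_c)) (BT.Fa_leaf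 (P := Itm.ok 206) (iqb tpr577_c))) (BT.Fa_leaf (P := Itm.ok 206) (iqf tpr1264_c))) (BT.Fa_mk (BT.Fa_leaf (P := Itm.ok 206) (iqf tpr1111_c)) (BT.Fa_leaf (P := Itm.ok 206) (iqb tpr2568_c)))) (BT.Fa_mk (BT.Fa_mk (BT.Fa_mk (BT.Fa_leaf (P := Itm.ok 206) (iqb tpr1193_c)) (BT.Fa_leaf (P := Itm.ok 206) (iqf tpr692_c))) (BT.Fa_leaf (P := Itm.ok 206) (iqf tpr2093_c))) (BT.Fa_mk (BT.Fa_leaf (P := Itm.ok 206) (iqb tpr975_c)) (BT.Fa_leaf (P := Itm.ok 206) (iqf tpr541_c))))))) (BT.Fa_mk (BT.Fa_mk (BT.Fa_mk (BT.Fa_mk (BT.Fa_mk (BT.Fa_mk (BT.Fa_leaf (P := Itm.ok 206) (iqf tpr2092_c)) (BT.Fa_leaf (P := Itm.ok 206) (iqb tpr1738_c))) (BT.Fa_leaf (P := Itm.ok 206) (iqb tpr1747_c))) (BT.Fa_mk (BT.Fa_mk (BT.Fa_leaf (P := Itm.ok 206) (iqb tpr1845_c)) (BT.Fa_leaf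 (P := Itm.ok 206) (iqf tpr2570_c))) (BT.Fa_leaf (P := Itm.ok 206) (iqf tpr2576_c)))) (BT.Fa_mk (BT.Fa_mk (BT.Fa_mk (BT.Fa_leaf (P := Itm.ok 206) (iqb tpr824_c)) (BT.Fa_leaf (P := Itm.ok 206) (iqb tpr1842_c))) (BT.Fa_leaf (P := Itm.ok 206) (iqf tpr2464_c))) (BT.Fa_mk (BT.Fa_leaf (P := Itm.ok 206) (iqb tpr623_c)) (BT.Fa_leaf (P := Itm.ok 206) (iqb tpr1841_c))))) (BT.Fa_mk (BT.Fa_mk (BT.Fa_mk (BT.Fa_mk (BT.Fa_leaf (P := Itm.ok 206) (iqb tpr10_c)) (BT.Fa_leaf (P := Itm.ok 206) (iqf tpr12_c))) (BT.Fa_leaf (P := Itm.ok 206) (iqf tpr51_c))) (BT.Fa_mk (BT.Fa_leaf (P := Itm.ok 206) (iqb tpr782_c)) (BT.Fa_leaf (P := Itm.ok 206) (iqb tpr144_c)))) (BT.Fa_mk (BT.Fa_mk (BT.Fa_mk (BT.Fa_leaf (P := Itm.ok 206) (iqb tpr48_c)) (BT.Fa_leaf (P := Itm.ok 206)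 (iqb tpr761_c))) (BT.Fa_leaf (P := Itm.ok 206) (iqf tpr940_c))) (BT.Fa_mk (BT.Fa_leaf (P := Itm.ok 206) (iqf tpr143_c)) (BT.Fa_leaf (P := Itm.ok 206) (iqf tpr32_c)))))) (BT.Fa_mk (BT.Fa_mk (BT.Fa_mk (BT.Fa_mk (BT.Fa_mk (BT.Fa_leaf (P := Itm.ok 206) (iqb tpr1232_c)) (BT.Fa_leaf (P := Itm.ok 206) (iqf tpr139_c))) (BT.Fa_leaf (P := Itm.ok 206) (iqf tpr50_c))) (BT.Fa_mk (BT.Fa_mk (BT.Fa_leaf (P := Itm.ok 206) (iqb tpr499_c)) (BT.Fa_leaf (P := Itm.ok 206) (iqb tpr2539_c))) (BT.Fa_leaf (P := Itm.ok 206) (iqf tpr931_c)))) (BT.Fa_mk (BT.Fa_mk (BT.Fa_mk (BT.Fa_leaf (P := Itm.ok 206) (iqf tpr814_c)) (BT.Fa_leaf (P := Itm.ok 206) (iqb tpr1328_c))) (BT.Fa_leaf (P := Itm.ok 206) (iqf tpr216_c))) (BT.Fa_mk (BT.Fa_leaf (P := Itm.ok 206) (iqb tpr1017_c))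 (BT.Fa_leaf (P := Itm.ok 206) (iqf tpr92_c))))) (BT.Fa_mk (BT.Fa_mk (BT.Fa_mk (BT.Fa_mk (BT.Fa_leaf (P := Itm.ok 206) (iqf tpr1355_c)) (BT.Fa_leaf (P := Itm.ok 206) (iqf tpr89_c))) (BT.Fa_leaf (P := Itm.ok 206) (iqb tpr39_c))) (BT.Fa_mk (BT.Fa_leaf (P := Itm.ok 206) (iqb tpr547_c)) (BT.Fa_leaf (P := Itm.ok 206) (iqb tpr582_c)))) (BT.Fa_mk (BT.Fa_mk (BT.Fa_mk (BT.Fa_leaf (P := Itm.ok 206) (iqf tpr2404_c)) (BT.Fa_leaf (P := Itm.ok 206) (iqf tpr1309_c))) (BT.Fa_leaf (P := Itm.ok 206) (iqf tpr1325_c))) (BT.Fa_mk (BT.Fa_leaf (P := Itm.ok 206) (iqb tpr953_c)) (BT.Fa_leaf (P := Itm.ok 206) (iqf tpr1305_c)))))))) (BT.Fa_mk (BT.Fa_mk (BT.Fa_mk (BT.Fa_mk (BT.Fa_mk (BT.Fa_mk (BT.Fa_mk (BT.Fa_leaf (P := Itm.ok 206) (iqb tpr21_c)) (BT.Fa_leaf (P :=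 Itm.ok 206) (iqf tpr568_c))) (BT.Fa_leaf (P := Itm.ok 206) (iqb tpr506_c))) (BT.Fa_mk (BT.Fa_mk (BT.Fa_leaf (P := Itm.ok 206) (iqf tpr617_c)) (BT.Fa_leaf (P := Itm.ok 206) (iqf tpr614_c))) (BT.Fa_leaf (P := Itm.ok 206) (iqb tpr9_c)))) (BT.Fa_mk (BT.Fa_mk (BT.Fa_mk (BT.Fa_leaf (P := Itm.ok 206) (iqb tpr2808_c)) (BT.Fa_leaf (P := Itm.ok 206) (iqb tpr542_c))) (BT.Fa_leaf (P := Itm.ok 206) (iqf tpr947_c))) (BT.Fa_mk (BT.Fa_leaf (P := Itm.ok 206) (iqb tpr1053_c)) (BT.Fa_leaf (P := Itm.ok 206) (iqf tpr543_c))))) (BT.Fa_mk (BT.Fa_mk (BT.Fa_mk (BT.Fa_mk (BT.Fa_leaf (P := Itm.ok 206) (iqb tpr106_c)) (BT.Fa_leaf (P := Itm.ok 206) (iqb tpr677_c))) (BT.Fa_leaf (P := Itm.ok 206) (iqf tpr583_c))) (BT.Fa_mk (BT.Fa_leaf (P := Itm.ok 206) (iqf tpr210_c))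 (BT.Fa_leaf (P := Itm.ok 206) (iqb tpr812_c)))) (BT.Fa_mk (BT.Fa_mk (BT.Fa_mk (BT.Fa_leaf (P := Itm.ok 206) (iqf tpr147_c)) (BT.Fa_leaf (P := Itm.ok 206) (iqb tpr816_c))) (BT.Fa_leaf (P := Itm.ok 206) (iqf tpr2094_c))) (BT.Fa_mk (BT.Fa_leaf (P := Itm.ok 206) (iqf tpr596_c)) (BT.Fa_leaf (P := Itm.ok 206) (iqb tpr2095_c)))))) (BT.Fa_mk (BT.Fa_mk (BT.Fa_mk (BT.Fa_mk (BT.Fa_mk (BT.Fa_leaf (P := Itm.ok 206) (iqf tpr1344_c)) (BT.Fa_leaf (P := Itm.ok 206) (iqf tpr656_c))) (BT.Fa_leaf (P := Itm.ok 206) (iqb tpr2096_c))) (BT.Fa_mk (BT.Fa_mk (BT.Fa_leaf (P := Itm.ok 206) (iqf tpr295_c)) (BT.Fa_leaf (P := Itm.ok 206) (iqf tpr780_c))) (BT.Fa_leaf (P := Itm.ok 206) (iqb tpr541_c)))) (BT.Fa_mk (BT.Fa_mk (BT.Fa_mk (BT.Fa_leaf (P := Itm.ok 206) (iqb tpr1562_c))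 (BT.Fa_leaf (P := Itm.ok 206) (iqb tpr517_c))) (BT.Fa_leaf (P := Itm.ok 206) (iqb tpr588_c))) (BT.Fa_mk (BT.Fa_leaf (P := Itm.ok 206) (iqb tpr700_c)) (BT.Fa_leaf (P := Itm.ok 206) (iqf tpr111_c))))) (BT.Fa_mk (BT.Fa_mk (BT.Fa_mk (BT.Fa_mk (BT.Fa_leaf (P := Itm.ok 206) (iqb tpr849_c)) (BT.Fa_leaf (P := Itm.ok 206) (iqb tpr1371_c))) (BT.Fa_leaf (P := Itm.ok 206) (iqb tpr528_c))) (BT.Fa_mk (BT.Fa_leaf (P := Itm.ok 206) (iqb tpr581_c)) (BT.Fa_leaf (P := Itm.ok 206) (iqf tpr508_c)))) (BT.Fa_mk (BT.Fa_mk (BT.Fa_mk (BT.Fa_leaf (P := Itm.ok 206) (iqb tpr518_c)) (BT.Fa_leaf (P := Itm.ok 206) (iqb tpr780_c))) (BT.Fa_leaf (P := Itm.ok 206) (iqf tpr198_c))) (BT.Fa_mk (BT.Fa_leaf (P := Itm.ok 206) (iqb tpr1028_c)) (BT.Fa_leaf (P := Itm.ok 206) (iqf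 tpr959_c))))))) (BT.Fa_mk (BT.Fa_mk (BT.Fa_mk (BT.Fa_mk (BT.Fa_mk (BT.Fa_mk (BT.Fa_leaf (P := Itm.ok 206) (iqf tpr1730_c)) (BT.Fa_leaf (P := Itm.ok 206) (iqb tpr526_c))) (BT.Fa_leaf (P := Itm.ok 206) (iqf tpr607_c))) (BT.Fa_mk (BT.Fa_mk (BT.Fa_leaf (P := Itm.ok 206) (iqf tpr555_c)) (BT.Fa_leaf (P := Itm.ok 206) (iqb tpr1789_c))) (BT.Fa_leaf (P := Itm.ok 206) (iqb tpr2575_c)))) (BT.Fa_mk (BT.Fa_mk (BT.Fa_mk (BT.Fa_leaf (P := Itm.ok 206) (iqb tpr247_c)) (BT.Fa_leaf (P := Itm.ok 206) (iqf tpr501_c))) (BT.Fa_leaf (P := Itm.ok 206) (iqf tpr239_c))) (BT.Fa_mk (BT.Fa_leaf (P := Itm.ok 206) (iqf tpr679_c)) (BT.Fa_leaf (P := Itm.ok 206) (iqb tpr22_c))))) (BT.Fa_mk (BT.Fa_mk (BT.Fa_mk (BT.Fa_mk (BT.Fa_leaf (P := Itm.ok 206) (iqf tpr2027_c)) (BT.Fa_leaf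 (P := Itm.ok 206) (iqf tpr949_c))) (BT.Fa_leaf (P := Itm.ok 206) (iqf tpr511_c))) (BT.Fa_mk (BT.Fa_leaf (P := Itm.ok 206) (iqb tpr1839_c)) (BT.Fa_leaf (P := Itm.ok 206) (iqb tpr725_c)))) (BT.Fa_mk (BT.Fa_mk (BT.Fa_mk (BT.Fa_leaf (P := Itm.ok 206) (iqf tpr627_c)) (BT.Fa_leaf (P := Itm.ok 206) (iqb tpr626_c))) (BT.Fa_leaf (P := Itm.ok 206) (iqf tpr17_c))) (BT.Fa_mk (BT.Fa_leaf (P := Itm.ok 206) (iqf tpr1010_c)) (BT.Fa_leaf (P := Itm.ok 206) (iqf tpr680_c)))))) (BT.Fa_mk (BT.Fa_mk (BT.Fa_mk (BT.Fa_mk (BT.Fa_mk (BT.Fa_leaf (P := Itm.ok 206) (iqf tpr519_c)) (BT.Fa_leaf (P := Itm.ok 206) (iqb tpr636_c))) (BT.Fa_leaf (P := Itm.ok 206) (iqf tpr1248_c))) (BT.Fa_mk (BT.Fa_mk (BT.Fa_leaf (P := Itm.ok 206) (iqf tpr619_c)) (BT.Fa_leaf (P := Itm.ok 206)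 (iqb tpr705_c))) (BT.Fa_leaf (P := Itm.ok 206) (iqb tpr90_c)))) (BT.Fa_mk (BT.Fa_mk (BT.Fa_mk (BT.Fa_leaf (P := Itm.ok 206) (iqf tpr465_c)) (BT.Fa_leaf (P := Itm.ok 206) (iqb tpr72_c))) (BT.Fa_leaf (P := Itm.ok 206) (iqf tpr456_c))) (BT.Fa_mk (BT.Fa_leaf (P := Itm.ok 206) (iqf tpr1311_c)) (BT.Fa_leaf (P := Itm.ok 206) (iqf tpr479_c))))) (BT.Fa_mk (BT.Fa_mk (BT.Fa_mk (BT.Fa_mk (BT.Fa_leaf (P := Itm.ok 206) (iqf tpr454_c)) (BT.Fa_leaf (P := Itm.ok 206) (iqf tpr1313_c))) (BT.Fa_leaf (P := Itm.ok 206) (iqb tpr477_c))) (BT.Fa_mk (BT.Fa_leaf (P := Itm.ok 206) (iqb tpr2488_c)) (BT.Fa_leaf (P := Itm.ok 206) (iqf tpr46_c)))) (BT.Fa_mk (BT.Fa_mk (BT.Fa_mk (BT.Fa_leaf (P := Itm.ok 206) (iqb tpr1370_c)) (BT.Fa_leaf (P := Itm.ok 206) (iqf tpr1257_c)))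 (BT.Fa_leaf (P := Itm.ok 206) (iqf tpr485_c))) (BT.Fa_mk (BT.Fa_leaf (P := Itm.ok 206) (iqf tpr23_c)) (BT.Fa_leaf (P := Itm.ok 206) (iqf tpr1538_c)))))))))

/-- all words of the class have labels -/
theorem pokNFzA2E2ByA3H2AzIzAyB2H3A2E2AzAyBzF : POK 206 xNFzA2E2ByA3H2AzIzAyB2H3A2E2AzAyBzF :=
  y_pok (C0 := ceNFzA2E2ByA3H2AzIzAyB2H3A2E2AzAyBzF) (C1 := coNFzA2E2ByA3H2AzIzAyB2H3A2E2AzAyBzF) topNFzA2E2ByA3H2AzIzAyB2H3A2E2AzAyBzF nbNFzA2E2ByA3H2AzIzAyB2H3A2E2AzAyBzF (BT.Fa_of_all iiNFzA2E2ByA3H2AzIzAyB2H3A2E2AzAyBzF_c)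
    (BT.Fa_mk (cyE_spec zeNFzA2E2ByA3H2AzIzAyB2H3A2E2AzAyBzF_0) (cyE_spec zeNFzA2E2ByA3H2AzIzAyB2H3A2E2AzAyBzF_1))
    (BT.Fa_mk (cyO_spec zoNFzA2E2ByA3H2AzIzAyB2H3A2E2AzAyBzF_0) (cyO_spec zoNFzA2E2ByA3H2AzIzAyB2H3A2E2AzAyBzF_1))
    iiNFzA2E2ByA3H2AzIzAyB2H3A2E2AzAyBzF_k

theorem iiNFzA2E2ByA3H3A2EzAyBzF_k : iiNFzA2E2ByA3H3A2EzAyBzF.Fa (Itm.ok 206) := (BT.Fa_mk (BT.Fa_mk (BT.Fa_mk (BT.Fa_mk (BT.Fa_mk (BT.Fa_mk (BT.Fa_mk (BT.Fa_mk (BT.Fa_leaf (P := Itm.ok 206) (iqf tpr500_c)) (BT.Fa_leaf (P := Itm.ok 206) (iqf tpr168_c))) (BT.Fa_leaf (P := Itm.ok 206) (iqb tpr789_c))) (BT.Fa_mk (BT.Fa_leaf (P := Itm.ok 206) (iqf tpr1532_c)) (BT.Fa_leaf (P := Itm.ok 206) (iqf tpr789_c)))) (BT.Fa_mk (BT.Fa_mk (BT.Fa_mk (BT.Fa_leaf (P := Itm.ok 206) (iqf tpr5_c))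 (BT.Fa_leaf (P := Itm.ok 206) (iqf tpr216_c))) (BT.Fa_leaf (P := Itm.ok 206) (iqb tpr499_c))) (BT.Fa_mk (BT.Fa_leaf (P := Itm.ok 206) (iqb tpr508_c)) (BT.Fa_leaf (P := Itm.ok 206) (iqb tpr48_c))))) (BT.Fa_mk (BT.Fa_mk (BT.Fa_mk (BT.Fa_mk (BT.Fa_leaf (P := Itm.ok 206) (iqf tpr499_c)) (BT.Fa_leaf (P := Itm.ok 206) (iqb tpr90_c))) (BT.Fa_leaf (P := Itm.ok 206) (iqb tpr82_c))) (BT.Fa_mk (BT.Fa_leaf (P := Itm.ok 206) (iqf tpr8_c)) (BT.Fa_leaf (P := Itm.ok 206) (iqb tpr581_c)))) (BT.Fa_mk (BT.Fa_mk (BT.Fa_mk (BT.Fa_leaf (P := Itm.ok 206) (iqb tpr2084_c)) (BT.Fa_leaf (P := Itm.ok 206) (iqf tpr89_c))) (BT.Fa_leaf (P := Itm.ok 206) (iqb tpr682_c))) (BT.Fa_mk (BT.Fa_leaf (P := Itm.ok 206) (iqf tpr251_c)) (BT.Fa_leaf (P := Itm.ok 206) (iqb tpr507_c))))))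 (BT.Fa_mk (BT.Fa_mk (BT.Fa_mk (BT.Fa_mk (BT.Fa_mk (BT.Fa_leaf (P := Itm.ok 206) (iqb tpr72_c)) (BT.Fa_leaf (P := Itm.ok 206) (iqb tpr240_c))) (BT.Fa_leaf (P := Itm.ok 206) (iqf tpr959_c))) (BT.Fa_mk (BT.Fa_leaf (P := Itm.ok 206) (iqf tpr1121_c)) (BT.Fa_leaf (P := Itm.ok 206) (iqb tpr517_c)))) (BT.Fa_mk (BT.Fa_mk (BT.Fa_mk (BT.Fa_leaf (P := Itm.ok 206) (iqb tpr511_c)) (BT.Fa_leaf (P := Itm.ok 206) (iqb tpr556_c))) (BT.Fa_leaf (P := Itm.ok 206) (iqf tpr2092_c))) (BT.Fa_mk (BT.Fa_leaf (P := Itm.ok 206) (iqb tpr979_c)) (BT.Fa_leaf (P := Itm.ok 206) (iqf tpr1572_c))))) (BT.Fa_mk (BT.Fa_mk (BT.Fa_mk (BT.Fa_mk (BT.Fa_leaf (P := Itm.ok 206) (iqb tpr582_c)) (BT.Fa_leaf (P := Itm.ok 206) (iqb tpr509_c))) (BT.Fa_leaf (P := Itm.ok 206) (iqf tpr245_c)))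 (BT.Fa_mk (BT.Fa_leaf (P := Itm.ok 206) (iqb tpr547_c)) (BT.Fa_leaf (P := Itm.ok 206) (iqf tpr625_c)))) (BT.Fa_mk (BT.Fa_mk (BT.Fa_mk (BT.Fa_leaf (P := Itm.ok 206) (iqb tpr606_c)) (BT.Fa_leaf (P := Itm.ok 206) (iqf tpr2093_c))) (BT.Fa_leaf (P := Itm.ok 206) (iqb tpr24_c))) (BT.Fa_mk (BT.Fa_leaf (P := Itm.ok 206) (iqb tpr513_c)) (BT.Fa_leaf (P := Itm.ok 206) (iqf tpr2094_c))))))) (BT.Fa_mk (BT.Fa_mk (BT.Fa_mk (BT.Fa_mk (BT.Fa_mk (BT.Fa_mk (BT.Fa_leaf (P := Itm.ok 206) (iqf tpr977_c)) (BT.Fa_leaf (P := Itm.ok 206) (iqb tpr2095_c))) (BT.Fa_leaf (P := Itm.ok 206) (iqf tpr642_c))) (BT.Fa_mk (BT.Fa_leaf (P := Itm.ok 206) (iqb tpr144_c)) (BT.Fa_leaf (P := Itm.ok 206) (iqb tpr1545_c)))) (BT.Fa_mk (BT.Fa_mk (BT.Fa_mk (BT.Fa_leaf (P := Itm.ok 206)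 (iqb tpr2096_c)) (BT.Fa_leaf (P := Itm.ok 206) (iqb tpr324_c))) (BT.Fa_leaf (P := Itm.ok 206) (iqf tpr679_c))) (BT.Fa_mk (BT.Fa_leaf (P := Itm.ok 206) (iqb tpr812_c)) (BT.Fa_leaf (P := Itm.ok 206) (iqf tpr2097_c))))) (BT.Fa_mk (BT.Fa_mk (BT.Fa_mk (BT.Fa_mk (BT.Fa_leaf (P := Itm.ok 206) (iqb tpr1542_c)) (BT.Fa_leaf (P := Itm.ok 206) (iqf tpr2098_c))) (BT.Fa_leaf (P := Itm.ok 206) (iqb tpr730_c))) (BT.Fa_mk (BT.Fa_leaf (P := Itm.ok 206) (iqf tpr1730_c)) (BT.Fa_leaf (P := Itm.ok 206) (iqb tpr2099_c)))) (BT.Fa_mk (BT.Fa_mk (BT.Fa_mk (BT.Fa_leaf (P := Itm.ok 206) (iqf tpr1104_c)) (BT.Fa_leaf (P := Itm.ok 206) (iqb tpr543_c))) (BT.Fa_leaf (P := Itm.ok 206) (iqf tpr1010_c))) (BT.Fa_mk (BT.Fa_leaf (P := Itm.ok 206) (iqf tpr12_c)) (BT.Fa_leaf (P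 := Itm.ok 206) (iqf tpr1457_c)))))) (BT.Fa_mk (BT.Fa_mk (BT.Fa_mk (BT.Fa_mk (BT.Fa_mk (BT.Fa_leaf (P := Itm.ok 206) (iqf tpr526_c)) (BT.Fa_leaf (P := Itm.ok 206) (iqb tpr20_c))) (BT.Fa_leaf (P := Itm.ok 206) (iqb tpr640_c))) (BT.Fa_mk (BT.Fa_leaf (P := Itm.ok 206) (iqf tpr51_c)) (BT.Fa_leaf (P := Itm.ok 206) (iqb tpr54_c)))) (BT.Fa_mk (BT.Fa_mk (BT.Fa_mk (BT.Fa_leaf (P := Itm.ok 206) (iqf tpr2078_c)) (BT.Fa_leaf (P := Itm.ok 206) (iqb tpr1559_c))) (BT.Fa_leaf (P := Itm.ok 206) (iqb tpr677_c))) (BT.Fa_mk (BT.Fa_leaf (P := Itm.ok 206) (iqb tpr39_c)) (BT.Fa_leaf (P := Itm.ok 206) (iqb tpr583_c))))) (BT.Fa_mk (BT.Fa_mk (BT.Fa_mk (BT.Fa_mk (BT.Fa_leaf (P := Itm.ok 206) (iqb tpr2100_c)) (BT.Fa_leaf (P := Itm.ok 206) (iqf tpr2101_c))) (BT.Fa_leaf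 (P := Itm.ok 206) (iqb tpr223_c))) (BT.Fa_mk (BT.Fa_leaf (P := Itm.ok 206) (iqb tpr1541_c)) (BT.Fa_leaf (P := Itm.ok 206) (iqb tpr782_c)))) (BT.Fa_mk (BT.Fa_mk (BT.Fa_leaf (P := Itm.ok 206) (iqf tpr45_c)) (BT.Fa_leaf (P := Itm.ok 206) (iqb tpr816_c))) (BT.Fa_mk (BT.Fa_leaf (P := Itm.ok 206) (iqf tpr596_c)) (BT.Fa_leaf (P := Itm.ok 206) (iqf tpr656_c)))))))) (BT.Fa_mk (BT.Fa_mk (BT.Fa_mk (BT.Fa_mk (BT.Fa_mk (BT.Fa_mk (BT.Fa_mk (BT.Fa_leaf (P := Itm.ok 206) (iqb tpr645_c)) (BT.Fa_leaf (P := Itm.ok 206) (iqb tpr588_c))) (BT.Fa_leaf (P := Itm.ok 206) (iqb tpr1942_c))) (BT.Fa_mk (BT.Fa_leaf (P := Itm.ok 206) (iqb tpr1583_c)) (BT.Fa_leaf (P := Itm.ok 206) (iqf tpr419_c)))) (BT.Fa_mk (BT.Fa_mk (BT.Fa_mk (BT.Fa_leaf (P := Itm.ok 206) (iqb tpr235_c))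 (BT.Fa_leaf (P := Itm.ok 206) (iqf tpr657_c))) (BT.Fa_leaf (P := Itm.ok 206) (iqb tpr560_c))) (BT.Fa_mk (BT.Fa_leaf (P := Itm.ok 206) (iqf tpr9_c)) (BT.Fa_leaf (P := Itm.ok 206) (iqf tpr239_c))))) (BT.Fa_mk (BT.Fa_mk (BT.Fa_mk (BT.Fa_mk (BT.Fa_leaf (P := Itm.ok 206) (iqf tpr1540_c)) (BT.Fa_leaf (P := Itm.ok 206) (iqb tpr51_c))) (BT.Fa_leaf (P := Itm.ok 206) (iqf tpr536_c))) (BT.Fa_mk (BT.Fa_leaf (P := Itm.ok 206) (iqf tpr10_c)) (BT.Fa_leaf (P := Itm.ok 206) (iqb tpr1647_c)))) (BT.Fa_mk (BT.Fa_mk (BT.Fa_mk (BT.Fa_leaf (P := Itm.ok 206) (iqb tpr247_c)) (BT.Fa_leaf (P := Itm.ok 206) (iqf tpr590_c))) (BT.Fa_leaf (P := Itm.ok 206) (iqb tpr599_c))) (BT.Fa_mk (BT.Fa_leaf (P := Itm.ok 206) (iqb tpr612_c)) (BT.Fa_leaf (P := Itm.ok 206) (iqb tpr644_c))))))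 (BT.Fa_mk (BT.Fa_mk (BT.Fa_mk (BT.Fa_mk (BT.Fa_mk (BT.Fa_leaf (P := Itm.ok 206) (iqf tpr541_c)) (BT.Fa_leaf (P := Itm.ok 206) (iqb tpr1571_c))) (BT.Fa_leaf (P := Itm.ok 206) (iqb tpr939_c))) (BT.Fa_mk (BT.Fa_leaf (P := Itm.ok 206) (iqf tpr2102_c)) (BT.Fa_leaf (P := Itm.ok 206) (iqf tpr198_c)))) (BT.Fa_mk (BT.Fa_mk (BT.Fa_mk (BT.Fa_leaf (P := Itm.ok 206) (iqf tpr1611_c)) (BT.Fa_leaf (P := Itm.ok 206) (iqf tpr559_c))) (BT.Fa_leaf (P := Itm.ok 206) (iqf tpr583_c))) (BT.Fa_mk (BT.Fa_leaf (P := Itm.ok 206) (iqb tpr607_c)) (BT.Fa_leaf (P := Itm.ok 206) (iqf tpr576_c))))) (BT.Fa_mk (BT.Fa_mk (BT.Fa_mk (BT.Fa_mk (BT.Fa_leaf (P := Itm.ok 206) (itf206 tpr2103_c)) (BT.Fa_leaf (P := Itm.ok 206) (iqf tpr584_c))) (BT.Fa_leaf (P := Itm.ok 206) (iqf tpr568_c)))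 (BT.Fa_mk (BT.Fa_leaf (P := Itm.ok 206) (iqf tpr210_c)) (BT.Fa_leaf (P := Itm.ok 206) (iqb tpr627_c)))) (BT.Fa_mk (BT.Fa_mk (BT.Fa_leaf (P := Itm.ok 206) (iqf tpr1248_c)) (BT.Fa_leaf (P := Itm.ok 206) (iqb tpr2104_c))) (BT.Fa_mk (BT.Fa_leaf (P := Itm.ok 206) (iqf tpr691_c)) (BT.Fa_leaf (P := Itm.ok 206) (iqf tpr503_c))))))) (BT.Fa_mk (BT.Fa_mk (BT.Fa_mk (BT.Fa_mk (BT.Fa_mk (BT.Fa_mk (BT.Fa_leaf (P := Itm.ok 206) (iqf tpr22_c)) (BT.Fa_leaf (P := Itm.ok 206) (iqf tpr641_c))) (BT.Fa_leaf (P := Itm.ok 206) (iqf tpr2105_c))) (BT.Fa_mk (BT.Fa_leaf (P := Itm.ok 206) (iqf tpr1934_c)) (BT.Fa_leaf (P := Itm.ok 206) (iqb tpr1075_c)))) (BT.Fa_mk (BT.Fa_mk (BT.Fa_mk (BT.Fa_leaf (P := Itm.ok 206) (iqf tpr2106_c)) (BT.Fa_leaf (P := Itm.ok 206) (iqf tpr543_c)))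 (BT.Fa_leaf (P := Itm.ok 206) (iqf tpr1256_c))) (BT.Fa_mk (BT.Fa_leaf (P := Itm.ok 206) (iqf tpr567_c)) (BT.Fa_leaf (P := Itm.ok 206) (iqf tpr521_c))))) (BT.Fa_mk (BT.Fa_mk (BT.Fa_mk (BT.Fa_mk (BT.Fa_leaf (P := Itm.ok 206) (iqf tpr617_c)) (BT.Fa_leaf (P := Itm.ok 206) (iqf tpr523_c))) (BT.Fa_leaf (P := Itm.ok 206) (iqb tpr519_c))) (BT.Fa_mk (BT.Fa_leaf (P := Itm.ok 206) (iqf tpr608_c)) (BT.Fa_leaf (P := Itm.ok 206) (iqb tpr1553_c)))) (BT.Fa_mk (BT.Fa_mk (BT.Fa_mk (BT.Fa_leaf (P := Itm.ok 206) (iqb tpr106_c)) (BT.Fa_leaf (P := Itm.ok 206) (iqf tpr191_c))) (BT.Fa_leaf (P := Itm.ok 206) (iqf tpr515_c))) (BT.Fa_mk (BT.Fa_leaf (P := Itm.ok 206) (iqb tpr575_c)) (BT.Fa_leaf (P := Itm.ok 206) (iqf tpr544_c)))))) (BT.Fa_mk (BT.Fa_mk (BT.Fa_mk (BT.Fa_mk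 (BT.Fa_mk (BT.Fa_leaf (P := Itm.ok 206) (iqb tpr545_c)) (BT.Fa_leaf (P := Itm.ok 206) (iqf tpr520_c))) (BT.Fa_leaf (P := Itm.ok 206) (iqf tpr1548_c))) (BT.Fa_mk (BT.Fa_leaf (P := Itm.ok 206) (iqf tpr2107_c)) (BT.Fa_leaf (P := Itm.ok 206) (iqb tpr2108_c)))) (BT.Fa_mk (BT.Fa_mk (BT.Fa_mk (BT.Fa_leaf (P := Itm.ok 206) (iqb tpr1232_c)) (BT.Fa_leaf (P := Itm.ok 206) (iqb tpr2109_c))) (BT.Fa_leaf (P := Itm.ok 206) (iqf tpr466_c))) (BT.Fa_mk (BT.Fa_leaf (P := Itm.ok 206) (iqb tpr1193_c)) (BT.Fa_leaf (P := Itm.ok 206) (iqf tpr2077_c))))) (BT.Fa_mk (BT.Fa_mk (BT.Fa_mk (BT.Fa_mk (BT.Fa_leaf (P := Itm.ok 206) (iqf tpr548_c)) (BT.Fa_leaf (P := Itm.ok 206) (iqf tpr320_c))) (BT.Fa_leaf (P := Itm.ok 206) (iqf tpr1255_c))) (BT.Fa_mk (BT.Fa_leaf (P := Itm.ok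 206) (iqf tpr1666_c)) (BT.Fa_leaf (P := Itm.ok 206) (iqf tpr527_c)))) (BT.Fa_mk (BT.Fa_mk (BT.Fa_leaf (P := Itm.ok 206) (iqf tpr293_c)) (BT.Fa_leaf (P := Itm.ok 206) (iqf tpr2110_c))) (BT.Fa_mk (BT.Fa_leaf (P := Itm.ok 206) (iqf tpr594_c)) (BT.Fa_leaf (P := Itm.ok 206) (iqf tpr603_c)))))))))

/-- all words of the class have labels -/
theorem pokNFzA2E2ByA3H3A2EzAyBzF : POK 206 xNFzA2E2ByA3H3A2EzAyBzF :=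
  y_pok (C0 := ceNFzA2E2ByA3H3A2EzAyBzF) (C1 := coNFzA2E2ByA3H3A2EzAyBzF) topNFzA2E2ByA3H3A2EzAyBzF nbNFzA2E2ByA3H3A2EzAyBzF (BT.Fa_of_all iiNFzA2E2ByA3H3A2EzAyBzF_c)
    (BT.Fa_mk (cyE_spec zeNFzA2E2ByA3H3A2EzAyBzF_0) (cyE_spec zeNFzA2E2ByA3H3A2EzAyBzF_1))
    (BT.Fa_mk (cyO_spec zoNFzA2E2ByA3H3A2EzAyBzF_0) (cyO_spec zoNFzA2E2ByA3H3A2EzAyBzF_1))
    iiNFzA2E2ByA3H3A2EzAyBzF_k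

theorem iiNFzAyAzE2B3H3BzIzB2H3A2EzF_k : iiNFzAyAzE2B3H3BzIzB2H3A2EzF.Fa (Itm.ok 206) := (BT.Fa_mk (BT.Fa_mk (BT.Fa_mk (BT.Fa_mk (BT.Fa_mk (BT.Fa_mk (BT.Fa_mk (BT.Fa_mk (BT.Fa_leaf (P := Itm.ok 206) (iqb tpr4_c)) (BT.Fa_leaf (P := Itm.ok 206) (iqf tpr4_c))) (BT.Fa_leaf (P := Itm.ok 206) (iqb tpr452_c))) (BT.Fa_mk (BT.Fa_leaf (P := Itm.ok 206) (iqb tpr5_c)) (BT.Fa_leaf (P := Itm.ok 206) (iqb tpr8_c)))) (BT.Fa_mk (BT.Fa_mk (BT.Fa_leaf (P := Itm.ok 206) (iqf tpr10_c)) (BT.Fa_leaf (P := Itm.ok 206) (iqf tpr11_c))) (BT.Fa_mk (BT.Fa_leaf (P := Itm.ok 206) (iqf tpr14_c)) (BT.Fa_leaf (P := Itm.ok 206) (iqb tpr13_c))))) (BT.Fa_mk (BT.Fa_mk (BT.Fa_mk (BT.Fa_mk (BT.Fa_leaf (P := Itm.ok 206) (iqb tpr98_c)) (BT.Fa_leaf (P := Itm.ok 206) (iqb tpr11_c)))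 (BT.Fa_leaf (P := Itm.ok 206) (iqf tpr16_c))) (BT.Fa_mk (BT.Fa_leaf (P := Itm.ok 206) (iqb tpr292_c)) (BT.Fa_leaf (P := Itm.ok 206) (iqf tpr56_c)))) (BT.Fa_mk (BT.Fa_mk (BT.Fa_leaf (P := Itm.ok 206) (iqb tpr32_c)) (BT.Fa_leaf (P := Itm.ok 206) (iqf tpr198_c))) (BT.Fa_mk (BT.Fa_leaf (P := Itm.ok 206) (iqf tpr57_c)) (BT.Fa_leaf (P := Itm.ok 206) (iqf tpr80_c)))))) (BT.Fa_mk (BT.Fa_mk (BT.Fa_mk (BT.Fa_mk (BT.Fa_mk (BT.Fa_leaf (P := Itm.ok 206) (iqf tpr85_c)) (BT.Fa_leaf (P := Itm.ok 206) (iqf tpr315_c))) (BT.Fa_leaf (P := Itm.ok 206) (iqf tpr74_c))) (BT.Fa_mk (BT.Fa_leaf (P := Itm.ok 206) (iqf tpr36_c)) (BT.Fa_leaf (P := Itm.ok 206) (iqf tpr453_c)))) (BT.Fa_mk (BT.Fa_mk (BT.Fa_leaf (P := Itm.ok 206) (iqb tpr124_c)) (BT.Fa_leaf (P := Itm.ok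 206) (iqb tpr152_c))) (BT.Fa_mk (BT.Fa_leaf (P := Itm.ok 206) (iqf tpr129_c)) (BT.Fa_leaf (P := Itm.ok 206) (iqb tpr123_c))))) (BT.Fa_mk (BT.Fa_mk (BT.Fa_mk (BT.Fa_leaf (P := Itm.ok 206) (iqf tpr7_c)) (BT.Fa_leaf (P := Itm.ok 206) (iqb tpr454_c))) (BT.Fa_mk (BT.Fa_leaf (P := Itm.ok 206) (iqf tpr160_c)) (BT.Fa_leaf (P := Itm.ok 206) (iqb tpr41_c)))) (BT.Fa_mk (BT.Fa_mk (BT.Fa_leaf (P := Itm.ok 206) (iqb tpr42_c)) (BT.Fa_leaf (P := Itm.ok 206) (iqf tpr103_c))) (BT.Fa_mk (BT.Fa_leaf (P := Itm.ok 206) (iqb tpr165_c)) (BT.Fa_leaf (P := Itm.ok 206) (iqb tpr83_c))))))) (BT.Fa_mk (BT.Fa_mk (BT.Fa_mk (BT.Fa_mk (BT.Fa_mk (BT.Fa_mk (BT.Fa_leaf (P := Itm.ok 206) (iqf tpr455_c)) (BT.Fa_leaf (P := Itm.ok 206) (iqb tpr216_c))) (BT.Fa_leaf (P := Itm.ok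 206) (iqf tpr58_c))) (BT.Fa_mk (BT.Fa_leaf (P := Itm.ok 206) (iqf tpr33_c)) (BT.Fa_leaf (P := Itm.ok 206) (iqf tpr48_c)))) (BT.Fa_mk (BT.Fa_mk (BT.Fa_leaf (P := Itm.ok 206) (iqf tpr26_c)) (BT.Fa_leaf (P := Itm.ok 206) (iqb tpr456_c))) (BT.Fa_mk (BT.Fa_leaf (P := Itm.ok 206) (iqb tpr37_c)) (BT.Fa_leaf (P := Itm.ok 206) (iqf tpr220_c))))) (BT.Fa_mk (BT.Fa_mk (BT.Fa_mk (BT.Fa_mk (BT.Fa_leaf (P := Itm.ok 206) (iqf tpr63_c)) (BT.Fa_leaf (P := Itm.ok 206) (iqb tpr61_c))) (BT.Fa_leaf (P := Itm.ok 206) (iqf tpr457_c))) (BT.Fa_mk (BT.Fa_leaf (P := Itm.ok 206) (iqb tpr332_c)) (BT.Fa_leaf (P := Itm.ok 206) (iqb tpr93_c)))) (BT.Fa_mk (BT.Fa_mk (BT.Fa_leaf (P := Itm.ok 206) (iqb tpr102_c)) (BT.Fa_leaf (P := Itm.ok 206) (iqb tpr458_c))) (BT.Fa_mk (BT.Fa_leaf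 (P := Itm.ok 206) (iqf tpr459_c)) (BT.Fa_leaf (P := Itm.ok 206) (iqb tpr304_c)))))) (BT.Fa_mk (BT.Fa_mk (BT.Fa_mk (BT.Fa_mk (BT.Fa_mk (BT.Fa_leaf (P := Itm.ok 206) (iqf tpr240_c)) (BT.Fa_leaf (P := Itm.ok 206) (iqb tpr122_c))) (BT.Fa_leaf (P := Itm.ok 206) (iqf tpr82_c))) (BT.Fa_mk (BT.Fa_leaf (P := Itm.ok 206) (iqb tpr78_c)) (BT.Fa_leaf (P := Itm.ok 206) (iqb tpr230_c)))) (BT.Fa_mk (BT.Fa_mk (BT.Fa_leaf (P := Itm.ok 206) (iqb tpr121_c)) (BT.Fa_leaf (P := Itm.ok 206) (iqf tpr460_c))) (BT.Fa_mk (BT.Fa_leaf (P := Itm.ok 206) (iqb tpr151_c)) (BT.Fa_leaf (P := Itm.ok 206) (iqb tpr77_c))))) (BT.Fa_mk (BT.Fa_mk (BT.Fa_mk (BT.Fa_leaf (P := Itm.ok 206) (iqb tpr105_c)) (BT.Fa_leaf (P := Itm.ok 206) (iqf tpr75_c))) (BT.Fa_mk (BT.Fa_leaf (P := Itm.ok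 206) (iqf tpr126_c)) (BT.Fa_leaf (P := Itm.ok 206) (iqb tpr461_c)))) (BT.Fa_mk (BT.Fa_mk (BT.Fa_leaf (P := Itm.ok 206) (iqf tpr462_c)) (BT.Fa_leaf (P := Itm.ok 206) (iqb tpr463_c))) (BT.Fa_mk (BT.Fa_leaf (P := Itm.ok 206) (iqb tpr464_c)) (BT.Fa_leaf (P := Itm.ok 206) (iqf tpr84_c)))))))) (BT.Fa_mk (BT.Fa_mk (BT.Fa_mk (BT.Fa_mk (BT.Fa_mk (BT.Fa_mk (BT.Fa_mk (BT.Fa_leaf (P := Itm.ok 206) (iqb tpr465_c)) (BT.Fa_leaf (P := Itm.ok 206) (iqf tpr349_c))) (BT.Fa_leaf (P := Itm.ok 206) (iqf tpr466_c))) (BT.Fa_mk (BT.Fa_leaf (P := Itm.ok 206) (iqf tpr467_c)) (BT.Fa_leaf (P := Itm.ok 206) (iqf tpr194_c)))) (BT.Fa_mk (BT.Fa_mk (BT.Fa_leaf (P := Itm.ok 206) (iqf tpr106_c)) (BT.Fa_leaf (P := Itm.ok 206) (iqb tpr118_c))) (BT.Fa_mk (BT.Fa_leaf (P := Itm.ok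 206) (iqb tpr257_c)) (BT.Fa_leaf (P := Itm.ok 206) (iqb tpr119_c))))) (BT.Fa_mk (BT.Fa_mk (BT.Fa_mk (BT.Fa_mk (BT.Fa_leaf (P := Itm.ok 206) (iqf tpr334_c)) (BT.Fa_leaf (P := Itm.ok 206) (iqf tpr120_c))) (BT.Fa_leaf (P := Itm.ok 206) (iqb tpr468_c))) (BT.Fa_mk (BT.Fa_leaf (P := Itm.ok 206) (iqf tpr24_c)) (BT.Fa_leaf (P := Itm.ok 206) (iqb tpr469_c)))) (BT.Fa_mk (BT.Fa_mk (BT.Fa_leaf (P := Itm.ok 206) (iqf tpr256_c)) (BT.Fa_leaf (P := Itm.ok 206) (iqf tpr470_c))) (BT.Fa_mk (BT.Fa_leaf (P := Itm.ok 206) (iqf tpr471_c)) (BT.Fa_leaf (P := Itm.ok 206) (iqf tpr134_c)))))) (BT.Fa_mk (BT.Fa_mk (BT.Fa_mk (BT.Fa_mk (BT.Fa_mk (BT.Fa_leaf (P := Itm.ok 206) (iqb tpr211_c)) (BT.Fa_leaf (P := Itm.ok 206) (iqf tpr472_c))) (BT.Fa_leaf (P := Itm.ok 206) (iqf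 tpr73_c))) (BT.Fa_mk (BT.Fa_leaf (P := Itm.ok 206) (iqf tpr381_c)) (BT.Fa_leaf (P := Itm.ok 206) (iqb tpr473_c)))) (BT.Fa_mk (BT.Fa_mk (BT.Fa_leaf (P := Itm.ok 206) (iqf tpr474_c)) (BT.Fa_leaf (P := Itm.ok 206) (iqf tpr475_c))) (BT.Fa_mk (BT.Fa_leaf (P := Itm.ok 206) (iqb tpr476_c)) (BT.Fa_leaf (P := Itm.ok 206) (iqf tpr477_c))))) (BT.Fa_mk (BT.Fa_mk (BT.Fa_mk (BT.Fa_leaf (P := Itm.ok 206) (iqb tpr478_c)) (BT.Fa_leaf (P := Itm.ok 206) (iqb tpr345_c))) (BT.Fa_mk (BT.Fa_leaf (P := Itm.ok 206) (iqb tpr479_c)) (BT.Fa_leaf (P := Itm.ok 206) (iqf tpr480_c)))) (BT.Fa_mk (BT.Fa_mk (BT.Fa_leaf (P := Itm.ok 206) (iqf tpr481_c)) (BT.Fa_leaf (P := Itm.ok 206) (iqf tpr327_c))) (BT.Fa_mk (BT.Fa_leaf (P := Itm.ok 206) (iqb tpr482_c)) (BT.Fa_leaf (P :=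 Itm.ok 206) (iqb tpr483_c))))))) (BT.Fa_mk (BT.Fa_mk (BT.Fa_mk (BT.Fa_mk (BT.Fa_mk (BT.Fa_mk (BT.Fa_leaf (P := Itm.ok 206) (iqb tpr484_c)) (BT.Fa_leaf (P := Itm.ok 206) (iqb tpr485_c))) (BT.Fa_leaf (P := Itm.ok 206) (iqf tpr486_c))) (BT.Fa_mk (BT.Fa_leaf (P := Itm.ok 206) (iqb tpr487_c)) (BT.Fa_leaf (P := Itm.ok 206) (iqf tpr489_c)))) (BT.Fa_mk (BT.Fa_mk (BT.Fa_leaf (P := Itm.ok 206) (iqf tpr164_c)) (BT.Fa_leaf (P := Itm.ok 206) (iqf tpr490_c))) (BT.Fa_mk (BT.Fa_leaf (P := Itm.ok 206) (iqf tpr491_c)) (BT.Fa_leaf (P := Itm.ok 206) (iqf tpr310_c))))) (BT.Fa_mk (BT.Fa_mk (BT.Fa_mk (BT.Fa_mk (BT.Fa_leaf (P := Itm.ok 206) (iqb tpr25_c)) (BT.Fa_leaf (P := Itm.ok 206) (iqf tpr492_c))) (BT.Fa_leaf (P := Itm.ok 206) (iqb tpr167_c))) (BT.Fa_mk (BT.Fa_leaf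 (P := Itm.ok 206) (iqb tpr170_c)) (BT.Fa_leaf (P := Itm.ok 206) (iqb tpr493_c)))) (BT.Fa_mk (BT.Fa_mk (BT.Fa_leaf (P := Itm.ok 206) (iqf tpr285_c)) (BT.Fa_leaf (P := Itm.ok 206) (iqf tpr5_c))) (BT.Fa_mk (BT.Fa_leaf (P := Itm.ok 206) (iqf tpr8_c)) (BT.Fa_leaf (P := Itm.ok 206) (iqb tpr14_c)))))) (BT.Fa_mk (BT.Fa_mk (BT.Fa_mk (BT.Fa_mk (BT.Fa_mk (BT.Fa_leaf (P := Itm.ok 206) (iqb tpr156_c)) (BT.Fa_leaf (P := Itm.ok 206) (iqb tpr12_c))) (BT.Fa_leaf (P := Itm.ok 206) (iqb tpr87_c))) (BT.Fa_mk (BT.Fa_leaf (P := Itm.ok 206) (iqb tpr494_c)) (BT.Fa_leaf (P := Itm.ok 206) (iqf tpr44_c)))) (BT.Fa_mk (BT.Fa_mk (BT.Fa_leaf (P := Itm.ok 206) (iqf tpr62_c)) (BT.Fa_leaf (P := Itm.ok 206) (iqb tpr495_c))) (BT.Fa_mk (BT.Fa_leaf (P := Itm.ok 206) (iqf tpr151_c))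 (BT.Fa_leaf (P := Itm.ok 206) (iqf tpr403_c))))) (BT.Fa_mk (BT.Fa_mk (BT.Fa_mk (BT.Fa_leaf (P := Itm.ok 206) (iqb tpr496_c)) (BT.Fa_leaf (P := Itm.ok 206) (iqb tpr497_c))) (BT.Fa_mk (BT.Fa_leaf (P := Itm.ok 206) (iqb tpr293_c)) (BT.Fa_leaf (P := Itm.ok 206) (iqf tpr191_c)))) (BT.Fa_mk (BT.Fa_mk (BT.Fa_leaf (P := Itm.ok 206) (iqb tpr81_c)) (BT.Fa_leaf (P := Itm.ok 206) (iqf tpr181_c))) (BT.Fa_mk (BT.Fa_leaf (P := Itm.ok 206) (iqf tpr408_c)) (BT.Fa_leaf (P := Itm.ok 206) (iqf tpr498_c)))))))))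

/-- all words of the class have labels -/
theorem pokNFzAyAzE2B3H3BzIzB2H3A2EzF : POK 206 xNFzAyAzE2B3H3BzIzB2H3A2EzF :=
  y_pok (C0 := ceNFzAyAzE2B3H3BzIzB2H3A2EzF) (C1 := coNFzAyAzE2B3H3BzIzB2H3A2EzF) topNFzAyAzE2B3H3BzIzB2H3A2EzF nbNFzAyAzE2B3H3BzIzB2H3A2EzF (BT.Fa_of_all iiNFzAyAzE2B3H3BzIzB2H3A2EzF_c)
    (cyE_spec zeNFzAyAzE2B3H3BzIzB2H3A2EzF_0)
    (cyO_spec zoNFzAyAzE2B3H3BzIzB2H3A2EzF_0)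
    iiNFzAyAzE2B3H3BzIzB2H3A2EzF_k

theorem iiNFzAyE2ByA3H2AzIzA2AyH3A2A2AzAyBzF_k : iiNFzAyE2ByA3H2AzIzA2AyH3A2A2AzAyBzF.Fa (Itm.ok 206) := (BT.Fa_mk (BT.Fa_mk (BT.Fa_mk (BT.Fa_mk (BT.Fa_mk (BT.Fa_mk (BT.Fa_leaf (P := Itm.ok 206) (iqf tpr500_c)) (BT.Fa_leaf (P := Itm.ok 206) (iqf tpr168_c))) (BT.Fa_mk (BT.Fa_leaf (P := Itm.ok 206) (iqf tpr12_c)) (BT.Fa_leaf (P := Itm.ok 206) (iqb tpr2111_c)))) (BT.Fa_mk (BT.Fa_mk (BT.Fa_leaf (P := Itm.ok 206) (iqf tpr1355_c)) (BT.Fa_leaf (P := Itm.ok 206) (iqf tpr1334_c))) (BT.Fa_mk (BT.Fa_leaf (P := Itm.ok 206) (iqf tpr4_c)) (BT.Fa_leaf (P := Itm.ok 206) (iqf tpr35_c))))) (BT.Fa_mk (BT.Fa_mk (BT.Fa_mk (BT.Fa_leaf (P := Itm.ok 206) (iqb tpr21_c)) (BT.Fa_leaf (P := Itm.ok 206) (iqf tpr1341_c))) (BT.Fa_mk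 (BT.Fa_leaf (P := Itm.ok 206) (iqf tpr456_c)) (BT.Fa_leaf (P := Itm.ok 206) (iqf tpr2395_c)))) (BT.Fa_mk (BT.Fa_mk (BT.Fa_leaf (P := Itm.ok 206) (iqb tpr2242_c)) (BT.Fa_leaf (P := Itm.ok 206) (iqb tpr2396_c))) (BT.Fa_leaf (P := Itm.ok 206) (iqb tpr499_c))))) (BT.Fa_mk (BT.Fa_mk (BT.Fa_mk (BT.Fa_mk (BT.Fa_leaf (P := Itm.ok 206) (iqf tpr1311_c)) (BT.Fa_leaf (P := Itm.ok 206) (iqf tpr51_c))) (BT.Fa_mk (BT.Fa_leaf (P := Itm.ok 206) (iqb tpr2143_c)) (BT.Fa_leaf (P := Itm.ok 206) (iqb tpr113_c)))) (BT.Fa_mk (BT.Fa_mk (BT.Fa_leaf (P := Itm.ok 206) (iqb tpr2325_c)) (BT.Fa_leaf (P := Itm.ok 206) (iqf tpr1325_c))) (BT.Fa_leaf (P := Itm.ok 206) (iqf tpr1331_c)))) (BT.Fa_mk (BT.Fa_mk (BT.Fa_mk (BT.Fa_leaf (P := Itm.ok 206) (iqf tpr2521_c)) (BT.Fa_leaf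 (P := Itm.ok 206) (iqb tpr1354_c))) (BT.Fa_mk (BT.Fa_leaf (P := Itm.ok 206) (iqf tpr5_c)) (BT.Fa_leaf (P := Itm.ok 206) (iqb tpr33_c)))) (BT.Fa_mk (BT.Fa_mk (BT.Fa_leaf (P := Itm.ok 206) (iqb tpr90_c)) (BT.Fa_leaf (P := Itm.ok 206) (iqb tpr10_c))) (BT.Fa_leaf (P := Itm.ok 206) (iqb tpr1406_c)))))) (BT.Fa_mk (BT.Fa_mk (BT.Fa_mk (BT.Fa_mk (BT.Fa_mk (BT.Fa_leaf (P := Itm.ok 206) (iqb tpr477_c)) (BT.Fa_leaf (P := Itm.ok 206) (iqf tpr479_c))) (BT.Fa_mk (BT.Fa_leaf (P := Itm.ok 206) (iqf tpr568_c)) (BT.Fa_leaf (P := Itm.ok 206) (iqf tpr454_c)))) (BT.Fa_mk (BT.Fa_mk (BT.Fa_leaf (P := Itm.ok 206) (iqf tpr485_c)) (BT.Fa_leaf (P := Itm.ok 206) (iqf tpr1313_c))) (BT.Fa_mk (BT.Fa_leaf (P := Itm.ok 206) (iqb tpr612_c)) (BT.Fa_leaf (P := Itm.ok 206)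 (iqb tpr106_c))))) (BT.Fa_mk (BT.Fa_mk (BT.Fa_mk (BT.Fa_leaf (P := Itm.ok 206) (iqb tpr1346_c)) (BT.Fa_leaf (P := Itm.ok 206) (iqf tpr1464_c))) (BT.Fa_mk (BT.Fa_leaf (P := Itm.ok 206) (iqb tpr636_c)) (BT.Fa_leaf (P := Itm.ok 206) (iqf tpr210_c)))) (BT.Fa_mk (BT.Fa_mk (BT.Fa_leaf (P := Itm.ok 206) (iqb tpr28_c)) (BT.Fa_leaf (P := Itm.ok 206) (iqf tpr2398_c))) (BT.Fa_leaf (P := Itm.ok 206) (iqb tpr2295_c))))) (BT.Fa_mk (BT.Fa_mk (BT.Fa_mk (BT.Fa_mk (BT.Fa_leaf (P := Itm.ok 206) (iqb tpr1323_c)) (BT.Fa_leaf (P := Itm.ok 206) (iqf tpr259_c))) (BT.Fa_mk (BT.Fa_leaf (P := Itm.ok 206) (iqb tpr39_c)) (BT.Fa_leaf (P := Itm.ok 206) (iqf tpr2617_c)))) (BT.Fa_mk (BT.Fa_mk (BT.Fa_leaf (P := Itm.ok 206) (iqf tpr2220_c)) (BT.Fa_leaf (P := Itm.ok 206)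 (iqb tpr1335_c))) (BT.Fa_leaf (P := Itm.ok 206) (iqb tpr1336_c)))) (BT.Fa_mk (BT.Fa_mk (BT.Fa_mk (BT.Fa_leaf (P := Itm.ok 206) (iqb tpr2247_c)) (BT.Fa_leaf (P := Itm.ok 206) (iqf tpr464_c))) (BT.Fa_mk (BT.Fa_leaf (P := Itm.ok 206) (iqb tpr2393_c)) (BT.Fa_leaf (P := Itm.ok 206) (iqb tpr2388_c)))) (BT.Fa_mk (BT.Fa_mk (BT.Fa_leaf (P := Itm.ok 206) (iqb tpr506_c)) (BT.Fa_leaf (P := Itm.ok 206) (iqf tpr2394_c))) (BT.Fa_leaf (P := Itm.ok 206) (iqb tpr1328_c)))))))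

/-- all words of the class have labels -/
theorem pokNFzAyE2ByA3H2AzIzA2AyH3A2A2AzAyBzF : POK 206 xNFzAyE2ByA3H2AzIzA2AyH3A2A2AzAyBzF :=
  y_pok (C0 := ceNFzAyE2ByA3H2AzIzA2AyH3A2A2AzAyBzF) (C1 := coNFzAyE2ByA3H2AzIzA2AyH3A2A2AzAyBzF) topNFzAyE2ByA3H2AzIzA2AyH3A2A2AzAyBzF nbNFzAyE2ByA3H2AzIzA2AyH3A2A2AzAyBzF (BT.Fa_of_all iiNFzAyE2ByA3H2AzIzA2AyH3A2A2AzAyBzF_c)
    (cyE_spec zeNFzAyE2ByA3H2AzIzA2AyH3A2A2AzAyBzF_0)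
    (cyO_spec zoNFzAyE2ByA3H2AzIzA2AyH3A2A2AzAyBzF_0)
    iiNFzAyE2ByA3H2AzIzA2AyH3A2A2AzAyBzF_k

theorem iiNFzAyE2ByA3H2AzIzA2H3A2E2A2AzAyAyF_k : iiNFzAyE2ByA3H2AzIzA2H3A2E2A2AzAyAyF.Fa (Itm.ok 206) := (BT.Fa_mk (BT.Fa_mk (BT.Fa_mk (BT.Fa_mk (BT.Fa_mk (BT.Fa_mk (BT.Fa_mk (BT.Fa_mk (BT.Fa_mk (BT.Fa_leaf (P := Itm.ok 206) (iqb tpr33_c)) (BT.Fa_leaf (P := Itm.ok 206) (iqf tpr5_c))) (BT.Fa_leaf (P := Itm.ok 206) (iqb tpr8_c))) (BT.Fa_mk (BT.Fa_leaf (P := Itm.ok 206) (iqf tpr500_c)) (BT.Fa_leaf (P := Itm.ok 206) (iqb tpr577_c)))) (BT.Fa_mk (BT.Fa_mk (BT.Fa_leaf (P := Itm.ok 206) (iqb tpr2112_c)) (BT.Fa_leaf (P := Itm.ok 206) (iqb tpr780_c))) (BT.Fa_mk (BT.Fa_leaf (P := Itm.ok 206) (iqb tpr2208_c)) (BT.Fa_leaf (P := Itm.ok 206) (iqf tpr1765_c)))))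 (BT.Fa_mk (BT.Fa_mk (BT.Fa_mk (BT.Fa_mk (BT.Fa_leaf (P := Itm.ok 206) (iqf tpr596_c)) (BT.Fa_leaf (P := Itm.ok 206) (iqb tpr2005_c))) (BT.Fa_leaf (P := Itm.ok 206) (iqf tpr168_c))) (BT.Fa_mk (BT.Fa_leaf (P := Itm.ok 206) (iqb tpr636_c)) (BT.Fa_leaf (P := Itm.ok 206) (iqf tpr2113_c)))) (BT.Fa_mk (BT.Fa_mk (BT.Fa_leaf (P := Itm.ok 206) (iqf tpr2239_c)) (BT.Fa_leaf (P := Itm.ok 206) (iqb tpr547_c))) (BT.Fa_mk (BT.Fa_leaf (P := Itm.ok 206) (iqf tpr2493_c)) (BT.Fa_leaf (P := Itm.ok 206) (iqb tpr997_c)))))) (BT.Fa_mk (BT.Fa_mk (BT.Fa_mk (BT.Fa_mk (BT.Fa_mk (BT.Fa_leaf (P := Itm.ok 206) (iqf tpr454_c)) (BT.Fa_leaf (P := Itm.ok 206) (iqb tpr990_c))) (BT.Fa_leaf (P := Itm.ok 206) (iqb tpr1747_c))) (BT.Fa_mk (BT.Fa_leaf (P := Itm.ok 206) (iqf tpr1359_c))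 (BT.Fa_leaf (P := Itm.ok 206) (iqf tpr2133_c)))) (BT.Fa_mk (BT.Fa_mk (BT.Fa_leaf (P := Itm.ok 206) (iqf tpr1313_c)) (BT.Fa_leaf (P := Itm.ok 206) (iqf tpr82_c))) (BT.Fa_mk (BT.Fa_leaf (P := Itm.ok 206) (iqb tpr1001_c)) (BT.Fa_leaf (P := Itm.ok 206) (iqf tpr2024_c))))) (BT.Fa_mk (BT.Fa_mk (BT.Fa_mk (BT.Fa_mk (BT.Fa_leaf (P := Itm.ok 206) (iqf tpr559_c)) (BT.Fa_leaf (P := Itm.ok 206) (iqb tpr534_c))) (BT.Fa_leaf (P := Itm.ok 206) (iqb tpr2123_c))) (BT.Fa_mk (BT.Fa_leaf (P := Itm.ok 206) (iqf tpr562_c)) (BT.Fa_leaf (P := Itm.ok 206) (iqf tpr2026_c)))) (BT.Fa_mk (BT.Fa_mk (BT.Fa_leaf (P := Itm.ok 206) (iqb tpr2230_c)) (BT.Fa_leaf (P := Itm.ok 206) (iqf tpr465_c))) (BT.Fa_mk (BT.Fa_leaf (P := Itm.ok 206) (iqb tpr2499_c)) (BT.Fa_leaf (P := Itm.ok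 206) (iqb tpr2233_c))))))) (BT.Fa_mk (BT.Fa_mk (BT.Fa_mk (BT.Fa_mk (BT.Fa_mk (BT.Fa_mk (BT.Fa_leaf (P := Itm.ok 206) (iqf tpr419_c)) (BT.Fa_leaf (P := Itm.ok 206) (iqb tpr1644_c))) (BT.Fa_leaf (P := Itm.ok 206) (iqb tpr2114_c))) (BT.Fa_mk (BT.Fa_leaf (P := Itm.ok 206) (iqb tpr2269_c)) (BT.Fa_leaf (P := Itm.ok 206) (iqb tpr2488_c)))) (BT.Fa_mk (BT.Fa_mk (BT.Fa_leaf (P := Itm.ok 206) (iqf tpr2495_c)) (BT.Fa_leaf (P := Itm.ok 206) (iqb tpr2491_c))) (BT.Fa_mk (BT.Fa_leaf (P := Itm.ok 206) (iqf tpr1647_c)) (BT.Fa_leaf (P := Itm.ok 206) (iqf tpr2526_c))))) (BT.Fa_mk (BT.Fa_mk (BT.Fa_mk (BT.Fa_mk (BT.Fa_leaf (P := Itm.ok 206) (iqb tpr815_c)) (BT.Fa_leaf (P := Itm.ok 206) (iqb tpr2487_c))) (BT.Fa_leaf (P := Itm.ok 206) (iqb tpr294_c))) (BT.Fa_mk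 (BT.Fa_leaf (P := Itm.ok 206) (iqf tpr814_c)) (BT.Fa_leaf (P := Itm.ok 206) (iqf tpr2116_c)))) (BT.Fa_mk (BT.Fa_mk (BT.Fa_leaf (P := Itm.ok 206) (iqb tpr2494_c)) (BT.Fa_leaf (P := Itm.ok 206) (iqf tpr2227_c))) (BT.Fa_mk (BT.Fa_leaf (P := Itm.ok 206) (iqb tpr1736_c)) (BT.Fa_leaf (P := Itm.ok 206) (iqf tpr555_c)))))) (BT.Fa_mk (BT.Fa_mk (BT.Fa_mk (BT.Fa_mk (BT.Fa_mk (BT.Fa_leaf (P := Itm.ok 206) (iqf tpr619_c)) (BT.Fa_leaf (P := Itm.ok 206) (iqb tpr1138_c))) (BT.Fa_leaf (P := Itm.ok 206) (iqf tpr541_c))) (BT.Fa_mk (BT.Fa_leaf (P := Itm.ok 206) (iqb tpr2486_c)) (BT.Fa_leaf (P := Itm.ok 206) (iqb tpr1257_c)))) (BT.Fa_mk (BT.Fa_mk (BT.Fa_leaf (P := Itm.ok 206) (iqb tpr2040_c)) (BT.Fa_leaf (P := Itm.ok 206) (iqb tpr615_c))) (BT.Fa_mk (BT.Fa_leaf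 (P := Itm.ok 206) (iqf tpr2177_c)) (BT.Fa_leaf (P := Itm.ok 206) (iqb tpr782_c))))) (BT.Fa_mk (BT.Fa_mk (BT.Fa_mk (BT.Fa_leaf (P := Itm.ok 206) (iqb tpr2225_c)) (BT.Fa_leaf (P := Itm.ok 206) (iqb tpr2125_c))) (BT.Fa_mk (BT.Fa_leaf (P := Itm.ok 206) (iqb tpr2496_c)) (BT.Fa_leaf (P := Itm.ok 206) (iqb tpr2504_c)))) (BT.Fa_mk (BT.Fa_mk (BT.Fa_leaf (P := Itm.ok 206) (iqf tpr111_c)) (BT.Fa_leaf (P := Itm.ok 206) (iqb tpr2501_c))) (BT.Fa_mk (BT.Fa_leaf (P := Itm.ok 206) (iqf tpr2492_c)) (BT.Fa_leaf (P := Itm.ok 206) (iqf tpr507_c)))))))) (BT.Fa_mk (BT.Fa_mk (BT.Fa_mk (BT.Fa_mk (BT.Fa_mk (BT.Fa_mk (BT.Fa_mk (BT.Fa_leaf (P := Itm.ok 206) (iqf tpr1112_c)) (BT.Fa_leaf (P := Itm.ok 206) (iqb tpr812_c))) (BT.Fa_leaf (P := Itm.ok 206) (iqb tpr1143_c)))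 (BT.Fa_mk (BT.Fa_leaf (P := Itm.ok 206) (iqb tpr1844_c)) (BT.Fa_leaf (P := Itm.ok 206) (iqf tpr2545_c)))) (BT.Fa_mk (BT.Fa_mk (BT.Fa_leaf (P := Itm.ok 206) (iqf tpr2546_c)) (BT.Fa_leaf (P := Itm.ok 206) (iqf tpr2543_c))) (BT.Fa_mk (BT.Fa_leaf (P := Itm.ok 206) (iqb tpr2205_c)) (BT.Fa_leaf (P := Itm.ok 206) (iqb tpr2528_c))))) (BT.Fa_mk (BT.Fa_mk (BT.Fa_mk (BT.Fa_mk (BT.Fa_leaf (P := Itm.ok 206) (iqf tpr2260_c)) (BT.Fa_leaf (P := Itm.ok 206) (iqf tpr1762_c))) (BT.Fa_leaf (P := Itm.ok 206) (iqf tpr2334_c))) (BT.Fa_mk (BT.Fa_leaf (P := Itm.ok 206) (iqf tpr2497_c)) (BT.Fa_leaf (P := Itm.ok 206) (iqb tpr2590_c)))) (BT.Fa_mk (BT.Fa_mk (BT.Fa_leaf (P := Itm.ok 206) (iqf tpr2039_c)) (BT.Fa_leaf (P := Itm.ok 206) (iqb tpr2516_c))) (BT.Fa_mk (BT.Fa_leaf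 (P := Itm.ok 206) (iqb tpr706_c)) (BT.Fa_leaf (P := Itm.ok 206) (iqb tpr2503_c)))))) (BT.Fa_mk (BT.Fa_mk (BT.Fa_mk (BT.Fa_mk (BT.Fa_mk (BT.Fa_leaf (P := Itm.ok 206) (iqf tpr608_c)) (BT.Fa_leaf (P := Itm.ok 206) (iqb tpr2505_c))) (BT.Fa_leaf (P := Itm.ok 206) (iqf tpr2507_c))) (BT.Fa_mk (BT.Fa_leaf (P := Itm.ok 206) (iqb tpr1254_c)) (BT.Fa_leaf (P := Itm.ok 206) (iqb tpr106_c)))) (BT.Fa_mk (BT.Fa_mk (BT.Fa_leaf (P := Itm.ok 206) (iqf tpr968_c)) (BT.Fa_leaf (P := Itm.ok 206) (iqb tpr705_c))) (BT.Fa_mk (BT.Fa_leaf (P := Itm.ok 206) (iqf tpr2195_c)) (BT.Fa_leaf (P := Itm.ok 206) (iqb tpr533_c))))) (BT.Fa_mk (BT.Fa_mk (BT.Fa_mk (BT.Fa_mk (BT.Fa_leaf (P := Itm.ok 206) (iqf tpr1789_c)) (BT.Fa_leaf (P := Itm.ok 206) (iqf tpr2506_c))) (BT.Fa_leaf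 (P := Itm.ok 206) (iqb tpr2512_c))) (BT.Fa_mk (BT.Fa_leaf (P := Itm.ok 206) (iqb tpr2013_c)) (BT.Fa_leaf (P := Itm.ok 206) (iqb tpr1328_c)))) (BT.Fa_mk (BT.Fa_mk (BT.Fa_leaf (P := Itm.ok 206) (iqb tpr2539_c)) (BT.Fa_leaf (P := Itm.ok 206) (iqb tpr6_c))) (BT.Fa_mk (BT.Fa_leaf (P := Itm.ok 206) (iqb tpr2513_c)) (BT.Fa_leaf (P := Itm.ok 206) (iqf tpr738_c))))))) (BT.Fa_mk (BT.Fa_mk (BT.Fa_mk (BT.Fa_mk (BT.Fa_mk (BT.Fa_mk (BT.Fa_leaf (P := Itm.ok 206) (iqf tpr2542_c)) (BT.Fa_leaf (P := Itm.ok 206) (iqb tpr54_c))) (BT.Fa_leaf (P := Itm.ok 206) (iqb tpr2544_c))) (BT.Fa_mk (BT.Fa_leaf (P := Itm.ok 206) (iqf tpr2277_c)) (BT.Fa_leaf (P := Itm.ok 206) (iqb tpr2538_c)))) (BT.Fa_mk (BT.Fa_mk (BT.Fa_leaf (P := Itm.ok 206) (iqb tpr2099_c)) (BT.Fa_leaf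 (P := Itm.ok 206) (iqb tpr2659_c))) (BT.Fa_mk (BT.Fa_leaf (P := Itm.ok 206) (iqb tpr2533_c)) (BT.Fa_leaf (P := Itm.ok 206) (iqf tpr2903_c))))) (BT.Fa_mk (BT.Fa_mk (BT.Fa_mk (BT.Fa_mk (BT.Fa_leaf (P := Itm.ok 206) (iqf tpr12_c)) (BT.Fa_leaf (P := Itm.ok 206) (iqb tpr500_c))) (BT.Fa_leaf (P := Itm.ok 206) (iqf tpr51_c))) (BT.Fa_mk (BT.Fa_leaf (P := Itm.ok 206) (iqb tpr941_c)) (BT.Fa_leaf (P := Itm.ok 206) (iqb tpr20_c)))) (BT.Fa_mk (BT.Fa_mk (BT.Fa_leaf (P := Itm.ok 206) (iqf tpr259_c)) (BT.Fa_leaf (P := Itm.ok 206) (iqf tpr605_c))) (BT.Fa_mk (BT.Fa_leaf (P := Itm.ok 206) (iqb tpr2143_c)) (BT.Fa_leaf (P := Itm.ok 206) (iqf tpr582_c)))))) (BT.Fa_mk (BT.Fa_mk (BT.Fa_mk (BT.Fa_mk (BT.Fa_mk (BT.Fa_leaf (P := Itm.ok 206) (iqb tpr555_c)) (BT.Fa_leaf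 (P := Itm.ok 206) (iqb tpr677_c))) (BT.Fa_leaf (P := Itm.ok 206) (iqb tpr541_c))) (BT.Fa_mk (BT.Fa_leaf (P := Itm.ok 206) (iqb tpr506_c)) (BT.Fa_leaf (P := Itm.ok 206) (iqb tpr10_c)))) (BT.Fa_mk (BT.Fa_mk (BT.Fa_leaf (P := Itm.ok 206) (iqb tpr113_c)) (BT.Fa_leaf (P := Itm.ok 206) (iqb tpr1137_c))) (BT.Fa_mk (BT.Fa_leaf (P := Itm.ok 206) (iqb tpr557_c)) (BT.Fa_leaf (P := Itm.ok 206) (iqf tpr733_c))))) (BT.Fa_mk (BT.Fa_mk (BT.Fa_mk (BT.Fa_leaf (P := Itm.ok 206) (iqb tpr2932_c)) (BT.Fa_leaf (P := Itm.ok 206) (iqf tpr820_c))) (BT.Fa_mk (BT.Fa_leaf (P := Itm.ok 206) (iqf tpr1479_c)) (BT.Fa_leaf (P := Itm.ok 206) (iqf tpr2485_c)))) (BT.Fa_mk (BT.Fa_mk (BT.Fa_leaf (P := Itm.ok 206) (iqf tpr2398_c)) (BT.Fa_leaf (P := Itm.ok 206) (iqb tpr62_c)))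 (BT.Fa_mk (BT.Fa_leaf (P := Itm.ok 206) (iqb tpr2131_c)) (BT.Fa_leaf (P := Itm.ok 206) (iqb tpr2519_c))))))))) (BT.Fa_mk (BT.Fa_mk (BT.Fa_mk (BT.Fa_mk (BT.Fa_mk (BT.Fa_mk (BT.Fa_mk (BT.Fa_mk (BT.Fa_leaf (P := Itm.ok 206) (iqb tpr18_c)) (BT.Fa_leaf (P := Itm.ok 206) (iqb tpr2111_c))) (BT.Fa_leaf (P := Itm.ok 206) (iqb tpr788_c))) (BT.Fa_mk (BT.Fa_leaf (P := Itm.ok 206) (iqb tpr188_c)) (BT.Fa_leaf (P := Itm.ok 206) (iqb tpr1233_c)))) (BT.Fa_mk (BT.Fa_mk (BT.Fa_leaf (P := Itm.ok 206) (iqb tpr39_c)) (BT.Fa_leaf (P := Itm.ok 206) (iqb tpr606_c))) (BT.Fa_mk (BT.Fa_leaf (P := Itm.ok 206) (iqf tpr131_c)) (BT.Fa_leaf (P := Itm.ok 206) (iqf tpr2520_c))))) (BT.Fa_mk (BT.Fa_mk (BT.Fa_mk (BT.Fa_mk (BT.Fa_leaf (P := Itm.ok 206) (iqb tpr239_c)) (BT.Fa_leaf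 (P := Itm.ok 206) (iqf tpr216_c))) (BT.Fa_leaf (P := Itm.ok 206) (iqb tpr9_c))) (BT.Fa_mk (BT.Fa_leaf (P := Itm.ok 206) (iqf tpr35_c)) (BT.Fa_leaf (P := Itm.ok 206) (iqb tpr63_c)))) (BT.Fa_mk (BT.Fa_mk (BT.Fa_leaf (P := Itm.ok 206) (iqf tpr2404_c)) (BT.Fa_leaf (P := Itm.ok 206) (iqb tpr28_c))) (BT.Fa_mk (BT.Fa_leaf (P := Itm.ok 206) (iqf tpr526_c)) (BT.Fa_leaf (P := Itm.ok 206) (iqb tpr31_c)))))) (BT.Fa_mk (BT.Fa_mk (BT.Fa_mk (BT.Fa_mk (BT.Fa_mk (BT.Fa_leaf (P := Itm.ok 206) (iqb tpr21_c)) (BT.Fa_leaf (P := Itm.ok 206) (iqb tpr499_c))) (BT.Fa_leaf (P := Itm.ok 206) (iqf tpr609_c))) (BT.Fa_mk (BT.Fa_leaf (P := Itm.ok 206) (iqb tpr259_c)) (BT.Fa_leaf (P := Itm.ok 206) (iqb tpr2502_c)))) (BT.Fa_mk (BT.Fa_mk (BT.Fa_leaf (P := Itm.ok 206) (iqf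 tpr780_c)) (BT.Fa_leaf (P := Itm.ok 206) (iqf tpr252_c))) (BT.Fa_mk (BT.Fa_leaf (P := Itm.ok 206) (iqf tpr2521_c)) (BT.Fa_leaf (P := Itm.ok 206) (iqb tpr2388_c))))) (BT.Fa_mk (BT.Fa_mk (BT.Fa_mk (BT.Fa_mk (BT.Fa_leaf (P := Itm.ok 206) (iqf tpr1331_c)) (BT.Fa_leaf (P := Itm.ok 206) (iqb tpr53_c))) (BT.Fa_leaf (P := Itm.ok 206) (iqf tpr161_c))) (BT.Fa_mk (BT.Fa_leaf (P := Itm.ok 206) (iqf tpr1320_c)) (BT.Fa_leaf (P := Itm.ok 206) (iqb tpr2295_c)))) (BT.Fa_mk (BT.Fa_mk (BT.Fa_leaf (P := Itm.ok 206) (iqf tpr1355_c)) (BT.Fa_leaf (P := Itm.ok 206) (iqf tpr1341_c))) (BT.Fa_mk (BT.Fa_leaf (P := Itm.ok 206) (iqb tpr2031_c)) (BT.Fa_leaf (P := Itm.ok 206) (iqb tpr721_c))))))) (BT.Fa_mk (BT.Fa_mk (BT.Fa_mk (BT.Fa_mk (BT.Fa_mk (BT.Fa_mk (BT.Fa_leaf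 (P := Itm.ok 206) (iqb tpr748_c)) (BT.Fa_leaf (P := Itm.ok 206) (iqb tpr1681_c))) (BT.Fa_leaf (P := Itm.ok 206) (iqb tpr518_c))) (BT.Fa_mk (BT.Fa_leaf (P := Itm.ok 206) (iqb tpr616_c)) (BT.Fa_leaf (P := Itm.ok 206) (iqf tpr210_c)))) (BT.Fa_mk (BT.Fa_mk (BT.Fa_leaf (P := Itm.ok 206) (iqf tpr1215_c)) (BT.Fa_leaf (P := Itm.ok 206) (iqf tpr1111_c))) (BT.Fa_mk (BT.Fa_leaf (P := Itm.ok 206) (iqb tpr2904_c)) (BT.Fa_leaf (P := Itm.ok 206) (iqf tpr2905_c))))) (BT.Fa_mk (BT.Fa_mk (BT.Fa_mk (BT.Fa_mk (BT.Fa_leaf (P := Itm.ok 206) (iqf tpr645_c)) (BT.Fa_leaf (P := Itm.ok 206) (iqf tpr1100_c))) (BT.Fa_leaf (P := Itm.ok 206) (iqb tpr725_c))) (BT.Fa_mk (BT.Fa_leaf (P := Itm.ok 206) (iqf tpr1754_c)) (BT.Fa_leaf (P := Itm.ok 206) (iqf tpr683_c)))) (BT.Fa_mk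 (BT.Fa_mk (BT.Fa_leaf (P := Itm.ok 206) (iqf tpr2179_c)) (BT.Fa_leaf (P := Itm.ok 206) (iqf tpr2166_c))) (BT.Fa_mk (BT.Fa_leaf (P := Itm.ok 206) (iqf tpr701_c)) (BT.Fa_leaf (P := Itm.ok 206) (iqf tpr656_c)))))) (BT.Fa_mk (BT.Fa_mk (BT.Fa_mk (BT.Fa_mk (BT.Fa_mk (BT.Fa_leaf (P := Itm.ok 206) (iqf tpr2523_c)) (BT.Fa_leaf (P := Itm.ok 206) (iqb tpr1547_c))) (BT.Fa_leaf (P := Itm.ok 206) (iqf tpr2171_c))) (BT.Fa_mk (BT.Fa_leaf (P := Itm.ok 206) (iqb tpr2215_c)) (BT.Fa_leaf (P := Itm.ok 206) (iqb tpr2272_c)))) (BT.Fa_mk (BT.Fa_mk (BT.Fa_leaf (P := Itm.ok 206) (iqb tpr2206_c)) (BT.Fa_leaf (P := Itm.ok 206) (iqb tpr1562_c))) (BT.Fa_mk (BT.Fa_leaf (P := Itm.ok 206) (iqf tpr2163_c)) (BT.Fa_leaf (P := Itm.ok 206) (iqf tpr680_c))))) (BT.Fa_mk (BT.Fa_mk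 (BT.Fa_mk (BT.Fa_leaf (P := Itm.ok 206) (iqf tpr239_c)) (BT.Fa_leaf (P := Itm.ok 206) (iqb tpr588_c))) (BT.Fa_mk (BT.Fa_leaf (P := Itm.ok 206) (iqf tpr982_c)) (BT.Fa_leaf (P := Itm.ok 206) (iqb tpr295_c)))) (BT.Fa_mk (BT.Fa_mk (BT.Fa_leaf (P := Itm.ok 206) (iqb tpr505_c)) (BT.Fa_leaf (P := Itm.ok 206) (iqf tpr1870_c))) (BT.Fa_mk (BT.Fa_leaf (P := Itm.ok 206) (iqf tpr48_c)) (BT.Fa_leaf (P := Itm.ok 206) (iqf tpr618_c)))))))) (BT.Fa_mk (BT.Fa_mk (BT.Fa_mk (BT.Fa_mk (BT.Fa_mk (BT.Fa_mk (BT.Fa_mk (BT.Fa_leaf (P := Itm.ok 206) (iqf tpr1767_c)) (BT.Fa_leaf (P := Itm.ok 206) (iqb tpr517_c))) (BT.Fa_leaf (P := Itm.ok 206) (iqb tpr1182_c))) (BT.Fa_mk (BT.Fa_leaf (P := Itm.ok 206) (iqf tpr613_c)) (BT.Fa_leaf (P := Itm.ok 206) (iqb tpr22_c)))) (BT.Fa_mk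 (BT.Fa_mk (BT.Fa_leaf (P := Itm.ok 206) (iqb tpr581_c)) (BT.Fa_leaf (P := Itm.ok 206) (iqb tpr2164_c))) (BT.Fa_mk (BT.Fa_leaf (P := Itm.ok 206) (iqf tpr1255_c)) (BT.Fa_leaf (P := Itm.ok 206) (iqb tpr582_c))))) (BT.Fa_mk (BT.Fa_mk (BT.Fa_mk (BT.Fa_mk (BT.Fa_leaf (P := Itm.ok 206) (iqf tpr2167_c)) (BT.Fa_leaf (P := Itm.ok 206) (iqf tpr2490_c))) (BT.Fa_leaf (P := Itm.ok 206) (iqf tpr2489_c))) (BT.Fa_mk (BT.Fa_leaf (P := Itm.ok 206) (iqf tpr2532_c)) (BT.Fa_leaf (P := Itm.ok 206) (iqf tpr2267_c)))) (BT.Fa_mk (BT.Fa_mk (BT.Fa_leaf (P := Itm.ok 206) (iqb tpr2524_c)) (BT.Fa_leaf (P := Itm.ok 206) (iqb tpr2278_c))) (BT.Fa_mk (BT.Fa_leaf (P := Itm.ok 206) (iqb tpr2351_c)) (BT.Fa_leaf (P := Itm.ok 206) (iqf tpr2510_c)))))) (BT.Fa_mk (BT.Fa_mk (BT.Fa_mk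 (BT.Fa_mk (BT.Fa_mk (BT.Fa_leaf (P := Itm.ok 206) (iqf tpr2236_c)) (BT.Fa_leaf (P := Itm.ok 206) (iqf tpr2511_c))) (BT.Fa_leaf (P := Itm.ok 206) (iqf tpr2229_c))) (BT.Fa_mk (BT.Fa_leaf (P := Itm.ok 206) (iqf tpr568_c)) (BT.Fa_leaf (P := Itm.ok 206) (iqf tpr2007_c)))) (BT.Fa_mk (BT.Fa_mk (BT.Fa_leaf (P := Itm.ok 206) (iqb tpr2509_c)) (BT.Fa_leaf (P := Itm.ok 206) (iqb tpr2498_c))) (BT.Fa_mk (BT.Fa_leaf (P := Itm.ok 206) (iqf tpr591_c)) (BT.Fa_leaf (P := Itm.ok 206) (iqf tpr627_c))))) (BT.Fa_mk (BT.Fa_mk (BT.Fa_mk (BT.Fa_leaf (P := Itm.ok 206) (iqf tpr17_c)) (BT.Fa_leaf (P := Itm.ok 206) (iqb tpr2508_c))) (BT.Fa_mk (BT.Fa_leaf (P := Itm.ok 206) (iqf tpr2515_c)) (BT.Fa_leaf (P := Itm.ok 206) (iqf tpr1733_c)))) (BT.Fa_mk (BT.Fa_mk (BT.Fa_leaf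 (P := Itm.ok 206) (iqf tpr2525_c)) (BT.Fa_leaf (P := Itm.ok 206) (iqb tpr504_c))) (BT.Fa_mk (BT.Fa_leaf (P := Itm.ok 206) (iqf tpr744_c)) (BT.Fa_leaf (P := Itm.ok 206) (iqb tpr2137_c))))))) (BT.Fa_mk (BT.Fa_mk (BT.Fa_mk (BT.Fa_mk (BT.Fa_mk (BT.Fa_mk (BT.Fa_leaf (P := Itm.ok 206) (iqb tpr575_c)) (BT.Fa_leaf (P := Itm.ok 206) (iqf tpr1764_c))) (BT.Fa_leaf (P := Itm.ok 206) (iqf tpr25_c))) (BT.Fa_mk (BT.Fa_leaf (P := Itm.ok 206) (iqf tpr456_c)) (BT.Fa_leaf (P := Itm.ok 206) (iqb tpr2244_c)))) (BT.Fa_mk (BT.Fa_mk (BT.Fa_leaf (P := Itm.ok 206) (iqb tpr477_c)) (BT.Fa_leaf (P := Itm.ok 206) (iqf tpr479_c))) (BT.Fa_mk (BT.Fa_leaf (P := Itm.ok 206) (iqf tpr1311_c)) (BT.Fa_leaf (P := Itm.ok 206) (iqf tpr485_c))))) (BT.Fa_mk (BT.Fa_mk (BT.Fa_mk (BT.Fa_mk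 (BT.Fa_leaf (P := Itm.ok 206) (iqf tpr198_c)) (BT.Fa_leaf (P := Itm.ok 206) (iqf tpr2153_c))) (BT.Fa_leaf (P := Itm.ok 206) (iqb tpr849_c))) (BT.Fa_mk (BT.Fa_leaf (P := Itm.ok 206) (iqf tpr2500_c)) (BT.Fa_leaf (P := Itm.ok 206) (iqb tpr1370_c)))) (BT.Fa_mk (BT.Fa_mk (BT.Fa_leaf (P := Itm.ok 206) (iqb tpr90_c)) (BT.Fa_leaf (P := Itm.ok 206) (iqf tpr527_c))) (BT.Fa_mk (BT.Fa_leaf (P := Itm.ok 206) (iqf tpr617_c)) (BT.Fa_leaf (P := Itm.ok 206) (iqb tpr263_c)))))) (BT.Fa_mk (BT.Fa_mk (BT.Fa_mk (BT.Fa_mk (BT.Fa_mk (BT.Fa_leaf (P := Itm.ok 206) (iqf tpr1010_c)) (BT.Fa_leaf (P := Itm.ok 206) (iqf tpr522_c))) (BT.Fa_leaf (P := Itm.ok 206) (iqb tpr1839_c))) (BT.Fa_mk (BT.Fa_leaf (P := Itm.ok 206) (iqb tpr1247_c)) (BT.Fa_leaf (P := Itm.ok 206) (iqf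 tpr464_c)))) (BT.Fa_mk (BT.Fa_mk (BT.Fa_leaf (P := Itm.ok 206) (iqb tpr2243_c)) (BT.Fa_leaf (P := Itm.ok 206) (iqf tpr931_c))) (BT.Fa_mk (BT.Fa_leaf (P := Itm.ok 206) (iqf tpr2310_c)) (BT.Fa_leaf (P := Itm.ok 206) (iqf tpr1771_c))))) (BT.Fa_mk (BT.Fa_mk (BT.Fa_mk (BT.Fa_leaf (P := Itm.ok 206) (iqf tpr2933_c)) (BT.Fa_leaf (P := Itm.ok 206) (iqb tpr2635_c))) (BT.Fa_mk (BT.Fa_leaf (P := Itm.ok 206) (iqf tpr2660_c)) (BT.Fa_leaf (P := Itm.ok 206) (iqf tpr2307_c)))) (BT.Fa_mk (BT.Fa_mk (BT.Fa_leaf (P := Itm.ok 206) (iqf tpr2549_c)) (BT.Fa_leaf (P := Itm.ok 206) (iqf tpr466_c))) (BT.Fa_mk (BT.Fa_leaf (P := Itm.ok 206) (iqb tpr2554_c)) (BT.Fa_leaf (P := Itm.ok 206) (iqb tpr645_c))))))))))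

/-- all words of the class have labels -/
theorem pokNFzAyE2ByA3H2AzIzA2H3A2E2A2AzAyAyF : POK 206 xNFzAyE2ByA3H2AzIzA2H3A2E2A2AzAyAyF :=
  y_pok (C0 := ceNFzAyE2ByA3H2AzIzA2H3A2E2A2AzAyAyF) (C1 := coNFzAyE2ByA3H2AzIzA2H3A2E2A2AzAyAyF) topNFzAyE2ByA3H2AzIzA2H3A2E2A2AzAyAyF nbNFzAyE2ByA3H2AzIzA2H3A2E2A2AzAyAyF (BT.Fa_of_all iiNFzAyE2ByA3H2AzIzA2H3A2E2A2AzAyAyF_c)
    (BT.Fa_mk (BT.Fa_mk (BT.Fa_mk (cyE_spec zeNFzAyE2ByA3H2AzIzA2H3A2E2A2AzAyAyF_0) (cyE_spec zeNFzAyE2ByA3H2AzIzA2H3A2E2A2AzAyAyF_1)) (BT.Fa_mk (cyE_spec zeNFzAyE2ByA3H2AzIzA2H3A2E2A2AzAyAyF_2) (cyE_spec zeNFzAyE2ByA3H2AzIzA2H3A2E2A2AzAyAyF_3))) (BT.Fa_mk (BT.Fa_mk (cyE_spec zeNFzAyE2ByA3H2AzIzA2H3A2E2A2AzAyAyF_4) (BT.Fa_mk (cyE_spec zeNFzAyE2ByA3H2AzIzA2H3A2E2A2AzAyAyF_5) (cyE_spec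 zeNFzAyE2ByA3H2AzIzA2H3A2E2A2AzAyAyF_6))) (BT.Fa_mk (BT.Fa_mk (cyE_spec zeNFzAyE2ByA3H2AzIzA2H3A2E2A2AzAyAyF_7) (cyE_spec zeNFzAyE2ByA3H2AzIzA2H3A2E2A2AzAyAyF_8)) (BT.Fa_mk (cyE_spec zeNFzAyE2ByA3H2AzIzA2H3A2E2A2AzAyAyF_9) (cyE_spec zeNFzAyE2ByA3H2AzIzA2H3A2E2A2AzAyAyF_10)))))
    (BT.Fa_mk (BT.Fa_mk (BT.Fa_mk (cyO_spec zoNFzAyE2ByA3H2AzIzA2H3A2E2A2AzAyAyF_0) (cyO_spec zoNFzAyE2ByA3H2AzIzA2H3A2E2A2AzAyAyF_1)) (BT.Fa_mk (cyO_spec zoNFzAyE2ByA3H2AzIzA2H3A2E2A2AzAyAyF_2) (cyO_spec zoNFzAyE2ByA3H2AzIzA2H3A2E2A2AzAyAyF_3))) (BT.Fa_mk (BT.Fa_mk (cyO_spec zoNFzAyE2ByA3H2AzIzA2H3A2E2A2AzAyAyF_4) (BT.Fa_mk (cyO_spec zoNFzAyE2ByA3H2AzIzA2H3A2E2A2AzAyAyF_5) (cyO_spec zoNFzAyE2ByA3H2AzIzA2H3A2E2A2AzAyAyF_6))) (BT.Fa_mk (BT.Fa_mk (cyO_spec zoNFzAyE2ByA3H2AzIzA2H3A2E2A2AzAyAyF_7)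 (cyO_spec zoNFzAyE2ByA3H2AzIzA2H3A2E2A2AzAyAyF_8)) (BT.Fa_mk (cyO_spec zoNFzAyE2ByA3H2AzIzA2H3A2E2A2AzAyAyF_9) (cyO_spec zoNFzAyE2ByA3H2AzIzA2H3A2E2A2AzAyAyF_10)))))
    iiNFzAyE2ByA3H2AzIzA2H3A2E2A2AzAyAyF_k


end MPb6R
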