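import Pool.Agent.Lib.MP_b6d339_lc.Cw3.YFzE2ByA3H2ByAzAyB2H3A2EzF
import Pool.Agent.Lib.MP_b6d339_lc.Cw3.XL
import Pool.Agent.Lib.MP_b6d339_lc.Cw3.T0
import Pool.Agent.Lib.MP_b6d339_lc.Cw3.T1
import Pool.Agent.Lib.MP_b6d339_lc.Cw3.T10
import Pool.Agent.Lib.MP_b6d339_lc.Cw3.T11
import Pool.Agent.Lib.MP_b6d339_lc.Cw3.T12
import Pool.Agent.Lib.MP_b6d339_lc.Cw3.T13
import Pool.Agent.Lib.MP_b6d339_lc.Cw3.T14
import Pool.Agent.Lib.MP_b6d339_lc.Cw3.T15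
import Pool.Agent.Lib.MP_b6d339_lc.Cw3.T2
import Pool.Agent.Lib.MP_b6d339_lc.Cw3.T22
import Pool.Agent.Lib.MP_b6d339_lc.Cw3.T3
import Pool.Agent.Lib.MP_b6d339_lc.Cw3.T34
import Pool.Agent.Lib.MP_b6d339_lc.Cw3.T37
import Pool.Agent.Lib.MP_b6d339_lc.Cw3.T4
import Pool.Agent.Lib.MP_b6d339_lc.Cw3.T5
import Pool.Agent.Lib.MP_b6d339_lc.Cw3.T6
import Pool.Agent.Lib.MP_b6d339_lc.Cw3.T7
import Pool.Agent.Lib.MP_b6d339_lc.Cw3.T8
import Pool.Agent.Lib.MP_b6d339_lc.Cw3.T9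

/-!
# Erdős 592, three levels: items
-/

namespace MPb6R

open MPb6P

noncomputable def iiNFzE2ByA3H2ByAzAyB2H3A2EzF : BT Itm := (.node (.node (.node (.node (.node (.node (.node (.node (.node (.leaf (.fwd 0 13 tpr500.df)) (.leaf (.fwd 13 16 tpr168.df))) (.leaf (.bwd 29 27 tpr589.df))) (.node (.leaf (.bwd 56 21 tpr72.df)) (.leaf (.bwd 77 23 tpr605.df)))) (.node (.node (.leaf (.bwd 100 27 tpr236.df)) (.leaf (.fwd 127 24 tpr609.df))) (.node (.leaf (.fwd 151 32 tpr251.df)) (.leaf (.fwd 183 29 tpr656.df))))) (.node (.node (.node (.leaf (.fwd 212 23 tpr605.df)) (.leaf (.bwd 235 22 tpr959.df))) (.node (.leaf (.bwd 257 27 tpr682.df)) (.leaf (.fwd 284 34 tpr54.df)))) (.node (.node (.leaf (.fwd 318 21 tpr8.df)) (.leaf (.fwd 339 22 tpr239.df))) (.node (.leaf (.fwd 361 29 tpr608.df)) (.leaf (.fwd 390 28 tpr721.df)))))) (.node (.node (.node (.node (.leaf (.bwd 418 37 tpr556.df)) (.leaf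 (.fwd 455 23 tpr5.df))) (.node (.leaf (.bwd 478 23 tpr508.df)) (.leaf (.bwd 501 30 tpr235.df)))) (.node (.node (.leaf (.fwd 531 31 tpr527.df)) (.leaf (.bwd 562 35 tpr1200.df))) (.node (.leaf (.bwd 597 31 tpr167.df)) (.leaf (.bwd 628 39 tpr636.df))))) (.node (.node (.node (.leaf (.bwd 667 32 tpr1065.df)) (.leaf (.fwd 699 33 tpr501.df))) (.node (.leaf (.bwd 732 35 tpr585.df)) (.leaf (.bwd 767 26 tpr675.df)))) (.node (.node (.leaf (.fwd 793 35 tpr568.df)) (.leaf (.fwd 828 34 tpr619.df))) (.node (.leaf (.fwd 862 27 tpr499.df)) (.leaf (.bwd 889 26 tpr222.df))))))) (.node (.node (.node (.node (.node (.leaf (.fwd 915 23 tpr780.df)) (.leaf (.fwd 938 27 tpr562.df))) (.node (.leaf (.bwd 965 33 tpr968.df)) (.leaf (.fwd 998 29 tpr618.df)))) (.node (.node (.leaf (.bwd 1027 16 tpr804.df)) (.leaf (.fwd 1043 23 tpr559.df))) (.node (.leaf (.fwd 1066 30 tpr613.df)) (.leaf (.fwd 1096 15 tpr419.df)))))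 (.node (.node (.node (.leaf (.fwd 1111 29 tpr666.df)) (.leaf (.fwd 1140 35 tpr1200.df))) (.node (.leaf (.fwd 1175 37 tpr639.df)) (.leaf (.bwd 1212 42 tpr612.df)))) (.node (.node (.leaf (.bwd 1254 20 tpr505.df)) (.leaf (.bwd 1274 24 tpr730.df))) (.node (.leaf (.fwd 1298 22 tpr515.df)) (.leaf (.fwd 1320 29 tpr641.df)))))) (.node (.node (.node (.node (.leaf (.fwd 1349 33 tpr680.df)) (.leaf (.fwd 1382 33 tpr968.df))) (.node (.leaf (.fwd 1415 27 tpr625.df)) (.leaf (.fwd 1442 40 tpr705.df)))) (.node (.node (.leaf (.bwd 1482 26 tpr700.df)) (.leaf (.bwd 1508 54 tpr1193.df))) (.node (.leaf (.bwd 1562 29 tpr647.df)) (.leaf (.bwd 1591 30 tpr577.df))))) (.node (.node (.node (.leaf (.fwd 1621 32 tpr620.df)) (.leaf (.fwd 1653 33 tpr869.df))) (.node (.leaf (.fwd 1686 33 tpr2745.df)) (.leaf (.fwd 1719 30 tpr1227.df)))) (.node (.node (.leaf (.bwd 1749 30 tpr1058.df)) (.leaf (.fwd 1779 29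 tpr637.df))) (.node (.leaf (.bwd 1808 60 tpr630.df)) (.leaf (.bwd 1868 39 tpr701.df)))))))) (.node (.node (.node (.node (.node (.node (.node (.leaf (.bwd 1907 37 tpr406.df)) (.leaf (.fwd 1944 42 tpr344.df))) (.leaf (.fwd 1986 34 tpr643.df))) (.node (.leaf (.bwd 2020 41 tpr1182.df)) (.leaf (.fwd 2061 61 tpr695.df)))) (.node (.node (.leaf (.fwd 2122 37 tpr720.df)) (.leaf (.fwd 2159 37 tpr1190.df))) (.node (.leaf (.fwd 2196 23 tpr508.df)) (.leaf (.bwd 2219 28 tpr511.df))))) (.node (.node (.node (.leaf (.bwd 2247 31 tpr607.df)) (.leaf (.bwd 2278 22 tpr239.df))) (.node (.leaf (.fwd 2300 27 tpr82.df)) (.leaf (.bwd 2327 28 tpr507.df)))) (.node (.node (.leaf (.fwd 2355 24 tpr635.df)) (.leaf (.bwd 2379 29 tpr22.df))) (.node (.leaf (.fwd 2408 37 tpr555.df)) (.leaf (.bwd 2445 35 tpr568.df)))))) (.node (.node (.node (.node (.leaf (.bwd 2480 44 tpr617.df)) (.leaf (.fwd 2524 45 tpr596.df)))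 (.node (.leaf (.bwd 2569 28 tpr510.df)) (.leaf (.fwd 2597 33 tpr521.df)))) (.node (.node (.leaf (.fwd 2630 44 tpr617.df)) (.leaf (.fwd 2674 42 tpr612.df))) (.node (.leaf (.bwd 2716 37 tpr555.df)) (.leaf (.fwd 2753 39 tpr210.df))))) (.node (.node (.node (.leaf (.bwd 2792 38 tpr203.df)) (.leaf (.bwd 2830 21 tpr629.df))) (.node (.leaf (.fwd 2851 28 tpr511.df)) (.leaf (.bwd 2879 30 tpr513.df)))) (.node (.node (.leaf (.fwd 2909 32 tpr17.df)) (.leaf (.fwd 2941 20 tpr103.df))) (.node (.leaf (.bwd 2961 33 tpr1099.df)) (.leaf (.bwd 2994 22 tpr504.df))))))) (.node (.node (.node (.node (.node (.leaf (.bwd 3016 28 tpr1021.df)) (.leaf (.bwd 3044 40 tpr1002.df))) (.node (.leaf (.fwd 3084 55 tpr1201.df)) (.leaf (.fwd 3139 35 tpr574.df)))) (.node (.node (.leaf (.bwd 3174 40 tpr705.df)) (.leaf (.bwd 3214 31 tpr606.df))) (.node (.leaf (.bwd 3245 31 tpr557.df)) (.leaf (.fwd 3276 29 tpr9.df)))))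 (.node (.node (.node (.leaf (.bwd 3305 43 tpr566.df)) (.leaf (.fwd 3348 36 tpr573.df))) (.node (.leaf (.bwd 3384 19 tpr429.df)) (.leaf (.bwd 3403 31 tpr527.df)))) (.node (.node (.leaf (.bwd 3434 27 tpr82.df)) (.leaf (.fwd 3461 31 tpr198.df))) (.node (.leaf (.bwd 3492 28 tpr610.df)) (.leaf (.fwd 3520 46 tpr324.df)))))) (.node (.node (.node (.node (.leaf (.fwd 3566 30 tpr26.df)) (.leaf (.bwd 3596 28 tpr546.df))) (.node (.leaf (.bwd 3624 32 tpr247.df)) (.leaf (.fwd 3656 34 tpr664.df)))) (.node (.node (.leaf (.bwd 3690 34 tpr628.df)) (.leaf (.fwd 3724 29 tpr22.df))) (.node (.leaf (.bwd 3753 32 tpr518.df)) (.leaf (.bwd 3785 21 tpr8.df))))) (.node (.node (.node (.leaf (.bwd 3806 39 tpr78.df)) (.leaf (.bwd 3845 39 tpr81.df))) (.node (.leaf (.bwd 3884 35 tpr123.df)) (.leaf (.fwd 3919 17 tpr16.df)))) (.node (.node (.leaf (.bwd 3936 43 tpr122.df)) (.leaf (.bwd 3979 56 tpr87.df)))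 (.node (.leaf (.bwd 4035 25 tpr644.df)) (.leaf (.bwd 4060 28 tpr295.df))))))))) (.node (.node (.node (.node (.node (.node (.node (.node (.leaf (.fwd 4088 34 tpr15.df)) (.leaf (.bwd 4122 34 tpr54.df))) (.leaf (.bwd 4156 30 tpr626.df))) (.node (.leaf (.fwd 4186 18 tpr18.df)) (.leaf (.bwd 4204 25 tpr51.df)))) (.node (.node (.leaf (.bwd 4229 28 tpr223.df)) (.leaf (.fwd 4257 55 tpr314.df))) (.node (.leaf (.fwd 4312 23 tpr640.df)) (.leaf (.bwd 4335 27 tpr506.df))))) (.node (.node (.node (.leaf (.fwd 4362 40 tpr1002.df)) (.leaf (.bwd 4402 40 tpr724.df))) (.node (.leaf (.bwd 4442 55 tpr1201.df)) (.leaf (.fwd 4497 37 tpr583.df)))) (.node (.node (.leaf (.bwd 4534 36 tpr23.df)) (.leaf (.bwd 4570 28 tpr627.df))) (.node (.leaf (.fwd 4598 26 tpr516.df)) (.leaf (.fwd 4624 36 tpr75.df)))))) (.node (.node (.node (.node (.leaf (.fwd 4660 25 tpr74.df)) (.leaf (.fwd 4685 37 tpr621.df))) (.node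 (.leaf (.fwd 4722 31 tpr339.df)) (.leaf (.fwd 4753 38 tpr393.df)))) (.node (.node (.leaf (.fwd 4791 41 tpr549.df)) (.leaf (.fwd 4832 35 tpr89.df))) (.node (.leaf (.fwd 4867 30 tpr626.df)) (.leaf (.fwd 4897 39 tpr642.df))))) (.node (.node (.node (.leaf (.fwd 4936 29 tpr151.df)) (.leaf (.bwd 4965 24 tpr743.df))) (.node (.leaf (.bwd 4989 29 tpr2973.df)) (.leaf (.fwd 5018 37 tpr706.df)))) (.node (.node (.leaf (.bwd 5055 29 tpr978.df)) (.leaf (.bwd 5084 43 tpr676.df))) (.node (.leaf (.bwd 5127 35 tpr1183.df)) (.leaf (.fwd 5162 44 tpr592.df))))))) (.node (.node (.node (.node (.node (.leaf (.bwd 5206 46 tpr593.df)) (.leaf (.fwd 5252 19 tpr616.df))) (.node (.leaf (.bwd 5271 26 tpr516.df)) (.leaf (.bwd 5297 32 tpr17.df)))) (.node (.node (.leaf (.fwd 5329 20 tpr505.df)) (.leaf (.fwd 5349 28 tpr610.df))) (.node (.leaf (.fwd 5377 39 tpr569.df)) (.leaf (.bwd 5416 29 tpr9.df))))) (.node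 (.node (.node (.leaf (.bwd 5445 23 tpr640.df)) (.leaf (.bwd 5468 29 tpr151.df))) (.node (.leaf (.fwd 5497 32 tpr591.df)) (.leaf (.bwd 5529 32 tpr620.df)))) (.node (.node (.leaf (.fwd 5561 28 tpr627.df)) (.leaf (.bwd 5589 37 tpr706.df))) (.node (.leaf (.bwd 5626 48 tpr649.df)) (.leaf (.bwd 5674 33 tpr631.df)))))) (.node (.node (.node (.node (.leaf (.bwd 5707 34 tpr1195.df)) (.leaf (.fwd 5741 31 tpr712.df))) (.node (.leaf (.bwd 5772 27 tpr625.df)) (.leaf (.bwd 5799 25 tpr106.df)))) (.node (.node (.leaf (.fwd 5824 40 tpr670.df)) (.leaf (.bwd 5864 29 tpr582.df))) (.node (.leaf (.fwd 5893 37 tpr520.df)) (.leaf (.fwd 5930 44 tpr466.df))))) (.node (.node (.node (.leaf (.fwd 5974 36 tpr23.df)) (.leaf (.fwd 6010 24 tpr1806.df))) (.node (.leaf (.bwd 6034 31 tpr517.df)) (.leaf (.bwd 6065 44 tpr592.df)))) (.node (.node (.leaf (.fwd 6109 43 tpr676.df)) (.leaf (.fwd 6152 46 tpr593.df)))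 (.node (.leaf (.bwd 6198 29 tpr545.df)) (.leaf (.fwd 6227 37 tpr503.df)))))))) (.node (.node (.node (.node (.node (.node (.node (.leaf (.fwd 6264 31 tpr576.df)) (.leaf (.bwd 6295 29 tpr579.df))) (.leaf (.bwd 6324 41 tpr502.df))) (.node (.leaf (.bwd 6365 42 tpr1196.df)) (.leaf (.bwd 6407 48 tpr684.df)))) (.node (.node (.leaf (.bwd 6455 26 tpr509.df)) (.leaf (.fwd 6481 35 tpr91.df))) (.node (.leaf (.bwd 6516 36 tpr683.df)) (.leaf (.fwd 6552 37 tpr523.df))))) (.node (.node (.node (.leaf (.bwd 6589 38 tpr519.df)) (.leaf (.bwd 6627 36 tpr547.df))) (.node (.leaf (.fwd 6663 32 tpr550.df)) (.leaf (.fwd 6695 34 tpr548.df)))) (.node (.node (.leaf (.bwd 6729 33 tpr680.df)) (.leaf (.bwd 6762 28 tpr588.df))) (.node (.leaf (.bwd 6790 22 tpr581.df)) (.leaf (.bwd 6812 29 tpr623.df)))))) (.node (.node (.node (.node (.leaf (.fwd 6841 38 tpr519.df)) (.leaf (.fwd 6879 34 tpr543.df))) (.node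 (.leaf (.bwd 6913 34 tpr575.df)) (.leaf (.fwd 6947 29 tpr746.df)))) (.node (.node (.leaf (.bwd 6976 44 tpr725.df)) (.leaf (.bwd 7020 45 tpr596.df))) (.node (.leaf (.fwd 7065 37 tpr1199.df)) (.leaf (.fwd 7102 34 tpr691.df))))) (.node (.node (.node (.leaf (.bwd 7136 29 tpr1192.df)) (.leaf (.fwd 7165 35 tpr622.df))) (.node (.leaf (.bwd 7200 35 tpr602.df)) (.leaf (.fwd 7235 39 tpr514.df)))) (.node (.node (.leaf (.fwd 7274 33 tpr1215.df)) (.leaf (.bwd 7307 43 tpr1198.df))) (.node (.leaf (.bwd 7350 35 tpr1181.df)) (.leaf (.bwd 7385 28 tpr967.df))))))) (.node (.node (.node (.node (.node (.leaf (.fwd 7413 33 tpr538.df)) (.leaf (.fwd 7446 36 tpr662.df))) (.node (.leaf (.fwd 7482 36 tpr672.df)) (.leaf (.bwd 7518 33 tpr1205.df)))) (.node (.node (.leaf (.fwd 7551 30 tpr989.df)) (.leaf (.bwd 7581 33 tpr661.df))) (.node (.leaf (.bwd 7614 41 tpr552.df)) (.leaf (.bwd 7655 36 tpr634.df)))))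 (.node (.node (.node (.leaf (.fwd 7691 37 tpr553.df)) (.leaf (.bwd 7728 37 tpr583.df))) (.node (.leaf (.fwd 7765 38 tpr526.df)) (.leaf (.fwd 7803 43 tpr565.df)))) (.node (.node (.leaf (.fwd 7846 37 tpr687.df)) (.leaf (.fwd 7883 31 tpr704.df))) (.node (.leaf (.bwd 7914 36 tpr1194.df)) (.leaf (.fwd 7950 37 tpr688.df)))))) (.node (.node (.node (.node (.leaf (.fwd 7987 29 tpr698.df)) (.leaf (.bwd 8016 34 tpr1204.df))) (.node (.leaf (.fwd 8050 36 tpr686.df)) (.leaf (.bwd 8086 41 tpr715.df)))) (.node (.node (.leaf (.fwd 8127 39 tpr636.df)) (.leaf (.bwd 8166 29 tpr641.df))) (.node (.leaf (.bwd 8195 31 tpr704.df)) (.leaf (.fwd 8226 33 tpr663.df))))) (.node (.node (.node (.leaf (.fwd 8259 41 tpr502.df)) (.leaf (.fwd 8300 22 tpr536.df))) (.node (.leaf (.fwd 8322 25 tpr702.df)) (.leaf (.fwd 8347 42 tpr1196.df)))) (.node (.node (.leaf (.bwd 8389 29 tpr894.df)) (.leaf (.bwd 8418 32 tpr669.df)))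 (.node (.leaf (.fwd 8450 32 tpr522.df)) (.leaf (.bwd 8482 33 tpr1213.df))))))))))

theorem iiNFzE2ByA3H2ByAzAyB2H3A2EzF_c : iiNFzE2ByA3H2ByAzAyB2H3A2EzF.all (itB (ng 61 nnNFzE2ByA3H2ByAzAyB2H3A2EzF)) = true := by decide +kernel
theorem nbNFzE2ByA3H2ByAzAyB2H3A2EzF : nbB 61 8576 nnNFzE2ByA3H2ByAzAyB2H3A2EzF = true := by decide +kernel
theorem topNFzE2ByA3H2ByAzAyB2H3A2EzF : topY 8576 ttNFzE2ByA3H2ByAzAyB2H3A2EzF ceNFzE2ByA3H2ByAzAyB2H3A2EzF xNFzE2ByA3H2ByAzAyB2H3A2EzF iiNFzE2ByA3H2ByAzAyB2H3A2EzF = true := by decide +kernel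

end MPb6R
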