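import Pool.Agent.Lib.MP_b6d339_lc.Cw3.YFzE2ByA3H2ByAzAyB2H3AyB2EzF
import Pool.Agent.Lib.MP_b6d339_lc.Cw3.XL
import Pool.Agent.Lib.MP_b6d339_lc.Cw3.T0
import Pool.Agent.Lib.MP_b6d339_lc.Cw3.T1
import Pool.Agent.Lib.MP_b6d339_lc.Cw3.T11
import Pool.Agent.Lib.MP_b6d339_lc.Cw3.T12
import Pool.Agent.Lib.MP_b6d339_lc.Cw3.T13
import Pool.Agent.Lib.MP_b6d339_lc.Cw3.T14
import Pool.Agent.Lib.MP_b6d339_lc.Cw3.T15
import Pool.Agent.Lib.MP_b6d339_lc.Cw3.T18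
import Pool.Agent.Lib.MP_b6d339_lc.Cw3.T2
import Pool.Agent.Lib.MP_b6d339_lc.Cw3.T22
import Pool.Agent.Lib.MP_b6d339_lc.Cw3.T24
import Pool.Agent.Lib.MP_b6d339_lc.Cw3.T3
import Pool.Agent.Lib.MP_b6d339_lc.Cw3.T37
import Pool.Agent.Lib.MP_b6d339_lc.Cw3.T5
import Pool.Agent.Lib.MP_b6d339_lc.Cw3.T6
import Pool.Agent.Lib.MP_b6d339_lc.Cw3.T7
import Pool.Agent.Lib.MP_b6d339_lc.Cw3.T8
import Pool.Agent.Lib.MP_b6d339_lc.Cw3.T9

/-!
# Erdős 592, three levels: items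
-/

namespace MPb6R

open MPb6P

noncomputable def iiNFzE2ByA3H2ByAzAyB2H3AyB2EzF : BT Itm := (.node (.node (.node (.node (.node (.node (.node (.node (.node (.leaf (.fwd 0 29 tpr9.df)) (.leaf (.bwd 29 27 tpr82.df))) (.leaf (.fwd 56 27 tpr82.df))) (.node (.node (.leaf (.fwd 83 37 tpr555.df)) (.leaf (.fwd 120 31 tpr607.df))) (.leaf (.bwd 151 21 tpr8.df)))) (.node (.node (.node (.leaf (.bwd 172 31 tpr527.df)) (.leaf (.bwd 203 32 tpr518.df))) (.leaf (.bwd 235 31 tpr606.df))) (.node (.leaf (.bwd 266 27 tpr506.df)) (.leaf (.bwd 293 32 tpr620.df))))) (.node (.node (.node (.node (.leaf (.bwd 325 26 tpr700.df)) (.leaf (.bwd 351 27 tpr540.df))) (.leaf (.bwd 378 25 tpr1016.df))) (.node (.leaf (.bwd 403 24 tpr635.df)) (.leaf (.bwd 427 26 tpr222.df)))) (.node (.node (.node (.leaf (.bwd 453 30 tpr235.df)) (.leaf (.bwd 483 32 tpr247.df))) (.leaf (.bwd 515 28 tpr1021.df))) (.node (.leaf (.bwd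 543 23 tpr605.df)) (.leaf (.bwd 566 32 tpr251.df)))))) (.node (.node (.node (.node (.node (.leaf (.fwd 598 32 tpr518.df)) (.leaf (.bwd 630 35 tpr1129.df))) (.leaf (.fwd 665 25 tpr1016.df))) (.node (.node (.leaf (.bwd 690 35 tpr1015.df)) (.leaf (.fwd 725 33 tpr501.df))) (.leaf (.fwd 758 24 tpr1806.df)))) (.node (.node (.node (.leaf (.bwd 782 20 tpr505.df)) (.leaf (.fwd 802 45 tpr740.df))) (.leaf (.fwd 847 32 tpr251.df))) (.node (.leaf (.bwd 879 40 tpr62.df)) (.leaf (.bwd 919 48 tpr684.df))))) (.node (.node (.node (.node (.leaf (.bwd 967 28 tpr563.df)) (.leaf (.fwd 995 26 tpr516.df))) (.leaf (.fwd 1021 29 tpr22.df))) (.node (.leaf (.bwd 1050 37 tpr555.df)) (.leaf (.bwd 1087 29 tpr608.df)))) (.node (.node (.node (.leaf (.bwd 1116 29 tpr656.df)) (.leaf (.bwd 1145 42 tpr612.df))) (.leaf (.fwd 1187 21 tpr90.df))) (.node (.leaf (.bwd 1208 36 tpr547.df)) (.leaf (.fwd 1244 36 tpr573.df)))))))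 (.node (.node (.node (.node (.node (.node (.leaf (.fwd 1280 27 tpr499.df)) (.leaf (.bwd 1307 16 tpr168.df))) (.leaf (.fwd 1323 27 tpr506.df))) (.node (.node (.leaf (.fwd 1350 32 tpr247.df)) (.leaf (.fwd 1382 35 tpr554.df))) (.leaf (.fwd 1417 34 tpr548.df)))) (.node (.node (.node (.leaf (.bwd 1451 32 tpr17.df)) (.leaf (.bwd 1483 31 tpr607.df))) (.leaf (.bwd 1514 29 tpr22.df))) (.node (.leaf (.fwd 1543 45 tpr611.df)) (.leaf (.fwd 1588 35 tpr91.df))))) (.node (.node (.node (.node (.leaf (.fwd 1623 28 tpr1021.df)) (.leaf (.fwd 1651 32 tpr17.df))) (.leaf (.bwd 1683 39 tpr701.df))) (.node (.leaf (.bwd 1722 35 tpr568.df)) (.leaf (.bwd 1757 23 tpr508.df)))) (.node (.node (.node (.leaf (.fwd 1780 31 tpr606.df)) (.leaf (.bwd 1811 39 tpr210.df))) (.leaf (.fwd 1850 27 tpr236.df))) (.node (.leaf (.bwd 1877 45 tpr596.df)) (.leaf (.bwd 1922 26 tpr509.df)))))) (.node (.node (.node (.node (.node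 (.leaf (.bwd 1948 28 tpr546.df)) (.leaf (.bwd 1976 41 tpr624.df))) (.leaf (.bwd 2017 28 tpr511.df))) (.node (.node (.leaf (.bwd 2045 38 tpr519.df)) (.leaf (.bwd 2083 22 tpr572.df))) (.leaf (.fwd 2105 45 tpr596.df)))) (.node (.node (.node (.leaf (.fwd 2150 37 tpr556.df)) (.leaf (.fwd 2187 27 tpr625.df))) (.leaf (.bwd 2214 19 tpr616.df))) (.node (.leaf (.fwd 2233 35 tpr568.df)) (.leaf (.fwd 2268 39 tpr210.df))))) (.node (.node (.node (.node (.leaf (.fwd 2307 28 tpr1013.df)) (.leaf (.fwd 2335 41 tpr502.df))) (.leaf (.fwd 2376 31 tpr527.df))) (.node (.leaf (.fwd 2407 29 tpr641.df)) (.leaf (.bwd 2436 27 tpr499.df)))) (.node (.node (.node (.leaf (.bwd 2463 29 tpr623.df)) (.leaf (.bwd 2492 27 tpr625.df))) (.leaf (.bwd 2519 21 tpr90.df))) (.node (.leaf (.bwd 2540 26 tpr516.df)) (.leaf (.fwd 2566 20 tpr505.df)))))))) (.node (.node (.node (.node (.node (.node (.node (.leaf (.fwd 2586 29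 tpr608.df)) (.leaf (.fwd 2615 27 tpr589.df))) (.leaf (.bwd 2642 27 tpr562.df))) (.node (.node (.leaf (.bwd 2669 18 tpr18.df)) (.leaf (.bwd 2687 29 tpr9.df))) (.leaf (.fwd 2716 28 tpr223.df)))) (.node (.node (.node (.leaf (.bwd 2744 23 tpr640.df)) (.leaf (.fwd 2767 34 tpr54.df))) (.leaf (.fwd 2801 39 tpr569.df))) (.node (.leaf (.bwd 2840 39 tpr642.df)) (.leaf (.bwd 2879 29 tpr618.df))))) (.node (.node (.node (.node (.leaf (.fwd 2908 39 tpr701.df)) (.leaf (.fwd 2947 29 tpr582.df))) (.leaf (.bwd 2976 31 tpr517.df))) (.node (.leaf (.fwd 3007 44 tpr617.df)) (.leaf (.bwd 3051 34 tpr614.df)))) (.node (.node (.node (.leaf (.fwd 3085 32 tpr620.df)) (.leaf (.bwd 3117 33 tpr680.df))) (.leaf (.fwd 3150 29 tpr618.df))) (.node (.leaf (.fwd 3179 41 tpr624.df)) (.leaf (.bwd 3220 44 tpr617.df)))))) (.node (.node (.node (.node (.node (.leaf (.bwd 3264 28 tpr1018.df)) (.leaf (.bwd 3292 34 tpr548.df)))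 (.leaf (.fwd 3326 25 tpr644.df))) (.node (.node (.leaf (.fwd 3351 24 tpr730.df)) (.leaf (.fwd 3375 30 tpr613.df))) (.leaf (.bwd 3405 37 tpr553.df)))) (.node (.node (.node (.leaf (.fwd 3442 34 tpr614.df)) (.leaf (.bwd 3476 33 tpr501.df))) (.leaf (.bwd 3509 22 tpr239.df))) (.node (.leaf (.fwd 3531 28 tpr610.df)) (.leaf (.bwd 3559 33 tpr631.df))))) (.node (.node (.node (.node (.leaf (.bwd 3592 29 tpr641.df)) (.leaf (.fwd 3621 24 tpr609.df))) (.leaf (.fwd 3645 42 tpr612.df))) (.node (.leaf (.fwd 3687 30 tpr235.df)) (.leaf (.bwd 3717 26 tpr675.df)))) (.node (.node (.node (.leaf (.fwd 3743 26 tpr700.df)) (.leaf (.bwd 3769 29 tpr545.df))) (.leaf (.fwd 3798 33 tpr968.df))) (.node (.leaf (.bwd 3831 36 tpr573.df)) (.leaf (.fwd 3867 37 tpr553.df))))))) (.node (.node (.node (.node (.node (.node (.leaf (.fwd 3904 48 tpr684.df)) (.leaf (.bwd 3952 35 tpr703.df))) (.leaf (.bwd 3987 27 tpr682.df)))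 (.node (.node (.leaf (.fwd 4014 35 tpr541.df)) (.leaf (.fwd 4049 22 tpr572.df))) (.leaf (.bwd 4071 33 tpr1099.df)))) (.node (.node (.node (.leaf (.fwd 4104 42 tpr558.df)) (.leaf (.fwd 4146 42 tpr1019.df))) (.leaf (.bwd 4188 38 tpr203.df))) (.node (.leaf (.bwd 4226 32 tpr294.df)) (.leaf (.bwd 4258 37 tpr706.df))))) (.node (.node (.node (.node (.leaf (.fwd 4295 29 tpr1457.df)) (.leaf (.fwd 4324 29 tpr623.df))) (.leaf (.bwd 4353 36 tpr683.df))) (.node (.leaf (.fwd 4389 26 tpr675.df)) (.leaf (.bwd 4415 42 tpr678.df)))) (.node (.node (.node (.leaf (.fwd 4457 44 tpr1243.df)) (.leaf (.fwd 4501 36 tpr547.df))) (.leaf (.fwd 4537 33 tpr680.df))) (.node (.leaf (.bwd 4570 28 tpr1013.df)) (.leaf (.fwd 4598 35 tpr1015.df)))))) (.node (.node (.node (.node (.node (.leaf (.bwd 4633 35 tpr554.df)) (.leaf (.bwd 4668 24 tpr730.df))) (.leaf (.fwd 4692 28 tpr974.df))) (.node (.node (.leaf (.bwd 4720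 39 tpr615.df)) (.leaf (.fwd 4759 27 tpr562.df))) (.leaf (.fwd 4786 23 tpr508.df)))) (.node (.node (.node (.leaf (.fwd 4809 26 tpr509.df)) (.leaf (.fwd 4835 23 tpr559.df))) (.leaf (.bwd 4858 22 tpr959.df))) (.node (.leaf (.fwd 4880 26 tpr222.df)) (.leaf (.bwd 4906 45 tpr611.df))))) (.node (.node (.node (.node (.leaf (.fwd 4951 25 tpr739.df)) (.leaf (.bwd 4976 35 tpr2974.df))) (.leaf (.bwd 5011 31 tpr704.df))) (.node (.leaf (.fwd 5042 33 tpr631.df)) (.leaf (.bwd 5075 28 tpr610.df)))) (.node (.node (.node (.leaf (.bwd 5103 24 tpr609.df)) (.leaf (.bwd 5127 32 tpr550.df))) (.leaf (.fwd 5159 28 tpr627.df))) (.node (.leaf (.fwd 5187 37 tpr1075.df)) (.leaf (.bwd 5224 44 tpr592.df))))))))) (.node (.node (.node (.node (.node (.node (.node (.node (.leaf (.fwd 5268 43 tpr676.df)) (.leaf (.fwd 5311 46 tpr593.df))) (.leaf (.fwd 5357 28 tpr511.df))) (.node (.node (.leaf (.fwd 5385 38 tpr519.df))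 (.leaf (.bwd 5423 30 tpr577.df))) (.leaf (.bwd 5453 26 tpr245.df)))) (.node (.node (.node (.leaf (.bwd 5479 28 tpr2975.df)) (.leaf (.fwd 5507 39 tpr615.df))) (.leaf (.bwd 5546 35 tpr658.df))) (.node (.leaf (.bwd 5581 35 tpr91.df)) (.leaf (.bwd 5616 31 tpr576.df))))) (.node (.node (.node (.node (.leaf (.bwd 5647 40 tpr705.df)) (.leaf (.fwd 5687 37 tpr693.df))) (.leaf (.fwd 5724 39 tpr514.df))) (.node (.leaf (.fwd 5763 36 tpr23.df)) (.leaf (.fwd 5799 31 tpr557.df)))) (.node (.node (.node (.leaf (.fwd 5830 35 tpr2974.df)) (.leaf (.bwd 5865 34 tpr619.df))) (.leaf (.bwd 5899 41 tpr502.df))) (.node (.leaf (.fwd 5940 31 tpr517.df)) (.leaf (.fwd 5971 38 tpr203.df)))))) (.node (.node (.node (.node (.node (.leaf (.bwd 6009 37 tpr1052.df)) (.leaf (.fwd 6046 29 tpr545.df))) (.leaf (.fwd 6075 28 tpr546.df))) (.node (.node (.leaf (.fwd 6103 32 tpr1221.df)) (.leaf (.bwd 6135 43 tpr734.df)))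 (.leaf (.fwd 6178 27 tpr1202.df)))) (.node (.node (.node (.leaf (.bwd 6205 24 tpr293.df)) (.leaf (.fwd 6229 41 tpr188.df))) (.leaf (.bwd 6270 45 tpr740.df))) (.node (.leaf (.fwd 6315 29 tpr656.df)) (.leaf (.fwd 6344 16 tpr168.df))))) (.node (.node (.node (.node (.leaf (.fwd 6360 37 tpr1064.df)) (.leaf (.bwd 6397 37 tpr1064.df))) (.leaf (.fwd 6434 30 tpr577.df))) (.node (.leaf (.fwd 6464 32 tpr1065.df)) (.leaf (.fwd 6496 37 tpr1052.df)))) (.node (.node (.node (.leaf (.fwd 6533 40 tpr705.df)) (.leaf (.fwd 6573 31 tpr704.df))) (.leaf (.fwd 6604 24 tpr635.df))) (.node (.leaf (.fwd 6628 35 tpr1054.df)) (.leaf (.bwd 6663 35 tpr1054.df))))))) (.node (.node (.node (.node (.node (.node (.leaf (.fwd 6698 29 tpr637.df)) (.leaf (.fwd 6727 34 tpr1216.df))) (.leaf (.bwd 6761 35 tpr1154.df))) (.node (.node (.leaf (.fwd 6796 19 tpr1103.df)) (.leaf (.fwd 6815 32 tpr1219.df))) (.leaf (.fwd 6847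 50 tpr1233.df)))) (.node (.node (.node (.leaf (.fwd 6897 37 tpr1022.df)) (.leaf (.fwd 6934 23 tpr605.df))) (.leaf (.bwd 6957 30 tpr626.df))) (.node (.leaf (.bwd 6987 25 tpr51.df)) (.leaf (.fwd 7012 21 tpr8.df))))) (.node (.node (.node (.node (.leaf (.fwd 7033 35 tpr658.df)) (.leaf (.bwd 7068 19 tpr429.df))) (.leaf (.fwd 7087 23 tpr5.df))) (.node (.leaf (.fwd 7110 36 tpr683.df)) (.leaf (.bwd 7146 28 tpr295.df)))) (.node (.node (.node (.leaf (.bwd 7174 27 tpr236.df)) (.leaf (.fwd 7201 39 tpr636.df))) (.leaf (.bwd 7240 27 tpr589.df))) (.node (.leaf (.bwd 7267 36 tpr23.df)) (.leaf (.bwd 7303 28 tpr627.df)))))) (.node (.node (.node (.node (.node (.leaf (.bwd 7331 33 tpr968.df)) (.leaf (.fwd 7364 29 tpr579.df))) (.leaf (.fwd 7393 39 tpr642.df))) (.node (.node (.leaf (.fwd 7432 35 tpr89.df)) (.leaf (.fwd 7467 28 tpr563.df))) (.leaf (.bwd 7495 34 tpr54.df)))) (.node (.node (.node (.leaf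 (.bwd 7529 39 tpr569.df)) (.leaf (.fwd 7568 28 tpr721.df))) (.leaf (.fwd 7596 18 tpr18.df))) (.node (.leaf (.fwd 7614 35 tpr585.df)) (.leaf (.fwd 7649 49 tpr960.df))))) (.node (.node (.node (.node (.leaf (.fwd 7698 37 tpr706.df)) (.leaf (.fwd 7735 40 tpr1002.df))) (.leaf (.bwd 7775 40 tpr1002.df))) (.node (.leaf (.fwd 7815 43 tpr734.df)) (.leaf (.bwd 7858 41 tpr1063.df)))) (.node (.node (.node (.leaf (.fwd 7899 55 tpr314.df)) (.leaf (.fwd 7954 23 tpr640.df))) (.leaf (.fwd 7977 35 tpr1200.df))) (.node (.leaf (.fwd 8012 28 tpr967.df)) (.leaf (.fwd 8040 37 tpr639.df)))))))) (.node (.node (.node (.node (.node (.node (.node (.leaf (.fwd 8077 22 tpr536.df)) (.leaf (.bwd 8099 39 tpr636.df))) (.leaf (.fwd 8138 36 tpr453.df))) (.node (.node (.leaf (.fwd 8174 30 tpr626.df)) (.leaf (.fwd 8204 31 tpr745.df))) (.leaf (.bwd 8235 33 tpr521.df)))) (.node (.node (.node (.leaf (.bwd 8268 34 tpr1216.df))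 (.leaf (.bwd 8302 28 tpr721.df))) (.leaf (.bwd 8330 35 tpr585.df))) (.node (.leaf (.fwd 8365 34 tpr619.df)) (.leaf (.fwd 8399 30 tpr1058.df))))) (.node (.node (.node (.node (.leaf (.bwd 8429 37 tpr639.df)) (.leaf (.bwd 8466 32 tpr1221.df))) (.leaf (.bwd 8498 40 tpr1229.df))) (.node (.leaf (.fwd 8538 27 tpr1068.df)) (.leaf (.bwd 8565 44 tpr1069.df)))) (.node (.node (.node (.leaf (.bwd 8609 47 tpr1070.df)) (.leaf (.bwd 8656 28 tpr1032.df))) (.leaf (.fwd 8684 28 tpr1032.df))) (.node (.leaf (.bwd 8712 43 tpr1034.df)) (.leaf (.bwd 8755 30 tpr1024.df)))))) (.node (.node (.node (.node (.node (.leaf (.fwd 8785 46 tpr1147.df)) (.leaf (.fwd 8831 29 tpr1072.df))) (.leaf (.bwd 8860 35 tpr1200.df))) (.node (.node (.leaf (.bwd 8895 28 tpr974.df)) (.leaf (.bwd 8923 25 tpr1218.df))) (.leaf (.fwd 8948 39 tpr1077.df)))) (.node (.node (.node (.leaf (.fwd 8987 41 tpr1148.df)) (.leaf (.fwd 9028 52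 tpr1071.df))) (.leaf (.fwd 9080 30 tpr1024.df))) (.node (.leaf (.fwd 9110 29 tpr151.df)) (.leaf (.fwd 9139 35 tpr703.df))))) (.node (.node (.node (.node (.leaf (.bwd 9174 35 tpr58.df)) (.leaf (.fwd 9209 34 tpr1195.df))) (.leaf (.fwd 9243 44 tpr592.df))) (.node (.leaf (.bwd 9287 43 tpr676.df)) (.leaf (.bwd 9330 46 tpr593.df)))) (.node (.node (.node (.leaf (.fwd 9376 42 tpr1050.df)) (.leaf (.bwd 9418 29 tpr579.df))) (.leaf (.bwd 9447 42 tpr1050.df))) (.node (.leaf (.bwd 9489 39 tpr514.df)) (.leaf (.bwd 9528 29 tpr1059.df))))))) (.node (.node (.node (.node (.node (.node (.leaf (.fwd 9557 31 tpr1047.df)) (.leaf (.fwd 9588 34 tpr1061.df))) (.leaf (.fwd 9622 29 tpr1059.df))) (.node (.node (.leaf (.bwd 9651 24 tpr1056.df)) (.leaf (.bwd 9675 24 tpr1060.df))) (.leaf (.bwd 9699 31 tpr1047.df)))) (.node (.node (.node (.leaf (.fwd 9730 32 tpr550.df)) (.leaf (.bwd 9762 32 tpr1065.df))) (.leaf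 (.bwd 9794 34 tpr1061.df))) (.node (.leaf (.bwd 9828 31 tpr557.df)) (.leaf (.bwd 9859 29 tpr151.df))))) (.node (.node (.node (.node (.leaf (.bwd 9888 42 tpr1196.df)) (.leaf (.fwd 9930 35 tpr58.df))) (.leaf (.fwd 9965 48 tpr1053.df))) (.node (.leaf (.fwd 10013 37 tpr503.df)) (.leaf (.bwd 10050 32 tpr1219.df)))) (.node (.node (.node (.leaf (.bwd 10082 41 tpr188.df)) (.leaf (.fwd 10123 41 tpr1126.df))) (.leaf (.fwd 10164 25 tpr1218.df))) (.node (.leaf (.bwd 10189 50 tpr1233.df)) (.leaf (.bwd 10239 29 tpr1234.df)))))) (.node (.node (.node (.node (.node (.leaf (.bwd 10268 20 tpr48.df)) (.leaf (.bwd 10288 36 tpr453.df))) (.leaf (.bwd 10324 27 tpr1068.df))) (.node (.leaf (.fwd 10351 47 tpr1070.df)) (.leaf (.fwd 10398 44 tpr1069.df)))) (.node (.node (.node (.leaf (.bwd 10442 37 tpr687.df)) (.leaf (.bwd 10479 54 tpr1090.df))) (.leaf (.bwd 10533 35 tpr1029.df))) (.node (.leaf (.fwd 10568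 37 tpr687.df)) (.leaf (.fwd 10605 37 tpr1119.df))))) (.node (.node (.node (.node (.leaf (.bwd 10642 32 tpr1988.df)) (.leaf (.bwd 10674 33 tpr44.df))) (.leaf (.fwd 10707 40 tpr544.df))) (.node (.leaf (.bwd 10747 30 tpr613.df)) (.leaf (.fwd 10777 30 tpr727.df)))) (.node (.node (.node (.leaf (.bwd 10807 41 tpr1126.df)) (.leaf (.bwd 10848 51 tpr1023.df))) (.leaf (.bwd 10899 39 tpr962.df))) (.node (.leaf (.fwd 10938 24 tpr1056.df)) (.leaf (.bwd 10962 34 tpr628.df))))))))))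

theorem iiNFzE2ByA3H2ByAzAyB2H3AyB2EzF_c : iiNFzE2ByA3H2ByAzAyB2H3AyB2EzF.all (itB (ng 55 nnNFzE2ByA3H2ByAzAyB2H3AyB2EzF)) = true := by decide +kernel
theorem nbNFzE2ByA3H2ByAzAyB2H3AyB2EzF : nbB 55 11051 nnNFzE2ByA3H2ByAzAyB2H3AyB2EzF = true := by decide +kernel
theorem topNFzE2ByA3H2ByAzAyB2H3AyB2EzF : topY 11051 ttNFzE2ByA3H2ByAzAyB2H3AyB2EzF ceNFzE2ByA3H2ByAzAyB2H3AyB2EzF xNFzE2ByA3H2ByAzAyB2H3AyB2EzF iiNFzE2ByA3H2ByAzAyB2H3AyB2EzF = true := by decide +kernel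

end MPb6R
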