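import Pool.Agent.Lib.MP_b6d339_lc.Cw3.YFzE2ByA3H2ByAzIzAyB2H3A2EzF
import Pool.Agent.Lib.MP_b6d339_lc.Cw3.XL
import Pool.Agent.Lib.MP_b6d339_lc.Cw3.T0
import Pool.Agent.Lib.MP_b6d339_lc.Cw3.T1
import Pool.Agent.Lib.MP_b6d339_lc.Cw3.T10
import Pool.Agent.Lib.MP_b6d339_lc.Cw3.T11
import Pool.Agent.Lib.MP_b6d339_lc.Cw3.T12
import Pool.Agent.Lib.MP_b6d339_lc.Cw3.T13
import Pool.Agent.Lib.MP_b6d339_lc.Cw3.T14
import Pool.Agent.Lib.MP_b6d339_lc.Cw3.T15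
import Pool.Agent.Lib.MP_b6d339_lc.Cw3.T17
import Pool.Agent.Lib.MP_b6d339_lc.Cw3.T2
import Pool.Agent.Lib.MP_b6d339_lc.Cw3.T20
import Pool.Agent.Lib.MP_b6d339_lc.Cw3.T21
import Pool.Agent.Lib.MP_b6d339_lc.Cw3.T22
import Pool.Agent.Lib.MP_b6d339_lc.Cw3.T25
import Pool.Agent.Lib.MP_b6d339_lc.Cw3.T26
import Pool.Agent.Lib.MP_b6d339_lc.Cw3.T3
import Pool.Agent.Lib.MP_b6d339_lc.Cw3.T30
import Pool.Agent.Lib.MP_b6d339_lc.Cw3.T36
import Pool.Agent.Lib.MP_b6d339_lc.Cw3.T37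
import Pool.Agent.Lib.MP_b6d339_lc.Cw3.T4
import Pool.Agent.Lib.MP_b6d339_lc.Cw3.T5
import Pool.Agent.Lib.MP_b6d339_lc.Cw3.T6
import Pool.Agent.Lib.MP_b6d339_lc.Cw3.T7
import Pool.Agent.Lib.MP_b6d339_lc.Cw3.T8
import Pool.Agent.Lib.MP_b6d339_lc.Cw3.T9

/-!
# Erdős 592, three levels: items
-/

namespace MPb6R

open MPb6P

noncomputable def iiNFzE2ByA3H2ByAzIzAyB2H3A2EzF : BT Itm := (.node (.node (.node (.node (.node (.node (.node (.node (.node (.leaf (.fwd 0 23 tpr5.df)) (.leaf (.bwd 23 27 tpr82.df))) (.leaf (.fwd 50 45 tpr740.df))) (.node (.leaf (.fwd 95 13 tpr500.df)) (.leaf (.fwd 108 27 tpr499.df)))) (.node (.node (.node (.leaf (.bwd 135 21 tpr8.df)) (.leaf (.bwd 156 23 tpr508.df))) (.leaf (.bwd 179 32 tpr518.df))) (.node (.leaf (.fwd 211 37 tpr555.df)) (.leaf (.bwd 248 31 tpr606.df))))) (.node (.node (.node (.node (.leaf (.bwd 279 27 tpr236.df)) (.leaf (.fwd 306 22 tpr239.df)))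 (.leaf (.bwd 328 27 tpr589.df))) (.node (.leaf (.bwd 355 32 tpr247.df)) (.leaf (.bwd 387 39 tpr78.df)))) (.node (.node (.node (.leaf (.fwd 426 29 tpr618.df)) (.leaf (.bwd 455 28 tpr295.df))) (.leaf (.fwd 483 46 tpr324.df))) (.node (.leaf (.fwd 529 39 tpr1077.df)) (.leaf (.fwd 568 17 tpr16.df)))))) (.node (.node (.node (.node (.node (.leaf (.bwd 585 39 tpr81.df)) (.leaf (.bwd 624 56 tpr87.df))) (.leaf (.bwd 680 28 tpr507.df))) (.node (.leaf (.fwd 708 31 tpr198.df)) (.leaf (.fwd 739 30 tpr320.df)))) (.node (.node (.node (.leaf (.bwd 769 22 tpr504.df)) (.leaf (.bwd 791 28 tpr627.df))) (.leaf (.bwd 819 22 tpr581.df))) (.node (.leaf (.fwd 841 43 tpr323.df)) (.leaf (.fwd 884 32 tpr17.df))))) (.node (.node (.node (.node (.leaf (.bwd 916 38 tpr203.df)) (.leaf (.fwd 954 29 tpr22.df))) (.leaf (.bwd 983 30 tpr537.df))) (.node (.leaf (.fwd 1013 24 tpr609.df)) (.leaf (.bwd 1037 41 tpr549.df))))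 (.node (.node (.node (.leaf (.bwd 1078 31 tpr517.df)) (.leaf (.bwd 1109 29 tpr545.df))) (.leaf (.fwd 1138 30 tpr613.df))) (.node (.leaf (.fwd 1168 27 tpr625.df)) (.leaf (.fwd 1195 34 tpr619.df))))))) (.node (.node (.node (.node (.node (.node (.leaf (.bwd 1229 29 tpr151.df)) (.leaf (.fwd 1258 39 tpr569.df))) (.leaf (.bwd 1297 39 tpr636.df))) (.node (.leaf (.bwd 1336 22 tpr959.df)) (.leaf (.bwd 1358 33 tpr680.df)))) (.node (.node (.node (.leaf (.fwd 1391 29 tpr1689.df)) (.leaf (.bwd 1420 28 tpr511.df))) (.leaf (.bwd 1448 32 tpr17.df))) (.node (.leaf (.bwd 1480 26 tpr516.df)) (.leaf (.bwd 1506 37 tpr555.df))))) (.node (.node (.node (.node (.leaf (.fwd 1543 28 tpr610.df)) (.leaf (.bwd 1571 31 tpr167.df))) (.leaf (.bwd 1602 43 tpr566.df))) (.node (.leaf (.fwd 1645 48 tpr77.df)) (.leaf (.bwd 1693 38 tpr519.df)))) (.node (.node (.node (.leaf (.fwd 1731 33 tpr44.df)) (.leaf (.bwd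 1764 44 tpr617.df))) (.leaf (.fwd 1808 36 tpr23.df))) (.node (.leaf (.fwd 1844 37 tpr520.df)) (.leaf (.fwd 1881 44 tpr2976.df)))))) (.node (.node (.node (.node (.node (.leaf (.bwd 1925 28 tpr546.df)) (.leaf (.bwd 1953 23 tpr1180.df))) (.leaf (.bwd 1976 45 tpr596.df))) (.node (.leaf (.fwd 2021 22 tpr982.df)) (.leaf (.fwd 2043 39 tpr1735.df)))) (.node (.node (.node (.leaf (.fwd 2082 58 tpr1719.df)) (.leaf (.fwd 2140 26 tpr516.df))) (.leaf (.bwd 2166 42 tpr612.df))) (.node (.leaf (.fwd 2208 41 tpr549.df)) (.leaf (.fwd 2249 30 tpr537.df))))) (.node (.node (.node (.node (.leaf (.fwd 2279 25 tpr702.df)) (.leaf (.fwd 2304 37 tpr621.df))) (.leaf (.fwd 2341 25 tpr633.df))) (.node (.leaf (.bwd 2366 43 tpr122.df)) (.leaf (.fwd 2409 31 tpr315.df)))) (.node (.node (.leaf (.fwd 2440 61 tpr695.df)) (.leaf (.fwd 2501 42 tpr344.df))) (.node (.leaf (.bwd 2543 60 tpr630.df)) (.leaf (.fwd 2603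 23 tpr632.df)))))))) (.node (.node (.node (.node (.node (.node (.node (.leaf (.fwd 2626 27 tpr82.df)) (.leaf (.fwd 2653 25 tpr74.df))) (.leaf (.fwd 2678 24 tpr57.df))) (.node (.leaf (.fwd 2702 31 tpr339.df)) (.leaf (.bwd 2733 35 tpr123.df)))) (.node (.node (.node (.leaf (.fwd 2768 30 tpr26.df)) (.leaf (.fwd 2798 36 tpr75.df))) (.leaf (.fwd 2834 26 tpr334.df))) (.node (.leaf (.fwd 2860 37 tpr720.df)) (.leaf (.fwd 2897 38 tpr393.df))))) (.node (.node (.node (.node (.leaf (.fwd 2935 37 tpr583.df)) (.leaf (.fwd 2972 31 tpr527.df))) (.leaf (.fwd 3003 34 tpr548.df))) (.node (.leaf (.bwd 3037 29 tpr22.df)) (.leaf (.fwd 3066 20 tpr103.df)))) (.node (.node (.node (.leaf (.bwd 3086 41 tpr502.df)) (.leaf (.fwd 3127 39 tpr514.df))) (.leaf (.fwd 3166 33 tpr521.df))) (.node (.leaf (.bwd 3199 23 tpr605.df)) (.leaf (.fwd 3222 29 tpr637.df)))))) (.node (.node (.node (.node (.node (.leaf (.fwd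 3251 54 tpr2977.df)) (.leaf (.fwd 3305 43 tpr734.df))) (.leaf (.bwd 3348 31 tpr607.df))) (.node (.leaf (.bwd 3379 36 tpr683.df)) (.leaf (.fwd 3415 39 tpr615.df)))) (.node (.node (.node (.leaf (.fwd 3454 35 tpr585.df)) (.leaf (.bwd 3489 26 tpr509.df))) (.leaf (.fwd 3515 35 tpr568.df))) (.node (.leaf (.fwd 3550 32 tpr251.df)) (.leaf (.fwd 3582 34 tpr614.df))))) (.node (.node (.node (.node (.leaf (.fwd 3616 32 tpr620.df)) (.leaf (.bwd 3648 32 tpr1065.df))) (.leaf (.fwd 3680 23 tpr508.df))) (.node (.leaf (.fwd 3703 40 tpr544.df)) (.leaf (.bwd 3743 33 tpr521.df)))) (.node (.node (.leaf (.fwd 3776 27 tpr562.df)) (.leaf (.fwd 3803 23 tpr605.df))) (.node (.leaf (.bwd 3826 27 tpr506.df)) (.leaf (.bwd 3853 27 tpr682.df))))))) (.node (.node (.node (.node (.node (.node (.leaf (.fwd 3880 29 tpr608.df)) (.leaf (.bwd 3909 30 tpr626.df))) (.leaf (.fwd 3939 19 tpr616.df))) (.node (.leaf (.bwd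 3958 29 tpr9.df)) (.leaf (.bwd 3987 28 tpr1406.df)))) (.node (.node (.node (.leaf (.bwd 4015 23 tpr640.df)) (.leaf (.bwd 4038 40 tpr705.df))) (.leaf (.fwd 4078 31 tpr712.df))) (.node (.leaf (.bwd 4109 39 tpr701.df)) (.leaf (.bwd 4148 27 tpr584.df))))) (.node (.node (.node (.node (.leaf (.fwd 4175 42 tpr612.df)) (.leaf (.fwd 4217 37 tpr687.df))) (.leaf (.fwd 4254 33 tpr680.df))) (.node (.leaf (.bwd 4287 20 tpr505.df)) (.leaf (.fwd 4307 37 tpr503.df)))) (.node (.node (.node (.leaf (.fwd 4344 31 tpr576.df)) (.leaf (.fwd 4375 37 tpr523.df))) (.leaf (.fwd 4412 41 tpr624.df))) (.node (.leaf (.fwd 4453 32 tpr2089.df)) (.leaf (.bwd 4485 37 tpr556.df)))))) (.node (.node (.node (.node (.node (.leaf (.fwd 4522 22 tpr590.df)) (.leaf (.fwd 4544 34 tpr543.df))) (.leaf (.bwd 4578 36 tpr547.df))) (.node (.leaf (.fwd 4614 30 tpr577.df)) (.leaf (.bwd 4644 39 tpr514.df)))) (.node (.node (.node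 (.leaf (.fwd 4683 32 tpr550.df)) (.leaf (.bwd 4715 41 tpr552.df))) (.leaf (.fwd 4756 49 tpr960.df))) (.node (.leaf (.fwd 4805 44 tpr466.df)) (.leaf (.fwd 4849 44 tpr617.df))))) (.node (.node (.node (.node (.leaf (.fwd 4893 23 tpr559.df)) (.leaf (.fwd 4916 45 tpr596.df))) (.leaf (.fwd 4961 32 tpr1248.df))) (.node (.leaf (.fwd 4993 26 tpr509.df)) (.leaf (.bwd 5019 30 tpr577.df)))) (.node (.node (.leaf (.fwd 5049 22 tpr536.df)) (.leaf (.bwd 5071 25 tpr106.df))) (.node (.leaf (.fwd 5096 37 tpr681.df)) (.leaf (.fwd 5133 40 tpr597.df))))))))) (.node (.node (.node (.node (.node (.node (.node (.node (.leaf (.fwd 5173 32 tpr591.df)) (.leaf (.fwd 5205 35 tpr622.df))) (.leaf (.bwd 5240 44 tpr592.df))) (.node (.leaf (.fwd 5284 46 tpr593.df)) (.leaf (.fwd 5330 43 tpr676.df)))) (.node (.node (.node (.leaf (.fwd 5373 22 tpr515.df)) (.leaf (.bwd 5395 28 tpr588.df))) (.leaf (.bwd 5423 37 tpr1075.df)))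 (.node (.leaf (.fwd 5460 41 tpr502.df)) (.leaf (.fwd 5501 39 tpr210.df))))) (.node (.node (.node (.node (.leaf (.bwd 5540 30 tpr513.df)) (.leaf (.bwd 5570 34 tpr575.df))) (.leaf (.fwd 5604 42 tpr1050.df))) (.node (.leaf (.bwd 5646 41 tpr624.df)) (.leaf (.bwd 5687 34 tpr614.df)))) (.node (.node (.node (.leaf (.bwd 5721 35 tpr585.df)) (.leaf (.bwd 5756 39 tpr615.df))) (.leaf (.bwd 5795 24 tpr667.df))) (.node (.leaf (.bwd 5819 30 tpr727.df)) (.leaf (.bwd 5849 25 tpr51.df)))))) (.node (.node (.node (.node (.node (.leaf (.fwd 5874 34 tpr628.df)) (.leaf (.fwd 5908 16 tpr168.df))) (.leaf (.fwd 5924 35 tpr89.df))) (.node (.leaf (.bwd 5959 43 tpr1198.df)) (.leaf (.fwd 6002 29 tpr656.df)))) (.node (.node (.node (.leaf (.fwd 6031 21 tpr8.df)) (.leaf (.fwd 6052 31 tpr607.df))) (.leaf (.fwd 6083 6 tpr4.df))) (.node (.leaf (.bwd 6089 33 tpr1099.df)) (.leaf (.fwd 6122 24 tpr635.df))))) (.node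 (.node (.node (.node (.leaf (.bwd 6146 28 tpr1250.df)) (.leaf (.fwd 6174 29 tpr1252.df))) (.leaf (.bwd 6203 21 tpr629.df))) (.node (.leaf (.fwd 6224 32 tpr518.df)) (.leaf (.fwd 6256 15 tpr419.df)))) (.node (.node (.leaf (.bwd 6271 29 tpr579.df)) (.leaf (.fwd 6300 28 tpr721.df))) (.node (.leaf (.fwd 6328 39 tpr642.df)) (.leaf (.bwd 6367 34 tpr54.df))))))) (.node (.node (.node (.node (.node (.node (.leaf (.fwd 6401 36 tpr665.df)) (.leaf (.bwd 6437 29 tpr978.df))) (.leaf (.bwd 6466 24 tpr458.df))) (.node (.leaf (.bwd 6490 24 tpr743.df)) (.leaf (.bwd 6514 35 tpr461.df)))) (.node (.node (.node (.leaf (.bwd 6549 24 tpr730.df)) (.leaf (.fwd 6573 31 tpr704.df))) (.leaf (.fwd 6604 20 tpr48.df))) (.node (.leaf (.bwd 6624 24 tpr293.df)) (.leaf (.fwd 6648 27 tpr977.df))))) (.node (.node (.node (.node (.leaf (.fwd 6675 33 tpr631.df)) (.leaf (.bwd 6708 35 tpr533.df))) (.leaf (.bwd 6743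 43 tpr676.df))) (.node (.leaf (.bwd 6786 46 tpr593.df)) (.leaf (.fwd 6832 33 tpr968.df)))) (.node (.node (.node (.leaf (.fwd 6865 37 tpr1199.df)) (.leaf (.bwd 6902 28 tpr563.df))) (.leaf (.fwd 6930 30 tpr989.df))) (.node (.leaf (.fwd 6960 30 tpr1227.df)) (.leaf (.fwd 6990 25 tpr106.df)))))) (.node (.node (.node (.node (.node (.leaf (.bwd 7015 25 tpr1257.df)) (.leaf (.bwd 7040 27 tpr1247.df))) (.leaf (.fwd 7067 37 tpr553.df))) (.node (.leaf (.fwd 7104 36 tpr683.df)) (.leaf (.fwd 7140 42 tpr587.df)))) (.node (.node (.node (.leaf (.bwd 7182 22 tpr20.df)) (.leaf (.fwd 7204 32 tpr294.df))) (.leaf (.bwd 7236 36 tpr634.df))) (.node (.leaf (.fwd 7272 49 tpr1647.df)) (.leaf (.fwd 7321 33 tpr1664.df))))) (.node (.node (.node (.node (.leaf (.bwd 7354 32 tpr620.df)) (.leaf (.bwd 7386 29 tpr641.df))) (.leaf (.bwd 7415 22 tpr239.df))) (.node (.leaf (.fwd 7437 41 tpr1063.df)) (.leaf (.bwd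 7478 31 tpr527.df)))) (.node (.node (.leaf (.fwd 7509 39 tpr636.df)) (.leaf (.bwd 7548 31 tpr557.df))) (.node (.leaf (.bwd 7579 29 tpr723.df)) (.leaf (.fwd 7608 33 tpr1256.df)))))))) (.node (.node (.node (.node (.node (.node (.node (.leaf (.fwd 7641 29 tpr698.df)) (.leaf (.bwd 7670 37 tpr583.df))) (.leaf (.fwd 7707 34 tpr664.df))) (.node (.leaf (.fwd 7741 36 tpr672.df)) (.leaf (.bwd 7777 34 tpr1204.df)))) (.node (.node (.node (.leaf (.bwd 7811 34 tpr1822.df)) (.leaf (.bwd 7845 35 tpr602.df))) (.leaf (.bwd 7880 32 tpr294.df))) (.node (.leaf (.bwd 7912 36 tpr1194.df)) (.leaf (.fwd 7948 32 tpr674.df))))) (.node (.node (.node (.node (.leaf (.bwd 7980 33 tpr689.df)) (.leaf (.fwd 8013 36 tpr662.df))) (.leaf (.fwd 8049 37 tpr688.df))) (.node (.leaf (.fwd 8086 33 tpr538.df)) (.leaf (.bwd 8119 29 tpr623.df)))) (.node (.node (.node (.leaf (.bwd 8148 49 tpr960.df)) (.leaf (.fwd 8197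 30 tpr626.df))) (.leaf (.fwd 8227 38 tpr2945.df))) (.node (.leaf (.fwd 8265 46 tpr1249.df)) (.leaf (.bwd 8311 39 tpr1001.df)))))) (.node (.node (.node (.node (.node (.leaf (.bwd 8350 36 tpr1813.df)) (.leaf (.bwd 8386 28 tpr510.df))) (.leaf (.bwd 8414 29 tpr1006.df))) (.node (.leaf (.bwd 8443 31 tpr745.df)) (.leaf (.fwd 8474 37 tpr639.df)))) (.node (.node (.node (.leaf (.fwd 8511 23 tpr1255.df)) (.leaf (.fwd 8534 23 tpr780.df))) (.leaf (.bwd 8557 21 tpr72.df))) (.node (.leaf (.bwd 8578 36 tpr1808.df)) (.leaf (.bwd 8614 18 tpr18.df))))) (.node (.node (.node (.node (.leaf (.bwd 8632 26 tpr222.df)) (.leaf (.fwd 8658 33 tpr501.df))) (.leaf (.fwd 8691 36 tpr573.df))) (.node (.leaf (.bwd 8727 36 tpr1258.df)) (.leaf (.fwd 8763 34 tpr54.df)))) (.node (.node (.leaf (.fwd 8797 28 tpr1666.df)) (.leaf (.fwd 8825 31 tpr2062.df))) (.node (.leaf (.fwd 8856 29 tpr746.df)) (.leaf (.bwd 8885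 29 tpr564.df))))))) (.node (.node (.node (.node (.node (.node (.leaf (.fwd 8914 37 tpr1810.df)) (.leaf (.bwd 8951 42 tpr1196.df))) (.leaf (.fwd 8993 35 tpr658.df))) (.node (.leaf (.bwd 9028 33 tpr1801.df)) (.leaf (.fwd 9061 28 tpr627.df)))) (.node (.node (.node (.leaf (.fwd 9089 26 tpr1800.df)) (.leaf (.fwd 9115 24 tpr1806.df))) (.leaf (.fwd 9139 29 tpr9.df))) (.node (.leaf (.bwd 9168 37 tpr406.df)) (.leaf (.bwd 9205 41 tpr1182.df))))) (.node (.node (.node (.node (.leaf (.fwd 9246 30 tpr1804.df)) (.leaf (.fwd 9276 37 tpr1190.df))) (.leaf (.fwd 9313 18 tpr18.df))) (.node (.leaf (.bwd 9331 36 tpr23.df)) (.leaf (.fwd 9367 44 tpr592.df)))) (.node (.node (.node (.leaf (.fwd 9411 40 tpr670.df)) (.leaf (.bwd 9451 29 tpr647.df))) (.leaf (.bwd 9480 54 tpr1193.df))) (.node (.leaf (.fwd 9534 29 tpr666.df)) (.leaf (.bwd 9563 16 tpr804.df)))))) (.node (.node (.node (.node (.node (.leaf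 (.bwd 9579 26 tpr700.df)) (.leaf (.fwd 9605 32 tpr742.df))) (.leaf (.fwd 9637 31 tpr694.df))) (.node (.leaf (.bwd 9668 17 tpr1714.df)) (.leaf (.bwd 9685 42 tpr678.df)))) (.node (.node (.node (.leaf (.bwd 9727 32 tpr669.df)) (.leaf (.fwd 9759 32 tpr669.df))) (.leaf (.fwd 9791 54 tpr1090.df))) (.node (.leaf (.fwd 9845 48 tpr857.df)) (.leaf (.fwd 9893 33 tpr594.df))))) (.node (.node (.node (.node (.leaf (.fwd 9926 20 tpr505.df)) (.leaf (.fwd 9946 40 tpr62.df))) (.leaf (.bwd 9986 58 tpr2431.df))) (.node (.leaf (.fwd 10044 38 tpr1262.df)) (.leaf (.bwd 10082 43 tpr292.df)))) (.node (.node (.leaf (.fwd 10125 42 tpr972.df)) (.leaf (.bwd 10167 45 tpr740.df))) (.node (.leaf (.fwd 10212 32 tpr522.df)) (.leaf (.bwd 10244 40 tpr1799.df))))))))))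

theorem iiNFzE2ByA3H2ByAzIzAyB2H3A2EzF_c : iiNFzE2ByA3H2ByAzIzAyB2H3A2EzF.all (itB (ng 61 nnNFzE2ByA3H2ByAzIzAyB2H3A2EzF)) = true := by decide +kernel
theorem nbNFzE2ByA3H2ByAzIzAyB2H3A2EzF : nbB 61 10345 nnNFzE2ByA3H2ByAzIzAyB2H3A2EzF = true := by decide +kernel
theorem topNFzE2ByA3H2ByAzIzAyB2H3A2EzF : topY 10345 ttNFzE2ByA3H2ByAzIzAyB2H3A2EzF ceNFzE2ByA3H2ByAzIzAyB2H3A2EzF xNFzE2ByA3H2ByAzIzAyB2H3A2EzF iiNFzE2ByA3H2ByAzIzAyB2H3A2EzF = true := by decide +kernel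

end MPb6R
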