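import Pool.Agent.Lib.MP_b6d339_lc.Cw3.JFzE2ByA3H2AzIzAyB2H3AyB2EzF
import Pool.Agent.Lib.MP_b6d339_lc.Cw3.JFzE2ByA3H2ByAzAyB2H3A2EzF
import Pool.Agent.Lib.MP_b6d339_lc.Cw3.JFzE2ByA3H2ByAzAyB2H3AyB2EzF
import Pool.Agent.Lib.MP_b6d339_lc.Cw3.JFzE2ByA3H2ByAzIzAyB2H3A2EzF
import Pool.Agent.Lib.MP_b6d339_lc.Cw3.T0
import Pool.Agent.Lib.MP_b6d339_lc.Cw3.T1
import Pool.Agent.Lib.MP_b6d339_lc.Cw3.T10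
import Pool.Agent.Lib.MP_b6d339_lc.Cw3.T11
import Pool.Agent.Lib.MP_b6d339_lc.Cw3.T12
import Pool.Agent.Lib.MP_b6d339_lc.Cw3.T13
import Pool.Agent.Lib.MP_b6d339_lc.Cw3.T14
import Pool.Agent.Lib.MP_b6d339_lc.Cw3.T15
import Pool.Agent.Lib.MP_b6d339_lc.Cw3.T16
import Pool.Agent.Lib.MP_b6d339_lc.Cw3.T17
import Pool.Agent.Lib.MP_b6d339_lc.Cw3.T18
import Pool.Agent.Lib.MP_b6d339_lc.Cw3.T19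
import Pool.Agent.Lib.MP_b6d339_lc.Cw3.T2
import Pool.Agent.Lib.MP_b6d339_lc.Cw3.T20
import Pool.Agent.Lib.MP_b6d339_lc.Cw3.T21
import Pool.Agent.Lib.MP_b6d339_lc.Cw3.T22
import Pool.Agent.Lib.MP_b6d339_lc.Cw3.T24
import Pool.Agent.Lib.MP_b6d339_lc.Cw3.T25
import Pool.Agent.Lib.MP_b6d339_lc.Cw3.T26
import Pool.Agent.Lib.MP_b6d339_lc.Cw3.T3
import Pool.Agent.Lib.MP_b6d339_lc.Cw3.T30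
import Pool.Agent.Lib.MP_b6d339_lc.Cw3.T34
import Pool.Agent.Lib.MP_b6d339_lc.Cw3.T36
import Pool.Agent.Lib.MP_b6d339_lc.Cw3.T37
import Pool.Agent.Lib.MP_b6d339_lc.Cw3.T4
import Pool.Agent.Lib.MP_b6d339_lc.Cw3.T5
import Pool.Agent.Lib.MP_b6d339_lc.Cw3.T6
import Pool.Agent.Lib.MP_b6d339_lc.Cw3.T7
import Pool.Agent.Lib.MP_b6d339_lc.Cw3.T8
import Pool.Agent.Lib.MP_b6d339_lc.Cw3.T9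
import Pool.Agent.Lib.MP_b6d339_lc.Cw3.XL
import Pool.Agent.Lib.MP_b6d339_lc.Cw3.ZFzE2ByA3H2AzIzAyB2H3AyB2EzF_0
import Pool.Agent.Lib.MP_b6d339_lc.Cw3.ZFzE2ByA3H2AzIzAyB2H3AyB2EzF_1
import Pool.Agent.Lib.MP_b6d339_lc.Cw3.ZFzE2ByA3H2AzIzAyB2H3AyB2EzF_10
import Pool.Agent.Lib.MP_b6d339_lc.Cw3.ZFzE2ByA3H2AzIzAyB2H3AyB2EzF_11
import Pool.Agent.Lib.MP_b6d339_lc.Cw3.ZFzE2ByA3H2AzIzAyB2H3AyB2EzF_12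
import Pool.Agent.Lib.MP_b6d339_lc.Cw3.ZFzE2ByA3H2AzIzAyB2H3AyB2EzF_13
import Pool.Agent.Lib.MP_b6d339_lc.Cw3.ZFzE2ByA3H2AzIzAyB2H3AyB2EzF_14
import Pool.Agent.Lib.MP_b6d339_lc.Cw3.ZFzE2ByA3H2AzIzAyB2H3AyB2EzF_15
import Pool.Agent.Lib.MP_b6d339_lc.Cw3.ZFzE2ByA3H2AzIzAyB2H3AyB2EzF_16
import Pool.Agent.Lib.MP_b6d339_lc.Cw3.ZFzE2ByA3H2AzIzAyB2H3AyB2EzF_17
import Pool.Agent.Lib.MP_b6d339_lc.Cw3.ZFzE2ByA3H2AzIzAyB2H3AyB2EzF_18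
import Pool.Agent.Lib.MP_b6d339_lc.Cw3.ZFzE2ByA3H2AzIzAyB2H3AyB2EzF_19
import Pool.Agent.Lib.MP_b6d339_lc.Cw3.ZFzE2ByA3H2AzIzAyB2H3AyB2EzF_2
import Pool.Agent.Lib.MP_b6d339_lc.Cw3.ZFzE2ByA3H2AzIzAyB2H3AyB2EzF_20
import Pool.Agent.Lib.MP_b6d339_lc.Cw3.ZFzE2ByA3H2AzIzAyB2H3AyB2EzF_21
import Pool.Agent.Lib.MP_b6d339_lc.Cw3.ZFzE2ByA3H2AzIzAyB2H3AyB2EzF_22
import Pool.Agent.Lib.MP_b6d339_lc.Cw3.ZFzE2ByA3H2AzIzAyB2H3AyB2EzF_23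
import Pool.Agent.Lib.MP_b6d339_lc.Cw3.ZFzE2ByA3H2AzIzAyB2H3AyB2EzF_24
import Pool.Agent.Lib.MP_b6d339_lc.Cw3.ZFzE2ByA3H2AzIzAyB2H3AyB2EzF_25
import Pool.Agent.Lib.MP_b6d339_lc.Cw3.ZFzE2ByA3H2AzIzAyB2H3AyB2EzF_26
import Pool.Agent.Lib.MP_b6d339_lc.Cw3.ZFzE2ByA3H2AzIzAyB2H3AyB2EzF_3
import Pool.Agent.Lib.MP_b6d339_lc.Cw3.ZFzE2ByA3H2AzIzAyB2H3AyB2EzF_4
import Pool.Agent.Lib.MP_b6d339_lc.Cw3.ZFzE2ByA3H2AzIzAyB2H3AyB2EzF_5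
import Pool.Agent.Lib.MP_b6d339_lc.Cw3.ZFzE2ByA3H2AzIzAyB2H3AyB2EzF_6
import Pool.Agent.Lib.MP_b6d339_lc.Cw3.ZFzE2ByA3H2AzIzAyB2H3AyB2EzF_7
import Pool.Agent.Lib.MP_b6d339_lc.Cw3.ZFzE2ByA3H2AzIzAyB2H3AyB2EzF_8
import Pool.Agent.Lib.MP_b6d339_lc.Cw3.ZFzE2ByA3H2AzIzAyB2H3AyB2EzF_9
import Pool.Agent.Lib.MP_b6d339_lc.Cw3.ZFzE2ByA3H2ByAzAyB2H3A2EzF_0
import Pool.Agent.Lib.MP_b6d339_lc.Cw3.ZFzE2ByA3H2ByAzAyB2H3A2EzF_1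
import Pool.Agent.Lib.MP_b6d339_lc.Cw3.ZFzE2ByA3H2ByAzAyB2H3A2EzF_10
import Pool.Agent.Lib.MP_b6d339_lc.Cw3.ZFzE2ByA3H2ByAzAyB2H3A2EzF_11
import Pool.Agent.Lib.MP_b6d339_lc.Cw3.ZFzE2ByA3H2ByAzAyB2H3A2EzF_12
import Pool.Agent.Lib.MP_b6d339_lc.Cw3.ZFzE2ByA3H2ByAzAyB2H3A2EzF_2
import Pool.Agent.Lib.MP_b6d339_lc.Cw3.ZFzE2ByA3H2ByAzAyB2H3A2EzF_3
import Pool.Agent.Lib.MP_b6d339_lc.Cw3.ZFzE2ByA3H2ByAzAyB2H3A2EzF_4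
import Pool.Agent.Lib.MP_b6d339_lc.Cw3.ZFzE2ByA3H2ByAzAyB2H3A2EzF_5
import Pool.Agent.Lib.MP_b6d339_lc.Cw3.ZFzE2ByA3H2ByAzAyB2H3A2EzF_6
import Pool.Agent.Lib.MP_b6d339_lc.Cw3.ZFzE2ByA3H2ByAzAyB2H3A2EzF_7
import Pool.Agent.Lib.MP_b6d339_lc.Cw3.ZFzE2ByA3H2ByAzAyB2H3A2EzF_8
import Pool.Agent.Lib.MP_b6d339_lc.Cw3.ZFzE2ByA3H2ByAzAyB2H3A2EzF_9
import Pool.Agent.Lib.MP_b6d339_lc.Cw3.ZFzE2ByA3H2ByAzAyB2H3AyB2EzF_0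
import Pool.Agent.Lib.MP_b6d339_lc.Cw3.ZFzE2ByA3H2ByAzAyB2H3AyB2EzF_1
import Pool.Agent.Lib.MP_b6d339_lc.Cw3.ZFzE2ByA3H2ByAzAyB2H3AyB2EzF_10
import Pool.Agent.Lib.MP_b6d339_lc.Cw3.ZFzE2ByA3H2ByAzAyB2H3AyB2EzF_11
import Pool.Agent.Lib.MP_b6d339_lc.Cw3.ZFzE2ByA3H2ByAzAyB2H3AyB2EzF_12
import Pool.Agent.Lib.MP_b6d339_lc.Cw3.ZFzE2ByA3H2ByAzAyB2H3AyB2EzF_13
import Pool.Agent.Lib.MP_b6d339_lc.Cw3.ZFzE2ByA3H2ByAzAyB2H3AyB2EzF_14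
import Pool.Agent.Lib.MP_b6d339_lc.Cw3.ZFzE2ByA3H2ByAzAyB2H3AyB2EzF_15
import Pool.Agent.Lib.MP_b6d339_lc.Cw3.ZFzE2ByA3H2ByAzAyB2H3AyB2EzF_16
import Pool.Agent.Lib.MP_b6d339_lc.Cw3.ZFzE2ByA3H2ByAzAyB2H3AyB2EzF_17
import Pool.Agent.Lib.MP_b6d339_lc.Cw3.ZFzE2ByA3H2ByAzAyB2H3AyB2EzF_18
import Pool.Agent.Lib.MP_b6d339_lc.Cw3.ZFzE2ByA3H2ByAzAyB2H3AyB2EzF_19
import Pool.Agent.Lib.MP_b6d339_lc.Cw3.ZFzE2ByA3H2ByAzAyB2H3AyB2EzF_2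
import Pool.Agent.Lib.MP_b6d339_lc.Cw3.ZFzE2ByA3H2ByAzAyB2H3AyB2EzF_20
import Pool.Agent.Lib.MP_b6d339_lc.Cw3.ZFzE2ByA3H2ByAzAyB2H3AyB2EzF_21
import Pool.Agent.Lib.MP_b6d339_lc.Cw3.ZFzE2ByA3H2ByAzAyB2H3AyB2EzF_22
import Pool.Agent.Lib.MP_b6d339_lc.Cw3.ZFzE2ByA3H2ByAzAyB2H3AyB2EzF_23
import Pool.Agent.Lib.MP_b6d339_lc.Cw3.ZFzE2ByA3H2ByAzAyB2H3AyB2EzF_24
import Pool.Agent.Lib.MP_b6d339_lc.Cw3.ZFzE2ByA3H2ByAzAyB2H3AyB2EzF_25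
import Pool.Agent.Lib.MP_b6d339_lc.Cw3.ZFzE2ByA3H2ByAzAyB2H3AyB2EzF_3
import Pool.Agent.Lib.MP_b6d339_lc.Cw3.ZFzE2ByA3H2ByAzAyB2H3AyB2EzF_4
import Pool.Agent.Lib.MP_b6d339_lc.Cw3.ZFzE2ByA3H2ByAzAyB2H3AyB2EzF_5
import Pool.Agent.Lib.MP_b6d339_lc.Cw3.ZFzE2ByA3H2ByAzAyB2H3AyB2EzF_6
import Pool.Agent.Lib.MP_b6d339_lc.Cw3.ZFzE2ByA3H2ByAzAyB2H3AyB2EzF_7
import Pool.Agent.Lib.MP_b6d339_lc.Cw3.ZFzE2ByA3H2ByAzAyB2H3AyB2EzF_8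
import Pool.Agent.Lib.MP_b6d339_lc.Cw3.ZFzE2ByA3H2ByAzAyB2H3AyB2EzF_9
import Pool.Agent.Lib.MP_b6d339_lc.Cw3.ZFzE2ByA3H2ByAzIzAyB2H3A2EzF_0
import Pool.Agent.Lib.MP_b6d339_lc.Cw3.ZFzE2ByA3H2ByAzIzAyB2H3A2EzF_1
import Pool.Agent.Lib.MP_b6d339_lc.Cw3.ZFzE2ByA3H2ByAzIzAyB2H3A2EzF_10
import Pool.Agent.Lib.MP_b6d339_lc.Cw3.ZFzE2ByA3H2ByAzIzAyB2H3A2EzF_11
import Pool.Agent.Lib.MP_b6d339_lc.Cw3.ZFzE2ByA3H2ByAzIzAyB2H3A2EzF_12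
import Pool.Agent.Lib.MP_b6d339_lc.Cw3.ZFzE2ByA3H2ByAzIzAyB2H3A2EzF_13
import Pool.Agent.Lib.MP_b6d339_lc.Cw3.ZFzE2ByA3H2ByAzIzAyB2H3A2EzF_14
import Pool.Agent.Lib.MP_b6d339_lc.Cw3.ZFzE2ByA3H2ByAzIzAyB2H3A2EzF_15
import Pool.Agent.Lib.MP_b6d339_lc.Cw3.ZFzE2ByA3H2ByAzIzAyB2H3A2EzF_2
import Pool.Agent.Lib.MP_b6d339_lc.Cw3.ZFzE2ByA3H2ByAzIzAyB2H3A2EzF_3
import Pool.Agent.Lib.MP_b6d339_lc.Cw3.ZFzE2ByA3H2ByAzIzAyB2H3A2EzF_4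
import Pool.Agent.Lib.MP_b6d339_lc.Cw3.ZFzE2ByA3H2ByAzIzAyB2H3A2EzF_5
import Pool.Agent.Lib.MP_b6d339_lc.Cw3.ZFzE2ByA3H2ByAzIzAyB2H3A2EzF_6
import Pool.Agent.Lib.MP_b6d339_lc.Cw3.ZFzE2ByA3H2ByAzIzAyB2H3A2EzF_7
import Pool.Agent.Lib.MP_b6d339_lc.Cw3.ZFzE2ByA3H2ByAzIzAyB2H3A2EzF_8
import Pool.Agent.Lib.MP_b6d339_lc.Cw3.ZFzE2ByA3H2ByAzIzAyB2H3A2EzF_9
import Pool.Agent.Lib.MP_b6d339_lc.Pos.XTreeC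
import Pool.Agent.Lib.MP_b6d339_lc.Pos.YQ

/-!
# Erdős 592, three levels: classes of words
-/

namespace MPb6R

open MPb6P

theorem iiNFzE2ByA3H2AzIzAyB2H3AyB2EzF_k : iiNFzE2ByA3H2AzIzAyB2H3AyB2EzF.Fa (Itm.ok 206) := (BT.Fa_mk (BT.Fa_mk (BT.Fa_mk (BT.Fa_mk (BT.Fa_mk (BT.Fa_mk (BT.Fa_mk (BT.Fa_mk (BT.Fa_mk (BT.Fa_leaf (P := Itm.ok 206) (iqb tpr168_c)) (BT.Fa_leaf (P := Itm.ok 206) (iqf tpr168_c))) (BT.Fa_mk (BT.Fa_leaf (P := Itm.ok 206) (iqf tpr500_c)) (BT.Fa_leaf (P := Itm.ok 206) (iqf tpr4_c)))) (BT.Fa_mk (BT.Fa_mk (BT.Fa_leaf (P := Itm.ok 206) (iqb tpr8_c)) (BT.Fa_leaf (P := Itm.ok 206) (iqf tpr789_c))) (BT.Fa_leaf (P := Itm.ok 206) (iqb tpr656_c)))) (BT.Fa_mk (BT.Fa_mk (BT.Fa_mk (BT.Fa_leaf (P := Itm.ok 206) (iqb tpr4_c)) (BT.Fa_leaf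 (P := Itm.ok 206) (iqb tpr90_c))) (BT.Fa_leaf (P := Itm.ok 206) (iqb tpr5_c))) (BT.Fa_mk (BT.Fa_mk (BT.Fa_leaf (P := Itm.ok 206) (iqb tpr239_c)) (BT.Fa_leaf (P := Itm.ok 206) (iqf tpr8_c))) (BT.Fa_leaf (P := Itm.ok 206) (iqb tpr589_c))))) (BT.Fa_mk (BT.Fa_mk (BT.Fa_mk (BT.Fa_mk (BT.Fa_leaf (P := Itm.ok 206) (iqf tpr618_c)) (BT.Fa_leaf (P := Itm.ok 206) (iqb tpr618_c))) (BT.Fa_leaf (P := Itm.ok 206) (iqf tpr506_c))) (BT.Fa_mk (BT.Fa_mk (BT.Fa_leaf (P := Itm.ok 206) (iqf tpr508_c)) (BT.Fa_leaf (P := Itm.ok 206) (iqb tpr953_c))) (BT.Fa_leaf (P := Itm.ok 206) (iqf tpr589_c)))) (BT.Fa_mk (BT.Fa_mk (BT.Fa_mk (BT.Fa_leaf (P := Itm.ok 206) (iqf tpr605_c)) (BT.Fa_leaf (P := Itm.ok 206) (iqb tpr608_c))) (BT.Fa_leaf (P := Itm.ok 206) (iqb tpr236_c)))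 (BT.Fa_mk (BT.Fa_mk (BT.Fa_leaf (P := Itm.ok 206) (iqf tpr210_c)) (BT.Fa_leaf (P := Itm.ok 206) (iqb tpr606_c))) (BT.Fa_leaf (P := Itm.ok 206) (iqb tpr1013_c)))))) (BT.Fa_mk (BT.Fa_mk (BT.Fa_mk (BT.Fa_mk (BT.Fa_mk (BT.Fa_leaf (P := Itm.ok 206) (iqb tpr1054_c)) (BT.Fa_leaf (P := Itm.ok 206) (iqb tpr210_c))) (BT.Fa_mk (BT.Fa_leaf (P := Itm.ok 206) (iqf tpr606_c)) (BT.Fa_leaf (P := Itm.ok 206) (iqf tpr527_c)))) (BT.Fa_mk (BT.Fa_mk (BT.Fa_leaf (P := Itm.ok 206) (iqb tpr527_c)) (BT.Fa_leaf (P := Itm.ok 206) (iqb tpr562_c))) (BT.Fa_leaf (P := Itm.ok 206) (iqb tpr585_c)))) (BT.Fa_mk (BT.Fa_mk (BT.Fa_mk (BT.Fa_leaf (P := Itm.ok 206) (iqf tpr607_c)) (BT.Fa_leaf (P := Itm.ok 206) (iqb tpr541_c))) (BT.Fa_leaf (P := Itm.ok 206) (iqf tpr1013_c)))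 (BT.Fa_mk (BT.Fa_mk (BT.Fa_leaf (P := Itm.ok 206) (iqf tpr517_c)) (BT.Fa_leaf (P := Itm.ok 206) (iqb tpr547_c))) (BT.Fa_leaf (P := Itm.ok 206) (iqb tpr631_c))))) (BT.Fa_mk (BT.Fa_mk (BT.Fa_mk (BT.Fa_mk (BT.Fa_leaf (P := Itm.ok 206) (iqb tpr1730_c)) (BT.Fa_leaf (P := Itm.ok 206) (iqf tpr251_c))) (BT.Fa_leaf (P := Itm.ok 206) (iqf tpr579_c))) (BT.Fa_mk (BT.Fa_mk (BT.Fa_leaf (P := Itm.ok 206) (iqb tpr625_c)) (BT.Fa_leaf (P := Itm.ok 206) (iqf tpr641_c))) (BT.Fa_leaf (P := Itm.ok 206) (iqf tpr627_c)))) (BT.Fa_mk (BT.Fa_mk (BT.Fa_mk (BT.Fa_leaf (P := Itm.ok 206) (iqb tpr635_c)) (BT.Fa_leaf (P := Itm.ok 206) (iqb tpr700_c))) (BT.Fa_leaf (P := Itm.ok 206) (iqb tpr636_c))) (BT.Fa_mk (BT.Fa_mk (BT.Fa_leaf (P := Itm.ok 206) (iqf tpr610_c)) (BT.Fa_leaf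 (P := Itm.ok 206) (iqb tpr572_c))) (BT.Fa_leaf (P := Itm.ok 206) (iqb tpr583_c))))))) (BT.Fa_mk (BT.Fa_mk (BT.Fa_mk (BT.Fa_mk (BT.Fa_mk (BT.Fa_mk (BT.Fa_leaf (P := Itm.ok 206) (iqf tpr701_c)) (BT.Fa_leaf (P := Itm.ok 206) (iqb tpr577_c))) (BT.Fa_mk (BT.Fa_leaf (P := Itm.ok 206) (iqf tpr619_c)) (BT.Fa_leaf (P := Itm.ok 206) (iqb tpr701_c)))) (BT.Fa_mk (BT.Fa_mk (BT.Fa_leaf (P := Itm.ok 206) (iqf tpr1054_c)) (BT.Fa_leaf (P := Itm.ok 206) (iqb tpr1094_c))) (BT.Fa_leaf (P := Itm.ok 206) (iqf tpr12_c)))) (BT.Fa_mk (BT.Fa_mk (BT.Fa_mk (BT.Fa_leaf (P := Itm.ok 206) (iqf tpr1016_c)) (BT.Fa_leaf (P := Itm.ok 206) (iqf tpr582_c))) (BT.Fa_leaf (P := Itm.ok 206) (iqf tpr1108_c))) (BT.Fa_mk (BT.Fa_mk (BT.Fa_leaf (P := Itm.ok 206) (iqf tpr556_c))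 (BT.Fa_leaf (P := Itm.ok 206) (iqb tpr10_c))) (BT.Fa_leaf (P := Itm.ok 206) (iqf tpr235_c))))) (BT.Fa_mk (BT.Fa_mk (BT.Fa_mk (BT.Fa_mk (BT.Fa_leaf (P := Itm.ok 206) (iqb tpr1737_c)) (BT.Fa_leaf (P := Itm.ok 206) (iqf tpr683_c))) (BT.Fa_leaf (P := Itm.ok 206) (iqb tpr641_c))) (BT.Fa_mk (BT.Fa_mk (BT.Fa_leaf (P := Itm.ok 206) (iqb tpr1028_c)) (BT.Fa_leaf (P := Itm.ok 206) (iqf tpr748_c))) (BT.Fa_leaf (P := Itm.ok 206) (iqb tpr1015_c)))) (BT.Fa_mk (BT.Fa_mk (BT.Fa_mk (BT.Fa_leaf (P := Itm.ok 206) (iqb tpr1538_c)) (BT.Fa_leaf (P := Itm.ok 206) (iqf tpr1064_c))) (BT.Fa_leaf (P := Itm.ok 206) (iqb tpr692_c))) (BT.Fa_mk (BT.Fa_mk (BT.Fa_leaf (P := Itm.ok 206) (iqb tpr1052_c)) (BT.Fa_leaf (P := Itm.ok 206) (iqb tpr188_c))) (BT.Fa_leaf (P :=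 Itm.ok 206) (iqb tpr1744_c)))))) (BT.Fa_mk (BT.Fa_mk (BT.Fa_mk (BT.Fa_mk (BT.Fa_mk (BT.Fa_leaf (P := Itm.ok 206) (iqb tpr1065_c)) (BT.Fa_leaf (P := Itm.ok 206) (iqf tpr734_c))) (BT.Fa_mk (BT.Fa_leaf (P := Itm.ok 206) (iqf tpr1132_c)) (BT.Fa_leaf (P := Itm.ok 206) (iqb tpr1757_c)))) (BT.Fa_mk (BT.Fa_mk (BT.Fa_leaf (P := Itm.ok 206) (iqb tpr1568_c)) (BT.Fa_leaf (P := Itm.ok 206) (iqb tpr1121_c))) (BT.Fa_leaf (P := Itm.ok 206) (iqb tpr1739_c)))) (BT.Fa_mk (BT.Fa_mk (BT.Fa_mk (BT.Fa_leaf (P := Itm.ok 206) (iqb tpr1743_c)) (BT.Fa_leaf (P := Itm.ok 206) (iqf tpr1111_c))) (BT.Fa_leaf (P := Itm.ok 206) (iqb tpr1032_c))) (BT.Fa_mk (BT.Fa_mk (BT.Fa_leaf (P := Itm.ok 206) (iqb tpr1740_c)) (BT.Fa_leaf (P := Itm.ok 206) (iqb tpr1753_c))) (BT.Fa_leaf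 (P := Itm.ok 206) (iqf tpr1053_c))))) (BT.Fa_mk (BT.Fa_mk (BT.Fa_mk (BT.Fa_mk (BT.Fa_leaf (P := Itm.ok 206) (iqb tpr1218_c)) (BT.Fa_leaf (P := Itm.ok 206) (iqf tpr1750_c))) (BT.Fa_leaf (P := Itm.ok 206) (iqf tpr912_c))) (BT.Fa_mk (BT.Fa_mk (BT.Fa_leaf (P := Itm.ok 206) (iqf tpr1457_c)) (BT.Fa_leaf (P := Itm.ok 206) (iqb tpr1769_c))) (BT.Fa_leaf (P := Itm.ok 206) (iqb tpr1457_c)))) (BT.Fa_mk (BT.Fa_mk (BT.Fa_mk (BT.Fa_leaf (P := Itm.ok 206) (iqf tpr609_c)) (BT.Fa_leaf (P := Itm.ok 206) (iqb tpr721_c))) (BT.Fa_leaf (P := Itm.ok 206) (iqb tpr245_c))) (BT.Fa_mk (BT.Fa_mk (BT.Fa_leaf (P := Itm.ok 206) (iqf tpr768_c)) (BT.Fa_leaf (P := Itm.ok 206) (iqf tpr236_c))) (BT.Fa_leaf (P := Itm.ok 206) (iqf tpr51_c)))))))) (BT.Fa_mk (BT.Fa_mk (BT.Fa_mk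 (BT.Fa_mk (BT.Fa_mk (BT.Fa_mk (BT.Fa_mk (BT.Fa_leaf (P := Itm.ok 206) (iqb tpr557_c)) (BT.Fa_leaf (P := Itm.ok 206) (iqf tpr780_c))) (BT.Fa_mk (BT.Fa_leaf (P := Itm.ok 206) (iqb tpr18_c)) (BT.Fa_leaf (P := Itm.ok 206) (iqb tpr499_c)))) (BT.Fa_mk (BT.Fa_mk (BT.Fa_leaf (P := Itm.ok 206) (iqf tpr644_c)) (BT.Fa_leaf (P := Itm.ok 206) (iqf tpr429_c))) (BT.Fa_leaf (P := Itm.ok 206) (iqb tpr9_c)))) (BT.Fa_mk (BT.Fa_mk (BT.Fa_mk (BT.Fa_leaf (P := Itm.ok 206) (iqb tpr116_c)) (BT.Fa_leaf (P := Itm.ok 206) (iqb tpr1732_c))) (BT.Fa_leaf (P := Itm.ok 206) (iqb tpr1756_c))) (BT.Fa_mk (BT.Fa_mk (BT.Fa_leaf (P := Itm.ok 206) (iqb tpr1747_c)) (BT.Fa_leaf (P := Itm.ok 206) (iqb tpr29_c))) (BT.Fa_leaf (P := Itm.ok 206) (iqb tpr601_c))))) (BT.Fa_mk (BT.Fa_mk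 (BT.Fa_mk (BT.Fa_mk (BT.Fa_leaf (P := Itm.ok 206) (iqb tpr1010_c)) (BT.Fa_leaf (P := Itm.ok 206) (iqf tpr953_c))) (BT.Fa_leaf (P := Itm.ok 206) (iqb tpr1728_c))) (BT.Fa_mk (BT.Fa_mk (BT.Fa_leaf (P := Itm.ok 206) (iqb tpr609_c)) (BT.Fa_leaf (P := Itm.ok 206) (iqb tpr915_c))) (BT.Fa_leaf (P := Itm.ok 206) (iqb tpr429_c)))) (BT.Fa_mk (BT.Fa_mk (BT.Fa_mk (BT.Fa_leaf (P := Itm.ok 206) (iqb tpr665_c)) (BT.Fa_leaf (P := Itm.ok 206) (iqb tpr223_c))) (BT.Fa_leaf (P := Itm.ok 206) (iqb tpr563_c))) (BT.Fa_mk (BT.Fa_mk (BT.Fa_leaf (P := Itm.ok 206) (iqb tpr1735_c)) (BT.Fa_leaf (P := Itm.ok 206) (iqb tpr323_c))) (BT.Fa_leaf (P := Itm.ok 206) (iqb tpr1056_c)))))) (BT.Fa_mk (BT.Fa_mk (BT.Fa_mk (BT.Fa_mk (BT.Fa_mk (BT.Fa_leaf (P := Itm.ok 206) (iqb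 tpr969_c)) (BT.Fa_leaf (P := Itm.ok 206) (iqb tpr314_c))) (BT.Fa_mk (BT.Fa_leaf (P := Itm.ok 206) (iqf tpr1021_c)) (BT.Fa_leaf (P := Itm.ok 206) (iqf tpr568_c)))) (BT.Fa_mk (BT.Fa_mk (BT.Fa_leaf (P := Itm.ok 206) (iqf tpr1023_c)) (BT.Fa_leaf (P := Itm.ok 206) (iqb tpr1022_c))) (BT.Fa_leaf (P := Itm.ok 206) (iqb tpr1103_c)))) (BT.Fa_mk (BT.Fa_mk (BT.Fa_mk (BT.Fa_leaf (P := Itm.ok 206) (iqb tpr607_c)) (BT.Fa_leaf (P := Itm.ok 206) (iqf tpr555_c))) (BT.Fa_leaf (P := Itm.ok 206) (iqb tpr616_c))) (BT.Fa_mk (BT.Fa_mk (BT.Fa_leaf (P := Itm.ok 206) (iqf tpr700_c)) (BT.Fa_leaf (P := Itm.ok 206) (iqf tpr679_c))) (BT.Fa_leaf (P := Itm.ok 206) (iqf tpr635_c))))) (BT.Fa_mk (BT.Fa_mk (BT.Fa_mk (BT.Fa_mk (BT.Fa_leaf (P := Itm.ok 206) (iqf tpr1105_c))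 (BT.Fa_leaf (P := Itm.ok 206) (iqf tpr1100_c))) (BT.Fa_leaf (P := Itm.ok 206) (iqf tpr11_c))) (BT.Fa_mk (BT.Fa_mk (BT.Fa_leaf (P := Itm.ok 206) (iqf tpr82_c)) (BT.Fa_leaf (P := Itm.ok 206) (iqb tpr22_c))) (BT.Fa_leaf (P := Itm.ok 206) (iqf tpr1009_c)))) (BT.Fa_mk (BT.Fa_mk (BT.Fa_mk (BT.Fa_leaf (P := Itm.ok 206) (iqb tpr1099_c)) (BT.Fa_leaf (P := Itm.ok 206) (iqf tpr1554_c))) (BT.Fa_leaf (P := Itm.ok 206) (iqf tpr1112_c))) (BT.Fa_mk (BT.Fa_mk (BT.Fa_leaf (P := Itm.ok 206) (iqb tpr1143_c)) (BT.Fa_leaf (P := Itm.ok 206) (iqb tpr555_c))) (BT.Fa_leaf (P := Itm.ok 206) (iqf tpr564_c))))))) (BT.Fa_mk (BT.Fa_mk (BT.Fa_mk (BT.Fa_mk (BT.Fa_mk (BT.Fa_mk (BT.Fa_leaf (P := Itm.ok 206) (iqb tpr727_c)) (BT.Fa_leaf (P := Itm.ok 206) (iqb tpr629_c)))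 (BT.Fa_mk (BT.Fa_leaf (P := Itm.ok 206) (iqb tpr639_c)) (BT.Fa_leaf (P := Itm.ok 206) (iqb tpr576_c)))) (BT.Fa_mk (BT.Fa_mk (BT.Fa_leaf (P := Itm.ok 206) (iqb tpr294_c)) (BT.Fa_leaf (P := Itm.ok 206) (iqf tpr511_c))) (BT.Fa_leaf (P := Itm.ok 206) (iqf tpr563_c)))) (BT.Fa_mk (BT.Fa_mk (BT.Fa_mk (BT.Fa_leaf (P := Itm.ok 206) (iqf tpr502_c)) (BT.Fa_leaf (P := Itm.ok 206) (iqf tpr545_c))) (BT.Fa_leaf (P := Itm.ok 206) (iqf tpr17_c))) (BT.Fa_mk (BT.Fa_mk (BT.Fa_leaf (P := Itm.ok 206) (iqb tpr960_c)) (BT.Fa_leaf (P := Itm.ok 206) (iqb tpr658_c))) (BT.Fa_leaf (P := Itm.ok 206) (iqf tpr617_c))))) (BT.Fa_mk (BT.Fa_mk (BT.Fa_mk (BT.Fa_mk (BT.Fa_leaf (P := Itm.ok 206) (iqb tpr548_c)) (BT.Fa_leaf (P := Itm.ok 206) (iqf tpr547_c))) (BT.Fa_leaf (P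 := Itm.ok 206) (iqb tpr573_c))) (BT.Fa_mk (BT.Fa_mk (BT.Fa_leaf (P := Itm.ok 206) (iqb tpr1144_c)) (BT.Fa_leaf (P := Itm.ok 206) (iqb tpr91_c))) (BT.Fa_leaf (P := Itm.ok 206) (iqf tpr614_c)))) (BT.Fa_mk (BT.Fa_mk (BT.Fa_mk (BT.Fa_leaf (P := Itm.ok 206) (iqf tpr596_c)) (BT.Fa_leaf (P := Itm.ok 206) (iqf tpr656_c))) (BT.Fa_leaf (P := Itm.ok 206) (iqb tpr560_c))) (BT.Fa_mk (BT.Fa_mk (BT.Fa_leaf (P := Itm.ok 206) (iqf tpr239_c)) (BT.Fa_leaf (P := Itm.ok 206) (iqf tpr18_c))) (BT.Fa_leaf (P := Itm.ok 206) (iqf tpr245_c)))))) (BT.Fa_mk (BT.Fa_mk (BT.Fa_mk (BT.Fa_mk (BT.Fa_mk (BT.Fa_leaf (P := Itm.ok 206) (iqb tpr1768_c)) (BT.Fa_leaf (P := Itm.ok 206) (iqf tpr550_c))) (BT.Fa_leaf (P := Itm.ok 206) (iqb tpr1227_c))) (BT.Fa_mk (BT.Fa_mk (BT.Fa_leaf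 (P := Itm.ok 206) (iqb tpr556_c)) (BT.Fa_leaf (P := Itm.ok 206) (iqb tpr247_c))) (BT.Fa_leaf (P := Itm.ok 206) (iqf tpr516_c)))) (BT.Fa_mk (BT.Fa_mk (BT.Fa_mk (BT.Fa_leaf (P := Itm.ok 206) (iqf tpr90_c)) (BT.Fa_leaf (P := Itm.ok 206) (iqf tpr584_c))) (BT.Fa_leaf (P := Itm.ok 206) (iqf tpr640_c))) (BT.Fa_mk (BT.Fa_mk (BT.Fa_leaf (P := Itm.ok 206) (iqf tpr89_c)) (BT.Fa_leaf (P := Itm.ok 206) (iqb tpr1196_c))) (BT.Fa_leaf (P := Itm.ok 206) (iqf tpr453_c))))) (BT.Fa_mk (BT.Fa_mk (BT.Fa_mk (BT.Fa_mk (BT.Fa_leaf (P := Itm.ok 206) (iqb tpr517_c)) (BT.Fa_leaf (P := Itm.ok 206) (iqb tpr51_c))) (BT.Fa_leaf (P := Itm.ok 206) (iqf tpr295_c))) (BT.Fa_mk (BT.Fa_mk (BT.Fa_leaf (P := Itm.ok 206) (iqf tpr48_c)) (BT.Fa_leaf (P := Itm.ok 206) (iqf tpr2037_c)))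 (BT.Fa_leaf (P := Itm.ok 206) (iqb tpr23_c)))) (BT.Fa_mk (BT.Fa_mk (BT.Fa_mk (BT.Fa_leaf (P := Itm.ok 206) (iqf tpr259_c)) (BT.Fa_leaf (P := Itm.ok 206) (iqf tpr562_c))) (BT.Fa_leaf (P := Itm.ok 206) (iqf tpr1180_c))) (BT.Fa_mk (BT.Fa_mk (BT.Fa_leaf (P := Itm.ok 206) (iqf tpr572_c)) (BT.Fa_leaf (P := Itm.ok 206) (iqb tpr768_c))) (BT.Fa_leaf (P := Itm.ok 206) (iqb tpr559_c))))))))) (BT.Fa_mk (BT.Fa_mk (BT.Fa_mk (BT.Fa_mk (BT.Fa_mk (BT.Fa_mk (BT.Fa_mk (BT.Fa_mk (BT.Fa_leaf (P := Itm.ok 206) (iqb tpr506_c)) (BT.Fa_leaf (P := Itm.ok 206) (iqb tpr789_c))) (BT.Fa_mk (BT.Fa_leaf (P := Itm.ok 206) (iqb tpr627_c)) (BT.Fa_leaf (P := Itm.ok 206) (iqf tpr585_c)))) (BT.Fa_mk (BT.Fa_mk (BT.Fa_leaf (P := Itm.ok 206) (iqf tpr167_c)) (BT.Fa_leaf (P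 := Itm.ok 206) (iqb tpr968_c))) (BT.Fa_leaf (P := Itm.ok 206) (iqf tpr1257_c)))) (BT.Fa_mk (BT.Fa_mk (BT.Fa_mk (BT.Fa_leaf (P := Itm.ok 206) (iqf tpr293_c)) (BT.Fa_leaf (P := Itm.ok 206) (iqf tpr560_c))) (BT.Fa_leaf (P := Itm.ok 206) (iqf tpr1028_c))) (BT.Fa_mk (BT.Fa_mk (BT.Fa_leaf (P := Itm.ok 206) (iqb tpr501_c)) (BT.Fa_leaf (P := Itm.ok 206) (iqf tpr692_c))) (BT.Fa_leaf (P := Itm.ok 206) (iqf tpr642_c))))) (BT.Fa_mk (BT.Fa_mk (BT.Fa_mk (BT.Fa_mk (BT.Fa_leaf (P := Itm.ok 206) (iqf tpr1015_c)) (BT.Fa_leaf (P := Itm.ok 206) (iqb tpr293_c))) (BT.Fa_leaf (P := Itm.ok 206) (iqb tpr1745_c))) (BT.Fa_mk (BT.Fa_mk (BT.Fa_leaf (P := Itm.ok 206) (iqb tpr1749_c)) (BT.Fa_leaf (P := Itm.ok 206) (iqb tpr1280_c))) (BT.Fa_leaf (P := Itm.ok 206) (iqf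 tpr628_c)))) (BT.Fa_mk (BT.Fa_mk (BT.Fa_mk (BT.Fa_leaf (P := Itm.ok 206) (iqf tpr576_c)) (BT.Fa_leaf (P := Itm.ok 206) (iqf tpr294_c))) (BT.Fa_leaf (P := Itm.ok 206) (iqf tpr571_c))) (BT.Fa_mk (BT.Fa_mk (BT.Fa_leaf (P := Itm.ok 206) (iqf tpr1099_c)) (BT.Fa_leaf (P := Itm.ok 206) (iqb tpr502_c))) (BT.Fa_leaf (P := Itm.ok 206) (iqf tpr548_c)))))) (BT.Fa_mk (BT.Fa_mk (BT.Fa_mk (BT.Fa_mk (BT.Fa_mk (BT.Fa_leaf (P := Itm.ok 206) (iqb tpr704_c)) (BT.Fa_leaf (P := Itm.ok 206) (iqf tpr613_c))) (BT.Fa_mk (BT.Fa_leaf (P := Itm.ok 206) (iqb tpr505_c)) (BT.Fa_leaf (P := Itm.ok 206) (iqf tpr625_c)))) (BT.Fa_mk (BT.Fa_mk (BT.Fa_leaf (P := Itm.ok 206) (iqf tpr721_c)) (BT.Fa_leaf (P := Itm.ok 206) (iqb tpr637_c))) (BT.Fa_leaf (P := Itm.ok 206) (iqf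 tpr675_c)))) (BT.Fa_mk (BT.Fa_mk (BT.Fa_mk (BT.Fa_leaf (P := Itm.ok 206) (iqf tpr1065_c)) (BT.Fa_leaf (P := Itm.ok 206) (iqf tpr1047_c))) (BT.Fa_leaf (P := Itm.ok 206) (iqb tpr203_c))) (BT.Fa_mk (BT.Fa_mk (BT.Fa_leaf (P := Itm.ok 206) (iqf tpr1266_c)) (BT.Fa_leaf (P := Itm.ok 206) (iqb tpr582_c))) (BT.Fa_leaf (P := Itm.ok 206) (iqb tpr1770_c))))) (BT.Fa_mk (BT.Fa_mk (BT.Fa_mk (BT.Fa_mk (BT.Fa_leaf (P := Itm.ok 206) (iqf tpr680_c)) (BT.Fa_leaf (P := Itm.ok 206) (iqf tpr1135_c))) (BT.Fa_leaf (P := Itm.ok 206) (iqf tpr645_c))) (BT.Fa_mk (BT.Fa_mk (BT.Fa_leaf (P := Itm.ok 206) (iqf tpr198_c)) (BT.Fa_leaf (P := Itm.ok 206) (iqb tpr990_c))) (BT.Fa_leaf (P := Itm.ok 206) (iqb tpr1731_c)))) (BT.Fa_mk (BT.Fa_mk (BT.Fa_mk (BT.Fa_leaf (P := Itm.ok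 206) (iqb tpr89_c)) (BT.Fa_leaf (P := Itm.ok 206) (iqb tpr734_c))) (BT.Fa_leaf (P := Itm.ok 206) (iqb tpr540_c))) (BT.Fa_mk (BT.Fa_mk (BT.Fa_leaf (P := Itm.ok 206) (iqf tpr975_c)) (BT.Fa_leaf (P := Itm.ok 206) (iqf tpr501_c))) (BT.Fa_leaf (P := Itm.ok 206) (iqf tpr1729_c))))))) (BT.Fa_mk (BT.Fa_mk (BT.Fa_mk (BT.Fa_mk (BT.Fa_mk (BT.Fa_mk (BT.Fa_leaf (P := Itm.ok 206) (iqf tpr1051_c)) (BT.Fa_leaf (P := Itm.ok 206) (iqf tpr1018_c))) (BT.Fa_mk (BT.Fa_leaf (P := Itm.ok 206) (iqf tpr573_c)) (BT.Fa_leaf (P := Itm.ok 206) (iqf tpr611_c)))) (BT.Fa_mk (BT.Fa_mk (BT.Fa_leaf (P := Itm.ok 206) (iqb tpr579_c)) (BT.Fa_leaf (P := Itm.ok 206) (iqb tpr977_c))) (BT.Fa_leaf (P := Itm.ok 206) (iqb tpr1180_c)))) (BT.Fa_mk (BT.Fa_mk (BT.Fa_mk (BT.Fa_leaf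 (P := Itm.ok 206) (iqf tpr620_c)) (BT.Fa_leaf (P := Itm.ok 206) (iqf tpr1056_c))) (BT.Fa_leaf (P := Itm.ok 206) (iqb tpr259_c))) (BT.Fa_mk (BT.Fa_mk (BT.Fa_leaf (P := Itm.ok 206) (iqb tpr82_c)) (BT.Fa_leaf (P := Itm.ok 206) (iqf tpr1735_c))) (BT.Fa_leaf (P := Itm.ok 206) (iqf tpr22_c))))) (BT.Fa_mk (BT.Fa_mk (BT.Fa_mk (BT.Fa_mk (BT.Fa_leaf (P := Itm.ok 206) (iqb tpr1742_c)) (BT.Fa_leaf (P := Itm.ok 206) (iqf tpr965_c))) (BT.Fa_leaf (P := Itm.ok 206) (iqf tpr23_c))) (BT.Fa_mk (BT.Fa_mk (BT.Fa_leaf (P := Itm.ok 206) (iqf tpr803_c)) (BT.Fa_leaf (P := Itm.ok 206) (iqf tpr1580_c))) (BT.Fa_leaf (P := Itm.ok 206) (iqf tpr658_c)))) (BT.Fa_mk (BT.Fa_mk (BT.Fa_mk (BT.Fa_leaf (P := Itm.ok 206) (iqf tpr1138_c)) (BT.Fa_leaf (P := Itm.ok 206) (iqb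 tpr1064_c))) (BT.Fa_leaf (P := Itm.ok 206) (iqb tpr568_c))) (BT.Fa_mk (BT.Fa_mk (BT.Fa_leaf (P := Itm.ok 206) (iqf tpr509_c)) (BT.Fa_leaf (P := Itm.ok 206) (iqf tpr188_c))) (BT.Fa_leaf (P := Itm.ok 206) (iqb tpr1247_c)))))) (BT.Fa_mk (BT.Fa_mk (BT.Fa_mk (BT.Fa_mk (BT.Fa_mk (BT.Fa_leaf (P := Itm.ok 206) (iqb tpr235_c)) (BT.Fa_leaf (P := Itm.ok 206) (iqb tpr1233_c))) (BT.Fa_mk (BT.Fa_leaf (P := Itm.ok 206) (iqb tpr11_c)) (BT.Fa_leaf (P := Itm.ok 206) (iqb tpr546_c)))) (BT.Fa_mk (BT.Fa_mk (BT.Fa_leaf (P := Itm.ok 206) (iqf tpr518_c)) (BT.Fa_leaf (P := Itm.ok 206) (iqb tpr17_c))) (BT.Fa_leaf (P := Itm.ok 206) (iqf tpr1044_c)))) (BT.Fa_mk (BT.Fa_mk (BT.Fa_mk (BT.Fa_leaf (P := Itm.ok 206) (iqf tpr1767_c)) (BT.Fa_leaf (P := Itm.ok 206) (iqb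 tpr612_c))) (BT.Fa_leaf (P := Itm.ok 206) (iqf tpr977_c))) (BT.Fa_mk (BT.Fa_mk (BT.Fa_leaf (P := Itm.ok 206) (iqb tpr679_c)) (BT.Fa_leaf (P := Itm.ok 206) (iqf tpr1032_c))) (BT.Fa_leaf (P := Itm.ok 206) (iqb tpr507_c))))) (BT.Fa_mk (BT.Fa_mk (BT.Fa_mk (BT.Fa_mk (BT.Fa_leaf (P := Itm.ok 206) (iqf tpr1141_c)) (BT.Fa_leaf (P := Itm.ok 206) (iqb tpr518_c))) (BT.Fa_leaf (P := Itm.ok 206) (iqb tpr1016_c))) (BT.Fa_mk (BT.Fa_mk (BT.Fa_leaf (P := Itm.ok 206) (iqf tpr1077_c)) (BT.Fa_leaf (P := Itm.ok 206) (iqf tpr1072_c))) (BT.Fa_leaf (P := Itm.ok 206) (iqb tpr1067_c)))) (BT.Fa_mk (BT.Fa_mk (BT.Fa_mk (BT.Fa_leaf (P := Itm.ok 206) (iqb tpr1070_c)) (BT.Fa_leaf (P := Itm.ok 206) (iqb tpr1748_c))) (BT.Fa_leaf (P := Itm.ok 206) (iqf tpr91_c))) (BT.Fa_mk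 (BT.Fa_mk (BT.Fa_leaf (P := Itm.ok 206) (iqf tpr649_c)) (BT.Fa_leaf (P := Itm.ok 206) (iqb tpr1154_c))) (BT.Fa_leaf (P := Itm.ok 206) (iqf tpr1071_c)))))))) (BT.Fa_mk (BT.Fa_mk (BT.Fa_mk (BT.Fa_mk (BT.Fa_mk (BT.Fa_mk (BT.Fa_mk (BT.Fa_leaf (P := Itm.ok 206) (iqf tpr1024_c)) (BT.Fa_leaf (P := Itm.ok 206) (iqb tpr1040_c))) (BT.Fa_mk (BT.Fa_leaf (P := Itm.ok 206) (iqb tpr619_c)) (BT.Fa_leaf (P := Itm.ok 206) (iqf tpr636_c)))) (BT.Fa_mk (BT.Fa_mk (BT.Fa_leaf (P := Itm.ok 206) (iqf tpr1728_c)) (BT.Fa_leaf (P := Itm.ok 206) (iqb tpr1059_c))) (BT.Fa_leaf (P := Itm.ok 206) (iqb tpr1045_c)))) (BT.Fa_mk (BT.Fa_mk (BT.Fa_mk (BT.Fa_leaf (P := Itm.ok 206) (iqf tpr1227_c)) (BT.Fa_leaf (P := Itm.ok 206) (iqb tpr1063_c))) (BT.Fa_leaf (P := Itm.ok 206)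 (iqb tpr1049_c))) (BT.Fa_mk (BT.Fa_mk (BT.Fa_leaf (P := Itm.ok 206) (iqf tpr608_c)) (BT.Fa_leaf (P := Itm.ok 206) (iqf tpr1060_c))) (BT.Fa_leaf (P := Itm.ok 206) (iqb tpr516_c))))) (BT.Fa_mk (BT.Fa_mk (BT.Fa_mk (BT.Fa_mk (BT.Fa_leaf (P := Itm.ok 206) (iqb tpr642_c)) (BT.Fa_leaf (P := Itm.ok 206) (iqb tpr1120_c))) (BT.Fa_leaf (P := Itm.ok 206) (iqf tpr1733_c))) (BT.Fa_mk (BT.Fa_mk (BT.Fa_leaf (P := Itm.ok 206) (iqb tpr1751_c)) (BT.Fa_leaf (P := Itm.ok 206) (iqb tpr1104_c))) (BT.Fa_leaf (P := Itm.ok 206) (iqf tpr1772_c)))) (BT.Fa_mk (BT.Fa_mk (BT.Fa_mk (BT.Fa_leaf (P := Itm.ok 206) (iqf tpr1766_c)) (BT.Fa_leaf (P := Itm.ok 206) (iqb tpr1746_c))) (BT.Fa_leaf (P := Itm.ok 206) (iqb tpr1779_c))) (BT.Fa_mk (BT.Fa_mk (BT.Fa_leaf (P := Itm.ok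 206) (iqf tpr1228_c)) (BT.Fa_leaf (P := Itm.ok 206) (iqb tpr1775_c))) (BT.Fa_leaf (P := Itm.ok 206) (iqb tpr602_c)))))) (BT.Fa_mk (BT.Fa_mk (BT.Fa_mk (BT.Fa_mk (BT.Fa_mk (BT.Fa_leaf (P := Itm.ok 206) (iqb tpr1760_c)) (BT.Fa_leaf (P := Itm.ok 206) (iqb tpr240_c))) (BT.Fa_mk (BT.Fa_leaf (P := Itm.ok 206) (iqf tpr554_c)) (BT.Fa_leaf (P := Itm.ok 206) (iqb tpr617_c)))) (BT.Fa_mk (BT.Fa_mk (BT.Fa_leaf (P := Itm.ok 206) (iqf tpr238_c)) (BT.Fa_leaf (P := Itm.ok 206) (iqf tpr577_c))) (BT.Fa_leaf (P := Itm.ok 206) (iqb tpr1024_c)))) (BT.Fa_mk (BT.Fa_mk (BT.Fa_mk (BT.Fa_leaf (P := Itm.ok 206) (iqf tpr1019_c)) (BT.Fa_leaf (P := Itm.ok 206) (iqf tpr629_c))) (BT.Fa_leaf (P := Itm.ok 206) (iqf tpr624_c))) (BT.Fa_mk (BT.Fa_mk (BT.Fa_leaf (P := Itm.ok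 206) (iqf tpr962_c)) (BT.Fa_leaf (P := Itm.ok 206) (iqb tpr683_c))) (BT.Fa_leaf (P := Itm.ok 206) (iqb tpr680_c))))) (BT.Fa_mk (BT.Fa_mk (BT.Fa_mk (BT.Fa_mk (BT.Fa_leaf (P := Itm.ok 206) (iqf tpr1050_c)) (BT.Fa_leaf (P := Itm.ok 206) (iqb tpr610_c))) (BT.Fa_leaf (P := Itm.ok 206) (iqf tpr247_c))) (BT.Fa_mk (BT.Fa_mk (BT.Fa_leaf (P := Itm.ok 206) (iqf tpr672_c)) (BT.Fa_leaf (P := Itm.ok 206) (iqf tpr631_c))) (BT.Fa_leaf (P := Itm.ok 206) (iqb tpr614_c)))) (BT.Fa_mk (BT.Fa_mk (BT.Fa_mk (BT.Fa_leaf (P := Itm.ok 206) (iqf tpr615_c)) (BT.Fa_leaf (P := Itm.ok 206) (iqf tpr1063_c))) (BT.Fa_leaf (P := Itm.ok 206) (iqf tpr1633_c))) (BT.Fa_mk (BT.Fa_mk (BT.Fa_leaf (P := Itm.ok 206) (iqb tpr596_c)) (BT.Fa_leaf (P := Itm.ok 206) (iqb tpr748_c)))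 (BT.Fa_leaf (P := Itm.ok 206) (iqb tpr1075_c))))))) (BT.Fa_mk (BT.Fa_mk (BT.Fa_mk (BT.Fa_mk (BT.Fa_mk (BT.Fa_mk (BT.Fa_leaf (P := Itm.ok 206) (iqf tpr1061_c)) (BT.Fa_leaf (P := Itm.ok 206) (iqb tpr514_c))) (BT.Fa_mk (BT.Fa_leaf (P := Itm.ok 206) (iqb tpr611_c)) (BT.Fa_leaf (P := Itm.ok 206) (iqb tpr684_c)))) (BT.Fa_mk (BT.Fa_mk (BT.Fa_leaf (P := Itm.ok 206) (iqf tpr1052_c)) (BT.Fa_leaf (P := Itm.ok 206) (iqb tpr1047_c))) (BT.Fa_leaf (P := Itm.ok 206) (iqb tpr1061_c)))) (BT.Fa_mk (BT.Fa_mk (BT.Fa_mk (BT.Fa_leaf (P := Itm.ok 206) (iqb tpr703_c)) (BT.Fa_leaf (P := Itm.ok 206) (iqb tpr613_c))) (BT.Fa_leaf (P := Itm.ok 206) (iqf tpr703_c))) (BT.Fa_mk (BT.Fa_mk (BT.Fa_leaf (P := Itm.ok 206) (iqb tpr1195_c)) (BT.Fa_leaf (P := Itm.ok 206) (iqb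 tpr615_c))) (BT.Fa_leaf (P := Itm.ok 206) (iqb tpr542_c))))) (BT.Fa_mk (BT.Fa_mk (BT.Fa_mk (BT.Fa_mk (BT.Fa_leaf (P := Itm.ok 206) (iqf tpr597_c)) (BT.Fa_leaf (P := Itm.ok 206) (iqf tpr704_c))) (BT.Fa_leaf (P := Itm.ok 206) (iqf tpr1764_c))) (BT.Fa_mk (BT.Fa_mk (BT.Fa_leaf (P := Itm.ok 206) (iqb tpr1734_c)) (BT.Fa_leaf (P := Itm.ok 206) (iqb tpr689_c))) (BT.Fa_leaf (P := Itm.ok 206) (iqf tpr1199_c)))) (BT.Fa_mk (BT.Fa_mk (BT.Fa_mk (BT.Fa_leaf (P := Itm.ok 206) (iqb tpr1219_c)) (BT.Fa_leaf (P := Itm.ok 206) (iqf tpr1278_c))) (BT.Fa_leaf (P := Itm.ok 206) (iqb tpr1234_c))) (BT.Fa_mk (BT.Fa_mk (BT.Fa_leaf (P := Itm.ok 206) (iqf tpr1233_c)) (BT.Fa_leaf (P := Itm.ok 206) (iqf tpr1275_c))) (BT.Fa_leaf (P := Itm.ok 206) (iqf tpr1279_c))))))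 (BT.Fa_mk (BT.Fa_mk (BT.Fa_mk (BT.Fa_mk (BT.Fa_mk (BT.Fa_leaf (P := Itm.ok 206) (iqf tpr1067_c)) (BT.Fa_leaf (P := Itm.ok 206) (iqf tpr626_c))) (BT.Fa_leaf (P := Itm.ok 206) (iqf tpr698_c))) (BT.Fa_mk (BT.Fa_mk (BT.Fa_leaf (P := Itm.ok 206) (iqf tpr54_c)) (BT.Fa_leaf (P := Itm.ok 206) (iqf tpr519_c))) (BT.Fa_leaf (P := Itm.ok 206) (iqb tpr453_c)))) (BT.Fa_mk (BT.Fa_mk (BT.Fa_mk (BT.Fa_leaf (P := Itm.ok 206) (iqf tpr1765_c)) (BT.Fa_leaf (P := Itm.ok 206) (iqf tpr514_c))) (BT.Fa_leaf (P := Itm.ok 206) (iqb tpr1053_c))) (BT.Fa_mk (BT.Fa_mk (BT.Fa_leaf (P := Itm.ok 206) (iqf tpr1148_c)) (BT.Fa_leaf (P := Itm.ok 206) (iqb tpr645_c))) (BT.Fa_leaf (P := Itm.ok 206) (iqb tpr33_c))))) (BT.Fa_mk (BT.Fa_mk (BT.Fa_mk (BT.Fa_mk (BT.Fa_leaf (P :=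 Itm.ok 206) (iqf tpr546_c)) (BT.Fa_leaf (P := Itm.ok 206) (iqb tpr706_c))) (BT.Fa_leaf (P := Itm.ok 206) (iqb tpr1017_c))) (BT.Fa_mk (BT.Fa_mk (BT.Fa_leaf (P := Itm.ok 206) (iqf tpr1031_c)) (BT.Fa_leaf (P := Itm.ok 206) (iqb tpr640_c))) (BT.Fa_leaf (P := Itm.ok 206) (iqf tpr44_c)))) (BT.Fa_mk (BT.Fa_mk (BT.Fa_mk (BT.Fa_leaf (P := Itm.ok 206) (iqb tpr578_c)) (BT.Fa_leaf (P := Itm.ok 206) (iqf tpr727_c))) (BT.Fa_leaf (P := Itm.ok 206) (iqf tpr984_c))) (BT.Fa_mk (BT.Fa_mk (BT.Fa_leaf (P := Itm.ok 206) (iqb tpr1789_c)) (BT.Fa_leaf (P := Itm.ok 206) (iqf tpr203_c))) (BT.Fa_leaf (P := Itm.ok 206) (iqf tpr1084_c))))))))))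

/-- all words of the class have labels -/
theorem pokNFzE2ByA3H2AzIzAyB2H3AyB2EzF : POK 206 xNFzE2ByA3H2AzIzAyB2H3AyB2EzF :=
  y_pok (C0 := ceNFzE2ByA3H2AzIzAyB2H3AyB2EzF) (C1 := coNFzE2ByA3H2AzIzAyB2H3AyB2EzF) topNFzE2ByA3H2AzIzAyB2H3AyB2EzF nbNFzE2ByA3H2AzIzAyB2H3AyB2EzF (BT.Fa_of_all iiNFzE2ByA3H2AzIzAyB2H3AyB2EzF_c)
    (BT.Fa_mk (BT.Fa_mk (BT.Fa_mk (cyE_spec zeNFzE2ByA3H2AzIzAyB2H3AyB2EzF_0) (cyE_spec zeNFzE2ByA3H2AzIzAyB2H3AyB2EzF_1)) (BT.Fa_mk (cyE_spec zeNFzE2ByA3H2AzIzAyB2H3AyB2EzF_2) (BT.Fa_mk (cyE_spec zeNFzE2ByA3H2AzIzAyB2H3AyB2EzF_3) (cyE_spec zeNFzE2ByA3H2AzIzAyB2H3AyB2EzF_4)))) (BT.Fa_mk (BT.Fa_mk (BT.Fa_mk (BT.Fa_mk (cyE_spec zeNFzE2ByA3H2AzIzAyB2H3AyB2EzF_5) (cyE_spec zeNFzE2ByA3H2AzIzAyB2H3AyB2EzF_6)) (BT.Fa_mk (cyE_spec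 zeNFzE2ByA3H2AzIzAyB2H3AyB2EzF_7) (cyE_spec zeNFzE2ByA3H2AzIzAyB2H3AyB2EzF_8))) (BT.Fa_mk (BT.Fa_mk (cyE_spec zeNFzE2ByA3H2AzIzAyB2H3AyB2EzF_9) (cyE_spec zeNFzE2ByA3H2AzIzAyB2H3AyB2EzF_10)) (BT.Fa_mk (cyE_spec zeNFzE2ByA3H2AzIzAyB2H3AyB2EzF_11) (cyE_spec zeNFzE2ByA3H2AzIzAyB2H3AyB2EzF_12)))) (BT.Fa_mk (BT.Fa_mk (BT.Fa_mk (cyE_spec zeNFzE2ByA3H2AzIzAyB2H3AyB2EzF_13) (cyE_spec zeNFzE2ByA3H2AzIzAyB2H3AyB2EzF_14)) (BT.Fa_mk (cyE_spec zeNFzE2ByA3H2AzIzAyB2H3AyB2EzF_15) (cyE_spec zeNFzE2ByA3H2AzIzAyB2H3AyB2EzF_16))) (BT.Fa_mk (BT.Fa_mk (cyE_spec zeNFzE2ByA3H2AzIzAyB2H3AyB2EzF_17) (cyE_spec zeNFzE2ByA3H2AzIzAyB2H3AyB2EzF_18)) (cyE_spec zeNFzE2ByA3H2AzIzAyB2H3AyB2EzF_19)))))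
    (BT.Fa_mk (BT.Fa_mk (BT.Fa_mk (cyO_spec zoNFzE2ByA3H2AzIzAyB2H3AyB2EzF_0) (cyO_spec zoNFzE2ByA3H2AzIzAyB2H3AyB2EzF_1)) (BT.Fa_mk (cyO_spec zoNFzE2ByA3H2AzIzAyB2H3AyB2EzF_2) (BT.Fa_mk (cyO_spec zoNFzE2ByA3H2AzIzAyB2H3AyB2EzF_3) (cyO_spec zoNFzE2ByA3H2AzIzAyB2H3AyB2EzF_4)))) (BT.Fa_mk (BT.Fa_mk (BT.Fa_mk (cyO_spec zoNFzE2ByA3H2AzIzAyB2H3AyB2EzF_5) (BT.Fa_mk (cyO_spec zoNFzE2ByA3H2AzIzAyB2H3AyB2EzF_6) (cyO_spec zoNFzE2ByA3H2AzIzAyB2H3AyB2EzF_7))) (BT.Fa_mk (cyO_spec zoNFzE2ByA3H2AzIzAyB2H3AyB2EzF_8) (BT.Fa_mk (cyO_spec zoNFzE2ByA3H2AzIzAyB2H3AyB2EzF_9) (cyO_spec zoNFzE2ByA3H2AzIzAyB2H3AyB2EzF_10)))) (BT.Fa_mk (BT.Fa_mk (BT.Fa_mk (BT.Fa_mk (cyO_spec zoNFzE2ByA3H2AzIzAyB2H3AyB2EzF_11) (cyO_spec zoNFzE2ByA3H2AzIzAyB2H3AyB2EzF_12)) (BT.Fa_mk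 (cyO_spec zoNFzE2ByA3H2AzIzAyB2H3AyB2EzF_13) (cyO_spec zoNFzE2ByA3H2AzIzAyB2H3AyB2EzF_14))) (cyO_spec zoNFzE2ByA3H2AzIzAyB2H3AyB2EzF_15)) (BT.Fa_mk (cyO_spec zoNFzE2ByA3H2AzIzAyB2H3AyB2EzF_16) (cyO_spec zoNFzE2ByA3H2AzIzAyB2H3AyB2EzF_17)))))
    iiNFzE2ByA3H2AzIzAyB2H3AyB2EzF_k

theorem iiNFzE2ByA3H2ByAzAyB2H3A2EzF_k : iiNFzE2ByA3H2ByAzAyB2H3A2EzF.Fa (Itm.ok 206) := (BT.Fa_mk (BT.Fa_mk (BT.Fa_mk (BT.Fa_mk (BT.Fa_mk (BT.Fa_mk (BT.Fa_mk (BT.Fa_mk (BT.Fa_mk (BT.Fa_leaf (P := Itm.ok 206) (iqf tpr500_c)) (BT.Fa_leaf (P := Itm.ok 206) (iqf tpr168_c))) (BT.Fa_leaf (P := Itm.ok 206) (iqb tpr589_c))) (BT.Fa_mk (BT.Fa_leaf (P := Itm.ok 206) (iqb tpr72_c)) (BT.Fa_leaf (P := Itm.ok 206) (iqb tpr605_c)))) (BT.Fa_mk (BT.Fa_mk (BT.Fa_leaf (P := Itm.ok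 206) (iqb tpr236_c)) (BT.Fa_leaf (P := Itm.ok 206) (iqf tpr609_c))) (BT.Fa_mk (BT.Fa_leaf (P := Itm.ok 206) (iqf tpr251_c)) (BT.Fa_leaf (P := Itm.ok 206) (iqf tpr656_c))))) (BT.Fa_mk (BT.Fa_mk (BT.Fa_mk (BT.Fa_leaf (P := Itm.ok 206) (iqf tpr605_c)) (BT.Fa_leaf (P := Itm.ok 206) (iqb tpr959_c))) (BT.Fa_mk (BT.Fa_leaf (P := Itm.ok 206) (iqb tpr682_c)) (BT.Fa_leaf (P := Itm.ok 206) (iqf tpr54_c)))) (BT.Fa_mk (BT.Fa_mk (BT.Fa_leaf (P := Itm.ok 206) (iqf tpr8_c)) (BT.Fa_leaf (P := Itm.ok 206) (iqf tpr239_c))) (BT.Fa_mk (BT.Fa_leaf (P := Itm.ok 206) (iqf tpr608_c)) (BT.Fa_leaf (P := Itm.ok 206) (iqf tpr721_c)))))) (BT.Fa_mk (BT.Fa_mk (BT.Fa_mk (BT.Fa_mk (BT.Fa_leaf (P := Itm.ok 206) (iqb tpr556_c)) (BT.Fa_leaf (P := Itm.ok 206) (iqf tpr5_c)))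 (BT.Fa_mk (BT.Fa_leaf (P := Itm.ok 206) (iqb tpr508_c)) (BT.Fa_leaf (P := Itm.ok 206) (iqb tpr235_c)))) (BT.Fa_mk (BT.Fa_mk (BT.Fa_leaf (P := Itm.ok 206) (iqf tpr527_c)) (BT.Fa_leaf (P := Itm.ok 206) (iqb tpr1200_c))) (BT.Fa_mk (BT.Fa_leaf (P := Itm.ok 206) (iqb tpr167_c)) (BT.Fa_leaf (P := Itm.ok 206) (iqb tpr636_c))))) (BT.Fa_mk (BT.Fa_mk (BT.Fa_mk (BT.Fa_leaf (P := Itm.ok 206) (iqb tpr1065_c)) (BT.Fa_leaf (P := Itm.ok 206) (iqf tpr501_c))) (BT.Fa_mk (BT.Fa_leaf (P := Itm.ok 206) (iqb tpr585_c)) (BT.Fa_leaf (P := Itm.ok 206) (iqb tpr675_c)))) (BT.Fa_mk (BT.Fa_mk (BT.Fa_leaf (P := Itm.ok 206) (iqf tpr568_c)) (BT.Fa_leaf (P := Itm.ok 206) (iqf tpr619_c))) (BT.Fa_mk (BT.Fa_leaf (P := Itm.ok 206) (iqf tpr499_c)) (BT.Fa_leaf (P := Itm.ok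 206) (iqb tpr222_c))))))) (BT.Fa_mk (BT.Fa_mk (BT.Fa_mk (BT.Fa_mk (BT.Fa_mk (BT.Fa_leaf (P := Itm.ok 206) (iqf tpr780_c)) (BT.Fa_leaf (P := Itm.ok 206) (iqf tpr562_c))) (BT.Fa_mk (BT.Fa_leaf (P := Itm.ok 206) (iqb tpr968_c)) (BT.Fa_leaf (P := Itm.ok 206) (iqf tpr618_c)))) (BT.Fa_mk (BT.Fa_mk (BT.Fa_leaf (P := Itm.ok 206) (iqb tpr804_c)) (BT.Fa_leaf (P := Itm.ok 206) (iqf tpr559_c))) (BT.Fa_mk (BT.Fa_leaf (P := Itm.ok 206) (iqf tpr613_c)) (BT.Fa_leaf (P := Itm.ok 206) (iqf tpr419_c))))) (BT.Fa_mk (BT.Fa_mk (BT.Fa_mk (BT.Fa_leaf (P := Itm.ok 206) (iqf tpr666_c)) (BT.Fa_leaf (P := Itm.ok 206) (iqf tpr1200_c))) (BT.Fa_mk (BT.Fa_leaf (P := Itm.ok 206) (iqf tpr639_c)) (BT.Fa_leaf (P := Itm.ok 206) (iqb tpr612_c)))) (BT.Fa_mk (BT.Fa_mk (BT.Fa_leaf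 (P := Itm.ok 206) (iqb tpr505_c)) (BT.Fa_leaf (P := Itm.ok 206) (iqb tpr730_c))) (BT.Fa_mk (BT.Fa_leaf (P := Itm.ok 206) (iqf tpr515_c)) (BT.Fa_leaf (P := Itm.ok 206) (iqf tpr641_c)))))) (BT.Fa_mk (BT.Fa_mk (BT.Fa_mk (BT.Fa_mk (BT.Fa_leaf (P := Itm.ok 206) (iqf tpr680_c)) (BT.Fa_leaf (P := Itm.ok 206) (iqf tpr968_c))) (BT.Fa_mk (BT.Fa_leaf (P := Itm.ok 206) (iqf tpr625_c)) (BT.Fa_leaf (P := Itm.ok 206) (iqf tpr705_c)))) (BT.Fa_mk (BT.Fa_mk (BT.Fa_leaf (P := Itm.ok 206) (iqb tpr700_c)) (BT.Fa_leaf (P := Itm.ok 206) (iqb tpr1193_c))) (BT.Fa_mk (BT.Fa_leaf (P := Itm.ok 206) (iqb tpr647_c)) (BT.Fa_leaf (P := Itm.ok 206) (iqb tpr577_c))))) (BT.Fa_mk (BT.Fa_mk (BT.Fa_mk (BT.Fa_leaf (P := Itm.ok 206) (iqf tpr620_c)) (BT.Fa_leaf (P := Itm.ok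 206) (iqf tpr869_c))) (BT.Fa_mk (BT.Fa_leaf (P := Itm.ok 206) (iqf tpr2745_c)) (BT.Fa_leaf (P := Itm.ok 206) (iqf tpr1227_c)))) (BT.Fa_mk (BT.Fa_mk (BT.Fa_leaf (P := Itm.ok 206) (iqb tpr1058_c)) (BT.Fa_leaf (P := Itm.ok 206) (iqf tpr637_c))) (BT.Fa_mk (BT.Fa_leaf (P := Itm.ok 206) (iqb tpr630_c)) (BT.Fa_leaf (P := Itm.ok 206) (iqb tpr701_c)))))))) (BT.Fa_mk (BT.Fa_mk (BT.Fa_mk (BT.Fa_mk (BT.Fa_mk (BT.Fa_mk (BT.Fa_mk (BT.Fa_leaf (P := Itm.ok 206) (iqb tpr406_c)) (BT.Fa_leaf (P := Itm.ok 206) (iqf tpr344_c))) (BT.Fa_leaf (P := Itm.ok 206) (iqf tpr643_c))) (BT.Fa_mk (BT.Fa_leaf (P := Itm.ok 206) (iqb tpr1182_c)) (BT.Fa_leaf (P := Itm.ok 206) (iqf tpr695_c)))) (BT.Fa_mk (BT.Fa_mk (BT.Fa_leaf (P := Itm.ok 206) (iqf tpr720_c)) (BT.Fa_leaf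 (P := Itm.ok 206) (iqf tpr1190_c))) (BT.Fa_mk (BT.Fa_leaf (P := Itm.ok 206) (iqf tpr508_c)) (BT.Fa_leaf (P := Itm.ok 206) (iqb tpr511_c))))) (BT.Fa_mk (BT.Fa_mk (BT.Fa_mk (BT.Fa_leaf (P := Itm.ok 206) (iqb tpr607_c)) (BT.Fa_leaf (P := Itm.ok 206) (iqb tpr239_c))) (BT.Fa_mk (BT.Fa_leaf (P := Itm.ok 206) (iqf tpr82_c)) (BT.Fa_leaf (P := Itm.ok 206) (iqb tpr507_c)))) (BT.Fa_mk (BT.Fa_mk (BT.Fa_leaf (P := Itm.ok 206) (iqf tpr635_c)) (BT.Fa_leaf (P := Itm.ok 206) (iqb tpr22_c))) (BT.Fa_mk (BT.Fa_leaf (P := Itm.ok 206) (iqf tpr555_c)) (BT.Fa_leaf (P := Itm.ok 206) (iqb tpr568_c)))))) (BT.Fa_mk (BT.Fa_mk (BT.Fa_mk (BT.Fa_mk (BT.Fa_leaf (P := Itm.ok 206) (iqb tpr617_c)) (BT.Fa_leaf (P := Itm.ok 206) (iqf tpr596_c))) (BT.Fa_mk (BT.Fa_leaf (P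 := Itm.ok 206) (iqb tpr510_c)) (BT.Fa_leaf (P := Itm.ok 206) (iqf tpr521_c)))) (BT.Fa_mk (BT.Fa_mk (BT.Fa_leaf (P := Itm.ok 206) (iqf tpr617_c)) (BT.Fa_leaf (P := Itm.ok 206) (iqf tpr612_c))) (BT.Fa_mk (BT.Fa_leaf (P := Itm.ok 206) (iqb tpr555_c)) (BT.Fa_leaf (P := Itm.ok 206) (iqf tpr210_c))))) (BT.Fa_mk (BT.Fa_mk (BT.Fa_mk (BT.Fa_leaf (P := Itm.ok 206) (iqb tpr203_c)) (BT.Fa_leaf (P := Itm.ok 206) (iqb tpr629_c))) (BT.Fa_mk (BT.Fa_leaf (P := Itm.ok 206) (iqf tpr511_c)) (BT.Fa_leaf (P := Itm.ok 206) (iqb tpr513_c)))) (BT.Fa_mk (BT.Fa_mk (BT.Fa_leaf (P := Itm.ok 206) (iqf tpr17_c)) (BT.Fa_leaf (P := Itm.ok 206) (iqf tpr103_c))) (BT.Fa_mk (BT.Fa_leaf (P := Itm.ok 206) (iqb tpr1099_c)) (BT.Fa_leaf (P := Itm.ok 206) (iqb tpr504_c)))))))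 (BT.Fa_mk (BT.Fa_mk (BT.Fa_mk (BT.Fa_mk (BT.Fa_mk (BT.Fa_leaf (P := Itm.ok 206) (iqb tpr1021_c)) (BT.Fa_leaf (P := Itm.ok 206) (iqb tpr1002_c))) (BT.Fa_mk (BT.Fa_leaf (P := Itm.ok 206) (iqf tpr1201_c)) (BT.Fa_leaf (P := Itm.ok 206) (iqf tpr574_c)))) (BT.Fa_mk (BT.Fa_mk (BT.Fa_leaf (P := Itm.ok 206) (iqb tpr705_c)) (BT.Fa_leaf (P := Itm.ok 206) (iqb tpr606_c))) (BT.Fa_mk (BT.Fa_leaf (P := Itm.ok 206) (iqb tpr557_c)) (BT.Fa_leaf (P := Itm.ok 206) (iqf tpr9_c))))) (BT.Fa_mk (BT.Fa_mk (BT.Fa_mk (BT.Fa_leaf (P := Itm.ok 206) (iqb tpr566_c)) (BT.Fa_leaf (P := Itm.ok 206) (iqf tpr573_c))) (BT.Fa_mk (BT.Fa_leaf (P := Itm.ok 206) (iqb tpr429_c)) (BT.Fa_leaf (P := Itm.ok 206) (iqb tpr527_c)))) (BT.Fa_mk (BT.Fa_mk (BT.Fa_leaf (P := Itm.ok 206)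 (iqb tpr82_c)) (BT.Fa_leaf (P := Itm.ok 206) (iqf tpr198_c))) (BT.Fa_mk (BT.Fa_leaf (P := Itm.ok 206) (iqb tpr610_c)) (BT.Fa_leaf (P := Itm.ok 206) (iqf tpr324_c)))))) (BT.Fa_mk (BT.Fa_mk (BT.Fa_mk (BT.Fa_mk (BT.Fa_leaf (P := Itm.ok 206) (iqf tpr26_c)) (BT.Fa_leaf (P := Itm.ok 206) (iqb tpr546_c))) (BT.Fa_mk (BT.Fa_leaf (P := Itm.ok 206) (iqb tpr247_c)) (BT.Fa_leaf (P := Itm.ok 206) (iqf tpr664_c)))) (BT.Fa_mk (BT.Fa_mk (BT.Fa_leaf (P := Itm.ok 206) (iqb tpr628_c)) (BT.Fa_leaf (P := Itm.ok 206) (iqf tpr22_c))) (BT.Fa_mk (BT.Fa_leaf (P := Itm.ok 206) (iqb tpr518_c)) (BT.Fa_leaf (P := Itm.ok 206) (iqb tpr8_c))))) (BT.Fa_mk (BT.Fa_mk (BT.Fa_mk (BT.Fa_leaf (P := Itm.ok 206) (iqb tpr78_c)) (BT.Fa_leaf (P := Itm.ok 206) (iqb tpr81_c))) (BT.Fa_mk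 (BT.Fa_leaf (P := Itm.ok 206) (iqb tpr123_c)) (BT.Fa_leaf (P := Itm.ok 206) (iqf tpr16_c)))) (BT.Fa_mk (BT.Fa_mk (BT.Fa_leaf (P := Itm.ok 206) (iqb tpr122_c)) (BT.Fa_leaf (P := Itm.ok 206) (iqb tpr87_c))) (BT.Fa_mk (BT.Fa_leaf (P := Itm.ok 206) (iqb tpr644_c)) (BT.Fa_leaf (P := Itm.ok 206) (iqb tpr295_c))))))))) (BT.Fa_mk (BT.Fa_mk (BT.Fa_mk (BT.Fa_mk (BT.Fa_mk (BT.Fa_mk (BT.Fa_mk (BT.Fa_mk (BT.Fa_leaf (P := Itm.ok 206) (iqf tpr15_c)) (BT.Fa_leaf (P := Itm.ok 206) (iqb tpr54_c))) (BT.Fa_leaf (P := Itm.ok 206) (iqb tpr626_c))) (BT.Fa_mk (BT.Fa_leaf (P := Itm.ok 206) (iqf tpr18_c)) (BT.Fa_leaf (P := Itm.ok 206) (iqb tpr51_c)))) (BT.Fa_mk (BT.Fa_mk (BT.Fa_leaf (P := Itm.ok 206) (iqb tpr223_c)) (BT.Fa_leaf (P := Itm.ok 206) (iqf tpr314_c)))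 (BT.Fa_mk (BT.Fa_leaf (P := Itm.ok 206) (iqf tpr640_c)) (BT.Fa_leaf (P := Itm.ok 206) (iqb tpr506_c))))) (BT.Fa_mk (BT.Fa_mk (BT.Fa_mk (BT.Fa_leaf (P := Itm.ok 206) (iqf tpr1002_c)) (BT.Fa_leaf (P := Itm.ok 206) (iqb tpr724_c))) (BT.Fa_mk (BT.Fa_leaf (P := Itm.ok 206) (iqb tpr1201_c)) (BT.Fa_leaf (P := Itm.ok 206) (iqf tpr583_c)))) (BT.Fa_mk (BT.Fa_mk (BT.Fa_leaf (P := Itm.ok 206) (iqb tpr23_c)) (BT.Fa_leaf (P := Itm.ok 206) (iqb tpr627_c))) (BT.Fa_mk (BT.Fa_leaf (P := Itm.ok 206) (iqf tpr516_c)) (BT.Fa_leaf (P := Itm.ok 206) (iqf tpr75_c)))))) (BT.Fa_mk (BT.Fa_mk (BT.Fa_mk (BT.Fa_mk (BT.Fa_leaf (P := Itm.ok 206) (iqf tpr74_c)) (BT.Fa_leaf (P := Itm.ok 206) (iqf tpr621_c))) (BT.Fa_mk (BT.Fa_leaf (P := Itm.ok 206) (iqf tpr339_c)) (BT.Fa_leaf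 (P := Itm.ok 206) (iqf tpr393_c)))) (BT.Fa_mk (BT.Fa_mk (BT.Fa_leaf (P := Itm.ok 206) (iqf tpr549_c)) (BT.Fa_leaf (P := Itm.ok 206) (iqf tpr89_c))) (BT.Fa_mk (BT.Fa_leaf (P := Itm.ok 206) (iqf tpr626_c)) (BT.Fa_leaf (P := Itm.ok 206) (iqf tpr642_c))))) (BT.Fa_mk (BT.Fa_mk (BT.Fa_mk (BT.Fa_leaf (P := Itm.ok 206) (iqf tpr151_c)) (BT.Fa_leaf (P := Itm.ok 206) (iqb tpr743_c))) (BT.Fa_mk (BT.Fa_leaf (P := Itm.ok 206) (iqb tpr2973_c)) (BT.Fa_leaf (P := Itm.ok 206) (iqf tpr706_c)))) (BT.Fa_mk (BT.Fa_mk (BT.Fa_leaf (P := Itm.ok 206) (iqb tpr978_c)) (BT.Fa_leaf (P := Itm.ok 206) (iqb tpr676_c))) (BT.Fa_mk (BT.Fa_leaf (P := Itm.ok 206) (iqb tpr1183_c)) (BT.Fa_leaf (P := Itm.ok 206) (iqf tpr592_c))))))) (BT.Fa_mk (BT.Fa_mk (BT.Fa_mk (BT.Fa_mk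 (BT.Fa_mk (BT.Fa_leaf (P := Itm.ok 206) (iqb tpr593_c)) (BT.Fa_leaf (P := Itm.ok 206) (iqf tpr616_c))) (BT.Fa_mk (BT.Fa_leaf (P := Itm.ok 206) (iqb tpr516_c)) (BT.Fa_leaf (P := Itm.ok 206) (iqb tpr17_c)))) (BT.Fa_mk (BT.Fa_mk (BT.Fa_leaf (P := Itm.ok 206) (iqf tpr505_c)) (BT.Fa_leaf (P := Itm.ok 206) (iqf tpr610_c))) (BT.Fa_mk (BT.Fa_leaf (P := Itm.ok 206) (iqf tpr569_c)) (BT.Fa_leaf (P := Itm.ok 206) (iqb tpr9_c))))) (BT.Fa_mk (BT.Fa_mk (BT.Fa_mk (BT.Fa_leaf (P := Itm.ok 206) (iqb tpr640_c)) (BT.Fa_leaf (P := Itm.ok 206) (iqb tpr151_c))) (BT.Fa_mk (BT.Fa_leaf (P := Itm.ok 206) (iqf tpr591_c)) (BT.Fa_leaf (P := Itm.ok 206) (iqb tpr620_c)))) (BT.Fa_mk (BT.Fa_mk (BT.Fa_leaf (P := Itm.ok 206) (iqf tpr627_c)) (BT.Fa_leaf (P := Itm.ok 206)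 (iqb tpr706_c))) (BT.Fa_mk (BT.Fa_leaf (P := Itm.ok 206) (iqb tpr649_c)) (BT.Fa_leaf (P := Itm.ok 206) (iqb tpr631_c)))))) (BT.Fa_mk (BT.Fa_mk (BT.Fa_mk (BT.Fa_mk (BT.Fa_leaf (P := Itm.ok 206) (iqb tpr1195_c)) (BT.Fa_leaf (P := Itm.ok 206) (iqf tpr712_c))) (BT.Fa_mk (BT.Fa_leaf (P := Itm.ok 206) (iqb tpr625_c)) (BT.Fa_leaf (P := Itm.ok 206) (iqb tpr106_c)))) (BT.Fa_mk (BT.Fa_mk (BT.Fa_leaf (P := Itm.ok 206) (iqf tpr670_c)) (BT.Fa_leaf (P := Itm.ok 206) (iqb tpr582_c))) (BT.Fa_mk (BT.Fa_leaf (P := Itm.ok 206) (iqf tpr520_c)) (BT.Fa_leaf (P := Itm.ok 206) (iqf tpr466_c))))) (BT.Fa_mk (BT.Fa_mk (BT.Fa_mk (BT.Fa_leaf (P := Itm.ok 206) (iqf tpr23_c)) (BT.Fa_leaf (P := Itm.ok 206) (iqf tpr1806_c))) (BT.Fa_mk (BT.Fa_leaf (P := Itm.ok 206)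 (iqb tpr517_c)) (BT.Fa_leaf (P := Itm.ok 206) (iqb tpr592_c)))) (BT.Fa_mk (BT.Fa_mk (BT.Fa_leaf (P := Itm.ok 206) (iqf tpr676_c)) (BT.Fa_leaf (P := Itm.ok 206) (iqf tpr593_c))) (BT.Fa_mk (BT.Fa_leaf (P := Itm.ok 206) (iqb tpr545_c)) (BT.Fa_leaf (P := Itm.ok 206) (iqf tpr503_c)))))))) (BT.Fa_mk (BT.Fa_mk (BT.Fa_mk (BT.Fa_mk (BT.Fa_mk (BT.Fa_mk (BT.Fa_mk (BT.Fa_leaf (P := Itm.ok 206) (iqf tpr576_c)) (BT.Fa_leaf (P := Itm.ok 206) (iqb tpr579_c))) (BT.Fa_leaf (P := Itm.ok 206) (iqb tpr502_c))) (BT.Fa_mk (BT.Fa_leaf (P := Itm.ok 206) (iqb tpr1196_c)) (BT.Fa_leaf (P := Itm.ok 206) (iqb tpr684_c)))) (BT.Fa_mk (BT.Fa_mk (BT.Fa_leaf (P := Itm.ok 206) (iqb tpr509_c)) (BT.Fa_leaf (P := Itm.ok 206) (iqf tpr91_c))) (BT.Fa_mk (BT.Fa_leaf (P := Itm.ok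 206) (iqb tpr683_c)) (BT.Fa_leaf (P := Itm.ok 206) (iqf tpr523_c))))) (BT.Fa_mk (BT.Fa_mk (BT.Fa_mk (BT.Fa_leaf (P := Itm.ok 206) (iqb tpr519_c)) (BT.Fa_leaf (P := Itm.ok 206) (iqb tpr547_c))) (BT.Fa_mk (BT.Fa_leaf (P := Itm.ok 206) (iqf tpr550_c)) (BT.Fa_leaf (P := Itm.ok 206) (iqf tpr548_c)))) (BT.Fa_mk (BT.Fa_mk (BT.Fa_leaf (P := Itm.ok 206) (iqb tpr680_c)) (BT.Fa_leaf (P := Itm.ok 206) (iqb tpr588_c))) (BT.Fa_mk (BT.Fa_leaf (P := Itm.ok 206) (iqb tpr581_c)) (BT.Fa_leaf (P := Itm.ok 206) (iqb tpr623_c)))))) (BT.Fa_mk (BT.Fa_mk (BT.Fa_mk (BT.Fa_mk (BT.Fa_leaf (P := Itm.ok 206) (iqf tpr519_c)) (BT.Fa_leaf (P := Itm.ok 206) (iqf tpr543_c))) (BT.Fa_mk (BT.Fa_leaf (P := Itm.ok 206) (iqb tpr575_c)) (BT.Fa_leaf (P := Itm.ok 206) (iqf tpr746_c))))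 (BT.Fa_mk (BT.Fa_mk (BT.Fa_leaf (P := Itm.ok 206) (iqb tpr725_c)) (BT.Fa_leaf (P := Itm.ok 206) (iqb tpr596_c))) (BT.Fa_mk (BT.Fa_leaf (P := Itm.ok 206) (iqf tpr1199_c)) (BT.Fa_leaf (P := Itm.ok 206) (iqf tpr691_c))))) (BT.Fa_mk (BT.Fa_mk (BT.Fa_mk (BT.Fa_leaf (P := Itm.ok 206) (iqb tpr1192_c)) (BT.Fa_leaf (P := Itm.ok 206) (iqf tpr622_c))) (BT.Fa_mk (BT.Fa_leaf (P := Itm.ok 206) (iqb tpr602_c)) (BT.Fa_leaf (P := Itm.ok 206) (iqf tpr514_c)))) (BT.Fa_mk (BT.Fa_mk (BT.Fa_leaf (P := Itm.ok 206) (iqf tpr1215_c)) (BT.Fa_leaf (P := Itm.ok 206) (iqb tpr1198_c))) (BT.Fa_mk (BT.Fa_leaf (P := Itm.ok 206) (iqb tpr1181_c)) (BT.Fa_leaf (P := Itm.ok 206) (iqb tpr967_c))))))) (BT.Fa_mk (BT.Fa_mk (BT.Fa_mk (BT.Fa_mk (BT.Fa_mk (BT.Fa_leaf (P := Itm.ok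 206) (iqf tpr538_c)) (BT.Fa_leaf (P := Itm.ok 206) (iqf tpr662_c))) (BT.Fa_mk (BT.Fa_leaf (P := Itm.ok 206) (iqf tpr672_c)) (BT.Fa_leaf (P := Itm.ok 206) (iqb tpr1205_c)))) (BT.Fa_mk (BT.Fa_mk (BT.Fa_leaf (P := Itm.ok 206) (iqf tpr989_c)) (BT.Fa_leaf (P := Itm.ok 206) (iqb tpr661_c))) (BT.Fa_mk (BT.Fa_leaf (P := Itm.ok 206) (iqb tpr552_c)) (BT.Fa_leaf (P := Itm.ok 206) (iqb tpr634_c))))) (BT.Fa_mk (BT.Fa_mk (BT.Fa_mk (BT.Fa_leaf (P := Itm.ok 206) (iqf tpr553_c)) (BT.Fa_leaf (P := Itm.ok 206) (iqb tpr583_c))) (BT.Fa_mk (BT.Fa_leaf (P := Itm.ok 206) (iqf tpr526_c)) (BT.Fa_leaf (P := Itm.ok 206) (iqf tpr565_c)))) (BT.Fa_mk (BT.Fa_mk (BT.Fa_leaf (P := Itm.ok 206) (iqf tpr687_c)) (BT.Fa_leaf (P := Itm.ok 206) (iqf tpr704_c))) (BT.Fa_mk (BT.Fa_leaf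 (P := Itm.ok 206) (iqb tpr1194_c)) (BT.Fa_leaf (P := Itm.ok 206) (iqf tpr688_c)))))) (BT.Fa_mk (BT.Fa_mk (BT.Fa_mk (BT.Fa_mk (BT.Fa_leaf (P := Itm.ok 206) (iqf tpr698_c)) (BT.Fa_leaf (P := Itm.ok 206) (iqb tpr1204_c))) (BT.Fa_mk (BT.Fa_leaf (P := Itm.ok 206) (iqf tpr686_c)) (BT.Fa_leaf (P := Itm.ok 206) (iqb tpr715_c)))) (BT.Fa_mk (BT.Fa_mk (BT.Fa_leaf (P := Itm.ok 206) (iqf tpr636_c)) (BT.Fa_leaf (P := Itm.ok 206) (iqb tpr641_c))) (BT.Fa_mk (BT.Fa_leaf (P := Itm.ok 206) (iqb tpr704_c)) (BT.Fa_leaf (P := Itm.ok 206) (iqf tpr663_c))))) (BT.Fa_mk (BT.Fa_mk (BT.Fa_mk (BT.Fa_leaf (P := Itm.ok 206) (iqf tpr502_c)) (BT.Fa_leaf (P := Itm.ok 206) (iqf tpr536_c))) (BT.Fa_mk (BT.Fa_leaf (P := Itm.ok 206) (iqf tpr702_c)) (BT.Fa_leaf (P := Itm.ok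 206) (iqf tpr1196_c)))) (BT.Fa_mk (BT.Fa_mk (BT.Fa_leaf (P := Itm.ok 206) (iqb tpr894_c)) (BT.Fa_leaf (P := Itm.ok 206) (iqb tpr669_c))) (BT.Fa_mk (BT.Fa_leaf (P := Itm.ok 206) (iqf tpr522_c)) (BT.Fa_leaf (P := Itm.ok 206) (iqb tpr1213_c))))))))))

/-- all words of the class have labels -/
theorem pokNFzE2ByA3H2ByAzAyB2H3A2EzF : POK 206 xNFzE2ByA3H2ByAzAyB2H3A2EzF :=
  y_pok (C0 := ceNFzE2ByA3H2ByAzAyB2H3A2EzF) (C1 := coNFzE2ByA3H2ByAzAyB2H3A2EzF) topNFzE2ByA3H2ByAzAyB2H3A2EzF nbNFzE2ByA3H2ByAzAyB2H3A2EzF (BT.Fa_of_all iiNFzE2ByA3H2ByAzAyB2H3A2EzF_c)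
    (BT.Fa_mk (BT.Fa_mk (cyE_spec zeNFzE2ByA3H2ByAzAyB2H3A2EzF_0) (BT.Fa_mk (cyE_spec zeNFzE2ByA3H2ByAzAyB2H3A2EzF_1) (cyE_spec zeNFzE2ByA3H2ByAzAyB2H3A2EzF_2))) (BT.Fa_mk (BT.Fa_mk (BT.Fa_mk (cyE_spec zeNFzE2ByA3H2ByAzAyB2H3A2EzF_3) (cyE_spec zeNFzE2ByA3H2ByAzAyB2H3A2EzF_4)) (BT.Fa_mk (cyE_spec zeNFzE2ByA3H2ByAzAyB2H3A2EzF_5) (cyE_spec zeNFzE2ByA3H2ByAzAyB2H3A2EzF_6))) (BT.Fa_mk (cyE_spec zeNFzE2ByA3H2ByAzAyB2H3A2EzF_7) (cyE_spec zeNFzE2ByA3H2ByAzAyB2H3A2EzF_8))))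
    (BT.Fa_mk (BT.Fa_mk (cyO_spec zoNFzE2ByA3H2ByAzAyB2H3A2EzF_0) (BT.Fa_mk (cyO_spec zoNFzE2ByA3H2ByAzAyB2H3A2EzF_1) (BT.Fa_mk (cyO_spec zoNFzE2ByA3H2ByAzAyB2H3A2EzF_2) (cyO_spec zoNFzE2ByA3H2ByAzAyB2H3A2EzF_3)))) (BT.Fa_mk (BT.Fa_mk (BT.Fa_mk (cyO_spec zoNFzE2ByA3H2ByAzAyB2H3A2EzF_4) (cyO_spec zoNFzE2ByA3H2ByAzAyB2H3A2EzF_5)) (BT.Fa_mk (cyO_spec zoNFzE2ByA3H2ByAzAyB2H3A2EzF_6) (cyO_spec zoNFzE2ByA3H2ByAzAyB2H3A2EzF_7))) (BT.Fa_mk (BT.Fa_mk (cyO_spec zoNFzE2ByA3H2ByAzAyB2H3A2EzF_8) (cyO_spec zoNFzE2ByA3H2ByAzAyB2H3A2EzF_9)) (cyO_spec zoNFzE2ByA3H2ByAzAyB2H3A2EzF_10))))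
    iiNFzE2ByA3H2ByAzAyB2H3A2EzF_k

theorem iiNFzE2ByA3H2ByAzAyB2H3AyB2EzF_k : iiNFzE2ByA3H2ByAzAyB2H3AyB2EzF.Fa (Itm.ok 206) := (BT.Fa_mk (BT.Fa_mk (BT.Fa_mk (BT.Fa_mk (BT.Fa_mk (BT.Fa_mk (BT.Fa_mk (BT.Fa_mk (BT.Fa_mk (BT.Fa_leaf (P := Itm.ok 206) (iqf tpr9_c)) (BT.Fa_leaf (P := Itm.ok 206) (iqb tpr82_c))) (BT.Fa_leaf (P := Itm.ok 206) (iqf tpr82_c))) (BT.Fa_mk (BT.Fa_mk (BT.Fa_leaf (P := Itm.ok 206) (iqf tpr555_c)) (BT.Fa_leaf (P := Itm.ok 206) (iqf tpr607_c))) (BT.Fa_leaf (P := Itm.ok 206) (iqb tpr8_c)))) (BT.Fa_mk (BT.Fa_mk (BT.Fa_mk (BT.Fa_leaf (P := Itm.ok 206) (iqb tpr527_c)) (BT.Fa_leaf (P := Itm.ok 206) (iqb tpr518_c))) (BT.Fa_leaf (P := Itm.ok 206) (iqb tpr606_c))) (BT.Fa_mk (BT.Fa_leaf (P := Itm.ok 206) (iqb tpr506_c)) (BT.Fa_leaf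 (P := Itm.ok 206) (iqb tpr620_c))))) (BT.Fa_mk (BT.Fa_mk (BT.Fa_mk (BT.Fa_mk (BT.Fa_leaf (P := Itm.ok 206) (iqb tpr700_c)) (BT.Fa_leaf (P := Itm.ok 206) (iqb tpr540_c))) (BT.Fa_leaf (P := Itm.ok 206) (iqb tpr1016_c))) (BT.Fa_mk (BT.Fa_leaf (P := Itm.ok 206) (iqb tpr635_c)) (BT.Fa_leaf (P := Itm.ok 206) (iqb tpr222_c)))) (BT.Fa_mk (BT.Fa_mk (BT.Fa_mk (BT.Fa_leaf (P := Itm.ok 206) (iqb tpr235_c)) (BT.Fa_leaf (P := Itm.ok 206) (iqb tpr247_c))) (BT.Fa_leaf (P := Itm.ok 206) (iqb tpr1021_c))) (BT.Fa_mk (BT.Fa_leaf (P := Itm.ok 206) (iqb tpr605_c)) (BT.Fa_leaf (P := Itm.ok 206) (iqb tpr251_c)))))) (BT.Fa_mk (BT.Fa_mk (BT.Fa_mk (BT.Fa_mk (BT.Fa_mk (BT.Fa_leaf (P := Itm.ok 206) (iqf tpr518_c)) (BT.Fa_leaf (P := Itm.ok 206) (iqb tpr1129_c)))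 (BT.Fa_leaf (P := Itm.ok 206) (iqf tpr1016_c))) (BT.Fa_mk (BT.Fa_mk (BT.Fa_leaf (P := Itm.ok 206) (iqb tpr1015_c)) (BT.Fa_leaf (P := Itm.ok 206) (iqf tpr501_c))) (BT.Fa_leaf (P := Itm.ok 206) (iqf tpr1806_c)))) (BT.Fa_mk (BT.Fa_mk (BT.Fa_mk (BT.Fa_leaf (P := Itm.ok 206) (iqb tpr505_c)) (BT.Fa_leaf (P := Itm.ok 206) (iqf tpr740_c))) (BT.Fa_leaf (P := Itm.ok 206) (iqf tpr251_c))) (BT.Fa_mk (BT.Fa_leaf (P := Itm.ok 206) (iqb tpr62_c)) (BT.Fa_leaf (P := Itm.ok 206) (iqb tpr684_c))))) (BT.Fa_mk (BT.Fa_mk (BT.Fa_mk (BT.Fa_mk (BT.Fa_leaf (P := Itm.ok 206) (iqb tpr563_c)) (BT.Fa_leaf (P := Itm.ok 206) (iqf tpr516_c))) (BT.Fa_leaf (P := Itm.ok 206) (iqf tpr22_c))) (BT.Fa_mk (BT.Fa_leaf (P := Itm.ok 206) (iqb tpr555_c)) (BT.Fa_leaf (P := Itm.ok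 206) (iqb tpr608_c)))) (BT.Fa_mk (BT.Fa_mk (BT.Fa_mk (BT.Fa_leaf (P := Itm.ok 206) (iqb tpr656_c)) (BT.Fa_leaf (P := Itm.ok 206) (iqb tpr612_c))) (BT.Fa_leaf (P := Itm.ok 206) (iqf tpr90_c))) (BT.Fa_mk (BT.Fa_leaf (P := Itm.ok 206) (iqb tpr547_c)) (BT.Fa_leaf (P := Itm.ok 206) (iqf tpr573_c))))))) (BT.Fa_mk (BT.Fa_mk (BT.Fa_mk (BT.Fa_mk (BT.Fa_mk (BT.Fa_mk (BT.Fa_leaf (P := Itm.ok 206) (iqf tpr499_c)) (BT.Fa_leaf (P := Itm.ok 206) (iqb tpr168_c))) (BT.Fa_leaf (P := Itm.ok 206) (iqf tpr506_c))) (BT.Fa_mk (BT.Fa_mk (BT.Fa_leaf (P := Itm.ok 206) (iqf tpr247_c)) (BT.Fa_leaf (P := Itm.ok 206) (iqf tpr554_c))) (BT.Fa_leaf (P := Itm.ok 206) (iqf tpr548_c)))) (BT.Fa_mk (BT.Fa_mk (BT.Fa_mk (BT.Fa_leaf (P := Itm.ok 206) (iqb tpr17_c)) (BT.Fa_leaf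 (P := Itm.ok 206) (iqb tpr607_c))) (BT.Fa_leaf (P := Itm.ok 206) (iqb tpr22_c))) (BT.Fa_mk (BT.Fa_leaf (P := Itm.ok 206) (iqf tpr611_c)) (BT.Fa_leaf (P := Itm.ok 206) (iqf tpr91_c))))) (BT.Fa_mk (BT.Fa_mk (BT.Fa_mk (BT.Fa_mk (BT.Fa_leaf (P := Itm.ok 206) (iqf tpr1021_c)) (BT.Fa_leaf (P := Itm.ok 206) (iqf tpr17_c))) (BT.Fa_leaf (P := Itm.ok 206) (iqb tpr701_c))) (BT.Fa_mk (BT.Fa_leaf (P := Itm.ok 206) (iqb tpr568_c)) (BT.Fa_leaf (P := Itm.ok 206) (iqb tpr508_c)))) (BT.Fa_mk (BT.Fa_mk (BT.Fa_mk (BT.Fa_leaf (P := Itm.ok 206) (iqf tpr606_c)) (BT.Fa_leaf (P := Itm.ok 206) (iqb tpr210_c))) (BT.Fa_leaf (P := Itm.ok 206) (iqf tpr236_c))) (BT.Fa_mk (BT.Fa_leaf (P := Itm.ok 206) (iqb tpr596_c)) (BT.Fa_leaf (P := Itm.ok 206) (iqb tpr509_c))))))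 (BT.Fa_mk (BT.Fa_mk (BT.Fa_mk (BT.Fa_mk (BT.Fa_mk (BT.Fa_leaf (P := Itm.ok 206) (iqb tpr546_c)) (BT.Fa_leaf (P := Itm.ok 206) (iqb tpr624_c))) (BT.Fa_leaf (P := Itm.ok 206) (iqb tpr511_c))) (BT.Fa_mk (BT.Fa_mk (BT.Fa_leaf (P := Itm.ok 206) (iqb tpr519_c)) (BT.Fa_leaf (P := Itm.ok 206) (iqb tpr572_c))) (BT.Fa_leaf (P := Itm.ok 206) (iqf tpr596_c)))) (BT.Fa_mk (BT.Fa_mk (BT.Fa_mk (BT.Fa_leaf (P := Itm.ok 206) (iqf tpr556_c)) (BT.Fa_leaf (P := Itm.ok 206) (iqf tpr625_c))) (BT.Fa_leaf (P := Itm.ok 206) (iqb tpr616_c))) (BT.Fa_mk (BT.Fa_leaf (P := Itm.ok 206) (iqf tpr568_c)) (BT.Fa_leaf (P := Itm.ok 206) (iqf tpr210_c))))) (BT.Fa_mk (BT.Fa_mk (BT.Fa_mk (BT.Fa_mk (BT.Fa_leaf (P := Itm.ok 206) (iqf tpr1013_c)) (BT.Fa_leaf (P := Itm.ok 206)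 (iqf tpr502_c))) (BT.Fa_leaf (P := Itm.ok 206) (iqf tpr527_c))) (BT.Fa_mk (BT.Fa_leaf (P := Itm.ok 206) (iqf tpr641_c)) (BT.Fa_leaf (P := Itm.ok 206) (iqb tpr499_c)))) (BT.Fa_mk (BT.Fa_mk (BT.Fa_mk (BT.Fa_leaf (P := Itm.ok 206) (iqb tpr623_c)) (BT.Fa_leaf (P := Itm.ok 206) (iqb tpr625_c))) (BT.Fa_leaf (P := Itm.ok 206) (iqb tpr90_c))) (BT.Fa_mk (BT.Fa_leaf (P := Itm.ok 206) (iqb tpr516_c)) (BT.Fa_leaf (P := Itm.ok 206) (iqf tpr505_c)))))))) (BT.Fa_mk (BT.Fa_mk (BT.Fa_mk (BT.Fa_mk (BT.Fa_mk (BT.Fa_mk (BT.Fa_mk (BT.Fa_leaf (P := Itm.ok 206) (iqf tpr608_c)) (BT.Fa_leaf (P := Itm.ok 206) (iqf tpr589_c))) (BT.Fa_leaf (P := Itm.ok 206) (iqb tpr562_c))) (BT.Fa_mk (BT.Fa_mk (BT.Fa_leaf (P := Itm.ok 206) (iqb tpr18_c)) (BT.Fa_leaf (P := Itm.ok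 206) (iqb tpr9_c))) (BT.Fa_leaf (P := Itm.ok 206) (iqf tpr223_c)))) (BT.Fa_mk (BT.Fa_mk (BT.Fa_mk (BT.Fa_leaf (P := Itm.ok 206) (iqb tpr640_c)) (BT.Fa_leaf (P := Itm.ok 206) (iqf tpr54_c))) (BT.Fa_leaf (P := Itm.ok 206) (iqf tpr569_c))) (BT.Fa_mk (BT.Fa_leaf (P := Itm.ok 206) (iqb tpr642_c)) (BT.Fa_leaf (P := Itm.ok 206) (iqb tpr618_c))))) (BT.Fa_mk (BT.Fa_mk (BT.Fa_mk (BT.Fa_mk (BT.Fa_leaf (P := Itm.ok 206) (iqf tpr701_c)) (BT.Fa_leaf (P := Itm.ok 206) (iqf tpr582_c))) (BT.Fa_leaf (P := Itm.ok 206) (iqb tpr517_c))) (BT.Fa_mk (BT.Fa_leaf (P := Itm.ok 206) (iqf tpr617_c)) (BT.Fa_leaf (P := Itm.ok 206) (iqb tpr614_c)))) (BT.Fa_mk (BT.Fa_mk (BT.Fa_mk (BT.Fa_leaf (P := Itm.ok 206) (iqf tpr620_c)) (BT.Fa_leaf (P := Itm.ok 206) (iqb tpr680_c)))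 (BT.Fa_leaf (P := Itm.ok 206) (iqf tpr618_c))) (BT.Fa_mk (BT.Fa_leaf (P := Itm.ok 206) (iqf tpr624_c)) (BT.Fa_leaf (P := Itm.ok 206) (iqb tpr617_c)))))) (BT.Fa_mk (BT.Fa_mk (BT.Fa_mk (BT.Fa_mk (BT.Fa_mk (BT.Fa_leaf (P := Itm.ok 206) (iqb tpr1018_c)) (BT.Fa_leaf (P := Itm.ok 206) (iqb tpr548_c))) (BT.Fa_leaf (P := Itm.ok 206) (iqf tpr644_c))) (BT.Fa_mk (BT.Fa_mk (BT.Fa_leaf (P := Itm.ok 206) (iqf tpr730_c)) (BT.Fa_leaf (P := Itm.ok 206) (iqf tpr613_c))) (BT.Fa_leaf (P := Itm.ok 206) (iqb tpr553_c)))) (BT.Fa_mk (BT.Fa_mk (BT.Fa_mk (BT.Fa_leaf (P := Itm.ok 206) (iqf tpr614_c)) (BT.Fa_leaf (P := Itm.ok 206) (iqb tpr501_c))) (BT.Fa_leaf (P := Itm.ok 206) (iqb tpr239_c))) (BT.Fa_mk (BT.Fa_leaf (P := Itm.ok 206) (iqf tpr610_c)) (BT.Fa_leaf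 (P := Itm.ok 206) (iqb tpr631_c))))) (BT.Fa_mk (BT.Fa_mk (BT.Fa_mk (BT.Fa_mk (BT.Fa_leaf (P := Itm.ok 206) (iqb tpr641_c)) (BT.Fa_leaf (P := Itm.ok 206) (iqf tpr609_c))) (BT.Fa_leaf (P := Itm.ok 206) (iqf tpr612_c))) (BT.Fa_mk (BT.Fa_leaf (P := Itm.ok 206) (iqf tpr235_c)) (BT.Fa_leaf (P := Itm.ok 206) (iqb tpr675_c)))) (BT.Fa_mk (BT.Fa_mk (BT.Fa_mk (BT.Fa_leaf (P := Itm.ok 206) (iqf tpr700_c)) (BT.Fa_leaf (P := Itm.ok 206) (iqb tpr545_c))) (BT.Fa_leaf (P := Itm.ok 206) (iqf tpr968_c))) (BT.Fa_mk (BT.Fa_leaf (P := Itm.ok 206) (iqb tpr573_c)) (BT.Fa_leaf (P := Itm.ok 206) (iqf tpr553_c))))))) (BT.Fa_mk (BT.Fa_mk (BT.Fa_mk (BT.Fa_mk (BT.Fa_mk (BT.Fa_mk (BT.Fa_leaf (P := Itm.ok 206) (iqf tpr684_c)) (BT.Fa_leaf (P := Itm.ok 206) (iqb tpr703_c)))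 (BT.Fa_leaf (P := Itm.ok 206) (iqb tpr682_c))) (BT.Fa_mk (BT.Fa_mk (BT.Fa_leaf (P := Itm.ok 206) (iqf tpr541_c)) (BT.Fa_leaf (P := Itm.ok 206) (iqf tpr572_c))) (BT.Fa_leaf (P := Itm.ok 206) (iqb tpr1099_c)))) (BT.Fa_mk (BT.Fa_mk (BT.Fa_mk (BT.Fa_leaf (P := Itm.ok 206) (iqf tpr558_c)) (BT.Fa_leaf (P := Itm.ok 206) (iqf tpr1019_c))) (BT.Fa_leaf (P := Itm.ok 206) (iqb tpr203_c))) (BT.Fa_mk (BT.Fa_leaf (P := Itm.ok 206) (iqb tpr294_c)) (BT.Fa_leaf (P := Itm.ok 206) (iqb tpr706_c))))) (BT.Fa_mk (BT.Fa_mk (BT.Fa_mk (BT.Fa_mk (BT.Fa_leaf (P := Itm.ok 206) (iqf tpr1457_c)) (BT.Fa_leaf (P := Itm.ok 206) (iqf tpr623_c))) (BT.Fa_leaf (P := Itm.ok 206) (iqb tpr683_c))) (BT.Fa_mk (BT.Fa_leaf (P := Itm.ok 206) (iqf tpr675_c)) (BT.Fa_leaf (P := Itm.ok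 206) (iqb tpr678_c)))) (BT.Fa_mk (BT.Fa_mk (BT.Fa_mk (BT.Fa_leaf (P := Itm.ok 206) (iqf tpr1243_c)) (BT.Fa_leaf (P := Itm.ok 206) (iqf tpr547_c))) (BT.Fa_leaf (P := Itm.ok 206) (iqf tpr680_c))) (BT.Fa_mk (BT.Fa_leaf (P := Itm.ok 206) (iqb tpr1013_c)) (BT.Fa_leaf (P := Itm.ok 206) (iqf tpr1015_c)))))) (BT.Fa_mk (BT.Fa_mk (BT.Fa_mk (BT.Fa_mk (BT.Fa_mk (BT.Fa_leaf (P := Itm.ok 206) (iqb tpr554_c)) (BT.Fa_leaf (P := Itm.ok 206) (iqb tpr730_c))) (BT.Fa_leaf (P := Itm.ok 206) (iqf tpr974_c))) (BT.Fa_mk (BT.Fa_mk (BT.Fa_leaf (P := Itm.ok 206) (iqb tpr615_c)) (BT.Fa_leaf (P := Itm.ok 206) (iqf tpr562_c))) (BT.Fa_leaf (P := Itm.ok 206) (iqf tpr508_c)))) (BT.Fa_mk (BT.Fa_mk (BT.Fa_mk (BT.Fa_leaf (P := Itm.ok 206) (iqf tpr509_c)) (BT.Fa_leaf (P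 := Itm.ok 206) (iqf tpr559_c))) (BT.Fa_leaf (P := Itm.ok 206) (iqb tpr959_c))) (BT.Fa_mk (BT.Fa_leaf (P := Itm.ok 206) (iqf tpr222_c)) (BT.Fa_leaf (P := Itm.ok 206) (iqb tpr611_c))))) (BT.Fa_mk (BT.Fa_mk (BT.Fa_mk (BT.Fa_mk (BT.Fa_leaf (P := Itm.ok 206) (iqf tpr739_c)) (BT.Fa_leaf (P := Itm.ok 206) (iqb tpr2974_c))) (BT.Fa_leaf (P := Itm.ok 206) (iqb tpr704_c))) (BT.Fa_mk (BT.Fa_leaf (P := Itm.ok 206) (iqf tpr631_c)) (BT.Fa_leaf (P := Itm.ok 206) (iqb tpr610_c)))) (BT.Fa_mk (BT.Fa_mk (BT.Fa_mk (BT.Fa_leaf (P := Itm.ok 206) (iqb tpr609_c)) (BT.Fa_leaf (P := Itm.ok 206) (iqb tpr550_c))) (BT.Fa_leaf (P := Itm.ok 206) (iqf tpr627_c))) (BT.Fa_mk (BT.Fa_leaf (P := Itm.ok 206) (iqf tpr1075_c)) (BT.Fa_leaf (P := Itm.ok 206) (iqb tpr592_c)))))))))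 (BT.Fa_mk (BT.Fa_mk (BT.Fa_mk (BT.Fa_mk (BT.Fa_mk (BT.Fa_mk (BT.Fa_mk (BT.Fa_mk (BT.Fa_leaf (P := Itm.ok 206) (iqf tpr676_c)) (BT.Fa_leaf (P := Itm.ok 206) (iqf tpr593_c))) (BT.Fa_leaf (P := Itm.ok 206) (iqf tpr511_c))) (BT.Fa_mk (BT.Fa_mk (BT.Fa_leaf (P := Itm.ok 206) (iqf tpr519_c)) (BT.Fa_leaf (P := Itm.ok 206) (iqb tpr577_c))) (BT.Fa_leaf (P := Itm.ok 206) (iqb tpr245_c)))) (BT.Fa_mk (BT.Fa_mk (BT.Fa_mk (BT.Fa_leaf (P := Itm.ok 206) (iqb tpr2975_c)) (BT.Fa_leaf (P := Itm.ok 206) (iqf tpr615_c))) (BT.Fa_leaf (P := Itm.ok 206) (iqb tpr658_c))) (BT.Fa_mk (BT.Fa_leaf (P := Itm.ok 206) (iqb tpr91_c)) (BT.Fa_leaf (P := Itm.ok 206) (iqb tpr576_c))))) (BT.Fa_mk (BT.Fa_mk (BT.Fa_mk (BT.Fa_mk (BT.Fa_leaf (P := Itm.ok 206) (iqb tpr705_c))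 (BT.Fa_leaf (P := Itm.ok 206) (iqf tpr693_c))) (BT.Fa_leaf (P := Itm.ok 206) (iqf tpr514_c))) (BT.Fa_mk (BT.Fa_leaf (P := Itm.ok 206) (iqf tpr23_c)) (BT.Fa_leaf (P := Itm.ok 206) (iqf tpr557_c)))) (BT.Fa_mk (BT.Fa_mk (BT.Fa_mk (BT.Fa_leaf (P := Itm.ok 206) (iqf tpr2974_c)) (BT.Fa_leaf (P := Itm.ok 206) (iqb tpr619_c))) (BT.Fa_leaf (P := Itm.ok 206) (iqb tpr502_c))) (BT.Fa_mk (BT.Fa_leaf (P := Itm.ok 206) (iqf tpr517_c)) (BT.Fa_leaf (P := Itm.ok 206) (iqf tpr203_c)))))) (BT.Fa_mk (BT.Fa_mk (BT.Fa_mk (BT.Fa_mk (BT.Fa_mk (BT.Fa_leaf (P := Itm.ok 206) (iqb tpr1052_c)) (BT.Fa_leaf (P := Itm.ok 206) (iqf tpr545_c))) (BT.Fa_leaf (P := Itm.ok 206) (iqf tpr546_c))) (BT.Fa_mk (BT.Fa_mk (BT.Fa_leaf (P := Itm.ok 206) (iqf tpr1221_c)) (BT.Fa_leaf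 (P := Itm.ok 206) (iqb tpr734_c))) (BT.Fa_leaf (P := Itm.ok 206) (iqf tpr1202_c)))) (BT.Fa_mk (BT.Fa_mk (BT.Fa_mk (BT.Fa_leaf (P := Itm.ok 206) (iqb tpr293_c)) (BT.Fa_leaf (P := Itm.ok 206) (iqf tpr188_c))) (BT.Fa_leaf (P := Itm.ok 206) (iqb tpr740_c))) (BT.Fa_mk (BT.Fa_leaf (P := Itm.ok 206) (iqf tpr656_c)) (BT.Fa_leaf (P := Itm.ok 206) (iqf tpr168_c))))) (BT.Fa_mk (BT.Fa_mk (BT.Fa_mk (BT.Fa_mk (BT.Fa_leaf (P := Itm.ok 206) (iqf tpr1064_c)) (BT.Fa_leaf (P := Itm.ok 206) (iqb tpr1064_c))) (BT.Fa_leaf (P := Itm.ok 206) (iqf tpr577_c))) (BT.Fa_mk (BT.Fa_leaf (P := Itm.ok 206) (iqf tpr1065_c)) (BT.Fa_leaf (P := Itm.ok 206) (iqf tpr1052_c)))) (BT.Fa_mk (BT.Fa_mk (BT.Fa_mk (BT.Fa_leaf (P := Itm.ok 206) (iqf tpr705_c)) (BT.Fa_leaf (P := Itm.ok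 206) (iqf tpr704_c))) (BT.Fa_leaf (P := Itm.ok 206) (iqf tpr635_c))) (BT.Fa_mk (BT.Fa_leaf (P := Itm.ok 206) (iqf tpr1054_c)) (BT.Fa_leaf (P := Itm.ok 206) (iqb tpr1054_c))))))) (BT.Fa_mk (BT.Fa_mk (BT.Fa_mk (BT.Fa_mk (BT.Fa_mk (BT.Fa_mk (BT.Fa_leaf (P := Itm.ok 206) (iqf tpr637_c)) (BT.Fa_leaf (P := Itm.ok 206) (iqf tpr1216_c))) (BT.Fa_leaf (P := Itm.ok 206) (iqb tpr1154_c))) (BT.Fa_mk (BT.Fa_mk (BT.Fa_leaf (P := Itm.ok 206) (iqf tpr1103_c)) (BT.Fa_leaf (P := Itm.ok 206) (iqf tpr1219_c))) (BT.Fa_leaf (P := Itm.ok 206) (iqf tpr1233_c)))) (BT.Fa_mk (BT.Fa_mk (BT.Fa_mk (BT.Fa_leaf (P := Itm.ok 206) (iqf tpr1022_c)) (BT.Fa_leaf (P := Itm.ok 206) (iqf tpr605_c))) (BT.Fa_leaf (P := Itm.ok 206) (iqb tpr626_c))) (BT.Fa_mk (BT.Fa_leaf (P :=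 Itm.ok 206) (iqb tpr51_c)) (BT.Fa_leaf (P := Itm.ok 206) (iqf tpr8_c))))) (BT.Fa_mk (BT.Fa_mk (BT.Fa_mk (BT.Fa_mk (BT.Fa_leaf (P := Itm.ok 206) (iqf tpr658_c)) (BT.Fa_leaf (P := Itm.ok 206) (iqb tpr429_c))) (BT.Fa_leaf (P := Itm.ok 206) (iqf tpr5_c))) (BT.Fa_mk (BT.Fa_leaf (P := Itm.ok 206) (iqf tpr683_c)) (BT.Fa_leaf (P := Itm.ok 206) (iqb tpr295_c)))) (BT.Fa_mk (BT.Fa_mk (BT.Fa_mk (BT.Fa_leaf (P := Itm.ok 206) (iqb tpr236_c)) (BT.Fa_leaf (P := Itm.ok 206) (iqf tpr636_c))) (BT.Fa_leaf (P := Itm.ok 206) (iqb tpr589_c))) (BT.Fa_mk (BT.Fa_leaf (P := Itm.ok 206) (iqb tpr23_c)) (BT.Fa_leaf (P := Itm.ok 206) (iqb tpr627_c)))))) (BT.Fa_mk (BT.Fa_mk (BT.Fa_mk (BT.Fa_mk (BT.Fa_mk (BT.Fa_leaf (P := Itm.ok 206) (iqb tpr968_c)) (BT.Fa_leaf (P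 := Itm.ok 206) (iqf tpr579_c))) (BT.Fa_leaf (P := Itm.ok 206) (iqf tpr642_c))) (BT.Fa_mk (BT.Fa_mk (BT.Fa_leaf (P := Itm.ok 206) (iqf tpr89_c)) (BT.Fa_leaf (P := Itm.ok 206) (iqf tpr563_c))) (BT.Fa_leaf (P := Itm.ok 206) (iqb tpr54_c)))) (BT.Fa_mk (BT.Fa_mk (BT.Fa_mk (BT.Fa_leaf (P := Itm.ok 206) (iqb tpr569_c)) (BT.Fa_leaf (P := Itm.ok 206) (iqf tpr721_c))) (BT.Fa_leaf (P := Itm.ok 206) (iqf tpr18_c))) (BT.Fa_mk (BT.Fa_leaf (P := Itm.ok 206) (iqf tpr585_c)) (BT.Fa_leaf (P := Itm.ok 206) (iqf tpr960_c))))) (BT.Fa_mk (BT.Fa_mk (BT.Fa_mk (BT.Fa_mk (BT.Fa_leaf (P := Itm.ok 206) (iqf tpr706_c)) (BT.Fa_leaf (P := Itm.ok 206) (iqf tpr1002_c))) (BT.Fa_leaf (P := Itm.ok 206) (iqb tpr1002_c))) (BT.Fa_mk (BT.Fa_leaf (P := Itm.ok 206) (iqf tpr734_c))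 (BT.Fa_leaf (P := Itm.ok 206) (iqb tpr1063_c)))) (BT.Fa_mk (BT.Fa_mk (BT.Fa_mk (BT.Fa_leaf (P := Itm.ok 206) (iqf tpr314_c)) (BT.Fa_leaf (P := Itm.ok 206) (iqf tpr640_c))) (BT.Fa_leaf (P := Itm.ok 206) (iqf tpr1200_c))) (BT.Fa_mk (BT.Fa_leaf (P := Itm.ok 206) (iqf tpr967_c)) (BT.Fa_leaf (P := Itm.ok 206) (iqf tpr639_c)))))))) (BT.Fa_mk (BT.Fa_mk (BT.Fa_mk (BT.Fa_mk (BT.Fa_mk (BT.Fa_mk (BT.Fa_mk (BT.Fa_leaf (P := Itm.ok 206) (iqf tpr536_c)) (BT.Fa_leaf (P := Itm.ok 206) (iqb tpr636_c))) (BT.Fa_leaf (P := Itm.ok 206) (iqf tpr453_c))) (BT.Fa_mk (BT.Fa_mk (BT.Fa_leaf (P := Itm.ok 206) (iqf tpr626_c)) (BT.Fa_leaf (P := Itm.ok 206) (iqf tpr745_c))) (BT.Fa_leaf (P := Itm.ok 206) (iqb tpr521_c)))) (BT.Fa_mk (BT.Fa_mk (BT.Fa_mk (BT.Fa_leaf (P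 := Itm.ok 206) (iqb tpr1216_c)) (BT.Fa_leaf (P := Itm.ok 206) (iqb tpr721_c))) (BT.Fa_leaf (P := Itm.ok 206) (iqb tpr585_c))) (BT.Fa_mk (BT.Fa_leaf (P := Itm.ok 206) (iqf tpr619_c)) (BT.Fa_leaf (P := Itm.ok 206) (iqf tpr1058_c))))) (BT.Fa_mk (BT.Fa_mk (BT.Fa_mk (BT.Fa_mk (BT.Fa_leaf (P := Itm.ok 206) (iqb tpr639_c)) (BT.Fa_leaf (P := Itm.ok 206) (iqb tpr1221_c))) (BT.Fa_leaf (P := Itm.ok 206) (iqb tpr1229_c))) (BT.Fa_mk (BT.Fa_leaf (P := Itm.ok 206) (iqf tpr1068_c)) (BT.Fa_leaf (P := Itm.ok 206) (iqb tpr1069_c)))) (BT.Fa_mk (BT.Fa_mk (BT.Fa_mk (BT.Fa_leaf (P := Itm.ok 206) (iqb tpr1070_c)) (BT.Fa_leaf (P := Itm.ok 206) (iqb tpr1032_c))) (BT.Fa_leaf (P := Itm.ok 206) (iqf tpr1032_c))) (BT.Fa_mk (BT.Fa_leaf (P := Itm.ok 206) (iqb tpr1034_c))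 (BT.Fa_leaf (P := Itm.ok 206) (iqb tpr1024_c)))))) (BT.Fa_mk (BT.Fa_mk (BT.Fa_mk (BT.Fa_mk (BT.Fa_mk (BT.Fa_leaf (P := Itm.ok 206) (iqf tpr1147_c)) (BT.Fa_leaf (P := Itm.ok 206) (iqf tpr1072_c))) (BT.Fa_leaf (P := Itm.ok 206) (iqb tpr1200_c))) (BT.Fa_mk (BT.Fa_mk (BT.Fa_leaf (P := Itm.ok 206) (iqb tpr974_c)) (BT.Fa_leaf (P := Itm.ok 206) (iqb tpr1218_c))) (BT.Fa_leaf (P := Itm.ok 206) (iqf tpr1077_c)))) (BT.Fa_mk (BT.Fa_mk (BT.Fa_mk (BT.Fa_leaf (P := Itm.ok 206) (iqf tpr1148_c)) (BT.Fa_leaf (P := Itm.ok 206) (iqf tpr1071_c))) (BT.Fa_leaf (P := Itm.ok 206) (iqf tpr1024_c))) (BT.Fa_mk (BT.Fa_leaf (P := Itm.ok 206) (iqf tpr151_c)) (BT.Fa_leaf (P := Itm.ok 206) (iqf tpr703_c))))) (BT.Fa_mk (BT.Fa_mk (BT.Fa_mk (BT.Fa_mk (BT.Fa_leaf (P :=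 Itm.ok 206) (iqb tpr58_c)) (BT.Fa_leaf (P := Itm.ok 206) (iqf tpr1195_c))) (BT.Fa_leaf (P := Itm.ok 206) (iqf tpr592_c))) (BT.Fa_mk (BT.Fa_leaf (P := Itm.ok 206) (iqb tpr676_c)) (BT.Fa_leaf (P := Itm.ok 206) (iqb tpr593_c)))) (BT.Fa_mk (BT.Fa_mk (BT.Fa_mk (BT.Fa_leaf (P := Itm.ok 206) (iqf tpr1050_c)) (BT.Fa_leaf (P := Itm.ok 206) (iqb tpr579_c))) (BT.Fa_leaf (P := Itm.ok 206) (iqb tpr1050_c))) (BT.Fa_mk (BT.Fa_leaf (P := Itm.ok 206) (iqb tpr514_c)) (BT.Fa_leaf (P := Itm.ok 206) (iqb tpr1059_c))))))) (BT.Fa_mk (BT.Fa_mk (BT.Fa_mk (BT.Fa_mk (BT.Fa_mk (BT.Fa_mk (BT.Fa_leaf (P := Itm.ok 206) (iqf tpr1047_c)) (BT.Fa_leaf (P := Itm.ok 206) (iqf tpr1061_c))) (BT.Fa_leaf (P := Itm.ok 206) (iqf tpr1059_c))) (BT.Fa_mk (BT.Fa_mk (BT.Fa_leaf (P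 := Itm.ok 206) (iqb tpr1056_c)) (BT.Fa_leaf (P := Itm.ok 206) (iqb tpr1060_c))) (BT.Fa_leaf (P := Itm.ok 206) (iqb tpr1047_c)))) (BT.Fa_mk (BT.Fa_mk (BT.Fa_mk (BT.Fa_leaf (P := Itm.ok 206) (iqf tpr550_c)) (BT.Fa_leaf (P := Itm.ok 206) (iqb tpr1065_c))) (BT.Fa_leaf (P := Itm.ok 206) (iqb tpr1061_c))) (BT.Fa_mk (BT.Fa_leaf (P := Itm.ok 206) (iqb tpr557_c)) (BT.Fa_leaf (P := Itm.ok 206) (iqb tpr151_c))))) (BT.Fa_mk (BT.Fa_mk (BT.Fa_mk (BT.Fa_mk (BT.Fa_leaf (P := Itm.ok 206) (iqb tpr1196_c)) (BT.Fa_leaf (P := Itm.ok 206) (iqf tpr58_c))) (BT.Fa_leaf (P := Itm.ok 206) (iqf tpr1053_c))) (BT.Fa_mk (BT.Fa_leaf (P := Itm.ok 206) (iqf tpr503_c)) (BT.Fa_leaf (P := Itm.ok 206) (iqb tpr1219_c)))) (BT.Fa_mk (BT.Fa_mk (BT.Fa_mk (BT.Fa_leaf (P := Itm.ok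 206) (iqb tpr188_c)) (BT.Fa_leaf (P := Itm.ok 206) (iqf tpr1126_c))) (BT.Fa_leaf (P := Itm.ok 206) (iqf tpr1218_c))) (BT.Fa_mk (BT.Fa_leaf (P := Itm.ok 206) (iqb tpr1233_c)) (BT.Fa_leaf (P := Itm.ok 206) (iqb tpr1234_c)))))) (BT.Fa_mk (BT.Fa_mk (BT.Fa_mk (BT.Fa_mk (BT.Fa_mk (BT.Fa_leaf (P := Itm.ok 206) (iqb tpr48_c)) (BT.Fa_leaf (P := Itm.ok 206) (iqb tpr453_c))) (BT.Fa_leaf (P := Itm.ok 206) (iqb tpr1068_c))) (BT.Fa_mk (BT.Fa_leaf (P := Itm.ok 206) (iqf tpr1070_c)) (BT.Fa_leaf (P := Itm.ok 206) (iqf tpr1069_c)))) (BT.Fa_mk (BT.Fa_mk (BT.Fa_mk (BT.Fa_leaf (P := Itm.ok 206) (iqb tpr687_c)) (BT.Fa_leaf (P := Itm.ok 206) (iqb tpr1090_c))) (BT.Fa_leaf (P := Itm.ok 206) (iqb tpr1029_c))) (BT.Fa_mk (BT.Fa_leaf (P := Itm.ok 206) (iqf tpr687_c))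 (BT.Fa_leaf (P := Itm.ok 206) (iqf tpr1119_c))))) (BT.Fa_mk (BT.Fa_mk (BT.Fa_mk (BT.Fa_mk (BT.Fa_leaf (P := Itm.ok 206) (iqb tpr1988_c)) (BT.Fa_leaf (P := Itm.ok 206) (iqb tpr44_c))) (BT.Fa_leaf (P := Itm.ok 206) (iqf tpr544_c))) (BT.Fa_mk (BT.Fa_leaf (P := Itm.ok 206) (iqb tpr613_c)) (BT.Fa_leaf (P := Itm.ok 206) (iqf tpr727_c)))) (BT.Fa_mk (BT.Fa_mk (BT.Fa_mk (BT.Fa_leaf (P := Itm.ok 206) (iqb tpr1126_c)) (BT.Fa_leaf (P := Itm.ok 206) (iqb tpr1023_c))) (BT.Fa_leaf (P := Itm.ok 206) (iqb tpr962_c))) (BT.Fa_mk (BT.Fa_leaf (P := Itm.ok 206) (iqf tpr1056_c)) (BT.Fa_leaf (P := Itm.ok 206) (iqb tpr628_c))))))))))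

/-- all words of the class have labels -/
theorem pokNFzE2ByA3H2ByAzAyB2H3AyB2EzF : POK 206 xNFzE2ByA3H2ByAzAyB2H3AyB2EzF :=
  y_pok (C0 := ceNFzE2ByA3H2ByAzAyB2H3AyB2EzF) (C1 := coNFzE2ByA3H2ByAzAyB2H3AyB2EzF) topNFzE2ByA3H2ByAzAyB2H3AyB2EzF nbNFzE2ByA3H2ByAzAyB2H3AyB2EzF (BT.Fa_of_all iiNFzE2ByA3H2ByAzAyB2H3AyB2EzF_c)
    (BT.Fa_mk (BT.Fa_mk (BT.Fa_mk (cyE_spec zeNFzE2ByA3H2ByAzAyB2H3AyB2EzF_0) (cyE_spec zeNFzE2ByA3H2ByAzAyB2H3AyB2EzF_1)) (BT.Fa_mk (cyE_spec zeNFzE2ByA3H2ByAzAyB2H3AyB2EzF_2) (BT.Fa_mk (cyE_spec zeNFzE2ByA3H2ByAzAyB2H3AyB2EzF_3) (cyE_spec zeNFzE2ByA3H2ByAzAyB2H3AyB2EzF_4)))) (BT.Fa_mk (BT.Fa_mk (BT.Fa_mk (BT.Fa_mk (cyE_spec zeNFzE2ByA3H2ByAzAyB2H3AyB2EzF_5) (cyE_spec zeNFzE2ByA3H2ByAzAyB2H3AyB2EzF_6)) (BT.Fa_mk (cyE_spec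 zeNFzE2ByA3H2ByAzAyB2H3AyB2EzF_7) (cyE_spec zeNFzE2ByA3H2ByAzAyB2H3AyB2EzF_8))) (BT.Fa_mk (BT.Fa_mk (cyE_spec zeNFzE2ByA3H2ByAzAyB2H3AyB2EzF_9) (cyE_spec zeNFzE2ByA3H2ByAzAyB2H3AyB2EzF_10)) (cyE_spec zeNFzE2ByA3H2ByAzAyB2H3AyB2EzF_11))) (BT.Fa_mk (BT.Fa_mk (cyE_spec zeNFzE2ByA3H2ByAzAyB2H3AyB2EzF_12) (BT.Fa_mk (cyE_spec zeNFzE2ByA3H2ByAzAyB2H3AyB2EzF_13) (cyE_spec zeNFzE2ByA3H2ByAzAyB2H3AyB2EzF_14))) (BT.Fa_mk (BT.Fa_mk (cyE_spec zeNFzE2ByA3H2ByAzAyB2H3AyB2EzF_15) (cyE_spec zeNFzE2ByA3H2ByAzAyB2H3AyB2EzF_16)) (cyE_spec zeNFzE2ByA3H2ByAzAyB2H3AyB2EzF_17)))))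
    (BT.Fa_mk (BT.Fa_mk (BT.Fa_mk (cyO_spec zoNFzE2ByA3H2ByAzAyB2H3AyB2EzF_0) (cyO_spec zoNFzE2ByA3H2ByAzAyB2H3AyB2EzF_1)) (BT.Fa_mk (cyO_spec zoNFzE2ByA3H2ByAzAyB2H3AyB2EzF_2) (BT.Fa_mk (cyO_spec zoNFzE2ByA3H2ByAzAyB2H3AyB2EzF_3) (cyO_spec zoNFzE2ByA3H2ByAzAyB2H3AyB2EzF_4)))) (BT.Fa_mk (BT.Fa_mk (BT.Fa_mk (BT.Fa_mk (BT.Fa_mk (cyO_spec zoNFzE2ByA3H2ByAzAyB2H3AyB2EzF_5) (cyO_spec zoNFzE2ByA3H2ByAzAyB2H3AyB2EzF_6)) (cyO_spec zoNFzE2ByA3H2ByAzAyB2H3AyB2EzF_7)) (BT.Fa_mk (cyO_spec zoNFzE2ByA3H2ByAzAyB2H3AyB2EzF_8) (cyO_spec zoNFzE2ByA3H2ByAzAyB2H3AyB2EzF_9))) (BT.Fa_mk (BT.Fa_mk (cyO_spec zoNFzE2ByA3H2ByAzAyB2H3AyB2EzF_10) (cyO_spec zoNFzE2ByA3H2ByAzAyB2H3AyB2EzF_11)) (cyO_spec zoNFzE2ByA3H2ByAzAyB2H3AyB2EzF_12))) (BT.Fa_mk (BT.Fa_mk (cyO_spec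 zoNFzE2ByA3H2ByAzAyB2H3AyB2EzF_13) (cyO_spec zoNFzE2ByA3H2ByAzAyB2H3AyB2EzF_14)) (BT.Fa_mk (cyO_spec zoNFzE2ByA3H2ByAzAyB2H3AyB2EzF_15) (cyO_spec zoNFzE2ByA3H2ByAzAyB2H3AyB2EzF_16)))))
    iiNFzE2ByA3H2ByAzAyB2H3AyB2EzF_k

theorem iiNFzE2ByA3H2ByAzIzAyB2H3A2EzF_k : iiNFzE2ByA3H2ByAzIzAyB2H3A2EzF.Fa (Itm.ok 206) := (BT.Fa_mk (BT.Fa_mk (BT.Fa_mk (BT.Fa_mk (BT.Fa_mk (BT.Fa_mk (BT.Fa_mk (BT.Fa_mk (BT.Fa_mk (BT.Fa_leaf (P := Itm.ok 206) (iqf tpr5_c)) (BT.Fa_leaf (P := Itm.ok 206) (iqb tpr82_c))) (BT.Fa_leaf (P := Itm.ok 206) (iqf tpr740_c))) (BT.Fa_mk (BT.Fa_leaf (P := Itm.ok 206) (iqf tpr500_c)) (BT.Fa_leaf (P := Itm.ok 206) (iqf tpr499_c)))) (BT.Fa_mk (BT.Fa_mk (BT.Fa_mk (BT.Fa_leaf (P := Itm.ok 206) (iqb tpr8_c)) (BT.Fa_leaf (P := Itm.ok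 206) (iqb tpr508_c))) (BT.Fa_leaf (P := Itm.ok 206) (iqb tpr518_c))) (BT.Fa_mk (BT.Fa_leaf (P := Itm.ok 206) (iqf tpr555_c)) (BT.Fa_leaf (P := Itm.ok 206) (iqb tpr606_c))))) (BT.Fa_mk (BT.Fa_mk (BT.Fa_mk (BT.Fa_mk (BT.Fa_leaf (P := Itm.ok 206) (iqb tpr236_c)) (BT.Fa_leaf (P := Itm.ok 206) (iqf tpr239_c))) (BT.Fa_leaf (P := Itm.ok 206) (iqb tpr589_c))) (BT.Fa_mk (BT.Fa_leaf (P := Itm.ok 206) (iqb tpr247_c)) (BT.Fa_leaf (P := Itm.ok 206) (iqb tpr78_c)))) (BT.Fa_mk (BT.Fa_mk (BT.Fa_mk (BT.Fa_leaf (P := Itm.ok 206) (iqf tpr618_c)) (BT.Fa_leaf (P := Itm.ok 206) (iqb tpr295_c))) (BT.Fa_leaf (P := Itm.ok 206) (iqf tpr324_c))) (BT.Fa_mk (BT.Fa_leaf (P := Itm.ok 206) (iqf tpr1077_c)) (BT.Fa_leaf (P := Itm.ok 206) (iqf tpr16_c)))))) (BT.Fa_mk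 (BT.Fa_mk (BT.Fa_mk (BT.Fa_mk (BT.Fa_mk (BT.Fa_leaf (P := Itm.ok 206) (iqb tpr81_c)) (BT.Fa_leaf (P := Itm.ok 206) (iqb tpr87_c))) (BT.Fa_leaf (P := Itm.ok 206) (iqb tpr507_c))) (BT.Fa_mk (BT.Fa_leaf (P := Itm.ok 206) (iqf tpr198_c)) (BT.Fa_leaf (P := Itm.ok 206) (iqf tpr320_c)))) (BT.Fa_mk (BT.Fa_mk (BT.Fa_mk (BT.Fa_leaf (P := Itm.ok 206) (iqb tpr504_c)) (BT.Fa_leaf (P := Itm.ok 206) (iqb tpr627_c))) (BT.Fa_leaf (P := Itm.ok 206) (iqb tpr581_c))) (BT.Fa_mk (BT.Fa_leaf (P := Itm.ok 206) (iqf tpr323_c)) (BT.Fa_leaf (P := Itm.ok 206) (iqf tpr17_c))))) (BT.Fa_mk (BT.Fa_mk (BT.Fa_mk (BT.Fa_mk (BT.Fa_leaf (P := Itm.ok 206) (iqb tpr203_c)) (BT.Fa_leaf (P := Itm.ok 206) (iqf tpr22_c))) (BT.Fa_leaf (P := Itm.ok 206) (iqb tpr537_c))) (BT.Fa_mk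 (BT.Fa_leaf (P := Itm.ok 206) (iqf tpr609_c)) (BT.Fa_leaf (P := Itm.ok 206) (iqb tpr549_c)))) (BT.Fa_mk (BT.Fa_mk (BT.Fa_mk (BT.Fa_leaf (P := Itm.ok 206) (iqb tpr517_c)) (BT.Fa_leaf (P := Itm.ok 206) (iqb tpr545_c))) (BT.Fa_leaf (P := Itm.ok 206) (iqf tpr613_c))) (BT.Fa_mk (BT.Fa_leaf (P := Itm.ok 206) (iqf tpr625_c)) (BT.Fa_leaf (P := Itm.ok 206) (iqf tpr619_c))))))) (BT.Fa_mk (BT.Fa_mk (BT.Fa_mk (BT.Fa_mk (BT.Fa_mk (BT.Fa_mk (BT.Fa_leaf (P := Itm.ok 206) (iqb tpr151_c)) (BT.Fa_leaf (P := Itm.ok 206) (iqf tpr569_c))) (BT.Fa_leaf (P := Itm.ok 206) (iqb tpr636_c))) (BT.Fa_mk (BT.Fa_leaf (P := Itm.ok 206) (iqb tpr959_c)) (BT.Fa_leaf (P := Itm.ok 206) (iqb tpr680_c)))) (BT.Fa_mk (BT.Fa_mk (BT.Fa_mk (BT.Fa_leaf (P := Itm.ok 206) (iqf tpr1689_c))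 (BT.Fa_leaf (P := Itm.ok 206) (iqb tpr511_c))) (BT.Fa_leaf (P := Itm.ok 206) (iqb tpr17_c))) (BT.Fa_mk (BT.Fa_leaf (P := Itm.ok 206) (iqb tpr516_c)) (BT.Fa_leaf (P := Itm.ok 206) (iqb tpr555_c))))) (BT.Fa_mk (BT.Fa_mk (BT.Fa_mk (BT.Fa_mk (BT.Fa_leaf (P := Itm.ok 206) (iqf tpr610_c)) (BT.Fa_leaf (P := Itm.ok 206) (iqb tpr167_c))) (BT.Fa_leaf (P := Itm.ok 206) (iqb tpr566_c))) (BT.Fa_mk (BT.Fa_leaf (P := Itm.ok 206) (iqf tpr77_c)) (BT.Fa_leaf (P := Itm.ok 206) (iqb tpr519_c)))) (BT.Fa_mk (BT.Fa_mk (BT.Fa_mk (BT.Fa_leaf (P := Itm.ok 206) (iqf tpr44_c)) (BT.Fa_leaf (P := Itm.ok 206) (iqb tpr617_c))) (BT.Fa_leaf (P := Itm.ok 206) (iqf tpr23_c))) (BT.Fa_mk (BT.Fa_leaf (P := Itm.ok 206) (iqf tpr520_c)) (BT.Fa_leaf (P := Itm.ok 206) (iqf tpr2976_c))))))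 (BT.Fa_mk (BT.Fa_mk (BT.Fa_mk (BT.Fa_mk (BT.Fa_mk (BT.Fa_leaf (P := Itm.ok 206) (iqb tpr546_c)) (BT.Fa_leaf (P := Itm.ok 206) (iqb tpr1180_c))) (BT.Fa_leaf (P := Itm.ok 206) (iqb tpr596_c))) (BT.Fa_mk (BT.Fa_leaf (P := Itm.ok 206) (iqf tpr982_c)) (BT.Fa_leaf (P := Itm.ok 206) (iqf tpr1735_c)))) (BT.Fa_mk (BT.Fa_mk (BT.Fa_mk (BT.Fa_leaf (P := Itm.ok 206) (iqf tpr1719_c)) (BT.Fa_leaf (P := Itm.ok 206) (iqf tpr516_c))) (BT.Fa_leaf (P := Itm.ok 206) (iqb tpr612_c))) (BT.Fa_mk (BT.Fa_leaf (P := Itm.ok 206) (iqf tpr549_c)) (BT.Fa_leaf (P := Itm.ok 206) (iqf tpr537_c))))) (BT.Fa_mk (BT.Fa_mk (BT.Fa_mk (BT.Fa_mk (BT.Fa_leaf (P := Itm.ok 206) (iqf tpr702_c)) (BT.Fa_leaf (P := Itm.ok 206) (iqf tpr621_c))) (BT.Fa_leaf (P := Itm.ok 206) (iqf tpr633_c)))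 (BT.Fa_mk (BT.Fa_leaf (P := Itm.ok 206) (iqb tpr122_c)) (BT.Fa_leaf (P := Itm.ok 206) (iqf tpr315_c)))) (BT.Fa_mk (BT.Fa_mk (BT.Fa_leaf (P := Itm.ok 206) (iqf tpr695_c)) (BT.Fa_leaf (P := Itm.ok 206) (iqf tpr344_c))) (BT.Fa_mk (BT.Fa_leaf (P := Itm.ok 206) (iqb tpr630_c)) (BT.Fa_leaf (P := Itm.ok 206) (iqf tpr632_c)))))))) (BT.Fa_mk (BT.Fa_mk (BT.Fa_mk (BT.Fa_mk (BT.Fa_mk (BT.Fa_mk (BT.Fa_mk (BT.Fa_leaf (P := Itm.ok 206) (iqf tpr82_c)) (BT.Fa_leaf (P := Itm.ok 206) (iqf tpr74_c))) (BT.Fa_leaf (P := Itm.ok 206) (iqf tpr57_c))) (BT.Fa_mk (BT.Fa_leaf (P := Itm.ok 206) (iqf tpr339_c)) (BT.Fa_leaf (P := Itm.ok 206) (iqb tpr123_c)))) (BT.Fa_mk (BT.Fa_mk (BT.Fa_mk (BT.Fa_leaf (P := Itm.ok 206) (iqf tpr26_c)) (BT.Fa_leaf (P := Itm.ok 206) (iqf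 tpr75_c))) (BT.Fa_leaf (P := Itm.ok 206) (iqf tpr334_c))) (BT.Fa_mk (BT.Fa_leaf (P := Itm.ok 206) (iqf tpr720_c)) (BT.Fa_leaf (P := Itm.ok 206) (iqf tpr393_c))))) (BT.Fa_mk (BT.Fa_mk (BT.Fa_mk (BT.Fa_mk (BT.Fa_leaf (P := Itm.ok 206) (iqf tpr583_c)) (BT.Fa_leaf (P := Itm.ok 206) (iqf tpr527_c))) (BT.Fa_leaf (P := Itm.ok 206) (iqf tpr548_c))) (BT.Fa_mk (BT.Fa_leaf (P := Itm.ok 206) (iqb tpr22_c)) (BT.Fa_leaf (P := Itm.ok 206) (iqf tpr103_c)))) (BT.Fa_mk (BT.Fa_mk (BT.Fa_mk (BT.Fa_leaf (P := Itm.ok 206) (iqb tpr502_c)) (BT.Fa_leaf (P := Itm.ok 206) (iqf tpr514_c))) (BT.Fa_leaf (P := Itm.ok 206) (iqf tpr521_c))) (BT.Fa_mk (BT.Fa_leaf (P := Itm.ok 206) (iqb tpr605_c)) (BT.Fa_leaf (P := Itm.ok 206) (iqf tpr637_c)))))) (BT.Fa_mk (BT.Fa_mk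 (BT.Fa_mk (BT.Fa_mk (BT.Fa_mk (BT.Fa_leaf (P := Itm.ok 206) (iqf tpr2977_c)) (BT.Fa_leaf (P := Itm.ok 206) (iqf tpr734_c))) (BT.Fa_leaf (P := Itm.ok 206) (iqb tpr607_c))) (BT.Fa_mk (BT.Fa_leaf (P := Itm.ok 206) (iqb tpr683_c)) (BT.Fa_leaf (P := Itm.ok 206) (iqf tpr615_c)))) (BT.Fa_mk (BT.Fa_mk (BT.Fa_mk (BT.Fa_leaf (P := Itm.ok 206) (iqf tpr585_c)) (BT.Fa_leaf (P := Itm.ok 206) (iqb tpr509_c))) (BT.Fa_leaf (P := Itm.ok 206) (iqf tpr568_c))) (BT.Fa_mk (BT.Fa_leaf (P := Itm.ok 206) (iqf tpr251_c)) (BT.Fa_leaf (P := Itm.ok 206) (iqf tpr614_c))))) (BT.Fa_mk (BT.Fa_mk (BT.Fa_mk (BT.Fa_mk (BT.Fa_leaf (P := Itm.ok 206) (iqf tpr620_c)) (BT.Fa_leaf (P := Itm.ok 206) (iqb tpr1065_c))) (BT.Fa_leaf (P := Itm.ok 206) (iqf tpr508_c))) (BT.Fa_mk (BT.Fa_leaf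 (P := Itm.ok 206) (iqf tpr544_c)) (BT.Fa_leaf (P := Itm.ok 206) (iqb tpr521_c)))) (BT.Fa_mk (BT.Fa_mk (BT.Fa_leaf (P := Itm.ok 206) (iqf tpr562_c)) (BT.Fa_leaf (P := Itm.ok 206) (iqf tpr605_c))) (BT.Fa_mk (BT.Fa_leaf (P := Itm.ok 206) (iqb tpr506_c)) (BT.Fa_leaf (P := Itm.ok 206) (iqb tpr682_c))))))) (BT.Fa_mk (BT.Fa_mk (BT.Fa_mk (BT.Fa_mk (BT.Fa_mk (BT.Fa_mk (BT.Fa_leaf (P := Itm.ok 206) (iqf tpr608_c)) (BT.Fa_leaf (P := Itm.ok 206) (iqb tpr626_c))) (BT.Fa_leaf (P := Itm.ok 206) (iqf tpr616_c))) (BT.Fa_mk (BT.Fa_leaf (P := Itm.ok 206) (iqb tpr9_c)) (BT.Fa_leaf (P := Itm.ok 206) (iqb tpr1406_c)))) (BT.Fa_mk (BT.Fa_mk (BT.Fa_mk (BT.Fa_leaf (P := Itm.ok 206) (iqb tpr640_c)) (BT.Fa_leaf (P := Itm.ok 206) (iqb tpr705_c))) (BT.Fa_leaf (P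 := Itm.ok 206) (iqf tpr712_c))) (BT.Fa_mk (BT.Fa_leaf (P := Itm.ok 206) (iqb tpr701_c)) (BT.Fa_leaf (P := Itm.ok 206) (iqb tpr584_c))))) (BT.Fa_mk (BT.Fa_mk (BT.Fa_mk (BT.Fa_mk (BT.Fa_leaf (P := Itm.ok 206) (iqf tpr612_c)) (BT.Fa_leaf (P := Itm.ok 206) (iqf tpr687_c))) (BT.Fa_leaf (P := Itm.ok 206) (iqf tpr680_c))) (BT.Fa_mk (BT.Fa_leaf (P := Itm.ok 206) (iqb tpr505_c)) (BT.Fa_leaf (P := Itm.ok 206) (iqf tpr503_c)))) (BT.Fa_mk (BT.Fa_mk (BT.Fa_mk (BT.Fa_leaf (P := Itm.ok 206) (iqf tpr576_c)) (BT.Fa_leaf (P := Itm.ok 206) (iqf tpr523_c))) (BT.Fa_leaf (P := Itm.ok 206) (iqf tpr624_c))) (BT.Fa_mk (BT.Fa_leaf (P := Itm.ok 206) (iqf tpr2089_c)) (BT.Fa_leaf (P := Itm.ok 206) (iqb tpr556_c)))))) (BT.Fa_mk (BT.Fa_mk (BT.Fa_mk (BT.Fa_mk (BT.Fa_mk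 (BT.Fa_leaf (P := Itm.ok 206) (iqf tpr590_c)) (BT.Fa_leaf (P := Itm.ok 206) (iqf tpr543_c))) (BT.Fa_leaf (P := Itm.ok 206) (iqb tpr547_c))) (BT.Fa_mk (BT.Fa_leaf (P := Itm.ok 206) (iqf tpr577_c)) (BT.Fa_leaf (P := Itm.ok 206) (iqb tpr514_c)))) (BT.Fa_mk (BT.Fa_mk (BT.Fa_mk (BT.Fa_leaf (P := Itm.ok 206) (iqf tpr550_c)) (BT.Fa_leaf (P := Itm.ok 206) (iqb tpr552_c))) (BT.Fa_leaf (P := Itm.ok 206) (iqf tpr960_c))) (BT.Fa_mk (BT.Fa_leaf (P := Itm.ok 206) (iqf tpr466_c)) (BT.Fa_leaf (P := Itm.ok 206) (iqf tpr617_c))))) (BT.Fa_mk (BT.Fa_mk (BT.Fa_mk (BT.Fa_mk (BT.Fa_leaf (P := Itm.ok 206) (iqf tpr559_c)) (BT.Fa_leaf (P := Itm.ok 206) (iqf tpr596_c))) (BT.Fa_leaf (P := Itm.ok 206) (iqf tpr1248_c))) (BT.Fa_mk (BT.Fa_leaf (P := Itm.ok 206) (iqf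 tpr509_c)) (BT.Fa_leaf (P := Itm.ok 206) (iqb tpr577_c)))) (BT.Fa_mk (BT.Fa_mk (BT.Fa_leaf (P := Itm.ok 206) (iqf tpr536_c)) (BT.Fa_leaf (P := Itm.ok 206) (iqb tpr106_c))) (BT.Fa_mk (BT.Fa_leaf (P := Itm.ok 206) (iqf tpr681_c)) (BT.Fa_leaf (P := Itm.ok 206) (iqf tpr597_c))))))))) (BT.Fa_mk (BT.Fa_mk (BT.Fa_mk (BT.Fa_mk (BT.Fa_mk (BT.Fa_mk (BT.Fa_mk (BT.Fa_mk (BT.Fa_leaf (P := Itm.ok 206) (iqf tpr591_c)) (BT.Fa_leaf (P := Itm.ok 206) (iqf tpr622_c))) (BT.Fa_leaf (P := Itm.ok 206) (iqb tpr592_c))) (BT.Fa_mk (BT.Fa_leaf (P := Itm.ok 206) (iqf tpr593_c)) (BT.Fa_leaf (P := Itm.ok 206) (iqf tpr676_c)))) (BT.Fa_mk (BT.Fa_mk (BT.Fa_mk (BT.Fa_leaf (P := Itm.ok 206) (iqf tpr515_c)) (BT.Fa_leaf (P := Itm.ok 206) (iqb tpr588_c))) (BT.Fa_leaf (P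 := Itm.ok 206) (iqb tpr1075_c))) (BT.Fa_mk (BT.Fa_leaf (P := Itm.ok 206) (iqf tpr502_c)) (BT.Fa_leaf (P := Itm.ok 206) (iqf tpr210_c))))) (BT.Fa_mk (BT.Fa_mk (BT.Fa_mk (BT.Fa_mk (BT.Fa_leaf (P := Itm.ok 206) (iqb tpr513_c)) (BT.Fa_leaf (P := Itm.ok 206) (iqb tpr575_c))) (BT.Fa_leaf (P := Itm.ok 206) (iqf tpr1050_c))) (BT.Fa_mk (BT.Fa_leaf (P := Itm.ok 206) (iqb tpr624_c)) (BT.Fa_leaf (P := Itm.ok 206) (iqb tpr614_c)))) (BT.Fa_mk (BT.Fa_mk (BT.Fa_mk (BT.Fa_leaf (P := Itm.ok 206) (iqb tpr585_c)) (BT.Fa_leaf (P := Itm.ok 206) (iqb tpr615_c))) (BT.Fa_leaf (P := Itm.ok 206) (iqb tpr667_c))) (BT.Fa_mk (BT.Fa_leaf (P := Itm.ok 206) (iqb tpr727_c)) (BT.Fa_leaf (P := Itm.ok 206) (iqb tpr51_c)))))) (BT.Fa_mk (BT.Fa_mk (BT.Fa_mk (BT.Fa_mk (BT.Fa_mk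 (BT.Fa_leaf (P := Itm.ok 206) (iqf tpr628_c)) (BT.Fa_leaf (P := Itm.ok 206) (iqf tpr168_c))) (BT.Fa_leaf (P := Itm.ok 206) (iqf tpr89_c))) (BT.Fa_mk (BT.Fa_leaf (P := Itm.ok 206) (iqb tpr1198_c)) (BT.Fa_leaf (P := Itm.ok 206) (iqf tpr656_c)))) (BT.Fa_mk (BT.Fa_mk (BT.Fa_mk (BT.Fa_leaf (P := Itm.ok 206) (iqf tpr8_c)) (BT.Fa_leaf (P := Itm.ok 206) (iqf tpr607_c))) (BT.Fa_leaf (P := Itm.ok 206) (iqf tpr4_c))) (BT.Fa_mk (BT.Fa_leaf (P := Itm.ok 206) (iqb tpr1099_c)) (BT.Fa_leaf (P := Itm.ok 206) (iqf tpr635_c))))) (BT.Fa_mk (BT.Fa_mk (BT.Fa_mk (BT.Fa_mk (BT.Fa_leaf (P := Itm.ok 206) (iqb tpr1250_c)) (BT.Fa_leaf (P := Itm.ok 206) (iqf tpr1252_c))) (BT.Fa_leaf (P := Itm.ok 206) (iqb tpr629_c))) (BT.Fa_mk (BT.Fa_leaf (P := Itm.ok 206) (iqf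 tpr518_c)) (BT.Fa_leaf (P := Itm.ok 206) (iqf tpr419_c)))) (BT.Fa_mk (BT.Fa_mk (BT.Fa_leaf (P := Itm.ok 206) (iqb tpr579_c)) (BT.Fa_leaf (P := Itm.ok 206) (iqf tpr721_c))) (BT.Fa_mk (BT.Fa_leaf (P := Itm.ok 206) (iqf tpr642_c)) (BT.Fa_leaf (P := Itm.ok 206) (iqb tpr54_c))))))) (BT.Fa_mk (BT.Fa_mk (BT.Fa_mk (BT.Fa_mk (BT.Fa_mk (BT.Fa_mk (BT.Fa_leaf (P := Itm.ok 206) (iqf tpr665_c)) (BT.Fa_leaf (P := Itm.ok 206) (iqb tpr978_c))) (BT.Fa_leaf (P := Itm.ok 206) (iqb tpr458_c))) (BT.Fa_mk (BT.Fa_leaf (P := Itm.ok 206) (iqb tpr743_c)) (BT.Fa_leaf (P := Itm.ok 206) (iqb tpr461_c)))) (BT.Fa_mk (BT.Fa_mk (BT.Fa_mk (BT.Fa_leaf (P := Itm.ok 206) (iqb tpr730_c)) (BT.Fa_leaf (P := Itm.ok 206) (iqf tpr704_c))) (BT.Fa_leaf (P := Itm.ok 206) (iqf tpr48_c)))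 (BT.Fa_mk (BT.Fa_leaf (P := Itm.ok 206) (iqb tpr293_c)) (BT.Fa_leaf (P := Itm.ok 206) (iqf tpr977_c))))) (BT.Fa_mk (BT.Fa_mk (BT.Fa_mk (BT.Fa_mk (BT.Fa_leaf (P := Itm.ok 206) (iqf tpr631_c)) (BT.Fa_leaf (P := Itm.ok 206) (iqb tpr533_c))) (BT.Fa_leaf (P := Itm.ok 206) (iqb tpr676_c))) (BT.Fa_mk (BT.Fa_leaf (P := Itm.ok 206) (iqb tpr593_c)) (BT.Fa_leaf (P := Itm.ok 206) (iqf tpr968_c)))) (BT.Fa_mk (BT.Fa_mk (BT.Fa_mk (BT.Fa_leaf (P := Itm.ok 206) (iqf tpr1199_c)) (BT.Fa_leaf (P := Itm.ok 206) (iqb tpr563_c))) (BT.Fa_leaf (P := Itm.ok 206) (iqf tpr989_c))) (BT.Fa_mk (BT.Fa_leaf (P := Itm.ok 206) (iqf tpr1227_c)) (BT.Fa_leaf (P := Itm.ok 206) (iqf tpr106_c)))))) (BT.Fa_mk (BT.Fa_mk (BT.Fa_mk (BT.Fa_mk (BT.Fa_mk (BT.Fa_leaf (P := Itm.ok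 206) (iqb tpr1257_c)) (BT.Fa_leaf (P := Itm.ok 206) (iqb tpr1247_c))) (BT.Fa_leaf (P := Itm.ok 206) (iqf tpr553_c))) (BT.Fa_mk (BT.Fa_leaf (P := Itm.ok 206) (iqf tpr683_c)) (BT.Fa_leaf (P := Itm.ok 206) (iqf tpr587_c)))) (BT.Fa_mk (BT.Fa_mk (BT.Fa_mk (BT.Fa_leaf (P := Itm.ok 206) (iqb tpr20_c)) (BT.Fa_leaf (P := Itm.ok 206) (iqf tpr294_c))) (BT.Fa_leaf (P := Itm.ok 206) (iqb tpr634_c))) (BT.Fa_mk (BT.Fa_leaf (P := Itm.ok 206) (iqf tpr1647_c)) (BT.Fa_leaf (P := Itm.ok 206) (iqf tpr1664_c))))) (BT.Fa_mk (BT.Fa_mk (BT.Fa_mk (BT.Fa_mk (BT.Fa_leaf (P := Itm.ok 206) (iqb tpr620_c)) (BT.Fa_leaf (P := Itm.ok 206) (iqb tpr641_c))) (BT.Fa_leaf (P := Itm.ok 206) (iqb tpr239_c))) (BT.Fa_mk (BT.Fa_leaf (P := Itm.ok 206) (iqf tpr1063_c)) (BT.Fa_leaf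 (P := Itm.ok 206) (iqb tpr527_c)))) (BT.Fa_mk (BT.Fa_mk (BT.Fa_leaf (P := Itm.ok 206) (iqf tpr636_c)) (BT.Fa_leaf (P := Itm.ok 206) (iqb tpr557_c))) (BT.Fa_mk (BT.Fa_leaf (P := Itm.ok 206) (iqb tpr723_c)) (BT.Fa_leaf (P := Itm.ok 206) (iqf tpr1256_c)))))))) (BT.Fa_mk (BT.Fa_mk (BT.Fa_mk (BT.Fa_mk (BT.Fa_mk (BT.Fa_mk (BT.Fa_mk (BT.Fa_leaf (P := Itm.ok 206) (iqf tpr698_c)) (BT.Fa_leaf (P := Itm.ok 206) (iqb tpr583_c))) (BT.Fa_leaf (P := Itm.ok 206) (iqf tpr664_c))) (BT.Fa_mk (BT.Fa_leaf (P := Itm.ok 206) (iqf tpr672_c)) (BT.Fa_leaf (P := Itm.ok 206) (iqb tpr1204_c)))) (BT.Fa_mk (BT.Fa_mk (BT.Fa_mk (BT.Fa_leaf (P := Itm.ok 206) (iqb tpr1822_c)) (BT.Fa_leaf (P := Itm.ok 206) (iqb tpr602_c))) (BT.Fa_leaf (P := Itm.ok 206) (iqb tpr294_c)))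 (BT.Fa_mk (BT.Fa_leaf (P := Itm.ok 206) (iqb tpr1194_c)) (BT.Fa_leaf (P := Itm.ok 206) (iqf tpr674_c))))) (BT.Fa_mk (BT.Fa_mk (BT.Fa_mk (BT.Fa_mk (BT.Fa_leaf (P := Itm.ok 206) (iqb tpr689_c)) (BT.Fa_leaf (P := Itm.ok 206) (iqf tpr662_c))) (BT.Fa_leaf (P := Itm.ok 206) (iqf tpr688_c))) (BT.Fa_mk (BT.Fa_leaf (P := Itm.ok 206) (iqf tpr538_c)) (BT.Fa_leaf (P := Itm.ok 206) (iqb tpr623_c)))) (BT.Fa_mk (BT.Fa_mk (BT.Fa_mk (BT.Fa_leaf (P := Itm.ok 206) (iqb tpr960_c)) (BT.Fa_leaf (P := Itm.ok 206) (iqf tpr626_c))) (BT.Fa_leaf (P := Itm.ok 206) (iqf tpr2945_c))) (BT.Fa_mk (BT.Fa_leaf (P := Itm.ok 206) (iqf tpr1249_c)) (BT.Fa_leaf (P := Itm.ok 206) (iqb tpr1001_c)))))) (BT.Fa_mk (BT.Fa_mk (BT.Fa_mk (BT.Fa_mk (BT.Fa_mk (BT.Fa_leaf (P := Itm.ok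 206) (iqb tpr1813_c)) (BT.Fa_leaf (P := Itm.ok 206) (iqb tpr510_c))) (BT.Fa_leaf (P := Itm.ok 206) (iqb tpr1006_c))) (BT.Fa_mk (BT.Fa_leaf (P := Itm.ok 206) (iqb tpr745_c)) (BT.Fa_leaf (P := Itm.ok 206) (iqf tpr639_c)))) (BT.Fa_mk (BT.Fa_mk (BT.Fa_mk (BT.Fa_leaf (P := Itm.ok 206) (iqf tpr1255_c)) (BT.Fa_leaf (P := Itm.ok 206) (iqf tpr780_c))) (BT.Fa_leaf (P := Itm.ok 206) (iqb tpr72_c))) (BT.Fa_mk (BT.Fa_leaf (P := Itm.ok 206) (iqb tpr1808_c)) (BT.Fa_leaf (P := Itm.ok 206) (iqb tpr18_c))))) (BT.Fa_mk (BT.Fa_mk (BT.Fa_mk (BT.Fa_mk (BT.Fa_leaf (P := Itm.ok 206) (iqb tpr222_c)) (BT.Fa_leaf (P := Itm.ok 206) (iqf tpr501_c))) (BT.Fa_leaf (P := Itm.ok 206) (iqf tpr573_c))) (BT.Fa_mk (BT.Fa_leaf (P := Itm.ok 206) (iqb tpr1258_c)) (BT.Fa_leaf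 (P := Itm.ok 206) (iqf tpr54_c)))) (BT.Fa_mk (BT.Fa_mk (BT.Fa_leaf (P := Itm.ok 206) (iqf tpr1666_c)) (BT.Fa_leaf (P := Itm.ok 206) (iqf tpr2062_c))) (BT.Fa_mk (BT.Fa_leaf (P := Itm.ok 206) (iqf tpr746_c)) (BT.Fa_leaf (P := Itm.ok 206) (iqb tpr564_c))))))) (BT.Fa_mk (BT.Fa_mk (BT.Fa_mk (BT.Fa_mk (BT.Fa_mk (BT.Fa_mk (BT.Fa_leaf (P := Itm.ok 206) (iqf tpr1810_c)) (BT.Fa_leaf (P := Itm.ok 206) (iqb tpr1196_c))) (BT.Fa_leaf (P := Itm.ok 206) (iqf tpr658_c))) (BT.Fa_mk (BT.Fa_leaf (P := Itm.ok 206) (iqb tpr1801_c)) (BT.Fa_leaf (P := Itm.ok 206) (iqf tpr627_c)))) (BT.Fa_mk (BT.Fa_mk (BT.Fa_mk (BT.Fa_leaf (P := Itm.ok 206) (iqf tpr1800_c)) (BT.Fa_leaf (P := Itm.ok 206) (iqf tpr1806_c))) (BT.Fa_leaf (P := Itm.ok 206) (iqf tpr9_c))) (BT.Fa_mk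 (BT.Fa_leaf (P := Itm.ok 206) (iqb tpr406_c)) (BT.Fa_leaf (P := Itm.ok 206) (iqb tpr1182_c))))) (BT.Fa_mk (BT.Fa_mk (BT.Fa_mk (BT.Fa_mk (BT.Fa_leaf (P := Itm.ok 206) (iqf tpr1804_c)) (BT.Fa_leaf (P := Itm.ok 206) (iqf tpr1190_c))) (BT.Fa_leaf (P := Itm.ok 206) (iqf tpr18_c))) (BT.Fa_mk (BT.Fa_leaf (P := Itm.ok 206) (iqb tpr23_c)) (BT.Fa_leaf (P := Itm.ok 206) (iqf tpr592_c)))) (BT.Fa_mk (BT.Fa_mk (BT.Fa_mk (BT.Fa_leaf (P := Itm.ok 206) (iqf tpr670_c)) (BT.Fa_leaf (P := Itm.ok 206) (iqb tpr647_c))) (BT.Fa_leaf (P := Itm.ok 206) (iqb tpr1193_c))) (BT.Fa_mk (BT.Fa_leaf (P := Itm.ok 206) (iqf tpr666_c)) (BT.Fa_leaf (P := Itm.ok 206) (iqb tpr804_c)))))) (BT.Fa_mk (BT.Fa_mk (BT.Fa_mk (BT.Fa_mk (BT.Fa_mk (BT.Fa_leaf (P := Itm.ok 206) (iqb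 tpr700_c)) (BT.Fa_leaf (P := Itm.ok 206) (iqf tpr742_c))) (BT.Fa_leaf (P := Itm.ok 206) (iqf tpr694_c))) (BT.Fa_mk (BT.Fa_leaf (P := Itm.ok 206) (iqb tpr1714_c)) (BT.Fa_leaf (P := Itm.ok 206) (iqb tpr678_c)))) (BT.Fa_mk (BT.Fa_mk (BT.Fa_mk (BT.Fa_leaf (P := Itm.ok 206) (iqb tpr669_c)) (BT.Fa_leaf (P := Itm.ok 206) (iqf tpr669_c))) (BT.Fa_leaf (P := Itm.ok 206) (iqf tpr1090_c))) (BT.Fa_mk (BT.Fa_leaf (P := Itm.ok 206) (iqf tpr857_c)) (BT.Fa_leaf (P := Itm.ok 206) (iqf tpr594_c))))) (BT.Fa_mk (BT.Fa_mk (BT.Fa_mk (BT.Fa_mk (BT.Fa_leaf (P := Itm.ok 206) (iqf tpr505_c)) (BT.Fa_leaf (P := Itm.ok 206) (iqf tpr62_c))) (BT.Fa_leaf (P := Itm.ok 206) (iqb tpr2431_c))) (BT.Fa_mk (BT.Fa_leaf (P := Itm.ok 206) (iqf tpr1262_c)) (BT.Fa_leaf (P := Itm.ok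 206) (iqb tpr292_c)))) (BT.Fa_mk (BT.Fa_mk (BT.Fa_leaf (P := Itm.ok 206) (iqf tpr972_c)) (BT.Fa_leaf (P := Itm.ok 206) (iqb tpr740_c))) (BT.Fa_mk (BT.Fa_leaf (P := Itm.ok 206) (iqf tpr522_c)) (BT.Fa_leaf (P := Itm.ok 206) (iqb tpr1799_c))))))))))

/-- all words of the class have labels -/
theorem pokNFzE2ByA3H2ByAzIzAyB2H3A2EzF : POK 206 xNFzE2ByA3H2ByAzIzAyB2H3A2EzF :=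
  y_pok (C0 := ceNFzE2ByA3H2ByAzIzAyB2H3A2EzF) (C1 := coNFzE2ByA3H2ByAzIzAyB2H3A2EzF) topNFzE2ByA3H2ByAzIzAyB2H3A2EzF nbNFzE2ByA3H2ByAzIzAyB2H3A2EzF (BT.Fa_of_all iiNFzE2ByA3H2ByAzIzAyB2H3A2EzF_c)
    (BT.Fa_mk (BT.Fa_mk (BT.Fa_mk (cyE_spec zeNFzE2ByA3H2ByAzIzAyB2H3A2EzF_0) (cyE_spec zeNFzE2ByA3H2ByAzIzAyB2H3A2EzF_1)) (BT.Fa_mk (cyE_spec zeNFzE2ByA3H2ByAzIzAyB2H3A2EzF_2) (cyE_spec zeNFzE2ByA3H2ByAzIzAyB2H3A2EzF_3))) (BT.Fa_mk (BT.Fa_mk (BT.Fa_mk (cyE_spec zeNFzE2ByA3H2ByAzIzAyB2H3A2EzF_4) (cyE_spec zeNFzE2ByA3H2ByAzIzAyB2H3A2EzF_5)) (BT.Fa_mk (BT.Fa_mk (cyE_spec zeNFzE2ByA3H2ByAzIzAyB2H3A2EzF_6) (cyE_spec zeNFzE2ByA3H2ByAzIzAyB2H3A2EzF_7)) (cyE_spec zeNFzE2ByA3H2ByAzIzAyB2H3A2EzF_8))) (BT.Fa_mk (BT.Fa_mk (cyE_spec zeNFzE2ByA3H2ByAzIzAyB2H3A2EzF_9)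 (cyE_spec zeNFzE2ByA3H2ByAzIzAyB2H3A2EzF_10)) (BT.Fa_mk (cyE_spec zeNFzE2ByA3H2ByAzIzAyB2H3A2EzF_11) (cyE_spec zeNFzE2ByA3H2ByAzIzAyB2H3A2EzF_12)))))
    (BT.Fa_mk (BT.Fa_mk (BT.Fa_mk (cyO_spec zoNFzE2ByA3H2ByAzIzAyB2H3A2EzF_0) (cyO_spec zoNFzE2ByA3H2ByAzIzAyB2H3A2EzF_1)) (BT.Fa_mk (cyO_spec zoNFzE2ByA3H2ByAzIzAyB2H3A2EzF_2) (cyO_spec zoNFzE2ByA3H2ByAzIzAyB2H3A2EzF_3))) (BT.Fa_mk (BT.Fa_mk (BT.Fa_mk (cyO_spec zoNFzE2ByA3H2ByAzIzAyB2H3A2EzF_4) (BT.Fa_mk (cyO_spec zoNFzE2ByA3H2ByAzIzAyB2H3A2EzF_5) (cyO_spec zoNFzE2ByA3H2ByAzIzAyB2H3A2EzF_6))) (BT.Fa_mk (BT.Fa_mk (cyO_spec zoNFzE2ByA3H2ByAzIzAyB2H3A2EzF_7) (cyO_spec zoNFzE2ByA3H2ByAzIzAyB2H3A2EzF_8)) (cyO_spec zoNFzE2ByA3H2ByAzIzAyB2H3A2EzF_9))) (BT.Fa_mk (BT.Fa_mk (cyO_spec zoNFzE2ByA3H2ByAzIzAyB2H3A2EzF_10)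 (cyO_spec zoNFzE2ByA3H2ByAzIzAyB2H3A2EzF_11)) (BT.Fa_mk (cyO_spec zoNFzE2ByA3H2ByAzIzAyB2H3A2EzF_12) (cyO_spec zoNFzE2ByA3H2ByAzIzAyB2H3A2EzF_13)))))
    iiNFzE2ByA3H2ByAzIzAyB2H3A2EzF_k


end MPb6R
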