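import Pool.Agent.Lib.MP_b6d339_lc.Cw3.YFzE2ByA3H2BzIzB3H3A2EzAyAyF
import Pool.Agent.Lib.MP_b6d339_lc.Cw3.XL
import Pool.Agent.Lib.MP_b6d339_lc.Cw3.T0
import Pool.Agent.Lib.MP_b6d339_lc.Cw3.T1
import Pool.Agent.Lib.MP_b6d339_lc.Cw3.T10
import Pool.Agent.Lib.MP_b6d339_lc.Cw3.T11
import Pool.Agent.Lib.MP_b6d339_lc.Cw3.T12
import Pool.Agent.Lib.MP_b6d339_lc.Cw3.T16
import Pool.Agent.Lib.MP_b6d339_lc.Cw3.T17
import Pool.Agent.Lib.MP_b6d339_lc.Cw3.T2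
import Pool.Agent.Lib.MP_b6d339_lc.Cw3.T3
import Pool.Agent.Lib.MP_b6d339_lc.Cw3.T4
import Pool.Agent.Lib.MP_b6d339_lc.Cw3.T5
import Pool.Agent.Lib.MP_b6d339_lc.Cw3.T6
import Pool.Agent.Lib.MP_b6d339_lc.Cw3.T7
import Pool.Agent.Lib.MP_b6d339_lc.Cw3.T8
import Pool.Agent.Lib.MP_b6d339_lc.Cw3.T9

/-!
# Erdős 592, three levels: items
-/

namespace MPb6R

open MPb6P

noncomputable def iiNFzE2ByA3H2BzIzB3H3A2EzAyAyF : BT Itm := (.node (.node (.node (.node (.node (.node (.node (.node (.leaf (.fwd 0 23 tpr5.df)) (.leaf (.fwd 23 6 tpr4.df))) (.leaf (.fwd 29 21 tpr8.df))) (.node (.leaf (.bwd 50 53 tpr815.df)) (.leaf (.fwd 103 52 tpr814.df)))) (.node (.node (.node (.leaf (.bwd 155 34 tpr15.df)) (.leaf (.fwd 189 31 tpr1305.df))) (.leaf (.fwd 220 43 tpr1325.df))) (.node (.leaf (.fwd 263 25 tpr51.df)) (.leaf (.bwd 288 38 tpr6.df))))) (.node (.node (.node (.node (.leaf (.bwd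 326 20 tpr63.df)) (.leaf (.fwd 346 50 tpr1309.df))) (.leaf (.fwd 396 27 tpr1320.df))) (.node (.leaf (.fwd 423 40 tpr32.df)) (.leaf (.fwd 463 52 tpr1348.df)))) (.node (.node (.node (.leaf (.fwd 515 33 tpr35.df)) (.leaf (.bwd 548 24 tpr1337.df))) (.leaf (.bwd 572 18 tpr18.df))) (.node (.leaf (.bwd 590 42 tpr1335.df)) (.leaf (.bwd 632 34 tpr1363.df)))))) (.node (.node (.node (.node (.node (.leaf (.bwd 666 27 tpr499.df)) (.leaf (.bwd 693 36 tpr1346.df))) (.leaf (.fwd 729 23 tpr456.df))) (.node (.leaf (.fwd 752 37 tpr1312.df)) (.leaf (.bwd 789 30 tpr1323.df)))) (.node (.node (.node (.leaf (.fwd 819 38 tpr1334.df)) (.leaf (.bwd 857 35 tpr849.df))) (.leaf (.fwd 892 36 tpr1333.df))) (.node (.leaf (.bwd 928 25 tpr677.df)) (.leaf (.fwd 953 45 tpr139.df))))) (.node (.node (.node (.node (.leaf (.fwd 998 24 tpr454.df)) (.leaf (.fwd 1022 34 tpr92.df))) (.leaf (.bwd 1056 32 tpr1315.df)))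 (.node (.leaf (.bwd 1088 16 tpr220.df)) (.leaf (.fwd 1104 34 tpr1373.df)))) (.node (.node (.node (.leaf (.fwd 1138 28 tpr940.df)) (.leaf (.bwd 1166 45 tpr1345.df))) (.leaf (.fwd 1211 25 tpr1311.df))) (.node (.leaf (.fwd 1236 27 tpr584.df)) (.leaf (.fwd 1263 35 tpr1307.df))))))) (.node (.node (.node (.node (.node (.node (.leaf (.bwd 1298 60 tpr1372.df)) (.leaf (.fwd 1358 16 tpr168.df))) (.leaf (.fwd 1374 41 tpr1356.df))) (.node (.leaf (.bwd 1415 46 tpr1310.df)) (.leaf (.fwd 1461 15 tpr493.df)))) (.node (.node (.node (.leaf (.fwd 1476 32 tpr358.df)) (.leaf (.fwd 1508 55 tpr1362.df))) (.leaf (.bwd 1563 13 tpr11.df))) (.node (.leaf (.fwd 1576 29 tpr1329.df)) (.leaf (.fwd 1605 23 tpr780.df))))) (.node (.node (.node (.node (.leaf (.bwd 1628 33 tpr44.df)) (.leaf (.bwd 1661 28 tpr477.df))) (.leaf (.bwd 1689 22 tpr20.df))) (.node (.leaf (.fwd 1711 39 tpr479.df)) (.leaf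 (.fwd 1750 23 tpr12.df)))) (.node (.node (.node (.leaf (.bwd 1773 21 tpr72.df)) (.leaf (.fwd 1794 37 tpr465.df))) (.leaf (.bwd 1831 26 tpr222.df))) (.node (.leaf (.bwd 1857 27 tpr788.df)) (.leaf (.bwd 1884 23 tpr490.df)))))) (.node (.node (.node (.node (.node (.leaf (.bwd 1907 59 tpr1326.df)) (.leaf (.fwd 1966 35 tpr485.df))) (.leaf (.fwd 2001 17 tpr0.df))) (.node (.leaf (.fwd 2018 20 tpr1316.df)) (.leaf (.fwd 2038 21 tpr25.df)))) (.node (.node (.node (.leaf (.fwd 2059 37 tpr1308.df)) (.leaf (.bwd 2096 32 tpr1319.df))) (.leaf (.fwd 2128 35 tpr1313.df))) (.node (.leaf (.fwd 2163 36 tpr23.df)) (.leaf (.bwd 2199 13 tpr757.df))))) (.node (.node (.node (.node (.leaf (.bwd 2212 25 tpr10.df)) (.leaf (.bwd 2237 9 tpr41.df))) (.leaf (.fwd 2246 31 tpr1331.df))) (.node (.leaf (.fwd 2277 22 tpr1387.df)) (.leaf (.bwd 2299 32 tpr113.df)))) (.node (.node (.node (.leaf (.bwd 2331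 41 tpr1349.df)) (.leaf (.bwd 2372 23 tpr133.df))) (.leaf (.bwd 2395 29 tpr1369.df))) (.node (.leaf (.bwd 2424 33 tpr31.df)) (.leaf (.bwd 2457 24 tpr24.df)))))))) (.node (.node (.node (.node (.node (.node (.node (.leaf (.fwd 2481 30 tpr1374.df)) (.leaf (.bwd 2511 27 tpr1343.df))) (.leaf (.bwd 2538 54 tpr1354.df))) (.node (.leaf (.fwd 2592 27 tpr131.df)) (.leaf (.fwd 2619 24 tpr931.df)))) (.node (.node (.node (.leaf (.fwd 2643 20 tpr186.df)) (.leaf (.bwd 2663 16 tpr804.df))) (.leaf (.bwd 2679 37 tpr583.df))) (.node (.leaf (.fwd 2716 29 tpr464.df)) (.leaf (.fwd 2745 20 tpr216.df))))) (.node (.node (.node (.node (.leaf (.fwd 2765 32 tpr61.df)) (.leaf (.fwd 2797 38 tpr105.df))) (.leaf (.bwd 2835 32 tpr39.df))) (.node (.leaf (.bwd 2867 31 tpr21.df)) (.leaf (.bwd 2898 33 tpr28.df)))) (.node (.node (.node (.leaf (.fwd 2931 29 tpr1344.df)) (.leaf (.fwd 2960 28 tpr93.df)))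 (.leaf (.bwd 2988 36 tpr547.df))) (.node (.leaf (.fwd 3024 20 tpr1355.df)) (.leaf (.fwd 3044 35 tpr89.df)))))) (.node (.node (.node (.node (.node (.leaf (.fwd 3079 29 tpr94.df)) (.leaf (.fwd 3108 33 tpr1330.df))) (.leaf (.bwd 3141 26 tpr1336.df))) (.node (.leaf (.bwd 3167 35 tpr1358.df)) (.leaf (.fwd 3202 29 tpr104.df)))) (.node (.node (.node (.leaf (.fwd 3231 34 tpr1341.df)) (.leaf (.bwd 3265 41 tpr97.df))) (.leaf (.fwd 3306 48 tpr1352.df))) (.node (.leaf (.fwd 3354 54 tpr177.df)) (.leaf (.fwd 3408 36 tpr1314.df))))) (.node (.node (.node (.node (.leaf (.fwd 3444 41 tpr1347.df)) (.leaf (.bwd 3485 31 tpr1378.df))) (.leaf (.bwd 3516 26 tpr1371.df))) (.node (.leaf (.bwd 3542 26 tpr1351.df)) (.leaf (.bwd 3568 34 tpr1376.df)))) (.node (.node (.node (.leaf (.bwd 3602 39 tpr1321.df)) (.leaf (.bwd 3641 31 tpr1365.df))) (.leaf (.bwd 3672 34 tpr1375.df))) (.node (.leaf (.fwd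 3706 25 tpr1382.df)) (.leaf (.fwd 3731 21 tpr110.df))))))) (.node (.node (.node (.node (.node (.node (.leaf (.fwd 3752 18 tpr161.df)) (.leaf (.fwd 3770 21 tpr107.df))) (.leaf (.bwd 3791 15 tpr38.df))) (.node (.leaf (.fwd 3806 30 tpr45.df)) (.leaf (.fwd 3836 37 tpr1359.df)))) (.node (.node (.node (.leaf (.fwd 3873 30 tpr143.df)) (.leaf (.fwd 3903 21 tpr50.df))) (.leaf (.bwd 3924 19 tpr47.df))) (.node (.leaf (.bwd 3943 17 tpr144.df)) (.leaf (.fwd 3960 32 tpr1306.df))))) (.node (.node (.node (.node (.leaf (.bwd 3992 19 tpr824.df)) (.leaf (.fwd 4011 24 tpr147.df))) (.leaf (.bwd 4035 40 tpr148.df))) (.node (.leaf (.bwd 4075 34 tpr114.df)) (.leaf (.fwd 4109 29 tpr111.df)))) (.node (.node (.node (.leaf (.fwd 4138 29 tpr46.df)) (.leaf (.bwd 4167 36 tpr101.df))) (.leaf (.bwd 4203 52 tpr1328.df))) (.node (.leaf (.bwd 4255 28 tpr40.df)) (.leaf (.bwd 4283 46 tpr1405.df))))))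 (.node (.node (.node (.node (.node (.leaf (.bwd 4329 31 tpr517.df)) (.leaf (.fwd 4360 28 tpr967.df))) (.leaf (.bwd 4388 36 tpr1381.df))) (.node (.leaf (.bwd 4424 26 tpr1380.df)) (.leaf (.fwd 4450 38 tpr1379.df)))) (.node (.node (.node (.leaf (.fwd 4488 31 tpr1383.df)) (.leaf (.bwd 4519 24 tpr1384.df))) (.leaf (.fwd 4543 38 tpr1385.df))) (.node (.leaf (.bwd 4581 48 tpr684.df)) (.leaf (.bwd 4629 36 tpr935.df))))) (.node (.node (.node (.node (.leaf (.bwd 4665 25 tpr1389.df)) (.leaf (.bwd 4690 28 tpr941.df))) (.leaf (.bwd 4718 32 tpr1402.df))) (.node (.leaf (.bwd 4750 28 tpr1406.df)) (.leaf (.bwd 4778 19 tpr33.df)))) (.node (.node (.leaf (.fwd 4797 26 tpr850.df)) (.leaf (.bwd 4823 36 tpr244.df))) (.node (.leaf (.fwd 4859 37 tpr1391.df)) (.leaf (.fwd 4896 39 tpr1332.df)))))))))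

theorem iiNFzE2ByA3H2BzIzB3H3A2EzAyAyF_c : iiNFzE2ByA3H2BzIzB3H3A2EzAyAyF.all (itB (ng 60 nnNFzE2ByA3H2BzIzB3H3A2EzAyAyF)) = true := by decide +kernel
theorem nbNFzE2ByA3H2BzIzB3H3A2EzAyAyF : nbB 60 4995 nnNFzE2ByA3H2BzIzB3H3A2EzAyAyF = true := by decide +kernel
theorem topNFzE2ByA3H2BzIzB3H3A2EzAyAyF : topY 4995 ttNFzE2ByA3H2BzIzB3H3A2EzAyAyF ceNFzE2ByA3H2BzIzB3H3A2EzAyAyF xNFzE2ByA3H2BzIzB3H3A2EzAyAyF iiNFzE2ByA3H2BzIzB3H3A2EzAyAyF = true := by decide +kernel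

end MPb6R
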