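import Pool.Agent.Lib.MP_b6d339_lc.Cw3.YFzE2ByA3H2BzIzB3H3A2EzAyAzF
import Pool.Agent.Lib.MP_b6d339_lc.Cw3.XL
import Pool.Agent.Lib.MP_b6d339_lc.Cw3.T0
import Pool.Agent.Lib.MP_b6d339_lc.Cw3.T1
import Pool.Agent.Lib.MP_b6d339_lc.Cw3.T10
import Pool.Agent.Lib.MP_b6d339_lc.Cw3.T11
import Pool.Agent.Lib.MP_b6d339_lc.Cw3.T12
import Pool.Agent.Lib.MP_b6d339_lc.Cw3.T16
import Pool.Agent.Lib.MP_b6d339_lc.Cw3.T17
import Pool.Agent.Lib.MP_b6d339_lc.Cw3.T18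
import Pool.Agent.Lib.MP_b6d339_lc.Cw3.T2
import Pool.Agent.Lib.MP_b6d339_lc.Cw3.T37
import Pool.Agent.Lib.MP_b6d339_lc.Cw3.T4
import Pool.Agent.Lib.MP_b6d339_lc.Cw3.T5
import Pool.Agent.Lib.MP_b6d339_lc.Cw3.T6
import Pool.Agent.Lib.MP_b6d339_lc.Cw3.T7
import Pool.Agent.Lib.MP_b6d339_lc.Cw3.T8
import Pool.Agent.Lib.MP_b6d339_lc.Cw3.T9

/-!
# Erdős 592, three levels: items
-/

namespace MPb6R

open MPb6P

noncomputable def iiNFzE2ByA3H2BzIzB3H3A2EzAyAzF : BT Itm := (.node (.node (.node (.node (.node (.node (.node (.node (.leaf (.fwd 0 6 tpr4.df)) (.leaf (.bwd 6 6 tpr4.df))) (.leaf (.fwd 12 16 tpr168.df))) (.node (.node (.leaf (.fwd 28 23 tpr5.df)) (.leaf (.bwd 51 16 tpr804.df))) (.leaf (.fwd 67 31 tpr1305.df)))) (.node (.node (.node (.leaf (.fwd 98 23 tpr456.df)) (.leaf (.fwd 121 38 tpr1334.df))) (.leaf (.fwd 159 17 tpr0.df))) (.node (.leaf (.bwd 176 31 tpr21.df))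 (.leaf (.fwd 207 27 tpr1320.df))))) (.node (.node (.node (.node (.leaf (.bwd 234 28 tpr477.df)) (.leaf (.fwd 262 24 tpr454.df))) (.leaf (.bwd 286 53 tpr815.df))) (.node (.leaf (.bwd 339 35 tpr1358.df)) (.leaf (.fwd 374 39 tpr479.df)))) (.node (.node (.node (.leaf (.bwd 413 13 tpr11.df)) (.leaf (.fwd 426 31 tpr1469.df))) (.leaf (.fwd 457 29 tpr464.df))) (.node (.leaf (.fwd 486 48 tpr1468.df)) (.leaf (.bwd 534 32 tpr1315.df)))))) (.node (.node (.node (.node (.node (.leaf (.bwd 566 30 tpr1323.df)) (.leaf (.fwd 596 25 tpr1311.df))) (.leaf (.fwd 621 21 tpr110.df))) (.node (.leaf (.bwd 642 24 tpr1337.df)) (.leaf (.fwd 666 24 tpr931.df)))) (.node (.node (.node (.leaf (.bwd 690 34 tpr1363.df)) (.leaf (.fwd 724 52 tpr1348.df))) (.leaf (.bwd 776 42 tpr1335.df))) (.node (.leaf (.fwd 818 52 tpr814.df)) (.leaf (.fwd 870 31 tpr1455.df))))) (.node (.node (.node (.node (.leaf (.bwd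 901 34 tpr1482.df)) (.leaf (.bwd 935 28 tpr941.df))) (.leaf (.bwd 963 31 tpr517.df))) (.node (.leaf (.bwd 994 29 tpr582.df)) (.leaf (.fwd 1023 29 tpr1344.df)))) (.node (.node (.node (.leaf (.bwd 1052 46 tpr1310.df)) (.leaf (.fwd 1098 32 tpr115.df))) (.leaf (.fwd 1130 44 tpr1461.df))) (.node (.leaf (.bwd 1174 14 tpr49.df)) (.leaf (.fwd 1188 23 tpr12.df))))))) (.node (.node (.node (.node (.node (.node (.leaf (.bwd 1211 21 tpr72.df)) (.leaf (.fwd 1232 15 tpr493.df))) (.leaf (.fwd 1247 21 tpr8.df))) (.node (.leaf (.fwd 1268 25 tpr51.df)) (.leaf (.bwd 1293 23 tpr490.df)))) (.node (.node (.node (.leaf (.fwd 1316 32 tpr358.df)) (.leaf (.bwd 1348 59 tpr1326.df))) (.leaf (.fwd 1407 35 tpr485.df))) (.node (.leaf (.fwd 1442 42 tpr468.df)) (.leaf (.bwd 1484 20 tpr48.df))))) (.node (.node (.node (.node (.leaf (.bwd 1504 27 tpr788.df)) (.leaf (.bwd 1531 18 tpr471.df))) (.leaf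 (.bwd 1549 25 tpr106.df))) (.node (.leaf (.bwd 1574 36 tpr1346.df)) (.leaf (.fwd 1610 46 tpr1464.df)))) (.node (.node (.node (.leaf (.bwd 1656 13 tpr757.df)) (.leaf (.bwd 1669 25 tpr10.df))) (.leaf (.fwd 1694 13 tpr11.df))) (.node (.leaf (.fwd 1707 33 tpr35.df)) (.leaf (.fwd 1740 35 tpr89.df)))))) (.node (.node (.node (.node (.node (.leaf (.fwd 1775 29 tpr1329.df)) (.leaf (.bwd 1804 23 tpr133.df))) (.leaf (.bwd 1827 15 tpr38.df))) (.node (.leaf (.fwd 1842 20 tpr186.df)) (.leaf (.bwd 1862 19 tpr824.df)))) (.node (.node (.node (.leaf (.fwd 1881 29 tpr104.df)) (.leaf (.fwd 1910 34 tpr92.df))) (.leaf (.fwd 1944 41 tpr1466.df))) (.node (.leaf (.bwd 1985 52 tpr1328.df)) (.leaf (.fwd 2037 27 tpr1475.df))))) (.node (.node (.node (.node (.leaf (.bwd 2064 42 tpr455.df)) (.leaf (.fwd 2106 50 tpr1309.df))) (.leaf (.fwd 2156 30 tpr1474.df))) (.node (.leaf (.fwd 2186 41 tpr1347.df))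 (.leaf (.bwd 2227 20 tpr63.df)))) (.node (.node (.node (.leaf (.fwd 2247 37 tpr1312.df)) (.leaf (.fwd 2284 23 tpr605.df))) (.leaf (.bwd 2307 41 tpr97.df))) (.node (.leaf (.fwd 2348 40 tpr1462.df)) (.leaf (.fwd 2388 30 tpr143.df)))))))) (.node (.node (.node (.node (.node (.node (.node (.leaf (.fwd 2418 45 tpr139.df)) (.leaf (.fwd 2463 21 tpr50.df))) (.leaf (.fwd 2484 43 tpr1325.df))) (.node (.node (.leaf (.fwd 2527 27 tpr131.df)) (.leaf (.bwd 2554 36 tpr547.df))) (.leaf (.bwd 2590 25 tpr677.df)))) (.node (.node (.node (.leaf (.bwd 2615 37 tpr583.df)) (.leaf (.fwd 2652 18 tpr2983.df))) (.leaf (.bwd 2670 36 tpr935.df))) (.node (.leaf (.bwd 2706 24 tpr24.df)) (.leaf (.bwd 2730 26 tpr1336.df))))) (.node (.node (.node (.node (.leaf (.fwd 2756 28 tpr1472.df)) (.leaf (.fwd 2784 26 tpr850.df))) (.leaf (.bwd 2810 60 tpr1372.df))) (.node (.leaf (.fwd 2870 58 tpr1471.df)) (.leaf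 (.bwd 2928 29 tpr1369.df)))) (.node (.node (.node (.leaf (.fwd 2957 29 tpr1477.df)) (.leaf (.bwd 2986 33 tpr28.df))) (.leaf (.bwd 3019 32 tpr39.df))) (.node (.leaf (.fwd 3051 31 tpr1331.df)) (.leaf (.fwd 3082 28 tpr93.df)))))) (.node (.node (.node (.node (.node (.leaf (.bwd 3110 31 tpr1365.df)) (.leaf (.fwd 3141 34 tpr1341.df))) (.leaf (.fwd 3175 23 tpr478.df))) (.node (.leaf (.bwd 3198 27 tpr1476.df)) (.leaf (.bwd 3225 27 tpr1343.df)))) (.node (.node (.node (.leaf (.fwd 3252 36 tpr1333.df)) (.leaf (.bwd 3288 48 tpr684.df))) (.leaf (.fwd 3336 25 tpr1382.df))) (.node (.leaf (.fwd 3361 38 tpr526.df)) (.leaf (.fwd 3399 40 tpr32.df))))) (.node (.node (.node (.node (.leaf (.bwd 3439 41 tpr1349.df)) (.leaf (.fwd 3480 41 tpr715.df))) (.leaf (.bwd 3521 34 tpr1376.df))) (.node (.leaf (.bwd 3555 54 tpr1354.df)) (.leaf (.bwd 3609 26 tpr1371.df)))) (.node (.node (.node (.leaf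 (.fwd 3635 34 tpr1373.df)) (.leaf (.bwd 3669 34 tpr1375.df))) (.leaf (.bwd 3703 17 tpr144.df))) (.node (.leaf (.bwd 3720 27 tpr499.df)) (.leaf (.fwd 3747 26 tpr817.df))))))) (.node (.node (.node (.node (.node (.node (.leaf (.bwd 3773 15 tpr816.df)) (.leaf (.bwd 3788 26 tpr1380.df))) (.leaf (.bwd 3814 36 tpr1381.df))) (.node (.leaf (.fwd 3850 29 tpr111.df)) (.leaf (.fwd 3879 27 tpr584.df)))) (.node (.node (.node (.leaf (.fwd 3906 21 tpr1339.df)) (.leaf (.fwd 3927 28 tpr967.df))) (.leaf (.bwd 3955 31 tpr1378.df))) (.node (.leaf (.fwd 3986 44 tpr1481.df)) (.leaf (.bwd 4030 26 tpr1351.df))))) (.node (.node (.node (.node (.leaf (.fwd 4056 26 tpr1484.df)) (.leaf (.bwd 4082 24 tpr1384.df))) (.leaf (.fwd 4106 24 tpr147.df))) (.node (.leaf (.bwd 4130 30 tpr1485.df)) (.leaf (.bwd 4160 23 tpr1487.df)))) (.node (.node (.node (.leaf (.fwd 4183 38 tpr1385.df)) (.leaf (.fwd 4221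 43 tpr1488.df))) (.leaf (.bwd 4264 41 tpr1489.df))) (.node (.leaf (.bwd 4305 40 tpr62.df)) (.leaf (.bwd 4345 25 tpr1494.df)))))) (.node (.node (.node (.node (.node (.leaf (.fwd 4370 25 tpr1338.df)) (.leaf (.fwd 4395 35 tpr809.df))) (.leaf (.fwd 4430 32 tpr1439.df))) (.node (.leaf (.fwd 4462 26 tpr1483.df)) (.leaf (.bwd 4488 32 tpr1402.df)))) (.node (.node (.node (.leaf (.fwd 4520 26 tpr1393.df)) (.leaf (.fwd 4546 28 tpr1018.df))) (.leaf (.bwd 4574 28 tpr1406.df))) (.node (.leaf (.fwd 4602 26 tpr1425.df)) (.leaf (.fwd 4628 37 tpr1391.df))))) (.node (.node (.node (.node (.leaf (.fwd 4665 46 tpr1429.df)) (.leaf (.fwd 4711 36 tpr1486.df))) (.leaf (.bwd 4747 29 tpr1511.df))) (.node (.leaf (.fwd 4776 37 tpr465.df)) (.leaf (.fwd 4813 37 tpr1423.df)))) (.node (.node (.node (.leaf (.fwd 4850 29 tpr1435.df)) (.leaf (.bwd 4879 27 tpr1394.df))) (.leaf (.fwd 4906 24 tpr609.df)))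 (.node (.leaf (.bwd 4930 24 tpr1500.df)) (.leaf (.fwd 4954 25 tpr1322.df)))))))))

theorem iiNFzE2ByA3H2BzIzB3H3A2EzAyAzF_c : iiNFzE2ByA3H2BzIzB3H3A2EzAyAzF.all (itB (ng 60 nnNFzE2ByA3H2BzIzB3H3A2EzAyAzF)) = true := by decide +kernel
theorem nbNFzE2ByA3H2BzIzB3H3A2EzAyAzF : nbB 60 5039 nnNFzE2ByA3H2BzIzB3H3A2EzAyAzF = true := by decide +kernel
theorem topNFzE2ByA3H2BzIzB3H3A2EzAyAzF : topY 5039 ttNFzE2ByA3H2BzIzB3H3A2EzAyAzF ceNFzE2ByA3H2BzIzB3H3A2EzAyAzF xNFzE2ByA3H2BzIzB3H3A2EzAyAzF iiNFzE2ByA3H2BzIzB3H3A2EzAyAzF = true := by decide +kernel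

end MPb6R
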