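import Pool.Agent.Lib.MP_b6d339_lc.Cw3.YFzE2ByA3H3AyB2EzF
import Pool.Agent.Lib.MP_b6d339_lc.Cw3.XL
import Pool.Agent.Lib.MP_b6d339_lc.Cw3.T0
import Pool.Agent.Lib.MP_b6d339_lc.Cw3.T1
import Pool.Agent.Lib.MP_b6d339_lc.Cw3.T10
import Pool.Agent.Lib.MP_b6d339_lc.Cw3.T11
import Pool.Agent.Lib.MP_b6d339_lc.Cw3.T12
import Pool.Agent.Lib.MP_b6d339_lc.Cw3.T13
import Pool.Agent.Lib.MP_b6d339_lc.Cw3.T14
import Pool.Agent.Lib.MP_b6d339_lc.Cw3.T15
import Pool.Agent.Lib.MP_b6d339_lc.Cw3.T19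
import Pool.Agent.Lib.MP_b6d339_lc.Cw3.T2
import Pool.Agent.Lib.MP_b6d339_lc.Cw3.T20
import Pool.Agent.Lib.MP_b6d339_lc.Cw3.T3
import Pool.Agent.Lib.MP_b6d339_lc.Cw3.T4
import Pool.Agent.Lib.MP_b6d339_lc.Cw3.T5
import Pool.Agent.Lib.MP_b6d339_lc.Cw3.T6
import Pool.Agent.Lib.MP_b6d339_lc.Cw3.T7
import Pool.Agent.Lib.MP_b6d339_lc.Cw3.T8
import Pool.Agent.Lib.MP_b6d339_lc.Cw3.T9

/-!
# Erdős 592, three levels: items
-/

namespace MPb6R

open MPb6P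

noncomputable def iiNFzE2ByA3H3AyB2EzF : BT Itm := (.node (.node (.node (.node (.node (.node (.node (.node (.node (.leaf (.bwd 0 16 tpr168.df)) (.leaf (.bwd 16 31 tpr1532.df))) (.leaf (.fwd 47 31 tpr1532.df))) (.node (.node (.leaf (.fwd 78 16 tpr168.df)) (.leaf (.fwd 94 24 tpr789.df))) (.leaf (.bwd 118 24 tpr789.df)))) (.node (.node (.node (.leaf (.fwd 142 22 tpr239.df)) (.leaf (.bwd 164 22 tpr239.df))) (.leaf (.bwd 186 27 tpr589.df))) (.node (.leaf (.fwd 213 35 tpr89.df)) (.leaf (.bwd 248 35 tpr89.df))))) (.node (.node (.node (.node (.leaf (.fwd 283 27 tpr499.df)) (.leaf (.bwd 310 20 tpr48.df))) (.leaf (.fwd 330 28 tpr721.df))) (.node (.leaf (.bwd 358 28 tpr721.df)) (.leaf (.fwd 386 32 tpr251.df)))) (.node (.node (.node (.leaf (.fwd 418 27 tpr236.df)) (.leaf (.bwd 445 27 tpr236.df))) (.leaf (.bwd 472 30 tpr235.df))) (.node (.leaf (.bwd 502 21 tpr90.df)) (.leaf (.fwd 523 20 tpr48.df))))))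 (.node (.node (.node (.node (.node (.leaf (.fwd 543 29 tpr618.df)) (.leaf (.fwd 572 24 tpr609.df))) (.leaf (.fwd 596 27 tpr562.df))) (.node (.node (.leaf (.bwd 623 27 tpr499.df)) (.leaf (.fwd 650 21 tpr90.df))) (.leaf (.fwd 671 27 tpr506.df)))) (.node (.node (.node (.leaf (.bwd 698 31 tpr517.df)) (.leaf (.bwd 729 26 tpr245.df))) (.leaf (.fwd 755 20 tpr1543.df))) (.node (.leaf (.bwd 775 20 tpr1543.df)) (.leaf (.fwd 795 31 tpr527.df))))) (.node (.node (.node (.node (.leaf (.bwd 826 29 tpr618.df)) (.leaf (.fwd 855 33 tpr501.df))) (.leaf (.bwd 888 24 tpr609.df))) (.node (.leaf (.fwd 912 25 tpr1583.df)) (.leaf (.bwd 937 27 tpr506.df)))) (.node (.node (.node (.leaf (.fwd 964 32 tpr247.df)) (.leaf (.bwd 996 35 tpr568.df))) (.leaf (.bwd 1031 27 tpr562.df))) (.node (.leaf (.bwd 1058 25 tpr679.df)) (.leaf (.bwd 1083 35 tpr541.df))))))) (.node (.node (.node (.node (.node (.node (.leaf (.fwd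 1118 27 tpr625.df)) (.leaf (.bwd 1145 31 tpr527.df))) (.leaf (.fwd 1176 29 tpr582.df))) (.node (.node (.leaf (.fwd 1205 21 tpr8.df)) (.leaf (.fwd 1226 39 tpr636.df))) (.leaf (.fwd 1265 26 tpr222.df)))) (.node (.node (.node (.leaf (.fwd 1291 33 tpr680.df)) (.leaf (.fwd 1324 19 tpr429.df))) (.leaf (.fwd 1343 25 tpr51.df))) (.node (.leaf (.bwd 1368 39 tpr636.df)) (.leaf (.bwd 1407 25 tpr51.df))))) (.node (.node (.node (.node (.leaf (.bwd 1432 19 tpr429.df)) (.leaf (.bwd 1451 31 tpr607.df))) (.leaf (.bwd 1482 23 tpr605.df))) (.node (.leaf (.fwd 1505 37 tpr555.df)) (.leaf (.bwd 1542 28 tpr627.df)))) (.node (.node (.node (.leaf (.fwd 1570 25 tpr1539.df)) (.leaf (.bwd 1595 32 tpr247.df))) (.leaf (.fwd 1627 29 tpr608.df))) (.node (.leaf (.fwd 1656 35 tpr541.df)) (.leaf (.bwd 1691 33 tpr680.df)))))) (.node (.node (.node (.node (.node (.leaf (.bwd 1724 29 tpr608.df)) (.leaf (.fwd 1753 31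 tpr606.df))) (.leaf (.bwd 1784 27 tpr625.df))) (.node (.node (.leaf (.fwd 1811 37 tpr556.df)) (.leaf (.bwd 1848 23 tpr780.df))) (.leaf (.bwd 1871 33 tpr631.df)))) (.node (.node (.node (.leaf (.fwd 1904 21 tpr1545.df)) (.leaf (.bwd 1925 25 tpr1539.df))) (.leaf (.bwd 1950 41 tpr1557.df))) (.node (.leaf (.fwd 1991 38 tpr1542.df)) (.leaf (.bwd 2029 29 tpr1540.df))))) (.node (.node (.node (.node (.leaf (.fwd 2058 29 tpr1540.df)) (.leaf (.fwd 2087 22 tpr572.df))) (.leaf (.fwd 2109 31 tpr1010.df))) (.node (.leaf (.bwd 2140 32 tpr550.df)) (.leaf (.bwd 2172 22 tpr572.df)))) (.node (.node (.node (.leaf (.bwd 2194 34 tpr748.df)) (.leaf (.fwd 2228 30 tpr320.df))) (.leaf (.bwd 2258 34 tpr614.df))) (.node (.leaf (.fwd 2292 36 tpr1536.df)) (.leaf (.bwd 2328 36 tpr1536.df)))))))) (.node (.node (.node (.node (.node (.node (.node (.leaf (.fwd 2364 37 tpr1064.df)) (.leaf (.fwd 2401 23 tpr12.df)))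 (.leaf (.bwd 2424 33 tpr1550.df))) (.node (.node (.leaf (.bwd 2457 19 tpr1574.df)) (.leaf (.fwd 2476 44 tpr1535.df))) (.leaf (.bwd 2520 35 tpr1054.df)))) (.node (.node (.node (.leaf (.bwd 2555 39 tpr701.df)) (.leaf (.fwd 2594 24 tpr1544.df))) (.leaf (.fwd 2618 42 tpr1138.df))) (.node (.leaf (.fwd 2660 23 tpr5.df)) (.leaf (.bwd 2683 31 tpr1049.df))))) (.node (.node (.node (.node (.leaf (.fwd 2714 23 tpr605.df)) (.leaf (.bwd 2737 29 tpr9.df))) (.leaf (.bwd 2766 25 tpr915.df))) (.node (.leaf (.bwd 2791 18 tpr18.df)) (.leaf (.bwd 2809 30 tpr320.df)))) (.node (.node (.node (.leaf (.bwd 2839 30 tpr1551.df)) (.leaf (.fwd 2869 24 tpr810.df))) (.leaf (.bwd 2893 32 tpr251.df))) (.node (.leaf (.fwd 2925 41 tpr1557.df)) (.leaf (.fwd 2966 36 tpr1561.df)))))) (.node (.node (.node (.node (.node (.leaf (.fwd 3002 38 tpr1554.df)) (.leaf (.bwd 3040 43 tpr1144.df))) (.leaf (.fwd 3083 21 tpr1108.df)))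 (.node (.node (.leaf (.fwd 3104 36 tpr573.df)) (.leaf (.bwd 3140 23 tpr1541.df))) (.leaf (.bwd 3163 38 tpr1542.df)))) (.node (.node (.node (.leaf (.fwd 3201 21 tpr1581.df)) (.leaf (.bwd 3222 23 tpr1180.df))) (.leaf (.bwd 3245 28 tpr563.df))) (.node (.leaf (.bwd 3273 27 tpr977.df)) (.leaf (.bwd 3300 30 tpr1547.df))))) (.node (.node (.node (.node (.leaf (.bwd 3330 29 tpr579.df)) (.leaf (.bwd 3359 25 tpr1104.df))) (.leaf (.bwd 3384 44 tpr1535.df))) (.node (.leaf (.fwd 3428 23 tpr780.df)) (.leaf (.fwd 3451 34 tpr54.df)))) (.node (.node (.node (.leaf (.bwd 3485 33 tpr645.df)) (.leaf (.bwd 3518 15 tpr816.df))) (.leaf (.bwd 3533 23 tpr1562.df))) (.node (.leaf (.bwd 3556 21 tpr1545.df)) (.leaf (.fwd 3577 28 tpr563.df))))))) (.node (.node (.node (.node (.node (.node (.leaf (.bwd 3605 20 tpr505.df)) (.leaf (.fwd 3625 25 tpr679.df))) (.leaf (.bwd 3650 28 tpr1013.df))) (.node (.node (.leaf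 (.fwd 3678 19 tpr1574.df)) (.leaf (.fwd 3697 44 tpr617.df))) (.leaf (.fwd 3741 31 tpr607.df)))) (.node (.node (.node (.leaf (.fwd 3772 32 tpr518.df)) (.leaf (.bwd 3804 38 tpr1554.df))) (.leaf (.bwd 3842 29 tpr22.df))) (.node (.leaf (.fwd 3871 39 tpr210.df)) (.leaf (.fwd 3910 45 tpr596.df))))) (.node (.node (.node (.node (.leaf (.fwd 3955 41 tpr502.df)) (.leaf (.fwd 3996 37 tpr1022.df))) (.leaf (.fwd 4033 19 tpr1103.df))) (.node (.leaf (.fwd 4052 32 tpr17.df)) (.leaf (.bwd 4084 29 tpr656.df)))) (.node (.node (.node (.leaf (.bwd 4113 21 tpr8.df)) (.leaf (.bwd 4134 39 tpr615.df))) (.leaf (.bwd 4173 22 tpr590.df))) (.node (.leaf (.fwd 4195 42 tpr1050.df)) (.leaf (.fwd 4237 39 tpr701.df)))))) (.node (.node (.node (.node (.node (.leaf (.bwd 4276 35 tpr554.df)) (.leaf (.fwd 4311 36 tpr683.df))) (.leaf (.bwd 4347 27 tpr82.df))) (.node (.leaf (.fwd 4374 29 tpr656.df)) (.leaf (.bwd 4403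 29 tpr582.df)))) (.node (.node (.node (.leaf (.fwd 4432 34 tpr748.df)) (.leaf (.bwd 4466 26 tpr222.df))) (.leaf (.bwd 4492 31 tpr606.df))) (.node (.leaf (.fwd 4523 29 tpr9.df)) (.leaf (.fwd 4552 31 tpr517.df))))) (.node (.node (.node (.node (.leaf (.bwd 4583 22 tpr560.df)) (.leaf (.fwd 4605 18 tpr18.df))) (.leaf (.bwd 4623 25 tpr1583.df))) (.node (.leaf (.bwd 4648 34 tpr54.df)) (.leaf (.bwd 4682 33 tpr501.df)))) (.node (.node (.node (.leaf (.fwd 4715 27 tpr1553.df)) (.leaf (.bwd 4742 32 tpr518.df))) (.leaf (.fwd 4774 37 tpr583.df))) (.node (.leaf (.fwd 4811 25 tpr1104.df)) (.leaf (.fwd 4836 25 tpr915.df))))))))) (.node (.node (.node (.node (.node (.node (.node (.node (.leaf (.fwd 4861 20 tpr1549.df)) (.leaf (.bwd 4881 28 tpr610.df))) (.leaf (.fwd 4909 29 tpr641.df))) (.node (.node (.leaf (.fwd 4938 37 tpr1570.df)) (.leaf (.fwd 4975 35 tpr585.df))) (.leaf (.bwd 5010 28 tpr295.df))))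 (.node (.node (.node (.leaf (.fwd 5038 43 tpr1144.df)) (.leaf (.fwd 5081 26 tpr245.df))) (.leaf (.fwd 5107 22 tpr560.df))) (.node (.leaf (.fwd 5129 27 tpr82.df)) (.leaf (.fwd 5156 28 tpr1013.df))))) (.node (.node (.node (.node (.leaf (.fwd 5184 26 tpr516.df)) (.leaf (.bwd 5210 24 tpr810.df))) (.leaf (.bwd 5234 44 tpr617.df))) (.node (.leaf (.bwd 5278 31 tpr1010.df)) (.leaf (.fwd 5309 29 tpr637.df)))) (.node (.node (.node (.leaf (.fwd 5338 43 tpr323.df)) (.leaf (.fwd 5381 30 tpr235.df))) (.leaf (.bwd 5411 37 tpr555.df))) (.node (.leaf (.bwd 5448 21 tpr1108.df)) (.leaf (.fwd 5469 30 tpr1547.df)))))) (.node (.node (.node (.node (.node (.leaf (.bwd 5499 35 tpr585.df)) (.leaf (.fwd 5534 29 tpr579.df))) (.leaf (.fwd 5563 23 tpr1180.df))) (.node (.node (.leaf (.bwd 5586 36 tpr1561.df)) (.leaf (.fwd 5622 15 tpr816.df))) (.leaf (.fwd 5637 28 tpr610.df)))) (.node (.node (.node (.leaf (.fwd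 5665 34 tpr548.df)) (.leaf (.bwd 5699 34 tpr548.df))) (.leaf (.fwd 5733 39 tpr615.df))) (.node (.leaf (.bwd 5772 45 tpr611.df)) (.leaf (.fwd 5817 32 tpr620.df))))) (.node (.node (.node (.node (.leaf (.bwd 5849 31 tpr1571.df)) (.leaf (.bwd 5880 45 tpr596.df))) (.leaf (.bwd 5925 35 tpr91.df))) (.node (.leaf (.fwd 5960 29 tpr692.df)) (.leaf (.fwd 5989 36 tpr23.df)))) (.node (.node (.node (.leaf (.bwd 6025 37 tpr1064.df)) (.leaf (.fwd 6062 26 tpr700.df))) (.leaf (.fwd 6088 33 tpr645.df))) (.node (.leaf (.bwd 6121 37 tpr556.df)) (.leaf (.fwd 6158 36 tpr547.df))))))) (.node (.node (.node (.node (.node (.node (.leaf (.fwd 6194 27 tpr589.df)) (.leaf (.fwd 6221 45 tpr611.df))) (.leaf (.bwd 6266 34 tpr628.df))) (.node (.node (.leaf (.fwd 6300 34 tpr619.df)) (.leaf (.bwd 6334 39 tpr210.df))) (.leaf (.bwd 6373 29 tpr641.df)))) (.node (.node (.node (.leaf (.bwd 6402 36 tpr683.df)) (.leaf (.bwd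 6438 48 tpr684.df))) (.leaf (.fwd 6486 35 tpr91.df))) (.node (.leaf (.bwd 6521 29 tpr692.df)) (.leaf (.fwd 6550 34 tpr628.df))))) (.node (.node (.node (.node (.leaf (.bwd 6584 24 tpr1585.df)) (.leaf (.bwd 6608 26 tpr675.df))) (.leaf (.fwd 6634 41 tpr624.df))) (.node (.leaf (.fwd 6675 32 tpr1009.df)) (.leaf (.fwd 6707 30 tpr577.df)))) (.node (.node (.node (.leaf (.fwd 6737 25 tpr106.df)) (.leaf (.fwd 6762 17 tpr1569.df))) (.leaf (.fwd 6779 29 tpr1046.df))) (.node (.leaf (.bwd 6808 44 tpr1228.df)) (.leaf (.bwd 6852 32 tpr1546.df)))))) (.node (.node (.node (.node (.node (.leaf (.fwd 6884 22 tpr590.df)) (.leaf (.fwd 6906 33 tpr1099.df))) (.leaf (.bwd 6939 42 tpr1050.df))) (.node (.leaf (.bwd 6981 36 tpr23.df)) (.leaf (.bwd 7017 27 tpr1553.df)))) (.node (.node (.node (.leaf (.bwd 7044 26 tpr700.df)) (.leaf (.bwd 7070 49 tpr960.df))) (.leaf (.fwd 7119 49 tpr960.df))) (.node (.leaf (.bwd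 7168 41 tpr624.df)) (.leaf (.bwd 7209 37 tpr681.df))))) (.node (.node (.node (.node (.leaf (.fwd 7246 39 tpr1593.df)) (.leaf (.fwd 7285 46 tpr1537.df))) (.leaf (.fwd 7331 32 tpr1595.df))) (.node (.leaf (.bwd 7363 34 tpr619.df)) (.leaf (.fwd 7397 33 tpr631.df)))) (.node (.node (.node (.leaf (.bwd 7430 29 tpr637.df)) (.leaf (.fwd 7459 26 tpr675.df))) (.leaf (.fwd 7485 31 tpr1044.df))) (.node (.leaf (.fwd 7516 24 tpr1585.df)) (.leaf (.fwd 7540 37 tpr639.df)))))))) (.node (.node (.node (.node (.node (.node (.node (.leaf (.bwd 7577 31 tpr1044.df)) (.leaf (.bwd 7608 29 tpr1602.df))) (.leaf (.bwd 7637 21 tpr1045.df))) (.node (.node (.leaf (.fwd 7658 20 tpr505.df)) (.leaf (.fwd 7678 19 tpr616.df))) (.leaf (.fwd 7697 28 tpr627.df)))) (.node (.node (.node (.leaf (.bwd 7725 26 tpr516.df)) (.leaf (.bwd 7751 32 tpr17.df))) (.leaf (.fwd 7783 25 tpr644.df))) (.node (.leaf (.fwd 7808 28 tpr295.df))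 (.leaf (.bwd 7836 24 tpr1544.df))))) (.node (.node (.node (.node (.leaf (.bwd 7860 37 tpr1570.df)) (.leaf (.bwd 7897 30 tpr577.df))) (.leaf (.bwd 7927 43 tpr323.df))) (.node (.leaf (.bwd 7970 42 tpr1138.df)) (.leaf (.bwd 8012 29 tpr696.df)))) (.node (.node (.node (.leaf (.bwd 8041 33 tpr1099.df)) (.leaf (.bwd 8074 36 tpr547.df))) (.leaf (.fwd 8110 32 tpr550.df))) (.node (.leaf (.bwd 8142 37 tpr1052.df)) (.leaf (.bwd 8179 31 tpr1538.df)))))) (.node (.node (.node (.node (.node (.leaf (.bwd 8210 37 tpr1075.df)) (.leaf (.fwd 8247 35 tpr703.df))) (.leaf (.fwd 8282 37 tpr1052.df))) (.node (.node (.leaf (.fwd 8319 35 tpr1054.df)) (.leaf (.fwd 8354 33 tpr1550.df))) (.leaf (.fwd 8387 23 tpr1562.df)))) (.node (.node (.node (.leaf (.bwd 8410 38 tpr1558.df)) (.leaf (.fwd 8448 29 tpr1599.df))) (.leaf (.fwd 8477 42 tpr1568.df))) (.node (.leaf (.bwd 8519 24 tpr1060.df)) (.leaf (.fwd 8543 48 tpr1053.df)))))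 (.node (.node (.node (.node (.leaf (.bwd 8591 31 tpr1047.df)) (.leaf (.fwd 8622 38 tpr203.df))) (.leaf (.fwd 8660 31 tpr1047.df))) (.node (.leaf (.fwd 8691 34 tpr1061.df)) (.leaf (.bwd 8725 32 tpr1009.df)))) (.node (.node (.node (.leaf (.fwd 8757 31 tpr1589.df)) (.leaf (.bwd 8788 42 tpr1568.df))) (.leaf (.fwd 8830 34 tpr614.df))) (.node (.leaf (.bwd 8864 48 tpr1053.df)) (.leaf (.bwd 8912 29 tpr1046.df))))))) (.node (.node (.node (.node (.node (.node (.leaf (.bwd 8941 36 tpr1588.df)) (.leaf (.bwd 8977 31 tpr576.df))) (.leaf (.bwd 9008 34 tpr1577.df))) (.node (.node (.leaf (.bwd 9042 34 tpr1061.df)) (.leaf (.bwd 9076 35 tpr703.df))) (.leaf (.bwd 9111 38 tpr203.df)))) (.node (.node (.node (.leaf (.fwd 9149 32 tpr1546.df)) (.leaf (.fwd 9181 39 tpr514.df))) (.leaf (.bwd 9220 32 tpr620.df))) (.node (.leaf (.fwd 9252 31 tpr576.df)) (.leaf (.bwd 9283 29 tpr1599.df))))) (.node (.node (.node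 (.node (.leaf (.fwd 9312 23 tpr1556.df)) (.leaf (.fwd 9335 29 tpr623.df))) (.leaf (.bwd 9364 31 tpr704.df))) (.node (.leaf (.fwd 9395 23 tpr1541.df)) (.leaf (.fwd 9418 27 tpr977.df)))) (.node (.node (.node (.leaf (.fwd 9445 25 tpr1016.df)) (.leaf (.fwd 9470 25 tpr1598.df))) (.leaf (.bwd 9495 25 tpr1016.df))) (.node (.leaf (.bwd 9520 35 tpr1597.df)) (.leaf (.fwd 9555 41 tpr1126.df)))))) (.node (.node (.node (.node (.node (.leaf (.fwd 9596 35 tpr1597.df)) (.leaf (.bwd 9631 38 tpr1600.df))) (.leaf (.bwd 9669 31 tpr1601.df))) (.node (.leaf (.bwd 9700 25 tpr1598.df)) (.leaf (.bwd 9725 25 tpr106.df)))) (.node (.node (.node (.leaf (.fwd 9750 38 tpr1552.df)) (.leaf (.fwd 9788 44 tpr1228.df))) (.leaf (.fwd 9832 37 tpr681.df))) (.node (.leaf (.fwd 9869 30 tpr613.df)) (.leaf (.bwd 9899 39 tpr514.df))))) (.node (.node (.node (.node (.leaf (.fwd 9938 29 tpr1217.df)) (.leaf (.fwd 9967 48 tpr684.df)))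 (.leaf (.fwd 10015 29 tpr1602.df))) (.node (.leaf (.bwd 10044 31 tpr1589.df)) (.leaf (.bwd 10075 42 tpr612.df)))) (.node (.node (.node (.leaf (.fwd 10117 36 tpr665.df)) (.leaf (.fwd 10153 24 tpr1565.df))) (.leaf (.fwd 10177 31 tpr1538.df))) (.node (.leaf (.fwd 10208 30 tpr727.df)) (.leaf (.bwd 10238 36 tpr1566.df))))))))))

theorem iiNFzE2ByA3H3AyB2EzF_c : iiNFzE2ByA3H3AyB2EzF.all (itB (ng 49 nnNFzE2ByA3H3AyB2EzF)) = true := by decide +kernel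
theorem nbNFzE2ByA3H3AyB2EzF : nbB 49 10323 nnNFzE2ByA3H3AyB2EzF = true := by decide +kernel
theorem topNFzE2ByA3H3AyB2EzF : topY 10323 ttNFzE2ByA3H3AyB2EzF ceNFzE2ByA3H3AyB2EzF xNFzE2ByA3H3AyB2EzF iiNFzE2ByA3H3AyB2EzF = true := by decide +kernel

end MPb6R
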