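import Pool.Agent.Lib.MP_b6d339_lc.Cw3.JFzE2ByA3H2ByAzIzAyB2H3AyB2EzF
import Pool.Agent.Lib.MP_b6d339_lc.Cw3.JFzE2ByA3H2BzIzB3H3A2EzAyAyF
import Pool.Agent.Lib.MP_b6d339_lc.Cw3.JFzE2ByA3H2BzIzB3H3A2EzAyAzF
import Pool.Agent.Lib.MP_b6d339_lc.Cw3.JFzE2ByA3H3AyB2EzF
import Pool.Agent.Lib.MP_b6d339_lc.Cw3.T0
import Pool.Agent.Lib.MP_b6d339_lc.Cw3.T1
import Pool.Agent.Lib.MP_b6d339_lc.Cw3.T10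
import Pool.Agent.Lib.MP_b6d339_lc.Cw3.T11
import Pool.Agent.Lib.MP_b6d339_lc.Cw3.T12
import Pool.Agent.Lib.MP_b6d339_lc.Cw3.T13
import Pool.Agent.Lib.MP_b6d339_lc.Cw3.T14
import Pool.Agent.Lib.MP_b6d339_lc.Cw3.T15
import Pool.Agent.Lib.MP_b6d339_lc.Cw3.T16
import Pool.Agent.Lib.MP_b6d339_lc.Cw3.T17
import Pool.Agent.Lib.MP_b6d339_lc.Cw3.T18
import Pool.Agent.Lib.MP_b6d339_lc.Cw3.T19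
import Pool.Agent.Lib.MP_b6d339_lc.Cw3.T2
import Pool.Agent.Lib.MP_b6d339_lc.Cw3.T20
import Pool.Agent.Lib.MP_b6d339_lc.Cw3.T21
import Pool.Agent.Lib.MP_b6d339_lc.Cw3.T23
import Pool.Agent.Lib.MP_b6d339_lc.Cw3.T26
import Pool.Agent.Lib.MP_b6d339_lc.Cw3.T3
import Pool.Agent.Lib.MP_b6d339_lc.Cw3.T31
import Pool.Agent.Lib.MP_b6d339_lc.Cw3.T37
import Pool.Agent.Lib.MP_b6d339_lc.Cw3.T4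
import Pool.Agent.Lib.MP_b6d339_lc.Cw3.T5
import Pool.Agent.Lib.MP_b6d339_lc.Cw3.T6
import Pool.Agent.Lib.MP_b6d339_lc.Cw3.T7
import Pool.Agent.Lib.MP_b6d339_lc.Cw3.T8
import Pool.Agent.Lib.MP_b6d339_lc.Cw3.T9
import Pool.Agent.Lib.MP_b6d339_lc.Cw3.XL
import Pool.Agent.Lib.MP_b6d339_lc.Cw3.ZFzE2ByA3H2ByAzIzAyB2H3AyB2EzF_0
import Pool.Agent.Lib.MP_b6d339_lc.Cw3.ZFzE2ByA3H2ByAzIzAyB2H3AyB2EzF_1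
import Pool.Agent.Lib.MP_b6d339_lc.Cw3.ZFzE2ByA3H2ByAzIzAyB2H3AyB2EzF_10
import Pool.Agent.Lib.MP_b6d339_lc.Cw3.ZFzE2ByA3H2ByAzIzAyB2H3AyB2EzF_11
import Pool.Agent.Lib.MP_b6d339_lc.Cw3.ZFzE2ByA3H2ByAzIzAyB2H3AyB2EzF_12
import Pool.Agent.Lib.MP_b6d339_lc.Cw3.ZFzE2ByA3H2ByAzIzAyB2H3AyB2EzF_13
import Pool.Agent.Lib.MP_b6d339_lc.Cw3.ZFzE2ByA3H2ByAzIzAyB2H3AyB2EzF_14
import Pool.Agent.Lib.MP_b6d339_lc.Cw3.ZFzE2ByA3H2ByAzIzAyB2H3AyB2EzF_15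
import Pool.Agent.Lib.MP_b6d339_lc.Cw3.ZFzE2ByA3H2ByAzIzAyB2H3AyB2EzF_16
import Pool.Agent.Lib.MP_b6d339_lc.Cw3.ZFzE2ByA3H2ByAzIzAyB2H3AyB2EzF_17
import Pool.Agent.Lib.MP_b6d339_lc.Cw3.ZFzE2ByA3H2ByAzIzAyB2H3AyB2EzF_18
import Pool.Agent.Lib.MP_b6d339_lc.Cw3.ZFzE2ByA3H2ByAzIzAyB2H3AyB2EzF_19
import Pool.Agent.Lib.MP_b6d339_lc.Cw3.ZFzE2ByA3H2ByAzIzAyB2H3AyB2EzF_2
import Pool.Agent.Lib.MP_b6d339_lc.Cw3.ZFzE2ByA3H2ByAzIzAyB2H3AyB2EzF_3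
import Pool.Agent.Lib.MP_b6d339_lc.Cw3.ZFzE2ByA3H2ByAzIzAyB2H3AyB2EzF_4
import Pool.Agent.Lib.MP_b6d339_lc.Cw3.ZFzE2ByA3H2ByAzIzAyB2H3AyB2EzF_5
import Pool.Agent.Lib.MP_b6d339_lc.Cw3.ZFzE2ByA3H2ByAzIzAyB2H3AyB2EzF_6
import Pool.Agent.Lib.MP_b6d339_lc.Cw3.ZFzE2ByA3H2ByAzIzAyB2H3AyB2EzF_7
import Pool.Agent.Lib.MP_b6d339_lc.Cw3.ZFzE2ByA3H2ByAzIzAyB2H3AyB2EzF_8
import Pool.Agent.Lib.MP_b6d339_lc.Cw3.ZFzE2ByA3H2ByAzIzAyB2H3AyB2EzF_9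
import Pool.Agent.Lib.MP_b6d339_lc.Cw3.ZFzE2ByA3H2BzIzB3H3A2EzAyAyF_0
import Pool.Agent.Lib.MP_b6d339_lc.Cw3.ZFzE2ByA3H2BzIzB3H3A2EzAyAyF_1
import Pool.Agent.Lib.MP_b6d339_lc.Cw3.ZFzE2ByA3H2BzIzB3H3A2EzAyAzF_0
import Pool.Agent.Lib.MP_b6d339_lc.Cw3.ZFzE2ByA3H2BzIzB3H3A2EzAyAzF_1
import Pool.Agent.Lib.MP_b6d339_lc.Cw3.ZFzE2ByA3H3AyB2EzF_0
import Pool.Agent.Lib.MP_b6d339_lc.Cw3.ZFzE2ByA3H3AyB2EzF_1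
import Pool.Agent.Lib.MP_b6d339_lc.Cw3.ZFzE2ByA3H3AyB2EzF_10
import Pool.Agent.Lib.MP_b6d339_lc.Cw3.ZFzE2ByA3H3AyB2EzF_11
import Pool.Agent.Lib.MP_b6d339_lc.Cw3.ZFzE2ByA3H3AyB2EzF_12
import Pool.Agent.Lib.MP_b6d339_lc.Cw3.ZFzE2ByA3H3AyB2EzF_13
import Pool.Agent.Lib.MP_b6d339_lc.Cw3.ZFzE2ByA3H3AyB2EzF_14
import Pool.Agent.Lib.MP_b6d339_lc.Cw3.ZFzE2ByA3H3AyB2EzF_15
import Pool.Agent.Lib.MP_b6d339_lc.Cw3.ZFzE2ByA3H3AyB2EzF_16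
import Pool.Agent.Lib.MP_b6d339_lc.Cw3.ZFzE2ByA3H3AyB2EzF_17
import Pool.Agent.Lib.MP_b6d339_lc.Cw3.ZFzE2ByA3H3AyB2EzF_18
import Pool.Agent.Lib.MP_b6d339_lc.Cw3.ZFzE2ByA3H3AyB2EzF_19
import Pool.Agent.Lib.MP_b6d339_lc.Cw3.ZFzE2ByA3H3AyB2EzF_2
import Pool.Agent.Lib.MP_b6d339_lc.Cw3.ZFzE2ByA3H3AyB2EzF_20
import Pool.Agent.Lib.MP_b6d339_lc.Cw3.ZFzE2ByA3H3AyB2EzF_3
import Pool.Agent.Lib.MP_b6d339_lc.Cw3.ZFzE2ByA3H3AyB2EzF_4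
import Pool.Agent.Lib.MP_b6d339_lc.Cw3.ZFzE2ByA3H3AyB2EzF_5
import Pool.Agent.Lib.MP_b6d339_lc.Cw3.ZFzE2ByA3H3AyB2EzF_6
import Pool.Agent.Lib.MP_b6d339_lc.Cw3.ZFzE2ByA3H3AyB2EzF_7
import Pool.Agent.Lib.MP_b6d339_lc.Cw3.ZFzE2ByA3H3AyB2EzF_8
import Pool.Agent.Lib.MP_b6d339_lc.Cw3.ZFzE2ByA3H3AyB2EzF_9
import Pool.Agent.Lib.MP_b6d339_lc.Pos.XTreeC
import Pool.Agent.Lib.MP_b6d339_lc.Pos.YQ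

/-!
# Erdős 592, three levels: classes of words
-/

namespace MPb6R

open MPb6P

theorem iiNFzE2ByA3H2ByAzIzAyB2H3AyB2EzF_k : iiNFzE2ByA3H2ByAzIzAyB2H3AyB2EzF.Fa (Itm.ok 206) := (BT.Fa_mk (BT.Fa_mk (BT.Fa_mk (BT.Fa_mk (BT.Fa_mk (BT.Fa_mk (BT.Fa_mk (BT.Fa_mk (BT.Fa_mk (BT.Fa_leaf (P := Itm.ok 206) (iqb tpr8_c)) (BT.Fa_leaf (P := Itm.ok 206) (iqf tpr8_c))) (BT.Fa_leaf (P := Itm.ok 206) (iqf tpr17_c))) (BT.Fa_mk (BT.Fa_mk (BT.Fa_leaf (P := Itm.ok 206) (iqf tpr555_c)) (BT.Fa_leaf (P := Itm.ok 206) (iqb tpr17_c))) (BT.Fa_leaf (P := Itm.ok 206) (iqb tpr22_c)))) (BT.Fa_mk (BT.Fa_mk (BT.Fa_mk (BT.Fa_leaf (P := Itm.ok 206) (iqf tpr82_c)) (BT.Fa_leaf (P := Itm.ok 206) (iqb tpr555_c))) (BT.Fa_leaf (P := Itm.ok 206) (iqf tpr518_c))) (BT.Fa_mk (BT.Fa_mk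 (BT.Fa_leaf (P := Itm.ok 206) (iqf tpr617_c)) (BT.Fa_leaf (P := Itm.ok 206) (iqb tpr527_c))) (BT.Fa_leaf (P := Itm.ok 206) (iqb tpr617_c))))) (BT.Fa_mk (BT.Fa_mk (BT.Fa_mk (BT.Fa_mk (BT.Fa_leaf (P := Itm.ok 206) (iqb tpr168_c)) (BT.Fa_leaf (P := Itm.ok 206) (iqb tpr656_c))) (BT.Fa_leaf (P := Itm.ok 206) (iqf tpr606_c))) (BT.Fa_mk (BT.Fa_mk (BT.Fa_leaf (P := Itm.ok 206) (iqf tpr607_c)) (BT.Fa_leaf (P := Itm.ok 206) (iqb tpr518_c))) (BT.Fa_leaf (P := Itm.ok 206) (iqb tpr609_c)))) (BT.Fa_mk (BT.Fa_mk (BT.Fa_mk (BT.Fa_leaf (P := Itm.ok 206) (iqb tpr607_c)) (BT.Fa_leaf (P := Itm.ok 206) (iqf tpr625_c))) (BT.Fa_leaf (P := Itm.ok 206) (iqb tpr608_c))) (BT.Fa_mk (BT.Fa_mk (BT.Fa_leaf (P := Itm.ok 206) (iqb tpr701_c)) (BT.Fa_leaf (P := Itm.ok 206)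 (iqf tpr614_c))) (BT.Fa_leaf (P := Itm.ok 206) (iqf tpr90_c)))))) (BT.Fa_mk (BT.Fa_mk (BT.Fa_mk (BT.Fa_mk (BT.Fa_mk (BT.Fa_leaf (P := Itm.ok 206) (iqf tpr701_c)) (BT.Fa_leaf (P := Itm.ok 206) (iqf tpr1021_c))) (BT.Fa_leaf (P := Itm.ok 206) (iqb tpr501_c))) (BT.Fa_mk (BT.Fa_mk (BT.Fa_leaf (P := Itm.ok 206) (iqb tpr546_c)) (BT.Fa_leaf (P := Itm.ok 206) (iqb tpr1013_c))) (BT.Fa_leaf (P := Itm.ok 206) (iqb tpr568_c)))) (BT.Fa_mk (BT.Fa_mk (BT.Fa_mk (BT.Fa_leaf (P := Itm.ok 206) (iqf tpr700_c)) (BT.Fa_leaf (P := Itm.ok 206) (iqb tpr577_c))) (BT.Fa_leaf (P := Itm.ok 206) (iqb tpr614_c))) (BT.Fa_mk (BT.Fa_mk (BT.Fa_leaf (P := Itm.ok 206) (iqf tpr683_c)) (BT.Fa_leaf (P := Itm.ok 206) (iqf tpr679_c))) (BT.Fa_leaf (P := Itm.ok 206) (iqb tpr5_c)))))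 (BT.Fa_mk (BT.Fa_mk (BT.Fa_mk (BT.Fa_mk (BT.Fa_leaf (P := Itm.ok 206) (iqb tpr780_c)) (BT.Fa_leaf (P := Itm.ok 206) (iqf tpr626_c))) (BT.Fa_leaf (P := Itm.ok 206) (iqb tpr563_c))) (BT.Fa_mk (BT.Fa_mk (BT.Fa_leaf (P := Itm.ok 206) (iqb tpr1023_c)) (BT.Fa_leaf (P := Itm.ok 206) (iqb tpr635_c))) (BT.Fa_leaf (P := Itm.ok 206) (iqf tpr635_c)))) (BT.Fa_mk (BT.Fa_mk (BT.Fa_mk (BT.Fa_leaf (P := Itm.ok 206) (iqf tpr1015_c)) (BT.Fa_leaf (P := Itm.ok 206) (iqf tpr210_c))) (BT.Fa_leaf (P := Itm.ok 206) (iqb tpr596_c))) (BT.Fa_mk (BT.Fa_leaf (P := Itm.ok 206) (iqf tpr596_c)) (BT.Fa_leaf (P := Itm.ok 206) (iqb tpr1099_c))))))) (BT.Fa_mk (BT.Fa_mk (BT.Fa_mk (BT.Fa_mk (BT.Fa_mk (BT.Fa_mk (BT.Fa_leaf (P := Itm.ok 206) (iqf tpr1050_c)) (BT.Fa_leaf (P :=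 Itm.ok 206) (iqb tpr550_c))) (BT.Fa_leaf (P := Itm.ok 206) (iqb tpr505_c))) (BT.Fa_mk (BT.Fa_mk (BT.Fa_leaf (P := Itm.ok 206) (iqf tpr642_c)) (BT.Fa_leaf (P := Itm.ok 206) (iqf tpr239_c))) (BT.Fa_leaf (P := Itm.ok 206) (iqf tpr506_c)))) (BT.Fa_mk (BT.Fa_mk (BT.Fa_mk (BT.Fa_leaf (P := Itm.ok 206) (iqb tpr606_c)) (BT.Fa_leaf (P := Itm.ok 206) (iqb tpr247_c))) (BT.Fa_leaf (P := Itm.ok 206) (iqb tpr589_c))) (BT.Fa_mk (BT.Fa_mk (BT.Fa_leaf (P := Itm.ok 206) (iqb tpr236_c)) (BT.Fa_leaf (P := Itm.ok 206) (iqb tpr526_c))) (BT.Fa_leaf (P := Itm.ok 206) (iqb tpr295_c))))) (BT.Fa_mk (BT.Fa_mk (BT.Fa_mk (BT.Fa_mk (BT.Fa_leaf (P := Itm.ok 206) (iqf tpr640_c)) (BT.Fa_leaf (P := Itm.ok 206) (iqb tpr82_c))) (BT.Fa_leaf (P := Itm.ok 206) (iqf tpr22_c)))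 (BT.Fa_mk (BT.Fa_mk (BT.Fa_leaf (P := Itm.ok 206) (iqb tpr516_c)) (BT.Fa_leaf (P := Itm.ok 206) (iqf tpr505_c))) (BT.Fa_leaf (P := Itm.ok 206) (iqb tpr625_c)))) (BT.Fa_mk (BT.Fa_mk (BT.Fa_mk (BT.Fa_leaf (P := Itm.ok 206) (iqb tpr9_c)) (BT.Fa_leaf (P := Itm.ok 206) (iqf tpr608_c))) (BT.Fa_leaf (P := Itm.ok 206) (iqb tpr618_c))) (BT.Fa_mk (BT.Fa_mk (BT.Fa_leaf (P := Itm.ok 206) (iqf tpr223_c)) (BT.Fa_leaf (P := Itm.ok 206) (iqf tpr54_c))) (BT.Fa_leaf (P := Itm.ok 206) (iqf tpr768_c)))))) (BT.Fa_mk (BT.Fa_mk (BT.Fa_mk (BT.Fa_mk (BT.Fa_mk (BT.Fa_leaf (P := Itm.ok 206) (iqb tpr18_c)) (BT.Fa_leaf (P := Itm.ok 206) (iqf tpr23_c))) (BT.Fa_leaf (P := Itm.ok 206) (iqf tpr636_c))) (BT.Fa_mk (BT.Fa_mk (BT.Fa_leaf (P := Itm.ok 206) (iqf tpr1063_c))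 (BT.Fa_leaf (P := Itm.ok 206) (iqb tpr642_c))) (BT.Fa_leaf (P := Itm.ok 206) (iqf tpr569_c)))) (BT.Fa_mk (BT.Fa_mk (BT.Fa_mk (BT.Fa_leaf (P := Itm.ok 206) (iqb tpr453_c)) (BT.Fa_leaf (P := Itm.ok 206) (iqf tpr605_c))) (BT.Fa_leaf (P := Itm.ok 206) (iqf tpr562_c))) (BT.Fa_mk (BT.Fa_mk (BT.Fa_leaf (P := Itm.ok 206) (iqf tpr577_c)) (BT.Fa_leaf (P := Itm.ok 206) (iqf tpr618_c))) (BT.Fa_leaf (P := Itm.ok 206) (iqf tpr1013_c))))) (BT.Fa_mk (BT.Fa_mk (BT.Fa_mk (BT.Fa_mk (BT.Fa_leaf (P := Itm.ok 206) (iqb tpr54_c)) (BT.Fa_leaf (P := Itm.ok 206) (iqf tpr704_c))) (BT.Fa_leaf (P := Itm.ok 206) (iqb tpr89_c))) (BT.Fa_mk (BT.Fa_mk (BT.Fa_leaf (P := Itm.ok 206) (iqf tpr527_c)) (BT.Fa_leaf (P := Itm.ok 206) (iqf tpr44_c))) (BT.Fa_leaf (P := Itm.ok 206)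 (iqf tpr236_c)))) (BT.Fa_mk (BT.Fa_mk (BT.Fa_mk (BT.Fa_leaf (P := Itm.ok 206) (iqf tpr609_c)) (BT.Fa_leaf (P := Itm.ok 206) (iqf tpr620_c))) (BT.Fa_leaf (P := Itm.ok 206) (iqf tpr556_c))) (BT.Fa_mk (BT.Fa_leaf (P := Itm.ok 206) (iqf tpr576_c)) (BT.Fa_leaf (P := Itm.ok 206) (iqf tpr969_c)))))))) (BT.Fa_mk (BT.Fa_mk (BT.Fa_mk (BT.Fa_mk (BT.Fa_mk (BT.Fa_mk (BT.Fa_mk (BT.Fa_leaf (P := Itm.ok 206) (iqf tpr1054_c)) (BT.Fa_leaf (P := Itm.ok 206) (iqf tpr516_c))) (BT.Fa_leaf (P := Itm.ok 206) (iqb tpr612_c))) (BT.Fa_mk (BT.Fa_mk (BT.Fa_leaf (P := Itm.ok 206) (iqb tpr506_c)) (BT.Fa_leaf (P := Itm.ok 206) (iqf tpr62_c))) (BT.Fa_leaf (P := Itm.ok 206) (iqf tpr583_c)))) (BT.Fa_mk (BT.Fa_mk (BT.Fa_mk (BT.Fa_leaf (P := Itm.ok 206) (iqf tpr572_c)) (BT.Fa_leaf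 (P := Itm.ok 206) (iqb tpr429_c))) (BT.Fa_leaf (P := Itm.ok 206) (iqb tpr627_c))) (BT.Fa_mk (BT.Fa_mk (BT.Fa_leaf (P := Itm.ok 206) (iqf tpr453_c)) (BT.Fa_leaf (P := Itm.ok 206) (iqf tpr419_c))) (BT.Fa_leaf (P := Itm.ok 206) (iqf tpr977_c))))) (BT.Fa_mk (BT.Fa_mk (BT.Fa_mk (BT.Fa_mk (BT.Fa_leaf (P := Itm.ok 206) (iqb tpr559_c)) (BT.Fa_leaf (P := Itm.ok 206) (iqb tpr1051_c))) (BT.Fa_leaf (P := Itm.ok 206) (iqb tpr730_c))) (BT.Fa_mk (BT.Fa_mk (BT.Fa_leaf (P := Itm.ok 206) (iqb tpr517_c)) (BT.Fa_leaf (P := Itm.ok 206) (iqb tpr294_c))) (BT.Fa_leaf (P := Itm.ok 206) (iqf tpr568_c)))) (BT.Fa_mk (BT.Fa_mk (BT.Fa_mk (BT.Fa_leaf (P := Itm.ok 206) (iqb tpr640_c)) (BT.Fa_leaf (P := Itm.ok 206) (iqf tpr610_c))) (BT.Fa_leaf (P := Itm.ok 206) (iqb tpr239_c)))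 (BT.Fa_mk (BT.Fa_mk (BT.Fa_leaf (P := Itm.ok 206) (iqb tpr210_c)) (BT.Fa_leaf (P := Itm.ok 206) (iqb tpr508_c))) (BT.Fa_leaf (P := Itm.ok 206) (iqb tpr572_c)))))) (BT.Fa_mk (BT.Fa_mk (BT.Fa_mk (BT.Fa_mk (BT.Fa_mk (BT.Fa_leaf (P := Itm.ok 206) (iqb tpr624_c)) (BT.Fa_leaf (P := Itm.ok 206) (iqb tpr703_c))) (BT.Fa_leaf (P := Itm.ok 206) (iqf tpr675_c))) (BT.Fa_mk (BT.Fa_mk (BT.Fa_leaf (P := Itm.ok 206) (iqb tpr511_c)) (BT.Fa_leaf (P := Itm.ok 206) (iqf tpr684_c))) (BT.Fa_leaf (P := Itm.ok 206) (iqb tpr573_c)))) (BT.Fa_mk (BT.Fa_mk (BT.Fa_mk (BT.Fa_leaf (P := Itm.ok 206) (iqf tpr615_c)) (BT.Fa_leaf (P := Itm.ok 206) (iqb tpr545_c))) (BT.Fa_leaf (P := Itm.ok 206) (iqf tpr644_c))) (BT.Fa_mk (BT.Fa_mk (BT.Fa_leaf (P := Itm.ok 206) (iqf tpr619_c))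 (BT.Fa_leaf (P := Itm.ok 206) (iqf tpr613_c))) (BT.Fa_leaf (P := Itm.ok 206) (iqf tpr198_c))))) (BT.Fa_mk (BT.Fa_mk (BT.Fa_mk (BT.Fa_mk (BT.Fa_leaf (P := Itm.ok 206) (iqb tpr519_c)) (BT.Fa_leaf (P := Itm.ok 206) (iqb tpr203_c))) (BT.Fa_leaf (P := Itm.ok 206) (iqf tpr631_c))) (BT.Fa_mk (BT.Fa_mk (BT.Fa_leaf (P := Itm.ok 206) (iqf tpr745_c)) (BT.Fa_leaf (P := Itm.ok 206) (iqb tpr1063_c))) (BT.Fa_leaf (P := Itm.ok 206) (iqf tpr550_c)))) (BT.Fa_mk (BT.Fa_mk (BT.Fa_mk (BT.Fa_leaf (P := Itm.ok 206) (iqf tpr1064_c)) (BT.Fa_leaf (P := Itm.ok 206) (iqf tpr1728_c))) (BT.Fa_leaf (P := Itm.ok 206) (iqb tpr610_c))) (BT.Fa_mk (BT.Fa_leaf (P := Itm.ok 206) (iqf tpr547_c)) (BT.Fa_leaf (P := Itm.ok 206) (iqf tpr508_c))))))) (BT.Fa_mk (BT.Fa_mk (BT.Fa_mk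 (BT.Fa_mk (BT.Fa_mk (BT.Fa_mk (BT.Fa_leaf (P := Itm.ok 206) (iqf tpr429_c)) (BT.Fa_leaf (P := Itm.ok 206) (iqb tpr91_c))) (BT.Fa_leaf (P := Itm.ok 206) (iqf tpr1196_c))) (BT.Fa_mk (BT.Fa_mk (BT.Fa_leaf (P := Itm.ok 206) (iqf tpr564_c)) (BT.Fa_leaf (P := Itm.ok 206) (iqb tpr639_c))) (BT.Fa_leaf (P := Itm.ok 206) (iqb tpr620_c)))) (BT.Fa_mk (BT.Fa_mk (BT.Fa_mk (BT.Fa_leaf (P := Itm.ok 206) (iqb tpr623_c)) (BT.Fa_leaf (P := Itm.ok 206) (iqf tpr222_c))) (BT.Fa_leaf (P := Itm.ok 206) (iqf tpr1016_c))) (BT.Fa_mk (BT.Fa_mk (BT.Fa_leaf (P := Itm.ok 206) (iqb tpr1016_c)) (BT.Fa_leaf (P := Itm.ok 206) (iqf tpr1032_c))) (BT.Fa_leaf (P := Itm.ok 206) (iqf tpr592_c))))) (BT.Fa_mk (BT.Fa_mk (BT.Fa_mk (BT.Fa_mk (BT.Fa_leaf (P := Itm.ok 206) (iqf tpr548_c))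 (BT.Fa_leaf (P := Itm.ok 206) (iqf tpr517_c))) (BT.Fa_leaf (P := Itm.ok 206) (iqb tpr251_c))) (BT.Fa_mk (BT.Fa_mk (BT.Fa_leaf (P := Itm.ok 206) (iqb tpr562_c)) (BT.Fa_leaf (P := Itm.ok 206) (iqf tpr680_c))) (BT.Fa_leaf (P := Itm.ok 206) (iqb tpr582_c)))) (BT.Fa_mk (BT.Fa_mk (BT.Fa_mk (BT.Fa_leaf (P := Itm.ok 206) (iqb tpr509_c)) (BT.Fa_leaf (P := Itm.ok 206) (iqb tpr583_c))) (BT.Fa_leaf (P := Itm.ok 206) (iqb tpr683_c))) (BT.Fa_mk (BT.Fa_leaf (P := Itm.ok 206) (iqf tpr582_c)) (BT.Fa_leaf (P := Itm.ok 206) (iqb tpr605_c)))))) (BT.Fa_mk (BT.Fa_mk (BT.Fa_mk (BT.Fa_mk (BT.Fa_mk (BT.Fa_leaf (P := Itm.ok 206) (iqb tpr548_c)) (BT.Fa_leaf (P := Itm.ok 206) (iqb tpr641_c))) (BT.Fa_leaf (P := Itm.ok 206) (iqf tpr1099_c))) (BT.Fa_mk (BT.Fa_mk (BT.Fa_leaf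 (P := Itm.ok 206) (iqb tpr223_c)) (BT.Fa_leaf (P := Itm.ok 206) (iqb tpr597_c))) (BT.Fa_leaf (P := Itm.ok 206) (iqb tpr1126_c)))) (BT.Fa_mk (BT.Fa_mk (BT.Fa_mk (BT.Fa_leaf (P := Itm.ok 206) (iqb tpr1064_c)) (BT.Fa_leaf (P := Itm.ok 206) (iqb tpr678_c))) (BT.Fa_leaf (P := Itm.ok 206) (iqb tpr1028_c))) (BT.Fa_mk (BT.Fa_mk (BT.Fa_leaf (P := Itm.ok 206) (iqb tpr569_c)) (BT.Fa_leaf (P := Itm.ok 206) (iqb tpr676_c))) (BT.Fa_leaf (P := Itm.ok 206) (iqb tpr593_c))))) (BT.Fa_mk (BT.Fa_mk (BT.Fa_mk (BT.Fa_mk (BT.Fa_leaf (P := Itm.ok 206) (iqb tpr680_c)) (BT.Fa_leaf (P := Itm.ok 206) (iqb tpr658_c))) (BT.Fa_leaf (P := Itm.ok 206) (iqf tpr589_c))) (BT.Fa_mk (BT.Fa_mk (BT.Fa_leaf (P := Itm.ok 206) (iqb tpr1015_c)) (BT.Fa_leaf (P := Itm.ok 206) (iqf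 tpr247_c))) (BT.Fa_leaf (P := Itm.ok 206) (iqf tpr612_c)))) (BT.Fa_mk (BT.Fa_mk (BT.Fa_mk (BT.Fa_leaf (P := Itm.ok 206) (iqb tpr547_c)) (BT.Fa_leaf (P := Itm.ok 206) (iqf tpr1055_c))) (BT.Fa_leaf (P := Itm.ok 206) (iqb tpr51_c))) (BT.Fa_mk (BT.Fa_leaf (P := Itm.ok 206) (iqf tpr235_c)) (BT.Fa_leaf (P := Itm.ok 206) (iqb tpr704_c))))))))) (BT.Fa_mk (BT.Fa_mk (BT.Fa_mk (BT.Fa_mk (BT.Fa_mk (BT.Fa_mk (BT.Fa_mk (BT.Fa_mk (BT.Fa_leaf (P := Itm.ok 206) (iqf tpr502_c)) (BT.Fa_leaf (P := Itm.ok 206) (iqb tpr1077_c))) (BT.Fa_leaf (P := Itm.ok 206) (iqb tpr514_c))) (BT.Fa_mk (BT.Fa_mk (BT.Fa_leaf (P := Itm.ok 206) (iqf tpr523_c)) (BT.Fa_leaf (P := Itm.ok 206) (iqb tpr875_c))) (BT.Fa_leaf (P := Itm.ok 206) (iqf tpr1053_c)))) (BT.Fa_mk (BT.Fa_mk (BT.Fa_mk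 (BT.Fa_leaf (P := Itm.ok 206) (iqf tpr983_c)) (BT.Fa_leaf (P := Itm.ok 206) (iqb tpr554_c))) (BT.Fa_leaf (P := Itm.ok 206) (iqf tpr251_c))) (BT.Fa_mk (BT.Fa_mk (BT.Fa_leaf (P := Itm.ok 206) (iqb tpr734_c)) (BT.Fa_leaf (P := Itm.ok 206) (iqb tpr1065_c))) (BT.Fa_leaf (P := Itm.ok 206) (iqf tpr623_c))))) (BT.Fa_mk (BT.Fa_mk (BT.Fa_mk (BT.Fa_mk (BT.Fa_leaf (P := Itm.ok 206) (iqb tpr721_c)) (BT.Fa_leaf (P := Itm.ok 206) (iqf tpr294_c))) (BT.Fa_leaf (P := Itm.ok 206) (iqf tpr1044_c))) (BT.Fa_mk (BT.Fa_mk (BT.Fa_leaf (P := Itm.ok 206) (iqf tpr1009_c)) (BT.Fa_leaf (P := Itm.ok 206) (iqb tpr727_c))) (BT.Fa_leaf (P := Itm.ok 206) (iqf tpr627_c)))) (BT.Fa_mk (BT.Fa_mk (BT.Fa_mk (BT.Fa_leaf (P := Itm.ok 206) (iqb tpr659_c)) (BT.Fa_leaf (P := Itm.ok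 206) (iqb tpr692_c))) (BT.Fa_leaf (P := Itm.ok 206) (iqb tpr584_c))) (BT.Fa_mk (BT.Fa_mk (BT.Fa_leaf (P := Itm.ok 206) (iqb tpr636_c)) (BT.Fa_leaf (P := Itm.ok 206) (iqf tpr1040_c))) (BT.Fa_leaf (P := Itm.ok 206) (iqb tpr1056_c)))))) (BT.Fa_mk (BT.Fa_mk (BT.Fa_mk (BT.Fa_mk (BT.Fa_mk (BT.Fa_leaf (P := Itm.ok 206) (iqb tpr619_c)) (BT.Fa_leaf (P := Itm.ok 206) (iqb tpr1045_c))) (BT.Fa_leaf (P := Itm.ok 206) (iqf tpr1066_c))) (BT.Fa_mk (BT.Fa_mk (BT.Fa_leaf (P := Itm.ok 206) (iqb tpr1061_c)) (BT.Fa_leaf (P := Itm.ok 206) (iqb tpr615_c))) (BT.Fa_leaf (P := Itm.ok 206) (iqb tpr1062_c)))) (BT.Fa_mk (BT.Fa_mk (BT.Fa_mk (BT.Fa_leaf (P := Itm.ok 206) (iqb tpr681_c)) (BT.Fa_leaf (P := Itm.ok 206) (iqb tpr1047_c))) (BT.Fa_leaf (P := Itm.ok 206) (iqf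 tpr1058_c))) (BT.Fa_mk (BT.Fa_mk (BT.Fa_leaf (P := Itm.ok 206) (iqf tpr1239_c)) (BT.Fa_leaf (P := Itm.ok 206) (iqb tpr628_c))) (BT.Fa_leaf (P := Itm.ok 206) (iqf tpr536_c))))) (BT.Fa_mk (BT.Fa_mk (BT.Fa_mk (BT.Fa_mk (BT.Fa_leaf (P := Itm.ok 206) (iqb tpr576_c)) (BT.Fa_leaf (P := Itm.ok 206) (iqf tpr693_c))) (BT.Fa_leaf (P := Itm.ok 206) (iqb tpr1052_c))) (BT.Fa_mk (BT.Fa_mk (BT.Fa_leaf (P := Itm.ok 206) (iqf tpr1052_c)) (BT.Fa_leaf (P := Itm.ok 206) (iqb tpr675_c))) (BT.Fa_leaf (P := Itm.ok 206) (iqb tpr502_c)))) (BT.Fa_mk (BT.Fa_mk (BT.Fa_mk (BT.Fa_leaf (P := Itm.ok 206) (iqf tpr1056_c)) (BT.Fa_leaf (P := Itm.ok 206) (iqf tpr1047_c))) (BT.Fa_leaf (P := Itm.ok 206) (iqb tpr1058_c))) (BT.Fa_mk (BT.Fa_leaf (P := Itm.ok 206) (iqb tpr1266_c))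 (BT.Fa_leaf (P := Itm.ok 206) (iqb tpr1060_c))))))) (BT.Fa_mk (BT.Fa_mk (BT.Fa_mk (BT.Fa_mk (BT.Fa_mk (BT.Fa_mk (BT.Fa_leaf (P := Itm.ok 206) (iqf tpr1061_c)) (BT.Fa_leaf (P := Itm.ok 206) (iqb tpr2978_c))) (BT.Fa_leaf (P := Itm.ok 206) (iqf tpr545_c))) (BT.Fa_mk (BT.Fa_mk (BT.Fa_leaf (P := Itm.ok 206) (iqb tpr966_c)) (BT.Fa_leaf (P := Itm.ok 206) (iqf tpr509_c))) (BT.Fa_leaf (P := Itm.ok 206) (iqb tpr637_c)))) (BT.Fa_mk (BT.Fa_mk (BT.Fa_mk (BT.Fa_leaf (P := Itm.ok 206) (iqf tpr1195_c)) (BT.Fa_leaf (P := Itm.ok 206) (iqf tpr1227_c))) (BT.Fa_leaf (P := Itm.ok 206) (iqb tpr1225_c))) (BT.Fa_mk (BT.Fa_mk (BT.Fa_leaf (P := Itm.ok 206) (iqb tpr638_c)) (BT.Fa_leaf (P := Itm.ok 206) (iqf tpr203_c))) (BT.Fa_leaf (P := Itm.ok 206) (iqf tpr611_c)))))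 (BT.Fa_mk (BT.Fa_mk (BT.Fa_mk (BT.Fa_mk (BT.Fa_leaf (P := Itm.ok 206) (iqf tpr511_c)) (BT.Fa_leaf (P := Itm.ok 206) (iqf tpr519_c))) (BT.Fa_leaf (P := Itm.ok 206) (iqf tpr1202_c))) (BT.Fa_mk (BT.Fa_mk (BT.Fa_leaf (P := Itm.ok 206) (iqf tpr681_c)) (BT.Fa_leaf (P := Itm.ok 206) (iqf tpr1280_c))) (BT.Fa_leaf (P := Itm.ok 206) (iqb tpr62_c)))) (BT.Fa_mk (BT.Fa_mk (BT.Fa_mk (BT.Fa_leaf (P := Itm.ok 206) (iqf tpr1181_c)) (BT.Fa_leaf (P := Itm.ok 206) (iqb tpr557_c))) (BT.Fa_leaf (P := Itm.ok 206) (iqf tpr526_c))) (BT.Fa_mk (BT.Fa_leaf (P := Itm.ok 206) (iqb tpr684_c)) (BT.Fa_leaf (P := Itm.ok 206) (iqf tpr962_c)))))) (BT.Fa_mk (BT.Fa_mk (BT.Fa_mk (BT.Fa_mk (BT.Fa_mk (BT.Fa_leaf (P := Itm.ok 206) (iqf tpr9_c)) (BT.Fa_leaf (P := Itm.ok 206) (iqf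 tpr188_c))) (BT.Fa_leaf (P := Itm.ok 206) (iqb tpr1024_c))) (BT.Fa_mk (BT.Fa_mk (BT.Fa_leaf (P := Itm.ok 206) (iqb tpr644_c)) (BT.Fa_leaf (P := Itm.ok 206) (iqf tpr739_c))) (BT.Fa_leaf (P := Itm.ok 206) (iqb tpr737_c)))) (BT.Fa_mk (BT.Fa_mk (BT.Fa_mk (BT.Fa_leaf (P := Itm.ok 206) (iqb tpr611_c)) (BT.Fa_leaf (P := Itm.ok 206) (iqf tpr2481_c))) (BT.Fa_leaf (P := Itm.ok 206) (iqf tpr1059_c))) (BT.Fa_mk (BT.Fa_mk (BT.Fa_leaf (P := Itm.ok 206) (iqb tpr962_c)) (BT.Fa_leaf (P := Itm.ok 206) (iqf tpr730_c))) (BT.Fa_leaf (P := Itm.ok 206) (iqf tpr168_c))))) (BT.Fa_mk (BT.Fa_mk (BT.Fa_mk (BT.Fa_mk (BT.Fa_leaf (P := Itm.ok 206) (iqf tpr89_c)) (BT.Fa_leaf (P := Itm.ok 206) (iqf tpr639_c))) (BT.Fa_leaf (P := Itm.ok 206) (iqf tpr721_c))) (BT.Fa_mk (BT.Fa_mk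 (BT.Fa_leaf (P := Itm.ok 206) (iqf tpr1219_c)) (BT.Fa_leaf (P := Itm.ok 206) (iqb tpr1219_c))) (BT.Fa_leaf (P := Itm.ok 206) (iqf tpr1103_c)))) (BT.Fa_mk (BT.Fa_mk (BT.Fa_mk (BT.Fa_leaf (P := Itm.ok 206) (iqb tpr1040_c)) (BT.Fa_leaf (P := Itm.ok 206) (iqf tpr1279_c))) (BT.Fa_leaf (P := Itm.ok 206) (iqb tpr1218_c))) (BT.Fa_mk (BT.Fa_leaf (P := Itm.ok 206) (iqb tpr2979_c)) (BT.Fa_leaf (P := Itm.ok 206) (iqb tpr4_c)))))))) (BT.Fa_mk (BT.Fa_mk (BT.Fa_mk (BT.Fa_mk (BT.Fa_mk (BT.Fa_mk (BT.Fa_mk (BT.Fa_leaf (P := Itm.ok 206) (iqb tpr11_c)) (BT.Fa_leaf (P := Itm.ok 206) (iqf tpr4_c))) (BT.Fa_leaf (P := Itm.ok 206) (iqf tpr11_c))) (BT.Fa_mk (BT.Fa_mk (BT.Fa_leaf (P := Itm.ok 206) (iqb tpr1106_c)) (BT.Fa_leaf (P := Itm.ok 206) (iqf tpr1023_c))) (BT.Fa_leaf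 (P := Itm.ok 206) (iqf tpr1565_c)))) (BT.Fa_mk (BT.Fa_mk (BT.Fa_mk (BT.Fa_leaf (P := Itm.ok 206) (iqb tpr2980_c)) (BT.Fa_leaf (P := Itm.ok 206) (iqf tpr656_c))) (BT.Fa_leaf (P := Itm.ok 206) (iqb tpr90_c))) (BT.Fa_mk (BT.Fa_mk (BT.Fa_leaf (P := Itm.ok 206) (iqf tpr573_c)) (BT.Fa_leaf (P := Itm.ok 206) (iqf tpr501_c))) (BT.Fa_leaf (P := Itm.ok 206) (iqb tpr222_c))))) (BT.Fa_mk (BT.Fa_mk (BT.Fa_mk (BT.Fa_mk (BT.Fa_leaf (P := Itm.ok 206) (iqf tpr18_c)) (BT.Fa_leaf (P := Itm.ok 206) (iqb tpr977_c))) (BT.Fa_leaf (P := Itm.ok 206) (iqf tpr1028_c))) (BT.Fa_mk (BT.Fa_mk (BT.Fa_leaf (P := Itm.ok 206) (iqb tpr700_c)) (BT.Fa_leaf (P := Itm.ok 206) (iqf tpr641_c))) (BT.Fa_leaf (P := Itm.ok 206) (iqf tpr733_c)))) (BT.Fa_mk (BT.Fa_mk (BT.Fa_mk (BT.Fa_leaf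 (P := Itm.ok 206) (iqf tpr1275_c)) (BT.Fa_leaf (P := Itm.ok 206) (iqf tpr91_c))) (BT.Fa_leaf (P := Itm.ok 206) (iqf tpr1070_c))) (BT.Fa_mk (BT.Fa_mk (BT.Fa_leaf (P := Itm.ok 206) (iqb tpr564_c)) (BT.Fa_leaf (P := Itm.ok 206) (iqb tpr1196_c))) (BT.Fa_leaf (P := Itm.ok 206) (iqf tpr676_c)))))) (BT.Fa_mk (BT.Fa_mk (BT.Fa_mk (BT.Fa_mk (BT.Fa_mk (BT.Fa_leaf (P := Itm.ok 206) (iqb tpr592_c)) (BT.Fa_leaf (P := Itm.ok 206) (iqf tpr593_c))) (BT.Fa_leaf (P := Itm.ok 206) (iqf tpr559_c))) (BT.Fa_mk (BT.Fa_mk (BT.Fa_leaf (P := Itm.ok 206) (iqb tpr23_c)) (BT.Fa_leaf (P := Itm.ok 206) (iqf tpr1075_c))) (BT.Fa_leaf (P := Itm.ok 206) (iqb tpr1050_c)))) (BT.Fa_mk (BT.Fa_mk (BT.Fa_mk (BT.Fa_leaf (P := Itm.ok 206) (iqf tpr584_c)) (BT.Fa_leaf (P := Itm.ok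 206) (iqf tpr1072_c))) (BT.Fa_leaf (P := Itm.ok 206) (iqb tpr1070_c))) (BT.Fa_mk (BT.Fa_mk (BT.Fa_leaf (P := Itm.ok 206) (iqf tpr1278_c)) (BT.Fa_leaf (P := Itm.ok 206) (iqb tpr1278_c))) (BT.Fa_leaf (P := Itm.ok 206) (iqb tpr1279_c))))) (BT.Fa_mk (BT.Fa_mk (BT.Fa_mk (BT.Fa_mk (BT.Fa_leaf (P := Itm.ok 206) (iqb tpr1275_c)) (BT.Fa_leaf (P := Itm.ok 206) (iqb tpr1032_c))) (BT.Fa_leaf (P := Itm.ok 206) (iqf tpr1267_c))) (BT.Fa_mk (BT.Fa_mk (BT.Fa_leaf (P := Itm.ok 206) (iqf tpr1000_c)) (BT.Fa_leaf (P := Itm.ok 206) (iqb tpr1000_c))) (BT.Fa_leaf (P := Itm.ok 206) (iqb tpr1233_c)))) (BT.Fa_mk (BT.Fa_mk (BT.Fa_mk (BT.Fa_leaf (P := Itm.ok 206) (iqb tpr1154_c)) (BT.Fa_leaf (P := Itm.ok 206) (iqf tpr570_c))) (BT.Fa_leaf (P := Itm.ok 206) (iqf tpr1218_c)))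 (BT.Fa_mk (BT.Fa_leaf (P := Itm.ok 206) (iqf tpr1071_c)) (BT.Fa_leaf (P := Itm.ok 206) (iqf tpr1266_c))))))) (BT.Fa_mk (BT.Fa_mk (BT.Fa_mk (BT.Fa_mk (BT.Fa_mk (BT.Fa_mk (BT.Fa_leaf (P := Itm.ok 206) (iqf tpr1024_c)) (BT.Fa_leaf (P := Itm.ok 206) (iqb tpr1234_c))) (BT.Fa_leaf (P := Itm.ok 206) (iqb tpr188_c))) (BT.Fa_mk (BT.Fa_mk (BT.Fa_leaf (P := Itm.ok 206) (iqf tpr1233_c)) (BT.Fa_leaf (P := Itm.ok 206) (iqf tpr628_c))) (BT.Fa_leaf (P := Itm.ok 206) (iqf tpr638_c)))) (BT.Fa_mk (BT.Fa_mk (BT.Fa_mk (BT.Fa_leaf (P := Itm.ok 206) (iqf tpr499_c)) (BT.Fa_leaf (P := Itm.ok 206) (iqf tpr1148_c))) (BT.Fa_leaf (P := Itm.ok 206) (iqf tpr2981_c))) (BT.Fa_mk (BT.Fa_mk (BT.Fa_leaf (P := Itm.ok 206) (iqf tpr1069_c)) (BT.Fa_leaf (P := Itm.ok 206) (iqb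 tpr1031_c))) (BT.Fa_leaf (P := Itm.ok 206) (iqb tpr44_c))))) (BT.Fa_mk (BT.Fa_mk (BT.Fa_mk (BT.Fa_mk (BT.Fa_leaf (P := Itm.ok 206) (iqf tpr687_c)) (BT.Fa_leaf (P := Itm.ok 206) (iqb tpr503_c))) (BT.Fa_leaf (P := Itm.ok 206) (iqb tpr1090_c))) (BT.Fa_mk (BT.Fa_mk (BT.Fa_leaf (P := Itm.ok 206) (iqf tpr1077_c)) (BT.Fa_leaf (P := Itm.ok 206) (iqb tpr167_c))) (BT.Fa_leaf (P := Itm.ok 206) (iqb tpr1037_c)))) (BT.Fa_mk (BT.Fa_mk (BT.Fa_mk (BT.Fa_leaf (P := Itm.ok 206) (iqb tpr733_c)) (BT.Fa_leaf (P := Itm.ok 206) (iqb tpr1203_c))) (BT.Fa_leaf (P := Itm.ok 206) (iqf tpr1119_c))) (BT.Fa_mk (BT.Fa_leaf (P := Itm.ok 206) (iqf tpr1027_c)) (BT.Fa_leaf (P := Itm.ok 206) (iqf tpr1031_c)))))) (BT.Fa_mk (BT.Fa_mk (BT.Fa_mk (BT.Fa_mk (BT.Fa_mk (BT.Fa_leaf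 (P := Itm.ok 206) (iqb tpr1141_c)) (BT.Fa_leaf (P := Itm.ok 206) (iqb tpr2981_c))) (BT.Fa_leaf (P := Itm.ok 206) (iqf tpr2982_c))) (BT.Fa_mk (BT.Fa_mk (BT.Fa_leaf (P := Itm.ok 206) (iqf tpr1245_c)) (BT.Fa_leaf (P := Itm.ok 206) (iqb tpr521_c))) (BT.Fa_leaf (P := Itm.ok 206) (iqf tpr1089_c)))) (BT.Fa_mk (BT.Fa_mk (BT.Fa_mk (BT.Fa_leaf (P := Itm.ok 206) (iqf tpr1067_c)) (BT.Fa_leaf (P := Itm.ok 206) (iqf tpr727_c))) (BT.Fa_leaf (P := Itm.ok 206) (iqb tpr613_c))) (BT.Fa_mk (BT.Fa_mk (BT.Fa_leaf (P := Itm.ok 206) (iqb tpr665_c)) (BT.Fa_leaf (P := Itm.ok 206) (iqf tpr1214_c))) (BT.Fa_leaf (P := Itm.ok 206) (iqb tpr578_c))))) (BT.Fa_mk (BT.Fa_mk (BT.Fa_mk (BT.Fa_mk (BT.Fa_leaf (P := Itm.ok 206) (iqb tpr687_c)) (BT.Fa_leaf (P := Itm.ok 206) (iqf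 tpr557_c))) (BT.Fa_leaf (P := Itm.ok 206) (iqb tpr1849_c))) (BT.Fa_mk (BT.Fa_mk (BT.Fa_leaf (P := Itm.ok 206) (iqf tpr553_c)) (BT.Fa_leaf (P := Itm.ok 206) (iqb tpr551_c))) (BT.Fa_leaf (P := Itm.ok 206) (iqf tpr1288_c)))) (BT.Fa_mk (BT.Fa_mk (BT.Fa_mk (BT.Fa_leaf (P := Itm.ok 206) (iqb tpr245_c)) (BT.Fa_leaf (P := Itm.ok 206) (iqf tpr637_c))) (BT.Fa_leaf (P := Itm.ok 206) (iqb tpr1145_c))) (BT.Fa_mk (BT.Fa_leaf (P := Itm.ok 206) (iqf tpr2089_c)) (BT.Fa_leaf (P := Itm.ok 206) (iqb tpr536_c))))))))))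

/-- all words of the class have labels -/
theorem pokNFzE2ByA3H2ByAzIzAyB2H3AyB2EzF : POK 206 xNFzE2ByA3H2ByAzIzAyB2H3AyB2EzF :=
  y_pok (C0 := ceNFzE2ByA3H2ByAzIzAyB2H3AyB2EzF) (C1 := coNFzE2ByA3H2ByAzIzAyB2H3AyB2EzF) topNFzE2ByA3H2ByAzIzAyB2H3AyB2EzF nbNFzE2ByA3H2ByAzIzAyB2H3AyB2EzF (BT.Fa_of_all iiNFzE2ByA3H2ByAzIzAyB2H3AyB2EzF_c)
    (BT.Fa_mk (BT.Fa_mk (BT.Fa_mk (cyE_spec zeNFzE2ByA3H2ByAzIzAyB2H3AyB2EzF_0) (cyE_spec zeNFzE2ByA3H2ByAzIzAyB2H3AyB2EzF_1)) (BT.Fa_mk (cyE_spec zeNFzE2ByA3H2ByAzIzAyB2H3AyB2EzF_2) (cyE_spec zeNFzE2ByA3H2ByAzIzAyB2H3AyB2EzF_3))) (BT.Fa_mk (BT.Fa_mk (BT.Fa_mk (cyE_spec zeNFzE2ByA3H2ByAzIzAyB2H3AyB2EzF_4) (cyE_spec zeNFzE2ByA3H2ByAzIzAyB2H3AyB2EzF_5)) (BT.Fa_mk (BT.Fa_mk (cyE_spec zeNFzE2ByA3H2ByAzIzAyB2H3AyB2EzF_6)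 (cyE_spec zeNFzE2ByA3H2ByAzIzAyB2H3AyB2EzF_7)) (BT.Fa_mk (cyE_spec zeNFzE2ByA3H2ByAzIzAyB2H3AyB2EzF_8) (cyE_spec zeNFzE2ByA3H2ByAzIzAyB2H3AyB2EzF_9)))) (BT.Fa_mk (BT.Fa_mk (BT.Fa_mk (cyE_spec zeNFzE2ByA3H2ByAzIzAyB2H3AyB2EzF_10) (cyE_spec zeNFzE2ByA3H2ByAzIzAyB2H3AyB2EzF_11)) (BT.Fa_mk (cyE_spec zeNFzE2ByA3H2ByAzIzAyB2H3AyB2EzF_12) (cyE_spec zeNFzE2ByA3H2ByAzIzAyB2H3AyB2EzF_13))) (BT.Fa_mk (BT.Fa_mk (cyE_spec zeNFzE2ByA3H2ByAzIzAyB2H3AyB2EzF_14) (cyE_spec zeNFzE2ByA3H2ByAzIzAyB2H3AyB2EzF_15)) (cyE_spec zeNFzE2ByA3H2ByAzIzAyB2H3AyB2EzF_16)))))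
    (BT.Fa_mk (BT.Fa_mk (BT.Fa_mk (cyO_spec zoNFzE2ByA3H2ByAzIzAyB2H3AyB2EzF_0) (cyO_spec zoNFzE2ByA3H2ByAzIzAyB2H3AyB2EzF_1)) (BT.Fa_mk (cyO_spec zoNFzE2ByA3H2ByAzIzAyB2H3AyB2EzF_2) (cyO_spec zoNFzE2ByA3H2ByAzIzAyB2H3AyB2EzF_3))) (BT.Fa_mk (BT.Fa_mk (BT.Fa_mk (cyO_spec zoNFzE2ByA3H2ByAzIzAyB2H3AyB2EzF_4) (cyO_spec zoNFzE2ByA3H2ByAzIzAyB2H3AyB2EzF_5)) (BT.Fa_mk (cyO_spec zoNFzE2ByA3H2ByAzIzAyB2H3AyB2EzF_6) (cyO_spec zoNFzE2ByA3H2ByAzIzAyB2H3AyB2EzF_7))) (BT.Fa_mk (BT.Fa_mk (BT.Fa_mk (cyO_spec zoNFzE2ByA3H2ByAzIzAyB2H3AyB2EzF_8) (cyO_spec zoNFzE2ByA3H2ByAzIzAyB2H3AyB2EzF_9)) (cyO_spec zoNFzE2ByA3H2ByAzIzAyB2H3AyB2EzF_10)) (BT.Fa_mk (BT.Fa_mk (BT.Fa_mk (cyO_spec zoNFzE2ByA3H2ByAzIzAyB2H3AyB2EzF_11) (cyO_spec zoNFzE2ByA3H2ByAzIzAyB2H3AyB2EzF_12))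 (cyO_spec zoNFzE2ByA3H2ByAzIzAyB2H3AyB2EzF_13)) (cyO_spec zoNFzE2ByA3H2ByAzIzAyB2H3AyB2EzF_14)))))
    iiNFzE2ByA3H2ByAzIzAyB2H3AyB2EzF_k

theorem iiNFzE2ByA3H2BzIzB3H3A2EzAyAyF_k : iiNFzE2ByA3H2BzIzB3H3A2EzAyAyF.Fa (Itm.ok 206) := (BT.Fa_mk (BT.Fa_mk (BT.Fa_mk (BT.Fa_mk (BT.Fa_mk (BT.Fa_mk (BT.Fa_mk (BT.Fa_mk (BT.Fa_leaf (P := Itm.ok 206) (iqf tpr5_c)) (BT.Fa_leaf (P := Itm.ok 206) (iqf tpr4_c))) (BT.Fa_leaf (P := Itm.ok 206) (iqf tpr8_c))) (BT.Fa_mk (BT.Fa_leaf (P := Itm.ok 206) (iqb tpr815_c)) (BT.Fa_leaf (P := Itm.ok 206) (iqf tpr814_c)))) (BT.Fa_mk (BT.Fa_mk (BT.Fa_mk (BT.Fa_leaf (P := Itm.ok 206) (iqb tpr15_c)) (BT.Fa_leaf (P := Itm.ok 206) (iqf tpr1305_c))) (BT.Fa_leaf (P := Itm.ok 206) (iqf tpr1325_c))) (BT.Fa_mk (BT.Fa_leaf (P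 := Itm.ok 206) (iqf tpr51_c)) (BT.Fa_leaf (P := Itm.ok 206) (iqb tpr6_c))))) (BT.Fa_mk (BT.Fa_mk (BT.Fa_mk (BT.Fa_mk (BT.Fa_leaf (P := Itm.ok 206) (iqb tpr63_c)) (BT.Fa_leaf (P := Itm.ok 206) (iqf tpr1309_c))) (BT.Fa_leaf (P := Itm.ok 206) (iqf tpr1320_c))) (BT.Fa_mk (BT.Fa_leaf (P := Itm.ok 206) (iqf tpr32_c)) (BT.Fa_leaf (P := Itm.ok 206) (iqf tpr1348_c)))) (BT.Fa_mk (BT.Fa_mk (BT.Fa_mk (BT.Fa_leaf (P := Itm.ok 206) (iqf tpr35_c)) (BT.Fa_leaf (P := Itm.ok 206) (iqb tpr1337_c))) (BT.Fa_leaf (P := Itm.ok 206) (iqb tpr18_c))) (BT.Fa_mk (BT.Fa_leaf (P := Itm.ok 206) (iqb tpr1335_c)) (BT.Fa_leaf (P := Itm.ok 206) (iqb tpr1363_c)))))) (BT.Fa_mk (BT.Fa_mk (BT.Fa_mk (BT.Fa_mk (BT.Fa_mk (BT.Fa_leaf (P := Itm.ok 206) (iqb tpr499_c)) (BT.Fa_leaf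 (P := Itm.ok 206) (iqb tpr1346_c))) (BT.Fa_leaf (P := Itm.ok 206) (iqf tpr456_c))) (BT.Fa_mk (BT.Fa_leaf (P := Itm.ok 206) (iqf tpr1312_c)) (BT.Fa_leaf (P := Itm.ok 206) (iqb tpr1323_c)))) (BT.Fa_mk (BT.Fa_mk (BT.Fa_mk (BT.Fa_leaf (P := Itm.ok 206) (iqf tpr1334_c)) (BT.Fa_leaf (P := Itm.ok 206) (iqb tpr849_c))) (BT.Fa_leaf (P := Itm.ok 206) (iqf tpr1333_c))) (BT.Fa_mk (BT.Fa_leaf (P := Itm.ok 206) (iqb tpr677_c)) (BT.Fa_leaf (P := Itm.ok 206) (iqf tpr139_c))))) (BT.Fa_mk (BT.Fa_mk (BT.Fa_mk (BT.Fa_mk (BT.Fa_leaf (P := Itm.ok 206) (iqf tpr454_c)) (BT.Fa_leaf (P := Itm.ok 206) (iqf tpr92_c))) (BT.Fa_leaf (P := Itm.ok 206) (iqb tpr1315_c))) (BT.Fa_mk (BT.Fa_leaf (P := Itm.ok 206) (iqb tpr220_c)) (BT.Fa_leaf (P := Itm.ok 206) (iqf tpr1373_c))))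 (BT.Fa_mk (BT.Fa_mk (BT.Fa_mk (BT.Fa_leaf (P := Itm.ok 206) (iqf tpr940_c)) (BT.Fa_leaf (P := Itm.ok 206) (iqb tpr1345_c))) (BT.Fa_leaf (P := Itm.ok 206) (iqf tpr1311_c))) (BT.Fa_mk (BT.Fa_leaf (P := Itm.ok 206) (iqf tpr584_c)) (BT.Fa_leaf (P := Itm.ok 206) (iqf tpr1307_c))))))) (BT.Fa_mk (BT.Fa_mk (BT.Fa_mk (BT.Fa_mk (BT.Fa_mk (BT.Fa_mk (BT.Fa_leaf (P := Itm.ok 206) (iqb tpr1372_c)) (BT.Fa_leaf (P := Itm.ok 206) (iqf tpr168_c))) (BT.Fa_leaf (P := Itm.ok 206) (iqf tpr1356_c))) (BT.Fa_mk (BT.Fa_leaf (P := Itm.ok 206) (iqb tpr1310_c)) (BT.Fa_leaf (P := Itm.ok 206) (iqf tpr493_c)))) (BT.Fa_mk (BT.Fa_mk (BT.Fa_mk (BT.Fa_leaf (P := Itm.ok 206) (iqf tpr358_c)) (BT.Fa_leaf (P := Itm.ok 206) (iqf tpr1362_c))) (BT.Fa_leaf (P := Itm.ok 206) (iqb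 tpr11_c))) (BT.Fa_mk (BT.Fa_leaf (P := Itm.ok 206) (iqf tpr1329_c)) (BT.Fa_leaf (P := Itm.ok 206) (iqf tpr780_c))))) (BT.Fa_mk (BT.Fa_mk (BT.Fa_mk (BT.Fa_mk (BT.Fa_leaf (P := Itm.ok 206) (iqb tpr44_c)) (BT.Fa_leaf (P := Itm.ok 206) (iqb tpr477_c))) (BT.Fa_leaf (P := Itm.ok 206) (iqb tpr20_c))) (BT.Fa_mk (BT.Fa_leaf (P := Itm.ok 206) (iqf tpr479_c)) (BT.Fa_leaf (P := Itm.ok 206) (iqf tpr12_c)))) (BT.Fa_mk (BT.Fa_mk (BT.Fa_mk (BT.Fa_leaf (P := Itm.ok 206) (iqb tpr72_c)) (BT.Fa_leaf (P := Itm.ok 206) (iqf tpr465_c))) (BT.Fa_leaf (P := Itm.ok 206) (iqb tpr222_c))) (BT.Fa_mk (BT.Fa_leaf (P := Itm.ok 206) (iqb tpr788_c)) (BT.Fa_leaf (P := Itm.ok 206) (iqb tpr490_c)))))) (BT.Fa_mk (BT.Fa_mk (BT.Fa_mk (BT.Fa_mk (BT.Fa_mk (BT.Fa_leaf (P := Itm.ok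 206) (iqb tpr1326_c)) (BT.Fa_leaf (P := Itm.ok 206) (iqf tpr485_c))) (BT.Fa_leaf (P := Itm.ok 206) (iqf tpr0_c))) (BT.Fa_mk (BT.Fa_leaf (P := Itm.ok 206) (iqf tpr1316_c)) (BT.Fa_leaf (P := Itm.ok 206) (iqf tpr25_c)))) (BT.Fa_mk (BT.Fa_mk (BT.Fa_mk (BT.Fa_leaf (P := Itm.ok 206) (iqf tpr1308_c)) (BT.Fa_leaf (P := Itm.ok 206) (iqb tpr1319_c))) (BT.Fa_leaf (P := Itm.ok 206) (iqf tpr1313_c))) (BT.Fa_mk (BT.Fa_leaf (P := Itm.ok 206) (iqf tpr23_c)) (BT.Fa_leaf (P := Itm.ok 206) (iqb tpr757_c))))) (BT.Fa_mk (BT.Fa_mk (BT.Fa_mk (BT.Fa_mk (BT.Fa_leaf (P := Itm.ok 206) (iqb tpr10_c)) (BT.Fa_leaf (P := Itm.ok 206) (iqb tpr41_c))) (BT.Fa_leaf (P := Itm.ok 206) (iqf tpr1331_c))) (BT.Fa_mk (BT.Fa_leaf (P := Itm.ok 206) (iqf tpr1387_c)) (BT.Fa_leaf (P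 := Itm.ok 206) (iqb tpr113_c)))) (BT.Fa_mk (BT.Fa_mk (BT.Fa_mk (BT.Fa_leaf (P := Itm.ok 206) (iqb tpr1349_c)) (BT.Fa_leaf (P := Itm.ok 206) (iqb tpr133_c))) (BT.Fa_leaf (P := Itm.ok 206) (iqb tpr1369_c))) (BT.Fa_mk (BT.Fa_leaf (P := Itm.ok 206) (iqb tpr31_c)) (BT.Fa_leaf (P := Itm.ok 206) (iqb tpr24_c)))))))) (BT.Fa_mk (BT.Fa_mk (BT.Fa_mk (BT.Fa_mk (BT.Fa_mk (BT.Fa_mk (BT.Fa_mk (BT.Fa_leaf (P := Itm.ok 206) (iqf tpr1374_c)) (BT.Fa_leaf (P := Itm.ok 206) (iqb tpr1343_c))) (BT.Fa_leaf (P := Itm.ok 206) (iqb tpr1354_c))) (BT.Fa_mk (BT.Fa_leaf (P := Itm.ok 206) (iqf tpr131_c)) (BT.Fa_leaf (P := Itm.ok 206) (iqf tpr931_c)))) (BT.Fa_mk (BT.Fa_mk (BT.Fa_mk (BT.Fa_leaf (P := Itm.ok 206) (iqf tpr186_c)) (BT.Fa_leaf (P := Itm.ok 206) (iqb tpr804_c)))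 (BT.Fa_leaf (P := Itm.ok 206) (iqb tpr583_c))) (BT.Fa_mk (BT.Fa_leaf (P := Itm.ok 206) (iqf tpr464_c)) (BT.Fa_leaf (P := Itm.ok 206) (iqf tpr216_c))))) (BT.Fa_mk (BT.Fa_mk (BT.Fa_mk (BT.Fa_mk (BT.Fa_leaf (P := Itm.ok 206) (iqf tpr61_c)) (BT.Fa_leaf (P := Itm.ok 206) (iqf tpr105_c))) (BT.Fa_leaf (P := Itm.ok 206) (iqb tpr39_c))) (BT.Fa_mk (BT.Fa_leaf (P := Itm.ok 206) (iqb tpr21_c)) (BT.Fa_leaf (P := Itm.ok 206) (iqb tpr28_c)))) (BT.Fa_mk (BT.Fa_mk (BT.Fa_mk (BT.Fa_leaf (P := Itm.ok 206) (iqf tpr1344_c)) (BT.Fa_leaf (P := Itm.ok 206) (iqf tpr93_c))) (BT.Fa_leaf (P := Itm.ok 206) (iqb tpr547_c))) (BT.Fa_mk (BT.Fa_leaf (P := Itm.ok 206) (iqf tpr1355_c)) (BT.Fa_leaf (P := Itm.ok 206) (iqf tpr89_c)))))) (BT.Fa_mk (BT.Fa_mk (BT.Fa_mk (BT.Fa_mk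 (BT.Fa_mk (BT.Fa_leaf (P := Itm.ok 206) (iqf tpr94_c)) (BT.Fa_leaf (P := Itm.ok 206) (iqf tpr1330_c))) (BT.Fa_leaf (P := Itm.ok 206) (iqb tpr1336_c))) (BT.Fa_mk (BT.Fa_leaf (P := Itm.ok 206) (iqb tpr1358_c)) (BT.Fa_leaf (P := Itm.ok 206) (iqf tpr104_c)))) (BT.Fa_mk (BT.Fa_mk (BT.Fa_mk (BT.Fa_leaf (P := Itm.ok 206) (iqf tpr1341_c)) (BT.Fa_leaf (P := Itm.ok 206) (iqb tpr97_c))) (BT.Fa_leaf (P := Itm.ok 206) (iqf tpr1352_c))) (BT.Fa_mk (BT.Fa_leaf (P := Itm.ok 206) (iqf tpr177_c)) (BT.Fa_leaf (P := Itm.ok 206) (iqf tpr1314_c))))) (BT.Fa_mk (BT.Fa_mk (BT.Fa_mk (BT.Fa_mk (BT.Fa_leaf (P := Itm.ok 206) (iqf tpr1347_c)) (BT.Fa_leaf (P := Itm.ok 206) (iqb tpr1378_c))) (BT.Fa_leaf (P := Itm.ok 206) (iqb tpr1371_c))) (BT.Fa_mk (BT.Fa_leaf (P := Itm.ok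 206) (iqb tpr1351_c)) (BT.Fa_leaf (P := Itm.ok 206) (iqb tpr1376_c)))) (BT.Fa_mk (BT.Fa_mk (BT.Fa_mk (BT.Fa_leaf (P := Itm.ok 206) (iqb tpr1321_c)) (BT.Fa_leaf (P := Itm.ok 206) (iqb tpr1365_c))) (BT.Fa_leaf (P := Itm.ok 206) (iqb tpr1375_c))) (BT.Fa_mk (BT.Fa_leaf (P := Itm.ok 206) (iqf tpr1382_c)) (BT.Fa_leaf (P := Itm.ok 206) (iqf tpr110_c))))))) (BT.Fa_mk (BT.Fa_mk (BT.Fa_mk (BT.Fa_mk (BT.Fa_mk (BT.Fa_mk (BT.Fa_leaf (P := Itm.ok 206) (iqf tpr161_c)) (BT.Fa_leaf (P := Itm.ok 206) (iqf tpr107_c))) (BT.Fa_leaf (P := Itm.ok 206) (iqb tpr38_c))) (BT.Fa_mk (BT.Fa_leaf (P := Itm.ok 206) (iqf tpr45_c)) (BT.Fa_leaf (P := Itm.ok 206) (iqf tpr1359_c)))) (BT.Fa_mk (BT.Fa_mk (BT.Fa_mk (BT.Fa_leaf (P := Itm.ok 206) (iqf tpr143_c)) (BT.Fa_leaf (P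 := Itm.ok 206) (iqf tpr50_c))) (BT.Fa_leaf (P := Itm.ok 206) (iqb tpr47_c))) (BT.Fa_mk (BT.Fa_leaf (P := Itm.ok 206) (iqb tpr144_c)) (BT.Fa_leaf (P := Itm.ok 206) (iqf tpr1306_c))))) (BT.Fa_mk (BT.Fa_mk (BT.Fa_mk (BT.Fa_mk (BT.Fa_leaf (P := Itm.ok 206) (iqb tpr824_c)) (BT.Fa_leaf (P := Itm.ok 206) (iqf tpr147_c))) (BT.Fa_leaf (P := Itm.ok 206) (iqb tpr148_c))) (BT.Fa_mk (BT.Fa_leaf (P := Itm.ok 206) (iqb tpr114_c)) (BT.Fa_leaf (P := Itm.ok 206) (iqf tpr111_c)))) (BT.Fa_mk (BT.Fa_mk (BT.Fa_mk (BT.Fa_leaf (P := Itm.ok 206) (iqf tpr46_c)) (BT.Fa_leaf (P := Itm.ok 206) (iqb tpr101_c))) (BT.Fa_leaf (P := Itm.ok 206) (iqb tpr1328_c))) (BT.Fa_mk (BT.Fa_leaf (P := Itm.ok 206) (iqb tpr40_c)) (BT.Fa_leaf (P := Itm.ok 206) (iqb tpr1405_c)))))) (BT.Fa_mk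 (BT.Fa_mk (BT.Fa_mk (BT.Fa_mk (BT.Fa_mk (BT.Fa_leaf (P := Itm.ok 206) (iqb tpr517_c)) (BT.Fa_leaf (P := Itm.ok 206) (iqf tpr967_c))) (BT.Fa_leaf (P := Itm.ok 206) (iqb tpr1381_c))) (BT.Fa_mk (BT.Fa_leaf (P := Itm.ok 206) (iqb tpr1380_c)) (BT.Fa_leaf (P := Itm.ok 206) (iqf tpr1379_c)))) (BT.Fa_mk (BT.Fa_mk (BT.Fa_mk (BT.Fa_leaf (P := Itm.ok 206) (iqf tpr1383_c)) (BT.Fa_leaf (P := Itm.ok 206) (iqb tpr1384_c))) (BT.Fa_leaf (P := Itm.ok 206) (iqf tpr1385_c))) (BT.Fa_mk (BT.Fa_leaf (P := Itm.ok 206) (iqb tpr684_c)) (BT.Fa_leaf (P := Itm.ok 206) (iqb tpr935_c))))) (BT.Fa_mk (BT.Fa_mk (BT.Fa_mk (BT.Fa_mk (BT.Fa_leaf (P := Itm.ok 206) (iqb tpr1389_c)) (BT.Fa_leaf (P := Itm.ok 206) (iqb tpr941_c))) (BT.Fa_leaf (P := Itm.ok 206) (iqb tpr1402_c)))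 (BT.Fa_mk (BT.Fa_leaf (P := Itm.ok 206) (iqb tpr1406_c)) (BT.Fa_leaf (P := Itm.ok 206) (iqb tpr33_c)))) (BT.Fa_mk (BT.Fa_mk (BT.Fa_leaf (P := Itm.ok 206) (iqf tpr850_c)) (BT.Fa_leaf (P := Itm.ok 206) (iqb tpr244_c))) (BT.Fa_mk (BT.Fa_leaf (P := Itm.ok 206) (iqf tpr1391_c)) (BT.Fa_leaf (P := Itm.ok 206) (iqf tpr1332_c)))))))))

/-- all words of the class have labels -/
theorem pokNFzE2ByA3H2BzIzB3H3A2EzAyAyF : POK 206 xNFzE2ByA3H2BzIzB3H3A2EzAyAyF :=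
  y_pok (C0 := ceNFzE2ByA3H2BzIzB3H3A2EzAyAyF) (C1 := coNFzE2ByA3H2BzIzB3H3A2EzAyAyF) topNFzE2ByA3H2BzIzB3H3A2EzAyAyF nbNFzE2ByA3H2BzIzB3H3A2EzAyAyF (BT.Fa_of_all iiNFzE2ByA3H2BzIzB3H3A2EzAyAyF_c)
    (cyE_spec zeNFzE2ByA3H2BzIzB3H3A2EzAyAyF_0)
    (BT.Fa_mk (cyO_spec zoNFzE2ByA3H2BzIzB3H3A2EzAyAyF_0) (cyO_spec zoNFzE2ByA3H2BzIzB3H3A2EzAyAyF_1))
    iiNFzE2ByA3H2BzIzB3H3A2EzAyAyF_k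

theorem iiNFzE2ByA3H2BzIzB3H3A2EzAyAzF_k : iiNFzE2ByA3H2BzIzB3H3A2EzAyAzF.Fa (Itm.ok 206) := (BT.Fa_mk (BT.Fa_mk (BT.Fa_mk (BT.Fa_mk (BT.Fa_mk (BT.Fa_mk (BT.Fa_mk (BT.Fa_mk (BT.Fa_leaf (P := Itm.ok 206) (iqf tpr4_c)) (BT.Fa_leaf (P := Itm.ok 206) (iqb tpr4_c))) (BT.Fa_leaf (P := Itm.ok 206) (iqf tpr168_c))) (BT.Fa_mk (BT.Fa_mk (BT.Fa_leaf (P := Itm.ok 206) (iqf tpr5_c)) (BT.Fa_leaf (P := Itm.ok 206) (iqb tpr804_c))) (BT.Fa_leaf (P := Itm.ok 206) (iqf tpr1305_c)))) (BT.Fa_mk (BT.Fa_mk (BT.Fa_mk (BT.Fa_leaf (P := Itm.ok 206) (iqf tpr456_c)) (BT.Fa_leaf (P := Itm.ok 206) (iqf tpr1334_c))) (BT.Fa_leaf (P := Itm.ok 206) (iqf tpr0_c))) (BT.Fa_mk (BT.Fa_leaf (P := Itm.ok 206) (iqb tpr21_c)) (BT.Fa_leaf (P := Itm.ok 206) (iqf tpr1320_c))))) (BT.Fa_mk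 (BT.Fa_mk (BT.Fa_mk (BT.Fa_mk (BT.Fa_leaf (P := Itm.ok 206) (iqb tpr477_c)) (BT.Fa_leaf (P := Itm.ok 206) (iqf tpr454_c))) (BT.Fa_leaf (P := Itm.ok 206) (iqb tpr815_c))) (BT.Fa_mk (BT.Fa_leaf (P := Itm.ok 206) (iqb tpr1358_c)) (BT.Fa_leaf (P := Itm.ok 206) (iqf tpr479_c)))) (BT.Fa_mk (BT.Fa_mk (BT.Fa_mk (BT.Fa_leaf (P := Itm.ok 206) (iqb tpr11_c)) (BT.Fa_leaf (P := Itm.ok 206) (iqf tpr1469_c))) (BT.Fa_leaf (P := Itm.ok 206) (iqf tpr464_c))) (BT.Fa_mk (BT.Fa_leaf (P := Itm.ok 206) (iqf tpr1468_c)) (BT.Fa_leaf (P := Itm.ok 206) (iqb tpr1315_c)))))) (BT.Fa_mk (BT.Fa_mk (BT.Fa_mk (BT.Fa_mk (BT.Fa_mk (BT.Fa_leaf (P := Itm.ok 206) (iqb tpr1323_c)) (BT.Fa_leaf (P := Itm.ok 206) (iqf tpr1311_c))) (BT.Fa_leaf (P := Itm.ok 206) (iqf tpr110_c))) (BT.Fa_mk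 (BT.Fa_leaf (P := Itm.ok 206) (iqb tpr1337_c)) (BT.Fa_leaf (P := Itm.ok 206) (iqf tpr931_c)))) (BT.Fa_mk (BT.Fa_mk (BT.Fa_mk (BT.Fa_leaf (P := Itm.ok 206) (iqb tpr1363_c)) (BT.Fa_leaf (P := Itm.ok 206) (iqf tpr1348_c))) (BT.Fa_leaf (P := Itm.ok 206) (iqb tpr1335_c))) (BT.Fa_mk (BT.Fa_leaf (P := Itm.ok 206) (iqf tpr814_c)) (BT.Fa_leaf (P := Itm.ok 206) (iqf tpr1455_c))))) (BT.Fa_mk (BT.Fa_mk (BT.Fa_mk (BT.Fa_mk (BT.Fa_leaf (P := Itm.ok 206) (iqb tpr1482_c)) (BT.Fa_leaf (P := Itm.ok 206) (iqb tpr941_c))) (BT.Fa_leaf (P := Itm.ok 206) (iqb tpr517_c))) (BT.Fa_mk (BT.Fa_leaf (P := Itm.ok 206) (iqb tpr582_c)) (BT.Fa_leaf (P := Itm.ok 206) (iqf tpr1344_c)))) (BT.Fa_mk (BT.Fa_mk (BT.Fa_mk (BT.Fa_leaf (P := Itm.ok 206) (iqb tpr1310_c)) (BT.Fa_leaf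 (P := Itm.ok 206) (iqf tpr115_c))) (BT.Fa_leaf (P := Itm.ok 206) (iqf tpr1461_c))) (BT.Fa_mk (BT.Fa_leaf (P := Itm.ok 206) (iqb tpr49_c)) (BT.Fa_leaf (P := Itm.ok 206) (iqf tpr12_c))))))) (BT.Fa_mk (BT.Fa_mk (BT.Fa_mk (BT.Fa_mk (BT.Fa_mk (BT.Fa_mk (BT.Fa_leaf (P := Itm.ok 206) (iqb tpr72_c)) (BT.Fa_leaf (P := Itm.ok 206) (iqf tpr493_c))) (BT.Fa_leaf (P := Itm.ok 206) (iqf tpr8_c))) (BT.Fa_mk (BT.Fa_leaf (P := Itm.ok 206) (iqf tpr51_c)) (BT.Fa_leaf (P := Itm.ok 206) (iqb tpr490_c)))) (BT.Fa_mk (BT.Fa_mk (BT.Fa_mk (BT.Fa_leaf (P := Itm.ok 206) (iqf tpr358_c)) (BT.Fa_leaf (P := Itm.ok 206) (iqb tpr1326_c))) (BT.Fa_leaf (P := Itm.ok 206) (iqf tpr485_c))) (BT.Fa_mk (BT.Fa_leaf (P := Itm.ok 206) (iqf tpr468_c)) (BT.Fa_leaf (P := Itm.ok 206) (iqb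 tpr48_c))))) (BT.Fa_mk (BT.Fa_mk (BT.Fa_mk (BT.Fa_mk (BT.Fa_leaf (P := Itm.ok 206) (iqb tpr788_c)) (BT.Fa_leaf (P := Itm.ok 206) (iqb tpr471_c))) (BT.Fa_leaf (P := Itm.ok 206) (iqb tpr106_c))) (BT.Fa_mk (BT.Fa_leaf (P := Itm.ok 206) (iqb tpr1346_c)) (BT.Fa_leaf (P := Itm.ok 206) (iqf tpr1464_c)))) (BT.Fa_mk (BT.Fa_mk (BT.Fa_mk (BT.Fa_leaf (P := Itm.ok 206) (iqb tpr757_c)) (BT.Fa_leaf (P := Itm.ok 206) (iqb tpr10_c))) (BT.Fa_leaf (P := Itm.ok 206) (iqf tpr11_c))) (BT.Fa_mk (BT.Fa_leaf (P := Itm.ok 206) (iqf tpr35_c)) (BT.Fa_leaf (P := Itm.ok 206) (iqf tpr89_c)))))) (BT.Fa_mk (BT.Fa_mk (BT.Fa_mk (BT.Fa_mk (BT.Fa_mk (BT.Fa_leaf (P := Itm.ok 206) (iqf tpr1329_c)) (BT.Fa_leaf (P := Itm.ok 206) (iqb tpr133_c))) (BT.Fa_leaf (P := Itm.ok 206) (iqb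 tpr38_c))) (BT.Fa_mk (BT.Fa_leaf (P := Itm.ok 206) (iqf tpr186_c)) (BT.Fa_leaf (P := Itm.ok 206) (iqb tpr824_c)))) (BT.Fa_mk (BT.Fa_mk (BT.Fa_mk (BT.Fa_leaf (P := Itm.ok 206) (iqf tpr104_c)) (BT.Fa_leaf (P := Itm.ok 206) (iqf tpr92_c))) (BT.Fa_leaf (P := Itm.ok 206) (iqf tpr1466_c))) (BT.Fa_mk (BT.Fa_leaf (P := Itm.ok 206) (iqb tpr1328_c)) (BT.Fa_leaf (P := Itm.ok 206) (iqf tpr1475_c))))) (BT.Fa_mk (BT.Fa_mk (BT.Fa_mk (BT.Fa_mk (BT.Fa_leaf (P := Itm.ok 206) (iqb tpr455_c)) (BT.Fa_leaf (P := Itm.ok 206) (iqf tpr1309_c))) (BT.Fa_leaf (P := Itm.ok 206) (iqf tpr1474_c))) (BT.Fa_mk (BT.Fa_leaf (P := Itm.ok 206) (iqf tpr1347_c)) (BT.Fa_leaf (P := Itm.ok 206) (iqb tpr63_c)))) (BT.Fa_mk (BT.Fa_mk (BT.Fa_mk (BT.Fa_leaf (P := Itm.ok 206) (iqf tpr1312_c))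 (BT.Fa_leaf (P := Itm.ok 206) (iqf tpr605_c))) (BT.Fa_leaf (P := Itm.ok 206) (iqb tpr97_c))) (BT.Fa_mk (BT.Fa_leaf (P := Itm.ok 206) (iqf tpr1462_c)) (BT.Fa_leaf (P := Itm.ok 206) (iqf tpr143_c)))))))) (BT.Fa_mk (BT.Fa_mk (BT.Fa_mk (BT.Fa_mk (BT.Fa_mk (BT.Fa_mk (BT.Fa_mk (BT.Fa_leaf (P := Itm.ok 206) (iqf tpr139_c)) (BT.Fa_leaf (P := Itm.ok 206) (iqf tpr50_c))) (BT.Fa_leaf (P := Itm.ok 206) (iqf tpr1325_c))) (BT.Fa_mk (BT.Fa_mk (BT.Fa_leaf (P := Itm.ok 206) (iqf tpr131_c)) (BT.Fa_leaf (P := Itm.ok 206) (iqb tpr547_c))) (BT.Fa_leaf (P := Itm.ok 206) (iqb tpr677_c)))) (BT.Fa_mk (BT.Fa_mk (BT.Fa_mk (BT.Fa_leaf (P := Itm.ok 206) (iqb tpr583_c)) (BT.Fa_leaf (P := Itm.ok 206) (iqf tpr2983_c))) (BT.Fa_leaf (P := Itm.ok 206) (iqb tpr935_c))) (BT.Fa_mk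 (BT.Fa_leaf (P := Itm.ok 206) (iqb tpr24_c)) (BT.Fa_leaf (P := Itm.ok 206) (iqb tpr1336_c))))) (BT.Fa_mk (BT.Fa_mk (BT.Fa_mk (BT.Fa_mk (BT.Fa_leaf (P := Itm.ok 206) (iqf tpr1472_c)) (BT.Fa_leaf (P := Itm.ok 206) (iqf tpr850_c))) (BT.Fa_leaf (P := Itm.ok 206) (iqb tpr1372_c))) (BT.Fa_mk (BT.Fa_leaf (P := Itm.ok 206) (iqf tpr1471_c)) (BT.Fa_leaf (P := Itm.ok 206) (iqb tpr1369_c)))) (BT.Fa_mk (BT.Fa_mk (BT.Fa_mk (BT.Fa_leaf (P := Itm.ok 206) (iqf tpr1477_c)) (BT.Fa_leaf (P := Itm.ok 206) (iqb tpr28_c))) (BT.Fa_leaf (P := Itm.ok 206) (iqb tpr39_c))) (BT.Fa_mk (BT.Fa_leaf (P := Itm.ok 206) (iqf tpr1331_c)) (BT.Fa_leaf (P := Itm.ok 206) (iqf tpr93_c)))))) (BT.Fa_mk (BT.Fa_mk (BT.Fa_mk (BT.Fa_mk (BT.Fa_mk (BT.Fa_leaf (P := Itm.ok 206) (iqb tpr1365_c))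 (BT.Fa_leaf (P := Itm.ok 206) (iqf tpr1341_c))) (BT.Fa_leaf (P := Itm.ok 206) (iqf tpr478_c))) (BT.Fa_mk (BT.Fa_leaf (P := Itm.ok 206) (iqb tpr1476_c)) (BT.Fa_leaf (P := Itm.ok 206) (iqb tpr1343_c)))) (BT.Fa_mk (BT.Fa_mk (BT.Fa_mk (BT.Fa_leaf (P := Itm.ok 206) (iqf tpr1333_c)) (BT.Fa_leaf (P := Itm.ok 206) (iqb tpr684_c))) (BT.Fa_leaf (P := Itm.ok 206) (iqf tpr1382_c))) (BT.Fa_mk (BT.Fa_leaf (P := Itm.ok 206) (iqf tpr526_c)) (BT.Fa_leaf (P := Itm.ok 206) (iqf tpr32_c))))) (BT.Fa_mk (BT.Fa_mk (BT.Fa_mk (BT.Fa_mk (BT.Fa_leaf (P := Itm.ok 206) (iqb tpr1349_c)) (BT.Fa_leaf (P := Itm.ok 206) (iqf tpr715_c))) (BT.Fa_leaf (P := Itm.ok 206) (iqb tpr1376_c))) (BT.Fa_mk (BT.Fa_leaf (P := Itm.ok 206) (iqb tpr1354_c)) (BT.Fa_leaf (P := Itm.ok 206)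 (iqb tpr1371_c)))) (BT.Fa_mk (BT.Fa_mk (BT.Fa_mk (BT.Fa_leaf (P := Itm.ok 206) (iqf tpr1373_c)) (BT.Fa_leaf (P := Itm.ok 206) (iqb tpr1375_c))) (BT.Fa_leaf (P := Itm.ok 206) (iqb tpr144_c))) (BT.Fa_mk (BT.Fa_leaf (P := Itm.ok 206) (iqb tpr499_c)) (BT.Fa_leaf (P := Itm.ok 206) (iqf tpr817_c))))))) (BT.Fa_mk (BT.Fa_mk (BT.Fa_mk (BT.Fa_mk (BT.Fa_mk (BT.Fa_mk (BT.Fa_leaf (P := Itm.ok 206) (iqb tpr816_c)) (BT.Fa_leaf (P := Itm.ok 206) (iqb tpr1380_c))) (BT.Fa_leaf (P := Itm.ok 206) (iqb tpr1381_c))) (BT.Fa_mk (BT.Fa_leaf (P := Itm.ok 206) (iqf tpr111_c)) (BT.Fa_leaf (P := Itm.ok 206) (iqf tpr584_c)))) (BT.Fa_mk (BT.Fa_mk (BT.Fa_mk (BT.Fa_leaf (P := Itm.ok 206) (iqf tpr1339_c)) (BT.Fa_leaf (P := Itm.ok 206) (iqf tpr967_c))) (BT.Fa_leaf (P :=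 Itm.ok 206) (iqb tpr1378_c))) (BT.Fa_mk (BT.Fa_leaf (P := Itm.ok 206) (iqf tpr1481_c)) (BT.Fa_leaf (P := Itm.ok 206) (iqb tpr1351_c))))) (BT.Fa_mk (BT.Fa_mk (BT.Fa_mk (BT.Fa_mk (BT.Fa_leaf (P := Itm.ok 206) (iqf tpr1484_c)) (BT.Fa_leaf (P := Itm.ok 206) (iqb tpr1384_c))) (BT.Fa_leaf (P := Itm.ok 206) (iqf tpr147_c))) (BT.Fa_mk (BT.Fa_leaf (P := Itm.ok 206) (iqb tpr1485_c)) (BT.Fa_leaf (P := Itm.ok 206) (iqb tpr1487_c)))) (BT.Fa_mk (BT.Fa_mk (BT.Fa_mk (BT.Fa_leaf (P := Itm.ok 206) (iqf tpr1385_c)) (BT.Fa_leaf (P := Itm.ok 206) (iqf tpr1488_c))) (BT.Fa_leaf (P := Itm.ok 206) (iqb tpr1489_c))) (BT.Fa_mk (BT.Fa_leaf (P := Itm.ok 206) (iqb tpr62_c)) (BT.Fa_leaf (P := Itm.ok 206) (iqb tpr1494_c)))))) (BT.Fa_mk (BT.Fa_mk (BT.Fa_mk (BT.Fa_mk (BT.Fa_mk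 (BT.Fa_leaf (P := Itm.ok 206) (iqf tpr1338_c)) (BT.Fa_leaf (P := Itm.ok 206) (iqf tpr809_c))) (BT.Fa_leaf (P := Itm.ok 206) (iqf tpr1439_c))) (BT.Fa_mk (BT.Fa_leaf (P := Itm.ok 206) (iqf tpr1483_c)) (BT.Fa_leaf (P := Itm.ok 206) (iqb tpr1402_c)))) (BT.Fa_mk (BT.Fa_mk (BT.Fa_mk (BT.Fa_leaf (P := Itm.ok 206) (iqf tpr1393_c)) (BT.Fa_leaf (P := Itm.ok 206) (iqf tpr1018_c))) (BT.Fa_leaf (P := Itm.ok 206) (iqb tpr1406_c))) (BT.Fa_mk (BT.Fa_leaf (P := Itm.ok 206) (iqf tpr1425_c)) (BT.Fa_leaf (P := Itm.ok 206) (iqf tpr1391_c))))) (BT.Fa_mk (BT.Fa_mk (BT.Fa_mk (BT.Fa_mk (BT.Fa_leaf (P := Itm.ok 206) (iqf tpr1429_c)) (BT.Fa_leaf (P := Itm.ok 206) (iqf tpr1486_c))) (BT.Fa_leaf (P := Itm.ok 206) (iqb tpr1511_c))) (BT.Fa_mk (BT.Fa_leaf (P := Itm.ok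 206) (iqf tpr465_c)) (BT.Fa_leaf (P := Itm.ok 206) (iqf tpr1423_c)))) (BT.Fa_mk (BT.Fa_mk (BT.Fa_mk (BT.Fa_leaf (P := Itm.ok 206) (iqf tpr1435_c)) (BT.Fa_leaf (P := Itm.ok 206) (iqb tpr1394_c))) (BT.Fa_leaf (P := Itm.ok 206) (iqf tpr609_c))) (BT.Fa_mk (BT.Fa_leaf (P := Itm.ok 206) (iqb tpr1500_c)) (BT.Fa_leaf (P := Itm.ok 206) (iqf tpr1322_c)))))))))

/-- all words of the class have labels -/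
theorem pokNFzE2ByA3H2BzIzB3H3A2EzAyAzF : POK 206 xNFzE2ByA3H2BzIzB3H3A2EzAyAzF :=
  y_pok (C0 := ceNFzE2ByA3H2BzIzB3H3A2EzAyAzF) (C1 := coNFzE2ByA3H2BzIzB3H3A2EzAyAzF) topNFzE2ByA3H2BzIzB3H3A2EzAyAzF nbNFzE2ByA3H2BzIzB3H3A2EzAyAzF (BT.Fa_of_all iiNFzE2ByA3H2BzIzB3H3A2EzAyAzF_c)
    (cyE_spec zeNFzE2ByA3H2BzIzB3H3A2EzAyAzF_0)
    (cyO_spec zoNFzE2ByA3H2BzIzB3H3A2EzAyAzF_0)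
    iiNFzE2ByA3H2BzIzB3H3A2EzAyAzF_k

theorem iiNFzE2ByA3H3AyB2EzF_k : iiNFzE2ByA3H3AyB2EzF.Fa (Itm.ok 206) := (BT.Fa_mk (BT.Fa_mk (BT.Fa_mk (BT.Fa_mk (BT.Fa_mk (BT.Fa_mk (BT.Fa_mk (BT.Fa_mk (BT.Fa_mk (BT.Fa_leaf (P := Itm.ok 206) (iqb tpr168_c)) (BT.Fa_leaf (P := Itm.ok 206) (iqb tpr1532_c))) (BT.Fa_leaf (P := Itm.ok 206) (iqf tpr1532_c))) (BT.Fa_mk (BT.Fa_mk (BT.Fa_leaf (P := Itm.ok 206) (iqf tpr168_c)) (BT.Fa_leaf (P := Itm.ok 206) (iqf tpr789_c))) (BT.Fa_leaf (P := Itm.ok 206) (iqb tpr789_c)))) (BT.Fa_mk (BT.Fa_mk (BT.Fa_mk (BT.Fa_leaf (P := Itm.ok 206) (iqf tpr239_c)) (BT.Fa_leaf (P := Itm.ok 206) (iqb tpr239_c))) (BT.Fa_leaf (P := Itm.ok 206) (iqb tpr589_c))) (BT.Fa_mk (BT.Fa_leaf (P := Itm.ok 206) (iqf tpr89_c)) (BT.Fa_leaf (P :=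 Itm.ok 206) (iqb tpr89_c))))) (BT.Fa_mk (BT.Fa_mk (BT.Fa_mk (BT.Fa_mk (BT.Fa_leaf (P := Itm.ok 206) (iqf tpr499_c)) (BT.Fa_leaf (P := Itm.ok 206) (iqb tpr48_c))) (BT.Fa_leaf (P := Itm.ok 206) (iqf tpr721_c))) (BT.Fa_mk (BT.Fa_leaf (P := Itm.ok 206) (iqb tpr721_c)) (BT.Fa_leaf (P := Itm.ok 206) (iqf tpr251_c)))) (BT.Fa_mk (BT.Fa_mk (BT.Fa_mk (BT.Fa_leaf (P := Itm.ok 206) (iqf tpr236_c)) (BT.Fa_leaf (P := Itm.ok 206) (iqb tpr236_c))) (BT.Fa_leaf (P := Itm.ok 206) (iqb tpr235_c))) (BT.Fa_mk (BT.Fa_leaf (P := Itm.ok 206) (iqb tpr90_c)) (BT.Fa_leaf (P := Itm.ok 206) (iqf tpr48_c)))))) (BT.Fa_mk (BT.Fa_mk (BT.Fa_mk (BT.Fa_mk (BT.Fa_mk (BT.Fa_leaf (P := Itm.ok 206) (iqf tpr618_c)) (BT.Fa_leaf (P := Itm.ok 206) (iqf tpr609_c))) (BT.Fa_leaf (P :=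 Itm.ok 206) (iqf tpr562_c))) (BT.Fa_mk (BT.Fa_mk (BT.Fa_leaf (P := Itm.ok 206) (iqb tpr499_c)) (BT.Fa_leaf (P := Itm.ok 206) (iqf tpr90_c))) (BT.Fa_leaf (P := Itm.ok 206) (iqf tpr506_c)))) (BT.Fa_mk (BT.Fa_mk (BT.Fa_mk (BT.Fa_leaf (P := Itm.ok 206) (iqb tpr517_c)) (BT.Fa_leaf (P := Itm.ok 206) (iqb tpr245_c))) (BT.Fa_leaf (P := Itm.ok 206) (iqf tpr1543_c))) (BT.Fa_mk (BT.Fa_leaf (P := Itm.ok 206) (iqb tpr1543_c)) (BT.Fa_leaf (P := Itm.ok 206) (iqf tpr527_c))))) (BT.Fa_mk (BT.Fa_mk (BT.Fa_mk (BT.Fa_mk (BT.Fa_leaf (P := Itm.ok 206) (iqb tpr618_c)) (BT.Fa_leaf (P := Itm.ok 206) (iqf tpr501_c))) (BT.Fa_leaf (P := Itm.ok 206) (iqb tpr609_c))) (BT.Fa_mk (BT.Fa_leaf (P := Itm.ok 206) (iqf tpr1583_c)) (BT.Fa_leaf (P := Itm.ok 206) (iqb tpr506_c))))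 (BT.Fa_mk (BT.Fa_mk (BT.Fa_mk (BT.Fa_leaf (P := Itm.ok 206) (iqf tpr247_c)) (BT.Fa_leaf (P := Itm.ok 206) (iqb tpr568_c))) (BT.Fa_leaf (P := Itm.ok 206) (iqb tpr562_c))) (BT.Fa_mk (BT.Fa_leaf (P := Itm.ok 206) (iqb tpr679_c)) (BT.Fa_leaf (P := Itm.ok 206) (iqb tpr541_c))))))) (BT.Fa_mk (BT.Fa_mk (BT.Fa_mk (BT.Fa_mk (BT.Fa_mk (BT.Fa_mk (BT.Fa_leaf (P := Itm.ok 206) (iqf tpr625_c)) (BT.Fa_leaf (P := Itm.ok 206) (iqb tpr527_c))) (BT.Fa_leaf (P := Itm.ok 206) (iqf tpr582_c))) (BT.Fa_mk (BT.Fa_mk (BT.Fa_leaf (P := Itm.ok 206) (iqf tpr8_c)) (BT.Fa_leaf (P := Itm.ok 206) (iqf tpr636_c))) (BT.Fa_leaf (P := Itm.ok 206) (iqf tpr222_c)))) (BT.Fa_mk (BT.Fa_mk (BT.Fa_mk (BT.Fa_leaf (P := Itm.ok 206) (iqf tpr680_c)) (BT.Fa_leaf (P := Itm.ok 206) (iqf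 tpr429_c))) (BT.Fa_leaf (P := Itm.ok 206) (iqf tpr51_c))) (BT.Fa_mk (BT.Fa_leaf (P := Itm.ok 206) (iqb tpr636_c)) (BT.Fa_leaf (P := Itm.ok 206) (iqb tpr51_c))))) (BT.Fa_mk (BT.Fa_mk (BT.Fa_mk (BT.Fa_mk (BT.Fa_leaf (P := Itm.ok 206) (iqb tpr429_c)) (BT.Fa_leaf (P := Itm.ok 206) (iqb tpr607_c))) (BT.Fa_leaf (P := Itm.ok 206) (iqb tpr605_c))) (BT.Fa_mk (BT.Fa_leaf (P := Itm.ok 206) (iqf tpr555_c)) (BT.Fa_leaf (P := Itm.ok 206) (iqb tpr627_c)))) (BT.Fa_mk (BT.Fa_mk (BT.Fa_mk (BT.Fa_leaf (P := Itm.ok 206) (iqf tpr1539_c)) (BT.Fa_leaf (P := Itm.ok 206) (iqb tpr247_c))) (BT.Fa_leaf (P := Itm.ok 206) (iqf tpr608_c))) (BT.Fa_mk (BT.Fa_leaf (P := Itm.ok 206) (iqf tpr541_c)) (BT.Fa_leaf (P := Itm.ok 206) (iqb tpr680_c)))))) (BT.Fa_mk (BT.Fa_mk (BT.Fa_mk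 (BT.Fa_mk (BT.Fa_mk (BT.Fa_leaf (P := Itm.ok 206) (iqb tpr608_c)) (BT.Fa_leaf (P := Itm.ok 206) (iqf tpr606_c))) (BT.Fa_leaf (P := Itm.ok 206) (iqb tpr625_c))) (BT.Fa_mk (BT.Fa_mk (BT.Fa_leaf (P := Itm.ok 206) (iqf tpr556_c)) (BT.Fa_leaf (P := Itm.ok 206) (iqb tpr780_c))) (BT.Fa_leaf (P := Itm.ok 206) (iqb tpr631_c)))) (BT.Fa_mk (BT.Fa_mk (BT.Fa_mk (BT.Fa_leaf (P := Itm.ok 206) (iqf tpr1545_c)) (BT.Fa_leaf (P := Itm.ok 206) (iqb tpr1539_c))) (BT.Fa_leaf (P := Itm.ok 206) (iqb tpr1557_c))) (BT.Fa_mk (BT.Fa_leaf (P := Itm.ok 206) (iqf tpr1542_c)) (BT.Fa_leaf (P := Itm.ok 206) (iqb tpr1540_c))))) (BT.Fa_mk (BT.Fa_mk (BT.Fa_mk (BT.Fa_mk (BT.Fa_leaf (P := Itm.ok 206) (iqf tpr1540_c)) (BT.Fa_leaf (P := Itm.ok 206) (iqf tpr572_c))) (BT.Fa_leaf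 (P := Itm.ok 206) (iqf tpr1010_c))) (BT.Fa_mk (BT.Fa_leaf (P := Itm.ok 206) (iqb tpr550_c)) (BT.Fa_leaf (P := Itm.ok 206) (iqb tpr572_c)))) (BT.Fa_mk (BT.Fa_mk (BT.Fa_mk (BT.Fa_leaf (P := Itm.ok 206) (iqb tpr748_c)) (BT.Fa_leaf (P := Itm.ok 206) (iqf tpr320_c))) (BT.Fa_leaf (P := Itm.ok 206) (iqb tpr614_c))) (BT.Fa_mk (BT.Fa_leaf (P := Itm.ok 206) (iqf tpr1536_c)) (BT.Fa_leaf (P := Itm.ok 206) (iqb tpr1536_c)))))))) (BT.Fa_mk (BT.Fa_mk (BT.Fa_mk (BT.Fa_mk (BT.Fa_mk (BT.Fa_mk (BT.Fa_mk (BT.Fa_leaf (P := Itm.ok 206) (iqf tpr1064_c)) (BT.Fa_leaf (P := Itm.ok 206) (iqf tpr12_c))) (BT.Fa_leaf (P := Itm.ok 206) (iqb tpr1550_c))) (BT.Fa_mk (BT.Fa_mk (BT.Fa_leaf (P := Itm.ok 206) (iqb tpr1574_c)) (BT.Fa_leaf (P := Itm.ok 206) (iqf tpr1535_c)))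 (BT.Fa_leaf (P := Itm.ok 206) (iqb tpr1054_c)))) (BT.Fa_mk (BT.Fa_mk (BT.Fa_mk (BT.Fa_leaf (P := Itm.ok 206) (iqb tpr701_c)) (BT.Fa_leaf (P := Itm.ok 206) (iqf tpr1544_c))) (BT.Fa_leaf (P := Itm.ok 206) (iqf tpr1138_c))) (BT.Fa_mk (BT.Fa_leaf (P := Itm.ok 206) (iqf tpr5_c)) (BT.Fa_leaf (P := Itm.ok 206) (iqb tpr1049_c))))) (BT.Fa_mk (BT.Fa_mk (BT.Fa_mk (BT.Fa_mk (BT.Fa_leaf (P := Itm.ok 206) (iqf tpr605_c)) (BT.Fa_leaf (P := Itm.ok 206) (iqb tpr9_c))) (BT.Fa_leaf (P := Itm.ok 206) (iqb tpr915_c))) (BT.Fa_mk (BT.Fa_leaf (P := Itm.ok 206) (iqb tpr18_c)) (BT.Fa_leaf (P := Itm.ok 206) (iqb tpr320_c)))) (BT.Fa_mk (BT.Fa_mk (BT.Fa_mk (BT.Fa_leaf (P := Itm.ok 206) (iqb tpr1551_c)) (BT.Fa_leaf (P := Itm.ok 206) (iqf tpr810_c))) (BT.Fa_leaf (P :=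 Itm.ok 206) (iqb tpr251_c))) (BT.Fa_mk (BT.Fa_leaf (P := Itm.ok 206) (iqf tpr1557_c)) (BT.Fa_leaf (P := Itm.ok 206) (iqf tpr1561_c)))))) (BT.Fa_mk (BT.Fa_mk (BT.Fa_mk (BT.Fa_mk (BT.Fa_mk (BT.Fa_leaf (P := Itm.ok 206) (iqf tpr1554_c)) (BT.Fa_leaf (P := Itm.ok 206) (iqb tpr1144_c))) (BT.Fa_leaf (P := Itm.ok 206) (iqf tpr1108_c))) (BT.Fa_mk (BT.Fa_mk (BT.Fa_leaf (P := Itm.ok 206) (iqf tpr573_c)) (BT.Fa_leaf (P := Itm.ok 206) (iqb tpr1541_c))) (BT.Fa_leaf (P := Itm.ok 206) (iqb tpr1542_c)))) (BT.Fa_mk (BT.Fa_mk (BT.Fa_mk (BT.Fa_leaf (P := Itm.ok 206) (iqf tpr1581_c)) (BT.Fa_leaf (P := Itm.ok 206) (iqb tpr1180_c))) (BT.Fa_leaf (P := Itm.ok 206) (iqb tpr563_c))) (BT.Fa_mk (BT.Fa_leaf (P := Itm.ok 206) (iqb tpr977_c)) (BT.Fa_leaf (P := Itm.ok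 206) (iqb tpr1547_c))))) (BT.Fa_mk (BT.Fa_mk (BT.Fa_mk (BT.Fa_mk (BT.Fa_leaf (P := Itm.ok 206) (iqb tpr579_c)) (BT.Fa_leaf (P := Itm.ok 206) (iqb tpr1104_c))) (BT.Fa_leaf (P := Itm.ok 206) (iqb tpr1535_c))) (BT.Fa_mk (BT.Fa_leaf (P := Itm.ok 206) (iqf tpr780_c)) (BT.Fa_leaf (P := Itm.ok 206) (iqf tpr54_c)))) (BT.Fa_mk (BT.Fa_mk (BT.Fa_mk (BT.Fa_leaf (P := Itm.ok 206) (iqb tpr645_c)) (BT.Fa_leaf (P := Itm.ok 206) (iqb tpr816_c))) (BT.Fa_leaf (P := Itm.ok 206) (iqb tpr1562_c))) (BT.Fa_mk (BT.Fa_leaf (P := Itm.ok 206) (iqb tpr1545_c)) (BT.Fa_leaf (P := Itm.ok 206) (iqf tpr563_c))))))) (BT.Fa_mk (BT.Fa_mk (BT.Fa_mk (BT.Fa_mk (BT.Fa_mk (BT.Fa_mk (BT.Fa_leaf (P := Itm.ok 206) (iqb tpr505_c)) (BT.Fa_leaf (P := Itm.ok 206) (iqf tpr679_c))) (BT.Fa_leaf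 (P := Itm.ok 206) (iqb tpr1013_c))) (BT.Fa_mk (BT.Fa_mk (BT.Fa_leaf (P := Itm.ok 206) (iqf tpr1574_c)) (BT.Fa_leaf (P := Itm.ok 206) (iqf tpr617_c))) (BT.Fa_leaf (P := Itm.ok 206) (iqf tpr607_c)))) (BT.Fa_mk (BT.Fa_mk (BT.Fa_mk (BT.Fa_leaf (P := Itm.ok 206) (iqf tpr518_c)) (BT.Fa_leaf (P := Itm.ok 206) (iqb tpr1554_c))) (BT.Fa_leaf (P := Itm.ok 206) (iqb tpr22_c))) (BT.Fa_mk (BT.Fa_leaf (P := Itm.ok 206) (iqf tpr210_c)) (BT.Fa_leaf (P := Itm.ok 206) (iqf tpr596_c))))) (BT.Fa_mk (BT.Fa_mk (BT.Fa_mk (BT.Fa_mk (BT.Fa_leaf (P := Itm.ok 206) (iqf tpr502_c)) (BT.Fa_leaf (P := Itm.ok 206) (iqf tpr1022_c))) (BT.Fa_leaf (P := Itm.ok 206) (iqf tpr1103_c))) (BT.Fa_mk (BT.Fa_leaf (P := Itm.ok 206) (iqf tpr17_c)) (BT.Fa_leaf (P := Itm.ok 206) (iqb tpr656_c))))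 (BT.Fa_mk (BT.Fa_mk (BT.Fa_mk (BT.Fa_leaf (P := Itm.ok 206) (iqb tpr8_c)) (BT.Fa_leaf (P := Itm.ok 206) (iqb tpr615_c))) (BT.Fa_leaf (P := Itm.ok 206) (iqb tpr590_c))) (BT.Fa_mk (BT.Fa_leaf (P := Itm.ok 206) (iqf tpr1050_c)) (BT.Fa_leaf (P := Itm.ok 206) (iqf tpr701_c)))))) (BT.Fa_mk (BT.Fa_mk (BT.Fa_mk (BT.Fa_mk (BT.Fa_mk (BT.Fa_leaf (P := Itm.ok 206) (iqb tpr554_c)) (BT.Fa_leaf (P := Itm.ok 206) (iqf tpr683_c))) (BT.Fa_leaf (P := Itm.ok 206) (iqb tpr82_c))) (BT.Fa_mk (BT.Fa_leaf (P := Itm.ok 206) (iqf tpr656_c)) (BT.Fa_leaf (P := Itm.ok 206) (iqb tpr582_c)))) (BT.Fa_mk (BT.Fa_mk (BT.Fa_mk (BT.Fa_leaf (P := Itm.ok 206) (iqf tpr748_c)) (BT.Fa_leaf (P := Itm.ok 206) (iqb tpr222_c))) (BT.Fa_leaf (P := Itm.ok 206) (iqb tpr606_c))) (BT.Fa_mk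 (BT.Fa_leaf (P := Itm.ok 206) (iqf tpr9_c)) (BT.Fa_leaf (P := Itm.ok 206) (iqf tpr517_c))))) (BT.Fa_mk (BT.Fa_mk (BT.Fa_mk (BT.Fa_mk (BT.Fa_leaf (P := Itm.ok 206) (iqb tpr560_c)) (BT.Fa_leaf (P := Itm.ok 206) (iqf tpr18_c))) (BT.Fa_leaf (P := Itm.ok 206) (iqb tpr1583_c))) (BT.Fa_mk (BT.Fa_leaf (P := Itm.ok 206) (iqb tpr54_c)) (BT.Fa_leaf (P := Itm.ok 206) (iqb tpr501_c)))) (BT.Fa_mk (BT.Fa_mk (BT.Fa_mk (BT.Fa_leaf (P := Itm.ok 206) (iqf tpr1553_c)) (BT.Fa_leaf (P := Itm.ok 206) (iqb tpr518_c))) (BT.Fa_leaf (P := Itm.ok 206) (iqf tpr583_c))) (BT.Fa_mk (BT.Fa_leaf (P := Itm.ok 206) (iqf tpr1104_c)) (BT.Fa_leaf (P := Itm.ok 206) (iqf tpr915_c))))))))) (BT.Fa_mk (BT.Fa_mk (BT.Fa_mk (BT.Fa_mk (BT.Fa_mk (BT.Fa_mk (BT.Fa_mk (BT.Fa_mk (BT.Fa_leaf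 (P := Itm.ok 206) (iqf tpr1549_c)) (BT.Fa_leaf (P := Itm.ok 206) (iqb tpr610_c))) (BT.Fa_leaf (P := Itm.ok 206) (iqf tpr641_c))) (BT.Fa_mk (BT.Fa_mk (BT.Fa_leaf (P := Itm.ok 206) (iqf tpr1570_c)) (BT.Fa_leaf (P := Itm.ok 206) (iqf tpr585_c))) (BT.Fa_leaf (P := Itm.ok 206) (iqb tpr295_c)))) (BT.Fa_mk (BT.Fa_mk (BT.Fa_mk (BT.Fa_leaf (P := Itm.ok 206) (iqf tpr1144_c)) (BT.Fa_leaf (P := Itm.ok 206) (iqf tpr245_c))) (BT.Fa_leaf (P := Itm.ok 206) (iqf tpr560_c))) (BT.Fa_mk (BT.Fa_leaf (P := Itm.ok 206) (iqf tpr82_c)) (BT.Fa_leaf (P := Itm.ok 206) (iqf tpr1013_c))))) (BT.Fa_mk (BT.Fa_mk (BT.Fa_mk (BT.Fa_mk (BT.Fa_leaf (P := Itm.ok 206) (iqf tpr516_c)) (BT.Fa_leaf (P := Itm.ok 206) (iqb tpr810_c))) (BT.Fa_leaf (P := Itm.ok 206) (iqb tpr617_c)))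 (BT.Fa_mk (BT.Fa_leaf (P := Itm.ok 206) (iqb tpr1010_c)) (BT.Fa_leaf (P := Itm.ok 206) (iqf tpr637_c)))) (BT.Fa_mk (BT.Fa_mk (BT.Fa_mk (BT.Fa_leaf (P := Itm.ok 206) (iqf tpr323_c)) (BT.Fa_leaf (P := Itm.ok 206) (iqf tpr235_c))) (BT.Fa_leaf (P := Itm.ok 206) (iqb tpr555_c))) (BT.Fa_mk (BT.Fa_leaf (P := Itm.ok 206) (iqb tpr1108_c)) (BT.Fa_leaf (P := Itm.ok 206) (iqf tpr1547_c)))))) (BT.Fa_mk (BT.Fa_mk (BT.Fa_mk (BT.Fa_mk (BT.Fa_mk (BT.Fa_leaf (P := Itm.ok 206) (iqb tpr585_c)) (BT.Fa_leaf (P := Itm.ok 206) (iqf tpr579_c))) (BT.Fa_leaf (P := Itm.ok 206) (iqf tpr1180_c))) (BT.Fa_mk (BT.Fa_mk (BT.Fa_leaf (P := Itm.ok 206) (iqb tpr1561_c)) (BT.Fa_leaf (P := Itm.ok 206) (iqf tpr816_c))) (BT.Fa_leaf (P := Itm.ok 206) (iqf tpr610_c)))) (BT.Fa_mk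 (BT.Fa_mk (BT.Fa_mk (BT.Fa_leaf (P := Itm.ok 206) (iqf tpr548_c)) (BT.Fa_leaf (P := Itm.ok 206) (iqb tpr548_c))) (BT.Fa_leaf (P := Itm.ok 206) (iqf tpr615_c))) (BT.Fa_mk (BT.Fa_leaf (P := Itm.ok 206) (iqb tpr611_c)) (BT.Fa_leaf (P := Itm.ok 206) (iqf tpr620_c))))) (BT.Fa_mk (BT.Fa_mk (BT.Fa_mk (BT.Fa_mk (BT.Fa_leaf (P := Itm.ok 206) (iqb tpr1571_c)) (BT.Fa_leaf (P := Itm.ok 206) (iqb tpr596_c))) (BT.Fa_leaf (P := Itm.ok 206) (iqb tpr91_c))) (BT.Fa_mk (BT.Fa_leaf (P := Itm.ok 206) (iqf tpr692_c)) (BT.Fa_leaf (P := Itm.ok 206) (iqf tpr23_c)))) (BT.Fa_mk (BT.Fa_mk (BT.Fa_mk (BT.Fa_leaf (P := Itm.ok 206) (iqb tpr1064_c)) (BT.Fa_leaf (P := Itm.ok 206) (iqf tpr700_c))) (BT.Fa_leaf (P := Itm.ok 206) (iqf tpr645_c))) (BT.Fa_mk (BT.Fa_leaf (P :=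 Itm.ok 206) (iqb tpr556_c)) (BT.Fa_leaf (P := Itm.ok 206) (iqf tpr547_c))))))) (BT.Fa_mk (BT.Fa_mk (BT.Fa_mk (BT.Fa_mk (BT.Fa_mk (BT.Fa_mk (BT.Fa_leaf (P := Itm.ok 206) (iqf tpr589_c)) (BT.Fa_leaf (P := Itm.ok 206) (iqf tpr611_c))) (BT.Fa_leaf (P := Itm.ok 206) (iqb tpr628_c))) (BT.Fa_mk (BT.Fa_mk (BT.Fa_leaf (P := Itm.ok 206) (iqf tpr619_c)) (BT.Fa_leaf (P := Itm.ok 206) (iqb tpr210_c))) (BT.Fa_leaf (P := Itm.ok 206) (iqb tpr641_c)))) (BT.Fa_mk (BT.Fa_mk (BT.Fa_mk (BT.Fa_leaf (P := Itm.ok 206) (iqb tpr683_c)) (BT.Fa_leaf (P := Itm.ok 206) (iqb tpr684_c))) (BT.Fa_leaf (P := Itm.ok 206) (iqf tpr91_c))) (BT.Fa_mk (BT.Fa_leaf (P := Itm.ok 206) (iqb tpr692_c)) (BT.Fa_leaf (P := Itm.ok 206) (iqf tpr628_c))))) (BT.Fa_mk (BT.Fa_mk (BT.Fa_mk (BT.Fa_mk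 (BT.Fa_leaf (P := Itm.ok 206) (iqb tpr1585_c)) (BT.Fa_leaf (P := Itm.ok 206) (iqb tpr675_c))) (BT.Fa_leaf (P := Itm.ok 206) (iqf tpr624_c))) (BT.Fa_mk (BT.Fa_leaf (P := Itm.ok 206) (iqf tpr1009_c)) (BT.Fa_leaf (P := Itm.ok 206) (iqf tpr577_c)))) (BT.Fa_mk (BT.Fa_mk (BT.Fa_mk (BT.Fa_leaf (P := Itm.ok 206) (iqf tpr106_c)) (BT.Fa_leaf (P := Itm.ok 206) (iqf tpr1569_c))) (BT.Fa_leaf (P := Itm.ok 206) (iqf tpr1046_c))) (BT.Fa_mk (BT.Fa_leaf (P := Itm.ok 206) (iqb tpr1228_c)) (BT.Fa_leaf (P := Itm.ok 206) (iqb tpr1546_c)))))) (BT.Fa_mk (BT.Fa_mk (BT.Fa_mk (BT.Fa_mk (BT.Fa_mk (BT.Fa_leaf (P := Itm.ok 206) (iqf tpr590_c)) (BT.Fa_leaf (P := Itm.ok 206) (iqf tpr1099_c))) (BT.Fa_leaf (P := Itm.ok 206) (iqb tpr1050_c))) (BT.Fa_mk (BT.Fa_leaf (P :=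 Itm.ok 206) (iqb tpr23_c)) (BT.Fa_leaf (P := Itm.ok 206) (iqb tpr1553_c)))) (BT.Fa_mk (BT.Fa_mk (BT.Fa_mk (BT.Fa_leaf (P := Itm.ok 206) (iqb tpr700_c)) (BT.Fa_leaf (P := Itm.ok 206) (iqb tpr960_c))) (BT.Fa_leaf (P := Itm.ok 206) (iqf tpr960_c))) (BT.Fa_mk (BT.Fa_leaf (P := Itm.ok 206) (iqb tpr624_c)) (BT.Fa_leaf (P := Itm.ok 206) (iqb tpr681_c))))) (BT.Fa_mk (BT.Fa_mk (BT.Fa_mk (BT.Fa_mk (BT.Fa_leaf (P := Itm.ok 206) (iqf tpr1593_c)) (BT.Fa_leaf (P := Itm.ok 206) (iqf tpr1537_c))) (BT.Fa_leaf (P := Itm.ok 206) (iqf tpr1595_c))) (BT.Fa_mk (BT.Fa_leaf (P := Itm.ok 206) (iqb tpr619_c)) (BT.Fa_leaf (P := Itm.ok 206) (iqf tpr631_c)))) (BT.Fa_mk (BT.Fa_mk (BT.Fa_mk (BT.Fa_leaf (P := Itm.ok 206) (iqb tpr637_c)) (BT.Fa_leaf (P := Itm.ok 206) (iqf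 tpr675_c))) (BT.Fa_leaf (P := Itm.ok 206) (iqf tpr1044_c))) (BT.Fa_mk (BT.Fa_leaf (P := Itm.ok 206) (iqf tpr1585_c)) (BT.Fa_leaf (P := Itm.ok 206) (iqf tpr639_c)))))))) (BT.Fa_mk (BT.Fa_mk (BT.Fa_mk (BT.Fa_mk (BT.Fa_mk (BT.Fa_mk (BT.Fa_mk (BT.Fa_leaf (P := Itm.ok 206) (iqb tpr1044_c)) (BT.Fa_leaf (P := Itm.ok 206) (iqb tpr1602_c))) (BT.Fa_leaf (P := Itm.ok 206) (iqb tpr1045_c))) (BT.Fa_mk (BT.Fa_mk (BT.Fa_leaf (P := Itm.ok 206) (iqf tpr505_c)) (BT.Fa_leaf (P := Itm.ok 206) (iqf tpr616_c))) (BT.Fa_leaf (P := Itm.ok 206) (iqf tpr627_c)))) (BT.Fa_mk (BT.Fa_mk (BT.Fa_mk (BT.Fa_leaf (P := Itm.ok 206) (iqb tpr516_c)) (BT.Fa_leaf (P := Itm.ok 206) (iqb tpr17_c))) (BT.Fa_leaf (P := Itm.ok 206) (iqf tpr644_c))) (BT.Fa_mk (BT.Fa_leaf (P := Itm.ok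 206) (iqf tpr295_c)) (BT.Fa_leaf (P := Itm.ok 206) (iqb tpr1544_c))))) (BT.Fa_mk (BT.Fa_mk (BT.Fa_mk (BT.Fa_mk (BT.Fa_leaf (P := Itm.ok 206) (iqb tpr1570_c)) (BT.Fa_leaf (P := Itm.ok 206) (iqb tpr577_c))) (BT.Fa_leaf (P := Itm.ok 206) (iqb tpr323_c))) (BT.Fa_mk (BT.Fa_leaf (P := Itm.ok 206) (iqb tpr1138_c)) (BT.Fa_leaf (P := Itm.ok 206) (iqb tpr696_c)))) (BT.Fa_mk (BT.Fa_mk (BT.Fa_mk (BT.Fa_leaf (P := Itm.ok 206) (iqb tpr1099_c)) (BT.Fa_leaf (P := Itm.ok 206) (iqb tpr547_c))) (BT.Fa_leaf (P := Itm.ok 206) (iqf tpr550_c))) (BT.Fa_mk (BT.Fa_leaf (P := Itm.ok 206) (iqb tpr1052_c)) (BT.Fa_leaf (P := Itm.ok 206) (iqb tpr1538_c)))))) (BT.Fa_mk (BT.Fa_mk (BT.Fa_mk (BT.Fa_mk (BT.Fa_mk (BT.Fa_leaf (P := Itm.ok 206) (iqb tpr1075_c)) (BT.Fa_leaf (P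 := Itm.ok 206) (iqf tpr703_c))) (BT.Fa_leaf (P := Itm.ok 206) (iqf tpr1052_c))) (BT.Fa_mk (BT.Fa_mk (BT.Fa_leaf (P := Itm.ok 206) (iqf tpr1054_c)) (BT.Fa_leaf (P := Itm.ok 206) (iqf tpr1550_c))) (BT.Fa_leaf (P := Itm.ok 206) (iqf tpr1562_c)))) (BT.Fa_mk (BT.Fa_mk (BT.Fa_mk (BT.Fa_leaf (P := Itm.ok 206) (iqb tpr1558_c)) (BT.Fa_leaf (P := Itm.ok 206) (iqf tpr1599_c))) (BT.Fa_leaf (P := Itm.ok 206) (iqf tpr1568_c))) (BT.Fa_mk (BT.Fa_leaf (P := Itm.ok 206) (iqb tpr1060_c)) (BT.Fa_leaf (P := Itm.ok 206) (iqf tpr1053_c))))) (BT.Fa_mk (BT.Fa_mk (BT.Fa_mk (BT.Fa_mk (BT.Fa_leaf (P := Itm.ok 206) (iqb tpr1047_c)) (BT.Fa_leaf (P := Itm.ok 206) (iqf tpr203_c))) (BT.Fa_leaf (P := Itm.ok 206) (iqf tpr1047_c))) (BT.Fa_mk (BT.Fa_leaf (P := Itm.ok 206)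 (iqf tpr1061_c)) (BT.Fa_leaf (P := Itm.ok 206) (iqb tpr1009_c)))) (BT.Fa_mk (BT.Fa_mk (BT.Fa_mk (BT.Fa_leaf (P := Itm.ok 206) (iqf tpr1589_c)) (BT.Fa_leaf (P := Itm.ok 206) (iqb tpr1568_c))) (BT.Fa_leaf (P := Itm.ok 206) (iqf tpr614_c))) (BT.Fa_mk (BT.Fa_leaf (P := Itm.ok 206) (iqb tpr1053_c)) (BT.Fa_leaf (P := Itm.ok 206) (iqb tpr1046_c))))))) (BT.Fa_mk (BT.Fa_mk (BT.Fa_mk (BT.Fa_mk (BT.Fa_mk (BT.Fa_mk (BT.Fa_leaf (P := Itm.ok 206) (iqb tpr1588_c)) (BT.Fa_leaf (P := Itm.ok 206) (iqb tpr576_c))) (BT.Fa_leaf (P := Itm.ok 206) (iqb tpr1577_c))) (BT.Fa_mk (BT.Fa_mk (BT.Fa_leaf (P := Itm.ok 206) (iqb tpr1061_c)) (BT.Fa_leaf (P := Itm.ok 206) (iqb tpr703_c))) (BT.Fa_leaf (P := Itm.ok 206) (iqb tpr203_c)))) (BT.Fa_mk (BT.Fa_mk (BT.Fa_mk (BT.Fa_leaf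 (P := Itm.ok 206) (iqf tpr1546_c)) (BT.Fa_leaf (P := Itm.ok 206) (iqf tpr514_c))) (BT.Fa_leaf (P := Itm.ok 206) (iqb tpr620_c))) (BT.Fa_mk (BT.Fa_leaf (P := Itm.ok 206) (iqf tpr576_c)) (BT.Fa_leaf (P := Itm.ok 206) (iqb tpr1599_c))))) (BT.Fa_mk (BT.Fa_mk (BT.Fa_mk (BT.Fa_mk (BT.Fa_leaf (P := Itm.ok 206) (iqf tpr1556_c)) (BT.Fa_leaf (P := Itm.ok 206) (iqf tpr623_c))) (BT.Fa_leaf (P := Itm.ok 206) (iqb tpr704_c))) (BT.Fa_mk (BT.Fa_leaf (P := Itm.ok 206) (iqf tpr1541_c)) (BT.Fa_leaf (P := Itm.ok 206) (iqf tpr977_c)))) (BT.Fa_mk (BT.Fa_mk (BT.Fa_mk (BT.Fa_leaf (P := Itm.ok 206) (iqf tpr1016_c)) (BT.Fa_leaf (P := Itm.ok 206) (iqf tpr1598_c))) (BT.Fa_leaf (P := Itm.ok 206) (iqb tpr1016_c))) (BT.Fa_mk (BT.Fa_leaf (P := Itm.ok 206) (iqb tpr1597_c))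 (BT.Fa_leaf (P := Itm.ok 206) (iqf tpr1126_c)))))) (BT.Fa_mk (BT.Fa_mk (BT.Fa_mk (BT.Fa_mk (BT.Fa_mk (BT.Fa_leaf (P := Itm.ok 206) (iqf tpr1597_c)) (BT.Fa_leaf (P := Itm.ok 206) (iqb tpr1600_c))) (BT.Fa_leaf (P := Itm.ok 206) (iqb tpr1601_c))) (BT.Fa_mk (BT.Fa_leaf (P := Itm.ok 206) (iqb tpr1598_c)) (BT.Fa_leaf (P := Itm.ok 206) (iqb tpr106_c)))) (BT.Fa_mk (BT.Fa_mk (BT.Fa_mk (BT.Fa_leaf (P := Itm.ok 206) (iqf tpr1552_c)) (BT.Fa_leaf (P := Itm.ok 206) (iqf tpr1228_c))) (BT.Fa_leaf (P := Itm.ok 206) (iqf tpr681_c))) (BT.Fa_mk (BT.Fa_leaf (P := Itm.ok 206) (iqf tpr613_c)) (BT.Fa_leaf (P := Itm.ok 206) (iqb tpr514_c))))) (BT.Fa_mk (BT.Fa_mk (BT.Fa_mk (BT.Fa_mk (BT.Fa_leaf (P := Itm.ok 206) (iqf tpr1217_c)) (BT.Fa_leaf (P := Itm.ok 206) (iqf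 tpr684_c))) (BT.Fa_leaf (P := Itm.ok 206) (iqf tpr1602_c))) (BT.Fa_mk (BT.Fa_leaf (P := Itm.ok 206) (iqb tpr1589_c)) (BT.Fa_leaf (P := Itm.ok 206) (iqb tpr612_c)))) (BT.Fa_mk (BT.Fa_mk (BT.Fa_mk (BT.Fa_leaf (P := Itm.ok 206) (iqf tpr665_c)) (BT.Fa_leaf (P := Itm.ok 206) (iqf tpr1565_c))) (BT.Fa_leaf (P := Itm.ok 206) (iqf tpr1538_c))) (BT.Fa_mk (BT.Fa_leaf (P := Itm.ok 206) (iqf tpr727_c)) (BT.Fa_leaf (P := Itm.ok 206) (iqb tpr1566_c))))))))))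

/-- all words of the class have labels -/
theorem pokNFzE2ByA3H3AyB2EzF : POK 206 xNFzE2ByA3H3AyB2EzF :=
  y_pok (C0 := ceNFzE2ByA3H3AyB2EzF) (C1 := coNFzE2ByA3H3AyB2EzF) topNFzE2ByA3H3AyB2EzF nbNFzE2ByA3H3AyB2EzF (BT.Fa_of_all iiNFzE2ByA3H3AyB2EzF_c)
    (BT.Fa_mk (BT.Fa_mk (BT.Fa_mk (cyE_spec zeNFzE2ByA3H3AyB2EzF_0) (cyE_spec zeNFzE2ByA3H3AyB2EzF_1)) (BT.Fa_mk (cyE_spec zeNFzE2ByA3H3AyB2EzF_2) (cyE_spec zeNFzE2ByA3H3AyB2EzF_3))) (BT.Fa_mk (BT.Fa_mk (BT.Fa_mk (cyE_spec zeNFzE2ByA3H3AyB2EzF_4) (cyE_spec zeNFzE2ByA3H3AyB2EzF_5)) (BT.Fa_mk (cyE_spec zeNFzE2ByA3H3AyB2EzF_6) (cyE_spec zeNFzE2ByA3H3AyB2EzF_7))) (BT.Fa_mk (BT.Fa_mk (cyE_spec zeNFzE2ByA3H3AyB2EzF_8) (cyE_spec zeNFzE2ByA3H3AyB2EzF_9)) (BT.Fa_mk (cyE_spec zeNFzE2ByA3H3AyB2EzF_10)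 (cyE_spec zeNFzE2ByA3H3AyB2EzF_11)))))
    (BT.Fa_mk (BT.Fa_mk (BT.Fa_mk (cyO_spec zoNFzE2ByA3H3AyB2EzF_0) (cyO_spec zoNFzE2ByA3H3AyB2EzF_1)) (BT.Fa_mk (cyO_spec zoNFzE2ByA3H3AyB2EzF_2) (cyO_spec zoNFzE2ByA3H3AyB2EzF_3))) (BT.Fa_mk (BT.Fa_mk (BT.Fa_mk (cyO_spec zoNFzE2ByA3H3AyB2EzF_4) (cyO_spec zoNFzE2ByA3H3AyB2EzF_5)) (BT.Fa_mk (cyO_spec zoNFzE2ByA3H3AyB2EzF_6) (cyO_spec zoNFzE2ByA3H3AyB2EzF_7))) (BT.Fa_mk (BT.Fa_mk (cyO_spec zoNFzE2ByA3H3AyB2EzF_8) (BT.Fa_mk (cyO_spec zoNFzE2ByA3H3AyB2EzF_9) (cyO_spec zoNFzE2ByA3H3AyB2EzF_10))) (BT.Fa_mk (BT.Fa_mk (cyO_spec zoNFzE2ByA3H3AyB2EzF_11) (cyO_spec zoNFzE2ByA3H3AyB2EzF_12)) (cyO_spec zoNFzE2ByA3H3AyB2EzF_13)))))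
    iiNFzE2ByA3H3AyB2EzF_k


end MPb6R
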