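import Pool.Agent.Lib.MP_b6d339_lc.Cw3.YFzAyE2ByA3H2AzIzA2H3A2EyA2AzAyBzF
import Pool.Agent.Lib.MP_b6d339_lc.Cw3.XL
import Pool.Agent.Lib.MP_b6d339_lc.Cw3.T0
import Pool.Agent.Lib.MP_b6d339_lc.Cw3.T1
import Pool.Agent.Lib.MP_b6d339_lc.Cw3.T10
import Pool.Agent.Lib.MP_b6d339_lc.Cw3.T11
import Pool.Agent.Lib.MP_b6d339_lc.Cw3.T12
import Pool.Agent.Lib.MP_b6d339_lc.Cw3.T13
import Pool.Agent.Lib.MP_b6d339_lc.Cw3.T14
import Pool.Agent.Lib.MP_b6d339_lc.Cw3.T15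
import Pool.Agent.Lib.MP_b6d339_lc.Cw3.T16
import Pool.Agent.Lib.MP_b6d339_lc.Cw3.T17
import Pool.Agent.Lib.MP_b6d339_lc.Cw3.T18
import Pool.Agent.Lib.MP_b6d339_lc.Cw3.T19
import Pool.Agent.Lib.MP_b6d339_lc.Cw3.T2
import Pool.Agent.Lib.MP_b6d339_lc.Cw3.T20
import Pool.Agent.Lib.MP_b6d339_lc.Cw3.T21
import Pool.Agent.Lib.MP_b6d339_lc.Cw3.T22
import Pool.Agent.Lib.MP_b6d339_lc.Cw3.T23
import Pool.Agent.Lib.MP_b6d339_lc.Cw3.T25
import Pool.Agent.Lib.MP_b6d339_lc.Cw3.T26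
import Pool.Agent.Lib.MP_b6d339_lc.Cw3.T27
import Pool.Agent.Lib.MP_b6d339_lc.Cw3.T28
import Pool.Agent.Lib.MP_b6d339_lc.Cw3.T29
import Pool.Agent.Lib.MP_b6d339_lc.Cw3.T3
import Pool.Agent.Lib.MP_b6d339_lc.Cw3.T31
import Pool.Agent.Lib.MP_b6d339_lc.Cw3.T32
import Pool.Agent.Lib.MP_b6d339_lc.Cw3.T5
import Pool.Agent.Lib.MP_b6d339_lc.Cw3.T6
import Pool.Agent.Lib.MP_b6d339_lc.Cw3.T7
import Pool.Agent.Lib.MP_b6d339_lc.Cw3.T8
import Pool.Agent.Lib.MP_b6d339_lc.Cw3.T9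

/-!
# Erdős 592, three levels: items
-/

namespace MPb6R

open MPb6P

noncomputable def iiNFzAyE2ByA3H2AzIzA2H3A2EyA2AzAyBzF : BT Itm := (.node (.node (.node (.node (.node (.node (.node (.node (.leaf (.fwd 0 27 tpr499.df)) (.leaf (.fwd 27 16 tpr168.df))) (.leaf (.bwd 43 27 tpr979.df))) (.node (.leaf (.bwd 70 13 tpr500.df)) (.leaf (.bwd 83 19 tpr616.df)))) (.node (.node (.node (.leaf (.fwd 102 13 tpr500.df)) (.leaf (.fwd 115 42 tpr2337.df))) (.leaf (.fwd 157 38 tpr2343.df))) (.node (.leaf (.fwd 195 23 tpr5.df)) (.leaf (.fwd 218 42 tpr2329.df))))) (.node (.node (.node (.node (.leaf (.fwd 260 37 tpr2334.df)) (.leaf (.fwd 297 35 tpr259.df))) (.leaf (.bwd 332 22 tpr959.df))) (.node (.leaf (.bwd 354 30 tpr2324.df)) (.leaf (.fwd 384 22 tpr982.df)))) (.node (.node (.node (.leaf (.fwd 406 32 tpr2094.df)) (.leaf (.bwd 438 34 tpr575.df))) (.leaf (.fwd 472 28 tpr2236.df)))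 (.node (.leaf (.fwd 500 39 tpr569.df)) (.leaf (.bwd 539 58 tpr1143.df)))))) (.node (.node (.node (.node (.node (.leaf (.bwd 597 22 tpr581.df)) (.leaf (.bwd 619 37 tpr503.df))) (.leaf (.fwd 656 38 tpr2485.df))) (.node (.leaf (.fwd 694 28 tpr2113.df)) (.leaf (.bwd 722 33 tpr2351.df)))) (.node (.node (.node (.leaf (.fwd 755 32 tpr2619.df)) (.leaf (.fwd 787 43 tpr2024.df))) (.leaf (.fwd 830 39 tpr1112.df))) (.node (.leaf (.fwd 869 39 tpr2349.df)) (.leaf (.bwd 908 35 tpr2215.df))))) (.node (.node (.node (.node (.leaf (.fwd 943 29 tpr656.df)) (.leaf (.bwd 972 35 tpr534.df))) (.leaf (.fwd 1007 44 tpr466.df))) (.node (.leaf (.fwd 1051 33 tpr2171.df)) (.leaf (.bwd 1084 31 tpr557.df)))) (.node (.node (.leaf (.bwd 1115 23 tpr1562.df)) (.leaf (.bwd 1138 43 tpr2491.df))) (.node (.leaf (.fwd 1181 32 tpr1633.df)) (.leaf (.bwd 1213 28 tpr941.df))))))) (.node (.node (.node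 (.node (.node (.node (.leaf (.bwd 1241 53 tpr815.df)) (.leaf (.bwd 1294 21 tpr629.df))) (.leaf (.bwd 1315 49 tpr960.df))) (.node (.leaf (.fwd 1364 41 tpr2621.df)) (.leaf (.fwd 1405 25 tpr74.df)))) (.node (.node (.node (.leaf (.fwd 1430 29 tpr46.df)) (.leaf (.fwd 1459 52 tpr814.df))) (.leaf (.fwd 1511 37 tpr2620.df))) (.node (.leaf (.fwd 1548 35 tpr574.df)) (.leaf (.fwd 1583 51 tpr2525.df))))) (.node (.node (.node (.node (.leaf (.fwd 1634 23 tpr12.df)) (.leaf (.bwd 1657 28 tpr295.df))) (.leaf (.bwd 1685 25 tpr10.df))) (.node (.leaf (.bwd 1710 21 tpr8.df)) (.leaf (.fwd 1731 27 tpr82.df)))) (.node (.node (.node (.leaf (.fwd 1758 15 tpr419.df)) (.leaf (.bwd 1773 30 tpr577.df))) (.leaf (.bwd 1803 42 tpr1138.df))) (.node (.leaf (.fwd 1845 27 tpr562.df)) (.leaf (.fwd 1872 25 tpr51.df)))))) (.node (.node (.node (.node (.node (.leaf (.bwd 1897 41 tpr188.df)) (.leaf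 (.fwd 1938 24 tpr810.df))) (.leaf (.fwd 1962 23 tpr780.df))) (.node (.leaf (.bwd 1985 20 tpr505.df)) (.leaf (.fwd 2005 29 tpr618.df)))) (.node (.node (.node (.leaf (.fwd 2034 22 tpr239.df)) (.leaf (.fwd 2056 33 tpr44.df))) (.leaf (.fwd 2089 38 tpr526.df))) (.node (.leaf (.bwd 2127 41 tpr1182.df)) (.leaf (.bwd 2168 32 tpr518.df))))) (.node (.node (.node (.node (.leaf (.fwd 2200 37 tpr555.df)) (.leaf (.fwd 2237 20 tpr48.df))) (.leaf (.fwd 2257 31 tpr198.df))) (.node (.leaf (.fwd 2288 21 tpr474.df)) (.leaf (.fwd 2309 23 tpr559.df)))) (.node (.node (.leaf (.bwd 2332 42 tpr124.df)) (.leaf (.fwd 2374 39 tpr210.df))) (.node (.leaf (.fwd 2413 30 tpr2167.df)) (.leaf (.fwd 2443 37 tpr1359.df)))))))) (.node (.node (.node (.node (.node (.node (.node (.leaf (.bwd 2480 36 tpr2278.df)) (.leaf (.bwd 2516 39 tpr2123.df))) (.leaf (.bwd 2555 36 tpr547.df))) (.node (.leaf (.bwd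 2591 31 tpr606.df)) (.leaf (.fwd 2622 23 tpr1255.df)))) (.node (.node (.node (.leaf (.bwd 2645 54 tpr1193.df)) (.leaf (.fwd 2699 31 tpr2398.df))) (.leaf (.bwd 2730 20 tpr48.df))) (.node (.leaf (.fwd 2750 29 tpr608.df)) (.leaf (.bwd 2779 23 tpr640.df))))) (.node (.node (.node (.node (.leaf (.bwd 2802 39 tpr636.df)) (.leaf (.fwd 2841 37 tpr2239.df))) (.leaf (.fwd 2878 42 tpr733.df))) (.node (.leaf (.fwd 2920 28 tpr2623.df)) (.leaf (.bwd 2948 30 tpr997.df)))) (.node (.node (.node (.leaf (.fwd 2978 35 tpr2166.df)) (.leaf (.fwd 3013 24 tpr609.df))) (.leaf (.fwd 3037 28 tpr721.df))) (.node (.leaf (.fwd 3065 32 tpr2277.df)) (.leaf (.bwd 3097 43 tpr2618.df)))))) (.node (.node (.node (.node (.node (.leaf (.bwd 3140 50 tpr1233.df)) (.leaf (.bwd 3190 27 tpr499.df))) (.leaf (.bwd 3217 32 tpr294.df))) (.node (.leaf (.fwd 3249 39 tpr1900.df)) (.leaf (.fwd 3288 46 tpr1765.df))))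 (.node (.node (.node (.leaf (.bwd 3334 27 tpr1247.df)) (.leaf (.fwd 3361 39 tpr2335.df))) (.leaf (.fwd 3400 40 tpr2007.df))) (.node (.leaf (.bwd 3440 39 tpr1001.df)) (.leaf (.fwd 3479 49 tpr2133.df))))) (.node (.node (.node (.node (.leaf (.bwd 3528 32 tpr2243.df)) (.leaf (.bwd 3560 36 tpr2509.df))) (.leaf (.bwd 3596 28 tpr588.df))) (.node (.leaf (.fwd 3624 33 tpr1215.df)) (.leaf (.fwd 3657 37 tpr2497.df)))) (.node (.node (.leaf (.bwd 3694 41 tpr2524.df)) (.leaf (.bwd 3735 31 tpr2498.df))) (.node (.leaf (.fwd 3766 44 tpr2260.df)) (.leaf (.fwd 3810 36 tpr1771.df))))))) (.node (.node (.node (.node (.node (.node (.leaf (.bwd 3846 36 tpr2208.df)) (.leaf (.fwd 3882 45 tpr596.df))) (.leaf (.bwd 3927 31 tpr576.df))) (.node (.leaf (.fwd 3958 36 tpr2179.df)) (.leaf (.bwd 3994 43 tpr2125.df)))) (.node (.node (.node (.leaf (.fwd 4037 48 tpr2177.df)) (.leaf (.bwd 4085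 22 tpr20.df))) (.leaf (.bwd 4107 35 tpr2131.df))) (.node (.leaf (.bwd 4142 47 tpr2196.df)) (.leaf (.bwd 4189 19 tpr33.df))))) (.node (.node (.node (.node (.leaf (.bwd 4208 21 tpr90.df)) (.leaf (.bwd 4229 35 tpr533.df))) (.leaf (.bwd 4264 61 tpr1736.df))) (.node (.leaf (.fwd 4325 35 tpr89.df)) (.leaf (.fwd 4360 29 tpr641.df)))) (.node (.node (.node (.leaf (.fwd 4389 46 tpr1464.df)) (.leaf (.bwd 4435 36 tpr1346.df))) (.leaf (.fwd 4471 37 tpr1414.df))) (.node (.leaf (.bwd 4508 42 tpr2233.df)) (.leaf (.bwd 4550 22 tpr504.df)))))) (.node (.node (.node (.node (.node (.leaf (.fwd 4572 38 tpr2328.df)) (.leaf (.fwd 4610 60 tpr2350.df))) (.leaf (.fwd 4670 45 tpr2627.df))) (.node (.leaf (.fwd 4715 49 tpr1647.df)) (.leaf (.fwd 4764 44 tpr2189.df)))) (.node (.node (.node (.leaf (.bwd 4808 29 tpr2541.df)) (.leaf (.fwd 4837 34 tpr1764.df))) (.leaf (.bwd 4871 34 tpr2504.df)))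 (.node (.leaf (.fwd 4905 40 tpr2546.df)) (.leaf (.fwd 4945 42 tpr2543.df))))) (.node (.node (.node (.node (.leaf (.bwd 4987 60 tpr630.df)) (.leaf (.fwd 5047 38 tpr2628.df))) (.leaf (.fwd 5085 30 tpr2625.df))) (.node (.leaf (.fwd 5115 47 tpr1762.df)) (.leaf (.fwd 5162 41 tpr502.df)))) (.node (.node (.leaf (.bwd 5203 36 tpr2200.df)) (.leaf (.bwd 5239 22 tpr2487.df))) (.node (.leaf (.fwd 5261 50 tpr2634.df)) (.leaf (.bwd 5311 37 tpr2164.df)))))))))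

theorem iiNFzAyE2ByA3H2AzIzA2H3A2EyA2AzAyBzF_c : iiNFzAyE2ByA3H2AzIzA2H3A2EyA2AzAyBzF.all (itB (ng 61 nnNFzAyE2ByA3H2AzIzA2H3A2EyA2AzAyBzF)) = true := by decide +kernel
theorem nbNFzAyE2ByA3H2AzIzA2H3A2EyA2AzAyBzF : nbB 61 5409 nnNFzAyE2ByA3H2AzIzA2H3A2EyA2AzAyBzF = true := by decide +kernel
theorem topNFzAyE2ByA3H2AzIzA2H3A2EyA2AzAyBzF : topY 5409 ttNFzAyE2ByA3H2AzIzA2H3A2EyA2AzAyBzF ceNFzAyE2ByA3H2AzIzA2H3A2EyA2AzAyBzF xNFzAyE2ByA3H2AzIzA2H3A2EyA2AzAyBzF iiNFzAyE2ByA3H2AzIzA2H3A2EyA2AzAyBzF = true := by decide +kernel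

end MPb6R
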