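import Pool.Agent.Lib.MP_b6d339_lc.Cw3.YFzAyE2ByA3H2AzIzAyB2H3A2EyA2AzAyBzF
import Pool.Agent.Lib.MP_b6d339_lc.Cw3.XL
import Pool.Agent.Lib.MP_b6d339_lc.Cw3.T0
import Pool.Agent.Lib.MP_b6d339_lc.Cw3.T1
import Pool.Agent.Lib.MP_b6d339_lc.Cw3.T10
import Pool.Agent.Lib.MP_b6d339_lc.Cw3.T11
import Pool.Agent.Lib.MP_b6d339_lc.Cw3.T12
import Pool.Agent.Lib.MP_b6d339_lc.Cw3.T13
import Pool.Agent.Lib.MP_b6d339_lc.Cw3.T14
import Pool.Agent.Lib.MP_b6d339_lc.Cw3.T15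
import Pool.Agent.Lib.MP_b6d339_lc.Cw3.T17
import Pool.Agent.Lib.MP_b6d339_lc.Cw3.T19
import Pool.Agent.Lib.MP_b6d339_lc.Cw3.T2
import Pool.Agent.Lib.MP_b6d339_lc.Cw3.T20
import Pool.Agent.Lib.MP_b6d339_lc.Cw3.T22
import Pool.Agent.Lib.MP_b6d339_lc.Cw3.T23
import Pool.Agent.Lib.MP_b6d339_lc.Cw3.T25
import Pool.Agent.Lib.MP_b6d339_lc.Cw3.T26
import Pool.Agent.Lib.MP_b6d339_lc.Cw3.T27
import Pool.Agent.Lib.MP_b6d339_lc.Cw3.T28
import Pool.Agent.Lib.MP_b6d339_lc.Cw3.T29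
import Pool.Agent.Lib.MP_b6d339_lc.Cw3.T3
import Pool.Agent.Lib.MP_b6d339_lc.Cw3.T31
import Pool.Agent.Lib.MP_b6d339_lc.Cw3.T32
import Pool.Agent.Lib.MP_b6d339_lc.Cw3.T33
import Pool.Agent.Lib.MP_b6d339_lc.Cw3.T34
import Pool.Agent.Lib.MP_b6d339_lc.Cw3.T35
import Pool.Agent.Lib.MP_b6d339_lc.Cw3.T36
import Pool.Agent.Lib.MP_b6d339_lc.Cw3.T5
import Pool.Agent.Lib.MP_b6d339_lc.Cw3.T6
import Pool.Agent.Lib.MP_b6d339_lc.Cw3.T7
import Pool.Agent.Lib.MP_b6d339_lc.Cw3.T8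
import Pool.Agent.Lib.MP_b6d339_lc.Cw3.T9

/-!
# Erdős 592, three levels: items
-/

namespace MPb6R

open MPb6P

noncomputable def iiNFzAyE2ByA3H2AzIzAyB2H3A2EyA2AzAyBzF : BT Itm := (.node (.node (.node (.node (.node (.node (.node (.node (.leaf (.fwd 0 27 tpr499.df)) (.leaf (.fwd 27 23 tpr5.df))) (.leaf (.fwd 50 37 tpr2334.df))) (.node (.leaf (.fwd 87 13 tpr500.df)) (.leaf (.fwd 100 46 tpr1765.df)))) (.node (.node (.node (.leaf (.fwd 146 39 tpr2335.df)) (.leaf (.fwd 185 39 tpr210.df))) (.leaf (.fwd 224 39 tpr2349.df))) (.node (.leaf (.fwd 263 33 tpr44.df)) (.leaf (.bwd 296 39 tpr2123.df))))) (.node (.node (.node (.node (.leaf (.bwd 335 27 tpr979.df)) (.leaf (.bwd 362 22 tpr2487.df))) (.leaf (.fwd 384 44 tpr2260.df))) (.node (.leaf (.bwd 428 22 tpr953.df)) (.leaf (.fwd 450 20 tpr103.df)))) (.node (.node (.node (.leaf (.fwd 470 42 tpr2329.df)) (.leaf (.fwd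 512 35 tpr574.df))) (.leaf (.bwd 547 55 tpr2187.df))) (.node (.leaf (.fwd 602 6 tpr4.df)) (.leaf (.bwd 608 30 tpr577.df)))))) (.node (.node (.node (.node (.node (.leaf (.fwd 638 30 tpr2167.df)) (.leaf (.fwd 668 32 tpr247.df))) (.leaf (.fwd 700 31 tpr2398.df))) (.node (.leaf (.bwd 731 34 tpr1206.df)) (.leaf (.bwd 765 53 tpr815.df)))) (.node (.node (.node (.leaf (.fwd 818 52 tpr814.df)) (.leaf (.bwd 870 40 tpr62.df))) (.leaf (.bwd 910 27 tpr499.df))) (.node (.leaf (.fwd 937 25 tpr51.df)) (.leaf (.bwd 962 32 tpr113.df))))) (.node (.node (.node (.node (.leaf (.fwd 994 16 tpr168.df)) (.leaf (.bwd 1010 30 tpr2324.df))) (.leaf (.fwd 1040 38 tpr2343.df))) (.node (.leaf (.bwd 1078 25 tpr10.df)) (.leaf (.fwd 1103 27 tpr82.df)))) (.node (.node (.node (.leaf (.fwd 1130 28 tpr507.df)) (.leaf (.fwd 1158 37 tpr555.df))) (.leaf (.fwd 1195 39 tpr1112.df))) (.node (.leaf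 (.bwd 1234 58 tpr1143.df)) (.leaf (.bwd 1292 29 tpr22.df))))))) (.node (.node (.node (.node (.node (.node (.leaf (.fwd 1321 45 tpr596.df)) (.leaf (.fwd 1366 41 tpr502.df))) (.leaf (.bwd 1407 22 tpr504.df))) (.node (.leaf (.bwd 1429 32 tpr294.df)) (.leaf (.bwd 1461 31 tpr576.df)))) (.node (.node (.node (.leaf (.fwd 1492 32 tpr17.df)) (.leaf (.bwd 1524 33 tpr1099.df))) (.leaf (.fwd 1557 36 tpr683.df))) (.node (.leaf (.fwd 1593 39 tpr701.df)) (.leaf (.fwd 1632 31 tpr949.df))))) (.node (.node (.node (.node (.leaf (.fwd 1663 32 tpr1633.df)) (.leaf (.fwd 1695 34 tpr619.df))) (.leaf (.fwd 1729 38 tpr2485.df))) (.node (.leaf (.fwd 1767 48 tpr2670.df)) (.leaf (.bwd 1815 22 tpr581.df)))) (.node (.node (.node (.leaf (.fwd 1837 22 tpr239.df)) (.leaf (.fwd 1859 22 tpr982.df))) (.leaf (.bwd 1881 35 tpr541.df))) (.node (.leaf (.fwd 1916 33 tpr680.df)) (.leaf (.fwd 1949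 41 tpr2621.df)))))) (.node (.node (.node (.node (.node (.leaf (.fwd 1990 38 tpr1767.df)) (.leaf (.bwd 2028 32 tpr518.df))) (.leaf (.fwd 2060 23 tpr559.df))) (.node (.leaf (.fwd 2083 29 tpr641.df)) (.leaf (.bwd 2112 54 tpr1193.df)))) (.node (.node (.node (.leaf (.fwd 2166 44 tpr466.df)) (.leaf (.fwd 2210 23 tpr12.df))) (.leaf (.bwd 2233 42 tpr2217.df))) (.node (.leaf (.fwd 2275 29 tpr656.df)) (.leaf (.bwd 2304 28 tpr721.df))))) (.node (.node (.node (.node (.leaf (.bwd 2332 27 tpr625.df)) (.leaf (.bwd 2359 42 tpr2616.df))) (.leaf (.fwd 2401 33 tpr645.df))) (.node (.leaf (.bwd 2434 33 tpr2154.df)) (.leaf (.fwd 2467 31 tpr2150.df)))) (.node (.node (.node (.leaf (.bwd 2498 39 tpr636.df)) (.leaf (.bwd 2537 30 tpr997.df))) (.leaf (.fwd 2567 35 tpr2166.df))) (.node (.leaf (.fwd 2602 39 tpr1900.df)) (.leaf (.fwd 2641 45 tpr611.df)))))))) (.node (.node (.node (.node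 (.node (.node (.node (.leaf (.fwd 2686 24 tpr810.df)) (.leaf (.fwd 2710 33 tpr2171.df))) (.leaf (.fwd 2743 23 tpr780.df))) (.node (.leaf (.bwd 2766 23 tpr1562.df)) (.leaf (.fwd 2789 33 tpr1215.df)))) (.node (.node (.node (.leaf (.bwd 2822 39 tpr1001.df)) (.leaf (.fwd 2861 39 tpr569.df))) (.leaf (.fwd 2900 49 tpr2133.df))) (.node (.leaf (.fwd 2949 44 tpr2189.df)) (.leaf (.bwd 2993 31 tpr2130.df))))) (.node (.node (.node (.node (.leaf (.bwd 3024 40 tpr2005.df)) (.leaf (.fwd 3064 29 tpr608.df))) (.leaf (.bwd 3093 23 tpr640.df))) (.node (.leaf (.bwd 3116 34 tpr2504.df)) (.leaf (.bwd 3150 36 tpr2509.df)))) (.node (.node (.node (.leaf (.fwd 3186 32 tpr2619.df)) (.leaf (.bwd 3218 30 tpr2488.df))) (.leaf (.bwd 3248 43 tpr2125.df))) (.node (.leaf (.bwd 3291 35 tpr2215.df)) (.leaf (.fwd 3326 32 tpr2277.df)))))) (.node (.node (.node (.node (.node (.leaf (.bwd 3358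 35 tpr2131.df)) (.leaf (.bwd 3393 25 tpr106.df))) (.leaf (.bwd 3418 27 tpr1247.df))) (.node (.leaf (.bwd 3445 47 tpr2196.df)) (.leaf (.fwd 3492 32 tpr1051.df)))) (.node (.node (.node (.leaf (.fwd 3524 44 tpr2253.df)) (.leaf (.fwd 3568 37 tpr2239.df))) (.leaf (.bwd 3605 42 tpr2233.df))) (.node (.leaf (.fwd 3647 40 tpr2007.df)) (.leaf (.bwd 3687 43 tpr2491.df))))) (.node (.node (.node (.node (.leaf (.fwd 3730 48 tpr2177.df)) (.leaf (.bwd 3778 43 tpr2624.df))) (.leaf (.bwd 3821 33 tpr2351.df))) (.node (.leaf (.fwd 3854 33 tpr1780.df)) (.leaf (.bwd 3887 31 tpr2498.df)))) (.node (.node (.node (.leaf (.fwd 3918 51 tpr2525.df)) (.leaf (.fwd 3969 37 tpr2620.df))) (.leaf (.fwd 4006 37 tpr2497.df))) (.node (.leaf (.bwd 4043 36 tpr2278.df)) (.leaf (.bwd 4079 39 tpr2529.df))))))) (.node (.node (.node (.node (.node (.node (.leaf (.fwd 4118 28 tpr2236.df)) (.leaf (.fwd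 4146 31 tpr2256.df))) (.leaf (.fwd 4177 49 tpr1647.df))) (.node (.leaf (.bwd 4226 37 tpr555.df)) (.leaf (.fwd 4263 23 tpr1255.df)))) (.node (.node (.node (.leaf (.bwd 4286 36 tpr2208.df)) (.leaf (.bwd 4322 22 tpr959.df))) (.leaf (.bwd 4344 28 tpr2126.df))) (.node (.leaf (.bwd 4372 41 tpr2524.df)) (.leaf (.bwd 4413 19 tpr33.df))))) (.node (.node (.node (.node (.leaf (.fwd 4432 39 tpr2672.df)) (.leaf (.bwd 4471 21 tpr90.df))) (.leaf (.fwd 4492 30 tpr1024.df))) (.node (.leaf (.fwd 4522 38 tpr2328.df)) (.leaf (.fwd 4560 37 tpr1414.df)))) (.node (.node (.node (.leaf (.bwd 4597 45 tpr2626.df)) (.leaf (.bwd 4642 35 tpr2689.df))) (.leaf (.fwd 4677 36 tpr1771.df))) (.node (.leaf (.fwd 4713 35 tpr2537.df)) (.leaf (.fwd 4748 45 tpr2627.df)))))) (.node (.node (.node (.node (.node (.leaf (.fwd 4793 34 tpr614.df)) (.leaf (.fwd 4827 31 tpr2879.df))) (.leaf (.fwd 4858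 60 tpr2350.df))) (.node (.leaf (.fwd 4918 40 tpr2546.df)) (.leaf (.fwd 4958 42 tpr2543.df)))) (.node (.node (.node (.leaf (.fwd 5000 34 tpr1764.df)) (.leaf (.fwd 5034 24 tpr789.df))) (.leaf (.fwd 5058 38 tpr2628.df))) (.node (.leaf (.fwd 5096 26 tpr2731.df)) (.leaf (.fwd 5122 26 tpr2682.df))))) (.node (.node (.node (.node (.leaf (.fwd 5148 34 tpr738.df)) (.leaf (.fwd 5182 38 tpr2231.df))) (.leaf (.bwd 5220 24 tpr697.df))) (.node (.leaf (.fwd 5244 31 tpr606.df)) (.leaf (.fwd 5275 28 tpr2113.df)))) (.node (.node (.leaf (.fwd 5303 34 tpr2891.df)) (.leaf (.fwd 5337 50 tpr2634.df))) (.node (.leaf (.bwd 5387 37 tpr2164.df)) (.leaf (.bwd 5424 39 tpr2559.df)))))))))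

theorem iiNFzAyE2ByA3H2AzIzAyB2H3A2EyA2AzAyBzF_c : iiNFzAyE2ByA3H2AzIzAyB2H3A2EyA2AzAyBzF.all (itB (ng 60 nnNFzAyE2ByA3H2AzIzAyB2H3A2EyA2AzAyBzF)) = true := by decide +kernel
theorem nbNFzAyE2ByA3H2AzIzAyB2H3A2EyA2AzAyBzF : nbB 60 5523 nnNFzAyE2ByA3H2AzIzAyB2H3A2EyA2AzAyBzF = true := by decide +kernel
theorem topNFzAyE2ByA3H2AzIzAyB2H3A2EyA2AzAyBzF : topY 5523 ttNFzAyE2ByA3H2AzIzAyB2H3A2EyA2AzAyBzF ceNFzAyE2ByA3H2AzIzAyB2H3A2EyA2AzAyBzF xNFzAyE2ByA3H2AzIzAyB2H3A2EyA2AzAyBzF iiNFzAyE2ByA3H2AzIzAyB2H3A2EyA2AzAyBzF = true := by decide +kernel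

end MPb6R
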