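import Pool.Agent.Lib.MP_b6d339_lc.Cw3.YFzAyE2ByA3H3A2E2A2AzAyBzF
import Pool.Agent.Lib.MP_b6d339_lc.Cw3.XL
import Pool.Agent.Lib.MP_b6d339_lc.Cw3.T0
import Pool.Agent.Lib.MP_b6d339_lc.Cw3.T1
import Pool.Agent.Lib.MP_b6d339_lc.Cw3.T10
import Pool.Agent.Lib.MP_b6d339_lc.Cw3.T12
import Pool.Agent.Lib.MP_b6d339_lc.Cw3.T13
import Pool.Agent.Lib.MP_b6d339_lc.Cw3.T14
import Pool.Agent.Lib.MP_b6d339_lc.Cw3.T15
import Pool.Agent.Lib.MP_b6d339_lc.Cw3.T16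
import Pool.Agent.Lib.MP_b6d339_lc.Cw3.T18
import Pool.Agent.Lib.MP_b6d339_lc.Cw3.T19
import Pool.Agent.Lib.MP_b6d339_lc.Cw3.T2
import Pool.Agent.Lib.MP_b6d339_lc.Cw3.T20
import Pool.Agent.Lib.MP_b6d339_lc.Cw3.T21
import Pool.Agent.Lib.MP_b6d339_lc.Cw3.T22
import Pool.Agent.Lib.MP_b6d339_lc.Cw3.T23
import Pool.Agent.Lib.MP_b6d339_lc.Cw3.T24
import Pool.Agent.Lib.MP_b6d339_lc.Cw3.T25
import Pool.Agent.Lib.MP_b6d339_lc.Cw3.T26
import Pool.Agent.Lib.MP_b6d339_lc.Cw3.T27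
import Pool.Agent.Lib.MP_b6d339_lc.Cw3.T28
import Pool.Agent.Lib.MP_b6d339_lc.Cw3.T3
import Pool.Agent.Lib.MP_b6d339_lc.Cw3.T31
import Pool.Agent.Lib.MP_b6d339_lc.Cw3.T5
import Pool.Agent.Lib.MP_b6d339_lc.Cw3.T6
import Pool.Agent.Lib.MP_b6d339_lc.Cw3.T7
import Pool.Agent.Lib.MP_b6d339_lc.Cw3.T8
import Pool.Agent.Lib.MP_b6d339_lc.Cw3.T9

/-!
# Erdős 592, three levels: items
-/

namespace MPb6R

open MPb6P

noncomputable def iiNFzAyE2ByA3H3A2E2A2AzAyBzF : BT Itm := (.node (.node (.node (.node (.node (.node (.node (.node (.leaf (.fwd 0 23 tpr5.df)) (.leaf (.fwd 23 13 tpr500.df))) (.node (.leaf (.fwd 36 27 tpr82.df)) (.leaf (.bwd 63 27 tpr499.df)))) (.node (.node (.leaf (.bwd 90 22 tpr504.df)) (.leaf (.bwd 112 48 tpr2114.df))) (.leaf (.bwd 160 28 tpr2112.df)))) (.node (.node (.node (.leaf (.fwd 188 25 tpr51.df)) (.leaf (.bwd 213 32 tpr518.df))) (.leaf (.fwd 245 39 tpr210.df)))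 (.node (.node (.leaf (.bwd 284 39 tpr2123.df)) (.leaf (.fwd 323 15 tpr419.df))) (.leaf (.fwd 338 16 tpr168.df))))) (.node (.node (.node (.node (.leaf (.bwd 354 39 tpr636.df)) (.leaf (.bwd 393 43 tpr2125.df))) (.node (.leaf (.fwd 436 37 tpr2239.df)) (.leaf (.fwd 473 23 tpr559.df)))) (.node (.node (.leaf (.bwd 496 37 tpr2111.df)) (.leaf (.fwd 533 45 tpr596.df))) (.leaf (.fwd 578 37 tpr555.df)))) (.node (.node (.node (.leaf (.fwd 615 22 tpr982.df)) (.leaf (.fwd 637 44 tpr466.df))) (.leaf (.fwd 681 28 tpr2113.df))) (.node (.node (.leaf (.fwd 709 49 tpr1647.df)) (.leaf (.fwd 758 46 tpr1765.df))) (.leaf (.bwd 804 42 tpr2233.df)))))) (.node (.node (.node (.node (.node (.leaf (.fwd 846 34 tpr619.df)) (.leaf (.bwd 880 32 tpr113.df))) (.node (.leaf (.bwd 912 36 tpr2208.df)) (.leaf (.bwd 948 54 tpr1193.df)))) (.node (.node (.leaf (.bwd 1002 20 tpr505.df)) (.leaf (.bwd 1022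 35 tpr2131.df))) (.leaf (.bwd 1057 58 tpr2230.df)))) (.node (.node (.node (.leaf (.bwd 1115 38 tpr2040.df)) (.leaf (.fwd 1153 33 tpr1215.df))) (.leaf (.bwd 1186 39 tpr1001.df))) (.node (.node (.leaf (.bwd 1225 49 tpr2137.df)) (.leaf (.fwd 1274 30 tpr2167.df))) (.leaf (.bwd 1304 35 tpr2215.df))))) (.node (.node (.node (.node (.leaf (.fwd 1339 38 tpr2116.df)) (.leaf (.fwd 1377 49 tpr2133.df))) (.leaf (.bwd 1426 29 tpr2225.df))) (.node (.node (.leaf (.fwd 1455 29 tpr2163.df)) (.leaf (.fwd 1484 48 tpr2177.df))) (.leaf (.bwd 1532 37 tpr2164.df)))) (.node (.node (.node (.leaf (.bwd 1569 35 tpr2244.df)) (.leaf (.fwd 1604 37 tpr583.df))) (.leaf (.bwd 1641 31 tpr2149.df))) (.node (.node (.leaf (.fwd 1672 44 tpr2260.df)) (.leaf (.fwd 1716 52 tpr814.df))) (.leaf (.bwd 1768 58 tpr1143.df))))))) (.node (.node (.node (.node (.node (.node (.leaf (.fwd 1826 27 tpr499.df)) (.leaf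 (.fwd 1853 35 tpr2229.df))) (.node (.leaf (.fwd 1888 39 tpr1900.df)) (.leaf (.bwd 1927 26 tpr2272.df)))) (.node (.node (.leaf (.fwd 1953 35 tpr2166.df)) (.leaf (.fwd 1988 44 tpr2189.df))) (.leaf (.fwd 2032 25 tpr2186.df)))) (.node (.node (.node (.leaf (.bwd 2057 36 tpr2278.df)) (.leaf (.fwd 2093 30 tpr613.df))) (.leaf (.fwd 2123 46 tpr2153.df))) (.node (.node (.leaf (.bwd 2169 31 tpr2130.df)) (.leaf (.fwd 2200 32 tpr2277.df))) (.leaf (.bwd 2232 33 tpr2154.df))))) (.node (.node (.node (.node (.leaf (.bwd 2265 42 tpr2217.df)) (.leaf (.bwd 2307 28 tpr2126.df))) (.leaf (.bwd 2335 51 tpr2161.df))) (.node (.node (.leaf (.fwd 2386 51 tpr2226.df)) (.leaf (.fwd 2437 27 tpr2267.df))) (.leaf (.bwd 2464 29 tpr2269.df)))) (.node (.node (.node (.leaf (.fwd 2493 25 tpr10.df)) (.leaf (.fwd 2518 35 tpr2262.df))) (.leaf (.bwd 2553 47 tpr2196.df))) (.node (.node (.leaf (.bwd 2600 47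 tpr2264.df)) (.leaf (.fwd 2647 43 tpr1573.df))) (.leaf (.fwd 2690 36 tpr2144.df)))))) (.node (.node (.node (.node (.node (.leaf (.fwd 2726 32 tpr1051.df)) (.leaf (.bwd 2758 29 tpr2120.df))) (.node (.leaf (.bwd 2787 39 tpr2295.df)) (.leaf (.fwd 2826 24 tpr2134.df)))) (.node (.node (.leaf (.fwd 2850 23 tpr12.df)) (.leaf (.bwd 2873 47 tpr2143.df))) (.leaf (.bwd 2920 19 tpr33.df)))) (.node (.node (.node (.leaf (.fwd 2939 44 tpr2238.df)) (.leaf (.fwd 2983 27 tpr1475.df))) (.leaf (.fwd 3010 32 tpr2128.df))) (.node (.node (.leaf (.bwd 3042 24 tpr24.df)) (.leaf (.bwd 3066 47 tpr2129.df))) (.leaf (.fwd 3113 38 tpr2145.df))))) (.node (.node (.node (.node (.leaf (.fwd 3151 33 tpr35.df)) (.leaf (.bwd 3184 33 tpr28.df))) (.leaf (.bwd 3217 35 tpr2247.df))) (.node (.node (.leaf (.bwd 3252 38 tpr1542.df)) (.leaf (.fwd 3290 38 tpr1334.df))) (.leaf (.fwd 3328 35 tpr89.df)))) (.node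 (.node (.node (.leaf (.fwd 3363 20 tpr216.df)) (.leaf (.bwd 3383 36 tpr1346.df))) (.leaf (.fwd 3419 31 tpr1532.df))) (.node (.node (.leaf (.bwd 3450 31 tpr21.df)) (.leaf (.fwd 3481 20 tpr1355.df))) (.leaf (.bwd 3501 30 tpr2488.df)))))))) (.node (.node (.node (.node (.node (.node (.node (.leaf (.fwd 3531 46 tpr1464.df)) (.leaf (.fwd 3577 45 tpr611.df))) (.node (.leaf (.fwd 3622 40 tpr966.df)) (.leaf (.fwd 3662 34 tpr1341.df)))) (.node (.node (.leaf (.fwd 3696 39 tpr1112.df)) (.leaf (.bwd 3735 32 tpr294.df))) (.leaf (.fwd 3767 44 tpr617.df)))) (.node (.node (.node (.leaf (.fwd 3811 20 tpr103.df)) (.leaf (.bwd 3831 30 tpr2205.df))) (.leaf (.bwd 3861 21 tpr629.df))) (.node (.node (.leaf (.fwd 3882 29 tpr656.df)) (.leaf (.bwd 3911 35 tpr1942.df))) (.leaf (.fwd 3946 32 tpr591.df))))) (.node (.node (.node (.node (.leaf (.fwd 3978 22 tpr2227.df)) (.leaf (.fwd 4000 22 tpr191.df)))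 (.node (.leaf (.fwd 4022 38 tpr2231.df)) (.leaf (.fwd 4060 31 tpr2256.df)))) (.node (.node (.leaf (.bwd 4091 50 tpr2206.df)) (.leaf (.bwd 4141 40 tpr1590.df))) (.leaf (.bwd 4181 44 tpr2124.df)))) (.node (.node (.node (.leaf (.bwd 4225 34 tpr2136.df)) (.leaf (.bwd 4259 35 tpr602.df))) (.leaf (.fwd 4294 39 tpr2210.df))) (.node (.node (.leaf (.fwd 4333 34 tpr2257.df)) (.leaf (.bwd 4367 40 tpr2005.df))) (.leaf (.fwd 4407 31 tpr2150.df)))))) (.node (.node (.node (.node (.node (.leaf (.bwd 4438 37 tpr1570.df)) (.leaf (.bwd 4475 32 tpr2191.df))) (.node (.leaf (.fwd 4507 40 tpr2007.df)) (.leaf (.fwd 4547 29 tpr618.df)))) (.node (.node (.leaf (.fwd 4576 35 tpr657.df)) (.leaf (.fwd 4611 33 tpr680.df))) (.leaf (.fwd 4644 22 tpr1870.df)))) (.node (.node (.node (.leaf (.fwd 4666 32 tpr2122.df)) (.leaf (.fwd 4698 30 tpr744.df))) (.leaf (.fwd 4728 29 tpr608.df))) (.node (.node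 (.leaf (.bwd 4757 28 tpr588.df)) (.leaf (.bwd 4785 22 tpr581.df))) (.leaf (.bwd 4807 32 tpr1065.df))))) (.node (.node (.node (.node (.leaf (.fwd 4839 33 tpr2171.df)) (.leaf (.fwd 4872 47 tpr1762.df))) (.leaf (.fwd 4919 37 tpr2172.df))) (.node (.node (.leaf (.fwd 4956 28 tpr2176.df)) (.leaf (.bwd 4984 44 tpr2151.df))) (.leaf (.fwd 5028 32 tpr518.df)))) (.node (.node (.node (.leaf (.fwd 5060 37 tpr2119.df)) (.leaf (.fwd 5097 34 tpr2212.df))) (.leaf (.fwd 5131 33 tpr1664.df))) (.node (.node (.leaf (.fwd 5164 24 tpr2232.df)) (.leaf (.fwd 5188 36 tpr2179.df))) (.leaf (.fwd 5224 32 tpr522.df))))))) (.node (.node (.node (.node (.node (.node (.leaf (.bwd 5256 34 tpr575.df)) (.leaf (.fwd 5290 23 tpr1255.df))) (.node (.leaf (.bwd 5313 36 tpr2157.df)) (.leaf (.bwd 5349 27 tpr2190.df)))) (.node (.node (.leaf (.fwd 5376 44 tpr2253.df)) (.leaf (.bwd 5420 25 tpr2079.df))) (.leaf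 (.bwd 5445 25 tpr106.df)))) (.node (.node (.node (.leaf (.bwd 5470 31 tpr2224.df)) (.leaf (.fwd 5501 37 tpr2282.df))) (.leaf (.fwd 5538 32 tpr17.df))) (.node (.node (.leaf (.fwd 5570 41 tpr2173.df)) (.leaf (.fwd 5611 29 tpr2115.df))) (.leaf (.bwd 5640 48 tpr684.df))))) (.node (.node (.node (.node (.leaf (.fwd 5688 39 tpr962.df)) (.leaf (.fwd 5727 23 tpr456.df))) (.leaf (.fwd 5750 39 tpr479.df))) (.node (.node (.leaf (.fwd 5789 35 tpr485.df)) (.leaf (.fwd 5824 24 tpr454.df))) (.leaf (.bwd 5848 21 tpr90.df)))) (.node (.node (.node (.leaf (.bwd 5869 30 tpr2240.df)) (.leaf (.bwd 5899 44 tpr2242.df))) (.leaf (.fwd 5943 35 tpr1313.df))) (.node (.node (.leaf (.bwd 5978 28 tpr477.df)) (.leaf (.fwd 6006 25 tpr1311.df))) (.leaf (.fwd 6031 31 tpr2246.df)))))) (.node (.node (.node (.node (.node (.leaf (.fwd 6062 32 tpr2117.df)) (.leaf (.fwd 6094 25 tpr2241.df))) (.node (.leaf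 (.fwd 6119 24 tpr2107.df)) (.leaf (.fwd 6143 37 tpr2132.df)))) (.node (.node (.leaf (.fwd 6180 42 tpr972.df)) (.leaf (.fwd 6222 44 tpr2213.df))) (.leaf (.fwd 6266 26 tpr2290.df)))) (.node (.node (.node (.leaf (.bwd 6292 31 tpr2127.df)) (.leaf (.bwd 6323 27 tpr1247.df))) (.leaf (.fwd 6350 40 tpr2178.df))) (.node (.node (.leaf (.bwd 6390 34 tpr1204.df)) (.leaf (.fwd 6424 28 tpr2195.df))) (.leaf (.bwd 6452 29 tpr2261.df))))) (.node (.node (.node (.node (.leaf (.bwd 6481 33 tpr2228.df)) (.leaf (.fwd 6514 40 tpr2263.df))) (.leaf (.bwd 6554 35 tpr2248.df))) (.node (.node (.leaf (.bwd 6589 57 tpr2266.df)) (.leaf (.bwd 6646 39 tpr2283.df))) (.leaf (.fwd 6685 34 tpr1764.df)))) (.node (.node (.node (.leaf (.bwd 6719 36 tpr1194.df)) (.leaf (.bwd 6755 53 tpr815.df))) (.leaf (.fwd 6808 41 tpr502.df))) (.node (.node (.leaf (.fwd 6849 34 tpr2310.df)) (.leaf (.bwd 6883 33 tpr1943.df)))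 (.leaf (.bwd 6916 44 tpr1747.df)))))))))

theorem iiNFzAyE2ByA3H3A2E2A2AzAyBzF_c : iiNFzAyE2ByA3H3A2E2A2AzAyBzF.all (itB (ng 58 nnNFzAyE2ByA3H3A2E2A2AzAyBzF)) = true := by decide +kernel
theorem nbNFzAyE2ByA3H3A2E2A2AzAyBzF : nbB 58 7018 nnNFzAyE2ByA3H3A2E2A2AzAyBzF = true := by decide +kernel
theorem topNFzAyE2ByA3H3A2E2A2AzAyBzF : topY 7018 ttNFzAyE2ByA3H3A2E2A2AzAyBzF ceNFzAyE2ByA3H3A2E2A2AzAyBzF xNFzAyE2ByA3H3A2E2A2AzAyBzF iiNFzAyE2ByA3H3A2E2A2AzAyBzF = true := by decide +kernel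

end MPb6R
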