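import Pool.Agent.Lib.MP_b6d339_lc.Cw3.YFzAzE2A3H2AzIzA2H3AyB2EzF
import Pool.Agent.Lib.MP_b6d339_lc.Cw3.XL
import Pool.Agent.Lib.MP_b6d339_lc.Cw3.T0
import Pool.Agent.Lib.MP_b6d339_lc.Cw3.T1
import Pool.Agent.Lib.MP_b6d339_lc.Cw3.T12
import Pool.Agent.Lib.MP_b6d339_lc.Cw3.T14
import Pool.Agent.Lib.MP_b6d339_lc.Cw3.T15
import Pool.Agent.Lib.MP_b6d339_lc.Cw3.T2
import Pool.Agent.Lib.MP_b6d339_lc.Cw3.T20
import Pool.Agent.Lib.MP_b6d339_lc.Cw3.T21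
import Pool.Agent.Lib.MP_b6d339_lc.Cw3.T22
import Pool.Agent.Lib.MP_b6d339_lc.Cw3.T23
import Pool.Agent.Lib.MP_b6d339_lc.Cw3.T25
import Pool.Agent.Lib.MP_b6d339_lc.Cw3.T28
import Pool.Agent.Lib.MP_b6d339_lc.Cw3.T3
import Pool.Agent.Lib.MP_b6d339_lc.Cw3.T32
import Pool.Agent.Lib.MP_b6d339_lc.Cw3.T33
import Pool.Agent.Lib.MP_b6d339_lc.Cw3.T4
import Pool.Agent.Lib.MP_b6d339_lc.Cw3.T5
import Pool.Agent.Lib.MP_b6d339_lc.Cw3.T6
import Pool.Agent.Lib.MP_b6d339_lc.Cw3.T7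
import Pool.Agent.Lib.MP_b6d339_lc.Cw3.T8
import Pool.Agent.Lib.MP_b6d339_lc.Cw3.T9

/-!
# Erdős 592, three levels: items
-/

namespace MPb6R

open MPb6P

noncomputable def iiNFzAzE2A3H2AzIzA2H3AyB2EzF : BT Itm := (.node (.node (.node (.node (.node (.node (.node (.node (.leaf (.bwd 0 21 tpr8.df)) (.leaf (.bwd 21 29 tpr22.df))) (.node (.leaf (.bwd 50 13 tpr500.df)) (.leaf (.bwd 63 20 tpr505.df)))) (.node (.node (.leaf (.fwd 83 28 tpr507.df)) (.leaf (.fwd 111 38 tpr519.df))) (.node (.leaf (.bwd 149 23 tpr5.df)) (.leaf (.fwd 172 26 tpr509.df))))) (.node (.node (.node (.leaf (.fwd 198 55 tpr1829.df)) (.leaf (.bwd 253 19 tpr616.df))) (.node (.leaf (.fwd 272 29 tpr545.df)) (.leaf (.fwd 301 21 tpr629.df)))) (.node (.node (.leaf (.fwd 322 28 tpr511.df)) (.leaf (.fwd 350 23 tpr508.df))) (.leaf (.fwd 373 31 tpr607.df))))) (.node (.node (.node (.node (.leaf (.fwd 404 27 tpr82.df))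 (.leaf (.fwd 431 31 tpr606.df))) (.node (.leaf (.fwd 462 13 tpr500.df)) (.leaf (.fwd 475 32 tpr518.df)))) (.node (.node (.leaf (.bwd 507 24 tpr609.df)) (.leaf (.bwd 531 25 tpr51.df))) (.node (.leaf (.fwd 556 36 tpr547.df)) (.leaf (.bwd 592 22 tpr191.df))))) (.node (.node (.node (.leaf (.fwd 614 30 tpr320.df)) (.leaf (.fwd 644 35 tpr534.df))) (.node (.leaf (.fwd 679 35 tpr29.df)) (.leaf (.bwd 714 16 tpr168.df)))) (.node (.node (.leaf (.bwd 730 35 tpr259.df)) (.leaf (.fwd 765 21 tpr90.df))) (.leaf (.fwd 786 21 tpr72.df)))))) (.node (.node (.node (.node (.node (.leaf (.fwd 807 46 tpr116.df)) (.leaf (.bwd 853 37 tpr316.df))) (.node (.leaf (.bwd 890 29 tpr656.df)) (.leaf (.fwd 919 55 tpr314.df)))) (.node (.node (.leaf (.fwd 974 26 tpr516.df)) (.leaf (.bwd 1000 29 tpr608.df))) (.node (.leaf (.fwd 1029 37 tpr1835.df)) (.leaf (.fwd 1066 43 tpr323.df))))) (.node (.node (.node (.leaf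 (.fwd 1109 29 tpr564.df)) (.leaf (.fwd 1138 28 tpr2031.df))) (.node (.leaf (.fwd 1166 43 tpr1781.df)) (.leaf (.fwd 1209 27 tpr506.df)))) (.node (.node (.leaf (.fwd 1236 31 tpr198.df)) (.leaf (.fwd 1267 33 tpr44.df))) (.leaf (.fwd 1300 37 tpr583.df))))) (.node (.node (.node (.node (.leaf (.fwd 1337 30 tpr537.df)) (.leaf (.fwd 1367 26 tpr675.df))) (.node (.leaf (.bwd 1393 23 tpr605.df)) (.leaf (.bwd 1416 27 tpr562.df)))) (.node (.node (.leaf (.bwd 1443 32 tpr591.df)) (.leaf (.fwd 1475 23 tpr559.df))) (.node (.leaf (.bwd 1498 35 tpr622.df)) (.leaf (.fwd 1533 31 tpr557.df))))) (.node (.node (.node (.leaf (.bwd 1564 36 tpr672.df)) (.leaf (.fwd 1600 40 tpr1799.df))) (.node (.leaf (.fwd 1640 33 tpr689.df)) (.leaf (.fwd 1673 25 tpr2573.df)))) (.node (.node (.leaf (.bwd 1698 36 tpr665.df)) (.leaf (.bwd 1734 29 tpr618.df))) (.leaf (.fwd 1763 40 tpr62.df))))))) (.node (.node (.node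 (.node (.node (.node (.leaf (.fwd 1803 20 tpr48.df)) (.leaf (.fwd 1823 41 tpr549.df))) (.node (.leaf (.bwd 1864 30 tpr613.df)) (.leaf (.bwd 1894 34 tpr548.df)))) (.node (.node (.leaf (.bwd 1928 35 tpr91.df)) (.leaf (.bwd 1963 33 tpr663.df))) (.node (.leaf (.bwd 1996 37 tpr687.df)) (.leaf (.fwd 2033 44 tpr1705.df))))) (.node (.node (.node (.leaf (.fwd 2077 24 tpr667.df)) (.leaf (.bwd 2101 37 tpr553.df))) (.node (.leaf (.bwd 2138 32 tpr620.df)) (.leaf (.bwd 2170 34 tpr664.df)))) (.node (.node (.leaf (.bwd 2204 40 tpr670.df)) (.leaf (.bwd 2244 29 tpr637.df))) (.leaf (.fwd 2273 35 tpr602.df))))) (.node (.node (.node (.node (.leaf (.fwd 2308 29 tpr647.df)) (.leaf (.bwd 2337 30 tpr989.df))) (.node (.leaf (.bwd 2367 58 tpr988.df)) (.leaf (.bwd 2425 42 tpr673.df)))) (.node (.node (.leaf (.fwd 2467 33 tpr661.df)) (.leaf (.bwd 2500 29 tpr666.df))) (.node (.leaf (.bwd 2529 34 tpr643.df))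 (.leaf (.bwd 2563 34 tpr755.df))))) (.node (.node (.node (.leaf (.bwd 2597 37 tpr555.df)) (.leaf (.bwd 2634 35 tpr568.df))) (.node (.leaf (.fwd 2669 25 tpr106.df)) (.leaf (.fwd 2694 28 tpr510.df)))) (.node (.node (.leaf (.fwd 2722 27 tpr524.df)) (.leaf (.bwd 2749 39 tpr210.df))) (.leaf (.fwd 2788 25 tpr677.df)))))) (.node (.node (.node (.node (.node (.leaf (.bwd 2813 37 tpr520.df)) (.leaf (.bwd 2850 37 tpr681.df))) (.node (.leaf (.bwd 2887 43 tpr676.df)) (.leaf (.bwd 2930 46 tpr593.df)))) (.node (.node (.leaf (.bwd 2976 27 tpr82.df)) (.leaf (.fwd 3003 27 tpr236.df))) (.node (.leaf (.bwd 3030 38 tpr526.df)) (.leaf (.fwd 3068 22 tpr504.df))))) (.node (.node (.node (.leaf (.bwd 3090 43 tpr2652.df)) (.leaf (.fwd 3133 49 tpr960.df))) (.node (.leaf (.fwd 3182 39 tpr78.df)) (.leaf (.bwd 3221 24 tpr293.df)))) (.node (.node (.leaf (.fwd 3245 30 tpr577.df)) (.leaf (.fwd 3275 43 tpr734.df)))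 (.leaf (.fwd 3318 58 tpr1719.df))))) (.node (.node (.node (.node (.leaf (.fwd 3376 43 tpr566.df)) (.leaf (.bwd 3419 31 tpr527.df))) (.node (.leaf (.bwd 3450 34 tpr619.df)) (.leaf (.fwd 3484 35 tpr585.df)))) (.node (.node (.leaf (.fwd 3519 27 tpr1247.df)) (.leaf (.fwd 3546 20 tpr505.df))) (.leaf (.fwd 3566 34 tpr54.df)))) (.node (.node (.node (.leaf (.bwd 3600 20 tpr103.df)) (.leaf (.fwd 3620 49 tpr2653.df))) (.node (.leaf (.bwd 3669 39 tpr642.df)) (.leaf (.bwd 3708 24 tpr24.df)))) (.node (.node (.leaf (.bwd 3732 42 tpr587.df)) (.leaf (.bwd 3774 27 tpr625.df))) (.leaf (.bwd 3801 29 tpr9.df)))))))) (.node (.node (.node (.node (.node (.node (.node (.leaf (.bwd 3830 37 tpr621.df)) (.leaf (.fwd 3867 25 tpr51.df))) (.node (.leaf (.bwd 3892 34 tpr15.df)) (.leaf (.fwd 3926 29 tpr978.df)))) (.node (.node (.leaf (.fwd 3955 24 tpr458.df)) (.leaf (.bwd 3979 38 tpr1264.df))) (.node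 (.leaf (.bwd 4017 34 tpr691.df)) (.leaf (.fwd 4051 41 tpr188.df))))) (.node (.node (.node (.leaf (.bwd 4092 32 tpr1859.df)) (.leaf (.bwd 4124 22 tpr515.df))) (.node (.leaf (.bwd 4146 57 tpr2029.df)) (.leaf (.fwd 4203 36 tpr1813.df)))) (.node (.node (.leaf (.bwd 4239 29 tpr1639.df)) (.leaf (.bwd 4268 33 tpr1215.df))) (.leaf (.bwd 4301 43 tpr2024.df))))) (.node (.node (.node (.node (.leaf (.fwd 4344 40 tpr1005.df)) (.leaf (.bwd 4384 33 tpr521.df))) (.node (.leaf (.fwd 4417 27 tpr499.df)) (.leaf (.fwd 4444 30 tpr513.df)))) (.node (.node (.leaf (.fwd 4474 27 tpr682.df)) (.leaf (.fwd 4501 33 tpr645.df))) (.node (.leaf (.fwd 4534 19 tpr429.df)) (.leaf (.fwd 4553 32 tpr17.df))))) (.node (.node (.node (.leaf (.bwd 4585 34 tpr1764.df)) (.leaf (.fwd 4619 32 tpr2654.df))) (.node (.leaf (.fwd 4651 38 tpr203.df)) (.leaf (.bwd 4689 38 tpr203.df)))) (.node (.node (.leaf (.fwd 4727 32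 tpr247.df)) (.leaf (.fwd 4759 24 tpr730.df))) (.leaf (.fwd 4783 39 tpr615.df)))))) (.node (.node (.node (.node (.node (.leaf (.bwd 4822 23 tpr1180.df)) (.leaf (.fwd 4845 44 tpr592.df))) (.node (.leaf (.fwd 4889 46 tpr2052.df)) (.leaf (.bwd 4935 37 tpr503.df)))) (.node (.node (.leaf (.bwd 4972 25 tpr633.df)) (.leaf (.bwd 4997 25 tpr679.df))) (.node (.leaf (.fwd 5022 37 tpr1789.df)) (.leaf (.bwd 5059 33 tpr501.df))))) (.node (.node (.node (.leaf (.bwd 5092 26 tpr2027.df)) (.leaf (.fwd 5118 32 tpr2055.df))) (.node (.leaf (.bwd 5150 31 tpr606.df)) (.leaf (.fwd 5181 31 tpr517.df)))) (.node (.node (.leaf (.bwd 5212 27 tpr236.df)) (.leaf (.bwd 5239 31 tpr517.df))) (.leaf (.fwd 5270 35 tpr259.df))))) (.node (.node (.node (.node (.leaf (.fwd 5305 24 tpr609.df)) (.leaf (.fwd 5329 29 tpr46.df))) (.node (.leaf (.bwd 5358 34 tpr543.df)) (.leaf (.bwd 5392 27 tpr584.df)))) (.node (.node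 (.leaf (.bwd 5419 29 tpr151.df)) (.leaf (.fwd 5448 42 tpr612.df))) (.node (.leaf (.bwd 5490 29 tpr698.df)) (.leaf (.fwd 5519 27 tpr589.df))))) (.node (.node (.node (.leaf (.fwd 5546 38 tpr238.df)) (.leaf (.bwd 5584 32 tpr294.df))) (.node (.leaf (.bwd 5616 31 tpr576.df)) (.leaf (.bwd 5647 25 tpr702.df)))) (.node (.node (.leaf (.bwd 5672 37 tpr523.df)) (.leaf (.bwd 5709 39 tpr514.df))) (.leaf (.bwd 5748 36 tpr573.df))))))) (.node (.node (.node (.node (.node (.node (.leaf (.fwd 5784 37 tpr556.df)) (.leaf (.fwd 5821 29 tpr582.df))) (.node (.leaf (.fwd 5850 34 tpr1204.df)) (.leaf (.fwd 5884 25 tpr644.df)))) (.node (.node (.leaf (.bwd 5909 26 tpr516.df)) (.leaf (.bwd 5935 30 tpr537.df))) (.node (.leaf (.bwd 5965 41 tpr549.df)) (.leaf (.fwd 6006 28 tpr627.df))))) (.node (.node (.node (.leaf (.bwd 6034 40 tpr544.df)) (.leaf (.bwd 6074 23 tpr559.df))) (.node (.leaf (.fwd 6097 28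 tpr588.df)) (.leaf (.fwd 6125 40 tpr544.df)))) (.node (.node (.leaf (.fwd 6165 37 tpr571.df)) (.leaf (.fwd 6202 32 tpr1017.df))) (.leaf (.fwd 6234 22 tpr239.df))))) (.node (.node (.node (.node (.leaf (.fwd 6256 31 tpr167.df)) (.leaf (.fwd 6287 31 tpr2612.df))) (.node (.leaf (.bwd 6318 35 tpr658.df)) (.leaf (.fwd 6353 26 tpr222.df)))) (.node (.node (.leaf (.bwd 6379 33 tpr2026.df)) (.leaf (.bwd 6412 31 tpr2571.df))) (.node (.leaf (.bwd 6443 29 tpr46.df)) (.leaf (.bwd 6472 28 tpr507.df))))) (.node (.node (.node (.leaf (.fwd 6500 34 tpr543.df)) (.leaf (.fwd 6534 23 tpr659.df))) (.node (.leaf (.bwd 6557 25 tpr2023.df)) (.leaf (.fwd 6582 34 tpr748.df)))) (.node (.node (.leaf (.bwd 6616 28 tpr627.df)) (.leaf (.fwd 6644 28 tpr546.df))) (.leaf (.fwd 6672 37 tpr2276.df)))))) (.node (.node (.node (.node (.node (.leaf (.bwd 6709 27 tpr499.df)) (.leaf (.bwd 6736 25 tpr10.df))) (.node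 (.leaf (.bwd 6761 23 tpr632.df)) (.leaf (.fwd 6784 40 tpr1811.df)))) (.node (.node (.leaf (.fwd 6824 26 tpr599.df)) (.leaf (.bwd 6850 31 tpr198.df))) (.node (.leaf (.fwd 6881 35 tpr13.df)) (.leaf (.fwd 6916 25 tpr10.df))))) (.node (.node (.node (.leaf (.bwd 6941 32 tpr17.df)) (.leaf (.fwd 6973 29 tpr22.df))) (.node (.leaf (.fwd 7002 41 tpr502.df)) (.leaf (.bwd 7043 31 tpr167.df)))) (.node (.node (.leaf (.bwd 7074 22 tpr598.df)) (.leaf (.bwd 7096 36 tpr662.df))) (.leaf (.bwd 7132 29 tpr1171.df))))) (.node (.node (.node (.node (.leaf (.fwd 7161 28 tpr295.df)) (.leaf (.bwd 7189 29 tpr726.df))) (.node (.leaf (.fwd 7218 32 tpr294.df)) (.leaf (.fwd 7250 32 tpr251.df)))) (.node (.node (.leaf (.bwd 7282 31 tpr557.df)) (.leaf (.bwd 7313 23 tpr640.df))) (.leaf (.bwd 7336 26 tpr245.df)))) (.node (.node (.node (.leaf (.fwd 7362 38 tpr526.df)) (.leaf (.fwd 7400 43 tpr2053.df))) (.node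 (.leaf (.fwd 7443 36 tpr2656.df)) (.leaf (.fwd 7479 36 tpr634.df)))) (.node (.node (.leaf (.fwd 7515 35 tpr703.df)) (.leaf (.bwd 7550 44 tpr2657.df))) (.leaf (.fwd 7594 34 tpr986.df)))))))))

theorem iiNFzAzE2A3H2AzIzA2H3AyB2EzF_c : iiNFzAzE2A3H2AzIzA2H3AyB2EzF.all (itB (ng 58 nnNFzAzE2A3H2AzIzA2H3AyB2EzF)) = true := by decide +kernel
theorem nbNFzAzE2A3H2AzIzA2H3AyB2EzF : nbB 58 7686 nnNFzAzE2A3H2AzIzA2H3AyB2EzF = true := by decide +kernel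
theorem topNFzAzE2A3H2AzIzA2H3AyB2EzF : topY 7686 ttNFzAzE2A3H2AzIzA2H3AyB2EzF ceNFzAzE2A3H2AzIzA2H3AyB2EzF xNFzAzE2A3H2AzIzA2H3AyB2EzF iiNFzAzE2A3H2AzIzA2H3AyB2EzF = true := by decide +kernel

end MPb6R
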