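import Pool.Agent.Lib.MP_b6d339_lc.Cw3.YFzAyE2ByA3H3A2E2A2AzAyBzF

/-!
# Erdős 592, three levels: checks of claims
-/

namespace MPb6R

open MPb6P

theorem zeNFzAyE2ByA3H3A2E2A2AzAyBzF_2 : cyE 58 7018 nnNFzAyE2ByA3H3A2E2A2AzAyBzF ttNFzAyE2ByA3H3A2E2A2AzAyBzF coNFzAyE2ByA3H3A2E2A2AzAyBzF xNFzAyE2ByA3H3A2E2A2AzAyBzF ceNFzAyE2ByA3H3A2E2A2AzAyBzF_2 = true := by decide +kernel

end MPb6R
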