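import Pool.Agent.Lib.MP_b6d339_lc.Cw3.YFzAzE2A3H2AzIzA2H3AyB2EzF

/-!
# Erdős 592, three levels: checks of claims
-/

namespace MPb6R

open MPb6P

theorem zeNFzAzE2A3H2AzIzA2H3AyB2EzF_1 : cyE 58 7686 nnNFzAzE2A3H2AzIzA2H3AyB2EzF ttNFzAzE2A3H2AzIzA2H3AyB2EzF coNFzAzE2A3H2AzIzA2H3AyB2EzF xNFzAzE2A3H2AzIzA2H3AyB2EzF ceNFzAzE2A3H2AzIzA2H3AyB2EzF_1 = true := by decide +kernel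

theorem zoNFzAzE2A3H2AzIzA2H3AyB2EzF_0 : cyO 58 7686 nnNFzAzE2A3H2AzIzA2H3AyB2EzF ttNFzAzE2A3H2AzIzA2H3AyB2EzF ceNFzAzE2A3H2AzIzA2H3AyB2EzF xNFzAzE2A3H2AzIzA2H3AyB2EzF coNFzAzE2A3H2AzIzA2H3AyB2EzF_0 = true := by decide +kernel

end MPb6R
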