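import Pool.Agent.Lib.MP_b6d339_lc.Cw3.JFzAyE2ByA3H2AzIzA2H3A2E2A2AzAyAzF
import Pool.Agent.Lib.MP_b6d339_lc.Cw3.JFzAyE2ByA3H2AzIzA2H3A2EyA2AzAyBzF
import Pool.Agent.Lib.MP_b6d339_lc.Cw3.JFzAyE2ByA3H2AzIzAyB2H3A2EyA2AzAyBzF
import Pool.Agent.Lib.MP_b6d339_lc.Cw3.JFzAyE2ByA3H3A2E2A2AzAyBzF
import Pool.Agent.Lib.MP_b6d339_lc.Cw3.JFzAzE2A3H2AzIzA2H3AyB2EzF
import Pool.Agent.Lib.MP_b6d339_lc.Cw3.JFzAzE2A3H2ByAzIzAyB2H3A2EzF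
import Pool.Agent.Lib.MP_b6d339_lc.Cw3.T0
import Pool.Agent.Lib.MP_b6d339_lc.Cw3.T1
import Pool.Agent.Lib.MP_b6d339_lc.Cw3.T10
import Pool.Agent.Lib.MP_b6d339_lc.Cw3.T11
import Pool.Agent.Lib.MP_b6d339_lc.Cw3.T12
import Pool.Agent.Lib.MP_b6d339_lc.Cw3.T13
import Pool.Agent.Lib.MP_b6d339_lc.Cw3.T14
import Pool.Agent.Lib.MP_b6d339_lc.Cw3.T15
import Pool.Agent.Lib.MP_b6d339_lc.Cw3.T16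
import Pool.Agent.Lib.MP_b6d339_lc.Cw3.T17
import Pool.Agent.Lib.MP_b6d339_lc.Cw3.T18
import Pool.Agent.Lib.MP_b6d339_lc.Cw3.T19
import Pool.Agent.Lib.MP_b6d339_lc.Cw3.T2
import Pool.Agent.Lib.MP_b6d339_lc.Cw3.T20
import Pool.Agent.Lib.MP_b6d339_lc.Cw3.T21
import Pool.Agent.Lib.MP_b6d339_lc.Cw3.T22
import Pool.Agent.Lib.MP_b6d339_lc.Cw3.T23
import Pool.Agent.Lib.MP_b6d339_lc.Cw3.T24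
import Pool.Agent.Lib.MP_b6d339_lc.Cw3.T25
import Pool.Agent.Lib.MP_b6d339_lc.Cw3.T26
import Pool.Agent.Lib.MP_b6d339_lc.Cw3.T27
import Pool.Agent.Lib.MP_b6d339_lc.Cw3.T28
import Pool.Agent.Lib.MP_b6d339_lc.Cw3.T29
import Pool.Agent.Lib.MP_b6d339_lc.Cw3.T3
import Pool.Agent.Lib.MP_b6d339_lc.Cw3.T30
import Pool.Agent.Lib.MP_b6d339_lc.Cw3.T31
import Pool.Agent.Lib.MP_b6d339_lc.Cw3.T32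
import Pool.Agent.Lib.MP_b6d339_lc.Cw3.T33
import Pool.Agent.Lib.MP_b6d339_lc.Cw3.T34
import Pool.Agent.Lib.MP_b6d339_lc.Cw3.T35
import Pool.Agent.Lib.MP_b6d339_lc.Cw3.T36
import Pool.Agent.Lib.MP_b6d339_lc.Cw3.T4
import Pool.Agent.Lib.MP_b6d339_lc.Cw3.T5
import Pool.Agent.Lib.MP_b6d339_lc.Cw3.T6
import Pool.Agent.Lib.MP_b6d339_lc.Cw3.T7
import Pool.Agent.Lib.MP_b6d339_lc.Cw3.T8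
import Pool.Agent.Lib.MP_b6d339_lc.Cw3.T9
import Pool.Agent.Lib.MP_b6d339_lc.Cw3.XL
import Pool.Agent.Lib.MP_b6d339_lc.Cw3.ZFzAyE2ByA3H2AzIzA2H3A2E2A2AzAyAzF_0
import Pool.Agent.Lib.MP_b6d339_lc.Cw3.ZFzAyE2ByA3H2AzIzA2H3A2E2A2AzAyAzF_1
import Pool.Agent.Lib.MP_b6d339_lc.Cw3.ZFzAyE2ByA3H2AzIzA2H3A2E2A2AzAyAzF_10
import Pool.Agent.Lib.MP_b6d339_lc.Cw3.ZFzAyE2ByA3H2AzIzA2H3A2E2A2AzAyAzF_11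
import Pool.Agent.Lib.MP_b6d339_lc.Cw3.ZFzAyE2ByA3H2AzIzA2H3A2E2A2AzAyAzF_12
import Pool.Agent.Lib.MP_b6d339_lc.Cw3.ZFzAyE2ByA3H2AzIzA2H3A2E2A2AzAyAzF_13
import Pool.Agent.Lib.MP_b6d339_lc.Cw3.ZFzAyE2ByA3H2AzIzA2H3A2E2A2AzAyAzF_2
import Pool.Agent.Lib.MP_b6d339_lc.Cw3.ZFzAyE2ByA3H2AzIzA2H3A2E2A2AzAyAzF_3
import Pool.Agent.Lib.MP_b6d339_lc.Cw3.ZFzAyE2ByA3H2AzIzA2H3A2E2A2AzAyAzF_4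
import Pool.Agent.Lib.MP_b6d339_lc.Cw3.ZFzAyE2ByA3H2AzIzA2H3A2E2A2AzAyAzF_5
import Pool.Agent.Lib.MP_b6d339_lc.Cw3.ZFzAyE2ByA3H2AzIzA2H3A2E2A2AzAyAzF_6
import Pool.Agent.Lib.MP_b6d339_lc.Cw3.ZFzAyE2ByA3H2AzIzA2H3A2E2A2AzAyAzF_7
import Pool.Agent.Lib.MP_b6d339_lc.Cw3.ZFzAyE2ByA3H2AzIzA2H3A2E2A2AzAyAzF_8
import Pool.Agent.Lib.MP_b6d339_lc.Cw3.ZFzAyE2ByA3H2AzIzA2H3A2E2A2AzAyAzF_9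
import Pool.Agent.Lib.MP_b6d339_lc.Cw3.ZFzAyE2ByA3H2AzIzA2H3A2EyA2AzAyBzF_0
import Pool.Agent.Lib.MP_b6d339_lc.Cw3.ZFzAyE2ByA3H2AzIzA2H3A2EyA2AzAyBzF_1
import Pool.Agent.Lib.MP_b6d339_lc.Cw3.ZFzAyE2ByA3H2AzIzAyB2H3A2EyA2AzAyBzF_0
import Pool.Agent.Lib.MP_b6d339_lc.Cw3.ZFzAyE2ByA3H2AzIzAyB2H3A2EyA2AzAyBzF_1
import Pool.Agent.Lib.MP_b6d339_lc.Cw3.ZFzAyE2ByA3H2AzIzAyB2H3A2EyA2AzAyBzF_2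
import Pool.Agent.Lib.MP_b6d339_lc.Cw3.ZFzAyE2ByA3H2AzIzAyB2H3A2EyA2AzAyBzF_3
import Pool.Agent.Lib.MP_b6d339_lc.Cw3.ZFzAyE2ByA3H3A2E2A2AzAyBzF_0
import Pool.Agent.Lib.MP_b6d339_lc.Cw3.ZFzAyE2ByA3H3A2E2A2AzAyBzF_1
import Pool.Agent.Lib.MP_b6d339_lc.Cw3.ZFzAyE2ByA3H3A2E2A2AzAyBzF_2
import Pool.Agent.Lib.MP_b6d339_lc.Cw3.ZFzAyE2ByA3H3A2E2A2AzAyBzF_3
import Pool.Agent.Lib.MP_b6d339_lc.Cw3.ZFzAzE2A3H2AzIzA2H3AyB2EzF_0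
import Pool.Agent.Lib.MP_b6d339_lc.Cw3.ZFzAzE2A3H2AzIzA2H3AyB2EzF_1
import Pool.Agent.Lib.MP_b6d339_lc.Cw3.ZFzAzE2A3H2AzIzA2H3AyB2EzF_2
import Pool.Agent.Lib.MP_b6d339_lc.Cw3.ZFzAzE2A3H2AzIzA2H3AyB2EzF_3
import Pool.Agent.Lib.MP_b6d339_lc.Cw3.ZFzAzE2A3H2AzIzA2H3AyB2EzF_4
import Pool.Agent.Lib.MP_b6d339_lc.Cw3.ZFzAzE2A3H2AzIzA2H3AyB2EzF_5
import Pool.Agent.Lib.MP_b6d339_lc.Cw3.ZFzAzE2A3H2AzIzA2H3AyB2EzF_6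
import Pool.Agent.Lib.MP_b6d339_lc.Cw3.ZFzAzE2A3H2ByAzIzAyB2H3A2EzF_0
import Pool.Agent.Lib.MP_b6d339_lc.Cw3.ZFzAzE2A3H2ByAzIzAyB2H3A2EzF_1
import Pool.Agent.Lib.MP_b6d339_lc.Cw3.ZFzAzE2A3H2ByAzIzAyB2H3A2EzF_2
import Pool.Agent.Lib.MP_b6d339_lc.Cw3.ZFzAzE2A3H2ByAzIzAyB2H3A2EzF_3
import Pool.Agent.Lib.MP_b6d339_lc.Cw3.ZFzAzE2A3H2ByAzIzAyB2H3A2EzF_4
import Pool.Agent.Lib.MP_b6d339_lc.Cw3.ZFzAzE2A3H2ByAzIzAyB2H3A2EzF_5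
import Pool.Agent.Lib.MP_b6d339_lc.Cw3.ZFzAzE2A3H2ByAzIzAyB2H3A2EzF_6
import Pool.Agent.Lib.MP_b6d339_lc.Pos.XTreeC
import Pool.Agent.Lib.MP_b6d339_lc.Pos.YQ

/-!
# Erdős 592, three levels: classes of words
-/

namespace MPb6R

open MPb6P

theorem iiNFzAyE2ByA3H2AzIzA2H3A2E2A2AzAyAzF_k : iiNFzAyE2ByA3H2AzIzA2H3A2E2A2AzAyAzF.Fa (Itm.ok 206) := (BT.Fa_mk (BT.Fa_mk (BT.Fa_mk (BT.Fa_mk (BT.Fa_mk (BT.Fa_mk (BT.Fa_mk (BT.Fa_mk (BT.Fa_mk (BT.Fa_leaf (P := Itm.ok 206) (iqf tpr168_c)) (BT.Fa_leaf (P := Itm.ok 206) (iqb tpr4_c))) (BT.Fa_leaf (P := Itm.ok 206) (iqb tpr500_c))) (BT.Fa_mk (BT.Fa_leaf (P := Itm.ok 206) (iqf tpr500_c)) (BT.Fa_leaf (P := Itm.ok 206) (iqf tpr4_c)))) (BT.Fa_mk (BT.Fa_mk (BT.Fa_leaf (P := Itm.ok 206) (iqb tpr2244_c)) (BT.Fa_leaf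 (P := Itm.ok 206) (iqf tpr982_c))) (BT.Fa_mk (BT.Fa_leaf (P := Itm.ok 206) (iqf tpr5_c)) (BT.Fa_leaf (P := Itm.ok 206) (iqb tpr616_c))))) (BT.Fa_mk (BT.Fa_mk (BT.Fa_mk (BT.Fa_leaf (P := Itm.ok 206) (iqb tpr2112_c)) (BT.Fa_leaf (P := Itm.ok 206) (iqb tpr8_c))) (BT.Fa_mk (BT.Fa_leaf (P := Itm.ok 206) (iqf tpr12_c)) (BT.Fa_leaf (P := Itm.ok 206) (iqf tpr2523_c)))) (BT.Fa_mk (BT.Fa_mk (BT.Fa_leaf (P := Itm.ok 206) (iqf tpr2239_c)) (BT.Fa_leaf (P := Itm.ok 206) (iqf tpr656_c))) (BT.Fa_mk (BT.Fa_leaf (P := Itm.ok 206) (iqb tpr2486_c)) (BT.Fa_leaf (P := Itm.ok 206) (iqf tpr466_c)))))) (BT.Fa_mk (BT.Fa_mk (BT.Fa_mk (BT.Fa_mk (BT.Fa_mk (BT.Fa_leaf (P := Itm.ok 206) (iqf tpr2113_c)) (BT.Fa_leaf (P := Itm.ok 206) (iqb tpr2272_c))) (BT.Fa_leaf (P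 := Itm.ok 206) (iqb tpr2215_c))) (BT.Fa_mk (BT.Fa_leaf (P := Itm.ok 206) (iqb tpr1562_c)) (BT.Fa_leaf (P := Itm.ok 206) (iqf tpr2267_c)))) (BT.Fa_mk (BT.Fa_mk (BT.Fa_leaf (P := Itm.ok 206) (iqf tpr2545_c)) (BT.Fa_leaf (P := Itm.ok 206) (iqb tpr2496_c))) (BT.Fa_mk (BT.Fa_leaf (P := Itm.ok 206) (iqb tpr577_c)) (BT.Fa_leaf (P := Itm.ok 206) (iqb tpr2501_c))))) (BT.Fa_mk (BT.Fa_mk (BT.Fa_mk (BT.Fa_leaf (P := Itm.ok 206) (iqf tpr2490_c)) (BT.Fa_leaf (P := Itm.ok 206) (iqf tpr2532_c))) (BT.Fa_mk (BT.Fa_leaf (P := Itm.ok 206) (iqb tpr2541_c)) (BT.Fa_leaf (P := Itm.ok 206) (iqb tpr518_c)))) (BT.Fa_mk (BT.Fa_mk (BT.Fa_leaf (P := Itm.ok 206) (iqb tpr504_c)) (BT.Fa_leaf (P := Itm.ok 206) (iqf tpr2039_c))) (BT.Fa_mk (BT.Fa_leaf (P := Itm.ok 206) (iqb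 tpr2164_c)) (BT.Fa_leaf (P := Itm.ok 206) (iqf tpr464_c))))))) (BT.Fa_mk (BT.Fa_mk (BT.Fa_mk (BT.Fa_mk (BT.Fa_mk (BT.Fa_mk (BT.Fa_leaf (P := Itm.ok 206) (iqb tpr113_c)) (BT.Fa_leaf (P := Itm.ok 206) (iqb tpr106_c))) (BT.Fa_leaf (P := Itm.ok 206) (iqb tpr2590_c))) (BT.Fa_mk (BT.Fa_leaf (P := Itm.ok 206) (iqf tpr46_c)) (BT.Fa_leaf (P := Itm.ok 206) (iqf tpr2133_c)))) (BT.Fa_mk (BT.Fa_mk (BT.Fa_leaf (P := Itm.ok 206) (iqb tpr2208_c)) (BT.Fa_leaf (P := Itm.ok 206) (iqf tpr2177_c))) (BT.Fa_mk (BT.Fa_leaf (P := Itm.ok 206) (iqb tpr2512_c)) (BT.Fa_leaf (P := Itm.ok 206) (iqf tpr2500_c))))) (BT.Fa_mk (BT.Fa_mk (BT.Fa_mk (BT.Fa_leaf (P := Itm.ok 206) (iqb tpr2544_c)) (BT.Fa_leaf (P := Itm.ok 206) (iqf tpr2506_c))) (BT.Fa_mk (BT.Fa_leaf (P := Itm.ok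 206) (iqb tpr33_c)) (BT.Fa_leaf (P := Itm.ok 206) (iqb tpr295_c)))) (BT.Fa_mk (BT.Fa_mk (BT.Fa_leaf (P := Itm.ok 206) (iqb tpr815_c)) (BT.Fa_leaf (P := Itm.ok 206) (iqb tpr2494_c))) (BT.Fa_mk (BT.Fa_leaf (P := Itm.ok 206) (iqf tpr814_c)) (BT.Fa_leaf (P := Itm.ok 206) (iqb tpr10_c)))))) (BT.Fa_mk (BT.Fa_mk (BT.Fa_mk (BT.Fa_mk (BT.Fa_mk (BT.Fa_leaf (P := Itm.ok 206) (iqb tpr1747_c)) (BT.Fa_leaf (P := Itm.ok 206) (iqb tpr677_c))) (BT.Fa_leaf (P := Itm.ok 206) (iqf tpr259_c))) (BT.Fa_mk (BT.Fa_leaf (P := Itm.ok 206) (iqb tpr188_c)) (BT.Fa_leaf (P := Itm.ok 206) (iqf tpr2404_c)))) (BT.Fa_mk (BT.Fa_mk (BT.Fa_leaf (P := Itm.ok 206) (iqf tpr51_c)) (BT.Fa_leaf (P := Itm.ok 206) (iqb tpr2488_c))) (BT.Fa_mk (BT.Fa_leaf (P := Itm.ok 206) (iqf tpr541_c))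 (BT.Fa_leaf (P := Itm.ok 206) (iqb tpr506_c))))) (BT.Fa_mk (BT.Fa_mk (BT.Fa_mk (BT.Fa_leaf (P := Itm.ok 206) (iqb tpr644_c)) (BT.Fa_leaf (P := Itm.ok 206) (iqb tpr812_c))) (BT.Fa_mk (BT.Fa_leaf (P := Itm.ok 206) (iqb tpr782_c)) (BT.Fa_leaf (P := Itm.ok 206) (iqb tpr2143_c)))) (BT.Fa_mk (BT.Fa_mk (BT.Fa_leaf (P := Itm.ok 206) (iqf tpr2485_c)) (BT.Fa_leaf (P := Itm.ok 206) (iqf tpr2398_c))) (BT.Fa_mk (BT.Fa_leaf (P := Itm.ok 206) (iqb tpr259_c)) (BT.Fa_leaf (P := Itm.ok 206) (iqf tpr1320_c)))))))) (BT.Fa_mk (BT.Fa_mk (BT.Fa_mk (BT.Fa_mk (BT.Fa_mk (BT.Fa_mk (BT.Fa_mk (BT.Fa_leaf (P := Itm.ok 206) (iqf tpr35_c)) (BT.Fa_leaf (P := Itm.ok 206) (iqf tpr1334_c))) (BT.Fa_leaf (P := Itm.ok 206) (iqb tpr2519_c))) (BT.Fa_mk (BT.Fa_leaf (P := Itm.ok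 206) (iqb tpr557_c)) (BT.Fa_leaf (P := Itm.ok 206) (iqb tpr28_c)))) (BT.Fa_mk (BT.Fa_mk (BT.Fa_leaf (P := Itm.ok 206) (iqb tpr2111_c)) (BT.Fa_leaf (P := Itm.ok 206) (iqf tpr89_c))) (BT.Fa_mk (BT.Fa_leaf (P := Itm.ok 206) (iqb tpr39_c)) (BT.Fa_leaf (P := Itm.ok 206) (iqb tpr21_c))))) (BT.Fa_mk (BT.Fa_mk (BT.Fa_mk (BT.Fa_leaf (P := Itm.ok 206) (iqf tpr596_c)) (BT.Fa_leaf (P := Itm.ok 206) (iqb tpr54_c))) (BT.Fa_mk (BT.Fa_leaf (P := Itm.ok 206) (iqb tpr556_c)) (BT.Fa_leaf (P := Itm.ok 206) (iqb tpr1328_c)))) (BT.Fa_mk (BT.Fa_mk (BT.Fa_leaf (P := Itm.ok 206) (iqf tpr2521_c)) (BT.Fa_leaf (P := Itm.ok 206) (iqb tpr1233_c))) (BT.Fa_mk (BT.Fa_leaf (P := Itm.ok 206) (iqb tpr2295_c)) (BT.Fa_leaf (P := Itm.ok 206) (iqf tpr1359_c)))))) (BT.Fa_mk (BT.Fa_mk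 (BT.Fa_mk (BT.Fa_mk (BT.Fa_mk (BT.Fa_leaf (P := Itm.ok 206) (iqf tpr820_c)) (BT.Fa_leaf (P := Itm.ok 206) (iqb tpr2031_c))) (BT.Fa_leaf (P := Itm.ok 206) (iqf tpr609_c))) (BT.Fa_mk (BT.Fa_leaf (P := Itm.ok 206) (iqb tpr547_c)) (BT.Fa_leaf (P := Itm.ok 206) (iqb tpr62_c)))) (BT.Fa_mk (BT.Fa_mk (BT.Fa_leaf (P := Itm.ok 206) (iqf tpr131_c)) (BT.Fa_leaf (P := Itm.ok 206) (iqf tpr2520_c))) (BT.Fa_mk (BT.Fa_leaf (P := Itm.ok 206) (iqf tpr2024_c)) (BT.Fa_leaf (P := Itm.ok 206) (iqb tpr606_c))))) (BT.Fa_mk (BT.Fa_mk (BT.Fa_mk (BT.Fa_leaf (P := Itm.ok 206) (iqf tpr733_c)) (BT.Fa_leaf (P := Itm.ok 206) (iqb tpr1844_c))) (BT.Fa_mk (BT.Fa_leaf (P := Itm.ok 206) (iqb tpr533_c)) (BT.Fa_leaf (P := Itm.ok 206) (iqb tpr499_c)))) (BT.Fa_mk (BT.Fa_mk (BT.Fa_leaf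 (P := Itm.ok 206) (iqf tpr216_c)) (BT.Fa_leaf (P := Itm.ok 206) (iqf tpr1355_c))) (BT.Fa_mk (BT.Fa_leaf (P := Itm.ok 206) (iqb tpr2502_c)) (BT.Fa_leaf (P := Itm.ok 206) (iqf tpr2026_c))))))) (BT.Fa_mk (BT.Fa_mk (BT.Fa_mk (BT.Fa_mk (BT.Fa_mk (BT.Fa_mk (BT.Fa_leaf (P := Itm.ok 206) (iqb tpr1681_c)) (BT.Fa_leaf (P := Itm.ok 206) (iqf tpr1479_c))) (BT.Fa_leaf (P := Itm.ok 206) (iqb tpr721_c))) (BT.Fa_mk (BT.Fa_leaf (P := Itm.ok 206) (iqf tpr738_c)) (BT.Fa_leaf (P := Itm.ok 206) (iqb tpr788_c)))) (BT.Fa_mk (BT.Fa_mk (BT.Fa_leaf (P := Itm.ok 206) (iqb tpr48_c)) (BT.Fa_leaf (P := Itm.ok 206) (iqf tpr111_c))) (BT.Fa_mk (BT.Fa_leaf (P := Itm.ok 206) (iqb tpr541_c)) (BT.Fa_leaf (P := Itm.ok 206) (iqb tpr534_c))))) (BT.Fa_mk (BT.Fa_mk (BT.Fa_mk (BT.Fa_leaf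 (P := Itm.ok 206) (iqb tpr1736_c)) (BT.Fa_leaf (P := Itm.ok 206) (iqb tpr9_c))) (BT.Fa_mk (BT.Fa_leaf (P := Itm.ok 206) (iqb tpr706_c)) (BT.Fa_leaf (P := Itm.ok 206) (iqb tpr1137_c)))) (BT.Fa_mk (BT.Fa_mk (BT.Fa_leaf (P := Itm.ok 206) (iqf tpr11_c)) (BT.Fa_leaf (P := Itm.ok 206) (iqf tpr1341_c))) (BT.Fa_mk (BT.Fa_leaf (P := Itm.ok 206) (iqb tpr748_c)) (BT.Fa_leaf (P := Itm.ok 206) (iqf tpr419_c)))))) (BT.Fa_mk (BT.Fa_mk (BT.Fa_mk (BT.Fa_mk (BT.Fa_leaf (P := Itm.ok 206) (iqf tpr82_c)) (BT.Fa_leaf (P := Itm.ok 206) (iqb tpr1138_c))) (BT.Fa_mk (BT.Fa_leaf (P := Itm.ok 206) (iqb tpr1143_c)) (BT.Fa_leaf (P := Itm.ok 206) (iqf tpr2510_c)))) (BT.Fa_mk (BT.Fa_mk (BT.Fa_leaf (P := Itm.ok 206) (iqb tpr2513_c)) (BT.Fa_leaf (P := Itm.ok 206) (iqf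 tpr2526_c))) (BT.Fa_mk (BT.Fa_leaf (P := Itm.ok 206) (iqf tpr1112_c)) (BT.Fa_leaf (P := Itm.ok 206) (iqf tpr210_c))))) (BT.Fa_mk (BT.Fa_mk (BT.Fa_mk (BT.Fa_leaf (P := Itm.ok 206) (iqb tpr294_c)) (BT.Fa_leaf (P := Itm.ok 206) (iqf tpr502_c))) (BT.Fa_mk (BT.Fa_leaf (P := Itm.ok 206) (iqf tpr1754_c)) (BT.Fa_leaf (P := Itm.ok 206) (iqf tpr683_c)))) (BT.Fa_mk (BT.Fa_mk (BT.Fa_leaf (P := Itm.ok 206) (iqf tpr701_c)) (BT.Fa_leaf (P := Itm.ok 206) (iqf tpr2163_c))) (BT.Fa_mk (BT.Fa_leaf (P := Itm.ok 206) (iqf tpr562_c)) (BT.Fa_leaf (P := Itm.ok 206) (iqf tpr2493_c))))))))) (BT.Fa_mk (BT.Fa_mk (BT.Fa_mk (BT.Fa_mk (BT.Fa_mk (BT.Fa_mk (BT.Fa_mk (BT.Fa_mk (BT.Fa_leaf (P := Itm.ok 206) (iqb tpr1547_c)) (BT.Fa_leaf (P := Itm.ok 206) (iqb tpr2487_c)))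 (BT.Fa_leaf (P := Itm.ok 206) (iqb tpr2516_c))) (BT.Fa_mk (BT.Fa_leaf (P := Itm.ok 206) (iqb tpr997_c)) (BT.Fa_leaf (P := Itm.ok 206) (iqb tpr636_c)))) (BT.Fa_mk (BT.Fa_mk (BT.Fa_leaf (P := Itm.ok 206) (iqf tpr780_c)) (BT.Fa_leaf (P := Itm.ok 206) (iqf tpr239_c))) (BT.Fa_mk (BT.Fa_leaf (P := Itm.ok 206) (iqf tpr559_c)) (BT.Fa_leaf (P := Itm.ok 206) (iqb tpr780_c))))) (BT.Fa_mk (BT.Fa_mk (BT.Fa_mk (BT.Fa_leaf (P := Itm.ok 206) (iqb tpr505_c)) (BT.Fa_leaf (P := Itm.ok 206) (iqf tpr618_c))) (BT.Fa_mk (BT.Fa_leaf (P := Itm.ok 206) (iqf tpr680_c)) (BT.Fa_leaf (P := Itm.ok 206) (iqf tpr555_c)))) (BT.Fa_mk (BT.Fa_mk (BT.Fa_leaf (P := Itm.ok 206) (iqf tpr1870_c)) (BT.Fa_leaf (P := Itm.ok 206) (iqf tpr48_c))) (BT.Fa_mk (BT.Fa_leaf (P := Itm.ok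 206) (iqf tpr619_c)) (BT.Fa_leaf (P := Itm.ok 206) (iqb tpr1182_c)))))) (BT.Fa_mk (BT.Fa_mk (BT.Fa_mk (BT.Fa_mk (BT.Fa_mk (BT.Fa_leaf (P := Itm.ok 206) (iqf tpr2167_c)) (BT.Fa_leaf (P := Itm.ok 206) (iqf tpr613_c))) (BT.Fa_leaf (P := Itm.ok 206) (iqf tpr744_c))) (BT.Fa_mk (BT.Fa_leaf (P := Itm.ok 206) (iqf tpr474_c)) (BT.Fa_leaf (P := Itm.ok 206) (iqf tpr74_c)))) (BT.Fa_mk (BT.Fa_mk (BT.Fa_leaf (P := Itm.ok 206) (iqb tpr124_c)) (BT.Fa_leaf (P := Itm.ok 206) (iqb tpr1193_c))) (BT.Fa_mk (BT.Fa_leaf (P := Itm.ok 206) (iqf tpr2227_c)) (BT.Fa_leaf (P := Itm.ok 206) (iqb tpr1254_c))))) (BT.Fa_mk (BT.Fa_mk (BT.Fa_mk (BT.Fa_leaf (P := Itm.ok 206) (iqb tpr11_c)) (BT.Fa_leaf (P := Itm.ok 206) (iqb tpr2269_c))) (BT.Fa_mk (BT.Fa_leaf (P := Itm.ok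 206) (iqf tpr2171_c)) (BT.Fa_leaf (P := Itm.ok 206) (iqb tpr2243_c)))) (BT.Fa_mk (BT.Fa_mk (BT.Fa_leaf (P := Itm.ok 206) (iqf tpr2277_c)) (BT.Fa_leaf (P := Itm.ok 206) (iqb tpr2131_c))) (BT.Fa_mk (BT.Fa_leaf (P := Itm.ok 206) (iqb tpr2508_c)) (BT.Fa_leaf (P := Itm.ok 206) (iqf tpr2507_c))))))) (BT.Fa_mk (BT.Fa_mk (BT.Fa_mk (BT.Fa_mk (BT.Fa_mk (BT.Fa_mk (BT.Fa_leaf (P := Itm.ok 206) (iqf tpr526_c)) (BT.Fa_leaf (P := Itm.ok 206) (iqb tpr941_c))) (BT.Fa_leaf (P := Itm.ok 206) (iqf tpr2492_c))) (BT.Fa_mk (BT.Fa_leaf (P := Itm.ok 206) (iqb tpr1257_c)) (BT.Fa_leaf (P := Itm.ok 206) (iqb tpr2205_c)))) (BT.Fa_mk (BT.Fa_mk (BT.Fa_leaf (P := Itm.ok 206) (iqb tpr22_c)) (BT.Fa_leaf (P := Itm.ok 206) (iqb tpr581_c))) (BT.Fa_mk (BT.Fa_leaf (P := Itm.ok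 206) (iqb tpr1011_c)) (BT.Fa_leaf (P := Itm.ok 206) (iqf tpr2116_c))))) (BT.Fa_mk (BT.Fa_mk (BT.Fa_mk (BT.Fa_leaf (P := Itm.ok 206) (iqb tpr2040_c)) (BT.Fa_leaf (P := Itm.ok 206) (iqb tpr239_c))) (BT.Fa_mk (BT.Fa_leaf (P := Itm.ok 206) (iqb tpr555_c)) (BT.Fa_leaf (P := Itm.ok 206) (iqf tpr2489_c)))) (BT.Fa_mk (BT.Fa_mk (BT.Fa_leaf (P := Itm.ok 206) (iqf tpr2495_c)) (BT.Fa_leaf (P := Itm.ok 206) (iqb tpr2528_c))) (BT.Fa_mk (BT.Fa_leaf (P := Itm.ok 206) (iqf tpr1255_c)) (BT.Fa_leaf (P := Itm.ok 206) (iqf tpr2236_c)))))) (BT.Fa_mk (BT.Fa_mk (BT.Fa_mk (BT.Fa_mk (BT.Fa_leaf (P := Itm.ok 206) (iqf tpr507_c)) (BT.Fa_leaf (P := Itm.ok 206) (iqf tpr591_c))) (BT.Fa_mk (BT.Fa_leaf (P := Itm.ok 206) (iqb tpr2278_c)) (BT.Fa_leaf (P := Itm.ok 206) (iqb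 tpr2125_c)))) (BT.Fa_mk (BT.Fa_mk (BT.Fa_leaf (P := Itm.ok 206) (iqf tpr1215_c)) (BT.Fa_leaf (P := Itm.ok 206) (iqb tpr582_c))) (BT.Fa_mk (BT.Fa_leaf (P := Itm.ok 206) (iqf tpr1765_c)) (BT.Fa_leaf (P := Itm.ok 206) (iqf tpr2007_c))))) (BT.Fa_mk (BT.Fa_mk (BT.Fa_mk (BT.Fa_leaf (P := Itm.ok 206) (iqb tpr2509_c)) (BT.Fa_leaf (P := Itm.ok 206) (iqf tpr2260_c))) (BT.Fa_mk (BT.Fa_leaf (P := Itm.ok 206) (iqf tpr627_c)) (BT.Fa_leaf (P := Itm.ok 206) (iqb tpr2498_c)))) (BT.Fa_mk (BT.Fa_mk (BT.Fa_leaf (P := Itm.ok 206) (iqb tpr2351_c)) (BT.Fa_leaf (P := Itm.ok 206) (iqb tpr990_c))) (BT.Fa_mk (BT.Fa_leaf (P := Itm.ok 206) (iqb tpr2529_c)) (BT.Fa_leaf (P := Itm.ok 206) (iqb tpr1001_c)))))))) (BT.Fa_mk (BT.Fa_mk (BT.Fa_mk (BT.Fa_mk (BT.Fa_mk (BT.Fa_mk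 (BT.Fa_mk (BT.Fa_leaf (P := Itm.ok 206) (iqb tpr2123_c)) (BT.Fa_leaf (P := Itm.ok 206) (iqf tpr2229_c))) (BT.Fa_leaf (P := Itm.ok 206) (iqf tpr582_c))) (BT.Fa_mk (BT.Fa_leaf (P := Itm.ok 206) (iqf tpr568_c)) (BT.Fa_leaf (P := Itm.ok 206) (iqf tpr2042_c)))) (BT.Fa_mk (BT.Fa_mk (BT.Fa_leaf (P := Itm.ok 206) (iqf tpr2334_c)) (BT.Fa_leaf (P := Itm.ok 206) (iqf tpr1733_c))) (BT.Fa_mk (BT.Fa_leaf (P := Itm.ok 206) (iqb tpr2504_c)) (BT.Fa_leaf (P := Itm.ok 206) (iqb tpr1644_c))))) (BT.Fa_mk (BT.Fa_mk (BT.Fa_mk (BT.Fa_leaf (P := Itm.ok 206) (iqb tpr2503_c)) (BT.Fa_leaf (P := Itm.ok 206) (iqb tpr2099_c))) (BT.Fa_mk (BT.Fa_leaf (P := Itm.ok 206) (iqb tpr2499_c)) (BT.Fa_leaf (P := Itm.ok 206) (iqb tpr2149_c)))) (BT.Fa_mk (BT.Fa_mk (BT.Fa_leaf (P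 := Itm.ok 206) (iqf tpr2515_c)) (BT.Fa_leaf (P := Itm.ok 206) (iqf tpr44_c))) (BT.Fa_mk (BT.Fa_leaf (P := Itm.ok 206) (iqb tpr2013_c)) (BT.Fa_leaf (P := Itm.ok 206) (iqb tpr2042_c)))))) (BT.Fa_mk (BT.Fa_mk (BT.Fa_mk (BT.Fa_mk (BT.Fa_mk (BT.Fa_leaf (P := Itm.ok 206) (iqb tpr2517_c)) (BT.Fa_leaf (P := Itm.ok 206) (iqb tpr2936_c))) (BT.Fa_leaf (P := Itm.ok 206) (iqf tpr2511_c))) (BT.Fa_mk (BT.Fa_leaf (P := Itm.ok 206) (iqb tpr2505_c)) (BT.Fa_leaf (P := Itm.ok 206) (iqb tpr2233_c)))) (BT.Fa_mk (BT.Fa_mk (BT.Fa_leaf (P := Itm.ok 206) (iqb tpr2005_c)) (BT.Fa_leaf (P := Itm.ok 206) (iqf tpr1647_c))) (BT.Fa_mk (BT.Fa_leaf (P := Itm.ok 206) (iqb tpr588_c)) (BT.Fa_leaf (P := Itm.ok 206) (iqf tpr2525_c))))) (BT.Fa_mk (BT.Fa_mk (BT.Fa_mk (BT.Fa_leaf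 (P := Itm.ok 206) (iqb tpr2524_c)) (BT.Fa_leaf (P := Itm.ok 206) (iqb tpr2491_c))) (BT.Fa_mk (BT.Fa_leaf (P := Itm.ok 206) (iqf tpr2497_c)) (BT.Fa_leaf (P := Itm.ok 206) (iqb tpr2206_c)))) (BT.Fa_mk (BT.Fa_mk (BT.Fa_leaf (P := Itm.ok 206) (iqb tpr2659_c)) (BT.Fa_leaf (P := Itm.ok 206) (iqf tpr17_c))) (BT.Fa_mk (BT.Fa_leaf (P := Itm.ok 206) (iqb tpr575_c)) (BT.Fa_leaf (P := Itm.ok 206) (iqf tpr527_c))))))) (BT.Fa_mk (BT.Fa_mk (BT.Fa_mk (BT.Fa_mk (BT.Fa_mk (BT.Fa_mk (BT.Fa_leaf (P := Itm.ok 206) (iqb tpr615_c)) (BT.Fa_leaf (P := Itm.ok 206) (iqf tpr1764_c))) (BT.Fa_leaf (P := Itm.ok 206) (iqb tpr2538_c))) (BT.Fa_mk (BT.Fa_leaf (P := Itm.ok 206) (iqf tpr679_c)) (BT.Fa_leaf (P := Itm.ok 206) (iqb tpr2230_c)))) (BT.Fa_mk (BT.Fa_mk (BT.Fa_leaf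 (P := Itm.ok 206) (iqb tpr2114_c)) (BT.Fa_leaf (P := Itm.ok 206) (iqb tpr2137_c))) (BT.Fa_mk (BT.Fa_leaf (P := Itm.ok 206) (iqf tpr456_c)) (BT.Fa_leaf (P := Itm.ok 206) (iqb tpr477_c))))) (BT.Fa_mk (BT.Fa_mk (BT.Fa_mk (BT.Fa_leaf (P := Itm.ok 206) (iqf tpr465_c)) (BT.Fa_leaf (P := Itm.ok 206) (iqf tpr479_c))) (BT.Fa_mk (BT.Fa_leaf (P := Itm.ok 206) (iqf tpr485_c)) (BT.Fa_leaf (P := Itm.ok 206) (iqf tpr1313_c)))) (BT.Fa_mk (BT.Fa_mk (BT.Fa_leaf (P := Itm.ok 206) (iqf tpr1311_c)) (BT.Fa_leaf (P := Itm.ok 206) (iqf tpr454_c))) (BT.Fa_mk (BT.Fa_leaf (P := Itm.ok 206) (iqf tpr1010_c)) (BT.Fa_leaf (P := Itm.ok 206) (iqb tpr1370_c)))))) (BT.Fa_mk (BT.Fa_mk (BT.Fa_mk (BT.Fa_mk (BT.Fa_leaf (P := Itm.ok 206) (iqb tpr2539_c)) (BT.Fa_leaf (P := Itm.ok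 206) (iqb tpr90_c))) (BT.Fa_mk (BT.Fa_leaf (P := Itm.ok 206) (iqb tpr761_c)) (BT.Fa_leaf (P := Itm.ok 206) (iqb tpr849_c)))) (BT.Fa_mk (BT.Fa_mk (BT.Fa_leaf (P := Itm.ok 206) (iqb tpr1247_c)) (BT.Fa_leaf (P := Itm.ok 206) (iqf tpr1767_c))) (BT.Fa_mk (BT.Fa_leaf (P := Itm.ok 206) (iqf tpr2546_c)) (BT.Fa_leaf (P := Itm.ok 206) (iqf tpr2542_c))))) (BT.Fa_mk (BT.Fa_mk (BT.Fa_mk (BT.Fa_leaf (P := Itm.ok 206) (iqf tpr2543_c)) (BT.Fa_leaf (P := Itm.ok 206) (iqf tpr2547_c))) (BT.Fa_mk (BT.Fa_leaf (P := Itm.ok 206) (iqf tpr605_c)) (BT.Fa_leaf (P := Itm.ok 206) (iqf tpr1762_c)))) (BT.Fa_mk (BT.Fa_mk (BT.Fa_leaf (P := Itm.ok 206) (iqf tpr2549_c)) (BT.Fa_leaf (P := Itm.ok 206) (iqf tpr2553_c))) (BT.Fa_mk (BT.Fa_leaf (P := Itm.ok 206) (iqb tpr2168_c))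 (BT.Fa_leaf (P := Itm.ok 206) (iqb tpr2552_c))))))))))

/-- all words of the class have labels -/
theorem pokNFzAyE2ByA3H2AzIzA2H3A2E2A2AzAyAzF : POK 206 xNFzAyE2ByA3H2AzIzA2H3A2E2A2AzAyAzF :=
  y_pok (C0 := ceNFzAyE2ByA3H2AzIzA2H3A2E2A2AzAyAzF) (C1 := coNFzAyE2ByA3H2AzIzA2H3A2E2A2AzAyAzF) topNFzAyE2ByA3H2AzIzA2H3A2E2A2AzAyAzF nbNFzAyE2ByA3H2AzIzA2H3A2E2A2AzAyAzF (BT.Fa_of_all iiNFzAyE2ByA3H2AzIzA2H3A2E2A2AzAyAzF_c)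
    (BT.Fa_mk (BT.Fa_mk (BT.Fa_mk (cyE_spec zeNFzAyE2ByA3H2AzIzA2H3A2E2A2AzAyAzF_0) (cyE_spec zeNFzAyE2ByA3H2AzIzA2H3A2E2A2AzAyAzF_1)) (cyE_spec zeNFzAyE2ByA3H2AzIzA2H3A2E2A2AzAyAzF_2)) (BT.Fa_mk (BT.Fa_mk (BT.Fa_mk (cyE_spec zeNFzAyE2ByA3H2AzIzA2H3A2E2A2AzAyAzF_3) (cyE_spec zeNFzAyE2ByA3H2AzIzA2H3A2E2A2AzAyAzF_4)) (BT.Fa_mk (cyE_spec zeNFzAyE2ByA3H2AzIzA2H3A2E2A2AzAyAzF_5) (cyE_spec zeNFzAyE2ByA3H2AzIzA2H3A2E2A2AzAyAzF_6))) (BT.Fa_mk (BT.Fa_mk (cyE_spec zeNFzAyE2ByA3H2AzIzA2H3A2E2A2AzAyAzF_7) (cyE_spec zeNFzAyE2ByA3H2AzIzA2H3A2E2A2AzAyAzF_8)) (BT.Fa_mk (cyE_spec zeNFzAyE2ByA3H2AzIzA2H3A2E2A2AzAyAzF_9) (cyE_spec zeNFzAyE2ByA3H2AzIzA2H3A2E2A2AzAyAzF_10)))))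
    (BT.Fa_mk (BT.Fa_mk (cyO_spec zoNFzAyE2ByA3H2AzIzA2H3A2E2A2AzAyAzF_0) (cyO_spec zoNFzAyE2ByA3H2AzIzA2H3A2E2A2AzAyAzF_1)) (BT.Fa_mk (BT.Fa_mk (BT.Fa_mk (cyO_spec zoNFzAyE2ByA3H2AzIzA2H3A2E2A2AzAyAzF_2) (cyO_spec zoNFzAyE2ByA3H2AzIzA2H3A2E2A2AzAyAzF_3)) (BT.Fa_mk (cyO_spec zoNFzAyE2ByA3H2AzIzA2H3A2E2A2AzAyAzF_4) (cyO_spec zoNFzAyE2ByA3H2AzIzA2H3A2E2A2AzAyAzF_5))) (BT.Fa_mk (BT.Fa_mk (cyO_spec zoNFzAyE2ByA3H2AzIzA2H3A2E2A2AzAyAzF_6) (cyO_spec zoNFzAyE2ByA3H2AzIzA2H3A2E2A2AzAyAzF_7)) (cyO_spec zoNFzAyE2ByA3H2AzIzA2H3A2E2A2AzAyAzF_8))))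
    iiNFzAyE2ByA3H2AzIzA2H3A2E2A2AzAyAzF_k

theorem iiNFzAyE2ByA3H2AzIzA2H3A2EyA2AzAyBzF_k : iiNFzAyE2ByA3H2AzIzA2H3A2EyA2AzAyBzF.Fa (Itm.ok 206) := (BT.Fa_mk (BT.Fa_mk (BT.Fa_mk (BT.Fa_mk (BT.Fa_mk (BT.Fa_mk (BT.Fa_mk (BT.Fa_mk (BT.Fa_leaf (P := Itm.ok 206) (iqf tpr499_c)) (BT.Fa_leaf (P := Itm.ok 206) (iqf tpr168_c))) (BT.Fa_leaf (P := Itm.ok 206) (iqb tpr979_c))) (BT.Fa_mk (BT.Fa_leaf (P := Itm.ok 206) (iqb tpr500_c)) (BT.Fa_leaf (P := Itm.ok 206) (iqb tpr616_c)))) (BT.Fa_mk (BT.Fa_mk (BT.Fa_mk (BT.Fa_leaf (P := Itm.ok 206) (iqf tpr500_c)) (BT.Fa_leaf (P := Itm.ok 206) (iqf tpr2337_c))) (BT.Fa_leaf (P := Itm.ok 206) (iqf tpr2343_c))) (BT.Fa_mk (BT.Fa_leaf (P := Itm.ok 206) (iqf tpr5_c)) (BT.Fa_leaf (P := Itm.ok 206) (iqf tpr2329_c)))))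 (BT.Fa_mk (BT.Fa_mk (BT.Fa_mk (BT.Fa_mk (BT.Fa_leaf (P := Itm.ok 206) (iqf tpr2334_c)) (BT.Fa_leaf (P := Itm.ok 206) (iqf tpr259_c))) (BT.Fa_leaf (P := Itm.ok 206) (iqb tpr959_c))) (BT.Fa_mk (BT.Fa_leaf (P := Itm.ok 206) (iqb tpr2324_c)) (BT.Fa_leaf (P := Itm.ok 206) (iqf tpr982_c)))) (BT.Fa_mk (BT.Fa_mk (BT.Fa_mk (BT.Fa_leaf (P := Itm.ok 206) (iqf tpr2094_c)) (BT.Fa_leaf (P := Itm.ok 206) (iqb tpr575_c))) (BT.Fa_leaf (P := Itm.ok 206) (iqf tpr2236_c))) (BT.Fa_mk (BT.Fa_leaf (P := Itm.ok 206) (iqf tpr569_c)) (BT.Fa_leaf (P := Itm.ok 206) (iqb tpr1143_c)))))) (BT.Fa_mk (BT.Fa_mk (BT.Fa_mk (BT.Fa_mk (BT.Fa_mk (BT.Fa_leaf (P := Itm.ok 206) (iqb tpr581_c)) (BT.Fa_leaf (P := Itm.ok 206) (iqb tpr503_c))) (BT.Fa_leaf (P := Itm.ok 206) (iqf tpr2485_c)))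 (BT.Fa_mk (BT.Fa_leaf (P := Itm.ok 206) (iqf tpr2113_c)) (BT.Fa_leaf (P := Itm.ok 206) (iqb tpr2351_c)))) (BT.Fa_mk (BT.Fa_mk (BT.Fa_mk (BT.Fa_leaf (P := Itm.ok 206) (iqf tpr2619_c)) (BT.Fa_leaf (P := Itm.ok 206) (iqf tpr2024_c))) (BT.Fa_leaf (P := Itm.ok 206) (iqf tpr1112_c))) (BT.Fa_mk (BT.Fa_leaf (P := Itm.ok 206) (iqf tpr2349_c)) (BT.Fa_leaf (P := Itm.ok 206) (iqb tpr2215_c))))) (BT.Fa_mk (BT.Fa_mk (BT.Fa_mk (BT.Fa_mk (BT.Fa_leaf (P := Itm.ok 206) (iqf tpr656_c)) (BT.Fa_leaf (P := Itm.ok 206) (iqb tpr534_c))) (BT.Fa_leaf (P := Itm.ok 206) (iqf tpr466_c))) (BT.Fa_mk (BT.Fa_leaf (P := Itm.ok 206) (iqf tpr2171_c)) (BT.Fa_leaf (P := Itm.ok 206) (iqb tpr557_c)))) (BT.Fa_mk (BT.Fa_mk (BT.Fa_leaf (P := Itm.ok 206) (iqb tpr1562_c)) (BT.Fa_leaf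 (P := Itm.ok 206) (iqb tpr2491_c))) (BT.Fa_mk (BT.Fa_leaf (P := Itm.ok 206) (iqf tpr1633_c)) (BT.Fa_leaf (P := Itm.ok 206) (iqb tpr941_c))))))) (BT.Fa_mk (BT.Fa_mk (BT.Fa_mk (BT.Fa_mk (BT.Fa_mk (BT.Fa_mk (BT.Fa_leaf (P := Itm.ok 206) (iqb tpr815_c)) (BT.Fa_leaf (P := Itm.ok 206) (iqb tpr629_c))) (BT.Fa_leaf (P := Itm.ok 206) (iqb tpr960_c))) (BT.Fa_mk (BT.Fa_leaf (P := Itm.ok 206) (iqf tpr2621_c)) (BT.Fa_leaf (P := Itm.ok 206) (iqf tpr74_c)))) (BT.Fa_mk (BT.Fa_mk (BT.Fa_mk (BT.Fa_leaf (P := Itm.ok 206) (iqf tpr46_c)) (BT.Fa_leaf (P := Itm.ok 206) (iqf tpr814_c))) (BT.Fa_leaf (P := Itm.ok 206) (iqf tpr2620_c))) (BT.Fa_mk (BT.Fa_leaf (P := Itm.ok 206) (iqf tpr574_c)) (BT.Fa_leaf (P := Itm.ok 206) (iqf tpr2525_c))))) (BT.Fa_mk (BT.Fa_mk (BT.Fa_mk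 (BT.Fa_mk (BT.Fa_leaf (P := Itm.ok 206) (iqf tpr12_c)) (BT.Fa_leaf (P := Itm.ok 206) (iqb tpr295_c))) (BT.Fa_leaf (P := Itm.ok 206) (iqb tpr10_c))) (BT.Fa_mk (BT.Fa_leaf (P := Itm.ok 206) (iqb tpr8_c)) (BT.Fa_leaf (P := Itm.ok 206) (iqf tpr82_c)))) (BT.Fa_mk (BT.Fa_mk (BT.Fa_mk (BT.Fa_leaf (P := Itm.ok 206) (iqf tpr419_c)) (BT.Fa_leaf (P := Itm.ok 206) (iqb tpr577_c))) (BT.Fa_leaf (P := Itm.ok 206) (iqb tpr1138_c))) (BT.Fa_mk (BT.Fa_leaf (P := Itm.ok 206) (iqf tpr562_c)) (BT.Fa_leaf (P := Itm.ok 206) (iqf tpr51_c)))))) (BT.Fa_mk (BT.Fa_mk (BT.Fa_mk (BT.Fa_mk (BT.Fa_mk (BT.Fa_leaf (P := Itm.ok 206) (iqb tpr188_c)) (BT.Fa_leaf (P := Itm.ok 206) (iqf tpr810_c))) (BT.Fa_leaf (P := Itm.ok 206) (iqf tpr780_c))) (BT.Fa_mk (BT.Fa_leaf (P := Itm.ok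 206) (iqb tpr505_c)) (BT.Fa_leaf (P := Itm.ok 206) (iqf tpr618_c)))) (BT.Fa_mk (BT.Fa_mk (BT.Fa_mk (BT.Fa_leaf (P := Itm.ok 206) (iqf tpr239_c)) (BT.Fa_leaf (P := Itm.ok 206) (iqf tpr44_c))) (BT.Fa_leaf (P := Itm.ok 206) (iqf tpr526_c))) (BT.Fa_mk (BT.Fa_leaf (P := Itm.ok 206) (iqb tpr1182_c)) (BT.Fa_leaf (P := Itm.ok 206) (iqb tpr518_c))))) (BT.Fa_mk (BT.Fa_mk (BT.Fa_mk (BT.Fa_mk (BT.Fa_leaf (P := Itm.ok 206) (iqf tpr555_c)) (BT.Fa_leaf (P := Itm.ok 206) (iqf tpr48_c))) (BT.Fa_leaf (P := Itm.ok 206) (iqf tpr198_c))) (BT.Fa_mk (BT.Fa_leaf (P := Itm.ok 206) (iqf tpr474_c)) (BT.Fa_leaf (P := Itm.ok 206) (iqf tpr559_c)))) (BT.Fa_mk (BT.Fa_mk (BT.Fa_leaf (P := Itm.ok 206) (iqb tpr124_c)) (BT.Fa_leaf (P := Itm.ok 206) (iqf tpr210_c))) (BT.Fa_mk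 (BT.Fa_leaf (P := Itm.ok 206) (iqf tpr2167_c)) (BT.Fa_leaf (P := Itm.ok 206) (iqf tpr1359_c)))))))) (BT.Fa_mk (BT.Fa_mk (BT.Fa_mk (BT.Fa_mk (BT.Fa_mk (BT.Fa_mk (BT.Fa_mk (BT.Fa_leaf (P := Itm.ok 206) (iqb tpr2278_c)) (BT.Fa_leaf (P := Itm.ok 206) (iqb tpr2123_c))) (BT.Fa_leaf (P := Itm.ok 206) (iqb tpr547_c))) (BT.Fa_mk (BT.Fa_leaf (P := Itm.ok 206) (iqb tpr606_c)) (BT.Fa_leaf (P := Itm.ok 206) (iqf tpr1255_c)))) (BT.Fa_mk (BT.Fa_mk (BT.Fa_mk (BT.Fa_leaf (P := Itm.ok 206) (iqb tpr1193_c)) (BT.Fa_leaf (P := Itm.ok 206) (iqf tpr2398_c))) (BT.Fa_leaf (P := Itm.ok 206) (iqb tpr48_c))) (BT.Fa_mk (BT.Fa_leaf (P := Itm.ok 206) (iqf tpr608_c)) (BT.Fa_leaf (P := Itm.ok 206) (iqb tpr640_c))))) (BT.Fa_mk (BT.Fa_mk (BT.Fa_mk (BT.Fa_mk (BT.Fa_leaf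 (P := Itm.ok 206) (iqb tpr636_c)) (BT.Fa_leaf (P := Itm.ok 206) (iqf tpr2239_c))) (BT.Fa_leaf (P := Itm.ok 206) (iqf tpr733_c))) (BT.Fa_mk (BT.Fa_leaf (P := Itm.ok 206) (iqf tpr2623_c)) (BT.Fa_leaf (P := Itm.ok 206) (iqb tpr997_c)))) (BT.Fa_mk (BT.Fa_mk (BT.Fa_mk (BT.Fa_leaf (P := Itm.ok 206) (iqf tpr2166_c)) (BT.Fa_leaf (P := Itm.ok 206) (iqf tpr609_c))) (BT.Fa_leaf (P := Itm.ok 206) (iqf tpr721_c))) (BT.Fa_mk (BT.Fa_leaf (P := Itm.ok 206) (iqf tpr2277_c)) (BT.Fa_leaf (P := Itm.ok 206) (iqb tpr2618_c)))))) (BT.Fa_mk (BT.Fa_mk (BT.Fa_mk (BT.Fa_mk (BT.Fa_mk (BT.Fa_leaf (P := Itm.ok 206) (iqb tpr1233_c)) (BT.Fa_leaf (P := Itm.ok 206) (iqb tpr499_c))) (BT.Fa_leaf (P := Itm.ok 206) (iqb tpr294_c))) (BT.Fa_mk (BT.Fa_leaf (P := Itm.ok 206) (iqf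 tpr1900_c)) (BT.Fa_leaf (P := Itm.ok 206) (iqf tpr1765_c)))) (BT.Fa_mk (BT.Fa_mk (BT.Fa_mk (BT.Fa_leaf (P := Itm.ok 206) (iqb tpr1247_c)) (BT.Fa_leaf (P := Itm.ok 206) (iqf tpr2335_c))) (BT.Fa_leaf (P := Itm.ok 206) (iqf tpr2007_c))) (BT.Fa_mk (BT.Fa_leaf (P := Itm.ok 206) (iqb tpr1001_c)) (BT.Fa_leaf (P := Itm.ok 206) (iqf tpr2133_c))))) (BT.Fa_mk (BT.Fa_mk (BT.Fa_mk (BT.Fa_mk (BT.Fa_leaf (P := Itm.ok 206) (iqb tpr2243_c)) (BT.Fa_leaf (P := Itm.ok 206) (iqb tpr2509_c))) (BT.Fa_leaf (P := Itm.ok 206) (iqb tpr588_c))) (BT.Fa_mk (BT.Fa_leaf (P := Itm.ok 206) (iqf tpr1215_c)) (BT.Fa_leaf (P := Itm.ok 206) (iqf tpr2497_c)))) (BT.Fa_mk (BT.Fa_mk (BT.Fa_leaf (P := Itm.ok 206) (iqb tpr2524_c)) (BT.Fa_leaf (P := Itm.ok 206) (iqb tpr2498_c))) (BT.Fa_mk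 (BT.Fa_leaf (P := Itm.ok 206) (iqf tpr2260_c)) (BT.Fa_leaf (P := Itm.ok 206) (iqf tpr1771_c))))))) (BT.Fa_mk (BT.Fa_mk (BT.Fa_mk (BT.Fa_mk (BT.Fa_mk (BT.Fa_mk (BT.Fa_leaf (P := Itm.ok 206) (iqb tpr2208_c)) (BT.Fa_leaf (P := Itm.ok 206) (iqf tpr596_c))) (BT.Fa_leaf (P := Itm.ok 206) (iqb tpr576_c))) (BT.Fa_mk (BT.Fa_leaf (P := Itm.ok 206) (iqf tpr2179_c)) (BT.Fa_leaf (P := Itm.ok 206) (iqb tpr2125_c)))) (BT.Fa_mk (BT.Fa_mk (BT.Fa_mk (BT.Fa_leaf (P := Itm.ok 206) (iqf tpr2177_c)) (BT.Fa_leaf (P := Itm.ok 206) (iqb tpr20_c))) (BT.Fa_leaf (P := Itm.ok 206) (iqb tpr2131_c))) (BT.Fa_mk (BT.Fa_leaf (P := Itm.ok 206) (iqb tpr2196_c)) (BT.Fa_leaf (P := Itm.ok 206) (iqb tpr33_c))))) (BT.Fa_mk (BT.Fa_mk (BT.Fa_mk (BT.Fa_mk (BT.Fa_leaf (P := Itm.ok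 206) (iqb tpr90_c)) (BT.Fa_leaf (P := Itm.ok 206) (iqb tpr533_c))) (BT.Fa_leaf (P := Itm.ok 206) (iqb tpr1736_c))) (BT.Fa_mk (BT.Fa_leaf (P := Itm.ok 206) (iqf tpr89_c)) (BT.Fa_leaf (P := Itm.ok 206) (iqf tpr641_c)))) (BT.Fa_mk (BT.Fa_mk (BT.Fa_mk (BT.Fa_leaf (P := Itm.ok 206) (iqf tpr1464_c)) (BT.Fa_leaf (P := Itm.ok 206) (iqb tpr1346_c))) (BT.Fa_leaf (P := Itm.ok 206) (iqf tpr1414_c))) (BT.Fa_mk (BT.Fa_leaf (P := Itm.ok 206) (iqb tpr2233_c)) (BT.Fa_leaf (P := Itm.ok 206) (iqb tpr504_c)))))) (BT.Fa_mk (BT.Fa_mk (BT.Fa_mk (BT.Fa_mk (BT.Fa_mk (BT.Fa_leaf (P := Itm.ok 206) (iqf tpr2328_c)) (BT.Fa_leaf (P := Itm.ok 206) (iqf tpr2350_c))) (BT.Fa_leaf (P := Itm.ok 206) (iqf tpr2627_c))) (BT.Fa_mk (BT.Fa_leaf (P := Itm.ok 206) (iqf tpr1647_c))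 (BT.Fa_leaf (P := Itm.ok 206) (iqf tpr2189_c)))) (BT.Fa_mk (BT.Fa_mk (BT.Fa_mk (BT.Fa_leaf (P := Itm.ok 206) (iqb tpr2541_c)) (BT.Fa_leaf (P := Itm.ok 206) (iqf tpr1764_c))) (BT.Fa_leaf (P := Itm.ok 206) (iqb tpr2504_c))) (BT.Fa_mk (BT.Fa_leaf (P := Itm.ok 206) (iqf tpr2546_c)) (BT.Fa_leaf (P := Itm.ok 206) (iqf tpr2543_c))))) (BT.Fa_mk (BT.Fa_mk (BT.Fa_mk (BT.Fa_mk (BT.Fa_leaf (P := Itm.ok 206) (iqb tpr630_c)) (BT.Fa_leaf (P := Itm.ok 206) (iqf tpr2628_c))) (BT.Fa_leaf (P := Itm.ok 206) (iqf tpr2625_c))) (BT.Fa_mk (BT.Fa_leaf (P := Itm.ok 206) (iqf tpr1762_c)) (BT.Fa_leaf (P := Itm.ok 206) (iqf tpr502_c)))) (BT.Fa_mk (BT.Fa_mk (BT.Fa_leaf (P := Itm.ok 206) (iqb tpr2200_c)) (BT.Fa_leaf (P := Itm.ok 206) (iqb tpr2487_c))) (BT.Fa_mk (BT.Fa_leaf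 (P := Itm.ok 206) (iqf tpr2634_c)) (BT.Fa_leaf (P := Itm.ok 206) (iqb tpr2164_c)))))))))

/-- all words of the class have labels -/
theorem pokNFzAyE2ByA3H2AzIzA2H3A2EyA2AzAyBzF : POK 206 xNFzAyE2ByA3H2AzIzA2H3A2EyA2AzAyBzF :=
  y_pok (C0 := ceNFzAyE2ByA3H2AzIzA2H3A2EyA2AzAyBzF) (C1 := coNFzAyE2ByA3H2AzIzA2H3A2EyA2AzAyBzF) topNFzAyE2ByA3H2AzIzA2H3A2EyA2AzAyBzF nbNFzAyE2ByA3H2AzIzA2H3A2EyA2AzAyBzF (BT.Fa_of_all iiNFzAyE2ByA3H2AzIzA2H3A2EyA2AzAyBzF_c)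
    (BT.Fa_mk (cyE_spec zeNFzAyE2ByA3H2AzIzA2H3A2EyA2AzAyBzF_0) (cyE_spec zeNFzAyE2ByA3H2AzIzA2H3A2EyA2AzAyBzF_1))
    (BT.Fa_mk (cyO_spec zoNFzAyE2ByA3H2AzIzA2H3A2EyA2AzAyBzF_0) (cyO_spec zoNFzAyE2ByA3H2AzIzA2H3A2EyA2AzAyBzF_1))
    iiNFzAyE2ByA3H2AzIzA2H3A2EyA2AzAyBzF_k

theorem iiNFzAyE2ByA3H2AzIzAyB2H3A2EyA2AzAyBzF_k : iiNFzAyE2ByA3H2AzIzAyB2H3A2EyA2AzAyBzF.Fa (Itm.ok 206) := (BT.Fa_mk (BT.Fa_mk (BT.Fa_mk (BT.Fa_mk (BT.Fa_mk (BT.Fa_mk (BT.Fa_mk (BT.Fa_mk (BT.Fa_leaf (P := Itm.ok 206) (iqf tpr499_c)) (BT.Fa_leaf (P := Itm.ok 206) (iqf tpr5_c))) (BT.Fa_leaf (P := Itm.ok 206) (iqf tpr2334_c))) (BT.Fa_mk (BT.Fa_leaf (P := Itm.ok 206) (iqf tpr500_c)) (BT.Fa_leaf (P := Itm.ok 206) (iqf tpr1765_c)))) (BT.Fa_mk (BT.Fa_mk (BT.Fa_mk (BT.Fa_leaf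 (P := Itm.ok 206) (iqf tpr2335_c)) (BT.Fa_leaf (P := Itm.ok 206) (iqf tpr210_c))) (BT.Fa_leaf (P := Itm.ok 206) (iqf tpr2349_c))) (BT.Fa_mk (BT.Fa_leaf (P := Itm.ok 206) (iqf tpr44_c)) (BT.Fa_leaf (P := Itm.ok 206) (iqb tpr2123_c))))) (BT.Fa_mk (BT.Fa_mk (BT.Fa_mk (BT.Fa_mk (BT.Fa_leaf (P := Itm.ok 206) (iqb tpr979_c)) (BT.Fa_leaf (P := Itm.ok 206) (iqb tpr2487_c))) (BT.Fa_leaf (P := Itm.ok 206) (iqf tpr2260_c))) (BT.Fa_mk (BT.Fa_leaf (P := Itm.ok 206) (iqb tpr953_c)) (BT.Fa_leaf (P := Itm.ok 206) (iqf tpr103_c)))) (BT.Fa_mk (BT.Fa_mk (BT.Fa_mk (BT.Fa_leaf (P := Itm.ok 206) (iqf tpr2329_c)) (BT.Fa_leaf (P := Itm.ok 206) (iqf tpr574_c))) (BT.Fa_leaf (P := Itm.ok 206) (iqb tpr2187_c))) (BT.Fa_mk (BT.Fa_leaf (P := Itm.ok 206) (iqf tpr4_c))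 (BT.Fa_leaf (P := Itm.ok 206) (iqb tpr577_c)))))) (BT.Fa_mk (BT.Fa_mk (BT.Fa_mk (BT.Fa_mk (BT.Fa_mk (BT.Fa_leaf (P := Itm.ok 206) (iqf tpr2167_c)) (BT.Fa_leaf (P := Itm.ok 206) (iqf tpr247_c))) (BT.Fa_leaf (P := Itm.ok 206) (iqf tpr2398_c))) (BT.Fa_mk (BT.Fa_leaf (P := Itm.ok 206) (iqb tpr1206_c)) (BT.Fa_leaf (P := Itm.ok 206) (iqb tpr815_c)))) (BT.Fa_mk (BT.Fa_mk (BT.Fa_mk (BT.Fa_leaf (P := Itm.ok 206) (iqf tpr814_c)) (BT.Fa_leaf (P := Itm.ok 206) (iqb tpr62_c))) (BT.Fa_leaf (P := Itm.ok 206) (iqb tpr499_c))) (BT.Fa_mk (BT.Fa_leaf (P := Itm.ok 206) (iqf tpr51_c)) (BT.Fa_leaf (P := Itm.ok 206) (iqb tpr113_c))))) (BT.Fa_mk (BT.Fa_mk (BT.Fa_mk (BT.Fa_mk (BT.Fa_leaf (P := Itm.ok 206) (iqf tpr168_c)) (BT.Fa_leaf (P := Itm.ok 206) (iqb tpr2324_c)))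 (BT.Fa_leaf (P := Itm.ok 206) (iqf tpr2343_c))) (BT.Fa_mk (BT.Fa_leaf (P := Itm.ok 206) (iqb tpr10_c)) (BT.Fa_leaf (P := Itm.ok 206) (iqf tpr82_c)))) (BT.Fa_mk (BT.Fa_mk (BT.Fa_mk (BT.Fa_leaf (P := Itm.ok 206) (iqf tpr507_c)) (BT.Fa_leaf (P := Itm.ok 206) (iqf tpr555_c))) (BT.Fa_leaf (P := Itm.ok 206) (iqf tpr1112_c))) (BT.Fa_mk (BT.Fa_leaf (P := Itm.ok 206) (iqb tpr1143_c)) (BT.Fa_leaf (P := Itm.ok 206) (iqb tpr22_c))))))) (BT.Fa_mk (BT.Fa_mk (BT.Fa_mk (BT.Fa_mk (BT.Fa_mk (BT.Fa_mk (BT.Fa_leaf (P := Itm.ok 206) (iqf tpr596_c)) (BT.Fa_leaf (P := Itm.ok 206) (iqf tpr502_c))) (BT.Fa_leaf (P := Itm.ok 206) (iqb tpr504_c))) (BT.Fa_mk (BT.Fa_leaf (P := Itm.ok 206) (iqb tpr294_c)) (BT.Fa_leaf (P := Itm.ok 206) (iqb tpr576_c)))) (BT.Fa_mk (BT.Fa_mk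 (BT.Fa_mk (BT.Fa_leaf (P := Itm.ok 206) (iqf tpr17_c)) (BT.Fa_leaf (P := Itm.ok 206) (iqb tpr1099_c))) (BT.Fa_leaf (P := Itm.ok 206) (iqf tpr683_c))) (BT.Fa_mk (BT.Fa_leaf (P := Itm.ok 206) (iqf tpr701_c)) (BT.Fa_leaf (P := Itm.ok 206) (iqf tpr949_c))))) (BT.Fa_mk (BT.Fa_mk (BT.Fa_mk (BT.Fa_mk (BT.Fa_leaf (P := Itm.ok 206) (iqf tpr1633_c)) (BT.Fa_leaf (P := Itm.ok 206) (iqf tpr619_c))) (BT.Fa_leaf (P := Itm.ok 206) (iqf tpr2485_c))) (BT.Fa_mk (BT.Fa_leaf (P := Itm.ok 206) (iqf tpr2670_c)) (BT.Fa_leaf (P := Itm.ok 206) (iqb tpr581_c)))) (BT.Fa_mk (BT.Fa_mk (BT.Fa_mk (BT.Fa_leaf (P := Itm.ok 206) (iqf tpr239_c)) (BT.Fa_leaf (P := Itm.ok 206) (iqf tpr982_c))) (BT.Fa_leaf (P := Itm.ok 206) (iqb tpr541_c))) (BT.Fa_mk (BT.Fa_leaf (P := Itm.ok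 206) (iqf tpr680_c)) (BT.Fa_leaf (P := Itm.ok 206) (iqf tpr2621_c)))))) (BT.Fa_mk (BT.Fa_mk (BT.Fa_mk (BT.Fa_mk (BT.Fa_mk (BT.Fa_leaf (P := Itm.ok 206) (iqf tpr1767_c)) (BT.Fa_leaf (P := Itm.ok 206) (iqb tpr518_c))) (BT.Fa_leaf (P := Itm.ok 206) (iqf tpr559_c))) (BT.Fa_mk (BT.Fa_leaf (P := Itm.ok 206) (iqf tpr641_c)) (BT.Fa_leaf (P := Itm.ok 206) (iqb tpr1193_c)))) (BT.Fa_mk (BT.Fa_mk (BT.Fa_mk (BT.Fa_leaf (P := Itm.ok 206) (iqf tpr466_c)) (BT.Fa_leaf (P := Itm.ok 206) (iqf tpr12_c))) (BT.Fa_leaf (P := Itm.ok 206) (iqb tpr2217_c))) (BT.Fa_mk (BT.Fa_leaf (P := Itm.ok 206) (iqf tpr656_c)) (BT.Fa_leaf (P := Itm.ok 206) (iqb tpr721_c))))) (BT.Fa_mk (BT.Fa_mk (BT.Fa_mk (BT.Fa_mk (BT.Fa_leaf (P := Itm.ok 206) (iqb tpr625_c)) (BT.Fa_leaf (P :=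 Itm.ok 206) (iqb tpr2616_c))) (BT.Fa_leaf (P := Itm.ok 206) (iqf tpr645_c))) (BT.Fa_mk (BT.Fa_leaf (P := Itm.ok 206) (iqb tpr2154_c)) (BT.Fa_leaf (P := Itm.ok 206) (iqf tpr2150_c)))) (BT.Fa_mk (BT.Fa_mk (BT.Fa_mk (BT.Fa_leaf (P := Itm.ok 206) (iqb tpr636_c)) (BT.Fa_leaf (P := Itm.ok 206) (iqb tpr997_c))) (BT.Fa_leaf (P := Itm.ok 206) (iqf tpr2166_c))) (BT.Fa_mk (BT.Fa_leaf (P := Itm.ok 206) (iqf tpr1900_c)) (BT.Fa_leaf (P := Itm.ok 206) (iqf tpr611_c)))))))) (BT.Fa_mk (BT.Fa_mk (BT.Fa_mk (BT.Fa_mk (BT.Fa_mk (BT.Fa_mk (BT.Fa_mk (BT.Fa_leaf (P := Itm.ok 206) (iqf tpr810_c)) (BT.Fa_leaf (P := Itm.ok 206) (iqf tpr2171_c))) (BT.Fa_leaf (P := Itm.ok 206) (iqf tpr780_c))) (BT.Fa_mk (BT.Fa_leaf (P := Itm.ok 206) (iqb tpr1562_c)) (BT.Fa_leaf (P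 := Itm.ok 206) (iqf tpr1215_c)))) (BT.Fa_mk (BT.Fa_mk (BT.Fa_mk (BT.Fa_leaf (P := Itm.ok 206) (iqb tpr1001_c)) (BT.Fa_leaf (P := Itm.ok 206) (iqf tpr569_c))) (BT.Fa_leaf (P := Itm.ok 206) (iqf tpr2133_c))) (BT.Fa_mk (BT.Fa_leaf (P := Itm.ok 206) (iqf tpr2189_c)) (BT.Fa_leaf (P := Itm.ok 206) (iqb tpr2130_c))))) (BT.Fa_mk (BT.Fa_mk (BT.Fa_mk (BT.Fa_mk (BT.Fa_leaf (P := Itm.ok 206) (iqb tpr2005_c)) (BT.Fa_leaf (P := Itm.ok 206) (iqf tpr608_c))) (BT.Fa_leaf (P := Itm.ok 206) (iqb tpr640_c))) (BT.Fa_mk (BT.Fa_leaf (P := Itm.ok 206) (iqb tpr2504_c)) (BT.Fa_leaf (P := Itm.ok 206) (iqb tpr2509_c)))) (BT.Fa_mk (BT.Fa_mk (BT.Fa_mk (BT.Fa_leaf (P := Itm.ok 206) (iqf tpr2619_c)) (BT.Fa_leaf (P := Itm.ok 206) (iqb tpr2488_c))) (BT.Fa_leaf (P := Itm.ok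 206) (iqb tpr2125_c))) (BT.Fa_mk (BT.Fa_leaf (P := Itm.ok 206) (iqb tpr2215_c)) (BT.Fa_leaf (P := Itm.ok 206) (iqf tpr2277_c)))))) (BT.Fa_mk (BT.Fa_mk (BT.Fa_mk (BT.Fa_mk (BT.Fa_mk (BT.Fa_leaf (P := Itm.ok 206) (iqb tpr2131_c)) (BT.Fa_leaf (P := Itm.ok 206) (iqb tpr106_c))) (BT.Fa_leaf (P := Itm.ok 206) (iqb tpr1247_c))) (BT.Fa_mk (BT.Fa_leaf (P := Itm.ok 206) (iqb tpr2196_c)) (BT.Fa_leaf (P := Itm.ok 206) (iqf tpr1051_c)))) (BT.Fa_mk (BT.Fa_mk (BT.Fa_mk (BT.Fa_leaf (P := Itm.ok 206) (iqf tpr2253_c)) (BT.Fa_leaf (P := Itm.ok 206) (iqf tpr2239_c))) (BT.Fa_leaf (P := Itm.ok 206) (iqb tpr2233_c))) (BT.Fa_mk (BT.Fa_leaf (P := Itm.ok 206) (iqf tpr2007_c)) (BT.Fa_leaf (P := Itm.ok 206) (iqb tpr2491_c))))) (BT.Fa_mk (BT.Fa_mk (BT.Fa_mk (BT.Fa_mk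 (BT.Fa_leaf (P := Itm.ok 206) (iqf tpr2177_c)) (BT.Fa_leaf (P := Itm.ok 206) (iqb tpr2624_c))) (BT.Fa_leaf (P := Itm.ok 206) (iqb tpr2351_c))) (BT.Fa_mk (BT.Fa_leaf (P := Itm.ok 206) (iqf tpr1780_c)) (BT.Fa_leaf (P := Itm.ok 206) (iqb tpr2498_c)))) (BT.Fa_mk (BT.Fa_mk (BT.Fa_mk (BT.Fa_leaf (P := Itm.ok 206) (iqf tpr2525_c)) (BT.Fa_leaf (P := Itm.ok 206) (iqf tpr2620_c))) (BT.Fa_leaf (P := Itm.ok 206) (iqf tpr2497_c))) (BT.Fa_mk (BT.Fa_leaf (P := Itm.ok 206) (iqb tpr2278_c)) (BT.Fa_leaf (P := Itm.ok 206) (iqb tpr2529_c))))))) (BT.Fa_mk (BT.Fa_mk (BT.Fa_mk (BT.Fa_mk (BT.Fa_mk (BT.Fa_mk (BT.Fa_leaf (P := Itm.ok 206) (iqf tpr2236_c)) (BT.Fa_leaf (P := Itm.ok 206) (iqf tpr2256_c))) (BT.Fa_leaf (P := Itm.ok 206) (iqf tpr1647_c))) (BT.Fa_mk (BT.Fa_leaf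 (P := Itm.ok 206) (iqb tpr555_c)) (BT.Fa_leaf (P := Itm.ok 206) (iqf tpr1255_c)))) (BT.Fa_mk (BT.Fa_mk (BT.Fa_mk (BT.Fa_leaf (P := Itm.ok 206) (iqb tpr2208_c)) (BT.Fa_leaf (P := Itm.ok 206) (iqb tpr959_c))) (BT.Fa_leaf (P := Itm.ok 206) (iqb tpr2126_c))) (BT.Fa_mk (BT.Fa_leaf (P := Itm.ok 206) (iqb tpr2524_c)) (BT.Fa_leaf (P := Itm.ok 206) (iqb tpr33_c))))) (BT.Fa_mk (BT.Fa_mk (BT.Fa_mk (BT.Fa_mk (BT.Fa_leaf (P := Itm.ok 206) (iqf tpr2672_c)) (BT.Fa_leaf (P := Itm.ok 206) (iqb tpr90_c))) (BT.Fa_leaf (P := Itm.ok 206) (iqf tpr1024_c))) (BT.Fa_mk (BT.Fa_leaf (P := Itm.ok 206) (iqf tpr2328_c)) (BT.Fa_leaf (P := Itm.ok 206) (iqf tpr1414_c)))) (BT.Fa_mk (BT.Fa_mk (BT.Fa_mk (BT.Fa_leaf (P := Itm.ok 206) (iqb tpr2626_c)) (BT.Fa_leaf (P := Itm.ok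 206) (iqb tpr2689_c))) (BT.Fa_leaf (P := Itm.ok 206) (iqf tpr1771_c))) (BT.Fa_mk (BT.Fa_leaf (P := Itm.ok 206) (iqf tpr2537_c)) (BT.Fa_leaf (P := Itm.ok 206) (iqf tpr2627_c)))))) (BT.Fa_mk (BT.Fa_mk (BT.Fa_mk (BT.Fa_mk (BT.Fa_mk (BT.Fa_leaf (P := Itm.ok 206) (iqf tpr614_c)) (BT.Fa_leaf (P := Itm.ok 206) (iqf tpr2879_c))) (BT.Fa_leaf (P := Itm.ok 206) (iqf tpr2350_c))) (BT.Fa_mk (BT.Fa_leaf (P := Itm.ok 206) (iqf tpr2546_c)) (BT.Fa_leaf (P := Itm.ok 206) (iqf tpr2543_c)))) (BT.Fa_mk (BT.Fa_mk (BT.Fa_mk (BT.Fa_leaf (P := Itm.ok 206) (iqf tpr1764_c)) (BT.Fa_leaf (P := Itm.ok 206) (iqf tpr789_c))) (BT.Fa_leaf (P := Itm.ok 206) (iqf tpr2628_c))) (BT.Fa_mk (BT.Fa_leaf (P := Itm.ok 206) (iqf tpr2731_c)) (BT.Fa_leaf (P := Itm.ok 206) (iqf tpr2682_c)))))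 (BT.Fa_mk (BT.Fa_mk (BT.Fa_mk (BT.Fa_mk (BT.Fa_leaf (P := Itm.ok 206) (iqf tpr738_c)) (BT.Fa_leaf (P := Itm.ok 206) (iqf tpr2231_c))) (BT.Fa_leaf (P := Itm.ok 206) (iqb tpr697_c))) (BT.Fa_mk (BT.Fa_leaf (P := Itm.ok 206) (iqf tpr606_c)) (BT.Fa_leaf (P := Itm.ok 206) (iqf tpr2113_c)))) (BT.Fa_mk (BT.Fa_mk (BT.Fa_leaf (P := Itm.ok 206) (iqf tpr2891_c)) (BT.Fa_leaf (P := Itm.ok 206) (iqf tpr2634_c))) (BT.Fa_mk (BT.Fa_leaf (P := Itm.ok 206) (iqb tpr2164_c)) (BT.Fa_leaf (P := Itm.ok 206) (iqb tpr2559_c)))))))))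

/-- all words of the class have labels -/
theorem pokNFzAyE2ByA3H2AzIzAyB2H3A2EyA2AzAyBzF : POK 206 xNFzAyE2ByA3H2AzIzAyB2H3A2EyA2AzAyBzF :=
  y_pok (C0 := ceNFzAyE2ByA3H2AzIzAyB2H3A2EyA2AzAyBzF) (C1 := coNFzAyE2ByA3H2AzIzAyB2H3A2EyA2AzAyBzF) topNFzAyE2ByA3H2AzIzAyB2H3A2EyA2AzAyBzF nbNFzAyE2ByA3H2AzIzAyB2H3A2EyA2AzAyBzF (BT.Fa_of_all iiNFzAyE2ByA3H2AzIzAyB2H3A2EyA2AzAyBzF_c)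
    (BT.Fa_mk (cyE_spec zeNFzAyE2ByA3H2AzIzAyB2H3A2EyA2AzAyBzF_0) (cyE_spec zeNFzAyE2ByA3H2AzIzAyB2H3A2EyA2AzAyBzF_1))
    (BT.Fa_mk (cyO_spec zoNFzAyE2ByA3H2AzIzAyB2H3A2EyA2AzAyBzF_0) (BT.Fa_mk (cyO_spec zoNFzAyE2ByA3H2AzIzAyB2H3A2EyA2AzAyBzF_1) (cyO_spec zoNFzAyE2ByA3H2AzIzAyB2H3A2EyA2AzAyBzF_2)))
    iiNFzAyE2ByA3H2AzIzAyB2H3A2EyA2AzAyBzF_k

theorem iiNFzAyE2ByA3H3A2E2A2AzAyBzF_k : iiNFzAyE2ByA3H3A2E2A2AzAyBzF.Fa (Itm.ok 206) := (BT.Fa_mk (BT.Fa_mk (BT.Fa_mk (BT.Fa_mk (BT.Fa_mk (BT.Fa_mk (BT.Fa_mk (BT.Fa_mk (BT.Fa_leaf (P := Itm.ok 206) (iqf tpr5_c)) (BT.Fa_leaf (P := Itm.ok 206) (iqf tpr500_c))) (BT.Fa_mk (BT.Fa_leaf (P := Itm.ok 206) (iqf tpr82_c)) (BT.Fa_leaf (P := Itm.ok 206) (iqb tpr499_c)))) (BT.Fa_mk (BT.Fa_mk (BT.Fa_leaf (P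 := Itm.ok 206) (iqb tpr504_c)) (BT.Fa_leaf (P := Itm.ok 206) (iqb tpr2114_c))) (BT.Fa_leaf (P := Itm.ok 206) (iqb tpr2112_c)))) (BT.Fa_mk (BT.Fa_mk (BT.Fa_mk (BT.Fa_leaf (P := Itm.ok 206) (iqf tpr51_c)) (BT.Fa_leaf (P := Itm.ok 206) (iqb tpr518_c))) (BT.Fa_leaf (P := Itm.ok 206) (iqf tpr210_c))) (BT.Fa_mk (BT.Fa_mk (BT.Fa_leaf (P := Itm.ok 206) (iqb tpr2123_c)) (BT.Fa_leaf (P := Itm.ok 206) (iqf tpr419_c))) (BT.Fa_leaf (P := Itm.ok 206) (iqf tpr168_c))))) (BT.Fa_mk (BT.Fa_mk (BT.Fa_mk (BT.Fa_mk (BT.Fa_leaf (P := Itm.ok 206) (iqb tpr636_c)) (BT.Fa_leaf (P := Itm.ok 206) (iqb tpr2125_c))) (BT.Fa_mk (BT.Fa_leaf (P := Itm.ok 206) (iqf tpr2239_c)) (BT.Fa_leaf (P := Itm.ok 206) (iqf tpr559_c)))) (BT.Fa_mk (BT.Fa_mk (BT.Fa_leaf (P := Itm.ok 206)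 (iqb tpr2111_c)) (BT.Fa_leaf (P := Itm.ok 206) (iqf tpr596_c))) (BT.Fa_leaf (P := Itm.ok 206) (iqf tpr555_c)))) (BT.Fa_mk (BT.Fa_mk (BT.Fa_mk (BT.Fa_leaf (P := Itm.ok 206) (iqf tpr982_c)) (BT.Fa_leaf (P := Itm.ok 206) (iqf tpr466_c))) (BT.Fa_leaf (P := Itm.ok 206) (iqf tpr2113_c))) (BT.Fa_mk (BT.Fa_mk (BT.Fa_leaf (P := Itm.ok 206) (iqf tpr1647_c)) (BT.Fa_leaf (P := Itm.ok 206) (iqf tpr1765_c))) (BT.Fa_leaf (P := Itm.ok 206) (iqb tpr2233_c)))))) (BT.Fa_mk (BT.Fa_mk (BT.Fa_mk (BT.Fa_mk (BT.Fa_mk (BT.Fa_leaf (P := Itm.ok 206) (iqf tpr619_c)) (BT.Fa_leaf (P := Itm.ok 206) (iqb tpr113_c))) (BT.Fa_mk (BT.Fa_leaf (P := Itm.ok 206) (iqb tpr2208_c)) (BT.Fa_leaf (P := Itm.ok 206) (iqb tpr1193_c)))) (BT.Fa_mk (BT.Fa_mk (BT.Fa_leaf (P := Itm.ok 206)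 (iqb tpr505_c)) (BT.Fa_leaf (P := Itm.ok 206) (iqb tpr2131_c))) (BT.Fa_leaf (P := Itm.ok 206) (iqb tpr2230_c)))) (BT.Fa_mk (BT.Fa_mk (BT.Fa_mk (BT.Fa_leaf (P := Itm.ok 206) (iqb tpr2040_c)) (BT.Fa_leaf (P := Itm.ok 206) (iqf tpr1215_c))) (BT.Fa_leaf (P := Itm.ok 206) (iqb tpr1001_c))) (BT.Fa_mk (BT.Fa_mk (BT.Fa_leaf (P := Itm.ok 206) (iqb tpr2137_c)) (BT.Fa_leaf (P := Itm.ok 206) (iqf tpr2167_c))) (BT.Fa_leaf (P := Itm.ok 206) (iqb tpr2215_c))))) (BT.Fa_mk (BT.Fa_mk (BT.Fa_mk (BT.Fa_mk (BT.Fa_leaf (P := Itm.ok 206) (iqf tpr2116_c)) (BT.Fa_leaf (P := Itm.ok 206) (iqf tpr2133_c))) (BT.Fa_leaf (P := Itm.ok 206) (iqb tpr2225_c))) (BT.Fa_mk (BT.Fa_mk (BT.Fa_leaf (P := Itm.ok 206) (iqf tpr2163_c)) (BT.Fa_leaf (P := Itm.ok 206) (iqf tpr2177_c)))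 (BT.Fa_leaf (P := Itm.ok 206) (iqb tpr2164_c)))) (BT.Fa_mk (BT.Fa_mk (BT.Fa_mk (BT.Fa_leaf (P := Itm.ok 206) (iqb tpr2244_c)) (BT.Fa_leaf (P := Itm.ok 206) (iqf tpr583_c))) (BT.Fa_leaf (P := Itm.ok 206) (iqb tpr2149_c))) (BT.Fa_mk (BT.Fa_mk (BT.Fa_leaf (P := Itm.ok 206) (iqf tpr2260_c)) (BT.Fa_leaf (P := Itm.ok 206) (iqf tpr814_c))) (BT.Fa_leaf (P := Itm.ok 206) (iqb tpr1143_c))))))) (BT.Fa_mk (BT.Fa_mk (BT.Fa_mk (BT.Fa_mk (BT.Fa_mk (BT.Fa_mk (BT.Fa_leaf (P := Itm.ok 206) (iqf tpr499_c)) (BT.Fa_leaf (P := Itm.ok 206) (iqf tpr2229_c))) (BT.Fa_mk (BT.Fa_leaf (P := Itm.ok 206) (iqf tpr1900_c)) (BT.Fa_leaf (P := Itm.ok 206) (iqb tpr2272_c)))) (BT.Fa_mk (BT.Fa_mk (BT.Fa_leaf (P := Itm.ok 206) (iqf tpr2166_c)) (BT.Fa_leaf (P := Itm.ok 206) (iqf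 tpr2189_c))) (BT.Fa_leaf (P := Itm.ok 206) (iqf tpr2186_c)))) (BT.Fa_mk (BT.Fa_mk (BT.Fa_mk (BT.Fa_leaf (P := Itm.ok 206) (iqb tpr2278_c)) (BT.Fa_leaf (P := Itm.ok 206) (iqf tpr613_c))) (BT.Fa_leaf (P := Itm.ok 206) (iqf tpr2153_c))) (BT.Fa_mk (BT.Fa_mk (BT.Fa_leaf (P := Itm.ok 206) (iqb tpr2130_c)) (BT.Fa_leaf (P := Itm.ok 206) (iqf tpr2277_c))) (BT.Fa_leaf (P := Itm.ok 206) (iqb tpr2154_c))))) (BT.Fa_mk (BT.Fa_mk (BT.Fa_mk (BT.Fa_mk (BT.Fa_leaf (P := Itm.ok 206) (iqb tpr2217_c)) (BT.Fa_leaf (P := Itm.ok 206) (iqb tpr2126_c))) (BT.Fa_leaf (P := Itm.ok 206) (iqb tpr2161_c))) (BT.Fa_mk (BT.Fa_mk (BT.Fa_leaf (P := Itm.ok 206) (iqf tpr2226_c)) (BT.Fa_leaf (P := Itm.ok 206) (iqf tpr2267_c))) (BT.Fa_leaf (P := Itm.ok 206) (iqb tpr2269_c))))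 (BT.Fa_mk (BT.Fa_mk (BT.Fa_mk (BT.Fa_leaf (P := Itm.ok 206) (iqf tpr10_c)) (BT.Fa_leaf (P := Itm.ok 206) (iqf tpr2262_c))) (BT.Fa_leaf (P := Itm.ok 206) (iqb tpr2196_c))) (BT.Fa_mk (BT.Fa_mk (BT.Fa_leaf (P := Itm.ok 206) (iqb tpr2264_c)) (BT.Fa_leaf (P := Itm.ok 206) (iqf tpr1573_c))) (BT.Fa_leaf (P := Itm.ok 206) (iqf tpr2144_c)))))) (BT.Fa_mk (BT.Fa_mk (BT.Fa_mk (BT.Fa_mk (BT.Fa_mk (BT.Fa_leaf (P := Itm.ok 206) (iqf tpr1051_c)) (BT.Fa_leaf (P := Itm.ok 206) (iqb tpr2120_c))) (BT.Fa_mk (BT.Fa_leaf (P := Itm.ok 206) (iqb tpr2295_c)) (BT.Fa_leaf (P := Itm.ok 206) (iqf tpr2134_c)))) (BT.Fa_mk (BT.Fa_mk (BT.Fa_leaf (P := Itm.ok 206) (iqf tpr12_c)) (BT.Fa_leaf (P := Itm.ok 206) (iqb tpr2143_c))) (BT.Fa_leaf (P := Itm.ok 206) (iqb tpr33_c))))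 (BT.Fa_mk (BT.Fa_mk (BT.Fa_mk (BT.Fa_leaf (P := Itm.ok 206) (iqf tpr2238_c)) (BT.Fa_leaf (P := Itm.ok 206) (iqf tpr1475_c))) (BT.Fa_leaf (P := Itm.ok 206) (iqf tpr2128_c))) (BT.Fa_mk (BT.Fa_mk (BT.Fa_leaf (P := Itm.ok 206) (iqb tpr24_c)) (BT.Fa_leaf (P := Itm.ok 206) (iqb tpr2129_c))) (BT.Fa_leaf (P := Itm.ok 206) (iqf tpr2145_c))))) (BT.Fa_mk (BT.Fa_mk (BT.Fa_mk (BT.Fa_mk (BT.Fa_leaf (P := Itm.ok 206) (iqf tpr35_c)) (BT.Fa_leaf (P := Itm.ok 206) (iqb tpr28_c))) (BT.Fa_leaf (P := Itm.ok 206) (iqb tpr2247_c))) (BT.Fa_mk (BT.Fa_mk (BT.Fa_leaf (P := Itm.ok 206) (iqb tpr1542_c)) (BT.Fa_leaf (P := Itm.ok 206) (iqf tpr1334_c))) (BT.Fa_leaf (P := Itm.ok 206) (iqf tpr89_c)))) (BT.Fa_mk (BT.Fa_mk (BT.Fa_mk (BT.Fa_leaf (P := Itm.ok 206) (iqf tpr216_c))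 (BT.Fa_leaf (P := Itm.ok 206) (iqb tpr1346_c))) (BT.Fa_leaf (P := Itm.ok 206) (iqf tpr1532_c))) (BT.Fa_mk (BT.Fa_mk (BT.Fa_leaf (P := Itm.ok 206) (iqb tpr21_c)) (BT.Fa_leaf (P := Itm.ok 206) (iqf tpr1355_c))) (BT.Fa_leaf (P := Itm.ok 206) (iqb tpr2488_c)))))))) (BT.Fa_mk (BT.Fa_mk (BT.Fa_mk (BT.Fa_mk (BT.Fa_mk (BT.Fa_mk (BT.Fa_mk (BT.Fa_leaf (P := Itm.ok 206) (iqf tpr1464_c)) (BT.Fa_leaf (P := Itm.ok 206) (iqf tpr611_c))) (BT.Fa_mk (BT.Fa_leaf (P := Itm.ok 206) (iqf tpr966_c)) (BT.Fa_leaf (P := Itm.ok 206) (iqf tpr1341_c)))) (BT.Fa_mk (BT.Fa_mk (BT.Fa_leaf (P := Itm.ok 206) (iqf tpr1112_c)) (BT.Fa_leaf (P := Itm.ok 206) (iqb tpr294_c))) (BT.Fa_leaf (P := Itm.ok 206) (iqf tpr617_c)))) (BT.Fa_mk (BT.Fa_mk (BT.Fa_mk (BT.Fa_leaf (P := Itm.ok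 206) (iqf tpr103_c)) (BT.Fa_leaf (P := Itm.ok 206) (iqb tpr2205_c))) (BT.Fa_leaf (P := Itm.ok 206) (iqb tpr629_c))) (BT.Fa_mk (BT.Fa_mk (BT.Fa_leaf (P := Itm.ok 206) (iqf tpr656_c)) (BT.Fa_leaf (P := Itm.ok 206) (iqb tpr1942_c))) (BT.Fa_leaf (P := Itm.ok 206) (iqf tpr591_c))))) (BT.Fa_mk (BT.Fa_mk (BT.Fa_mk (BT.Fa_mk (BT.Fa_leaf (P := Itm.ok 206) (iqf tpr2227_c)) (BT.Fa_leaf (P := Itm.ok 206) (iqf tpr191_c))) (BT.Fa_mk (BT.Fa_leaf (P := Itm.ok 206) (iqf tpr2231_c)) (BT.Fa_leaf (P := Itm.ok 206) (iqf tpr2256_c)))) (BT.Fa_mk (BT.Fa_mk (BT.Fa_leaf (P := Itm.ok 206) (iqb tpr2206_c)) (BT.Fa_leaf (P := Itm.ok 206) (iqb tpr1590_c))) (BT.Fa_leaf (P := Itm.ok 206) (iqb tpr2124_c)))) (BT.Fa_mk (BT.Fa_mk (BT.Fa_mk (BT.Fa_leaf (P := Itm.ok 206) (iqb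 tpr2136_c)) (BT.Fa_leaf (P := Itm.ok 206) (iqb tpr602_c))) (BT.Fa_leaf (P := Itm.ok 206) (iqf tpr2210_c))) (BT.Fa_mk (BT.Fa_mk (BT.Fa_leaf (P := Itm.ok 206) (iqf tpr2257_c)) (BT.Fa_leaf (P := Itm.ok 206) (iqb tpr2005_c))) (BT.Fa_leaf (P := Itm.ok 206) (iqf tpr2150_c)))))) (BT.Fa_mk (BT.Fa_mk (BT.Fa_mk (BT.Fa_mk (BT.Fa_mk (BT.Fa_leaf (P := Itm.ok 206) (iqb tpr1570_c)) (BT.Fa_leaf (P := Itm.ok 206) (iqb tpr2191_c))) (BT.Fa_mk (BT.Fa_leaf (P := Itm.ok 206) (iqf tpr2007_c)) (BT.Fa_leaf (P := Itm.ok 206) (iqf tpr618_c)))) (BT.Fa_mk (BT.Fa_mk (BT.Fa_leaf (P := Itm.ok 206) (iqf tpr657_c)) (BT.Fa_leaf (P := Itm.ok 206) (iqf tpr680_c))) (BT.Fa_leaf (P := Itm.ok 206) (iqf tpr1870_c)))) (BT.Fa_mk (BT.Fa_mk (BT.Fa_mk (BT.Fa_leaf (P := Itm.ok 206)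 (iqf tpr2122_c)) (BT.Fa_leaf (P := Itm.ok 206) (iqf tpr744_c))) (BT.Fa_leaf (P := Itm.ok 206) (iqf tpr608_c))) (BT.Fa_mk (BT.Fa_mk (BT.Fa_leaf (P := Itm.ok 206) (iqb tpr588_c)) (BT.Fa_leaf (P := Itm.ok 206) (iqb tpr581_c))) (BT.Fa_leaf (P := Itm.ok 206) (iqb tpr1065_c))))) (BT.Fa_mk (BT.Fa_mk (BT.Fa_mk (BT.Fa_mk (BT.Fa_leaf (P := Itm.ok 206) (iqf tpr2171_c)) (BT.Fa_leaf (P := Itm.ok 206) (iqf tpr1762_c))) (BT.Fa_leaf (P := Itm.ok 206) (iqf tpr2172_c))) (BT.Fa_mk (BT.Fa_mk (BT.Fa_leaf (P := Itm.ok 206) (iqf tpr2176_c)) (BT.Fa_leaf (P := Itm.ok 206) (iqb tpr2151_c))) (BT.Fa_leaf (P := Itm.ok 206) (iqf tpr518_c)))) (BT.Fa_mk (BT.Fa_mk (BT.Fa_mk (BT.Fa_leaf (P := Itm.ok 206) (iqf tpr2119_c)) (BT.Fa_leaf (P := Itm.ok 206) (iqf tpr2212_c)))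 (BT.Fa_leaf (P := Itm.ok 206) (iqf tpr1664_c))) (BT.Fa_mk (BT.Fa_mk (BT.Fa_leaf (P := Itm.ok 206) (iqf tpr2232_c)) (BT.Fa_leaf (P := Itm.ok 206) (iqf tpr2179_c))) (BT.Fa_leaf (P := Itm.ok 206) (iqf tpr522_c))))))) (BT.Fa_mk (BT.Fa_mk (BT.Fa_mk (BT.Fa_mk (BT.Fa_mk (BT.Fa_mk (BT.Fa_leaf (P := Itm.ok 206) (iqb tpr575_c)) (BT.Fa_leaf (P := Itm.ok 206) (iqf tpr1255_c))) (BT.Fa_mk (BT.Fa_leaf (P := Itm.ok 206) (iqb tpr2157_c)) (BT.Fa_leaf (P := Itm.ok 206) (iqb tpr2190_c)))) (BT.Fa_mk (BT.Fa_mk (BT.Fa_leaf (P := Itm.ok 206) (iqf tpr2253_c)) (BT.Fa_leaf (P := Itm.ok 206) (iqb tpr2079_c))) (BT.Fa_leaf (P := Itm.ok 206) (iqb tpr106_c)))) (BT.Fa_mk (BT.Fa_mk (BT.Fa_mk (BT.Fa_leaf (P := Itm.ok 206) (iqb tpr2224_c)) (BT.Fa_leaf (P := Itm.ok 206) (iqf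 tpr2282_c))) (BT.Fa_leaf (P := Itm.ok 206) (iqf tpr17_c))) (BT.Fa_mk (BT.Fa_mk (BT.Fa_leaf (P := Itm.ok 206) (iqf tpr2173_c)) (BT.Fa_leaf (P := Itm.ok 206) (iqf tpr2115_c))) (BT.Fa_leaf (P := Itm.ok 206) (iqb tpr684_c))))) (BT.Fa_mk (BT.Fa_mk (BT.Fa_mk (BT.Fa_mk (BT.Fa_leaf (P := Itm.ok 206) (iqf tpr962_c)) (BT.Fa_leaf (P := Itm.ok 206) (iqf tpr456_c))) (BT.Fa_leaf (P := Itm.ok 206) (iqf tpr479_c))) (BT.Fa_mk (BT.Fa_mk (BT.Fa_leaf (P := Itm.ok 206) (iqf tpr485_c)) (BT.Fa_leaf (P := Itm.ok 206) (iqf tpr454_c))) (BT.Fa_leaf (P := Itm.ok 206) (iqb tpr90_c)))) (BT.Fa_mk (BT.Fa_mk (BT.Fa_mk (BT.Fa_leaf (P := Itm.ok 206) (iqb tpr2240_c)) (BT.Fa_leaf (P := Itm.ok 206) (iqb tpr2242_c))) (BT.Fa_leaf (P := Itm.ok 206) (iqf tpr1313_c))) (BT.Fa_mk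 (BT.Fa_mk (BT.Fa_leaf (P := Itm.ok 206) (iqb tpr477_c)) (BT.Fa_leaf (P := Itm.ok 206) (iqf tpr1311_c))) (BT.Fa_leaf (P := Itm.ok 206) (iqf tpr2246_c)))))) (BT.Fa_mk (BT.Fa_mk (BT.Fa_mk (BT.Fa_mk (BT.Fa_mk (BT.Fa_leaf (P := Itm.ok 206) (iqf tpr2117_c)) (BT.Fa_leaf (P := Itm.ok 206) (iqf tpr2241_c))) (BT.Fa_mk (BT.Fa_leaf (P := Itm.ok 206) (iqf tpr2107_c)) (BT.Fa_leaf (P := Itm.ok 206) (iqf tpr2132_c)))) (BT.Fa_mk (BT.Fa_mk (BT.Fa_leaf (P := Itm.ok 206) (iqf tpr972_c)) (BT.Fa_leaf (P := Itm.ok 206) (iqf tpr2213_c))) (BT.Fa_leaf (P := Itm.ok 206) (iqf tpr2290_c)))) (BT.Fa_mk (BT.Fa_mk (BT.Fa_mk (BT.Fa_leaf (P := Itm.ok 206) (iqb tpr2127_c)) (BT.Fa_leaf (P := Itm.ok 206) (iqb tpr1247_c))) (BT.Fa_leaf (P := Itm.ok 206) (iqf tpr2178_c))) (BT.Fa_mk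 (BT.Fa_mk (BT.Fa_leaf (P := Itm.ok 206) (iqb tpr1204_c)) (BT.Fa_leaf (P := Itm.ok 206) (iqf tpr2195_c))) (BT.Fa_leaf (P := Itm.ok 206) (iqb tpr2261_c))))) (BT.Fa_mk (BT.Fa_mk (BT.Fa_mk (BT.Fa_mk (BT.Fa_leaf (P := Itm.ok 206) (iqb tpr2228_c)) (BT.Fa_leaf (P := Itm.ok 206) (iqf tpr2263_c))) (BT.Fa_leaf (P := Itm.ok 206) (iqb tpr2248_c))) (BT.Fa_mk (BT.Fa_mk (BT.Fa_leaf (P := Itm.ok 206) (iqb tpr2266_c)) (BT.Fa_leaf (P := Itm.ok 206) (iqb tpr2283_c))) (BT.Fa_leaf (P := Itm.ok 206) (iqf tpr1764_c)))) (BT.Fa_mk (BT.Fa_mk (BT.Fa_mk (BT.Fa_leaf (P := Itm.ok 206) (iqb tpr1194_c)) (BT.Fa_leaf (P := Itm.ok 206) (iqb tpr815_c))) (BT.Fa_leaf (P := Itm.ok 206) (iqf tpr502_c))) (BT.Fa_mk (BT.Fa_mk (BT.Fa_leaf (P := Itm.ok 206) (iqf tpr2310_c)) (BT.Fa_leaf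 (P := Itm.ok 206) (iqb tpr1943_c))) (BT.Fa_leaf (P := Itm.ok 206) (iqb tpr1747_c)))))))))

/-- all words of the class have labels -/
theorem pokNFzAyE2ByA3H3A2E2A2AzAyBzF : POK 206 xNFzAyE2ByA3H3A2E2A2AzAyBzF :=
  y_pok (C0 := ceNFzAyE2ByA3H3A2E2A2AzAyBzF) (C1 := coNFzAyE2ByA3H3A2E2A2AzAyBzF) topNFzAyE2ByA3H3A2E2A2AzAyBzF nbNFzAyE2ByA3H3A2E2A2AzAyBzF (BT.Fa_of_all iiNFzAyE2ByA3H3A2E2A2AzAyBzF_c)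
    (BT.Fa_mk (cyE_spec zeNFzAyE2ByA3H3A2E2A2AzAyBzF_0) (BT.Fa_mk (cyE_spec zeNFzAyE2ByA3H3A2E2A2AzAyBzF_1) (cyE_spec zeNFzAyE2ByA3H3A2E2A2AzAyBzF_2)))
    (BT.Fa_mk (cyO_spec zoNFzAyE2ByA3H3A2E2A2AzAyBzF_0) (BT.Fa_mk (cyO_spec zoNFzAyE2ByA3H3A2E2A2AzAyBzF_1) (cyO_spec zoNFzAyE2ByA3H3A2E2A2AzAyBzF_2)))
    iiNFzAyE2ByA3H3A2E2A2AzAyBzF_k

theorem iiNFzAzE2A3H2AzIzA2H3AyB2EzF_k : iiNFzAzE2A3H2AzIzA2H3AyB2EzF.Fa (Itm.ok 206) := (BT.Fa_mk (BT.Fa_mk (BT.Fa_mk (BT.Fa_mk (BT.Fa_mk (BT.Fa_mk (BT.Fa_mk (BT.Fa_mk (BT.Fa_leaf (P := Itm.ok 206) (iqb tpr8_c)) (BT.Fa_leaf (P := Itm.ok 206) (iqb tpr22_c))) (BT.Fa_mk (BT.Fa_leaf (P := Itm.ok 206) (iqb tpr500_c)) (BT.Fa_leaf (P := Itm.ok 206) (iqb tpr505_c)))) (BT.Fa_mk (BT.Fa_mk (BT.Fa_leaf (P := Itm.ok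 206) (iqf tpr507_c)) (BT.Fa_leaf (P := Itm.ok 206) (iqf tpr519_c))) (BT.Fa_mk (BT.Fa_leaf (P := Itm.ok 206) (iqb tpr5_c)) (BT.Fa_leaf (P := Itm.ok 206) (iqf tpr509_c))))) (BT.Fa_mk (BT.Fa_mk (BT.Fa_mk (BT.Fa_leaf (P := Itm.ok 206) (iqf tpr1829_c)) (BT.Fa_leaf (P := Itm.ok 206) (iqb tpr616_c))) (BT.Fa_mk (BT.Fa_leaf (P := Itm.ok 206) (iqf tpr545_c)) (BT.Fa_leaf (P := Itm.ok 206) (iqf tpr629_c)))) (BT.Fa_mk (BT.Fa_mk (BT.Fa_leaf (P := Itm.ok 206) (iqf tpr511_c)) (BT.Fa_leaf (P := Itm.ok 206) (iqf tpr508_c))) (BT.Fa_leaf (P := Itm.ok 206) (iqf tpr607_c))))) (BT.Fa_mk (BT.Fa_mk (BT.Fa_mk (BT.Fa_mk (BT.Fa_leaf (P := Itm.ok 206) (iqf tpr82_c)) (BT.Fa_leaf (P := Itm.ok 206) (iqf tpr606_c))) (BT.Fa_mk (BT.Fa_leaf (P := Itm.ok 206) (iqf tpr500_c))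 (BT.Fa_leaf (P := Itm.ok 206) (iqf tpr518_c)))) (BT.Fa_mk (BT.Fa_mk (BT.Fa_leaf (P := Itm.ok 206) (iqb tpr609_c)) (BT.Fa_leaf (P := Itm.ok 206) (iqb tpr51_c))) (BT.Fa_mk (BT.Fa_leaf (P := Itm.ok 206) (iqf tpr547_c)) (BT.Fa_leaf (P := Itm.ok 206) (iqb tpr191_c))))) (BT.Fa_mk (BT.Fa_mk (BT.Fa_mk (BT.Fa_leaf (P := Itm.ok 206) (iqf tpr320_c)) (BT.Fa_leaf (P := Itm.ok 206) (iqf tpr534_c))) (BT.Fa_mk (BT.Fa_leaf (P := Itm.ok 206) (iqf tpr29_c)) (BT.Fa_leaf (P := Itm.ok 206) (iqb tpr168_c)))) (BT.Fa_mk (BT.Fa_mk (BT.Fa_leaf (P := Itm.ok 206) (iqb tpr259_c)) (BT.Fa_leaf (P := Itm.ok 206) (iqf tpr90_c))) (BT.Fa_leaf (P := Itm.ok 206) (iqf tpr72_c)))))) (BT.Fa_mk (BT.Fa_mk (BT.Fa_mk (BT.Fa_mk (BT.Fa_mk (BT.Fa_leaf (P := Itm.ok 206) (iqf tpr116_c))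 (BT.Fa_leaf (P := Itm.ok 206) (iqb tpr316_c))) (BT.Fa_mk (BT.Fa_leaf (P := Itm.ok 206) (iqb tpr656_c)) (BT.Fa_leaf (P := Itm.ok 206) (iqf tpr314_c)))) (BT.Fa_mk (BT.Fa_mk (BT.Fa_leaf (P := Itm.ok 206) (iqf tpr516_c)) (BT.Fa_leaf (P := Itm.ok 206) (iqb tpr608_c))) (BT.Fa_mk (BT.Fa_leaf (P := Itm.ok 206) (iqf tpr1835_c)) (BT.Fa_leaf (P := Itm.ok 206) (iqf tpr323_c))))) (BT.Fa_mk (BT.Fa_mk (BT.Fa_mk (BT.Fa_leaf (P := Itm.ok 206) (iqf tpr564_c)) (BT.Fa_leaf (P := Itm.ok 206) (iqf tpr2031_c))) (BT.Fa_mk (BT.Fa_leaf (P := Itm.ok 206) (iqf tpr1781_c)) (BT.Fa_leaf (P := Itm.ok 206) (iqf tpr506_c)))) (BT.Fa_mk (BT.Fa_mk (BT.Fa_leaf (P := Itm.ok 206) (iqf tpr198_c)) (BT.Fa_leaf (P := Itm.ok 206) (iqf tpr44_c))) (BT.Fa_leaf (P := Itm.ok 206) (iqf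 tpr583_c))))) (BT.Fa_mk (BT.Fa_mk (BT.Fa_mk (BT.Fa_mk (BT.Fa_leaf (P := Itm.ok 206) (iqf tpr537_c)) (BT.Fa_leaf (P := Itm.ok 206) (iqf tpr675_c))) (BT.Fa_mk (BT.Fa_leaf (P := Itm.ok 206) (iqb tpr605_c)) (BT.Fa_leaf (P := Itm.ok 206) (iqb tpr562_c)))) (BT.Fa_mk (BT.Fa_mk (BT.Fa_leaf (P := Itm.ok 206) (iqb tpr591_c)) (BT.Fa_leaf (P := Itm.ok 206) (iqf tpr559_c))) (BT.Fa_mk (BT.Fa_leaf (P := Itm.ok 206) (iqb tpr622_c)) (BT.Fa_leaf (P := Itm.ok 206) (iqf tpr557_c))))) (BT.Fa_mk (BT.Fa_mk (BT.Fa_mk (BT.Fa_leaf (P := Itm.ok 206) (iqb tpr672_c)) (BT.Fa_leaf (P := Itm.ok 206) (iqf tpr1799_c))) (BT.Fa_mk (BT.Fa_leaf (P := Itm.ok 206) (iqf tpr689_c)) (BT.Fa_leaf (P := Itm.ok 206) (iqf tpr2573_c)))) (BT.Fa_mk (BT.Fa_mk (BT.Fa_leaf (P := Itm.ok 206)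 (iqb tpr665_c)) (BT.Fa_leaf (P := Itm.ok 206) (iqb tpr618_c))) (BT.Fa_leaf (P := Itm.ok 206) (iqf tpr62_c))))))) (BT.Fa_mk (BT.Fa_mk (BT.Fa_mk (BT.Fa_mk (BT.Fa_mk (BT.Fa_mk (BT.Fa_leaf (P := Itm.ok 206) (iqf tpr48_c)) (BT.Fa_leaf (P := Itm.ok 206) (iqf tpr549_c))) (BT.Fa_mk (BT.Fa_leaf (P := Itm.ok 206) (iqb tpr613_c)) (BT.Fa_leaf (P := Itm.ok 206) (iqb tpr548_c)))) (BT.Fa_mk (BT.Fa_mk (BT.Fa_leaf (P := Itm.ok 206) (iqb tpr91_c)) (BT.Fa_leaf (P := Itm.ok 206) (iqb tpr663_c))) (BT.Fa_mk (BT.Fa_leaf (P := Itm.ok 206) (iqb tpr687_c)) (BT.Fa_leaf (P := Itm.ok 206) (iqf tpr1705_c))))) (BT.Fa_mk (BT.Fa_mk (BT.Fa_mk (BT.Fa_leaf (P := Itm.ok 206) (iqf tpr667_c)) (BT.Fa_leaf (P := Itm.ok 206) (iqb tpr553_c))) (BT.Fa_mk (BT.Fa_leaf (P := Itm.ok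 206) (iqb tpr620_c)) (BT.Fa_leaf (P := Itm.ok 206) (iqb tpr664_c)))) (BT.Fa_mk (BT.Fa_mk (BT.Fa_leaf (P := Itm.ok 206) (iqb tpr670_c)) (BT.Fa_leaf (P := Itm.ok 206) (iqb tpr637_c))) (BT.Fa_leaf (P := Itm.ok 206) (iqf tpr602_c))))) (BT.Fa_mk (BT.Fa_mk (BT.Fa_mk (BT.Fa_mk (BT.Fa_leaf (P := Itm.ok 206) (iqf tpr647_c)) (BT.Fa_leaf (P := Itm.ok 206) (iqb tpr989_c))) (BT.Fa_mk (BT.Fa_leaf (P := Itm.ok 206) (iqb tpr988_c)) (BT.Fa_leaf (P := Itm.ok 206) (iqb tpr673_c)))) (BT.Fa_mk (BT.Fa_mk (BT.Fa_leaf (P := Itm.ok 206) (iqf tpr661_c)) (BT.Fa_leaf (P := Itm.ok 206) (iqb tpr666_c))) (BT.Fa_mk (BT.Fa_leaf (P := Itm.ok 206) (iqb tpr643_c)) (BT.Fa_leaf (P := Itm.ok 206) (iqb tpr755_c))))) (BT.Fa_mk (BT.Fa_mk (BT.Fa_mk (BT.Fa_leaf (P := Itm.ok 206)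 (iqb tpr555_c)) (BT.Fa_leaf (P := Itm.ok 206) (iqb tpr568_c))) (BT.Fa_mk (BT.Fa_leaf (P := Itm.ok 206) (iqf tpr106_c)) (BT.Fa_leaf (P := Itm.ok 206) (iqf tpr510_c)))) (BT.Fa_mk (BT.Fa_mk (BT.Fa_leaf (P := Itm.ok 206) (iqf tpr524_c)) (BT.Fa_leaf (P := Itm.ok 206) (iqb tpr210_c))) (BT.Fa_leaf (P := Itm.ok 206) (iqf tpr677_c)))))) (BT.Fa_mk (BT.Fa_mk (BT.Fa_mk (BT.Fa_mk (BT.Fa_mk (BT.Fa_leaf (P := Itm.ok 206) (iqb tpr520_c)) (BT.Fa_leaf (P := Itm.ok 206) (iqb tpr681_c))) (BT.Fa_mk (BT.Fa_leaf (P := Itm.ok 206) (iqb tpr676_c)) (BT.Fa_leaf (P := Itm.ok 206) (iqb tpr593_c)))) (BT.Fa_mk (BT.Fa_mk (BT.Fa_leaf (P := Itm.ok 206) (iqb tpr82_c)) (BT.Fa_leaf (P := Itm.ok 206) (iqf tpr236_c))) (BT.Fa_mk (BT.Fa_leaf (P := Itm.ok 206) (iqb tpr526_c))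 (BT.Fa_leaf (P := Itm.ok 206) (iqf tpr504_c))))) (BT.Fa_mk (BT.Fa_mk (BT.Fa_mk (BT.Fa_leaf (P := Itm.ok 206) (iqb tpr2652_c)) (BT.Fa_leaf (P := Itm.ok 206) (iqf tpr960_c))) (BT.Fa_mk (BT.Fa_leaf (P := Itm.ok 206) (iqf tpr78_c)) (BT.Fa_leaf (P := Itm.ok 206) (iqb tpr293_c)))) (BT.Fa_mk (BT.Fa_mk (BT.Fa_leaf (P := Itm.ok 206) (iqf tpr577_c)) (BT.Fa_leaf (P := Itm.ok 206) (iqf tpr734_c))) (BT.Fa_leaf (P := Itm.ok 206) (iqf tpr1719_c))))) (BT.Fa_mk (BT.Fa_mk (BT.Fa_mk (BT.Fa_mk (BT.Fa_leaf (P := Itm.ok 206) (iqf tpr566_c)) (BT.Fa_leaf (P := Itm.ok 206) (iqb tpr527_c))) (BT.Fa_mk (BT.Fa_leaf (P := Itm.ok 206) (iqb tpr619_c)) (BT.Fa_leaf (P := Itm.ok 206) (iqf tpr585_c)))) (BT.Fa_mk (BT.Fa_mk (BT.Fa_leaf (P := Itm.ok 206) (iqf tpr1247_c)) (BT.Fa_leaf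 (P := Itm.ok 206) (iqf tpr505_c))) (BT.Fa_leaf (P := Itm.ok 206) (iqf tpr54_c)))) (BT.Fa_mk (BT.Fa_mk (BT.Fa_mk (BT.Fa_leaf (P := Itm.ok 206) (iqb tpr103_c)) (BT.Fa_leaf (P := Itm.ok 206) (iqf tpr2653_c))) (BT.Fa_mk (BT.Fa_leaf (P := Itm.ok 206) (iqb tpr642_c)) (BT.Fa_leaf (P := Itm.ok 206) (iqb tpr24_c)))) (BT.Fa_mk (BT.Fa_mk (BT.Fa_leaf (P := Itm.ok 206) (iqb tpr587_c)) (BT.Fa_leaf (P := Itm.ok 206) (iqb tpr625_c))) (BT.Fa_leaf (P := Itm.ok 206) (iqb tpr9_c)))))))) (BT.Fa_mk (BT.Fa_mk (BT.Fa_mk (BT.Fa_mk (BT.Fa_mk (BT.Fa_mk (BT.Fa_mk (BT.Fa_leaf (P := Itm.ok 206) (iqb tpr621_c)) (BT.Fa_leaf (P := Itm.ok 206) (iqf tpr51_c))) (BT.Fa_mk (BT.Fa_leaf (P := Itm.ok 206) (iqb tpr15_c)) (BT.Fa_leaf (P := Itm.ok 206) (iqf tpr978_c)))) (BT.Fa_mk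 (BT.Fa_mk (BT.Fa_leaf (P := Itm.ok 206) (iqf tpr458_c)) (BT.Fa_leaf (P := Itm.ok 206) (iqb tpr1264_c))) (BT.Fa_mk (BT.Fa_leaf (P := Itm.ok 206) (iqb tpr691_c)) (BT.Fa_leaf (P := Itm.ok 206) (iqf tpr188_c))))) (BT.Fa_mk (BT.Fa_mk (BT.Fa_mk (BT.Fa_leaf (P := Itm.ok 206) (iqb tpr1859_c)) (BT.Fa_leaf (P := Itm.ok 206) (iqb tpr515_c))) (BT.Fa_mk (BT.Fa_leaf (P := Itm.ok 206) (iqb tpr2029_c)) (BT.Fa_leaf (P := Itm.ok 206) (iqf tpr1813_c)))) (BT.Fa_mk (BT.Fa_mk (BT.Fa_leaf (P := Itm.ok 206) (iqb tpr1639_c)) (BT.Fa_leaf (P := Itm.ok 206) (iqb tpr1215_c))) (BT.Fa_leaf (P := Itm.ok 206) (iqb tpr2024_c))))) (BT.Fa_mk (BT.Fa_mk (BT.Fa_mk (BT.Fa_mk (BT.Fa_leaf (P := Itm.ok 206) (iqf tpr1005_c)) (BT.Fa_leaf (P := Itm.ok 206) (iqb tpr521_c))) (BT.Fa_mk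 (BT.Fa_leaf (P := Itm.ok 206) (iqf tpr499_c)) (BT.Fa_leaf (P := Itm.ok 206) (iqf tpr513_c)))) (BT.Fa_mk (BT.Fa_mk (BT.Fa_leaf (P := Itm.ok 206) (iqf tpr682_c)) (BT.Fa_leaf (P := Itm.ok 206) (iqf tpr645_c))) (BT.Fa_mk (BT.Fa_leaf (P := Itm.ok 206) (iqf tpr429_c)) (BT.Fa_leaf (P := Itm.ok 206) (iqf tpr17_c))))) (BT.Fa_mk (BT.Fa_mk (BT.Fa_mk (BT.Fa_leaf (P := Itm.ok 206) (iqb tpr1764_c)) (BT.Fa_leaf (P := Itm.ok 206) (iqf tpr2654_c))) (BT.Fa_mk (BT.Fa_leaf (P := Itm.ok 206) (iqf tpr203_c)) (BT.Fa_leaf (P := Itm.ok 206) (iqb tpr203_c)))) (BT.Fa_mk (BT.Fa_mk (BT.Fa_leaf (P := Itm.ok 206) (iqf tpr247_c)) (BT.Fa_leaf (P := Itm.ok 206) (iqf tpr730_c))) (BT.Fa_leaf (P := Itm.ok 206) (iqf tpr615_c)))))) (BT.Fa_mk (BT.Fa_mk (BT.Fa_mk (BT.Fa_mk (BT.Fa_mk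 (BT.Fa_leaf (P := Itm.ok 206) (iqb tpr1180_c)) (BT.Fa_leaf (P := Itm.ok 206) (iqf tpr592_c))) (BT.Fa_mk (BT.Fa_leaf (P := Itm.ok 206) (iqf tpr2052_c)) (BT.Fa_leaf (P := Itm.ok 206) (iqb tpr503_c)))) (BT.Fa_mk (BT.Fa_mk (BT.Fa_leaf (P := Itm.ok 206) (iqb tpr633_c)) (BT.Fa_leaf (P := Itm.ok 206) (iqb tpr679_c))) (BT.Fa_mk (BT.Fa_leaf (P := Itm.ok 206) (iqf tpr1789_c)) (BT.Fa_leaf (P := Itm.ok 206) (iqb tpr501_c))))) (BT.Fa_mk (BT.Fa_mk (BT.Fa_mk (BT.Fa_leaf (P := Itm.ok 206) (iqb tpr2027_c)) (BT.Fa_leaf (P := Itm.ok 206) (iqf tpr2055_c))) (BT.Fa_mk (BT.Fa_leaf (P := Itm.ok 206) (iqb tpr606_c)) (BT.Fa_leaf (P := Itm.ok 206) (iqf tpr517_c)))) (BT.Fa_mk (BT.Fa_mk (BT.Fa_leaf (P := Itm.ok 206) (iqb tpr236_c)) (BT.Fa_leaf (P := Itm.ok 206) (iqb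 tpr517_c))) (BT.Fa_leaf (P := Itm.ok 206) (iqf tpr259_c))))) (BT.Fa_mk (BT.Fa_mk (BT.Fa_mk (BT.Fa_mk (BT.Fa_leaf (P := Itm.ok 206) (iqf tpr609_c)) (BT.Fa_leaf (P := Itm.ok 206) (iqf tpr46_c))) (BT.Fa_mk (BT.Fa_leaf (P := Itm.ok 206) (iqb tpr543_c)) (BT.Fa_leaf (P := Itm.ok 206) (iqb tpr584_c)))) (BT.Fa_mk (BT.Fa_mk (BT.Fa_leaf (P := Itm.ok 206) (iqb tpr151_c)) (BT.Fa_leaf (P := Itm.ok 206) (iqf tpr612_c))) (BT.Fa_mk (BT.Fa_leaf (P := Itm.ok 206) (iqb tpr698_c)) (BT.Fa_leaf (P := Itm.ok 206) (iqf tpr589_c))))) (BT.Fa_mk (BT.Fa_mk (BT.Fa_mk (BT.Fa_leaf (P := Itm.ok 206) (iqf tpr238_c)) (BT.Fa_leaf (P := Itm.ok 206) (iqb tpr294_c))) (BT.Fa_mk (BT.Fa_leaf (P := Itm.ok 206) (iqb tpr576_c)) (BT.Fa_leaf (P := Itm.ok 206) (iqb tpr702_c)))) (BT.Fa_mk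 (BT.Fa_mk (BT.Fa_leaf (P := Itm.ok 206) (iqb tpr523_c)) (BT.Fa_leaf (P := Itm.ok 206) (iqb tpr514_c))) (BT.Fa_leaf (P := Itm.ok 206) (iqb tpr573_c))))))) (BT.Fa_mk (BT.Fa_mk (BT.Fa_mk (BT.Fa_mk (BT.Fa_mk (BT.Fa_mk (BT.Fa_leaf (P := Itm.ok 206) (iqf tpr556_c)) (BT.Fa_leaf (P := Itm.ok 206) (iqf tpr582_c))) (BT.Fa_mk (BT.Fa_leaf (P := Itm.ok 206) (iqf tpr1204_c)) (BT.Fa_leaf (P := Itm.ok 206) (iqf tpr644_c)))) (BT.Fa_mk (BT.Fa_mk (BT.Fa_leaf (P := Itm.ok 206) (iqb tpr516_c)) (BT.Fa_leaf (P := Itm.ok 206) (iqb tpr537_c))) (BT.Fa_mk (BT.Fa_leaf (P := Itm.ok 206) (iqb tpr549_c)) (BT.Fa_leaf (P := Itm.ok 206) (iqf tpr627_c))))) (BT.Fa_mk (BT.Fa_mk (BT.Fa_mk (BT.Fa_leaf (P := Itm.ok 206) (iqb tpr544_c)) (BT.Fa_leaf (P := Itm.ok 206) (iqb tpr559_c)))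 (BT.Fa_mk (BT.Fa_leaf (P := Itm.ok 206) (iqf tpr588_c)) (BT.Fa_leaf (P := Itm.ok 206) (iqf tpr544_c)))) (BT.Fa_mk (BT.Fa_mk (BT.Fa_leaf (P := Itm.ok 206) (iqf tpr571_c)) (BT.Fa_leaf (P := Itm.ok 206) (iqf tpr1017_c))) (BT.Fa_leaf (P := Itm.ok 206) (iqf tpr239_c))))) (BT.Fa_mk (BT.Fa_mk (BT.Fa_mk (BT.Fa_mk (BT.Fa_leaf (P := Itm.ok 206) (iqf tpr167_c)) (BT.Fa_leaf (P := Itm.ok 206) (iqf tpr2612_c))) (BT.Fa_mk (BT.Fa_leaf (P := Itm.ok 206) (iqb tpr658_c)) (BT.Fa_leaf (P := Itm.ok 206) (iqf tpr222_c)))) (BT.Fa_mk (BT.Fa_mk (BT.Fa_leaf (P := Itm.ok 206) (iqb tpr2026_c)) (BT.Fa_leaf (P := Itm.ok 206) (iqb tpr2571_c))) (BT.Fa_mk (BT.Fa_leaf (P := Itm.ok 206) (iqb tpr46_c)) (BT.Fa_leaf (P := Itm.ok 206) (iqb tpr507_c))))) (BT.Fa_mk (BT.Fa_mk (BT.Fa_mk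 (BT.Fa_leaf (P := Itm.ok 206) (iqf tpr543_c)) (BT.Fa_leaf (P := Itm.ok 206) (iqf tpr659_c))) (BT.Fa_mk (BT.Fa_leaf (P := Itm.ok 206) (iqb tpr2023_c)) (BT.Fa_leaf (P := Itm.ok 206) (iqf tpr748_c)))) (BT.Fa_mk (BT.Fa_mk (BT.Fa_leaf (P := Itm.ok 206) (iqb tpr627_c)) (BT.Fa_leaf (P := Itm.ok 206) (iqf tpr546_c))) (BT.Fa_leaf (P := Itm.ok 206) (iqf tpr2276_c)))))) (BT.Fa_mk (BT.Fa_mk (BT.Fa_mk (BT.Fa_mk (BT.Fa_mk (BT.Fa_leaf (P := Itm.ok 206) (iqb tpr499_c)) (BT.Fa_leaf (P := Itm.ok 206) (iqb tpr10_c))) (BT.Fa_mk (BT.Fa_leaf (P := Itm.ok 206) (iqb tpr632_c)) (BT.Fa_leaf (P := Itm.ok 206) (iqf tpr1811_c)))) (BT.Fa_mk (BT.Fa_mk (BT.Fa_leaf (P := Itm.ok 206) (iqf tpr599_c)) (BT.Fa_leaf (P := Itm.ok 206) (iqb tpr198_c))) (BT.Fa_mk (BT.Fa_leaf (P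 := Itm.ok 206) (iqf tpr13_c)) (BT.Fa_leaf (P := Itm.ok 206) (iqf tpr10_c))))) (BT.Fa_mk (BT.Fa_mk (BT.Fa_mk (BT.Fa_leaf (P := Itm.ok 206) (iqb tpr17_c)) (BT.Fa_leaf (P := Itm.ok 206) (iqf tpr22_c))) (BT.Fa_mk (BT.Fa_leaf (P := Itm.ok 206) (iqf tpr502_c)) (BT.Fa_leaf (P := Itm.ok 206) (iqb tpr167_c)))) (BT.Fa_mk (BT.Fa_mk (BT.Fa_leaf (P := Itm.ok 206) (iqb tpr598_c)) (BT.Fa_leaf (P := Itm.ok 206) (iqb tpr662_c))) (BT.Fa_leaf (P := Itm.ok 206) (iqb tpr1171_c))))) (BT.Fa_mk (BT.Fa_mk (BT.Fa_mk (BT.Fa_mk (BT.Fa_leaf (P := Itm.ok 206) (iqf tpr295_c)) (BT.Fa_leaf (P := Itm.ok 206) (iqb tpr726_c))) (BT.Fa_mk (BT.Fa_leaf (P := Itm.ok 206) (iqf tpr294_c)) (BT.Fa_leaf (P := Itm.ok 206) (iqf tpr251_c)))) (BT.Fa_mk (BT.Fa_mk (BT.Fa_leaf (P := Itm.ok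 206) (iqb tpr557_c)) (BT.Fa_leaf (P := Itm.ok 206) (iqb tpr640_c))) (BT.Fa_leaf (P := Itm.ok 206) (iqb tpr245_c)))) (BT.Fa_mk (BT.Fa_mk (BT.Fa_mk (BT.Fa_leaf (P := Itm.ok 206) (iqf tpr526_c)) (BT.Fa_leaf (P := Itm.ok 206) (iqf tpr2053_c))) (BT.Fa_mk (BT.Fa_leaf (P := Itm.ok 206) (iqf tpr2656_c)) (BT.Fa_leaf (P := Itm.ok 206) (iqf tpr634_c)))) (BT.Fa_mk (BT.Fa_mk (BT.Fa_leaf (P := Itm.ok 206) (iqf tpr703_c)) (BT.Fa_leaf (P := Itm.ok 206) (iqb tpr2657_c))) (BT.Fa_leaf (P := Itm.ok 206) (iqf tpr986_c)))))))))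

/-- all words of the class have labels -/
theorem pokNFzAzE2A3H2AzIzA2H3AyB2EzF : POK 206 xNFzAzE2A3H2AzIzA2H3AyB2EzF :=
  y_pok (C0 := ceNFzAzE2A3H2AzIzA2H3AyB2EzF) (C1 := coNFzAzE2A3H2AzIzA2H3AyB2EzF) topNFzAzE2A3H2AzIzA2H3AyB2EzF nbNFzAzE2A3H2AzIzA2H3AyB2EzF (BT.Fa_of_all iiNFzAzE2A3H2AzIzA2H3AyB2EzF_c)
    (BT.Fa_mk (cyE_spec zeNFzAzE2A3H2AzIzA2H3AyB2EzF_0) (BT.Fa_mk (cyE_spec zeNFzAzE2A3H2AzIzA2H3AyB2EzF_1) (BT.Fa_mk (cyE_spec zeNFzAzE2A3H2AzIzA2H3AyB2EzF_2) (cyE_spec zeNFzAzE2A3H2AzIzA2H3AyB2EzF_3))))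
    (BT.Fa_mk (BT.Fa_mk (cyO_spec zoNFzAzE2A3H2AzIzA2H3AyB2EzF_0) (cyO_spec zoNFzAzE2A3H2AzIzA2H3AyB2EzF_1)) (BT.Fa_mk (cyO_spec zoNFzAzE2A3H2AzIzA2H3AyB2EzF_2) (BT.Fa_mk (cyO_spec zoNFzAzE2A3H2AzIzA2H3AyB2EzF_3) (cyO_spec zoNFzAzE2A3H2AzIzA2H3AyB2EzF_4))))
    iiNFzAzE2A3H2AzIzA2H3AyB2EzF_k

theorem iiNFzAzE2A3H2ByAzIzAyB2H3A2EzF_k : iiNFzAzE2A3H2ByAzIzAyB2H3A2EzF.Fa (Itm.ok 206) := (BT.Fa_mk (BT.Fa_mk (BT.Fa_mk (BT.Fa_mk (BT.Fa_mk (BT.Fa_mk (BT.Fa_mk (BT.Fa_mk (BT.Fa_leaf (P := Itm.ok 206) (iqf tpr5_c)) (BT.Fa_leaf (P := Itm.ok 206) (iqf tpr500_c))) (BT.Fa_mk (BT.Fa_leaf (P := Itm.ok 206) (iqb tpr500_c)) (BT.Fa_leaf (P := Itm.ok 206) (iqf tpr499_c)))) (BT.Fa_mk (BT.Fa_mk (BT.Fa_leaf (P := Itm.ok 206) (iqb tpr508_c)) (BT.Fa_leaf (P :=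 Itm.ok 206) (iqf tpr8_c))) (BT.Fa_leaf (P := Itm.ok 206) (iqb tpr499_c)))) (BT.Fa_mk (BT.Fa_mk (BT.Fa_mk (BT.Fa_leaf (P := Itm.ok 206) (iqb tpr504_c)) (BT.Fa_leaf (P := Itm.ok 206) (iqf tpr504_c))) (BT.Fa_leaf (P := Itm.ok 206) (iqb tpr555_c))) (BT.Fa_mk (BT.Fa_mk (BT.Fa_leaf (P := Itm.ok 206) (iqf tpr198_c)) (BT.Fa_leaf (P := Itm.ok 206) (iqb tpr545_c))) (BT.Fa_leaf (P := Itm.ok 206) (iqf tpr516_c))))) (BT.Fa_mk (BT.Fa_mk (BT.Fa_mk (BT.Fa_mk (BT.Fa_leaf (P := Itm.ok 206) (iqf tpr555_c)) (BT.Fa_leaf (P := Itm.ok 206) (iqf tpr514_c))) (BT.Fa_mk (BT.Fa_leaf (P := Itm.ok 206) (iqb tpr510_c)) (BT.Fa_leaf (P := Itm.ok 206) (iqf tpr632_c)))) (BT.Fa_mk (BT.Fa_mk (BT.Fa_leaf (P := Itm.ok 206) (iqb tpr559_c)) (BT.Fa_leaf (P := Itm.ok 206) (iqf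 tpr545_c))) (BT.Fa_leaf (P := Itm.ok 206) (iqb tpr151_c)))) (BT.Fa_mk (BT.Fa_mk (BT.Fa_mk (BT.Fa_leaf (P := Itm.ok 206) (iqf tpr74_c)) (BT.Fa_leaf (P := Itm.ok 206) (iqf tpr569_c))) (BT.Fa_leaf (P := Itm.ok 206) (iqb tpr630_c))) (BT.Fa_mk (BT.Fa_mk (BT.Fa_leaf (P := Itm.ok 206) (iqf tpr585_c)) (BT.Fa_leaf (P := Itm.ok 206) (iqb tpr621_c))) (BT.Fa_leaf (P := Itm.ok 206) (iqf tpr315_c)))))) (BT.Fa_mk (BT.Fa_mk (BT.Fa_mk (BT.Fa_mk (BT.Fa_mk (BT.Fa_leaf (P := Itm.ok 206) (iqb tpr521_c)) (BT.Fa_leaf (P := Itm.ok 206) (iqf tpr695_c))) (BT.Fa_mk (BT.Fa_leaf (P := Itm.ok 206) (iqf tpr9_c)) (BT.Fa_leaf (P := Itm.ok 206) (iqb tpr566_c)))) (BT.Fa_mk (BT.Fa_mk (BT.Fa_leaf (P := Itm.ok 206) (iqf tpr968_c)) (BT.Fa_leaf (P := Itm.ok 206) (iqf tpr602_c)))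 (BT.Fa_leaf (P := Itm.ok 206) (iqb tpr565_c)))) (BT.Fa_mk (BT.Fa_mk (BT.Fa_mk (BT.Fa_leaf (P := Itm.ok 206) (iqb tpr1199_c)) (BT.Fa_leaf (P := Itm.ok 206) (iqf tpr466_c))) (BT.Fa_leaf (P := Itm.ok 206) (iqf tpr734_c))) (BT.Fa_mk (BT.Fa_mk (BT.Fa_leaf (P := Itm.ok 206) (iqf tpr982_c)) (BT.Fa_leaf (P := Itm.ok 206) (iqf tpr549_c))) (BT.Fa_leaf (P := Itm.ok 206) (iqb tpr1646_c))))) (BT.Fa_mk (BT.Fa_mk (BT.Fa_mk (BT.Fa_mk (BT.Fa_leaf (P := Itm.ok 206) (iqf tpr1933_c)) (BT.Fa_leaf (P := Itm.ok 206) (iqb tpr767_c))) (BT.Fa_leaf (P := Itm.ok 206) (iqf tpr1929_c))) (BT.Fa_mk (BT.Fa_mk (BT.Fa_leaf (P := Itm.ok 206) (iqf tpr1646_c)) (BT.Fa_leaf (P := Itm.ok 206) (iqf tpr349_c))) (BT.Fa_leaf (P := Itm.ok 206) (iqb tpr1193_c)))) (BT.Fa_mk (BT.Fa_mk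 (BT.Fa_mk (BT.Fa_leaf (P := Itm.ok 206) (iqb tpr587_c)) (BT.Fa_leaf (P := Itm.ok 206) (iqf tpr1926_c))) (BT.Fa_leaf (P := Itm.ok 206) (iqf tpr26_c))) (BT.Fa_mk (BT.Fa_mk (BT.Fa_leaf (P := Itm.ok 206) (iqf tpr2369_c)) (BT.Fa_leaf (P := Itm.ok 206) (iqf tpr1899_c))) (BT.Fa_leaf (P := Itm.ok 206) (iqf tpr2368_c))))))) (BT.Fa_mk (BT.Fa_mk (BT.Fa_mk (BT.Fa_mk (BT.Fa_mk (BT.Fa_mk (BT.Fa_leaf (P := Itm.ok 206) (iqb tpr2070_c)) (BT.Fa_leaf (P := Itm.ok 206) (iqb tpr87_c))) (BT.Fa_mk (BT.Fa_leaf (P := Itm.ok 206) (iqf tpr327_c)) (BT.Fa_leaf (P := Itm.ok 206) (iqf tpr1903_c)))) (BT.Fa_mk (BT.Fa_mk (BT.Fa_leaf (P := Itm.ok 206) (iqf tpr652_c)) (BT.Fa_leaf (P := Itm.ok 206) (iqb tpr2372_c))) (BT.Fa_leaf (P := Itm.ok 206) (iqf tpr1932_c)))) (BT.Fa_mk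 (BT.Fa_mk (BT.Fa_mk (BT.Fa_leaf (P := Itm.ok 206) (iqf tpr1927_c)) (BT.Fa_leaf (P := Itm.ok 206) (iqf tpr2015_c))) (BT.Fa_leaf (P := Itm.ok 206) (iqb tpr2373_c))) (BT.Fa_mk (BT.Fa_mk (BT.Fa_leaf (P := Itm.ok 206) (iqb tpr1684_c)) (BT.Fa_leaf (P := Itm.ok 206) (iqf tpr2375_c))) (BT.Fa_leaf (P := Itm.ok 206) (iqb tpr2376_c))))) (BT.Fa_mk (BT.Fa_mk (BT.Fa_mk (BT.Fa_mk (BT.Fa_leaf (P := Itm.ok 206) (iqf tpr78_c)) (BT.Fa_leaf (P := Itm.ok 206) (iqb tpr103_c))) (BT.Fa_mk (BT.Fa_leaf (P := Itm.ok 206) (iqb tpr24_c)) (BT.Fa_leaf (P := Itm.ok 206) (iqf tpr103_c)))) (BT.Fa_mk (BT.Fa_mk (BT.Fa_leaf (P := Itm.ok 206) (iqf tpr508_c)) (BT.Fa_leaf (P := Itm.ok 206) (iqb tpr8_c))) (BT.Fa_leaf (P := Itm.ok 206) (iqf tpr511_c)))) (BT.Fa_mk (BT.Fa_mk (BT.Fa_mk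 (BT.Fa_leaf (P := Itm.ok 206) (iqb tpr22_c)) (BT.Fa_leaf (P := Itm.ok 206) (iqb tpr511_c))) (BT.Fa_leaf (P := Itm.ok 206) (iqb tpr507_c))) (BT.Fa_mk (BT.Fa_mk (BT.Fa_leaf (P := Itm.ok 206) (iqf tpr82_c)) (BT.Fa_leaf (P := Itm.ok 206) (iqf tpr509_c))) (BT.Fa_leaf (P := Itm.ok 206) (iqb tpr203_c)))))) (BT.Fa_mk (BT.Fa_mk (BT.Fa_mk (BT.Fa_mk (BT.Fa_mk (BT.Fa_leaf (P := Itm.ok 206) (iqb tpr607_c)) (BT.Fa_leaf (P := Itm.ok 206) (iqb tpr568_c))) (BT.Fa_mk (BT.Fa_leaf (P := Itm.ok 206) (iqf tpr530_c)) (BT.Fa_leaf (P := Itm.ok 206) (iqb tpr519_c)))) (BT.Fa_mk (BT.Fa_mk (BT.Fa_leaf (P := Itm.ok 206) (iqf tpr518_c)) (BT.Fa_leaf (P := Itm.ok 206) (iqf tpr519_c))) (BT.Fa_leaf (P := Itm.ok 206) (iqb tpr294_c)))) (BT.Fa_mk (BT.Fa_mk (BT.Fa_mk (BT.Fa_leaf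 (P := Itm.ok 206) (iqb tpr503_c)) (BT.Fa_leaf (P := Itm.ok 206) (iqf tpr566_c))) (BT.Fa_leaf (P := Itm.ok 206) (iqb tpr632_c))) (BT.Fa_mk (BT.Fa_mk (BT.Fa_leaf (P := Itm.ok 206) (iqb tpr106_c)) (BT.Fa_leaf (P := Itm.ok 206) (iqf tpr22_c))) (BT.Fa_leaf (P := Itm.ok 206) (iqb tpr17_c))))) (BT.Fa_mk (BT.Fa_mk (BT.Fa_mk (BT.Fa_mk (BT.Fa_leaf (P := Itm.ok 206) (iqf tpr510_c)) (BT.Fa_leaf (P := Itm.ok 206) (iqf tpr502_c))) (BT.Fa_leaf (P := Itm.ok 206) (iqf tpr544_c))) (BT.Fa_mk (BT.Fa_mk (BT.Fa_leaf (P := Itm.ok 206) (iqb tpr514_c)) (BT.Fa_leaf (P := Itm.ok 206) (iqf tpr599_c))) (BT.Fa_leaf (P := Itm.ok 206) (iqf tpr527_c)))) (BT.Fa_mk (BT.Fa_mk (BT.Fa_mk (BT.Fa_leaf (P := Itm.ok 206) (iqf tpr619_c)) (BT.Fa_leaf (P := Itm.ok 206) (iqb tpr167_c)))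 (BT.Fa_leaf (P := Itm.ok 206) (iqb tpr585_c))) (BT.Fa_mk (BT.Fa_mk (BT.Fa_leaf (P := Itm.ok 206) (iqf tpr577_c)) (BT.Fa_leaf (P := Itm.ok 206) (iqb tpr82_c))) (BT.Fa_leaf (P := Itm.ok 206) (iqf tpr1719_c)))))))) (BT.Fa_mk (BT.Fa_mk (BT.Fa_mk (BT.Fa_mk (BT.Fa_mk (BT.Fa_mk (BT.Fa_mk (BT.Fa_leaf (P := Itm.ok 206) (iqf tpr683_c)) (BT.Fa_leaf (P := Itm.ok 206) (iqb tpr293_c))) (BT.Fa_mk (BT.Fa_leaf (P := Itm.ok 206) (iqb tpr509_c)) (BT.Fa_leaf (P := Itm.ok 206) (iqb tpr588_c)))) (BT.Fa_mk (BT.Fa_mk (BT.Fa_leaf (P := Itm.ok 206) (iqf tpr588_c)) (BT.Fa_leaf (P := Itm.ok 206) (iqf tpr559_c))) (BT.Fa_leaf (P := Itm.ok 206) (iqf tpr294_c)))) (BT.Fa_mk (BT.Fa_mk (BT.Fa_mk (BT.Fa_leaf (P := Itm.ok 206) (iqb tpr683_c)) (BT.Fa_leaf (P := Itm.ok 206)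 (iqb tpr502_c))) (BT.Fa_leaf (P := Itm.ok 206) (iqf tpr515_c))) (BT.Fa_mk (BT.Fa_mk (BT.Fa_leaf (P := Itm.ok 206) (iqf tpr960_c)) (BT.Fa_leaf (P := Itm.ok 206) (iqf tpr626_c))) (BT.Fa_leaf (P := Itm.ok 206) (iqb tpr626_c))))) (BT.Fa_mk (BT.Fa_mk (BT.Fa_mk (BT.Fa_mk (BT.Fa_leaf (P := Itm.ok 206) (iqf tpr1811_c)) (BT.Fa_leaf (P := Itm.ok 206) (iqf tpr54_c))) (BT.Fa_mk (BT.Fa_leaf (P := Itm.ok 206) (iqb tpr702_c)) (BT.Fa_leaf (P := Itm.ok 206) (iqb tpr633_c)))) (BT.Fa_mk (BT.Fa_mk (BT.Fa_leaf (P := Itm.ok 206) (iqf tpr743_c)) (BT.Fa_leaf (P := Itm.ok 206) (iqb tpr1714_c))) (BT.Fa_leaf (P := Itm.ok 206) (iqf tpr17_c)))) (BT.Fa_mk (BT.Fa_mk (BT.Fa_mk (BT.Fa_leaf (P := Itm.ok 206) (iqb tpr576_c)) (BT.Fa_leaf (P := Itm.ok 206) (iqf tpr520_c)))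 (BT.Fa_leaf (P := Itm.ok 206) (iqf tpr513_c))) (BT.Fa_mk (BT.Fa_mk (BT.Fa_leaf (P := Itm.ok 206) (iqf tpr543_c)) (BT.Fa_leaf (P := Itm.ok 206) (iqb tpr575_c))) (BT.Fa_leaf (P := Itm.ok 206) (iqb tpr505_c)))))) (BT.Fa_mk (BT.Fa_mk (BT.Fa_mk (BT.Fa_mk (BT.Fa_mk (BT.Fa_leaf (P := Itm.ok 206) (iqf tpr536_c)) (BT.Fa_leaf (P := Itm.ok 206) (iqf tpr314_c))) (BT.Fa_mk (BT.Fa_leaf (P := Itm.ok 206) (iqf tpr320_c)) (BT.Fa_leaf (P := Itm.ok 206) (iqb tpr591_c)))) (BT.Fa_mk (BT.Fa_mk (BT.Fa_leaf (P := Itm.ok 206) (iqf tpr546_c)) (BT.Fa_leaf (P := Itm.ok 206) (iqb tpr605_c))) (BT.Fa_leaf (P := Itm.ok 206) (iqf tpr16_c)))) (BT.Fa_mk (BT.Fa_mk (BT.Fa_mk (BT.Fa_leaf (P := Itm.ok 206) (iqb tpr123_c)) (BT.Fa_leaf (P := Itm.ok 206) (iqb tpr78_c))) (BT.Fa_leaf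 (P := Itm.ok 206) (iqf tpr339_c))) (BT.Fa_mk (BT.Fa_mk (BT.Fa_leaf (P := Itm.ok 206) (iqf tpr621_c)) (BT.Fa_leaf (P := Itm.ok 206) (iqb tpr406_c))) (BT.Fa_leaf (P := Itm.ok 206) (iqf tpr720_c))))) (BT.Fa_mk (BT.Fa_mk (BT.Fa_mk (BT.Fa_mk (BT.Fa_leaf (P := Itm.ok 206) (iqb tpr81_c)) (BT.Fa_leaf (P := Itm.ok 206) (iqf tpr393_c))) (BT.Fa_leaf (P := Itm.ok 206) (iqb tpr122_c))) (BT.Fa_mk (BT.Fa_mk (BT.Fa_leaf (P := Itm.ok 206) (iqf tpr537_c)) (BT.Fa_leaf (P := Itm.ok 206) (iqf tpr702_c))) (BT.Fa_leaf (P := Itm.ok 206) (iqf tpr633_c)))) (BT.Fa_mk (BT.Fa_mk (BT.Fa_mk (BT.Fa_leaf (P := Itm.ok 206) (iqb tpr526_c)) (BT.Fa_leaf (P := Itm.ok 206) (iqb tpr672_c))) (BT.Fa_leaf (P := Itm.ok 206) (iqf tpr1817_c))) (BT.Fa_mk (BT.Fa_mk (BT.Fa_leaf (P :=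 Itm.ok 206) (iqf tpr1194_c)) (BT.Fa_leaf (P := Itm.ok 206) (iqf tpr151_c))) (BT.Fa_leaf (P := Itm.ok 206) (iqb tpr501_c))))))) (BT.Fa_mk (BT.Fa_mk (BT.Fa_mk (BT.Fa_mk (BT.Fa_mk (BT.Fa_mk (BT.Fa_leaf (P := Itm.ok 206) (iqf tpr879_c)) (BT.Fa_leaf (P := Itm.ok 206) (iqb tpr316_c))) (BT.Fa_mk (BT.Fa_leaf (P := Itm.ok 206) (iqb tpr1647_c)) (BT.Fa_leaf (P := Itm.ok 206) (iqf tpr344_c)))) (BT.Fa_mk (BT.Fa_mk (BT.Fa_leaf (P := Itm.ok 206) (iqf tpr1714_c)) (BT.Fa_leaf (P := Itm.ok 206) (iqf tpr603_c))) (BT.Fa_leaf (P := Itm.ok 206) (iqf tpr592_c)))) (BT.Fa_mk (BT.Fa_mk (BT.Fa_mk (BT.Fa_leaf (P := Itm.ok 206) (iqf tpr1213_c)) (BT.Fa_leaf (P := Itm.ok 206) (iqb tpr292_c))) (BT.Fa_leaf (P := Itm.ok 206) (iqf tpr256_c))) (BT.Fa_mk (BT.Fa_mk (BT.Fa_leaf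 (P := Itm.ok 206) (iqf tpr583_c)) (BT.Fa_leaf (P := Itm.ok 206) (iqb tpr1637_c))) (BT.Fa_leaf (P := Itm.ok 206) (iqf tpr1636_c))))) (BT.Fa_mk (BT.Fa_mk (BT.Fa_mk (BT.Fa_mk (BT.Fa_leaf (P := Itm.ok 206) (iqb tpr593_c)) (BT.Fa_leaf (P := Itm.ok 206) (iqf tpr24_c))) (BT.Fa_leaf (P := Itm.ok 206) (iqb tpr13_c))) (BT.Fa_mk (BT.Fa_mk (BT.Fa_leaf (P := Itm.ok 206) (iqf tpr23_c)) (BT.Fa_leaf (P := Itm.ok 206) (iqf tpr106_c))) (BT.Fa_leaf (P := Itm.ok 206) (iqf tpr521_c)))) (BT.Fa_mk (BT.Fa_mk (BT.Fa_mk (BT.Fa_leaf (P := Itm.ok 206) (iqf tpr523_c)) (BT.Fa_leaf (P := Itm.ok 206) (iqf tpr532_c))) (BT.Fa_leaf (P := Itm.ok 206) (iqf tpr129_c))) (BT.Fa_mk (BT.Fa_mk (BT.Fa_leaf (P := Itm.ok 206) (iqb tpr1917_c)) (BT.Fa_leaf (P := Itm.ok 206) (iqb tpr1824_c)))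 (BT.Fa_leaf (P := Itm.ok 206) (iqb tpr2068_c)))))) (BT.Fa_mk (BT.Fa_mk (BT.Fa_mk (BT.Fa_mk (BT.Fa_mk (BT.Fa_leaf (P := Itm.ok 206) (iqb tpr2371_c)) (BT.Fa_leaf (P := Itm.ok 206) (iqf tpr2377_c))) (BT.Fa_mk (BT.Fa_leaf (P := Itm.ok 206) (iqf tpr1909_c)) (BT.Fa_leaf (P := Itm.ok 206) (iqf tpr2374_c)))) (BT.Fa_mk (BT.Fa_mk (BT.Fa_leaf (P := Itm.ok 206) (iqf tpr1883_c)) (BT.Fa_leaf (P := Itm.ok 206) (iqf tpr2378_c))) (BT.Fa_leaf (P := Itm.ok 206) (iqf tpr1828_c)))) (BT.Fa_mk (BT.Fa_mk (BT.Fa_mk (BT.Fa_leaf (P := Itm.ok 206) (iqb tpr1879_c)) (BT.Fa_leaf (P := Itm.ok 206) (iqb tpr1988_c))) (BT.Fa_leaf (P := Itm.ok 206) (iqb tpr1935_c))) (BT.Fa_mk (BT.Fa_mk (BT.Fa_leaf (P := Itm.ok 206) (iqb tpr2370_c)) (BT.Fa_leaf (P := Itm.ok 206) (iqf tpr1865_c)))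 (BT.Fa_leaf (P := Itm.ok 206) (iqb tpr676_c))))) (BT.Fa_mk (BT.Fa_mk (BT.Fa_mk (BT.Fa_mk (BT.Fa_leaf (P := Itm.ok 206) (iqf tpr503_c)) (BT.Fa_leaf (P := Itm.ok 206) (iqf tpr576_c))) (BT.Fa_leaf (P := Itm.ok 206) (iqb tpr959_c))) (BT.Fa_mk (BT.Fa_mk (BT.Fa_leaf (P := Itm.ok 206) (iqb tpr118_c)) (BT.Fa_leaf (P := Itm.ok 206) (iqf tpr160_c))) (BT.Fa_leaf (P := Itm.ok 206) (iqf tpr1255_c)))) (BT.Fa_mk (BT.Fa_mk (BT.Fa_mk (BT.Fa_leaf (P := Itm.ok 206) (iqb tpr595_c)) (BT.Fa_leaf (P := Itm.ok 206) (iqb tpr549_c))) (BT.Fa_leaf (P := Itm.ok 206) (iqf tpr1202_c))) (BT.Fa_mk (BT.Fa_mk (BT.Fa_leaf (P := Itm.ok 206) (iqf tpr568_c)) (BT.Fa_leaf (P := Itm.ok 206) (iqb tpr569_c))) (BT.Fa_leaf (P := Itm.ok 206) (iqf tpr2379_c)))))))))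

/-- all words of the class have labels -/
theorem pokNFzAzE2A3H2ByAzIzAyB2H3A2EzF : POK 206 xNFzAzE2A3H2ByAzIzAyB2H3A2EzF :=
  y_pok (C0 := ceNFzAzE2A3H2ByAzIzAyB2H3A2EzF) (C1 := coNFzAzE2A3H2ByAzIzAyB2H3A2EzF) topNFzAzE2A3H2ByAzIzAyB2H3A2EzF nbNFzAzE2A3H2ByAzIzAyB2H3A2EzF (BT.Fa_of_all iiNFzAzE2A3H2ByAzIzAyB2H3A2EzF_c)
    (BT.Fa_mk (BT.Fa_mk (cyE_spec zeNFzAzE2A3H2ByAzIzAyB2H3A2EzF_0) (cyE_spec zeNFzAzE2A3H2ByAzIzAyB2H3A2EzF_1)) (BT.Fa_mk (BT.Fa_mk (cyE_spec zeNFzAzE2A3H2ByAzIzAyB2H3A2EzF_2) (cyE_spec zeNFzAzE2A3H2ByAzIzAyB2H3A2EzF_3)) (BT.Fa_mk (cyE_spec zeNFzAzE2A3H2ByAzIzAyB2H3A2EzF_4) (cyE_spec zeNFzAzE2A3H2ByAzIzAyB2H3A2EzF_5))))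
    (BT.Fa_mk (BT.Fa_mk (cyO_spec zoNFzAzE2A3H2ByAzIzAyB2H3A2EzF_0) (cyO_spec zoNFzAzE2A3H2ByAzIzAyB2H3A2EzF_1)) (BT.Fa_mk (BT.Fa_mk (cyO_spec zoNFzAzE2A3H2ByAzIzAyB2H3A2EzF_2) (cyO_spec zoNFzAzE2A3H2ByAzIzAyB2H3A2EzF_3)) (BT.Fa_mk (cyO_spec zoNFzAzE2A3H2ByAzIzAyB2H3A2EzF_4) (cyO_spec zoNFzAzE2A3H2ByAzIzAyB2H3A2EzF_5))))
    iiNFzAzE2A3H2ByAzIzAyB2H3A2EzF_k


end MPb6R
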