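import Pool.Agent.Lib.MP_b6d339_lc.Cw3.YFzByAzA2A2A3H2A2AzIzA2H3AyB2EyAzF
import Pool.Agent.Lib.MP_b6d339_lc.Cw3.XL
import Pool.Agent.Lib.MP_b6d339_lc.Cw3.T0
import Pool.Agent.Lib.MP_b6d339_lc.Cw3.T1
import Pool.Agent.Lib.MP_b6d339_lc.Cw3.T16
import Pool.Agent.Lib.MP_b6d339_lc.Cw3.T17
import Pool.Agent.Lib.MP_b6d339_lc.Cw3.T18
import Pool.Agent.Lib.MP_b6d339_lc.Cw3.T19
import Pool.Agent.Lib.MP_b6d339_lc.Cw3.T2
import Pool.Agent.Lib.MP_b6d339_lc.Cw3.T26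
import Pool.Agent.Lib.MP_b6d339_lc.Cw3.T27
import Pool.Agent.Lib.MP_b6d339_lc.Cw3.T28
import Pool.Agent.Lib.MP_b6d339_lc.Cw3.T29
import Pool.Agent.Lib.MP_b6d339_lc.Cw3.T3
import Pool.Agent.Lib.MP_b6d339_lc.Cw3.T30
import Pool.Agent.Lib.MP_b6d339_lc.Cw3.T31
import Pool.Agent.Lib.MP_b6d339_lc.Cw3.T5
import Pool.Agent.Lib.MP_b6d339_lc.Cw3.T6
import Pool.Agent.Lib.MP_b6d339_lc.Cw3.T7

/-!
# Erdős 592, three levels: items
-/

namespace MPb6R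

open MPb6P

noncomputable def iiNFzByAzA2A2A3H2A2AzIzA2H3AyB2EyAzF : BT Itm := (.node (.node (.node (.node (.node (.node (.node (.leaf (.bwd 0 13 tpr500.df)) (.leaf (.bwd 13 16 tpr168.df))) (.leaf (.bwd 29 23 tpr12.df))) (.node (.leaf (.bwd 52 20 tpr216.df)) (.leaf (.fwd 72 37 tpr2111.df)))) (.node (.node (.node (.leaf (.bwd 109 20 tpr1355.df)) (.leaf (.fwd 129 21 tpr90.df))) (.leaf (.fwd 150 35 tpr2247.df))) (.node (.leaf (.bwd 185 23 tpr5.df)) (.leaf (.bwd 208 33 tpr35.df))))) (.node (.node (.node (.node (.leaf (.bwd 241 38 tpr1334.df)) (.leaf (.bwd 279 34 tpr1341.df))) (.leaf (.fwd 313 6 tpr4.df))) (.node (.leaf (.fwd 319 31 tpr21.df)) (.leaf (.fwd 350 28 tpr477.df)))) (.node (.node (.node (.leaf (.bwd 378 37 tpr2395.df)) (.leaf (.fwd 415 33 tpr28.df))) (.leaf (.bwd 448 23 tpr456.df))) (.node (.leaf (.fwd 471 27 tpr499.df)) (.leaf (.bwd 498 24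 tpr454.df)))))) (.node (.node (.node (.node (.node (.leaf (.fwd 522 47 tpr2143.df)) (.leaf (.bwd 569 39 tpr479.df))) (.leaf (.fwd 608 31 tpr2393.df))) (.node (.leaf (.fwd 639 44 tpr2242.df)) (.leaf (.fwd 683 53 tpr2396.df)))) (.node (.node (.node (.leaf (.fwd 736 23 tpr133.df)) (.leaf (.bwd 759 31 tpr2398.df))) (.leaf (.fwd 790 39 tpr2295.df))) (.node (.leaf (.fwd 829 30 tpr263.df)) (.leaf (.bwd 859 25 tpr1311.df))))) (.node (.node (.node (.node (.leaf (.bwd 884 32 tpr1479.df)) (.leaf (.fwd 916 32 tpr113.df))) (.leaf (.fwd 948 26 tpr2361.df))) (.node (.leaf (.fwd 974 61 tpr2325.df)) (.leaf (.bwd 1035 38 tpr2485.df)))) (.node (.node (.node (.leaf (.fwd 1073 26 tpr1336.df)) (.leaf (.bwd 1099 31 tpr1331.df))) (.leaf (.fwd 1130 30 tpr1323.df))) (.node (.leaf (.bwd 1160 41 tpr2220.df)) (.leaf (.fwd 1201 23 tpr1562.df))))))) (.node (.node (.node (.node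 (.node (.node (.leaf (.fwd 1224 13 tpr500.df)) (.leaf (.bwd 1237 29 tpr1457.df))) (.leaf (.bwd 1266 29 tpr464.df))) (.node (.leaf (.bwd 1295 23 tpr605.df)) (.leaf (.fwd 1318 19 tpr33.df)))) (.node (.node (.node (.leaf (.fwd 1337 20 tpr63.df)) (.leaf (.bwd 1357 22 tpr2390.df))) (.leaf (.bwd 1379 38 tpr526.df))) (.node (.leaf (.bwd 1417 34 tpr92.df)) (.leaf (.bwd 1451 27 tpr131.df))))) (.node (.node (.node (.node (.leaf (.bwd 1478 50 tpr1309.df)) (.leaf (.bwd 1528 25 tpr51.df))) (.leaf (.fwd 1553 16 tpr2298.df))) (.node (.leaf (.bwd 1569 24 tpr2394.df)) (.leaf (.bwd 1593 33 tpr2397.df)))) (.node (.node (.node (.leaf (.fwd 1626 25 tpr10.df)) (.leaf (.fwd 1651 42 tpr612.df))) (.leaf (.bwd 1693 35 tpr541.df))) (.node (.leaf (.bwd 1728 39 tpr2404.df)) (.leaf (.bwd 1767 35 tpr485.df)))))) (.node (.node (.node (.node (.node (.leaf (.bwd 1802 35 tpr1313.df))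 (.leaf (.bwd 1837 37 tpr2521.df))) (.leaf (.bwd 1874 43 tpr1325.df))) (.node (.leaf (.fwd 1917 54 tpr1354.df)) (.leaf (.bwd 1971 37 tpr1312.df)))) (.node (.node (.node (.leaf (.fwd 2008 31 tpr606.df)) (.leaf (.bwd 2039 35 tpr568.df))) (.leaf (.bwd 2074 46 tpr1464.df))) (.node (.leaf (.fwd 2120 25 tpr106.df)) (.leaf (.fwd 2145 36 tpr1346.df))))) (.node (.node (.node (.node (.leaf (.bwd 2181 35 tpr89.df)) (.leaf (.fwd 2216 39 tpr636.df))) (.leaf (.fwd 2255 36 tpr2392.df))) (.node (.leaf (.bwd 2291 39 tpr210.df)) (.leaf (.fwd 2330 42 tpr1335.df)))) (.node (.node (.node (.leaf (.bwd 2372 32 tpr2128.df)) (.leaf (.fwd 2404 31 tpr1365.df))) (.leaf (.fwd 2435 28 tpr1406.df))) (.node (.leaf (.fwd 2463 42 tpr2388.df)) (.leaf (.bwd 2505 27 tpr1475.df))))))))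

theorem iiNFzByAzA2A2A3H2A2AzIzA2H3AyB2EyAzF_c : iiNFzByAzA2A2A3H2A2AzIzA2H3AyB2EyAzF.all (itB (ng 61 nnNFzByAzA2A2A3H2A2AzIzA2H3AyB2EyAzF)) = true := by decide +kernel
theorem nbNFzByAzA2A2A3H2A2AzIzA2H3AyB2EyAzF : nbB 61 2593 nnNFzByAzA2A2A3H2A2AzIzA2H3AyB2EyAzF = true := by decide +kernel
theorem topNFzByAzA2A2A3H2A2AzIzA2H3AyB2EyAzF : topY 2593 ttNFzByAzA2A2A3H2A2AzIzA2H3AyB2EyAzF ceNFzByAzA2A2A3H2A2AzIzA2H3AyB2EyAzF xNFzByAzA2A2A3H2A2AzIzA2H3AyB2EyAzF iiNFzByAzA2A2A3H2A2AzIzA2H3AyB2EyAzF = true := by decide +kernel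

end MPb6R
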