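import Pool.Agent.Lib.MP_b6d339_lc.Cw3.YFzByAzA2A2A3H2ByAzIzA2H3AyB2EyAzF
import Pool.Agent.Lib.MP_b6d339_lc.Cw3.XL
import Pool.Agent.Lib.MP_b6d339_lc.Cw3.T0
import Pool.Agent.Lib.MP_b6d339_lc.Cw3.T1
import Pool.Agent.Lib.MP_b6d339_lc.Cw3.T12
import Pool.Agent.Lib.MP_b6d339_lc.Cw3.T16
import Pool.Agent.Lib.MP_b6d339_lc.Cw3.T17
import Pool.Agent.Lib.MP_b6d339_lc.Cw3.T18
import Pool.Agent.Lib.MP_b6d339_lc.Cw3.T2
import Pool.Agent.Lib.MP_b6d339_lc.Cw3.T26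
import Pool.Agent.Lib.MP_b6d339_lc.Cw3.T27
import Pool.Agent.Lib.MP_b6d339_lc.Cw3.T28
import Pool.Agent.Lib.MP_b6d339_lc.Cw3.T29
import Pool.Agent.Lib.MP_b6d339_lc.Cw3.T3
import Pool.Agent.Lib.MP_b6d339_lc.Cw3.T31
import Pool.Agent.Lib.MP_b6d339_lc.Cw3.T32
import Pool.Agent.Lib.MP_b6d339_lc.Cw3.T35
import Pool.Agent.Lib.MP_b6d339_lc.Cw3.T5
import Pool.Agent.Lib.MP_b6d339_lc.Cw3.T6
import Pool.Agent.Lib.MP_b6d339_lc.Cw3.T7

/-!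
# Erdős 592, three levels: items
-/

namespace MPb6R

open MPb6P

noncomputable def iiNFzByAzA2A2A3H2ByAzIzA2H3AyB2EyAzF : BT Itm := (.node (.node (.node (.node (.node (.node (.node (.leaf (.bwd 0 13 tpr500.df)) (.leaf (.bwd 13 16 tpr168.df))) (.leaf (.bwd 29 23 tpr5.df))) (.node (.leaf (.bwd 52 38 tpr1334.df)) (.leaf (.fwd 90 19 tpr33.df)))) (.node (.node (.node (.leaf (.fwd 109 37 tpr2111.df)) (.leaf (.bwd 146 33 tpr35.df))) (.leaf (.bwd 179 34 tpr1341.df))) (.node (.leaf (.bwd 213 20 tpr1355.df)) (.leaf (.fwd 233 31 tpr21.df))))) (.node (.node (.node (.node (.leaf (.fwd 264 28 tpr477.df)) (.leaf (.bwd 292 39 tpr479.df))) (.leaf (.fwd 331 33 tpr28.df))) (.node (.leaf (.fwd 364 35 tpr2247.df)) (.leaf (.fwd 399 47 tpr2143.df)))) (.node (.node (.node (.leaf (.bwd 446 23 tpr456.df)) (.leaf (.bwd 469 31 tpr2398.df))) (.leaf (.bwd 500 25 tpr1311.df)))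 (.node (.leaf (.bwd 525 45 tpr596.df)) (.leaf (.bwd 570 27 tpr1475.df)))))) (.node (.node (.node (.node (.node (.leaf (.fwd 597 39 tpr2295.df)) (.leaf (.bwd 636 46 tpr1464.df))) (.leaf (.bwd 682 38 tpr2485.df))) (.node (.leaf (.bwd 720 32 tpr1479.df)) (.leaf (.fwd 752 42 tpr2388.df)))) (.node (.node (.node (.leaf (.bwd 794 40 tpr966.df)) (.leaf (.fwd 834 61 tpr2325.df))) (.leaf (.bwd 895 41 tpr2220.df))) (.node (.leaf (.fwd 936 31 tpr1365.df)) (.leaf (.fwd 967 34 tpr1376.df))))) (.node (.node (.node (.node (.leaf (.bwd 1001 23 tpr12.df)) (.leaf (.fwd 1024 20 tpr63.df))) (.leaf (.fwd 1044 23 tpr133.df))) (.node (.leaf (.fwd 1067 27 tpr499.df)) (.leaf (.fwd 1094 25 tpr10.df)))) (.node (.node (.leaf (.bwd 1119 34 tpr92.df)) (.leaf (.fwd 1153 26 tpr2361.df))) (.node (.leaf (.fwd 1179 32 tpr113.df)) (.leaf (.bwd 1211 25 tpr51.df))))))) (.node (.node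 (.node (.node (.node (.node (.leaf (.fwd 1236 44 tpr2242.df)) (.leaf (.bwd 1280 37 tpr2395.df))) (.leaf (.fwd 1317 31 tpr2393.df))) (.node (.leaf (.fwd 1348 16 tpr2298.df)) (.leaf (.bwd 1364 50 tpr1309.df)))) (.node (.node (.node (.leaf (.bwd 1414 37 tpr2521.df)) (.leaf (.fwd 1451 36 tpr1346.df))) (.leaf (.fwd 1487 21 tpr90.df))) (.node (.leaf (.fwd 1508 42 tpr612.df)) (.leaf (.fwd 1550 30 tpr263.df))))) (.node (.node (.node (.node (.leaf (.fwd 1580 39 tpr636.df)) (.leaf (.fwd 1619 25 tpr106.df))) (.leaf (.bwd 1644 35 tpr568.df))) (.node (.leaf (.bwd 1679 24 tpr2394.df)) (.leaf (.bwd 1703 24 tpr454.df)))) (.node (.node (.leaf (.bwd 1727 35 tpr1313.df)) (.leaf (.fwd 1762 24 tpr24.df))) (.node (.leaf (.bwd 1786 33 tpr2397.df)) (.leaf (.bwd 1819 29 tpr1457.df)))))) (.node (.node (.node (.node (.node (.leaf (.bwd 1848 23 tpr478.df)) (.leaf (.bwd 1871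 35 tpr485.df))) (.leaf (.fwd 1906 40 tpr62.df))) (.node (.leaf (.bwd 1946 27 tpr131.df)) (.leaf (.fwd 1973 53 tpr2396.df)))) (.node (.node (.node (.leaf (.fwd 2026 52 tpr1328.df)) (.leaf (.bwd 2078 43 tpr1325.df))) (.leaf (.fwd 2121 54 tpr1354.df))) (.node (.leaf (.bwd 2175 28 tpr2823.df)) (.leaf (.fwd 2203 30 tpr1323.df))))) (.node (.node (.node (.node (.leaf (.fwd 2233 42 tpr1335.df)) (.leaf (.bwd 2275 31 tpr1331.df))) (.leaf (.bwd 2306 48 tpr2617.df))) (.node (.leaf (.bwd 2354 37 tpr1312.df)) (.leaf (.fwd 2391 6 tpr4.df)))) (.node (.node (.leaf (.fwd 2397 26 tpr1336.df)) (.leaf (.bwd 2423 29 tpr464.df))) (.node (.leaf (.bwd 2452 22 tpr2390.df)) (.leaf (.bwd 2474 54 tpr177.df))))))))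

theorem iiNFzByAzA2A2A3H2ByAzIzA2H3AyB2EyAzF_c : iiNFzByAzA2A2A3H2ByAzIzA2H3AyB2EyAzF.all (itB (ng 61 nnNFzByAzA2A2A3H2ByAzIzA2H3AyB2EyAzF)) = true := by decide +kernel
theorem nbNFzByAzA2A2A3H2ByAzIzA2H3AyB2EyAzF : nbB 61 2589 nnNFzByAzA2A2A3H2ByAzIzA2H3AyB2EyAzF = true := by decide +kernel
theorem topNFzByAzA2A2A3H2ByAzIzA2H3AyB2EyAzF : topY 2589 ttNFzByAzA2A2A3H2ByAzIzA2H3AyB2EyAzF ceNFzByAzA2A2A3H2ByAzIzA2H3AyB2EyAzF xNFzByAzA2A2A3H2ByAzIzA2H3AyB2EyAzF iiNFzByAzA2A2A3H2ByAzIzA2H3AyB2EyAzF = true := by decide +kernel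

end MPb6R
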