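import Pool.Agent.Lib.MP_b6d339_lc.Cw3.YFzByAzA2A2E2A3H2ByAzIzA2H3AyB2EyAzAyBzF
import Pool.Agent.Lib.MP_b6d339_lc.Cw3.XL
import Pool.Agent.Lib.MP_b6d339_lc.Cw3.T0
import Pool.Agent.Lib.MP_b6d339_lc.Cw3.T1
import Pool.Agent.Lib.MP_b6d339_lc.Cw3.T10
import Pool.Agent.Lib.MP_b6d339_lc.Cw3.T11
import Pool.Agent.Lib.MP_b6d339_lc.Cw3.T12
import Pool.Agent.Lib.MP_b6d339_lc.Cw3.T13
import Pool.Agent.Lib.MP_b6d339_lc.Cw3.T14
import Pool.Agent.Lib.MP_b6d339_lc.Cw3.T15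
import Pool.Agent.Lib.MP_b6d339_lc.Cw3.T16
import Pool.Agent.Lib.MP_b6d339_lc.Cw3.T18
import Pool.Agent.Lib.MP_b6d339_lc.Cw3.T19
import Pool.Agent.Lib.MP_b6d339_lc.Cw3.T2
import Pool.Agent.Lib.MP_b6d339_lc.Cw3.T20
import Pool.Agent.Lib.MP_b6d339_lc.Cw3.T21
import Pool.Agent.Lib.MP_b6d339_lc.Cw3.T22
import Pool.Agent.Lib.MP_b6d339_lc.Cw3.T23
import Pool.Agent.Lib.MP_b6d339_lc.Cw3.T25
import Pool.Agent.Lib.MP_b6d339_lc.Cw3.T26
import Pool.Agent.Lib.MP_b6d339_lc.Cw3.T27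
import Pool.Agent.Lib.MP_b6d339_lc.Cw3.T28
import Pool.Agent.Lib.MP_b6d339_lc.Cw3.T29
import Pool.Agent.Lib.MP_b6d339_lc.Cw3.T3
import Pool.Agent.Lib.MP_b6d339_lc.Cw3.T31
import Pool.Agent.Lib.MP_b6d339_lc.Cw3.T32
import Pool.Agent.Lib.MP_b6d339_lc.Cw3.T33
import Pool.Agent.Lib.MP_b6d339_lc.Cw3.T34
import Pool.Agent.Lib.MP_b6d339_lc.Cw3.T4
import Pool.Agent.Lib.MP_b6d339_lc.Cw3.T5
import Pool.Agent.Lib.MP_b6d339_lc.Cw3.T6
import Pool.Agent.Lib.MP_b6d339_lc.Cw3.T7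
import Pool.Agent.Lib.MP_b6d339_lc.Cw3.T8
import Pool.Agent.Lib.MP_b6d339_lc.Cw3.T9

/-!
# Erdős 592, three levels: items
-/

namespace MPb6R

open MPb6P

noncomputable def iiNFzByAzA2A2E2A3H2ByAzIzA2H3AyB2EyAzAyBzF : BT Itm := (.node (.node (.node (.node (.node (.node (.node (.node (.leaf (.bwd 0 13 tpr500.df)) (.leaf (.bwd 13 23 tpr5.df))) (.node (.leaf (.fwd 36 21 tpr8.df)) (.leaf (.fwd 57 19 tpr616.df)))) (.node (.node (.leaf (.bwd 76 39 tpr210.df)) (.leaf (.fwd 115 43 tpr2125.df))) (.node (.leaf (.bwd 158 38 tpr2116.df)) (.leaf (.fwd 196 38 tpr2040.df))))) (.node (.node (.node (.leaf (.bwd 234 60 tpr2495.df)) (.leaf (.bwd 294 46 tpr1765.df))) (.node (.leaf (.bwd 340 44 tpr2260.df)) (.leaf (.fwd 384 33 tpr2501.df)))) (.node (.node (.leaf (.bwd 417 48 tpr2177.df)) (.leaf (.fwd 465 34 tpr2512.df))) (.leaf (.fwd 499 43 tpr2491.df))))) (.node (.node (.node (.node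 (.leaf (.bwd 542 28 tpr507.df)) (.leaf (.fwd 570 29 tpr2486.df))) (.node (.leaf (.bwd 599 39 tpr2532.df)) (.leaf (.bwd 638 33 tpr1215.df)))) (.node (.node (.leaf (.fwd 671 27 tpr1247.df)) (.leaf (.fwd 698 34 tpr2504.df))) (.node (.leaf (.bwd 732 42 tpr2507.df)) (.leaf (.bwd 774 28 tpr627.df))))) (.node (.node (.node (.leaf (.bwd 802 35 tpr2229.df)) (.leaf (.fwd 837 41 tpr2524.df))) (.node (.leaf (.bwd 878 50 tpr2489.df)) (.leaf (.bwd 928 49 tpr2133.df)))) (.node (.node (.leaf (.fwd 977 34 tpr2279.df)) (.leaf (.bwd 1011 35 tpr2490.df))) (.leaf (.fwd 1046 33 tpr2513.df)))))) (.node (.node (.node (.node (.node (.leaf (.bwd 1079 29 tpr2523.df)) (.leaf (.bwd 1108 28 tpr2113.df))) (.node (.leaf (.fwd 1136 39 tpr636.df)) (.leaf (.fwd 1175 36 tpr2509.df)))) (.node (.node (.leaf (.bwd 1211 42 tpr2543.df)) (.leaf (.fwd 1253 31 tpr2130.df))) (.node (.leaf (.bwd 1284 30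 tpr2167.df)) (.leaf (.bwd 1314 35 tpr2262.df))))) (.node (.node (.node (.leaf (.bwd 1349 22 tpr2227.df)) (.leaf (.bwd 1371 38 tpr2510.df))) (.node (.leaf (.fwd 1409 45 tpr2544.df)) (.leaf (.bwd 1454 44 tpr2189.df)))) (.node (.node (.leaf (.fwd 1498 27 tpr2496.df)) (.leaf (.bwd 1525 37 tpr2334.df))) (.leaf (.fwd 1562 29 tpr2225.df))))) (.node (.node (.node (.node (.leaf (.fwd 1591 31 tpr2498.df)) (.leaf (.fwd 1622 37 tpr2164.df))) (.node (.leaf (.fwd 1659 36 tpr2208.df)) (.leaf (.bwd 1695 33 tpr645.df)))) (.node (.node (.leaf (.fwd 1728 29 tpr2516.df)) (.leaf (.bwd 1757 25 tpr1733.df))) (.leaf (.fwd 1782 45 tpr2688.df)))) (.node (.node (.node (.leaf (.bwd 1827 51 tpr2226.df)) (.leaf (.bwd 1878 60 tpr2493.df))) (.node (.leaf (.fwd 1938 36 tpr2278.df)) (.leaf (.fwd 1974 32 tpr518.df)))) (.node (.node (.leaf (.fwd 2006 25 tpr1257.df)) (.leaf (.bwd 2031 25 tpr2186.df)))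 (.leaf (.bwd 2056 35 tpr2537.df))))))) (.node (.node (.node (.node (.node (.node (.leaf (.fwd 2091 42 tpr2687.df)) (.leaf (.fwd 2133 33 tpr2154.df))) (.node (.leaf (.bwd 2166 46 tpr2153.df)) (.leaf (.bwd 2212 34 tpr2536.df)))) (.node (.node (.leaf (.bwd 2246 44 tpr617.df)) (.leaf (.bwd 2290 34 tpr2259.df))) (.node (.leaf (.bwd 2324 26 tpr2682.df)) (.leaf (.bwd 2350 44 tpr2253.df))))) (.node (.node (.node (.leaf (.bwd 2394 39 tpr479.df)) (.leaf (.fwd 2433 36 tpr2659.df))) (.node (.leaf (.fwd 2469 55 tpr2187.df)) (.leaf (.bwd 2524 25 tpr1311.df)))) (.node (.node (.leaf (.bwd 2549 52 tpr814.df)) (.leaf (.fwd 2601 48 tpr2114.df))) (.leaf (.fwd 2649 27 tpr2685.df))))) (.node (.node (.node (.node (.leaf (.fwd 2676 30 tpr2599.df)) (.leaf (.fwd 2706 37 tpr2111.df))) (.node (.leaf (.bwd 2743 33 tpr44.df)) (.leaf (.fwd 2776 40 tpr2538.df)))) (.node (.node (.leaf (.bwd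 2816 29 tpr464.df)) (.leaf (.bwd 2845 23 tpr456.df))) (.node (.leaf (.fwd 2868 31 tpr2729.df)) (.leaf (.bwd 2899 31 tpr2246.df))))) (.node (.node (.node (.leaf (.fwd 2930 31 tpr21.df)) (.leaf (.bwd 2961 31 tpr949.df))) (.node (.leaf (.bwd 2992 31 tpr198.df)) (.leaf (.bwd 3023 27 tpr82.df)))) (.node (.node (.leaf (.fwd 3050 23 tpr780.df)) (.leaf (.bwd 3073 23 tpr1255.df))) (.leaf (.bwd 3096 37 tpr555.df)))))) (.node (.node (.node (.node (.node (.leaf (.fwd 3133 45 tpr2503.df)) (.leaf (.bwd 3178 32 tpr247.df))) (.node (.leaf (.bwd 3210 38 tpr1767.df)) (.leaf (.fwd 3248 28 tpr721.df)))) (.node (.node (.leaf (.bwd 3276 34 tpr619.df)) (.leaf (.bwd 3310 22 tpr982.df))) (.node (.leaf (.bwd 3332 27 tpr506.df)) (.leaf (.bwd 3359 15 tpr419.df))))) (.node (.node (.node (.leaf (.fwd 3374 58 tpr2230.df)) (.leaf (.fwd 3432 54 tpr1193.df))) (.node (.leaf (.fwd 3486 22 tpr504.df))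 (.leaf (.bwd 3508 62 tpr1754.df)))) (.node (.node (.leaf (.fwd 3570 28 tpr2112.df)) (.leaf (.bwd 3598 31 tpr2150.df))) (.leaf (.bwd 3629 30 tpr744.df))))) (.node (.node (.node (.node (.leaf (.fwd 3659 30 tpr1547.df)) (.leaf (.fwd 3689 49 tpr2137.df))) (.node (.leaf (.bwd 3738 44 tpr466.df)) (.leaf (.fwd 3782 43 tpr2514.df)))) (.node (.node (.leaf (.fwd 3825 32 tpr113.df)) (.leaf (.fwd 3857 19 tpr33.df))) (.leaf (.bwd 3876 39 tpr1653.df)))) (.node (.node (.node (.leaf (.fwd 3915 22 tpr239.df)) (.leaf (.fwd 3937 27 tpr499.df))) (.node (.leaf (.bwd 3964 16 tpr168.df)) (.leaf (.fwd 3980 25 tpr10.df)))) (.node (.node (.leaf (.fwd 4005 28 tpr990.df)) (.leaf (.fwd 4033 40 tpr2005.df))) (.leaf (.fwd 4073 22 tpr2674.df)))))))) (.node (.node (.node (.node (.node (.node (.node (.leaf (.fwd 4095 22 tpr953.df)) (.leaf (.bwd 4117 39 tpr1112.df))) (.node (.leaf (.fwd 4156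 44 tpr1747.df)) (.leaf (.bwd 4200 34 tpr738.df)))) (.node (.node (.leaf (.bwd 4234 25 tpr51.df)) (.leaf (.fwd 4259 42 tpr2217.df))) (.node (.leaf (.bwd 4301 29 tpr656.df)) (.leaf (.bwd 4330 33 tpr680.df))))) (.node (.node (.node (.leaf (.fwd 4363 42 tpr2233.df)) (.leaf (.bwd 4405 23 tpr508.df))) (.node (.leaf (.fwd 4428 32 tpr1065.df)) (.leaf (.fwd 4460 22 tpr581.df)))) (.node (.node (.leaf (.fwd 4482 30 tpr577.df)) (.leaf (.fwd 4512 50 tpr2206.df))) (.leaf (.bwd 4562 59 tpr2526.df))))) (.node (.node (.node (.node (.leaf (.fwd 4621 31 tpr167.df)) (.leaf (.fwd 4652 35 tpr1028.df))) (.node (.leaf (.fwd 4687 13 tpr11.df)) (.leaf (.bwd 4700 23 tpr780.df)))) (.node (.node (.leaf (.fwd 4723 53 tpr815.df)) (.leaf (.bwd 4776 23 tpr12.df))) (.node (.leaf (.fwd 4799 47 tpr2143.df)) (.leaf (.bwd 4846 35 tpr89.df))))) (.node (.node (.node (.leaf (.fwd 4881 35 tpr2247.df))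 (.leaf (.bwd 4916 33 tpr35.df))) (.node (.leaf (.bwd 4949 34 tpr1341.df)) (.leaf (.fwd 4983 36 tpr1346.df)))) (.node (.node (.leaf (.bwd 5019 61 tpr2671.df)) (.leaf (.fwd 5080 33 tpr28.df))) (.leaf (.bwd 5113 49 tpr1647.df)))))) (.node (.node (.node (.node (.node (.leaf (.fwd 5162 20 tpr63.df)) (.leaf (.fwd 5182 23 tpr1562.df))) (.node (.leaf (.bwd 5205 38 tpr1334.df)) (.leaf (.bwd 5243 20 tpr1355.df)))) (.node (.node (.leaf (.fwd 5263 54 tpr1354.df)) (.leaf (.fwd 5317 44 tpr2242.df))) (.node (.leaf (.bwd 5361 37 tpr2239.df)) (.leaf (.fwd 5398 28 tpr477.df))))) (.node (.node (.node (.leaf (.bwd 5426 24 tpr454.df)) (.leaf (.bwd 5450 35 tpr1313.df))) (.node (.leaf (.bwd 5485 34 tpr1764.df)) (.leaf (.fwd 5519 30 tpr2488.df)))) (.node (.node (.leaf (.fwd 5549 35 tpr2215.df)) (.leaf (.fwd 5584 35 tpr2244.df))) (.leaf (.bwd 5619 46 tpr1464.df))))) (.node (.node (.node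 (.node (.leaf (.fwd 5665 31 tpr2499.df)) (.leaf (.fwd 5696 29 tpr2269.df))) (.node (.leaf (.bwd 5725 35 tpr2666.df)) (.leaf (.bwd 5760 29 tpr2667.df)))) (.node (.node (.leaf (.bwd 5789 33 tpr2527.df)) (.leaf (.fwd 5822 39 tpr2123.df))) (.leaf (.fwd 5861 37 tpr555.df)))) (.node (.node (.node (.leaf (.bwd 5898 29 tpr2163.df)) (.leaf (.bwd 5927 33 tpr2171.df))) (.node (.leaf (.fwd 5960 27 tpr2190.df)) (.leaf (.bwd 5987 42 tpr1138.df)))) (.node (.node (.leaf (.bwd 6029 35 tpr2166.df)) (.leaf (.fwd 6064 28 tpr2126.df))) (.leaf (.fwd 6092 39 tpr1001.df))))))) (.node (.node (.node (.node (.node (.node (.leaf (.fwd 6131 35 tpr2131.df)) (.leaf (.fwd 6166 35 tpr541.df))) (.node (.leaf (.bwd 6201 23 tpr605.df)) (.leaf (.fwd 6224 26 tpr2272.df)))) (.node (.node (.leaf (.fwd 6250 26 tpr360.df)) (.leaf (.bwd 6276 25 tpr2696.df))) (.node (.leaf (.bwd 6301 31 tpr2673.df)) (.leaf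 (.fwd 6332 30 tpr997.df))))) (.node (.node (.node (.leaf (.bwd 6362 35 tpr485.df)) (.leaf (.fwd 6397 51 tpr2161.df))) (.node (.leaf (.bwd 6448 26 tpr2515.df)) (.leaf (.fwd 6474 60 tpr1145.df)))) (.node (.node (.leaf (.fwd 6534 61 tpr1736.df)) (.leaf (.bwd 6595 40 tpr2546.df))) (.leaf (.fwd 6635 36 tpr1644.df))))) (.node (.node (.node (.node (.leaf (.bwd 6671 61 tpr2676.df)) (.leaf (.bwd 6732 32 tpr2128.df))) (.node (.leaf (.bwd 6764 32 tpr2277.df)) (.leaf (.fwd 6796 41 tpr2214.df)))) (.node (.node (.leaf (.fwd 6837 33 tpr2351.df)) (.leaf (.bwd 6870 27 tpr2267.df))) (.leaf (.bwd 6897 36 tpr2511.df)))) (.node (.node (.node (.leaf (.fwd 6933 51 tpr2505.df)) (.leaf (.bwd 6984 33 tpr1664.df))) (.node (.leaf (.bwd 7017 45 tpr596.df)) (.leaf (.bwd 7062 37 tpr583.df)))) (.node (.node (.leaf (.bwd 7099 22 tpr239.df)) (.leaf (.bwd 7121 32 tpr17.df))) (.leaf (.fwd 7153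 31 tpr2149.df)))))) (.node (.node (.node (.node (.node (.leaf (.bwd 7184 22 tpr191.df)) (.leaf (.fwd 7206 33 tpr1099.df))) (.node (.leaf (.fwd 7239 21 tpr2590.df)) (.leaf (.fwd 7260 34 tpr575.df)))) (.node (.node (.leaf (.bwd 7294 36 tpr683.df)) (.leaf (.bwd 7330 6 tpr4.df))) (.node (.leaf (.fwd 7336 30 tpr2588.df)) (.leaf (.bwd 7366 39 tpr701.df))))) (.node (.node (.node (.leaf (.bwd 7405 39 tpr1900.df)) (.leaf (.bwd 7444 32 tpr2545.df))) (.node (.leaf (.bwd 7476 42 tpr2542.df)) (.leaf (.fwd 7518 34 tpr2013.df)))) (.node (.node (.leaf (.fwd 7552 29 tpr9.df)) (.leaf (.bwd 7581 45 tpr2727.df))) (.leaf (.bwd 7626 37 tpr2497.df))))) (.node (.node (.node (.node (.leaf (.bwd 7663 51 tpr2525.df)) (.leaf (.fwd 7714 39 tpr2529.df))) (.node (.leaf (.fwd 7753 35 tpr2689.df)) (.leaf (.bwd 7788 44 tpr2506.df)))) (.node (.node (.leaf (.bwd 7832 20 tpr768.df)) (.leaf (.fwd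 7852 32 tpr2528.df))) (.leaf (.fwd 7884 58 tpr1143.df)))) (.node (.node (.node (.leaf (.bwd 7942 31 tpr2256.df)) (.leaf (.fwd 7973 22 tpr2487.df))) (.node (.leaf (.bwd 7995 37 tpr2395.df)) (.leaf (.bwd 8032 41 tpr1135.df)))) (.node (.node (.leaf (.bwd 8073 31 tpr1331.df)) (.leaf (.fwd 8104 28 tpr2508.df))) (.leaf (.bwd 8132 47 tpr1762.df)))))))))

theorem iiNFzByAzA2A2E2A3H2ByAzIzA2H3AyB2EyAzAyBzF_c : iiNFzByAzA2A2E2A3H2ByAzIzA2H3AyB2EyAzAyBzF.all (itB (ng 62 nnNFzByAzA2A2E2A3H2ByAzIzA2H3AyB2EyAzAyBzF)) = true := by decide +kernel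
theorem nbNFzByAzA2A2E2A3H2ByAzIzA2H3AyB2EyAzAyBzF : nbB 62 8241 nnNFzByAzA2A2E2A3H2ByAzIzA2H3AyB2EyAzAyBzF = true := by decide +kernel
theorem topNFzByAzA2A2E2A3H2ByAzIzA2H3AyB2EyAzAyBzF : topY 8241 ttNFzByAzA2A2E2A3H2ByAzIzA2H3AyB2EyAzAyBzF ceNFzByAzA2A2E2A3H2ByAzIzA2H3AyB2EyAzAyBzF xNFzByAzA2A2E2A3H2ByAzIzA2H3AyB2EyAzAyBzF iiNFzByAzA2A2E2A3H2ByAzIzA2H3AyB2EyAzAyBzF = true := by decide +kernel

end MPb6R
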