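import Pool.Agent.Lib.MP_b6d339_lc.Cw3.YFzByAzA2A2E2A3H2ByAzIzA2H3AyB2EyAzAzF
import Pool.Agent.Lib.MP_b6d339_lc.Cw3.XL
import Pool.Agent.Lib.MP_b6d339_lc.Cw3.T0
import Pool.Agent.Lib.MP_b6d339_lc.Cw3.T1
import Pool.Agent.Lib.MP_b6d339_lc.Cw3.T10
import Pool.Agent.Lib.MP_b6d339_lc.Cw3.T11
import Pool.Agent.Lib.MP_b6d339_lc.Cw3.T12
import Pool.Agent.Lib.MP_b6d339_lc.Cw3.T13
import Pool.Agent.Lib.MP_b6d339_lc.Cw3.T14
import Pool.Agent.Lib.MP_b6d339_lc.Cw3.T15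
import Pool.Agent.Lib.MP_b6d339_lc.Cw3.T16
import Pool.Agent.Lib.MP_b6d339_lc.Cw3.T19
import Pool.Agent.Lib.MP_b6d339_lc.Cw3.T2
import Pool.Agent.Lib.MP_b6d339_lc.Cw3.T20
import Pool.Agent.Lib.MP_b6d339_lc.Cw3.T21
import Pool.Agent.Lib.MP_b6d339_lc.Cw3.T22
import Pool.Agent.Lib.MP_b6d339_lc.Cw3.T23
import Pool.Agent.Lib.MP_b6d339_lc.Cw3.T25
import Pool.Agent.Lib.MP_b6d339_lc.Cw3.T26
import Pool.Agent.Lib.MP_b6d339_lc.Cw3.T27
import Pool.Agent.Lib.MP_b6d339_lc.Cw3.T28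
import Pool.Agent.Lib.MP_b6d339_lc.Cw3.T29
import Pool.Agent.Lib.MP_b6d339_lc.Cw3.T3
import Pool.Agent.Lib.MP_b6d339_lc.Cw3.T31
import Pool.Agent.Lib.MP_b6d339_lc.Cw3.T32
import Pool.Agent.Lib.MP_b6d339_lc.Cw3.T33
import Pool.Agent.Lib.MP_b6d339_lc.Cw3.T35
import Pool.Agent.Lib.MP_b6d339_lc.Cw3.T4
import Pool.Agent.Lib.MP_b6d339_lc.Cw3.T5
import Pool.Agent.Lib.MP_b6d339_lc.Cw3.T6
import Pool.Agent.Lib.MP_b6d339_lc.Cw3.T7
import Pool.Agent.Lib.MP_b6d339_lc.Cw3.T8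
import Pool.Agent.Lib.MP_b6d339_lc.Cw3.T9

/-!
# Erdős 592, three levels: items
-/

namespace MPb6R

open MPb6P

noncomputable def iiNFzByAzA2A2E2A3H2ByAzIzA2H3AyB2EyAzAzF : BT Itm := (.node (.node (.node (.node (.node (.node (.node (.node (.leaf (.bwd 0 13 tpr500.df)) (.leaf (.bwd 13 23 tpr5.df))) (.node (.leaf (.fwd 36 21 tpr8.df)) (.leaf (.fwd 57 19 tpr616.df)))) (.node (.node (.leaf (.bwd 76 6 tpr4.df)) (.leaf (.fwd 82 42 tpr2233.df))) (.leaf (.bwd 124 60 tpr2495.df)))) (.node (.node (.node (.leaf (.bwd 184 46 tpr1765.df)) (.leaf (.fwd 230 39 tpr2123.df))) (.leaf (.fwd 269 43 tpr2125.df))) (.node (.node (.leaf (.fwd 312 38 tpr2040.df)) (.leaf (.bwd 350 31 tpr949.df))) (.leaf (.fwd 381 28 tpr990.df))))) (.node (.node (.node (.node (.leaf (.bwd 409 44 tpr2260.df)) (.leaf (.fwd 453 35 tpr541.df))) (.node (.leaf (.fwd 488 30 tpr577.df)) (.leaf (.fwd 518 39 tpr1001.df))))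 (.node (.node (.leaf (.fwd 557 29 tpr2486.df)) (.leaf (.bwd 586 39 tpr2532.df))) (.leaf (.bwd 625 49 tpr1647.df)))) (.node (.node (.node (.leaf (.fwd 674 34 tpr2512.df)) (.leaf (.fwd 708 40 tpr2005.df))) (.leaf (.fwd 748 33 tpr2501.df))) (.node (.node (.leaf (.bwd 781 50 tpr2489.df)) (.leaf (.bwd 831 28 tpr627.df))) (.leaf (.bwd 859 35 tpr2229.df)))))) (.node (.node (.node (.node (.node (.leaf (.bwd 894 35 tpr2490.df)) (.leaf (.bwd 929 42 tpr2507.df))) (.node (.leaf (.bwd 971 28 tpr2113.df)) (.leaf (.fwd 999 33 tpr2513.df)))) (.node (.node (.leaf (.fwd 1032 34 tpr575.df)) (.leaf (.fwd 1066 33 tpr1099.df))) (.leaf (.fwd 1099 31 tpr2130.df)))) (.node (.node (.node (.leaf (.bwd 1130 35 tpr2666.df)) (.leaf (.bwd 1165 22 tpr2227.df))) (.leaf (.bwd 1187 44 tpr2189.df))) (.node (.node (.leaf (.fwd 1231 51 tpr2161.df)) (.leaf (.bwd 1282 40 tpr2546.df))) (.leaf (.bwd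 1322 38 tpr2510.df))))) (.node (.node (.node (.node (.leaf (.bwd 1360 29 tpr2523.df)) (.leaf (.bwd 1389 51 tpr2525.df))) (.node (.leaf (.fwd 1440 34 tpr2013.df)) (.leaf (.bwd 1474 32 tpr2545.df)))) (.node (.node (.leaf (.fwd 1506 44 tpr1747.df)) (.leaf (.fwd 1550 32 tpr2528.df))) (.leaf (.fwd 1582 51 tpr2505.df)))) (.node (.node (.node (.leaf (.bwd 1633 42 tpr2542.df)) (.leaf (.fwd 1675 29 tpr2225.df))) (.leaf (.fwd 1704 28 tpr721.df))) (.node (.node (.leaf (.bwd 1732 34 tpr619.df)) (.leaf (.fwd 1766 31 tpr2499.df))) (.leaf (.bwd 1797 44 tpr2506.df))))))) (.node (.node (.node (.node (.node (.node (.leaf (.bwd 1841 25 tpr51.df)) (.leaf (.fwd 1866 37 tpr2164.df))) (.node (.leaf (.bwd 1903 51 tpr2226.df)) (.leaf (.fwd 1954 27 tpr2641.df)))) (.node (.node (.leaf (.fwd 1981 45 tpr2688.df)) (.leaf (.fwd 2026 33 tpr2154.df))) (.leaf (.fwd 2059 47 tpr2196.df)))) (.node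 (.node (.node (.leaf (.fwd 2106 29 tpr9.df)) (.leaf (.bwd 2135 23 tpr780.df))) (.leaf (.fwd 2158 42 tpr2217.df))) (.node (.node (.leaf (.fwd 2200 45 tpr2503.df)) (.leaf (.fwd 2245 32 tpr2598.df))) (.leaf (.fwd 2277 28 tpr2112.df))))) (.node (.node (.node (.node (.leaf (.bwd 2305 52 tpr814.df)) (.leaf (.bwd 2357 35 tpr2537.df))) (.node (.leaf (.fwd 2392 53 tpr815.df)) (.leaf (.bwd 2445 35 tpr485.df)))) (.node (.node (.leaf (.fwd 2480 35 tpr2244.df)) (.leaf (.fwd 2515 58 tpr2230.df))) (.leaf (.bwd 2573 39 tpr701.df)))) (.node (.node (.node (.leaf (.bwd 2612 44 tpr466.df)) (.leaf (.fwd 2656 35 tpr259.df))) (.leaf (.bwd 2691 27 tpr82.df))) (.node (.node (.leaf (.fwd 2718 27 tpr2496.df)) (.leaf (.bwd 2745 31 tpr198.df))) (.leaf (.fwd 2776 23 tpr780.df)))))) (.node (.node (.node (.node (.node (.leaf (.bwd 2799 23 tpr1255.df)) (.leaf (.bwd 2822 30 tpr2167.df))) (.node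 (.leaf (.bwd 2852 22 tpr982.df)) (.leaf (.bwd 2874 37 tpr555.df)))) (.node (.node (.leaf (.fwd 2911 39 tpr636.df)) (.leaf (.bwd 2950 39 tpr210.df))) (.leaf (.bwd 2989 15 tpr419.df)))) (.node (.node (.node (.leaf (.fwd 3004 39 tpr615.df)) (.leaf (.fwd 3043 54 tpr1193.df))) (.leaf (.fwd 3097 22 tpr504.df))) (.node (.node (.leaf (.fwd 3119 27 tpr499.df)) (.leaf (.fwd 3146 19 tpr33.df))) (.leaf (.bwd 3165 23 tpr605.df))))) (.node (.node (.node (.node (.leaf (.fwd 3188 30 tpr2488.df)) (.leaf (.bwd 3218 16 tpr168.df))) (.leaf (.bwd 3234 29 tpr2163.df))) (.node (.node (.leaf (.fwd 3263 25 tpr10.df)) (.leaf (.fwd 3288 44 tpr2242.df))) (.leaf (.bwd 3332 28 tpr507.df)))) (.node (.node (.node (.leaf (.bwd 3360 28 tpr2492.df)) (.leaf (.bwd 3388 39 tpr1653.df))) (.leaf (.bwd 3427 62 tpr1754.df))) (.node (.node (.leaf (.fwd 3489 22 tpr239.df)) (.leaf (.bwd 3511 33 tpr1215.df)))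 (.leaf (.bwd 3544 25 tpr1733.df)))))))) (.node (.node (.node (.node (.node (.node (.node (.leaf (.bwd 3569 39 tpr1112.df)) (.leaf (.fwd 3608 31 tpr2149.df))) (.node (.leaf (.fwd 3639 22 tpr953.df)) (.leaf (.fwd 3661 36 tpr2208.df)))) (.node (.node (.leaf (.bwd 3697 37 tpr2334.df)) (.leaf (.bwd 3734 29 tpr656.df))) (.leaf (.bwd 3763 38 tpr1767.df)))) (.node (.node (.node (.leaf (.bwd 3801 59 tpr2526.df)) (.leaf (.fwd 3860 32 tpr518.df))) (.leaf (.fwd 3892 31 tpr167.df))) (.node (.node (.leaf (.fwd 3923 35 tpr1028.df)) (.leaf (.fwd 3958 13 tpr11.df))) (.leaf (.bwd 3971 33 tpr680.df))))) (.node (.node (.node (.node (.leaf (.bwd 4004 30 tpr744.df)) (.leaf (.fwd 4034 50 tpr2206.df))) (.node (.leaf (.bwd 4084 23 tpr508.df)) (.leaf (.fwd 4107 32 tpr1065.df)))) (.node (.node (.leaf (.fwd 4139 22 tpr581.df)) (.leaf (.fwd 4161 25 tpr1257.df))) (.leaf (.fwd 4186 49 tpr2137.df))))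 (.node (.node (.node (.leaf (.fwd 4235 48 tpr2114.df)) (.leaf (.bwd 4283 20 tpr216.df))) (.leaf (.fwd 4303 27 tpr1247.df))) (.node (.node (.leaf (.bwd 4330 23 tpr456.df)) (.leaf (.bwd 4353 26 tpr2290.df))) (.leaf (.bwd 4379 38 tpr2116.df)))))) (.node (.node (.node (.node (.node (.leaf (.fwd 4417 30 tpr1547.df)) (.leaf (.fwd 4447 28 tpr477.df))) (.node (.leaf (.bwd 4475 35 tpr2262.df)) (.leaf (.bwd 4510 39 tpr479.df)))) (.node (.node (.leaf (.bwd 4549 24 tpr454.df)) (.leaf (.bwd 4573 25 tpr1311.df))) (.leaf (.bwd 4598 35 tpr1313.df)))) (.node (.node (.node (.leaf (.bwd 4633 34 tpr1764.df)) (.leaf (.fwd 4667 43 tpr2491.df))) (.leaf (.bwd 4710 33 tpr2171.df))) (.node (.node (.leaf (.fwd 4743 37 tpr555.df)) (.leaf (.fwd 4780 35 tpr2131.df))) (.leaf (.fwd 4815 55 tpr2187.df))))) (.node (.node (.node (.node (.leaf (.bwd 4870 31 tpr2150.df)) (.leaf (.bwd 4901 27 tpr506.df)))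 (.leaf (.bwd 4928 38 tpr2231.df))) (.node (.node (.leaf (.bwd 4966 35 tpr2166.df)) (.leaf (.bwd 5001 60 tpr2493.df))) (.leaf (.fwd 5061 26 tpr360.df)))) (.node (.node (.node (.leaf (.bwd 5087 26 tpr2682.df)) (.leaf (.bwd 5113 46 tpr2153.df))) (.leaf (.fwd 5159 30 tpr2599.df))) (.node (.node (.leaf (.bwd 5189 37 tpr2239.df)) (.leaf (.fwd 5226 30 tpr997.df))) (.leaf (.fwd 5256 29 tpr2516.df))))))) (.node (.node (.node (.node (.node (.node (.leaf (.fwd 5285 34 tpr2504.df)) (.leaf (.bwd 5319 49 tpr2133.df))) (.node (.leaf (.fwd 5368 36 tpr2509.df)) (.leaf (.bwd 5404 42 tpr2543.df)))) (.node (.node (.leaf (.fwd 5446 41 tpr2214.df)) (.leaf (.bwd 5487 42 tpr1138.df))) (.leaf (.fwd 5529 35 tpr2215.df)))) (.node (.node (.node (.leaf (.bwd 5564 48 tpr2177.df)) (.leaf (.bwd 5612 45 tpr596.df))) (.leaf (.fwd 5657 39 tpr2529.df))) (.node (.node (.leaf (.fwd 5696 29 tpr2269.df))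 (.leaf (.fwd 5725 41 tpr2524.df))) (.leaf (.fwd 5766 33 tpr2351.df))))) (.node (.node (.node (.node (.leaf (.bwd 5799 36 tpr2511.df)) (.leaf (.bwd 5835 33 tpr1664.df))) (.node (.leaf (.fwd 5868 36 tpr2278.df)) (.leaf (.bwd 5904 34 tpr2259.df)))) (.node (.node (.leaf (.fwd 5938 34 tpr2597.df)) (.leaf (.fwd 5972 28 tpr2126.df))) (.leaf (.fwd 6000 61 tpr1736.df)))) (.node (.node (.node (.leaf (.fwd 6061 38 tpr2252.df)) (.leaf (.fwd 6099 32 tpr1692.df))) (.leaf (.fwd 6131 33 tpr2819.df))) (.node (.node (.leaf (.bwd 6164 31 tpr2673.df)) (.leaf (.fwd 6195 37 tpr2111.df))) (.leaf (.fwd 6232 34 tpr2279.df)))))) (.node (.node (.node (.node (.node (.leaf (.bwd 6266 37 tpr583.df)) (.leaf (.bwd 6303 22 tpr239.df))) (.node (.leaf (.bwd 6325 31 tpr527.df)) (.leaf (.bwd 6356 44 tpr617.df)))) (.node (.node (.leaf (.fwd 6400 32 tpr294.df)) (.leaf (.fwd 6432 21 tpr2590.df)))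 (.leaf (.bwd 6453 36 tpr683.df)))) (.node (.node (.node (.leaf (.fwd 6489 31 tpr2498.df)) (.leaf (.bwd 6520 37 tpr2497.df))) (.leaf (.fwd 6557 30 tpr2588.df))) (.node (.node (.leaf (.bwd 6587 33 tpr2356.df)) (.leaf (.fwd 6620 45 tpr2544.df))) (.leaf (.bwd 6665 32 tpr1051.df))))) (.node (.node (.node (.node (.leaf (.bwd 6697 39 tpr1900.df)) (.leaf (.fwd 6736 35 tpr2689.df))) (.leaf (.bwd 6771 25 tpr2696.df))) (.node (.node (.leaf (.bwd 6796 40 tpr2683.df)) (.leaf (.fwd 6836 58 tpr1143.df))) (.leaf (.fwd 6894 32 tpr113.df)))) (.node (.node (.node (.leaf (.fwd 6926 22 tpr2487.df)) (.leaf (.bwd 6948 40 tpr2178.df))) (.leaf (.bwd 6988 29 tpr2500.df))) (.node (.node (.leaf (.bwd 7017 29 tpr582.df)) (.leaf (.bwd 7046 32 tpr247.df))) (.leaf (.fwd 7078 27 tpr2190.df)))))))))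

theorem iiNFzByAzA2A2E2A3H2ByAzIzA2H3AyB2EyAzAzF_c : iiNFzByAzA2A2E2A3H2ByAzIzA2H3AyB2EyAzAzF.all (itB (ng 62 nnNFzByAzA2A2E2A3H2ByAzIzA2H3AyB2EyAzAzF)) = true := by decide +kernel
theorem nbNFzByAzA2A2E2A3H2ByAzIzA2H3AyB2EyAzAzF : nbB 62 7167 nnNFzByAzA2A2E2A3H2ByAzIzA2H3AyB2EyAzAzF = true := by decide +kernel
theorem topNFzByAzA2A2E2A3H2ByAzIzA2H3AyB2EyAzAzF : topY 7167 ttNFzByAzA2A2E2A3H2ByAzIzA2H3AyB2EyAzAzF ceNFzByAzA2A2E2A3H2ByAzIzA2H3AyB2EyAzAzF xNFzByAzA2A2E2A3H2ByAzIzA2H3AyB2EyAzAzF iiNFzByAzA2A2E2A3H2ByAzIzA2H3AyB2EyAzAzF = true := by decide +kernel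

end MPb6R
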