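import Pool.Agent.Lib.MP_b6d339_lc.Cw3.YFzByAzA2AyE2A3H3AyB2EyAzF
import Pool.Agent.Lib.MP_b6d339_lc.Cw3.XL
import Pool.Agent.Lib.MP_b6d339_lc.Cw3.T0
import Pool.Agent.Lib.MP_b6d339_lc.Cw3.T1
import Pool.Agent.Lib.MP_b6d339_lc.Cw3.T10
import Pool.Agent.Lib.MP_b6d339_lc.Cw3.T11
import Pool.Agent.Lib.MP_b6d339_lc.Cw3.T12
import Pool.Agent.Lib.MP_b6d339_lc.Cw3.T13
import Pool.Agent.Lib.MP_b6d339_lc.Cw3.T14
import Pool.Agent.Lib.MP_b6d339_lc.Cw3.T15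
import Pool.Agent.Lib.MP_b6d339_lc.Cw3.T16
import Pool.Agent.Lib.MP_b6d339_lc.Cw3.T19
import Pool.Agent.Lib.MP_b6d339_lc.Cw3.T2
import Pool.Agent.Lib.MP_b6d339_lc.Cw3.T20
import Pool.Agent.Lib.MP_b6d339_lc.Cw3.T21
import Pool.Agent.Lib.MP_b6d339_lc.Cw3.T22
import Pool.Agent.Lib.MP_b6d339_lc.Cw3.T23
import Pool.Agent.Lib.MP_b6d339_lc.Cw3.T24
import Pool.Agent.Lib.MP_b6d339_lc.Cw3.T25
import Pool.Agent.Lib.MP_b6d339_lc.Cw3.T26
import Pool.Agent.Lib.MP_b6d339_lc.Cw3.T27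
import Pool.Agent.Lib.MP_b6d339_lc.Cw3.T28
import Pool.Agent.Lib.MP_b6d339_lc.Cw3.T29
import Pool.Agent.Lib.MP_b6d339_lc.Cw3.T4
import Pool.Agent.Lib.MP_b6d339_lc.Cw3.T5
import Pool.Agent.Lib.MP_b6d339_lc.Cw3.T6
import Pool.Agent.Lib.MP_b6d339_lc.Cw3.T7
import Pool.Agent.Lib.MP_b6d339_lc.Cw3.T8
import Pool.Agent.Lib.MP_b6d339_lc.Cw3.T9

/-!
# Erdős 592, three levels: items
-/

namespace MPb6R

open MPb6P

noncomputable def iiNFzByAzA2AyE2A3H3AyB2EyAzF : BT Itm := (.node (.node (.node (.node (.node (.node (.node (.node (.leaf (.bwd 0 27 tpr499.df)) (.leaf (.bwd 27 23 tpr5.df))) (.leaf (.fwd 50 27 tpr979.df))) (.node (.leaf (.bwd 77 24 tpr789.df)) (.leaf (.fwd 101 39 tpr636.df)))) (.node (.node (.leaf (.fwd 140 35 tpr1937.df)) (.leaf (.bwd 175 37 tpr2334.df))) (.node (.leaf (.bwd 212 27 tpr82.df)) (.leaf (.fwd 239 37 tpr1570.df))))) (.node (.node (.node (.node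 (.leaf (.fwd 276 22 tpr504.df)) (.leaf (.bwd 298 38 tpr2344.df))) (.leaf (.fwd 336 27 tpr1247.df))) (.node (.leaf (.fwd 363 17 tpr1913.df)) (.leaf (.bwd 380 20 tpr48.df)))) (.node (.node (.leaf (.bwd 400 49 tpr1647.df)) (.leaf (.fwd 449 38 tpr1542.df))) (.node (.leaf (.fwd 487 36 tpr2157.df)) (.leaf (.bwd 523 42 tpr2337.df)))))) (.node (.node (.node (.node (.node (.leaf (.bwd 565 29 tpr618.df)) (.leaf (.bwd 594 41 tpr2097.df))) (.leaf (.bwd 635 23 tpr559.df))) (.node (.leaf (.bwd 658 46 tpr1765.df)) (.leaf (.fwd 704 39 tpr2123.df)))) (.node (.node (.leaf (.bwd 743 39 tpr2335.df)) (.leaf (.fwd 782 44 tpr2151.df))) (.node (.leaf (.bwd 826 22 tpr982.df)) (.leaf (.bwd 848 39 tpr210.df))))) (.node (.node (.node (.node (.leaf (.bwd 887 44 tpr2189.df)) (.leaf (.bwd 931 52 tpr814.df))) (.leaf (.bwd 983 39 tpr2349.df))) (.node (.leaf (.bwd 1022 30 tpr2167.df)) (.leaf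 (.fwd 1052 30 tpr2324.df)))) (.node (.node (.leaf (.bwd 1082 23 tpr12.df)) (.leaf (.fwd 1105 44 tpr2124.df))) (.node (.leaf (.bwd 1149 38 tpr2343.df)) (.leaf (.fwd 1187 31 tpr576.df))))))) (.node (.node (.node (.node (.node (.node (.leaf (.bwd 1218 33 tpr2171.df)) (.leaf (.bwd 1251 37 tpr2239.df))) (.leaf (.bwd 1288 36 tpr2144.df))) (.node (.leaf (.bwd 1324 35 tpr574.df)) (.leaf (.bwd 1359 32 tpr2122.df)))) (.node (.node (.leaf (.fwd 1391 25 tpr2079.df)) (.leaf (.fwd 1416 29 tpr2120.df))) (.node (.leaf (.fwd 1445 28 tpr588.df)) (.leaf (.fwd 1473 31 tpr2165.df))))) (.node (.node (.node (.node (.leaf (.fwd 1504 39 tpr2339.df)) (.leaf (.bwd 1543 24 tpr810.df))) (.leaf (.fwd 1567 35 tpr2215.df))) (.node (.leaf (.bwd 1602 42 tpr2329.df)) (.leaf (.bwd 1644 31 tpr2256.df)))) (.node (.node (.leaf (.bwd 1675 29 tpr641.df)) (.leaf (.fwd 1704 23 tpr1562.df))) (.node (.leaf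 (.bwd 1727 22 tpr1870.df)) (.leaf (.fwd 1749 60 tpr2326.df)))))) (.node (.node (.node (.node (.node (.leaf (.bwd 1809 40 tpr966.df)) (.leaf (.bwd 1849 26 tpr2327.df))) (.leaf (.bwd 1875 37 tpr2395.df))) (.node (.leaf (.bwd 1912 35 tpr568.df)) (.leaf (.bwd 1947 20 tpr103.df)))) (.node (.node (.leaf (.fwd 1967 54 tpr1193.df)) (.leaf (.bwd 2021 22 tpr239.df))) (.node (.leaf (.bwd 2043 39 tpr569.df)) (.leaf (.bwd 2082 31 tpr1532.df))))) (.node (.node (.node (.leaf (.bwd 2113 37 tpr555.df)) (.leaf (.bwd 2150 24 tpr1681.df))) (.node (.leaf (.bwd 2174 32 tpr1633.df)) (.leaf (.bwd 2206 33 tpr680.df)))) (.node (.node (.leaf (.bwd 2239 34 tpr619.df)) (.leaf (.bwd 2273 44 tpr1866.df))) (.node (.leaf (.bwd 2317 44 tpr466.df)) (.leaf (.bwd 2361 25 tpr51.df)))))))) (.node (.node (.node (.node (.node (.node (.node (.leaf (.fwd 2386 22 tpr959.df)) (.leaf (.bwd 2408 34 tpr54.df)))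 (.leaf (.bwd 2442 29 tpr2163.df))) (.node (.leaf (.fwd 2471 31 tpr2175.df)) (.leaf (.bwd 2502 23 tpr605.df)))) (.node (.node (.leaf (.fwd 2525 32 tpr113.df)) (.leaf (.fwd 2557 22 tpr581.df))) (.node (.leaf (.fwd 2579 39 tpr2135.df)) (.leaf (.fwd 2618 40 tpr1590.df))))) (.node (.node (.node (.node (.leaf (.bwd 2658 44 tpr2238.df)) (.leaf (.bwd 2702 31 tpr198.df))) (.leaf (.bwd 2733 23 tpr780.df))) (.node (.leaf (.bwd 2756 34 tpr1764.df)) (.leaf (.bwd 2790 22 tpr191.df)))) (.node (.node (.leaf (.fwd 2812 33 tpr2154.df)) (.leaf (.fwd 2845 32 tpr518.df))) (.node (.leaf (.bwd 2877 28 tpr2113.df)) (.leaf (.bwd 2905 24 tpr2107.df)))))) (.node (.node (.node (.node (.node (.leaf (.fwd 2929 35 tpr602.df)) (.leaf (.fwd 2964 37 tpr1861.df))) (.leaf (.bwd 3001 32 tpr518.df))) (.node (.leaf (.bwd 3033 38 tpr2328.df)) (.leaf (.bwd 3071 61 tpr2332.df)))) (.node (.node (.leaf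 (.bwd 3132 60 tpr2350.df)) (.leaf (.fwd 3192 24 tpr2147.df))) (.node (.leaf (.bwd 3216 25 tpr2148.df)) (.leaf (.bwd 3241 39 tpr1112.df))))) (.node (.node (.node (.node (.leaf (.fwd 3280 37 tpr2164.df)) (.leaf (.bwd 3317 32 tpr2094.df))) (.leaf (.bwd 3349 38 tpr2249.df))) (.node (.leaf (.bwd 3387 46 tpr324.df)) (.leaf (.fwd 3433 42 tpr2217.df)))) (.node (.node (.leaf (.bwd 3475 43 tpr1573.df)) (.leaf (.bwd 3518 32 tpr2277.df))) (.node (.leaf (.fwd 3550 43 tpr2125.df)) (.leaf (.bwd 3593 32 tpr1051.df))))))) (.node (.node (.node (.node (.node (.node (.leaf (.fwd 3625 22 tpr590.df)) (.leaf (.fwd 3647 35 tpr2131.df))) (.leaf (.fwd 3682 47 tpr2196.df))) (.node (.leaf (.bwd 3729 44 tpr2253.df)) (.leaf (.bwd 3773 35 tpr1904.df)))) (.node (.node (.leaf (.bwd 3808 42 tpr1912.df)) (.leaf (.bwd 3850 35 tpr2166.df))) (.node (.leaf (.bwd 3885 48 tpr2177.df)) (.leaf (.fwd 3933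 28 tpr2126.df))))) (.node (.node (.node (.node (.leaf (.fwd 3961 21 tpr90.df)) (.leaf (.fwd 3982 36 tpr453.df))) (.leaf (.bwd 4018 23 tpr1255.df))) (.node (.leaf (.bwd 4041 32 tpr17.df)) (.leaf (.fwd 4073 35 tpr595.df)))) (.node (.node (.leaf (.fwd 4108 39 tpr615.df)) (.leaf (.fwd 4147 34 tpr575.df))) (.node (.leaf (.fwd 4181 36 tpr1194.df)) (.leaf (.bwd 4217 39 tpr1900.df)))))) (.node (.node (.node (.node (.node (.leaf (.fwd 4256 35 tpr2248.df)) (.leaf (.fwd 4291 21 tpr629.df))) (.leaf (.fwd 4312 34 tpr1204.df))) (.node (.leaf (.fwd 4346 58 tpr1143.df)) (.leaf (.fwd 4404 39 tpr1001.df)))) (.node (.node (.leaf (.fwd 4443 42 tpr2233.df)) (.leaf (.bwd 4485 49 tpr2133.df))) (.node (.leaf (.fwd 4534 39 tpr2283.df)) (.leaf (.bwd 4573 28 tpr1915.df))))) (.node (.node (.node (.leaf (.fwd 4601 33 tpr1943.df)) (.leaf (.fwd 4634 34 tpr2338.df))) (.node (.leaf (.fwd 4668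 27 tpr1343.df)) (.leaf (.fwd 4695 20 tpr505.df)))) (.node (.node (.leaf (.bwd 4715 34 tpr614.df)) (.leaf (.bwd 4749 36 tpr1771.df))) (.node (.leaf (.fwd 4785 32 tpr2243.df)) (.leaf (.fwd 4817 27 tpr2353.df)))))))))

theorem iiNFzByAzA2AyE2A3H3AyB2EyAzF_c : iiNFzByAzA2AyE2A3H3AyB2EyAzF.all (itB (ng 61 nnNFzByAzA2AyE2A3H3AyB2EyAzF)) = true := by decide +kernel
theorem nbNFzByAzA2AyE2A3H3AyB2EyAzF : nbB 61 4905 nnNFzByAzA2AyE2A3H3AyB2EyAzF = true := by decide +kernel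
theorem topNFzByAzA2AyE2A3H3AyB2EyAzF : topY 4905 ttNFzByAzA2AyE2A3H3AyB2EyAzF ceNFzByAzA2AyE2A3H3AyB2EyAzF xNFzByAzA2AyE2A3H3AyB2EyAzF iiNFzByAzA2AyE2A3H3AyB2EyAzF = true := by decide +kernel

end MPb6R
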