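import Pool.Agent.Lib.MP_b6d339_lc.Cw3.YFzByAzA2A2E2A3H2ByAzIzA2H3AyB2EyAzAyBzF

/-!
# Erdős 592, three levels: checks of claims
-/

namespace MPb6R

open MPb6P

theorem zoNFzByAzA2A2E2A3H2ByAzIzA2H3AyB2EyAzAyBzF_3 : cyO 62 8241 nnNFzByAzA2A2E2A3H2ByAzIzA2H3AyB2EyAzAyBzF ttNFzByAzA2A2E2A3H2ByAzIzA2H3AyB2EyAzAyBzF ceNFzByAzA2A2E2A3H2ByAzIzA2H3AyB2EyAzAyBzF xNFzByAzA2A2E2A3H2ByAzIzA2H3AyB2EyAzAyBzF coNFzByAzA2A2E2A3H2ByAzIzA2H3AyB2EyAzAyBzF_3 = true := by decide +kernel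

end MPb6R
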