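import Pool.Agent.Lib.MP_b6d339_lc.Cw3.JFzAzE2A3H3AyB2EzF
import Pool.Agent.Lib.MP_b6d339_lc.Cw3.JFzByAzA2A2A3H2A2AzIzA2H3AyB2EyAzF
import Pool.Agent.Lib.MP_b6d339_lc.Cw3.JFzByAzA2A2A3H2ByAzIzA2H3AyB2EyAzF
import Pool.Agent.Lib.MP_b6d339_lc.Cw3.JFzByAzA2A2E2A3H2ByAzIzA2H3AyB2EyAzAyBzF
import Pool.Agent.Lib.MP_b6d339_lc.Cw3.JFzByAzA2A2E2A3H2ByAzIzA2H3AyB2EyAzAzF
import Pool.Agent.Lib.MP_b6d339_lc.Cw3.JFzByAzA2A3H3AyB2EzF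
import Pool.Agent.Lib.MP_b6d339_lc.Cw3.JFzByAzA2AyE2A3H3AyB2EyAzF
import Pool.Agent.Lib.MP_b6d339_lc.Cw3.S1
import Pool.Agent.Lib.MP_b6d339_lc.Cw3.T0
import Pool.Agent.Lib.MP_b6d339_lc.Cw3.T1
import Pool.Agent.Lib.MP_b6d339_lc.Cw3.T10
import Pool.Agent.Lib.MP_b6d339_lc.Cw3.T11
import Pool.Agent.Lib.MP_b6d339_lc.Cw3.T12
import Pool.Agent.Lib.MP_b6d339_lc.Cw3.T13
import Pool.Agent.Lib.MP_b6d339_lc.Cw3.T14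
import Pool.Agent.Lib.MP_b6d339_lc.Cw3.T15
import Pool.Agent.Lib.MP_b6d339_lc.Cw3.T16
import Pool.Agent.Lib.MP_b6d339_lc.Cw3.T17
import Pool.Agent.Lib.MP_b6d339_lc.Cw3.T18
import Pool.Agent.Lib.MP_b6d339_lc.Cw3.T19
import Pool.Agent.Lib.MP_b6d339_lc.Cw3.T2
import Pool.Agent.Lib.MP_b6d339_lc.Cw3.T20
import Pool.Agent.Lib.MP_b6d339_lc.Cw3.T21
import Pool.Agent.Lib.MP_b6d339_lc.Cw3.T22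
import Pool.Agent.Lib.MP_b6d339_lc.Cw3.T23
import Pool.Agent.Lib.MP_b6d339_lc.Cw3.T24
import Pool.Agent.Lib.MP_b6d339_lc.Cw3.T25
import Pool.Agent.Lib.MP_b6d339_lc.Cw3.T26
import Pool.Agent.Lib.MP_b6d339_lc.Cw3.T27
import Pool.Agent.Lib.MP_b6d339_lc.Cw3.T28
import Pool.Agent.Lib.MP_b6d339_lc.Cw3.T29
import Pool.Agent.Lib.MP_b6d339_lc.Cw3.T3
import Pool.Agent.Lib.MP_b6d339_lc.Cw3.T30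
import Pool.Agent.Lib.MP_b6d339_lc.Cw3.T31
import Pool.Agent.Lib.MP_b6d339_lc.Cw3.T32
import Pool.Agent.Lib.MP_b6d339_lc.Cw3.T33
import Pool.Agent.Lib.MP_b6d339_lc.Cw3.T34
import Pool.Agent.Lib.MP_b6d339_lc.Cw3.T35
import Pool.Agent.Lib.MP_b6d339_lc.Cw3.T4
import Pool.Agent.Lib.MP_b6d339_lc.Cw3.T5
import Pool.Agent.Lib.MP_b6d339_lc.Cw3.T6
import Pool.Agent.Lib.MP_b6d339_lc.Cw3.T7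
import Pool.Agent.Lib.MP_b6d339_lc.Cw3.T8
import Pool.Agent.Lib.MP_b6d339_lc.Cw3.T9
import Pool.Agent.Lib.MP_b6d339_lc.Cw3.XL
import Pool.Agent.Lib.MP_b6d339_lc.Cw3.ZFzAzE2A3H3AyB2EzF_0
import Pool.Agent.Lib.MP_b6d339_lc.Cw3.ZFzAzE2A3H3AyB2EzF_1
import Pool.Agent.Lib.MP_b6d339_lc.Cw3.ZFzByAzA2A2A3H2A2AzIzA2H3AyB2EyAzF_0
import Pool.Agent.Lib.MP_b6d339_lc.Cw3.ZFzByAzA2A2A3H2ByAzIzA2H3AyB2EyAzF_0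
import Pool.Agent.Lib.MP_b6d339_lc.Cw3.ZFzByAzA2A2E2A3H2ByAzIzA2H3AyB2EyAzAyBzF_0
import Pool.Agent.Lib.MP_b6d339_lc.Cw3.ZFzByAzA2A2E2A3H2ByAzIzA2H3AyB2EyAzAyBzF_1
import Pool.Agent.Lib.MP_b6d339_lc.Cw3.ZFzByAzA2A2E2A3H2ByAzIzA2H3AyB2EyAzAyBzF_10
import Pool.Agent.Lib.MP_b6d339_lc.Cw3.ZFzByAzA2A2E2A3H2ByAzIzA2H3AyB2EyAzAyBzF_11
import Pool.Agent.Lib.MP_b6d339_lc.Cw3.ZFzByAzA2A2E2A3H2ByAzIzA2H3AyB2EyAzAyBzF_12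
import Pool.Agent.Lib.MP_b6d339_lc.Cw3.ZFzByAzA2A2E2A3H2ByAzIzA2H3AyB2EyAzAyBzF_13
import Pool.Agent.Lib.MP_b6d339_lc.Cw3.ZFzByAzA2A2E2A3H2ByAzIzA2H3AyB2EyAzAyBzF_14
import Pool.Agent.Lib.MP_b6d339_lc.Cw3.ZFzByAzA2A2E2A3H2ByAzIzA2H3AyB2EyAzAyBzF_15
import Pool.Agent.Lib.MP_b6d339_lc.Cw3.ZFzByAzA2A2E2A3H2ByAzIzA2H3AyB2EyAzAyBzF_16
import Pool.Agent.Lib.MP_b6d339_lc.Cw3.ZFzByAzA2A2E2A3H2ByAzIzA2H3AyB2EyAzAyBzF_2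
import Pool.Agent.Lib.MP_b6d339_lc.Cw3.ZFzByAzA2A2E2A3H2ByAzIzA2H3AyB2EyAzAyBzF_3
import Pool.Agent.Lib.MP_b6d339_lc.Cw3.ZFzByAzA2A2E2A3H2ByAzIzA2H3AyB2EyAzAyBzF_4
import Pool.Agent.Lib.MP_b6d339_lc.Cw3.ZFzByAzA2A2E2A3H2ByAzIzA2H3AyB2EyAzAyBzF_5
import Pool.Agent.Lib.MP_b6d339_lc.Cw3.ZFzByAzA2A2E2A3H2ByAzIzA2H3AyB2EyAzAyBzF_6
import Pool.Agent.Lib.MP_b6d339_lc.Cw3.ZFzByAzA2A2E2A3H2ByAzIzA2H3AyB2EyAzAyBzF_7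
import Pool.Agent.Lib.MP_b6d339_lc.Cw3.ZFzByAzA2A2E2A3H2ByAzIzA2H3AyB2EyAzAyBzF_8
import Pool.Agent.Lib.MP_b6d339_lc.Cw3.ZFzByAzA2A2E2A3H2ByAzIzA2H3AyB2EyAzAyBzF_9
import Pool.Agent.Lib.MP_b6d339_lc.Cw3.ZFzByAzA2A2E2A3H2ByAzIzA2H3AyB2EyAzAzF_0
import Pool.Agent.Lib.MP_b6d339_lc.Cw3.ZFzByAzA2A2E2A3H2ByAzIzA2H3AyB2EyAzAzF_1
import Pool.Agent.Lib.MP_b6d339_lc.Cw3.ZFzByAzA2A2E2A3H2ByAzIzA2H3AyB2EyAzAzF_2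
import Pool.Agent.Lib.MP_b6d339_lc.Cw3.ZFzByAzA2A2E2A3H2ByAzIzA2H3AyB2EyAzAzF_3
import Pool.Agent.Lib.MP_b6d339_lc.Cw3.ZFzByAzA2A2E2A3H2ByAzIzA2H3AyB2EyAzAzF_4
import Pool.Agent.Lib.MP_b6d339_lc.Cw3.ZFzByAzA2A2E2A3H2ByAzIzA2H3AyB2EyAzAzF_5
import Pool.Agent.Lib.MP_b6d339_lc.Cw3.ZFzByAzA2A2E2A3H2ByAzIzA2H3AyB2EyAzAzF_6
import Pool.Agent.Lib.MP_b6d339_lc.Cw3.ZFzByAzA2A3H3AyB2EzF_0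
import Pool.Agent.Lib.MP_b6d339_lc.Cw3.ZFzByAzA2A3H3AyB2EzF_1
import Pool.Agent.Lib.MP_b6d339_lc.Cw3.ZFzByAzA2A3H3AyB2EzF_2
import Pool.Agent.Lib.MP_b6d339_lc.Cw3.ZFzByAzA2A3H3AyB2EzF_3
import Pool.Agent.Lib.MP_b6d339_lc.Cw3.ZFzByAzA2A3H3AyB2EzF_4
import Pool.Agent.Lib.MP_b6d339_lc.Cw3.ZFzByAzA2AyE2A3H3AyB2EyAzF_0
import Pool.Agent.Lib.MP_b6d339_lc.Cw3.ZFzByAzA2AyE2A3H3AyB2EyAzF_1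
import Pool.Agent.Lib.MP_b6d339_lc.Cw3.ZFzByAzA2AyE2A3H3AyB2EyAzF_2
import Pool.Agent.Lib.MP_b6d339_lc.Pos.XTreeC
import Pool.Agent.Lib.MP_b6d339_lc.Pos.YQ

/-!
# Erdős 592, three levels: classes of words
-/

namespace MPb6R

open MPb6P

theorem iiNFzAzE2A3H3AyB2EzF_k : iiNFzAzE2A3H3AyB2EzF.Fa (Itm.ok 206) := (BT.Fa_mk (BT.Fa_mk (BT.Fa_mk (BT.Fa_mk (BT.Fa_mk (BT.Fa_mk (BT.Fa_mk (BT.Fa_mk (BT.Fa_leaf (P := Itm.ok 206) (iqb tpr5_c)) (BT.Fa_leaf (P := Itm.ok 206) (iqb tpr8_c))) (BT.Fa_leaf (P := Itm.ok 206) (iqb tpr168_c))) (BT.Fa_mk (BT.Fa_mk (BT.Fa_leaf (P := Itm.ok 206) (iqb tpr656_c)) (BT.Fa_leaf (P := Itm.ok 206) (iqb tpr780_c))) (BT.Fa_leaf (P := Itm.ok 206) (iqb tpr1532_c)))) (BT.Fa_mk (BT.Fa_mk (BT.Fa_mk (BT.Fa_leaf (P := Itm.ok 206)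 (iqf tpr518_c)) (BT.Fa_leaf (P := Itm.ok 206) (iqf tpr72_c))) (BT.Fa_leaf (P := Itm.ok 206) (iqb tpr591_c))) (BT.Fa_mk (BT.Fa_leaf (P := Itm.ok 206) (iqb tpr619_c)) (BT.Fa_leaf (P := Itm.ok 206) (iqf tpr506_c))))) (BT.Fa_mk (BT.Fa_mk (BT.Fa_mk (BT.Fa_mk (BT.Fa_leaf (P := Itm.ok 206) (iqf tpr508_c)) (BT.Fa_leaf (P := Itm.ok 206) (iqb tpr608_c))) (BT.Fa_leaf (P := Itm.ok 206) (iqf tpr606_c))) (BT.Fa_mk (BT.Fa_leaf (P := Itm.ok 206) (iqf tpr236_c)) (BT.Fa_leaf (P := Itm.ok 206) (iqb tpr500_c)))) (BT.Fa_mk (BT.Fa_mk (BT.Fa_mk (BT.Fa_leaf (P := Itm.ok 206) (iqf tpr203_c)) (BT.Fa_leaf (P := Itm.ok 206) (iqb tpr555_c))) (BT.Fa_leaf (P := Itm.ok 206) (iqf tpr1811_c))) (BT.Fa_mk (BT.Fa_leaf (P := Itm.ok 206) (iqb tpr620_c)) (BT.Fa_leaf (P := Itm.ok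 206) (iqb tpr520_c)))))) (BT.Fa_mk (BT.Fa_mk (BT.Fa_mk (BT.Fa_mk (BT.Fa_mk (BT.Fa_leaf (P := Itm.ok 206) (iqb tpr2381_c)) (BT.Fa_leaf (P := Itm.ok 206) (iqb tpr609_c))) (BT.Fa_leaf (P := Itm.ok 206) (iqf tpr48_c))) (BT.Fa_mk (BT.Fa_mk (BT.Fa_leaf (P := Itm.ok 206) (iqf tpr78_c)) (BT.Fa_leaf (P := Itm.ok 206) (iqf tpr585_c))) (BT.Fa_leaf (P := Itm.ok 206) (iqf tpr734_c)))) (BT.Fa_mk (BT.Fa_mk (BT.Fa_mk (BT.Fa_leaf (P := Itm.ok 206) (iqf tpr1619_c)) (BT.Fa_leaf (P := Itm.ok 206) (iqb tpr499_c))) (BT.Fa_leaf (P := Itm.ok 206) (iqb tpr593_c))) (BT.Fa_mk (BT.Fa_leaf (P := Itm.ok 206) (iqf tpr2079_c)) (BT.Fa_leaf (P := Itm.ok 206) (iqb tpr663_c))))) (BT.Fa_mk (BT.Fa_mk (BT.Fa_mk (BT.Fa_mk (BT.Fa_leaf (P := Itm.ok 206) (iqf tpr29_c)) (BT.Fa_leaf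 (P := Itm.ok 206) (iqb tpr82_c))) (BT.Fa_leaf (P := Itm.ok 206) (iqf tpr2147_c))) (BT.Fa_mk (BT.Fa_leaf (P := Itm.ok 206) (iqb tpr549_c)) (BT.Fa_leaf (P := Itm.ok 206) (iqb tpr537_c)))) (BT.Fa_mk (BT.Fa_mk (BT.Fa_mk (BT.Fa_leaf (P := Itm.ok 206) (iqb tpr642_c)) (BT.Fa_leaf (P := Itm.ok 206) (iqb tpr210_c))) (BT.Fa_leaf (P := Itm.ok 206) (iqb tpr103_c))) (BT.Fa_mk (BT.Fa_leaf (P := Itm.ok 206) (iqf tpr504_c)) (BT.Fa_leaf (P := Itm.ok 206) (iqb tpr618_c))))))) (BT.Fa_mk (BT.Fa_mk (BT.Fa_mk (BT.Fa_mk (BT.Fa_mk (BT.Fa_mk (BT.Fa_leaf (P := Itm.ok 206) (iqb tpr245_c)) (BT.Fa_leaf (P := Itm.ok 206) (iqf tpr1266_c))) (BT.Fa_leaf (P := Itm.ok 206) (iqb tpr637_c))) (BT.Fa_mk (BT.Fa_mk (BT.Fa_leaf (P := Itm.ok 206) (iqb tpr625_c)) (BT.Fa_leaf (P :=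 Itm.ok 206) (iqb tpr516_c))) (BT.Fa_leaf (P := Itm.ok 206) (iqb tpr1666_c)))) (BT.Fa_mk (BT.Fa_mk (BT.Fa_mk (BT.Fa_leaf (P := Itm.ok 206) (iqf tpr458_c)) (BT.Fa_leaf (P := Itm.ok 206) (iqb tpr1180_c))) (BT.Fa_leaf (P := Itm.ok 206) (iqf tpr644_c))) (BT.Fa_mk (BT.Fa_leaf (P := Itm.ok 206) (iqb tpr573_c)) (BT.Fa_leaf (P := Itm.ok 206) (iqb tpr562_c))))) (BT.Fa_mk (BT.Fa_mk (BT.Fa_mk (BT.Fa_mk (BT.Fa_leaf (P := Itm.ok 206) (iqb tpr721_c)) (BT.Fa_leaf (P := Itm.ok 206) (iqb tpr9_c))) (BT.Fa_leaf (P := Itm.ok 206) (iqf tpr461_c))) (BT.Fa_mk (BT.Fa_leaf (P := Itm.ok 206) (iqb tpr10_c)) (BT.Fa_leaf (P := Itm.ok 206) (iqf tpr1571_c)))) (BT.Fa_mk (BT.Fa_mk (BT.Fa_mk (BT.Fa_leaf (P := Itm.ok 206) (iqb tpr621_c)) (BT.Fa_leaf (P := Itm.ok 206) (iqf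 tpr82_c))) (BT.Fa_leaf (P := Itm.ok 206) (iqb tpr616_c))) (BT.Fa_mk (BT.Fa_leaf (P := Itm.ok 206) (iqb tpr22_c)) (BT.Fa_leaf (P := Itm.ok 206) (iqf tpr607_c)))))) (BT.Fa_mk (BT.Fa_mk (BT.Fa_mk (BT.Fa_mk (BT.Fa_mk (BT.Fa_leaf (P := Itm.ok 206) (iqb tpr503_c)) (BT.Fa_leaf (P := Itm.ok 206) (iqf tpr509_c))) (BT.Fa_leaf (P := Itm.ok 206) (iqf tpr507_c))) (BT.Fa_mk (BT.Fa_mk (BT.Fa_leaf (P := Itm.ok 206) (iqf tpr511_c)) (BT.Fa_leaf (P := Itm.ok 206) (iqb tpr203_c))) (BT.Fa_leaf (P := Itm.ok 206) (iqf tpr547_c)))) (BT.Fa_mk (BT.Fa_mk (BT.Fa_mk (BT.Fa_leaf (P := Itm.ok 206) (iqf tpr545_c)) (BT.Fa_leaf (P := Itm.ok 206) (iqf tpr629_c))) (BT.Fa_leaf (P := Itm.ok 206) (iqf tpr519_c))) (BT.Fa_mk (BT.Fa_leaf (P := Itm.ok 206) (iqf tpr589_c)) (BT.Fa_leaf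 (P := Itm.ok 206) (iqb tpr702_c))))) (BT.Fa_mk (BT.Fa_mk (BT.Fa_mk (BT.Fa_mk (BT.Fa_leaf (P := Itm.ok 206) (iqb tpr632_c)) (BT.Fa_leaf (P := Itm.ok 206) (iqb tpr51_c))) (BT.Fa_leaf (P := Itm.ok 206) (iqf tpr320_c))) (BT.Fa_mk (BT.Fa_leaf (P := Itm.ok 206) (iqb tpr316_c)) (BT.Fa_leaf (P := Itm.ok 206) (iqf tpr116_c)))) (BT.Fa_mk (BT.Fa_mk (BT.Fa_mk (BT.Fa_leaf (P := Itm.ok 206) (iqf tpr566_c)) (BT.Fa_leaf (P := Itm.ok 206) (iqb tpr559_c))) (BT.Fa_leaf (P := Itm.ok 206) (iqb tpr251_c))) (BT.Fa_mk (BT.Fa_leaf (P := Itm.ok 206) (iqf tpr1570_c)) (BT.Fa_leaf (P := Itm.ok 206) (iqb tpr501_c)))))))) (BT.Fa_mk (BT.Fa_mk (BT.Fa_mk (BT.Fa_mk (BT.Fa_mk (BT.Fa_mk (BT.Fa_mk (BT.Fa_leaf (P := Itm.ok 206) (iqf tpr323_c)) (BT.Fa_leaf (P := Itm.ok 206) (iqf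 tpr1583_c))) (BT.Fa_leaf (P := Itm.ok 206) (iqb tpr568_c))) (BT.Fa_mk (BT.Fa_mk (BT.Fa_leaf (P := Itm.ok 206) (iqf tpr2382_c)) (BT.Fa_leaf (P := Itm.ok 206) (iqf tpr1861_c))) (BT.Fa_leaf (P := Itm.ok 206) (iqb tpr1018_c)))) (BT.Fa_mk (BT.Fa_mk (BT.Fa_mk (BT.Fa_leaf (P := Itm.ok 206) (iqf tpr804_c)) (BT.Fa_leaf (P := Itm.ok 206) (iqf tpr314_c))) (BT.Fa_leaf (P := Itm.ok 206) (iqb tpr613_c))) (BT.Fa_mk (BT.Fa_leaf (P := Itm.ok 206) (iqf tpr1970_c)) (BT.Fa_leaf (P := Itm.ok 206) (iqf tpr510_c))))) (BT.Fa_mk (BT.Fa_mk (BT.Fa_mk (BT.Fa_mk (BT.Fa_leaf (P := Itm.ok 206) (iqf tpr513_c)) (BT.Fa_leaf (P := Itm.ok 206) (iqb tpr191_c))) (BT.Fa_leaf (P := Itm.ok 206) (iqf tpr682_c))) (BT.Fa_mk (BT.Fa_leaf (P := Itm.ok 206) (iqf tpr612_c)) (BT.Fa_leaf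 (P := Itm.ok 206) (iqb tpr239_c)))) (BT.Fa_mk (BT.Fa_mk (BT.Fa_mk (BT.Fa_leaf (P := Itm.ok 206) (iqb tpr548_c)) (BT.Fa_leaf (P := Itm.ok 206) (iqf tpr524_c))) (BT.Fa_leaf (P := Itm.ok 206) (iqf tpr247_c))) (BT.Fa_mk (BT.Fa_leaf (P := Itm.ok 206) (iqf tpr730_c)) (BT.Fa_leaf (P := Itm.ok 206) (iqf tpr1406_c)))))) (BT.Fa_mk (BT.Fa_mk (BT.Fa_mk (BT.Fa_mk (BT.Fa_mk (BT.Fa_leaf (P := Itm.ok 206) (iqf tpr44_c)) (BT.Fa_leaf (P := Itm.ok 206) (iqf tpr2384_c))) (BT.Fa_leaf (P := Itm.ok 206) (iqf tpr628_c))) (BT.Fa_mk (BT.Fa_mk (BT.Fa_leaf (P := Itm.ok 206) (iqb tpr1457_c)) (BT.Fa_leaf (P := Itm.ok 206) (iqb tpr515_c))) (BT.Fa_leaf (P := Itm.ok 206) (iqb tpr514_c)))) (BT.Fa_mk (BT.Fa_mk (BT.Fa_mk (BT.Fa_leaf (P := Itm.ok 206) (iqb tpr611_c)) (BT.Fa_leaf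 (P := Itm.ok 206) (iqf tpr636_c))) (BT.Fa_leaf (P := Itm.ok 206) (iqb tpr522_c))) (BT.Fa_mk (BT.Fa_leaf (P := Itm.ok 206) (iqf tpr588_c)) (BT.Fa_leaf (P := Itm.ok 206) (iqf tpr17_c))))) (BT.Fa_mk (BT.Fa_mk (BT.Fa_mk (BT.Fa_mk (BT.Fa_leaf (P := Itm.ok 206) (iqb tpr294_c)) (BT.Fa_leaf (P := Itm.ok 206) (iqb tpr576_c))) (BT.Fa_leaf (P := Itm.ok 206) (iqf tpr1908_c))) (BT.Fa_mk (BT.Fa_leaf (P := Itm.ok 206) (iqf tpr627_c)) (BT.Fa_leaf (P := Itm.ok 206) (iqb tpr584_c)))) (BT.Fa_mk (BT.Fa_mk (BT.Fa_mk (BT.Fa_leaf (P := Itm.ok 206) (iqb tpr151_c)) (BT.Fa_leaf (P := Itm.ok 206) (iqf tpr537_c))) (BT.Fa_leaf (P := Itm.ok 206) (iqf tpr1205_c))) (BT.Fa_mk (BT.Fa_leaf (P := Itm.ok 206) (iqb tpr553_c)) (BT.Fa_leaf (P := Itm.ok 206) (iqf tpr675_c)))))))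 (BT.Fa_mk (BT.Fa_mk (BT.Fa_mk (BT.Fa_mk (BT.Fa_mk (BT.Fa_mk (BT.Fa_leaf (P := Itm.ok 206) (iqb tpr989_c)) (BT.Fa_leaf (P := Itm.ok 206) (iqf tpr634_c))) (BT.Fa_leaf (P := Itm.ok 206) (iqb tpr622_c))) (BT.Fa_mk (BT.Fa_mk (BT.Fa_leaf (P := Itm.ok 206) (iqb tpr610_c)) (BT.Fa_leaf (P := Itm.ok 206) (iqf tpr1905_c))) (BT.Fa_leaf (P := Itm.ok 206) (iqb tpr1912_c)))) (BT.Fa_mk (BT.Fa_mk (BT.Fa_mk (BT.Fa_leaf (P := Itm.ok 206) (iqf tpr661_c)) (BT.Fa_leaf (P := Itm.ok 206) (iqb tpr1904_c))) (BT.Fa_leaf (P := Itm.ok 206) (iqb tpr527_c))) (BT.Fa_mk (BT.Fa_leaf (P := Itm.ok 206) (iqb tpr639_c)) (BT.Fa_leaf (P := Itm.ok 206) (iqb tpr664_c))))) (BT.Fa_mk (BT.Fa_mk (BT.Fa_mk (BT.Fa_mk (BT.Fa_leaf (P := Itm.ok 206) (iqb tpr666_c)) (BT.Fa_leaf (P := Itm.ok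 206) (iqf tpr1553_c))) (BT.Fa_leaf (P := Itm.ok 206) (iqb tpr2232_c))) (BT.Fa_mk (BT.Fa_leaf (P := Itm.ok 206) (iqf tpr1247_c)) (BT.Fa_leaf (P := Itm.ok 206) (iqf tpr602_c)))) (BT.Fa_mk (BT.Fa_mk (BT.Fa_mk (BT.Fa_leaf (P := Itm.ok 206) (iqb tpr1637_c)) (BT.Fa_leaf (P := Itm.ok 206) (iqb tpr1199_c))) (BT.Fa_leaf (P := Itm.ok 206) (iqf tpr703_c))) (BT.Fa_mk (BT.Fa_leaf (P := Itm.ok 206) (iqf tpr549_c)) (BT.Fa_leaf (P := Itm.ok 206) (iqf tpr667_c)))))) (BT.Fa_mk (BT.Fa_mk (BT.Fa_mk (BT.Fa_mk (BT.Fa_mk (BT.Fa_leaf (P := Itm.ok 206) (iqf tpr583_c)) (BT.Fa_leaf (P := Itm.ok 206) (iqf tpr592_c))) (BT.Fa_leaf (P := Itm.ok 206) (iqb tpr676_c))) (BT.Fa_mk (BT.Fa_leaf (P := Itm.ok 206) (iqb tpr521_c)) (BT.Fa_leaf (P := Itm.ok 206) (iqf tpr615_c))))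 (BT.Fa_mk (BT.Fa_mk (BT.Fa_mk (BT.Fa_leaf (P := Itm.ok 206) (iqb tpr523_c)) (BT.Fa_leaf (P := Itm.ok 206) (iqb tpr89_c))) (BT.Fa_leaf (P := Itm.ok 206) (iqf tpr906_c))) (BT.Fa_mk (BT.Fa_leaf (P := Itm.ok 206) (iqb tpr505_c)) (BT.Fa_leaf (P := Itm.ok 206) (iqb tpr681_c))))) (BT.Fa_mk (BT.Fa_mk (BT.Fa_mk (BT.Fa_mk (BT.Fa_leaf (P := Itm.ok 206) (iqf tpr590_c)) (BT.Fa_leaf (P := Itm.ok 206) (iqf tpr576_c))) (BT.Fa_leaf (P := Itm.ok 206) (iqb tpr1647_c))) (BT.Fa_mk (BT.Fa_leaf (P := Itm.ok 206) (iqf tpr556_c)) (BT.Fa_leaf (P := Itm.ok 206) (iqf tpr23_c)))) (BT.Fa_mk (BT.Fa_mk (BT.Fa_mk (BT.Fa_leaf (P := Itm.ok 206) (iqf tpr240_c)) (BT.Fa_leaf (P := Itm.ok 206) (iqb tpr293_c))) (BT.Fa_leaf (P := Itm.ok 206) (iqf tpr557_c))) (BT.Fa_mk (BT.Fa_leaf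 (P := Itm.ok 206) (iqb tpr687_c)) (BT.Fa_leaf (P := Itm.ok 206) (iqb tpr1609_c)))))))))

/-- all words of the class have labels -/
theorem pokNFzAzE2A3H3AyB2EzF : POK 206 xNFzAzE2A3H3AyB2EzF :=
  y_pok (C0 := ceNFzAzE2A3H3AyB2EzF) (C1 := coNFzAzE2A3H3AyB2EzF) topNFzAzE2A3H3AyB2EzF nbNFzAzE2A3H3AyB2EzF (BT.Fa_of_all iiNFzAzE2A3H3AyB2EzF_c)
    (BT.Fa_mk (cyE_spec zeNFzAzE2A3H3AyB2EzF_0) (cyE_spec zeNFzAzE2A3H3AyB2EzF_1))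
    (BT.Fa_mk (cyO_spec zoNFzAzE2A3H3AyB2EzF_0) (cyO_spec zoNFzAzE2A3H3AyB2EzF_1))
    iiNFzAzE2A3H3AyB2EzF_k

theorem iiNFzByAzA2A2A3H2A2AzIzA2H3AyB2EyAzF_k : iiNFzByAzA2A2A3H2A2AzIzA2H3AyB2EyAzF.Fa (Itm.ok 206) := (BT.Fa_mk (BT.Fa_mk (BT.Fa_mk (BT.Fa_mk (BT.Fa_mk (BT.Fa_mk (BT.Fa_mk (BT.Fa_leaf (P := Itm.ok 206) (iqb tpr500_c)) (BT.Fa_leaf (P := Itm.ok 206) (iqb tpr168_c))) (BT.Fa_leaf (P := Itm.ok 206) (iqb tpr12_c))) (BT.Fa_mk (BT.Fa_leaf (P := Itm.ok 206) (iqb tpr216_c)) (BT.Fa_leaf (P := Itm.ok 206) (iqf tpr2111_c)))) (BT.Fa_mk (BT.Fa_mk (BT.Fa_mk (BT.Fa_leaf (P := Itm.ok 206) (iqb tpr1355_c)) (BT.Fa_leaf (P := Itm.ok 206) (iqf tpr90_c))) (BT.Fa_leaf (P := Itm.ok 206) (iqf tpr2247_c))) (BT.Fa_mk (BT.Fa_leaf (P := Itm.ok 206) (iqb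 tpr5_c)) (BT.Fa_leaf (P := Itm.ok 206) (iqb tpr35_c))))) (BT.Fa_mk (BT.Fa_mk (BT.Fa_mk (BT.Fa_mk (BT.Fa_leaf (P := Itm.ok 206) (iqb tpr1334_c)) (BT.Fa_leaf (P := Itm.ok 206) (iqb tpr1341_c))) (BT.Fa_leaf (P := Itm.ok 206) (iqf tpr4_c))) (BT.Fa_mk (BT.Fa_leaf (P := Itm.ok 206) (iqf tpr21_c)) (BT.Fa_leaf (P := Itm.ok 206) (iqf tpr477_c)))) (BT.Fa_mk (BT.Fa_mk (BT.Fa_mk (BT.Fa_leaf (P := Itm.ok 206) (iqb tpr2395_c)) (BT.Fa_leaf (P := Itm.ok 206) (iqf tpr28_c))) (BT.Fa_leaf (P := Itm.ok 206) (iqb tpr456_c))) (BT.Fa_mk (BT.Fa_leaf (P := Itm.ok 206) (iqf tpr499_c)) (BT.Fa_leaf (P := Itm.ok 206) (iqb tpr454_c)))))) (BT.Fa_mk (BT.Fa_mk (BT.Fa_mk (BT.Fa_mk (BT.Fa_mk (BT.Fa_leaf (P := Itm.ok 206) (iqf tpr2143_c)) (BT.Fa_leaf (P := Itm.ok 206) (iqb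 tpr479_c))) (BT.Fa_leaf (P := Itm.ok 206) (iqf tpr2393_c))) (BT.Fa_mk (BT.Fa_leaf (P := Itm.ok 206) (iqf tpr2242_c)) (BT.Fa_leaf (P := Itm.ok 206) (iqf tpr2396_c)))) (BT.Fa_mk (BT.Fa_mk (BT.Fa_mk (BT.Fa_leaf (P := Itm.ok 206) (iqf tpr133_c)) (BT.Fa_leaf (P := Itm.ok 206) (iqb tpr2398_c))) (BT.Fa_leaf (P := Itm.ok 206) (iqf tpr2295_c))) (BT.Fa_mk (BT.Fa_leaf (P := Itm.ok 206) (iqf tpr263_c)) (BT.Fa_leaf (P := Itm.ok 206) (iqb tpr1311_c))))) (BT.Fa_mk (BT.Fa_mk (BT.Fa_mk (BT.Fa_mk (BT.Fa_leaf (P := Itm.ok 206) (iqb tpr1479_c)) (BT.Fa_leaf (P := Itm.ok 206) (iqf tpr113_c))) (BT.Fa_leaf (P := Itm.ok 206) (iqf tpr2361_c))) (BT.Fa_mk (BT.Fa_leaf (P := Itm.ok 206) (iqf tpr2325_c)) (BT.Fa_leaf (P := Itm.ok 206) (iqb tpr2485_c)))) (BT.Fa_mk (BT.Fa_mk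 (BT.Fa_mk (BT.Fa_leaf (P := Itm.ok 206) (iqf tpr1336_c)) (BT.Fa_leaf (P := Itm.ok 206) (iqb tpr1331_c))) (BT.Fa_leaf (P := Itm.ok 206) (iqf tpr1323_c))) (BT.Fa_mk (BT.Fa_leaf (P := Itm.ok 206) (iqb tpr2220_c)) (BT.Fa_leaf (P := Itm.ok 206) (iqf tpr1562_c))))))) (BT.Fa_mk (BT.Fa_mk (BT.Fa_mk (BT.Fa_mk (BT.Fa_mk (BT.Fa_mk (BT.Fa_leaf (P := Itm.ok 206) (iqf tpr500_c)) (BT.Fa_leaf (P := Itm.ok 206) (iqb tpr1457_c))) (BT.Fa_leaf (P := Itm.ok 206) (iqb tpr464_c))) (BT.Fa_mk (BT.Fa_leaf (P := Itm.ok 206) (iqb tpr605_c)) (BT.Fa_leaf (P := Itm.ok 206) (iqf tpr33_c)))) (BT.Fa_mk (BT.Fa_mk (BT.Fa_mk (BT.Fa_leaf (P := Itm.ok 206) (iqf tpr63_c)) (BT.Fa_leaf (P := Itm.ok 206) (iqb tpr2390_c))) (BT.Fa_leaf (P := Itm.ok 206) (iqb tpr526_c))) (BT.Fa_mk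 (BT.Fa_leaf (P := Itm.ok 206) (iqb tpr92_c)) (BT.Fa_leaf (P := Itm.ok 206) (iqb tpr131_c))))) (BT.Fa_mk (BT.Fa_mk (BT.Fa_mk (BT.Fa_mk (BT.Fa_leaf (P := Itm.ok 206) (iqb tpr1309_c)) (BT.Fa_leaf (P := Itm.ok 206) (iqb tpr51_c))) (BT.Fa_leaf (P := Itm.ok 206) (iqf tpr2298_c))) (BT.Fa_mk (BT.Fa_leaf (P := Itm.ok 206) (iqb tpr2394_c)) (BT.Fa_leaf (P := Itm.ok 206) (iqb tpr2397_c)))) (BT.Fa_mk (BT.Fa_mk (BT.Fa_mk (BT.Fa_leaf (P := Itm.ok 206) (iqf tpr10_c)) (BT.Fa_leaf (P := Itm.ok 206) (iqf tpr612_c))) (BT.Fa_leaf (P := Itm.ok 206) (iqb tpr541_c))) (BT.Fa_mk (BT.Fa_leaf (P := Itm.ok 206) (iqb tpr2404_c)) (BT.Fa_leaf (P := Itm.ok 206) (iqb tpr485_c)))))) (BT.Fa_mk (BT.Fa_mk (BT.Fa_mk (BT.Fa_mk (BT.Fa_mk (BT.Fa_leaf (P := Itm.ok 206) (iqb tpr1313_c))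 (BT.Fa_leaf (P := Itm.ok 206) (iqb tpr2521_c))) (BT.Fa_leaf (P := Itm.ok 206) (iqb tpr1325_c))) (BT.Fa_mk (BT.Fa_leaf (P := Itm.ok 206) (iqf tpr1354_c)) (BT.Fa_leaf (P := Itm.ok 206) (iqb tpr1312_c)))) (BT.Fa_mk (BT.Fa_mk (BT.Fa_mk (BT.Fa_leaf (P := Itm.ok 206) (iqf tpr606_c)) (BT.Fa_leaf (P := Itm.ok 206) (iqb tpr568_c))) (BT.Fa_leaf (P := Itm.ok 206) (iqb tpr1464_c))) (BT.Fa_mk (BT.Fa_leaf (P := Itm.ok 206) (iqf tpr106_c)) (BT.Fa_leaf (P := Itm.ok 206) (iqf tpr1346_c))))) (BT.Fa_mk (BT.Fa_mk (BT.Fa_mk (BT.Fa_mk (BT.Fa_leaf (P := Itm.ok 206) (iqb tpr89_c)) (BT.Fa_leaf (P := Itm.ok 206) (iqf tpr636_c))) (BT.Fa_leaf (P := Itm.ok 206) (iqf tpr2392_c))) (BT.Fa_mk (BT.Fa_leaf (P := Itm.ok 206) (iqb tpr210_c)) (BT.Fa_leaf (P := Itm.ok 206) (iqf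 tpr1335_c)))) (BT.Fa_mk (BT.Fa_mk (BT.Fa_mk (BT.Fa_leaf (P := Itm.ok 206) (iqb tpr2128_c)) (BT.Fa_leaf (P := Itm.ok 206) (iqf tpr1365_c))) (BT.Fa_leaf (P := Itm.ok 206) (iqf tpr1406_c))) (BT.Fa_mk (BT.Fa_leaf (P := Itm.ok 206) (iqf tpr2388_c)) (BT.Fa_leaf (P := Itm.ok 206) (iqb tpr1475_c))))))))

/-- all words of the class have labels -/
theorem pokNFzByAzA2A2A3H2A2AzIzA2H3AyB2EyAzF : POK 206 xNFzByAzA2A2A3H2A2AzIzA2H3AyB2EyAzF :=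
  y_pok (C0 := ceNFzByAzA2A2A3H2A2AzIzA2H3AyB2EyAzF) (C1 := coNFzByAzA2A2A3H2A2AzIzA2H3AyB2EyAzF) topNFzByAzA2A2A3H2A2AzIzA2H3AyB2EyAzF nbNFzByAzA2A2A3H2A2AzIzA2H3AyB2EyAzF (BT.Fa_of_all iiNFzByAzA2A2A3H2A2AzIzA2H3AyB2EyAzF_c)
    (cyE_spec zeNFzByAzA2A2A3H2A2AzIzA2H3AyB2EyAzF_0)
    (cyO_spec zoNFzByAzA2A2A3H2A2AzIzA2H3AyB2EyAzF_0)
    iiNFzByAzA2A2A3H2A2AzIzA2H3AyB2EyAzF_k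

theorem iiNFzByAzA2A2A3H2ByAzIzA2H3AyB2EyAzF_k : iiNFzByAzA2A2A3H2ByAzIzA2H3AyB2EyAzF.Fa (Itm.ok 206) := (BT.Fa_mk (BT.Fa_mk (BT.Fa_mk (BT.Fa_mk (BT.Fa_mk (BT.Fa_mk (BT.Fa_mk (BT.Fa_leaf (P := Itm.ok 206) (iqb tpr500_c)) (BT.Fa_leaf (P := Itm.ok 206) (iqb tpr168_c))) (BT.Fa_leaf (P := Itm.ok 206) (iqb tpr5_c))) (BT.Fa_mk (BT.Fa_leaf (P := Itm.ok 206) (iqb tpr1334_c)) (BT.Fa_leaf (P := Itm.ok 206) (iqf tpr33_c)))) (BT.Fa_mk (BT.Fa_mk (BT.Fa_mk (BT.Fa_leaf (P := Itm.ok 206) (iqf tpr2111_c)) (BT.Fa_leaf (P := Itm.ok 206) (iqb tpr35_c))) (BT.Fa_leaf (P := Itm.ok 206) (iqb tpr1341_c))) (BT.Fa_mk (BT.Fa_leaf (P := Itm.ok 206) (iqb tpr1355_c)) (BT.Fa_leaf (P := Itm.ok 206) (iqf tpr21_c))))) (BT.Fa_mk (BT.Fa_mk (BT.Fa_mk (BT.Fa_mk (BT.Fa_leaf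 (P := Itm.ok 206) (iqf tpr477_c)) (BT.Fa_leaf (P := Itm.ok 206) (iqb tpr479_c))) (BT.Fa_leaf (P := Itm.ok 206) (iqf tpr28_c))) (BT.Fa_mk (BT.Fa_leaf (P := Itm.ok 206) (iqf tpr2247_c)) (BT.Fa_leaf (P := Itm.ok 206) (iqf tpr2143_c)))) (BT.Fa_mk (BT.Fa_mk (BT.Fa_mk (BT.Fa_leaf (P := Itm.ok 206) (iqb tpr456_c)) (BT.Fa_leaf (P := Itm.ok 206) (iqb tpr2398_c))) (BT.Fa_leaf (P := Itm.ok 206) (iqb tpr1311_c))) (BT.Fa_mk (BT.Fa_leaf (P := Itm.ok 206) (iqb tpr596_c)) (BT.Fa_leaf (P := Itm.ok 206) (iqb tpr1475_c)))))) (BT.Fa_mk (BT.Fa_mk (BT.Fa_mk (BT.Fa_mk (BT.Fa_mk (BT.Fa_leaf (P := Itm.ok 206) (iqf tpr2295_c)) (BT.Fa_leaf (P := Itm.ok 206) (iqb tpr1464_c))) (BT.Fa_leaf (P := Itm.ok 206) (iqb tpr2485_c))) (BT.Fa_mk (BT.Fa_leaf (P := Itm.ok 206) (iqb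 tpr1479_c)) (BT.Fa_leaf (P := Itm.ok 206) (iqf tpr2388_c)))) (BT.Fa_mk (BT.Fa_mk (BT.Fa_mk (BT.Fa_leaf (P := Itm.ok 206) (iqb tpr966_c)) (BT.Fa_leaf (P := Itm.ok 206) (iqf tpr2325_c))) (BT.Fa_leaf (P := Itm.ok 206) (iqb tpr2220_c))) (BT.Fa_mk (BT.Fa_leaf (P := Itm.ok 206) (iqf tpr1365_c)) (BT.Fa_leaf (P := Itm.ok 206) (iqf tpr1376_c))))) (BT.Fa_mk (BT.Fa_mk (BT.Fa_mk (BT.Fa_mk (BT.Fa_leaf (P := Itm.ok 206) (iqb tpr12_c)) (BT.Fa_leaf (P := Itm.ok 206) (iqf tpr63_c))) (BT.Fa_leaf (P := Itm.ok 206) (iqf tpr133_c))) (BT.Fa_mk (BT.Fa_leaf (P := Itm.ok 206) (iqf tpr499_c)) (BT.Fa_leaf (P := Itm.ok 206) (iqf tpr10_c)))) (BT.Fa_mk (BT.Fa_mk (BT.Fa_leaf (P := Itm.ok 206) (iqb tpr92_c)) (BT.Fa_leaf (P := Itm.ok 206) (iqf tpr2361_c))) (BT.Fa_mk (BT.Fa_leaf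 (P := Itm.ok 206) (iqf tpr113_c)) (BT.Fa_leaf (P := Itm.ok 206) (iqb tpr51_c))))))) (BT.Fa_mk (BT.Fa_mk (BT.Fa_mk (BT.Fa_mk (BT.Fa_mk (BT.Fa_mk (BT.Fa_leaf (P := Itm.ok 206) (iqf tpr2242_c)) (BT.Fa_leaf (P := Itm.ok 206) (iqb tpr2395_c))) (BT.Fa_leaf (P := Itm.ok 206) (iqf tpr2393_c))) (BT.Fa_mk (BT.Fa_leaf (P := Itm.ok 206) (iqf tpr2298_c)) (BT.Fa_leaf (P := Itm.ok 206) (iqb tpr1309_c)))) (BT.Fa_mk (BT.Fa_mk (BT.Fa_mk (BT.Fa_leaf (P := Itm.ok 206) (iqb tpr2521_c)) (BT.Fa_leaf (P := Itm.ok 206) (iqf tpr1346_c))) (BT.Fa_leaf (P := Itm.ok 206) (iqf tpr90_c))) (BT.Fa_mk (BT.Fa_leaf (P := Itm.ok 206) (iqf tpr612_c)) (BT.Fa_leaf (P := Itm.ok 206) (iqf tpr263_c))))) (BT.Fa_mk (BT.Fa_mk (BT.Fa_mk (BT.Fa_mk (BT.Fa_leaf (P := Itm.ok 206) (iqf tpr636_c))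 (BT.Fa_leaf (P := Itm.ok 206) (iqf tpr106_c))) (BT.Fa_leaf (P := Itm.ok 206) (iqb tpr568_c))) (BT.Fa_mk (BT.Fa_leaf (P := Itm.ok 206) (iqb tpr2394_c)) (BT.Fa_leaf (P := Itm.ok 206) (iqb tpr454_c)))) (BT.Fa_mk (BT.Fa_mk (BT.Fa_leaf (P := Itm.ok 206) (iqb tpr1313_c)) (BT.Fa_leaf (P := Itm.ok 206) (iqf tpr24_c))) (BT.Fa_mk (BT.Fa_leaf (P := Itm.ok 206) (iqb tpr2397_c)) (BT.Fa_leaf (P := Itm.ok 206) (iqb tpr1457_c)))))) (BT.Fa_mk (BT.Fa_mk (BT.Fa_mk (BT.Fa_mk (BT.Fa_mk (BT.Fa_leaf (P := Itm.ok 206) (iqb tpr478_c)) (BT.Fa_leaf (P := Itm.ok 206) (iqb tpr485_c))) (BT.Fa_leaf (P := Itm.ok 206) (iqf tpr62_c))) (BT.Fa_mk (BT.Fa_leaf (P := Itm.ok 206) (iqb tpr131_c)) (BT.Fa_leaf (P := Itm.ok 206) (iqf tpr2396_c)))) (BT.Fa_mk (BT.Fa_mk (BT.Fa_mk (BT.Fa_leaf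 (P := Itm.ok 206) (iqf tpr1328_c)) (BT.Fa_leaf (P := Itm.ok 206) (iqb tpr1325_c))) (BT.Fa_leaf (P := Itm.ok 206) (iqf tpr1354_c))) (BT.Fa_mk (BT.Fa_leaf (P := Itm.ok 206) (iqb tpr2823_c)) (BT.Fa_leaf (P := Itm.ok 206) (iqf tpr1323_c))))) (BT.Fa_mk (BT.Fa_mk (BT.Fa_mk (BT.Fa_mk (BT.Fa_leaf (P := Itm.ok 206) (iqf tpr1335_c)) (BT.Fa_leaf (P := Itm.ok 206) (iqb tpr1331_c))) (BT.Fa_leaf (P := Itm.ok 206) (iqb tpr2617_c))) (BT.Fa_mk (BT.Fa_leaf (P := Itm.ok 206) (iqb tpr1312_c)) (BT.Fa_leaf (P := Itm.ok 206) (iqf tpr4_c)))) (BT.Fa_mk (BT.Fa_mk (BT.Fa_leaf (P := Itm.ok 206) (iqf tpr1336_c)) (BT.Fa_leaf (P := Itm.ok 206) (iqb tpr464_c))) (BT.Fa_mk (BT.Fa_leaf (P := Itm.ok 206) (iqb tpr2390_c)) (BT.Fa_leaf (P := Itm.ok 206) (iqb tpr177_c))))))))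

/-- all words of the class have labels -/
theorem pokNFzByAzA2A2A3H2ByAzIzA2H3AyB2EyAzF : POK 206 xNFzByAzA2A2A3H2ByAzIzA2H3AyB2EyAzF :=
  y_pok (C0 := ceNFzByAzA2A2A3H2ByAzIzA2H3AyB2EyAzF) (C1 := coNFzByAzA2A2A3H2ByAzIzA2H3AyB2EyAzF) topNFzByAzA2A2A3H2ByAzIzA2H3AyB2EyAzF nbNFzByAzA2A2A3H2ByAzIzA2H3AyB2EyAzF (BT.Fa_of_all iiNFzByAzA2A2A3H2ByAzIzA2H3AyB2EyAzF_c)
    (cyE_spec zeNFzByAzA2A2A3H2ByAzIzA2H3AyB2EyAzF_0)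
    (cyO_spec zoNFzByAzA2A2A3H2ByAzIzA2H3AyB2EyAzF_0)
    iiNFzByAzA2A2A3H2ByAzIzA2H3AyB2EyAzF_k

theorem iiNFzByAzA2A2A3H3AyB2EyAzF_k : iiNFzByAzA2A2A3H3AyB2EyAzF.Fa (Itm.ok 206) := (BT.Fa_mk (BT.Fa_mk (BT.Fa_mk (BT.Fa_mk (BT.Fa_mk (BT.Fa_mk (BT.Fa_mk (BT.Fa_leaf (P := Itm.ok 206) (iqb tpr500_c)) (BT.Fa_leaf (P := Itm.ok 206) (iqb tpr168_c))) (BT.Fa_leaf (P := Itm.ok 206) (iqf tpr499_c))) (BT.Fa_mk (BT.Fa_leaf (P := Itm.ok 206) (iqf tpr33_c)) (BT.Fa_leaf (P := Itm.ok 206) (iqb tpr1532_c)))) (BT.Fa_mk (BT.Fa_mk (BT.Fa_mk (BT.Fa_leaf (P := Itm.ok 206) (iqb tpr51_c)) (BT.Fa_leaf (P := Itm.ok 206) (iqb tpr5_c))) (BT.Fa_leaf (P := Itm.ok 206) (iqf tpr90_c))) (BT.Fa_mk (BT.Fa_leaf (P := Itm.ok 206) (iqf tpr636_c)) (BT.Fa_leaf (P := Itm.ok 206)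 (iqf tpr2111_c))))) (BT.Fa_mk (BT.Fa_mk (BT.Fa_mk (BT.Fa_mk (BT.Fa_leaf (P := Itm.ok 206) (iqb tpr1334_c)) (BT.Fa_leaf (P := Itm.ok 206) (iqb tpr1479_c))) (BT.Fa_leaf (P := Itm.ok 206) (iqf tpr21_c))) (BT.Fa_mk (BT.Fa_leaf (P := Itm.ok 206) (iqb tpr35_c)) (BT.Fa_leaf (P := Itm.ok 206) (iqf tpr2146_c)))) (BT.Fa_mk (BT.Fa_mk (BT.Fa_mk (BT.Fa_leaf (P := Itm.ok 206) (iqf tpr1542_c)) (BT.Fa_leaf (P := Itm.ok 206) (iqf tpr477_c))) (BT.Fa_leaf (P := Itm.ok 206) (iqb tpr1355_c))) (BT.Fa_mk (BT.Fa_leaf (P := Itm.ok 206) (iqf tpr2143_c)) (BT.Fa_leaf (P := Itm.ok 206) (iqf tpr2388_c)))))) (BT.Fa_mk (BT.Fa_mk (BT.Fa_mk (BT.Fa_mk (BT.Fa_mk (BT.Fa_leaf (P := Itm.ok 206) (iqb tpr1464_c)) (BT.Fa_leaf (P := Itm.ok 206) (iqb tpr966_c))) (BT.Fa_leaf (P :=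 Itm.ok 206) (iqb tpr12_c))) (BT.Fa_mk (BT.Fa_leaf (P := Itm.ok 206) (iqb tpr456_c)) (BT.Fa_leaf (P := Itm.ok 206) (iqb tpr216_c)))) (BT.Fa_mk (BT.Fa_mk (BT.Fa_mk (BT.Fa_leaf (P := Itm.ok 206) (iqf tpr28_c)) (BT.Fa_leaf (P := Itm.ok 206) (iqf tpr1196_c))) (BT.Fa_leaf (P := Itm.ok 206) (iqb tpr92_c))) (BT.Fa_mk (BT.Fa_leaf (P := Itm.ok 206) (iqf tpr113_c)) (BT.Fa_leaf (P := Itm.ok 206) (iqf tpr2325_c))))) (BT.Fa_mk (BT.Fa_mk (BT.Fa_mk (BT.Fa_mk (BT.Fa_leaf (P := Itm.ok 206) (iqf tpr2389_c)) (BT.Fa_leaf (P := Itm.ok 206) (iqf tpr1559_c))) (BT.Fa_leaf (P := Itm.ok 206) (iqb tpr1341_c))) (BT.Fa_mk (BT.Fa_leaf (P := Itm.ok 206) (iqb tpr568_c)) (BT.Fa_leaf (P := Itm.ok 206) (iqb tpr89_c)))) (BT.Fa_mk (BT.Fa_mk (BT.Fa_mk (BT.Fa_leaf (P := Itm.ok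 206) (iqb tpr2078_c)) (BT.Fa_leaf (P := Itm.ok 206) (iqf tpr1406_c))) (BT.Fa_leaf (P := Itm.ok 206) (iqf tpr612_c))) (BT.Fa_mk (BT.Fa_leaf (P := Itm.ok 206) (iqf tpr2108_c)) (BT.Fa_leaf (P := Itm.ok 206) (iqf tpr133_c))))))) (BT.Fa_mk (BT.Fa_mk (BT.Fa_mk (BT.Fa_mk (BT.Fa_mk (BT.Fa_mk (BT.Fa_leaf (P := Itm.ok 206) (iqf tpr2295_c)) (BT.Fa_leaf (P := Itm.ok 206) (iqb tpr2390_c))) (BT.Fa_leaf (P := Itm.ok 206) (iqb tpr2122_c))) (BT.Fa_mk (BT.Fa_leaf (P := Itm.ok 206) (iqf tpr2361_c)) (BT.Fa_leaf (P := Itm.ok 206) (iqf tpr2247_c)))) (BT.Fa_mk (BT.Fa_mk (BT.Fa_mk (BT.Fa_leaf (P := Itm.ok 206) (iqb tpr479_c)) (BT.Fa_leaf (P := Itm.ok 206) (iqb tpr454_c))) (BT.Fa_leaf (P := Itm.ok 206) (iqf tpr1346_c))) (BT.Fa_mk (BT.Fa_leaf (P := Itm.ok 206) (iqb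 tpr1311_c)) (BT.Fa_leaf (P := Itm.ok 206) (iqf tpr263_c))))) (BT.Fa_mk (BT.Fa_mk (BT.Fa_mk (BT.Fa_mk (BT.Fa_leaf (P := Itm.ok 206) (iqb tpr2238_c)) (BT.Fa_leaf (P := Itm.ok 206) (iqf tpr106_c))) (BT.Fa_leaf (P := Itm.ok 206) (iqf tpr941_c))) (BT.Fa_mk (BT.Fa_leaf (P := Itm.ok 206) (iqb tpr2391_c)) (BT.Fa_leaf (P := Itm.ok 206) (iqf tpr2392_c)))) (BT.Fa_mk (BT.Fa_mk (BT.Fa_mk (BT.Fa_leaf (P := Itm.ok 206) (iqb tpr478_c)) (BT.Fa_leaf (P := Itm.ok 206) (iqf tpr2393_c))) (BT.Fa_leaf (P := Itm.ok 206) (iqb tpr2394_c))) (BT.Fa_mk (BT.Fa_leaf (P := Itm.ok 206) (iqb tpr2239_c)) (BT.Fa_leaf (P := Itm.ok 206) (iqb tpr1313_c)))))) (BT.Fa_mk (BT.Fa_mk (BT.Fa_mk (BT.Fa_mk (BT.Fa_mk (BT.Fa_leaf (P := Itm.ok 206) (iqb tpr210_c)) (BT.Fa_leaf (P := Itm.ok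 206) (iqf tpr24_c))) (BT.Fa_leaf (P := Itm.ok 206) (iqf tpr2242_c))) (BT.Fa_mk (BT.Fa_leaf (P := Itm.ok 206) (iqb tpr2395_c)) (BT.Fa_leaf (P := Itm.ok 206) (iqf tpr2396_c)))) (BT.Fa_mk (BT.Fa_mk (BT.Fa_mk (BT.Fa_leaf (P := Itm.ok 206) (iqb tpr2397_c)) (BT.Fa_leaf (P := Itm.ok 206) (iqb tpr1573_c))) (BT.Fa_leaf (P := Itm.ok 206) (iqb tpr962_c))) (BT.Fa_mk (BT.Fa_leaf (P := Itm.ok 206) (iqb tpr2398_c)) (BT.Fa_leaf (P := Itm.ok 206) (iqf tpr2298_c))))) (BT.Fa_mk (BT.Fa_mk (BT.Fa_mk (BT.Fa_mk (BT.Fa_leaf (P := Itm.ok 206) (iqb tpr485_c)) (BT.Fa_leaf (P := Itm.ok 206) (iqb tpr1475_c))) (BT.Fa_leaf (P := Itm.ok 206) (iqf tpr2240_c))) (BT.Fa_mk (BT.Fa_leaf (P := Itm.ok 206) (iqb tpr2241_c)) (BT.Fa_leaf (P := Itm.ok 206) (iqf tpr39_c)))) (BT.Fa_mk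 (BT.Fa_mk (BT.Fa_leaf (P := Itm.ok 206) (iqb tpr2399_c)) (BT.Fa_leaf (P := Itm.ok 206) (iqb tpr2400_c))) (BT.Fa_mk (BT.Fa_leaf (P := Itm.ok 206) (iqf tpr615_c)) (BT.Fa_leaf (P := Itm.ok 206) (iqb tpr733_c))))))))

/-- all words of the class have labels -/
theorem pokNFzByAzA2A2A3H3AyB2EyAzF : POK 206 xNFzByAzA2A2A3H3AyB2EyAzF :=
  y_pok (C0 := ceNFzByAzA2A2A3H3AyB2EyAzF) (C1 := coNFzByAzA2A2A3H3AyB2EyAzF) topNFzByAzA2A2A3H3AyB2EyAzF nbNFzByAzA2A2A3H3AyB2EyAzF (BT.Fa_of_all iiNFzByAzA2A2A3H3AyB2EyAzF_c)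
    (cyE_spec zeNFzByAzA2A2A3H3AyB2EyAzF_0)
    (cyO_spec zoNFzByAzA2A2A3H3AyB2EyAzF_0)
    iiNFzByAzA2A2A3H3AyB2EyAzF_k

theorem iiNFzByAzA2A2E2A3H2ByAzIzA2H3AyB2EyAzAyBzF_k : iiNFzByAzA2A2E2A3H2ByAzIzA2H3AyB2EyAzAyBzF.Fa (Itm.ok 206) := (BT.Fa_mk (BT.Fa_mk (BT.Fa_mk (BT.Fa_mk (BT.Fa_mk (BT.Fa_mk (BT.Fa_mk (BT.Fa_mk (BT.Fa_leaf (P := Itm.ok 206) (iqb tpr500_c)) (BT.Fa_leaf (P := Itm.ok 206) (iqb tpr5_c))) (BT.Fa_mk (BT.Fa_leaf (P := Itm.ok 206) (iqf tpr8_c)) (BT.Fa_leaf (P := Itm.ok 206) (iqf tpr616_c)))) (BT.Fa_mk (BT.Fa_mk (BT.Fa_leaf (P := Itm.ok 206) (iqb tpr210_c)) (BT.Fa_leaf (P := Itm.ok 206) (iqf tpr2125_c))) (BT.Fa_mk (BT.Fa_leaf (P := Itm.ok 206) (iqb tpr2116_c)) (BT.Fa_leaf (P := Itm.ok 206) (iqf tpr2040_c))))) (BT.Fa_mk (BT.Fa_mk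 (BT.Fa_mk (BT.Fa_leaf (P := Itm.ok 206) (iqb tpr2495_c)) (BT.Fa_leaf (P := Itm.ok 206) (iqb tpr1765_c))) (BT.Fa_mk (BT.Fa_leaf (P := Itm.ok 206) (iqb tpr2260_c)) (BT.Fa_leaf (P := Itm.ok 206) (iqf tpr2501_c)))) (BT.Fa_mk (BT.Fa_mk (BT.Fa_leaf (P := Itm.ok 206) (iqb tpr2177_c)) (BT.Fa_leaf (P := Itm.ok 206) (iqf tpr2512_c))) (BT.Fa_leaf (P := Itm.ok 206) (iqf tpr2491_c))))) (BT.Fa_mk (BT.Fa_mk (BT.Fa_mk (BT.Fa_mk (BT.Fa_leaf (P := Itm.ok 206) (iqb tpr507_c)) (BT.Fa_leaf (P := Itm.ok 206) (iqf tpr2486_c))) (BT.Fa_mk (BT.Fa_leaf (P := Itm.ok 206) (iqb tpr2532_c)) (BT.Fa_leaf (P := Itm.ok 206) (iqb tpr1215_c)))) (BT.Fa_mk (BT.Fa_mk (BT.Fa_leaf (P := Itm.ok 206) (iqf tpr1247_c)) (BT.Fa_leaf (P := Itm.ok 206) (iqf tpr2504_c))) (BT.Fa_mk (BT.Fa_leaf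 (P := Itm.ok 206) (iqb tpr2507_c)) (BT.Fa_leaf (P := Itm.ok 206) (iqb tpr627_c))))) (BT.Fa_mk (BT.Fa_mk (BT.Fa_mk (BT.Fa_leaf (P := Itm.ok 206) (iqb tpr2229_c)) (BT.Fa_leaf (P := Itm.ok 206) (iqf tpr2524_c))) (BT.Fa_mk (BT.Fa_leaf (P := Itm.ok 206) (iqb tpr2489_c)) (BT.Fa_leaf (P := Itm.ok 206) (iqb tpr2133_c)))) (BT.Fa_mk (BT.Fa_mk (BT.Fa_leaf (P := Itm.ok 206) (iqf tpr2279_c)) (BT.Fa_leaf (P := Itm.ok 206) (iqb tpr2490_c))) (BT.Fa_leaf (P := Itm.ok 206) (iqf tpr2513_c)))))) (BT.Fa_mk (BT.Fa_mk (BT.Fa_mk (BT.Fa_mk (BT.Fa_mk (BT.Fa_leaf (P := Itm.ok 206) (iqb tpr2523_c)) (BT.Fa_leaf (P := Itm.ok 206) (iqb tpr2113_c))) (BT.Fa_mk (BT.Fa_leaf (P := Itm.ok 206) (iqf tpr636_c)) (BT.Fa_leaf (P := Itm.ok 206) (iqf tpr2509_c)))) (BT.Fa_mk (BT.Fa_mk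 (BT.Fa_leaf (P := Itm.ok 206) (iqb tpr2543_c)) (BT.Fa_leaf (P := Itm.ok 206) (iqf tpr2130_c))) (BT.Fa_mk (BT.Fa_leaf (P := Itm.ok 206) (iqb tpr2167_c)) (BT.Fa_leaf (P := Itm.ok 206) (iqb tpr2262_c))))) (BT.Fa_mk (BT.Fa_mk (BT.Fa_mk (BT.Fa_leaf (P := Itm.ok 206) (iqb tpr2227_c)) (BT.Fa_leaf (P := Itm.ok 206) (iqb tpr2510_c))) (BT.Fa_mk (BT.Fa_leaf (P := Itm.ok 206) (iqf tpr2544_c)) (BT.Fa_leaf (P := Itm.ok 206) (iqb tpr2189_c)))) (BT.Fa_mk (BT.Fa_mk (BT.Fa_leaf (P := Itm.ok 206) (iqf tpr2496_c)) (BT.Fa_leaf (P := Itm.ok 206) (iqb tpr2334_c))) (BT.Fa_leaf (P := Itm.ok 206) (iqf tpr2225_c))))) (BT.Fa_mk (BT.Fa_mk (BT.Fa_mk (BT.Fa_mk (BT.Fa_leaf (P := Itm.ok 206) (iqf tpr2498_c)) (BT.Fa_leaf (P := Itm.ok 206) (iqf tpr2164_c))) (BT.Fa_mk (BT.Fa_leaf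 (P := Itm.ok 206) (iqf tpr2208_c)) (BT.Fa_leaf (P := Itm.ok 206) (iqb tpr645_c)))) (BT.Fa_mk (BT.Fa_mk (BT.Fa_leaf (P := Itm.ok 206) (iqf tpr2516_c)) (BT.Fa_leaf (P := Itm.ok 206) (iqb tpr1733_c))) (BT.Fa_leaf (P := Itm.ok 206) (iqf tpr2688_c)))) (BT.Fa_mk (BT.Fa_mk (BT.Fa_mk (BT.Fa_leaf (P := Itm.ok 206) (iqb tpr2226_c)) (BT.Fa_leaf (P := Itm.ok 206) (iqb tpr2493_c))) (BT.Fa_mk (BT.Fa_leaf (P := Itm.ok 206) (iqf tpr2278_c)) (BT.Fa_leaf (P := Itm.ok 206) (iqf tpr518_c)))) (BT.Fa_mk (BT.Fa_mk (BT.Fa_leaf (P := Itm.ok 206) (iqf tpr1257_c)) (BT.Fa_leaf (P := Itm.ok 206) (iqb tpr2186_c))) (BT.Fa_leaf (P := Itm.ok 206) (iqb tpr2537_c))))))) (BT.Fa_mk (BT.Fa_mk (BT.Fa_mk (BT.Fa_mk (BT.Fa_mk (BT.Fa_mk (BT.Fa_leaf (P := Itm.ok 206) (iqf tpr2687_c))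 (BT.Fa_leaf (P := Itm.ok 206) (iqf tpr2154_c))) (BT.Fa_mk (BT.Fa_leaf (P := Itm.ok 206) (iqb tpr2153_c)) (BT.Fa_leaf (P := Itm.ok 206) (iqb tpr2536_c)))) (BT.Fa_mk (BT.Fa_mk (BT.Fa_leaf (P := Itm.ok 206) (iqb tpr617_c)) (BT.Fa_leaf (P := Itm.ok 206) (iqb tpr2259_c))) (BT.Fa_mk (BT.Fa_leaf (P := Itm.ok 206) (iqb tpr2682_c)) (BT.Fa_leaf (P := Itm.ok 206) (iqb tpr2253_c))))) (BT.Fa_mk (BT.Fa_mk (BT.Fa_mk (BT.Fa_leaf (P := Itm.ok 206) (iqb tpr479_c)) (BT.Fa_leaf (P := Itm.ok 206) (iqf tpr2659_c))) (BT.Fa_mk (BT.Fa_leaf (P := Itm.ok 206) (iqf tpr2187_c)) (BT.Fa_leaf (P := Itm.ok 206) (iqb tpr1311_c)))) (BT.Fa_mk (BT.Fa_mk (BT.Fa_leaf (P := Itm.ok 206) (iqb tpr814_c)) (BT.Fa_leaf (P := Itm.ok 206) (iqf tpr2114_c))) (BT.Fa_leaf (P := Itm.ok 206)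 (iqf tpr2685_c))))) (BT.Fa_mk (BT.Fa_mk (BT.Fa_mk (BT.Fa_mk (BT.Fa_leaf (P := Itm.ok 206) (iqf tpr2599_c)) (BT.Fa_leaf (P := Itm.ok 206) (iqf tpr2111_c))) (BT.Fa_mk (BT.Fa_leaf (P := Itm.ok 206) (iqb tpr44_c)) (BT.Fa_leaf (P := Itm.ok 206) (iqf tpr2538_c)))) (BT.Fa_mk (BT.Fa_mk (BT.Fa_leaf (P := Itm.ok 206) (iqb tpr464_c)) (BT.Fa_leaf (P := Itm.ok 206) (iqb tpr456_c))) (BT.Fa_mk (BT.Fa_leaf (P := Itm.ok 206) (iqf tpr2729_c)) (BT.Fa_leaf (P := Itm.ok 206) (iqb tpr2246_c))))) (BT.Fa_mk (BT.Fa_mk (BT.Fa_mk (BT.Fa_leaf (P := Itm.ok 206) (iqf tpr21_c)) (BT.Fa_leaf (P := Itm.ok 206) (iqb tpr949_c))) (BT.Fa_mk (BT.Fa_leaf (P := Itm.ok 206) (iqb tpr198_c)) (BT.Fa_leaf (P := Itm.ok 206) (iqb tpr82_c)))) (BT.Fa_mk (BT.Fa_mk (BT.Fa_leaf (P := Itm.ok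 206) (iqf tpr780_c)) (BT.Fa_leaf (P := Itm.ok 206) (iqb tpr1255_c))) (BT.Fa_leaf (P := Itm.ok 206) (iqb tpr555_c)))))) (BT.Fa_mk (BT.Fa_mk (BT.Fa_mk (BT.Fa_mk (BT.Fa_mk (BT.Fa_leaf (P := Itm.ok 206) (iqf tpr2503_c)) (BT.Fa_leaf (P := Itm.ok 206) (iqb tpr247_c))) (BT.Fa_mk (BT.Fa_leaf (P := Itm.ok 206) (iqb tpr1767_c)) (BT.Fa_leaf (P := Itm.ok 206) (iqf tpr721_c)))) (BT.Fa_mk (BT.Fa_mk (BT.Fa_leaf (P := Itm.ok 206) (iqb tpr619_c)) (BT.Fa_leaf (P := Itm.ok 206) (iqb tpr982_c))) (BT.Fa_mk (BT.Fa_leaf (P := Itm.ok 206) (iqb tpr506_c)) (BT.Fa_leaf (P := Itm.ok 206) (iqb tpr419_c))))) (BT.Fa_mk (BT.Fa_mk (BT.Fa_mk (BT.Fa_leaf (P := Itm.ok 206) (iqf tpr2230_c)) (BT.Fa_leaf (P := Itm.ok 206) (iqf tpr1193_c))) (BT.Fa_mk (BT.Fa_leaf (P := Itm.ok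 206) (iqf tpr504_c)) (BT.Fa_leaf (P := Itm.ok 206) (iqb tpr1754_c)))) (BT.Fa_mk (BT.Fa_mk (BT.Fa_leaf (P := Itm.ok 206) (iqf tpr2112_c)) (BT.Fa_leaf (P := Itm.ok 206) (iqb tpr2150_c))) (BT.Fa_leaf (P := Itm.ok 206) (iqb tpr744_c))))) (BT.Fa_mk (BT.Fa_mk (BT.Fa_mk (BT.Fa_mk (BT.Fa_leaf (P := Itm.ok 206) (iqf tpr1547_c)) (BT.Fa_leaf (P := Itm.ok 206) (iqf tpr2137_c))) (BT.Fa_mk (BT.Fa_leaf (P := Itm.ok 206) (iqb tpr466_c)) (BT.Fa_leaf (P := Itm.ok 206) (iqf tpr2514_c)))) (BT.Fa_mk (BT.Fa_mk (BT.Fa_leaf (P := Itm.ok 206) (iqf tpr113_c)) (BT.Fa_leaf (P := Itm.ok 206) (iqf tpr33_c))) (BT.Fa_leaf (P := Itm.ok 206) (iqb tpr1653_c)))) (BT.Fa_mk (BT.Fa_mk (BT.Fa_mk (BT.Fa_leaf (P := Itm.ok 206) (iqf tpr239_c)) (BT.Fa_leaf (P := Itm.ok 206) (iqf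 tpr499_c))) (BT.Fa_mk (BT.Fa_leaf (P := Itm.ok 206) (iqb tpr168_c)) (BT.Fa_leaf (P := Itm.ok 206) (iqf tpr10_c)))) (BT.Fa_mk (BT.Fa_mk (BT.Fa_leaf (P := Itm.ok 206) (iqf tpr990_c)) (BT.Fa_leaf (P := Itm.ok 206) (iqf tpr2005_c))) (BT.Fa_leaf (P := Itm.ok 206) (iqf tpr2674_c)))))))) (BT.Fa_mk (BT.Fa_mk (BT.Fa_mk (BT.Fa_mk (BT.Fa_mk (BT.Fa_mk (BT.Fa_mk (BT.Fa_leaf (P := Itm.ok 206) (iqf tpr953_c)) (BT.Fa_leaf (P := Itm.ok 206) (iqb tpr1112_c))) (BT.Fa_mk (BT.Fa_leaf (P := Itm.ok 206) (iqf tpr1747_c)) (BT.Fa_leaf (P := Itm.ok 206) (iqb tpr738_c)))) (BT.Fa_mk (BT.Fa_mk (BT.Fa_leaf (P := Itm.ok 206) (iqb tpr51_c)) (BT.Fa_leaf (P := Itm.ok 206) (iqf tpr2217_c))) (BT.Fa_mk (BT.Fa_leaf (P := Itm.ok 206) (iqb tpr656_c)) (BT.Fa_leaf (P := Itm.ok 206)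 (iqb tpr680_c))))) (BT.Fa_mk (BT.Fa_mk (BT.Fa_mk (BT.Fa_leaf (P := Itm.ok 206) (iqf tpr2233_c)) (BT.Fa_leaf (P := Itm.ok 206) (iqb tpr508_c))) (BT.Fa_mk (BT.Fa_leaf (P := Itm.ok 206) (iqf tpr1065_c)) (BT.Fa_leaf (P := Itm.ok 206) (iqf tpr581_c)))) (BT.Fa_mk (BT.Fa_mk (BT.Fa_leaf (P := Itm.ok 206) (iqf tpr577_c)) (BT.Fa_leaf (P := Itm.ok 206) (iqf tpr2206_c))) (BT.Fa_leaf (P := Itm.ok 206) (iqb tpr2526_c))))) (BT.Fa_mk (BT.Fa_mk (BT.Fa_mk (BT.Fa_mk (BT.Fa_leaf (P := Itm.ok 206) (iqf tpr167_c)) (BT.Fa_leaf (P := Itm.ok 206) (iqf tpr1028_c))) (BT.Fa_mk (BT.Fa_leaf (P := Itm.ok 206) (iqf tpr11_c)) (BT.Fa_leaf (P := Itm.ok 206) (iqb tpr780_c)))) (BT.Fa_mk (BT.Fa_mk (BT.Fa_leaf (P := Itm.ok 206) (iqf tpr815_c)) (BT.Fa_leaf (P := Itm.ok 206) (iqb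 tpr12_c))) (BT.Fa_mk (BT.Fa_leaf (P := Itm.ok 206) (iqf tpr2143_c)) (BT.Fa_leaf (P := Itm.ok 206) (iqb tpr89_c))))) (BT.Fa_mk (BT.Fa_mk (BT.Fa_mk (BT.Fa_leaf (P := Itm.ok 206) (iqf tpr2247_c)) (BT.Fa_leaf (P := Itm.ok 206) (iqb tpr35_c))) (BT.Fa_mk (BT.Fa_leaf (P := Itm.ok 206) (iqb tpr1341_c)) (BT.Fa_leaf (P := Itm.ok 206) (iqf tpr1346_c)))) (BT.Fa_mk (BT.Fa_mk (BT.Fa_leaf (P := Itm.ok 206) (iqb tpr2671_c)) (BT.Fa_leaf (P := Itm.ok 206) (iqf tpr28_c))) (BT.Fa_leaf (P := Itm.ok 206) (iqb tpr1647_c)))))) (BT.Fa_mk (BT.Fa_mk (BT.Fa_mk (BT.Fa_mk (BT.Fa_mk (BT.Fa_leaf (P := Itm.ok 206) (iqf tpr63_c)) (BT.Fa_leaf (P := Itm.ok 206) (iqf tpr1562_c))) (BT.Fa_mk (BT.Fa_leaf (P := Itm.ok 206) (iqb tpr1334_c)) (BT.Fa_leaf (P := Itm.ok 206) (iqb tpr1355_c))))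 (BT.Fa_mk (BT.Fa_mk (BT.Fa_leaf (P := Itm.ok 206) (iqf tpr1354_c)) (BT.Fa_leaf (P := Itm.ok 206) (iqf tpr2242_c))) (BT.Fa_mk (BT.Fa_leaf (P := Itm.ok 206) (iqb tpr2239_c)) (BT.Fa_leaf (P := Itm.ok 206) (iqf tpr477_c))))) (BT.Fa_mk (BT.Fa_mk (BT.Fa_mk (BT.Fa_leaf (P := Itm.ok 206) (iqb tpr454_c)) (BT.Fa_leaf (P := Itm.ok 206) (iqb tpr1313_c))) (BT.Fa_mk (BT.Fa_leaf (P := Itm.ok 206) (iqb tpr1764_c)) (BT.Fa_leaf (P := Itm.ok 206) (iqf tpr2488_c)))) (BT.Fa_mk (BT.Fa_mk (BT.Fa_leaf (P := Itm.ok 206) (iqf tpr2215_c)) (BT.Fa_leaf (P := Itm.ok 206) (iqf tpr2244_c))) (BT.Fa_leaf (P := Itm.ok 206) (iqb tpr1464_c))))) (BT.Fa_mk (BT.Fa_mk (BT.Fa_mk (BT.Fa_mk (BT.Fa_leaf (P := Itm.ok 206) (iqf tpr2499_c)) (BT.Fa_leaf (P := Itm.ok 206) (iqf tpr2269_c)))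 (BT.Fa_mk (BT.Fa_leaf (P := Itm.ok 206) (iqb tpr2666_c)) (BT.Fa_leaf (P := Itm.ok 206) (iqb tpr2667_c)))) (BT.Fa_mk (BT.Fa_mk (BT.Fa_leaf (P := Itm.ok 206) (iqb tpr2527_c)) (BT.Fa_leaf (P := Itm.ok 206) (iqf tpr2123_c))) (BT.Fa_leaf (P := Itm.ok 206) (iqf tpr555_c)))) (BT.Fa_mk (BT.Fa_mk (BT.Fa_mk (BT.Fa_leaf (P := Itm.ok 206) (iqb tpr2163_c)) (BT.Fa_leaf (P := Itm.ok 206) (iqb tpr2171_c))) (BT.Fa_mk (BT.Fa_leaf (P := Itm.ok 206) (iqf tpr2190_c)) (BT.Fa_leaf (P := Itm.ok 206) (iqb tpr1138_c)))) (BT.Fa_mk (BT.Fa_mk (BT.Fa_leaf (P := Itm.ok 206) (iqb tpr2166_c)) (BT.Fa_leaf (P := Itm.ok 206) (iqf tpr2126_c))) (BT.Fa_leaf (P := Itm.ok 206) (iqf tpr1001_c))))))) (BT.Fa_mk (BT.Fa_mk (BT.Fa_mk (BT.Fa_mk (BT.Fa_mk (BT.Fa_mk (BT.Fa_leaf (P := Itm.ok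 206) (iqf tpr2131_c)) (BT.Fa_leaf (P := Itm.ok 206) (iqf tpr541_c))) (BT.Fa_mk (BT.Fa_leaf (P := Itm.ok 206) (iqb tpr605_c)) (BT.Fa_leaf (P := Itm.ok 206) (iqf tpr2272_c)))) (BT.Fa_mk (BT.Fa_mk (BT.Fa_leaf (P := Itm.ok 206) (iqf tpr360_c)) (BT.Fa_leaf (P := Itm.ok 206) (iqb tpr2696_c))) (BT.Fa_mk (BT.Fa_leaf (P := Itm.ok 206) (iqb tpr2673_c)) (BT.Fa_leaf (P := Itm.ok 206) (iqf tpr997_c))))) (BT.Fa_mk (BT.Fa_mk (BT.Fa_mk (BT.Fa_leaf (P := Itm.ok 206) (iqb tpr485_c)) (BT.Fa_leaf (P := Itm.ok 206) (iqf tpr2161_c))) (BT.Fa_mk (BT.Fa_leaf (P := Itm.ok 206) (iqb tpr2515_c)) (BT.Fa_leaf (P := Itm.ok 206) (iqf tpr1145_c)))) (BT.Fa_mk (BT.Fa_mk (BT.Fa_leaf (P := Itm.ok 206) (iqf tpr1736_c)) (BT.Fa_leaf (P := Itm.ok 206) (iqb tpr2546_c))) (BT.Fa_leaf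 (P := Itm.ok 206) (iqf tpr1644_c))))) (BT.Fa_mk (BT.Fa_mk (BT.Fa_mk (BT.Fa_mk (BT.Fa_leaf (P := Itm.ok 206) (iqb tpr2676_c)) (BT.Fa_leaf (P := Itm.ok 206) (iqb tpr2128_c))) (BT.Fa_mk (BT.Fa_leaf (P := Itm.ok 206) (iqb tpr2277_c)) (BT.Fa_leaf (P := Itm.ok 206) (iqf tpr2214_c)))) (BT.Fa_mk (BT.Fa_mk (BT.Fa_leaf (P := Itm.ok 206) (iqf tpr2351_c)) (BT.Fa_leaf (P := Itm.ok 206) (iqb tpr2267_c))) (BT.Fa_leaf (P := Itm.ok 206) (iqb tpr2511_c)))) (BT.Fa_mk (BT.Fa_mk (BT.Fa_mk (BT.Fa_leaf (P := Itm.ok 206) (iqf tpr2505_c)) (BT.Fa_leaf (P := Itm.ok 206) (iqb tpr1664_c))) (BT.Fa_mk (BT.Fa_leaf (P := Itm.ok 206) (iqb tpr596_c)) (BT.Fa_leaf (P := Itm.ok 206) (iqb tpr583_c)))) (BT.Fa_mk (BT.Fa_mk (BT.Fa_leaf (P := Itm.ok 206) (iqb tpr239_c)) (BT.Fa_leaf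 (P := Itm.ok 206) (iqb tpr17_c))) (BT.Fa_leaf (P := Itm.ok 206) (iqf tpr2149_c)))))) (BT.Fa_mk (BT.Fa_mk (BT.Fa_mk (BT.Fa_mk (BT.Fa_mk (BT.Fa_leaf (P := Itm.ok 206) (iqb tpr191_c)) (BT.Fa_leaf (P := Itm.ok 206) (iqf tpr1099_c))) (BT.Fa_mk (BT.Fa_leaf (P := Itm.ok 206) (iqf tpr2590_c)) (BT.Fa_leaf (P := Itm.ok 206) (iqf tpr575_c)))) (BT.Fa_mk (BT.Fa_mk (BT.Fa_leaf (P := Itm.ok 206) (iqb tpr683_c)) (BT.Fa_leaf (P := Itm.ok 206) (iqb tpr4_c))) (BT.Fa_mk (BT.Fa_leaf (P := Itm.ok 206) (iqf tpr2588_c)) (BT.Fa_leaf (P := Itm.ok 206) (iqb tpr701_c))))) (BT.Fa_mk (BT.Fa_mk (BT.Fa_mk (BT.Fa_leaf (P := Itm.ok 206) (iqb tpr1900_c)) (BT.Fa_leaf (P := Itm.ok 206) (iqb tpr2545_c))) (BT.Fa_mk (BT.Fa_leaf (P := Itm.ok 206) (iqb tpr2542_c)) (BT.Fa_leaf (P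 := Itm.ok 206) (iqf tpr2013_c)))) (BT.Fa_mk (BT.Fa_mk (BT.Fa_leaf (P := Itm.ok 206) (iqf tpr9_c)) (BT.Fa_leaf (P := Itm.ok 206) (iqb tpr2727_c))) (BT.Fa_leaf (P := Itm.ok 206) (iqb tpr2497_c))))) (BT.Fa_mk (BT.Fa_mk (BT.Fa_mk (BT.Fa_mk (BT.Fa_leaf (P := Itm.ok 206) (iqb tpr2525_c)) (BT.Fa_leaf (P := Itm.ok 206) (iqf tpr2529_c))) (BT.Fa_mk (BT.Fa_leaf (P := Itm.ok 206) (iqf tpr2689_c)) (BT.Fa_leaf (P := Itm.ok 206) (iqb tpr2506_c)))) (BT.Fa_mk (BT.Fa_mk (BT.Fa_leaf (P := Itm.ok 206) (iqb tpr768_c)) (BT.Fa_leaf (P := Itm.ok 206) (iqf tpr2528_c))) (BT.Fa_leaf (P := Itm.ok 206) (iqf tpr1143_c)))) (BT.Fa_mk (BT.Fa_mk (BT.Fa_mk (BT.Fa_leaf (P := Itm.ok 206) (iqb tpr2256_c)) (BT.Fa_leaf (P := Itm.ok 206) (iqf tpr2487_c))) (BT.Fa_mk (BT.Fa_leaf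 (P := Itm.ok 206) (iqb tpr2395_c)) (BT.Fa_leaf (P := Itm.ok 206) (iqb tpr1135_c)))) (BT.Fa_mk (BT.Fa_mk (BT.Fa_leaf (P := Itm.ok 206) (iqb tpr1331_c)) (BT.Fa_leaf (P := Itm.ok 206) (iqf tpr2508_c))) (BT.Fa_leaf (P := Itm.ok 206) (iqb tpr1762_c)))))))))

/-- all words of the class have labels -/
theorem pokNFzByAzA2A2E2A3H2ByAzIzA2H3AyB2EyAzAyBzF : POK 206 xNFzByAzA2A2E2A3H2ByAzIzA2H3AyB2EyAzAyBzF :=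
  y_pok (C0 := ceNFzByAzA2A2E2A3H2ByAzIzA2H3AyB2EyAzAyBzF) (C1 := coNFzByAzA2A2E2A3H2ByAzIzA2H3AyB2EyAzAyBzF) topNFzByAzA2A2E2A3H2ByAzIzA2H3AyB2EyAzAyBzF nbNFzByAzA2A2E2A3H2ByAzIzA2H3AyB2EyAzAyBzF (BT.Fa_of_all iiNFzByAzA2A2E2A3H2ByAzIzA2H3AyB2EyAzAyBzF_c)
    (BT.Fa_mk (BT.Fa_mk (BT.Fa_mk (cyE_spec zeNFzByAzA2A2E2A3H2ByAzIzA2H3AyB2EyAzAyBzF_0) (cyE_spec zeNFzByAzA2A2E2A3H2ByAzIzA2H3AyB2EyAzAyBzF_1)) (BT.Fa_mk (cyE_spec zeNFzByAzA2A2E2A3H2ByAzIzA2H3AyB2EyAzAyBzF_2) (BT.Fa_mk (cyE_spec zeNFzByAzA2A2E2A3H2ByAzIzA2H3AyB2EyAzAyBzF_3) (cyE_spec zeNFzByAzA2A2E2A3H2ByAzIzA2H3AyB2EyAzAyBzF_4)))) (BT.Fa_mk (BT.Fa_mk (BT.Fa_mk (cyE_spec zeNFzByAzA2A2E2A3H2ByAzIzA2H3AyB2EyAzAyBzF_5) (BT.Fa_mk (cyE_spec zeNFzByAzA2A2E2A3H2ByAzIzA2H3AyB2EyAzAyBzF_6)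 (cyE_spec zeNFzByAzA2A2E2A3H2ByAzIzA2H3AyB2EyAzAyBzF_7))) (BT.Fa_mk (cyE_spec zeNFzByAzA2A2E2A3H2ByAzIzA2H3AyB2EyAzAyBzF_8) (cyE_spec zeNFzByAzA2A2E2A3H2ByAzIzA2H3AyB2EyAzAyBzF_9))) (BT.Fa_mk (BT.Fa_mk (cyE_spec zeNFzByAzA2A2E2A3H2ByAzIzA2H3AyB2EyAzAyBzF_10) (cyE_spec zeNFzByAzA2A2E2A3H2ByAzIzA2H3AyB2EyAzAyBzF_11)) (cyE_spec zeNFzByAzA2A2E2A3H2ByAzIzA2H3AyB2EyAzAyBzF_12))))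
    (BT.Fa_mk (BT.Fa_mk (BT.Fa_mk (cyO_spec zoNFzByAzA2A2E2A3H2ByAzIzA2H3AyB2EyAzAyBzF_0) (cyO_spec zoNFzByAzA2A2E2A3H2ByAzIzA2H3AyB2EyAzAyBzF_1)) (BT.Fa_mk (cyO_spec zoNFzByAzA2A2E2A3H2ByAzIzA2H3AyB2EyAzAyBzF_2) (BT.Fa_mk (cyO_spec zoNFzByAzA2A2E2A3H2ByAzIzA2H3AyB2EyAzAyBzF_3) (cyO_spec zoNFzByAzA2A2E2A3H2ByAzIzA2H3AyB2EyAzAyBzF_4)))) (BT.Fa_mk (BT.Fa_mk (BT.Fa_mk (cyO_spec zoNFzByAzA2A2E2A3H2ByAzIzA2H3AyB2EyAzAyBzF_5) (BT.Fa_mk (BT.Fa_mk (cyO_spec zoNFzByAzA2A2E2A3H2ByAzIzA2H3AyB2EyAzAyBzF_6) (cyO_spec zoNFzByAzA2A2E2A3H2ByAzIzA2H3AyB2EyAzAyBzF_7)) (BT.Fa_mk (cyO_spec zoNFzByAzA2A2E2A3H2ByAzIzA2H3AyB2EyAzAyBzF_8) (cyO_spec zoNFzByAzA2A2E2A3H2ByAzIzA2H3AyB2EyAzAyBzF_9)))) (BT.Fa_mk (cyO_spec zoNFzByAzA2A2E2A3H2ByAzIzA2H3AyB2EyAzAyBzF_10)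 (cyO_spec zoNFzByAzA2A2E2A3H2ByAzIzA2H3AyB2EyAzAyBzF_11))) (BT.Fa_mk (BT.Fa_mk (cyO_spec zoNFzByAzA2A2E2A3H2ByAzIzA2H3AyB2EyAzAyBzF_12) (cyO_spec zoNFzByAzA2A2E2A3H2ByAzIzA2H3AyB2EyAzAyBzF_13)) (BT.Fa_mk (cyO_spec zoNFzByAzA2A2E2A3H2ByAzIzA2H3AyB2EyAzAyBzF_14) (cyO_spec zoNFzByAzA2A2E2A3H2ByAzIzA2H3AyB2EyAzAyBzF_15)))))
    iiNFzByAzA2A2E2A3H2ByAzIzA2H3AyB2EyAzAyBzF_k

theorem iiNFzByAzA2A2E2A3H2ByAzIzA2H3AyB2EyAzAzF_k : iiNFzByAzA2A2E2A3H2ByAzIzA2H3AyB2EyAzAzF.Fa (Itm.ok 206) := (BT.Fa_mk (BT.Fa_mk (BT.Fa_mk (BT.Fa_mk (BT.Fa_mk (BT.Fa_mk (BT.Fa_mk (BT.Fa_mk (BT.Fa_leaf (P := Itm.ok 206) (iqb tpr500_c)) (BT.Fa_leaf (P := Itm.ok 206) (iqb tpr5_c))) (BT.Fa_mk (BT.Fa_leaf (P := Itm.ok 206) (iqf tpr8_c)) (BT.Fa_leaf (P := Itm.ok 206) (iqf tpr616_c))))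 (BT.Fa_mk (BT.Fa_mk (BT.Fa_leaf (P := Itm.ok 206) (iqb tpr4_c)) (BT.Fa_leaf (P := Itm.ok 206) (iqf tpr2233_c))) (BT.Fa_leaf (P := Itm.ok 206) (iqb tpr2495_c)))) (BT.Fa_mk (BT.Fa_mk (BT.Fa_mk (BT.Fa_leaf (P := Itm.ok 206) (iqb tpr1765_c)) (BT.Fa_leaf (P := Itm.ok 206) (iqf tpr2123_c))) (BT.Fa_leaf (P := Itm.ok 206) (iqf tpr2125_c))) (BT.Fa_mk (BT.Fa_mk (BT.Fa_leaf (P := Itm.ok 206) (iqf tpr2040_c)) (BT.Fa_leaf (P := Itm.ok 206) (iqb tpr949_c))) (BT.Fa_leaf (P := Itm.ok 206) (iqf tpr990_c))))) (BT.Fa_mk (BT.Fa_mk (BT.Fa_mk (BT.Fa_mk (BT.Fa_leaf (P := Itm.ok 206) (iqb tpr2260_c)) (BT.Fa_leaf (P := Itm.ok 206) (iqf tpr541_c))) (BT.Fa_mk (BT.Fa_leaf (P := Itm.ok 206) (iqf tpr577_c)) (BT.Fa_leaf (P := Itm.ok 206) (iqf tpr1001_c)))) (BT.Fa_mk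 (BT.Fa_mk (BT.Fa_leaf (P := Itm.ok 206) (iqf tpr2486_c)) (BT.Fa_leaf (P := Itm.ok 206) (iqb tpr2532_c))) (BT.Fa_leaf (P := Itm.ok 206) (iqb tpr1647_c)))) (BT.Fa_mk (BT.Fa_mk (BT.Fa_mk (BT.Fa_leaf (P := Itm.ok 206) (iqf tpr2512_c)) (BT.Fa_leaf (P := Itm.ok 206) (iqf tpr2005_c))) (BT.Fa_leaf (P := Itm.ok 206) (iqf tpr2501_c))) (BT.Fa_mk (BT.Fa_mk (BT.Fa_leaf (P := Itm.ok 206) (iqb tpr2489_c)) (BT.Fa_leaf (P := Itm.ok 206) (iqb tpr627_c))) (BT.Fa_leaf (P := Itm.ok 206) (iqb tpr2229_c)))))) (BT.Fa_mk (BT.Fa_mk (BT.Fa_mk (BT.Fa_mk (BT.Fa_mk (BT.Fa_leaf (P := Itm.ok 206) (iqb tpr2490_c)) (BT.Fa_leaf (P := Itm.ok 206) (iqb tpr2507_c))) (BT.Fa_mk (BT.Fa_leaf (P := Itm.ok 206) (iqb tpr2113_c)) (BT.Fa_leaf (P := Itm.ok 206) (iqf tpr2513_c)))) (BT.Fa_mk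 (BT.Fa_mk (BT.Fa_leaf (P := Itm.ok 206) (iqf tpr575_c)) (BT.Fa_leaf (P := Itm.ok 206) (iqf tpr1099_c))) (BT.Fa_leaf (P := Itm.ok 206) (iqf tpr2130_c)))) (BT.Fa_mk (BT.Fa_mk (BT.Fa_mk (BT.Fa_leaf (P := Itm.ok 206) (iqb tpr2666_c)) (BT.Fa_leaf (P := Itm.ok 206) (iqb tpr2227_c))) (BT.Fa_leaf (P := Itm.ok 206) (iqb tpr2189_c))) (BT.Fa_mk (BT.Fa_mk (BT.Fa_leaf (P := Itm.ok 206) (iqf tpr2161_c)) (BT.Fa_leaf (P := Itm.ok 206) (iqb tpr2546_c))) (BT.Fa_leaf (P := Itm.ok 206) (iqb tpr2510_c))))) (BT.Fa_mk (BT.Fa_mk (BT.Fa_mk (BT.Fa_mk (BT.Fa_leaf (P := Itm.ok 206) (iqb tpr2523_c)) (BT.Fa_leaf (P := Itm.ok 206) (iqb tpr2525_c))) (BT.Fa_mk (BT.Fa_leaf (P := Itm.ok 206) (iqf tpr2013_c)) (BT.Fa_leaf (P := Itm.ok 206) (iqb tpr2545_c)))) (BT.Fa_mk (BT.Fa_mk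 (BT.Fa_leaf (P := Itm.ok 206) (iqf tpr1747_c)) (BT.Fa_leaf (P := Itm.ok 206) (iqf tpr2528_c))) (BT.Fa_leaf (P := Itm.ok 206) (iqf tpr2505_c)))) (BT.Fa_mk (BT.Fa_mk (BT.Fa_mk (BT.Fa_leaf (P := Itm.ok 206) (iqb tpr2542_c)) (BT.Fa_leaf (P := Itm.ok 206) (iqf tpr2225_c))) (BT.Fa_leaf (P := Itm.ok 206) (iqf tpr721_c))) (BT.Fa_mk (BT.Fa_mk (BT.Fa_leaf (P := Itm.ok 206) (iqb tpr619_c)) (BT.Fa_leaf (P := Itm.ok 206) (iqf tpr2499_c))) (BT.Fa_leaf (P := Itm.ok 206) (iqb tpr2506_c))))))) (BT.Fa_mk (BT.Fa_mk (BT.Fa_mk (BT.Fa_mk (BT.Fa_mk (BT.Fa_mk (BT.Fa_leaf (P := Itm.ok 206) (iqb tpr51_c)) (BT.Fa_leaf (P := Itm.ok 206) (iqf tpr2164_c))) (BT.Fa_mk (BT.Fa_leaf (P := Itm.ok 206) (iqb tpr2226_c)) (BT.Fa_leaf (P := Itm.ok 206) (iqf tpr2641_c)))) (BT.Fa_mk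 (BT.Fa_mk (BT.Fa_leaf (P := Itm.ok 206) (iqf tpr2688_c)) (BT.Fa_leaf (P := Itm.ok 206) (iqf tpr2154_c))) (BT.Fa_leaf (P := Itm.ok 206) (iqf tpr2196_c)))) (BT.Fa_mk (BT.Fa_mk (BT.Fa_mk (BT.Fa_leaf (P := Itm.ok 206) (iqf tpr9_c)) (BT.Fa_leaf (P := Itm.ok 206) (iqb tpr780_c))) (BT.Fa_leaf (P := Itm.ok 206) (iqf tpr2217_c))) (BT.Fa_mk (BT.Fa_mk (BT.Fa_leaf (P := Itm.ok 206) (iqf tpr2503_c)) (BT.Fa_leaf (P := Itm.ok 206) (iqf tpr2598_c))) (BT.Fa_leaf (P := Itm.ok 206) (iqf tpr2112_c))))) (BT.Fa_mk (BT.Fa_mk (BT.Fa_mk (BT.Fa_mk (BT.Fa_leaf (P := Itm.ok 206) (iqb tpr814_c)) (BT.Fa_leaf (P := Itm.ok 206) (iqb tpr2537_c))) (BT.Fa_mk (BT.Fa_leaf (P := Itm.ok 206) (iqf tpr815_c)) (BT.Fa_leaf (P := Itm.ok 206) (iqb tpr485_c)))) (BT.Fa_mk (BT.Fa_mk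 (BT.Fa_leaf (P := Itm.ok 206) (iqf tpr2244_c)) (BT.Fa_leaf (P := Itm.ok 206) (iqf tpr2230_c))) (BT.Fa_leaf (P := Itm.ok 206) (iqb tpr701_c)))) (BT.Fa_mk (BT.Fa_mk (BT.Fa_mk (BT.Fa_leaf (P := Itm.ok 206) (iqb tpr466_c)) (BT.Fa_leaf (P := Itm.ok 206) (iqf tpr259_c))) (BT.Fa_leaf (P := Itm.ok 206) (iqb tpr82_c))) (BT.Fa_mk (BT.Fa_mk (BT.Fa_leaf (P := Itm.ok 206) (iqf tpr2496_c)) (BT.Fa_leaf (P := Itm.ok 206) (iqb tpr198_c))) (BT.Fa_leaf (P := Itm.ok 206) (iqf tpr780_c)))))) (BT.Fa_mk (BT.Fa_mk (BT.Fa_mk (BT.Fa_mk (BT.Fa_mk (BT.Fa_leaf (P := Itm.ok 206) (iqb tpr1255_c)) (BT.Fa_leaf (P := Itm.ok 206) (iqb tpr2167_c))) (BT.Fa_mk (BT.Fa_leaf (P := Itm.ok 206) (iqb tpr982_c)) (BT.Fa_leaf (P := Itm.ok 206) (iqb tpr555_c)))) (BT.Fa_mk (BT.Fa_mk (BT.Fa_leaf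 (P := Itm.ok 206) (iqf tpr636_c)) (BT.Fa_leaf (P := Itm.ok 206) (iqb tpr210_c))) (BT.Fa_leaf (P := Itm.ok 206) (iqb tpr419_c)))) (BT.Fa_mk (BT.Fa_mk (BT.Fa_mk (BT.Fa_leaf (P := Itm.ok 206) (iqf tpr615_c)) (BT.Fa_leaf (P := Itm.ok 206) (iqf tpr1193_c))) (BT.Fa_leaf (P := Itm.ok 206) (iqf tpr504_c))) (BT.Fa_mk (BT.Fa_mk (BT.Fa_leaf (P := Itm.ok 206) (iqf tpr499_c)) (BT.Fa_leaf (P := Itm.ok 206) (iqf tpr33_c))) (BT.Fa_leaf (P := Itm.ok 206) (iqb tpr605_c))))) (BT.Fa_mk (BT.Fa_mk (BT.Fa_mk (BT.Fa_mk (BT.Fa_leaf (P := Itm.ok 206) (iqf tpr2488_c)) (BT.Fa_leaf (P := Itm.ok 206) (iqb tpr168_c))) (BT.Fa_leaf (P := Itm.ok 206) (iqb tpr2163_c))) (BT.Fa_mk (BT.Fa_mk (BT.Fa_leaf (P := Itm.ok 206) (iqf tpr10_c)) (BT.Fa_leaf (P := Itm.ok 206) (iqf tpr2242_c)))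 (BT.Fa_leaf (P := Itm.ok 206) (iqb tpr507_c)))) (BT.Fa_mk (BT.Fa_mk (BT.Fa_mk (BT.Fa_leaf (P := Itm.ok 206) (iqb tpr2492_c)) (BT.Fa_leaf (P := Itm.ok 206) (iqb tpr1653_c))) (BT.Fa_leaf (P := Itm.ok 206) (iqb tpr1754_c))) (BT.Fa_mk (BT.Fa_mk (BT.Fa_leaf (P := Itm.ok 206) (iqf tpr239_c)) (BT.Fa_leaf (P := Itm.ok 206) (iqb tpr1215_c))) (BT.Fa_leaf (P := Itm.ok 206) (iqb tpr1733_c)))))))) (BT.Fa_mk (BT.Fa_mk (BT.Fa_mk (BT.Fa_mk (BT.Fa_mk (BT.Fa_mk (BT.Fa_mk (BT.Fa_leaf (P := Itm.ok 206) (iqb tpr1112_c)) (BT.Fa_leaf (P := Itm.ok 206) (iqf tpr2149_c))) (BT.Fa_mk (BT.Fa_leaf (P := Itm.ok 206) (iqf tpr953_c)) (BT.Fa_leaf (P := Itm.ok 206) (iqf tpr2208_c)))) (BT.Fa_mk (BT.Fa_mk (BT.Fa_leaf (P := Itm.ok 206) (iqb tpr2334_c)) (BT.Fa_leaf (P := Itm.ok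 206) (iqb tpr656_c))) (BT.Fa_leaf (P := Itm.ok 206) (iqb tpr1767_c)))) (BT.Fa_mk (BT.Fa_mk (BT.Fa_mk (BT.Fa_leaf (P := Itm.ok 206) (iqb tpr2526_c)) (BT.Fa_leaf (P := Itm.ok 206) (iqf tpr518_c))) (BT.Fa_leaf (P := Itm.ok 206) (iqf tpr167_c))) (BT.Fa_mk (BT.Fa_mk (BT.Fa_leaf (P := Itm.ok 206) (iqf tpr1028_c)) (BT.Fa_leaf (P := Itm.ok 206) (iqf tpr11_c))) (BT.Fa_leaf (P := Itm.ok 206) (iqb tpr680_c))))) (BT.Fa_mk (BT.Fa_mk (BT.Fa_mk (BT.Fa_mk (BT.Fa_leaf (P := Itm.ok 206) (iqb tpr744_c)) (BT.Fa_leaf (P := Itm.ok 206) (iqf tpr2206_c))) (BT.Fa_mk (BT.Fa_leaf (P := Itm.ok 206) (iqb tpr508_c)) (BT.Fa_leaf (P := Itm.ok 206) (iqf tpr1065_c)))) (BT.Fa_mk (BT.Fa_mk (BT.Fa_leaf (P := Itm.ok 206) (iqf tpr581_c)) (BT.Fa_leaf (P := Itm.ok 206) (iqf tpr1257_c)))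 (BT.Fa_leaf (P := Itm.ok 206) (iqf tpr2137_c)))) (BT.Fa_mk (BT.Fa_mk (BT.Fa_mk (BT.Fa_leaf (P := Itm.ok 206) (iqf tpr2114_c)) (BT.Fa_leaf (P := Itm.ok 206) (iqb tpr216_c))) (BT.Fa_leaf (P := Itm.ok 206) (iqf tpr1247_c))) (BT.Fa_mk (BT.Fa_mk (BT.Fa_leaf (P := Itm.ok 206) (iqb tpr456_c)) (BT.Fa_leaf (P := Itm.ok 206) (iqb tpr2290_c))) (BT.Fa_leaf (P := Itm.ok 206) (iqb tpr2116_c)))))) (BT.Fa_mk (BT.Fa_mk (BT.Fa_mk (BT.Fa_mk (BT.Fa_mk (BT.Fa_leaf (P := Itm.ok 206) (iqf tpr1547_c)) (BT.Fa_leaf (P := Itm.ok 206) (iqf tpr477_c))) (BT.Fa_mk (BT.Fa_leaf (P := Itm.ok 206) (iqb tpr2262_c)) (BT.Fa_leaf (P := Itm.ok 206) (iqb tpr479_c)))) (BT.Fa_mk (BT.Fa_mk (BT.Fa_leaf (P := Itm.ok 206) (iqb tpr454_c)) (BT.Fa_leaf (P := Itm.ok 206) (iqb tpr1311_c)))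 (BT.Fa_leaf (P := Itm.ok 206) (iqb tpr1313_c)))) (BT.Fa_mk (BT.Fa_mk (BT.Fa_mk (BT.Fa_leaf (P := Itm.ok 206) (iqb tpr1764_c)) (BT.Fa_leaf (P := Itm.ok 206) (iqf tpr2491_c))) (BT.Fa_leaf (P := Itm.ok 206) (iqb tpr2171_c))) (BT.Fa_mk (BT.Fa_mk (BT.Fa_leaf (P := Itm.ok 206) (iqf tpr555_c)) (BT.Fa_leaf (P := Itm.ok 206) (iqf tpr2131_c))) (BT.Fa_leaf (P := Itm.ok 206) (iqf tpr2187_c))))) (BT.Fa_mk (BT.Fa_mk (BT.Fa_mk (BT.Fa_mk (BT.Fa_leaf (P := Itm.ok 206) (iqb tpr2150_c)) (BT.Fa_leaf (P := Itm.ok 206) (iqb tpr506_c))) (BT.Fa_leaf (P := Itm.ok 206) (iqb tpr2231_c))) (BT.Fa_mk (BT.Fa_mk (BT.Fa_leaf (P := Itm.ok 206) (iqb tpr2166_c)) (BT.Fa_leaf (P := Itm.ok 206) (iqb tpr2493_c))) (BT.Fa_leaf (P := Itm.ok 206) (iqf tpr360_c)))) (BT.Fa_mk (BT.Fa_mk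 (BT.Fa_mk (BT.Fa_leaf (P := Itm.ok 206) (iqb tpr2682_c)) (BT.Fa_leaf (P := Itm.ok 206) (iqb tpr2153_c))) (BT.Fa_leaf (P := Itm.ok 206) (iqf tpr2599_c))) (BT.Fa_mk (BT.Fa_mk (BT.Fa_leaf (P := Itm.ok 206) (iqb tpr2239_c)) (BT.Fa_leaf (P := Itm.ok 206) (iqf tpr997_c))) (BT.Fa_leaf (P := Itm.ok 206) (iqf tpr2516_c))))))) (BT.Fa_mk (BT.Fa_mk (BT.Fa_mk (BT.Fa_mk (BT.Fa_mk (BT.Fa_mk (BT.Fa_leaf (P := Itm.ok 206) (iqf tpr2504_c)) (BT.Fa_leaf (P := Itm.ok 206) (iqb tpr2133_c))) (BT.Fa_mk (BT.Fa_leaf (P := Itm.ok 206) (iqf tpr2509_c)) (BT.Fa_leaf (P := Itm.ok 206) (iqb tpr2543_c)))) (BT.Fa_mk (BT.Fa_mk (BT.Fa_leaf (P := Itm.ok 206) (iqf tpr2214_c)) (BT.Fa_leaf (P := Itm.ok 206) (iqb tpr1138_c))) (BT.Fa_leaf (P := Itm.ok 206) (iqf tpr2215_c)))) (BT.Fa_mk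 (BT.Fa_mk (BT.Fa_mk (BT.Fa_leaf (P := Itm.ok 206) (iqb tpr2177_c)) (BT.Fa_leaf (P := Itm.ok 206) (iqb tpr596_c))) (BT.Fa_leaf (P := Itm.ok 206) (iqf tpr2529_c))) (BT.Fa_mk (BT.Fa_mk (BT.Fa_leaf (P := Itm.ok 206) (iqf tpr2269_c)) (BT.Fa_leaf (P := Itm.ok 206) (iqf tpr2524_c))) (BT.Fa_leaf (P := Itm.ok 206) (iqf tpr2351_c))))) (BT.Fa_mk (BT.Fa_mk (BT.Fa_mk (BT.Fa_mk (BT.Fa_leaf (P := Itm.ok 206) (iqb tpr2511_c)) (BT.Fa_leaf (P := Itm.ok 206) (iqb tpr1664_c))) (BT.Fa_mk (BT.Fa_leaf (P := Itm.ok 206) (iqf tpr2278_c)) (BT.Fa_leaf (P := Itm.ok 206) (iqb tpr2259_c)))) (BT.Fa_mk (BT.Fa_mk (BT.Fa_leaf (P := Itm.ok 206) (iqf tpr2597_c)) (BT.Fa_leaf (P := Itm.ok 206) (iqf tpr2126_c))) (BT.Fa_leaf (P := Itm.ok 206) (iqf tpr1736_c)))) (BT.Fa_mk (BT.Fa_mk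 (BT.Fa_mk (BT.Fa_leaf (P := Itm.ok 206) (iqf tpr2252_c)) (BT.Fa_leaf (P := Itm.ok 206) (iqf tpr1692_c))) (BT.Fa_leaf (P := Itm.ok 206) (iqf tpr2819_c))) (BT.Fa_mk (BT.Fa_mk (BT.Fa_leaf (P := Itm.ok 206) (iqb tpr2673_c)) (BT.Fa_leaf (P := Itm.ok 206) (iqf tpr2111_c))) (BT.Fa_leaf (P := Itm.ok 206) (iqf tpr2279_c)))))) (BT.Fa_mk (BT.Fa_mk (BT.Fa_mk (BT.Fa_mk (BT.Fa_mk (BT.Fa_leaf (P := Itm.ok 206) (iqb tpr583_c)) (BT.Fa_leaf (P := Itm.ok 206) (iqb tpr239_c))) (BT.Fa_mk (BT.Fa_leaf (P := Itm.ok 206) (iqb tpr527_c)) (BT.Fa_leaf (P := Itm.ok 206) (iqb tpr617_c)))) (BT.Fa_mk (BT.Fa_mk (BT.Fa_leaf (P := Itm.ok 206) (iqf tpr294_c)) (BT.Fa_leaf (P := Itm.ok 206) (iqf tpr2590_c))) (BT.Fa_leaf (P := Itm.ok 206) (iqb tpr683_c)))) (BT.Fa_mk (BT.Fa_mk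 (BT.Fa_mk (BT.Fa_leaf (P := Itm.ok 206) (iqf tpr2498_c)) (BT.Fa_leaf (P := Itm.ok 206) (iqb tpr2497_c))) (BT.Fa_leaf (P := Itm.ok 206) (iqf tpr2588_c))) (BT.Fa_mk (BT.Fa_mk (BT.Fa_leaf (P := Itm.ok 206) (iqb tpr2356_c)) (BT.Fa_leaf (P := Itm.ok 206) (iqf tpr2544_c))) (BT.Fa_leaf (P := Itm.ok 206) (iqb tpr1051_c))))) (BT.Fa_mk (BT.Fa_mk (BT.Fa_mk (BT.Fa_mk (BT.Fa_leaf (P := Itm.ok 206) (iqb tpr1900_c)) (BT.Fa_leaf (P := Itm.ok 206) (iqf tpr2689_c))) (BT.Fa_leaf (P := Itm.ok 206) (iqb tpr2696_c))) (BT.Fa_mk (BT.Fa_mk (BT.Fa_leaf (P := Itm.ok 206) (iqb tpr2683_c)) (BT.Fa_leaf (P := Itm.ok 206) (iqf tpr1143_c))) (BT.Fa_leaf (P := Itm.ok 206) (iqf tpr113_c)))) (BT.Fa_mk (BT.Fa_mk (BT.Fa_mk (BT.Fa_leaf (P := Itm.ok 206) (iqf tpr2487_c)) (BT.Fa_leaf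 (P := Itm.ok 206) (iqb tpr2178_c))) (BT.Fa_leaf (P := Itm.ok 206) (iqb tpr2500_c))) (BT.Fa_mk (BT.Fa_mk (BT.Fa_leaf (P := Itm.ok 206) (iqb tpr582_c)) (BT.Fa_leaf (P := Itm.ok 206) (iqb tpr247_c))) (BT.Fa_leaf (P := Itm.ok 206) (iqf tpr2190_c)))))))))

/-- all words of the class have labels -/
theorem pokNFzByAzA2A2E2A3H2ByAzIzA2H3AyB2EyAzAzF : POK 206 xNFzByAzA2A2E2A3H2ByAzIzA2H3AyB2EyAzAzF :=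
  y_pok (C0 := ceNFzByAzA2A2E2A3H2ByAzIzA2H3AyB2EyAzAzF) (C1 := coNFzByAzA2A2E2A3H2ByAzIzA2H3AyB2EyAzAzF) topNFzByAzA2A2E2A3H2ByAzIzA2H3AyB2EyAzAzF nbNFzByAzA2A2E2A3H2ByAzIzA2H3AyB2EyAzAzF (BT.Fa_of_all iiNFzByAzA2A2E2A3H2ByAzIzA2H3AyB2EyAzAzF_c)
    (BT.Fa_mk (BT.Fa_mk (cyE_spec zeNFzByAzA2A2E2A3H2ByAzIzA2H3AyB2EyAzAzF_0) (cyE_spec zeNFzByAzA2A2E2A3H2ByAzIzA2H3AyB2EyAzAzF_1)) (BT.Fa_mk (BT.Fa_mk (cyE_spec zeNFzByAzA2A2E2A3H2ByAzIzA2H3AyB2EyAzAzF_2) (cyE_spec zeNFzByAzA2A2E2A3H2ByAzIzA2H3AyB2EyAzAzF_3)) (BT.Fa_mk (cyE_spec zeNFzByAzA2A2E2A3H2ByAzIzA2H3AyB2EyAzAzF_4) (cyE_spec zeNFzByAzA2A2E2A3H2ByAzIzA2H3AyB2EyAzAzF_5))))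
    (BT.Fa_mk (BT.Fa_mk (cyO_spec zoNFzByAzA2A2E2A3H2ByAzIzA2H3AyB2EyAzAzF_0) (cyO_spec zoNFzByAzA2A2E2A3H2ByAzIzA2H3AyB2EyAzAzF_1)) (BT.Fa_mk (BT.Fa_mk (cyO_spec zoNFzByAzA2A2E2A3H2ByAzIzA2H3AyB2EyAzAzF_2) (BT.Fa_mk (cyO_spec zoNFzByAzA2A2E2A3H2ByAzIzA2H3AyB2EyAzAzF_3) (cyO_spec zoNFzByAzA2A2E2A3H2ByAzIzA2H3AyB2EyAzAzF_4))) (BT.Fa_mk (cyO_spec zoNFzByAzA2A2E2A3H2ByAzIzA2H3AyB2EyAzAzF_5) (cyO_spec zoNFzByAzA2A2E2A3H2ByAzIzA2H3AyB2EyAzAzF_6))))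
    iiNFzByAzA2A2E2A3H2ByAzIzA2H3AyB2EyAzAzF_k

theorem iiNFzByAzA2A3H3AyB2EzF_k : iiNFzByAzA2A3H3AyB2EzF.Fa (Itm.ok 206) := (BT.Fa_mk (BT.Fa_mk (BT.Fa_mk (BT.Fa_mk (BT.Fa_mk (BT.Fa_mk (BT.Fa_mk (BT.Fa_mk (BT.Fa_leaf (P := Itm.ok 206) (iqb tpr5_c)) (BT.Fa_leaf (P := Itm.ok 206) (iqb tpr656_c))) (BT.Fa_mk (BT.Fa_leaf (P := Itm.ok 206) (iqb tpr168_c)) (BT.Fa_leaf (P := Itm.ok 206) (iqf tpr90_c)))) (BT.Fa_mk (BT.Fa_mk (BT.Fa_leaf (P := Itm.ok 206) (iqf tpr499_c)) (BT.Fa_leaf (P := Itm.ok 206) (iqf tpr236_c))) (BT.Fa_leaf (P := Itm.ok 206) (iqf tpr48_c)))) (BT.Fa_mk (BT.Fa_mk (BT.Fa_mk (BT.Fa_leaf (P := Itm.ok 206) (iqb tpr1532_c)) (BT.Fa_leaf (P := Itm.ok 206) (iqb tpr216_c))) (BT.Fa_mk (BT.Fa_leaf (P := Itm.ok 206) (iqb tpr92_c)) (BT.Fa_leaf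 (P := Itm.ok 206) (iqf tpr644_c)))) (BT.Fa_mk (BT.Fa_mk (BT.Fa_leaf (P := Itm.ok 206) (iqf tpr223_c)) (BT.Fa_leaf (P := Itm.ok 206) (iqf tpr31_c))) (BT.Fa_leaf (P := Itm.ok 206) (iqb tpr12_c))))) (BT.Fa_mk (BT.Fa_mk (BT.Fa_mk (BT.Fa_mk (BT.Fa_leaf (P := Itm.ok 206) (iqf tpr1559_c)) (BT.Fa_leaf (P := Itm.ok 206) (iqb tpr225_c))) (BT.Fa_mk (BT.Fa_leaf (P := Itm.ok 206) (iqb tpr2078_c)) (BT.Fa_leaf (P := Itm.ok 206) (iqf tpr589_c)))) (BT.Fa_mk (BT.Fa_mk (BT.Fa_leaf (P := Itm.ok 206) (iqf tpr44_c)) (BT.Fa_leaf (P := Itm.ok 206) (iqf tpr222_c))) (BT.Fa_leaf (P := Itm.ok 206) (iqb tpr611_c)))) (BT.Fa_mk (BT.Fa_mk (BT.Fa_mk (BT.Fa_leaf (P := Itm.ok 206) (iqf tpr247_c)) (BT.Fa_leaf (P := Itm.ok 206) (iqf tpr133_c))) (BT.Fa_leaf (P := Itm.ok 206)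 (iqb tpr573_c))) (BT.Fa_mk (BT.Fa_mk (BT.Fa_leaf (P := Itm.ok 206) (iqb tpr555_c)) (BT.Fa_leaf (P := Itm.ok 206) (iqf tpr106_c))) (BT.Fa_leaf (P := Itm.ok 206) (iqb tpr568_c)))))) (BT.Fa_mk (BT.Fa_mk (BT.Fa_mk (BT.Fa_mk (BT.Fa_mk (BT.Fa_leaf (P := Itm.ok 206) (iqb tpr681_c)) (BT.Fa_leaf (P := Itm.ok 206) (iqf tpr72_c))) (BT.Fa_mk (BT.Fa_leaf (P := Itm.ok 206) (iqb tpr210_c)) (BT.Fa_leaf (P := Itm.ok 206) (iqf tpr1406_c)))) (BT.Fa_mk (BT.Fa_mk (BT.Fa_leaf (P := Itm.ok 206) (iqb tpr45_c)) (BT.Fa_leaf (P := Itm.ok 206) (iqb tpr572_c))) (BT.Fa_leaf (P := Itm.ok 206) (iqb tpr89_c)))) (BT.Fa_mk (BT.Fa_mk (BT.Fa_mk (BT.Fa_leaf (P := Itm.ok 206) (iqb tpr605_c)) (BT.Fa_leaf (P := Itm.ok 206) (iqf tpr804_c))) (BT.Fa_mk (BT.Fa_leaf (P := Itm.ok 206)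 (iqb tpr251_c)) (BT.Fa_leaf (P := Itm.ok 206) (iqf tpr39_c)))) (BT.Fa_mk (BT.Fa_mk (BT.Fa_leaf (P := Itm.ok 206) (iqf tpr606_c)) (BT.Fa_leaf (P := Itm.ok 206) (iqf tpr506_c))) (BT.Fa_leaf (P := Itm.ok 206) (iqf tpr429_c))))) (BT.Fa_mk (BT.Fa_mk (BT.Fa_mk (BT.Fa_mk (BT.Fa_leaf (P := Itm.ok 206) (iqb tpr562_c)) (BT.Fa_leaf (P := Itm.ok 206) (iqb tpr1584_c))) (BT.Fa_mk (BT.Fa_leaf (P := Itm.ok 206) (iqf tpr645_c)) (BT.Fa_leaf (P := Itm.ok 206) (iqf tpr583_c)))) (BT.Fa_mk (BT.Fa_mk (BT.Fa_leaf (P := Itm.ok 206) (iqb tpr609_c)) (BT.Fa_leaf (P := Itm.ok 206) (iqf tpr582_c))) (BT.Fa_leaf (P := Itm.ok 206) (iqf tpr24_c)))) (BT.Fa_mk (BT.Fa_mk (BT.Fa_mk (BT.Fa_leaf (P := Itm.ok 206) (iqf tpr28_c)) (BT.Fa_leaf (P := Itm.ok 206) (iqf tpr255_c))) (BT.Fa_leaf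 (P := Itm.ok 206) (iqb tpr596_c))) (BT.Fa_mk (BT.Fa_mk (BT.Fa_leaf (P := Itm.ok 206) (iqb tpr526_c)) (BT.Fa_leaf (P := Itm.ok 206) (iqf tpr23_c))) (BT.Fa_leaf (P := Itm.ok 206) (iqb tpr500_c))))))) (BT.Fa_mk (BT.Fa_mk (BT.Fa_mk (BT.Fa_mk (BT.Fa_mk (BT.Fa_mk (BT.Fa_leaf (P := Itm.ok 206) (iqb tpr245_c)) (BT.Fa_leaf (P := Itm.ok 206) (iqb tpr584_c))) (BT.Fa_mk (BT.Fa_leaf (P := Itm.ok 206) (iqb tpr51_c)) (BT.Fa_leaf (P := Itm.ok 206) (iqf tpr1542_c)))) (BT.Fa_mk (BT.Fa_mk (BT.Fa_leaf (P := Itm.ok 206) (iqf tpr816_c)) (BT.Fa_leaf (P := Itm.ok 206) (iqf tpr682_c))) (BT.Fa_leaf (P := Itm.ok 206) (iqb tpr721_c)))) (BT.Fa_mk (BT.Fa_mk (BT.Fa_mk (BT.Fa_leaf (P := Itm.ok 206) (iqf tpr789_c)) (BT.Fa_leaf (P := Itm.ok 206) (iqf tpr939_c))) (BT.Fa_mk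 (BT.Fa_leaf (P := Itm.ok 206) (iqb tpr293_c)) (BT.Fa_leaf (P := Itm.ok 206) (iqb tpr50_c)))) (BT.Fa_mk (BT.Fa_mk (BT.Fa_leaf (P := Itm.ok 206) (iqf tpr636_c)) (BT.Fa_leaf (P := Itm.ok 206) (iqb tpr733_c))) (BT.Fa_leaf (P := Itm.ok 206) (iqf tpr49_c))))) (BT.Fa_mk (BT.Fa_mk (BT.Fa_mk (BT.Fa_mk (BT.Fa_leaf (P := Itm.ok 206) (iqb tpr2101_c)) (BT.Fa_leaf (P := Itm.ok 206) (iqb tpr970_c))) (BT.Fa_mk (BT.Fa_leaf (P := Itm.ok 206) (iqf tpr556_c)) (BT.Fa_leaf (P := Itm.ok 206) (iqb tpr2381_c)))) (BT.Fa_mk (BT.Fa_mk (BT.Fa_leaf (P := Itm.ok 206) (iqf tpr615_c)) (BT.Fa_leaf (P := Itm.ok 206) (iqf tpr623_c))) (BT.Fa_leaf (P := Itm.ok 206) (iqf tpr700_c)))) (BT.Fa_mk (BT.Fa_mk (BT.Fa_mk (BT.Fa_leaf (P := Itm.ok 206) (iqf tpr2401_c)) (BT.Fa_leaf (P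 := Itm.ok 206) (iqb tpr518_c))) (BT.Fa_leaf (P := Itm.ok 206) (iqf tpr2402_c))) (BT.Fa_mk (BT.Fa_mk (BT.Fa_leaf (P := Itm.ok 206) (iqb tpr614_c)) (BT.Fa_leaf (P := Itm.ok 206) (iqf tpr782_c))) (BT.Fa_leaf (P := Itm.ok 206) (iqb tpr2110_c)))))) (BT.Fa_mk (BT.Fa_mk (BT.Fa_mk (BT.Fa_mk (BT.Fa_mk (BT.Fa_leaf (P := Itm.ok 206) (iqb tpr658_c)) (BT.Fa_leaf (P := Itm.ok 206) (iqb tpr2403_c))) (BT.Fa_mk (BT.Fa_leaf (P := Itm.ok 206) (iqb tpr454_c)) (BT.Fa_leaf (P := Itm.ok 206) (iqb tpr541_c)))) (BT.Fa_mk (BT.Fa_mk (BT.Fa_leaf (P := Itm.ok 206) (iqb tpr456_c)) (BT.Fa_leaf (P := Itm.ok 206) (iqf tpr20_c))) (BT.Fa_leaf (P := Itm.ok 206) (iqb tpr1355_c)))) (BT.Fa_mk (BT.Fa_mk (BT.Fa_mk (BT.Fa_leaf (P := Itm.ok 206) (iqf tpr21_c)) (BT.Fa_leaf (P :=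 Itm.ok 206) (iqb tpr1334_c))) (BT.Fa_leaf (P := Itm.ok 206) (iqf tpr477_c))) (BT.Fa_mk (BT.Fa_mk (BT.Fa_leaf (P := Itm.ok 206) (iqb tpr479_c)) (BT.Fa_leaf (P := Itm.ok 206) (iqb tpr1311_c))) (BT.Fa_leaf (P := Itm.ok 206) (iqb tpr1305_c))))) (BT.Fa_mk (BT.Fa_mk (BT.Fa_mk (BT.Fa_mk (BT.Fa_leaf (P := Itm.ok 206) (iqb tpr1313_c)) (BT.Fa_leaf (P := Itm.ok 206) (iqf tpr788_c))) (BT.Fa_mk (BT.Fa_leaf (P := Itm.ok 206) (iqf tpr2111_c)) (BT.Fa_leaf (P := Itm.ok 206) (iqb tpr977_c)))) (BT.Fa_mk (BT.Fa_mk (BT.Fa_leaf (P := Itm.ok 206) (iqb tpr1325_c)) (BT.Fa_leaf (P := Itm.ok 206) (iqb tpr803_c))) (BT.Fa_leaf (P := Itm.ok 206) (iqb tpr2404_c)))) (BT.Fa_mk (BT.Fa_mk (BT.Fa_mk (BT.Fa_leaf (P := Itm.ok 206) (iqb tpr485_c)) (BT.Fa_leaf (P := Itm.ok 206)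 (iqf tpr2405_c))) (BT.Fa_leaf (P := Itm.ok 206) (iqf tpr2084_c))) (BT.Fa_mk (BT.Fa_mk (BT.Fa_leaf (P := Itm.ok 206) (iqb tpr1341_c)) (BT.Fa_leaf (P := Itm.ok 206) (iqf tpr2406_c))) (BT.Fa_leaf (P := Itm.ok 206) (iqf tpr2393_c)))))))) (BT.Fa_mk (BT.Fa_mk (BT.Fa_mk (BT.Fa_mk (BT.Fa_mk (BT.Fa_mk (BT.Fa_mk (BT.Fa_leaf (P := Itm.ok 206) (iqf tpr63_c)) (BT.Fa_leaf (P := Itm.ok 206) (iqb tpr35_c))) (BT.Fa_mk (BT.Fa_leaf (P := Itm.ok 206) (iqb tpr1464_c)) (BT.Fa_leaf (P := Itm.ok 206) (iqf tpr2247_c)))) (BT.Fa_mk (BT.Fa_mk (BT.Fa_leaf (P := Itm.ok 206) (iqb tpr2407_c)) (BT.Fa_leaf (P := Itm.ok 206) (iqb tpr1573_c))) (BT.Fa_leaf (P := Itm.ok 206) (iqf tpr2408_c)))) (BT.Fa_mk (BT.Fa_mk (BT.Fa_mk (BT.Fa_leaf (P := Itm.ok 206) (iqb tpr478_c)) (BT.Fa_leaf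 (P := Itm.ok 206) (iqb tpr483_c))) (BT.Fa_mk (BT.Fa_leaf (P := Itm.ok 206) (iqb tpr2238_c)) (BT.Fa_leaf (P := Itm.ok 206) (iqf tpr2409_c)))) (BT.Fa_mk (BT.Fa_mk (BT.Fa_leaf (P := Itm.ok 206) (iqf tpr33_c)) (BT.Fa_leaf (P := Itm.ok 206) (iqf tpr761_c))) (BT.Fa_leaf (P := Itm.ok 206) (iqf tpr2242_c))))) (BT.Fa_mk (BT.Fa_mk (BT.Fa_mk (BT.Fa_mk (BT.Fa_leaf (P := Itm.ok 206) (iqf tpr2410_c)) (BT.Fa_leaf (P := Itm.ok 206) (iqf tpr579_c))) (BT.Fa_mk (BT.Fa_leaf (P := Itm.ok 206) (iqb tpr1450_c)) (BT.Fa_leaf (P := Itm.ok 206) (iqf tpr941_c)))) (BT.Fa_mk (BT.Fa_mk (BT.Fa_leaf (P := Itm.ok 206) (iqb tpr1730_c)) (BT.Fa_leaf (P := Itm.ok 206) (iqb tpr617_c))) (BT.Fa_leaf (P := Itm.ok 206) (iqb tpr624_c)))) (BT.Fa_mk (BT.Fa_mk (BT.Fa_mk (BT.Fa_leaf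 (P := Itm.ok 206) (iqf tpr1346_c)) (BT.Fa_leaf (P := Itm.ok 206) (iqb tpr2411_c))) (BT.Fa_leaf (P := Itm.ok 206) (iqb tpr715_c))) (BT.Fa_mk (BT.Fa_mk (BT.Fa_leaf (P := Itm.ok 206) (iqf tpr1343_c)) (BT.Fa_leaf (P := Itm.ok 206) (iqb tpr1475_c))) (BT.Fa_leaf (P := Itm.ok 206) (iqf tpr2412_c)))))) (BT.Fa_mk (BT.Fa_mk (BT.Fa_mk (BT.Fa_mk (BT.Fa_mk (BT.Fa_leaf (P := Itm.ok 206) (iqb tpr1309_c)) (BT.Fa_leaf (P := Itm.ok 206) (iqf tpr1358_c))) (BT.Fa_mk (BT.Fa_leaf (P := Itm.ok 206) (iqb tpr1121_c)) (BT.Fa_leaf (P := Itm.ok 206) (iqb tpr2413_c)))) (BT.Fa_mk (BT.Fa_mk (BT.Fa_leaf (P := Itm.ok 206) (iqf tpr2109_c)) (BT.Fa_leaf (P := Itm.ok 206) (iqf tpr677_c))) (BT.Fa_leaf (P := Itm.ok 206) (iqb tpr131_c)))) (BT.Fa_mk (BT.Fa_mk (BT.Fa_mk (BT.Fa_leaf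 (P := Itm.ok 206) (iqb tpr110_c)) (BT.Fa_leaf (P := Itm.ok 206) (iqb tpr1126_c))) (BT.Fa_mk (BT.Fa_leaf (P := Itm.ok 206) (iqb tpr111_c)) (BT.Fa_leaf (P := Itm.ok 206) (iqf tpr2392_c)))) (BT.Fa_mk (BT.Fa_mk (BT.Fa_leaf (P := Itm.ok 206) (iqb tpr2414_c)) (BT.Fa_leaf (P := Itm.ok 206) (iqf tpr564_c))) (BT.Fa_leaf (P := Itm.ok 206) (iqf tpr1882_c))))) (BT.Fa_mk (BT.Fa_mk (BT.Fa_mk (BT.Fa_mk (BT.Fa_leaf (P := Itm.ok 206) (iqb tpr2415_c)) (BT.Fa_leaf (P := Itm.ok 206) (iqb tpr1395_c))) (BT.Fa_mk (BT.Fa_leaf (P := Itm.ok 206) (iqf tpr2416_c)) (BT.Fa_leaf (P := Itm.ok 206) (iqb tpr2417_c)))) (BT.Fa_mk (BT.Fa_mk (BT.Fa_leaf (P := Itm.ok 206) (iqb tpr2418_c)) (BT.Fa_leaf (P := Itm.ok 206) (iqb tpr2241_c))) (BT.Fa_leaf (P := Itm.ok 206) (iqf tpr198_c))))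 (BT.Fa_mk (BT.Fa_mk (BT.Fa_mk (BT.Fa_leaf (P := Itm.ok 206) (iqf tpr508_c)) (BT.Fa_leaf (P := Itm.ok 206) (iqb tpr8_c))) (BT.Fa_leaf (P := Itm.ok 206) (iqb tpr608_c))) (BT.Fa_mk (BT.Fa_mk (BT.Fa_leaf (P := Itm.ok 206) (iqb tpr968_c)) (BT.Fa_leaf (P := Itm.ok 206) (iqf tpr2075_c))) (BT.Fa_leaf (P := Itm.ok 206) (iqb tpr393_c))))))) (BT.Fa_mk (BT.Fa_mk (BT.Fa_mk (BT.Fa_mk (BT.Fa_mk (BT.Fa_mk (BT.Fa_leaf (P := Itm.ok 206) (iqb tpr25_c)) (BT.Fa_leaf (P := Itm.ok 206) (iqb tpr641_c))) (BT.Fa_mk (BT.Fa_leaf (P := Itm.ok 206) (iqb tpr619_c)) (BT.Fa_leaf (P := Itm.ok 206) (iqb tpr1540_c)))) (BT.Fa_mk (BT.Fa_mk (BT.Fa_leaf (P := Itm.ok 206) (iqb tpr548_c)) (BT.Fa_leaf (P := Itm.ok 206) (iqb tpr465_c))) (BT.Fa_leaf (P := Itm.ok 206) (iqf tpr97_c))))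 (BT.Fa_mk (BT.Fa_mk (BT.Fa_mk (BT.Fa_leaf (P := Itm.ok 206) (iqb tpr1826_c)) (BT.Fa_leaf (P := Itm.ok 206) (iqb tpr74_c))) (BT.Fa_mk (BT.Fa_leaf (P := Itm.ok 206) (iqf tpr504_c)) (BT.Fa_leaf (P := Itm.ok 206) (iqb tpr628_c)))) (BT.Fa_mk (BT.Fa_mk (BT.Fa_leaf (P := Itm.ok 206) (iqb tpr91_c)) (BT.Fa_leaf (P := Itm.ok 206) (iqf tpr324_c))) (BT.Fa_leaf (P := Itm.ok 206) (iqf tpr976_c))))) (BT.Fa_mk (BT.Fa_mk (BT.Fa_mk (BT.Fa_mk (BT.Fa_leaf (P := Itm.ok 206) (iqb tpr959_c)) (BT.Fa_leaf (P := Itm.ok 206) (iqb tpr95_c))) (BT.Fa_mk (BT.Fa_leaf (P := Itm.ok 206) (iqf tpr203_c)) (BT.Fa_leaf (P := Itm.ok 206) (iqb tpr523_c)))) (BT.Fa_mk (BT.Fa_mk (BT.Fa_leaf (P := Itm.ok 206) (iqf tpr510_c)) (BT.Fa_leaf (P := Itm.ok 206) (iqf tpr2079_c))) (BT.Fa_leaf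 (P := Itm.ok 206) (iqb tpr13_c)))) (BT.Fa_mk (BT.Fa_mk (BT.Fa_mk (BT.Fa_leaf (P := Itm.ok 206) (iqb tpr17_c)) (BT.Fa_leaf (P := Itm.ok 206) (iqf tpr2419_c))) (BT.Fa_leaf (P := Itm.ok 206) (iqf tpr1004_c))) (BT.Fa_mk (BT.Fa_mk (BT.Fa_leaf (P := Itm.ok 206) (iqb tpr203_c)) (BT.Fa_leaf (P := Itm.ok 206) (iqb tpr1604_c))) (BT.Fa_leaf (P := Itm.ok 206) (iqf tpr509_c)))))) (BT.Fa_mk (BT.Fa_mk (BT.Fa_mk (BT.Fa_mk (BT.Fa_mk (BT.Fa_leaf (P := Itm.ok 206) (iqb tpr687_c)) (BT.Fa_leaf (P := Itm.ok 206) (iqf tpr235_c))) (BT.Fa_mk (BT.Fa_leaf (P := Itm.ok 206) (iqb tpr639_c)) (BT.Fa_leaf (P := Itm.ok 206) (iqb tpr546_c)))) (BT.Fa_mk (BT.Fa_mk (BT.Fa_leaf (P := Itm.ok 206) (iqb tpr710_c)) (BT.Fa_leaf (P := Itm.ok 206) (iqf tpr2421_c))) (BT.Fa_leaf (P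 := Itm.ok 206) (iqf tpr507_c)))) (BT.Fa_mk (BT.Fa_mk (BT.Fa_mk (BT.Fa_leaf (P := Itm.ok 206) (iqb tpr520_c)) (BT.Fa_leaf (P := Itm.ok 206) (iqf tpr547_c))) (BT.Fa_leaf (P := Itm.ok 206) (iqf tpr544_c))) (BT.Fa_mk (BT.Fa_mk (BT.Fa_leaf (P := Itm.ok 206) (iqf tpr1572_c)) (BT.Fa_leaf (P := Itm.ok 206) (iqb tpr161_c))) (BT.Fa_leaf (P := Itm.ok 206) (iqf tpr6_c))))) (BT.Fa_mk (BT.Fa_mk (BT.Fa_mk (BT.Fa_mk (BT.Fa_leaf (P := Itm.ok 206) (iqf tpr517_c)) (BT.Fa_leaf (P := Itm.ok 206) (iqb tpr191_c))) (BT.Fa_mk (BT.Fa_leaf (P := Itm.ok 206) (iqb tpr516_c)) (BT.Fa_leaf (P := Itm.ok 206) (iqb tpr239_c)))) (BT.Fa_mk (BT.Fa_mk (BT.Fa_leaf (P := Itm.ok 206) (iqb tpr996_c)) (BT.Fa_leaf (P := Itm.ok 206) (iqb tpr616_c))) (BT.Fa_leaf (P := Itm.ok 206) (iqf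 tpr2422_c)))) (BT.Fa_mk (BT.Fa_mk (BT.Fa_mk (BT.Fa_leaf (P := Itm.ok 206) (iqb tpr9_c)) (BT.Fa_leaf (P := Itm.ok 206) (iqb tpr2423_c))) (BT.Fa_leaf (P := Itm.ok 206) (iqb tpr1603_c))) (BT.Fa_mk (BT.Fa_mk (BT.Fa_leaf (P := Itm.ok 206) (iqb tpr620_c)) (BT.Fa_leaf (P := Itm.ok 206) (iqf tpr1041_c))) (BT.Fa_leaf (P := Itm.ok 206) (iqf tpr1637_c)))))))))

/-- all words of the class have labels -/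
theorem pokNFzByAzA2A3H3AyB2EzF : POK 206 xNFzByAzA2A3H3AyB2EzF :=
  y_pok (C0 := ceNFzByAzA2A3H3AyB2EzF) (C1 := coNFzByAzA2A3H3AyB2EzF) topNFzByAzA2A3H3AyB2EzF nbNFzByAzA2A3H3AyB2EzF (BT.Fa_of_all iiNFzByAzA2A3H3AyB2EzF_c)
    (BT.Fa_mk (cyE_spec zeNFzByAzA2A3H3AyB2EzF_0) (BT.Fa_mk (cyE_spec zeNFzByAzA2A3H3AyB2EzF_1) (cyE_spec zeNFzByAzA2A3H3AyB2EzF_2)))
    (BT.Fa_mk (cyO_spec zoNFzByAzA2A3H3AyB2EzF_0) (BT.Fa_mk (cyO_spec zoNFzByAzA2A3H3AyB2EzF_1) (cyO_spec zoNFzByAzA2A3H3AyB2EzF_2)))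
    iiNFzByAzA2A3H3AyB2EzF_k

theorem iiNFzByAzA2AyE2A3H3AyB2EyAzF_k : iiNFzByAzA2AyE2A3H3AyB2EyAzF.Fa (Itm.ok 206) := (BT.Fa_mk (BT.Fa_mk (BT.Fa_mk (BT.Fa_mk (BT.Fa_mk (BT.Fa_mk (BT.Fa_mk (BT.Fa_mk (BT.Fa_leaf (P := Itm.ok 206) (iqb tpr499_c)) (BT.Fa_leaf (P := Itm.ok 206) (iqb tpr5_c))) (BT.Fa_leaf (P := Itm.ok 206) (iqf tpr979_c))) (BT.Fa_mk (BT.Fa_leaf (P := Itm.ok 206) (iqb tpr789_c)) (BT.Fa_leaf (P := Itm.ok 206) (iqf tpr636_c)))) (BT.Fa_mk (BT.Fa_mk (BT.Fa_leaf (P := Itm.ok 206) (iqf tpr1937_c)) (BT.Fa_leaf (P := Itm.ok 206) (iqb tpr2334_c))) (BT.Fa_mk (BT.Fa_leaf (P := Itm.ok 206) (iqb tpr82_c)) (BT.Fa_leaf (P := Itm.ok 206) (iqf tpr1570_c))))) (BT.Fa_mk (BT.Fa_mk (BT.Fa_mk (BT.Fa_mk (BT.Fa_leaf (P := Itm.ok 206) (iqf tpr504_c))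 (BT.Fa_leaf (P := Itm.ok 206) (iqb tpr2344_c))) (BT.Fa_leaf (P := Itm.ok 206) (iqf tpr1247_c))) (BT.Fa_mk (BT.Fa_leaf (P := Itm.ok 206) (iqf tpr1913_c)) (BT.Fa_leaf (P := Itm.ok 206) (iqb tpr48_c)))) (BT.Fa_mk (BT.Fa_mk (BT.Fa_leaf (P := Itm.ok 206) (iqb tpr1647_c)) (BT.Fa_leaf (P := Itm.ok 206) (iqf tpr1542_c))) (BT.Fa_mk (BT.Fa_leaf (P := Itm.ok 206) (iqf tpr2157_c)) (BT.Fa_leaf (P := Itm.ok 206) (iqb tpr2337_c)))))) (BT.Fa_mk (BT.Fa_mk (BT.Fa_mk (BT.Fa_mk (BT.Fa_mk (BT.Fa_leaf (P := Itm.ok 206) (iqb tpr618_c)) (BT.Fa_leaf (P := Itm.ok 206) (iqb tpr2097_c))) (BT.Fa_leaf (P := Itm.ok 206) (iqb tpr559_c))) (BT.Fa_mk (BT.Fa_leaf (P := Itm.ok 206) (iqb tpr1765_c)) (BT.Fa_leaf (P := Itm.ok 206) (iqf tpr2123_c)))) (BT.Fa_mk (BT.Fa_mk (BT.Fa_leaf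 (P := Itm.ok 206) (iqb tpr2335_c)) (BT.Fa_leaf (P := Itm.ok 206) (iqf tpr2151_c))) (BT.Fa_mk (BT.Fa_leaf (P := Itm.ok 206) (iqb tpr982_c)) (BT.Fa_leaf (P := Itm.ok 206) (iqb tpr210_c))))) (BT.Fa_mk (BT.Fa_mk (BT.Fa_mk (BT.Fa_mk (BT.Fa_leaf (P := Itm.ok 206) (iqb tpr2189_c)) (BT.Fa_leaf (P := Itm.ok 206) (iqb tpr814_c))) (BT.Fa_leaf (P := Itm.ok 206) (iqb tpr2349_c))) (BT.Fa_mk (BT.Fa_leaf (P := Itm.ok 206) (iqb tpr2167_c)) (BT.Fa_leaf (P := Itm.ok 206) (iqf tpr2324_c)))) (BT.Fa_mk (BT.Fa_mk (BT.Fa_leaf (P := Itm.ok 206) (iqb tpr12_c)) (BT.Fa_leaf (P := Itm.ok 206) (iqf tpr2124_c))) (BT.Fa_mk (BT.Fa_leaf (P := Itm.ok 206) (iqb tpr2343_c)) (BT.Fa_leaf (P := Itm.ok 206) (iqf tpr576_c))))))) (BT.Fa_mk (BT.Fa_mk (BT.Fa_mk (BT.Fa_mk (BT.Fa_mk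 (BT.Fa_mk (BT.Fa_leaf (P := Itm.ok 206) (iqb tpr2171_c)) (BT.Fa_leaf (P := Itm.ok 206) (iqb tpr2239_c))) (BT.Fa_leaf (P := Itm.ok 206) (iqb tpr2144_c))) (BT.Fa_mk (BT.Fa_leaf (P := Itm.ok 206) (iqb tpr574_c)) (BT.Fa_leaf (P := Itm.ok 206) (iqb tpr2122_c)))) (BT.Fa_mk (BT.Fa_mk (BT.Fa_leaf (P := Itm.ok 206) (iqf tpr2079_c)) (BT.Fa_leaf (P := Itm.ok 206) (iqf tpr2120_c))) (BT.Fa_mk (BT.Fa_leaf (P := Itm.ok 206) (iqf tpr588_c)) (BT.Fa_leaf (P := Itm.ok 206) (iqf tpr2165_c))))) (BT.Fa_mk (BT.Fa_mk (BT.Fa_mk (BT.Fa_mk (BT.Fa_leaf (P := Itm.ok 206) (iqf tpr2339_c)) (BT.Fa_leaf (P := Itm.ok 206) (iqb tpr810_c))) (BT.Fa_leaf (P := Itm.ok 206) (iqf tpr2215_c))) (BT.Fa_mk (BT.Fa_leaf (P := Itm.ok 206) (iqb tpr2329_c)) (BT.Fa_leaf (P := Itm.ok 206)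 (iqb tpr2256_c)))) (BT.Fa_mk (BT.Fa_mk (BT.Fa_leaf (P := Itm.ok 206) (iqb tpr641_c)) (BT.Fa_leaf (P := Itm.ok 206) (iqf tpr1562_c))) (BT.Fa_mk (BT.Fa_leaf (P := Itm.ok 206) (iqb tpr1870_c)) (BT.Fa_leaf (P := Itm.ok 206) (iqf tpr2326_c)))))) (BT.Fa_mk (BT.Fa_mk (BT.Fa_mk (BT.Fa_mk (BT.Fa_mk (BT.Fa_leaf (P := Itm.ok 206) (iqb tpr966_c)) (BT.Fa_leaf (P := Itm.ok 206) (iqb tpr2327_c))) (BT.Fa_leaf (P := Itm.ok 206) (iqb tpr2395_c))) (BT.Fa_mk (BT.Fa_leaf (P := Itm.ok 206) (iqb tpr568_c)) (BT.Fa_leaf (P := Itm.ok 206) (iqb tpr103_c)))) (BT.Fa_mk (BT.Fa_mk (BT.Fa_leaf (P := Itm.ok 206) (iqf tpr1193_c)) (BT.Fa_leaf (P := Itm.ok 206) (iqb tpr239_c))) (BT.Fa_mk (BT.Fa_leaf (P := Itm.ok 206) (iqb tpr569_c)) (BT.Fa_leaf (P := Itm.ok 206) (iqb tpr1532_c)))))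 (BT.Fa_mk (BT.Fa_mk (BT.Fa_mk (BT.Fa_leaf (P := Itm.ok 206) (iqb tpr555_c)) (BT.Fa_leaf (P := Itm.ok 206) (iqb tpr1681_c))) (BT.Fa_mk (BT.Fa_leaf (P := Itm.ok 206) (iqb tpr1633_c)) (BT.Fa_leaf (P := Itm.ok 206) (iqb tpr680_c)))) (BT.Fa_mk (BT.Fa_mk (BT.Fa_leaf (P := Itm.ok 206) (iqb tpr619_c)) (BT.Fa_leaf (P := Itm.ok 206) (iqb tpr1866_c))) (BT.Fa_mk (BT.Fa_leaf (P := Itm.ok 206) (iqb tpr466_c)) (BT.Fa_leaf (P := Itm.ok 206) (iqb tpr51_c)))))))) (BT.Fa_mk (BT.Fa_mk (BT.Fa_mk (BT.Fa_mk (BT.Fa_mk (BT.Fa_mk (BT.Fa_mk (BT.Fa_leaf (P := Itm.ok 206) (iqf tpr959_c)) (BT.Fa_leaf (P := Itm.ok 206) (iqb tpr54_c))) (BT.Fa_leaf (P := Itm.ok 206) (iqb tpr2163_c))) (BT.Fa_mk (BT.Fa_leaf (P := Itm.ok 206) (iqf tpr2175_c)) (BT.Fa_leaf (P := Itm.ok 206)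 (iqb tpr605_c)))) (BT.Fa_mk (BT.Fa_mk (BT.Fa_leaf (P := Itm.ok 206) (iqf tpr113_c)) (BT.Fa_leaf (P := Itm.ok 206) (iqf tpr581_c))) (BT.Fa_mk (BT.Fa_leaf (P := Itm.ok 206) (iqf tpr2135_c)) (BT.Fa_leaf (P := Itm.ok 206) (iqf tpr1590_c))))) (BT.Fa_mk (BT.Fa_mk (BT.Fa_mk (BT.Fa_mk (BT.Fa_leaf (P := Itm.ok 206) (iqb tpr2238_c)) (BT.Fa_leaf (P := Itm.ok 206) (iqb tpr198_c))) (BT.Fa_leaf (P := Itm.ok 206) (iqb tpr780_c))) (BT.Fa_mk (BT.Fa_leaf (P := Itm.ok 206) (iqb tpr1764_c)) (BT.Fa_leaf (P := Itm.ok 206) (iqb tpr191_c)))) (BT.Fa_mk (BT.Fa_mk (BT.Fa_leaf (P := Itm.ok 206) (iqf tpr2154_c)) (BT.Fa_leaf (P := Itm.ok 206) (iqf tpr518_c))) (BT.Fa_mk (BT.Fa_leaf (P := Itm.ok 206) (iqb tpr2113_c)) (BT.Fa_leaf (P := Itm.ok 206) (iqb tpr2107_c))))))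 (BT.Fa_mk (BT.Fa_mk (BT.Fa_mk (BT.Fa_mk (BT.Fa_mk (BT.Fa_leaf (P := Itm.ok 206) (iqf tpr602_c)) (BT.Fa_leaf (P := Itm.ok 206) (iqf tpr1861_c))) (BT.Fa_leaf (P := Itm.ok 206) (iqb tpr518_c))) (BT.Fa_mk (BT.Fa_leaf (P := Itm.ok 206) (iqb tpr2328_c)) (BT.Fa_leaf (P := Itm.ok 206) (iqb tpr2332_c)))) (BT.Fa_mk (BT.Fa_mk (BT.Fa_leaf (P := Itm.ok 206) (iqb tpr2350_c)) (BT.Fa_leaf (P := Itm.ok 206) (iqf tpr2147_c))) (BT.Fa_mk (BT.Fa_leaf (P := Itm.ok 206) (iqb tpr2148_c)) (BT.Fa_leaf (P := Itm.ok 206) (iqb tpr1112_c))))) (BT.Fa_mk (BT.Fa_mk (BT.Fa_mk (BT.Fa_mk (BT.Fa_leaf (P := Itm.ok 206) (iqf tpr2164_c)) (BT.Fa_leaf (P := Itm.ok 206) (iqb tpr2094_c))) (BT.Fa_leaf (P := Itm.ok 206) (iqb tpr2249_c))) (BT.Fa_mk (BT.Fa_leaf (P := Itm.ok 206) (iqb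 tpr324_c)) (BT.Fa_leaf (P := Itm.ok 206) (iqf tpr2217_c)))) (BT.Fa_mk (BT.Fa_mk (BT.Fa_leaf (P := Itm.ok 206) (iqb tpr1573_c)) (BT.Fa_leaf (P := Itm.ok 206) (iqb tpr2277_c))) (BT.Fa_mk (BT.Fa_leaf (P := Itm.ok 206) (iqf tpr2125_c)) (BT.Fa_leaf (P := Itm.ok 206) (iqb tpr1051_c))))))) (BT.Fa_mk (BT.Fa_mk (BT.Fa_mk (BT.Fa_mk (BT.Fa_mk (BT.Fa_mk (BT.Fa_leaf (P := Itm.ok 206) (iqf tpr590_c)) (BT.Fa_leaf (P := Itm.ok 206) (iqf tpr2131_c))) (BT.Fa_leaf (P := Itm.ok 206) (iqf tpr2196_c))) (BT.Fa_mk (BT.Fa_leaf (P := Itm.ok 206) (iqb tpr2253_c)) (BT.Fa_leaf (P := Itm.ok 206) (iqb tpr1904_c)))) (BT.Fa_mk (BT.Fa_mk (BT.Fa_leaf (P := Itm.ok 206) (iqb tpr1912_c)) (BT.Fa_leaf (P := Itm.ok 206) (iqb tpr2166_c))) (BT.Fa_mk (BT.Fa_leaf (P := Itm.ok 206)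 (iqb tpr2177_c)) (BT.Fa_leaf (P := Itm.ok 206) (iqf tpr2126_c))))) (BT.Fa_mk (BT.Fa_mk (BT.Fa_mk (BT.Fa_mk (BT.Fa_leaf (P := Itm.ok 206) (iqf tpr90_c)) (BT.Fa_leaf (P := Itm.ok 206) (iqf tpr453_c))) (BT.Fa_leaf (P := Itm.ok 206) (iqb tpr1255_c))) (BT.Fa_mk (BT.Fa_leaf (P := Itm.ok 206) (iqb tpr17_c)) (BT.Fa_leaf (P := Itm.ok 206) (iqf tpr595_c)))) (BT.Fa_mk (BT.Fa_mk (BT.Fa_leaf (P := Itm.ok 206) (iqf tpr615_c)) (BT.Fa_leaf (P := Itm.ok 206) (iqf tpr575_c))) (BT.Fa_mk (BT.Fa_leaf (P := Itm.ok 206) (iqf tpr1194_c)) (BT.Fa_leaf (P := Itm.ok 206) (iqb tpr1900_c)))))) (BT.Fa_mk (BT.Fa_mk (BT.Fa_mk (BT.Fa_mk (BT.Fa_mk (BT.Fa_leaf (P := Itm.ok 206) (iqf tpr2248_c)) (BT.Fa_leaf (P := Itm.ok 206) (iqf tpr629_c))) (BT.Fa_leaf (P := Itm.ok 206) (iqf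 tpr1204_c))) (BT.Fa_mk (BT.Fa_leaf (P := Itm.ok 206) (iqf tpr1143_c)) (BT.Fa_leaf (P := Itm.ok 206) (iqf tpr1001_c)))) (BT.Fa_mk (BT.Fa_mk (BT.Fa_leaf (P := Itm.ok 206) (iqf tpr2233_c)) (BT.Fa_leaf (P := Itm.ok 206) (iqb tpr2133_c))) (BT.Fa_mk (BT.Fa_leaf (P := Itm.ok 206) (iqf tpr2283_c)) (BT.Fa_leaf (P := Itm.ok 206) (iqb tpr1915_c))))) (BT.Fa_mk (BT.Fa_mk (BT.Fa_mk (BT.Fa_leaf (P := Itm.ok 206) (iqf tpr1943_c)) (BT.Fa_leaf (P := Itm.ok 206) (iqf tpr2338_c))) (BT.Fa_mk (BT.Fa_leaf (P := Itm.ok 206) (iqf tpr1343_c)) (BT.Fa_leaf (P := Itm.ok 206) (iqf tpr505_c)))) (BT.Fa_mk (BT.Fa_mk (BT.Fa_leaf (P := Itm.ok 206) (iqb tpr614_c)) (BT.Fa_leaf (P := Itm.ok 206) (iqb tpr1771_c))) (BT.Fa_mk (BT.Fa_leaf (P := Itm.ok 206) (iqf tpr2243_c)) (BT.Fa_leaf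 (P := Itm.ok 206) (iqf tpr2353_c)))))))))

/-- all words of the class have labels -/
theorem pokNFzByAzA2AyE2A3H3AyB2EyAzF : POK 206 xNFzByAzA2AyE2A3H3AyB2EyAzF :=
  y_pok (C0 := ceNFzByAzA2AyE2A3H3AyB2EyAzF) (C1 := coNFzByAzA2AyE2A3H3AyB2EyAzF) topNFzByAzA2AyE2A3H3AyB2EyAzF nbNFzByAzA2AyE2A3H3AyB2EyAzF (BT.Fa_of_all iiNFzByAzA2AyE2A3H3AyB2EyAzF_c)
    (BT.Fa_mk (cyE_spec zeNFzByAzA2AyE2A3H3AyB2EyAzF_0) (cyE_spec zeNFzByAzA2AyE2A3H3AyB2EyAzF_1))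
    (BT.Fa_mk (cyO_spec zoNFzByAzA2AyE2A3H3AyB2EyAzF_0) (cyO_spec zoNFzByAzA2AyE2A3H3AyB2EyAzF_1))
    iiNFzByAzA2AyE2A3H3AyB2EyAzF_k


end MPb6R
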