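import Pool.Agent.Lib.MP_b6d339_lc.Cw3.YFzByAzAyE2A3H3AyB2EzF
import Pool.Agent.Lib.MP_b6d339_lc.Cw3.XL
import Pool.Agent.Lib.MP_b6d339_lc.Cw3.T0
import Pool.Agent.Lib.MP_b6d339_lc.Cw3.T1
import Pool.Agent.Lib.MP_b6d339_lc.Cw3.T10
import Pool.Agent.Lib.MP_b6d339_lc.Cw3.T11
import Pool.Agent.Lib.MP_b6d339_lc.Cw3.T12
import Pool.Agent.Lib.MP_b6d339_lc.Cw3.T13
import Pool.Agent.Lib.MP_b6d339_lc.Cw3.T14
import Pool.Agent.Lib.MP_b6d339_lc.Cw3.T15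
import Pool.Agent.Lib.MP_b6d339_lc.Cw3.T17
import Pool.Agent.Lib.MP_b6d339_lc.Cw3.T18
import Pool.Agent.Lib.MP_b6d339_lc.Cw3.T19
import Pool.Agent.Lib.MP_b6d339_lc.Cw3.T2
import Pool.Agent.Lib.MP_b6d339_lc.Cw3.T20
import Pool.Agent.Lib.MP_b6d339_lc.Cw3.T22
import Pool.Agent.Lib.MP_b6d339_lc.Cw3.T23
import Pool.Agent.Lib.MP_b6d339_lc.Cw3.T25
import Pool.Agent.Lib.MP_b6d339_lc.Cw3.T3
import Pool.Agent.Lib.MP_b6d339_lc.Cw3.T36
import Pool.Agent.Lib.MP_b6d339_lc.Cw3.T4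
import Pool.Agent.Lib.MP_b6d339_lc.Cw3.T5
import Pool.Agent.Lib.MP_b6d339_lc.Cw3.T6
import Pool.Agent.Lib.MP_b6d339_lc.Cw3.T7
import Pool.Agent.Lib.MP_b6d339_lc.Cw3.T8
import Pool.Agent.Lib.MP_b6d339_lc.Cw3.T9

/-!
# Erdős 592, three levels: items
-/

namespace MPb6R

open MPb6P

noncomputable def iiNFzByAzAyE2A3H3AyB2EzF : BT Itm := (.node (.node (.node (.node (.node (.node (.node (.node (.leaf (.bwd 0 16 tpr168.df)) (.leaf (.bwd 16 31 tpr1532.df))) (.leaf (.fwd 47 21 tpr90.df))) (.node (.leaf (.fwd 68 20 tpr48.df)) (.leaf (.bwd 88 35 tpr89.df)))) (.node (.node (.node (.leaf (.bwd 123 28 tpr225.df)) (.leaf (.bwd 151 21 tpr8.df))) (.leaf (.bwd 172 9 tpr2906.df))) (.node (.leaf (.bwd 181 29 tpr608.df)) (.leaf (.bwd 210 26 tpr245.df))))) (.node (.node (.node (.node (.leaf (.fwd 236 27 tpr236.df)) (.leaf (.bwd 263 31 tpr704.df))) (.leaf (.fwd 294 25 tpr1266.df))) (.node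 (.leaf (.bwd 319 22 tpr239.df)) (.leaf (.bwd 341 32 tpr251.df)))) (.node (.node (.leaf (.fwd 373 27 tpr82.df)) (.leaf (.fwd 400 16 tpr804.df))) (.node (.leaf (.bwd 416 22 tpr515.df)) (.leaf (.bwd 438 28 tpr721.df)))))) (.node (.node (.node (.node (.node (.leaf (.bwd 466 35 tpr568.df)) (.leaf (.fwd 501 19 tpr429.df))) (.leaf (.bwd 520 28 tpr1666.df))) (.node (.leaf (.fwd 548 24 tpr667.df)) (.leaf (.bwd 572 19 tpr616.df)))) (.node (.node (.node (.leaf (.bwd 591 34 tpr548.df)) (.leaf (.bwd 625 29 tpr641.df))) (.leaf (.bwd 654 29 tpr618.df))) (.node (.leaf (.fwd 683 32 tpr247.df)) (.leaf (.bwd 715 33 tpr501.df))))) (.node (.node (.node (.node (.leaf (.bwd 748 23 tpr5.df)) (.leaf (.fwd 771 31 tpr607.df))) (.leaf (.fwd 802 24 tpr789.df))) (.node (.leaf (.fwd 826 23 tpr508.df)) (.leaf (.bwd 849 34 tpr619.df)))) (.node (.node (.leaf (.fwd 883 20 tpr505.df)) (.leaf (.fwd 903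 24 tpr458.df))) (.node (.leaf (.fwd 927 30 tpr513.df)) (.leaf (.fwd 957 25 tpr644.df))))))) (.node (.node (.node (.node (.node (.node (.leaf (.bwd 982 37 tpr639.df)) (.leaf (.bwd 1019 37 tpr553.df))) (.leaf (.fwd 1056 26 tpr675.df))) (.node (.leaf (.bwd 1082 29 tpr666.df)) (.leaf (.bwd 1111 22 tpr191.df)))) (.node (.node (.node (.leaf (.bwd 1133 20 tpr103.df)) (.leaf (.bwd 1153 30 tpr613.df))) (.leaf (.fwd 1183 28 tpr507.df))) (.node (.leaf (.fwd 1211 26 tpr599.df)) (.leaf (.fwd 1237 41 tpr552.df))))) (.node (.node (.node (.node (.leaf (.fwd 1278 29 tpr545.df)) (.leaf (.fwd 1307 35 tpr461.df))) (.leaf (.bwd 1342 29 tpr692.df))) (.node (.leaf (.bwd 1371 39 tpr642.df)) (.leaf (.bwd 1410 25 tpr74.df)))) (.node (.node (.leaf (.bwd 1435 23 tpr632.df)) (.leaf (.fwd 1458 25 tpr1908.df))) (.node (.leaf (.bwd 1483 26 tpr1888.df)) (.leaf (.fwd 1509 36 tpr634.df)))))) (.node (.node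 (.node (.node (.node (.leaf (.fwd 1545 35 tpr123.df)) (.leaf (.fwd 1580 21 tpr629.df))) (.leaf (.bwd 1601 38 tpr393.df))) (.node (.leaf (.fwd 1639 34 tpr1251.df)) (.leaf (.fwd 1673 60 tpr1862.df)))) (.node (.node (.leaf (.fwd 1733 43 tpr122.df)) (.leaf (.fwd 1776 39 tpr81.df))) (.node (.leaf (.bwd 1815 61 tpr695.df)) (.leaf (.bwd 1876 37 tpr720.df))))) (.node (.node (.node (.node (.leaf (.fwd 1913 22 tpr504.df)) (.leaf (.bwd 1935 27 tpr625.df))) (.leaf (.bwd 1962 24 tpr609.df))) (.node (.leaf (.fwd 1986 31 tpr606.df)) (.leaf (.bwd 2017 29 tpr9.df)))) (.node (.node (.leaf (.bwd 2046 18 tpr18.df)) (.leaf (.bwd 2064 22 tpr572.df))) (.node (.leaf (.fwd 2086 56 tpr87.df)) (.leaf (.fwd 2142 27 tpr506.df)))))))) (.node (.node (.node (.node (.node (.node (.node (.leaf (.fwd 2169 36 tpr547.df)) (.leaf (.fwd 2205 29 tpr582.df))) (.leaf (.bwd 2234 25 tpr10.df))) (.node (.leaf (.bwd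 2259 30 tpr626.df)) (.leaf (.bwd 2289 27 tpr82.df)))) (.node (.node (.node (.leaf (.bwd 2316 26 tpr516.df)) (.leaf (.bwd 2342 38 tpr526.df))) (.leaf (.bwd 2380 27 tpr499.df))) (.node (.leaf (.bwd 2407 37 tpr555.df)) (.leaf (.bwd 2444 37 tpr503.df))))) (.node (.node (.node (.node (.leaf (.fwd 2481 26 tpr509.df)) (.leaf (.fwd 2507 38 tpr203.df))) (.leaf (.fwd 2545 28 tpr511.df))) (.node (.leaf (.fwd 2573 38 tpr519.df)) (.leaf (.fwd 2611 27 tpr589.df)))) (.node (.node (.leaf (.fwd 2638 21 tpr72.df)) (.leaf (.fwd 2659 37 tpr1570.df))) (.node (.leaf (.fwd 2696 30 tpr235.df)) (.leaf (.bwd 2726 32 tpr591.df)))))) (.node (.node (.node (.node (.node (.leaf (.fwd 2758 38 tpr1542.df)) (.leaf (.bwd 2796 35 tpr622.df))) (.leaf (.bwd 2831 32 tpr620.df))) (.node (.leaf (.fwd 2863 38 tpr1552.df)) (.leaf (.bwd 2901 34 tpr664.df)))) (.node (.node (.node (.leaf (.fwd 2935 32 tpr518.df))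 (.leaf (.bwd 2967 42 tpr1912.df))) (.leaf (.fwd 3009 33 tpr1205.df))) (.node (.leaf (.bwd 3042 30 tpr989.df)) (.leaf (.bwd 3072 35 tpr1904.df))))) (.node (.node (.node (.node (.leaf (.bwd 3107 31 tpr527.df)) (.leaf (.fwd 3138 32 tpr1065.df))) (.leaf (.fwd 3170 37 tpr1861.df))) (.node (.leaf (.bwd 3207 37 tpr687.df)) (.leaf (.bwd 3244 25 tpr2077.df)))) (.node (.node (.leaf (.fwd 3269 27 tpr1247.df)) (.leaf (.fwd 3296 36 tpr1194.df))) (.node (.leaf (.fwd 3332 37 tpr583.df)) (.leaf (.fwd 3369 44 tpr592.df))))))) (.node (.node (.node (.node (.node (.node (.leaf (.fwd 3413 35 tpr602.df)) (.leaf (.bwd 3448 36 tpr662.df))) (.leaf (.fwd 3484 29 tpr1834.df))) (.node (.leaf (.fwd 3513 40 tpr1905.df)) (.leaf (.bwd 3553 36 tpr686.df)))) (.node (.node (.node (.leaf (.bwd 3589 43 tpr676.df)) (.leaf (.bwd 3632 28 tpr610.df))) (.leaf (.bwd 3660 46 tpr593.df))) (.node (.leaf (.bwd 3706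 29 tpr22.df)) (.leaf (.fwd 3735 28 tpr510.df))))) (.node (.node (.node (.node (.leaf (.fwd 3763 42 tpr612.df)) (.leaf (.fwd 3805 33 tpr645.df))) (.leaf (.bwd 3838 27 tpr562.df))) (.node (.leaf (.fwd 3865 27 tpr524.df)) (.leaf (.bwd 3892 29 tpr1457.df)))) (.node (.node (.leaf (.bwd 3921 36 tpr573.df)) (.leaf (.fwd 3957 31 tpr517.df))) (.node (.leaf (.bwd 3988 39 tpr514.df)) (.leaf (.bwd 4027 33 tpr521.df)))))) (.node (.node (.node (.node (.node (.leaf (.bwd 4060 29 tpr656.df)) (.leaf (.bwd 4089 20 tpr505.df))) (.leaf (.bwd 4109 39 tpr210.df))) (.node (.leaf (.bwd 4148 45 tpr611.df)) (.leaf (.fwd 4193 28 tpr1406.df)))) (.node (.node (.leaf (.fwd 4221 15 tpr906.df)) (.leaf (.bwd 4236 37 tpr681.df))) (.node (.leaf (.fwd 4273 25 tpr106.df)) (.leaf (.fwd 4298 36 tpr23.df))))) (.node (.node (.node (.node (.leaf (.bwd 4334 37 tpr520.df)) (.leaf (.bwd 4371 37 tpr523.df))) (.leaf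 (.bwd 4408 32 tpr294.df))) (.node (.leaf (.bwd 4440 31 tpr576.df)) (.leaf (.fwd 4471 32 tpr17.df)))) (.node (.node (.leaf (.bwd 4503 33 tpr538.df)) (.leaf (.fwd 4536 29 tpr714.df))) (.node (.leaf (.bwd 4565 37 tpr621.df)) (.leaf (.bwd 4602 34 tpr691.df)))))))))

theorem iiNFzByAzAyE2A3H3AyB2EzF_c : iiNFzByAzAyE2A3H3AyB2EzF.all (itB (ng 61 nnNFzByAzAyE2A3H3AyB2EzF)) = true := by decide +kernel
theorem nbNFzByAzAyE2A3H3AyB2EzF : nbB 61 4697 nnNFzByAzAyE2A3H3AyB2EzF = true := by decide +kernel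
theorem topNFzByAzAyE2A3H3AyB2EzF : topY 4697 ttNFzByAzAyE2A3H3AyB2EzF ceNFzByAzAyE2A3H3AyB2EzF xNFzByAzAyE2A3H3AyB2EzF iiNFzByAzAyE2A3H3AyB2EzF = true := by decide +kernel

end MPb6R
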