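import Pool.Agent.Lib.MP_b6d339_lc.Cw3.YFzByAzE2A3H2ByAzIzA2H3AyB2AzF
import Pool.Agent.Lib.MP_b6d339_lc.Cw3.XL
import Pool.Agent.Lib.MP_b6d339_lc.Cw3.T0
import Pool.Agent.Lib.MP_b6d339_lc.Cw3.T1
import Pool.Agent.Lib.MP_b6d339_lc.Cw3.T10
import Pool.Agent.Lib.MP_b6d339_lc.Cw3.T11
import Pool.Agent.Lib.MP_b6d339_lc.Cw3.T12
import Pool.Agent.Lib.MP_b6d339_lc.Cw3.T15
import Pool.Agent.Lib.MP_b6d339_lc.Cw3.T18
import Pool.Agent.Lib.MP_b6d339_lc.Cw3.T2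
import Pool.Agent.Lib.MP_b6d339_lc.Cw3.T20
import Pool.Agent.Lib.MP_b6d339_lc.Cw3.T21
import Pool.Agent.Lib.MP_b6d339_lc.Cw3.T22
import Pool.Agent.Lib.MP_b6d339_lc.Cw3.T23
import Pool.Agent.Lib.MP_b6d339_lc.Cw3.T3
import Pool.Agent.Lib.MP_b6d339_lc.Cw3.T31
import Pool.Agent.Lib.MP_b6d339_lc.Cw3.T34
import Pool.Agent.Lib.MP_b6d339_lc.Cw3.T5
import Pool.Agent.Lib.MP_b6d339_lc.Cw3.T6
import Pool.Agent.Lib.MP_b6d339_lc.Cw3.T7
import Pool.Agent.Lib.MP_b6d339_lc.Cw3.T8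
import Pool.Agent.Lib.MP_b6d339_lc.Cw3.T9

/-!
# Erdős 592, three levels: items
-/

namespace MPb6R

open MPb6P

noncomputable def iiNFzByAzE2A3H2ByAzIzA2H3AyB2AzF : BT Itm := (.node (.node (.node (.node (.node (.node (.node (.leaf (.bwd 0 16 tpr168.df)) (.leaf (.fwd 16 6 tpr4.df))) (.node (.leaf (.fwd 22 21 tpr90.df)) (.leaf (.bwd 43 13 tpr500.df)))) (.node (.node (.leaf (.bwd 56 23 tpr12.df)) (.leaf (.bwd 79 23 tpr5.df))) (.node (.leaf (.bwd 102 24 tpr609.df)) (.leaf (.fwd 126 27 tpr589.df))))) (.node (.node (.node (.leaf (.fwd 153 27 tpr236.df)) (.leaf (.bwd 180 21 tpr8.df))) (.node (.leaf (.fwd 201 22 tpr953.df)) (.leaf (.bwd 223 17 tpr1913.df)))) (.node (.node (.leaf (.bwd 240 28 tpr721.df)) (.leaf (.bwd 268 29 tpr618.df))) (.leaf (.bwd 297 33 tpr501.df))))) (.node (.node (.node (.node (.leaf (.fwd 330 23 tpr640.df)) (.leaf (.fwd 353 31 tpr557.df))) (.node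 (.leaf (.bwd 384 27 tpr236.df)) (.leaf (.bwd 411 40 tpr670.df)))) (.node (.node (.leaf (.bwd 451 27 tpr562.df)) (.leaf (.bwd 478 36 tpr453.df))) (.leaf (.bwd 514 18 tpr18.df)))) (.node (.node (.node (.leaf (.fwd 532 29 tpr579.df)) (.leaf (.fwd 561 29 tpr978.df))) (.node (.leaf (.bwd 590 29 tpr820.df)) (.leaf (.bwd 619 28 tpr507.df)))) (.node (.node (.leaf (.bwd 647 36 tpr573.df)) (.leaf (.bwd 683 39 tpr1735.df))) (.leaf (.bwd 722 19 tpr429.df)))))) (.node (.node (.node (.node (.node (.leaf (.fwd 741 36 tpr1258.df)) (.leaf (.fwd 777 27 tpr529.df))) (.node (.leaf (.fwd 804 29 tpr564.df)) (.leaf (.bwd 833 24 tpr1681.df)))) (.node (.node (.leaf (.bwd 857 29 tpr1457.df)) (.leaf (.fwd 886 21 tpr8.df))) (.node (.leaf (.fwd 907 20 tpr768.df)) (.leaf (.bwd 927 28 tpr1021.df))))) (.node (.node (.node (.leaf (.bwd 955 29 tpr9.df)) (.leaf (.bwd 984 34 tpr15.df))) (.node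 (.leaf (.bwd 1018 20 tpr48.df)) (.leaf (.fwd 1038 23 tpr780.df)))) (.node (.node (.leaf (.fwd 1061 35 tpr123.df)) (.leaf (.bwd 1096 20 tpr103.df))) (.leaf (.fwd 1116 22 tpr504.df))))) (.node (.node (.node (.node (.leaf (.fwd 1138 43 tpr122.df)) (.leaf (.fwd 1181 32 tpr251.df))) (.node (.leaf (.bwd 1213 31 tpr528.df)) (.leaf (.fwd 1244 24 tpr458.df)))) (.node (.node (.leaf (.bwd 1268 43 tpr734.df)) (.leaf (.fwd 1311 25 tpr51.df))) (.leaf (.fwd 1336 60 tpr630.df)))) (.node (.node (.node (.leaf (.fwd 1396 24 tpr743.df)) (.leaf (.bwd 1420 29 tpr656.df))) (.node (.leaf (.bwd 1449 19 tpr616.df)) (.leaf (.fwd 1468 23 tpr508.df)))) (.node (.node (.leaf (.fwd 1491 28 tpr511.df)) (.leaf (.bwd 1519 31 tpr607.df))) (.leaf (.fwd 1550 35 tpr259.df))))))) (.node (.node (.node (.node (.node (.node (.leaf (.bwd 1585 35 tpr568.df)) (.leaf (.bwd 1620 22 tpr953.df))) (.node (.leaf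 (.fwd 1642 29 tpr545.df)) (.leaf (.fwd 1671 26 tpr509.df)))) (.node (.node (.leaf (.bwd 1697 37 tpr555.df)) (.leaf (.bwd 1734 35 tpr658.df))) (.node (.leaf (.fwd 1769 31 tpr607.df)) (.leaf (.fwd 1800 38 tpr519.df))))) (.node (.node (.node (.leaf (.fwd 1838 15 tpr419.df)) (.leaf (.bwd 1853 29 tpr464.df))) (.node (.leaf (.bwd 1882 23 tpr456.df)) (.leaf (.bwd 1905 35 tpr259.df)))) (.node (.node (.leaf (.fwd 1940 27 tpr499.df)) (.leaf (.bwd 1967 29 tpr608.df))) (.leaf (.bwd 1996 20 tpr216.df))))) (.node (.node (.node (.node (.leaf (.fwd 2016 45 tpr851.df)) (.leaf (.fwd 2061 21 tpr72.df))) (.node (.leaf (.fwd 2082 30 tpr626.df)) (.leaf (.bwd 2112 39 tpr479.df)))) (.node (.node (.leaf (.bwd 2151 24 tpr454.df)) (.leaf (.bwd 2175 37 tpr465.df))) (.leaf (.fwd 2212 20 tpr48.df)))) (.node (.node (.node (.leaf (.bwd 2232 21 tpr110.df)) (.leaf (.fwd 2253 25 tpr106.df)))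 (.node (.leaf (.fwd 2278 29 tpr623.df)) (.leaf (.bwd 2307 35 tpr89.df)))) (.node (.node (.leaf (.bwd 2342 35 tpr622.df)) (.leaf (.fwd 2377 19 tpr33.df))) (.leaf (.fwd 2396 18 tpr2494.df)))))) (.node (.node (.node (.node (.node (.leaf (.fwd 2414 28 tpr990.df)) (.leaf (.bwd 2442 30 tpr1643.df))) (.node (.leaf (.fwd 2472 27 tpr788.df)) (.leaf (.fwd 2499 24 tpr2786.df)))) (.node (.node (.leaf (.fwd 2523 24 tpr1681.df)) (.leaf (.fwd 2547 38 tpr238.df))) (.leaf (.fwd 2585 25 tpr1257.df)))) (.node (.node (.node (.leaf (.bwd 2610 27 tpr584.df)) (.leaf (.fwd 2637 36 tpr23.df))) (.node (.leaf (.fwd 2673 14 tpr49.df)) (.leaf (.bwd 2687 20 tpr186.df)))) (.node (.node (.leaf (.bwd 2707 22 tpr982.df)) (.leaf (.bwd 2729 15 tpr419.df))) (.leaf (.fwd 2744 27 tpr82.df))))) (.node (.node (.node (.node (.leaf (.fwd 2771 43 tpr566.df)) (.leaf (.bwd 2814 25 tpr51.df))) (.node (.leaf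 (.bwd 2839 28 tpr1018.df)) (.leaf (.bwd 2867 22 tpr598.df)))) (.node (.node (.leaf (.bwd 2889 28 tpr1666.df)) (.leaf (.fwd 2917 37 tpr1789.df))) (.leaf (.bwd 2954 23 tpr605.df)))) (.node (.node (.node (.leaf (.fwd 2977 29 tpr151.df)) (.leaf (.fwd 3006 29 tpr647.df))) (.node (.leaf (.bwd 3035 36 tpr665.df)) (.leaf (.bwd 3071 22 tpr239.df)))) (.node (.node (.leaf (.bwd 3093 39 tpr569.df)) (.leaf (.fwd 3132 22 tpr959.df))) (.leaf (.bwd 3154 29 tpr746.df))))))))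

theorem iiNFzByAzE2A3H2ByAzIzA2H3AyB2AzF_c : iiNFzByAzE2A3H2ByAzIzA2H3AyB2AzF.all (itB (ng 60 nnNFzByAzE2A3H2ByAzIzA2H3AyB2AzF)) = true := by decide +kernel
theorem nbNFzByAzE2A3H2ByAzIzA2H3AyB2AzF : nbB 60 3243 nnNFzByAzE2A3H2ByAzIzA2H3AyB2AzF = true := by decide +kernel
theorem topNFzByAzE2A3H2ByAzIzA2H3AyB2AzF : topY 3243 ttNFzByAzE2A3H2ByAzIzA2H3AyB2AzF ceNFzByAzE2A3H2ByAzIzA2H3AyB2AzF xNFzByAzE2A3H2ByAzIzA2H3AyB2AzF iiNFzByAzE2A3H2ByAzIzA2H3AyB2AzF = true := by decide +kernel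

end MPb6R
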