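import Pool.Agent.Lib.MP_b6d339_lc.Cw3.YFzByAzE2A3H2ByAzIzAyB2H3A2EzF
import Pool.Agent.Lib.MP_b6d339_lc.Cw3.XL
import Pool.Agent.Lib.MP_b6d339_lc.Cw3.T0
import Pool.Agent.Lib.MP_b6d339_lc.Cw3.T1
import Pool.Agent.Lib.MP_b6d339_lc.Cw3.T10
import Pool.Agent.Lib.MP_b6d339_lc.Cw3.T11
import Pool.Agent.Lib.MP_b6d339_lc.Cw3.T12
import Pool.Agent.Lib.MP_b6d339_lc.Cw3.T13
import Pool.Agent.Lib.MP_b6d339_lc.Cw3.T14
import Pool.Agent.Lib.MP_b6d339_lc.Cw3.T15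
import Pool.Agent.Lib.MP_b6d339_lc.Cw3.T16
import Pool.Agent.Lib.MP_b6d339_lc.Cw3.T19
import Pool.Agent.Lib.MP_b6d339_lc.Cw3.T2
import Pool.Agent.Lib.MP_b6d339_lc.Cw3.T20
import Pool.Agent.Lib.MP_b6d339_lc.Cw3.T21
import Pool.Agent.Lib.MP_b6d339_lc.Cw3.T22
import Pool.Agent.Lib.MP_b6d339_lc.Cw3.T23
import Pool.Agent.Lib.MP_b6d339_lc.Cw3.T24
import Pool.Agent.Lib.MP_b6d339_lc.Cw3.T25
import Pool.Agent.Lib.MP_b6d339_lc.Cw3.T26
import Pool.Agent.Lib.MP_b6d339_lc.Cw3.T29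
import Pool.Agent.Lib.MP_b6d339_lc.Cw3.T3
import Pool.Agent.Lib.MP_b6d339_lc.Cw3.T30
import Pool.Agent.Lib.MP_b6d339_lc.Cw3.T36
import Pool.Agent.Lib.MP_b6d339_lc.Cw3.T4
import Pool.Agent.Lib.MP_b6d339_lc.Cw3.T5
import Pool.Agent.Lib.MP_b6d339_lc.Cw3.T6
import Pool.Agent.Lib.MP_b6d339_lc.Cw3.T7
import Pool.Agent.Lib.MP_b6d339_lc.Cw3.T8
import Pool.Agent.Lib.MP_b6d339_lc.Cw3.T9

/-!
# Erdős 592, three levels: items
-/

namespace MPb6R

open MPb6P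

noncomputable def iiNFzByAzE2A3H2ByAzIzAyB2H3A2EzF : BT Itm := (.node (.node (.node (.node (.node (.node (.node (.node (.node (.leaf (.fwd 0 23 tpr5.df)) (.leaf (.fwd 23 21 tpr8.df))) (.node (.leaf (.bwd 44 27 tpr82.df)) (.leaf (.bwd 71 33 tpr44.df)))) (.node (.node (.leaf (.fwd 104 13 tpr500.df)) (.leaf (.bwd 117 23 tpr508.df))) (.leaf (.fwd 140 34 tpr548.df)))) (.node (.node (.node (.leaf (.bwd 174 37 tpr555.df)) (.leaf (.fwd 211 29 tpr22.df))) (.leaf (.bwd 240 32 tpr17.df))) (.node (.node (.leaf (.fwd 272 20 tpr48.df)) (.leaf (.fwd 292 20 tpr103.df))) (.leaf (.bwd 312 20 tpr505.df))))) (.node (.node (.node (.node (.leaf (.bwd 332 31 tpr607.df)) (.leaf (.bwd 363 32 tpr294.df))) (.node (.leaf (.bwd 395 25 tpr106.df)) (.leaf (.fwd 420 27 tpr499.df)))) (.node (.node (.leaf (.bwd 447 21 tpr8.df)) (.leaf (.bwd 468 28 tpr507.df))) (.leaf (.fwd 496 31 tpr607.df)))) (.node (.node (.node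 (.leaf (.fwd 527 37 tpr555.df)) (.leaf (.fwd 564 31 tpr198.df))) (.leaf (.bwd 595 29 tpr545.df))) (.node (.node (.leaf (.fwd 624 46 tpr324.df)) (.leaf (.fwd 670 20 tpr505.df))) (.leaf (.bwd 690 24 tpr743.df)))))) (.node (.node (.node (.node (.node (.leaf (.bwd 714 32 tpr518.df)) (.leaf (.fwd 746 32 tpr518.df))) (.node (.leaf (.bwd 778 29 tpr22.df)) (.leaf (.fwd 807 25 tpr1016.df)))) (.node (.node (.leaf (.fwd 832 26 tpr516.df)) (.leaf (.fwd 858 27 tpr82.df))) (.leaf (.fwd 885 30 tpr1804.df)))) (.node (.node (.node (.leaf (.bwd 915 38 tpr203.df)) (.leaf (.bwd 953 26 tpr509.df))) (.leaf (.bwd 979 28 tpr511.df))) (.node (.node (.leaf (.bwd 1007 38 tpr519.df)) (.leaf (.fwd 1045 27 tpr625.df))) (.leaf (.fwd 1072 41 tpr502.df))))) (.node (.node (.node (.node (.leaf (.fwd 1113 22 tpr536.df)) (.leaf (.fwd 1135 44 tpr617.df))) (.leaf (.bwd 1179 35 tpr13.df))) (.node (.node (.leaf (.fwd 1214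 6 tpr4.df)) (.leaf (.fwd 1220 34 tpr619.df))) (.leaf (.bwd 1254 41 tpr624.df)))) (.node (.node (.node (.leaf (.fwd 1295 17 tpr16.df)) (.leaf (.bwd 1312 39 tpr78.df))) (.leaf (.bwd 1351 42 tpr612.df))) (.node (.node (.leaf (.bwd 1393 39 tpr81.df)) (.leaf (.bwd 1432 56 tpr87.df))) (.leaf (.bwd 1488 42 tpr678.df))))))) (.node (.node (.node (.node (.node (.node (.leaf (.fwd 1530 61 tpr695.df)) (.leaf (.fwd 1591 37 tpr621.df))) (.node (.leaf (.bwd 1628 35 tpr123.df)) (.leaf (.bwd 1663 43 tpr122.df)))) (.node (.node (.leaf (.fwd 1706 31 tpr339.df)) (.leaf (.fwd 1737 25 tpr74.df))) (.leaf (.fwd 1762 42 tpr344.df)))) (.node (.node (.node (.leaf (.fwd 1804 37 tpr720.df)) (.leaf (.fwd 1841 38 tpr393.df))) (.leaf (.bwd 1879 43 tpr292.df))) (.node (.node (.leaf (.fwd 1922 36 tpr75.df)) (.leaf (.bwd 1958 48 tpr77.df))) (.leaf (.fwd 2006 34 tpr54.df))))) (.node (.node (.node (.node (.leaf (.fwd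 2040 39 tpr569.df)) (.leaf (.bwd 2079 40 tpr705.df))) (.leaf (.bwd 2119 31 tpr167.df))) (.node (.node (.leaf (.bwd 2150 33 tpr1812.df)) (.leaf (.fwd 2183 31 tpr527.df))) (.leaf (.fwd 2214 19 tpr616.df)))) (.node (.node (.node (.leaf (.bwd 2233 26 tpr516.df)) (.leaf (.bwd 2259 36 tpr683.df))) (.leaf (.bwd 2295 31 tpr576.df))) (.node (.node (.leaf (.fwd 2326 35 tpr568.df)) (.leaf (.fwd 2361 32 tpr17.df))) (.leaf (.fwd 2393 33 tpr44.df)))))) (.node (.node (.node (.node (.node (.leaf (.bwd 2426 22 tpr504.df)) (.leaf (.bwd 2448 22 tpr239.df))) (.node (.leaf (.bwd 2470 28 tpr546.df)) (.leaf (.bwd 2498 30 tpr577.df)))) (.node (.node (.leaf (.fwd 2528 40 tpr544.df)) (.leaf (.fwd 2568 32 tpr591.df))) (.leaf (.fwd 2600 26 tpr1800.df)))) (.node (.node (.node (.leaf (.fwd 2626 42 tpr612.df)) (.leaf (.fwd 2668 36 tpr672.df))) (.leaf (.fwd 2704 35 tpr622.df))) (.node (.node (.leaf (.fwd 2739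 32 tpr620.df)) (.leaf (.bwd 2771 22 tpr2424.df))) (.leaf (.bwd 2793 30 tpr626.df))))) (.node (.node (.node (.node (.leaf (.fwd 2823 33 tpr521.df)) (.leaf (.fwd 2856 32 tpr294.df))) (.leaf (.fwd 2888 37 tpr503.df))) (.node (.node (.leaf (.fwd 2925 31 tpr576.df)) (.leaf (.bwd 2956 44 tpr617.df))) (.leaf (.bwd 3000 41 tpr502.df)))) (.node (.node (.node (.leaf (.bwd 3041 33 tpr680.df)) (.leaf (.bwd 3074 45 tpr596.df))) (.leaf (.fwd 3119 37 tpr523.df))) (.node (.node (.leaf (.fwd 3156 44 tpr466.df)) (.leaf (.fwd 3200 36 tpr23.df))) (.leaf (.bwd 3236 58 tpr1719.df)))))))) (.node (.node (.node (.node (.node (.node (.node (.leaf (.fwd 3294 23 tpr1255.df)) (.leaf (.fwd 3317 38 tpr265.df))) (.node (.leaf (.fwd 3355 28 tpr610.df)) (.leaf (.bwd 3383 39 tpr636.df)))) (.node (.node (.leaf (.fwd 3422 23 tpr559.df)) (.leaf (.bwd 3445 28 tpr588.df))) (.leaf (.fwd 3473 22 tpr515.df)))) (.node (.node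 (.node (.leaf (.fwd 3495 46 tpr593.df)) (.leaf (.fwd 3541 30 tpr626.df))) (.leaf (.bwd 3571 44 tpr592.df))) (.node (.node (.leaf (.bwd 3615 34 tpr1204.df)) (.leaf (.fwd 3649 28 tpr627.df))) (.leaf (.bwd 3677 35 tpr568.df))))) (.node (.node (.node (.node (.leaf (.bwd 3712 39 tpr701.df)) (.leaf (.bwd 3751 30 tpr513.df))) (.leaf (.fwd 3781 32 tpr1248.df))) (.node (.node (.leaf (.fwd 3813 26 tpr509.df)) (.leaf (.bwd 3839 58 tpr699.df))) (.leaf (.fwd 3897 30 tpr26.df)))) (.node (.node (.node (.leaf (.fwd 3927 37 tpr583.df)) (.leaf (.fwd 3964 39 tpr701.df))) (.leaf (.bwd 4003 28 tpr610.df))) (.node (.node (.leaf (.fwd 4031 41 tpr549.df)) (.leaf (.fwd 4072 30 tpr537.df))) (.leaf (.bwd 4102 29 tpr9.df)))))) (.node (.node (.node (.node (.node (.leaf (.fwd 4131 28 tpr1666.df)) (.leaf (.fwd 4159 31 tpr712.df))) (.node (.leaf (.fwd 4190 34 tpr543.df)) (.leaf (.fwd 4224 35 tpr574.df)))) (.node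 (.node (.leaf (.fwd 4259 33 tpr1256.df)) (.leaf (.fwd 4292 35 tpr58.df))) (.leaf (.bwd 4327 16 tpr804.df)))) (.node (.node (.node (.leaf (.bwd 4343 37 tpr583.df)) (.leaf (.fwd 4380 36 tpr683.df))) (.leaf (.bwd 4416 39 tpr615.df))) (.node (.node (.leaf (.fwd 4455 33 tpr968.df)) (.leaf (.fwd 4488 23 tpr508.df))) (.leaf (.fwd 4511 33 tpr680.df))))) (.node (.node (.node (.node (.leaf (.bwd 4544 31 tpr527.df)) (.leaf (.fwd 4575 45 tpr596.df))) (.leaf (.bwd 4620 23 tpr605.df))) (.node (.node (.leaf (.fwd 4643 34 tpr614.df)) (.leaf (.fwd 4677 38 tpr238.df))) (.leaf (.fwd 4715 43 tpr676.df)))) (.node (.node (.node (.leaf (.fwd 4758 49 tpr1647.df)) (.leaf (.bwd 4807 39 tpr1001.df))) (.leaf (.bwd 4846 36 tpr1670.df))) (.node (.node (.leaf (.bwd 4882 33 tpr521.df)) (.leaf (.fwd 4915 30 tpr1058.df))) (.leaf (.fwd 4945 39 tpr514.df))))))) (.node (.node (.node (.node (.node (.node (.leaf (.bwd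 4984 34 tpr575.df)) (.leaf (.fwd 5018 37 tpr681.df))) (.node (.leaf (.bwd 5055 39 tpr514.df)) (.leaf (.bwd 5094 60 tpr1862.df)))) (.node (.node (.leaf (.bwd 5154 28 tpr627.df)) (.leaf (.fwd 5182 31 tpr315.df))) (.leaf (.fwd 5213 37 tpr2425.df)))) (.node (.node (.node (.leaf (.bwd 5250 39 tpr2426.df)) (.leaf (.fwd 5289 44 tpr592.df))) (.leaf (.fwd 5333 41 tpr1637.df))) (.node (.node (.leaf (.fwd 5374 33 tpr1215.df)) (.leaf (.bwd 5407 22 tpr959.df))) (.leaf (.fwd 5429 37 tpr1052.df))))) (.node (.node (.node (.node (.leaf (.bwd 5466 24 tpr293.df)) (.leaf (.fwd 5490 25 tpr702.df))) (.leaf (.fwd 5515 23 tpr605.df))) (.node (.node (.leaf (.fwd 5538 22 tpr239.df)) (.leaf (.fwd 5560 37 tpr693.df))) (.leaf (.fwd 5597 28 tpr511.df)))) (.node (.node (.node (.leaf (.bwd 5625 23 tpr559.df)) (.leaf (.bwd 5648 18 tpr18.df))) (.leaf (.fwd 5666 42 tpr1196.df))) (.node (.node (.leaf (.fwd 5708 37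 tpr782.df)) (.leaf (.bwd 5745 33 tpr1990.df))) (.leaf (.bwd 5778 13 tpr500.df)))))) (.node (.node (.node (.node (.node (.leaf (.fwd 5791 60 tpr630.df)) (.leaf (.fwd 5851 22 tpr504.df))) (.node (.leaf (.bwd 5873 30 tpr1655.df)) (.leaf (.bwd 5903 44 tpr466.df)))) (.node (.node (.leaf (.fwd 5947 30 tpr481.df)) (.leaf (.bwd 5977 53 tpr2434.df))) (.leaf (.bwd 6030 39 tpr1909.df)))) (.node (.node (.node (.leaf (.bwd 6069 29 tpr1914.df)) (.leaf (.bwd 6098 27 tpr499.df))) (.leaf (.fwd 6125 30 tpr613.df))) (.node (.node (.leaf (.fwd 6155 55 tpr1926.df)) (.leaf (.fwd 6210 54 tpr1193.df))) (.leaf (.fwd 6264 40 tpr2368.df))))) (.node (.node (.node (.node (.leaf (.bwd 6304 29 tpr2369.df)) (.leaf (.bwd 6333 43 tpr1929.df))) (.leaf (.fwd 6376 41 tpr2372.df))) (.node (.node (.leaf (.fwd 6417 32 tpr1899.df)) (.leaf (.bwd 6449 38 tpr1903.df))) (.leaf (.fwd 6487 38 tpr1817.df)))) (.node (.node (.node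 (.leaf (.fwd 6525 43 tpr1929.df)) (.leaf (.fwd 6568 57 tpr767.df))) (.leaf (.bwd 6625 31 tpr315.df))) (.node (.node (.leaf (.fwd 6656 33 tpr2090.df)) (.leaf (.fwd 6689 26 tpr349.df))) (.leaf (.bwd 6715 40 tpr2368.df))))))))) (.node (.node (.node (.node (.node (.node (.node (.node (.leaf (.bwd 6755 54 tpr2436.df)) (.leaf (.bwd 6809 43 tpr532.df))) (.node (.leaf (.bwd 6852 25 tpr2070.df)) (.leaf (.bwd 6877 47 tpr1895.df)))) (.node (.node (.leaf (.bwd 6924 61 tpr695.df)) (.leaf (.fwd 6985 26 tpr1917.df))) (.leaf (.fwd 7011 29 tpr1914.df)))) (.node (.node (.node (.leaf (.bwd 7040 55 tpr1926.df)) (.leaf (.fwd 7095 22 tpr118.df))) (.leaf (.bwd 7117 24 tpr160.df))) (.node (.node (.leaf (.bwd 7141 38 tpr1961.df)) (.leaf (.fwd 7179 38 tpr1961.df))) (.leaf (.bwd 7217 19 tpr33.df))))) (.node (.node (.node (.node (.leaf (.bwd 7236 58 tpr2431.df)) (.leaf (.bwd 7294 33 tpr129.df))) (.leaf (.fwd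 7327 53 tpr2434.df))) (.node (.node (.leaf (.fwd 7380 54 tpr2436.df)) (.leaf (.bwd 7434 51 tpr729.df))) (.leaf (.bwd 7485 37 tpr327.df)))) (.node (.node (.node (.leaf (.bwd 7522 31 tpr761.df)) (.leaf (.bwd 7553 25 tpr74.df))) (.leaf (.fwd 7578 42 tpr2430.df))) (.node (.node (.leaf (.fwd 7620 33 tpr2446.df)) (.leaf (.fwd 7653 24 tpr200.df))) (.leaf (.fwd 7677 37 tpr406.df)))))) (.node (.node (.node (.node (.node (.leaf (.fwd 7714 46 tpr1864.df)) (.leaf (.bwd 7760 30 tpr481.df))) (.node (.leaf (.bwd 7790 26 tpr1889.df)) (.leaf (.bwd 7816 33 tpr1875.df)))) (.node (.node (.leaf (.bwd 7849 37 tpr720.df)) (.leaf (.bwd 7886 38 tpr393.df))) (.leaf (.bwd 7924 27 tpr1962.df)))) (.node (.node (.node (.leaf (.bwd 7951 35 tpr2429.df)) (.leaf (.fwd 7986 43 tpr2433.df))) (.leaf (.fwd 8029 53 tpr2443.df))) (.node (.node (.leaf (.fwd 8082 58 tpr1959.df)) (.leaf (.bwd 8140 47 tpr2427.df))) (.leaf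 (.fwd 8187 44 tpr1717.df))))) (.node (.node (.node (.node (.leaf (.bwd 8231 35 tpr1938.df)) (.leaf (.fwd 8266 45 tpr1887.df))) (.leaf (.fwd 8311 25 tpr1877.df))) (.node (.node (.leaf (.fwd 8336 39 tpr2450.df)) (.leaf (.bwd 8375 48 tpr2442.df))) (.leaf (.fwd 8423 31 tpr1896.df)))) (.node (.node (.node (.leaf (.bwd 8454 20 tpr103.df)) (.leaf (.bwd 8474 26 tpr349.df))) (.leaf (.fwd 8500 35 tpr13.df))) (.node (.node (.leaf (.bwd 8535 22 tpr536.df)) (.leaf (.bwd 8557 24 tpr24.df))) (.leaf (.fwd 8581 43 tpr292.df))))))) (.node (.node (.node (.node (.node (.node (.leaf (.fwd 8624 39 tpr615.df)) (.leaf (.fwd 8663 43 tpr122.df))) (.node (.leaf (.fwd 8706 39 tpr81.df)) (.leaf (.bwd 8745 20 tpr63.df)))) (.node (.node (.leaf (.bwd 8765 34 tpr15.df)) (.leaf (.fwd 8799 44 tpr2437.df))) (.leaf (.fwd 8843 56 tpr87.df)))) (.node (.node (.node (.leaf (.bwd 8899 22 tpr2375.df)) (.leaf (.bwd 8921 45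 tpr851.df))) (.leaf (.fwd 8966 43 tpr566.df))) (.node (.node (.leaf (.bwd 9009 37 tpr1190.df)) (.leaf (.fwd 9046 50 tpr211.df))) (.leaf (.bwd 9096 37 tpr621.df))))) (.node (.node (.node (.node (.leaf (.bwd 9133 40 tpr1652.df)) (.leaf (.fwd 9173 35 tpr123.df))) (.leaf (.fwd 9208 41 tpr2015.df))) (.node (.node (.leaf (.bwd 9249 24 tpr57.df)) (.leaf (.bwd 9273 51 tpr1723.df))) (.leaf (.bwd 9324 47 tpr604.df)))) (.node (.node (.node (.leaf (.fwd 9371 29 tpr2438.df)) (.leaf (.bwd 9400 42 tpr344.df))) (.leaf (.fwd 9442 41 tpr326.df))) (.node (.node (.leaf (.bwd 9483 48 tpr2439.df)) (.leaf (.fwd 9531 49 tpr2441.df))) (.leaf (.fwd 9580 38 tpr203.df)))))) (.node (.node (.node (.node (.node (.leaf (.bwd 9618 21 tpr530.df)) (.leaf (.fwd 9639 29 tpr545.df))) (.node (.leaf (.fwd 9668 38 tpr519.df)) (.leaf (.bwd 9706 23 tpr632.df)))) (.node (.node (.leaf (.bwd 9729 17 tpr1714.df)) (.leaf (.bwd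 9746 30 tpr603.df))) (.leaf (.bwd 9776 30 tpr1547.df)))) (.node (.node (.node (.leaf (.fwd 9806 25 tpr2070.df)) (.leaf (.bwd 9831 29 tpr151.df))) (.leaf (.bwd 9860 24 tpr697.df))) (.node (.node (.leaf (.bwd 9884 25 tpr1257.df)) (.leaf (.bwd 9909 26 tpr1917.df))) (.leaf (.bwd 9935 33 tpr1213.df))))) (.node (.node (.node (.node (.leaf (.bwd 9968 32 tpr1899.df)) (.leaf (.fwd 10000 39 tpr1900.df))) (.leaf (.fwd 10039 19 tpr33.df))) (.node (.node (.leaf (.bwd 10058 57 tpr767.df)) (.leaf (.fwd 10115 31 tpr761.df))) (.leaf (.fwd 10146 42 tpr587.df)))) (.node (.node (.node (.leaf (.fwd 10188 30 tpr603.df)) (.leaf (.fwd 10218 33 tpr1213.df))) (.leaf (.bwd 10251 41 tpr1637.df))) (.node (.node (.leaf (.bwd 10292 31 tpr198.df)) (.leaf (.fwd 10323 22 tpr959.df))) (.leaf (.bwd 10345 43 tpr565.df)))))))) (.node (.node (.node (.node (.node (.node (.node (.leaf (.bwd 10388 22 tpr982.df)) (.leaf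 (.fwd 10410 23 tpr640.df))) (.node (.leaf (.bwd 10433 40 tpr544.df)) (.leaf (.fwd 10473 38 tpr1636.df)))) (.node (.node (.leaf (.fwd 10511 25 tpr1257.df)) (.leaf (.bwd 10536 34 tpr619.df))) (.leaf (.bwd 10570 41 tpr2015.df)))) (.node (.node (.node (.leaf (.fwd 10611 26 tpr1889.df)) (.leaf (.fwd 10637 27 tpr1202.df))) (.leaf (.fwd 10664 29 tpr2369.df))) (.node (.node (.leaf (.fwd 10693 40 tpr1684.df)) (.leaf (.fwd 10733 23 tpr632.df))) (.leaf (.fwd 10756 25 tpr633.df))))) (.node (.node (.node (.node (.leaf (.bwd 10781 49 tpr1647.df)) (.leaf (.bwd 10830 54 tpr1193.df))) (.leaf (.bwd 10884 60 tpr630.df))) (.node (.node (.leaf (.fwd 10944 17 tpr1714.df)) (.leaf (.fwd 10961 27 tpr1646.df))) (.leaf (.fwd 10988 39 tpr636.df)))) (.node (.node (.node (.leaf (.fwd 11027 30 tpr577.df)) (.leaf (.bwd 11057 43 tpr676.df))) (.leaf (.bwd 11100 46 tpr593.df))) (.node (.node (.leaf (.fwd 11146 37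 tpr520.df)) (.leaf (.bwd 11183 28 tpr510.df))) (.leaf (.bwd 11211 27 tpr1646.df)))))) (.node (.node (.node (.node (.node (.leaf (.fwd 11238 28 tpr510.df)) (.leaf (.bwd 11266 32 tpr620.df))) (.node (.leaf (.bwd 11298 25 tpr702.df)) (.leaf (.bwd 11323 25 tpr633.df)))) (.node (.node (.leaf (.fwd 11348 22 tpr982.df)) (.leaf (.bwd 11370 44 tpr725.df))) (.leaf (.bwd 11414 33 tpr2090.df)))) (.node (.node (.node (.leaf (.fwd 11447 29 tpr1707.df)) (.leaf (.bwd 11476 22 tpr118.df))) (.leaf (.fwd 11498 22 tpr2375.df))) (.node (.node (.leaf (.fwd 11520 32 tpr2068.df)) (.leaf (.fwd 11552 43 tpr532.df))) (.leaf (.bwd 11595 41 tpr2372.df))))) (.node (.node (.node (.node (.leaf (.fwd 11636 44 tpr1953.df)) (.leaf (.fwd 11680 58 tpr2431.df))) (.leaf (.bwd 11738 32 tpr2068.df))) (.node (.node (.leaf (.fwd 11770 38 tpr1903.df)) (.leaf (.bwd 11808 39 tpr569.df))) (.leaf (.fwd 11847 29 tpr151.df))))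 (.node (.node (.node (.leaf (.fwd 11876 30 tpr1547.df)) (.leaf (.fwd 11906 39 tpr1909.df))) (.leaf (.fwd 11945 39 tpr256.df))) (.node (.node (.leaf (.bwd 11984 32 tpr522.df)) (.leaf (.fwd 12016 60 tpr771.df))) (.leaf (.fwd 12076 29 tpr654.df))))))) (.node (.node (.node (.node (.node (.node (.leaf (.bwd 12105 32 tpr2445.df)) (.leaf (.fwd 12137 35 tpr1938.df))) (.node (.leaf (.bwd 12172 38 tpr526.df)) (.leaf (.bwd 12210 38 tpr1636.df)))) (.node (.node (.leaf (.fwd 12248 24 tpr160.df)) (.leaf (.fwd 12272 28 tpr588.df))) (.leaf (.bwd 12300 35 tpr595.df)))) (.node (.node (.node (.leaf (.bwd 12335 34 tpr543.df)) (.leaf (.fwd 12369 34 tpr575.df))) (.leaf (.bwd 12403 42 tpr2091.df))) (.node (.node (.leaf (.bwd 12445 44 tpr1953.df)) (.leaf (.fwd 12489 15 tpr525.df))) (.leaf (.fwd 12504 21 tpr25.df))))) (.node (.node (.node (.node (.leaf (.fwd 12525 38 tpr2447.df)) (.leaf (.fwd 12563 44 tpr2448.df)))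 (.leaf (.bwd 12607 23 tpr1907.df))) (.node (.node (.leaf (.fwd 12630 37 tpr1966.df)) (.leaf (.fwd 12667 17 tpr215.df))) (.leaf (.bwd 12684 40 tpr62.df)))) (.node (.node (.node (.leaf (.fwd 12724 61 tpr2452.df)) (.leaf (.bwd 12785 23 tpr1255.df))) (.leaf (.bwd 12808 29 tpr1006.df))) (.node (.node (.leaf (.fwd 12837 39 tpr655.df)) (.leaf (.fwd 12876 28 tpr27.df))) (.leaf (.bwd 12904 33 tpr501.df)))))) (.node (.node (.node (.node (.node (.leaf (.bwd 12937 40 tpr1005.df)) (.leaf (.fwd 12977 33 tpr594.df))) (.node (.leaf (.fwd 13010 39 tpr210.df)) (.leaf (.bwd 13049 43 tpr734.df)))) (.node (.node (.leaf (.bwd 13092 45 tpr740.df)) (.leaf (.bwd 13137 39 tpr718.df))) (.leaf (.fwd 13176 37 tpr687.df)))) (.node (.node (.node (.leaf (.fwd 13213 38 tpr1288.df)) (.leaf (.fwd 13251 32 tpr742.df))) (.leaf (.fwd 13283 38 tpr2454.df))) (.node (.node (.leaf (.bwd 13321 41 tpr552.df)) (.leaf (.fwd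 13362 37 tpr2458.df))) (.leaf (.fwd 13399 38 tpr1825.df))))) (.node (.node (.node (.node (.leaf (.fwd 13437 32 tpr522.df)) (.leaf (.bwd 13469 32 tpr1065.df))) (.leaf (.bwd 13501 58 tpr2937.df))) (.node (.node (.leaf (.bwd 13559 33 tpr1801.df)) (.leaf (.fwd 13592 38 tpr2459.df))) (.leaf (.bwd 13630 32 tpr247.df)))) (.node (.node (.node (.leaf (.fwd 13662 37 tpr2453.df)) (.leaf (.bwd 13699 48 tpr684.df))) (.leaf (.fwd 13747 37 tpr1199.df))) (.node (.node (.leaf (.bwd 13784 23 tpr2460.df)) (.leaf (.bwd 13807 34 tpr1805.df))) (.leaf (.bwd 13841 27 tpr1247.df))))))))))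

theorem iiNFzByAzE2A3H2ByAzIzAyB2H3A2EzF_c : iiNFzByAzE2A3H2ByAzIzAyB2H3A2EzF.all (itB (ng 61 nnNFzByAzE2A3H2ByAzIzAyB2H3A2EzF)) = true := by decide +kernel
theorem nbNFzByAzE2A3H2ByAzIzAyB2H3A2EzF : nbB 61 13929 nnNFzByAzE2A3H2ByAzIzAyB2H3A2EzF = true := by decide +kernel
theorem topNFzByAzE2A3H2ByAzIzAyB2H3A2EzF : topY 13929 ttNFzByAzE2A3H2ByAzIzAyB2H3A2EzF ceNFzByAzE2A3H2ByAzIzAyB2H3A2EzF xNFzByAzE2A3H2ByAzIzAyB2H3A2EzF iiNFzByAzE2A3H2ByAzIzAyB2H3A2EzF = true := by decide +kernel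

end MPb6R
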