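import Pool.Agent.Lib.MP_b6d339_lc.Cw3.YFzE2A3H2AzA2H3A2EzF
import Pool.Agent.Lib.MP_b6d339_lc.Cw3.XL
import Pool.Agent.Lib.MP_b6d339_lc.Cw3.T0
import Pool.Agent.Lib.MP_b6d339_lc.Cw3.T1
import Pool.Agent.Lib.MP_b6d339_lc.Cw3.T10
import Pool.Agent.Lib.MP_b6d339_lc.Cw3.T11
import Pool.Agent.Lib.MP_b6d339_lc.Cw3.T12
import Pool.Agent.Lib.MP_b6d339_lc.Cw3.T2
import Pool.Agent.Lib.MP_b6d339_lc.Cw3.T3
import Pool.Agent.Lib.MP_b6d339_lc.Cw3.T4
import Pool.Agent.Lib.MP_b6d339_lc.Cw3.T5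
import Pool.Agent.Lib.MP_b6d339_lc.Cw3.T6
import Pool.Agent.Lib.MP_b6d339_lc.Cw3.T7
import Pool.Agent.Lib.MP_b6d339_lc.Cw3.T8
import Pool.Agent.Lib.MP_b6d339_lc.Cw3.T9

/-!
# Erdős 592, three levels: items
-/

namespace MPb6R

open MPb6P

noncomputable def iiNFzE2A3H2AzA2H3A2EzF : BT Itm := (.node (.node (.node (.node (.node (.node (.node (.node (.node (.leaf (.fwd 0 23 tpr5.df)) (.leaf (.bwd 23 29 tpr9.df))) (.leaf (.bwd 52 20 tpr48.df))) (.node (.node (.leaf (.bwd 72 27 tpr499.df)) (.leaf (.bwd 99 13 tpr500.df))) (.leaf (.fwd 112 29 tpr570.df)))) (.node (.node (.node (.leaf (.fwd 141 13 tpr500.df)) (.leaf (.bwd 154 23 tpr508.df))) (.leaf (.fwd 177 27 tpr499.df))) (.node (.leaf (.bwd 204 32 tpr518.df)) (.leaf (.bwd 236 28 tpr507.df))))) (.node (.node (.node (.node (.leaf (.fwd 264 15 tpr419.df)) (.leaf (.bwd 279 29 tpr22.df))) (.leaf (.fwd 308 20 tpr103.df))) (.node (.node (.leaf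 (.bwd 328 25 tpr677.df)) (.leaf (.bwd 353 26 tpr222.df))) (.leaf (.bwd 379 36 tpr935.df)))) (.node (.node (.node (.leaf (.fwd 415 37 tpr555.df)) (.leaf (.fwd 452 28 tpr944.df))) (.leaf (.fwd 480 24 tpr931.df))) (.node (.leaf (.bwd 504 31 tpr607.df)) (.leaf (.bwd 535 22 tpr504.df)))))) (.node (.node (.node (.node (.node (.leaf (.bwd 557 30 tpr513.df)) (.leaf (.bwd 587 35 tpr969.df))) (.leaf (.fwd 622 31 tpr167.df))) (.node (.node (.leaf (.bwd 653 33 tpr501.df)) (.leaf (.bwd 686 22 tpr572.df))) (.leaf (.bwd 708 27 tpr82.df)))) (.node (.node (.node (.leaf (.bwd 735 32 tpr247.df)) (.leaf (.bwd 767 27 tpr540.df))) (.leaf (.bwd 794 28 tpr944.df))) (.node (.leaf (.bwd 822 20 tpr505.df)) (.leaf (.bwd 842 22 tpr581.df))))) (.node (.node (.node (.node (.leaf (.fwd 864 31 tpr949.df)) (.leaf (.fwd 895 25 tpr10.df))) (.leaf (.fwd 920 22 tpr239.df))) (.node (.leaf (.fwd 942 17 tpr16.df)) (.leaf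 (.bwd 959 39 tpr78.df)))) (.node (.node (.node (.leaf (.bwd 998 39 tpr81.df)) (.leaf (.bwd 1037 56 tpr87.df))) (.leaf (.bwd 1093 22 tpr953.df))) (.node (.leaf (.fwd 1115 24 tpr609.df)) (.leaf (.fwd 1139 27 tpr236.df))))))) (.node (.node (.node (.node (.node (.node (.leaf (.fwd 1166 31 tpr606.df)) (.leaf (.fwd 1197 36 tpr547.df))) (.leaf (.fwd 1233 28 tpr967.df))) (.node (.node (.leaf (.fwd 1261 32 tpr17.df)) (.leaf (.bwd 1293 21 tpr530.df))) (.leaf (.fwd 1314 27 tpr540.df)))) (.node (.node (.node (.leaf (.bwd 1341 30 tpr577.df)) (.leaf (.fwd 1371 27 tpr82.df))) (.leaf (.bwd 1398 38 tpr519.df))) (.node (.leaf (.bwd 1436 28 tpr511.df)) (.leaf (.fwd 1464 25 tpr106.df))))) (.node (.node (.node (.node (.leaf (.fwd 1489 20 tpr48.df)) (.leaf (.fwd 1509 22 tpr515.df))) (.leaf (.fwd 1531 33 tpr645.df))) (.node (.leaf (.bwd 1564 24 tpr609.df)) (.leaf (.fwd 1588 29 tpr582.df)))) (.node (.node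 (.node (.leaf (.bwd 1617 35 tpr568.df)) (.leaf (.bwd 1652 45 tpr611.df))) (.leaf (.bwd 1697 35 tpr554.df))) (.node (.leaf (.fwd 1732 25 tpr679.df)) (.leaf (.bwd 1757 40 tpr544.df)))))) (.node (.node (.node (.node (.node (.leaf (.bwd 1797 31 tpr517.df)) (.leaf (.fwd 1828 25 tpr95.df))) (.leaf (.fwd 1853 32 tpr61.df))) (.node (.node (.leaf (.bwd 1885 20 tpr768.df)) (.leaf (.fwd 1905 15 tpr525.df))) (.leaf (.bwd 1920 35 tpr13.df)))) (.node (.node (.node (.leaf (.bwd 1955 25 tpr106.df)) (.leaf (.fwd 1980 19 tpr616.df))) (.leaf (.bwd 1999 26 tpr516.df))) (.node (.leaf (.bwd 2025 32 tpr17.df)) (.leaf (.bwd 2057 15 tpr525.df))))) (.node (.node (.node (.node (.leaf (.fwd 2072 27 tpr625.df)) (.leaf (.fwd 2099 32 tpr518.df))) (.leaf (.fwd 2131 22 tpr536.df))) (.node (.leaf (.fwd 2153 36 tpr573.df)) (.leaf (.fwd 2189 35 tpr259.df)))) (.node (.node (.node (.leaf (.fwd 2224 29 tpr820.df)) (.leaf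 (.fwd 2253 35 tpr585.df))) (.leaf (.bwd 2288 31 tpr606.df))) (.node (.leaf (.bwd 2319 29 tpr545.df)) (.leaf (.fwd 2348 31 tpr198.df)))))))) (.node (.node (.node (.node (.node (.node (.node (.leaf (.bwd 2379 29 tpr570.df)) (.leaf (.fwd 2408 29 tpr945.df))) (.leaf (.fwd 2437 19 tpr429.df))) (.node (.node (.leaf (.fwd 2456 29 tpr623.df)) (.leaf (.fwd 2485 26 tpr222.df))) (.leaf (.fwd 2511 21 tpr107.df)))) (.node (.node (.node (.leaf (.bwd 2532 19 tpr429.df)) (.leaf (.fwd 2551 41 tpr965.df))) (.leaf (.bwd 2592 34 tpr15.df))) (.node (.leaf (.bwd 2626 55 tpr314.df)) (.leaf (.bwd 2681 43 tpr323.df))))) (.node (.node (.node (.node (.leaf (.bwd 2724 53 tpr815.df)) (.leaf (.fwd 2777 52 tpr814.df))) (.leaf (.bwd 2829 28 tpr223.df))) (.node (.node (.leaf (.bwd 2857 29 tpr582.df)) (.leaf (.fwd 2886 29 tpr46.df))) (.leaf (.bwd 2915 38 tpr203.df)))) (.node (.node (.node (.leaf (.bwd 2953 33 tpr44.df))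 (.leaf (.fwd 2986 29 tpr9.df))) (.leaf (.bwd 3015 35 tpr259.df))) (.node (.leaf (.bwd 3050 35 tpr541.df)) (.leaf (.fwd 3085 43 tpr532.df)))))) (.node (.node (.node (.node (.node (.leaf (.fwd 3128 26 tpr516.df)) (.leaf (.bwd 3154 34 tpr54.df))) (.leaf (.fwd 3188 30 tpr537.df))) (.node (.node (.leaf (.fwd 3218 41 tpr549.df)) (.leaf (.fwd 3259 30 tpr26.df))) (.leaf (.bwd 3289 43 tpr566.df)))) (.node (.node (.node (.leaf (.fwd 3332 21 tpr474.df)) (.leaf (.bwd 3353 28 tpr295.df))) (.leaf (.bwd 3381 31 tpr167.df))) (.node (.leaf (.fwd 3412 27 tpr562.df)) (.leaf (.bwd 3439 42 tpr612.df))))) (.node (.node (.node (.node (.leaf (.fwd 3481 25 tpr74.df)) (.leaf (.fwd 3506 36 tpr75.df))) (.leaf (.fwd 3542 24 tpr57.df))) (.node (.leaf (.bwd 3566 28 tpr225.df)) (.leaf (.fwd 3594 42 tpr344.df)))) (.node (.node (.node (.leaf (.bwd 3636 42 tpr558.df)) (.leaf (.fwd 3678 61 tpr695.df))) (.leaf (.fwd 3739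 40 tpr62.df))) (.node (.leaf (.bwd 3779 42 tpr124.df)) (.leaf (.bwd 3821 41 tpr561.df))))))) (.node (.node (.node (.node (.node (.node (.leaf (.fwd 3862 29 tpr654.df)) (.leaf (.bwd 3891 60 tpr630.df))) (.leaf (.fwd 3951 41 tpr502.df))) (.node (.node (.leaf (.bwd 3992 31 tpr557.df)) (.leaf (.fwd 4023 31 tpr576.df))) (.leaf (.bwd 4054 37 tpr555.df)))) (.node (.node (.node (.leaf (.fwd 4091 31 tpr557.df)) (.leaf (.bwd 4122 26 tpr509.df))) (.leaf (.fwd 4148 42 tpr812.df))) (.node (.leaf (.bwd 4190 27 tpr562.df)) (.leaf (.bwd 4217 37 tpr556.df))))) (.node (.node (.node (.node (.leaf (.fwd 4254 59 tpr803.df)) (.leaf (.fwd 4313 44 tpr617.df))) (.leaf (.bwd 4357 27 tpr589.df))) (.node (.leaf (.fwd 4384 37 tpr556.df)) (.leaf (.fwd 4421 27 tpr506.df)))) (.node (.node (.node (.leaf (.fwd 4448 44 tpr466.df)) (.leaf (.fwd 4492 23 tpr559.df))) (.leaf (.fwd 4515 29 tpr579.df))) (.node (.leaf (.fwd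 4544 37 tpr782.df)) (.leaf (.fwd 4581 31 tpr528.df)))))) (.node (.node (.node (.node (.node (.leaf (.fwd 4612 38 tpr526.df)) (.leaf (.fwd 4650 34 tpr15.df))) (.leaf (.fwd 4684 27 tpr682.df))) (.node (.node (.leaf (.bwd 4711 46 tpr116.df)) (.leaf (.bwd 4757 23 tpr133.df))) (.leaf (.fwd 4780 33 tpr44.df)))) (.node (.node (.node (.leaf (.bwd 4813 16 tpr804.df)) (.leaf (.bwd 4829 38 tpr526.df))) (.leaf (.bwd 4867 36 tpr547.df))) (.node (.leaf (.fwd 4903 32 tpr251.df)) (.leaf (.bwd 4935 35 tpr657.df))))) (.node (.node (.node (.node (.leaf (.bwd 4970 35 tpr534.df)) (.leaf (.fwd 5005 29 tpr22.df))) (.leaf (.fwd 5034 47 tpr542.df))) (.node (.leaf (.fwd 5081 25 tpr586.df)) (.leaf (.bwd 5106 27 tpr236.df)))) (.node (.node (.node (.leaf (.fwd 5133 25 tpr739.df)) (.leaf (.fwd 5158 22 tpr982.df))) (.leaf (.fwd 5180 25 tpr644.df))) (.node (.leaf (.bwd 5205 27 tpr506.df)) (.leaf (.bwd 5232 48 tpr684.df)))))))))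 (.node (.node (.node (.node (.node (.node (.node (.node (.leaf (.bwd 5280 24 tpr730.df)) (.leaf (.fwd 5304 37 tpr583.df))) (.leaf (.fwd 5341 42 tpr972.df))) (.node (.node (.leaf (.fwd 5383 32 tpr550.df)) (.leaf (.fwd 5415 37 tpr503.df))) (.leaf (.fwd 5452 33 tpr521.df)))) (.node (.node (.node (.leaf (.fwd 5485 32 tpr294.df)) (.leaf (.fwd 5517 37 tpr523.df))) (.leaf (.fwd 5554 52 tpr957.df))) (.node (.leaf (.bwd 5606 21 tpr8.df)) (.leaf (.fwd 5627 36 tpr683.df))))) (.node (.node (.node (.node (.leaf (.bwd 5663 42 tpr678.df)) (.leaf (.fwd 5705 36 tpr23.df))) (.leaf (.bwd 5741 28 tpr588.df))) (.node (.node (.leaf (.fwd 5769 38 tpr105.df)) (.leaf (.bwd 5807 20 tpr63.df))) (.leaf (.bwd 5827 32 tpr294.df)))) (.node (.node (.node (.leaf (.bwd 5859 37 tpr571.df)) (.leaf (.fwd 5896 37 tpr520.df))) (.leaf (.fwd 5933 40 tpr544.df))) (.node (.leaf (.fwd 5973 39 tpr514.df)) (.leaf (.bwd 6012 27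 tpr529.df)))))) (.node (.node (.node (.node (.node (.leaf (.bwd 6039 29 tpr623.df)) (.leaf (.bwd 6068 30 tpr973.df))) (.leaf (.bwd 6098 25 tpr531.df))) (.node (.node (.leaf (.fwd 6123 27 tpr584.df)) (.leaf (.bwd 6150 25 tpr728.df))) (.leaf (.bwd 6175 29 tpr579.df)))) (.node (.node (.node (.leaf (.fwd 6204 32 tpr247.df)) (.leaf (.bwd 6236 44 tpr725.df))) (.leaf (.bwd 6280 28 tpr981.df))) (.node (.leaf (.bwd 6308 40 tpr724.df)) (.leaf (.fwd 6348 27 tpr589.df))))) (.node (.node (.node (.node (.leaf (.fwd 6375 38 tpr238.df)) (.leaf (.bwd 6413 45 tpr596.df))) (.leaf (.fwd 6458 36 tpr665.df))) (.node (.leaf (.bwd 6494 36 tpr976.df)) (.leaf (.bwd 6530 41 tpr549.df)))) (.node (.node (.node (.leaf (.fwd 6571 38 tpr203.df)) (.leaf (.bwd 6609 30 tpr537.df))) (.leaf (.fwd 6639 23 tpr605.df))) (.node (.leaf (.bwd 6662 22 tpr239.df)) (.leaf (.bwd 6684 28 tpr510.df))))))) (.node (.node (.node (.node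 (.node (.node (.leaf (.bwd 6712 40 tpr705.df)) (.leaf (.bwd 6752 35 tpr574.df))) (.leaf (.bwd 6787 27 tpr979.df))) (.node (.node (.leaf (.bwd 6814 37 tpr503.df)) (.leaf (.fwd 6851 41 tpr561.df))) (.leaf (.fwd 6892 42 tpr558.df)))) (.node (.node (.node (.leaf (.bwd 6934 32 tpr39.df)) (.leaf (.bwd 6966 35 tpr533.df))) (.leaf (.bwd 7001 32 tpr251.df))) (.node (.leaf (.bwd 7033 22 tpr20.df)) (.leaf (.fwd 7055 23 tpr12.df))))) (.node (.node (.node (.node (.leaf (.fwd 7078 23 tpr508.df)) (.leaf (.bwd 7101 21 tpr107.df))) (.leaf (.fwd 7122 27 tpr529.df))) (.node (.leaf (.bwd 7149 31 tpr528.df)) (.leaf (.fwd 7180 17 tpr317.df)))) (.node (.node (.node (.leaf (.bwd 7197 24 tpr57.df)) (.leaf (.bwd 7221 17 tpr16.df))) (.leaf (.bwd 7238 20 tpr103.df))) (.node (.leaf (.fwd 7258 22 tpr504.df)) (.leaf (.fwd 7280 20 tpr505.df)))))) (.node (.node (.node (.node (.node (.leaf (.fwd 7300 39 tpr78.df))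 (.leaf (.fwd 7339 20 tpr216.df))) (.leaf (.fwd 7359 39 tpr81.df))) (.node (.node (.leaf (.fwd 7398 42 tpr124.df)) (.leaf (.fwd 7440 56 tpr87.df))) (.leaf (.bwd 7496 25 tpr10.df)))) (.node (.node (.node (.leaf (.fwd 7521 29 tpr539.df)) (.leaf (.fwd 7550 33 tpr501.df))) (.leaf (.bwd 7583 30 tpr26.df))) (.node (.leaf (.fwd 7613 29 tpr545.df)) (.leaf (.fwd 7642 28 tpr511.df))))) (.node (.node (.node (.node (.leaf (.fwd 7670 26 tpr509.df)) (.leaf (.fwd 7696 28 tpr507.df))) (.leaf (.fwd 7724 28 tpr546.df))) (.node (.leaf (.fwd 7752 37 tpr571.df)) (.leaf (.bwd 7789 33 tpr538.df)))) (.node (.node (.node (.leaf (.fwd 7822 28 tpr241.df)) (.leaf (.bwd 7850 32 tpr550.df))) (.leaf (.fwd 7882 31 tpr517.df))) (.node (.leaf (.bwd 7913 34 tpr548.df)) (.leaf (.bwd 7947 31 tpr535.df)))))))) (.node (.node (.node (.node (.node (.node (.node (.leaf (.bwd 7978 37 tpr553.df)) (.leaf (.fwd 8015 29 tpr564.df)))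 (.leaf (.bwd 8044 29 tpr539.df))) (.node (.node (.leaf (.bwd 8073 22 tpr191.df)) (.leaf (.fwd 8095 28 tpr510.df))) (.leaf (.bwd 8123 29 tpr564.df)))) (.node (.node (.node (.leaf (.bwd 8152 28 tpr580.df)) (.leaf (.bwd 8180 36 tpr573.df))) (.leaf (.fwd 8216 35 tpr533.df))) (.node (.leaf (.bwd 8251 25 tpr586.df)) (.leaf (.fwd 8276 35 tpr534.df))))) (.node (.node (.node (.node (.leaf (.fwd 8311 30 tpr513.df)) (.leaf (.fwd 8341 24 tpr635.df))) (.leaf (.bwd 8365 34 tpr543.df))) (.node (.node (.leaf (.bwd 8399 31 tpr198.df)) (.leaf (.fwd 8430 21 tpr8.df))) (.leaf (.fwd 8451 42 tpr733.df)))) (.node (.node (.node (.leaf (.bwd 8493 41 tpr965.df)) (.leaf (.fwd 8534 25 tpr531.df))) (.leaf (.fwd 8559 34 tpr92.df))) (.node (.leaf (.bwd 8593 19 tpr33.df)) (.leaf (.fwd 8612 31 tpr694.df)))))) (.node (.node (.node (.node (.node (.leaf (.bwd 8643 31 tpr975.df)) (.leaf (.bwd 8674 32 tpr963.df))) (.leaf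 (.bwd 8706 31 tpr527.df))) (.node (.node (.leaf (.fwd 8737 35 tpr954.df)) (.leaf (.fwd 8772 34 tpr54.df))) (.leaf (.fwd 8806 38 tpr265.df)))) (.node (.node (.node (.leaf (.bwd 8844 30 tpr997.df)) (.leaf (.fwd 8874 34 tpr548.df))) (.leaf (.fwd 8908 27 tpr131.df))) (.node (.leaf (.fwd 8935 40 tpr597.df)) (.leaf (.bwd 8975 41 tpr97.df))))) (.node (.node (.node (.node (.leaf (.bwd 9016 42 tpr812.df)) (.leaf (.bwd 9058 25 tpr51.df))) (.leaf (.fwd 9083 36 tpr551.df))) (.node (.leaf (.fwd 9119 33 tpr680.df)) (.leaf (.bwd 9152 43 tpr292.df)))) (.node (.node (.node (.leaf (.fwd 9195 30 tpr613.df)) (.leaf (.bwd 9225 21 tpr629.df))) (.leaf (.bwd 9246 25 tpr999.df))) (.node (.leaf (.fwd 9271 28 tpr295.df)) (.leaf (.bwd 9299 48 tpr950.df))))))) (.node (.node (.node (.node (.node (.node (.leaf (.fwd 9347 37 tpr553.df)) (.leaf (.fwd 9384 32 tpr620.df))) (.leaf (.fwd 9416 35 tpr568.df))) (.node (.node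 (.leaf (.fwd 9451 39 tpr655.df)) (.leaf (.fwd 9490 32 tpr742.df))) (.leaf (.fwd 9522 54 tpr948.df)))) (.node (.node (.node (.leaf (.bwd 9576 37 tpr583.df)) (.leaf (.bwd 9613 42 tpr972.df))) (.leaf (.fwd 9655 29 tpr641.df))) (.node (.leaf (.bwd 9684 30 tpr813.df)) (.leaf (.fwd 9714 39 tpr994.df))))) (.node (.node (.node (.node (.leaf (.bwd 9753 41 tpr188.df)) (.leaf (.bwd 9794 39 tpr615.df))) (.leaf (.bwd 9833 43 tpr122.df))) (.node (.leaf (.bwd 9876 38 tpr238.df)) (.leaf (.fwd 9914 25 tpr961.df)))) (.node (.node (.node (.leaf (.bwd 9939 41 tpr995.df)) (.leaf (.bwd 9980 24 tpr578.df))) (.leaf (.bwd 10004 24 tpr293.df))) (.node (.leaf (.bwd 10028 37 tpr782.df)) (.leaf (.fwd 10065 20 tpr186.df)))))) (.node (.node (.node (.node (.node (.leaf (.bwd 10085 59 tpr489.df)) (.leaf (.bwd 10144 39 tpr1001.df))) (.leaf (.fwd 10183 32 tpr522.df))) (.node (.node (.leaf (.fwd 10215 25 tpr457.df))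 (.leaf (.bwd 10240 18 tpr964.df))) (.leaf (.fwd 10258 28 tpr68.df)))) (.node (.node (.node (.leaf (.bwd 10286 28 tpr627.df)) (.leaf (.fwd 10314 22 tpr20.df))) (.leaf (.bwd 10336 43 tpr734.df))) (.node (.leaf (.bwd 10379 29 tpr637.df)) (.leaf (.fwd 10408 26 tpr334.df))))) (.node (.node (.node (.node (.leaf (.bwd 10434 44 tpr592.df)) (.leaf (.fwd 10478 38 tpr690.df))) (.leaf (.bwd 10516 46 tpr324.df))) (.node (.leaf (.bwd 10562 30 tpr218.df)) (.leaf (.fwd 10592 45 tpr596.df)))) (.node (.node (.node (.leaf (.fwd 10637 24 tpr578.df)) (.leaf (.fwd 10661 53 tpr947.df))) (.leaf (.fwd 10714 31 tpr339.df))) (.node (.leaf (.fwd 10745 31 tpr527.df)) (.leaf (.fwd 10776 49 tpr874.df))))))))))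

theorem iiNFzE2A3H2AzA2H3A2EzF_c : iiNFzE2A3H2AzA2H3A2EzF.all (itB (ng 61 nnNFzE2A3H2AzA2H3A2EzF)) = true := by decide +kernel
theorem nbNFzE2A3H2AzA2H3A2EzF : nbB 61 10886 nnNFzE2A3H2AzA2H3A2EzF = true := by decide +kernel
theorem topNFzE2A3H2AzA2H3A2EzF : topY 10886 ttNFzE2A3H2AzA2H3A2EzF ceNFzE2A3H2AzA2H3A2EzF xNFzE2A3H2AzA2H3A2EzF iiNFzE2A3H2AzA2H3A2EzF = true := by decide +kernel

end MPb6R
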