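import Pool.Agent.Lib.MP_b6d339_lc.Cw3.YFzByAzAyE2A3H3AyB2EzF

/-!
# Erdős 592, three levels: checks of claims
-/

namespace MPb6R

open MPb6P

theorem zeNFzByAzAyE2A3H3AyB2EzF_1 : cyE 61 4697 nnNFzByAzAyE2A3H3AyB2EzF ttNFzByAzAyE2A3H3AyB2EzF coNFzByAzAyE2A3H3AyB2EzF xNFzByAzAyE2A3H3AyB2EzF ceNFzByAzAyE2A3H3AyB2EzF_1 = true := by decide +kernel

end MPb6R
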