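import Pool.Agent.Lib.MP_b6d339_lc.Cw3.YFzE2A3H2AzA2H3A2EzF

/-!
# Erdős 592, three levels: checks of claims
-/

namespace MPb6R

open MPb6P

theorem zoNFzE2A3H2AzA2H3A2EzF_3 : cyO 61 10886 nnNFzE2A3H2AzA2H3A2EzF ttNFzE2A3H2AzA2H3A2EzF ceNFzE2A3H2AzA2H3A2EzF xNFzE2A3H2AzA2H3A2EzF coNFzE2A3H2AzA2H3A2EzF_3 = true := by decide +kernel

theorem zeNFzE2A3H2AzA2H3A2EzF_1 : cyE 61 10886 nnNFzE2A3H2AzA2H3A2EzF ttNFzE2A3H2AzA2H3A2EzF coNFzE2A3H2AzA2H3A2EzF xNFzE2A3H2AzA2H3A2EzF ceNFzE2A3H2AzA2H3A2EzF_1 = true := by decide +kernel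

end MPb6R
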