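import Pool.Agent.Lib.MP_b6d339_lc.Cw3.JFzByAzAyE2A3H2ByAzIzA2H3AyB2EzF
import Pool.Agent.Lib.MP_b6d339_lc.Cw3.JFzByAzAyE2A3H3AyB2EzF
import Pool.Agent.Lib.MP_b6d339_lc.Cw3.JFzByAzE2A3H2ByAzIzA2H3AyB2AzF
import Pool.Agent.Lib.MP_b6d339_lc.Cw3.JFzByAzE2A3H2ByAzIzAyB2H3A2EzF
import Pool.Agent.Lib.MP_b6d339_lc.Cw3.JFzE2A3H2AzA2H3A2EzF
import Pool.Agent.Lib.MP_b6d339_lc.Cw3.S8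
import Pool.Agent.Lib.MP_b6d339_lc.Cw3.T0
import Pool.Agent.Lib.MP_b6d339_lc.Cw3.T1
import Pool.Agent.Lib.MP_b6d339_lc.Cw3.T10
import Pool.Agent.Lib.MP_b6d339_lc.Cw3.T11
import Pool.Agent.Lib.MP_b6d339_lc.Cw3.T12
import Pool.Agent.Lib.MP_b6d339_lc.Cw3.T13
import Pool.Agent.Lib.MP_b6d339_lc.Cw3.T14
import Pool.Agent.Lib.MP_b6d339_lc.Cw3.T15
import Pool.Agent.Lib.MP_b6d339_lc.Cw3.T16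
import Pool.Agent.Lib.MP_b6d339_lc.Cw3.T17
import Pool.Agent.Lib.MP_b6d339_lc.Cw3.T18
import Pool.Agent.Lib.MP_b6d339_lc.Cw3.T19
import Pool.Agent.Lib.MP_b6d339_lc.Cw3.T2
import Pool.Agent.Lib.MP_b6d339_lc.Cw3.T20
import Pool.Agent.Lib.MP_b6d339_lc.Cw3.T21
import Pool.Agent.Lib.MP_b6d339_lc.Cw3.T22
import Pool.Agent.Lib.MP_b6d339_lc.Cw3.T23
import Pool.Agent.Lib.MP_b6d339_lc.Cw3.T24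
import Pool.Agent.Lib.MP_b6d339_lc.Cw3.T25
import Pool.Agent.Lib.MP_b6d339_lc.Cw3.T26
import Pool.Agent.Lib.MP_b6d339_lc.Cw3.T29
import Pool.Agent.Lib.MP_b6d339_lc.Cw3.T3
import Pool.Agent.Lib.MP_b6d339_lc.Cw3.T30
import Pool.Agent.Lib.MP_b6d339_lc.Cw3.T31
import Pool.Agent.Lib.MP_b6d339_lc.Cw3.T33
import Pool.Agent.Lib.MP_b6d339_lc.Cw3.T34
import Pool.Agent.Lib.MP_b6d339_lc.Cw3.T35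
import Pool.Agent.Lib.MP_b6d339_lc.Cw3.T36
import Pool.Agent.Lib.MP_b6d339_lc.Cw3.T4
import Pool.Agent.Lib.MP_b6d339_lc.Cw3.T5
import Pool.Agent.Lib.MP_b6d339_lc.Cw3.T6
import Pool.Agent.Lib.MP_b6d339_lc.Cw3.T7
import Pool.Agent.Lib.MP_b6d339_lc.Cw3.T8
import Pool.Agent.Lib.MP_b6d339_lc.Cw3.T9
import Pool.Agent.Lib.MP_b6d339_lc.Cw3.XL
import Pool.Agent.Lib.MP_b6d339_lc.Cw3.ZFzByAzAyE2A3H2ByAzIzA2H3AyB2EzF_0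
import Pool.Agent.Lib.MP_b6d339_lc.Cw3.ZFzByAzAyE2A3H2ByAzIzA2H3AyB2EzF_1
import Pool.Agent.Lib.MP_b6d339_lc.Cw3.ZFzByAzAyE2A3H2ByAzIzA2H3AyB2EzF_2
import Pool.Agent.Lib.MP_b6d339_lc.Cw3.ZFzByAzAyE2A3H2ByAzIzA2H3AyB2EzF_3
import Pool.Agent.Lib.MP_b6d339_lc.Cw3.ZFzByAzAyE2A3H2ByAzIzA2H3AyB2EzF_4
import Pool.Agent.Lib.MP_b6d339_lc.Cw3.ZFzByAzAyE2A3H2ByAzIzA2H3AyB2EzF_5
import Pool.Agent.Lib.MP_b6d339_lc.Cw3.ZFzByAzAyE2A3H2ByAzIzA2H3AyB2EzF_6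
import Pool.Agent.Lib.MP_b6d339_lc.Cw3.ZFzByAzAyE2A3H3AyB2EzF_0
import Pool.Agent.Lib.MP_b6d339_lc.Cw3.ZFzByAzAyE2A3H3AyB2EzF_1
import Pool.Agent.Lib.MP_b6d339_lc.Cw3.ZFzByAzAyE2A3H3AyB2EzF_2
import Pool.Agent.Lib.MP_b6d339_lc.Cw3.ZFzByAzAyE2A3H3AyB2EzF_3
import Pool.Agent.Lib.MP_b6d339_lc.Cw3.ZFzByAzE2A3H2ByAzIzA2H3AyB2AzF_0
import Pool.Agent.Lib.MP_b6d339_lc.Cw3.ZFzByAzE2A3H2ByAzIzAyB2H3A2EzF_0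
import Pool.Agent.Lib.MP_b6d339_lc.Cw3.ZFzByAzE2A3H2ByAzIzAyB2H3A2EzF_1
import Pool.Agent.Lib.MP_b6d339_lc.Cw3.ZFzByAzE2A3H2ByAzIzAyB2H3A2EzF_10
import Pool.Agent.Lib.MP_b6d339_lc.Cw3.ZFzByAzE2A3H2ByAzIzAyB2H3A2EzF_11
import Pool.Agent.Lib.MP_b6d339_lc.Cw3.ZFzByAzE2A3H2ByAzIzAyB2H3A2EzF_12
import Pool.Agent.Lib.MP_b6d339_lc.Cw3.ZFzByAzE2A3H2ByAzIzAyB2H3A2EzF_13
import Pool.Agent.Lib.MP_b6d339_lc.Cw3.ZFzByAzE2A3H2ByAzIzAyB2H3A2EzF_14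
import Pool.Agent.Lib.MP_b6d339_lc.Cw3.ZFzByAzE2A3H2ByAzIzAyB2H3A2EzF_15
import Pool.Agent.Lib.MP_b6d339_lc.Cw3.ZFzByAzE2A3H2ByAzIzAyB2H3A2EzF_16
import Pool.Agent.Lib.MP_b6d339_lc.Cw3.ZFzByAzE2A3H2ByAzIzAyB2H3A2EzF_17
import Pool.Agent.Lib.MP_b6d339_lc.Cw3.ZFzByAzE2A3H2ByAzIzAyB2H3A2EzF_18
import Pool.Agent.Lib.MP_b6d339_lc.Cw3.ZFzByAzE2A3H2ByAzIzAyB2H3A2EzF_19
import Pool.Agent.Lib.MP_b6d339_lc.Cw3.ZFzByAzE2A3H2ByAzIzAyB2H3A2EzF_2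
import Pool.Agent.Lib.MP_b6d339_lc.Cw3.ZFzByAzE2A3H2ByAzIzAyB2H3A2EzF_20
import Pool.Agent.Lib.MP_b6d339_lc.Cw3.ZFzByAzE2A3H2ByAzIzAyB2H3A2EzF_21
import Pool.Agent.Lib.MP_b6d339_lc.Cw3.ZFzByAzE2A3H2ByAzIzAyB2H3A2EzF_22
import Pool.Agent.Lib.MP_b6d339_lc.Cw3.ZFzByAzE2A3H2ByAzIzAyB2H3A2EzF_23
import Pool.Agent.Lib.MP_b6d339_lc.Cw3.ZFzByAzE2A3H2ByAzIzAyB2H3A2EzF_24
import Pool.Agent.Lib.MP_b6d339_lc.Cw3.ZFzByAzE2A3H2ByAzIzAyB2H3A2EzF_25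
import Pool.Agent.Lib.MP_b6d339_lc.Cw3.ZFzByAzE2A3H2ByAzIzAyB2H3A2EzF_3
import Pool.Agent.Lib.MP_b6d339_lc.Cw3.ZFzByAzE2A3H2ByAzIzAyB2H3A2EzF_4
import Pool.Agent.Lib.MP_b6d339_lc.Cw3.ZFzByAzE2A3H2ByAzIzAyB2H3A2EzF_5
import Pool.Agent.Lib.MP_b6d339_lc.Cw3.ZFzByAzE2A3H2ByAzIzAyB2H3A2EzF_6
import Pool.Agent.Lib.MP_b6d339_lc.Cw3.ZFzByAzE2A3H2ByAzIzAyB2H3A2EzF_7
import Pool.Agent.Lib.MP_b6d339_lc.Cw3.ZFzByAzE2A3H2ByAzIzAyB2H3A2EzF_8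
import Pool.Agent.Lib.MP_b6d339_lc.Cw3.ZFzByAzE2A3H2ByAzIzAyB2H3A2EzF_9
import Pool.Agent.Lib.MP_b6d339_lc.Cw3.ZFzE2A3H2AzA2H3A2EzF_0
import Pool.Agent.Lib.MP_b6d339_lc.Cw3.ZFzE2A3H2AzA2H3A2EzF_1
import Pool.Agent.Lib.MP_b6d339_lc.Cw3.ZFzE2A3H2AzA2H3A2EzF_2
import Pool.Agent.Lib.MP_b6d339_lc.Cw3.ZFzE2A3H2AzA2H3A2EzF_3
import Pool.Agent.Lib.MP_b6d339_lc.Cw3.ZFzE2A3H2AzA2H3A2EzF_4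
import Pool.Agent.Lib.MP_b6d339_lc.Cw3.ZFzE2A3H2AzA2H3A2EzF_5
import Pool.Agent.Lib.MP_b6d339_lc.Cw3.ZFzE2A3H2AzA2H3A2EzF_6
import Pool.Agent.Lib.MP_b6d339_lc.Cw3.ZFzE2A3H2AzA2H3A2EzF_7
import Pool.Agent.Lib.MP_b6d339_lc.Cw3.ZFzE2A3H2AzA2H3A2EzF_8
import Pool.Agent.Lib.MP_b6d339_lc.Cw3.ZFzE2A3H2AzA2H3A2EzF_9
import Pool.Agent.Lib.MP_b6d339_lc.Pos.XTreeC
import Pool.Agent.Lib.MP_b6d339_lc.Pos.YQ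

/-!
# Erdős 592, three levels: classes of words
-/

namespace MPb6R

open MPb6P

theorem iiNFzByAzAyE2A3H2ByAzIzA2H3AyB2EzF_k : iiNFzByAzAyE2A3H2ByAzIzA2H3AyB2EzF.Fa (Itm.ok 206) := (BT.Fa_mk (BT.Fa_mk (BT.Fa_mk (BT.Fa_mk (BT.Fa_mk (BT.Fa_mk (BT.Fa_mk (BT.Fa_mk (BT.Fa_mk (BT.Fa_leaf (P := Itm.ok 206) (iqb tpr5_c)) (BT.Fa_leaf (P := Itm.ok 206) (iqb tpr8_c))) (BT.Fa_leaf (P := Itm.ok 206) (iqb tpr500_c))) (BT.Fa_mk (BT.Fa_leaf (P := Itm.ok 206) (iqf tpr8_c)) (BT.Fa_leaf (P := Itm.ok 206) (iqf tpr499_c)))) (BT.Fa_mk (BT.Fa_mk (BT.Fa_leaf (P := Itm.ok 206) (iqf tpr4_c)) (BT.Fa_leaf (P := Itm.ok 206) (iqb tpr505_c))) (BT.Fa_mk (BT.Fa_leaf (P := Itm.ok 206) (iqf tpr507_c)) (BT.Fa_leaf (P := Itm.ok 206) (iqf tpr607_c))))) (BT.Fa_mk (BT.Fa_mk (BT.Fa_mk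 (BT.Fa_leaf (P := Itm.ok 206) (iqb tpr555_c)) (BT.Fa_leaf (P := Itm.ok 206) (iqf tpr502_c))) (BT.Fa_mk (BT.Fa_leaf (P := Itm.ok 206) (iqb tpr616_c)) (BT.Fa_leaf (P := Itm.ok 206) (iqf tpr546_c)))) (BT.Fa_mk (BT.Fa_mk (BT.Fa_leaf (P := Itm.ok 206) (iqb tpr621_c)) (BT.Fa_leaf (P := Itm.ok 206) (iqf tpr629_c))) (BT.Fa_mk (BT.Fa_leaf (P := Itm.ok 206) (iqf tpr582_c)) (BT.Fa_leaf (P := Itm.ok 206) (iqb tpr22_c)))))) (BT.Fa_mk (BT.Fa_mk (BT.Fa_mk (BT.Fa_mk (BT.Fa_mk (BT.Fa_leaf (P := Itm.ok 206) (iqf tpr509_c)) (BT.Fa_leaf (P := Itm.ok 206) (iqb tpr503_c))) (BT.Fa_leaf (P := Itm.ok 206) (iqf tpr545_c))) (BT.Fa_mk (BT.Fa_leaf (P := Itm.ok 206) (iqf tpr519_c)) (BT.Fa_leaf (P := Itm.ok 206) (iqb tpr82_c)))) (BT.Fa_mk (BT.Fa_mk (BT.Fa_leaf (P := Itm.ok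 206) (iqb tpr508_c)) (BT.Fa_leaf (P := Itm.ok 206) (iqf tpr82_c))) (BT.Fa_mk (BT.Fa_leaf (P := Itm.ok 206) (iqf tpr516_c)) (BT.Fa_leaf (P := Itm.ok 206) (iqf tpr22_c))))) (BT.Fa_mk (BT.Fa_mk (BT.Fa_mk (BT.Fa_leaf (P := Itm.ok 206) (iqb tpr12_c)) (BT.Fa_leaf (P := Itm.ok 206) (iqb tpr168_c))) (BT.Fa_mk (BT.Fa_leaf (P := Itm.ok 206) (iqf tpr236_c)) (BT.Fa_leaf (P := Itm.ok 206) (iqb tpr236_c)))) (BT.Fa_mk (BT.Fa_mk (BT.Fa_leaf (P := Itm.ok 206) (iqf tpr609_c)) (BT.Fa_leaf (P := Itm.ok 206) (iqb tpr251_c))) (BT.Fa_mk (BT.Fa_leaf (P := Itm.ok 206) (iqb tpr77_c)) (BT.Fa_leaf (P := Itm.ok 206) (iqb tpr589_c))))))) (BT.Fa_mk (BT.Fa_mk (BT.Fa_mk (BT.Fa_mk (BT.Fa_mk (BT.Fa_mk (BT.Fa_leaf (P := Itm.ok 206) (iqf tpr506_c)) (BT.Fa_leaf (P := Itm.ok 206)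 (iqb tpr506_c))) (BT.Fa_leaf (P := Itm.ok 206) (iqf tpr537_c))) (BT.Fa_mk (BT.Fa_leaf (P := Itm.ok 206) (iqf tpr606_c)) (BT.Fa_leaf (P := Itm.ok 206) (iqb tpr606_c)))) (BT.Fa_mk (BT.Fa_mk (BT.Fa_leaf (P := Itm.ok 206) (iqb tpr656_c)) (BT.Fa_leaf (P := Itm.ok 206) (iqb tpr324_c))) (BT.Fa_mk (BT.Fa_leaf (P := Itm.ok 206) (iqf tpr90_c)) (BT.Fa_leaf (P := Itm.ok 206) (iqb tpr527_c))))) (BT.Fa_mk (BT.Fa_mk (BT.Fa_mk (BT.Fa_leaf (P := Itm.ok 206) (iqb tpr526_c)) (BT.Fa_leaf (P := Itm.ok 206) (iqb tpr608_c))) (BT.Fa_mk (BT.Fa_leaf (P := Itm.ok 206) (iqf tpr526_c)) (BT.Fa_leaf (P := Itm.ok 206) (iqf tpr239_c)))) (BT.Fa_mk (BT.Fa_mk (BT.Fa_leaf (P := Itm.ok 206) (iqf tpr72_c)) (BT.Fa_leaf (P := Itm.ok 206) (iqb tpr247_c))) (BT.Fa_mk (BT.Fa_leaf (P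 := Itm.ok 206) (iqb tpr613_c)) (BT.Fa_leaf (P := Itm.ok 206) (iqb tpr622_c)))))) (BT.Fa_mk (BT.Fa_mk (BT.Fa_mk (BT.Fa_mk (BT.Fa_leaf (P := Itm.ok 206) (iqb tpr672_c)) (BT.Fa_leaf (P := Itm.ok 206) (iqb tpr619_c))) (BT.Fa_mk (BT.Fa_leaf (P := Itm.ok 206) (iqb tpr620_c)) (BT.Fa_leaf (P := Itm.ok 206) (iqb tpr691_c)))) (BT.Fa_mk (BT.Fa_mk (BT.Fa_leaf (P := Itm.ok 206) (iqf tpr703_c)) (BT.Fa_leaf (P := Itm.ok 206) (iqf tpr675_c))) (BT.Fa_mk (BT.Fa_leaf (P := Itm.ok 206) (iqb tpr553_c)) (BT.Fa_leaf (P := Itm.ok 206) (iqb tpr674_c))))) (BT.Fa_mk (BT.Fa_mk (BT.Fa_mk (BT.Fa_leaf (P := Itm.ok 206) (iqf tpr647_c)) (BT.Fa_leaf (P := Itm.ok 206) (iqb tpr639_c))) (BT.Fa_mk (BT.Fa_leaf (P := Itm.ok 206) (iqb tpr664_c)) (BT.Fa_leaf (P := Itm.ok 206) (iqb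 tpr666_c)))) (BT.Fa_mk (BT.Fa_mk (BT.Fa_leaf (P := Itm.ok 206) (iqb tpr643_c)) (BT.Fa_leaf (P := Itm.ok 206) (iqb tpr571_c))) (BT.Fa_mk (BT.Fa_leaf (P := Itm.ok 206) (iqf tpr78_c)) (BT.Fa_leaf (P := Itm.ok 206) (iqb tpr572_c)))))))) (BT.Fa_mk (BT.Fa_mk (BT.Fa_mk (BT.Fa_mk (BT.Fa_mk (BT.Fa_mk (BT.Fa_mk (BT.Fa_leaf (P := Itm.ok 206) (iqf tpr223_c)) (BT.Fa_leaf (P := Itm.ok 206) (iqb tpr591_c))) (BT.Fa_leaf (P := Itm.ok 206) (iqb tpr605_c))) (BT.Fa_mk (BT.Fa_leaf (P := Itm.ok 206) (iqf tpr628_c)) (BT.Fa_leaf (P := Itm.ok 206) (iqf tpr518_c)))) (BT.Fa_mk (BT.Fa_mk (BT.Fa_leaf (P := Itm.ok 206) (iqf tpr602_c)) (BT.Fa_leaf (P := Itm.ok 206) (iqf tpr547_c))) (BT.Fa_mk (BT.Fa_leaf (P := Itm.ok 206) (iqf tpr549_c)) (BT.Fa_leaf (P := Itm.ok 206) (iqb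 tpr548_c))))) (BT.Fa_mk (BT.Fa_mk (BT.Fa_mk (BT.Fa_leaf (P := Itm.ok 206) (iqf tpr661_c)) (BT.Fa_leaf (P := Itm.ok 206) (iqb tpr662_c))) (BT.Fa_mk (BT.Fa_leaf (P := Itm.ok 206) (iqb tpr663_c)) (BT.Fa_leaf (P := Itm.ok 206) (iqf tpr508_c)))) (BT.Fa_mk (BT.Fa_mk (BT.Fa_leaf (P := Itm.ok 206) (iqb tpr1666_c)) (BT.Fa_leaf (P := Itm.ok 206) (iqf tpr552_c))) (BT.Fa_mk (BT.Fa_leaf (P := Itm.ok 206) (iqf tpr935_c)) (BT.Fa_leaf (P := Itm.ok 206) (iqb tpr637_c)))))) (BT.Fa_mk (BT.Fa_mk (BT.Fa_mk (BT.Fa_mk (BT.Fa_leaf (P := Itm.ok 206) (iqf tpr1198_c)) (BT.Fa_leaf (P := Itm.ok 206) (iqb tpr670_c))) (BT.Fa_mk (BT.Fa_leaf (P := Itm.ok 206) (iqf tpr1205_c)) (BT.Fa_leaf (P := Itm.ok 206) (iqb tpr2745_c)))) (BT.Fa_mk (BT.Fa_mk (BT.Fa_leaf (P := Itm.ok 206)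 (iqb tpr989_c)) (BT.Fa_leaf (P := Itm.ok 206) (iqf tpr667_c))) (BT.Fa_mk (BT.Fa_leaf (P := Itm.ok 206) (iqf tpr1194_c)) (BT.Fa_leaf (P := Itm.ok 206) (iqf tpr644_c))))) (BT.Fa_mk (BT.Fa_mk (BT.Fa_mk (BT.Fa_leaf (P := Itm.ok 206) (iqb tpr545_c)) (BT.Fa_leaf (P := Itm.ok 206) (iqf tpr804_c))) (BT.Fa_mk (BT.Fa_leaf (P := Itm.ok 206) (iqb tpr499_c)) (BT.Fa_leaf (P := Itm.ok 206) (iqb tpr103_c)))) (BT.Fa_mk (BT.Fa_mk (BT.Fa_leaf (P := Itm.ok 206) (iqf tpr566_c)) (BT.Fa_leaf (P := Itm.ok 206) (iqb tpr677_c))) (BT.Fa_mk (BT.Fa_leaf (P := Itm.ok 206) (iqf tpr626_c)) (BT.Fa_leaf (P := Itm.ok 206) (iqb tpr515_c))))))) (BT.Fa_mk (BT.Fa_mk (BT.Fa_mk (BT.Fa_mk (BT.Fa_mk (BT.Fa_mk (BT.Fa_leaf (P := Itm.ok 206) (iqf tpr17_c)) (BT.Fa_leaf (P := Itm.ok 206)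 (iqb tpr54_c))) (BT.Fa_leaf (P := Itm.ok 206) (iqf tpr517_c))) (BT.Fa_mk (BT.Fa_leaf (P := Itm.ok 206) (iqf tpr429_c)) (BT.Fa_leaf (P := Itm.ok 206) (iqb tpr782_c)))) (BT.Fa_mk (BT.Fa_mk (BT.Fa_leaf (P := Itm.ok 206) (iqf tpr682_c)) (BT.Fa_leaf (P := Itm.ok 206) (iqb tpr609_c))) (BT.Fa_mk (BT.Fa_leaf (P := Itm.ok 206) (iqb tpr245_c)) (BT.Fa_leaf (P := Itm.ok 206) (iqf tpr48_c))))) (BT.Fa_mk (BT.Fa_mk (BT.Fa_mk (BT.Fa_leaf (P := Itm.ok 206) (iqf tpr222_c)) (BT.Fa_leaf (P := Itm.ok 206) (iqb tpr11_c))) (BT.Fa_mk (BT.Fa_leaf (P := Itm.ok 206) (iqf tpr562_c)) (BT.Fa_leaf (P := Itm.ok 206) (iqb tpr687_c)))) (BT.Fa_mk (BT.Fa_mk (BT.Fa_leaf (P := Itm.ok 206) (iqb tpr1809_c)) (BT.Fa_leaf (P := Itm.ok 206) (iqf tpr638_c))) (BT.Fa_mk (BT.Fa_leaf (P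 := Itm.ok 206) (iqf tpr1195_c)) (BT.Fa_leaf (P := Itm.ok 206) (iqf tpr555_c)))))) (BT.Fa_mk (BT.Fa_mk (BT.Fa_mk (BT.Fa_mk (BT.Fa_leaf (P := Itm.ok 206) (iqb tpr538_c)) (BT.Fa_leaf (P := Itm.ok 206) (iqf tpr23_c))) (BT.Fa_mk (BT.Fa_leaf (P := Itm.ok 206) (iqb tpr521_c)) (BT.Fa_leaf (P := Itm.ok 206) (iqb tpr17_c)))) (BT.Fa_mk (BT.Fa_mk (BT.Fa_leaf (P := Itm.ok 206) (iqf tpr510_c)) (BT.Fa_leaf (P := Itm.ok 206) (iqf tpr247_c))) (BT.Fa_mk (BT.Fa_leaf (P := Itm.ok 206) (iqf tpr1813_c)) (BT.Fa_leaf (P := Itm.ok 206) (iqf tpr583_c))))) (BT.Fa_mk (BT.Fa_mk (BT.Fa_mk (BT.Fa_leaf (P := Itm.ok 206) (iqb tpr673_c)) (BT.Fa_leaf (P := Itm.ok 206) (iqf tpr1760_c))) (BT.Fa_mk (BT.Fa_leaf (P := Itm.ok 206) (iqf tpr689_c)) (BT.Fa_leaf (P := Itm.ok 206) (iqb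 tpr688_c)))) (BT.Fa_mk (BT.Fa_mk (BT.Fa_leaf (P := Itm.ok 206) (iqb tpr593_c)) (BT.Fa_leaf (P := Itm.ok 206) (iqb tpr676_c))) (BT.Fa_mk (BT.Fa_leaf (P := Itm.ok 206) (iqf tpr1247_c)) (BT.Fa_leaf (P := Itm.ok 206) (iqb tpr562_c))))))))) (BT.Fa_mk (BT.Fa_mk (BT.Fa_mk (BT.Fa_mk (BT.Fa_mk (BT.Fa_mk (BT.Fa_mk (BT.Fa_mk (BT.Fa_leaf (P := Itm.ok 206) (iqf tpr589_c)) (BT.Fa_leaf (P := Itm.ok 206) (iqb tpr501_c))) (BT.Fa_leaf (P := Itm.ok 206) (iqf tpr634_c))) (BT.Fa_mk (BT.Fa_leaf (P := Itm.ok 206) (iqb tpr988_c)) (BT.Fa_leaf (P := Itm.ok 206) (iqf tpr2654_c)))) (BT.Fa_mk (BT.Fa_mk (BT.Fa_leaf (P := Itm.ok 206) (iqf tpr505_c)) (BT.Fa_leaf (P := Itm.ok 206) (iqf tpr51_c))) (BT.Fa_mk (BT.Fa_leaf (P := Itm.ok 206) (iqf tpr768_c)) (BT.Fa_leaf (P := Itm.ok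 206) (iqb tpr625_c))))) (BT.Fa_mk (BT.Fa_mk (BT.Fa_mk (BT.Fa_leaf (P := Itm.ok 206) (iqb tpr642_c)) (BT.Fa_leaf (P := Itm.ok 206) (iqf tpr458_c))) (BT.Fa_mk (BT.Fa_leaf (P := Itm.ok 206) (iqb tpr573_c)) (BT.Fa_leaf (P := Itm.ok 206) (iqf tpr592_c)))) (BT.Fa_mk (BT.Fa_mk (BT.Fa_leaf (P := Itm.ok 206) (iqf tpr542_c)) (BT.Fa_leaf (P := Itm.ok 206) (iqf tpr203_c))) (BT.Fa_mk (BT.Fa_leaf (P := Itm.ok 206) (iqf tpr645_c)) (BT.Fa_leaf (P := Itm.ok 206) (iqb tpr568_c)))))) (BT.Fa_mk (BT.Fa_mk (BT.Fa_mk (BT.Fa_mk (BT.Fa_leaf (P := Itm.ok 206) (iqb tpr523_c)) (BT.Fa_leaf (P := Itm.ok 206) (iqf tpr513_c))) (BT.Fa_mk (BT.Fa_leaf (P := Itm.ok 206) (iqb tpr514_c)) (BT.Fa_leaf (P := Itm.ok 206) (iqb tpr522_c)))) (BT.Fa_mk (BT.Fa_mk (BT.Fa_leaf (P := Itm.ok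 206) (iqf tpr324_c)) (BT.Fa_leaf (P := Itm.ok 206) (iqf tpr556_c))) (BT.Fa_mk (BT.Fa_leaf (P := Itm.ok 206) (iqb tpr686_c)) (BT.Fa_leaf (P := Itm.ok 206) (iqb tpr628_c))))) (BT.Fa_mk (BT.Fa_mk (BT.Fa_mk (BT.Fa_leaf (P := Itm.ok 206) (iqf tpr1204_c)) (BT.Fa_leaf (P := Itm.ok 206) (iqf tpr812_c))) (BT.Fa_mk (BT.Fa_leaf (P := Itm.ok 206) (iqf tpr1406_c)) (BT.Fa_leaf (P := Itm.ok 206) (iqb tpr13_c)))) (BT.Fa_mk (BT.Fa_mk (BT.Fa_leaf (P := Itm.ok 206) (iqb tpr520_c)) (BT.Fa_leaf (P := Itm.ok 206) (iqf tpr106_c))) (BT.Fa_mk (BT.Fa_leaf (P := Itm.ok 206) (iqb tpr681_c)) (BT.Fa_leaf (P := Itm.ok 206) (iqb tpr1199_c))))))) (BT.Fa_mk (BT.Fa_mk (BT.Fa_mk (BT.Fa_mk (BT.Fa_mk (BT.Fa_mk (BT.Fa_leaf (P := Itm.ok 206) (iqb tpr610_c)) (BT.Fa_leaf (P := Itm.ok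 206) (iqf tpr593_c))) (BT.Fa_leaf (P := Itm.ok 206) (iqb tpr544_c))) (BT.Fa_mk (BT.Fa_leaf (P := Itm.ok 206) (iqb tpr210_c)) (BT.Fa_leaf (P := Itm.ok 206) (iqf tpr612_c)))) (BT.Fa_mk (BT.Fa_mk (BT.Fa_leaf (P := Itm.ok 206) (iqb tpr592_c)) (BT.Fa_leaf (P := Itm.ok 206) (iqb tpr517_c))) (BT.Fa_mk (BT.Fa_leaf (P := Itm.ok 206) (iqf tpr730_c)) (BT.Fa_leaf (P := Itm.ok 206) (iqf tpr259_c))))) (BT.Fa_mk (BT.Fa_mk (BT.Fa_mk (BT.Fa_leaf (P := Itm.ok 206) (iqb tpr151_c)) (BT.Fa_leaf (P := Itm.ok 206) (iqf tpr627_c))) (BT.Fa_mk (BT.Fa_leaf (P := Itm.ok 206) (iqf tpr676_c)) (BT.Fa_leaf (P := Itm.ok 206) (iqb tpr9_c)))) (BT.Fa_mk (BT.Fa_mk (BT.Fa_leaf (P := Itm.ok 206) (iqf tpr978_c)) (BT.Fa_leaf (P := Itm.ok 206) (iqb tpr516_c))) (BT.Fa_mk (BT.Fa_leaf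 (P := Itm.ok 206) (iqf tpr599_c)) (BT.Fa_leaf (P := Itm.ok 206) (iqb tpr294_c)))))) (BT.Fa_mk (BT.Fa_mk (BT.Fa_mk (BT.Fa_mk (BT.Fa_leaf (P := Itm.ok 206) (iqb tpr543_c)) (BT.Fa_leaf (P := Itm.ok 206) (iqb tpr576_c))) (BT.Fa_mk (BT.Fa_leaf (P := Itm.ok 206) (iqb tpr702_c)) (BT.Fa_leaf (P := Itm.ok 206) (iqb tpr547_c)))) (BT.Fa_mk (BT.Fa_mk (BT.Fa_leaf (P := Itm.ok 206) (iqb tpr556_c)) (BT.Fa_leaf (P := Itm.ok 206) (iqb tpr633_c))) (BT.Fa_mk (BT.Fa_leaf (P := Itm.ok 206) (iqb tpr614_c)) (BT.Fa_leaf (P := Itm.ok 206) (iqb tpr546_c))))) (BT.Fa_mk (BT.Fa_mk (BT.Fa_mk (BT.Fa_leaf (P := Itm.ok 206) (iqf tpr557_c)) (BT.Fa_leaf (P := Itm.ok 206) (iqb tpr721_c))) (BT.Fa_mk (BT.Fa_leaf (P := Itm.ok 206) (iqb tpr626_c)) (BT.Fa_leaf (P := Itm.ok 206)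 (iqf tpr2866_c)))) (BT.Fa_mk (BT.Fa_mk (BT.Fa_leaf (P := Itm.ok 206) (iqb tpr18_c)) (BT.Fa_leaf (P := Itm.ok 206) (iqb tpr641_c))) (BT.Fa_mk (BT.Fa_leaf (P := Itm.ok 206) (iqb tpr2867_c)) (BT.Fa_leaf (P := Itm.ok 206) (iqb tpr704_c)))))))) (BT.Fa_mk (BT.Fa_mk (BT.Fa_mk (BT.Fa_mk (BT.Fa_mk (BT.Fa_mk (BT.Fa_mk (BT.Fa_leaf (P := Itm.ok 206) (iqf tpr1822_c)) (BT.Fa_leaf (P := Itm.ok 206) (iqf tpr630_c))) (BT.Fa_leaf (P := Itm.ok 206) (iqf tpr2868_c))) (BT.Fa_mk (BT.Fa_leaf (P := Itm.ok 206) (iqf tpr406_c)) (BT.Fa_leaf (P := Itm.ok 206) (iqb tpr695_c)))) (BT.Fa_mk (BT.Fa_mk (BT.Fa_leaf (P := Itm.ok 206) (iqb tpr393_c)) (BT.Fa_leaf (P := Itm.ok 206) (iqb tpr2869_c))) (BT.Fa_mk (BT.Fa_leaf (P := Itm.ok 206) (iqf tpr953_c)) (BT.Fa_leaf (P := Itm.ok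 206) (iqf tpr504_c))))) (BT.Fa_mk (BT.Fa_mk (BT.Fa_mk (BT.Fa_leaf (P := Itm.ok 206) (iqf tpr81_c)) (BT.Fa_leaf (P := Itm.ok 206) (iqb tpr632_c))) (BT.Fa_mk (BT.Fa_leaf (P := Itm.ok 206) (iqb tpr977_c)) (BT.Fa_leaf (P := Itm.ok 206) (iqf tpr87_c)))) (BT.Fa_mk (BT.Fa_mk (BT.Fa_leaf (P := Itm.ok 206) (iqb tpr74_c)) (BT.Fa_leaf (P := Itm.ok 206) (iqf tpr123_c))) (BT.Fa_mk (BT.Fa_leaf (P := Itm.ok 206) (iqf tpr122_c)) (BT.Fa_leaf (P := Itm.ok 206) (iqb tpr315_c)))))) (BT.Fa_mk (BT.Fa_mk (BT.Fa_mk (BT.Fa_mk (BT.Fa_leaf (P := Itm.ok 206) (iqb tpr720_c)) (BT.Fa_leaf (P := Itm.ok 206) (iqf tpr2872_c))) (BT.Fa_mk (BT.Fa_leaf (P := Itm.ok 206) (iqf tpr1182_c)) (BT.Fa_leaf (P := Itm.ok 206) (iqf tpr1811_c)))) (BT.Fa_mk (BT.Fa_mk (BT.Fa_leaf (P := Itm.ok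 206) (iqb tpr507_c)) (BT.Fa_leaf (P := Itm.ok 206) (iqf tpr943_c))) (BT.Fa_mk (BT.Fa_leaf (P := Itm.ok 206) (iqf tpr960_c)) (BT.Fa_leaf (P := Itm.ok 206) (iqf tpr10_c))))) (BT.Fa_mk (BT.Fa_mk (BT.Fa_mk (BT.Fa_leaf (P := Itm.ok 206) (iqb tpr293_c)) (BT.Fa_leaf (P := Itm.ok 206) (iqb tpr869_c))) (BT.Fa_mk (BT.Fa_leaf (P := Itm.ok 206) (iqf tpr2751_c)) (BT.Fa_leaf (P := Itm.ok 206) (iqb tpr51_c)))) (BT.Fa_mk (BT.Fa_mk (BT.Fa_leaf (P := Itm.ok 206) (iqb tpr167_c)) (BT.Fa_leaf (P := Itm.ok 206) (iqf tpr514_c))) (BT.Fa_mk (BT.Fa_leaf (P := Itm.ok 206) (iqf tpr1001_c)) (BT.Fa_leaf (P := Itm.ok 206) (iqf tpr1799_c))))))) (BT.Fa_mk (BT.Fa_mk (BT.Fa_mk (BT.Fa_mk (BT.Fa_mk (BT.Fa_mk (BT.Fa_leaf (P := Itm.ok 206) (iqb tpr2750_c)) (BT.Fa_leaf (P := Itm.ok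 206) (iqf tpr896_c))) (BT.Fa_leaf (P := Itm.ok 206) (iqb tpr518_c))) (BT.Fa_mk (BT.Fa_leaf (P := Itm.ok 206) (iqb tpr1859_c)) (BT.Fa_leaf (P := Itm.ok 206) (iqf tpr753_c)))) (BT.Fa_mk (BT.Fa_mk (BT.Fa_leaf (P := Itm.ok 206) (iqf tpr295_c)) (BT.Fa_leaf (P := Itm.ok 206) (iqb tpr24_c))) (BT.Fa_mk (BT.Fa_leaf (P := Itm.ok 206) (iqb tpr62_c)) (BT.Fa_leaf (P := Itm.ok 206) (iqf tpr2753_c))))) (BT.Fa_mk (BT.Fa_mk (BT.Fa_mk (BT.Fa_leaf (P := Itm.ok 206) (iqf tpr665_c)) (BT.Fa_leaf (P := Itm.ok 206) (iqb tpr2752_c))) (BT.Fa_mk (BT.Fa_leaf (P := Itm.ok 206) (iqb tpr557_c)) (BT.Fa_leaf (P := Itm.ok 206) (iqf tpr54_c)))) (BT.Fa_mk (BT.Fa_mk (BT.Fa_leaf (P := Itm.ok 206) (iqf tpr743_c)) (BT.Fa_leaf (P := Itm.ok 206) (iqf tpr577_c))) (BT.Fa_mk (BT.Fa_leaf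 (P := Itm.ok 206) (iqb tpr549_c)) (BT.Fa_leaf (P := Itm.ok 206) (iqb tpr537_c)))))) (BT.Fa_mk (BT.Fa_mk (BT.Fa_mk (BT.Fa_mk (BT.Fa_leaf (P := Itm.ok 206) (iqf tpr2754_c)) (BT.Fa_leaf (P := Itm.ok 206) (iqf tpr906_c))) (BT.Fa_mk (BT.Fa_leaf (P := Itm.ok 206) (iqb tpr559_c)) (BT.Fa_leaf (P := Itm.ok 206) (iqf tpr1214_c)))) (BT.Fa_mk (BT.Fa_mk (BT.Fa_leaf (P := Itm.ok 206) (iqb tpr502_c)) (BT.Fa_leaf (P := Itm.ok 206) (iqf tpr544_c))) (BT.Fa_mk (BT.Fa_leaf (P := Itm.ok 206) (iqf tpr1202_c)) (BT.Fa_leaf (P := Itm.ok 206) (iqf tpr739_c))))) (BT.Fa_mk (BT.Fa_mk (BT.Fa_mk (BT.Fa_leaf (P := Itm.ok 206) (iqb tpr746_c)) (BT.Fa_leaf (P := Itm.ok 206) (iqb tpr733_c))) (BT.Fa_mk (BT.Fa_leaf (P := Itm.ok 206) (iqb tpr658_c)) (BT.Fa_leaf (P := Itm.ok 206)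 (iqf tpr527_c)))) (BT.Fa_mk (BT.Fa_mk (BT.Fa_leaf (P := Itm.ok 206) (iqb tpr509_c)) (BT.Fa_leaf (P := Itm.ok 206) (iqb tpr554_c))) (BT.Fa_mk (BT.Fa_leaf (P := Itm.ok 206) (iqb tpr1849_c)) (BT.Fa_leaf (P := Itm.ok 206) (iqb tpr2756_c))))))))))

/-- all words of the class have labels -/
theorem pokNFzByAzAyE2A3H2ByAzIzA2H3AyB2EzF : POK 206 xNFzByAzAyE2A3H2ByAzIzA2H3AyB2EzF :=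
  y_pok (C0 := ceNFzByAzAyE2A3H2ByAzIzA2H3AyB2EzF) (C1 := coNFzByAzAyE2A3H2ByAzIzA2H3AyB2EzF) topNFzByAzAyE2A3H2ByAzIzA2H3AyB2EzF nbNFzByAzAyE2A3H2ByAzIzA2H3AyB2EzF (BT.Fa_of_all iiNFzByAzAyE2A3H2ByAzIzA2H3AyB2EzF_c)
    (BT.Fa_mk (cyE_spec zeNFzByAzAyE2A3H2ByAzIzA2H3AyB2EzF_0) (BT.Fa_mk (BT.Fa_mk (cyE_spec zeNFzByAzAyE2A3H2ByAzIzA2H3AyB2EzF_1) (cyE_spec zeNFzByAzAyE2A3H2ByAzIzA2H3AyB2EzF_2)) (BT.Fa_mk (cyE_spec zeNFzByAzAyE2A3H2ByAzIzA2H3AyB2EzF_3) (cyE_spec zeNFzByAzAyE2A3H2ByAzIzA2H3AyB2EzF_4))))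
    (BT.Fa_mk (BT.Fa_mk (cyO_spec zoNFzByAzAyE2A3H2ByAzIzA2H3AyB2EzF_0) (cyO_spec zoNFzByAzAyE2A3H2ByAzIzA2H3AyB2EzF_1)) (BT.Fa_mk (BT.Fa_mk (cyO_spec zoNFzByAzAyE2A3H2ByAzIzA2H3AyB2EzF_2) (cyO_spec zoNFzByAzAyE2A3H2ByAzIzA2H3AyB2EzF_3)) (BT.Fa_mk (cyO_spec zoNFzByAzAyE2A3H2ByAzIzA2H3AyB2EzF_4) (cyO_spec zoNFzByAzAyE2A3H2ByAzIzA2H3AyB2EzF_5))))
    iiNFzByAzAyE2A3H2ByAzIzA2H3AyB2EzF_k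

theorem iiNFzByAzAyE2A3H3AyB2EzF_k : iiNFzByAzAyE2A3H3AyB2EzF.Fa (Itm.ok 206) := (BT.Fa_mk (BT.Fa_mk (BT.Fa_mk (BT.Fa_mk (BT.Fa_mk (BT.Fa_mk (BT.Fa_mk (BT.Fa_mk (BT.Fa_leaf (P := Itm.ok 206) (iqb tpr168_c)) (BT.Fa_leaf (P := Itm.ok 206) (iqb tpr1532_c))) (BT.Fa_leaf (P := Itm.ok 206) (iqf tpr90_c))) (BT.Fa_mk (BT.Fa_leaf (P := Itm.ok 206) (iqf tpr48_c)) (BT.Fa_leaf (P := Itm.ok 206) (iqb tpr89_c)))) (BT.Fa_mk (BT.Fa_mk (BT.Fa_mk (BT.Fa_leaf (P := Itm.ok 206) (iqb tpr225_c)) (BT.Fa_leaf (P := Itm.ok 206) (iqb tpr8_c))) (BT.Fa_leaf (P := Itm.ok 206) (iqb tpr2906_c))) (BT.Fa_mk (BT.Fa_leaf (P := Itm.ok 206) (iqb tpr608_c)) (BT.Fa_leaf (P := Itm.ok 206) (iqb tpr245_c))))) (BT.Fa_mk (BT.Fa_mk (BT.Fa_mk (BT.Fa_mk (BT.Fa_leaf (P := Itm.ok 206)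 (iqf tpr236_c)) (BT.Fa_leaf (P := Itm.ok 206) (iqb tpr704_c))) (BT.Fa_leaf (P := Itm.ok 206) (iqf tpr1266_c))) (BT.Fa_mk (BT.Fa_leaf (P := Itm.ok 206) (iqb tpr239_c)) (BT.Fa_leaf (P := Itm.ok 206) (iqb tpr251_c)))) (BT.Fa_mk (BT.Fa_mk (BT.Fa_leaf (P := Itm.ok 206) (iqf tpr82_c)) (BT.Fa_leaf (P := Itm.ok 206) (iqf tpr804_c))) (BT.Fa_mk (BT.Fa_leaf (P := Itm.ok 206) (iqb tpr515_c)) (BT.Fa_leaf (P := Itm.ok 206) (iqb tpr721_c)))))) (BT.Fa_mk (BT.Fa_mk (BT.Fa_mk (BT.Fa_mk (BT.Fa_mk (BT.Fa_leaf (P := Itm.ok 206) (iqb tpr568_c)) (BT.Fa_leaf (P := Itm.ok 206) (iqf tpr429_c))) (BT.Fa_leaf (P := Itm.ok 206) (iqb tpr1666_c))) (BT.Fa_mk (BT.Fa_leaf (P := Itm.ok 206) (iqf tpr667_c)) (BT.Fa_leaf (P := Itm.ok 206) (iqb tpr616_c)))) (BT.Fa_mk (BT.Fa_mk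 (BT.Fa_mk (BT.Fa_leaf (P := Itm.ok 206) (iqb tpr548_c)) (BT.Fa_leaf (P := Itm.ok 206) (iqb tpr641_c))) (BT.Fa_leaf (P := Itm.ok 206) (iqb tpr618_c))) (BT.Fa_mk (BT.Fa_leaf (P := Itm.ok 206) (iqf tpr247_c)) (BT.Fa_leaf (P := Itm.ok 206) (iqb tpr501_c))))) (BT.Fa_mk (BT.Fa_mk (BT.Fa_mk (BT.Fa_mk (BT.Fa_leaf (P := Itm.ok 206) (iqb tpr5_c)) (BT.Fa_leaf (P := Itm.ok 206) (iqf tpr607_c))) (BT.Fa_leaf (P := Itm.ok 206) (iqf tpr789_c))) (BT.Fa_mk (BT.Fa_leaf (P := Itm.ok 206) (iqf tpr508_c)) (BT.Fa_leaf (P := Itm.ok 206) (iqb tpr619_c)))) (BT.Fa_mk (BT.Fa_mk (BT.Fa_leaf (P := Itm.ok 206) (iqf tpr505_c)) (BT.Fa_leaf (P := Itm.ok 206) (iqf tpr458_c))) (BT.Fa_mk (BT.Fa_leaf (P := Itm.ok 206) (iqf tpr513_c)) (BT.Fa_leaf (P := Itm.ok 206) (iqf tpr644_c)))))))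 (BT.Fa_mk (BT.Fa_mk (BT.Fa_mk (BT.Fa_mk (BT.Fa_mk (BT.Fa_mk (BT.Fa_leaf (P := Itm.ok 206) (iqb tpr639_c)) (BT.Fa_leaf (P := Itm.ok 206) (iqb tpr553_c))) (BT.Fa_leaf (P := Itm.ok 206) (iqf tpr675_c))) (BT.Fa_mk (BT.Fa_leaf (P := Itm.ok 206) (iqb tpr666_c)) (BT.Fa_leaf (P := Itm.ok 206) (iqb tpr191_c)))) (BT.Fa_mk (BT.Fa_mk (BT.Fa_mk (BT.Fa_leaf (P := Itm.ok 206) (iqb tpr103_c)) (BT.Fa_leaf (P := Itm.ok 206) (iqb tpr613_c))) (BT.Fa_leaf (P := Itm.ok 206) (iqf tpr507_c))) (BT.Fa_mk (BT.Fa_leaf (P := Itm.ok 206) (iqf tpr599_c)) (BT.Fa_leaf (P := Itm.ok 206) (iqf tpr552_c))))) (BT.Fa_mk (BT.Fa_mk (BT.Fa_mk (BT.Fa_mk (BT.Fa_leaf (P := Itm.ok 206) (iqf tpr545_c)) (BT.Fa_leaf (P := Itm.ok 206) (iqf tpr461_c))) (BT.Fa_leaf (P := Itm.ok 206) (iqb tpr692_c)))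 (BT.Fa_mk (BT.Fa_leaf (P := Itm.ok 206) (iqb tpr642_c)) (BT.Fa_leaf (P := Itm.ok 206) (iqb tpr74_c)))) (BT.Fa_mk (BT.Fa_mk (BT.Fa_leaf (P := Itm.ok 206) (iqb tpr632_c)) (BT.Fa_leaf (P := Itm.ok 206) (iqf tpr1908_c))) (BT.Fa_mk (BT.Fa_leaf (P := Itm.ok 206) (iqb tpr1888_c)) (BT.Fa_leaf (P := Itm.ok 206) (iqf tpr634_c)))))) (BT.Fa_mk (BT.Fa_mk (BT.Fa_mk (BT.Fa_mk (BT.Fa_mk (BT.Fa_leaf (P := Itm.ok 206) (iqf tpr123_c)) (BT.Fa_leaf (P := Itm.ok 206) (iqf tpr629_c))) (BT.Fa_leaf (P := Itm.ok 206) (iqb tpr393_c))) (BT.Fa_mk (BT.Fa_leaf (P := Itm.ok 206) (iqf tpr1251_c)) (BT.Fa_leaf (P := Itm.ok 206) (iqf tpr1862_c)))) (BT.Fa_mk (BT.Fa_mk (BT.Fa_leaf (P := Itm.ok 206) (iqf tpr122_c)) (BT.Fa_leaf (P := Itm.ok 206) (iqf tpr81_c))) (BT.Fa_mk (BT.Fa_leaf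 (P := Itm.ok 206) (iqb tpr695_c)) (BT.Fa_leaf (P := Itm.ok 206) (iqb tpr720_c))))) (BT.Fa_mk (BT.Fa_mk (BT.Fa_mk (BT.Fa_mk (BT.Fa_leaf (P := Itm.ok 206) (iqf tpr504_c)) (BT.Fa_leaf (P := Itm.ok 206) (iqb tpr625_c))) (BT.Fa_leaf (P := Itm.ok 206) (iqb tpr609_c))) (BT.Fa_mk (BT.Fa_leaf (P := Itm.ok 206) (iqf tpr606_c)) (BT.Fa_leaf (P := Itm.ok 206) (iqb tpr9_c)))) (BT.Fa_mk (BT.Fa_mk (BT.Fa_leaf (P := Itm.ok 206) (iqb tpr18_c)) (BT.Fa_leaf (P := Itm.ok 206) (iqb tpr572_c))) (BT.Fa_mk (BT.Fa_leaf (P := Itm.ok 206) (iqf tpr87_c)) (BT.Fa_leaf (P := Itm.ok 206) (iqf tpr506_c)))))))) (BT.Fa_mk (BT.Fa_mk (BT.Fa_mk (BT.Fa_mk (BT.Fa_mk (BT.Fa_mk (BT.Fa_mk (BT.Fa_leaf (P := Itm.ok 206) (iqf tpr547_c)) (BT.Fa_leaf (P := Itm.ok 206) (iqf tpr582_c))) (BT.Fa_leaf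 (P := Itm.ok 206) (iqb tpr10_c))) (BT.Fa_mk (BT.Fa_leaf (P := Itm.ok 206) (iqb tpr626_c)) (BT.Fa_leaf (P := Itm.ok 206) (iqb tpr82_c)))) (BT.Fa_mk (BT.Fa_mk (BT.Fa_mk (BT.Fa_leaf (P := Itm.ok 206) (iqb tpr516_c)) (BT.Fa_leaf (P := Itm.ok 206) (iqb tpr526_c))) (BT.Fa_leaf (P := Itm.ok 206) (iqb tpr499_c))) (BT.Fa_mk (BT.Fa_leaf (P := Itm.ok 206) (iqb tpr555_c)) (BT.Fa_leaf (P := Itm.ok 206) (iqb tpr503_c))))) (BT.Fa_mk (BT.Fa_mk (BT.Fa_mk (BT.Fa_mk (BT.Fa_leaf (P := Itm.ok 206) (iqf tpr509_c)) (BT.Fa_leaf (P := Itm.ok 206) (iqf tpr203_c))) (BT.Fa_leaf (P := Itm.ok 206) (iqf tpr511_c))) (BT.Fa_mk (BT.Fa_leaf (P := Itm.ok 206) (iqf tpr519_c)) (BT.Fa_leaf (P := Itm.ok 206) (iqf tpr589_c)))) (BT.Fa_mk (BT.Fa_mk (BT.Fa_leaf (P := Itm.ok 206) (iqf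 tpr72_c)) (BT.Fa_leaf (P := Itm.ok 206) (iqf tpr1570_c))) (BT.Fa_mk (BT.Fa_leaf (P := Itm.ok 206) (iqf tpr235_c)) (BT.Fa_leaf (P := Itm.ok 206) (iqb tpr591_c)))))) (BT.Fa_mk (BT.Fa_mk (BT.Fa_mk (BT.Fa_mk (BT.Fa_mk (BT.Fa_leaf (P := Itm.ok 206) (iqf tpr1542_c)) (BT.Fa_leaf (P := Itm.ok 206) (iqb tpr622_c))) (BT.Fa_leaf (P := Itm.ok 206) (iqb tpr620_c))) (BT.Fa_mk (BT.Fa_leaf (P := Itm.ok 206) (iqf tpr1552_c)) (BT.Fa_leaf (P := Itm.ok 206) (iqb tpr664_c)))) (BT.Fa_mk (BT.Fa_mk (BT.Fa_mk (BT.Fa_leaf (P := Itm.ok 206) (iqf tpr518_c)) (BT.Fa_leaf (P := Itm.ok 206) (iqb tpr1912_c))) (BT.Fa_leaf (P := Itm.ok 206) (iqf tpr1205_c))) (BT.Fa_mk (BT.Fa_leaf (P := Itm.ok 206) (iqb tpr989_c)) (BT.Fa_leaf (P := Itm.ok 206) (iqb tpr1904_c))))) (BT.Fa_mk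 (BT.Fa_mk (BT.Fa_mk (BT.Fa_mk (BT.Fa_leaf (P := Itm.ok 206) (iqb tpr527_c)) (BT.Fa_leaf (P := Itm.ok 206) (iqf tpr1065_c))) (BT.Fa_leaf (P := Itm.ok 206) (iqf tpr1861_c))) (BT.Fa_mk (BT.Fa_leaf (P := Itm.ok 206) (iqb tpr687_c)) (BT.Fa_leaf (P := Itm.ok 206) (iqb tpr2077_c)))) (BT.Fa_mk (BT.Fa_mk (BT.Fa_leaf (P := Itm.ok 206) (iqf tpr1247_c)) (BT.Fa_leaf (P := Itm.ok 206) (iqf tpr1194_c))) (BT.Fa_mk (BT.Fa_leaf (P := Itm.ok 206) (iqf tpr583_c)) (BT.Fa_leaf (P := Itm.ok 206) (iqf tpr592_c))))))) (BT.Fa_mk (BT.Fa_mk (BT.Fa_mk (BT.Fa_mk (BT.Fa_mk (BT.Fa_mk (BT.Fa_leaf (P := Itm.ok 206) (iqf tpr602_c)) (BT.Fa_leaf (P := Itm.ok 206) (iqb tpr662_c))) (BT.Fa_leaf (P := Itm.ok 206) (iqf tpr1834_c))) (BT.Fa_mk (BT.Fa_leaf (P := Itm.ok 206) (iqf tpr1905_c))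 (BT.Fa_leaf (P := Itm.ok 206) (iqb tpr686_c)))) (BT.Fa_mk (BT.Fa_mk (BT.Fa_mk (BT.Fa_leaf (P := Itm.ok 206) (iqb tpr676_c)) (BT.Fa_leaf (P := Itm.ok 206) (iqb tpr610_c))) (BT.Fa_leaf (P := Itm.ok 206) (iqb tpr593_c))) (BT.Fa_mk (BT.Fa_leaf (P := Itm.ok 206) (iqb tpr22_c)) (BT.Fa_leaf (P := Itm.ok 206) (iqf tpr510_c))))) (BT.Fa_mk (BT.Fa_mk (BT.Fa_mk (BT.Fa_mk (BT.Fa_leaf (P := Itm.ok 206) (iqf tpr612_c)) (BT.Fa_leaf (P := Itm.ok 206) (iqf tpr645_c))) (BT.Fa_leaf (P := Itm.ok 206) (iqb tpr562_c))) (BT.Fa_mk (BT.Fa_leaf (P := Itm.ok 206) (iqf tpr524_c)) (BT.Fa_leaf (P := Itm.ok 206) (iqb tpr1457_c)))) (BT.Fa_mk (BT.Fa_mk (BT.Fa_leaf (P := Itm.ok 206) (iqb tpr573_c)) (BT.Fa_leaf (P := Itm.ok 206) (iqf tpr517_c))) (BT.Fa_mk (BT.Fa_leaf (P :=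 Itm.ok 206) (iqb tpr514_c)) (BT.Fa_leaf (P := Itm.ok 206) (iqb tpr521_c)))))) (BT.Fa_mk (BT.Fa_mk (BT.Fa_mk (BT.Fa_mk (BT.Fa_mk (BT.Fa_leaf (P := Itm.ok 206) (iqb tpr656_c)) (BT.Fa_leaf (P := Itm.ok 206) (iqb tpr505_c))) (BT.Fa_leaf (P := Itm.ok 206) (iqb tpr210_c))) (BT.Fa_mk (BT.Fa_leaf (P := Itm.ok 206) (iqb tpr611_c)) (BT.Fa_leaf (P := Itm.ok 206) (iqf tpr1406_c)))) (BT.Fa_mk (BT.Fa_mk (BT.Fa_leaf (P := Itm.ok 206) (iqf tpr906_c)) (BT.Fa_leaf (P := Itm.ok 206) (iqb tpr681_c))) (BT.Fa_mk (BT.Fa_leaf (P := Itm.ok 206) (iqf tpr106_c)) (BT.Fa_leaf (P := Itm.ok 206) (iqf tpr23_c))))) (BT.Fa_mk (BT.Fa_mk (BT.Fa_mk (BT.Fa_mk (BT.Fa_leaf (P := Itm.ok 206) (iqb tpr520_c)) (BT.Fa_leaf (P := Itm.ok 206) (iqb tpr523_c))) (BT.Fa_leaf (P := Itm.ok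 206) (iqb tpr294_c))) (BT.Fa_mk (BT.Fa_leaf (P := Itm.ok 206) (iqb tpr576_c)) (BT.Fa_leaf (P := Itm.ok 206) (iqf tpr17_c)))) (BT.Fa_mk (BT.Fa_mk (BT.Fa_leaf (P := Itm.ok 206) (iqb tpr538_c)) (BT.Fa_leaf (P := Itm.ok 206) (iqf tpr714_c))) (BT.Fa_mk (BT.Fa_leaf (P := Itm.ok 206) (iqb tpr621_c)) (BT.Fa_leaf (P := Itm.ok 206) (iqb tpr691_c)))))))))

/-- all words of the class have labels -/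
theorem pokNFzByAzAyE2A3H3AyB2EzF : POK 206 xNFzByAzAyE2A3H3AyB2EzF :=
  y_pok (C0 := ceNFzByAzAyE2A3H3AyB2EzF) (C1 := coNFzByAzAyE2A3H3AyB2EzF) topNFzByAzAyE2A3H3AyB2EzF nbNFzByAzAyE2A3H3AyB2EzF (BT.Fa_of_all iiNFzByAzAyE2A3H3AyB2EzF_c)
    (BT.Fa_mk (cyE_spec zeNFzByAzAyE2A3H3AyB2EzF_0) (cyE_spec zeNFzByAzAyE2A3H3AyB2EzF_1))
    (BT.Fa_mk (cyO_spec zoNFzByAzAyE2A3H3AyB2EzF_0) (cyO_spec zoNFzByAzAyE2A3H3AyB2EzF_1))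
    iiNFzByAzAyE2A3H3AyB2EzF_k

theorem iiNFzByAzE2A3H2ByAzIzA2H3AyB2AzF_k : iiNFzByAzE2A3H2ByAzIzA2H3AyB2AzF.Fa (Itm.ok 206) := (BT.Fa_mk (BT.Fa_mk (BT.Fa_mk (BT.Fa_mk (BT.Fa_mk (BT.Fa_mk (BT.Fa_mk (BT.Fa_leaf (P := Itm.ok 206) (iqb tpr168_c)) (BT.Fa_leaf (P := Itm.ok 206) (iqf tpr4_c))) (BT.Fa_mk (BT.Fa_leaf (P := Itm.ok 206) (iqf tpr90_c)) (BT.Fa_leaf (P := Itm.ok 206) (iqb tpr500_c)))) (BT.Fa_mk (BT.Fa_mk (BT.Fa_leaf (P := Itm.ok 206) (iqb tpr12_c)) (BT.Fa_leaf (P := Itm.ok 206) (iqb tpr5_c))) (BT.Fa_mk (BT.Fa_leaf (P := Itm.ok 206) (iqb tpr609_c)) (BT.Fa_leaf (P := Itm.ok 206) (iqf tpr589_c))))) (BT.Fa_mk (BT.Fa_mk (BT.Fa_mk (BT.Fa_leaf (P := Itm.ok 206) (iqf tpr236_c)) (BT.Fa_leaf (P := Itm.ok 206) (iqb tpr8_c))) (BT.Fa_mk (BT.Fa_leaf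 (P := Itm.ok 206) (iqf tpr953_c)) (BT.Fa_leaf (P := Itm.ok 206) (iqb tpr1913_c)))) (BT.Fa_mk (BT.Fa_mk (BT.Fa_leaf (P := Itm.ok 206) (iqb tpr721_c)) (BT.Fa_leaf (P := Itm.ok 206) (iqb tpr618_c))) (BT.Fa_leaf (P := Itm.ok 206) (iqb tpr501_c))))) (BT.Fa_mk (BT.Fa_mk (BT.Fa_mk (BT.Fa_mk (BT.Fa_leaf (P := Itm.ok 206) (iqf tpr640_c)) (BT.Fa_leaf (P := Itm.ok 206) (iqf tpr557_c))) (BT.Fa_mk (BT.Fa_leaf (P := Itm.ok 206) (iqb tpr236_c)) (BT.Fa_leaf (P := Itm.ok 206) (iqb tpr670_c)))) (BT.Fa_mk (BT.Fa_mk (BT.Fa_leaf (P := Itm.ok 206) (iqb tpr562_c)) (BT.Fa_leaf (P := Itm.ok 206) (iqb tpr453_c))) (BT.Fa_leaf (P := Itm.ok 206) (iqb tpr18_c)))) (BT.Fa_mk (BT.Fa_mk (BT.Fa_mk (BT.Fa_leaf (P := Itm.ok 206) (iqf tpr579_c)) (BT.Fa_leaf (P := Itm.ok 206)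 (iqf tpr978_c))) (BT.Fa_mk (BT.Fa_leaf (P := Itm.ok 206) (iqb tpr820_c)) (BT.Fa_leaf (P := Itm.ok 206) (iqb tpr507_c)))) (BT.Fa_mk (BT.Fa_mk (BT.Fa_leaf (P := Itm.ok 206) (iqb tpr573_c)) (BT.Fa_leaf (P := Itm.ok 206) (iqb tpr1735_c))) (BT.Fa_leaf (P := Itm.ok 206) (iqb tpr429_c)))))) (BT.Fa_mk (BT.Fa_mk (BT.Fa_mk (BT.Fa_mk (BT.Fa_mk (BT.Fa_leaf (P := Itm.ok 206) (iqf tpr1258_c)) (BT.Fa_leaf (P := Itm.ok 206) (iqf tpr529_c))) (BT.Fa_mk (BT.Fa_leaf (P := Itm.ok 206) (iqf tpr564_c)) (BT.Fa_leaf (P := Itm.ok 206) (iqb tpr1681_c)))) (BT.Fa_mk (BT.Fa_mk (BT.Fa_leaf (P := Itm.ok 206) (iqb tpr1457_c)) (BT.Fa_leaf (P := Itm.ok 206) (iqf tpr8_c))) (BT.Fa_mk (BT.Fa_leaf (P := Itm.ok 206) (iqf tpr768_c)) (BT.Fa_leaf (P := Itm.ok 206) (iqb tpr1021_c)))))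 (BT.Fa_mk (BT.Fa_mk (BT.Fa_mk (BT.Fa_leaf (P := Itm.ok 206) (iqb tpr9_c)) (BT.Fa_leaf (P := Itm.ok 206) (iqb tpr15_c))) (BT.Fa_mk (BT.Fa_leaf (P := Itm.ok 206) (iqb tpr48_c)) (BT.Fa_leaf (P := Itm.ok 206) (iqf tpr780_c)))) (BT.Fa_mk (BT.Fa_mk (BT.Fa_leaf (P := Itm.ok 206) (iqf tpr123_c)) (BT.Fa_leaf (P := Itm.ok 206) (iqb tpr103_c))) (BT.Fa_leaf (P := Itm.ok 206) (iqf tpr504_c))))) (BT.Fa_mk (BT.Fa_mk (BT.Fa_mk (BT.Fa_mk (BT.Fa_leaf (P := Itm.ok 206) (iqf tpr122_c)) (BT.Fa_leaf (P := Itm.ok 206) (iqf tpr251_c))) (BT.Fa_mk (BT.Fa_leaf (P := Itm.ok 206) (iqb tpr528_c)) (BT.Fa_leaf (P := Itm.ok 206) (iqf tpr458_c)))) (BT.Fa_mk (BT.Fa_mk (BT.Fa_leaf (P := Itm.ok 206) (iqb tpr734_c)) (BT.Fa_leaf (P := Itm.ok 206) (iqf tpr51_c))) (BT.Fa_leaf (P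 := Itm.ok 206) (iqf tpr630_c)))) (BT.Fa_mk (BT.Fa_mk (BT.Fa_mk (BT.Fa_leaf (P := Itm.ok 206) (iqf tpr743_c)) (BT.Fa_leaf (P := Itm.ok 206) (iqb tpr656_c))) (BT.Fa_mk (BT.Fa_leaf (P := Itm.ok 206) (iqb tpr616_c)) (BT.Fa_leaf (P := Itm.ok 206) (iqf tpr508_c)))) (BT.Fa_mk (BT.Fa_mk (BT.Fa_leaf (P := Itm.ok 206) (iqf tpr511_c)) (BT.Fa_leaf (P := Itm.ok 206) (iqb tpr607_c))) (BT.Fa_leaf (P := Itm.ok 206) (iqf tpr259_c))))))) (BT.Fa_mk (BT.Fa_mk (BT.Fa_mk (BT.Fa_mk (BT.Fa_mk (BT.Fa_mk (BT.Fa_leaf (P := Itm.ok 206) (iqb tpr568_c)) (BT.Fa_leaf (P := Itm.ok 206) (iqb tpr953_c))) (BT.Fa_mk (BT.Fa_leaf (P := Itm.ok 206) (iqf tpr545_c)) (BT.Fa_leaf (P := Itm.ok 206) (iqf tpr509_c)))) (BT.Fa_mk (BT.Fa_mk (BT.Fa_leaf (P := Itm.ok 206) (iqb tpr555_c)) (BT.Fa_leaf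 (P := Itm.ok 206) (iqb tpr658_c))) (BT.Fa_mk (BT.Fa_leaf (P := Itm.ok 206) (iqf tpr607_c)) (BT.Fa_leaf (P := Itm.ok 206) (iqf tpr519_c))))) (BT.Fa_mk (BT.Fa_mk (BT.Fa_mk (BT.Fa_leaf (P := Itm.ok 206) (iqf tpr419_c)) (BT.Fa_leaf (P := Itm.ok 206) (iqb tpr464_c))) (BT.Fa_mk (BT.Fa_leaf (P := Itm.ok 206) (iqb tpr456_c)) (BT.Fa_leaf (P := Itm.ok 206) (iqb tpr259_c)))) (BT.Fa_mk (BT.Fa_mk (BT.Fa_leaf (P := Itm.ok 206) (iqf tpr499_c)) (BT.Fa_leaf (P := Itm.ok 206) (iqb tpr608_c))) (BT.Fa_leaf (P := Itm.ok 206) (iqb tpr216_c))))) (BT.Fa_mk (BT.Fa_mk (BT.Fa_mk (BT.Fa_mk (BT.Fa_leaf (P := Itm.ok 206) (iqf tpr851_c)) (BT.Fa_leaf (P := Itm.ok 206) (iqf tpr72_c))) (BT.Fa_mk (BT.Fa_leaf (P := Itm.ok 206) (iqf tpr626_c)) (BT.Fa_leaf (P := Itm.ok 206) (iqb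 tpr479_c)))) (BT.Fa_mk (BT.Fa_mk (BT.Fa_leaf (P := Itm.ok 206) (iqb tpr454_c)) (BT.Fa_leaf (P := Itm.ok 206) (iqb tpr465_c))) (BT.Fa_leaf (P := Itm.ok 206) (iqf tpr48_c)))) (BT.Fa_mk (BT.Fa_mk (BT.Fa_mk (BT.Fa_leaf (P := Itm.ok 206) (iqb tpr110_c)) (BT.Fa_leaf (P := Itm.ok 206) (iqf tpr106_c))) (BT.Fa_mk (BT.Fa_leaf (P := Itm.ok 206) (iqf tpr623_c)) (BT.Fa_leaf (P := Itm.ok 206) (iqb tpr89_c)))) (BT.Fa_mk (BT.Fa_mk (BT.Fa_leaf (P := Itm.ok 206) (iqb tpr622_c)) (BT.Fa_leaf (P := Itm.ok 206) (iqf tpr33_c))) (BT.Fa_leaf (P := Itm.ok 206) (iqf tpr2494_c)))))) (BT.Fa_mk (BT.Fa_mk (BT.Fa_mk (BT.Fa_mk (BT.Fa_mk (BT.Fa_leaf (P := Itm.ok 206) (iqf tpr990_c)) (BT.Fa_leaf (P := Itm.ok 206) (iqb tpr1643_c))) (BT.Fa_mk (BT.Fa_leaf (P := Itm.ok 206) (iqf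 tpr788_c)) (BT.Fa_leaf (P := Itm.ok 206) (iqf tpr2786_c)))) (BT.Fa_mk (BT.Fa_mk (BT.Fa_leaf (P := Itm.ok 206) (iqf tpr1681_c)) (BT.Fa_leaf (P := Itm.ok 206) (iqf tpr238_c))) (BT.Fa_leaf (P := Itm.ok 206) (iqf tpr1257_c)))) (BT.Fa_mk (BT.Fa_mk (BT.Fa_mk (BT.Fa_leaf (P := Itm.ok 206) (iqb tpr584_c)) (BT.Fa_leaf (P := Itm.ok 206) (iqf tpr23_c))) (BT.Fa_mk (BT.Fa_leaf (P := Itm.ok 206) (iqf tpr49_c)) (BT.Fa_leaf (P := Itm.ok 206) (iqb tpr186_c)))) (BT.Fa_mk (BT.Fa_mk (BT.Fa_leaf (P := Itm.ok 206) (iqb tpr982_c)) (BT.Fa_leaf (P := Itm.ok 206) (iqb tpr419_c))) (BT.Fa_leaf (P := Itm.ok 206) (iqf tpr82_c))))) (BT.Fa_mk (BT.Fa_mk (BT.Fa_mk (BT.Fa_mk (BT.Fa_leaf (P := Itm.ok 206) (iqf tpr566_c)) (BT.Fa_leaf (P := Itm.ok 206) (iqb tpr51_c))) (BT.Fa_mk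 (BT.Fa_leaf (P := Itm.ok 206) (iqb tpr1018_c)) (BT.Fa_leaf (P := Itm.ok 206) (iqb tpr598_c)))) (BT.Fa_mk (BT.Fa_mk (BT.Fa_leaf (P := Itm.ok 206) (iqb tpr1666_c)) (BT.Fa_leaf (P := Itm.ok 206) (iqf tpr1789_c))) (BT.Fa_leaf (P := Itm.ok 206) (iqb tpr605_c)))) (BT.Fa_mk (BT.Fa_mk (BT.Fa_mk (BT.Fa_leaf (P := Itm.ok 206) (iqf tpr151_c)) (BT.Fa_leaf (P := Itm.ok 206) (iqf tpr647_c))) (BT.Fa_mk (BT.Fa_leaf (P := Itm.ok 206) (iqb tpr665_c)) (BT.Fa_leaf (P := Itm.ok 206) (iqb tpr239_c)))) (BT.Fa_mk (BT.Fa_mk (BT.Fa_leaf (P := Itm.ok 206) (iqb tpr569_c)) (BT.Fa_leaf (P := Itm.ok 206) (iqf tpr959_c))) (BT.Fa_leaf (P := Itm.ok 206) (iqb tpr746_c))))))))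

/-- all words of the class have labels -/
theorem pokNFzByAzE2A3H2ByAzIzA2H3AyB2AzF : POK 206 xNFzByAzE2A3H2ByAzIzA2H3AyB2AzF :=
  y_pok (C0 := ceNFzByAzE2A3H2ByAzIzA2H3AyB2AzF) (C1 := coNFzByAzE2A3H2ByAzIzA2H3AyB2AzF) topNFzByAzE2A3H2ByAzIzA2H3AyB2AzF nbNFzByAzE2A3H2ByAzIzA2H3AyB2AzF (BT.Fa_of_all iiNFzByAzE2A3H2ByAzIzA2H3AyB2AzF_c)
    (cyE_spec zeNFzByAzE2A3H2ByAzIzA2H3AyB2AzF_0)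
    (cyO_spec zoNFzByAzE2A3H2ByAzIzA2H3AyB2AzF_0)
    iiNFzByAzE2A3H2ByAzIzA2H3AyB2AzF_k

theorem iiNFzByAzE2A3H2ByAzIzAyB2H3A2EzF_k : iiNFzByAzE2A3H2ByAzIzAyB2H3A2EzF.Fa (Itm.ok 206) := (BT.Fa_mk (BT.Fa_mk (BT.Fa_mk (BT.Fa_mk (BT.Fa_mk (BT.Fa_mk (BT.Fa_mk (BT.Fa_mk (BT.Fa_mk (BT.Fa_leaf (P := Itm.ok 206) (iqf tpr5_c)) (BT.Fa_leaf (P := Itm.ok 206) (iqf tpr8_c))) (BT.Fa_mk (BT.Fa_leaf (P := Itm.ok 206) (iqb tpr82_c)) (BT.Fa_leaf (P := Itm.ok 206) (iqb tpr44_c)))) (BT.Fa_mk (BT.Fa_mk (BT.Fa_leaf (P := Itm.ok 206) (iqf tpr500_c)) (BT.Fa_leaf (P := Itm.ok 206) (iqb tpr508_c))) (BT.Fa_leaf (P := Itm.ok 206) (iqf tpr548_c)))) (BT.Fa_mk (BT.Fa_mk (BT.Fa_mk (BT.Fa_leaf (P := Itm.ok 206) (iqb tpr555_c)) (BT.Fa_leaf (P := Itm.ok 206) (iqf tpr22_c)))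 (BT.Fa_leaf (P := Itm.ok 206) (iqb tpr17_c))) (BT.Fa_mk (BT.Fa_mk (BT.Fa_leaf (P := Itm.ok 206) (iqf tpr48_c)) (BT.Fa_leaf (P := Itm.ok 206) (iqf tpr103_c))) (BT.Fa_leaf (P := Itm.ok 206) (iqb tpr505_c))))) (BT.Fa_mk (BT.Fa_mk (BT.Fa_mk (BT.Fa_mk (BT.Fa_leaf (P := Itm.ok 206) (iqb tpr607_c)) (BT.Fa_leaf (P := Itm.ok 206) (iqb tpr294_c))) (BT.Fa_mk (BT.Fa_leaf (P := Itm.ok 206) (iqb tpr106_c)) (BT.Fa_leaf (P := Itm.ok 206) (iqf tpr499_c)))) (BT.Fa_mk (BT.Fa_mk (BT.Fa_leaf (P := Itm.ok 206) (iqb tpr8_c)) (BT.Fa_leaf (P := Itm.ok 206) (iqb tpr507_c))) (BT.Fa_leaf (P := Itm.ok 206) (iqf tpr607_c)))) (BT.Fa_mk (BT.Fa_mk (BT.Fa_mk (BT.Fa_leaf (P := Itm.ok 206) (iqf tpr555_c)) (BT.Fa_leaf (P := Itm.ok 206) (iqf tpr198_c))) (BT.Fa_leaf (P := Itm.ok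 206) (iqb tpr545_c))) (BT.Fa_mk (BT.Fa_mk (BT.Fa_leaf (P := Itm.ok 206) (iqf tpr324_c)) (BT.Fa_leaf (P := Itm.ok 206) (iqf tpr505_c))) (BT.Fa_leaf (P := Itm.ok 206) (iqb tpr743_c)))))) (BT.Fa_mk (BT.Fa_mk (BT.Fa_mk (BT.Fa_mk (BT.Fa_mk (BT.Fa_leaf (P := Itm.ok 206) (iqb tpr518_c)) (BT.Fa_leaf (P := Itm.ok 206) (iqf tpr518_c))) (BT.Fa_mk (BT.Fa_leaf (P := Itm.ok 206) (iqb tpr22_c)) (BT.Fa_leaf (P := Itm.ok 206) (iqf tpr1016_c)))) (BT.Fa_mk (BT.Fa_mk (BT.Fa_leaf (P := Itm.ok 206) (iqf tpr516_c)) (BT.Fa_leaf (P := Itm.ok 206) (iqf tpr82_c))) (BT.Fa_leaf (P := Itm.ok 206) (iqf tpr1804_c)))) (BT.Fa_mk (BT.Fa_mk (BT.Fa_mk (BT.Fa_leaf (P := Itm.ok 206) (iqb tpr203_c)) (BT.Fa_leaf (P := Itm.ok 206) (iqb tpr509_c))) (BT.Fa_leaf (P := Itm.ok 206) (iqb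 tpr511_c))) (BT.Fa_mk (BT.Fa_mk (BT.Fa_leaf (P := Itm.ok 206) (iqb tpr519_c)) (BT.Fa_leaf (P := Itm.ok 206) (iqf tpr625_c))) (BT.Fa_leaf (P := Itm.ok 206) (iqf tpr502_c))))) (BT.Fa_mk (BT.Fa_mk (BT.Fa_mk (BT.Fa_mk (BT.Fa_leaf (P := Itm.ok 206) (iqf tpr536_c)) (BT.Fa_leaf (P := Itm.ok 206) (iqf tpr617_c))) (BT.Fa_leaf (P := Itm.ok 206) (iqb tpr13_c))) (BT.Fa_mk (BT.Fa_mk (BT.Fa_leaf (P := Itm.ok 206) (iqf tpr4_c)) (BT.Fa_leaf (P := Itm.ok 206) (iqf tpr619_c))) (BT.Fa_leaf (P := Itm.ok 206) (iqb tpr624_c)))) (BT.Fa_mk (BT.Fa_mk (BT.Fa_mk (BT.Fa_leaf (P := Itm.ok 206) (iqf tpr16_c)) (BT.Fa_leaf (P := Itm.ok 206) (iqb tpr78_c))) (BT.Fa_leaf (P := Itm.ok 206) (iqb tpr612_c))) (BT.Fa_mk (BT.Fa_mk (BT.Fa_leaf (P := Itm.ok 206) (iqb tpr81_c)) (BT.Fa_leaf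 (P := Itm.ok 206) (iqb tpr87_c))) (BT.Fa_leaf (P := Itm.ok 206) (iqb tpr678_c))))))) (BT.Fa_mk (BT.Fa_mk (BT.Fa_mk (BT.Fa_mk (BT.Fa_mk (BT.Fa_mk (BT.Fa_leaf (P := Itm.ok 206) (iqf tpr695_c)) (BT.Fa_leaf (P := Itm.ok 206) (iqf tpr621_c))) (BT.Fa_mk (BT.Fa_leaf (P := Itm.ok 206) (iqb tpr123_c)) (BT.Fa_leaf (P := Itm.ok 206) (iqb tpr122_c)))) (BT.Fa_mk (BT.Fa_mk (BT.Fa_leaf (P := Itm.ok 206) (iqf tpr339_c)) (BT.Fa_leaf (P := Itm.ok 206) (iqf tpr74_c))) (BT.Fa_leaf (P := Itm.ok 206) (iqf tpr344_c)))) (BT.Fa_mk (BT.Fa_mk (BT.Fa_mk (BT.Fa_leaf (P := Itm.ok 206) (iqf tpr720_c)) (BT.Fa_leaf (P := Itm.ok 206) (iqf tpr393_c))) (BT.Fa_leaf (P := Itm.ok 206) (iqb tpr292_c))) (BT.Fa_mk (BT.Fa_mk (BT.Fa_leaf (P := Itm.ok 206) (iqf tpr75_c)) (BT.Fa_leaf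 (P := Itm.ok 206) (iqb tpr77_c))) (BT.Fa_leaf (P := Itm.ok 206) (iqf tpr54_c))))) (BT.Fa_mk (BT.Fa_mk (BT.Fa_mk (BT.Fa_mk (BT.Fa_leaf (P := Itm.ok 206) (iqf tpr569_c)) (BT.Fa_leaf (P := Itm.ok 206) (iqb tpr705_c))) (BT.Fa_leaf (P := Itm.ok 206) (iqb tpr167_c))) (BT.Fa_mk (BT.Fa_mk (BT.Fa_leaf (P := Itm.ok 206) (iqb tpr1812_c)) (BT.Fa_leaf (P := Itm.ok 206) (iqf tpr527_c))) (BT.Fa_leaf (P := Itm.ok 206) (iqf tpr616_c)))) (BT.Fa_mk (BT.Fa_mk (BT.Fa_mk (BT.Fa_leaf (P := Itm.ok 206) (iqb tpr516_c)) (BT.Fa_leaf (P := Itm.ok 206) (iqb tpr683_c))) (BT.Fa_leaf (P := Itm.ok 206) (iqb tpr576_c))) (BT.Fa_mk (BT.Fa_mk (BT.Fa_leaf (P := Itm.ok 206) (iqf tpr568_c)) (BT.Fa_leaf (P := Itm.ok 206) (iqf tpr17_c))) (BT.Fa_leaf (P := Itm.ok 206) (iqf tpr44_c))))))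 (BT.Fa_mk (BT.Fa_mk (BT.Fa_mk (BT.Fa_mk (BT.Fa_mk (BT.Fa_leaf (P := Itm.ok 206) (iqb tpr504_c)) (BT.Fa_leaf (P := Itm.ok 206) (iqb tpr239_c))) (BT.Fa_mk (BT.Fa_leaf (P := Itm.ok 206) (iqb tpr546_c)) (BT.Fa_leaf (P := Itm.ok 206) (iqb tpr577_c)))) (BT.Fa_mk (BT.Fa_mk (BT.Fa_leaf (P := Itm.ok 206) (iqf tpr544_c)) (BT.Fa_leaf (P := Itm.ok 206) (iqf tpr591_c))) (BT.Fa_leaf (P := Itm.ok 206) (iqf tpr1800_c)))) (BT.Fa_mk (BT.Fa_mk (BT.Fa_mk (BT.Fa_leaf (P := Itm.ok 206) (iqf tpr612_c)) (BT.Fa_leaf (P := Itm.ok 206) (iqf tpr672_c))) (BT.Fa_leaf (P := Itm.ok 206) (iqf tpr622_c))) (BT.Fa_mk (BT.Fa_mk (BT.Fa_leaf (P := Itm.ok 206) (iqf tpr620_c)) (BT.Fa_leaf (P := Itm.ok 206) (iqb tpr2424_c))) (BT.Fa_leaf (P := Itm.ok 206) (iqb tpr626_c))))) (BT.Fa_mk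 (BT.Fa_mk (BT.Fa_mk (BT.Fa_mk (BT.Fa_leaf (P := Itm.ok 206) (iqf tpr521_c)) (BT.Fa_leaf (P := Itm.ok 206) (iqf tpr294_c))) (BT.Fa_leaf (P := Itm.ok 206) (iqf tpr503_c))) (BT.Fa_mk (BT.Fa_mk (BT.Fa_leaf (P := Itm.ok 206) (iqf tpr576_c)) (BT.Fa_leaf (P := Itm.ok 206) (iqb tpr617_c))) (BT.Fa_leaf (P := Itm.ok 206) (iqb tpr502_c)))) (BT.Fa_mk (BT.Fa_mk (BT.Fa_mk (BT.Fa_leaf (P := Itm.ok 206) (iqb tpr680_c)) (BT.Fa_leaf (P := Itm.ok 206) (iqb tpr596_c))) (BT.Fa_leaf (P := Itm.ok 206) (iqf tpr523_c))) (BT.Fa_mk (BT.Fa_mk (BT.Fa_leaf (P := Itm.ok 206) (iqf tpr466_c)) (BT.Fa_leaf (P := Itm.ok 206) (iqf tpr23_c))) (BT.Fa_leaf (P := Itm.ok 206) (iqb tpr1719_c)))))))) (BT.Fa_mk (BT.Fa_mk (BT.Fa_mk (BT.Fa_mk (BT.Fa_mk (BT.Fa_mk (BT.Fa_mk (BT.Fa_leaf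 (P := Itm.ok 206) (iqf tpr1255_c)) (BT.Fa_leaf (P := Itm.ok 206) (iqf tpr265_c))) (BT.Fa_mk (BT.Fa_leaf (P := Itm.ok 206) (iqf tpr610_c)) (BT.Fa_leaf (P := Itm.ok 206) (iqb tpr636_c)))) (BT.Fa_mk (BT.Fa_mk (BT.Fa_leaf (P := Itm.ok 206) (iqf tpr559_c)) (BT.Fa_leaf (P := Itm.ok 206) (iqb tpr588_c))) (BT.Fa_leaf (P := Itm.ok 206) (iqf tpr515_c)))) (BT.Fa_mk (BT.Fa_mk (BT.Fa_mk (BT.Fa_leaf (P := Itm.ok 206) (iqf tpr593_c)) (BT.Fa_leaf (P := Itm.ok 206) (iqf tpr626_c))) (BT.Fa_leaf (P := Itm.ok 206) (iqb tpr592_c))) (BT.Fa_mk (BT.Fa_mk (BT.Fa_leaf (P := Itm.ok 206) (iqb tpr1204_c)) (BT.Fa_leaf (P := Itm.ok 206) (iqf tpr627_c))) (BT.Fa_leaf (P := Itm.ok 206) (iqb tpr568_c))))) (BT.Fa_mk (BT.Fa_mk (BT.Fa_mk (BT.Fa_mk (BT.Fa_leaf (P := Itm.ok 206)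 (iqb tpr701_c)) (BT.Fa_leaf (P := Itm.ok 206) (iqb tpr513_c))) (BT.Fa_leaf (P := Itm.ok 206) (iqf tpr1248_c))) (BT.Fa_mk (BT.Fa_mk (BT.Fa_leaf (P := Itm.ok 206) (iqf tpr509_c)) (BT.Fa_leaf (P := Itm.ok 206) (iqb tpr699_c))) (BT.Fa_leaf (P := Itm.ok 206) (iqf tpr26_c)))) (BT.Fa_mk (BT.Fa_mk (BT.Fa_mk (BT.Fa_leaf (P := Itm.ok 206) (iqf tpr583_c)) (BT.Fa_leaf (P := Itm.ok 206) (iqf tpr701_c))) (BT.Fa_leaf (P := Itm.ok 206) (iqb tpr610_c))) (BT.Fa_mk (BT.Fa_mk (BT.Fa_leaf (P := Itm.ok 206) (iqf tpr549_c)) (BT.Fa_leaf (P := Itm.ok 206) (iqf tpr537_c))) (BT.Fa_leaf (P := Itm.ok 206) (iqb tpr9_c)))))) (BT.Fa_mk (BT.Fa_mk (BT.Fa_mk (BT.Fa_mk (BT.Fa_mk (BT.Fa_leaf (P := Itm.ok 206) (iqf tpr1666_c)) (BT.Fa_leaf (P := Itm.ok 206) (iqf tpr712_c))) (BT.Fa_mk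 (BT.Fa_leaf (P := Itm.ok 206) (iqf tpr543_c)) (BT.Fa_leaf (P := Itm.ok 206) (iqf tpr574_c)))) (BT.Fa_mk (BT.Fa_mk (BT.Fa_leaf (P := Itm.ok 206) (iqf tpr1256_c)) (BT.Fa_leaf (P := Itm.ok 206) (iqf tpr58_c))) (BT.Fa_leaf (P := Itm.ok 206) (iqb tpr804_c)))) (BT.Fa_mk (BT.Fa_mk (BT.Fa_mk (BT.Fa_leaf (P := Itm.ok 206) (iqb tpr583_c)) (BT.Fa_leaf (P := Itm.ok 206) (iqf tpr683_c))) (BT.Fa_leaf (P := Itm.ok 206) (iqb tpr615_c))) (BT.Fa_mk (BT.Fa_mk (BT.Fa_leaf (P := Itm.ok 206) (iqf tpr968_c)) (BT.Fa_leaf (P := Itm.ok 206) (iqf tpr508_c))) (BT.Fa_leaf (P := Itm.ok 206) (iqf tpr680_c))))) (BT.Fa_mk (BT.Fa_mk (BT.Fa_mk (BT.Fa_mk (BT.Fa_leaf (P := Itm.ok 206) (iqb tpr527_c)) (BT.Fa_leaf (P := Itm.ok 206) (iqf tpr596_c))) (BT.Fa_leaf (P := Itm.ok 206)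 (iqb tpr605_c))) (BT.Fa_mk (BT.Fa_mk (BT.Fa_leaf (P := Itm.ok 206) (iqf tpr614_c)) (BT.Fa_leaf (P := Itm.ok 206) (iqf tpr238_c))) (BT.Fa_leaf (P := Itm.ok 206) (iqf tpr676_c)))) (BT.Fa_mk (BT.Fa_mk (BT.Fa_mk (BT.Fa_leaf (P := Itm.ok 206) (iqf tpr1647_c)) (BT.Fa_leaf (P := Itm.ok 206) (iqb tpr1001_c))) (BT.Fa_leaf (P := Itm.ok 206) (iqb tpr1670_c))) (BT.Fa_mk (BT.Fa_mk (BT.Fa_leaf (P := Itm.ok 206) (iqb tpr521_c)) (BT.Fa_leaf (P := Itm.ok 206) (iqf tpr1058_c))) (BT.Fa_leaf (P := Itm.ok 206) (iqf tpr514_c))))))) (BT.Fa_mk (BT.Fa_mk (BT.Fa_mk (BT.Fa_mk (BT.Fa_mk (BT.Fa_mk (BT.Fa_leaf (P := Itm.ok 206) (iqb tpr575_c)) (BT.Fa_leaf (P := Itm.ok 206) (iqf tpr681_c))) (BT.Fa_mk (BT.Fa_leaf (P := Itm.ok 206) (iqb tpr514_c)) (BT.Fa_leaf (P := Itm.ok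 206) (iqb tpr1862_c)))) (BT.Fa_mk (BT.Fa_mk (BT.Fa_leaf (P := Itm.ok 206) (iqb tpr627_c)) (BT.Fa_leaf (P := Itm.ok 206) (iqf tpr315_c))) (BT.Fa_leaf (P := Itm.ok 206) (iqf tpr2425_c)))) (BT.Fa_mk (BT.Fa_mk (BT.Fa_mk (BT.Fa_leaf (P := Itm.ok 206) (iqb tpr2426_c)) (BT.Fa_leaf (P := Itm.ok 206) (iqf tpr592_c))) (BT.Fa_leaf (P := Itm.ok 206) (iqf tpr1637_c))) (BT.Fa_mk (BT.Fa_mk (BT.Fa_leaf (P := Itm.ok 206) (iqf tpr1215_c)) (BT.Fa_leaf (P := Itm.ok 206) (iqb tpr959_c))) (BT.Fa_leaf (P := Itm.ok 206) (iqf tpr1052_c))))) (BT.Fa_mk (BT.Fa_mk (BT.Fa_mk (BT.Fa_mk (BT.Fa_leaf (P := Itm.ok 206) (iqb tpr293_c)) (BT.Fa_leaf (P := Itm.ok 206) (iqf tpr702_c))) (BT.Fa_leaf (P := Itm.ok 206) (iqf tpr605_c))) (BT.Fa_mk (BT.Fa_mk (BT.Fa_leaf (P := Itm.ok 206)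 (iqf tpr239_c)) (BT.Fa_leaf (P := Itm.ok 206) (iqf tpr693_c))) (BT.Fa_leaf (P := Itm.ok 206) (iqf tpr511_c)))) (BT.Fa_mk (BT.Fa_mk (BT.Fa_mk (BT.Fa_leaf (P := Itm.ok 206) (iqb tpr559_c)) (BT.Fa_leaf (P := Itm.ok 206) (iqb tpr18_c))) (BT.Fa_leaf (P := Itm.ok 206) (iqf tpr1196_c))) (BT.Fa_mk (BT.Fa_mk (BT.Fa_leaf (P := Itm.ok 206) (iqf tpr782_c)) (BT.Fa_leaf (P := Itm.ok 206) (iqb tpr1990_c))) (BT.Fa_leaf (P := Itm.ok 206) (iqb tpr500_c)))))) (BT.Fa_mk (BT.Fa_mk (BT.Fa_mk (BT.Fa_mk (BT.Fa_mk (BT.Fa_leaf (P := Itm.ok 206) (iqf tpr630_c)) (BT.Fa_leaf (P := Itm.ok 206) (iqf tpr504_c))) (BT.Fa_mk (BT.Fa_leaf (P := Itm.ok 206) (iqb tpr1655_c)) (BT.Fa_leaf (P := Itm.ok 206) (iqb tpr466_c)))) (BT.Fa_mk (BT.Fa_mk (BT.Fa_leaf (P := Itm.ok 206) (iqf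 tpr481_c)) (BT.Fa_leaf (P := Itm.ok 206) (iqb tpr2434_c))) (BT.Fa_leaf (P := Itm.ok 206) (iqb tpr1909_c)))) (BT.Fa_mk (BT.Fa_mk (BT.Fa_mk (BT.Fa_leaf (P := Itm.ok 206) (iqb tpr1914_c)) (BT.Fa_leaf (P := Itm.ok 206) (iqb tpr499_c))) (BT.Fa_leaf (P := Itm.ok 206) (iqf tpr613_c))) (BT.Fa_mk (BT.Fa_mk (BT.Fa_leaf (P := Itm.ok 206) (iqf tpr1926_c)) (BT.Fa_leaf (P := Itm.ok 206) (iqf tpr1193_c))) (BT.Fa_leaf (P := Itm.ok 206) (iqf tpr2368_c))))) (BT.Fa_mk (BT.Fa_mk (BT.Fa_mk (BT.Fa_mk (BT.Fa_leaf (P := Itm.ok 206) (iqb tpr2369_c)) (BT.Fa_leaf (P := Itm.ok 206) (iqb tpr1929_c))) (BT.Fa_leaf (P := Itm.ok 206) (iqf tpr2372_c))) (BT.Fa_mk (BT.Fa_mk (BT.Fa_leaf (P := Itm.ok 206) (iqf tpr1899_c)) (BT.Fa_leaf (P := Itm.ok 206) (iqb tpr1903_c))) (BT.Fa_leaf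 (P := Itm.ok 206) (iqf tpr1817_c)))) (BT.Fa_mk (BT.Fa_mk (BT.Fa_mk (BT.Fa_leaf (P := Itm.ok 206) (iqf tpr1929_c)) (BT.Fa_leaf (P := Itm.ok 206) (iqf tpr767_c))) (BT.Fa_leaf (P := Itm.ok 206) (iqb tpr315_c))) (BT.Fa_mk (BT.Fa_mk (BT.Fa_leaf (P := Itm.ok 206) (iqf tpr2090_c)) (BT.Fa_leaf (P := Itm.ok 206) (iqf tpr349_c))) (BT.Fa_leaf (P := Itm.ok 206) (iqb tpr2368_c))))))))) (BT.Fa_mk (BT.Fa_mk (BT.Fa_mk (BT.Fa_mk (BT.Fa_mk (BT.Fa_mk (BT.Fa_mk (BT.Fa_mk (BT.Fa_leaf (P := Itm.ok 206) (iqb tpr2436_c)) (BT.Fa_leaf (P := Itm.ok 206) (iqb tpr532_c))) (BT.Fa_mk (BT.Fa_leaf (P := Itm.ok 206) (iqb tpr2070_c)) (BT.Fa_leaf (P := Itm.ok 206) (iqb tpr1895_c)))) (BT.Fa_mk (BT.Fa_mk (BT.Fa_leaf (P := Itm.ok 206) (iqb tpr695_c)) (BT.Fa_leaf (P := Itm.ok 206)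 (iqf tpr1917_c))) (BT.Fa_leaf (P := Itm.ok 206) (iqf tpr1914_c)))) (BT.Fa_mk (BT.Fa_mk (BT.Fa_mk (BT.Fa_leaf (P := Itm.ok 206) (iqb tpr1926_c)) (BT.Fa_leaf (P := Itm.ok 206) (iqf tpr118_c))) (BT.Fa_leaf (P := Itm.ok 206) (iqb tpr160_c))) (BT.Fa_mk (BT.Fa_mk (BT.Fa_leaf (P := Itm.ok 206) (iqb tpr1961_c)) (BT.Fa_leaf (P := Itm.ok 206) (iqf tpr1961_c))) (BT.Fa_leaf (P := Itm.ok 206) (iqb tpr33_c))))) (BT.Fa_mk (BT.Fa_mk (BT.Fa_mk (BT.Fa_mk (BT.Fa_leaf (P := Itm.ok 206) (iqb tpr2431_c)) (BT.Fa_leaf (P := Itm.ok 206) (iqb tpr129_c))) (BT.Fa_leaf (P := Itm.ok 206) (iqf tpr2434_c))) (BT.Fa_mk (BT.Fa_mk (BT.Fa_leaf (P := Itm.ok 206) (iqf tpr2436_c)) (BT.Fa_leaf (P := Itm.ok 206) (iqb tpr729_c))) (BT.Fa_leaf (P := Itm.ok 206) (iqb tpr327_c)))) (BT.Fa_mk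 (BT.Fa_mk (BT.Fa_mk (BT.Fa_leaf (P := Itm.ok 206) (iqb tpr761_c)) (BT.Fa_leaf (P := Itm.ok 206) (iqb tpr74_c))) (BT.Fa_leaf (P := Itm.ok 206) (iqf tpr2430_c))) (BT.Fa_mk (BT.Fa_mk (BT.Fa_leaf (P := Itm.ok 206) (iqf tpr2446_c)) (BT.Fa_leaf (P := Itm.ok 206) (iqf tpr200_c))) (BT.Fa_leaf (P := Itm.ok 206) (iqf tpr406_c)))))) (BT.Fa_mk (BT.Fa_mk (BT.Fa_mk (BT.Fa_mk (BT.Fa_mk (BT.Fa_leaf (P := Itm.ok 206) (iqf tpr1864_c)) (BT.Fa_leaf (P := Itm.ok 206) (iqb tpr481_c))) (BT.Fa_mk (BT.Fa_leaf (P := Itm.ok 206) (iqb tpr1889_c)) (BT.Fa_leaf (P := Itm.ok 206) (iqb tpr1875_c)))) (BT.Fa_mk (BT.Fa_mk (BT.Fa_leaf (P := Itm.ok 206) (iqb tpr720_c)) (BT.Fa_leaf (P := Itm.ok 206) (iqb tpr393_c))) (BT.Fa_leaf (P := Itm.ok 206) (iqb tpr1962_c)))) (BT.Fa_mk (BT.Fa_mk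 (BT.Fa_mk (BT.Fa_leaf (P := Itm.ok 206) (iqb tpr2429_c)) (BT.Fa_leaf (P := Itm.ok 206) (iqf tpr2433_c))) (BT.Fa_leaf (P := Itm.ok 206) (iqf tpr2443_c))) (BT.Fa_mk (BT.Fa_mk (BT.Fa_leaf (P := Itm.ok 206) (iqf tpr1959_c)) (BT.Fa_leaf (P := Itm.ok 206) (iqb tpr2427_c))) (BT.Fa_leaf (P := Itm.ok 206) (iqf tpr1717_c))))) (BT.Fa_mk (BT.Fa_mk (BT.Fa_mk (BT.Fa_mk (BT.Fa_leaf (P := Itm.ok 206) (iqb tpr1938_c)) (BT.Fa_leaf (P := Itm.ok 206) (iqf tpr1887_c))) (BT.Fa_leaf (P := Itm.ok 206) (iqf tpr1877_c))) (BT.Fa_mk (BT.Fa_mk (BT.Fa_leaf (P := Itm.ok 206) (iqf tpr2450_c)) (BT.Fa_leaf (P := Itm.ok 206) (iqb tpr2442_c))) (BT.Fa_leaf (P := Itm.ok 206) (iqf tpr1896_c)))) (BT.Fa_mk (BT.Fa_mk (BT.Fa_mk (BT.Fa_leaf (P := Itm.ok 206) (iqb tpr103_c)) (BT.Fa_leaf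 (P := Itm.ok 206) (iqb tpr349_c))) (BT.Fa_leaf (P := Itm.ok 206) (iqf tpr13_c))) (BT.Fa_mk (BT.Fa_mk (BT.Fa_leaf (P := Itm.ok 206) (iqb tpr536_c)) (BT.Fa_leaf (P := Itm.ok 206) (iqb tpr24_c))) (BT.Fa_leaf (P := Itm.ok 206) (iqf tpr292_c))))))) (BT.Fa_mk (BT.Fa_mk (BT.Fa_mk (BT.Fa_mk (BT.Fa_mk (BT.Fa_mk (BT.Fa_leaf (P := Itm.ok 206) (iqf tpr615_c)) (BT.Fa_leaf (P := Itm.ok 206) (iqf tpr122_c))) (BT.Fa_mk (BT.Fa_leaf (P := Itm.ok 206) (iqf tpr81_c)) (BT.Fa_leaf (P := Itm.ok 206) (iqb tpr63_c)))) (BT.Fa_mk (BT.Fa_mk (BT.Fa_leaf (P := Itm.ok 206) (iqb tpr15_c)) (BT.Fa_leaf (P := Itm.ok 206) (iqf tpr2437_c))) (BT.Fa_leaf (P := Itm.ok 206) (iqf tpr87_c)))) (BT.Fa_mk (BT.Fa_mk (BT.Fa_mk (BT.Fa_leaf (P := Itm.ok 206) (iqb tpr2375_c)) (BT.Fa_leaf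 (P := Itm.ok 206) (iqb tpr851_c))) (BT.Fa_leaf (P := Itm.ok 206) (iqf tpr566_c))) (BT.Fa_mk (BT.Fa_mk (BT.Fa_leaf (P := Itm.ok 206) (iqb tpr1190_c)) (BT.Fa_leaf (P := Itm.ok 206) (iqf tpr211_c))) (BT.Fa_leaf (P := Itm.ok 206) (iqb tpr621_c))))) (BT.Fa_mk (BT.Fa_mk (BT.Fa_mk (BT.Fa_mk (BT.Fa_leaf (P := Itm.ok 206) (iqb tpr1652_c)) (BT.Fa_leaf (P := Itm.ok 206) (iqf tpr123_c))) (BT.Fa_leaf (P := Itm.ok 206) (iqf tpr2015_c))) (BT.Fa_mk (BT.Fa_mk (BT.Fa_leaf (P := Itm.ok 206) (iqb tpr57_c)) (BT.Fa_leaf (P := Itm.ok 206) (iqb tpr1723_c))) (BT.Fa_leaf (P := Itm.ok 206) (iqb tpr604_c)))) (BT.Fa_mk (BT.Fa_mk (BT.Fa_mk (BT.Fa_leaf (P := Itm.ok 206) (iqf tpr2438_c)) (BT.Fa_leaf (P := Itm.ok 206) (iqb tpr344_c))) (BT.Fa_leaf (P := Itm.ok 206) (iqf tpr326_c)))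 (BT.Fa_mk (BT.Fa_mk (BT.Fa_leaf (P := Itm.ok 206) (iqb tpr2439_c)) (BT.Fa_leaf (P := Itm.ok 206) (iqf tpr2441_c))) (BT.Fa_leaf (P := Itm.ok 206) (iqf tpr203_c)))))) (BT.Fa_mk (BT.Fa_mk (BT.Fa_mk (BT.Fa_mk (BT.Fa_mk (BT.Fa_leaf (P := Itm.ok 206) (iqb tpr530_c)) (BT.Fa_leaf (P := Itm.ok 206) (iqf tpr545_c))) (BT.Fa_mk (BT.Fa_leaf (P := Itm.ok 206) (iqf tpr519_c)) (BT.Fa_leaf (P := Itm.ok 206) (iqb tpr632_c)))) (BT.Fa_mk (BT.Fa_mk (BT.Fa_leaf (P := Itm.ok 206) (iqb tpr1714_c)) (BT.Fa_leaf (P := Itm.ok 206) (iqb tpr603_c))) (BT.Fa_leaf (P := Itm.ok 206) (iqb tpr1547_c)))) (BT.Fa_mk (BT.Fa_mk (BT.Fa_mk (BT.Fa_leaf (P := Itm.ok 206) (iqf tpr2070_c)) (BT.Fa_leaf (P := Itm.ok 206) (iqb tpr151_c))) (BT.Fa_leaf (P := Itm.ok 206) (iqb tpr697_c))) (BT.Fa_mk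 (BT.Fa_mk (BT.Fa_leaf (P := Itm.ok 206) (iqb tpr1257_c)) (BT.Fa_leaf (P := Itm.ok 206) (iqb tpr1917_c))) (BT.Fa_leaf (P := Itm.ok 206) (iqb tpr1213_c))))) (BT.Fa_mk (BT.Fa_mk (BT.Fa_mk (BT.Fa_mk (BT.Fa_leaf (P := Itm.ok 206) (iqb tpr1899_c)) (BT.Fa_leaf (P := Itm.ok 206) (iqf tpr1900_c))) (BT.Fa_leaf (P := Itm.ok 206) (iqf tpr33_c))) (BT.Fa_mk (BT.Fa_mk (BT.Fa_leaf (P := Itm.ok 206) (iqb tpr767_c)) (BT.Fa_leaf (P := Itm.ok 206) (iqf tpr761_c))) (BT.Fa_leaf (P := Itm.ok 206) (iqf tpr587_c)))) (BT.Fa_mk (BT.Fa_mk (BT.Fa_mk (BT.Fa_leaf (P := Itm.ok 206) (iqf tpr603_c)) (BT.Fa_leaf (P := Itm.ok 206) (iqf tpr1213_c))) (BT.Fa_leaf (P := Itm.ok 206) (iqb tpr1637_c))) (BT.Fa_mk (BT.Fa_mk (BT.Fa_leaf (P := Itm.ok 206) (iqb tpr198_c)) (BT.Fa_leaf (P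 := Itm.ok 206) (iqf tpr959_c))) (BT.Fa_leaf (P := Itm.ok 206) (iqb tpr565_c)))))))) (BT.Fa_mk (BT.Fa_mk (BT.Fa_mk (BT.Fa_mk (BT.Fa_mk (BT.Fa_mk (BT.Fa_mk (BT.Fa_leaf (P := Itm.ok 206) (iqb tpr982_c)) (BT.Fa_leaf (P := Itm.ok 206) (iqf tpr640_c))) (BT.Fa_mk (BT.Fa_leaf (P := Itm.ok 206) (iqb tpr544_c)) (BT.Fa_leaf (P := Itm.ok 206) (iqf tpr1636_c)))) (BT.Fa_mk (BT.Fa_mk (BT.Fa_leaf (P := Itm.ok 206) (iqf tpr1257_c)) (BT.Fa_leaf (P := Itm.ok 206) (iqb tpr619_c))) (BT.Fa_leaf (P := Itm.ok 206) (iqb tpr2015_c)))) (BT.Fa_mk (BT.Fa_mk (BT.Fa_mk (BT.Fa_leaf (P := Itm.ok 206) (iqf tpr1889_c)) (BT.Fa_leaf (P := Itm.ok 206) (iqf tpr1202_c))) (BT.Fa_leaf (P := Itm.ok 206) (iqf tpr2369_c))) (BT.Fa_mk (BT.Fa_mk (BT.Fa_leaf (P := Itm.ok 206) (iqf tpr1684_c))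 (BT.Fa_leaf (P := Itm.ok 206) (iqf tpr632_c))) (BT.Fa_leaf (P := Itm.ok 206) (iqf tpr633_c))))) (BT.Fa_mk (BT.Fa_mk (BT.Fa_mk (BT.Fa_mk (BT.Fa_leaf (P := Itm.ok 206) (iqb tpr1647_c)) (BT.Fa_leaf (P := Itm.ok 206) (iqb tpr1193_c))) (BT.Fa_leaf (P := Itm.ok 206) (iqb tpr630_c))) (BT.Fa_mk (BT.Fa_mk (BT.Fa_leaf (P := Itm.ok 206) (iqf tpr1714_c)) (BT.Fa_leaf (P := Itm.ok 206) (iqf tpr1646_c))) (BT.Fa_leaf (P := Itm.ok 206) (iqf tpr636_c)))) (BT.Fa_mk (BT.Fa_mk (BT.Fa_mk (BT.Fa_leaf (P := Itm.ok 206) (iqf tpr577_c)) (BT.Fa_leaf (P := Itm.ok 206) (iqb tpr676_c))) (BT.Fa_leaf (P := Itm.ok 206) (iqb tpr593_c))) (BT.Fa_mk (BT.Fa_mk (BT.Fa_leaf (P := Itm.ok 206) (iqf tpr520_c)) (BT.Fa_leaf (P := Itm.ok 206) (iqb tpr510_c))) (BT.Fa_leaf (P := Itm.ok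 206) (iqb tpr1646_c)))))) (BT.Fa_mk (BT.Fa_mk (BT.Fa_mk (BT.Fa_mk (BT.Fa_mk (BT.Fa_leaf (P := Itm.ok 206) (iqf tpr510_c)) (BT.Fa_leaf (P := Itm.ok 206) (iqb tpr620_c))) (BT.Fa_mk (BT.Fa_leaf (P := Itm.ok 206) (iqb tpr702_c)) (BT.Fa_leaf (P := Itm.ok 206) (iqb tpr633_c)))) (BT.Fa_mk (BT.Fa_mk (BT.Fa_leaf (P := Itm.ok 206) (iqf tpr982_c)) (BT.Fa_leaf (P := Itm.ok 206) (iqb tpr725_c))) (BT.Fa_leaf (P := Itm.ok 206) (iqb tpr2090_c)))) (BT.Fa_mk (BT.Fa_mk (BT.Fa_mk (BT.Fa_leaf (P := Itm.ok 206) (iqf tpr1707_c)) (BT.Fa_leaf (P := Itm.ok 206) (iqb tpr118_c))) (BT.Fa_leaf (P := Itm.ok 206) (iqf tpr2375_c))) (BT.Fa_mk (BT.Fa_mk (BT.Fa_leaf (P := Itm.ok 206) (iqf tpr2068_c)) (BT.Fa_leaf (P := Itm.ok 206) (iqf tpr532_c))) (BT.Fa_leaf (P := Itm.ok 206)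 (iqb tpr2372_c))))) (BT.Fa_mk (BT.Fa_mk (BT.Fa_mk (BT.Fa_mk (BT.Fa_leaf (P := Itm.ok 206) (iqf tpr1953_c)) (BT.Fa_leaf (P := Itm.ok 206) (iqf tpr2431_c))) (BT.Fa_leaf (P := Itm.ok 206) (iqb tpr2068_c))) (BT.Fa_mk (BT.Fa_mk (BT.Fa_leaf (P := Itm.ok 206) (iqf tpr1903_c)) (BT.Fa_leaf (P := Itm.ok 206) (iqb tpr569_c))) (BT.Fa_leaf (P := Itm.ok 206) (iqf tpr151_c)))) (BT.Fa_mk (BT.Fa_mk (BT.Fa_mk (BT.Fa_leaf (P := Itm.ok 206) (iqf tpr1547_c)) (BT.Fa_leaf (P := Itm.ok 206) (iqf tpr1909_c))) (BT.Fa_leaf (P := Itm.ok 206) (iqf tpr256_c))) (BT.Fa_mk (BT.Fa_mk (BT.Fa_leaf (P := Itm.ok 206) (iqb tpr522_c)) (BT.Fa_leaf (P := Itm.ok 206) (iqf tpr771_c))) (BT.Fa_leaf (P := Itm.ok 206) (iqf tpr654_c))))))) (BT.Fa_mk (BT.Fa_mk (BT.Fa_mk (BT.Fa_mk (BT.Fa_mk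 (BT.Fa_mk (BT.Fa_leaf (P := Itm.ok 206) (iqb tpr2445_c)) (BT.Fa_leaf (P := Itm.ok 206) (iqf tpr1938_c))) (BT.Fa_mk (BT.Fa_leaf (P := Itm.ok 206) (iqb tpr526_c)) (BT.Fa_leaf (P := Itm.ok 206) (iqb tpr1636_c)))) (BT.Fa_mk (BT.Fa_mk (BT.Fa_leaf (P := Itm.ok 206) (iqf tpr160_c)) (BT.Fa_leaf (P := Itm.ok 206) (iqf tpr588_c))) (BT.Fa_leaf (P := Itm.ok 206) (iqb tpr595_c)))) (BT.Fa_mk (BT.Fa_mk (BT.Fa_mk (BT.Fa_leaf (P := Itm.ok 206) (iqb tpr543_c)) (BT.Fa_leaf (P := Itm.ok 206) (iqf tpr575_c))) (BT.Fa_leaf (P := Itm.ok 206) (iqb tpr2091_c))) (BT.Fa_mk (BT.Fa_mk (BT.Fa_leaf (P := Itm.ok 206) (iqb tpr1953_c)) (BT.Fa_leaf (P := Itm.ok 206) (iqf tpr525_c))) (BT.Fa_leaf (P := Itm.ok 206) (iqf tpr25_c))))) (BT.Fa_mk (BT.Fa_mk (BT.Fa_mk (BT.Fa_mk (BT.Fa_leaf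 (P := Itm.ok 206) (iqf tpr2447_c)) (BT.Fa_leaf (P := Itm.ok 206) (iqf tpr2448_c))) (BT.Fa_leaf (P := Itm.ok 206) (iqb tpr1907_c))) (BT.Fa_mk (BT.Fa_mk (BT.Fa_leaf (P := Itm.ok 206) (iqf tpr1966_c)) (BT.Fa_leaf (P := Itm.ok 206) (iqf tpr215_c))) (BT.Fa_leaf (P := Itm.ok 206) (iqb tpr62_c)))) (BT.Fa_mk (BT.Fa_mk (BT.Fa_mk (BT.Fa_leaf (P := Itm.ok 206) (iqf tpr2452_c)) (BT.Fa_leaf (P := Itm.ok 206) (iqb tpr1255_c))) (BT.Fa_leaf (P := Itm.ok 206) (iqb tpr1006_c))) (BT.Fa_mk (BT.Fa_mk (BT.Fa_leaf (P := Itm.ok 206) (iqf tpr655_c)) (BT.Fa_leaf (P := Itm.ok 206) (iqf tpr27_c))) (BT.Fa_leaf (P := Itm.ok 206) (iqb tpr501_c)))))) (BT.Fa_mk (BT.Fa_mk (BT.Fa_mk (BT.Fa_mk (BT.Fa_mk (BT.Fa_leaf (P := Itm.ok 206) (iqb tpr1005_c)) (BT.Fa_leaf (P := Itm.ok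 206) (iqf tpr594_c))) (BT.Fa_mk (BT.Fa_leaf (P := Itm.ok 206) (iqf tpr210_c)) (BT.Fa_leaf (P := Itm.ok 206) (iqb tpr734_c)))) (BT.Fa_mk (BT.Fa_mk (BT.Fa_leaf (P := Itm.ok 206) (iqb tpr740_c)) (BT.Fa_leaf (P := Itm.ok 206) (iqb tpr718_c))) (BT.Fa_leaf (P := Itm.ok 206) (iqf tpr687_c)))) (BT.Fa_mk (BT.Fa_mk (BT.Fa_mk (BT.Fa_leaf (P := Itm.ok 206) (iqf tpr1288_c)) (BT.Fa_leaf (P := Itm.ok 206) (iqf tpr742_c))) (BT.Fa_leaf (P := Itm.ok 206) (iqf tpr2454_c))) (BT.Fa_mk (BT.Fa_mk (BT.Fa_leaf (P := Itm.ok 206) (iqb tpr552_c)) (BT.Fa_leaf (P := Itm.ok 206) (iqf tpr2458_c))) (BT.Fa_leaf (P := Itm.ok 206) (iqf tpr1825_c))))) (BT.Fa_mk (BT.Fa_mk (BT.Fa_mk (BT.Fa_mk (BT.Fa_leaf (P := Itm.ok 206) (iqf tpr522_c)) (BT.Fa_leaf (P := Itm.ok 206) (iqb tpr1065_c)))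 (BT.Fa_leaf (P := Itm.ok 206) (iqb tpr2937_c))) (BT.Fa_mk (BT.Fa_mk (BT.Fa_leaf (P := Itm.ok 206) (iqb tpr1801_c)) (BT.Fa_leaf (P := Itm.ok 206) (iqf tpr2459_c))) (BT.Fa_leaf (P := Itm.ok 206) (iqb tpr247_c)))) (BT.Fa_mk (BT.Fa_mk (BT.Fa_mk (BT.Fa_leaf (P := Itm.ok 206) (iqf tpr2453_c)) (BT.Fa_leaf (P := Itm.ok 206) (iqb tpr684_c))) (BT.Fa_leaf (P := Itm.ok 206) (iqf tpr1199_c))) (BT.Fa_mk (BT.Fa_mk (BT.Fa_leaf (P := Itm.ok 206) (iqb tpr2460_c)) (BT.Fa_leaf (P := Itm.ok 206) (iqb tpr1805_c))) (BT.Fa_leaf (P := Itm.ok 206) (iqb tpr1247_c))))))))))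

/-- all words of the class have labels -/
theorem pokNFzByAzE2A3H2ByAzIzAyB2H3A2EzF : POK 206 xNFzByAzE2A3H2ByAzIzAyB2H3A2EzF :=
  y_pok (C0 := ceNFzByAzE2A3H2ByAzIzAyB2H3A2EzF) (C1 := coNFzByAzE2A3H2ByAzIzAyB2H3A2EzF) topNFzByAzE2A3H2ByAzIzAyB2H3A2EzF nbNFzByAzE2A3H2ByAzIzAyB2H3A2EzF (BT.Fa_of_all iiNFzByAzE2A3H2ByAzIzAyB2H3A2EzF_c)
    (BT.Fa_mk (BT.Fa_mk (BT.Fa_mk (cyE_spec zeNFzByAzE2A3H2ByAzIzAyB2H3A2EzF_0) (cyE_spec zeNFzByAzE2A3H2ByAzIzAyB2H3A2EzF_1)) (BT.Fa_mk (cyE_spec zeNFzByAzE2A3H2ByAzIzAyB2H3A2EzF_2) (BT.Fa_mk (cyE_spec zeNFzByAzE2A3H2ByAzIzAyB2H3A2EzF_3) (cyE_spec zeNFzByAzE2A3H2ByAzIzAyB2H3A2EzF_4)))) (BT.Fa_mk (BT.Fa_mk (BT.Fa_mk (BT.Fa_mk (cyE_spec zeNFzByAzE2A3H2ByAzIzAyB2H3A2EzF_5) (cyE_spec zeNFzByAzE2A3H2ByAzIzAyB2H3A2EzF_6))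 (BT.Fa_mk (cyE_spec zeNFzByAzE2A3H2ByAzIzAyB2H3A2EzF_7) (cyE_spec zeNFzByAzE2A3H2ByAzIzAyB2H3A2EzF_8))) (BT.Fa_mk (BT.Fa_mk (cyE_spec zeNFzByAzE2A3H2ByAzIzAyB2H3A2EzF_9) (cyE_spec zeNFzByAzE2A3H2ByAzIzAyB2H3A2EzF_10)) (BT.Fa_mk (cyE_spec zeNFzByAzE2A3H2ByAzIzAyB2H3A2EzF_11) (cyE_spec zeNFzByAzE2A3H2ByAzIzAyB2H3A2EzF_12)))) (BT.Fa_mk (BT.Fa_mk (BT.Fa_mk (cyE_spec zeNFzByAzE2A3H2ByAzIzAyB2H3A2EzF_13) (cyE_spec zeNFzByAzE2A3H2ByAzIzAyB2H3A2EzF_14)) (cyE_spec zeNFzByAzE2A3H2ByAzIzAyB2H3A2EzF_15)) (BT.Fa_mk (cyE_spec zeNFzByAzE2A3H2ByAzIzAyB2H3A2EzF_16) (cyE_spec zeNFzByAzE2A3H2ByAzIzAyB2H3A2EzF_17)))))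
    (BT.Fa_mk (BT.Fa_mk (BT.Fa_mk (cyO_spec zoNFzByAzE2A3H2ByAzIzAyB2H3A2EzF_0) (cyO_spec zoNFzByAzE2A3H2ByAzIzAyB2H3A2EzF_1)) (BT.Fa_mk (cyO_spec zoNFzByAzE2A3H2ByAzIzAyB2H3A2EzF_2) (BT.Fa_mk (cyO_spec zoNFzByAzE2A3H2ByAzIzAyB2H3A2EzF_3) (cyO_spec zoNFzByAzE2A3H2ByAzIzAyB2H3A2EzF_4)))) (BT.Fa_mk (BT.Fa_mk (BT.Fa_mk (BT.Fa_mk (cyO_spec zoNFzByAzE2A3H2ByAzIzAyB2H3A2EzF_5) (cyO_spec zoNFzByAzE2A3H2ByAzIzAyB2H3A2EzF_6)) (BT.Fa_mk (cyO_spec zoNFzByAzE2A3H2ByAzIzAyB2H3A2EzF_7) (BT.Fa_mk (cyO_spec zoNFzByAzE2A3H2ByAzIzAyB2H3A2EzF_8) (cyO_spec zoNFzByAzE2A3H2ByAzIzAyB2H3A2EzF_9)))) (BT.Fa_mk (BT.Fa_mk (cyO_spec zoNFzByAzE2A3H2ByAzIzAyB2H3A2EzF_10) (cyO_spec zoNFzByAzE2A3H2ByAzIzAyB2H3A2EzF_11)) (cyO_spec zoNFzByAzE2A3H2ByAzIzAyB2H3A2EzF_12))) (BT.Fa_mk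 (BT.Fa_mk (BT.Fa_mk (cyO_spec zoNFzByAzE2A3H2ByAzIzAyB2H3A2EzF_13) (cyO_spec zoNFzByAzE2A3H2ByAzIzAyB2H3A2EzF_14)) (BT.Fa_mk (cyO_spec zoNFzByAzE2A3H2ByAzIzAyB2H3A2EzF_15) (cyO_spec zoNFzByAzE2A3H2ByAzIzAyB2H3A2EzF_16))) (BT.Fa_mk (BT.Fa_mk (cyO_spec zoNFzByAzE2A3H2ByAzIzAyB2H3A2EzF_17) (cyO_spec zoNFzByAzE2A3H2ByAzIzAyB2H3A2EzF_18)) (cyO_spec zoNFzByAzE2A3H2ByAzIzAyB2H3A2EzF_19)))))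
    iiNFzByAzE2A3H2ByAzIzAyB2H3A2EzF_k

theorem iiNFzE2A3A2AzIzA2H3AyB2EzF_k : iiNFzE2A3A2AzIzA2H3AyB2EzF.Fa (Itm.ok 206) := (BT.Fa_mk (BT.Fa_mk (BT.Fa_mk (BT.Fa_mk (BT.Fa_mk (BT.Fa_mk (BT.Fa_mk (BT.Fa_leaf (P := Itm.ok 206) (iqb tpr5_c)) (BT.Fa_leaf (P := Itm.ok 206) (iqb tpr500_c))) (BT.Fa_leaf (P := Itm.ok 206) (iqb tpr9_c))) (BT.Fa_mk (BT.Fa_leaf (P := Itm.ok 206) (iqb tpr706_c)) (BT.Fa_leaf (P := Itm.ok 206) (iqb tpr1137_c)))) (BT.Fa_mk (BT.Fa_mk (BT.Fa_mk (BT.Fa_leaf (P := Itm.ok 206) (iqb tpr499_c)) (BT.Fa_leaf (P := Itm.ok 206) (iqb tpr1732_c))) (BT.Fa_leaf (P := Itm.ok 206) (iqb tpr314_c))) (BT.Fa_mk (BT.Fa_leaf (P := Itm.ok 206) (iqb tpr48_c)) (BT.Fa_leaf (P := Itm.ok 206) (iqf tpr571_c))))) (BT.Fa_mk (BT.Fa_mk (BT.Fa_mk (BT.Fa_mk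 (BT.Fa_leaf (P := Itm.ok 206) (iqb tpr82_c)) (BT.Fa_leaf (P := Itm.ok 206) (iqf tpr23_c))) (BT.Fa_leaf (P := Itm.ok 206) (iqb tpr1028_c))) (BT.Fa_mk (BT.Fa_leaf (P := Itm.ok 206) (iqb tpr642_c)) (BT.Fa_leaf (P := Itm.ok 206) (iqf tpr768_c)))) (BT.Fa_mk (BT.Fa_mk (BT.Fa_mk (BT.Fa_leaf (P := Itm.ok 206) (iqb tpr453_c)) (BT.Fa_leaf (P := Itm.ok 206) (iqb tpr625_c))) (BT.Fa_leaf (P := Itm.ok 206) (iqb tpr10_c))) (BT.Fa_mk (BT.Fa_leaf (P := Itm.ok 206) (iqf tpr500_c)) (BT.Fa_leaf (P := Itm.ok 206) (iqf tpr789_c)))))) (BT.Fa_mk (BT.Fa_mk (BT.Fa_mk (BT.Fa_mk (BT.Fa_mk (BT.Fa_leaf (P := Itm.ok 206) (iqf tpr505_c)) (BT.Fa_leaf (P := Itm.ok 206) (iqb tpr516_c))) (BT.Fa_leaf (P := Itm.ok 206) (iqf tpr54_c))) (BT.Fa_mk (BT.Fa_leaf (P := Itm.ok 206) (iqf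 tpr167_c)) (BT.Fa_leaf (P := Itm.ok 206) (iqf tpr78_c)))) (BT.Fa_mk (BT.Fa_mk (BT.Fa_mk (BT.Fa_leaf (P := Itm.ok 206) (iqb tpr74_c)) (BT.Fa_leaf (P := Itm.ok 206) (iqb tpr16_c))) (BT.Fa_leaf (P := Itm.ok 206) (iqb tpr57_c))) (BT.Fa_mk (BT.Fa_leaf (P := Itm.ok 206) (iqb tpr20_c)) (BT.Fa_leaf (P := Itm.ok 206) (iqf tpr216_c))))) (BT.Fa_mk (BT.Fa_mk (BT.Fa_mk (BT.Fa_mk (BT.Fa_leaf (P := Itm.ok 206) (iqf tpr2662_c)) (BT.Fa_leaf (P := Itm.ok 206) (iqf tpr504_c))) (BT.Fa_leaf (P := Itm.ok 206) (iqb tpr103_c))) (BT.Fa_mk (BT.Fa_leaf (P := Itm.ok 206) (iqb tpr474_c)) (BT.Fa_leaf (P := Itm.ok 206) (iqf tpr511_c)))) (BT.Fa_mk (BT.Fa_mk (BT.Fa_leaf (P := Itm.ok 206) (iqb tpr344_c)) (BT.Fa_leaf (P := Itm.ok 206) (iqb tpr505_c))) (BT.Fa_mk (BT.Fa_leaf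 (P := Itm.ok 206) (iqf tpr740_c)) (BT.Fa_leaf (P := Itm.ok 206) (iqf tpr2053_c))))))) (BT.Fa_mk (BT.Fa_mk (BT.Fa_mk (BT.Fa_mk (BT.Fa_mk (BT.Fa_mk (BT.Fa_leaf (P := Itm.ok 206) (iqf tpr2663_c)) (BT.Fa_leaf (P := Itm.ok 206) (iqf tpr8_c))) (BT.Fa_leaf (P := Itm.ok 206) (iqb tpr1023_c))) (BT.Fa_mk (BT.Fa_leaf (P := Itm.ok 206) (iqf tpr507_c)) (BT.Fa_leaf (P := Itm.ok 206) (iqf tpr519_c)))) (BT.Fa_mk (BT.Fa_mk (BT.Fa_mk (BT.Fa_leaf (P := Itm.ok 206) (iqb tpr520_c)) (BT.Fa_leaf (P := Itm.ok 206) (iqb tpr17_c))) (BT.Fa_leaf (P := Itm.ok 206) (iqf tpr22_c))) (BT.Fa_mk (BT.Fa_leaf (P := Itm.ok 206) (iqb tpr501_c)) (BT.Fa_leaf (P := Itm.ok 206) (iqb tpr1736_c))))) (BT.Fa_mk (BT.Fa_mk (BT.Fa_mk (BT.Fa_mk (BT.Fa_leaf (P := Itm.ok 206) (iqb tpr626_c))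 (BT.Fa_leaf (P := Itm.ok 206) (iqb tpr695_c))) (BT.Fa_leaf (P := Itm.ok 206) (iqb tpr323_c))) (BT.Fa_mk (BT.Fa_leaf (P := Itm.ok 206) (iqb tpr1747_c)) (BT.Fa_leaf (P := Itm.ok 206) (iqb tpr555_c)))) (BT.Fa_mk (BT.Fa_mk (BT.Fa_leaf (P := Itm.ok 206) (iqf tpr960_c)) (BT.Fa_leaf (P := Itm.ok 206) (iqb tpr609_c))) (BT.Fa_mk (BT.Fa_leaf (P := Itm.ok 206) (iqf tpr48_c)) (BT.Fa_leaf (P := Itm.ok 206) (iqb tpr1090_c)))))) (BT.Fa_mk (BT.Fa_mk (BT.Fa_mk (BT.Fa_mk (BT.Fa_mk (BT.Fa_leaf (P := Itm.ok 206) (iqb tpr1031_c)) (BT.Fa_leaf (P := Itm.ok 206) (iqb tpr658_c))) (BT.Fa_leaf (P := Itm.ok 206) (iqb tpr1126_c))) (BT.Fa_mk (BT.Fa_leaf (P := Itm.ok 206) (iqb tpr210_c)) (BT.Fa_leaf (P := Itm.ok 206) (iqb tpr562_c)))) (BT.Fa_mk (BT.Fa_mk (BT.Fa_mk (BT.Fa_leaf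 (P := Itm.ok 206) (iqf tpr589_c)) (BT.Fa_leaf (P := Itm.ok 206) (iqb tpr573_c))) (BT.Fa_leaf (P := Itm.ok 206) (iqf tpr812_c))) (BT.Fa_mk (BT.Fa_leaf (P := Itm.ok 206) (iqf tpr969_c)) (BT.Fa_leaf (P := Itm.ok 206) (iqb tpr640_c))))) (BT.Fa_mk (BT.Fa_mk (BT.Fa_mk (BT.Fa_mk (BT.Fa_leaf (P := Itm.ok 206) (iqf tpr1789_c)) (BT.Fa_leaf (P := Itm.ok 206) (iqf tpr499_c))) (BT.Fa_leaf (P := Itm.ok 206) (iqf tpr625_c))) (BT.Fa_mk (BT.Fa_leaf (P := Itm.ok 206) (iqf tpr579_c)) (BT.Fa_leaf (P := Itm.ok 206) (iqb tpr1173_c)))) (BT.Fa_mk (BT.Fa_mk (BT.Fa_leaf (P := Itm.ok 206) (iqb tpr203_c)) (BT.Fa_leaf (P := Itm.ok 206) (iqb tpr587_c))) (BT.Fa_mk (BT.Fa_leaf (P := Itm.ok 206) (iqf tpr748_c)) (BT.Fa_leaf (P := Itm.ok 206) (iqb tpr631_c))))))))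

/-- all words of the class have labels -/
theorem pokNFzE2A3A2AzIzA2H3AyB2EzF : POK 206 xNFzE2A3A2AzIzA2H3AyB2EzF :=
  y_pok (C0 := ceNFzE2A3A2AzIzA2H3AyB2EzF) (C1 := coNFzE2A3A2AzIzA2H3AyB2EzF) topNFzE2A3A2AzIzA2H3AyB2EzF nbNFzE2A3A2AzIzA2H3AyB2EzF (BT.Fa_of_all iiNFzE2A3A2AzIzA2H3AyB2EzF_c)
    (cyE_spec zeNFzE2A3A2AzIzA2H3AyB2EzF_0)
    (cyO_spec zoNFzE2A3A2AzIzA2H3AyB2EzF_0)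
    iiNFzE2A3A2AzIzA2H3AyB2EzF_k

theorem iiNFzE2A3H2AzA2H3A2EzF_k : iiNFzE2A3H2AzA2H3A2EzF.Fa (Itm.ok 206) := (BT.Fa_mk (BT.Fa_mk (BT.Fa_mk (BT.Fa_mk (BT.Fa_mk (BT.Fa_mk (BT.Fa_mk (BT.Fa_mk (BT.Fa_mk (BT.Fa_leaf (P := Itm.ok 206) (iqf tpr5_c)) (BT.Fa_leaf (P := Itm.ok 206) (iqb tpr9_c))) (BT.Fa_leaf (P := Itm.ok 206) (iqb tpr48_c))) (BT.Fa_mk (BT.Fa_mk (BT.Fa_leaf (P := Itm.ok 206) (iqb tpr499_c)) (BT.Fa_leaf (P := Itm.ok 206) (iqb tpr500_c))) (BT.Fa_leaf (P := Itm.ok 206) (iqf tpr570_c)))) (BT.Fa_mk (BT.Fa_mk (BT.Fa_mk (BT.Fa_leaf (P := Itm.ok 206) (iqf tpr500_c)) (BT.Fa_leaf (P := Itm.ok 206) (iqb tpr508_c))) (BT.Fa_leaf (P := Itm.ok 206) (iqf tpr499_c))) (BT.Fa_mk (BT.Fa_leaf (P := Itm.ok 206) (iqb tpr518_c)) (BT.Fa_leaf (P := Itm.ok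 206) (iqb tpr507_c))))) (BT.Fa_mk (BT.Fa_mk (BT.Fa_mk (BT.Fa_mk (BT.Fa_leaf (P := Itm.ok 206) (iqf tpr419_c)) (BT.Fa_leaf (P := Itm.ok 206) (iqb tpr22_c))) (BT.Fa_leaf (P := Itm.ok 206) (iqf tpr103_c))) (BT.Fa_mk (BT.Fa_mk (BT.Fa_leaf (P := Itm.ok 206) (iqb tpr677_c)) (BT.Fa_leaf (P := Itm.ok 206) (iqb tpr222_c))) (BT.Fa_leaf (P := Itm.ok 206) (iqb tpr935_c)))) (BT.Fa_mk (BT.Fa_mk (BT.Fa_mk (BT.Fa_leaf (P := Itm.ok 206) (iqf tpr555_c)) (BT.Fa_leaf (P := Itm.ok 206) (iqf tpr944_c))) (BT.Fa_leaf (P := Itm.ok 206) (iqf tpr931_c))) (BT.Fa_mk (BT.Fa_leaf (P := Itm.ok 206) (iqb tpr607_c)) (BT.Fa_leaf (P := Itm.ok 206) (iqb tpr504_c)))))) (BT.Fa_mk (BT.Fa_mk (BT.Fa_mk (BT.Fa_mk (BT.Fa_mk (BT.Fa_leaf (P := Itm.ok 206) (iqb tpr513_c)) (BT.Fa_leaf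 (P := Itm.ok 206) (iqb tpr969_c))) (BT.Fa_leaf (P := Itm.ok 206) (iqf tpr167_c))) (BT.Fa_mk (BT.Fa_mk (BT.Fa_leaf (P := Itm.ok 206) (iqb tpr501_c)) (BT.Fa_leaf (P := Itm.ok 206) (iqb tpr572_c))) (BT.Fa_leaf (P := Itm.ok 206) (iqb tpr82_c)))) (BT.Fa_mk (BT.Fa_mk (BT.Fa_mk (BT.Fa_leaf (P := Itm.ok 206) (iqb tpr247_c)) (BT.Fa_leaf (P := Itm.ok 206) (iqb tpr540_c))) (BT.Fa_leaf (P := Itm.ok 206) (iqb tpr944_c))) (BT.Fa_mk (BT.Fa_leaf (P := Itm.ok 206) (iqb tpr505_c)) (BT.Fa_leaf (P := Itm.ok 206) (iqb tpr581_c))))) (BT.Fa_mk (BT.Fa_mk (BT.Fa_mk (BT.Fa_mk (BT.Fa_leaf (P := Itm.ok 206) (iqf tpr949_c)) (BT.Fa_leaf (P := Itm.ok 206) (iqf tpr10_c))) (BT.Fa_leaf (P := Itm.ok 206) (iqf tpr239_c))) (BT.Fa_mk (BT.Fa_leaf (P := Itm.ok 206) (iqf tpr16_c))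 (BT.Fa_leaf (P := Itm.ok 206) (iqb tpr78_c)))) (BT.Fa_mk (BT.Fa_mk (BT.Fa_mk (BT.Fa_leaf (P := Itm.ok 206) (iqb tpr81_c)) (BT.Fa_leaf (P := Itm.ok 206) (iqb tpr87_c))) (BT.Fa_leaf (P := Itm.ok 206) (iqb tpr953_c))) (BT.Fa_mk (BT.Fa_leaf (P := Itm.ok 206) (iqf tpr609_c)) (BT.Fa_leaf (P := Itm.ok 206) (iqf tpr236_c))))))) (BT.Fa_mk (BT.Fa_mk (BT.Fa_mk (BT.Fa_mk (BT.Fa_mk (BT.Fa_mk (BT.Fa_leaf (P := Itm.ok 206) (iqf tpr606_c)) (BT.Fa_leaf (P := Itm.ok 206) (iqf tpr547_c))) (BT.Fa_leaf (P := Itm.ok 206) (iqf tpr967_c))) (BT.Fa_mk (BT.Fa_mk (BT.Fa_leaf (P := Itm.ok 206) (iqf tpr17_c)) (BT.Fa_leaf (P := Itm.ok 206) (iqb tpr530_c))) (BT.Fa_leaf (P := Itm.ok 206) (iqf tpr540_c)))) (BT.Fa_mk (BT.Fa_mk (BT.Fa_mk (BT.Fa_leaf (P := Itm.ok 206) (iqb tpr577_c))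 (BT.Fa_leaf (P := Itm.ok 206) (iqf tpr82_c))) (BT.Fa_leaf (P := Itm.ok 206) (iqb tpr519_c))) (BT.Fa_mk (BT.Fa_leaf (P := Itm.ok 206) (iqb tpr511_c)) (BT.Fa_leaf (P := Itm.ok 206) (iqf tpr106_c))))) (BT.Fa_mk (BT.Fa_mk (BT.Fa_mk (BT.Fa_mk (BT.Fa_leaf (P := Itm.ok 206) (iqf tpr48_c)) (BT.Fa_leaf (P := Itm.ok 206) (iqf tpr515_c))) (BT.Fa_leaf (P := Itm.ok 206) (iqf tpr645_c))) (BT.Fa_mk (BT.Fa_leaf (P := Itm.ok 206) (iqb tpr609_c)) (BT.Fa_leaf (P := Itm.ok 206) (iqf tpr582_c)))) (BT.Fa_mk (BT.Fa_mk (BT.Fa_mk (BT.Fa_leaf (P := Itm.ok 206) (iqb tpr568_c)) (BT.Fa_leaf (P := Itm.ok 206) (iqb tpr611_c))) (BT.Fa_leaf (P := Itm.ok 206) (iqb tpr554_c))) (BT.Fa_mk (BT.Fa_leaf (P := Itm.ok 206) (iqf tpr679_c)) (BT.Fa_leaf (P := Itm.ok 206) (iqb tpr544_c))))))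 (BT.Fa_mk (BT.Fa_mk (BT.Fa_mk (BT.Fa_mk (BT.Fa_mk (BT.Fa_leaf (P := Itm.ok 206) (iqb tpr517_c)) (BT.Fa_leaf (P := Itm.ok 206) (iqf tpr95_c))) (BT.Fa_leaf (P := Itm.ok 206) (iqf tpr61_c))) (BT.Fa_mk (BT.Fa_mk (BT.Fa_leaf (P := Itm.ok 206) (iqb tpr768_c)) (BT.Fa_leaf (P := Itm.ok 206) (iqf tpr525_c))) (BT.Fa_leaf (P := Itm.ok 206) (iqb tpr13_c)))) (BT.Fa_mk (BT.Fa_mk (BT.Fa_mk (BT.Fa_leaf (P := Itm.ok 206) (iqb tpr106_c)) (BT.Fa_leaf (P := Itm.ok 206) (iqf tpr616_c))) (BT.Fa_leaf (P := Itm.ok 206) (iqb tpr516_c))) (BT.Fa_mk (BT.Fa_leaf (P := Itm.ok 206) (iqb tpr17_c)) (BT.Fa_leaf (P := Itm.ok 206) (iqb tpr525_c))))) (BT.Fa_mk (BT.Fa_mk (BT.Fa_mk (BT.Fa_mk (BT.Fa_leaf (P := Itm.ok 206) (iqf tpr625_c)) (BT.Fa_leaf (P := Itm.ok 206) (iqf tpr518_c)))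 (BT.Fa_leaf (P := Itm.ok 206) (iqf tpr536_c))) (BT.Fa_mk (BT.Fa_leaf (P := Itm.ok 206) (iqf tpr573_c)) (BT.Fa_leaf (P := Itm.ok 206) (iqf tpr259_c)))) (BT.Fa_mk (BT.Fa_mk (BT.Fa_mk (BT.Fa_leaf (P := Itm.ok 206) (iqf tpr820_c)) (BT.Fa_leaf (P := Itm.ok 206) (iqf tpr585_c))) (BT.Fa_leaf (P := Itm.ok 206) (iqb tpr606_c))) (BT.Fa_mk (BT.Fa_leaf (P := Itm.ok 206) (iqb tpr545_c)) (BT.Fa_leaf (P := Itm.ok 206) (iqf tpr198_c)))))))) (BT.Fa_mk (BT.Fa_mk (BT.Fa_mk (BT.Fa_mk (BT.Fa_mk (BT.Fa_mk (BT.Fa_mk (BT.Fa_leaf (P := Itm.ok 206) (iqb tpr570_c)) (BT.Fa_leaf (P := Itm.ok 206) (iqf tpr945_c))) (BT.Fa_leaf (P := Itm.ok 206) (iqf tpr429_c))) (BT.Fa_mk (BT.Fa_mk (BT.Fa_leaf (P := Itm.ok 206) (iqf tpr623_c)) (BT.Fa_leaf (P := Itm.ok 206) (iqf tpr222_c)))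 (BT.Fa_leaf (P := Itm.ok 206) (iqf tpr107_c)))) (BT.Fa_mk (BT.Fa_mk (BT.Fa_mk (BT.Fa_leaf (P := Itm.ok 206) (iqb tpr429_c)) (BT.Fa_leaf (P := Itm.ok 206) (iqf tpr965_c))) (BT.Fa_leaf (P := Itm.ok 206) (iqb tpr15_c))) (BT.Fa_mk (BT.Fa_leaf (P := Itm.ok 206) (iqb tpr314_c)) (BT.Fa_leaf (P := Itm.ok 206) (iqb tpr323_c))))) (BT.Fa_mk (BT.Fa_mk (BT.Fa_mk (BT.Fa_mk (BT.Fa_leaf (P := Itm.ok 206) (iqb tpr815_c)) (BT.Fa_leaf (P := Itm.ok 206) (iqf tpr814_c))) (BT.Fa_leaf (P := Itm.ok 206) (iqb tpr223_c))) (BT.Fa_mk (BT.Fa_mk (BT.Fa_leaf (P := Itm.ok 206) (iqb tpr582_c)) (BT.Fa_leaf (P := Itm.ok 206) (iqf tpr46_c))) (BT.Fa_leaf (P := Itm.ok 206) (iqb tpr203_c)))) (BT.Fa_mk (BT.Fa_mk (BT.Fa_mk (BT.Fa_leaf (P := Itm.ok 206) (iqb tpr44_c)) (BT.Fa_leaf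 (P := Itm.ok 206) (iqf tpr9_c))) (BT.Fa_leaf (P := Itm.ok 206) (iqb tpr259_c))) (BT.Fa_mk (BT.Fa_leaf (P := Itm.ok 206) (iqb tpr541_c)) (BT.Fa_leaf (P := Itm.ok 206) (iqf tpr532_c)))))) (BT.Fa_mk (BT.Fa_mk (BT.Fa_mk (BT.Fa_mk (BT.Fa_mk (BT.Fa_leaf (P := Itm.ok 206) (iqf tpr516_c)) (BT.Fa_leaf (P := Itm.ok 206) (iqb tpr54_c))) (BT.Fa_leaf (P := Itm.ok 206) (iqf tpr537_c))) (BT.Fa_mk (BT.Fa_mk (BT.Fa_leaf (P := Itm.ok 206) (iqf tpr549_c)) (BT.Fa_leaf (P := Itm.ok 206) (iqf tpr26_c))) (BT.Fa_leaf (P := Itm.ok 206) (iqb tpr566_c)))) (BT.Fa_mk (BT.Fa_mk (BT.Fa_mk (BT.Fa_leaf (P := Itm.ok 206) (iqf tpr474_c)) (BT.Fa_leaf (P := Itm.ok 206) (iqb tpr295_c))) (BT.Fa_leaf (P := Itm.ok 206) (iqb tpr167_c))) (BT.Fa_mk (BT.Fa_leaf (P := Itm.ok 206) (iqf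 tpr562_c)) (BT.Fa_leaf (P := Itm.ok 206) (iqb tpr612_c))))) (BT.Fa_mk (BT.Fa_mk (BT.Fa_mk (BT.Fa_mk (BT.Fa_leaf (P := Itm.ok 206) (iqf tpr74_c)) (BT.Fa_leaf (P := Itm.ok 206) (iqf tpr75_c))) (BT.Fa_leaf (P := Itm.ok 206) (iqf tpr57_c))) (BT.Fa_mk (BT.Fa_leaf (P := Itm.ok 206) (iqb tpr225_c)) (BT.Fa_leaf (P := Itm.ok 206) (iqf tpr344_c)))) (BT.Fa_mk (BT.Fa_mk (BT.Fa_mk (BT.Fa_leaf (P := Itm.ok 206) (iqb tpr558_c)) (BT.Fa_leaf (P := Itm.ok 206) (iqf tpr695_c))) (BT.Fa_leaf (P := Itm.ok 206) (iqf tpr62_c))) (BT.Fa_mk (BT.Fa_leaf (P := Itm.ok 206) (iqb tpr124_c)) (BT.Fa_leaf (P := Itm.ok 206) (iqb tpr561_c))))))) (BT.Fa_mk (BT.Fa_mk (BT.Fa_mk (BT.Fa_mk (BT.Fa_mk (BT.Fa_mk (BT.Fa_leaf (P := Itm.ok 206) (iqf tpr654_c)) (BT.Fa_leaf (P := Itm.ok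 206) (iqb tpr630_c))) (BT.Fa_leaf (P := Itm.ok 206) (iqf tpr502_c))) (BT.Fa_mk (BT.Fa_mk (BT.Fa_leaf (P := Itm.ok 206) (iqb tpr557_c)) (BT.Fa_leaf (P := Itm.ok 206) (iqf tpr576_c))) (BT.Fa_leaf (P := Itm.ok 206) (iqb tpr555_c)))) (BT.Fa_mk (BT.Fa_mk (BT.Fa_mk (BT.Fa_leaf (P := Itm.ok 206) (iqf tpr557_c)) (BT.Fa_leaf (P := Itm.ok 206) (iqb tpr509_c))) (BT.Fa_leaf (P := Itm.ok 206) (iqf tpr812_c))) (BT.Fa_mk (BT.Fa_leaf (P := Itm.ok 206) (iqb tpr562_c)) (BT.Fa_leaf (P := Itm.ok 206) (iqb tpr556_c))))) (BT.Fa_mk (BT.Fa_mk (BT.Fa_mk (BT.Fa_mk (BT.Fa_leaf (P := Itm.ok 206) (iqf tpr803_c)) (BT.Fa_leaf (P := Itm.ok 206) (iqf tpr617_c))) (BT.Fa_leaf (P := Itm.ok 206) (iqb tpr589_c))) (BT.Fa_mk (BT.Fa_leaf (P := Itm.ok 206) (iqf tpr556_c)) (BT.Fa_leaf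 (P := Itm.ok 206) (iqf tpr506_c)))) (BT.Fa_mk (BT.Fa_mk (BT.Fa_mk (BT.Fa_leaf (P := Itm.ok 206) (iqf tpr466_c)) (BT.Fa_leaf (P := Itm.ok 206) (iqf tpr559_c))) (BT.Fa_leaf (P := Itm.ok 206) (iqf tpr579_c))) (BT.Fa_mk (BT.Fa_leaf (P := Itm.ok 206) (iqf tpr782_c)) (BT.Fa_leaf (P := Itm.ok 206) (iqf tpr528_c)))))) (BT.Fa_mk (BT.Fa_mk (BT.Fa_mk (BT.Fa_mk (BT.Fa_mk (BT.Fa_leaf (P := Itm.ok 206) (iqf tpr526_c)) (BT.Fa_leaf (P := Itm.ok 206) (iqf tpr15_c))) (BT.Fa_leaf (P := Itm.ok 206) (iqf tpr682_c))) (BT.Fa_mk (BT.Fa_mk (BT.Fa_leaf (P := Itm.ok 206) (iqb tpr116_c)) (BT.Fa_leaf (P := Itm.ok 206) (iqb tpr133_c))) (BT.Fa_leaf (P := Itm.ok 206) (iqf tpr44_c)))) (BT.Fa_mk (BT.Fa_mk (BT.Fa_mk (BT.Fa_leaf (P := Itm.ok 206) (iqb tpr804_c)) (BT.Fa_leaf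 (P := Itm.ok 206) (iqb tpr526_c))) (BT.Fa_leaf (P := Itm.ok 206) (iqb tpr547_c))) (BT.Fa_mk (BT.Fa_leaf (P := Itm.ok 206) (iqf tpr251_c)) (BT.Fa_leaf (P := Itm.ok 206) (iqb tpr657_c))))) (BT.Fa_mk (BT.Fa_mk (BT.Fa_mk (BT.Fa_mk (BT.Fa_leaf (P := Itm.ok 206) (iqb tpr534_c)) (BT.Fa_leaf (P := Itm.ok 206) (iqf tpr22_c))) (BT.Fa_leaf (P := Itm.ok 206) (iqf tpr542_c))) (BT.Fa_mk (BT.Fa_leaf (P := Itm.ok 206) (iqf tpr586_c)) (BT.Fa_leaf (P := Itm.ok 206) (iqb tpr236_c)))) (BT.Fa_mk (BT.Fa_mk (BT.Fa_mk (BT.Fa_leaf (P := Itm.ok 206) (iqf tpr739_c)) (BT.Fa_leaf (P := Itm.ok 206) (iqf tpr982_c))) (BT.Fa_leaf (P := Itm.ok 206) (iqf tpr644_c))) (BT.Fa_mk (BT.Fa_leaf (P := Itm.ok 206) (iqb tpr506_c)) (BT.Fa_leaf (P := Itm.ok 206) (iqb tpr684_c)))))))))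 (BT.Fa_mk (BT.Fa_mk (BT.Fa_mk (BT.Fa_mk (BT.Fa_mk (BT.Fa_mk (BT.Fa_mk (BT.Fa_mk (BT.Fa_leaf (P := Itm.ok 206) (iqb tpr730_c)) (BT.Fa_leaf (P := Itm.ok 206) (iqf tpr583_c))) (BT.Fa_leaf (P := Itm.ok 206) (iqf tpr972_c))) (BT.Fa_mk (BT.Fa_mk (BT.Fa_leaf (P := Itm.ok 206) (iqf tpr550_c)) (BT.Fa_leaf (P := Itm.ok 206) (iqf tpr503_c))) (BT.Fa_leaf (P := Itm.ok 206) (iqf tpr521_c)))) (BT.Fa_mk (BT.Fa_mk (BT.Fa_mk (BT.Fa_leaf (P := Itm.ok 206) (iqf tpr294_c)) (BT.Fa_leaf (P := Itm.ok 206) (iqf tpr523_c))) (BT.Fa_leaf (P := Itm.ok 206) (iqf tpr957_c))) (BT.Fa_mk (BT.Fa_leaf (P := Itm.ok 206) (iqb tpr8_c)) (BT.Fa_leaf (P := Itm.ok 206) (iqf tpr683_c))))) (BT.Fa_mk (BT.Fa_mk (BT.Fa_mk (BT.Fa_mk (BT.Fa_leaf (P := Itm.ok 206) (iqb tpr678_c)) (BT.Fa_leaf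 (P := Itm.ok 206) (iqf tpr23_c))) (BT.Fa_leaf (P := Itm.ok 206) (iqb tpr588_c))) (BT.Fa_mk (BT.Fa_mk (BT.Fa_leaf (P := Itm.ok 206) (iqf tpr105_c)) (BT.Fa_leaf (P := Itm.ok 206) (iqb tpr63_c))) (BT.Fa_leaf (P := Itm.ok 206) (iqb tpr294_c)))) (BT.Fa_mk (BT.Fa_mk (BT.Fa_mk (BT.Fa_leaf (P := Itm.ok 206) (iqb tpr571_c)) (BT.Fa_leaf (P := Itm.ok 206) (iqf tpr520_c))) (BT.Fa_leaf (P := Itm.ok 206) (iqf tpr544_c))) (BT.Fa_mk (BT.Fa_leaf (P := Itm.ok 206) (iqf tpr514_c)) (BT.Fa_leaf (P := Itm.ok 206) (iqb tpr529_c)))))) (BT.Fa_mk (BT.Fa_mk (BT.Fa_mk (BT.Fa_mk (BT.Fa_mk (BT.Fa_leaf (P := Itm.ok 206) (iqb tpr623_c)) (BT.Fa_leaf (P := Itm.ok 206) (iqb tpr973_c))) (BT.Fa_leaf (P := Itm.ok 206) (iqb tpr531_c))) (BT.Fa_mk (BT.Fa_mk (BT.Fa_leaf (P := Itm.ok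 206) (iqf tpr584_c)) (BT.Fa_leaf (P := Itm.ok 206) (iqb tpr728_c))) (BT.Fa_leaf (P := Itm.ok 206) (iqb tpr579_c)))) (BT.Fa_mk (BT.Fa_mk (BT.Fa_mk (BT.Fa_leaf (P := Itm.ok 206) (iqf tpr247_c)) (BT.Fa_leaf (P := Itm.ok 206) (iqb tpr725_c))) (BT.Fa_leaf (P := Itm.ok 206) (iqb tpr981_c))) (BT.Fa_mk (BT.Fa_leaf (P := Itm.ok 206) (iqb tpr724_c)) (BT.Fa_leaf (P := Itm.ok 206) (iqf tpr589_c))))) (BT.Fa_mk (BT.Fa_mk (BT.Fa_mk (BT.Fa_mk (BT.Fa_leaf (P := Itm.ok 206) (iqf tpr238_c)) (BT.Fa_leaf (P := Itm.ok 206) (iqb tpr596_c))) (BT.Fa_leaf (P := Itm.ok 206) (iqf tpr665_c))) (BT.Fa_mk (BT.Fa_leaf (P := Itm.ok 206) (iqb tpr976_c)) (BT.Fa_leaf (P := Itm.ok 206) (iqb tpr549_c)))) (BT.Fa_mk (BT.Fa_mk (BT.Fa_mk (BT.Fa_leaf (P := Itm.ok 206) (iqf tpr203_c))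 (BT.Fa_leaf (P := Itm.ok 206) (iqb tpr537_c))) (BT.Fa_leaf (P := Itm.ok 206) (iqf tpr605_c))) (BT.Fa_mk (BT.Fa_leaf (P := Itm.ok 206) (iqb tpr239_c)) (BT.Fa_leaf (P := Itm.ok 206) (iqb tpr510_c))))))) (BT.Fa_mk (BT.Fa_mk (BT.Fa_mk (BT.Fa_mk (BT.Fa_mk (BT.Fa_mk (BT.Fa_leaf (P := Itm.ok 206) (iqb tpr705_c)) (BT.Fa_leaf (P := Itm.ok 206) (iqb tpr574_c))) (BT.Fa_leaf (P := Itm.ok 206) (iqb tpr979_c))) (BT.Fa_mk (BT.Fa_mk (BT.Fa_leaf (P := Itm.ok 206) (iqb tpr503_c)) (BT.Fa_leaf (P := Itm.ok 206) (iqf tpr561_c))) (BT.Fa_leaf (P := Itm.ok 206) (iqf tpr558_c)))) (BT.Fa_mk (BT.Fa_mk (BT.Fa_mk (BT.Fa_leaf (P := Itm.ok 206) (iqb tpr39_c)) (BT.Fa_leaf (P := Itm.ok 206) (iqb tpr533_c))) (BT.Fa_leaf (P := Itm.ok 206) (iqb tpr251_c))) (BT.Fa_mk (BT.Fa_leaf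 (P := Itm.ok 206) (iqb tpr20_c)) (BT.Fa_leaf (P := Itm.ok 206) (iqf tpr12_c))))) (BT.Fa_mk (BT.Fa_mk (BT.Fa_mk (BT.Fa_mk (BT.Fa_leaf (P := Itm.ok 206) (iqf tpr508_c)) (BT.Fa_leaf (P := Itm.ok 206) (iqb tpr107_c))) (BT.Fa_leaf (P := Itm.ok 206) (iqf tpr529_c))) (BT.Fa_mk (BT.Fa_leaf (P := Itm.ok 206) (iqb tpr528_c)) (BT.Fa_leaf (P := Itm.ok 206) (iqf tpr317_c)))) (BT.Fa_mk (BT.Fa_mk (BT.Fa_mk (BT.Fa_leaf (P := Itm.ok 206) (iqb tpr57_c)) (BT.Fa_leaf (P := Itm.ok 206) (iqb tpr16_c))) (BT.Fa_leaf (P := Itm.ok 206) (iqb tpr103_c))) (BT.Fa_mk (BT.Fa_leaf (P := Itm.ok 206) (iqf tpr504_c)) (BT.Fa_leaf (P := Itm.ok 206) (iqf tpr505_c)))))) (BT.Fa_mk (BT.Fa_mk (BT.Fa_mk (BT.Fa_mk (BT.Fa_mk (BT.Fa_leaf (P := Itm.ok 206) (iqf tpr78_c)) (BT.Fa_leaf (P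 := Itm.ok 206) (iqf tpr216_c))) (BT.Fa_leaf (P := Itm.ok 206) (iqf tpr81_c))) (BT.Fa_mk (BT.Fa_mk (BT.Fa_leaf (P := Itm.ok 206) (iqf tpr124_c)) (BT.Fa_leaf (P := Itm.ok 206) (iqf tpr87_c))) (BT.Fa_leaf (P := Itm.ok 206) (iqb tpr10_c)))) (BT.Fa_mk (BT.Fa_mk (BT.Fa_mk (BT.Fa_leaf (P := Itm.ok 206) (iqf tpr539_c)) (BT.Fa_leaf (P := Itm.ok 206) (iqf tpr501_c))) (BT.Fa_leaf (P := Itm.ok 206) (iqb tpr26_c))) (BT.Fa_mk (BT.Fa_leaf (P := Itm.ok 206) (iqf tpr545_c)) (BT.Fa_leaf (P := Itm.ok 206) (iqf tpr511_c))))) (BT.Fa_mk (BT.Fa_mk (BT.Fa_mk (BT.Fa_mk (BT.Fa_leaf (P := Itm.ok 206) (iqf tpr509_c)) (BT.Fa_leaf (P := Itm.ok 206) (iqf tpr507_c))) (BT.Fa_leaf (P := Itm.ok 206) (iqf tpr546_c))) (BT.Fa_mk (BT.Fa_leaf (P := Itm.ok 206) (iqf tpr571_c)) (BT.Fa_leaf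 (P := Itm.ok 206) (iqb tpr538_c)))) (BT.Fa_mk (BT.Fa_mk (BT.Fa_mk (BT.Fa_leaf (P := Itm.ok 206) (iqf tpr241_c)) (BT.Fa_leaf (P := Itm.ok 206) (iqb tpr550_c))) (BT.Fa_leaf (P := Itm.ok 206) (iqf tpr517_c))) (BT.Fa_mk (BT.Fa_leaf (P := Itm.ok 206) (iqb tpr548_c)) (BT.Fa_leaf (P := Itm.ok 206) (iqb tpr535_c)))))))) (BT.Fa_mk (BT.Fa_mk (BT.Fa_mk (BT.Fa_mk (BT.Fa_mk (BT.Fa_mk (BT.Fa_mk (BT.Fa_leaf (P := Itm.ok 206) (iqb tpr553_c)) (BT.Fa_leaf (P := Itm.ok 206) (iqf tpr564_c))) (BT.Fa_leaf (P := Itm.ok 206) (iqb tpr539_c))) (BT.Fa_mk (BT.Fa_mk (BT.Fa_leaf (P := Itm.ok 206) (iqb tpr191_c)) (BT.Fa_leaf (P := Itm.ok 206) (iqf tpr510_c))) (BT.Fa_leaf (P := Itm.ok 206) (iqb tpr564_c)))) (BT.Fa_mk (BT.Fa_mk (BT.Fa_mk (BT.Fa_leaf (P := Itm.ok 206) (iqb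 tpr580_c)) (BT.Fa_leaf (P := Itm.ok 206) (iqb tpr573_c))) (BT.Fa_leaf (P := Itm.ok 206) (iqf tpr533_c))) (BT.Fa_mk (BT.Fa_leaf (P := Itm.ok 206) (iqb tpr586_c)) (BT.Fa_leaf (P := Itm.ok 206) (iqf tpr534_c))))) (BT.Fa_mk (BT.Fa_mk (BT.Fa_mk (BT.Fa_mk (BT.Fa_leaf (P := Itm.ok 206) (iqf tpr513_c)) (BT.Fa_leaf (P := Itm.ok 206) (iqf tpr635_c))) (BT.Fa_leaf (P := Itm.ok 206) (iqb tpr543_c))) (BT.Fa_mk (BT.Fa_mk (BT.Fa_leaf (P := Itm.ok 206) (iqb tpr198_c)) (BT.Fa_leaf (P := Itm.ok 206) (iqf tpr8_c))) (BT.Fa_leaf (P := Itm.ok 206) (iqf tpr733_c)))) (BT.Fa_mk (BT.Fa_mk (BT.Fa_mk (BT.Fa_leaf (P := Itm.ok 206) (iqb tpr965_c)) (BT.Fa_leaf (P := Itm.ok 206) (iqf tpr531_c))) (BT.Fa_leaf (P := Itm.ok 206) (iqf tpr92_c))) (BT.Fa_mk (BT.Fa_leaf (P := Itm.ok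 206) (iqb tpr33_c)) (BT.Fa_leaf (P := Itm.ok 206) (iqf tpr694_c)))))) (BT.Fa_mk (BT.Fa_mk (BT.Fa_mk (BT.Fa_mk (BT.Fa_mk (BT.Fa_leaf (P := Itm.ok 206) (iqb tpr975_c)) (BT.Fa_leaf (P := Itm.ok 206) (iqb tpr963_c))) (BT.Fa_leaf (P := Itm.ok 206) (iqb tpr527_c))) (BT.Fa_mk (BT.Fa_mk (BT.Fa_leaf (P := Itm.ok 206) (iqf tpr954_c)) (BT.Fa_leaf (P := Itm.ok 206) (iqf tpr54_c))) (BT.Fa_leaf (P := Itm.ok 206) (iqf tpr265_c)))) (BT.Fa_mk (BT.Fa_mk (BT.Fa_mk (BT.Fa_leaf (P := Itm.ok 206) (iqb tpr997_c)) (BT.Fa_leaf (P := Itm.ok 206) (iqf tpr548_c))) (BT.Fa_leaf (P := Itm.ok 206) (iqf tpr131_c))) (BT.Fa_mk (BT.Fa_leaf (P := Itm.ok 206) (iqf tpr597_c)) (BT.Fa_leaf (P := Itm.ok 206) (iqb tpr97_c))))) (BT.Fa_mk (BT.Fa_mk (BT.Fa_mk (BT.Fa_mk (BT.Fa_leaf (P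 := Itm.ok 206) (iqb tpr812_c)) (BT.Fa_leaf (P := Itm.ok 206) (iqb tpr51_c))) (BT.Fa_leaf (P := Itm.ok 206) (iqf tpr551_c))) (BT.Fa_mk (BT.Fa_leaf (P := Itm.ok 206) (iqf tpr680_c)) (BT.Fa_leaf (P := Itm.ok 206) (iqb tpr292_c)))) (BT.Fa_mk (BT.Fa_mk (BT.Fa_mk (BT.Fa_leaf (P := Itm.ok 206) (iqf tpr613_c)) (BT.Fa_leaf (P := Itm.ok 206) (iqb tpr629_c))) (BT.Fa_leaf (P := Itm.ok 206) (iqb tpr999_c))) (BT.Fa_mk (BT.Fa_leaf (P := Itm.ok 206) (iqf tpr295_c)) (BT.Fa_leaf (P := Itm.ok 206) (iqb tpr950_c))))))) (BT.Fa_mk (BT.Fa_mk (BT.Fa_mk (BT.Fa_mk (BT.Fa_mk (BT.Fa_mk (BT.Fa_leaf (P := Itm.ok 206) (iqf tpr553_c)) (BT.Fa_leaf (P := Itm.ok 206) (iqf tpr620_c))) (BT.Fa_leaf (P := Itm.ok 206) (iqf tpr568_c))) (BT.Fa_mk (BT.Fa_mk (BT.Fa_leaf (P := Itm.ok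 206) (iqf tpr655_c)) (BT.Fa_leaf (P := Itm.ok 206) (iqf tpr742_c))) (BT.Fa_leaf (P := Itm.ok 206) (iqf tpr948_c)))) (BT.Fa_mk (BT.Fa_mk (BT.Fa_mk (BT.Fa_leaf (P := Itm.ok 206) (iqb tpr583_c)) (BT.Fa_leaf (P := Itm.ok 206) (iqb tpr972_c))) (BT.Fa_leaf (P := Itm.ok 206) (iqf tpr641_c))) (BT.Fa_mk (BT.Fa_leaf (P := Itm.ok 206) (iqb tpr813_c)) (BT.Fa_leaf (P := Itm.ok 206) (iqf tpr994_c))))) (BT.Fa_mk (BT.Fa_mk (BT.Fa_mk (BT.Fa_mk (BT.Fa_leaf (P := Itm.ok 206) (iqb tpr188_c)) (BT.Fa_leaf (P := Itm.ok 206) (iqb tpr615_c))) (BT.Fa_leaf (P := Itm.ok 206) (iqb tpr122_c))) (BT.Fa_mk (BT.Fa_leaf (P := Itm.ok 206) (iqb tpr238_c)) (BT.Fa_leaf (P := Itm.ok 206) (iqf tpr961_c)))) (BT.Fa_mk (BT.Fa_mk (BT.Fa_mk (BT.Fa_leaf (P := Itm.ok 206) (iqb tpr995_c))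 (BT.Fa_leaf (P := Itm.ok 206) (iqb tpr578_c))) (BT.Fa_leaf (P := Itm.ok 206) (iqb tpr293_c))) (BT.Fa_mk (BT.Fa_leaf (P := Itm.ok 206) (iqb tpr782_c)) (BT.Fa_leaf (P := Itm.ok 206) (iqf tpr186_c)))))) (BT.Fa_mk (BT.Fa_mk (BT.Fa_mk (BT.Fa_mk (BT.Fa_mk (BT.Fa_leaf (P := Itm.ok 206) (iqb tpr489_c)) (BT.Fa_leaf (P := Itm.ok 206) (iqb tpr1001_c))) (BT.Fa_leaf (P := Itm.ok 206) (iqf tpr522_c))) (BT.Fa_mk (BT.Fa_mk (BT.Fa_leaf (P := Itm.ok 206) (iqf tpr457_c)) (BT.Fa_leaf (P := Itm.ok 206) (iqb tpr964_c))) (BT.Fa_leaf (P := Itm.ok 206) (iqf tpr68_c)))) (BT.Fa_mk (BT.Fa_mk (BT.Fa_mk (BT.Fa_leaf (P := Itm.ok 206) (iqb tpr627_c)) (BT.Fa_leaf (P := Itm.ok 206) (iqf tpr20_c))) (BT.Fa_leaf (P := Itm.ok 206) (iqb tpr734_c))) (BT.Fa_mk (BT.Fa_leaf (P :=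 Itm.ok 206) (iqb tpr637_c)) (BT.Fa_leaf (P := Itm.ok 206) (iqf tpr334_c))))) (BT.Fa_mk (BT.Fa_mk (BT.Fa_mk (BT.Fa_mk (BT.Fa_leaf (P := Itm.ok 206) (iqb tpr592_c)) (BT.Fa_leaf (P := Itm.ok 206) (iqf tpr690_c))) (BT.Fa_leaf (P := Itm.ok 206) (iqb tpr324_c))) (BT.Fa_mk (BT.Fa_leaf (P := Itm.ok 206) (iqb tpr218_c)) (BT.Fa_leaf (P := Itm.ok 206) (iqf tpr596_c)))) (BT.Fa_mk (BT.Fa_mk (BT.Fa_mk (BT.Fa_leaf (P := Itm.ok 206) (iqf tpr578_c)) (BT.Fa_leaf (P := Itm.ok 206) (iqf tpr947_c))) (BT.Fa_leaf (P := Itm.ok 206) (iqf tpr339_c))) (BT.Fa_mk (BT.Fa_leaf (P := Itm.ok 206) (iqf tpr527_c)) (BT.Fa_leaf (P := Itm.ok 206) (iqf tpr874_c))))))))))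

/-- all words of the class have labels -/
theorem pokNFzE2A3H2AzA2H3A2EzF : POK 206 xNFzE2A3H2AzA2H3A2EzF :=
  y_pok (C0 := ceNFzE2A3H2AzA2H3A2EzF) (C1 := coNFzE2A3H2AzA2H3A2EzF) topNFzE2A3H2AzA2H3A2EzF nbNFzE2A3H2AzA2H3A2EzF (BT.Fa_of_all iiNFzE2A3H2AzA2H3A2EzF_c)
    (BT.Fa_mk (BT.Fa_mk (cyE_spec zeNFzE2A3H2AzA2H3A2EzF_0) (BT.Fa_mk (cyE_spec zeNFzE2A3H2AzA2H3A2EzF_1) (cyE_spec zeNFzE2A3H2AzA2H3A2EzF_2))) (BT.Fa_mk (BT.Fa_mk (cyE_spec zeNFzE2A3H2AzA2H3A2EzF_3) (cyE_spec zeNFzE2A3H2AzA2H3A2EzF_4)) (BT.Fa_mk (BT.Fa_mk (cyE_spec zeNFzE2A3H2AzA2H3A2EzF_5) (cyE_spec zeNFzE2A3H2AzA2H3A2EzF_6)) (cyE_spec zeNFzE2A3H2AzA2H3A2EzF_7))))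
    (BT.Fa_mk (BT.Fa_mk (cyO_spec zoNFzE2A3H2AzA2H3A2EzF_0) (cyO_spec zoNFzE2A3H2AzA2H3A2EzF_1)) (BT.Fa_mk (BT.Fa_mk (cyO_spec zoNFzE2A3H2AzA2H3A2EzF_2) (cyO_spec zoNFzE2A3H2AzA2H3A2EzF_3)) (BT.Fa_mk (BT.Fa_mk (cyO_spec zoNFzE2A3H2AzA2H3A2EzF_4) (cyO_spec zoNFzE2A3H2AzA2H3A2EzF_5)) (cyO_spec zoNFzE2A3H2AzA2H3A2EzF_6))))
    iiNFzE2A3H2AzA2H3A2EzF_k


end MPb6R
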