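import Pool.Agent.Lib.MP_b6d339_lc.Cw3.YFzE2A3H2ByAzIzA2H3A2EzF
import Pool.Agent.Lib.MP_b6d339_lc.Cw3.XL
import Pool.Agent.Lib.MP_b6d339_lc.Cw3.T0
import Pool.Agent.Lib.MP_b6d339_lc.Cw3.T1
import Pool.Agent.Lib.MP_b6d339_lc.Cw3.T10
import Pool.Agent.Lib.MP_b6d339_lc.Cw3.T11
import Pool.Agent.Lib.MP_b6d339_lc.Cw3.T12
import Pool.Agent.Lib.MP_b6d339_lc.Cw3.T13
import Pool.Agent.Lib.MP_b6d339_lc.Cw3.T14
import Pool.Agent.Lib.MP_b6d339_lc.Cw3.T15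
import Pool.Agent.Lib.MP_b6d339_lc.Cw3.T16
import Pool.Agent.Lib.MP_b6d339_lc.Cw3.T19
import Pool.Agent.Lib.MP_b6d339_lc.Cw3.T2
import Pool.Agent.Lib.MP_b6d339_lc.Cw3.T20
import Pool.Agent.Lib.MP_b6d339_lc.Cw3.T21
import Pool.Agent.Lib.MP_b6d339_lc.Cw3.T22
import Pool.Agent.Lib.MP_b6d339_lc.Cw3.T23
import Pool.Agent.Lib.MP_b6d339_lc.Cw3.T24
import Pool.Agent.Lib.MP_b6d339_lc.Cw3.T25
import Pool.Agent.Lib.MP_b6d339_lc.Cw3.T3
import Pool.Agent.Lib.MP_b6d339_lc.Cw3.T36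
import Pool.Agent.Lib.MP_b6d339_lc.Cw3.T4
import Pool.Agent.Lib.MP_b6d339_lc.Cw3.T5
import Pool.Agent.Lib.MP_b6d339_lc.Cw3.T6
import Pool.Agent.Lib.MP_b6d339_lc.Cw3.T7
import Pool.Agent.Lib.MP_b6d339_lc.Cw3.T8
import Pool.Agent.Lib.MP_b6d339_lc.Cw3.T9

/-!
# Erdős 592, three levels: items
-/

namespace MPb6R

open MPb6P

noncomputable def iiNFzE2A3H2ByAzIzA2H3A2EzF : BT Itm := (.node (.node (.node (.node (.node (.node (.node (.node (.node (.leaf (.bwd 0 23 tpr5.df)) (.leaf (.bwd 23 13 tpr500.df))) (.node (.leaf (.fwd 36 31 tpr167.df)) (.leaf (.bwd 67 20 tpr103.df)))) (.node (.node (.leaf (.fwd 87 22 tpr504.df)) (.leaf (.bwd 109 30 tpr26.df))) (.leaf (.bwd 139 17 tpr16.df)))) (.node (.node (.node (.leaf (.bwd 156 25 tpr106.df)) (.leaf (.fwd 181 41 tpr502.df))) (.leaf (.fwd 222 26 tpr234.df))) (.node (.node (.leaf (.fwd 248 27 tpr499.df)) (.leaf (.fwd 275 13 tpr500.df))) (.leaf (.bwd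 288 23 tpr508.df))))) (.node (.node (.node (.node (.leaf (.bwd 311 39 tpr78.df)) (.leaf (.bwd 350 32 tpr17.df))) (.node (.leaf (.fwd 382 37 tpr720.df)) (.leaf (.bwd 419 35 tpr13.df)))) (.node (.node (.leaf (.fwd 454 20 tpr48.df)) (.leaf (.fwd 474 29 tpr22.df))) (.leaf (.bwd 503 33 tpr521.df)))) (.node (.node (.node (.leaf (.fwd 536 17 tpr16.df)) (.leaf (.fwd 553 37 tpr621.df))) (.leaf (.bwd 590 48 tpr77.df))) (.node (.node (.leaf (.bwd 638 31 tpr606.df)) (.leaf (.fwd 669 25 tpr74.df))) (.leaf (.bwd 694 43 tpr122.df)))))) (.node (.node (.node (.node (.node (.leaf (.bwd 737 39 tpr81.df)) (.leaf (.bwd 776 56 tpr87.df))) (.node (.leaf (.fwd 832 24 tpr24.df)) (.leaf (.fwd 856 31 tpr339.df)))) (.node (.node (.leaf (.bwd 887 37 tpr555.df)) (.leaf (.fwd 924 21 tpr474.df))) (.leaf (.fwd 945 30 tpr513.df)))) (.node (.node (.node (.leaf (.bwd 975 35 tpr123.df)) (.leaf (.fwd 1010 25 tpr106.df)))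 (.leaf (.fwd 1035 42 tpr344.df))) (.node (.node (.leaf (.fwd 1077 38 tpr265.df)) (.leaf (.fwd 1115 44 tpr466.df))) (.leaf (.fwd 1159 25 tpr702.df))))) (.node (.node (.node (.node (.leaf (.fwd 1184 25 tpr10.df)) (.leaf (.bwd 1209 29 tpr582.df))) (.leaf (.bwd 1238 37 tpr406.df))) (.node (.node (.leaf (.fwd 1275 38 tpr393.df)) (.leaf (.bwd 1313 20 tpr216.df))) (.leaf (.fwd 1333 24 tpr57.df)))) (.node (.node (.node (.leaf (.bwd 1357 22 tpr118.df)) (.leaf (.fwd 1379 35 tpr58.df))) (.leaf (.bwd 1414 32 tpr736.df))) (.node (.node (.leaf (.bwd 1446 39 tpr1653.df)) (.leaf (.fwd 1485 49 tpr1683.df))) (.leaf (.bwd 1534 30 tpr2000.df))))))) (.node (.node (.node (.node (.node (.node (.leaf (.fwd 1564 27 tpr82.df)) (.leaf (.fwd 1591 23 tpr508.df))) (.node (.leaf (.bwd 1614 15 tpr525.df)) (.leaf (.fwd 1629 18 tpr648.df)))) (.node (.node (.leaf (.bwd 1647 31 tpr167.df)) (.leaf (.bwd 1678 17 tpr215.df)))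 (.leaf (.fwd 1695 28 tpr1715.df)))) (.node (.node (.node (.leaf (.fwd 1723 29 tpr9.df)) (.leaf (.bwd 1752 31 tpr576.df))) (.leaf (.bwd 1783 22 tpr504.df))) (.node (.node (.leaf (.bwd 1805 35 tpr568.df)) (.leaf (.bwd 1840 39 tpr514.df))) (.leaf (.bwd 1879 21 tpr8.df))))) (.node (.node (.node (.node (.leaf (.fwd 1900 28 tpr510.df)) (.leaf (.bwd 1928 37 tpr523.df))) (.leaf (.fwd 1965 38 tpr203.df))) (.node (.node (.leaf (.fwd 2003 46 tpr324.df)) (.leaf (.fwd 2049 22 tpr475.df))) (.leaf (.fwd 2071 41 tpr549.df)))) (.node (.node (.node (.leaf (.bwd 2112 60 tpr630.df)) (.leaf (.fwd 2172 30 tpr537.df))) (.leaf (.fwd 2202 26 tpr516.df))) (.node (.node (.leaf (.fwd 2228 37 tpr583.df)) (.leaf (.fwd 2265 30 tpr26.df))) (.leaf (.fwd 2295 32 tpr518.df)))))) (.node (.node (.node (.node (.node (.leaf (.bwd 2327 42 tpr124.df)) (.leaf (.fwd 2369 37 tpr555.df))) (.node (.leaf (.fwd 2406 61 tpr695.df))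 (.leaf (.bwd 2467 43 tpr565.df)))) (.node (.node (.leaf (.fwd 2510 43 tpr532.df)) (.leaf (.fwd 2553 23 tpr632.df))) (.leaf (.bwd 2576 48 tpr343.df)))) (.node (.node (.node (.leaf (.bwd 2624 43 tpr292.df)) (.leaf (.bwd 2667 32 tpr591.df))) (.leaf (.fwd 2699 25 tpr633.df))) (.node (.node (.leaf (.fwd 2724 39 tpr256.df)) (.leaf (.fwd 2763 31 tpr607.df))) (.leaf (.bwd 2794 46 tpr593.df))))) (.node (.node (.node (.node (.leaf (.bwd 2840 28 tpr507.df)) (.leaf (.fwd 2868 25 tpr457.df))) (.leaf (.fwd 2893 31 tpr315.df))) (.node (.node (.leaf (.fwd 2924 20 tpr103.df)) (.leaf (.bwd 2944 37 tpr503.df))) (.leaf (.fwd 2981 37 tpr503.df)))) (.node (.node (.node (.leaf (.bwd 3018 32 tpr522.df)) (.leaf (.bwd 3050 41 tpr502.df))) (.leaf (.bwd 3091 28 tpr295.df))) (.node (.node (.leaf (.bwd 3119 22 tpr515.df)) (.leaf (.bwd 3141 38 tpr238.df))) (.leaf (.fwd 3179 32 tpr1899.df)))))))) (.node (.node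 (.node (.node (.node (.node (.node (.leaf (.bwd 3211 33 tpr772.df)) (.leaf (.fwd 3244 32 tpr1996.df))) (.node (.leaf (.fwd 3276 28 tpr2942.df)) (.leaf (.fwd 3304 34 tpr2943.df)))) (.node (.node (.leaf (.fwd 3338 24 tpr609.df)) (.leaf (.fwd 3362 31 tpr198.df))) (.leaf (.bwd 3393 34 tpr738.df)))) (.node (.node (.node (.leaf (.fwd 3427 46 tpr1249.df)) (.leaf (.fwd 3473 40 tpr1652.df))) (.leaf (.fwd 3513 45 tpr851.df))) (.node (.node (.leaf (.bwd 3558 35 tpr461.df)) (.leaf (.fwd 3593 39 tpr642.df))) (.leaf (.fwd 3632 32 tpr2944.df))))) (.node (.node (.node (.node (.leaf (.fwd 3664 31 tpr1626.df)) (.leaf (.fwd 3695 44 tpr592.df))) (.leaf (.fwd 3739 34 tpr54.df))) (.node (.node (.leaf (.fwd 3773 23 tpr231.df)) (.leaf (.bwd 3796 33 tpr1995.df))) (.leaf (.fwd 3829 47 tpr1895.df)))) (.node (.node (.node (.leaf (.bwd 3876 37 tpr520.df)) (.leaf (.fwd 3913 26 tpr509.df))) (.leaf (.bwd 3939 38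 tpr526.df))) (.node (.node (.leaf (.bwd 3977 32 tpr247.df)) (.leaf (.bwd 4009 35 tpr585.df))) (.leaf (.bwd 4044 37 tpr556.df)))))) (.node (.node (.node (.node (.node (.leaf (.bwd 4081 30 tpr235.df)) (.leaf (.bwd 4111 37 tpr1199.df))) (.node (.leaf (.bwd 4148 21 tpr107.df)) (.leaf (.bwd 4169 32 tpr294.df)))) (.node (.node (.leaf (.bwd 4201 29 tpr22.df)) (.leaf (.fwd 4230 35 tpr13.df))) (.leaf (.fwd 4265 38 tpr519.df)))) (.node (.node (.node (.leaf (.bwd 4303 37 tpr571.df)) (.leaf (.bwd 4340 34 tpr1919.df))) (.leaf (.bwd 4374 43 tpr676.df))) (.node (.node (.leaf (.bwd 4417 31 tpr527.df)) (.leaf (.bwd 4448 27 tpr506.df))) (.leaf (.bwd 4475 35 tpr622.df))))) (.node (.node (.node (.node (.leaf (.bwd 4510 33 tpr538.df)) (.leaf (.bwd 4543 38 tpr2945.df))) (.leaf (.fwd 4581 39 tpr655.df))) (.node (.node (.leaf (.bwd 4620 35 tpr1698.df)) (.leaf (.fwd 4655 51 tpr846.df))) (.leaf (.bwd 4706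 29 tpr2946.df)))) (.node (.node (.node (.leaf (.bwd 4735 30 tpr1643.df)) (.leaf (.bwd 4765 40 tpr544.df))) (.leaf (.fwd 4805 26 tpr599.df))) (.node (.node (.leaf (.fwd 4831 39 tpr1001.df)) (.leaf (.fwd 4870 35 tpr602.df))) (.leaf (.bwd 4905 41 tpr1637.df))))))) (.node (.node (.node (.node (.node (.node (.leaf (.bwd 4946 23 tpr605.df)) (.leaf (.bwd 4969 46 tpr324.df))) (.node (.leaf (.fwd 5015 38 tpr1920.df)) (.leaf (.fwd 5053 35 tpr1682.df)))) (.node (.node (.leaf (.bwd 5088 32 tpr1703.df)) (.leaf (.bwd 5120 27 tpr682.df))) (.leaf (.bwd 5147 6 tpr4.df)))) (.node (.node (.node (.leaf (.fwd 5153 51 tpr729.df)) (.leaf (.bwd 5204 42 tpr612.df))) (.leaf (.bwd 5246 20 tpr505.df))) (.node (.node (.leaf (.bwd 5266 33 tpr645.df)) (.leaf (.fwd 5299 28 tpr511.df))) (.leaf (.fwd 5327 32 tpr294.df))))) (.node (.node (.node (.node (.leaf (.bwd 5359 24 tpr24.df)) (.leaf (.fwd 5383 21 tpr8.df)))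 (.leaf (.bwd 5404 22 tpr581.df))) (.node (.node (.leaf (.bwd 5426 31 tpr528.df)) (.leaf (.fwd 5457 24 tpr743.df))) (.leaf (.fwd 5481 22 tpr982.df)))) (.node (.node (.node (.leaf (.bwd 5503 25 tpr702.df)) (.leaf (.bwd 5528 54 tpr1193.df))) (.leaf (.bwd 5582 29 tpr1685.df))) (.node (.node (.leaf (.fwd 5611 54 tpr1193.df)) (.leaf (.fwd 5665 39 tpr1909.df))) (.leaf (.bwd 5704 36 tpr683.df)))))) (.node (.node (.node (.node (.node (.leaf (.bwd 5740 30 tpr537.df)) (.leaf (.bwd 5770 38 tpr393.df))) (.node (.leaf (.bwd 5808 35 tpr534.df)) (.leaf (.fwd 5843 60 tpr630.df)))) (.node (.node (.leaf (.fwd 5903 44 tpr1964.df)) (.leaf (.fwd 5947 37 tpr406.df))) (.leaf (.bwd 5984 41 tpr2004.df)))) (.node (.node (.node (.leaf (.fwd 6025 26 tpr1999.df)) (.leaf (.bwd 6051 43 tpr2006.df))) (.leaf (.bwd 6094 24 tpr57.df))) (.node (.node (.leaf (.bwd 6118 27 tpr499.df)) (.leaf (.bwd 6145 20 tpr48.df)))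 (.leaf (.fwd 6165 20 tpr216.df))))) (.node (.node (.node (.node (.leaf (.fwd 6185 20 tpr505.df)) (.leaf (.fwd 6205 27 tpr529.df))) (.leaf (.fwd 6232 35 tpr123.df))) (.node (.node (.leaf (.bwd 6267 34 tpr54.df)) (.leaf (.bwd 6301 31 tpr198.df))) (.leaf (.bwd 6332 41 tpr549.df)))) (.node (.node (.node (.leaf (.bwd 6373 23 tpr1180.df)) (.leaf (.bwd 6396 34 tpr15.df))) (.leaf (.bwd 6430 26 tpr516.df))) (.node (.node (.leaf (.bwd 6456 29 tpr9.df)) (.leaf (.bwd 6485 31 tpr761.df))) (.leaf (.fwd 6516 28 tpr295.df))))))))) (.node (.node (.node (.node (.node (.node (.node (.node (.leaf (.bwd 6544 43 tpr532.df)) (.leaf (.bwd 6587 33 tpr869.df))) (.node (.leaf (.bwd 6620 24 tpr1681.df)) (.leaf (.fwd 6644 35 tpr259.df)))) (.node (.node (.leaf (.fwd 6679 43 tpr122.df)) (.leaf (.fwd 6722 39 tpr78.df))) (.leaf (.bwd 6761 33 tpr968.df)))) (.node (.node (.node (.leaf (.fwd 6794 39 tpr81.df)) (.leaf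 (.bwd 6833 19 tpr33.df))) (.leaf (.fwd 6852 43 tpr566.df))) (.node (.node (.leaf (.fwd 6895 42 tpr124.df)) (.leaf (.fwd 6937 40 tpr32.df))) (.leaf (.bwd 6977 31 tpr339.df))))) (.node (.node (.node (.node (.leaf (.bwd 7008 36 tpr75.df)) (.leaf (.bwd 7044 36 tpr2010.df))) (.leaf (.bwd 7080 37 tpr782.df))) (.node (.node (.leaf (.bwd 7117 26 tpr334.df)) (.leaf (.bwd 7143 18 tpr648.df))) (.leaf (.fwd 7161 56 tpr87.df)))) (.node (.node (.node (.leaf (.bwd 7217 44 tpr466.df)) (.leaf (.bwd 7261 37 tpr621.df))) (.leaf (.bwd 7298 25 tpr586.df))) (.node (.node (.leaf (.fwd 7323 35 tpr541.df)) (.leaf (.bwd 7358 30 tpr1998.df))) (.leaf (.bwd 7388 25 tpr677.df)))))) (.node (.node (.node (.node (.node (.leaf (.bwd 7413 25 tpr457.df)) (.leaf (.bwd 7438 61 tpr695.df))) (.node (.leaf (.bwd 7499 37 tpr1190.df)) (.leaf (.bwd 7536 27 tpr82.df)))) (.node (.node (.leaf (.bwd 7563 36 tpr453.df)) (.leaf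 (.bwd 7599 37 tpr720.df))) (.leaf (.bwd 7636 29 tpr654.df)))) (.node (.node (.node (.leaf (.bwd 7665 38 tpr203.df)) (.leaf (.fwd 7703 28 tpr507.df))) (.leaf (.bwd 7731 28 tpr511.df))) (.node (.node (.leaf (.bwd 7759 29 tpr564.df)) (.leaf (.bwd 7788 44 tpr617.df))) (.leaf (.bwd 7832 21 tpr530.df))))) (.node (.node (.node (.node (.leaf (.fwd 7853 29 tpr545.df)) (.leaf (.bwd 7882 23 tpr632.df))) (.leaf (.fwd 7905 30 tpr603.df))) (.node (.node (.leaf (.bwd 7935 49 tpr1647.df)) (.leaf (.bwd 7984 31 tpr557.df))) (.leaf (.fwd 8015 19 tpr33.df)))) (.node (.node (.node (.leaf (.bwd 8034 27 tpr589.df)) (.leaf (.fwd 8061 26 tpr334.df))) (.leaf (.fwd 8087 22 tpr536.df))) (.node (.node (.leaf (.bwd 8109 37 tpr316.df)) (.leaf (.fwd 8146 22 tpr959.df))) (.leaf (.bwd 8168 43 tpr566.df))))))) (.node (.node (.node (.node (.node (.node (.leaf (.bwd 8211 23 tpr1255.df)) (.leaf (.fwd 8234 35 tpr585.df)))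 (.node (.leaf (.fwd 8269 29 tpr151.df)) (.leaf (.bwd 8298 39 tpr569.df)))) (.node (.node (.leaf (.fwd 8337 40 tpr1684.df)) (.leaf (.fwd 8377 33 tpr1213.df))) (.leaf (.fwd 8410 36 tpr1644.df)))) (.node (.node (.node (.leaf (.fwd 8446 33 tpr968.df)) (.leaf (.fwd 8479 38 tpr1636.df))) (.leaf (.fwd 8517 32 tpr1065.df))) (.node (.node (.leaf (.bwd 8549 24 tpr697.df)) (.leaf (.bwd 8573 36 tpr672.df))) (.leaf (.bwd 8609 26 tpr599.df))))) (.node (.node (.node (.node (.leaf (.fwd 8635 38 tpr1817.df)) (.leaf (.bwd 8673 21 tpr25.df))) (.leaf (.bwd 8694 37 tpr473.df))) (.node (.node (.leaf (.bwd 8731 36 tpr1644.df)) (.leaf (.fwd 8767 25 tpr1257.df))) (.leaf (.bwd 8792 44 tpr725.df)))) (.node (.node (.node (.leaf (.bwd 8836 32 tpr518.df)) (.leaf (.fwd 8868 26 tpr1800.df))) (.leaf (.fwd 8894 42 tpr1989.df))) (.node (.node (.leaf (.fwd 8936 23 tpr640.df)) (.leaf (.fwd 8959 33 tpr1990.df))) (.leaf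 (.bwd 8992 27 tpr236.df)))))) (.node (.node (.node (.node (.node (.leaf (.fwd 9019 33 tpr1986.df)) (.leaf (.fwd 9052 44 tpr1953.df))) (.node (.leaf (.bwd 9096 25 tpr51.df)) (.leaf (.bwd 9121 36 tpr1663.df)))) (.node (.node (.leaf (.fwd 9157 32 tpr652.df)) (.leaf (.fwd 9189 26 tpr349.df))) (.leaf (.fwd 9215 24 tpr1611.df)))) (.node (.node (.node (.leaf (.bwd 9239 29 tpr151.df)) (.leaf (.fwd 9268 39 tpr569.df))) (.leaf (.fwd 9307 32 tpr522.df))) (.node (.node (.leaf (.bwd 9339 41 tpr1197.df)) (.leaf (.fwd 9380 40 tpr544.df))) (.leaf (.fwd 9420 43 tpr1144.df))))) (.node (.node (.node (.node (.leaf (.bwd 9463 35 tpr533.df)) (.leaf (.fwd 9498 22 tpr191.df))) (.leaf (.fwd 9520 24 tpr697.df))) (.node (.node (.leaf (.fwd 9544 32 tpr591.df)) (.leaf (.bwd 9576 29 tpr579.df))) (.leaf (.bwd 9605 31 tpr517.df)))) (.node (.node (.node (.leaf (.bwd 9636 28 tpr510.df)) (.leaf (.bwd 9664 36 tpr23.df)))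 (.leaf (.bwd 9700 28 tpr546.df))) (.node (.node (.leaf (.fwd 9728 42 tpr612.df)) (.leaf (.bwd 9770 30 tpr626.df))) (.leaf (.bwd 9800 44 tpr592.df)))))))) (.node (.node (.node (.node (.node (.node (.node (.leaf (.fwd 9844 43 tpr676.df)) (.leaf (.fwd 9887 46 tpr593.df))) (.node (.leaf (.bwd 9933 32 tpr620.df)) (.leaf (.fwd 9965 41 tpr2015.df)))) (.node (.node (.leaf (.bwd 10006 35 tpr657.df)) (.leaf (.bwd 10041 34 tpr543.df))) (.leaf (.fwd 10075 35 tpr595.df)))) (.node (.node (.node (.leaf (.fwd 10110 39 tpr636.df)) (.leaf (.bwd 10149 22 tpr959.df))) (.leaf (.bwd 10171 29 tpr623.df))) (.node (.node (.leaf (.bwd 10200 35 tpr602.df)) (.leaf (.bwd 10235 25 tpr1257.df))) (.leaf (.fwd 10260 28 tpr721.df))))) (.node (.node (.node (.node (.leaf (.fwd 10288 28 tpr588.df)) (.leaf (.bwd 10316 28 tpr588.df))) (.leaf (.fwd 10344 30 tpr1547.df))) (.node (.node (.leaf (.bwd 10374 29 tpr545.df))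 (.leaf (.fwd 10403 34 tpr575.df))) (.leaf (.bwd 10437 23 tpr559.df)))) (.node (.node (.node (.leaf (.bwd 10460 32 tpr1633.df)) (.leaf (.bwd 10492 38 tpr519.df))) (.leaf (.fwd 10530 23 tpr559.df))) (.node (.node (.leaf (.bwd 10553 30 tpr613.df)) (.leaf (.fwd 10583 27 tpr562.df))) (.leaf (.bwd 10610 36 tpr547.df)))))) (.node (.node (.node (.node (.node (.leaf (.fwd 10646 39 tpr514.df)) (.leaf (.fwd 10685 33 tpr521.df))) (.node (.leaf (.bwd 10718 33 tpr631.df)) (.leaf (.fwd 10751 22 tpr515.df)))) (.node (.node (.leaf (.bwd 10773 26 tpr509.df)) (.leaf (.fwd 10799 18 tpr18.df))) (.leaf (.bwd 10817 20 tpr1355.df)))) (.node (.node (.node (.leaf (.fwd 10837 27 tpr584.df)) (.leaf (.bwd 10864 26 tpr653.df))) (.leaf (.fwd 10890 37 tpr1190.df))) (.node (.node (.leaf (.fwd 10927 51 tpr1991.df)) (.leaf (.fwd 10978 28 tpr990.df))) (.leaf (.fwd 11006 37 tpr1987.df))))) (.node (.node (.node (.node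 (.leaf (.bwd 11043 27 tpr524.df)) (.leaf (.fwd 11070 37 tpr520.df))) (.leaf (.bwd 11107 35 tpr595.df))) (.node (.node (.leaf (.bwd 11142 34 tpr575.df)) (.leaf (.bwd 11176 40 tpr705.df))) (.leaf (.fwd 11216 34 tpr543.df)))) (.node (.node (.node (.leaf (.bwd 11250 42 tpr344.df)) (.leaf (.bwd 11292 15 tpr906.df))) (.leaf (.bwd 11307 25 tpr633.df))) (.node (.node (.leaf (.bwd 11332 27 tpr1646.df)) (.leaf (.fwd 11359 35 tpr622.df))) (.leaf (.fwd 11394 36 tpr672.df))))))) (.node (.node (.node (.node (.node (.node (.leaf (.fwd 11430 43 tpr565.df)) (.leaf (.fwd 11473 34 tpr495.df))) (.node (.leaf (.fwd 11507 36 tpr23.df)) (.leaf (.fwd 11543 34 tpr664.df)))) (.node (.node (.leaf (.fwd 11577 6 tpr4.df)) (.leaf (.fwd 11583 24 tpr1687.df))) (.leaf (.fwd 11607 23 tpr1688.df)))) (.node (.node (.node (.leaf (.fwd 11630 13 tpr11.df)) (.leaf (.bwd 11643 26 tpr1635.df))) (.leaf (.bwd 11669 44 tpr1717.df)))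 (.node (.node (.leaf (.fwd 11713 32 tpr2014.df)) (.leaf (.fwd 11745 51 tpr2003.df))) (.leaf (.bwd 11796 38 tpr1997.df))))) (.node (.node (.node (.node (.leaf (.bwd 11834 39 tpr2009.df)) (.leaf (.bwd 11873 28 tpr2008.df))) (.leaf (.fwd 11901 38 tpr1903.df))) (.node (.node (.leaf (.bwd 11939 41 tpr1648.df)) (.leaf (.bwd 11980 41 tpr1824.df))) (.leaf (.fwd 12021 37 tpr2017.df)))) (.node (.node (.node (.leaf (.bwd 12058 39 tpr1941.df)) (.leaf (.fwd 12097 30 tpr1711.df))) (.leaf (.bwd 12127 38 tpr1694.df))) (.node (.node (.leaf (.fwd 12165 47 tpr542.df)) (.leaf (.fwd 12212 46 tpr2018.df))) (.leaf (.bwd 12258 41 tpr624.df)))))) (.node (.node (.node (.node (.node (.leaf (.bwd 12299 24 tpr293.df)) (.leaf (.bwd 12323 39 tpr701.df))) (.node (.leaf (.bwd 12362 35 tpr1640.df)) (.leaf (.fwd 12397 26 tpr1701.df)))) (.node (.node (.leaf (.fwd 12423 24 tpr160.df)) (.leaf (.bwd 12447 26 tpr1701.df)))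 (.leaf (.bwd 12473 25 tpr74.df)))) (.node (.node (.node (.leaf (.fwd 12498 15 tpr525.df)) (.leaf (.bwd 12513 19 tpr429.df))) (.leaf (.bwd 12532 38 tpr1636.df))) (.node (.node (.leaf (.fwd 12570 41 tpr1637.df)) (.leaf (.fwd 12611 24 tpr293.df))) (.leaf (.bwd 12635 32 tpr1988.df))))) (.node (.node (.node (.node (.leaf (.fwd 12667 47 tpr604.df)) (.leaf (.bwd 12714 34 tpr691.df))) (.leaf (.fwd 12748 35 tpr568.df))) (.node (.node (.leaf (.fwd 12783 40 tpr62.df)) (.leaf (.fwd 12823 22 tpr598.df))) (.leaf (.bwd 12845 50 tpr211.df)))) (.node (.node (.node (.leaf (.bwd 12895 23 tpr640.df)) (.leaf (.bwd 12918 43 tpr734.df))) (.leaf (.bwd 12961 35 tpr91.df))) (.node (.node (.leaf (.bwd 12996 33 tpr2016.df)) (.leaf (.fwd 13029 35 tpr1854.df))) (.leaf (.bwd 13064 35 tpr2947.df))))))))))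

theorem iiNFzE2A3H2ByAzIzA2H3A2EzF_c : iiNFzE2A3H2ByAzIzA2H3A2EzF.all (itB (ng 61 nnNFzE2A3H2ByAzIzA2H3A2EzF)) = true := by decide +kernel
theorem nbNFzE2A3H2ByAzIzA2H3A2EzF : nbB 61 13160 nnNFzE2A3H2ByAzIzA2H3A2EzF = true := by decide +kernel
theorem topNFzE2A3H2ByAzIzA2H3A2EzF : topY 13160 ttNFzE2A3H2ByAzIzA2H3A2EzF ceNFzE2A3H2ByAzIzA2H3A2EzF xNFzE2A3H2ByAzIzA2H3A2EzF iiNFzE2A3H2ByAzIzA2H3A2EzF = true := by decide +kernel

end MPb6R
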