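import Pool.Agent.Lib.MP_b6d339_lc.Cw3.YFzE2A3H2BzIzB3H3A2EzAyAyF
import Pool.Agent.Lib.MP_b6d339_lc.Cw3.XL
import Pool.Agent.Lib.MP_b6d339_lc.Cw3.T0
import Pool.Agent.Lib.MP_b6d339_lc.Cw3.T1
import Pool.Agent.Lib.MP_b6d339_lc.Cw3.T2
import Pool.Agent.Lib.MP_b6d339_lc.Cw3.T3
import Pool.Agent.Lib.MP_b6d339_lc.Cw3.T4
import Pool.Agent.Lib.MP_b6d339_lc.Cw3.T5
import Pool.Agent.Lib.MP_b6d339_lc.Cw3.T6
import Pool.Agent.Lib.MP_b6d339_lc.Cw3.T7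
import Pool.Agent.Lib.MP_b6d339_lc.Cw3.T8
import Pool.Agent.Lib.MP_b6d339_lc.Cw3.T9

/-!
# Erdős 592, three levels: items
-/

namespace MPb6R

open MPb6P

noncomputable def iiNFzE2A3H2BzIzB3H3A2EzAyAyF : BT Itm := (.node (.node (.node (.node (.node (.node (.node (.node (.leaf (.fwd 0 6 tpr4.df)) (.leaf (.bwd 6 39 tpr7.df))) (.leaf (.bwd 45 6 tpr4.df))) (.node (.leaf (.fwd 51 23 tpr5.df)) (.leaf (.bwd 74 13 tpr757.df)))) (.node (.node (.leaf (.bwd 87 29 tpr9.df)) (.leaf (.bwd 116 27 tpr499.df))) (.node (.leaf (.bwd 143 27 tpr85.df)) (.leaf (.bwd 170 13 tpr11.df))))) (.node (.node (.node (.leaf (.fwd 183 13 tpr11.df)) (.leaf (.fwd 196 9 tpr41.df))) (.node (.leaf (.bwd 205 17 tpr16.df)) (.leaf (.bwd 222 20 tpr48.df)))) (.node (.node (.leaf (.fwd 242 22 tpr504.df)) (.leaf (.bwd 264 26 tpr516.df))) (.node (.leaf (.bwd 290 24 tpr24.df)) (.leaf (.bwd 314 30 tpr26.df))))))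 (.node (.node (.node (.node (.leaf (.fwd 344 56 tpr452.df)) (.leaf (.bwd 400 20 tpr103.df))) (.node (.leaf (.bwd 420 31 tpr198.df)) (.leaf (.bwd 451 25 tpr74.df)))) (.node (.node (.leaf (.bwd 476 21 tpr36.df)) (.leaf (.bwd 497 31 tpr315.df))) (.node (.leaf (.fwd 528 19 tpr758.df)) (.leaf (.bwd 547 27 tpr759.df))))) (.node (.node (.node (.leaf (.fwd 574 25 tpr760.df)) (.leaf (.fwd 599 39 tpr78.df))) (.node (.leaf (.fwd 638 22 tpr83.df)) (.leaf (.bwd 660 33 tpr129.df)))) (.node (.node (.leaf (.fwd 693 43 tpr122.df)) (.leaf (.bwd 736 18 tpr648.df))) (.node (.leaf (.bwd 754 26 tpr349.df)) (.leaf (.fwd 780 29 tpr121.df))))))) (.node (.node (.node (.node (.node (.leaf (.bwd 809 25 tpr10.df)) (.leaf (.fwd 834 43 tpr292.df))) (.node (.leaf (.bwd 877 24 tpr57.df)) (.leaf (.bwd 901 18 tpr18.df)))) (.node (.node (.leaf (.fwd 919 25 tpr51.df)) (.leaf (.fwd 944 18 tpr37.df)))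 (.node (.leaf (.bwd 962 19 tpr33.df)) (.leaf (.fwd 981 35 tpr123.df))))) (.node (.node (.node (.leaf (.fwd 1016 32 tpr61.df)) (.leaf (.bwd 1048 20 tpr63.df))) (.node (.leaf (.bwd 1068 24 tpr66.df)) (.leaf (.bwd 1092 25 tpr677.df)))) (.node (.node (.leaf (.bwd 1117 35 tpr58.df)) (.leaf (.fwd 1152 20 tpr216.df))) (.node (.leaf (.bwd 1172 25 tpr457.df)) (.leaf (.fwd 1197 24 tpr458.df)))))) (.node (.node (.node (.node (.leaf (.bwd 1221 18 tpr471.df)) (.leaf (.fwd 1239 42 tpr124.df))) (.node (.leaf (.fwd 1281 39 tpr98.df)) (.leaf (.bwd 1320 34 tpr15.df)))) (.node (.node (.leaf (.bwd 1354 42 tpr455.df)) (.leaf (.bwd 1396 28 tpr707.df))) (.node (.leaf (.bwd 1424 34 tpr459.df)) (.leaf (.bwd 1458 30 tpr481.df))))) (.node (.node (.node (.leaf (.bwd 1488 25 tpr106.df)) (.leaf (.fwd 1513 36 tpr23.df))) (.node (.leaf (.fwd 1549 36 tpr165.df)) (.leaf (.fwd 1585 15 tpr525.df))))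 (.node (.node (.leaf (.fwd 1600 21 tpr25.df)) (.leaf (.bwd 1621 16 tpr220.df))) (.node (.leaf (.fwd 1637 18 tpr414.df)) (.leaf (.fwd 1655 37 tpr465.df)))))))) (.node (.node (.node (.node (.node (.node (.leaf (.bwd 1692 39 tpr256.df)) (.leaf (.bwd 1731 37 tpr706.df))) (.node (.leaf (.fwd 1768 56 tpr476.df)) (.leaf (.fwd 1824 35 tpr461.df)))) (.node (.node (.leaf (.fwd 1859 43 tpr336.df)) (.leaf (.fwd 1902 35 tpr13.df))) (.node (.leaf (.bwd 1937 25 tpr164.df)) (.leaf (.fwd 1962 22 tpr86.df))))) (.node (.node (.node (.leaf (.bwd 1984 36 tpr453.df)) (.leaf (.bwd 2020 22 tpr20.df))) (.node (.leaf (.fwd 2042 39 tpr81.df)) (.leaf (.fwd 2081 48 tpr77.df)))) (.node (.node (.leaf (.bwd 2129 40 tpr253.df)) (.leaf (.bwd 2169 21 tpr474.df))) (.node (.leaf (.bwd 2190 27 tpr82.df)) (.leaf (.fwd 2217 22 tpr230.df)))))) (.node (.node (.node (.node (.leaf (.fwd 2239 29 tpr257.df))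 (.leaf (.bwd 2268 26 tpr334.df))) (.node (.leaf (.bwd 2294 23 tpr559.df)) (.leaf (.bwd 2317 25 tpr73.df)))) (.node (.node (.leaf (.bwd 2342 38 tpr6.df)) (.leaf (.bwd 2380 31 tpr761.df))) (.node (.leaf (.bwd 2411 37 tpr327.df)) (.leaf (.bwd 2448 26 tpr762.df))))) (.node (.node (.node (.leaf (.bwd 2474 26 tpr763.df)) (.leaf (.fwd 2500 53 tpr764.df))) (.node (.leaf (.fwd 2553 35 tpr765.df)) (.leaf (.bwd 2588 44 tpr466.df)))) (.node (.node (.leaf (.fwd 2632 56 tpr87.df)) (.leaf (.bwd 2688 27 tpr766.df))) (.node (.leaf (.bwd 2715 22 tpr475.df)) (.leaf (.fwd 2737 57 tpr767.df))))))) (.node (.node (.node (.node (.node (.leaf (.fwd 2794 39 tpr569.df)) (.leaf (.fwd 2833 27 tpr487.df))) (.node (.leaf (.bwd 2860 31 tpr339.df)) (.leaf (.fwd 2891 37 tpr473.df)))) (.node (.node (.leaf (.fwd 2928 29 tpr9.df)) (.leaf (.fwd 2957 29 tpr151.df))) (.node (.leaf (.fwd 2986 31 tpr167.df))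 (.leaf (.bwd 3017 23 tpr5.df))))) (.node (.node (.node (.leaf (.fwd 3040 13 tpr757.df)) (.leaf (.fwd 3053 20 tpr505.df))) (.node (.leaf (.fwd 3073 20 tpr768.df)) (.leaf (.fwd 3093 50 tpr211.df)))) (.node (.node (.leaf (.bwd 3143 32 tpr311.df)) (.leaf (.fwd 3175 40 tpr32.df))) (.node (.leaf (.bwd 3215 29 tpr769.df)) (.leaf (.fwd 3244 21 tpr8.df)))))) (.node (.node (.node (.node (.leaf (.bwd 3265 36 tpr770.df)) (.leaf (.fwd 3301 18 tpr161.df))) (.node (.leaf (.bwd 3319 31 tpr341.df)) (.leaf (.bwd 3350 21 tpr8.df)))) (.node (.node (.leaf (.bwd 3371 60 tpr771.df)) (.leaf (.fwd 3431 45 tpr332.df))) (.node (.leaf (.fwd 3476 28 tpr295.df)) (.leaf (.fwd 3504 33 tpr772.df))))) (.node (.node (.node (.leaf (.fwd 3537 22 tpr118.df)) (.leaf (.fwd 3559 30 tpr773.df))) (.node (.leaf (.fwd 3589 58 tpr776.df)) (.leaf (.bwd 3647 54 tpr310.df)))) (.node (.node (.leaf (.bwd 3701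 24 tpr160.df)) (.leaf (.fwd 3725 53 tpr777.df))) (.node (.leaf (.bwd 3778 29 tpr778.df)) (.leaf (.bwd 3807 41 tpr120.df)))))))))

theorem iiNFzE2A3H2BzIzB3H3A2EzAyAyF_c : iiNFzE2A3H2BzIzB3H3A2EzAyAyF.all (itB (ng 60 nnNFzE2A3H2BzIzB3H3A2EzAyAyF)) = true := by decide +kernel
theorem nbNFzE2A3H2BzIzB3H3A2EzAyAyF : nbB 60 3908 nnNFzE2A3H2BzIzB3H3A2EzAyAyF = true := by decide +kernel
theorem topNFzE2A3H2BzIzB3H3A2EzAyAyF : topY 3908 ttNFzE2A3H2BzIzB3H3A2EzAyAyF ceNFzE2A3H2BzIzB3H3A2EzAyAyF xNFzE2A3H2BzIzB3H3A2EzAyAyF iiNFzE2A3H2BzIzB3H3A2EzAyAyF = true := by decide +kernel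

end MPb6R
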