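import Pool.Agent.Lib.MP_b6d339_lc.Cw3.JFzE2A3H2ByAzAyB2H3A2EzF
import Pool.Agent.Lib.MP_b6d339_lc.Cw3.JFzE2A3H2ByAzIzA2H3A2EzF
import Pool.Agent.Lib.MP_b6d339_lc.Cw3.JFzE2A3H2BzIzB3H3A2EzAyAyF
import Pool.Agent.Lib.MP_b6d339_lc.Cw3.S4
import Pool.Agent.Lib.MP_b6d339_lc.Cw3.T0
import Pool.Agent.Lib.MP_b6d339_lc.Cw3.T1
import Pool.Agent.Lib.MP_b6d339_lc.Cw3.T10
import Pool.Agent.Lib.MP_b6d339_lc.Cw3.T11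
import Pool.Agent.Lib.MP_b6d339_lc.Cw3.T12
import Pool.Agent.Lib.MP_b6d339_lc.Cw3.T13
import Pool.Agent.Lib.MP_b6d339_lc.Cw3.T14
import Pool.Agent.Lib.MP_b6d339_lc.Cw3.T15
import Pool.Agent.Lib.MP_b6d339_lc.Cw3.T16
import Pool.Agent.Lib.MP_b6d339_lc.Cw3.T19
import Pool.Agent.Lib.MP_b6d339_lc.Cw3.T2
import Pool.Agent.Lib.MP_b6d339_lc.Cw3.T20
import Pool.Agent.Lib.MP_b6d339_lc.Cw3.T21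
import Pool.Agent.Lib.MP_b6d339_lc.Cw3.T22
import Pool.Agent.Lib.MP_b6d339_lc.Cw3.T23
import Pool.Agent.Lib.MP_b6d339_lc.Cw3.T24
import Pool.Agent.Lib.MP_b6d339_lc.Cw3.T25
import Pool.Agent.Lib.MP_b6d339_lc.Cw3.T3
import Pool.Agent.Lib.MP_b6d339_lc.Cw3.T32
import Pool.Agent.Lib.MP_b6d339_lc.Cw3.T36
import Pool.Agent.Lib.MP_b6d339_lc.Cw3.T4
import Pool.Agent.Lib.MP_b6d339_lc.Cw3.T5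
import Pool.Agent.Lib.MP_b6d339_lc.Cw3.T6
import Pool.Agent.Lib.MP_b6d339_lc.Cw3.T7
import Pool.Agent.Lib.MP_b6d339_lc.Cw3.T8
import Pool.Agent.Lib.MP_b6d339_lc.Cw3.T9
import Pool.Agent.Lib.MP_b6d339_lc.Cw3.XL
import Pool.Agent.Lib.MP_b6d339_lc.Cw3.ZFzE2A3H2ByAzAyB2H3A2EzF_0
import Pool.Agent.Lib.MP_b6d339_lc.Cw3.ZFzE2A3H2ByAzAyB2H3A2EzF_1
import Pool.Agent.Lib.MP_b6d339_lc.Cw3.ZFzE2A3H2ByAzAyB2H3A2EzF_10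
import Pool.Agent.Lib.MP_b6d339_lc.Cw3.ZFzE2A3H2ByAzAyB2H3A2EzF_11
import Pool.Agent.Lib.MP_b6d339_lc.Cw3.ZFzE2A3H2ByAzAyB2H3A2EzF_12
import Pool.Agent.Lib.MP_b6d339_lc.Cw3.ZFzE2A3H2ByAzAyB2H3A2EzF_13
import Pool.Agent.Lib.MP_b6d339_lc.Cw3.ZFzE2A3H2ByAzAyB2H3A2EzF_14
import Pool.Agent.Lib.MP_b6d339_lc.Cw3.ZFzE2A3H2ByAzAyB2H3A2EzF_15
import Pool.Agent.Lib.MP_b6d339_lc.Cw3.ZFzE2A3H2ByAzAyB2H3A2EzF_16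
import Pool.Agent.Lib.MP_b6d339_lc.Cw3.ZFzE2A3H2ByAzAyB2H3A2EzF_17
import Pool.Agent.Lib.MP_b6d339_lc.Cw3.ZFzE2A3H2ByAzAyB2H3A2EzF_18
import Pool.Agent.Lib.MP_b6d339_lc.Cw3.ZFzE2A3H2ByAzAyB2H3A2EzF_19
import Pool.Agent.Lib.MP_b6d339_lc.Cw3.ZFzE2A3H2ByAzAyB2H3A2EzF_2
import Pool.Agent.Lib.MP_b6d339_lc.Cw3.ZFzE2A3H2ByAzAyB2H3A2EzF_20
import Pool.Agent.Lib.MP_b6d339_lc.Cw3.ZFzE2A3H2ByAzAyB2H3A2EzF_21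
import Pool.Agent.Lib.MP_b6d339_lc.Cw3.ZFzE2A3H2ByAzAyB2H3A2EzF_22
import Pool.Agent.Lib.MP_b6d339_lc.Cw3.ZFzE2A3H2ByAzAyB2H3A2EzF_23
import Pool.Agent.Lib.MP_b6d339_lc.Cw3.ZFzE2A3H2ByAzAyB2H3A2EzF_24
import Pool.Agent.Lib.MP_b6d339_lc.Cw3.ZFzE2A3H2ByAzAyB2H3A2EzF_25
import Pool.Agent.Lib.MP_b6d339_lc.Cw3.ZFzE2A3H2ByAzAyB2H3A2EzF_26
import Pool.Agent.Lib.MP_b6d339_lc.Cw3.ZFzE2A3H2ByAzAyB2H3A2EzF_27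
import Pool.Agent.Lib.MP_b6d339_lc.Cw3.ZFzE2A3H2ByAzAyB2H3A2EzF_28
import Pool.Agent.Lib.MP_b6d339_lc.Cw3.ZFzE2A3H2ByAzAyB2H3A2EzF_29
import Pool.Agent.Lib.MP_b6d339_lc.Cw3.ZFzE2A3H2ByAzAyB2H3A2EzF_3
import Pool.Agent.Lib.MP_b6d339_lc.Cw3.ZFzE2A3H2ByAzAyB2H3A2EzF_30
import Pool.Agent.Lib.MP_b6d339_lc.Cw3.ZFzE2A3H2ByAzAyB2H3A2EzF_31
import Pool.Agent.Lib.MP_b6d339_lc.Cw3.ZFzE2A3H2ByAzAyB2H3A2EzF_32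
import Pool.Agent.Lib.MP_b6d339_lc.Cw3.ZFzE2A3H2ByAzAyB2H3A2EzF_33
import Pool.Agent.Lib.MP_b6d339_lc.Cw3.ZFzE2A3H2ByAzAyB2H3A2EzF_34
import Pool.Agent.Lib.MP_b6d339_lc.Cw3.ZFzE2A3H2ByAzAyB2H3A2EzF_35
import Pool.Agent.Lib.MP_b6d339_lc.Cw3.ZFzE2A3H2ByAzAyB2H3A2EzF_36
import Pool.Agent.Lib.MP_b6d339_lc.Cw3.ZFzE2A3H2ByAzAyB2H3A2EzF_37
import Pool.Agent.Lib.MP_b6d339_lc.Cw3.ZFzE2A3H2ByAzAyB2H3A2EzF_38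
import Pool.Agent.Lib.MP_b6d339_lc.Cw3.ZFzE2A3H2ByAzAyB2H3A2EzF_39
import Pool.Agent.Lib.MP_b6d339_lc.Cw3.ZFzE2A3H2ByAzAyB2H3A2EzF_4
import Pool.Agent.Lib.MP_b6d339_lc.Cw3.ZFzE2A3H2ByAzAyB2H3A2EzF_40
import Pool.Agent.Lib.MP_b6d339_lc.Cw3.ZFzE2A3H2ByAzAyB2H3A2EzF_41
import Pool.Agent.Lib.MP_b6d339_lc.Cw3.ZFzE2A3H2ByAzAyB2H3A2EzF_42
import Pool.Agent.Lib.MP_b6d339_lc.Cw3.ZFzE2A3H2ByAzAyB2H3A2EzF_43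
import Pool.Agent.Lib.MP_b6d339_lc.Cw3.ZFzE2A3H2ByAzAyB2H3A2EzF_44
import Pool.Agent.Lib.MP_b6d339_lc.Cw3.ZFzE2A3H2ByAzAyB2H3A2EzF_45
import Pool.Agent.Lib.MP_b6d339_lc.Cw3.ZFzE2A3H2ByAzAyB2H3A2EzF_46
import Pool.Agent.Lib.MP_b6d339_lc.Cw3.ZFzE2A3H2ByAzAyB2H3A2EzF_47
import Pool.Agent.Lib.MP_b6d339_lc.Cw3.ZFzE2A3H2ByAzAyB2H3A2EzF_48
import Pool.Agent.Lib.MP_b6d339_lc.Cw3.ZFzE2A3H2ByAzAyB2H3A2EzF_49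
import Pool.Agent.Lib.MP_b6d339_lc.Cw3.ZFzE2A3H2ByAzAyB2H3A2EzF_5
import Pool.Agent.Lib.MP_b6d339_lc.Cw3.ZFzE2A3H2ByAzAyB2H3A2EzF_50
import Pool.Agent.Lib.MP_b6d339_lc.Cw3.ZFzE2A3H2ByAzAyB2H3A2EzF_51
import Pool.Agent.Lib.MP_b6d339_lc.Cw3.ZFzE2A3H2ByAzAyB2H3A2EzF_52
import Pool.Agent.Lib.MP_b6d339_lc.Cw3.ZFzE2A3H2ByAzAyB2H3A2EzF_53
import Pool.Agent.Lib.MP_b6d339_lc.Cw3.ZFzE2A3H2ByAzAyB2H3A2EzF_54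
import Pool.Agent.Lib.MP_b6d339_lc.Cw3.ZFzE2A3H2ByAzAyB2H3A2EzF_55
import Pool.Agent.Lib.MP_b6d339_lc.Cw3.ZFzE2A3H2ByAzAyB2H3A2EzF_56
import Pool.Agent.Lib.MP_b6d339_lc.Cw3.ZFzE2A3H2ByAzAyB2H3A2EzF_57
import Pool.Agent.Lib.MP_b6d339_lc.Cw3.ZFzE2A3H2ByAzAyB2H3A2EzF_58
import Pool.Agent.Lib.MP_b6d339_lc.Cw3.ZFzE2A3H2ByAzAyB2H3A2EzF_6
import Pool.Agent.Lib.MP_b6d339_lc.Cw3.ZFzE2A3H2ByAzAyB2H3A2EzF_7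
import Pool.Agent.Lib.MP_b6d339_lc.Cw3.ZFzE2A3H2ByAzAyB2H3A2EzF_8
import Pool.Agent.Lib.MP_b6d339_lc.Cw3.ZFzE2A3H2ByAzAyB2H3A2EzF_9
import Pool.Agent.Lib.MP_b6d339_lc.Cw3.ZFzE2A3H2ByAzIzA2H3A2EzF_0
import Pool.Agent.Lib.MP_b6d339_lc.Cw3.ZFzE2A3H2ByAzIzA2H3A2EzF_1
import Pool.Agent.Lib.MP_b6d339_lc.Cw3.ZFzE2A3H2ByAzIzA2H3A2EzF_10
import Pool.Agent.Lib.MP_b6d339_lc.Cw3.ZFzE2A3H2ByAzIzA2H3A2EzF_11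
import Pool.Agent.Lib.MP_b6d339_lc.Cw3.ZFzE2A3H2ByAzIzA2H3A2EzF_12
import Pool.Agent.Lib.MP_b6d339_lc.Cw3.ZFzE2A3H2ByAzIzA2H3A2EzF_13
import Pool.Agent.Lib.MP_b6d339_lc.Cw3.ZFzE2A3H2ByAzIzA2H3A2EzF_14
import Pool.Agent.Lib.MP_b6d339_lc.Cw3.ZFzE2A3H2ByAzIzA2H3A2EzF_15
import Pool.Agent.Lib.MP_b6d339_lc.Cw3.ZFzE2A3H2ByAzIzA2H3A2EzF_16
import Pool.Agent.Lib.MP_b6d339_lc.Cw3.ZFzE2A3H2ByAzIzA2H3A2EzF_17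
import Pool.Agent.Lib.MP_b6d339_lc.Cw3.ZFzE2A3H2ByAzIzA2H3A2EzF_18
import Pool.Agent.Lib.MP_b6d339_lc.Cw3.ZFzE2A3H2ByAzIzA2H3A2EzF_19
import Pool.Agent.Lib.MP_b6d339_lc.Cw3.ZFzE2A3H2ByAzIzA2H3A2EzF_2
import Pool.Agent.Lib.MP_b6d339_lc.Cw3.ZFzE2A3H2ByAzIzA2H3A2EzF_20
import Pool.Agent.Lib.MP_b6d339_lc.Cw3.ZFzE2A3H2ByAzIzA2H3A2EzF_21
import Pool.Agent.Lib.MP_b6d339_lc.Cw3.ZFzE2A3H2ByAzIzA2H3A2EzF_22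
import Pool.Agent.Lib.MP_b6d339_lc.Cw3.ZFzE2A3H2ByAzIzA2H3A2EzF_23
import Pool.Agent.Lib.MP_b6d339_lc.Cw3.ZFzE2A3H2ByAzIzA2H3A2EzF_24
import Pool.Agent.Lib.MP_b6d339_lc.Cw3.ZFzE2A3H2ByAzIzA2H3A2EzF_25
import Pool.Agent.Lib.MP_b6d339_lc.Cw3.ZFzE2A3H2ByAzIzA2H3A2EzF_26
import Pool.Agent.Lib.MP_b6d339_lc.Cw3.ZFzE2A3H2ByAzIzA2H3A2EzF_27
import Pool.Agent.Lib.MP_b6d339_lc.Cw3.ZFzE2A3H2ByAzIzA2H3A2EzF_28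
import Pool.Agent.Lib.MP_b6d339_lc.Cw3.ZFzE2A3H2ByAzIzA2H3A2EzF_29
import Pool.Agent.Lib.MP_b6d339_lc.Cw3.ZFzE2A3H2ByAzIzA2H3A2EzF_3
import Pool.Agent.Lib.MP_b6d339_lc.Cw3.ZFzE2A3H2ByAzIzA2H3A2EzF_30
import Pool.Agent.Lib.MP_b6d339_lc.Cw3.ZFzE2A3H2ByAzIzA2H3A2EzF_31
import Pool.Agent.Lib.MP_b6d339_lc.Cw3.ZFzE2A3H2ByAzIzA2H3A2EzF_32
import Pool.Agent.Lib.MP_b6d339_lc.Cw3.ZFzE2A3H2ByAzIzA2H3A2EzF_33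
import Pool.Agent.Lib.MP_b6d339_lc.Cw3.ZFzE2A3H2ByAzIzA2H3A2EzF_34
import Pool.Agent.Lib.MP_b6d339_lc.Cw3.ZFzE2A3H2ByAzIzA2H3A2EzF_35
import Pool.Agent.Lib.MP_b6d339_lc.Cw3.ZFzE2A3H2ByAzIzA2H3A2EzF_36
import Pool.Agent.Lib.MP_b6d339_lc.Cw3.ZFzE2A3H2ByAzIzA2H3A2EzF_37
import Pool.Agent.Lib.MP_b6d339_lc.Cw3.ZFzE2A3H2ByAzIzA2H3A2EzF_38
import Pool.Agent.Lib.MP_b6d339_lc.Cw3.ZFzE2A3H2ByAzIzA2H3A2EzF_39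
import Pool.Agent.Lib.MP_b6d339_lc.Cw3.ZFzE2A3H2ByAzIzA2H3A2EzF_4
import Pool.Agent.Lib.MP_b6d339_lc.Cw3.ZFzE2A3H2ByAzIzA2H3A2EzF_40
import Pool.Agent.Lib.MP_b6d339_lc.Cw3.ZFzE2A3H2ByAzIzA2H3A2EzF_41
import Pool.Agent.Lib.MP_b6d339_lc.Cw3.ZFzE2A3H2ByAzIzA2H3A2EzF_42
import Pool.Agent.Lib.MP_b6d339_lc.Cw3.ZFzE2A3H2ByAzIzA2H3A2EzF_43
import Pool.Agent.Lib.MP_b6d339_lc.Cw3.ZFzE2A3H2ByAzIzA2H3A2EzF_44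
import Pool.Agent.Lib.MP_b6d339_lc.Cw3.ZFzE2A3H2ByAzIzA2H3A2EzF_45
import Pool.Agent.Lib.MP_b6d339_lc.Cw3.ZFzE2A3H2ByAzIzA2H3A2EzF_5
import Pool.Agent.Lib.MP_b6d339_lc.Cw3.ZFzE2A3H2ByAzIzA2H3A2EzF_6
import Pool.Agent.Lib.MP_b6d339_lc.Cw3.ZFzE2A3H2ByAzIzA2H3A2EzF_7
import Pool.Agent.Lib.MP_b6d339_lc.Cw3.ZFzE2A3H2ByAzIzA2H3A2EzF_8
import Pool.Agent.Lib.MP_b6d339_lc.Cw3.ZFzE2A3H2ByAzIzA2H3A2EzF_9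
import Pool.Agent.Lib.MP_b6d339_lc.Cw3.ZFzE2A3H2BzIzB3H3A2EzAyAyF_0
import Pool.Agent.Lib.MP_b6d339_lc.Cw3.ZFzE2A3H2BzIzB3H3A2EzAyAyF_1
import Pool.Agent.Lib.MP_b6d339_lc.Pos.XTreeC
import Pool.Agent.Lib.MP_b6d339_lc.Pos.YQ

/-!
# Erdős 592, three levels: classes of words
-/

namespace MPb6R

open MPb6P

theorem iiNFzE2A3H2ByAzAyB2H3A2EzF_k : iiNFzE2A3H2ByAzAyB2H3A2EzF.Fa (Itm.ok 206) := (BT.Fa_mk (BT.Fa_mk (BT.Fa_mk (BT.Fa_mk (BT.Fa_mk (BT.Fa_mk (BT.Fa_mk (BT.Fa_mk (BT.Fa_mk (BT.Fa_leaf (P := Itm.ok 206) (iqb tpr82_c)) (BT.Fa_leaf (P := Itm.ok 206) (iqf tpr500_c))) (BT.Fa_mk (BT.Fa_leaf (P := Itm.ok 206) (iqf tpr499_c)) (BT.Fa_leaf (P := Itm.ok 206) (iqb tpr504_c)))) (BT.Fa_mk (BT.Fa_mk (BT.Fa_leaf (P := Itm.ok 206) (iqf tpr740_c))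 (BT.Fa_leaf (P := Itm.ok 206) (iqf tpr5_c))) (BT.Fa_mk (BT.Fa_leaf (P := Itm.ok 206) (iqf tpr8_c)) (BT.Fa_leaf (P := Itm.ok 206) (iqb tpr508_c))))) (BT.Fa_mk (BT.Fa_mk (BT.Fa_mk (BT.Fa_leaf (P := Itm.ok 206) (iqf tpr555_c)) (BT.Fa_leaf (P := Itm.ok 206) (iqb tpr518_c))) (BT.Fa_mk (BT.Fa_leaf (P := Itm.ok 206) (iqf tpr607_c)) (BT.Fa_leaf (P := Itm.ok 206) (iqb tpr581_c)))) (BT.Fa_mk (BT.Fa_mk (BT.Fa_leaf (P := Itm.ok 206) (iqf tpr103_c)) (BT.Fa_leaf (P := Itm.ok 206) (iqb tpr8_c))) (BT.Fa_leaf (P := Itm.ok 206) (iqb tpr22_c))))) (BT.Fa_mk (BT.Fa_mk (BT.Fa_mk (BT.Fa_mk (BT.Fa_leaf (P := Itm.ok 206) (iqf tpr82_c)) (BT.Fa_leaf (P := Itm.ok 206) (iqf tpr568_c))) (BT.Fa_mk (BT.Fa_leaf (P := Itm.ok 206) (iqf tpr515_c)) (BT.Fa_leaf (P :=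 Itm.ok 206) (iqb tpr577_c)))) (BT.Fa_mk (BT.Fa_mk (BT.Fa_leaf (P := Itm.ok 206) (iqb tpr501_c)) (BT.Fa_leaf (P := Itm.ok 206) (iqb tpr167_c))) (BT.Fa_leaf (P := Itm.ok 206) (iqb tpr239_c)))) (BT.Fa_mk (BT.Fa_mk (BT.Fa_mk (BT.Fa_leaf (P := Itm.ok 206) (iqf tpr17_c)) (BT.Fa_leaf (P := Itm.ok 206) (iqf tpr613_c))) (BT.Fa_mk (BT.Fa_leaf (P := Itm.ok 206) (iqb tpr78_c)) (BT.Fa_leaf (P := Itm.ok 206) (iqf tpr704_c)))) (BT.Fa_mk (BT.Fa_mk (BT.Fa_leaf (P := Itm.ok 206) (iqf tpr16_c)) (BT.Fa_leaf (P := Itm.ok 206) (iqb tpr545_c))) (BT.Fa_leaf (P := Itm.ok 206) (iqb tpr81_c)))))) (BT.Fa_mk (BT.Fa_mk (BT.Fa_mk (BT.Fa_mk (BT.Fa_mk (BT.Fa_leaf (P := Itm.ok 206) (iqb tpr87_c)) (BT.Fa_leaf (P := Itm.ok 206) (iqb tpr513_c))) (BT.Fa_mk (BT.Fa_leaf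 (P := Itm.ok 206) (iqb tpr555_c)) (BT.Fa_leaf (P := Itm.ok 206) (iqb tpr607_c)))) (BT.Fa_mk (BT.Fa_mk (BT.Fa_leaf (P := Itm.ok 206) (iqf tpr502_c)) (BT.Fa_leaf (P := Itm.ok 206) (iqf tpr619_c))) (BT.Fa_mk (BT.Fa_leaf (P := Itm.ok 206) (iqb tpr13_c)) (BT.Fa_leaf (P := Itm.ok 206) (iqf tpr614_c))))) (BT.Fa_mk (BT.Fa_mk (BT.Fa_mk (BT.Fa_leaf (P := Itm.ok 206) (iqb tpr968_c)) (BT.Fa_leaf (P := Itm.ok 206) (iqb tpr612_c))) (BT.Fa_mk (BT.Fa_leaf (P := Itm.ok 206) (iqb tpr511_c)) (BT.Fa_leaf (P := Itm.ok 206) (iqb tpr568_c)))) (BT.Fa_mk (BT.Fa_mk (BT.Fa_leaf (P := Itm.ok 206) (iqb tpr519_c)) (BT.Fa_leaf (P := Itm.ok 206) (iqb tpr683_c))) (BT.Fa_leaf (P := Itm.ok 206) (iqb tpr701_c))))) (BT.Fa_mk (BT.Fa_mk (BT.Fa_mk (BT.Fa_mk (BT.Fa_leaf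 (P := Itm.ok 206) (iqb tpr509_c)) (BT.Fa_leaf (P := Itm.ok 206) (iqb tpr295_c))) (BT.Fa_mk (BT.Fa_leaf (P := Itm.ok 206) (iqf tpr198_c)) (BT.Fa_leaf (P := Itm.ok 206) (iqf tpr324_c)))) (BT.Fa_mk (BT.Fa_mk (BT.Fa_leaf (P := Itm.ok 206) (iqf tpr584_c)) (BT.Fa_leaf (P := Itm.ok 206) (iqb tpr51_c))) (BT.Fa_leaf (P := Itm.ok 206) (iqb tpr743_c)))) (BT.Fa_mk (BT.Fa_mk (BT.Fa_mk (BT.Fa_leaf (P := Itm.ok 206) (iqf tpr15_c)) (BT.Fa_leaf (P := Itm.ok 206) (iqf tpr705_c))) (BT.Fa_mk (BT.Fa_leaf (P := Itm.ok 206) (iqb tpr630_c)) (BT.Fa_leaf (P := Itm.ok 206) (iqf tpr968_c)))) (BT.Fa_mk (BT.Fa_mk (BT.Fa_leaf (P := Itm.ok 206) (iqb tpr292_c)) (BT.Fa_leaf (P := Itm.ok 206) (iqf tpr26_c))) (BT.Fa_leaf (P := Itm.ok 206) (iqf tpr75_c))))))) (BT.Fa_mk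 (BT.Fa_mk (BT.Fa_mk (BT.Fa_mk (BT.Fa_mk (BT.Fa_mk (BT.Fa_leaf (P := Itm.ok 206) (iqf tpr27_c)) (BT.Fa_leaf (P := Itm.ok 206) (iqf tpr695_c))) (BT.Fa_mk (BT.Fa_leaf (P := Itm.ok 206) (iqf tpr516_c)) (BT.Fa_leaf (P := Itm.ok 206) (iqf tpr869_c)))) (BT.Fa_mk (BT.Fa_mk (BT.Fa_leaf (P := Itm.ok 206) (iqf tpr1200_c)) (BT.Fa_leaf (P := Itm.ok 206) (iqf tpr501_c))) (BT.Fa_mk (BT.Fa_leaf (P := Itm.ok 206) (iqf tpr596_c)) (BT.Fa_leaf (P := Itm.ok 206) (iqf tpr574_c))))) (BT.Fa_mk (BT.Fa_mk (BT.Fa_mk (BT.Fa_leaf (P := Itm.ok 206) (iqb tpr705_c)) (BT.Fa_leaf (P := Itm.ok 206) (iqb tpr1183_c))) (BT.Fa_mk (BT.Fa_leaf (P := Itm.ok 206) (iqb tpr54_c)) (BT.Fa_leaf (P := Itm.ok 206) (iqb tpr638_c)))) (BT.Fa_mk (BT.Fa_mk (BT.Fa_leaf (P := Itm.ok 206)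 (iqf tpr706_c)) (BT.Fa_leaf (P := Itm.ok 206) (iqf tpr508_c))) (BT.Fa_leaf (P := Itm.ok 206) (iqf tpr617_c))))) (BT.Fa_mk (BT.Fa_mk (BT.Fa_mk (BT.Fa_mk (BT.Fa_leaf (P := Itm.ok 206) (iqf tpr511_c)) (BT.Fa_leaf (P := Itm.ok 206) (iqf tpr680_c))) (BT.Fa_mk (BT.Fa_leaf (P := Itm.ok 206) (iqf tpr519_c)) (BT.Fa_leaf (P := Itm.ok 206) (iqb tpr546_c)))) (BT.Fa_mk (BT.Fa_mk (BT.Fa_leaf (P := Itm.ok 206) (iqf tpr625_c)) (BT.Fa_leaf (P := Itm.ok 206) (iqf tpr548_c))) (BT.Fa_leaf (P := Itm.ok 206) (iqb tpr203_c)))) (BT.Fa_mk (BT.Fa_mk (BT.Fa_mk (BT.Fa_leaf (P := Itm.ok 206) (iqb tpr1193_c)) (BT.Fa_leaf (P := Itm.ok 206) (iqb tpr17_c))) (BT.Fa_mk (BT.Fa_leaf (P := Itm.ok 206) (iqb tpr585_c)) (BT.Fa_leaf (P := Itm.ok 206) (iqf tpr466_c)))) (BT.Fa_mk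 (BT.Fa_mk (BT.Fa_leaf (P := Itm.ok 206) (iqf tpr23_c)) (BT.Fa_leaf (P := Itm.ok 206) (iqb tpr566_c))) (BT.Fa_leaf (P := Itm.ok 206) (iqf tpr22_c)))))) (BT.Fa_mk (BT.Fa_mk (BT.Fa_mk (BT.Fa_mk (BT.Fa_mk (BT.Fa_leaf (P := Itm.ok 206) (iqf tpr612_c)) (BT.Fa_leaf (P := Itm.ok 206) (iqf tpr615_c))) (BT.Fa_mk (BT.Fa_leaf (P := Itm.ok 206) (iqb tpr624_c)) (BT.Fa_leaf (P := Itm.ok 206) (iqb tpr502_c)))) (BT.Fa_mk (BT.Fa_mk (BT.Fa_leaf (P := Itm.ok 206) (iqf tpr622_c)) (BT.Fa_leaf (P := Itm.ok 206) (iqf tpr58_c))) (BT.Fa_mk (BT.Fa_leaf (P := Itm.ok 206) (iqb tpr626_c)) (BT.Fa_leaf (P := Itm.ok 206) (iqf tpr503_c))))) (BT.Fa_mk (BT.Fa_mk (BT.Fa_mk (BT.Fa_leaf (P := Itm.ok 206) (iqf tpr576_c)) (BT.Fa_leaf (P := Itm.ok 206) (iqf tpr1189_c)))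 (BT.Fa_mk (BT.Fa_leaf (P := Itm.ok 206) (iqf tpr559_c)) (BT.Fa_leaf (P := Itm.ok 206) (iqf tpr621_c)))) (BT.Fa_mk (BT.Fa_mk (BT.Fa_leaf (P := Itm.ok 206) (iqf tpr339_c)) (BT.Fa_leaf (P := Itm.ok 206) (iqb tpr122_c))) (BT.Fa_leaf (P := Itm.ok 206) (iqf tpr74_c))))) (BT.Fa_mk (BT.Fa_mk (BT.Fa_mk (BT.Fa_mk (BT.Fa_leaf (P := Itm.ok 206) (iqb tpr123_c)) (BT.Fa_leaf (P := Itm.ok 206) (iqf tpr344_c))) (BT.Fa_mk (BT.Fa_leaf (P := Itm.ok 206) (iqb tpr406_c)) (BT.Fa_leaf (P := Itm.ok 206) (iqf tpr720_c)))) (BT.Fa_mk (BT.Fa_mk (BT.Fa_leaf (P := Itm.ok 206) (iqf tpr393_c)) (BT.Fa_leaf (P := Itm.ok 206) (iqb tpr627_c))) (BT.Fa_leaf (P := Itm.ok 206) (iqb tpr725_c)))) (BT.Fa_mk (BT.Fa_mk (BT.Fa_mk (BT.Fa_leaf (P := Itm.ok 206) (iqb tpr676_c))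 (BT.Fa_leaf (P := Itm.ok 206) (iqb tpr593_c))) (BT.Fa_mk (BT.Fa_leaf (P := Itm.ok 206) (iqf tpr967_c)) (BT.Fa_leaf (P := Itm.ok 206) (iqb tpr1200_c)))) (BT.Fa_mk (BT.Fa_mk (BT.Fa_leaf (P := Itm.ok 206) (iqb tpr294_c)) (BT.Fa_leaf (P := Itm.ok 206) (iqb tpr505_c))) (BT.Fa_leaf (P := Itm.ok 206) (iqf tpr505_c)))))))) (BT.Fa_mk (BT.Fa_mk (BT.Fa_mk (BT.Fa_mk (BT.Fa_mk (BT.Fa_mk (BT.Fa_mk (BT.Fa_leaf (P := Itm.ok 206) (iqf tpr527_c)) (BT.Fa_leaf (P := Itm.ok 206) (iqf tpr616_c))) (BT.Fa_mk (BT.Fa_leaf (P := Itm.ok 206) (iqf tpr54_c)) (BT.Fa_leaf (P := Itm.ok 206) (iqb tpr640_c)))) (BT.Fa_mk (BT.Fa_mk (BT.Fa_leaf (P := Itm.ok 206) (iqf tpr712_c)) (BT.Fa_leaf (P := Itm.ok 206) (iqb tpr625_c))) (BT.Fa_mk (BT.Fa_leaf (P := Itm.ok 206) (iqb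 tpr1184_c)) (BT.Fa_leaf (P := Itm.ok 206) (iqb tpr516_c))))) (BT.Fa_mk (BT.Fa_mk (BT.Fa_mk (BT.Fa_leaf (P := Itm.ok 206) (iqb tpr588_c)) (BT.Fa_leaf (P := Itm.ok 206) (iqb tpr499_c))) (BT.Fa_mk (BT.Fa_leaf (P := Itm.ok 206) (iqf tpr1098_c)) (BT.Fa_leaf (P := Itm.ok 206) (iqb tpr527_c)))) (BT.Fa_mk (BT.Fa_mk (BT.Fa_leaf (P := Itm.ok 206) (iqb tpr617_c)) (BT.Fa_leaf (P := Itm.ok 206) (iqf tpr624_c))) (BT.Fa_leaf (P := Itm.ok 206) (iqb tpr575_c))))) (BT.Fa_mk (BT.Fa_mk (BT.Fa_mk (BT.Fa_mk (BT.Fa_leaf (P := Itm.ok 206) (iqf tpr569_c)) (BT.Fa_leaf (P := Itm.ok 206) (iqb tpr596_c))) (BT.Fa_mk (BT.Fa_leaf (P := Itm.ok 206) (iqb tpr734_c)) (BT.Fa_leaf (P := Itm.ok 206) (iqf tpr583_c)))) (BT.Fa_mk (BT.Fa_mk (BT.Fa_leaf (P := Itm.ok 206) (iqb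 tpr77_c)) (BT.Fa_leaf (P := Itm.ok 206) (iqb tpr1196_c))) (BT.Fa_leaf (P := Itm.ok 206) (iqf tpr620_c)))) (BT.Fa_mk (BT.Fa_mk (BT.Fa_mk (BT.Fa_leaf (P := Itm.ok 206) (iqf tpr676_c)) (BT.Fa_leaf (P := Itm.ok 206) (iqb tpr592_c))) (BT.Fa_mk (BT.Fa_leaf (P := Itm.ok 206) (iqf tpr593_c)) (BT.Fa_leaf (P := Itm.ok 206) (iqf tpr106_c)))) (BT.Fa_mk (BT.Fa_mk (BT.Fa_leaf (P := Itm.ok 206) (iqf tpr610_c)) (BT.Fa_leaf (P := Itm.ok 206) (iqb tpr661_c))) (BT.Fa_leaf (P := Itm.ok 206) (iqf tpr664_c)))))) (BT.Fa_mk (BT.Fa_mk (BT.Fa_mk (BT.Fa_mk (BT.Fa_mk (BT.Fa_leaf (P := Itm.ok 206) (iqf tpr626_c)) (BT.Fa_leaf (P := Itm.ok 206) (iqb tpr960_c))) (BT.Fa_mk (BT.Fa_leaf (P := Itm.ok 206) (iqf tpr698_c)) (BT.Fa_leaf (P := Itm.ok 206) (iqf tpr1190_c))))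 (BT.Fa_mk (BT.Fa_mk (BT.Fa_leaf (P := Itm.ok 206) (iqf tpr702_c)) (BT.Fa_leaf (P := Itm.ok 206) (iqb tpr636_c))) (BT.Fa_mk (BT.Fa_leaf (P := Itm.ok 206) (iqb tpr610_c)) (BT.Fa_leaf (P := Itm.ok 206) (iqb tpr1058_c))))) (BT.Fa_mk (BT.Fa_mk (BT.Fa_mk (BT.Fa_leaf (P := Itm.ok 206) (iqb tpr151_c)) (BT.Fa_leaf (P := Itm.ok 206) (iqb tpr62_c))) (BT.Fa_mk (BT.Fa_leaf (P := Itm.ok 206) (iqf tpr627_c)) (BT.Fa_leaf (P := Itm.ok 206) (iqf tpr672_c)))) (BT.Fa_mk (BT.Fa_mk (BT.Fa_leaf (P := Itm.ok 206) (iqf tpr637_c)) (BT.Fa_leaf (P := Itm.ok 206) (iqf tpr591_c))) (BT.Fa_leaf (P := Itm.ok 206) (iqf tpr544_c))))) (BT.Fa_mk (BT.Fa_mk (BT.Fa_mk (BT.Fa_mk (BT.Fa_leaf (P := Itm.ok 206) (iqb tpr583_c)) (BT.Fa_leaf (P := Itm.ok 206) (iqb tpr804_c)))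 (BT.Fa_mk (BT.Fa_leaf (P := Itm.ok 206) (iqf tpr641_c)) (BT.Fa_leaf (P := Itm.ok 206) (iqf tpr536_c)))) (BT.Fa_mk (BT.Fa_mk (BT.Fa_leaf (P := Itm.ok 206) (iqb tpr605_c)) (BT.Fa_leaf (P := Itm.ok 206) (iqb tpr641_c))) (BT.Fa_leaf (P := Itm.ok 206) (iqb tpr615_c)))) (BT.Fa_mk (BT.Fa_mk (BT.Fa_mk (BT.Fa_leaf (P := Itm.ok 206) (iqf tpr523_c)) (BT.Fa_leaf (P := Itm.ok 206) (iqf tpr521_c))) (BT.Fa_mk (BT.Fa_leaf (P := Itm.ok 206) (iqb tpr1002_c)) (BT.Fa_leaf (P := Itm.ok 206) (iqb tpr106_c)))) (BT.Fa_mk (BT.Fa_mk (BT.Fa_leaf (P := Itm.ok 206) (iqf tpr203_c)) (BT.Fa_leaf (P := Itm.ok 206) (iqb tpr1192_c))) (BT.Fa_leaf (P := Itm.ok 206) (iqf tpr520_c))))))) (BT.Fa_mk (BT.Fa_mk (BT.Fa_mk (BT.Fa_mk (BT.Fa_mk (BT.Fa_mk (BT.Fa_leaf (P := Itm.ok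 206) (iqf tpr636_c)) (BT.Fa_leaf (P := Itm.ok 206) (iqb tpr614_c))) (BT.Fa_mk (BT.Fa_leaf (P := Itm.ok 206) (iqb tpr1195_c)) (BT.Fa_leaf (P := Itm.ok 206) (iqf tpr294_c)))) (BT.Fa_mk (BT.Fa_mk (BT.Fa_leaf (P := Itm.ok 206) (iqf tpr514_c)) (BT.Fa_leaf (P := Itm.ok 206) (iqf tpr605_c))) (BT.Fa_mk (BT.Fa_leaf (P := Itm.ok 206) (iqb tpr419_c)) (BT.Fa_leaf (P := Itm.ok 206) (iqb tpr628_c))))) (BT.Fa_mk (BT.Fa_mk (BT.Fa_mk (BT.Fa_leaf (P := Itm.ok 206) (iqf tpr151_c)) (BT.Fa_leaf (P := Itm.ok 206) (iqf tpr640_c))) (BT.Fa_mk (BT.Fa_leaf (P := Itm.ok 206) (iqb tpr602_c)) (BT.Fa_leaf (P := Itm.ok 206) (iqb tpr680_c)))) (BT.Fa_mk (BT.Fa_mk (BT.Fa_leaf (P := Itm.ok 206) (iqf tpr577_c)) (BT.Fa_leaf (P := Itm.ok 206) (iqb tpr631_c))) (BT.Fa_leaf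 (P := Itm.ok 206) (iqb tpr678_c))))) (BT.Fa_mk (BT.Fa_mk (BT.Fa_mk (BT.Fa_mk (BT.Fa_leaf (P := Itm.ok 206) (iqf tpr44_c)) (BT.Fa_leaf (P := Itm.ok 206) (iqb tpr724_c))) (BT.Fa_mk (BT.Fa_leaf (P := Itm.ok 206) (iqb tpr1065_c)) (BT.Fa_leaf (P := Itm.ok 206) (iqf tpr538_c)))) (BT.Fa_mk (BT.Fa_mk (BT.Fa_leaf (P := Itm.ok 206) (iqb tpr503_c)) (BT.Fa_leaf (P := Itm.ok 206) (iqb tpr967_c))) (BT.Fa_leaf (P := Itm.ok 206) (iqf tpr1199_c)))) (BT.Fa_mk (BT.Fa_mk (BT.Fa_mk (BT.Fa_leaf (P := Itm.ok 206) (iqb tpr552_c)) (BT.Fa_leaf (P := Itm.ok 206) (iqb tpr634_c))) (BT.Fa_mk (BT.Fa_leaf (P := Itm.ok 206) (iqf tpr543_c)) (BT.Fa_leaf (P := Itm.ok 206) (iqb tpr23_c)))) (BT.Fa_mk (BT.Fa_mk (BT.Fa_leaf (P := Itm.ok 206) (iqb tpr521_c)) (BT.Fa_leaf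 (P := Itm.ok 206) (iqb tpr715_c))) (BT.Fa_leaf (P := Itm.ok 206) (iqb tpr510_c)))))) (BT.Fa_mk (BT.Fa_mk (BT.Fa_mk (BT.Fa_mk (BT.Fa_mk (BT.Fa_leaf (P := Itm.ok 206) (iqb tpr700_c)) (BT.Fa_leaf (P := Itm.ok 206) (iqf tpr565_c))) (BT.Fa_mk (BT.Fa_leaf (P := Itm.ok 206) (iqb tpr1205_c)) (BT.Fa_leaf (P := Itm.ok 206) (iqf tpr553_c)))) (BT.Fa_mk (BT.Fa_mk (BT.Fa_leaf (P := Itm.ok 206) (iqf tpr1202_c)) (BT.Fa_leaf (P := Itm.ok 206) (iqb tpr537_c))) (BT.Fa_leaf (P := Itm.ok 206) (iqb tpr549_c)))) (BT.Fa_mk (BT.Fa_mk (BT.Fa_mk (BT.Fa_leaf (P := Itm.ok 206) (iqf tpr597_c)) (BT.Fa_leaf (P := Itm.ok 206) (iqf tpr554_c))) (BT.Fa_mk (BT.Fa_leaf (P := Itm.ok 206) (iqb tpr590_c)) (BT.Fa_leaf (P := Itm.ok 206) (iqb tpr1197_c)))) (BT.Fa_mk (BT.Fa_mk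 (BT.Fa_leaf (P := Itm.ok 206) (iqb tpr1204_c)) (BT.Fa_leaf (P := Itm.ok 206) (iqf tpr1201_c))) (BT.Fa_leaf (P := Itm.ok 206) (iqf tpr643_c))))) (BT.Fa_mk (BT.Fa_mk (BT.Fa_mk (BT.Fa_mk (BT.Fa_leaf (P := Itm.ok 206) (iqb tpr671_c)) (BT.Fa_leaf (P := Itm.ok 206) (iqf tpr235_c))) (BT.Fa_mk (BT.Fa_leaf (P := Itm.ok 206) (iqf tpr650_c)) (BT.Fa_leaf (P := Itm.ok 206) (iqf tpr691_c)))) (BT.Fa_mk (BT.Fa_mk (BT.Fa_leaf (P := Itm.ok 206) (iqb tpr543_c)) (BT.Fa_leaf (P := Itm.ok 206) (iqf tpr594_c))) (BT.Fa_leaf (P := Itm.ok 206) (iqb tpr569_c)))) (BT.Fa_mk (BT.Fa_mk (BT.Fa_mk (BT.Fa_leaf (P := Itm.ok 206) (iqf tpr546_c)) (BT.Fa_leaf (P := Itm.ok 206) (iqb tpr536_c))) (BT.Fa_mk (BT.Fa_leaf (P := Itm.ok 206) (iqf tpr526_c)) (BT.Fa_leaf (P :=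 Itm.ok 206) (iqb tpr576_c)))) (BT.Fa_mk (BT.Fa_mk (BT.Fa_leaf (P := Itm.ok 206) (iqb tpr293_c)) (BT.Fa_leaf (P := Itm.ok 206) (iqf tpr592_c))) (BT.Fa_leaf (P := Itm.ok 206) (iqb tpr1213_c))))))))) (BT.Fa_mk (BT.Fa_mk (BT.Fa_mk (BT.Fa_mk (BT.Fa_mk (BT.Fa_mk (BT.Fa_mk (BT.Fa_mk (BT.Fa_leaf (P := Itm.ok 206) (iqb tpr620_c)) (BT.Fa_leaf (P := Itm.ok 206) (iqf tpr12_c))) (BT.Fa_mk (BT.Fa_leaf (P := Itm.ok 206) (iqb tpr222_c)) (BT.Fa_leaf (P := Itm.ok 206) (iqb tpr500_c)))) (BT.Fa_mk (BT.Fa_mk (BT.Fa_leaf (P := Itm.ok 206) (iqf tpr504_c)) (BT.Fa_leaf (P := Itm.ok 206) (iqb tpr619_c))) (BT.Fa_mk (BT.Fa_leaf (P := Itm.ok 206) (iqb tpr57_c)) (BT.Fa_leaf (P := Itm.ok 206) (iqb tpr74_c))))) (BT.Fa_mk (BT.Fa_mk (BT.Fa_mk (BT.Fa_leaf (P := Itm.ok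 206) (iqb tpr15_c)) (BT.Fa_leaf (P := Itm.ok 206) (iqb tpr344_c))) (BT.Fa_mk (BT.Fa_leaf (P := Itm.ok 206) (iqf tpr537_c)) (BT.Fa_leaf (P := Itm.ok 206) (iqb tpr712_c)))) (BT.Fa_mk (BT.Fa_mk (BT.Fa_leaf (P := Itm.ok 206) (iqb tpr466_c)) (BT.Fa_leaf (P := Itm.ok 206) (iqf tpr78_c))) (BT.Fa_leaf (P := Itm.ok 206) (iqb tpr654_c))))) (BT.Fa_mk (BT.Fa_mk (BT.Fa_mk (BT.Fa_mk (BT.Fa_leaf (P := Itm.ok 206) (iqb tpr1227_c)) (BT.Fa_leaf (P := Itm.ok 206) (iqf tpr81_c))) (BT.Fa_mk (BT.Fa_leaf (P := Itm.ok 206) (iqf tpr653_c)) (BT.Fa_leaf (P := Itm.ok 206) (iqf tpr1193_c)))) (BT.Fa_mk (BT.Fa_mk (BT.Fa_leaf (P := Itm.ok 206) (iqb tpr621_c)) (BT.Fa_leaf (P := Itm.ok 206) (iqf tpr630_c))) (BT.Fa_leaf (P := Itm.ok 206) (iqb tpr655_c)))) (BT.Fa_mk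 (BT.Fa_mk (BT.Fa_mk (BT.Fa_leaf (P := Itm.ok 206) (iqb tpr720_c)) (BT.Fa_leaf (P := Itm.ok 206) (iqf tpr406_c))) (BT.Fa_mk (BT.Fa_leaf (P := Itm.ok 206) (iqf tpr655_c)) (BT.Fa_leaf (P := Itm.ok 206) (iqf tpr1642_c)))) (BT.Fa_mk (BT.Fa_mk (BT.Fa_leaf (P := Itm.ok 206) (iqb tpr393_c)) (BT.Fa_leaf (P := Itm.ok 206) (iqf tpr118_c))) (BT.Fa_leaf (P := Itm.ok 206) (iqf tpr1216_c)))))) (BT.Fa_mk (BT.Fa_mk (BT.Fa_mk (BT.Fa_mk (BT.Fa_mk (BT.Fa_leaf (P := Itm.ok 206) (iqf tpr1254_c)) (BT.Fa_leaf (P := Itm.ok 206) (iqb tpr1254_c))) (BT.Fa_mk (BT.Fa_leaf (P := Itm.ok 206) (iqf tpr634_c)) (BT.Fa_leaf (P := Itm.ok 206) (iqf tpr160_c)))) (BT.Fa_mk (BT.Fa_mk (BT.Fa_leaf (P := Itm.ok 206) (iqf tpr1716_c)) (BT.Fa_leaf (P := Itm.ok 206) (iqb tpr1190_c)))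 (BT.Fa_mk (BT.Fa_leaf (P := Itm.ok 206) (iqb tpr1718_c)) (BT.Fa_leaf (P := Itm.ok 206) (iqf tpr1622_c))))) (BT.Fa_mk (BT.Fa_mk (BT.Fa_mk (BT.Fa_leaf (P := Itm.ok 206) (iqb tpr1249_c)) (BT.Fa_leaf (P := Itm.ok 206) (iqf tpr1717_c))) (BT.Fa_mk (BT.Fa_leaf (P := Itm.ok 206) (iqb tpr103_c)) (BT.Fa_leaf (P := Itm.ok 206) (iqf tpr216_c)))) (BT.Fa_mk (BT.Fa_mk (BT.Fa_leaf (P := Itm.ok 206) (iqb tpr24_c)) (BT.Fa_leaf (P := Itm.ok 206) (iqb tpr26_c))) (BT.Fa_leaf (P := Itm.ok 206) (iqf tpr123_c))))) (BT.Fa_mk (BT.Fa_mk (BT.Fa_mk (BT.Fa_mk (BT.Fa_leaf (P := Itm.ok 206) (iqf tpr122_c)) (BT.Fa_leaf (P := Itm.ok 206) (iqf tpr13_c))) (BT.Fa_mk (BT.Fa_leaf (P := Itm.ok 206) (iqb tpr9_c)) (BT.Fa_leaf (P := Itm.ok 206) (iqb tpr194_c)))) (BT.Fa_mk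 (BT.Fa_mk (BT.Fa_leaf (P := Itm.ok 206) (iqb tpr648_c)) (BT.Fa_leaf (P := Itm.ok 206) (iqb tpr339_c))) (BT.Fa_leaf (P := Itm.ok 206) (iqf tpr539_c)))) (BT.Fa_mk (BT.Fa_mk (BT.Fa_mk (BT.Fa_leaf (P := Itm.ok 206) (iqb tpr33_c)) (BT.Fa_leaf (P := Itm.ok 206) (iqf tpr87_c))) (BT.Fa_mk (BT.Fa_leaf (P := Itm.ok 206) (iqf tpr107_c)) (BT.Fa_leaf (P := Itm.ok 206) (iqb tpr334_c)))) (BT.Fa_mk (BT.Fa_mk (BT.Fa_leaf (P := Itm.ok 206) (iqb tpr1706_c)) (BT.Fa_leaf (P := Itm.ok 206) (iqb tpr160_c))) (BT.Fa_leaf (P := Itm.ok 206) (iqb tpr457_c))))))) (BT.Fa_mk (BT.Fa_mk (BT.Fa_mk (BT.Fa_mk (BT.Fa_mk (BT.Fa_mk (BT.Fa_leaf (P := Itm.ok 206) (iqb tpr315_c)) (BT.Fa_leaf (P := Itm.ok 206) (iqb tpr530_c))) (BT.Fa_mk (BT.Fa_leaf (P := Itm.ok 206) (iqf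 tpr545_c)) (BT.Fa_leaf (P := Itm.ok 206) (iqf tpr509_c)))) (BT.Fa_mk (BT.Fa_mk (BT.Fa_leaf (P := Itm.ok 206) (iqb tpr16_c)) (BT.Fa_leaf (P := Itm.ok 206) (iqf tpr566_c))) (BT.Fa_mk (BT.Fa_leaf (P := Itm.ok 206) (iqb tpr702_c)) (BT.Fa_leaf (P := Itm.ok 206) (iqb tpr1714_c))))) (BT.Fa_mk (BT.Fa_mk (BT.Fa_mk (BT.Fa_leaf (P := Itm.ok 206) (iqf tpr599_c)) (BT.Fa_leaf (P := Itm.ok 206) (iqb tpr256_c))) (BT.Fa_mk (BT.Fa_leaf (P := Itm.ok 206) (iqf tpr743_c)) (BT.Fa_leaf (P := Itm.ok 206) (iqf tpr57_c)))) (BT.Fa_mk (BT.Fa_mk (BT.Fa_leaf (P := Itm.ok 206) (iqb tpr216_c)) (BT.Fa_leaf (P := Itm.ok 206) (iqf tpr33_c))) (BT.Fa_leaf (P := Itm.ok 206) (iqb tpr107_c))))) (BT.Fa_mk (BT.Fa_mk (BT.Fa_mk (BT.Fa_mk (BT.Fa_leaf (P := Itm.ok 206) (iqb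 tpr591_c)) (BT.Fa_leaf (P := Itm.ok 206) (iqb tpr565_c))) (BT.Fa_mk (BT.Fa_leaf (P := Itm.ok 206) (iqb tpr1199_c)) (BT.Fa_leaf (P := Itm.ok 206) (iqf tpr549_c)))) (BT.Fa_mk (BT.Fa_mk (BT.Fa_leaf (P := Itm.ok 206) (iqb tpr1647_c)) (BT.Fa_leaf (P := Itm.ok 206) (iqf tpr314_c))) (BT.Fa_leaf (P := Itm.ok 206) (iqf tpr602_c)))) (BT.Fa_mk (BT.Fa_mk (BT.Fa_mk (BT.Fa_leaf (P := Itm.ok 206) (iqb tpr672_c)) (BT.Fa_leaf (P := Itm.ok 206) (iqf tpr1196_c))) (BT.Fa_mk (BT.Fa_leaf (P := Itm.ok 206) (iqf tpr1670_c)) (BT.Fa_leaf (P := Itm.ok 206) (iqf tpr1636_c)))) (BT.Fa_mk (BT.Fa_mk (BT.Fa_leaf (P := Itm.ok 206) (iqb tpr1637_c)) (BT.Fa_leaf (P := Itm.ok 206) (iqb tpr526_c))) (BT.Fa_leaf (P := Itm.ok 206) (iqb tpr653_c)))))) (BT.Fa_mk (BT.Fa_mk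 (BT.Fa_mk (BT.Fa_mk (BT.Fa_mk (BT.Fa_leaf (P := Itm.ok 206) (iqb tpr525_c)) (BT.Fa_leaf (P := Itm.ok 206) (iqf tpr315_c))) (BT.Fa_mk (BT.Fa_leaf (P := Itm.ok 206) (iqf tpr457_c)) (BT.Fa_leaf (P := Itm.ok 206) (iqf tpr9_c)))) (BT.Fa_mk (BT.Fa_mk (BT.Fa_leaf (P := Itm.ok 206) (iqf tpr1709_c)) (BT.Fa_leaf (P := Itm.ok 206) (iqb tpr959_c))) (BT.Fa_mk (BT.Fa_leaf (P := Itm.ok 206) (iqb tpr603_c)) (BT.Fa_leaf (P := Itm.ok 206) (iqf tpr1227_c))))) (BT.Fa_mk (BT.Fa_mk (BT.Fa_mk (BT.Fa_leaf (P := Itm.ok 206) (iqb tpr532_c)) (BT.Fa_leaf (P := Itm.ok 206) (iqf tpr628_c))) (BT.Fa_mk (BT.Fa_leaf (P := Itm.ok 206) (iqb tpr1715_c)) (BT.Fa_leaf (P := Itm.ok 206) (iqf tpr654_c)))) (BT.Fa_mk (BT.Fa_mk (BT.Fa_leaf (P := Itm.ok 206) (iqf tpr194_c))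 (BT.Fa_leaf (P := Itm.ok 206) (iqb tpr118_c))) (BT.Fa_leaf (P := Itm.ok 206) (iqb tpr539_c))))) (BT.Fa_mk (BT.Fa_mk (BT.Fa_mk (BT.Fa_mk (BT.Fa_leaf (P := Itm.ok 206) (iqb tpr1642_c)) (BT.Fa_leaf (P := Itm.ok 206) (iqf tpr532_c))) (BT.Fa_mk (BT.Fa_leaf (P := Itm.ok 206) (iqf tpr1249_c)) (BT.Fa_leaf (P := Itm.ok 206) (iqb tpr1622_c)))) (BT.Fa_mk (BT.Fa_mk (BT.Fa_leaf (P := Itm.ok 206) (iqb tpr1717_c)) (BT.Fa_leaf (P := Itm.ok 206) (iqf tpr1714_c))) (BT.Fa_leaf (P := Itm.ok 206) (iqb tpr325_c)))) (BT.Fa_mk (BT.Fa_mk (BT.Fa_mk (BT.Fa_leaf (P := Itm.ok 206) (iqf tpr1652_c)) (BT.Fa_leaf (P := Itm.ok 206) (iqf tpr603_c))) (BT.Fa_mk (BT.Fa_leaf (P := Itm.ok 206) (iqf tpr1646_c)) (BT.Fa_leaf (P := Itm.ok 206) (iqb tpr663_c)))) (BT.Fa_mk (BT.Fa_mk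 (BT.Fa_leaf (P := Itm.ok 206) (iqb tpr637_c)) (BT.Fa_leaf (P := Itm.ok 206) (iqb tpr613_c))) (BT.Fa_leaf (P := Itm.ok 206) (iqf tpr552_c)))))))) (BT.Fa_mk (BT.Fa_mk (BT.Fa_mk (BT.Fa_mk (BT.Fa_mk (BT.Fa_mk (BT.Fa_mk (BT.Fa_leaf (P := Itm.ok 206) (iqf tpr661_c)) (BT.Fa_leaf (P := Itm.ok 206) (iqb tpr553_c))) (BT.Fa_mk (BT.Fa_leaf (P := Itm.ok 206) (iqf tpr1710_c)) (BT.Fa_leaf (P := Itm.ok 206) (iqf tpr671_c)))) (BT.Fa_mk (BT.Fa_mk (BT.Fa_leaf (P := Itm.ok 206) (iqb tpr622_c)) (BT.Fa_leaf (P := Itm.ok 206) (iqf tpr715_c))) (BT.Fa_mk (BT.Fa_leaf (P := Itm.ok 206) (iqb tpr643_c)) (BT.Fa_leaf (P := Itm.ok 206) (iqf tpr1650_c))))) (BT.Fa_mk (BT.Fa_mk (BT.Fa_mk (BT.Fa_leaf (P := Itm.ok 206) (iqb tpr1716_c)) (BT.Fa_leaf (P := Itm.ok 206)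 (iqf tpr1065_c))) (BT.Fa_mk (BT.Fa_leaf (P := Itm.ok 206) (iqb tpr1239_c)) (BT.Fa_leaf (P := Itm.ok 206) (iqf tpr1715_c)))) (BT.Fa_mk (BT.Fa_mk (BT.Fa_leaf (P := Itm.ok 206) (iqb tpr1712_c)) (BT.Fa_leaf (P := Itm.ok 206) (iqb tpr522_c))) (BT.Fa_leaf (P := Itm.ok 206) (iqf tpr1213_c))))) (BT.Fa_mk (BT.Fa_mk (BT.Fa_mk (BT.Fa_mk (BT.Fa_leaf (P := Itm.ok 206) (iqf tpr256_c)) (BT.Fa_leaf (P := Itm.ok 206) (iqb tpr690_c))) (BT.Fa_mk (BT.Fa_leaf (P := Itm.ok 206) (iqf tpr1718_c)) (BT.Fa_leaf (P := Itm.ok 206) (iqb tpr646_c)))) (BT.Fa_mk (BT.Fa_mk (BT.Fa_leaf (P := Itm.ok 206) (iqf tpr510_c)) (BT.Fa_leaf (P := Itm.ok 206) (iqb tpr559_c))) (BT.Fa_leaf (P := Itm.ok 206) (iqb tpr514_c)))) (BT.Fa_mk (BT.Fa_mk (BT.Fa_mk (BT.Fa_leaf (P := Itm.ok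 206) (iqb tpr515_c)) (BT.Fa_leaf (P := Itm.ok 206) (iqf tpr513_c))) (BT.Fa_mk (BT.Fa_leaf (P := Itm.ok 206) (iqf tpr588_c)) (BT.Fa_leaf (P := Itm.ok 206) (iqf tpr683_c)))) (BT.Fa_mk (BT.Fa_mk (BT.Fa_leaf (P := Itm.ok 206) (iqf tpr1647_c)) (BT.Fa_leaf (P := Itm.ok 206) (iqf tpr631_c))) (BT.Fa_leaf (P := Itm.ok 206) (iqb tpr1711_c)))))) (BT.Fa_mk (BT.Fa_mk (BT.Fa_mk (BT.Fa_mk (BT.Fa_mk (BT.Fa_leaf (P := Itm.ok 206) (iqb tpr695_c)) (BT.Fa_leaf (P := Itm.ok 206) (iqf tpr987_c))) (BT.Fa_mk (BT.Fa_leaf (P := Itm.ok 206) (iqf tpr1648_c)) (BT.Fa_leaf (P := Itm.ok 206) (iqb tpr1650_c)))) (BT.Fa_mk (BT.Fa_mk (BT.Fa_leaf (P := Itm.ok 206) (iqb tpr1720_c)) (BT.Fa_leaf (P := Itm.ok 206) (iqf tpr1711_c))) (BT.Fa_mk (BT.Fa_leaf (P := Itm.ok 206)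 (iqf tpr959_c)) (BT.Fa_leaf (P := Itm.ok 206) (iqb tpr1216_c))))) (BT.Fa_mk (BT.Fa_mk (BT.Fa_mk (BT.Fa_leaf (P := Itm.ok 206) (iqf tpr982_c)) (BT.Fa_leaf (P := Itm.ok 206) (iqf tpr1257_c))) (BT.Fa_mk (BT.Fa_leaf (P := Itm.ok 206) (iqf tpr575_c)) (BT.Fa_leaf (P := Itm.ok 206) (iqb tpr1257_c)))) (BT.Fa_mk (BT.Fa_mk (BT.Fa_leaf (P := Itm.ok 206) (iqb tpr1640_c)) (BT.Fa_leaf (P := Itm.ok 206) (iqf tpr1640_c))) (BT.Fa_leaf (P := Itm.ok 206) (iqb tpr595_c))))) (BT.Fa_mk (BT.Fa_mk (BT.Fa_mk (BT.Fa_mk (BT.Fa_leaf (P := Itm.ok 206) (iqf tpr1722_c)) (BT.Fa_leaf (P := Itm.ok 206) (iqb tpr1709_c))) (BT.Fa_mk (BT.Fa_leaf (P := Itm.ok 206) (iqb tpr650_c)) (BT.Fa_leaf (P := Itm.ok 206) (iqf tpr325_c)))) (BT.Fa_mk (BT.Fa_mk (BT.Fa_leaf (P := Itm.ok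 206) (iqf tpr1712_c)) (BT.Fa_leaf (P := Itm.ok 206) (iqf tpr646_c))) (BT.Fa_leaf (P := Itm.ok 206) (iqb tpr1652_c)))) (BT.Fa_mk (BT.Fa_mk (BT.Fa_mk (BT.Fa_leaf (P := Itm.ok 206) (iqf tpr525_c)) (BT.Fa_leaf (P := Itm.ok 206) (iqf tpr1637_c))) (BT.Fa_mk (BT.Fa_leaf (P := Itm.ok 206) (iqb tpr1670_c)) (BT.Fa_leaf (P := Itm.ok 206) (iqb tpr1636_c)))) (BT.Fa_mk (BT.Fa_mk (BT.Fa_leaf (P := Itm.ok 206) (iqf tpr1706_c)) (BT.Fa_leaf (P := Itm.ok 206) (iqf tpr690_c))) (BT.Fa_leaf (P := Itm.ok 206) (iqb tpr1710_c))))))) (BT.Fa_mk (BT.Fa_mk (BT.Fa_mk (BT.Fa_mk (BT.Fa_mk (BT.Fa_mk (BT.Fa_leaf (P := Itm.ok 206) (iqf tpr1720_c)) (BT.Fa_leaf (P := Itm.ok 206) (iqf tpr1239_c))) (BT.Fa_mk (BT.Fa_leaf (P := Itm.ok 206) (iqf tpr1724_c)) (BT.Fa_leaf (P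 := Itm.ok 206) (iqf tpr1721_c)))) (BT.Fa_mk (BT.Fa_mk (BT.Fa_leaf (P := Itm.ok 206) (iqf tpr595_c)) (BT.Fa_leaf (P := Itm.ok 206) (iqf tpr1725_c))) (BT.Fa_mk (BT.Fa_leaf (P := Itm.ok 206) (iqf tpr24_c)) (BT.Fa_leaf (P := Itm.ok 206) (iqb tpr44_c))))) (BT.Fa_mk (BT.Fa_mk (BT.Fa_mk (BT.Fa_leaf (P := Itm.ok 206) (iqf tpr1188_c)) (BT.Fa_leaf (P := Itm.ok 206) (iqb tpr1186_c))) (BT.Fa_mk (BT.Fa_leaf (P := Itm.ok 206) (iqf tpr295_c)) (BT.Fa_leaf (P := Itm.ok 206) (iqf tpr1210_c)))) (BT.Fa_mk (BT.Fa_mk (BT.Fa_leaf (P := Itm.ok 206) (iqb tpr742_c)) (BT.Fa_leaf (P := Itm.ok 206) (iqf tpr287_c))) (BT.Fa_leaf (P := Itm.ok 206) (iqf tpr587_c))))) (BT.Fa_mk (BT.Fa_mk (BT.Fa_mk (BT.Fa_mk (BT.Fa_leaf (P := Itm.ok 206) (iqf tpr1215_c)) (BT.Fa_leaf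 (P := Itm.ok 206) (iqf tpr1212_c))) (BT.Fa_mk (BT.Fa_leaf (P := Itm.ok 206) (iqf tpr1209_c)) (BT.Fa_leaf (P := Itm.ok 206) (iqf tpr1211_c)))) (BT.Fa_mk (BT.Fa_mk (BT.Fa_leaf (P := Itm.ok 206) (iqf tpr687_c)) (BT.Fa_leaf (P := Itm.ok 206) (iqb tpr1207_c))) (BT.Fa_leaf (P := Itm.ok 206) (iqf tpr674_c)))) (BT.Fa_mk (BT.Fa_mk (BT.Fa_mk (BT.Fa_leaf (P := Itm.ok 206) (iqf tpr742_c)) (BT.Fa_leaf (P := Itm.ok 206) (iqb tpr740_c))) (BT.Fa_mk (BT.Fa_leaf (P := Itm.ok 206) (iqb tpr247_c)) (BT.Fa_leaf (P := Itm.ok 206) (iqb tpr1182_c)))) (BT.Fa_mk (BT.Fa_mk (BT.Fa_leaf (P := Itm.ok 206) (iqb tpr265_c)) (BT.Fa_leaf (P := Itm.ok 206) (iqb tpr1214_c))) (BT.Fa_leaf (P := Itm.ok 206) (iqf tpr1185_c)))))) (BT.Fa_mk (BT.Fa_mk (BT.Fa_mk (BT.Fa_mk (BT.Fa_mk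 (BT.Fa_leaf (P := Itm.ok 206) (iqb tpr506_c)) (BT.Fa_leaf (P := Itm.ok 206) (iqf tpr245_c))) (BT.Fa_mk (BT.Fa_leaf (P := Itm.ok 206) (iqb tpr1206_c)) (BT.Fa_leaf (P := Itm.ok 206) (iqb tpr675_c)))) (BT.Fa_mk (BT.Fa_mk (BT.Fa_leaf (P := Itm.ok 206) (iqb tpr556_c)) (BT.Fa_leaf (P := Itm.ok 206) (iqb tpr727_c))) (BT.Fa_leaf (P := Itm.ok 206) (iqb tpr1194_c)))) (BT.Fa_mk (BT.Fa_mk (BT.Fa_mk (BT.Fa_leaf (P := Itm.ok 206) (iqb tpr1221_c)) (BT.Fa_leaf (P := Itm.ok 206) (iqf tpr662_c))) (BT.Fa_mk (BT.Fa_leaf (P := Itm.ok 206) (iqb tpr1099_c)) (BT.Fa_leaf (P := Itm.ok 206) (iqb tpr287_c)))) (BT.Fa_mk (BT.Fa_mk (BT.Fa_leaf (P := Itm.ok 206) (iqf tpr1203_c)) (BT.Fa_leaf (P := Itm.ok 206) (iqb tpr584_c))) (BT.Fa_leaf (P := Itm.ok 206) (iqb tpr1208_c)))))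 (BT.Fa_mk (BT.Fa_mk (BT.Fa_mk (BT.Fa_mk (BT.Fa_leaf (P := Itm.ok 206) (iqb tpr669_c)) (BT.Fa_leaf (P := Itm.ok 206) (iqf tpr703_c))) (BT.Fa_mk (BT.Fa_leaf (P := Itm.ok 206) (iqb tpr1187_c)) (BT.Fa_leaf (P := Itm.ok 206) (iqf tpr688_c)))) (BT.Fa_mk (BT.Fa_mk (BT.Fa_leaf (P := Itm.ok 206) (iqf tpr642_c)) (BT.Fa_leaf (P := Itm.ok 206) (iqf tpr609_c))) (BT.Fa_leaf (P := Itm.ok 206) (iqb tpr236_c)))) (BT.Fa_mk (BT.Fa_mk (BT.Fa_mk (BT.Fa_leaf (P := Itm.ok 206) (iqb tpr589_c)) (BT.Fa_leaf (P := Itm.ok 206) (iqb tpr682_c))) (BT.Fa_mk (BT.Fa_leaf (P := Itm.ok 206) (iqf tpr686_c)) (BT.Fa_leaf (P := Itm.ok 206) (iqb tpr547_c)))) (BT.Fa_mk (BT.Fa_mk (BT.Fa_leaf (P := Itm.ok 206) (iqb tpr579_c)) (BT.Fa_leaf (P := Itm.ok 206) (iqf tpr1090_c)))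 (BT.Fa_leaf (P := Itm.ok 206) (iqb tpr1001_c))))))))))

/-- all words of the class have labels -/
theorem pokNFzE2A3H2ByAzAyB2H3A2EzF : POK 206 xNFzE2A3H2ByAzAyB2H3A2EzF :=
  y_pok (C0 := ceNFzE2A3H2ByAzAyB2H3A2EzF) (C1 := coNFzE2A3H2ByAzAyB2H3A2EzF) topNFzE2A3H2ByAzAyB2H3A2EzF nbNFzE2A3H2ByAzAyB2H3A2EzF (BT.Fa_of_all iiNFzE2A3H2ByAzAyB2H3A2EzF_c)
    (BT.Fa_mk (BT.Fa_mk (BT.Fa_mk (BT.Fa_mk (BT.Fa_mk (cyE_spec zeNFzE2A3H2ByAzAyB2H3A2EzF_0) (cyE_spec zeNFzE2A3H2ByAzAyB2H3A2EzF_1)) (cyE_spec zeNFzE2A3H2ByAzAyB2H3A2EzF_2)) (BT.Fa_mk (cyE_spec zeNFzE2A3H2ByAzAyB2H3A2EzF_3) (cyE_spec zeNFzE2A3H2ByAzAyB2H3A2EzF_4))) (BT.Fa_mk (BT.Fa_mk (cyE_spec zeNFzE2A3H2ByAzAyB2H3A2EzF_5) (cyE_spec zeNFzE2A3H2ByAzAyB2H3A2EzF_6)) (BT.Fa_mk (BT.Fa_mk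 (cyE_spec zeNFzE2A3H2ByAzAyB2H3A2EzF_7) (cyE_spec zeNFzE2A3H2ByAzAyB2H3A2EzF_8)) (BT.Fa_mk (BT.Fa_mk (cyE_spec zeNFzE2A3H2ByAzAyB2H3A2EzF_9) (cyE_spec zeNFzE2A3H2ByAzAyB2H3A2EzF_10)) (cyE_spec zeNFzE2A3H2ByAzAyB2H3A2EzF_11))))) (BT.Fa_mk (BT.Fa_mk (BT.Fa_mk (BT.Fa_mk (cyE_spec zeNFzE2A3H2ByAzAyB2H3A2EzF_12) (cyE_spec zeNFzE2A3H2ByAzAyB2H3A2EzF_13)) (BT.Fa_mk (cyE_spec zeNFzE2A3H2ByAzAyB2H3A2EzF_14) (BT.Fa_mk (cyE_spec zeNFzE2A3H2ByAzAyB2H3A2EzF_15) (cyE_spec zeNFzE2A3H2ByAzAyB2H3A2EzF_16)))) (BT.Fa_mk (BT.Fa_mk (BT.Fa_mk (cyE_spec zeNFzE2A3H2ByAzAyB2H3A2EzF_17) (cyE_spec zeNFzE2A3H2ByAzAyB2H3A2EzF_18)) (BT.Fa_mk (cyE_spec zeNFzE2A3H2ByAzAyB2H3A2EzF_19) (cyE_spec zeNFzE2A3H2ByAzAyB2H3A2EzF_20))) (BT.Fa_mk (BT.Fa_mk (cyE_spec zeNFzE2A3H2ByAzAyB2H3A2EzF_21)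 (cyE_spec zeNFzE2A3H2ByAzAyB2H3A2EzF_22)) (BT.Fa_mk (cyE_spec zeNFzE2A3H2ByAzAyB2H3A2EzF_23) (cyE_spec zeNFzE2A3H2ByAzAyB2H3A2EzF_24))))) (BT.Fa_mk (BT.Fa_mk (BT.Fa_mk (BT.Fa_mk (cyE_spec zeNFzE2A3H2ByAzAyB2H3A2EzF_25) (cyE_spec zeNFzE2A3H2ByAzAyB2H3A2EzF_26)) (BT.Fa_mk (cyE_spec zeNFzE2A3H2ByAzAyB2H3A2EzF_27) (cyE_spec zeNFzE2A3H2ByAzAyB2H3A2EzF_28))) (BT.Fa_mk (BT.Fa_mk (cyE_spec zeNFzE2A3H2ByAzAyB2H3A2EzF_29) (cyE_spec zeNFzE2A3H2ByAzAyB2H3A2EzF_30)) (BT.Fa_mk (cyE_spec zeNFzE2A3H2ByAzAyB2H3A2EzF_31) (cyE_spec zeNFzE2A3H2ByAzAyB2H3A2EzF_32)))) (BT.Fa_mk (BT.Fa_mk (BT.Fa_mk (cyE_spec zeNFzE2A3H2ByAzAyB2H3A2EzF_33) (cyE_spec zeNFzE2A3H2ByAzAyB2H3A2EzF_34)) (BT.Fa_mk (cyE_spec zeNFzE2A3H2ByAzAyB2H3A2EzF_35) (cyE_spec zeNFzE2A3H2ByAzAyB2H3A2EzF_36)))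 (BT.Fa_mk (cyE_spec zeNFzE2A3H2ByAzAyB2H3A2EzF_37) (cyE_spec zeNFzE2A3H2ByAzAyB2H3A2EzF_38))))))
    (BT.Fa_mk (BT.Fa_mk (BT.Fa_mk (BT.Fa_mk (cyO_spec zoNFzE2A3H2ByAzAyB2H3A2EzF_0) (cyO_spec zoNFzE2A3H2ByAzAyB2H3A2EzF_1)) (BT.Fa_mk (BT.Fa_mk (cyO_spec zoNFzE2A3H2ByAzAyB2H3A2EzF_2) (cyO_spec zoNFzE2A3H2ByAzAyB2H3A2EzF_3)) (cyO_spec zoNFzE2A3H2ByAzAyB2H3A2EzF_4))) (BT.Fa_mk (BT.Fa_mk (BT.Fa_mk (cyO_spec zoNFzE2A3H2ByAzAyB2H3A2EzF_5) (cyO_spec zoNFzE2A3H2ByAzAyB2H3A2EzF_6)) (cyO_spec zoNFzE2A3H2ByAzAyB2H3A2EzF_7)) (BT.Fa_mk (BT.Fa_mk (cyO_spec zoNFzE2A3H2ByAzAyB2H3A2EzF_8) (BT.Fa_mk (cyO_spec zoNFzE2A3H2ByAzAyB2H3A2EzF_9) (cyO_spec zoNFzE2A3H2ByAzAyB2H3A2EzF_10))) (BT.Fa_mk (BT.Fa_mk (cyO_spec zoNFzE2A3H2ByAzAyB2H3A2EzF_11) (cyO_spec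 zoNFzE2A3H2ByAzAyB2H3A2EzF_12)) (cyO_spec zoNFzE2A3H2ByAzAyB2H3A2EzF_13))))) (BT.Fa_mk (BT.Fa_mk (BT.Fa_mk (BT.Fa_mk (BT.Fa_mk (cyO_spec zoNFzE2A3H2ByAzAyB2H3A2EzF_14) (cyO_spec zoNFzE2A3H2ByAzAyB2H3A2EzF_15)) (cyO_spec zoNFzE2A3H2ByAzAyB2H3A2EzF_16)) (BT.Fa_mk (cyO_spec zoNFzE2A3H2ByAzAyB2H3A2EzF_17) (cyO_spec zoNFzE2A3H2ByAzAyB2H3A2EzF_18))) (BT.Fa_mk (BT.Fa_mk (BT.Fa_mk (BT.Fa_mk (cyO_spec zoNFzE2A3H2ByAzAyB2H3A2EzF_19) (cyO_spec zoNFzE2A3H2ByAzAyB2H3A2EzF_20)) (BT.Fa_mk (cyO_spec zoNFzE2A3H2ByAzAyB2H3A2EzF_21) (cyO_spec zoNFzE2A3H2ByAzAyB2H3A2EzF_22))) (BT.Fa_mk (BT.Fa_mk (cyO_spec zoNFzE2A3H2ByAzAyB2H3A2EzF_23) (cyO_spec zoNFzE2A3H2ByAzAyB2H3A2EzF_24)) (cyO_spec zoNFzE2A3H2ByAzAyB2H3A2EzF_25))) (BT.Fa_mk (cyO_spec zoNFzE2A3H2ByAzAyB2H3A2EzF_26)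 (cyO_spec zoNFzE2A3H2ByAzAyB2H3A2EzF_27)))) (BT.Fa_mk (BT.Fa_mk (BT.Fa_mk (BT.Fa_mk (cyO_spec zoNFzE2A3H2ByAzAyB2H3A2EzF_28) (cyO_spec zoNFzE2A3H2ByAzAyB2H3A2EzF_29)) (cyO_spec zoNFzE2A3H2ByAzAyB2H3A2EzF_30)) (BT.Fa_mk (BT.Fa_mk (cyO_spec zoNFzE2A3H2ByAzAyB2H3A2EzF_31) (cyO_spec zoNFzE2A3H2ByAzAyB2H3A2EzF_32)) (BT.Fa_mk (BT.Fa_mk (cyO_spec zoNFzE2A3H2ByAzAyB2H3A2EzF_33) (cyO_spec zoNFzE2A3H2ByAzAyB2H3A2EzF_34)) (BT.Fa_mk (cyO_spec zoNFzE2A3H2ByAzAyB2H3A2EzF_35) (cyO_spec zoNFzE2A3H2ByAzAyB2H3A2EzF_36))))) (BT.Fa_mk (BT.Fa_mk (cyO_spec zoNFzE2A3H2ByAzAyB2H3A2EzF_37) (cyO_spec zoNFzE2A3H2ByAzAyB2H3A2EzF_38)) (BT.Fa_mk (cyO_spec zoNFzE2A3H2ByAzAyB2H3A2EzF_39) (cyO_spec zoNFzE2A3H2ByAzAyB2H3A2EzF_40))))))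
    iiNFzE2A3H2ByAzAyB2H3A2EzF_k

theorem iiNFzE2A3H2ByAzIzA2H3A2EzF_k : iiNFzE2A3H2ByAzIzA2H3A2EzF.Fa (Itm.ok 206) := (BT.Fa_mk (BT.Fa_mk (BT.Fa_mk (BT.Fa_mk (BT.Fa_mk (BT.Fa_mk (BT.Fa_mk (BT.Fa_mk (BT.Fa_mk (BT.Fa_leaf (P := Itm.ok 206) (iqb tpr5_c)) (BT.Fa_leaf (P := Itm.ok 206) (iqb tpr500_c))) (BT.Fa_mk (BT.Fa_leaf (P := Itm.ok 206) (iqf tpr167_c)) (BT.Fa_leaf (P := Itm.ok 206) (iqb tpr103_c)))) (BT.Fa_mk (BT.Fa_mk (BT.Fa_leaf (P := Itm.ok 206) (iqf tpr504_c)) (BT.Fa_leaf (P := Itm.ok 206) (iqb tpr26_c))) (BT.Fa_leaf (P := Itm.ok 206) (iqb tpr16_c)))) (BT.Fa_mk (BT.Fa_mk (BT.Fa_mk (BT.Fa_leaf (P := Itm.ok 206) (iqb tpr106_c)) (BT.Fa_leaf (P := Itm.ok 206) (iqf tpr502_c))) (BT.Fa_leaf (P := Itm.ok 206) (iqf tpr234_c))) (BT.Fa_mk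 (BT.Fa_mk (BT.Fa_leaf (P := Itm.ok 206) (iqf tpr499_c)) (BT.Fa_leaf (P := Itm.ok 206) (iqf tpr500_c))) (BT.Fa_leaf (P := Itm.ok 206) (iqb tpr508_c))))) (BT.Fa_mk (BT.Fa_mk (BT.Fa_mk (BT.Fa_mk (BT.Fa_leaf (P := Itm.ok 206) (iqb tpr78_c)) (BT.Fa_leaf (P := Itm.ok 206) (iqb tpr17_c))) (BT.Fa_mk (BT.Fa_leaf (P := Itm.ok 206) (iqf tpr720_c)) (BT.Fa_leaf (P := Itm.ok 206) (iqb tpr13_c)))) (BT.Fa_mk (BT.Fa_mk (BT.Fa_leaf (P := Itm.ok 206) (iqf tpr48_c)) (BT.Fa_leaf (P := Itm.ok 206) (iqf tpr22_c))) (BT.Fa_leaf (P := Itm.ok 206) (iqb tpr521_c)))) (BT.Fa_mk (BT.Fa_mk (BT.Fa_mk (BT.Fa_leaf (P := Itm.ok 206) (iqf tpr16_c)) (BT.Fa_leaf (P := Itm.ok 206) (iqf tpr621_c))) (BT.Fa_leaf (P := Itm.ok 206) (iqb tpr77_c))) (BT.Fa_mk (BT.Fa_mk (BT.Fa_leaf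 (P := Itm.ok 206) (iqb tpr606_c)) (BT.Fa_leaf (P := Itm.ok 206) (iqf tpr74_c))) (BT.Fa_leaf (P := Itm.ok 206) (iqb tpr122_c)))))) (BT.Fa_mk (BT.Fa_mk (BT.Fa_mk (BT.Fa_mk (BT.Fa_mk (BT.Fa_leaf (P := Itm.ok 206) (iqb tpr81_c)) (BT.Fa_leaf (P := Itm.ok 206) (iqb tpr87_c))) (BT.Fa_mk (BT.Fa_leaf (P := Itm.ok 206) (iqf tpr24_c)) (BT.Fa_leaf (P := Itm.ok 206) (iqf tpr339_c)))) (BT.Fa_mk (BT.Fa_mk (BT.Fa_leaf (P := Itm.ok 206) (iqb tpr555_c)) (BT.Fa_leaf (P := Itm.ok 206) (iqf tpr474_c))) (BT.Fa_leaf (P := Itm.ok 206) (iqf tpr513_c)))) (BT.Fa_mk (BT.Fa_mk (BT.Fa_mk (BT.Fa_leaf (P := Itm.ok 206) (iqb tpr123_c)) (BT.Fa_leaf (P := Itm.ok 206) (iqf tpr106_c))) (BT.Fa_leaf (P := Itm.ok 206) (iqf tpr344_c))) (BT.Fa_mk (BT.Fa_mk (BT.Fa_leaf (P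 := Itm.ok 206) (iqf tpr265_c)) (BT.Fa_leaf (P := Itm.ok 206) (iqf tpr466_c))) (BT.Fa_leaf (P := Itm.ok 206) (iqf tpr702_c))))) (BT.Fa_mk (BT.Fa_mk (BT.Fa_mk (BT.Fa_mk (BT.Fa_leaf (P := Itm.ok 206) (iqf tpr10_c)) (BT.Fa_leaf (P := Itm.ok 206) (iqb tpr582_c))) (BT.Fa_leaf (P := Itm.ok 206) (iqb tpr406_c))) (BT.Fa_mk (BT.Fa_mk (BT.Fa_leaf (P := Itm.ok 206) (iqf tpr393_c)) (BT.Fa_leaf (P := Itm.ok 206) (iqb tpr216_c))) (BT.Fa_leaf (P := Itm.ok 206) (iqf tpr57_c)))) (BT.Fa_mk (BT.Fa_mk (BT.Fa_mk (BT.Fa_leaf (P := Itm.ok 206) (iqb tpr118_c)) (BT.Fa_leaf (P := Itm.ok 206) (iqf tpr58_c))) (BT.Fa_leaf (P := Itm.ok 206) (iqb tpr736_c))) (BT.Fa_mk (BT.Fa_mk (BT.Fa_leaf (P := Itm.ok 206) (iqb tpr1653_c)) (BT.Fa_leaf (P := Itm.ok 206) (iqf tpr1683_c)))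 (BT.Fa_leaf (P := Itm.ok 206) (iqb tpr2000_c))))))) (BT.Fa_mk (BT.Fa_mk (BT.Fa_mk (BT.Fa_mk (BT.Fa_mk (BT.Fa_mk (BT.Fa_leaf (P := Itm.ok 206) (iqf tpr82_c)) (BT.Fa_leaf (P := Itm.ok 206) (iqf tpr508_c))) (BT.Fa_mk (BT.Fa_leaf (P := Itm.ok 206) (iqb tpr525_c)) (BT.Fa_leaf (P := Itm.ok 206) (iqf tpr648_c)))) (BT.Fa_mk (BT.Fa_mk (BT.Fa_leaf (P := Itm.ok 206) (iqb tpr167_c)) (BT.Fa_leaf (P := Itm.ok 206) (iqb tpr215_c))) (BT.Fa_leaf (P := Itm.ok 206) (iqf tpr1715_c)))) (BT.Fa_mk (BT.Fa_mk (BT.Fa_mk (BT.Fa_leaf (P := Itm.ok 206) (iqf tpr9_c)) (BT.Fa_leaf (P := Itm.ok 206) (iqb tpr576_c))) (BT.Fa_leaf (P := Itm.ok 206) (iqb tpr504_c))) (BT.Fa_mk (BT.Fa_mk (BT.Fa_leaf (P := Itm.ok 206) (iqb tpr568_c)) (BT.Fa_leaf (P := Itm.ok 206) (iqb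 tpr514_c))) (BT.Fa_leaf (P := Itm.ok 206) (iqb tpr8_c))))) (BT.Fa_mk (BT.Fa_mk (BT.Fa_mk (BT.Fa_mk (BT.Fa_leaf (P := Itm.ok 206) (iqf tpr510_c)) (BT.Fa_leaf (P := Itm.ok 206) (iqb tpr523_c))) (BT.Fa_leaf (P := Itm.ok 206) (iqf tpr203_c))) (BT.Fa_mk (BT.Fa_mk (BT.Fa_leaf (P := Itm.ok 206) (iqf tpr324_c)) (BT.Fa_leaf (P := Itm.ok 206) (iqf tpr475_c))) (BT.Fa_leaf (P := Itm.ok 206) (iqf tpr549_c)))) (BT.Fa_mk (BT.Fa_mk (BT.Fa_mk (BT.Fa_leaf (P := Itm.ok 206) (iqb tpr630_c)) (BT.Fa_leaf (P := Itm.ok 206) (iqf tpr537_c))) (BT.Fa_leaf (P := Itm.ok 206) (iqf tpr516_c))) (BT.Fa_mk (BT.Fa_mk (BT.Fa_leaf (P := Itm.ok 206) (iqf tpr583_c)) (BT.Fa_leaf (P := Itm.ok 206) (iqf tpr26_c))) (BT.Fa_leaf (P := Itm.ok 206) (iqf tpr518_c)))))) (BT.Fa_mk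 (BT.Fa_mk (BT.Fa_mk (BT.Fa_mk (BT.Fa_mk (BT.Fa_leaf (P := Itm.ok 206) (iqb tpr124_c)) (BT.Fa_leaf (P := Itm.ok 206) (iqf tpr555_c))) (BT.Fa_mk (BT.Fa_leaf (P := Itm.ok 206) (iqf tpr695_c)) (BT.Fa_leaf (P := Itm.ok 206) (iqb tpr565_c)))) (BT.Fa_mk (BT.Fa_mk (BT.Fa_leaf (P := Itm.ok 206) (iqf tpr532_c)) (BT.Fa_leaf (P := Itm.ok 206) (iqf tpr632_c))) (BT.Fa_leaf (P := Itm.ok 206) (iqb tpr343_c)))) (BT.Fa_mk (BT.Fa_mk (BT.Fa_mk (BT.Fa_leaf (P := Itm.ok 206) (iqb tpr292_c)) (BT.Fa_leaf (P := Itm.ok 206) (iqb tpr591_c))) (BT.Fa_leaf (P := Itm.ok 206) (iqf tpr633_c))) (BT.Fa_mk (BT.Fa_mk (BT.Fa_leaf (P := Itm.ok 206) (iqf tpr256_c)) (BT.Fa_leaf (P := Itm.ok 206) (iqf tpr607_c))) (BT.Fa_leaf (P := Itm.ok 206) (iqb tpr593_c))))) (BT.Fa_mk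 (BT.Fa_mk (BT.Fa_mk (BT.Fa_mk (BT.Fa_leaf (P := Itm.ok 206) (iqb tpr507_c)) (BT.Fa_leaf (P := Itm.ok 206) (iqf tpr457_c))) (BT.Fa_leaf (P := Itm.ok 206) (iqf tpr315_c))) (BT.Fa_mk (BT.Fa_mk (BT.Fa_leaf (P := Itm.ok 206) (iqf tpr103_c)) (BT.Fa_leaf (P := Itm.ok 206) (iqb tpr503_c))) (BT.Fa_leaf (P := Itm.ok 206) (iqf tpr503_c)))) (BT.Fa_mk (BT.Fa_mk (BT.Fa_mk (BT.Fa_leaf (P := Itm.ok 206) (iqb tpr522_c)) (BT.Fa_leaf (P := Itm.ok 206) (iqb tpr502_c))) (BT.Fa_leaf (P := Itm.ok 206) (iqb tpr295_c))) (BT.Fa_mk (BT.Fa_mk (BT.Fa_leaf (P := Itm.ok 206) (iqb tpr515_c)) (BT.Fa_leaf (P := Itm.ok 206) (iqb tpr238_c))) (BT.Fa_leaf (P := Itm.ok 206) (iqf tpr1899_c)))))))) (BT.Fa_mk (BT.Fa_mk (BT.Fa_mk (BT.Fa_mk (BT.Fa_mk (BT.Fa_mk (BT.Fa_mk (BT.Fa_leaf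 (P := Itm.ok 206) (iqb tpr772_c)) (BT.Fa_leaf (P := Itm.ok 206) (iqf tpr1996_c))) (BT.Fa_mk (BT.Fa_leaf (P := Itm.ok 206) (iqf tpr2942_c)) (BT.Fa_leaf (P := Itm.ok 206) (iqf tpr2943_c)))) (BT.Fa_mk (BT.Fa_mk (BT.Fa_leaf (P := Itm.ok 206) (iqf tpr609_c)) (BT.Fa_leaf (P := Itm.ok 206) (iqf tpr198_c))) (BT.Fa_leaf (P := Itm.ok 206) (iqb tpr738_c)))) (BT.Fa_mk (BT.Fa_mk (BT.Fa_mk (BT.Fa_leaf (P := Itm.ok 206) (iqf tpr1249_c)) (BT.Fa_leaf (P := Itm.ok 206) (iqf tpr1652_c))) (BT.Fa_leaf (P := Itm.ok 206) (iqf tpr851_c))) (BT.Fa_mk (BT.Fa_mk (BT.Fa_leaf (P := Itm.ok 206) (iqb tpr461_c)) (BT.Fa_leaf (P := Itm.ok 206) (iqf tpr642_c))) (BT.Fa_leaf (P := Itm.ok 206) (iqf tpr2944_c))))) (BT.Fa_mk (BT.Fa_mk (BT.Fa_mk (BT.Fa_mk (BT.Fa_leaf (P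 := Itm.ok 206) (iqf tpr1626_c)) (BT.Fa_leaf (P := Itm.ok 206) (iqf tpr592_c))) (BT.Fa_leaf (P := Itm.ok 206) (iqf tpr54_c))) (BT.Fa_mk (BT.Fa_mk (BT.Fa_leaf (P := Itm.ok 206) (iqf tpr231_c)) (BT.Fa_leaf (P := Itm.ok 206) (iqb tpr1995_c))) (BT.Fa_leaf (P := Itm.ok 206) (iqf tpr1895_c)))) (BT.Fa_mk (BT.Fa_mk (BT.Fa_mk (BT.Fa_leaf (P := Itm.ok 206) (iqb tpr520_c)) (BT.Fa_leaf (P := Itm.ok 206) (iqf tpr509_c))) (BT.Fa_leaf (P := Itm.ok 206) (iqb tpr526_c))) (BT.Fa_mk (BT.Fa_mk (BT.Fa_leaf (P := Itm.ok 206) (iqb tpr247_c)) (BT.Fa_leaf (P := Itm.ok 206) (iqb tpr585_c))) (BT.Fa_leaf (P := Itm.ok 206) (iqb tpr556_c)))))) (BT.Fa_mk (BT.Fa_mk (BT.Fa_mk (BT.Fa_mk (BT.Fa_mk (BT.Fa_leaf (P := Itm.ok 206) (iqb tpr235_c)) (BT.Fa_leaf (P := Itm.ok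 206) (iqb tpr1199_c))) (BT.Fa_mk (BT.Fa_leaf (P := Itm.ok 206) (iqb tpr107_c)) (BT.Fa_leaf (P := Itm.ok 206) (iqb tpr294_c)))) (BT.Fa_mk (BT.Fa_mk (BT.Fa_leaf (P := Itm.ok 206) (iqb tpr22_c)) (BT.Fa_leaf (P := Itm.ok 206) (iqf tpr13_c))) (BT.Fa_leaf (P := Itm.ok 206) (iqf tpr519_c)))) (BT.Fa_mk (BT.Fa_mk (BT.Fa_mk (BT.Fa_leaf (P := Itm.ok 206) (iqb tpr571_c)) (BT.Fa_leaf (P := Itm.ok 206) (iqb tpr1919_c))) (BT.Fa_leaf (P := Itm.ok 206) (iqb tpr676_c))) (BT.Fa_mk (BT.Fa_mk (BT.Fa_leaf (P := Itm.ok 206) (iqb tpr527_c)) (BT.Fa_leaf (P := Itm.ok 206) (iqb tpr506_c))) (BT.Fa_leaf (P := Itm.ok 206) (iqb tpr622_c))))) (BT.Fa_mk (BT.Fa_mk (BT.Fa_mk (BT.Fa_mk (BT.Fa_leaf (P := Itm.ok 206) (iqb tpr538_c)) (BT.Fa_leaf (P := Itm.ok 206) (iqb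 tpr2945_c))) (BT.Fa_leaf (P := Itm.ok 206) (iqf tpr655_c))) (BT.Fa_mk (BT.Fa_mk (BT.Fa_leaf (P := Itm.ok 206) (iqb tpr1698_c)) (BT.Fa_leaf (P := Itm.ok 206) (iqf tpr846_c))) (BT.Fa_leaf (P := Itm.ok 206) (iqb tpr2946_c)))) (BT.Fa_mk (BT.Fa_mk (BT.Fa_mk (BT.Fa_leaf (P := Itm.ok 206) (iqb tpr1643_c)) (BT.Fa_leaf (P := Itm.ok 206) (iqb tpr544_c))) (BT.Fa_leaf (P := Itm.ok 206) (iqf tpr599_c))) (BT.Fa_mk (BT.Fa_mk (BT.Fa_leaf (P := Itm.ok 206) (iqf tpr1001_c)) (BT.Fa_leaf (P := Itm.ok 206) (iqf tpr602_c))) (BT.Fa_leaf (P := Itm.ok 206) (iqb tpr1637_c))))))) (BT.Fa_mk (BT.Fa_mk (BT.Fa_mk (BT.Fa_mk (BT.Fa_mk (BT.Fa_mk (BT.Fa_leaf (P := Itm.ok 206) (iqb tpr605_c)) (BT.Fa_leaf (P := Itm.ok 206) (iqb tpr324_c))) (BT.Fa_mk (BT.Fa_leaf (P :=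 Itm.ok 206) (iqf tpr1920_c)) (BT.Fa_leaf (P := Itm.ok 206) (iqf tpr1682_c)))) (BT.Fa_mk (BT.Fa_mk (BT.Fa_leaf (P := Itm.ok 206) (iqb tpr1703_c)) (BT.Fa_leaf (P := Itm.ok 206) (iqb tpr682_c))) (BT.Fa_leaf (P := Itm.ok 206) (iqb tpr4_c)))) (BT.Fa_mk (BT.Fa_mk (BT.Fa_mk (BT.Fa_leaf (P := Itm.ok 206) (iqf tpr729_c)) (BT.Fa_leaf (P := Itm.ok 206) (iqb tpr612_c))) (BT.Fa_leaf (P := Itm.ok 206) (iqb tpr505_c))) (BT.Fa_mk (BT.Fa_mk (BT.Fa_leaf (P := Itm.ok 206) (iqb tpr645_c)) (BT.Fa_leaf (P := Itm.ok 206) (iqf tpr511_c))) (BT.Fa_leaf (P := Itm.ok 206) (iqf tpr294_c))))) (BT.Fa_mk (BT.Fa_mk (BT.Fa_mk (BT.Fa_mk (BT.Fa_leaf (P := Itm.ok 206) (iqb tpr24_c)) (BT.Fa_leaf (P := Itm.ok 206) (iqf tpr8_c))) (BT.Fa_leaf (P := Itm.ok 206) (iqb tpr581_c)))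 (BT.Fa_mk (BT.Fa_mk (BT.Fa_leaf (P := Itm.ok 206) (iqb tpr528_c)) (BT.Fa_leaf (P := Itm.ok 206) (iqf tpr743_c))) (BT.Fa_leaf (P := Itm.ok 206) (iqf tpr982_c)))) (BT.Fa_mk (BT.Fa_mk (BT.Fa_mk (BT.Fa_leaf (P := Itm.ok 206) (iqb tpr702_c)) (BT.Fa_leaf (P := Itm.ok 206) (iqb tpr1193_c))) (BT.Fa_leaf (P := Itm.ok 206) (iqb tpr1685_c))) (BT.Fa_mk (BT.Fa_mk (BT.Fa_leaf (P := Itm.ok 206) (iqf tpr1193_c)) (BT.Fa_leaf (P := Itm.ok 206) (iqf tpr1909_c))) (BT.Fa_leaf (P := Itm.ok 206) (iqb tpr683_c)))))) (BT.Fa_mk (BT.Fa_mk (BT.Fa_mk (BT.Fa_mk (BT.Fa_mk (BT.Fa_leaf (P := Itm.ok 206) (iqb tpr537_c)) (BT.Fa_leaf (P := Itm.ok 206) (iqb tpr393_c))) (BT.Fa_mk (BT.Fa_leaf (P := Itm.ok 206) (iqb tpr534_c)) (BT.Fa_leaf (P := Itm.ok 206) (iqf tpr630_c))))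 (BT.Fa_mk (BT.Fa_mk (BT.Fa_leaf (P := Itm.ok 206) (iqf tpr1964_c)) (BT.Fa_leaf (P := Itm.ok 206) (iqf tpr406_c))) (BT.Fa_leaf (P := Itm.ok 206) (iqb tpr2004_c)))) (BT.Fa_mk (BT.Fa_mk (BT.Fa_mk (BT.Fa_leaf (P := Itm.ok 206) (iqf tpr1999_c)) (BT.Fa_leaf (P := Itm.ok 206) (iqb tpr2006_c))) (BT.Fa_leaf (P := Itm.ok 206) (iqb tpr57_c))) (BT.Fa_mk (BT.Fa_mk (BT.Fa_leaf (P := Itm.ok 206) (iqb tpr499_c)) (BT.Fa_leaf (P := Itm.ok 206) (iqb tpr48_c))) (BT.Fa_leaf (P := Itm.ok 206) (iqf tpr216_c))))) (BT.Fa_mk (BT.Fa_mk (BT.Fa_mk (BT.Fa_mk (BT.Fa_leaf (P := Itm.ok 206) (iqf tpr505_c)) (BT.Fa_leaf (P := Itm.ok 206) (iqf tpr529_c))) (BT.Fa_leaf (P := Itm.ok 206) (iqf tpr123_c))) (BT.Fa_mk (BT.Fa_mk (BT.Fa_leaf (P := Itm.ok 206) (iqb tpr54_c))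 (BT.Fa_leaf (P := Itm.ok 206) (iqb tpr198_c))) (BT.Fa_leaf (P := Itm.ok 206) (iqb tpr549_c)))) (BT.Fa_mk (BT.Fa_mk (BT.Fa_mk (BT.Fa_leaf (P := Itm.ok 206) (iqb tpr1180_c)) (BT.Fa_leaf (P := Itm.ok 206) (iqb tpr15_c))) (BT.Fa_leaf (P := Itm.ok 206) (iqb tpr516_c))) (BT.Fa_mk (BT.Fa_mk (BT.Fa_leaf (P := Itm.ok 206) (iqb tpr9_c)) (BT.Fa_leaf (P := Itm.ok 206) (iqb tpr761_c))) (BT.Fa_leaf (P := Itm.ok 206) (iqf tpr295_c))))))))) (BT.Fa_mk (BT.Fa_mk (BT.Fa_mk (BT.Fa_mk (BT.Fa_mk (BT.Fa_mk (BT.Fa_mk (BT.Fa_mk (BT.Fa_leaf (P := Itm.ok 206) (iqb tpr532_c)) (BT.Fa_leaf (P := Itm.ok 206) (iqb tpr869_c))) (BT.Fa_mk (BT.Fa_leaf (P := Itm.ok 206) (iqb tpr1681_c)) (BT.Fa_leaf (P := Itm.ok 206) (iqf tpr259_c)))) (BT.Fa_mk (BT.Fa_mk (BT.Fa_leaf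 (P := Itm.ok 206) (iqf tpr122_c)) (BT.Fa_leaf (P := Itm.ok 206) (iqf tpr78_c))) (BT.Fa_leaf (P := Itm.ok 206) (iqb tpr968_c)))) (BT.Fa_mk (BT.Fa_mk (BT.Fa_mk (BT.Fa_leaf (P := Itm.ok 206) (iqf tpr81_c)) (BT.Fa_leaf (P := Itm.ok 206) (iqb tpr33_c))) (BT.Fa_leaf (P := Itm.ok 206) (iqf tpr566_c))) (BT.Fa_mk (BT.Fa_mk (BT.Fa_leaf (P := Itm.ok 206) (iqf tpr124_c)) (BT.Fa_leaf (P := Itm.ok 206) (iqf tpr32_c))) (BT.Fa_leaf (P := Itm.ok 206) (iqb tpr339_c))))) (BT.Fa_mk (BT.Fa_mk (BT.Fa_mk (BT.Fa_mk (BT.Fa_leaf (P := Itm.ok 206) (iqb tpr75_c)) (BT.Fa_leaf (P := Itm.ok 206) (iqb tpr2010_c))) (BT.Fa_leaf (P := Itm.ok 206) (iqb tpr782_c))) (BT.Fa_mk (BT.Fa_mk (BT.Fa_leaf (P := Itm.ok 206) (iqb tpr334_c)) (BT.Fa_leaf (P := Itm.ok 206) (iqb tpr648_c)))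 (BT.Fa_leaf (P := Itm.ok 206) (iqf tpr87_c)))) (BT.Fa_mk (BT.Fa_mk (BT.Fa_mk (BT.Fa_leaf (P := Itm.ok 206) (iqb tpr466_c)) (BT.Fa_leaf (P := Itm.ok 206) (iqb tpr621_c))) (BT.Fa_leaf (P := Itm.ok 206) (iqb tpr586_c))) (BT.Fa_mk (BT.Fa_mk (BT.Fa_leaf (P := Itm.ok 206) (iqf tpr541_c)) (BT.Fa_leaf (P := Itm.ok 206) (iqb tpr1998_c))) (BT.Fa_leaf (P := Itm.ok 206) (iqb tpr677_c)))))) (BT.Fa_mk (BT.Fa_mk (BT.Fa_mk (BT.Fa_mk (BT.Fa_mk (BT.Fa_leaf (P := Itm.ok 206) (iqb tpr457_c)) (BT.Fa_leaf (P := Itm.ok 206) (iqb tpr695_c))) (BT.Fa_mk (BT.Fa_leaf (P := Itm.ok 206) (iqb tpr1190_c)) (BT.Fa_leaf (P := Itm.ok 206) (iqb tpr82_c)))) (BT.Fa_mk (BT.Fa_mk (BT.Fa_leaf (P := Itm.ok 206) (iqb tpr453_c)) (BT.Fa_leaf (P := Itm.ok 206) (iqb tpr720_c)))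 (BT.Fa_leaf (P := Itm.ok 206) (iqb tpr654_c)))) (BT.Fa_mk (BT.Fa_mk (BT.Fa_mk (BT.Fa_leaf (P := Itm.ok 206) (iqb tpr203_c)) (BT.Fa_leaf (P := Itm.ok 206) (iqf tpr507_c))) (BT.Fa_leaf (P := Itm.ok 206) (iqb tpr511_c))) (BT.Fa_mk (BT.Fa_mk (BT.Fa_leaf (P := Itm.ok 206) (iqb tpr564_c)) (BT.Fa_leaf (P := Itm.ok 206) (iqb tpr617_c))) (BT.Fa_leaf (P := Itm.ok 206) (iqb tpr530_c))))) (BT.Fa_mk (BT.Fa_mk (BT.Fa_mk (BT.Fa_mk (BT.Fa_leaf (P := Itm.ok 206) (iqf tpr545_c)) (BT.Fa_leaf (P := Itm.ok 206) (iqb tpr632_c))) (BT.Fa_leaf (P := Itm.ok 206) (iqf tpr603_c))) (BT.Fa_mk (BT.Fa_mk (BT.Fa_leaf (P := Itm.ok 206) (iqb tpr1647_c)) (BT.Fa_leaf (P := Itm.ok 206) (iqb tpr557_c))) (BT.Fa_leaf (P := Itm.ok 206) (iqf tpr33_c)))) (BT.Fa_mk (BT.Fa_mk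 (BT.Fa_mk (BT.Fa_leaf (P := Itm.ok 206) (iqb tpr589_c)) (BT.Fa_leaf (P := Itm.ok 206) (iqf tpr334_c))) (BT.Fa_leaf (P := Itm.ok 206) (iqf tpr536_c))) (BT.Fa_mk (BT.Fa_mk (BT.Fa_leaf (P := Itm.ok 206) (iqb tpr316_c)) (BT.Fa_leaf (P := Itm.ok 206) (iqf tpr959_c))) (BT.Fa_leaf (P := Itm.ok 206) (iqb tpr566_c))))))) (BT.Fa_mk (BT.Fa_mk (BT.Fa_mk (BT.Fa_mk (BT.Fa_mk (BT.Fa_mk (BT.Fa_leaf (P := Itm.ok 206) (iqb tpr1255_c)) (BT.Fa_leaf (P := Itm.ok 206) (iqf tpr585_c))) (BT.Fa_mk (BT.Fa_leaf (P := Itm.ok 206) (iqf tpr151_c)) (BT.Fa_leaf (P := Itm.ok 206) (iqb tpr569_c)))) (BT.Fa_mk (BT.Fa_mk (BT.Fa_leaf (P := Itm.ok 206) (iqf tpr1684_c)) (BT.Fa_leaf (P := Itm.ok 206) (iqf tpr1213_c))) (BT.Fa_leaf (P := Itm.ok 206) (iqf tpr1644_c)))) (BT.Fa_mk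 (BT.Fa_mk (BT.Fa_mk (BT.Fa_leaf (P := Itm.ok 206) (iqf tpr968_c)) (BT.Fa_leaf (P := Itm.ok 206) (iqf tpr1636_c))) (BT.Fa_leaf (P := Itm.ok 206) (iqf tpr1065_c))) (BT.Fa_mk (BT.Fa_mk (BT.Fa_leaf (P := Itm.ok 206) (iqb tpr697_c)) (BT.Fa_leaf (P := Itm.ok 206) (iqb tpr672_c))) (BT.Fa_leaf (P := Itm.ok 206) (iqb tpr599_c))))) (BT.Fa_mk (BT.Fa_mk (BT.Fa_mk (BT.Fa_mk (BT.Fa_leaf (P := Itm.ok 206) (iqf tpr1817_c)) (BT.Fa_leaf (P := Itm.ok 206) (iqb tpr25_c))) (BT.Fa_leaf (P := Itm.ok 206) (iqb tpr473_c))) (BT.Fa_mk (BT.Fa_mk (BT.Fa_leaf (P := Itm.ok 206) (iqb tpr1644_c)) (BT.Fa_leaf (P := Itm.ok 206) (iqf tpr1257_c))) (BT.Fa_leaf (P := Itm.ok 206) (iqb tpr725_c)))) (BT.Fa_mk (BT.Fa_mk (BT.Fa_mk (BT.Fa_leaf (P := Itm.ok 206) (iqb tpr518_c))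 (BT.Fa_leaf (P := Itm.ok 206) (iqf tpr1800_c))) (BT.Fa_leaf (P := Itm.ok 206) (iqf tpr1989_c))) (BT.Fa_mk (BT.Fa_mk (BT.Fa_leaf (P := Itm.ok 206) (iqf tpr640_c)) (BT.Fa_leaf (P := Itm.ok 206) (iqf tpr1990_c))) (BT.Fa_leaf (P := Itm.ok 206) (iqb tpr236_c)))))) (BT.Fa_mk (BT.Fa_mk (BT.Fa_mk (BT.Fa_mk (BT.Fa_mk (BT.Fa_leaf (P := Itm.ok 206) (iqf tpr1986_c)) (BT.Fa_leaf (P := Itm.ok 206) (iqf tpr1953_c))) (BT.Fa_mk (BT.Fa_leaf (P := Itm.ok 206) (iqb tpr51_c)) (BT.Fa_leaf (P := Itm.ok 206) (iqb tpr1663_c)))) (BT.Fa_mk (BT.Fa_mk (BT.Fa_leaf (P := Itm.ok 206) (iqf tpr652_c)) (BT.Fa_leaf (P := Itm.ok 206) (iqf tpr349_c))) (BT.Fa_leaf (P := Itm.ok 206) (iqf tpr1611_c)))) (BT.Fa_mk (BT.Fa_mk (BT.Fa_mk (BT.Fa_leaf (P := Itm.ok 206) (iqb tpr151_c))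 (BT.Fa_leaf (P := Itm.ok 206) (iqf tpr569_c))) (BT.Fa_leaf (P := Itm.ok 206) (iqf tpr522_c))) (BT.Fa_mk (BT.Fa_mk (BT.Fa_leaf (P := Itm.ok 206) (iqb tpr1197_c)) (BT.Fa_leaf (P := Itm.ok 206) (iqf tpr544_c))) (BT.Fa_leaf (P := Itm.ok 206) (iqf tpr1144_c))))) (BT.Fa_mk (BT.Fa_mk (BT.Fa_mk (BT.Fa_mk (BT.Fa_leaf (P := Itm.ok 206) (iqb tpr533_c)) (BT.Fa_leaf (P := Itm.ok 206) (iqf tpr191_c))) (BT.Fa_leaf (P := Itm.ok 206) (iqf tpr697_c))) (BT.Fa_mk (BT.Fa_mk (BT.Fa_leaf (P := Itm.ok 206) (iqf tpr591_c)) (BT.Fa_leaf (P := Itm.ok 206) (iqb tpr579_c))) (BT.Fa_leaf (P := Itm.ok 206) (iqb tpr517_c)))) (BT.Fa_mk (BT.Fa_mk (BT.Fa_mk (BT.Fa_leaf (P := Itm.ok 206) (iqb tpr510_c)) (BT.Fa_leaf (P := Itm.ok 206) (iqb tpr23_c))) (BT.Fa_leaf (P :=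 Itm.ok 206) (iqb tpr546_c))) (BT.Fa_mk (BT.Fa_mk (BT.Fa_leaf (P := Itm.ok 206) (iqf tpr612_c)) (BT.Fa_leaf (P := Itm.ok 206) (iqb tpr626_c))) (BT.Fa_leaf (P := Itm.ok 206) (iqb tpr592_c)))))))) (BT.Fa_mk (BT.Fa_mk (BT.Fa_mk (BT.Fa_mk (BT.Fa_mk (BT.Fa_mk (BT.Fa_mk (BT.Fa_leaf (P := Itm.ok 206) (iqf tpr676_c)) (BT.Fa_leaf (P := Itm.ok 206) (iqf tpr593_c))) (BT.Fa_mk (BT.Fa_leaf (P := Itm.ok 206) (iqb tpr620_c)) (BT.Fa_leaf (P := Itm.ok 206) (iqf tpr2015_c)))) (BT.Fa_mk (BT.Fa_mk (BT.Fa_leaf (P := Itm.ok 206) (iqb tpr657_c)) (BT.Fa_leaf (P := Itm.ok 206) (iqb tpr543_c))) (BT.Fa_leaf (P := Itm.ok 206) (iqf tpr595_c)))) (BT.Fa_mk (BT.Fa_mk (BT.Fa_mk (BT.Fa_leaf (P := Itm.ok 206) (iqf tpr636_c)) (BT.Fa_leaf (P := Itm.ok 206) (iqb tpr959_c)))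 (BT.Fa_leaf (P := Itm.ok 206) (iqb tpr623_c))) (BT.Fa_mk (BT.Fa_mk (BT.Fa_leaf (P := Itm.ok 206) (iqb tpr602_c)) (BT.Fa_leaf (P := Itm.ok 206) (iqb tpr1257_c))) (BT.Fa_leaf (P := Itm.ok 206) (iqf tpr721_c))))) (BT.Fa_mk (BT.Fa_mk (BT.Fa_mk (BT.Fa_mk (BT.Fa_leaf (P := Itm.ok 206) (iqf tpr588_c)) (BT.Fa_leaf (P := Itm.ok 206) (iqb tpr588_c))) (BT.Fa_leaf (P := Itm.ok 206) (iqf tpr1547_c))) (BT.Fa_mk (BT.Fa_mk (BT.Fa_leaf (P := Itm.ok 206) (iqb tpr545_c)) (BT.Fa_leaf (P := Itm.ok 206) (iqf tpr575_c))) (BT.Fa_leaf (P := Itm.ok 206) (iqb tpr559_c)))) (BT.Fa_mk (BT.Fa_mk (BT.Fa_mk (BT.Fa_leaf (P := Itm.ok 206) (iqb tpr1633_c)) (BT.Fa_leaf (P := Itm.ok 206) (iqb tpr519_c))) (BT.Fa_leaf (P := Itm.ok 206) (iqf tpr559_c))) (BT.Fa_mk (BT.Fa_mk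 (BT.Fa_leaf (P := Itm.ok 206) (iqb tpr613_c)) (BT.Fa_leaf (P := Itm.ok 206) (iqf tpr562_c))) (BT.Fa_leaf (P := Itm.ok 206) (iqb tpr547_c)))))) (BT.Fa_mk (BT.Fa_mk (BT.Fa_mk (BT.Fa_mk (BT.Fa_mk (BT.Fa_leaf (P := Itm.ok 206) (iqf tpr514_c)) (BT.Fa_leaf (P := Itm.ok 206) (iqf tpr521_c))) (BT.Fa_mk (BT.Fa_leaf (P := Itm.ok 206) (iqb tpr631_c)) (BT.Fa_leaf (P := Itm.ok 206) (iqf tpr515_c)))) (BT.Fa_mk (BT.Fa_mk (BT.Fa_leaf (P := Itm.ok 206) (iqb tpr509_c)) (BT.Fa_leaf (P := Itm.ok 206) (iqf tpr18_c))) (BT.Fa_leaf (P := Itm.ok 206) (iqb tpr1355_c)))) (BT.Fa_mk (BT.Fa_mk (BT.Fa_mk (BT.Fa_leaf (P := Itm.ok 206) (iqf tpr584_c)) (BT.Fa_leaf (P := Itm.ok 206) (iqb tpr653_c))) (BT.Fa_leaf (P := Itm.ok 206) (iqf tpr1190_c))) (BT.Fa_mk (BT.Fa_mk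 (BT.Fa_leaf (P := Itm.ok 206) (iqf tpr1991_c)) (BT.Fa_leaf (P := Itm.ok 206) (iqf tpr990_c))) (BT.Fa_leaf (P := Itm.ok 206) (iqf tpr1987_c))))) (BT.Fa_mk (BT.Fa_mk (BT.Fa_mk (BT.Fa_mk (BT.Fa_leaf (P := Itm.ok 206) (iqb tpr524_c)) (BT.Fa_leaf (P := Itm.ok 206) (iqf tpr520_c))) (BT.Fa_leaf (P := Itm.ok 206) (iqb tpr595_c))) (BT.Fa_mk (BT.Fa_mk (BT.Fa_leaf (P := Itm.ok 206) (iqb tpr575_c)) (BT.Fa_leaf (P := Itm.ok 206) (iqb tpr705_c))) (BT.Fa_leaf (P := Itm.ok 206) (iqf tpr543_c)))) (BT.Fa_mk (BT.Fa_mk (BT.Fa_mk (BT.Fa_leaf (P := Itm.ok 206) (iqb tpr344_c)) (BT.Fa_leaf (P := Itm.ok 206) (iqb tpr906_c))) (BT.Fa_leaf (P := Itm.ok 206) (iqb tpr633_c))) (BT.Fa_mk (BT.Fa_mk (BT.Fa_leaf (P := Itm.ok 206) (iqb tpr1646_c)) (BT.Fa_leaf (P :=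 Itm.ok 206) (iqf tpr622_c))) (BT.Fa_leaf (P := Itm.ok 206) (iqf tpr672_c))))))) (BT.Fa_mk (BT.Fa_mk (BT.Fa_mk (BT.Fa_mk (BT.Fa_mk (BT.Fa_mk (BT.Fa_leaf (P := Itm.ok 206) (iqf tpr565_c)) (BT.Fa_leaf (P := Itm.ok 206) (iqf tpr495_c))) (BT.Fa_mk (BT.Fa_leaf (P := Itm.ok 206) (iqf tpr23_c)) (BT.Fa_leaf (P := Itm.ok 206) (iqf tpr664_c)))) (BT.Fa_mk (BT.Fa_mk (BT.Fa_leaf (P := Itm.ok 206) (iqf tpr4_c)) (BT.Fa_leaf (P := Itm.ok 206) (iqf tpr1687_c))) (BT.Fa_leaf (P := Itm.ok 206) (iqf tpr1688_c)))) (BT.Fa_mk (BT.Fa_mk (BT.Fa_mk (BT.Fa_leaf (P := Itm.ok 206) (iqf tpr11_c)) (BT.Fa_leaf (P := Itm.ok 206) (iqb tpr1635_c))) (BT.Fa_leaf (P := Itm.ok 206) (iqb tpr1717_c))) (BT.Fa_mk (BT.Fa_mk (BT.Fa_leaf (P := Itm.ok 206) (iqf tpr2014_c)) (BT.Fa_leaf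 (P := Itm.ok 206) (iqf tpr2003_c))) (BT.Fa_leaf (P := Itm.ok 206) (iqb tpr1997_c))))) (BT.Fa_mk (BT.Fa_mk (BT.Fa_mk (BT.Fa_mk (BT.Fa_leaf (P := Itm.ok 206) (iqb tpr2009_c)) (BT.Fa_leaf (P := Itm.ok 206) (iqb tpr2008_c))) (BT.Fa_leaf (P := Itm.ok 206) (iqf tpr1903_c))) (BT.Fa_mk (BT.Fa_mk (BT.Fa_leaf (P := Itm.ok 206) (iqb tpr1648_c)) (BT.Fa_leaf (P := Itm.ok 206) (iqb tpr1824_c))) (BT.Fa_leaf (P := Itm.ok 206) (iqf tpr2017_c)))) (BT.Fa_mk (BT.Fa_mk (BT.Fa_mk (BT.Fa_leaf (P := Itm.ok 206) (iqb tpr1941_c)) (BT.Fa_leaf (P := Itm.ok 206) (iqf tpr1711_c))) (BT.Fa_leaf (P := Itm.ok 206) (iqb tpr1694_c))) (BT.Fa_mk (BT.Fa_mk (BT.Fa_leaf (P := Itm.ok 206) (iqf tpr542_c)) (BT.Fa_leaf (P := Itm.ok 206) (iqf tpr2018_c))) (BT.Fa_leaf (P := Itm.ok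 206) (iqb tpr624_c)))))) (BT.Fa_mk (BT.Fa_mk (BT.Fa_mk (BT.Fa_mk (BT.Fa_mk (BT.Fa_leaf (P := Itm.ok 206) (iqb tpr293_c)) (BT.Fa_leaf (P := Itm.ok 206) (iqb tpr701_c))) (BT.Fa_mk (BT.Fa_leaf (P := Itm.ok 206) (iqb tpr1640_c)) (BT.Fa_leaf (P := Itm.ok 206) (iqf tpr1701_c)))) (BT.Fa_mk (BT.Fa_mk (BT.Fa_leaf (P := Itm.ok 206) (iqf tpr160_c)) (BT.Fa_leaf (P := Itm.ok 206) (iqb tpr1701_c))) (BT.Fa_leaf (P := Itm.ok 206) (iqb tpr74_c)))) (BT.Fa_mk (BT.Fa_mk (BT.Fa_mk (BT.Fa_leaf (P := Itm.ok 206) (iqf tpr525_c)) (BT.Fa_leaf (P := Itm.ok 206) (iqb tpr429_c))) (BT.Fa_leaf (P := Itm.ok 206) (iqb tpr1636_c))) (BT.Fa_mk (BT.Fa_mk (BT.Fa_leaf (P := Itm.ok 206) (iqf tpr1637_c)) (BT.Fa_leaf (P := Itm.ok 206) (iqf tpr293_c))) (BT.Fa_leaf (P := Itm.ok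 206) (iqb tpr1988_c))))) (BT.Fa_mk (BT.Fa_mk (BT.Fa_mk (BT.Fa_mk (BT.Fa_leaf (P := Itm.ok 206) (iqf tpr604_c)) (BT.Fa_leaf (P := Itm.ok 206) (iqb tpr691_c))) (BT.Fa_leaf (P := Itm.ok 206) (iqf tpr568_c))) (BT.Fa_mk (BT.Fa_mk (BT.Fa_leaf (P := Itm.ok 206) (iqf tpr62_c)) (BT.Fa_leaf (P := Itm.ok 206) (iqf tpr598_c))) (BT.Fa_leaf (P := Itm.ok 206) (iqb tpr211_c)))) (BT.Fa_mk (BT.Fa_mk (BT.Fa_mk (BT.Fa_leaf (P := Itm.ok 206) (iqb tpr640_c)) (BT.Fa_leaf (P := Itm.ok 206) (iqb tpr734_c))) (BT.Fa_leaf (P := Itm.ok 206) (iqb tpr91_c))) (BT.Fa_mk (BT.Fa_mk (BT.Fa_leaf (P := Itm.ok 206) (iqb tpr2016_c)) (BT.Fa_leaf (P := Itm.ok 206) (iqf tpr1854_c))) (BT.Fa_leaf (P := Itm.ok 206) (iqb tpr2947_c))))))))))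

/-- all words of the class have labels -/
theorem pokNFzE2A3H2ByAzIzA2H3A2EzF : POK 206 xNFzE2A3H2ByAzIzA2H3A2EzF :=
  y_pok (C0 := ceNFzE2A3H2ByAzIzA2H3A2EzF) (C1 := coNFzE2A3H2ByAzIzA2H3A2EzF) topNFzE2A3H2ByAzIzA2H3A2EzF nbNFzE2A3H2ByAzIzA2H3A2EzF (BT.Fa_of_all iiNFzE2A3H2ByAzIzA2H3A2EzF_c)
    (BT.Fa_mk (BT.Fa_mk (BT.Fa_mk (BT.Fa_mk (cyE_spec zeNFzE2A3H2ByAzIzA2H3A2EzF_0) (cyE_spec zeNFzE2A3H2ByAzIzA2H3A2EzF_1)) (BT.Fa_mk (cyE_spec zeNFzE2A3H2ByAzIzA2H3A2EzF_2) (cyE_spec zeNFzE2A3H2ByAzIzA2H3A2EzF_3))) (BT.Fa_mk (BT.Fa_mk (cyE_spec zeNFzE2A3H2ByAzIzA2H3A2EzF_4) (BT.Fa_mk (cyE_spec zeNFzE2A3H2ByAzIzA2H3A2EzF_5) (cyE_spec zeNFzE2A3H2ByAzIzA2H3A2EzF_6))) (BT.Fa_mk (BT.Fa_mk (cyE_spec zeNFzE2A3H2ByAzIzA2H3A2EzF_7) (cyE_spec zeNFzE2A3H2ByAzIzA2H3A2EzF_8))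 (BT.Fa_mk (BT.Fa_mk (cyE_spec zeNFzE2A3H2ByAzIzA2H3A2EzF_9) (cyE_spec zeNFzE2A3H2ByAzIzA2H3A2EzF_10)) (BT.Fa_mk (cyE_spec zeNFzE2A3H2ByAzIzA2H3A2EzF_11) (cyE_spec zeNFzE2A3H2ByAzIzA2H3A2EzF_12)))))) (BT.Fa_mk (BT.Fa_mk (BT.Fa_mk (BT.Fa_mk (BT.Fa_mk (cyE_spec zeNFzE2A3H2ByAzIzA2H3A2EzF_13) (cyE_spec zeNFzE2A3H2ByAzIzA2H3A2EzF_14)) (BT.Fa_mk (cyE_spec zeNFzE2A3H2ByAzIzA2H3A2EzF_15) (cyE_spec zeNFzE2A3H2ByAzIzA2H3A2EzF_16))) (BT.Fa_mk (cyE_spec zeNFzE2A3H2ByAzIzA2H3A2EzF_17) (BT.Fa_mk (cyE_spec zeNFzE2A3H2ByAzIzA2H3A2EzF_18) (cyE_spec zeNFzE2A3H2ByAzIzA2H3A2EzF_19)))) (BT.Fa_mk (BT.Fa_mk (BT.Fa_mk (cyE_spec zeNFzE2A3H2ByAzIzA2H3A2EzF_20) (cyE_spec zeNFzE2A3H2ByAzIzA2H3A2EzF_21)) (cyE_spec zeNFzE2A3H2ByAzIzA2H3A2EzF_22)) (BT.Fa_mk (BT.Fa_mk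 (cyE_spec zeNFzE2A3H2ByAzIzA2H3A2EzF_23) (cyE_spec zeNFzE2A3H2ByAzIzA2H3A2EzF_24)) (cyE_spec zeNFzE2A3H2ByAzIzA2H3A2EzF_25)))) (BT.Fa_mk (BT.Fa_mk (BT.Fa_mk (cyE_spec zeNFzE2A3H2ByAzIzA2H3A2EzF_26) (cyE_spec zeNFzE2A3H2ByAzIzA2H3A2EzF_27)) (BT.Fa_mk (cyE_spec zeNFzE2A3H2ByAzIzA2H3A2EzF_28) (cyE_spec zeNFzE2A3H2ByAzIzA2H3A2EzF_29))) (BT.Fa_mk (BT.Fa_mk (cyE_spec zeNFzE2A3H2ByAzIzA2H3A2EzF_30) (cyE_spec zeNFzE2A3H2ByAzIzA2H3A2EzF_31)) (BT.Fa_mk (cyE_spec zeNFzE2A3H2ByAzIzA2H3A2EzF_32) (cyE_spec zeNFzE2A3H2ByAzIzA2H3A2EzF_33))))))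
    (BT.Fa_mk (BT.Fa_mk (BT.Fa_mk (BT.Fa_mk (cyO_spec zoNFzE2A3H2ByAzIzA2H3A2EzF_0) (cyO_spec zoNFzE2A3H2ByAzIzA2H3A2EzF_1)) (BT.Fa_mk (cyO_spec zoNFzE2A3H2ByAzIzA2H3A2EzF_2) (cyO_spec zoNFzE2A3H2ByAzIzA2H3A2EzF_3))) (BT.Fa_mk (BT.Fa_mk (cyO_spec zoNFzE2A3H2ByAzIzA2H3A2EzF_4) (BT.Fa_mk (cyO_spec zoNFzE2A3H2ByAzIzA2H3A2EzF_5) (cyO_spec zoNFzE2A3H2ByAzIzA2H3A2EzF_6))) (BT.Fa_mk (BT.Fa_mk (cyO_spec zoNFzE2A3H2ByAzIzA2H3A2EzF_7) (cyO_spec zoNFzE2A3H2ByAzIzA2H3A2EzF_8)) (BT.Fa_mk (BT.Fa_mk (cyO_spec zoNFzE2A3H2ByAzIzA2H3A2EzF_9) (cyO_spec zoNFzE2A3H2ByAzIzA2H3A2EzF_10)) (cyO_spec zoNFzE2A3H2ByAzIzA2H3A2EzF_11))))) (BT.Fa_mk (BT.Fa_mk (BT.Fa_mk (BT.Fa_mk (BT.Fa_mk (cyO_spec zoNFzE2A3H2ByAzIzA2H3A2EzF_12) (cyO_spec zoNFzE2A3H2ByAzIzA2H3A2EzF_13))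 (cyO_spec zoNFzE2A3H2ByAzIzA2H3A2EzF_14)) (BT.Fa_mk (BT.Fa_mk (cyO_spec zoNFzE2A3H2ByAzIzA2H3A2EzF_15) (cyO_spec zoNFzE2A3H2ByAzIzA2H3A2EzF_16)) (BT.Fa_mk (BT.Fa_mk (cyO_spec zoNFzE2A3H2ByAzIzA2H3A2EzF_17) (cyO_spec zoNFzE2A3H2ByAzIzA2H3A2EzF_18)) (BT.Fa_mk (cyO_spec zoNFzE2A3H2ByAzIzA2H3A2EzF_19) (cyO_spec zoNFzE2A3H2ByAzIzA2H3A2EzF_20))))) (BT.Fa_mk (BT.Fa_mk (BT.Fa_mk (BT.Fa_mk (cyO_spec zoNFzE2A3H2ByAzIzA2H3A2EzF_21) (cyO_spec zoNFzE2A3H2ByAzIzA2H3A2EzF_22)) (BT.Fa_mk (cyO_spec zoNFzE2A3H2ByAzIzA2H3A2EzF_23) (cyO_spec zoNFzE2A3H2ByAzIzA2H3A2EzF_24))) (cyO_spec zoNFzE2A3H2ByAzIzA2H3A2EzF_25)) (BT.Fa_mk (cyO_spec zoNFzE2A3H2ByAzIzA2H3A2EzF_26) (cyO_spec zoNFzE2A3H2ByAzIzA2H3A2EzF_27)))) (BT.Fa_mk (BT.Fa_mk (BT.Fa_mk (cyO_spec zoNFzE2A3H2ByAzIzA2H3A2EzF_28)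 (cyO_spec zoNFzE2A3H2ByAzIzA2H3A2EzF_29)) (BT.Fa_mk (cyO_spec zoNFzE2A3H2ByAzIzA2H3A2EzF_30) (cyO_spec zoNFzE2A3H2ByAzIzA2H3A2EzF_31))) (BT.Fa_mk (BT.Fa_mk (cyO_spec zoNFzE2A3H2ByAzIzA2H3A2EzF_32) (cyO_spec zoNFzE2A3H2ByAzIzA2H3A2EzF_33)) (BT.Fa_mk (cyO_spec zoNFzE2A3H2ByAzIzA2H3A2EzF_34) (cyO_spec zoNFzE2A3H2ByAzIzA2H3A2EzF_35))))))
    iiNFzE2A3H2ByAzIzA2H3A2EzF_k

theorem iiNFzE2A3H2BzIzB3H3A2EzAyAyF_k : iiNFzE2A3H2BzIzB3H3A2EzAyAyF.Fa (Itm.ok 206) := (BT.Fa_mk (BT.Fa_mk (BT.Fa_mk (BT.Fa_mk (BT.Fa_mk (BT.Fa_mk (BT.Fa_mk (BT.Fa_mk (BT.Fa_leaf (P := Itm.ok 206) (iqf tpr4_c)) (BT.Fa_leaf (P := Itm.ok 206) (iqb tpr7_c))) (BT.Fa_leaf (P := Itm.ok 206) (iqb tpr4_c))) (BT.Fa_mk (BT.Fa_leaf (P := Itm.ok 206) (iqf tpr5_c)) (BT.Fa_leaf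 (P := Itm.ok 206) (iqb tpr757_c)))) (BT.Fa_mk (BT.Fa_mk (BT.Fa_leaf (P := Itm.ok 206) (iqb tpr9_c)) (BT.Fa_leaf (P := Itm.ok 206) (iqb tpr499_c))) (BT.Fa_mk (BT.Fa_leaf (P := Itm.ok 206) (iqb tpr85_c)) (BT.Fa_leaf (P := Itm.ok 206) (iqb tpr11_c))))) (BT.Fa_mk (BT.Fa_mk (BT.Fa_mk (BT.Fa_leaf (P := Itm.ok 206) (iqf tpr11_c)) (BT.Fa_leaf (P := Itm.ok 206) (iqf tpr41_c))) (BT.Fa_mk (BT.Fa_leaf (P := Itm.ok 206) (iqb tpr16_c)) (BT.Fa_leaf (P := Itm.ok 206) (iqb tpr48_c)))) (BT.Fa_mk (BT.Fa_mk (BT.Fa_leaf (P := Itm.ok 206) (iqf tpr504_c)) (BT.Fa_leaf (P := Itm.ok 206) (iqb tpr516_c))) (BT.Fa_mk (BT.Fa_leaf (P := Itm.ok 206) (iqb tpr24_c)) (BT.Fa_leaf (P := Itm.ok 206) (iqb tpr26_c)))))) (BT.Fa_mk (BT.Fa_mk (BT.Fa_mk (BT.Fa_mk (BT.Fa_leaf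 (P := Itm.ok 206) (iqf tpr452_c)) (BT.Fa_leaf (P := Itm.ok 206) (iqb tpr103_c))) (BT.Fa_mk (BT.Fa_leaf (P := Itm.ok 206) (iqb tpr198_c)) (BT.Fa_leaf (P := Itm.ok 206) (iqb tpr74_c)))) (BT.Fa_mk (BT.Fa_mk (BT.Fa_leaf (P := Itm.ok 206) (iqb tpr36_c)) (BT.Fa_leaf (P := Itm.ok 206) (iqb tpr315_c))) (BT.Fa_mk (BT.Fa_leaf (P := Itm.ok 206) (iqf tpr758_c)) (BT.Fa_leaf (P := Itm.ok 206) (iqb tpr759_c))))) (BT.Fa_mk (BT.Fa_mk (BT.Fa_mk (BT.Fa_leaf (P := Itm.ok 206) (iqf tpr760_c)) (BT.Fa_leaf (P := Itm.ok 206) (iqf tpr78_c))) (BT.Fa_mk (BT.Fa_leaf (P := Itm.ok 206) (iqf tpr83_c)) (BT.Fa_leaf (P := Itm.ok 206) (iqb tpr129_c)))) (BT.Fa_mk (BT.Fa_mk (BT.Fa_leaf (P := Itm.ok 206) (iqf tpr122_c)) (BT.Fa_leaf (P := Itm.ok 206) (iqb tpr648_c)))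 (BT.Fa_mk (BT.Fa_leaf (P := Itm.ok 206) (iqb tpr349_c)) (BT.Fa_leaf (P := Itm.ok 206) (iqf tpr121_c))))))) (BT.Fa_mk (BT.Fa_mk (BT.Fa_mk (BT.Fa_mk (BT.Fa_mk (BT.Fa_leaf (P := Itm.ok 206) (iqb tpr10_c)) (BT.Fa_leaf (P := Itm.ok 206) (iqf tpr292_c))) (BT.Fa_mk (BT.Fa_leaf (P := Itm.ok 206) (iqb tpr57_c)) (BT.Fa_leaf (P := Itm.ok 206) (iqb tpr18_c)))) (BT.Fa_mk (BT.Fa_mk (BT.Fa_leaf (P := Itm.ok 206) (iqf tpr51_c)) (BT.Fa_leaf (P := Itm.ok 206) (iqf tpr37_c))) (BT.Fa_mk (BT.Fa_leaf (P := Itm.ok 206) (iqb tpr33_c)) (BT.Fa_leaf (P := Itm.ok 206) (iqf tpr123_c))))) (BT.Fa_mk (BT.Fa_mk (BT.Fa_mk (BT.Fa_leaf (P := Itm.ok 206) (iqf tpr61_c)) (BT.Fa_leaf (P := Itm.ok 206) (iqb tpr63_c))) (BT.Fa_mk (BT.Fa_leaf (P := Itm.ok 206) (iqb tpr66_c))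 (BT.Fa_leaf (P := Itm.ok 206) (iqb tpr677_c)))) (BT.Fa_mk (BT.Fa_mk (BT.Fa_leaf (P := Itm.ok 206) (iqb tpr58_c)) (BT.Fa_leaf (P := Itm.ok 206) (iqf tpr216_c))) (BT.Fa_mk (BT.Fa_leaf (P := Itm.ok 206) (iqb tpr457_c)) (BT.Fa_leaf (P := Itm.ok 206) (iqf tpr458_c)))))) (BT.Fa_mk (BT.Fa_mk (BT.Fa_mk (BT.Fa_mk (BT.Fa_leaf (P := Itm.ok 206) (iqb tpr471_c)) (BT.Fa_leaf (P := Itm.ok 206) (iqf tpr124_c))) (BT.Fa_mk (BT.Fa_leaf (P := Itm.ok 206) (iqf tpr98_c)) (BT.Fa_leaf (P := Itm.ok 206) (iqb tpr15_c)))) (BT.Fa_mk (BT.Fa_mk (BT.Fa_leaf (P := Itm.ok 206) (iqb tpr455_c)) (BT.Fa_leaf (P := Itm.ok 206) (iqb tpr707_c))) (BT.Fa_mk (BT.Fa_leaf (P := Itm.ok 206) (iqb tpr459_c)) (BT.Fa_leaf (P := Itm.ok 206) (iqb tpr481_c))))) (BT.Fa_mk (BT.Fa_mk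 (BT.Fa_mk (BT.Fa_leaf (P := Itm.ok 206) (iqb tpr106_c)) (BT.Fa_leaf (P := Itm.ok 206) (iqf tpr23_c))) (BT.Fa_mk (BT.Fa_leaf (P := Itm.ok 206) (iqf tpr165_c)) (BT.Fa_leaf (P := Itm.ok 206) (iqf tpr525_c)))) (BT.Fa_mk (BT.Fa_mk (BT.Fa_leaf (P := Itm.ok 206) (iqf tpr25_c)) (BT.Fa_leaf (P := Itm.ok 206) (iqb tpr220_c))) (BT.Fa_mk (BT.Fa_leaf (P := Itm.ok 206) (iqf tpr414_c)) (BT.Fa_leaf (P := Itm.ok 206) (iqf tpr465_c)))))))) (BT.Fa_mk (BT.Fa_mk (BT.Fa_mk (BT.Fa_mk (BT.Fa_mk (BT.Fa_mk (BT.Fa_leaf (P := Itm.ok 206) (iqb tpr256_c)) (BT.Fa_leaf (P := Itm.ok 206) (iqb tpr706_c))) (BT.Fa_mk (BT.Fa_leaf (P := Itm.ok 206) (iqf tpr476_c)) (BT.Fa_leaf (P := Itm.ok 206) (iqf tpr461_c)))) (BT.Fa_mk (BT.Fa_mk (BT.Fa_leaf (P := Itm.ok 206) (iqf tpr336_c))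 (BT.Fa_leaf (P := Itm.ok 206) (iqf tpr13_c))) (BT.Fa_mk (BT.Fa_leaf (P := Itm.ok 206) (iqb tpr164_c)) (BT.Fa_leaf (P := Itm.ok 206) (iqf tpr86_c))))) (BT.Fa_mk (BT.Fa_mk (BT.Fa_mk (BT.Fa_leaf (P := Itm.ok 206) (iqb tpr453_c)) (BT.Fa_leaf (P := Itm.ok 206) (iqb tpr20_c))) (BT.Fa_mk (BT.Fa_leaf (P := Itm.ok 206) (iqf tpr81_c)) (BT.Fa_leaf (P := Itm.ok 206) (iqf tpr77_c)))) (BT.Fa_mk (BT.Fa_mk (BT.Fa_leaf (P := Itm.ok 206) (iqb tpr253_c)) (BT.Fa_leaf (P := Itm.ok 206) (iqb tpr474_c))) (BT.Fa_mk (BT.Fa_leaf (P := Itm.ok 206) (iqb tpr82_c)) (BT.Fa_leaf (P := Itm.ok 206) (iqf tpr230_c)))))) (BT.Fa_mk (BT.Fa_mk (BT.Fa_mk (BT.Fa_mk (BT.Fa_leaf (P := Itm.ok 206) (iqf tpr257_c)) (BT.Fa_leaf (P := Itm.ok 206) (iqb tpr334_c))) (BT.Fa_mk (BT.Fa_leaf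 (P := Itm.ok 206) (iqb tpr559_c)) (BT.Fa_leaf (P := Itm.ok 206) (iqb tpr73_c)))) (BT.Fa_mk (BT.Fa_mk (BT.Fa_leaf (P := Itm.ok 206) (iqb tpr6_c)) (BT.Fa_leaf (P := Itm.ok 206) (iqb tpr761_c))) (BT.Fa_mk (BT.Fa_leaf (P := Itm.ok 206) (iqb tpr327_c)) (BT.Fa_leaf (P := Itm.ok 206) (iqb tpr762_c))))) (BT.Fa_mk (BT.Fa_mk (BT.Fa_mk (BT.Fa_leaf (P := Itm.ok 206) (iqb tpr763_c)) (BT.Fa_leaf (P := Itm.ok 206) (iqf tpr764_c))) (BT.Fa_mk (BT.Fa_leaf (P := Itm.ok 206) (iqf tpr765_c)) (BT.Fa_leaf (P := Itm.ok 206) (iqb tpr466_c)))) (BT.Fa_mk (BT.Fa_mk (BT.Fa_leaf (P := Itm.ok 206) (iqf tpr87_c)) (BT.Fa_leaf (P := Itm.ok 206) (iqb tpr766_c))) (BT.Fa_mk (BT.Fa_leaf (P := Itm.ok 206) (iqb tpr475_c)) (BT.Fa_leaf (P := Itm.ok 206) (iqf tpr767_c)))))))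 (BT.Fa_mk (BT.Fa_mk (BT.Fa_mk (BT.Fa_mk (BT.Fa_mk (BT.Fa_leaf (P := Itm.ok 206) (iqf tpr569_c)) (BT.Fa_leaf (P := Itm.ok 206) (iqf tpr487_c))) (BT.Fa_mk (BT.Fa_leaf (P := Itm.ok 206) (iqb tpr339_c)) (BT.Fa_leaf (P := Itm.ok 206) (iqf tpr473_c)))) (BT.Fa_mk (BT.Fa_mk (BT.Fa_leaf (P := Itm.ok 206) (iqf tpr9_c)) (BT.Fa_leaf (P := Itm.ok 206) (iqf tpr151_c))) (BT.Fa_mk (BT.Fa_leaf (P := Itm.ok 206) (iqf tpr167_c)) (BT.Fa_leaf (P := Itm.ok 206) (iqb tpr5_c))))) (BT.Fa_mk (BT.Fa_mk (BT.Fa_mk (BT.Fa_leaf (P := Itm.ok 206) (iqf tpr757_c)) (BT.Fa_leaf (P := Itm.ok 206) (iqf tpr505_c))) (BT.Fa_mk (BT.Fa_leaf (P := Itm.ok 206) (iqf tpr768_c)) (BT.Fa_leaf (P := Itm.ok 206) (iqf tpr211_c)))) (BT.Fa_mk (BT.Fa_mk (BT.Fa_leaf (P := Itm.ok 206) (iqb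 tpr311_c)) (BT.Fa_leaf (P := Itm.ok 206) (iqf tpr32_c))) (BT.Fa_mk (BT.Fa_leaf (P := Itm.ok 206) (iqb tpr769_c)) (BT.Fa_leaf (P := Itm.ok 206) (iqf tpr8_c)))))) (BT.Fa_mk (BT.Fa_mk (BT.Fa_mk (BT.Fa_mk (BT.Fa_leaf (P := Itm.ok 206) (iqb tpr770_c)) (BT.Fa_leaf (P := Itm.ok 206) (iqf tpr161_c))) (BT.Fa_mk (BT.Fa_leaf (P := Itm.ok 206) (iqb tpr341_c)) (BT.Fa_leaf (P := Itm.ok 206) (iqb tpr8_c)))) (BT.Fa_mk (BT.Fa_mk (BT.Fa_leaf (P := Itm.ok 206) (iqb tpr771_c)) (BT.Fa_leaf (P := Itm.ok 206) (iqf tpr332_c))) (BT.Fa_mk (BT.Fa_leaf (P := Itm.ok 206) (iqf tpr295_c)) (BT.Fa_leaf (P := Itm.ok 206) (iqf tpr772_c))))) (BT.Fa_mk (BT.Fa_mk (BT.Fa_mk (BT.Fa_leaf (P := Itm.ok 206) (iqf tpr118_c)) (BT.Fa_leaf (P := Itm.ok 206) (iqf tpr773_c))) (BT.Fa_mk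 (BT.Fa_leaf (P := Itm.ok 206) (iqf tpr776_c)) (BT.Fa_leaf (P := Itm.ok 206) (iqb tpr310_c)))) (BT.Fa_mk (BT.Fa_mk (BT.Fa_leaf (P := Itm.ok 206) (iqb tpr160_c)) (BT.Fa_leaf (P := Itm.ok 206) (iqf tpr777_c))) (BT.Fa_mk (BT.Fa_leaf (P := Itm.ok 206) (iqb tpr778_c)) (BT.Fa_leaf (P := Itm.ok 206) (iqb tpr120_c)))))))))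

/-- all words of the class have labels -/
theorem pokNFzE2A3H2BzIzB3H3A2EzAyAyF : POK 206 xNFzE2A3H2BzIzB3H3A2EzAyAyF :=
  y_pok (C0 := ceNFzE2A3H2BzIzB3H3A2EzAyAyF) (C1 := coNFzE2A3H2BzIzB3H3A2EzAyAyF) topNFzE2A3H2BzIzB3H3A2EzAyAyF nbNFzE2A3H2BzIzB3H3A2EzAyAyF (BT.Fa_of_all iiNFzE2A3H2BzIzB3H3A2EzAyAyF_c)
    (cyE_spec zeNFzE2A3H2BzIzB3H3A2EzAyAyF_0)
    (cyO_spec zoNFzE2A3H2BzIzB3H3A2EzAyAyF_0)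
    iiNFzE2A3H2BzIzB3H3A2EzAyAyF_k

theorem iiNFzE2A3H3A2AzIzA2H3AyB2EzF_k : iiNFzE2A3H3A2AzIzA2H3AyB2EzF.Fa (Itm.ok 206) := (BT.Fa_mk (BT.Fa_mk (BT.Fa_mk (BT.Fa_mk (BT.Fa_mk (BT.Fa_mk (BT.Fa_mk (BT.Fa_leaf (P := Itm.ok 206) (iqb tpr5_c)) (BT.Fa_leaf (P := Itm.ok 206) (iqb tpr500_c))) (BT.Fa_leaf (P := Itm.ok 206) (iqb tpr499_c))) (BT.Fa_mk (BT.Fa_leaf (P := Itm.ok 206) (iqf tpr500_c)) (BT.Fa_leaf (P := Itm.ok 206) (iqb tpr555_c)))) (BT.Fa_mk (BT.Fa_mk (BT.Fa_leaf (P := Itm.ok 206) (iqb tpr82_c)) (BT.Fa_leaf (P := Itm.ok 206) (iqb tpr625_c))) (BT.Fa_mk (BT.Fa_leaf (P := Itm.ok 206) (iqb tpr2611_c)) (BT.Fa_leaf (P := Itm.ok 206) (iqf tpr167_c))))) (BT.Fa_mk (BT.Fa_mk (BT.Fa_mk (BT.Fa_leaf (P := Itm.ok 206) (iqb tpr609_c)) (BT.Fa_leaf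 (P := Itm.ok 206) (iqb tpr103_c))) (BT.Fa_mk (BT.Fa_leaf (P := Itm.ok 206) (iqb tpr618_c)) (BT.Fa_leaf (P := Itm.ok 206) (iqf tpr566_c)))) (BT.Fa_mk (BT.Fa_mk (BT.Fa_leaf (P := Itm.ok 206) (iqb tpr48_c)) (BT.Fa_leaf (P := Itm.ok 206) (iqf tpr51_c))) (BT.Fa_mk (BT.Fa_leaf (P := Itm.ok 206) (iqf tpr682_c)) (BT.Fa_leaf (P := Itm.ok 206) (iqb tpr466_c)))))) (BT.Fa_mk (BT.Fa_mk (BT.Fa_mk (BT.Fa_mk (BT.Fa_mk (BT.Fa_leaf (P := Itm.ok 206) (iqb tpr26_c)) (BT.Fa_leaf (P := Itm.ok 206) (iqb tpr621_c))) (BT.Fa_leaf (P := Itm.ok 206) (iqf tpr87_c))) (BT.Fa_mk (BT.Fa_leaf (P := Itm.ok 206) (iqf tpr81_c)) (BT.Fa_leaf (P := Itm.ok 206) (iqb tpr74_c)))) (BT.Fa_mk (BT.Fa_mk (BT.Fa_leaf (P := Itm.ok 206) (iqf tpr122_c)) (BT.Fa_leaf (P := Itm.ok 206)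 (iqb tpr15_c))) (BT.Fa_mk (BT.Fa_leaf (P := Itm.ok 206) (iqb tpr720_c)) (BT.Fa_leaf (P := Itm.ok 206) (iqf tpr123_c))))) (BT.Fa_mk (BT.Fa_mk (BT.Fa_mk (BT.Fa_leaf (P := Itm.ok 206) (iqf tpr630_c)) (BT.Fa_leaf (P := Itm.ok 206) (iqb tpr393_c))) (BT.Fa_mk (BT.Fa_leaf (P := Itm.ok 206) (iqb tpr642_c)) (BT.Fa_leaf (P := Itm.ok 206) (iqf tpr124_c)))) (BT.Fa_mk (BT.Fa_mk (BT.Fa_leaf (P := Itm.ok 206) (iqf tpr406_c)) (BT.Fa_leaf (P := Itm.ok 206) (iqb tpr57_c))) (BT.Fa_mk (BT.Fa_leaf (P := Itm.ok 206) (iqb tpr9_c)) (BT.Fa_leaf (P := Itm.ok 206) (iqf tpr504_c))))))) (BT.Fa_mk (BT.Fa_mk (BT.Fa_mk (BT.Fa_mk (BT.Fa_mk (BT.Fa_mk (BT.Fa_leaf (P := Itm.ok 206) (iqb tpr10_c)) (BT.Fa_leaf (P := Itm.ok 206) (iqf tpr216_c))) (BT.Fa_leaf (P := Itm.ok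 206) (iqf tpr505_c))) (BT.Fa_mk (BT.Fa_leaf (P := Itm.ok 206) (iqb tpr16_c)) (BT.Fa_leaf (P := Itm.ok 206) (iqf tpr54_c)))) (BT.Fa_mk (BT.Fa_mk (BT.Fa_leaf (P := Itm.ok 206) (iqb tpr106_c)) (BT.Fa_leaf (P := Itm.ok 206) (iqf tpr78_c))) (BT.Fa_mk (BT.Fa_leaf (P := Itm.ok 206) (iqf tpr978_c)) (BT.Fa_leaf (P := Itm.ok 206) (iqb tpr339_c))))) (BT.Fa_mk (BT.Fa_mk (BT.Fa_mk (BT.Fa_leaf (P := Itm.ok 206) (iqb tpr18_c)) (BT.Fa_leaf (P := Itm.ok 206) (iqf tpr458_c))) (BT.Fa_mk (BT.Fa_leaf (P := Itm.ok 206) (iqb tpr587_c)) (BT.Fa_leaf (P := Itm.ok 206) (iqb tpr516_c)))) (BT.Fa_mk (BT.Fa_mk (BT.Fa_leaf (P := Itm.ok 206) (iqb tpr721_c)) (BT.Fa_leaf (P := Itm.ok 206) (iqf tpr589_c))) (BT.Fa_mk (BT.Fa_leaf (P := Itm.ok 206) (iqb tpr562_c)) (BT.Fa_leaf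 (P := Itm.ok 206) (iqf tpr606_c)))))) (BT.Fa_mk (BT.Fa_mk (BT.Fa_mk (BT.Fa_mk (BT.Fa_leaf (P := Itm.ok 206) (iqf tpr730_c)) (BT.Fa_leaf (P := Itm.ok 206) (iqb tpr75_c))) (BT.Fa_mk (BT.Fa_leaf (P := Itm.ok 206) (iqb tpr648_c)) (BT.Fa_leaf (P := Itm.ok 206) (iqb tpr1800_c)))) (BT.Fa_mk (BT.Fa_mk (BT.Fa_leaf (P := Itm.ok 206) (iqb tpr474_c)) (BT.Fa_leaf (P := Itm.ok 206) (iqb tpr457_c))) (BT.Fa_mk (BT.Fa_leaf (P := Itm.ok 206) (iqb tpr1190_c)) (BT.Fa_leaf (P := Itm.ok 206) (iqb tpr334_c))))) (BT.Fa_mk (BT.Fa_mk (BT.Fa_mk (BT.Fa_leaf (P := Itm.ok 206) (iqf tpr508_c)) (BT.Fa_leaf (P := Itm.ok 206) (iqf tpr8_c))) (BT.Fa_mk (BT.Fa_leaf (P := Itm.ok 206) (iqb tpr315_c)) (BT.Fa_leaf (P := Itm.ok 206) (iqf tpr644_c)))) (BT.Fa_mk (BT.Fa_mk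 (BT.Fa_leaf (P := Itm.ok 206) (iqf tpr557_c)) (BT.Fa_leaf (P := Itm.ok 206) (iqb tpr589_c))) (BT.Fa_mk (BT.Fa_leaf (P := Itm.ok 206) (iqf tpr517_c)) (BT.Fa_leaf (P := Itm.ok 206) (iqf tpr541_c))))))))

/-- all words of the class have labels -/
theorem pokNFzE2A3H3A2AzIzA2H3AyB2EzF : POK 206 xNFzE2A3H3A2AzIzA2H3AyB2EzF :=
  y_pok (C0 := ceNFzE2A3H3A2AzIzA2H3AyB2EzF) (C1 := coNFzE2A3H3A2AzIzA2H3AyB2EzF) topNFzE2A3H3A2AzIzA2H3AyB2EzF nbNFzE2A3H3A2AzIzA2H3AyB2EzF (BT.Fa_of_all iiNFzE2A3H3A2AzIzA2H3AyB2EzF_c)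
    (cyE_spec zeNFzE2A3H3A2AzIzA2H3AyB2EzF_0)
    (cyO_spec zoNFzE2A3H3A2AzIzA2H3AyB2EzF_0)
    iiNFzE2A3H3A2AzIzA2H3AyB2EzF_k


end MPb6R
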