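import Pool.Agent.Lib.MP_b6d339_lc.Cw3.YFzE2B3H2BzIzB3H3B2EzA2A2F
import Pool.Agent.Lib.MP_b6d339_lc.Cw3.XL
import Pool.Agent.Lib.MP_b6d339_lc.Cw3.T0
import Pool.Agent.Lib.MP_b6d339_lc.Cw3.T1
import Pool.Agent.Lib.MP_b6d339_lc.Cw3.T10
import Pool.Agent.Lib.MP_b6d339_lc.Cw3.T2
import Pool.Agent.Lib.MP_b6d339_lc.Cw3.T3
import Pool.Agent.Lib.MP_b6d339_lc.Cw3.T4
import Pool.Agent.Lib.MP_b6d339_lc.Cw3.T5
import Pool.Agent.Lib.MP_b6d339_lc.Cw3.T6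
import Pool.Agent.Lib.MP_b6d339_lc.Cw3.T7
import Pool.Agent.Lib.MP_b6d339_lc.Cw3.T8
import Pool.Agent.Lib.MP_b6d339_lc.Cw3.T9

/-!
# Erdős 592, three levels: items
-/

namespace MPb6R

open MPb6P

noncomputable def iiNFzE2B3H2BzIzB3H3B2EzA2A2F : BT Itm := (.node (.node (.node (.node (.node (.node (.node (.leaf (.fwd 0 6 tpr4.df)) (.leaf (.bwd 6 6 tpr4.df))) (.node (.leaf (.fwd 12 9 tpr41.df)) (.leaf (.bwd 21 13 tpr11.df)))) (.node (.node (.leaf (.fwd 34 13 tpr11.df)) (.leaf (.bwd 47 21 tpr90.df))) (.node (.leaf (.fwd 68 17 tpr215.df)) (.leaf (.fwd 85 21 tpr107.df))))) (.node (.node (.node (.leaf (.bwd 106 17 tpr144.df)) (.leaf (.bwd 123 24 tpr57.df))) (.node (.leaf (.bwd 147 13 tpr757.df)) (.leaf (.fwd 160 21 tpr8.df)))) (.node (.node (.leaf (.bwd 181 39 tpr7.df)) (.leaf (.bwd 220 23 tpr5.df))) (.leaf (.fwd 243 15 tpr152.df))))) (.node (.node (.node (.node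 (.leaf (.bwd 258 20 tpr48.df)) (.leaf (.bwd 278 33 tpr28.df))) (.node (.leaf (.fwd 311 20 tpr216.df)) (.leaf (.bwd 331 21 tpr36.df)))) (.node (.node (.leaf (.bwd 352 24 tpr24.df)) (.leaf (.fwd 376 38 tpr105.df))) (.leaf (.fwd 414 27 tpr131.df)))) (.node (.node (.node (.leaf (.bwd 441 25 tpr74.df)) (.leaf (.bwd 466 31 tpr21.df))) (.node (.leaf (.fwd 497 23 tpr12.df)) (.leaf (.bwd 520 30 tpr218.df)))) (.node (.node (.leaf (.bwd 550 21 tpr72.df)) (.leaf (.bwd 571 16 tpr220.df))) (.leaf (.fwd 587 29 tpr104.df)))))) (.node (.node (.node (.node (.node (.leaf (.fwd 616 20 tpr768.df)) (.leaf (.bwd 636 27 tpr85.df))) (.node (.leaf (.bwd 663 22 tpr20.df)) (.leaf (.fwd 685 18 tpr37.df)))) (.node (.node (.leaf (.bwd 703 24 tpr255.df)) (.leaf (.bwd 727 15 tpr38.df))) (.leaf (.fwd 742 25 tpr95.df)))) (.node (.node (.node (.leaf (.bwd 767 32 tpr39.df)) (.leaf (.fwd 799 34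 tpr92.df))) (.node (.leaf (.bwd 833 19 tpr47.df)) (.leaf (.bwd 852 27 tpr82.df)))) (.node (.node (.leaf (.fwd 879 29 tpr121.df)) (.leaf (.bwd 908 26 tpr516.df))) (.leaf (.fwd 934 20 tpr186.df))))) (.node (.node (.node (.node (.leaf (.bwd 954 18 tpr648.df)) (.leaf (.fwd 972 29 tpr94.df))) (.node (.leaf (.bwd 1001 33 tpr31.df)) (.leaf (.fwd 1034 32 tpr61.df)))) (.node (.node (.leaf (.fwd 1066 31 tpr836.df)) (.leaf (.bwd 1097 41 tpr97.df))) (.leaf (.fwd 1138 21 tpr50.df)))) (.node (.node (.node (.leaf (.bwd 1159 28 tpr40.df)) (.leaf (.bwd 1187 26 tpr234.df))) (.node (.leaf (.bwd 1213 40 tpr214.df)) (.leaf (.fwd 1253 44 tpr150.df)))) (.node (.node (.leaf (.fwd 1297 27 tpr252.df)) (.leaf (.fwd 1324 45 tpr139.df))) (.leaf (.fwd 1369 30 tpr143.df))))))) (.node (.node (.node (.node (.node (.node (.leaf (.fwd 1399 23 tpr5.df)) (.leaf (.fwd 1422 15 tpr525.df))) (.node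 (.leaf (.bwd 1437 29 tpr9.df)) (.leaf (.fwd 1466 12 tpr228.df)))) (.node (.node (.leaf (.bwd 1478 17 tpr16.df)) (.leaf (.bwd 1495 20 tpr103.df))) (.node (.leaf (.bwd 1515 27 tpr499.df)) (.leaf (.bwd 1542 21 tpr844.df))))) (.node (.node (.node (.leaf (.bwd 1563 27 tpr832.df)) (.leaf (.bwd 1590 32 tpr17.df))) (.node (.leaf (.bwd 1622 20 tpr839.df)) (.leaf (.bwd 1642 25 tpr106.df)))) (.node (.node (.leaf (.fwd 1667 29 tpr22.df)) (.leaf (.bwd 1696 38 tpr265.df))) (.leaf (.fwd 1734 39 tpr210.df))))) (.node (.node (.node (.node (.leaf (.fwd 1773 22 tpr83.df)) (.leaf (.fwd 1795 24 tpr321.df))) (.node (.leaf (.fwd 1819 35 tpr123.df)) (.leaf (.fwd 1854 22 tpr118.df)))) (.node (.node (.leaf (.bwd 1876 31 tpr258.df)) (.leaf (.fwd 1907 25 tpr760.df))) (.leaf (.fwd 1932 22 tpr230.df)))) (.node (.node (.node (.leaf (.fwd 1954 43 tpr122.df)) (.leaf (.bwd 1997 30 tpr26.df)))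 (.node (.leaf (.bwd 2027 33 tpr129.df)) (.leaf (.bwd 2060 17 tpr362.df)))) (.node (.node (.leaf (.bwd 2077 22 tpr475.df)) (.leaf (.fwd 2099 28 tpr60.df))) (.leaf (.fwd 2127 42 tpr124.df)))))) (.node (.node (.node (.node (.node (.leaf (.fwd 2169 36 tpr264.df)) (.leaf (.fwd 2205 45 tpr611.df))) (.node (.leaf (.fwd 2250 29 tpr151.df)) (.leaf (.bwd 2279 39 tpr256.df)))) (.node (.node (.leaf (.bwd 2318 33 tpr127.df)) (.leaf (.bwd 2351 36 tpr261.df))) (.leaf (.bwd 2387 31 tpr266.df)))) (.node (.node (.node (.leaf (.bwd 2418 25 tpr10.df)) (.leaf (.fwd 2443 21 tpr110.df))) (.node (.leaf (.fwd 2464 25 tpr51.df)) (.leaf (.bwd 2489 35 tpr849.df)))) (.node (.node (.leaf (.bwd 2524 46 tpr116.df)) (.leaf (.fwd 2570 29 tpr46.df))) (.leaf (.bwd 2599 15 tpr816.df))))) (.node (.node (.node (.node (.leaf (.fwd 2614 30 tpr45.df)) (.leaf (.fwd 2644 40 tpr32.df))) (.node (.leaf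 (.fwd 2684 30 tpr141.df)) (.leaf (.bwd 2714 40 tpr148.df)))) (.node (.node (.leaf (.fwd 2754 26 tpr850.df)) (.leaf (.bwd 2780 29 tpr582.df))) (.leaf (.bwd 2809 14 tpr49.df)))) (.node (.node (.node (.leaf (.fwd 2823 16 tpr168.df)) (.leaf (.fwd 2839 36 tpr165.df))) (.node (.leaf (.fwd 2875 43 tpr292.df)) (.leaf (.fwd 2918 39 tpr98.df)))) (.node (.node (.leaf (.bwd 2957 22 tpr536.df)) (.leaf (.fwd 2979 33 tpr35.df))) (.leaf (.fwd 3012 22 tpr590.df))))))))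

theorem iiNFzE2B3H2BzIzB3H3B2EzA2A2F_c : iiNFzE2B3H2BzIzB3H3B2EzA2A2F.all (itB (ng 46 nnNFzE2B3H2BzIzB3H3B2EzA2A2F)) = true := by decide +kernel
theorem nbNFzE2B3H2BzIzB3H3B2EzA2A2F : nbB 46 3080 nnNFzE2B3H2BzIzB3H3B2EzA2A2F = true := by decide +kernel
theorem topNFzE2B3H2BzIzB3H3B2EzA2A2F : topY 3080 ttNFzE2B3H2BzIzB3H3B2EzA2A2F ceNFzE2B3H2BzIzB3H3B2EzA2A2F xNFzE2B3H2BzIzB3H3B2EzA2A2F iiNFzE2B3H2BzIzB3H3B2EzA2A2F = true := by decide +kernel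

end MPb6R
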