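import Pool.Agent.Lib.MP_b6d339_lc.Cw3.YFzE2B3H2BzIzB3H3B2EzA2AyF
import Pool.Agent.Lib.MP_b6d339_lc.Cw3.XL
import Pool.Agent.Lib.MP_b6d339_lc.Cw3.T0
import Pool.Agent.Lib.MP_b6d339_lc.Cw3.T1
import Pool.Agent.Lib.MP_b6d339_lc.Cw3.T2
import Pool.Agent.Lib.MP_b6d339_lc.Cw3.T3
import Pool.Agent.Lib.MP_b6d339_lc.Cw3.T37
import Pool.Agent.Lib.MP_b6d339_lc.Cw3.T4
import Pool.Agent.Lib.MP_b6d339_lc.Cw3.T5
import Pool.Agent.Lib.MP_b6d339_lc.Cw3.T6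
import Pool.Agent.Lib.MP_b6d339_lc.Cw3.T7
import Pool.Agent.Lib.MP_b6d339_lc.Cw3.T8
import Pool.Agent.Lib.MP_b6d339_lc.Cw3.T9

/-!
# Erdős 592, three levels: items
-/

namespace MPb6R

open MPb6P

noncomputable def iiNFzE2B3H2BzIzB3H3B2EzA2AyF : BT Itm := (.node (.node (.node (.node (.node (.node (.node (.leaf (.fwd 0 6 tpr4.df)) (.leaf (.bwd 6 6 tpr4.df))) (.leaf (.fwd 12 16 tpr168.df))) (.node (.node (.leaf (.bwd 28 13 tpr11.df)) (.leaf (.fwd 41 13 tpr11.df))) (.leaf (.bwd 54 17 tpr144.df)))) (.node (.node (.node (.leaf (.fwd 71 12 tpr228.df)) (.leaf (.bwd 83 24 tpr57.df))) (.leaf (.fwd 107 17 tpr215.df))) (.node (.node (.leaf (.bwd 124 31 tpr21.df)) (.leaf (.bwd 155 27 tpr85.df))) (.leaf (.fwd 182 21 tpr107.df))))) (.node (.node (.node (.node (.leaf (.bwd 203 25 tpr74.df)) (.leaf (.bwd 228 13 tpr757.df))) (.leaf (.bwd 241 24 tpr255.df))) (.node (.node (.leaf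 (.bwd 265 33 tpr28.df)) (.leaf (.bwd 298 16 tpr220.df))) (.leaf (.fwd 314 22 tpr83.df)))) (.node (.node (.node (.leaf (.bwd 336 21 tpr36.df)) (.leaf (.bwd 357 39 tpr7.df))) (.leaf (.fwd 396 27 tpr131.df))) (.node (.leaf (.fwd 423 38 tpr105.df)) (.leaf (.fwd 461 27 tpr252.df)))))) (.node (.node (.node (.node (.node (.leaf (.fwd 488 29 tpr104.df)) (.leaf (.fwd 517 18 tpr37.df))) (.leaf (.fwd 535 22 tpr230.df))) (.node (.node (.leaf (.bwd 557 18 tpr648.df)) (.leaf (.bwd 575 11 tpr2964.df))) (.leaf (.fwd 586 25 tpr95.df)))) (.node (.node (.node (.leaf (.fwd 611 25 tpr270.df)) (.leaf (.fwd 636 34 tpr92.df))) (.leaf (.bwd 670 29 tpr9.df))) (.node (.node (.leaf (.bwd 699 31 tpr258.df)) (.leaf (.bwd 730 33 tpr31.df))) (.leaf (.bwd 763 34 tpr114.df))))) (.node (.node (.node (.node (.leaf (.bwd 797 36 tpr244.df)) (.leaf (.bwd 833 41 tpr97.df))) (.leaf (.bwd 874 20 tpr48.df)))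 (.node (.node (.leaf (.bwd 894 17 tpr16.df)) (.leaf (.fwd 911 23 tpr12.df))) (.leaf (.bwd 934 21 tpr90.df)))) (.node (.node (.node (.leaf (.bwd 955 21 tpr72.df)) (.leaf (.bwd 976 22 tpr20.df))) (.leaf (.bwd 998 19 tpr33.df))) (.node (.leaf (.fwd 1017 20 tpr768.df)) (.leaf (.bwd 1037 24 tpr237.df))))))) (.node (.node (.node (.node (.node (.node (.leaf (.fwd 1061 29 tpr22.df)) (.leaf (.bwd 1090 32 tpr17.df))) (.leaf (.bwd 1122 27 tpr625.df))) (.node (.node (.leaf (.bwd 1149 26 tpr516.df)) (.leaf (.bwd 1175 20 tpr103.df))) (.leaf (.fwd 1195 15 tpr152.df)))) (.node (.node (.node (.leaf (.bwd 1210 25 tpr106.df)) (.leaf (.fwd 1235 15 tpr525.df))) (.leaf (.fwd 1250 21 tpr8.df))) (.node (.node (.leaf (.bwd 1271 27 tpr82.df)) (.leaf (.fwd 1298 24 tpr321.df))) (.leaf (.fwd 1322 35 tpr123.df))))) (.node (.node (.node (.node (.leaf (.fwd 1357 35 tpr13.df)) (.leaf (.bwd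 1392 38 tpr265.df))) (.leaf (.bwd 1430 27 tpr499.df))) (.node (.node (.leaf (.fwd 1457 29 tpr121.df)) (.leaf (.fwd 1486 43 tpr122.df))) (.leaf (.bwd 1529 30 tpr26.df)))) (.node (.node (.node (.leaf (.bwd 1559 40 tpr214.df)) (.leaf (.bwd 1599 33 tpr129.df))) (.leaf (.bwd 1632 17 tpr362.df))) (.node (.leaf (.bwd 1649 27 tpr240.df)) (.leaf (.bwd 1676 39 tpr256.df)))))) (.node (.node (.node (.node (.node (.leaf (.fwd 1715 36 tpr264.df)) (.leaf (.bwd 1751 22 tpr475.df))) (.leaf (.bwd 1773 26 tpr234.df))) (.node (.node (.leaf (.bwd 1799 36 tpr261.df)) (.leaf (.bwd 1835 31 tpr266.df))) (.leaf (.fwd 1866 30 tpr263.df)))) (.node (.node (.node (.leaf (.fwd 1896 17 tpr317.df)) (.leaf (.bwd 1913 25 tpr10.df))) (.leaf (.bwd 1938 23 tpr133.df))) (.node (.leaf (.fwd 1961 32 tpr115.df)) (.leaf (.fwd 1993 20 tpr216.df))))) (.node (.node (.node (.node (.leaf (.fwd 2013 35 tpr89.df))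 (.leaf (.fwd 2048 32 tpr61.df))) (.leaf (.bwd 2080 24 tpr24.df))) (.node (.node (.leaf (.bwd 2104 19 tpr47.df)) (.leaf (.bwd 2123 33 tpr221.df))) (.leaf (.fwd 2156 32 tpr251.df)))) (.node (.node (.node (.leaf (.fwd 2188 30 tpr45.df)) (.leaf (.bwd 2218 28 tpr223.df))) (.leaf (.fwd 2246 28 tpr60.df))) (.node (.leaf (.bwd 2274 21 tpr174.df)) (.leaf (.fwd 2295 39 tpr98.df))))))))

theorem iiNFzE2B3H2BzIzB3H3B2EzA2AyF_c : iiNFzE2B3H2BzIzB3H3B2EzA2AyF.all (itB (ng 43 nnNFzE2B3H2BzIzB3H3B2EzA2AyF)) = true := by decide +kernel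
theorem nbNFzE2B3H2BzIzB3H3B2EzA2AyF : nbB 43 2377 nnNFzE2B3H2BzIzB3H3B2EzA2AyF = true := by decide +kernel
theorem topNFzE2B3H2BzIzB3H3B2EzA2AyF : topY 2377 ttNFzE2B3H2BzIzB3H3B2EzA2AyF ceNFzE2B3H2BzIzB3H3B2EzA2AyF xNFzE2B3H2BzIzB3H3B2EzA2AyF iiNFzE2B3H2BzIzB3H3B2EzA2AyF = true := by decide +kernel

end MPb6R
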