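import Pool.Agent.Lib.MP_b6d339_lc.Cw3.YFzE2B3H2BzIzB3H3B2EzAyA2F
import Pool.Agent.Lib.MP_b6d339_lc.Cw3.XL
import Pool.Agent.Lib.MP_b6d339_lc.Cw3.T0
import Pool.Agent.Lib.MP_b6d339_lc.Cw3.T1
import Pool.Agent.Lib.MP_b6d339_lc.Cw3.T2
import Pool.Agent.Lib.MP_b6d339_lc.Cw3.T3
import Pool.Agent.Lib.MP_b6d339_lc.Cw3.T37
import Pool.Agent.Lib.MP_b6d339_lc.Cw3.T4
import Pool.Agent.Lib.MP_b6d339_lc.Cw3.T6
import Pool.Agent.Lib.MP_b6d339_lc.Cw3.T7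
import Pool.Agent.Lib.MP_b6d339_lc.Cw3.T8
import Pool.Agent.Lib.MP_b6d339_lc.Cw3.T9

/-!
# Erdős 592, three levels: items
-/

namespace MPb6R

open MPb6P

noncomputable def iiNFzE2B3H2BzIzB3H3B2EzAyA2F : BT Itm := (.node (.node (.node (.node (.node (.node (.node (.leaf (.fwd 0 6 tpr4.df)) (.leaf (.bwd 6 6 tpr4.df))) (.node (.leaf (.bwd 12 13 tpr11.df)) (.leaf (.bwd 25 21 tpr90.df)))) (.node (.node (.leaf (.fwd 46 13 tpr11.df)) (.leaf (.bwd 59 20 tpr19.df))) (.node (.leaf (.bwd 79 17 tpr144.df)) (.leaf (.fwd 96 9 tpr41.df))))) (.node (.node (.node (.leaf (.bwd 105 38 tpr6.df)) (.leaf (.bwd 143 13 tpr757.df))) (.node (.leaf (.bwd 156 24 tpr57.df)) (.leaf (.bwd 180 31 tpr21.df)))) (.node (.node (.leaf (.fwd 211 21 tpr8.df)) (.leaf (.bwd 232 33 tpr28.df))) (.leaf (.bwd 265 20 tpr48.df))))) (.node (.node (.node (.node (.leaf (.fwd 285 25 tpr760.df)) (.leaf (.fwd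 310 33 tpr35.df))) (.node (.leaf (.fwd 343 18 tpr161.df)) (.leaf (.fwd 361 38 tpr105.df)))) (.node (.node (.leaf (.bwd 399 27 tpr499.df)) (.leaf (.bwd 426 25 tpr74.df))) (.leaf (.bwd 451 39 tpr7.df)))) (.node (.node (.node (.leaf (.bwd 490 18 tpr18.df)) (.leaf (.bwd 508 32 tpr39.df))) (.node (.leaf (.fwd 540 20 tpr768.df)) (.leaf (.bwd 560 24 tpr24.df)))) (.node (.node (.leaf (.bwd 584 21 tpr36.df)) (.leaf (.fwd 605 29 tpr104.df))) (.leaf (.fwd 634 21 tpr25.df)))))) (.node (.node (.node (.node (.node (.leaf (.fwd 655 27 tpr131.df)) (.leaf (.bwd 682 27 tpr85.df))) (.node (.leaf (.fwd 709 30 tpr45.df)) (.leaf (.fwd 739 22 tpr83.df)))) (.node (.node (.leaf (.bwd 761 33 tpr31.df)) (.leaf (.bwd 794 18 tpr648.df))) (.leaf (.bwd 812 19 tpr47.df)))) (.node (.node (.node (.leaf (.bwd 831 16 tpr220.df)) (.leaf (.bwd 847 32 tpr113.df))) (.node (.leaf (.bwd 879 34 tpr15.df))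 (.leaf (.bwd 913 40 tpr148.df)))) (.node (.node (.leaf (.bwd 953 33 tpr127.df)) (.leaf (.fwd 986 29 tpr121.df))) (.leaf (.fwd 1015 29 tpr151.df))))) (.node (.node (.node (.node (.leaf (.fwd 1044 29 tpr111.df)) (.leaf (.bwd 1073 26 tpr516.df))) (.node (.leaf (.fwd 1099 29 tpr94.df)) (.leaf (.fwd 1128 29 tpr22.df)))) (.node (.node (.leaf (.fwd 1157 36 tpr23.df)) (.leaf (.bwd 1193 36 tpr101.df))) (.leaf (.bwd 1229 30 tpr34.df)))) (.node (.node (.node (.leaf (.fwd 1259 22 tpr118.df)) (.leaf (.bwd 1281 23 tpr158.df))) (.node (.leaf (.bwd 1304 24 tpr160.df)) (.leaf (.fwd 1328 12 tpr228.df)))) (.node (.node (.leaf (.fwd 1340 23 tpr12.df)) (.leaf (.bwd 1363 21 tpr72.df))) (.leaf (.bwd 1384 22 tpr20.df))))))) (.node (.node (.node (.node (.node (.node (.leaf (.bwd 1406 20 tpr103.df)) (.leaf (.fwd 1426 15 tpr152.df))) (.node (.leaf (.bwd 1441 17 tpr16.df)) (.leaf (.fwd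 1458 23 tpr5.df)))) (.node (.node (.leaf (.bwd 1481 32 tpr17.df)) (.leaf (.bwd 1513 25 tpr106.df))) (.node (.leaf (.bwd 1538 27 tpr625.df)) (.leaf (.fwd 1565 24 tpr321.df))))) (.node (.node (.node (.leaf (.fwd 1589 18 tpr37.df)) (.leaf (.bwd 1607 27 tpr82.df))) (.node (.leaf (.fwd 1634 43 tpr122.df)) (.leaf (.bwd 1677 30 tpr26.df)))) (.node (.node (.leaf (.fwd 1707 35 tpr123.df)) (.leaf (.fwd 1742 22 tpr230.df))) (.leaf (.bwd 1764 25 tpr2965.df))))) (.node (.node (.node (.node (.leaf (.bwd 1789 17 tpr362.df)) (.leaf (.bwd 1806 33 tpr129.df))) (.node (.leaf (.bwd 1839 26 tpr43.df)) (.leaf (.bwd 1865 23 tpr2966.df)))) (.node (.node (.leaf (.fwd 1888 22 tpr86.df)) (.leaf (.fwd 1910 35 tpr13.df))) (.leaf (.bwd 1945 35 tpr194.df)))) (.node (.node (.node (.leaf (.fwd 1980 29 tpr257.df)) (.leaf (.bwd 2009 42 tpr128.df))) (.node (.leaf (.fwd 2051 38 tpr125.df)) (.leaf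 (.bwd 2089 25 tpr10.df)))) (.node (.node (.leaf (.fwd 2114 25 tpr51.df)) (.leaf (.fwd 2139 19 tpr758.df))) (.leaf (.fwd 2158 34 tpr92.df)))))) (.node (.node (.node (.node (.node (.leaf (.bwd 2192 41 tpr97.df)) (.leaf (.bwd 2233 23 tpr133.df))) (.node (.leaf (.fwd 2256 32 tpr61.df)) (.leaf (.fwd 2288 34 tpr155.df)))) (.node (.node (.leaf (.bwd 2322 15 tpr38.df)) (.leaf (.fwd 2337 21 tpr110.df))) (.leaf (.fwd 2358 20 tpr186.df)))) (.node (.node (.node (.leaf (.fwd 2378 32 tpr115.df)) (.leaf (.bwd 2410 46 tpr116.df))) (.node (.leaf (.fwd 2456 30 tpr141.df)) (.leaf (.fwd 2486 29 tpr46.df)))) (.node (.node (.leaf (.fwd 2515 45 tpr139.df)) (.leaf (.fwd 2560 21 tpr50.df))) (.leaf (.bwd 2581 34 tpr114.df))))) (.node (.node (.node (.node (.leaf (.bwd 2615 28 tpr145.df)) (.leaf (.fwd 2643 44 tpr150.df))) (.node (.leaf (.fwd 2687 30 tpr143.df)) (.leaf (.bwd 2717 28 tpr40.df))))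 (.node (.node (.leaf (.fwd 2745 28 tpr93.df)) (.leaf (.fwd 2773 16 tpr88.df))) (.leaf (.fwd 2789 13 tpr757.df)))) (.node (.node (.node (.leaf (.fwd 2802 46 tpr140.df)) (.leaf (.bwd 2848 38 tpr203.df))) (.node (.leaf (.fwd 2886 37 tpr185.df)) (.leaf (.fwd 2923 20 tpr505.df)))) (.node (.node (.leaf (.bwd 2943 37 tpr64.df)) (.leaf (.fwd 2980 24 tpr147.df))) (.leaf (.bwd 3004 50 tpr108.df))))))))

theorem iiNFzE2B3H2BzIzB3H3B2EzAyA2F_c : iiNFzE2B3H2BzIzB3H3B2EzAyA2F.all (itB (ng 50 nnNFzE2B3H2BzIzB3H3B2EzAyA2F)) = true := by decide +kernel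
theorem nbNFzE2B3H2BzIzB3H3B2EzAyA2F : nbB 50 3104 nnNFzE2B3H2BzIzB3H3B2EzAyA2F = true := by decide +kernel
theorem topNFzE2B3H2BzIzB3H3B2EzAyA2F : topY 3104 ttNFzE2B3H2BzIzB3H3B2EzAyA2F ceNFzE2B3H2BzIzB3H3B2EzAyA2F xNFzE2B3H2BzIzB3H3B2EzAyA2F iiNFzE2B3H2BzIzB3H3B2EzAyA2F = true := by decide +kernel

end MPb6R
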