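import Pool.Agent.Lib.MP_b6d339_lc.Cw3.YFzE2B3H2BzIzB3H3B2EzAzAzF
import Pool.Agent.Lib.MP_b6d339_lc.Cw3.XL
import Pool.Agent.Lib.MP_b6d339_lc.Cw3.T0
import Pool.Agent.Lib.MP_b6d339_lc.Cw3.T1
import Pool.Agent.Lib.MP_b6d339_lc.Cw3.T10
import Pool.Agent.Lib.MP_b6d339_lc.Cw3.T11
import Pool.Agent.Lib.MP_b6d339_lc.Cw3.T2
import Pool.Agent.Lib.MP_b6d339_lc.Cw3.T3
import Pool.Agent.Lib.MP_b6d339_lc.Cw3.T4
import Pool.Agent.Lib.MP_b6d339_lc.Cw3.T5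
import Pool.Agent.Lib.MP_b6d339_lc.Cw3.T6
import Pool.Agent.Lib.MP_b6d339_lc.Cw3.T7
import Pool.Agent.Lib.MP_b6d339_lc.Cw3.T8
import Pool.Agent.Lib.MP_b6d339_lc.Cw3.T9

/-!
# Erdős 592, three levels: items
-/

namespace MPb6R

open MPb6P

noncomputable def iiNFzE2B3H2BzIzB3H3B2EzAzAzF : BT Itm := (.node (.node (.node (.node (.node (.node (.node (.leaf (.fwd 0 6 tpr4.df)) (.leaf (.bwd 6 55 tpr314.df))) (.node (.leaf (.bwd 61 6 tpr4.df)) (.leaf (.fwd 67 23 tpr5.df)))) (.node (.node (.leaf (.fwd 90 21 tpr8.df)) (.leaf (.bwd 111 13 tpr11.df))) (.node (.leaf (.bwd 124 29 tpr9.df)) (.leaf (.bwd 153 13 tpr14.df))))) (.node (.node (.node (.leaf (.bwd 166 17 tpr16.df)) (.leaf (.fwd 183 9 tpr41.df))) (.node (.leaf (.fwd 192 43 tpr292.df)) (.leaf (.fwd 235 22 tpr590.df)))) (.node (.node (.leaf (.bwd 257 19 tpr33.df)) (.leaf (.bwd 276 30 tpr320.df))) (.leaf (.bwd 306 21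 tpr72.df))))) (.node (.node (.node (.node (.leaf (.fwd 327 22 tpr230.df)) (.leaf (.fwd 349 22 tpr83.df))) (.node (.leaf (.fwd 371 31 tpr167.df)) (.leaf (.bwd 402 27 tpr56.df)))) (.node (.node (.leaf (.bwd 429 46 tpr116.df)) (.leaf (.fwd 475 25 tpr51.df))) (.node (.leaf (.bwd 500 35 tpr29.df)) (.leaf (.bwd 535 20 tpr103.df))))) (.node (.node (.node (.leaf (.fwd 555 20 tpr42.df)) (.leaf (.bwd 575 24 tpr57.df))) (.node (.leaf (.bwd 599 22 tpr20.df)) (.leaf (.fwd 621 19 tpr758.df)))) (.node (.node (.leaf (.fwd 640 25 tpr69.df)) (.leaf (.bwd 665 16 tpr220.df))) (.leaf (.bwd 681 21 tpr36.df)))))) (.node (.node (.node (.node (.node (.leaf (.fwd 702 15 tpr152.df)) (.leaf (.bwd 717 26 tpr80.df))) (.node (.leaf (.bwd 743 20 tpr19.df)) (.leaf (.bwd 763 32 tpr17.df)))) (.node (.node (.leaf (.bwd 795 21 tpr90.df)) (.leaf (.bwd 816 43 tpr323.df))) (.node (.leaf (.bwd 859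 25 tpr106.df)) (.leaf (.fwd 884 37 tpr316.df))))) (.node (.node (.node (.leaf (.fwd 921 13 tpr11.df)) (.leaf (.bwd 934 27 tpr82.df))) (.node (.leaf (.fwd 961 36 tpr165.df)) (.leaf (.bwd 997 40 tpr62.df)))) (.node (.node (.leaf (.fwd 1037 23 tpr878.df)) (.leaf (.bwd 1060 56 tpr890.df))) (.leaf (.fwd 1116 29 tpr151.df))))) (.node (.node (.node (.node (.leaf (.fwd 1145 18 tpr37.df)) (.leaf (.bwd 1163 26 tpr891.df))) (.node (.leaf (.bwd 1189 38 tpr265.df)) (.leaf (.bwd 1227 25 tpr164.df)))) (.node (.node (.leaf (.fwd 1252 39 tpr98.df)) (.leaf (.fwd 1291 22 tpr86.df))) (.leaf (.fwd 1313 42 tpr124.df)))) (.node (.node (.node (.leaf (.bwd 1355 27 tpr85.df)) (.leaf (.fwd 1382 28 tpr892.df))) (.node (.leaf (.bwd 1410 26 tpr762.df)) (.leaf (.fwd 1436 22 tpr118.df)))) (.node (.node (.leaf (.bwd 1458 26 tpr763.df)) (.leaf (.fwd 1484 20 tpr102.df))) (.leaf (.fwd 1504 23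 tpr30.df))))))) (.node (.node (.node (.node (.node (.node (.leaf (.bwd 1527 20 tpr48.df)) (.leaf (.bwd 1547 39 tpr7.df))) (.node (.leaf (.fwd 1586 31 tpr576.df)) (.leaf (.bwd 1617 21 tpr318.df)))) (.node (.node (.leaf (.bwd 1638 27 tpr832.df)) (.leaf (.bwd 1665 30 tpr26.df))) (.node (.leaf (.bwd 1695 25 tpr74.df)) (.leaf (.bwd 1720 31 tpr341.df))))) (.node (.node (.node (.leaf (.fwd 1751 43 tpr122.df)) (.leaf (.bwd 1794 39 tpr256.df))) (.node (.leaf (.bwd 1833 49 tpr267.df)) (.leaf (.fwd 1882 23 tpr374.df)))) (.node (.node (.leaf (.fwd 1905 15 tpr219.df)) (.leaf (.fwd 1920 25 tpr401.df))) (.leaf (.bwd 1945 26 tpr349.df))))) (.node (.node (.node (.node (.leaf (.fwd 1971 29 tpr121.df)) (.leaf (.bwd 2000 33 tpr129.df))) (.node (.leaf (.fwd 2033 33 tpr843.df)) (.leaf (.fwd 2066 35 tpr123.df)))) (.node (.node (.leaf (.bwd 2101 25 tpr10.df)) (.leaf (.fwd 2126 16 tpr168.df)))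 (.leaf (.fwd 2142 23 tpr12.df)))) (.node (.node (.node (.leaf (.fwd 2165 30 tpr893.df)) (.leaf (.fwd 2195 35 tpr658.df))) (.node (.leaf (.fwd 2230 30 tpr877.df)) (.leaf (.bwd 2260 23 tpr5.df)))) (.node (.node (.leaf (.bwd 2283 24 tpr24.df)) (.leaf (.fwd 2307 29 tpr894.df))) (.leaf (.fwd 2336 28 tpr376.df)))))) (.node (.node (.node (.node (.node (.leaf (.bwd 2364 30 tpr460.df)) (.leaf (.bwd 2394 31 tpr339.df))) (.node (.leaf (.bwd 2425 27 tpr881.df)) (.leaf (.bwd 2452 21 tpr8.df)))) (.node (.node (.leaf (.fwd 2473 45 tpr851.df)) (.leaf (.bwd 2518 48 tpr879.df))) (.node (.leaf (.bwd 2566 36 tpr895.df)) (.leaf (.fwd 2602 50 tpr211.df))))) (.node (.node (.node (.leaf (.bwd 2652 43 tpr896.df)) (.leaf (.fwd 2695 45 tpr332.df))) (.node (.leaf (.bwd 2740 38 tpr203.df)) (.leaf (.fwd 2778 29 tpr22.df)))) (.node (.node (.leaf (.fwd 2807 24 tpr293.df)) (.leaf (.bwd 2831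 41 tpr898.df))) (.leaf (.bwd 2872 46 tpr324.df))))) (.node (.node (.node (.node (.leaf (.fwd 2918 24 tpr899.df)) (.leaf (.fwd 2942 20 tpr216.df))) (.node (.leaf (.fwd 2962 27 tpr236.df)) (.leaf (.bwd 2989 26 tpr900.df)))) (.node (.node (.leaf (.fwd 3015 32 tpr901.df)) (.leaf (.fwd 3047 17 tpr902.df))) (.leaf (.bwd 3064 31 tpr903.df)))) (.node (.node (.node (.leaf (.bwd 3095 24 tpr904.df)) (.leaf (.fwd 3119 37 tpr503.df))) (.node (.leaf (.bwd 3156 29 tpr769.df)) (.leaf (.bwd 3185 22 tpr905.df)))) (.node (.node (.leaf (.fwd 3207 35 tpr13.df)) (.leaf (.bwd 3242 28 tpr707.df))) (.leaf (.bwd 3270 29 tpr778.df))))))))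

theorem iiNFzE2B3H2BzIzB3H3B2EzAzAzF_c : iiNFzE2B3H2BzIzB3H3B2EzAzAzF.all (itB (ng 56 nnNFzE2B3H2BzIzB3H3B2EzAzAzF)) = true := by decide +kernel
theorem nbNFzE2B3H2BzIzB3H3B2EzAzAzF : nbB 56 3355 nnNFzE2B3H2BzIzB3H3B2EzAzAzF = true := by decide +kernel
theorem topNFzE2B3H2BzIzB3H3B2EzAzAzF : topY 3355 ttNFzE2B3H2BzIzB3H3B2EzAzAzF ceNFzE2B3H2BzIzB3H3B2EzAzAzF xNFzE2B3H2BzIzB3H3B2EzAzAzF iiNFzE2B3H2BzIzB3H3B2EzAzAzF = true := by decide +kernel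

end MPb6R
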