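import Pool.Agent.Lib.MP_b6d339_lc.Cw3.YFzE2A3H3A2EzF

/-!
# Erdős 592, three levels: checks of claims
-/

namespace MPb6R

open MPb6P

theorem zeNFzE2A3H3A2EzF_18 : cyE 61 19376 nnNFzE2A3H3A2EzF ttNFzE2A3H3A2EzF coNFzE2A3H3A2EzF xNFzE2A3H3A2EzF ceNFzE2A3H3A2EzF_18 = true := by decide +kernel

end MPb6R
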