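import Pool.Agent.Lib.MP_b6d339_lc.Cw3.YFzE2B3H2BzIzB3H3B2EzA2A2F

/-!
# Erdős 592, three levels: checks of claims
-/

namespace MPb6R

open MPb6P

theorem zoNFzE2B3H2BzIzB3H3B2EzA2A2F_0 : cyO 46 3080 nnNFzE2B3H2BzIzB3H3B2EzA2A2F ttNFzE2B3H2BzIzB3H3B2EzA2A2F ceNFzE2B3H2BzIzB3H3B2EzA2A2F xNFzE2B3H2BzIzB3H3B2EzA2A2F coNFzE2B3H2BzIzB3H3B2EzA2A2F_0 = true := by decide +kernel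

theorem zeNFzE2B3H2BzIzB3H3B2EzA2A2F_0 : cyE 46 3080 nnNFzE2B3H2BzIzB3H3B2EzA2A2F ttNFzE2B3H2BzIzB3H3B2EzA2A2F coNFzE2B3H2BzIzB3H3B2EzA2A2F xNFzE2B3H2BzIzB3H3B2EzA2A2F ceNFzE2B3H2BzIzB3H3B2EzA2A2F_0 = true := by decide +kernel

end MPb6R
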