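import Pool.Agent.Lib.MP_b6d339_lc.Cw3.YFzE2B3H2BzIzB3H3B2EzA2AyF

/-!
# Erdős 592, three levels: checks of claims
-/

namespace MPb6R

open MPb6P

theorem zoNFzE2B3H2BzIzB3H3B2EzA2AyF_0 : cyO 43 2377 nnNFzE2B3H2BzIzB3H3B2EzA2AyF ttNFzE2B3H2BzIzB3H3B2EzA2AyF ceNFzE2B3H2BzIzB3H3B2EzA2AyF xNFzE2B3H2BzIzB3H3B2EzA2AyF coNFzE2B3H2BzIzB3H3B2EzA2AyF_0 = true := by decide +kernel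

theorem zeNFzE2B3H2BzIzB3H3B2EzA2AyF_0 : cyE 43 2377 nnNFzE2B3H2BzIzB3H3B2EzA2AyF ttNFzE2B3H2BzIzB3H3B2EzA2AyF coNFzE2B3H2BzIzB3H3B2EzA2AyF xNFzE2B3H2BzIzB3H3B2EzA2AyF ceNFzE2B3H2BzIzB3H3B2EzA2AyF_0 = true := by decide +kernel

end MPb6R
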