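import Pool.Agent.Lib.MP_b6d339_lc.Cw3.YFzE2B3H2BzIzB3H3ByA2EzF

/-!
# Erdős 592, three levels: checks of claims
-/

namespace MPb6R

open MPb6P

theorem zoNFzE2B3H2BzIzB3H3ByA2EzF_0 : cyO 62 2960 nnNFzE2B3H2BzIzB3H3ByA2EzF ttNFzE2B3H2BzIzB3H3ByA2EzF ceNFzE2B3H2BzIzB3H3ByA2EzF xNFzE2B3H2BzIzB3H3ByA2EzF coNFzE2B3H2BzIzB3H3ByA2EzF_0 = true := by decide +kernel

theorem zeNFzE2B3H2BzIzB3H3ByA2EzF_0 : cyE 62 2960 nnNFzE2B3H2BzIzB3H3ByA2EzF ttNFzE2B3H2BzIzB3H3ByA2EzF coNFzE2B3H2BzIzB3H3ByA2EzF xNFzE2B3H2BzIzB3H3ByA2EzF ceNFzE2B3H2BzIzB3H3ByA2EzF_0 = true := by decide +kernel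

end MPb6R
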