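import Pool.Agent.Lib.MP_b6d339_lc.Cw3.JFzE2A3H3A2EzF
import Pool.Agent.Lib.MP_b6d339_lc.Cw3.JFzE2B3H2BzIzB3H3B2EzA2A2F
import Pool.Agent.Lib.MP_b6d339_lc.Cw3.JFzE2B3H2BzIzB3H3B2EzA2AyF
import Pool.Agent.Lib.MP_b6d339_lc.Cw3.JFzE2B3H2BzIzB3H3B2EzAyA2F
import Pool.Agent.Lib.MP_b6d339_lc.Cw3.JFzE2B3H2BzIzB3H3B2EzAzAzF
import Pool.Agent.Lib.MP_b6d339_lc.Cw3.JFzE2B3H2BzIzB3H3ByA2EzF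
import Pool.Agent.Lib.MP_b6d339_lc.Cw3.S0
import Pool.Agent.Lib.MP_b6d339_lc.Cw3.S5
import Pool.Agent.Lib.MP_b6d339_lc.Cw3.S6
import Pool.Agent.Lib.MP_b6d339_lc.Cw3.T0
import Pool.Agent.Lib.MP_b6d339_lc.Cw3.T1
import Pool.Agent.Lib.MP_b6d339_lc.Cw3.T10
import Pool.Agent.Lib.MP_b6d339_lc.Cw3.T11
import Pool.Agent.Lib.MP_b6d339_lc.Cw3.T12
import Pool.Agent.Lib.MP_b6d339_lc.Cw3.T13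
import Pool.Agent.Lib.MP_b6d339_lc.Cw3.T14
import Pool.Agent.Lib.MP_b6d339_lc.Cw3.T15
import Pool.Agent.Lib.MP_b6d339_lc.Cw3.T16
import Pool.Agent.Lib.MP_b6d339_lc.Cw3.T18
import Pool.Agent.Lib.MP_b6d339_lc.Cw3.T19
import Pool.Agent.Lib.MP_b6d339_lc.Cw3.T2
import Pool.Agent.Lib.MP_b6d339_lc.Cw3.T20
import Pool.Agent.Lib.MP_b6d339_lc.Cw3.T21
import Pool.Agent.Lib.MP_b6d339_lc.Cw3.T22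
import Pool.Agent.Lib.MP_b6d339_lc.Cw3.T23
import Pool.Agent.Lib.MP_b6d339_lc.Cw3.T24
import Pool.Agent.Lib.MP_b6d339_lc.Cw3.T25
import Pool.Agent.Lib.MP_b6d339_lc.Cw3.T26
import Pool.Agent.Lib.MP_b6d339_lc.Cw3.T27
import Pool.Agent.Lib.MP_b6d339_lc.Cw3.T3
import Pool.Agent.Lib.MP_b6d339_lc.Cw3.T30
import Pool.Agent.Lib.MP_b6d339_lc.Cw3.T31
import Pool.Agent.Lib.MP_b6d339_lc.Cw3.T33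
import Pool.Agent.Lib.MP_b6d339_lc.Cw3.T36
import Pool.Agent.Lib.MP_b6d339_lc.Cw3.T37
import Pool.Agent.Lib.MP_b6d339_lc.Cw3.T4
import Pool.Agent.Lib.MP_b6d339_lc.Cw3.T5
import Pool.Agent.Lib.MP_b6d339_lc.Cw3.T6
import Pool.Agent.Lib.MP_b6d339_lc.Cw3.T7
import Pool.Agent.Lib.MP_b6d339_lc.Cw3.T8
import Pool.Agent.Lib.MP_b6d339_lc.Cw3.T9
import Pool.Agent.Lib.MP_b6d339_lc.Cw3.XL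
import Pool.Agent.Lib.MP_b6d339_lc.Cw3.ZFzE2A3H3A2EzF_0
import Pool.Agent.Lib.MP_b6d339_lc.Cw3.ZFzE2A3H3A2EzF_1
import Pool.Agent.Lib.MP_b6d339_lc.Cw3.ZFzE2A3H3A2EzF_10
import Pool.Agent.Lib.MP_b6d339_lc.Cw3.ZFzE2A3H3A2EzF_11
import Pool.Agent.Lib.MP_b6d339_lc.Cw3.ZFzE2A3H3A2EzF_12
import Pool.Agent.Lib.MP_b6d339_lc.Cw3.ZFzE2A3H3A2EzF_13
import Pool.Agent.Lib.MP_b6d339_lc.Cw3.ZFzE2A3H3A2EzF_14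
import Pool.Agent.Lib.MP_b6d339_lc.Cw3.ZFzE2A3H3A2EzF_15
import Pool.Agent.Lib.MP_b6d339_lc.Cw3.ZFzE2A3H3A2EzF_16
import Pool.Agent.Lib.MP_b6d339_lc.Cw3.ZFzE2A3H3A2EzF_17
import Pool.Agent.Lib.MP_b6d339_lc.Cw3.ZFzE2A3H3A2EzF_18
import Pool.Agent.Lib.MP_b6d339_lc.Cw3.ZFzE2A3H3A2EzF_19
import Pool.Agent.Lib.MP_b6d339_lc.Cw3.ZFzE2A3H3A2EzF_2
import Pool.Agent.Lib.MP_b6d339_lc.Cw3.ZFzE2A3H3A2EzF_20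
import Pool.Agent.Lib.MP_b6d339_lc.Cw3.ZFzE2A3H3A2EzF_21
import Pool.Agent.Lib.MP_b6d339_lc.Cw3.ZFzE2A3H3A2EzF_22
import Pool.Agent.Lib.MP_b6d339_lc.Cw3.ZFzE2A3H3A2EzF_23
import Pool.Agent.Lib.MP_b6d339_lc.Cw3.ZFzE2A3H3A2EzF_24
import Pool.Agent.Lib.MP_b6d339_lc.Cw3.ZFzE2A3H3A2EzF_25
import Pool.Agent.Lib.MP_b6d339_lc.Cw3.ZFzE2A3H3A2EzF_26
import Pool.Agent.Lib.MP_b6d339_lc.Cw3.ZFzE2A3H3A2EzF_27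
import Pool.Agent.Lib.MP_b6d339_lc.Cw3.ZFzE2A3H3A2EzF_28
import Pool.Agent.Lib.MP_b6d339_lc.Cw3.ZFzE2A3H3A2EzF_29
import Pool.Agent.Lib.MP_b6d339_lc.Cw3.ZFzE2A3H3A2EzF_3
import Pool.Agent.Lib.MP_b6d339_lc.Cw3.ZFzE2A3H3A2EzF_30
import Pool.Agent.Lib.MP_b6d339_lc.Cw3.ZFzE2A3H3A2EzF_31
import Pool.Agent.Lib.MP_b6d339_lc.Cw3.ZFzE2A3H3A2EzF_32
import Pool.Agent.Lib.MP_b6d339_lc.Cw3.ZFzE2A3H3A2EzF_33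
import Pool.Agent.Lib.MP_b6d339_lc.Cw3.ZFzE2A3H3A2EzF_34
import Pool.Agent.Lib.MP_b6d339_lc.Cw3.ZFzE2A3H3A2EzF_35
import Pool.Agent.Lib.MP_b6d339_lc.Cw3.ZFzE2A3H3A2EzF_36
import Pool.Agent.Lib.MP_b6d339_lc.Cw3.ZFzE2A3H3A2EzF_4
import Pool.Agent.Lib.MP_b6d339_lc.Cw3.ZFzE2A3H3A2EzF_5
import Pool.Agent.Lib.MP_b6d339_lc.Cw3.ZFzE2A3H3A2EzF_6
import Pool.Agent.Lib.MP_b6d339_lc.Cw3.ZFzE2A3H3A2EzF_7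
import Pool.Agent.Lib.MP_b6d339_lc.Cw3.ZFzE2A3H3A2EzF_8
import Pool.Agent.Lib.MP_b6d339_lc.Cw3.ZFzE2A3H3A2EzF_9
import Pool.Agent.Lib.MP_b6d339_lc.Cw3.ZFzE2B3H2BzIzB3H3B2EzA2A2F_0
import Pool.Agent.Lib.MP_b6d339_lc.Cw3.ZFzE2B3H2BzIzB3H3B2EzA2AyF_0
import Pool.Agent.Lib.MP_b6d339_lc.Cw3.ZFzE2B3H2BzIzB3H3B2EzAyA2F_0
import Pool.Agent.Lib.MP_b6d339_lc.Cw3.ZFzE2B3H2BzIzB3H3B2EzAzAzF_0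
import Pool.Agent.Lib.MP_b6d339_lc.Cw3.ZFzE2B3H2BzIzB3H3ByA2EzF_0
import Pool.Agent.Lib.MP_b6d339_lc.Pos.XTreeC
import Pool.Agent.Lib.MP_b6d339_lc.Pos.YQ

/-!
# Erdős 592, three levels: classes of words
-/

namespace MPb6R

open MPb6P

theorem iiNFzE2A3H3A2EzF_k : iiNFzE2A3H3A2EzF.Fa (Itm.ok 206) := (BT.Fa_mk (BT.Fa_mk (BT.Fa_mk (BT.Fa_mk (BT.Fa_mk (BT.Fa_mk (BT.Fa_mk (BT.Fa_mk (BT.Fa_mk (BT.Fa_mk (BT.Fa_leaf (P := Itm.ok 206) (iqf tpr5_c)) (BT.Fa_leaf (P := Itm.ok 206) (iqb tpr499_c))) (BT.Fa_leaf (P := Itm.ok 206) (iqf tpr975_c))) (BT.Fa_mk (BT.Fa_leaf (P := Itm.ok 206) (iqb tpr48_c)) (BT.Fa_leaf (P := Itm.ok 206) (iqf tpr15_c)))) (BT.Fa_mk (BT.Fa_mk (BT.Fa_mk (BT.Fa_leaf (P := Itm.ok 206) (iqb tpr508_c)) (BT.Fa_leaf (P := Itm.ok 206) (iqf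 tpr198_c))) (BT.Fa_leaf (P := Itm.ok 206) (iqb tpr511_c))) (BT.Fa_mk (BT.Fa_leaf (P := Itm.ok 206) (iqb tpr519_c)) (BT.Fa_leaf (P := Itm.ok 206) (iqf tpr324_c))))) (BT.Fa_mk (BT.Fa_mk (BT.Fa_mk (BT.Fa_mk (BT.Fa_leaf (P := Itm.ok 206) (iqb tpr509_c)) (BT.Fa_leaf (P := Itm.ok 206) (iqf tpr216_c))) (BT.Fa_leaf (P := Itm.ok 206) (iqf tpr499_c))) (BT.Fa_mk (BT.Fa_leaf (P := Itm.ok 206) (iqb tpr507_c)) (BT.Fa_leaf (P := Itm.ok 206) (iqb tpr518_c)))) (BT.Fa_mk (BT.Fa_mk (BT.Fa_leaf (P := Itm.ok 206) (iqb tpr581_c)) (BT.Fa_leaf (P := Itm.ok 206) (iqf tpr10_c))) (BT.Fa_mk (BT.Fa_leaf (P := Itm.ok 206) (iqb tpr1542_c)) (BT.Fa_leaf (P := Itm.ok 206) (iqb tpr24_c)))))) (BT.Fa_mk (BT.Fa_mk (BT.Fa_mk (BT.Fa_mk (BT.Fa_mk (BT.Fa_leaf (P := Itm.ok 206) (iqf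 tpr500_c)) (BT.Fa_leaf (P := Itm.ok 206) (iqb tpr607_c))) (BT.Fa_leaf (P := Itm.ok 206) (iqb tpr504_c))) (BT.Fa_mk (BT.Fa_leaf (P := Itm.ok 206) (iqb tpr513_c)) (BT.Fa_leaf (P := Itm.ok 206) (iqf tpr82_c)))) (BT.Fa_mk (BT.Fa_mk (BT.Fa_leaf (P := Itm.ok 206) (iqf tpr419_c)) (BT.Fa_leaf (P := Itm.ok 206) (iqf tpr583_c))) (BT.Fa_mk (BT.Fa_leaf (P := Itm.ok 206) (iqf tpr1611_c)) (BT.Fa_leaf (P := Itm.ok 206) (iqb tpr789_c))))) (BT.Fa_mk (BT.Fa_mk (BT.Fa_mk (BT.Fa_mk (BT.Fa_leaf (P := Itm.ok 206) (iqf tpr103_c)) (BT.Fa_leaf (P := Itm.ok 206) (iqf tpr191_c))) (BT.Fa_leaf (P := Itm.ok 206) (iqb tpr63_c))) (BT.Fa_mk (BT.Fa_leaf (P := Itm.ok 206) (iqf tpr559_c)) (BT.Fa_leaf (P := Itm.ok 206) (iqf tpr295_c)))) (BT.Fa_mk (BT.Fa_mk (BT.Fa_leaf (P :=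 Itm.ok 206) (iqf tpr9_c)) (BT.Fa_leaf (P := Itm.ok 206) (iqb tpr583_c))) (BT.Fa_mk (BT.Fa_leaf (P := Itm.ok 206) (iqb tpr818_c)) (BT.Fa_leaf (P := Itm.ok 206) (iqb tpr240_c))))))) (BT.Fa_mk (BT.Fa_mk (BT.Fa_mk (BT.Fa_mk (BT.Fa_mk (BT.Fa_mk (BT.Fa_leaf (P := Itm.ok 206) (iqb tpr167_c)) (BT.Fa_leaf (P := Itm.ok 206) (iqf tpr525_c))) (BT.Fa_leaf (P := Itm.ok 206) (iqb tpr524_c))) (BT.Fa_mk (BT.Fa_leaf (P := Itm.ok 206) (iqf tpr54_c)) (BT.Fa_leaf (P := Itm.ok 206) (iqb tpr13_c)))) (BT.Fa_mk (BT.Fa_mk (BT.Fa_leaf (P := Itm.ok 206) (iqf tpr22_c)) (BT.Fa_leaf (P := Itm.ok 206) (iqf tpr503_c))) (BT.Fa_mk (BT.Fa_leaf (P := Itm.ok 206) (iqb tpr82_c)) (BT.Fa_leaf (P := Itm.ok 206) (iqb tpr51_c))))) (BT.Fa_mk (BT.Fa_mk (BT.Fa_mk (BT.Fa_mk (BT.Fa_leaf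 (P := Itm.ok 206) (iqf tpr576_c)) (BT.Fa_leaf (P := Itm.ok 206) (iqf tpr26_c))) (BT.Fa_leaf (P := Itm.ok 206) (iqf tpr1572_c))) (BT.Fa_mk (BT.Fa_leaf (P := Itm.ok 206) (iqb tpr677_c)) (BT.Fa_leaf (P := Itm.ok 206) (iqf tpr16_c)))) (BT.Fa_mk (BT.Fa_mk (BT.Fa_leaf (P := Itm.ok 206) (iqf tpr2101_c)) (BT.Fa_leaf (P := Itm.ok 206) (iqf tpr966_c))) (BT.Fa_mk (BT.Fa_leaf (P := Itm.ok 206) (iqf tpr1724_c)) (BT.Fa_leaf (P := Itm.ok 206) (iqb tpr2424_c)))))) (BT.Fa_mk (BT.Fa_mk (BT.Fa_mk (BT.Fa_mk (BT.Fa_mk (BT.Fa_leaf (P := Itm.ok 206) (iqb tpr1199_c)) (BT.Fa_leaf (P := Itm.ok 206) (iqb tpr17_c))) (BT.Fa_leaf (P := Itm.ok 206) (iqf tpr501_c))) (BT.Fa_mk (BT.Fa_leaf (P := Itm.ok 206) (iqb tpr203_c)) (BT.Fa_leaf (P := Itm.ok 206) (iqb tpr723_c)))) (BT.Fa_mk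 (BT.Fa_mk (BT.Fa_leaf (P := Itm.ok 206) (iqf tpr569_c)) (BT.Fa_leaf (P := Itm.ok 206) (iqf tpr46_c))) (BT.Fa_mk (BT.Fa_leaf (P := Itm.ok 206) (iqb tpr575_c)) (BT.Fa_leaf (P := Itm.ok 206) (iqf tpr789_c))))) (BT.Fa_mk (BT.Fa_mk (BT.Fa_mk (BT.Fa_mk (BT.Fa_leaf (P := Itm.ok 206) (iqf tpr1257_c)) (BT.Fa_leaf (P := Itm.ok 206) (iqf tpr567_c))) (BT.Fa_leaf (P := Itm.ok 206) (iqf tpr523_c))) (BT.Fa_mk (BT.Fa_leaf (P := Itm.ok 206) (iqf tpr466_c)) (BT.Fa_leaf (P := Itm.ok 206) (iqf tpr521_c)))) (BT.Fa_mk (BT.Fa_mk (BT.Fa_leaf (P := Itm.ok 206) (iqf tpr590_c)) (BT.Fa_leaf (P := Itm.ok 206) (iqb tpr735_c))) (BT.Fa_mk (BT.Fa_leaf (P := Itm.ok 206) (iqb tpr324_c)) (BT.Fa_leaf (P := Itm.ok 206) (iqf tpr23_c)))))))) (BT.Fa_mk (BT.Fa_mk (BT.Fa_mk (BT.Fa_mk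 (BT.Fa_mk (BT.Fa_mk (BT.Fa_mk (BT.Fa_leaf (P := Itm.ok 206) (iqb tpr566_c)) (BT.Fa_leaf (P := Itm.ok 206) (iqb tpr8_c))) (BT.Fa_leaf (P := Itm.ok 206) (iqb tpr502_c))) (BT.Fa_mk (BT.Fa_leaf (P := Itm.ok 206) (iqb tpr588_c)) (BT.Fa_leaf (P := Itm.ok 206) (iqf tpr515_c)))) (BT.Fa_mk (BT.Fa_mk (BT.Fa_mk (BT.Fa_leaf (P := Itm.ok 206) (iqb tpr9_c)) (BT.Fa_leaf (P := Itm.ok 206) (iqb tpr15_c))) (BT.Fa_leaf (P := Itm.ok 206) (iqf tpr25_c))) (BT.Fa_mk (BT.Fa_leaf (P := Itm.ok 206) (iqf tpr1355_c)) (BT.Fa_leaf (P := Itm.ok 206) (iqf tpr2948_c))))) (BT.Fa_mk (BT.Fa_mk (BT.Fa_mk (BT.Fa_mk (BT.Fa_leaf (P := Itm.ok 206) (iqf tpr44_c)) (BT.Fa_leaf (P := Itm.ok 206) (iqb tpr1724_c))) (BT.Fa_leaf (P := Itm.ok 206) (iqb tpr1605_c))) (BT.Fa_mk (BT.Fa_leaf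 (P := Itm.ok 206) (iqf tpr320_c)) (BT.Fa_leaf (P := Itm.ok 206) (iqf tpr2665_c)))) (BT.Fa_mk (BT.Fa_mk (BT.Fa_leaf (P := Itm.ok 206) (iqf tpr734_c)) (BT.Fa_leaf (P := Itm.ok 206) (iqb tpr1253_c))) (BT.Fa_mk (BT.Fa_leaf (P := Itm.ok 206) (iqf tpr1248_c)) (BT.Fa_leaf (P := Itm.ok 206) (iqf tpr574_c)))))) (BT.Fa_mk (BT.Fa_mk (BT.Fa_mk (BT.Fa_mk (BT.Fa_mk (BT.Fa_leaf (P := Itm.ok 206) (iqf tpr1547_c)) (BT.Fa_leaf (P := Itm.ok 206) (iqb tpr585_c))) (BT.Fa_leaf (P := Itm.ok 206) (iqf tpr968_c))) (BT.Fa_mk (BT.Fa_leaf (P := Itm.ok 206) (iqb tpr705_c)) (BT.Fa_leaf (P := Itm.ok 206) (iqf tpr1934_c)))) (BT.Fa_mk (BT.Fa_mk (BT.Fa_leaf (P := Itm.ok 206) (iqf tpr691_c)) (BT.Fa_leaf (P := Itm.ok 206) (iqf tpr526_c))) (BT.Fa_mk (BT.Fa_leaf (P := Itm.ok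 206) (iqf tpr58_c)) (BT.Fa_leaf (P := Itm.ok 206) (iqf tpr959_c))))) (BT.Fa_mk (BT.Fa_mk (BT.Fa_mk (BT.Fa_mk (BT.Fa_leaf (P := Itm.ok 206) (iqf tpr294_c)) (BT.Fa_leaf (P := Itm.ok 206) (iqb tpr2949_c))) (BT.Fa_leaf (P := Itm.ok 206) (iqb tpr542_c))) (BT.Fa_mk (BT.Fa_leaf (P := Itm.ok 206) (iqf tpr1255_c)) (BT.Fa_leaf (P := Itm.ok 206) (iqb tpr743_c)))) (BT.Fa_mk (BT.Fa_mk (BT.Fa_leaf (P := Itm.ok 206) (iqb tpr626_c)) (BT.Fa_leaf (P := Itm.ok 206) (iqb tpr546_c))) (BT.Fa_mk (BT.Fa_leaf (P := Itm.ok 206) (iqf tpr543_c)) (BT.Fa_leaf (P := Itm.ok 206) (iqf tpr2950_c))))))) (BT.Fa_mk (BT.Fa_mk (BT.Fa_mk (BT.Fa_mk (BT.Fa_mk (BT.Fa_mk (BT.Fa_leaf (P := Itm.ok 206) (iqf tpr2951_c)) (BT.Fa_leaf (P := Itm.ok 206) (iqb tpr545_c))) (BT.Fa_leaf (P :=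 Itm.ok 206) (iqb tpr505_c))) (BT.Fa_mk (BT.Fa_leaf (P := Itm.ok 206) (iqb tpr2952_c)) (BT.Fa_leaf (P := Itm.ok 206) (iqf tpr512_c)))) (BT.Fa_mk (BT.Fa_mk (BT.Fa_leaf (P := Itm.ok 206) (iqf tpr585_c)) (BT.Fa_leaf (P := Itm.ok 206) (iqf tpr626_c))) (BT.Fa_mk (BT.Fa_leaf (P := Itm.ok 206) (iqf tpr344_c)) (BT.Fa_leaf (P := Itm.ok 206) (iqf tpr1549_c))))) (BT.Fa_mk (BT.Fa_mk (BT.Fa_mk (BT.Fa_mk (BT.Fa_leaf (P := Itm.ok 206) (iqf tpr1256_c)) (BT.Fa_leaf (P := Itm.ok 206) (iqf tpr2941_c))) (BT.Fa_leaf (P := Itm.ok 206) (iqb tpr1570_c))) (BT.Fa_mk (BT.Fa_leaf (P := Itm.ok 206) (iqb tpr294_c)) (BT.Fa_leaf (P := Itm.ok 206) (iqb tpr979_c)))) (BT.Fa_mk (BT.Fa_mk (BT.Fa_leaf (P := Itm.ok 206) (iqf tpr238_c)) (BT.Fa_leaf (P := Itm.ok 206) (iqf tpr520_c)))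 (BT.Fa_mk (BT.Fa_leaf (P := Itm.ok 206) (iqf tpr293_c)) (BT.Fa_leaf (P := Itm.ok 206) (iqf tpr265_c)))))) (BT.Fa_mk (BT.Fa_mk (BT.Fa_mk (BT.Fa_mk (BT.Fa_mk (BT.Fa_leaf (P := Itm.ok 206) (iqb tpr516_c)) (BT.Fa_leaf (P := Itm.ok 206) (iqb tpr204_c))) (BT.Fa_leaf (P := Itm.ok 206) (iqf tpr107_c))) (BT.Fa_mk (BT.Fa_leaf (P := Itm.ok 206) (iqb tpr18_c)) (BT.Fa_leaf (P := Itm.ok 206) (iqb tpr2953_c)))) (BT.Fa_mk (BT.Fa_mk (BT.Fa_leaf (P := Itm.ok 206) (iqb tpr1953_c)) (BT.Fa_leaf (P := Itm.ok 206) (iqf tpr695_c))) (BT.Fa_mk (BT.Fa_leaf (P := Itm.ok 206) (iqb tpr510_c)) (BT.Fa_leaf (P := Itm.ok 206) (iqb tpr700_c))))) (BT.Fa_mk (BT.Fa_mk (BT.Fa_mk (BT.Fa_mk (BT.Fa_leaf (P := Itm.ok 206) (iqb tpr292_c)) (BT.Fa_leaf (P := Itm.ok 206) (iqb tpr2954_c)))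 (BT.Fa_leaf (P := Itm.ok 206) (iqb tpr501_c))) (BT.Fa_mk (BT.Fa_leaf (P := Itm.ok 206) (iqb tpr503_c)) (BT.Fa_leaf (P := Itm.ok 206) (iqb tpr592_c)))) (BT.Fa_mk (BT.Fa_mk (BT.Fa_leaf (P := Itm.ok 206) (iqf tpr593_c)) (BT.Fa_leaf (P := Itm.ok 206) (iqf tpr13_c))) (BT.Fa_mk (BT.Fa_leaf (P := Itm.ok 206) (iqb tpr77_c)) (BT.Fa_leaf (P := Itm.ok 206) (iqf tpr1457_c))))))))) (BT.Fa_mk (BT.Fa_mk (BT.Fa_mk (BT.Fa_mk (BT.Fa_mk (BT.Fa_mk (BT.Fa_mk (BT.Fa_mk (BT.Fa_leaf (P := Itm.ok 206) (iqb tpr20_c)) (BT.Fa_leaf (P := Itm.ok 206) (iqf tpr507_c))) (BT.Fa_leaf (P := Itm.ok 206) (iqf tpr519_c))) (BT.Fa_mk (BT.Fa_leaf (P := Itm.ok 206) (iqb tpr500_c)) (BT.Fa_leaf (P := Itm.ok 206) (iqf tpr48_c)))) (BT.Fa_mk (BT.Fa_mk (BT.Fa_mk (BT.Fa_leaf (P := Itm.ok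 206) (iqf tpr167_c)) (BT.Fa_leaf (P := Itm.ok 206) (iqb tpr525_c))) (BT.Fa_leaf (P := Itm.ok 206) (iqf tpr57_c))) (BT.Fa_mk (BT.Fa_leaf (P := Itm.ok 206) (iqb tpr62_c)) (BT.Fa_leaf (P := Itm.ok 206) (iqf tpr87_c))))) (BT.Fa_mk (BT.Fa_mk (BT.Fa_mk (BT.Fa_mk (BT.Fa_leaf (P := Itm.ok 206) (iqf tpr504_c)) (BT.Fa_leaf (P := Itm.ok 206) (iqb tpr103_c))) (BT.Fa_leaf (P := Itm.ok 206) (iqf tpr505_c))) (BT.Fa_mk (BT.Fa_leaf (P := Itm.ok 206) (iqb tpr16_c)) (BT.Fa_leaf (P := Itm.ok 206) (iqf tpr509_c)))) (BT.Fa_mk (BT.Fa_mk (BT.Fa_leaf (P := Itm.ok 206) (iqf tpr124_c)) (BT.Fa_leaf (P := Itm.ok 206) (iqf tpr81_c))) (BT.Fa_mk (BT.Fa_leaf (P := Itm.ok 206) (iqb tpr26_c)) (BT.Fa_leaf (P := Itm.ok 206) (iqf tpr539_c)))))) (BT.Fa_mk (BT.Fa_mk (BT.Fa_mk (BT.Fa_mk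 (BT.Fa_mk (BT.Fa_leaf (P := Itm.ok 206) (iqb tpr241_c)) (BT.Fa_leaf (P := Itm.ok 206) (iqb tpr87_c))) (BT.Fa_leaf (P := Itm.ok 206) (iqb tpr78_c))) (BT.Fa_mk (BT.Fa_leaf (P := Itm.ok 206) (iqb tpr81_c)) (BT.Fa_leaf (P := Itm.ok 206) (iqf tpr511_c)))) (BT.Fa_mk (BT.Fa_mk (BT.Fa_leaf (P := Itm.ok 206) (iqb tpr124_c)) (BT.Fa_leaf (P := Itm.ok 206) (iqb tpr521_c))) (BT.Fa_mk (BT.Fa_leaf (P := Itm.ok 206) (iqb tpr539_c)) (BT.Fa_leaf (P := Itm.ok 206) (iqf tpr510_c))))) (BT.Fa_mk (BT.Fa_mk (BT.Fa_mk (BT.Fa_mk (BT.Fa_leaf (P := Itm.ok 206) (iqb tpr191_c)) (BT.Fa_leaf (P := Itm.ok 206) (iqf tpr524_c))) (BT.Fa_leaf (P := Itm.ok 206) (iqb tpr594_c))) (BT.Fa_mk (BT.Fa_leaf (P := Itm.ok 206) (iqb tpr532_c)) (BT.Fa_leaf (P := Itm.ok 206) (iqf tpr513_c))))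 (BT.Fa_mk (BT.Fa_mk (BT.Fa_leaf (P := Itm.ok 206) (iqb tpr567_c)) (BT.Fa_leaf (P := Itm.ok 206) (iqf tpr575_c))) (BT.Fa_mk (BT.Fa_leaf (P := Itm.ok 206) (iqb tpr515_c)) (BT.Fa_leaf (P := Itm.ok 206) (iqf tpr502_c))))))) (BT.Fa_mk (BT.Fa_mk (BT.Fa_mk (BT.Fa_mk (BT.Fa_mk (BT.Fa_mk (BT.Fa_leaf (P := Itm.ok 206) (iqb tpr512_c)) (BT.Fa_leaf (P := Itm.ok 206) (iqb tpr544_c))) (BT.Fa_leaf (P := Itm.ok 206) (iqf tpr542_c))) (BT.Fa_mk (BT.Fa_leaf (P := Itm.ok 206) (iqf tpr599_c)) (BT.Fa_leaf (P := Itm.ok 206) (iqb tpr295_c)))) (BT.Fa_mk (BT.Fa_mk (BT.Fa_leaf (P := Itm.ok 206) (iqf tpr581_c)) (BT.Fa_leaf (P := Itm.ok 206) (iqf tpr584_c))) (BT.Fa_mk (BT.Fa_leaf (P := Itm.ok 206) (iqb tpr534_c)) (BT.Fa_leaf (P := Itm.ok 206) (iqf tpr544_c))))) (BT.Fa_mk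 (BT.Fa_mk (BT.Fa_mk (BT.Fa_mk (BT.Fa_leaf (P := Itm.ok 206) (iqb tpr198_c)) (BT.Fa_leaf (P := Itm.ok 206) (iqb tpr520_c))) (BT.Fa_leaf (P := Itm.ok 206) (iqb tpr537_c))) (BT.Fa_mk (BT.Fa_leaf (P := Itm.ok 206) (iqb tpr549_c)) (BT.Fa_leaf (P := Itm.ok 206) (iqb tpr559_c)))) (BT.Fa_mk (BT.Fa_mk (BT.Fa_leaf (P := Itm.ok 206) (iqf tpr203_c)) (BT.Fa_leaf (P := Itm.ok 206) (iqb tpr523_c))) (BT.Fa_mk (BT.Fa_leaf (P := Itm.ok 206) (iqb tpr543_c)) (BT.Fa_leaf (P := Itm.ok 206) (iqb tpr151_c)))))) (BT.Fa_mk (BT.Fa_mk (BT.Fa_mk (BT.Fa_mk (BT.Fa_mk (BT.Fa_leaf (P := Itm.ok 206) (iqf tpr580_c)) (BT.Fa_leaf (P := Itm.ok 206) (iqf tpr587_c))) (BT.Fa_leaf (P := Itm.ok 206) (iqb tpr584_c))) (BT.Fa_mk (BT.Fa_leaf (P := Itm.ok 206) (iqb tpr293_c)) (BT.Fa_leaf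 (P := Itm.ok 206) (iqf tpr514_c)))) (BT.Fa_mk (BT.Fa_mk (BT.Fa_leaf (P := Itm.ok 206) (iqf tpr151_c)) (BT.Fa_leaf (P := Itm.ok 206) (iqf tpr537_c))) (BT.Fa_mk (BT.Fa_leaf (P := Itm.ok 206) (iqf tpr571_c)) (BT.Fa_leaf (P := Itm.ok 206) (iqb tpr514_c))))) (BT.Fa_mk (BT.Fa_mk (BT.Fa_mk (BT.Fa_mk (BT.Fa_leaf (P := Itm.ok 206) (iqf tpr522_c)) (BT.Fa_leaf (P := Itm.ok 206) (iqb tpr54_c))) (BT.Fa_leaf (P := Itm.ok 206) (iqf tpr591_c))) (BT.Fa_mk (BT.Fa_leaf (P := Itm.ok 206) (iqb tpr576_c)) (BT.Fa_leaf (P := Itm.ok 206) (iqb tpr587_c)))) (BT.Fa_mk (BT.Fa_mk (BT.Fa_leaf (P := Itm.ok 206) (iqf tpr595_c)) (BT.Fa_leaf (P := Itm.ok 206) (iqf tpr588_c))) (BT.Fa_mk (BT.Fa_leaf (P := Itm.ok 206) (iqb tpr565_c)) (BT.Fa_leaf (P := Itm.ok 206) (iqb tpr602_c))))))))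 (BT.Fa_mk (BT.Fa_mk (BT.Fa_mk (BT.Fa_mk (BT.Fa_mk (BT.Fa_mk (BT.Fa_mk (BT.Fa_leaf (P := Itm.ok 206) (iqb tpr603_c)) (BT.Fa_leaf (P := Itm.ok 206) (iqf tpr508_c))) (BT.Fa_leaf (P := Itm.ok 206) (iqf tpr1870_c))) (BT.Fa_mk (BT.Fa_leaf (P := Itm.ok 206) (iqf tpr1914_c)) (BT.Fa_leaf (P := Itm.ok 206) (iqf tpr74_c)))) (BT.Fa_mk (BT.Fa_mk (BT.Fa_mk (BT.Fa_leaf (P := Itm.ok 206) (iqb tpr74_c)) (BT.Fa_leaf (P := Itm.ok 206) (iqb tpr1863_c))) (BT.Fa_leaf (P := Itm.ok 206) (iqf tpr546_c))) (BT.Fa_mk (BT.Fa_leaf (P := Itm.ok 206) (iqf tpr1889_c)) (BT.Fa_leaf (P := Itm.ok 206) (iqb tpr315_c))))) (BT.Fa_mk (BT.Fa_mk (BT.Fa_mk (BT.Fa_mk (BT.Fa_leaf (P := Itm.ok 206) (iqf tpr549_c)) (BT.Fa_leaf (P := Itm.ok 206) (iqb tpr1655_c))) (BT.Fa_leaf (P := Itm.ok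 206) (iqf tpr906_c))) (BT.Fa_mk (BT.Fa_leaf (P := Itm.ok 206) (iqf tpr1655_c)) (BT.Fa_leaf (P := Itm.ok 206) (iqf tpr1917_c)))) (BT.Fa_mk (BT.Fa_mk (BT.Fa_leaf (P := Itm.ok 206) (iqf tpr1865_c)) (BT.Fa_leaf (P := Itm.ok 206) (iqb tpr1924_c))) (BT.Fa_mk (BT.Fa_leaf (P := Itm.ok 206) (iqf tpr702_c)) (BT.Fa_leaf (P := Itm.ok 206) (iqb tpr702_c)))))) (BT.Fa_mk (BT.Fa_mk (BT.Fa_mk (BT.Fa_mk (BT.Fa_mk (BT.Fa_leaf (P := Itm.ok 206) (iqb tpr466_c)) (BT.Fa_leaf (P := Itm.ok 206) (iqb tpr344_c))) (BT.Fa_leaf (P := Itm.ok 206) (iqb tpr1867_c))) (BT.Fa_mk (BT.Fa_leaf (P := Itm.ok 206) (iqf tpr123_c)) (BT.Fa_leaf (P := Itm.ok 206) (iqf tpr1867_c)))) (BT.Fa_mk (BT.Fa_mk (BT.Fa_leaf (P := Itm.ok 206) (iqb tpr107_c)) (BT.Fa_leaf (P := Itm.ok 206) (iqf tpr565_c)))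 (BT.Fa_mk (BT.Fa_leaf (P := Itm.ok 206) (iqb tpr1869_c)) (BT.Fa_leaf (P := Itm.ok 206) (iqf tpr720_c))))) (BT.Fa_mk (BT.Fa_mk (BT.Fa_mk (BT.Fa_mk (BT.Fa_leaf (P := Itm.ok 206) (iqb tpr1909_c)) (BT.Fa_leaf (P := Itm.ok 206) (iqf tpr122_c))) (BT.Fa_leaf (P := Itm.ok 206) (iqb tpr630_c))) (BT.Fa_mk (BT.Fa_leaf (P := Itm.ok 206) (iqb tpr1908_c)) (BT.Fa_leaf (P := Itm.ok 206) (iqb tpr621_c)))) (BT.Fa_mk (BT.Fa_mk (BT.Fa_leaf (P := Itm.ok 206) (iqf tpr1869_c)) (BT.Fa_leaf (P := Itm.ok 206) (iqf tpr1909_c))) (BT.Fa_mk (BT.Fa_leaf (P := Itm.ok 206) (iqb tpr720_c)) (BT.Fa_leaf (P := Itm.ok 206) (iqf tpr1887_c))))))) (BT.Fa_mk (BT.Fa_mk (BT.Fa_mk (BT.Fa_mk (BT.Fa_mk (BT.Fa_mk (BT.Fa_leaf (P := Itm.ok 206) (iqb tpr1887_c)) (BT.Fa_leaf (P := Itm.ok 206)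 (iqb tpr1864_c))) (BT.Fa_leaf (P := Itm.ok 206) (iqb tpr1862_c))) (BT.Fa_mk (BT.Fa_leaf (P := Itm.ok 206) (iqb tpr1925_c)) (BT.Fa_leaf (P := Itm.ok 206) (iqf tpr1944_c)))) (BT.Fa_mk (BT.Fa_mk (BT.Fa_leaf (P := Itm.ok 206) (iqf tpr1864_c)) (BT.Fa_leaf (P := Itm.ok 206) (iqf tpr1862_c))) (BT.Fa_mk (BT.Fa_leaf (P := Itm.ok 206) (iqb tpr695_c)) (BT.Fa_leaf (P := Itm.ok 206) (iqf tpr1882_c))))) (BT.Fa_mk (BT.Fa_mk (BT.Fa_mk (BT.Fa_mk (BT.Fa_leaf (P := Itm.ok 206) (iqf tpr1897_c)) (BT.Fa_leaf (P := Itm.ok 206) (iqf tpr630_c))) (BT.Fa_leaf (P := Itm.ok 206) (iqb tpr1715_c))) (BT.Fa_mk (BT.Fa_leaf (P := Itm.ok 206) (iqf tpr1652_c)) (BT.Fa_leaf (P := Itm.ok 206) (iqf tpr1923_c)))) (BT.Fa_mk (BT.Fa_mk (BT.Fa_leaf (P := Itm.ok 206) (iqb tpr265_c)) (BT.Fa_leaf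 (P := Itm.ok 206) (iqb tpr1933_c))) (BT.Fa_mk (BT.Fa_leaf (P := Itm.ok 206) (iqf tpr767_c)) (BT.Fa_leaf (P := Itm.ok 206) (iqf tpr1886_c)))))) (BT.Fa_mk (BT.Fa_mk (BT.Fa_mk (BT.Fa_mk (BT.Fa_mk (BT.Fa_leaf (P := Itm.ok 206) (iqf tpr1878_c)) (BT.Fa_leaf (P := Itm.ok 206) (iqf tpr729_c))) (BT.Fa_leaf (P := Itm.ok 206) (iqb tpr1652_c))) (BT.Fa_mk (BT.Fa_leaf (P := Itm.ok 206) (iqb tpr1930_c)) (BT.Fa_leaf (P := Itm.ok 206) (iqb tpr1929_c)))) (BT.Fa_mk (BT.Fa_mk (BT.Fa_leaf (P := Itm.ok 206) (iqf tpr1895_c)) (BT.Fa_leaf (P := Itm.ok 206) (iqb tpr1883_c))) (BT.Fa_mk (BT.Fa_leaf (P := Itm.ok 206) (iqb tpr1878_c)) (BT.Fa_leaf (P := Itm.ok 206) (iqb tpr1932_c))))) (BT.Fa_mk (BT.Fa_mk (BT.Fa_mk (BT.Fa_mk (BT.Fa_leaf (P := Itm.ok 206) (iqb tpr729_c))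 (BT.Fa_leaf (P := Itm.ok 206) (iqf tpr1251_c))) (BT.Fa_leaf (P := Itm.ok 206) (iqf tpr1938_c))) (BT.Fa_mk (BT.Fa_leaf (P := Itm.ok 206) (iqf tpr1866_c)) (BT.Fa_leaf (P := Itm.ok 206) (iqf tpr1903_c)))) (BT.Fa_mk (BT.Fa_mk (BT.Fa_leaf (P := Itm.ok 206) (iqf tpr1967_c)) (BT.Fa_leaf (P := Itm.ok 206) (iqf tpr1717_c))) (BT.Fa_mk (BT.Fa_leaf (P := Itm.ok 206) (iqf tpr200_c)) (BT.Fa_leaf (P := Itm.ok 206) (iqf tpr1966_c)))))))))) (BT.Fa_mk (BT.Fa_mk (BT.Fa_mk (BT.Fa_mk (BT.Fa_mk (BT.Fa_mk (BT.Fa_mk (BT.Fa_mk (BT.Fa_mk (BT.Fa_leaf (P := Itm.ok 206) (iqb tpr317_c)) (BT.Fa_leaf (P := Itm.ok 206) (iqb tpr757_c))) (BT.Fa_leaf (P := Itm.ok 206) (iqf tpr1890_c))) (BT.Fa_mk (BT.Fa_leaf (P := Itm.ok 206) (iqb tpr1890_c)) (BT.Fa_leaf (P := Itm.ok 206) (iqb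 tpr1888_c)))) (BT.Fa_mk (BT.Fa_mk (BT.Fa_mk (BT.Fa_leaf (P := Itm.ok 206) (iqb tpr1800_c)) (BT.Fa_leaf (P := Itm.ok 206) (iqf tpr736_c))) (BT.Fa_leaf (P := Itm.ok 206) (iqb tpr1683_c))) (BT.Fa_mk (BT.Fa_leaf (P := Itm.ok 206) (iqf tpr1877_c)) (BT.Fa_leaf (P := Itm.ok 206) (iqf tpr1885_c))))) (BT.Fa_mk (BT.Fa_mk (BT.Fa_mk (BT.Fa_mk (BT.Fa_leaf (P := Itm.ok 206) (iqb tpr1190_c)) (BT.Fa_leaf (P := Itm.ok 206) (iqb tpr327_c))) (BT.Fa_leaf (P := Itm.ok 206) (iqb tpr1886_c))) (BT.Fa_mk (BT.Fa_leaf (P := Itm.ok 206) (iqb tpr982_c)) (BT.Fa_leaf (P := Itm.ok 206) (iqf tpr1964_c)))) (BT.Fa_mk (BT.Fa_mk (BT.Fa_leaf (P := Itm.ok 206) (iqf tpr979_c)) (BT.Fa_leaf (P := Itm.ok 206) (iqb tpr44_c))) (BT.Fa_mk (BT.Fa_leaf (P := Itm.ok 206) (iqb tpr1870_c))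 (BT.Fa_leaf (P := Itm.ok 206) (iqb tpr1915_c)))))) (BT.Fa_mk (BT.Fa_mk (BT.Fa_mk (BT.Fa_mk (BT.Fa_mk (BT.Fa_leaf (P := Itm.ok 206) (iqb tpr1882_c)) (BT.Fa_leaf (P := Itm.ok 206) (iqb tpr1866_c))) (BT.Fa_leaf (P := Itm.ok 206) (iqf tpr1892_c))) (BT.Fa_mk (BT.Fa_leaf (P := Itm.ok 206) (iqf tpr566_c)) (BT.Fa_leaf (P := Itm.ok 206) (iqf tpr1896_c)))) (BT.Fa_mk (BT.Fa_mk (BT.Fa_leaf (P := Itm.ok 206) (iqf tpr51_c)) (BT.Fa_leaf (P := Itm.ok 206) (iqb tpr648_c))) (BT.Fa_mk (BT.Fa_leaf (P := Itm.ok 206) (iqb tpr10_c)) (BT.Fa_leaf (P := Itm.ok 206) (iqf tpr86_c))))) (BT.Fa_mk (BT.Fa_mk (BT.Fa_mk (BT.Fa_mk (BT.Fa_leaf (P := Itm.ok 206) (iqb tpr57_c)) (BT.Fa_leaf (P := Itm.ok 206) (iqf tpr292_c))) (BT.Fa_leaf (P := Itm.ok 206) (iqb tpr1895_c))) (BT.Fa_mk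 (BT.Fa_leaf (P := Itm.ok 206) (iqb tpr1873_c)) (BT.Fa_leaf (P := Itm.ok 206) (iqb tpr1897_c)))) (BT.Fa_mk (BT.Fa_mk (BT.Fa_leaf (P := Itm.ok 206) (iqb tpr1884_c)) (BT.Fa_leaf (P := Itm.ok 206) (iqb tpr1875_c))) (BT.Fa_mk (BT.Fa_leaf (P := Itm.ok 206) (iqb tpr1881_c)) (BT.Fa_leaf (P := Itm.ok 206) (iqb tpr129_c))))))) (BT.Fa_mk (BT.Fa_mk (BT.Fa_mk (BT.Fa_mk (BT.Fa_mk (BT.Fa_mk (BT.Fa_leaf (P := Itm.ok 206) (iqb tpr349_c)) (BT.Fa_leaf (P := Itm.ok 206) (iqb tpr851_c))) (BT.Fa_leaf (P := Itm.ok 206) (iqb tpr1889_c))) (BT.Fa_mk (BT.Fa_leaf (P := Itm.ok 206) (iqf tpr1801_c)) (BT.Fa_leaf (P := Itm.ok 206) (iqf tpr118_c)))) (BT.Fa_mk (BT.Fa_mk (BT.Fa_leaf (P := Itm.ok 206) (iqb tpr1874_c)) (BT.Fa_leaf (P := Itm.ok 206) (iqb tpr652_c))) (BT.Fa_mk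 (BT.Fa_leaf (P := Itm.ok 206) (iqb tpr763_c)) (BT.Fa_leaf (P := Itm.ok 206) (iqf tpr326_c))))) (BT.Fa_mk (BT.Fa_mk (BT.Fa_mk (BT.Fa_mk (BT.Fa_leaf (P := Itm.ok 206) (iqb tpr393_c)) (BT.Fa_leaf (P := Itm.ok 206) (iqb tpr1927_c))) (BT.Fa_leaf (P := Itm.ok 206) (iqb tpr1893_c))) (BT.Fa_mk (BT.Fa_leaf (P := Itm.ok 206) (iqf tpr1898_c)) (BT.Fa_leaf (P := Itm.ok 206) (iqf tpr545_c)))) (BT.Fa_mk (BT.Fa_mk (BT.Fa_leaf (P := Itm.ok 206) (iqb tpr599_c)) (BT.Fa_leaf (P := Itm.ok 206) (iqb tpr906_c))) (BT.Fa_mk (BT.Fa_leaf (P := Itm.ok 206) (iqb tpr1937_c)) (BT.Fa_leaf (P := Itm.ok 206) (iqb tpr632_c)))))) (BT.Fa_mk (BT.Fa_mk (BT.Fa_mk (BT.Fa_mk (BT.Fa_mk (BT.Fa_leaf (P := Itm.ok 206) (iqb tpr1817_c)) (BT.Fa_leaf (P := Itm.ok 206) (iqb tpr1213_c))) (BT.Fa_leaf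 (P := Itm.ok 206) (iqf tpr1900_c))) (BT.Fa_mk (BT.Fa_leaf (P := Itm.ok 206) (iqb tpr75_c)) (BT.Fa_leaf (P := Itm.ok 206) (iqb tpr123_c)))) (BT.Fa_mk (BT.Fa_mk (BT.Fa_leaf (P := Itm.ok 206) (iqb tpr200_c)) (BT.Fa_leaf (P := Itm.ok 206) (iqb tpr95_c))) (BT.Fa_mk (BT.Fa_leaf (P := Itm.ok 206) (iqf tpr516_c)) (BT.Fa_leaf (P := Itm.ok 206) (iqf tpr1888_c))))) (BT.Fa_mk (BT.Fa_mk (BT.Fa_mk (BT.Fa_mk (BT.Fa_leaf (P := Itm.ok 206) (iqb tpr714_c)) (BT.Fa_leaf (P := Itm.ok 206) (iqb tpr1251_c))) (BT.Fa_leaf (P := Itm.ok 206) (iqf tpr234_c))) (BT.Fa_mk (BT.Fa_leaf (P := Itm.ok 206) (iqf tpr621_c)) (BT.Fa_leaf (P := Itm.ok 206) (iqf tpr393_c)))) (BT.Fa_mk (BT.Fa_mk (BT.Fa_leaf (P := Itm.ok 206) (iqb tpr122_c)) (BT.Fa_leaf (P := Itm.ok 206) (iqf tpr603_c)))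 (BT.Fa_mk (BT.Fa_leaf (P := Itm.ok 206) (iqb tpr591_c)) (BT.Fa_leaf (P := Itm.ok 206) (iqf tpr1646_c)))))))) (BT.Fa_mk (BT.Fa_mk (BT.Fa_mk (BT.Fa_mk (BT.Fa_mk (BT.Fa_mk (BT.Fa_mk (BT.Fa_leaf (P := Itm.ok 206) (iqf tpr18_c)) (BT.Fa_leaf (P := Itm.ok 206) (iqf tpr315_c))) (BT.Fa_leaf (P := Itm.ok 206) (iqb tpr25_c))) (BT.Fa_mk (BT.Fa_leaf (P := Itm.ok 206) (iqf tpr33_c)) (BT.Fa_leaf (P := Itm.ok 206) (iqb tpr1255_c)))) (BT.Fa_mk (BT.Fa_mk (BT.Fa_mk (BT.Fa_leaf (P := Itm.ok 206) (iqb tpr1647_c)) (BT.Fa_leaf (P := Itm.ok 206) (iqb tpr1914_c))) (BT.Fa_leaf (P := Itm.ok 206) (iqf tpr29_c))) (BT.Fa_mk (BT.Fa_leaf (P := Itm.ok 206) (iqf tpr1817_c)) (BT.Fa_leaf (P := Itm.ok 206) (iqf tpr1213_c))))) (BT.Fa_mk (BT.Fa_mk (BT.Fa_mk (BT.Fa_mk (BT.Fa_leaf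 (P := Itm.ok 206) (iqf tpr1570_c)) (BT.Fa_leaf (P := Itm.ok 206) (iqf tpr1943_c))) (BT.Fa_leaf (P := Itm.ok 206) (iqf tpr1902_c))) (BT.Fa_mk (BT.Fa_leaf (P := Itm.ok 206) (iqb tpr622_c)) (BT.Fa_leaf (P := Itm.ok 206) (iqb tpr662_c)))) (BT.Fa_mk (BT.Fa_mk (BT.Fa_leaf (P := Itm.ok 206) (iqf tpr1924_c)) (BT.Fa_leaf (P := Itm.ok 206) (iqf tpr602_c))) (BT.Fa_mk (BT.Fa_leaf (P := Itm.ok 206) (iqb tpr674_c)) (BT.Fa_leaf (P := Itm.ok 206) (iqf tpr632_c)))))) (BT.Fa_mk (BT.Fa_mk (BT.Fa_mk (BT.Fa_mk (BT.Fa_mk (BT.Fa_leaf (P := Itm.ok 206) (iqf tpr1913_c)) (BT.Fa_leaf (P := Itm.ok 206) (iqf tpr349_c))) (BT.Fa_leaf (P := Itm.ok 206) (iqb tpr968_c))) (BT.Fa_mk (BT.Fa_leaf (P := Itm.ok 206) (iqf tpr1905_c)) (BT.Fa_leaf (P := Itm.ok 206) (iqf tpr1684_c))))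 (BT.Fa_mk (BT.Fa_mk (BT.Fa_leaf (P := Itm.ok 206) (iqb tpr1637_c)) (BT.Fa_leaf (P := Itm.ok 206) (iqb tpr1904_c))) (BT.Fa_mk (BT.Fa_leaf (P := Itm.ok 206) (iqf tpr1636_c)) (BT.Fa_leaf (P := Itm.ok 206) (iqf tpr1715_c))))) (BT.Fa_mk (BT.Fa_mk (BT.Fa_mk (BT.Fa_mk (BT.Fa_leaf (P := Itm.ok 206) (iqf tpr982_c)) (BT.Fa_leaf (P := Itm.ok 206) (iqf tpr75_c))) (BT.Fa_leaf (P := Itm.ok 206) (iqb tpr1963_c))) (BT.Fa_mk (BT.Fa_leaf (P := Itm.ok 206) (iqb tpr1892_c)) (BT.Fa_leaf (P := Itm.ok 206) (iqf tpr63_c)))) (BT.Fa_mk (BT.Fa_mk (BT.Fa_leaf (P := Itm.ok 206) (iqf tpr1683_c)) (BT.Fa_leaf (P := Itm.ok 206) (iqb tpr458_c))) (BT.Fa_mk (BT.Fa_leaf (P := Itm.ok 206) (iqb tpr736_c)) (BT.Fa_leaf (P := Itm.ok 206) (iqb tpr1547_c))))))) (BT.Fa_mk (BT.Fa_mk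 (BT.Fa_mk (BT.Fa_mk (BT.Fa_mk (BT.Fa_mk (BT.Fa_leaf (P := Itm.ok 206) (iqb tpr959_c)) (BT.Fa_leaf (P := Itm.ok 206) (iqf tpr697_c))) (BT.Fa_leaf (P := Itm.ok 206) (iqb tpr1646_c))) (BT.Fa_mk (BT.Fa_leaf (P := Itm.ok 206) (iqb tpr1899_c)) (BT.Fa_leaf (P := Itm.ok 206) (iqb tpr1938_c)))) (BT.Fa_mk (BT.Fa_mk (BT.Fa_leaf (P := Itm.ok 206) (iqb tpr1861_c)) (BT.Fa_leaf (P := Itm.ok 206) (iqf tpr1647_c))) (BT.Fa_mk (BT.Fa_leaf (P := Itm.ok 206) (iqb tpr1572_c)) (BT.Fa_leaf (P := Itm.ok 206) (iqb tpr1942_c))))) (BT.Fa_mk (BT.Fa_mk (BT.Fa_mk (BT.Fa_mk (BT.Fa_leaf (P := Itm.ok 206) (iqf tpr672_c)) (BT.Fa_leaf (P := Itm.ok 206) (iqf tpr1908_c))) (BT.Fa_leaf (P := Itm.ok 206) (iqf tpr1199_c))) (BT.Fa_mk (BT.Fa_leaf (P := Itm.ok 206) (iqb tpr598_c)) (BT.Fa_leaf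 (P := Itm.ok 206) (iqb tpr1611_c)))) (BT.Fa_mk (BT.Fa_mk (BT.Fa_leaf (P := Itm.ok 206) (iqf tpr1004_c)) (BT.Fa_leaf (P := Itm.ok 206) (iqb tpr1062_c))) (BT.Fa_mk (BT.Fa_leaf (P := Itm.ok 206) (iqf tpr1941_c)) (BT.Fa_leaf (P := Itm.ok 206) (iqb tpr1943_c)))))) (BT.Fa_mk (BT.Fa_mk (BT.Fa_mk (BT.Fa_mk (BT.Fa_mk (BT.Fa_leaf (P := Itm.ok 206) (iqb tpr1902_c)) (BT.Fa_leaf (P := Itm.ok 206) (iqf tpr1904_c))) (BT.Fa_leaf (P := Itm.ok 206) (iqf tpr1637_c))) (BT.Fa_mk (BT.Fa_leaf (P := Itm.ok 206) (iqb tpr118_c)) (BT.Fa_leaf (P := Itm.ok 206) (iqf tpr43_c)))) (BT.Fa_mk (BT.Fa_mk (BT.Fa_leaf (P := Itm.ok 206) (iqb tpr86_c)) (BT.Fa_leaf (P := Itm.ok 206) (iqf tpr1893_c))) (BT.Fa_mk (BT.Fa_leaf (P := Itm.ok 206) (iqf tpr1874_c)) (BT.Fa_leaf (P := Itm.ok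 206) (iqb tpr1876_c))))) (BT.Fa_mk (BT.Fa_mk (BT.Fa_mk (BT.Fa_mk (BT.Fa_leaf (P := Itm.ok 206) (iqf tpr622_c)) (BT.Fa_leaf (P := Itm.ok 206) (iqb tpr1917_c))) (BT.Fa_leaf (P := Itm.ok 206) (iqb tpr846_c))) (BT.Fa_mk (BT.Fa_leaf (P := Itm.ok 206) (iqf tpr676_c)) (BT.Fa_leaf (P := Itm.ok 206) (iqf tpr1868_c)))) (BT.Fa_mk (BT.Fa_mk (BT.Fa_leaf (P := Itm.ok 206) (iqf tpr1936_c)) (BT.Fa_leaf (P := Itm.ok 206) (iqb tpr1865_c))) (BT.Fa_mk (BT.Fa_leaf (P := Itm.ok 206) (iqf tpr763_c)) (BT.Fa_leaf (P := Itm.ok 206) (iqb tpr1004_c))))))))) (BT.Fa_mk (BT.Fa_mk (BT.Fa_mk (BT.Fa_mk (BT.Fa_mk (BT.Fa_mk (BT.Fa_mk (BT.Fa_mk (BT.Fa_leaf (P := Itm.ok 206) (iqf tpr1939_c)) (BT.Fa_leaf (P := Itm.ok 206) (iqf tpr1930_c))) (BT.Fa_leaf (P := Itm.ok 206) (iqb tpr671_c)))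 (BT.Fa_mk (BT.Fa_leaf (P := Itm.ok 206) (iqf tpr1918_c)) (BT.Fa_leaf (P := Itm.ok 206) (iqf tpr1919_c)))) (BT.Fa_mk (BT.Fa_mk (BT.Fa_mk (BT.Fa_leaf (P := Itm.ok 206) (iqb tpr1920_c)) (BT.Fa_leaf (P := Itm.ok 206) (iqf tpr1876_c))) (BT.Fa_leaf (P := Itm.ok 206) (iqb tpr1921_c))) (BT.Fa_mk (BT.Fa_leaf (P := Itm.ok 206) (iqb tpr1926_c)) (BT.Fa_leaf (P := Itm.ok 206) (iqb tpr1940_c))))) (BT.Fa_mk (BT.Fa_mk (BT.Fa_mk (BT.Fa_mk (BT.Fa_leaf (P := Itm.ok 206) (iqf tpr1681_c)) (BT.Fa_leaf (P := Itm.ok 206) (iqf tpr1881_c))) (BT.Fa_leaf (P := Itm.ok 206) (iqf tpr1907_c))) (BT.Fa_mk (BT.Fa_leaf (P := Itm.ok 206) (iqf tpr1875_c)) (BT.Fa_leaf (P := Itm.ok 206) (iqf tpr851_c)))) (BT.Fa_mk (BT.Fa_mk (BT.Fa_leaf (P := Itm.ok 206) (iqb tpr1896_c)) (BT.Fa_leaf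 (P := Itm.ok 206) (iqb tpr1717_c))) (BT.Fa_mk (BT.Fa_leaf (P := Itm.ok 206) (iqf tpr1873_c)) (BT.Fa_leaf (P := Itm.ok 206) (iqb tpr767_c)))))) (BT.Fa_mk (BT.Fa_mk (BT.Fa_mk (BT.Fa_mk (BT.Fa_mk (BT.Fa_leaf (P := Itm.ok 206) (iqf tpr129_c)) (BT.Fa_leaf (P := Itm.ok 206) (iqf tpr327_c))) (BT.Fa_leaf (P := Itm.ok 206) (iqb tpr1958_c))) (BT.Fa_mk (BT.Fa_leaf (P := Itm.ok 206) (iqf tpr1948_c)) (BT.Fa_leaf (P := Itm.ok 206) (iqf tpr1960_c)))) (BT.Fa_mk (BT.Fa_mk (BT.Fa_leaf (P := Itm.ok 206) (iqf tpr1949_c)) (BT.Fa_leaf (P := Itm.ok 206) (iqf tpr1953_c))) (BT.Fa_mk (BT.Fa_leaf (P := Itm.ok 206) (iqf tpr1920_c)) (BT.Fa_leaf (P := Itm.ok 206) (iqf tpr1626_c))))) (BT.Fa_mk (BT.Fa_mk (BT.Fa_mk (BT.Fa_mk (BT.Fa_leaf (P := Itm.ok 206) (iqf tpr846_c))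 (BT.Fa_leaf (P := Itm.ok 206) (iqf tpr1933_c))) (BT.Fa_leaf (P := Itm.ok 206) (iqf tpr1926_c))) (BT.Fa_mk (BT.Fa_leaf (P := Itm.ok 206) (iqb tpr569_c)) (BT.Fa_leaf (P := Itm.ok 206) (iqf tpr628_c)))) (BT.Fa_mk (BT.Fa_mk (BT.Fa_leaf (P := Itm.ok 206) (iqf tpr1925_c)) (BT.Fa_leaf (P := Itm.ok 206) (iqf tpr1883_c))) (BT.Fa_mk (BT.Fa_leaf (P := Itm.ok 206) (iqb tpr1945_c)) (BT.Fa_leaf (P := Itm.ok 206) (iqf tpr671_c))))))) (BT.Fa_mk (BT.Fa_mk (BT.Fa_mk (BT.Fa_mk (BT.Fa_mk (BT.Fa_mk (BT.Fa_leaf (P := Itm.ok 206) (iqb tpr1918_c)) (BT.Fa_leaf (P := Itm.ok 206) (iqb tpr1919_c))) (BT.Fa_leaf (P := Itm.ok 206) (iqf tpr1899_c))) (BT.Fa_mk (BT.Fa_leaf (P := Itm.ok 206) (iqf tpr1927_c)) (BT.Fa_leaf (P := Itm.ok 206) (iqb tpr1900_c)))) (BT.Fa_mk (BT.Fa_mk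 (BT.Fa_leaf (P := Itm.ok 206) (iqb tpr1877_c)) (BT.Fa_leaf (P := Itm.ok 206) (iqf tpr1962_c))) (BT.Fa_mk (BT.Fa_leaf (P := Itm.ok 206) (iqb tpr1966_c)) (BT.Fa_leaf (P := Itm.ok 206) (iqb tpr326_c))))) (BT.Fa_mk (BT.Fa_mk (BT.Fa_mk (BT.Fa_mk (BT.Fa_leaf (P := Itm.ok 206) (iqf tpr652_c)) (BT.Fa_leaf (P := Itm.ok 206) (iqf tpr1190_c))) (BT.Fa_leaf (P := Itm.ok 206) (iqf tpr1929_c))) (BT.Fa_mk (BT.Fa_leaf (P := Itm.ok 206) (iqb tpr1944_c)) (BT.Fa_leaf (P := Itm.ok 206) (iqb tpr1936_c)))) (BT.Fa_mk (BT.Fa_mk (BT.Fa_leaf (P := Itm.ok 206) (iqb tpr522_c)) (BT.Fa_leaf (P := Itm.ok 206) (iqb tpr593_c))) (BT.Fa_mk (BT.Fa_leaf (P := Itm.ok 206) (iqb tpr676_c)) (BT.Fa_leaf (P := Itm.ok 206) (iqb tpr1941_c)))))) (BT.Fa_mk (BT.Fa_mk (BT.Fa_mk (BT.Fa_mk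 (BT.Fa_mk (BT.Fa_leaf (P := Itm.ok 206) (iqf tpr1062_c)) (BT.Fa_leaf (P := Itm.ok 206) (iqb tpr1636_c))) (BT.Fa_leaf (P := Itm.ok 206) (iqf tpr648_c))) (BT.Fa_mk (BT.Fa_leaf (P := Itm.ok 206) (iqf tpr339_c)) (BT.Fa_leaf (P := Itm.ok 206) (iqf tpr657_c)))) (BT.Fa_mk (BT.Fa_mk (BT.Fa_leaf (P := Itm.ok 206) (iqb tpr1964_c)) (BT.Fa_leaf (P := Itm.ok 206) (iqf tpr1915_c))) (BT.Fa_mk (BT.Fa_leaf (P := Itm.ok 206) (iqb tpr1916_c)) (BT.Fa_leaf (P := Itm.ok 206) (iqf tpr1932_c))))) (BT.Fa_mk (BT.Fa_mk (BT.Fa_mk (BT.Fa_mk (BT.Fa_leaf (P := Itm.ok 206) (iqf tpr1940_c)) (BT.Fa_leaf (P := Itm.ok 206) (iqf tpr78_c))) (BT.Fa_leaf (P := Itm.ok 206) (iqb tpr1907_c))) (BT.Fa_mk (BT.Fa_leaf (P := Itm.ok 206) (iqf tpr714_c)) (BT.Fa_leaf (P := Itm.ok 206) (iqb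 tpr1962_c)))) (BT.Fa_mk (BT.Fa_mk (BT.Fa_leaf (P := Itm.ok 206) (iqb tpr33_c)) (BT.Fa_leaf (P := Itm.ok 206) (iqb tpr339_c))) (BT.Fa_mk (BT.Fa_leaf (P := Itm.ok 206) (iqf tpr1916_c)) (BT.Fa_leaf (P := Itm.ok 206) (iqb tpr1967_c)))))))) (BT.Fa_mk (BT.Fa_mk (BT.Fa_mk (BT.Fa_mk (BT.Fa_mk (BT.Fa_mk (BT.Fa_mk (BT.Fa_leaf (P := Itm.ok 206) (iqf tpr662_c)) (BT.Fa_leaf (P := Itm.ok 206) (iqf tpr674_c))) (BT.Fa_leaf (P := Itm.ok 206) (iqb tpr1903_c))) (BT.Fa_mk (BT.Fa_leaf (P := Itm.ok 206) (iqf tpr987_c)) (BT.Fa_leaf (P := Itm.ok 206) (iqb tpr1913_c)))) (BT.Fa_mk (BT.Fa_mk (BT.Fa_mk (BT.Fa_leaf (P := Itm.ok 206) (iqf tpr8_c)) (BT.Fa_leaf (P := Itm.ok 206) (iqb tpr1559_c))) (BT.Fa_leaf (P := Itm.ok 206) (iqf tpr658_c))) (BT.Fa_mk (BT.Fa_leaf (P :=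 Itm.ok 206) (iqf tpr1891_c)) (BT.Fa_leaf (P := Itm.ok 206) (iqf tpr2955_c))))) (BT.Fa_mk (BT.Fa_mk (BT.Fa_mk (BT.Fa_mk (BT.Fa_leaf (P := Itm.ok 206) (iqf tpr534_c)) (BT.Fa_leaf (P := Itm.ok 206) (iqb tpr32_c))) (BT.Fa_leaf (P := Itm.ok 206) (iqb tpr2084_c))) (BT.Fa_mk (BT.Fa_leaf (P := Itm.ok 206) (iqf tpr2956_c)) (BT.Fa_leaf (P := Itm.ok 206) (iqf tpr642_c)))) (BT.Fa_mk (BT.Fa_mk (BT.Fa_leaf (P := Itm.ok 206) (iqf tpr1973_c)) (BT.Fa_leaf (P := Itm.ok 206) (iqf tpr24_c))) (BT.Fa_mk (BT.Fa_leaf (P := Itm.ok 206) (iqb tpr535_c)) (BT.Fa_leaf (P := Itm.ok 206) (iqb tpr1872_c)))))) (BT.Fa_mk (BT.Fa_mk (BT.Fa_mk (BT.Fa_mk (BT.Fa_mk (BT.Fa_leaf (P := Itm.ok 206) (iqb tpr1939_c)) (BT.Fa_leaf (P := Itm.ok 206) (iqb tpr2957_c))) (BT.Fa_leaf (P := Itm.ok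 206) (iqf tpr1911_c))) (BT.Fa_mk (BT.Fa_leaf (P := Itm.ok 206) (iqb tpr1649_c)) (BT.Fa_leaf (P := Itm.ok 206) (iqf tpr1921_c)))) (BT.Fa_mk (BT.Fa_mk (BT.Fa_leaf (P := Itm.ok 206) (iqb tpr1911_c)) (BT.Fa_leaf (P := Itm.ok 206) (iqf tpr554_c))) (BT.Fa_mk (BT.Fa_leaf (P := Itm.ok 206) (iqb tpr2958_c)) (BT.Fa_leaf (P := Itm.ok 206) (iqf tpr594_c))))) (BT.Fa_mk (BT.Fa_mk (BT.Fa_mk (BT.Fa_mk (BT.Fa_leaf (P := Itm.ok 206) (iqf tpr2959_c)) (BT.Fa_leaf (P := Itm.ok 206) (iqb tpr1626_c))) (BT.Fa_leaf (P := Itm.ok 206) (iqf tpr194_c))) (BT.Fa_mk (BT.Fa_leaf (P := Itm.ok 206) (iqf tpr625_c)) (BT.Fa_leaf (P := Itm.ok 206) (iqf tpr1649_c)))) (BT.Fa_mk (BT.Fa_mk (BT.Fa_leaf (P := Itm.ok 206) (iqb tpr320_c)) (BT.Fa_leaf (P := Itm.ok 206) (iqb tpr323_c)))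 (BT.Fa_mk (BT.Fa_leaf (P := Itm.ok 206) (iqb tpr1980_c)) (BT.Fa_leaf (P := Itm.ok 206) (iqb tpr1343_c))))))) (BT.Fa_mk (BT.Fa_mk (BT.Fa_mk (BT.Fa_mk (BT.Fa_mk (BT.Fa_mk (BT.Fa_leaf (P := Itm.ok 206) (iqf tpr1922_c)) (BT.Fa_leaf (P := Itm.ok 206) (iqf tpr536_c))) (BT.Fa_leaf (P := Itm.ok 206) (iqb tpr526_c))) (BT.Fa_mk (BT.Fa_leaf (P := Itm.ok 206) (iqb tpr2960_c)) (BT.Fa_leaf (P := Itm.ok 206) (iqb tpr2961_c)))) (BT.Fa_mk (BT.Fa_mk (BT.Fa_leaf (P := Itm.ok 206) (iqb tpr1949_c)) (BT.Fa_leaf (P := Itm.ok 206) (iqb tpr1952_c))) (BT.Fa_mk (BT.Fa_leaf (P := Itm.ok 206) (iqb tpr556_c)) (BT.Fa_leaf (P := Itm.ok 206) (iqf tpr1538_c))))) (BT.Fa_mk (BT.Fa_mk (BT.Fa_mk (BT.Fa_mk (BT.Fa_leaf (P := Itm.ok 206) (iqf tpr1963_c)) (BT.Fa_leaf (P := Itm.ok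 206) (iqf tpr1951_c))) (BT.Fa_leaf (P := Itm.ok 206) (iqb tpr812_c))) (BT.Fa_mk (BT.Fa_leaf (P := Itm.ok 206) (iqf tpr2962_c)) (BT.Fa_leaf (P := Itm.ok 206) (iqb tpr1590_c)))) (BT.Fa_mk (BT.Fa_mk (BT.Fa_leaf (P := Itm.ok 206) (iqf tpr810_c)) (BT.Fa_leaf (P := Itm.ok 206) (iqb tpr1868_c))) (BT.Fa_mk (BT.Fa_leaf (P := Itm.ok 206) (iqb tpr1885_c)) (BT.Fa_leaf (P := Itm.ok 206) (iqf tpr1194_c)))))) (BT.Fa_mk (BT.Fa_mk (BT.Fa_mk (BT.Fa_mk (BT.Fa_mk (BT.Fa_leaf (P := Itm.ok 206) (iqb tpr600_c)) (BT.Fa_leaf (P := Itm.ok 206) (iqf tpr528_c))) (BT.Fa_leaf (P := Itm.ok 206) (iqb tpr554_c))) (BT.Fa_mk (BT.Fa_leaf (P := Itm.ok 206) (iqb tpr1971_c)) (BT.Fa_leaf (P := Itm.ok 206) (iqb tpr718_c)))) (BT.Fa_mk (BT.Fa_mk (BT.Fa_leaf (P := Itm.ok 206) (iqb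 tpr727_c)) (BT.Fa_leaf (P := Itm.ok 206) (iqb tpr1950_c))) (BT.Fa_mk (BT.Fa_leaf (P := Itm.ok 206) (iqb tpr1891_c)) (BT.Fa_leaf (P := Itm.ok 206) (iqb tpr2963_c))))) (BT.Fa_mk (BT.Fa_mk (BT.Fa_mk (BT.Fa_mk (BT.Fa_leaf (P := Itm.ok 206) (iqb tpr536_c)) (BT.Fa_leaf (P := Itm.ok 206) (iqf tpr1730_c))) (BT.Fa_leaf (P := Itm.ok 206) (iqb tpr527_c))) (BT.Fa_mk (BT.Fa_leaf (P := Itm.ok 206) (iqf tpr1196_c)) (BT.Fa_leaf (P := Itm.ok 206) (iqb tpr1923_c)))) (BT.Fa_mk (BT.Fa_mk (BT.Fa_leaf (P := Itm.ok 206) (iqf tpr527_c)) (BT.Fa_leaf (P := Itm.ok 206) (iqb tpr558_c))) (BT.Fa_mk (BT.Fa_leaf (P := Itm.ok 206) (iqf tpr589_c)) (BT.Fa_leaf (P := Itm.ok 206) (iqf tpr578_c)))))))))))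

/-- all words of the class have labels -/
theorem pokNFzE2A3H3A2EzF : POK 206 xNFzE2A3H3A2EzF :=
  y_pok (C0 := ceNFzE2A3H3A2EzF) (C1 := coNFzE2A3H3A2EzF) topNFzE2A3H3A2EzF nbNFzE2A3H3A2EzF (BT.Fa_of_all iiNFzE2A3H3A2EzF_c)
    (BT.Fa_mk (BT.Fa_mk (BT.Fa_mk (cyE_spec zeNFzE2A3H3A2EzF_0) (BT.Fa_mk (cyE_spec zeNFzE2A3H3A2EzF_1) (BT.Fa_mk (cyE_spec zeNFzE2A3H3A2EzF_2) (cyE_spec zeNFzE2A3H3A2EzF_3)))) (BT.Fa_mk (BT.Fa_mk (BT.Fa_mk (cyE_spec zeNFzE2A3H3A2EzF_4) (cyE_spec zeNFzE2A3H3A2EzF_5)) (cyE_spec zeNFzE2A3H3A2EzF_6)) (BT.Fa_mk (cyE_spec zeNFzE2A3H3A2EzF_7) (cyE_spec zeNFzE2A3H3A2EzF_8)))) (BT.Fa_mk (BT.Fa_mk (BT.Fa_mk (cyE_spec zeNFzE2A3H3A2EzF_9) (BT.Fa_mk (cyE_spec zeNFzE2A3H3A2EzF_10) (cyE_spec zeNFzE2A3H3A2EzF_11))) (BT.Fa_mk (BT.Fa_mk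 (cyE_spec zeNFzE2A3H3A2EzF_12) (cyE_spec zeNFzE2A3H3A2EzF_13)) (BT.Fa_mk (cyE_spec zeNFzE2A3H3A2EzF_14) (cyE_spec zeNFzE2A3H3A2EzF_15)))) (BT.Fa_mk (BT.Fa_mk (BT.Fa_mk (BT.Fa_mk (cyE_spec zeNFzE2A3H3A2EzF_16) (cyE_spec zeNFzE2A3H3A2EzF_17)) (cyE_spec zeNFzE2A3H3A2EzF_18)) (BT.Fa_mk (BT.Fa_mk (cyE_spec zeNFzE2A3H3A2EzF_19) (cyE_spec zeNFzE2A3H3A2EzF_20)) (cyE_spec zeNFzE2A3H3A2EzF_21))) (BT.Fa_mk (BT.Fa_mk (cyE_spec zeNFzE2A3H3A2EzF_22) (cyE_spec zeNFzE2A3H3A2EzF_23)) (BT.Fa_mk (cyE_spec zeNFzE2A3H3A2EzF_24) (cyE_spec zeNFzE2A3H3A2EzF_25))))))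
    (BT.Fa_mk (BT.Fa_mk (BT.Fa_mk (BT.Fa_mk (cyO_spec zoNFzE2A3H3A2EzF_0) (cyO_spec zoNFzE2A3H3A2EzF_1)) (BT.Fa_mk (cyO_spec zoNFzE2A3H3A2EzF_2) (BT.Fa_mk (cyO_spec zoNFzE2A3H3A2EzF_3) (cyO_spec zoNFzE2A3H3A2EzF_4)))) (BT.Fa_mk (BT.Fa_mk (cyO_spec zoNFzE2A3H3A2EzF_5) (cyO_spec zoNFzE2A3H3A2EzF_6)) (BT.Fa_mk (cyO_spec zoNFzE2A3H3A2EzF_7) (cyO_spec zoNFzE2A3H3A2EzF_8)))) (BT.Fa_mk (BT.Fa_mk (BT.Fa_mk (BT.Fa_mk (cyO_spec zoNFzE2A3H3A2EzF_9) (cyO_spec zoNFzE2A3H3A2EzF_10)) (BT.Fa_mk (cyO_spec zoNFzE2A3H3A2EzF_11) (BT.Fa_mk (cyO_spec zoNFzE2A3H3A2EzF_12) (cyO_spec zoNFzE2A3H3A2EzF_13)))) (BT.Fa_mk (BT.Fa_mk (cyO_spec zoNFzE2A3H3A2EzF_14) (cyO_spec zoNFzE2A3H3A2EzF_15)) (BT.Fa_mk (BT.Fa_mk (BT.Fa_mk (cyO_spec zoNFzE2A3H3A2EzF_16) (cyO_spec zoNFzE2A3H3A2EzF_17))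 (BT.Fa_mk (cyO_spec zoNFzE2A3H3A2EzF_18) (cyO_spec zoNFzE2A3H3A2EzF_19))) (cyO_spec zoNFzE2A3H3A2EzF_20)))) (BT.Fa_mk (BT.Fa_mk (BT.Fa_mk (cyO_spec zoNFzE2A3H3A2EzF_21) (cyO_spec zoNFzE2A3H3A2EzF_22)) (BT.Fa_mk (cyO_spec zoNFzE2A3H3A2EzF_23) (cyO_spec zoNFzE2A3H3A2EzF_24))) (BT.Fa_mk (BT.Fa_mk (cyO_spec zoNFzE2A3H3A2EzF_25) (cyO_spec zoNFzE2A3H3A2EzF_26)) (BT.Fa_mk (cyO_spec zoNFzE2A3H3A2EzF_27) (cyO_spec zoNFzE2A3H3A2EzF_28))))))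
    iiNFzE2A3H3A2EzF_k

theorem iiNFzE2A3H3AyB2AzF_k : iiNFzE2A3H3AyB2AzF.Fa (Itm.ok 206) := (BT.Fa_mk (BT.Fa_mk (BT.Fa_mk (BT.Fa_mk (BT.Fa_mk (BT.Fa_mk (BT.Fa_mk (BT.Fa_leaf (P := Itm.ok 206) (iqb tpr8_c)) (BT.Fa_leaf (P := Itm.ok 206) (iqb tpr616_c))) (BT.Fa_leaf (P := Itm.ok 206) (iqf tpr509_c))) (BT.Fa_mk (BT.Fa_mk (BT.Fa_leaf (P := Itm.ok 206) (iqf tpr545_c)) (BT.Fa_leaf (P := Itm.ok 206) (iqb tpr12_c))) (BT.Fa_leaf (P := Itm.ok 206) (iqb tpr953_c)))) (BT.Fa_mk (BT.Fa_mk (BT.Fa_mk (BT.Fa_leaf (P := Itm.ok 206) (iqf tpr236_c)) (BT.Fa_leaf (P := Itm.ok 206) (iqb tpr168_c))) (BT.Fa_leaf (P := Itm.ok 206) (iqb tpr500_c))) (BT.Fa_mk (BT.Fa_mk (BT.Fa_leaf (P := Itm.ok 206) (iqb tpr656_c)) (BT.Fa_leaf (P := Itm.ok 206) (iqf tpr528_c))) (BT.Fa_leaf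 (P := Itm.ok 206) (iqf tpr564_c))))) (BT.Fa_mk (BT.Fa_mk (BT.Fa_mk (BT.Fa_mk (BT.Fa_leaf (P := Itm.ok 206) (iqf tpr579_c)) (BT.Fa_leaf (P := Itm.ok 206) (iqf tpr788_c))) (BT.Fa_leaf (P := Itm.ok 206) (iqf tpr2031_c))) (BT.Fa_mk (BT.Fa_mk (BT.Fa_leaf (P := Itm.ok 206) (iqf tpr499_c)) (BT.Fa_leaf (P := Itm.ok 206) (iqb tpr259_c))) (BT.Fa_leaf (P := Itm.ok 206) (iqf tpr566_c)))) (BT.Fa_mk (BT.Fa_mk (BT.Fa_mk (BT.Fa_leaf (P := Itm.ok 206) (iqf tpr2494_c)) (BT.Fa_leaf (P := Itm.ok 206) (iqb tpr103_c))) (BT.Fa_leaf (P := Itm.ok 206) (iqf tpr504_c))) (BT.Fa_mk (BT.Fa_leaf (P := Itm.ok 206) (iqf tpr1681_c)) (BT.Fa_leaf (P := Itm.ok 206) (iqf tpr90_c)))))) (BT.Fa_mk (BT.Fa_mk (BT.Fa_mk (BT.Fa_mk (BT.Fa_mk (BT.Fa_leaf (P := Itm.ok 206) (iqb tpr608_c))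 (BT.Fa_leaf (P := Itm.ok 206) (iqf tpr167_c))) (BT.Fa_leaf (P := Itm.ok 206) (iqb tpr1018_c))) (BT.Fa_mk (BT.Fa_mk (BT.Fa_leaf (P := Itm.ok 206) (iqb tpr562_c)) (BT.Fa_leaf (P := Itm.ok 206) (iqb tpr9_c))) (BT.Fa_leaf (P := Itm.ok 206) (iqb tpr734_c)))) (BT.Fa_mk (BT.Fa_mk (BT.Fa_mk (BT.Fa_leaf (P := Itm.ok 206) (iqb tpr25_c)) (BT.Fa_leaf (P := Itm.ok 206) (iqb tpr721_c))) (BT.Fa_leaf (P := Itm.ok 206) (iqf tpr768_c))) (BT.Fa_mk (BT.Fa_mk (BT.Fa_leaf (P := Itm.ok 206) (iqb tpr18_c)) (BT.Fa_leaf (P := Itm.ok 206) (iqf tpr87_c))) (BT.Fa_leaf (P := Itm.ok 206) (iqb tpr501_c))))) (BT.Fa_mk (BT.Fa_mk (BT.Fa_mk (BT.Fa_mk (BT.Fa_leaf (P := Itm.ok 206) (iqb tpr51_c)) (BT.Fa_leaf (P := Itm.ok 206) (iqb tpr1730_c))) (BT.Fa_leaf (P := Itm.ok 206) (iqf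 tpr589_c))) (BT.Fa_mk (BT.Fa_mk (BT.Fa_leaf (P := Itm.ok 206) (iqf tpr623_c)) (BT.Fa_leaf (P := Itm.ok 206) (iqb tpr573_c))) (BT.Fa_leaf (P := Itm.ok 206) (iqb tpr1457_c)))) (BT.Fa_mk (BT.Fa_mk (BT.Fa_mk (BT.Fa_leaf (P := Itm.ok 206) (iqf tpr736_c)) (BT.Fa_leaf (P := Itm.ok 206) (iqf tpr606_c))) (BT.Fa_leaf (P := Itm.ok 206) (iqf tpr458_c))) (BT.Fa_mk (BT.Fa_leaf (P := Itm.ok 206) (iqf tpr978_c)) (BT.Fa_leaf (P := Itm.ok 206) (iqb tpr585_c))))))) (BT.Fa_mk (BT.Fa_mk (BT.Fa_mk (BT.Fa_mk (BT.Fa_mk (BT.Fa_mk (BT.Fa_leaf (P := Itm.ok 206) (iqb tpr89_c)) (BT.Fa_leaf (P := Itm.ok 206) (iqf tpr507_c))) (BT.Fa_leaf (P := Itm.ok 206) (iqf tpr519_c))) (BT.Fa_mk (BT.Fa_mk (BT.Fa_leaf (P := Itm.ok 206) (iqf tpr730_c)) (BT.Fa_leaf (P := Itm.ok 206) (iqf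 tpr607_c))) (BT.Fa_leaf (P := Itm.ok 206) (iqf tpr81_c)))) (BT.Fa_mk (BT.Fa_mk (BT.Fa_mk (BT.Fa_leaf (P := Itm.ok 206) (iqb tpr110_c)) (BT.Fa_leaf (P := Itm.ok 206) (iqf tpr626_c))) (BT.Fa_leaf (P := Itm.ok 206) (iqb tpr820_c))) (BT.Fa_mk (BT.Fa_mk (BT.Fa_leaf (P := Itm.ok 206) (iqb tpr499_c)) (BT.Fa_leaf (P := Itm.ok 206) (iqf tpr508_c))) (BT.Fa_leaf (P := Itm.ok 206) (iqf tpr2084_c))))) (BT.Fa_mk (BT.Fa_mk (BT.Fa_mk (BT.Fa_mk (BT.Fa_leaf (P := Itm.ok 206) (iqb tpr5_c)) (BT.Fa_leaf (P := Itm.ok 206) (iqb tpr10_c))) (BT.Fa_leaf (P := Itm.ok 206) (iqb tpr609_c))) (BT.Fa_mk (BT.Fa_mk (BT.Fa_leaf (P := Itm.ok 206) (iqf tpr511_c)) (BT.Fa_leaf (P := Itm.ok 206) (iqb tpr16_c))) (BT.Fa_leaf (P := Itm.ok 206) (iqf tpr78_c)))) (BT.Fa_mk (BT.Fa_mk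 (BT.Fa_mk (BT.Fa_leaf (P := Itm.ok 206) (iqf tpr461_c)) (BT.Fa_leaf (P := Itm.ok 206) (iqf tpr238_c))) (BT.Fa_leaf (P := Itm.ok 206) (iqb tpr525_c))) (BT.Fa_mk (BT.Fa_leaf (P := Itm.ok 206) (iqb tpr316_c)) (BT.Fa_leaf (P := Itm.ok 206) (iqf tpr106_c)))))) (BT.Fa_mk (BT.Fa_mk (BT.Fa_mk (BT.Fa_mk (BT.Fa_mk (BT.Fa_leaf (P := Itm.ok 206) (iqb tpr479_c)) (BT.Fa_leaf (P := Itm.ok 206) (iqb tpr454_c))) (BT.Fa_leaf (P := Itm.ok 206) (iqb tpr456_c))) (BT.Fa_mk (BT.Fa_mk (BT.Fa_leaf (P := Itm.ok 206) (iqb tpr2238_c)) (BT.Fa_leaf (P := Itm.ok 206) (iqf tpr851_c))) (BT.Fa_leaf (P := Itm.ok 206) (iqf tpr51_c)))) (BT.Fa_mk (BT.Fa_mk (BT.Fa_mk (BT.Fa_leaf (P := Itm.ok 206) (iqb tpr161_c)) (BT.Fa_leaf (P := Itm.ok 206) (iqf tpr198_c))) (BT.Fa_leaf (P :=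 Itm.ok 206) (iqf tpr559_c))) (BT.Fa_mk (BT.Fa_mk (BT.Fa_leaf (P := Itm.ok 206) (iqf tpr295_c)) (BT.Fa_leaf (P := Itm.ok 206) (iqb tpr1735_c))) (BT.Fa_leaf (P := Itm.ok 206) (iqb tpr618_c))))) (BT.Fa_mk (BT.Fa_mk (BT.Fa_mk (BT.Fa_mk (BT.Fa_leaf (P := Itm.ok 206) (iqb tpr679_c)) (BT.Fa_leaf (P := Itm.ok 206) (iqb tpr640_c))) (BT.Fa_leaf (P := Itm.ok 206) (iqb tpr1806_c))) (BT.Fa_mk (BT.Fa_mk (BT.Fa_leaf (P := Itm.ok 206) (iqf tpr188_c)) (BT.Fa_leaf (P := Itm.ok 206) (iqb tpr658_c))) (BT.Fa_leaf (P := Itm.ok 206) (iqb tpr1681_c)))) (BT.Fa_mk (BT.Fa_mk (BT.Fa_mk (BT.Fa_leaf (P := Itm.ok 206) (iqb tpr587_c)) (BT.Fa_leaf (P := Itm.ok 206) (iqb tpr548_c))) (BT.Fa_leaf (P := Itm.ok 206) (iqb tpr1094_c))) (BT.Fa_mk (BT.Fa_leaf (P := Itm.ok 206) (iqf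 tpr72_c)) (BT.Fa_leaf (P := Itm.ok 206) (iqf tpr557_c))))))))

/-- all words of the class have labels -/
theorem pokNFzE2A3H3AyB2AzF : POK 206 xNFzE2A3H3AyB2AzF :=
  y_pok (C0 := ceNFzE2A3H3AyB2AzF) (C1 := coNFzE2A3H3AyB2AzF) topNFzE2A3H3AyB2AzF nbNFzE2A3H3AyB2AzF (BT.Fa_of_all iiNFzE2A3H3AyB2AzF_c)
    (cyE_spec zeNFzE2A3H3AyB2AzF_0)
    (cyO_spec zoNFzE2A3H3AyB2AzF_0)
    iiNFzE2A3H3AyB2AzF_k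

theorem iiNFzE2B3H2BzIzB3H3B2EzA2A2F_k : iiNFzE2B3H2BzIzB3H3B2EzA2A2F.Fa (Itm.ok 206) := (BT.Fa_mk (BT.Fa_mk (BT.Fa_mk (BT.Fa_mk (BT.Fa_mk (BT.Fa_mk (BT.Fa_mk (BT.Fa_leaf (P := Itm.ok 206) (iqf tpr4_c)) (BT.Fa_leaf (P := Itm.ok 206) (iqb tpr4_c))) (BT.Fa_mk (BT.Fa_leaf (P := Itm.ok 206) (iqf tpr41_c)) (BT.Fa_leaf (P := Itm.ok 206) (iqb tpr11_c)))) (BT.Fa_mk (BT.Fa_mk (BT.Fa_leaf (P := Itm.ok 206) (iqf tpr11_c)) (BT.Fa_leaf (P := Itm.ok 206) (iqb tpr90_c))) (BT.Fa_mk (BT.Fa_leaf (P := Itm.ok 206) (iqf tpr215_c)) (BT.Fa_leaf (P := Itm.ok 206) (iqf tpr107_c))))) (BT.Fa_mk (BT.Fa_mk (BT.Fa_mk (BT.Fa_leaf (P := Itm.ok 206) (iqb tpr144_c)) (BT.Fa_leaf (P := Itm.ok 206) (iqb tpr57_c))) (BT.Fa_mk (BT.Fa_leaf (P := Itm.ok 206) (iqb tpr757_c)) (BT.Fa_leaf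 (P := Itm.ok 206) (iqf tpr8_c)))) (BT.Fa_mk (BT.Fa_mk (BT.Fa_leaf (P := Itm.ok 206) (iqb tpr7_c)) (BT.Fa_leaf (P := Itm.ok 206) (iqb tpr5_c))) (BT.Fa_leaf (P := Itm.ok 206) (iqf tpr152_c))))) (BT.Fa_mk (BT.Fa_mk (BT.Fa_mk (BT.Fa_mk (BT.Fa_leaf (P := Itm.ok 206) (iqb tpr48_c)) (BT.Fa_leaf (P := Itm.ok 206) (iqb tpr28_c))) (BT.Fa_mk (BT.Fa_leaf (P := Itm.ok 206) (iqf tpr216_c)) (BT.Fa_leaf (P := Itm.ok 206) (iqb tpr36_c)))) (BT.Fa_mk (BT.Fa_mk (BT.Fa_leaf (P := Itm.ok 206) (iqb tpr24_c)) (BT.Fa_leaf (P := Itm.ok 206) (iqf tpr105_c))) (BT.Fa_leaf (P := Itm.ok 206) (iqf tpr131_c)))) (BT.Fa_mk (BT.Fa_mk (BT.Fa_mk (BT.Fa_leaf (P := Itm.ok 206) (iqb tpr74_c)) (BT.Fa_leaf (P := Itm.ok 206) (iqb tpr21_c))) (BT.Fa_mk (BT.Fa_leaf (P := Itm.ok 206) (iqf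 tpr12_c)) (BT.Fa_leaf (P := Itm.ok 206) (iqb tpr218_c)))) (BT.Fa_mk (BT.Fa_mk (BT.Fa_leaf (P := Itm.ok 206) (iqb tpr72_c)) (BT.Fa_leaf (P := Itm.ok 206) (iqb tpr220_c))) (BT.Fa_leaf (P := Itm.ok 206) (iqf tpr104_c)))))) (BT.Fa_mk (BT.Fa_mk (BT.Fa_mk (BT.Fa_mk (BT.Fa_mk (BT.Fa_leaf (P := Itm.ok 206) (iqf tpr768_c)) (BT.Fa_leaf (P := Itm.ok 206) (iqb tpr85_c))) (BT.Fa_mk (BT.Fa_leaf (P := Itm.ok 206) (iqb tpr20_c)) (BT.Fa_leaf (P := Itm.ok 206) (iqf tpr37_c)))) (BT.Fa_mk (BT.Fa_mk (BT.Fa_leaf (P := Itm.ok 206) (iqb tpr255_c)) (BT.Fa_leaf (P := Itm.ok 206) (iqb tpr38_c))) (BT.Fa_leaf (P := Itm.ok 206) (iqf tpr95_c)))) (BT.Fa_mk (BT.Fa_mk (BT.Fa_mk (BT.Fa_leaf (P := Itm.ok 206) (iqb tpr39_c)) (BT.Fa_leaf (P := Itm.ok 206) (iqf tpr92_c))) (BT.Fa_mk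 (BT.Fa_leaf (P := Itm.ok 206) (iqb tpr47_c)) (BT.Fa_leaf (P := Itm.ok 206) (iqb tpr82_c)))) (BT.Fa_mk (BT.Fa_mk (BT.Fa_leaf (P := Itm.ok 206) (iqf tpr121_c)) (BT.Fa_leaf (P := Itm.ok 206) (iqb tpr516_c))) (BT.Fa_leaf (P := Itm.ok 206) (iqf tpr186_c))))) (BT.Fa_mk (BT.Fa_mk (BT.Fa_mk (BT.Fa_mk (BT.Fa_leaf (P := Itm.ok 206) (iqb tpr648_c)) (BT.Fa_leaf (P := Itm.ok 206) (iqf tpr94_c))) (BT.Fa_mk (BT.Fa_leaf (P := Itm.ok 206) (iqb tpr31_c)) (BT.Fa_leaf (P := Itm.ok 206) (iqf tpr61_c)))) (BT.Fa_mk (BT.Fa_mk (BT.Fa_leaf (P := Itm.ok 206) (iqf tpr836_c)) (BT.Fa_leaf (P := Itm.ok 206) (iqb tpr97_c))) (BT.Fa_leaf (P := Itm.ok 206) (iqf tpr50_c)))) (BT.Fa_mk (BT.Fa_mk (BT.Fa_mk (BT.Fa_leaf (P := Itm.ok 206) (iqb tpr40_c)) (BT.Fa_leaf (P := Itm.ok 206)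 (iqb tpr234_c))) (BT.Fa_mk (BT.Fa_leaf (P := Itm.ok 206) (iqb tpr214_c)) (BT.Fa_leaf (P := Itm.ok 206) (iqf tpr150_c)))) (BT.Fa_mk (BT.Fa_mk (BT.Fa_leaf (P := Itm.ok 206) (iqf tpr252_c)) (BT.Fa_leaf (P := Itm.ok 206) (iqf tpr139_c))) (BT.Fa_leaf (P := Itm.ok 206) (iqf tpr143_c))))))) (BT.Fa_mk (BT.Fa_mk (BT.Fa_mk (BT.Fa_mk (BT.Fa_mk (BT.Fa_mk (BT.Fa_leaf (P := Itm.ok 206) (iqf tpr5_c)) (BT.Fa_leaf (P := Itm.ok 206) (iqf tpr525_c))) (BT.Fa_mk (BT.Fa_leaf (P := Itm.ok 206) (iqb tpr9_c)) (BT.Fa_leaf (P := Itm.ok 206) (iqf tpr228_c)))) (BT.Fa_mk (BT.Fa_mk (BT.Fa_leaf (P := Itm.ok 206) (iqb tpr16_c)) (BT.Fa_leaf (P := Itm.ok 206) (iqb tpr103_c))) (BT.Fa_mk (BT.Fa_leaf (P := Itm.ok 206) (iqb tpr499_c)) (BT.Fa_leaf (P := Itm.ok 206) (iqb tpr844_c)))))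 (BT.Fa_mk (BT.Fa_mk (BT.Fa_mk (BT.Fa_leaf (P := Itm.ok 206) (iqb tpr832_c)) (BT.Fa_leaf (P := Itm.ok 206) (iqb tpr17_c))) (BT.Fa_mk (BT.Fa_leaf (P := Itm.ok 206) (iqb tpr839_c)) (BT.Fa_leaf (P := Itm.ok 206) (iqb tpr106_c)))) (BT.Fa_mk (BT.Fa_mk (BT.Fa_leaf (P := Itm.ok 206) (iqf tpr22_c)) (BT.Fa_leaf (P := Itm.ok 206) (iqb tpr265_c))) (BT.Fa_leaf (P := Itm.ok 206) (iqf tpr210_c))))) (BT.Fa_mk (BT.Fa_mk (BT.Fa_mk (BT.Fa_mk (BT.Fa_leaf (P := Itm.ok 206) (iqf tpr83_c)) (BT.Fa_leaf (P := Itm.ok 206) (iqf tpr321_c))) (BT.Fa_mk (BT.Fa_leaf (P := Itm.ok 206) (iqf tpr123_c)) (BT.Fa_leaf (P := Itm.ok 206) (iqf tpr118_c)))) (BT.Fa_mk (BT.Fa_mk (BT.Fa_leaf (P := Itm.ok 206) (iqb tpr258_c)) (BT.Fa_leaf (P := Itm.ok 206) (iqf tpr760_c))) (BT.Fa_leaf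 (P := Itm.ok 206) (iqf tpr230_c)))) (BT.Fa_mk (BT.Fa_mk (BT.Fa_mk (BT.Fa_leaf (P := Itm.ok 206) (iqf tpr122_c)) (BT.Fa_leaf (P := Itm.ok 206) (iqb tpr26_c))) (BT.Fa_mk (BT.Fa_leaf (P := Itm.ok 206) (iqb tpr129_c)) (BT.Fa_leaf (P := Itm.ok 206) (iqb tpr362_c)))) (BT.Fa_mk (BT.Fa_mk (BT.Fa_leaf (P := Itm.ok 206) (iqb tpr475_c)) (BT.Fa_leaf (P := Itm.ok 206) (iqf tpr60_c))) (BT.Fa_leaf (P := Itm.ok 206) (iqf tpr124_c)))))) (BT.Fa_mk (BT.Fa_mk (BT.Fa_mk (BT.Fa_mk (BT.Fa_mk (BT.Fa_leaf (P := Itm.ok 206) (iqf tpr264_c)) (BT.Fa_leaf (P := Itm.ok 206) (iqf tpr611_c))) (BT.Fa_mk (BT.Fa_leaf (P := Itm.ok 206) (iqf tpr151_c)) (BT.Fa_leaf (P := Itm.ok 206) (iqb tpr256_c)))) (BT.Fa_mk (BT.Fa_mk (BT.Fa_leaf (P := Itm.ok 206) (iqb tpr127_c)) (BT.Fa_leaf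 (P := Itm.ok 206) (iqb tpr261_c))) (BT.Fa_leaf (P := Itm.ok 206) (iqb tpr266_c)))) (BT.Fa_mk (BT.Fa_mk (BT.Fa_mk (BT.Fa_leaf (P := Itm.ok 206) (iqb tpr10_c)) (BT.Fa_leaf (P := Itm.ok 206) (iqf tpr110_c))) (BT.Fa_mk (BT.Fa_leaf (P := Itm.ok 206) (iqf tpr51_c)) (BT.Fa_leaf (P := Itm.ok 206) (iqb tpr849_c)))) (BT.Fa_mk (BT.Fa_mk (BT.Fa_leaf (P := Itm.ok 206) (iqb tpr116_c)) (BT.Fa_leaf (P := Itm.ok 206) (iqf tpr46_c))) (BT.Fa_leaf (P := Itm.ok 206) (iqb tpr816_c))))) (BT.Fa_mk (BT.Fa_mk (BT.Fa_mk (BT.Fa_mk (BT.Fa_leaf (P := Itm.ok 206) (iqf tpr45_c)) (BT.Fa_leaf (P := Itm.ok 206) (iqf tpr32_c))) (BT.Fa_mk (BT.Fa_leaf (P := Itm.ok 206) (iqf tpr141_c)) (BT.Fa_leaf (P := Itm.ok 206) (iqb tpr148_c)))) (BT.Fa_mk (BT.Fa_mk (BT.Fa_leaf (P := Itm.ok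 206) (iqf tpr850_c)) (BT.Fa_leaf (P := Itm.ok 206) (iqb tpr582_c))) (BT.Fa_leaf (P := Itm.ok 206) (iqb tpr49_c)))) (BT.Fa_mk (BT.Fa_mk (BT.Fa_mk (BT.Fa_leaf (P := Itm.ok 206) (iqf tpr168_c)) (BT.Fa_leaf (P := Itm.ok 206) (iqf tpr165_c))) (BT.Fa_mk (BT.Fa_leaf (P := Itm.ok 206) (iqf tpr292_c)) (BT.Fa_leaf (P := Itm.ok 206) (iqf tpr98_c)))) (BT.Fa_mk (BT.Fa_mk (BT.Fa_leaf (P := Itm.ok 206) (iqb tpr536_c)) (BT.Fa_leaf (P := Itm.ok 206) (iqf tpr35_c))) (BT.Fa_leaf (P := Itm.ok 206) (iqf tpr590_c))))))))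

/-- all words of the class have labels -/
theorem pokNFzE2B3H2BzIzB3H3B2EzA2A2F : POK 206 xNFzE2B3H2BzIzB3H3B2EzA2A2F :=
  y_pok (C0 := ceNFzE2B3H2BzIzB3H3B2EzA2A2F) (C1 := coNFzE2B3H2BzIzB3H3B2EzA2A2F) topNFzE2B3H2BzIzB3H3B2EzA2A2F nbNFzE2B3H2BzIzB3H3B2EzA2A2F (BT.Fa_of_all iiNFzE2B3H2BzIzB3H3B2EzA2A2F_c)
    (cyE_spec zeNFzE2B3H2BzIzB3H3B2EzA2A2F_0)
    (cyO_spec zoNFzE2B3H2BzIzB3H3B2EzA2A2F_0)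
    iiNFzE2B3H2BzIzB3H3B2EzA2A2F_k

theorem iiNFzE2B3H2BzIzB3H3B2EzA2AyF_k : iiNFzE2B3H2BzIzB3H3B2EzA2AyF.Fa (Itm.ok 206) := (BT.Fa_mk (BT.Fa_mk (BT.Fa_mk (BT.Fa_mk (BT.Fa_mk (BT.Fa_mk (BT.Fa_mk (BT.Fa_leaf (P := Itm.ok 206) (iqf tpr4_c)) (BT.Fa_leaf (P := Itm.ok 206) (iqb tpr4_c))) (BT.Fa_leaf (P := Itm.ok 206) (iqf tpr168_c))) (BT.Fa_mk (BT.Fa_mk (BT.Fa_leaf (P := Itm.ok 206) (iqb tpr11_c)) (BT.Fa_leaf (P := Itm.ok 206) (iqf tpr11_c))) (BT.Fa_leaf (P := Itm.ok 206) (iqb tpr144_c)))) (BT.Fa_mk (BT.Fa_mk (BT.Fa_mk (BT.Fa_leaf (P := Itm.ok 206) (iqf tpr228_c)) (BT.Fa_leaf (P := Itm.ok 206) (iqb tpr57_c))) (BT.Fa_leaf (P := Itm.ok 206) (iqf tpr215_c))) (BT.Fa_mk (BT.Fa_mk (BT.Fa_leaf (P := Itm.ok 206) (iqb tpr21_c)) (BT.Fa_leaf (P := Itm.ok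 206) (iqb tpr85_c))) (BT.Fa_leaf (P := Itm.ok 206) (iqf tpr107_c))))) (BT.Fa_mk (BT.Fa_mk (BT.Fa_mk (BT.Fa_mk (BT.Fa_leaf (P := Itm.ok 206) (iqb tpr74_c)) (BT.Fa_leaf (P := Itm.ok 206) (iqb tpr757_c))) (BT.Fa_leaf (P := Itm.ok 206) (iqb tpr255_c))) (BT.Fa_mk (BT.Fa_mk (BT.Fa_leaf (P := Itm.ok 206) (iqb tpr28_c)) (BT.Fa_leaf (P := Itm.ok 206) (iqb tpr220_c))) (BT.Fa_leaf (P := Itm.ok 206) (iqf tpr83_c)))) (BT.Fa_mk (BT.Fa_mk (BT.Fa_mk (BT.Fa_leaf (P := Itm.ok 206) (iqb tpr36_c)) (BT.Fa_leaf (P := Itm.ok 206) (iqb tpr7_c))) (BT.Fa_leaf (P := Itm.ok 206) (iqf tpr131_c))) (BT.Fa_mk (BT.Fa_leaf (P := Itm.ok 206) (iqf tpr105_c)) (BT.Fa_leaf (P := Itm.ok 206) (iqf tpr252_c)))))) (BT.Fa_mk (BT.Fa_mk (BT.Fa_mk (BT.Fa_mk (BT.Fa_mk (BT.Fa_leaf (P :=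 Itm.ok 206) (iqf tpr104_c)) (BT.Fa_leaf (P := Itm.ok 206) (iqf tpr37_c))) (BT.Fa_leaf (P := Itm.ok 206) (iqf tpr230_c))) (BT.Fa_mk (BT.Fa_mk (BT.Fa_leaf (P := Itm.ok 206) (iqb tpr648_c)) (BT.Fa_leaf (P := Itm.ok 206) (iqb tpr2964_c))) (BT.Fa_leaf (P := Itm.ok 206) (iqf tpr95_c)))) (BT.Fa_mk (BT.Fa_mk (BT.Fa_mk (BT.Fa_leaf (P := Itm.ok 206) (iqf tpr270_c)) (BT.Fa_leaf (P := Itm.ok 206) (iqf tpr92_c))) (BT.Fa_leaf (P := Itm.ok 206) (iqb tpr9_c))) (BT.Fa_mk (BT.Fa_mk (BT.Fa_leaf (P := Itm.ok 206) (iqb tpr258_c)) (BT.Fa_leaf (P := Itm.ok 206) (iqb tpr31_c))) (BT.Fa_leaf (P := Itm.ok 206) (iqb tpr114_c))))) (BT.Fa_mk (BT.Fa_mk (BT.Fa_mk (BT.Fa_mk (BT.Fa_leaf (P := Itm.ok 206) (iqb tpr244_c)) (BT.Fa_leaf (P := Itm.ok 206) (iqb tpr97_c))) (BT.Fa_leaf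 (P := Itm.ok 206) (iqb tpr48_c))) (BT.Fa_mk (BT.Fa_mk (BT.Fa_leaf (P := Itm.ok 206) (iqb tpr16_c)) (BT.Fa_leaf (P := Itm.ok 206) (iqf tpr12_c))) (BT.Fa_leaf (P := Itm.ok 206) (iqb tpr90_c)))) (BT.Fa_mk (BT.Fa_mk (BT.Fa_mk (BT.Fa_leaf (P := Itm.ok 206) (iqb tpr72_c)) (BT.Fa_leaf (P := Itm.ok 206) (iqb tpr20_c))) (BT.Fa_leaf (P := Itm.ok 206) (iqb tpr33_c))) (BT.Fa_mk (BT.Fa_leaf (P := Itm.ok 206) (iqf tpr768_c)) (BT.Fa_leaf (P := Itm.ok 206) (iqb tpr237_c))))))) (BT.Fa_mk (BT.Fa_mk (BT.Fa_mk (BT.Fa_mk (BT.Fa_mk (BT.Fa_mk (BT.Fa_leaf (P := Itm.ok 206) (iqf tpr22_c)) (BT.Fa_leaf (P := Itm.ok 206) (iqb tpr17_c))) (BT.Fa_leaf (P := Itm.ok 206) (iqb tpr625_c))) (BT.Fa_mk (BT.Fa_mk (BT.Fa_leaf (P := Itm.ok 206) (iqb tpr516_c)) (BT.Fa_leaf (P :=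 Itm.ok 206) (iqb tpr103_c))) (BT.Fa_leaf (P := Itm.ok 206) (iqf tpr152_c)))) (BT.Fa_mk (BT.Fa_mk (BT.Fa_mk (BT.Fa_leaf (P := Itm.ok 206) (iqb tpr106_c)) (BT.Fa_leaf (P := Itm.ok 206) (iqf tpr525_c))) (BT.Fa_leaf (P := Itm.ok 206) (iqf tpr8_c))) (BT.Fa_mk (BT.Fa_mk (BT.Fa_leaf (P := Itm.ok 206) (iqb tpr82_c)) (BT.Fa_leaf (P := Itm.ok 206) (iqf tpr321_c))) (BT.Fa_leaf (P := Itm.ok 206) (iqf tpr123_c))))) (BT.Fa_mk (BT.Fa_mk (BT.Fa_mk (BT.Fa_mk (BT.Fa_leaf (P := Itm.ok 206) (iqf tpr13_c)) (BT.Fa_leaf (P := Itm.ok 206) (iqb tpr265_c))) (BT.Fa_leaf (P := Itm.ok 206) (iqb tpr499_c))) (BT.Fa_mk (BT.Fa_mk (BT.Fa_leaf (P := Itm.ok 206) (iqf tpr121_c)) (BT.Fa_leaf (P := Itm.ok 206) (iqf tpr122_c))) (BT.Fa_leaf (P := Itm.ok 206) (iqb tpr26_c)))) (BT.Fa_mk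 (BT.Fa_mk (BT.Fa_mk (BT.Fa_leaf (P := Itm.ok 206) (iqb tpr214_c)) (BT.Fa_leaf (P := Itm.ok 206) (iqb tpr129_c))) (BT.Fa_leaf (P := Itm.ok 206) (iqb tpr362_c))) (BT.Fa_mk (BT.Fa_leaf (P := Itm.ok 206) (iqb tpr240_c)) (BT.Fa_leaf (P := Itm.ok 206) (iqb tpr256_c)))))) (BT.Fa_mk (BT.Fa_mk (BT.Fa_mk (BT.Fa_mk (BT.Fa_mk (BT.Fa_leaf (P := Itm.ok 206) (iqf tpr264_c)) (BT.Fa_leaf (P := Itm.ok 206) (iqb tpr475_c))) (BT.Fa_leaf (P := Itm.ok 206) (iqb tpr234_c))) (BT.Fa_mk (BT.Fa_mk (BT.Fa_leaf (P := Itm.ok 206) (iqb tpr261_c)) (BT.Fa_leaf (P := Itm.ok 206) (iqb tpr266_c))) (BT.Fa_leaf (P := Itm.ok 206) (iqf tpr263_c)))) (BT.Fa_mk (BT.Fa_mk (BT.Fa_mk (BT.Fa_leaf (P := Itm.ok 206) (iqf tpr317_c)) (BT.Fa_leaf (P := Itm.ok 206) (iqb tpr10_c))) (BT.Fa_leaf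 (P := Itm.ok 206) (iqb tpr133_c))) (BT.Fa_mk (BT.Fa_leaf (P := Itm.ok 206) (iqf tpr115_c)) (BT.Fa_leaf (P := Itm.ok 206) (iqf tpr216_c))))) (BT.Fa_mk (BT.Fa_mk (BT.Fa_mk (BT.Fa_mk (BT.Fa_leaf (P := Itm.ok 206) (iqf tpr89_c)) (BT.Fa_leaf (P := Itm.ok 206) (iqf tpr61_c))) (BT.Fa_leaf (P := Itm.ok 206) (iqb tpr24_c))) (BT.Fa_mk (BT.Fa_mk (BT.Fa_leaf (P := Itm.ok 206) (iqb tpr47_c)) (BT.Fa_leaf (P := Itm.ok 206) (iqb tpr221_c))) (BT.Fa_leaf (P := Itm.ok 206) (iqf tpr251_c)))) (BT.Fa_mk (BT.Fa_mk (BT.Fa_mk (BT.Fa_leaf (P := Itm.ok 206) (iqf tpr45_c)) (BT.Fa_leaf (P := Itm.ok 206) (iqb tpr223_c))) (BT.Fa_leaf (P := Itm.ok 206) (iqf tpr60_c))) (BT.Fa_mk (BT.Fa_leaf (P := Itm.ok 206) (iqb tpr174_c)) (BT.Fa_leaf (P := Itm.ok 206) (iqf tpr98_c))))))))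

/-- all words of the class have labels -/
theorem pokNFzE2B3H2BzIzB3H3B2EzA2AyF : POK 206 xNFzE2B3H2BzIzB3H3B2EzA2AyF :=
  y_pok (C0 := ceNFzE2B3H2BzIzB3H3B2EzA2AyF) (C1 := coNFzE2B3H2BzIzB3H3B2EzA2AyF) topNFzE2B3H2BzIzB3H3B2EzA2AyF nbNFzE2B3H2BzIzB3H3B2EzA2AyF (BT.Fa_of_all iiNFzE2B3H2BzIzB3H3B2EzA2AyF_c)
    (cyE_spec zeNFzE2B3H2BzIzB3H3B2EzA2AyF_0)
    (cyO_spec zoNFzE2B3H2BzIzB3H3B2EzA2AyF_0)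
    iiNFzE2B3H2BzIzB3H3B2EzA2AyF_k

theorem iiNFzE2B3H2BzIzB3H3B2EzAyA2F_k : iiNFzE2B3H2BzIzB3H3B2EzAyA2F.Fa (Itm.ok 206) := (BT.Fa_mk (BT.Fa_mk (BT.Fa_mk (BT.Fa_mk (BT.Fa_mk (BT.Fa_mk (BT.Fa_mk (BT.Fa_leaf (P := Itm.ok 206) (iqf tpr4_c)) (BT.Fa_leaf (P := Itm.ok 206) (iqb tpr4_c))) (BT.Fa_mk (BT.Fa_leaf (P := Itm.ok 206) (iqb tpr11_c)) (BT.Fa_leaf (P := Itm.ok 206) (iqb tpr90_c)))) (BT.Fa_mk (BT.Fa_mk (BT.Fa_leaf (P := Itm.ok 206) (iqf tpr11_c)) (BT.Fa_leaf (P := Itm.ok 206) (iqb tpr19_c))) (BT.Fa_mk (BT.Fa_leaf (P := Itm.ok 206) (iqb tpr144_c)) (BT.Fa_leaf (P := Itm.ok 206) (iqf tpr41_c))))) (BT.Fa_mk (BT.Fa_mk (BT.Fa_mk (BT.Fa_leaf (P := Itm.ok 206) (iqb tpr6_c)) (BT.Fa_leaf (P := Itm.ok 206) (iqb tpr757_c))) (BT.Fa_mk (BT.Fa_leaf (P :=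 Itm.ok 206) (iqb tpr57_c)) (BT.Fa_leaf (P := Itm.ok 206) (iqb tpr21_c)))) (BT.Fa_mk (BT.Fa_mk (BT.Fa_leaf (P := Itm.ok 206) (iqf tpr8_c)) (BT.Fa_leaf (P := Itm.ok 206) (iqb tpr28_c))) (BT.Fa_leaf (P := Itm.ok 206) (iqb tpr48_c))))) (BT.Fa_mk (BT.Fa_mk (BT.Fa_mk (BT.Fa_mk (BT.Fa_leaf (P := Itm.ok 206) (iqf tpr760_c)) (BT.Fa_leaf (P := Itm.ok 206) (iqf tpr35_c))) (BT.Fa_mk (BT.Fa_leaf (P := Itm.ok 206) (iqf tpr161_c)) (BT.Fa_leaf (P := Itm.ok 206) (iqf tpr105_c)))) (BT.Fa_mk (BT.Fa_mk (BT.Fa_leaf (P := Itm.ok 206) (iqb tpr499_c)) (BT.Fa_leaf (P := Itm.ok 206) (iqb tpr74_c))) (BT.Fa_leaf (P := Itm.ok 206) (iqb tpr7_c)))) (BT.Fa_mk (BT.Fa_mk (BT.Fa_mk (BT.Fa_leaf (P := Itm.ok 206) (iqb tpr18_c)) (BT.Fa_leaf (P := Itm.ok 206) (iqb tpr39_c))) (BT.Fa_mk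 (BT.Fa_leaf (P := Itm.ok 206) (iqf tpr768_c)) (BT.Fa_leaf (P := Itm.ok 206) (iqb tpr24_c)))) (BT.Fa_mk (BT.Fa_mk (BT.Fa_leaf (P := Itm.ok 206) (iqb tpr36_c)) (BT.Fa_leaf (P := Itm.ok 206) (iqf tpr104_c))) (BT.Fa_leaf (P := Itm.ok 206) (iqf tpr25_c)))))) (BT.Fa_mk (BT.Fa_mk (BT.Fa_mk (BT.Fa_mk (BT.Fa_mk (BT.Fa_leaf (P := Itm.ok 206) (iqf tpr131_c)) (BT.Fa_leaf (P := Itm.ok 206) (iqb tpr85_c))) (BT.Fa_mk (BT.Fa_leaf (P := Itm.ok 206) (iqf tpr45_c)) (BT.Fa_leaf (P := Itm.ok 206) (iqf tpr83_c)))) (BT.Fa_mk (BT.Fa_mk (BT.Fa_leaf (P := Itm.ok 206) (iqb tpr31_c)) (BT.Fa_leaf (P := Itm.ok 206) (iqb tpr648_c))) (BT.Fa_leaf (P := Itm.ok 206) (iqb tpr47_c)))) (BT.Fa_mk (BT.Fa_mk (BT.Fa_mk (BT.Fa_leaf (P := Itm.ok 206) (iqb tpr220_c)) (BT.Fa_leaf (P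 := Itm.ok 206) (iqb tpr113_c))) (BT.Fa_mk (BT.Fa_leaf (P := Itm.ok 206) (iqb tpr15_c)) (BT.Fa_leaf (P := Itm.ok 206) (iqb tpr148_c)))) (BT.Fa_mk (BT.Fa_mk (BT.Fa_leaf (P := Itm.ok 206) (iqb tpr127_c)) (BT.Fa_leaf (P := Itm.ok 206) (iqf tpr121_c))) (BT.Fa_leaf (P := Itm.ok 206) (iqf tpr151_c))))) (BT.Fa_mk (BT.Fa_mk (BT.Fa_mk (BT.Fa_mk (BT.Fa_leaf (P := Itm.ok 206) (iqf tpr111_c)) (BT.Fa_leaf (P := Itm.ok 206) (iqb tpr516_c))) (BT.Fa_mk (BT.Fa_leaf (P := Itm.ok 206) (iqf tpr94_c)) (BT.Fa_leaf (P := Itm.ok 206) (iqf tpr22_c)))) (BT.Fa_mk (BT.Fa_mk (BT.Fa_leaf (P := Itm.ok 206) (iqf tpr23_c)) (BT.Fa_leaf (P := Itm.ok 206) (iqb tpr101_c))) (BT.Fa_leaf (P := Itm.ok 206) (iqb tpr34_c)))) (BT.Fa_mk (BT.Fa_mk (BT.Fa_mk (BT.Fa_leaf (P := Itm.ok 206)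 (iqf tpr118_c)) (BT.Fa_leaf (P := Itm.ok 206) (iqb tpr158_c))) (BT.Fa_mk (BT.Fa_leaf (P := Itm.ok 206) (iqb tpr160_c)) (BT.Fa_leaf (P := Itm.ok 206) (iqf tpr228_c)))) (BT.Fa_mk (BT.Fa_mk (BT.Fa_leaf (P := Itm.ok 206) (iqf tpr12_c)) (BT.Fa_leaf (P := Itm.ok 206) (iqb tpr72_c))) (BT.Fa_leaf (P := Itm.ok 206) (iqb tpr20_c))))))) (BT.Fa_mk (BT.Fa_mk (BT.Fa_mk (BT.Fa_mk (BT.Fa_mk (BT.Fa_mk (BT.Fa_leaf (P := Itm.ok 206) (iqb tpr103_c)) (BT.Fa_leaf (P := Itm.ok 206) (iqf tpr152_c))) (BT.Fa_mk (BT.Fa_leaf (P := Itm.ok 206) (iqb tpr16_c)) (BT.Fa_leaf (P := Itm.ok 206) (iqf tpr5_c)))) (BT.Fa_mk (BT.Fa_mk (BT.Fa_leaf (P := Itm.ok 206) (iqb tpr17_c)) (BT.Fa_leaf (P := Itm.ok 206) (iqb tpr106_c))) (BT.Fa_mk (BT.Fa_leaf (P := Itm.ok 206) (iqb tpr625_c))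 (BT.Fa_leaf (P := Itm.ok 206) (iqf tpr321_c))))) (BT.Fa_mk (BT.Fa_mk (BT.Fa_mk (BT.Fa_leaf (P := Itm.ok 206) (iqf tpr37_c)) (BT.Fa_leaf (P := Itm.ok 206) (iqb tpr82_c))) (BT.Fa_mk (BT.Fa_leaf (P := Itm.ok 206) (iqf tpr122_c)) (BT.Fa_leaf (P := Itm.ok 206) (iqb tpr26_c)))) (BT.Fa_mk (BT.Fa_mk (BT.Fa_leaf (P := Itm.ok 206) (iqf tpr123_c)) (BT.Fa_leaf (P := Itm.ok 206) (iqf tpr230_c))) (BT.Fa_leaf (P := Itm.ok 206) (iqb tpr2965_c))))) (BT.Fa_mk (BT.Fa_mk (BT.Fa_mk (BT.Fa_mk (BT.Fa_leaf (P := Itm.ok 206) (iqb tpr362_c)) (BT.Fa_leaf (P := Itm.ok 206) (iqb tpr129_c))) (BT.Fa_mk (BT.Fa_leaf (P := Itm.ok 206) (iqb tpr43_c)) (BT.Fa_leaf (P := Itm.ok 206) (iqb tpr2966_c)))) (BT.Fa_mk (BT.Fa_mk (BT.Fa_leaf (P := Itm.ok 206) (iqf tpr86_c)) (BT.Fa_leaf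 (P := Itm.ok 206) (iqf tpr13_c))) (BT.Fa_leaf (P := Itm.ok 206) (iqb tpr194_c)))) (BT.Fa_mk (BT.Fa_mk (BT.Fa_mk (BT.Fa_leaf (P := Itm.ok 206) (iqf tpr257_c)) (BT.Fa_leaf (P := Itm.ok 206) (iqb tpr128_c))) (BT.Fa_mk (BT.Fa_leaf (P := Itm.ok 206) (iqf tpr125_c)) (BT.Fa_leaf (P := Itm.ok 206) (iqb tpr10_c)))) (BT.Fa_mk (BT.Fa_mk (BT.Fa_leaf (P := Itm.ok 206) (iqf tpr51_c)) (BT.Fa_leaf (P := Itm.ok 206) (iqf tpr758_c))) (BT.Fa_leaf (P := Itm.ok 206) (iqf tpr92_c)))))) (BT.Fa_mk (BT.Fa_mk (BT.Fa_mk (BT.Fa_mk (BT.Fa_mk (BT.Fa_leaf (P := Itm.ok 206) (iqb tpr97_c)) (BT.Fa_leaf (P := Itm.ok 206) (iqb tpr133_c))) (BT.Fa_mk (BT.Fa_leaf (P := Itm.ok 206) (iqf tpr61_c)) (BT.Fa_leaf (P := Itm.ok 206) (iqf tpr155_c)))) (BT.Fa_mk (BT.Fa_mk (BT.Fa_leaf (P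 := Itm.ok 206) (iqb tpr38_c)) (BT.Fa_leaf (P := Itm.ok 206) (iqf tpr110_c))) (BT.Fa_leaf (P := Itm.ok 206) (iqf tpr186_c)))) (BT.Fa_mk (BT.Fa_mk (BT.Fa_mk (BT.Fa_leaf (P := Itm.ok 206) (iqf tpr115_c)) (BT.Fa_leaf (P := Itm.ok 206) (iqb tpr116_c))) (BT.Fa_mk (BT.Fa_leaf (P := Itm.ok 206) (iqf tpr141_c)) (BT.Fa_leaf (P := Itm.ok 206) (iqf tpr46_c)))) (BT.Fa_mk (BT.Fa_mk (BT.Fa_leaf (P := Itm.ok 206) (iqf tpr139_c)) (BT.Fa_leaf (P := Itm.ok 206) (iqf tpr50_c))) (BT.Fa_leaf (P := Itm.ok 206) (iqb tpr114_c))))) (BT.Fa_mk (BT.Fa_mk (BT.Fa_mk (BT.Fa_mk (BT.Fa_leaf (P := Itm.ok 206) (iqb tpr145_c)) (BT.Fa_leaf (P := Itm.ok 206) (iqf tpr150_c))) (BT.Fa_mk (BT.Fa_leaf (P := Itm.ok 206) (iqf tpr143_c)) (BT.Fa_leaf (P := Itm.ok 206) (iqb tpr40_c))))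 (BT.Fa_mk (BT.Fa_mk (BT.Fa_leaf (P := Itm.ok 206) (iqf tpr93_c)) (BT.Fa_leaf (P := Itm.ok 206) (iqf tpr88_c))) (BT.Fa_leaf (P := Itm.ok 206) (iqf tpr757_c)))) (BT.Fa_mk (BT.Fa_mk (BT.Fa_mk (BT.Fa_leaf (P := Itm.ok 206) (iqf tpr140_c)) (BT.Fa_leaf (P := Itm.ok 206) (iqb tpr203_c))) (BT.Fa_mk (BT.Fa_leaf (P := Itm.ok 206) (iqf tpr185_c)) (BT.Fa_leaf (P := Itm.ok 206) (iqf tpr505_c)))) (BT.Fa_mk (BT.Fa_mk (BT.Fa_leaf (P := Itm.ok 206) (iqb tpr64_c)) (BT.Fa_leaf (P := Itm.ok 206) (iqf tpr147_c))) (BT.Fa_leaf (P := Itm.ok 206) (iqb tpr108_c))))))))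

/-- all words of the class have labels -/
theorem pokNFzE2B3H2BzIzB3H3B2EzAyA2F : POK 206 xNFzE2B3H2BzIzB3H3B2EzAyA2F :=
  y_pok (C0 := ceNFzE2B3H2BzIzB3H3B2EzAyA2F) (C1 := coNFzE2B3H2BzIzB3H3B2EzAyA2F) topNFzE2B3H2BzIzB3H3B2EzAyA2F nbNFzE2B3H2BzIzB3H3B2EzAyA2F (BT.Fa_of_all iiNFzE2B3H2BzIzB3H3B2EzAyA2F_c)
    (cyE_spec zeNFzE2B3H2BzIzB3H3B2EzAyA2F_0)
    (cyO_spec zoNFzE2B3H2BzIzB3H3B2EzAyA2F_0)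
    iiNFzE2B3H2BzIzB3H3B2EzAyA2F_k

theorem iiNFzE2B3H2BzIzB3H3B2EzAzA2F_k : iiNFzE2B3H2BzIzB3H3B2EzAzA2F.Fa (Itm.ok 206) := (BT.Fa_mk (BT.Fa_mk (BT.Fa_mk (BT.Fa_mk (BT.Fa_mk (BT.Fa_mk (BT.Fa_mk (BT.Fa_leaf (P := Itm.ok 206) (iqf tpr4_c)) (BT.Fa_leaf (P := Itm.ok 206) (iqb tpr5_c))) (BT.Fa_leaf (P := Itm.ok 206) (iqb tpr116_c))) (BT.Fa_mk (BT.Fa_mk (BT.Fa_leaf (P := Itm.ok 206) (iqf tpr5_c)) (BT.Fa_leaf (P := Itm.ok 206) (iqf tpr8_c))) (BT.Fa_leaf (P := Itm.ok 206) (iqb tpr11_c)))) (BT.Fa_mk (BT.Fa_mk (BT.Fa_mk (BT.Fa_leaf (P := Itm.ok 206) (iqb tpr29_c)) (BT.Fa_leaf (P := Itm.ok 206) (iqf tpr13_c))) (BT.Fa_leaf (P := Itm.ok 206) (iqb tpr14_c))) (BT.Fa_mk (BT.Fa_mk (BT.Fa_leaf (P := Itm.ok 206) (iqb tpr26_c)) (BT.Fa_leaf (P := Itm.ok 206)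 (iqb tpr57_c))) (BT.Fa_leaf (P := Itm.ok 206) (iqf tpr102_c))))) (BT.Fa_mk (BT.Fa_mk (BT.Fa_mk (BT.Fa_mk (BT.Fa_leaf (P := Itm.ok 206) (iqf tpr151_c)) (BT.Fa_leaf (P := Itm.ok 206) (iqb tpr320_c))) (BT.Fa_leaf (P := Itm.ok 206) (iqf tpr69_c))) (BT.Fa_mk (BT.Fa_mk (BT.Fa_leaf (P := Itm.ok 206) (iqb tpr19_c)) (BT.Fa_leaf (P := Itm.ok 206) (iqb tpr74_c))) (BT.Fa_leaf (P := Itm.ok 206) (iqf tpr41_c)))) (BT.Fa_mk (BT.Fa_mk (BT.Fa_mk (BT.Fa_leaf (P := Itm.ok 206) (iqb tpr56_c)) (BT.Fa_leaf (P := Itm.ok 206) (iqb tpr4_c))) (BT.Fa_leaf (P := Itm.ok 206) (iqf tpr51_c))) (BT.Fa_mk (BT.Fa_mk (BT.Fa_leaf (P := Itm.ok 206) (iqb tpr20_c)) (BT.Fa_leaf (P := Itm.ok 206) (iqf tpr758_c))) (BT.Fa_leaf (P := Itm.ok 206) (iqb tpr103_c)))))) (BT.Fa_mk (BT.Fa_mk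 (BT.Fa_mk (BT.Fa_mk (BT.Fa_mk (BT.Fa_leaf (P := Itm.ok 206) (iqf tpr152_c)) (BT.Fa_leaf (P := Itm.ok 206) (iqb tpr80_c))) (BT.Fa_leaf (P := Itm.ok 206) (iqf tpr876_c))) (BT.Fa_mk (BT.Fa_mk (BT.Fa_leaf (P := Itm.ok 206) (iqf tpr37_c)) (BT.Fa_leaf (P := Itm.ok 206) (iqb tpr41_c))) (BT.Fa_leaf (P := Itm.ok 206) (iqb tpr7_c)))) (BT.Fa_mk (BT.Fa_mk (BT.Fa_mk (BT.Fa_leaf (P := Itm.ok 206) (iqb tpr16_c)) (BT.Fa_leaf (P := Itm.ok 206) (iqf tpr22_c))) (BT.Fa_leaf (P := Itm.ok 206) (iqb tpr17_c))) (BT.Fa_mk (BT.Fa_mk (BT.Fa_leaf (P := Itm.ok 206) (iqb tpr72_c)) (BT.Fa_leaf (P := Itm.ok 206) (iqb tpr323_c))) (BT.Fa_leaf (P := Itm.ok 206) (iqb tpr90_c))))) (BT.Fa_mk (BT.Fa_mk (BT.Fa_mk (BT.Fa_mk (BT.Fa_leaf (P := Itm.ok 206) (iqb tpr106_c)) (BT.Fa_leaf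 (P := Itm.ok 206) (iqf tpr316_c))) (BT.Fa_leaf (P := Itm.ok 206) (iqf tpr11_c))) (BT.Fa_mk (BT.Fa_mk (BT.Fa_leaf (P := Itm.ok 206) (iqb tpr677_c)) (BT.Fa_leaf (P := Itm.ok 206) (iqf tpr414_c))) (BT.Fa_leaf (P := Itm.ok 206) (iqb tpr85_c)))) (BT.Fa_mk (BT.Fa_mk (BT.Fa_mk (BT.Fa_leaf (P := Itm.ok 206) (iqf tpr78_c)) (BT.Fa_leaf (P := Itm.ok 206) (iqb tpr82_c))) (BT.Fa_leaf (P := Itm.ok 206) (iqf tpr230_c))) (BT.Fa_mk (BT.Fa_leaf (P := Itm.ok 206) (iqf tpr86_c)) (BT.Fa_leaf (P := Itm.ok 206) (iqb tpr762_c))))))) (BT.Fa_mk (BT.Fa_mk (BT.Fa_mk (BT.Fa_mk (BT.Fa_mk (BT.Fa_mk (BT.Fa_leaf (P := Itm.ok 206) (iqb tpr36_c)) (BT.Fa_leaf (P := Itm.ok 206) (iqb tpr220_c))) (BT.Fa_leaf (P := Itm.ok 206) (iqf tpr156_c))) (BT.Fa_mk (BT.Fa_mk (BT.Fa_leaf (P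 := Itm.ok 206) (iqb tpr763_c)) (BT.Fa_leaf (P := Itm.ok 206) (iqf tpr83_c))) (BT.Fa_leaf (P := Itm.ok 206) (iqf tpr228_c)))) (BT.Fa_mk (BT.Fa_mk (BT.Fa_mk (BT.Fa_leaf (P := Itm.ok 206) (iqf tpr833_c)) (BT.Fa_leaf (P := Itm.ok 206) (iqb tpr48_c))) (BT.Fa_leaf (P := Itm.ok 206) (iqf tpr122_c))) (BT.Fa_mk (BT.Fa_mk (BT.Fa_leaf (P := Itm.ok 206) (iqb tpr134_c)) (BT.Fa_leaf (P := Itm.ok 206) (iqf tpr123_c))) (BT.Fa_leaf (P := Itm.ok 206) (iqf tpr121_c))))) (BT.Fa_mk (BT.Fa_mk (BT.Fa_mk (BT.Fa_mk (BT.Fa_leaf (P := Itm.ok 206) (iqb tpr349_c)) (BT.Fa_leaf (P := Itm.ok 206) (iqb tpr129_c))) (BT.Fa_leaf (P := Itm.ok 206) (iqb tpr198_c))) (BT.Fa_mk (BT.Fa_mk (BT.Fa_leaf (P := Itm.ok 206) (iqf tpr877_c)) (BT.Fa_leaf (P := Itm.ok 206) (iqb tpr222_c)))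 (BT.Fa_leaf (P := Itm.ok 206) (iqb tpr24_c)))) (BT.Fa_mk (BT.Fa_mk (BT.Fa_mk (BT.Fa_leaf (P := Itm.ok 206) (iqf tpr843_c)) (BT.Fa_leaf (P := Itm.ok 206) (iqf tpr878_c))) (BT.Fa_leaf (P := Itm.ok 206) (iqb tpr203_c))) (BT.Fa_mk (BT.Fa_leaf (P := Itm.ok 206) (iqb tpr879_c)) (BT.Fa_leaf (P := Itm.ok 206) (iqb tpr33_c)))))) (BT.Fa_mk (BT.Fa_mk (BT.Fa_mk (BT.Fa_mk (BT.Fa_mk (BT.Fa_leaf (P := Itm.ok 206) (iqf tpr880_c)) (BT.Fa_leaf (P := Itm.ok 206) (iqf tpr81_c))) (BT.Fa_leaf (P := Itm.ok 206) (iqb tpr881_c))) (BT.Fa_mk (BT.Fa_mk (BT.Fa_leaf (P := Itm.ok 206) (iqf tpr882_c)) (BT.Fa_leaf (P := Itm.ok 206) (iqb tpr883_c))) (BT.Fa_leaf (P := Itm.ok 206) (iqb tpr884_c)))) (BT.Fa_mk (BT.Fa_mk (BT.Fa_mk (BT.Fa_leaf (P := Itm.ok 206) (iqb tpr885_c))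 (BT.Fa_leaf (P := Itm.ok 206) (iqf tpr211_c))) (BT.Fa_leaf (P := Itm.ok 206) (iqb tpr769_c))) (BT.Fa_mk (BT.Fa_mk (BT.Fa_leaf (P := Itm.ok 206) (iqf tpr292_c)) (BT.Fa_leaf (P := Itm.ok 206) (iqf tpr288_c))) (BT.Fa_leaf (P := Itm.ok 206) (iqf tpr42_c))))) (BT.Fa_mk (BT.Fa_mk (BT.Fa_mk (BT.Fa_mk (BT.Fa_leaf (P := Itm.ok 206) (iqb tpr8_c)) (BT.Fa_leaf (P := Itm.ok 206) (iqb tpr886_c))) (BT.Fa_leaf (P := Itm.ok 206) (iqf tpr887_c))) (BT.Fa_mk (BT.Fa_mk (BT.Fa_leaf (P := Itm.ok 206) (iqb tpr864_c)) (BT.Fa_leaf (P := Itm.ok 206) (iqf tpr772_c))) (BT.Fa_leaf (P := Itm.ok 206) (iqf tpr461_c)))) (BT.Fa_mk (BT.Fa_mk (BT.Fa_mk (BT.Fa_leaf (P := Itm.ok 206) (iqf tpr295_c)) (BT.Fa_leaf (P := Itm.ok 206) (iqf tpr888_c))) (BT.Fa_leaf (P := Itm.ok 206) (iqf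 tpr889_c))) (BT.Fa_mk (BT.Fa_leaf (P := Itm.ok 206) (iqf tpr576_c)) (BT.Fa_leaf (P := Itm.ok 206) (iqf tpr503_c))))))))

/-- all words of the class have labels -/
theorem pokNFzE2B3H2BzIzB3H3B2EzAzA2F : POK 206 xNFzE2B3H2BzIzB3H3B2EzAzA2F :=
  y_pok (C0 := ceNFzE2B3H2BzIzB3H3B2EzAzA2F) (C1 := coNFzE2B3H2BzIzB3H3B2EzAzA2F) topNFzE2B3H2BzIzB3H3B2EzAzA2F nbNFzE2B3H2BzIzB3H3B2EzAzA2F (BT.Fa_of_all iiNFzE2B3H2BzIzB3H3B2EzAzA2F_c)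
    (cyE_spec zeNFzE2B3H2BzIzB3H3B2EzAzA2F_0)
    (cyO_spec zoNFzE2B3H2BzIzB3H3B2EzAzA2F_0)
    iiNFzE2B3H2BzIzB3H3B2EzAzA2F_k

theorem iiNFzE2B3H2BzIzB3H3B2EzAzAzF_k : iiNFzE2B3H2BzIzB3H3B2EzAzAzF.Fa (Itm.ok 206) := (BT.Fa_mk (BT.Fa_mk (BT.Fa_mk (BT.Fa_mk (BT.Fa_mk (BT.Fa_mk (BT.Fa_mk (BT.Fa_leaf (P := Itm.ok 206) (iqf tpr4_c)) (BT.Fa_leaf (P := Itm.ok 206) (iqb tpr314_c))) (BT.Fa_mk (BT.Fa_leaf (P := Itm.ok 206) (iqb tpr4_c)) (BT.Fa_leaf (P := Itm.ok 206) (iqf tpr5_c)))) (BT.Fa_mk (BT.Fa_mk (BT.Fa_leaf (P := Itm.ok 206) (iqf tpr8_c)) (BT.Fa_leaf (P := Itm.ok 206) (iqb tpr11_c))) (BT.Fa_mk (BT.Fa_leaf (P := Itm.ok 206) (iqb tpr9_c)) (BT.Fa_leaf (P := Itm.ok 206) (iqb tpr14_c))))) (BT.Fa_mk (BT.Fa_mk (BT.Fa_mk (BT.Fa_leaf (P := Itm.ok 206)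 (iqb tpr16_c)) (BT.Fa_leaf (P := Itm.ok 206) (iqf tpr41_c))) (BT.Fa_mk (BT.Fa_leaf (P := Itm.ok 206) (iqf tpr292_c)) (BT.Fa_leaf (P := Itm.ok 206) (iqf tpr590_c)))) (BT.Fa_mk (BT.Fa_mk (BT.Fa_leaf (P := Itm.ok 206) (iqb tpr33_c)) (BT.Fa_leaf (P := Itm.ok 206) (iqb tpr320_c))) (BT.Fa_leaf (P := Itm.ok 206) (iqb tpr72_c))))) (BT.Fa_mk (BT.Fa_mk (BT.Fa_mk (BT.Fa_mk (BT.Fa_leaf (P := Itm.ok 206) (iqf tpr230_c)) (BT.Fa_leaf (P := Itm.ok 206) (iqf tpr83_c))) (BT.Fa_mk (BT.Fa_leaf (P := Itm.ok 206) (iqf tpr167_c)) (BT.Fa_leaf (P := Itm.ok 206) (iqb tpr56_c)))) (BT.Fa_mk (BT.Fa_mk (BT.Fa_leaf (P := Itm.ok 206) (iqb tpr116_c)) (BT.Fa_leaf (P := Itm.ok 206) (iqf tpr51_c))) (BT.Fa_mk (BT.Fa_leaf (P := Itm.ok 206) (iqb tpr29_c)) (BT.Fa_leaf (P := Itm.ok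 206) (iqb tpr103_c))))) (BT.Fa_mk (BT.Fa_mk (BT.Fa_mk (BT.Fa_leaf (P := Itm.ok 206) (iqf tpr42_c)) (BT.Fa_leaf (P := Itm.ok 206) (iqb tpr57_c))) (BT.Fa_mk (BT.Fa_leaf (P := Itm.ok 206) (iqb tpr20_c)) (BT.Fa_leaf (P := Itm.ok 206) (iqf tpr758_c)))) (BT.Fa_mk (BT.Fa_mk (BT.Fa_leaf (P := Itm.ok 206) (iqf tpr69_c)) (BT.Fa_leaf (P := Itm.ok 206) (iqb tpr220_c))) (BT.Fa_leaf (P := Itm.ok 206) (iqb tpr36_c)))))) (BT.Fa_mk (BT.Fa_mk (BT.Fa_mk (BT.Fa_mk (BT.Fa_mk (BT.Fa_leaf (P := Itm.ok 206) (iqf tpr152_c)) (BT.Fa_leaf (P := Itm.ok 206) (iqb tpr80_c))) (BT.Fa_mk (BT.Fa_leaf (P := Itm.ok 206) (iqb tpr19_c)) (BT.Fa_leaf (P := Itm.ok 206) (iqb tpr17_c)))) (BT.Fa_mk (BT.Fa_mk (BT.Fa_leaf (P := Itm.ok 206) (iqb tpr90_c)) (BT.Fa_leaf (P := Itm.ok 206)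 (iqb tpr323_c))) (BT.Fa_mk (BT.Fa_leaf (P := Itm.ok 206) (iqb tpr106_c)) (BT.Fa_leaf (P := Itm.ok 206) (iqf tpr316_c))))) (BT.Fa_mk (BT.Fa_mk (BT.Fa_mk (BT.Fa_leaf (P := Itm.ok 206) (iqf tpr11_c)) (BT.Fa_leaf (P := Itm.ok 206) (iqb tpr82_c))) (BT.Fa_mk (BT.Fa_leaf (P := Itm.ok 206) (iqf tpr165_c)) (BT.Fa_leaf (P := Itm.ok 206) (iqb tpr62_c)))) (BT.Fa_mk (BT.Fa_mk (BT.Fa_leaf (P := Itm.ok 206) (iqf tpr878_c)) (BT.Fa_leaf (P := Itm.ok 206) (iqb tpr890_c))) (BT.Fa_leaf (P := Itm.ok 206) (iqf tpr151_c))))) (BT.Fa_mk (BT.Fa_mk (BT.Fa_mk (BT.Fa_mk (BT.Fa_leaf (P := Itm.ok 206) (iqf tpr37_c)) (BT.Fa_leaf (P := Itm.ok 206) (iqb tpr891_c))) (BT.Fa_mk (BT.Fa_leaf (P := Itm.ok 206) (iqb tpr265_c)) (BT.Fa_leaf (P := Itm.ok 206) (iqb tpr164_c)))) (BT.Fa_mk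 (BT.Fa_mk (BT.Fa_leaf (P := Itm.ok 206) (iqf tpr98_c)) (BT.Fa_leaf (P := Itm.ok 206) (iqf tpr86_c))) (BT.Fa_leaf (P := Itm.ok 206) (iqf tpr124_c)))) (BT.Fa_mk (BT.Fa_mk (BT.Fa_mk (BT.Fa_leaf (P := Itm.ok 206) (iqb tpr85_c)) (BT.Fa_leaf (P := Itm.ok 206) (iqf tpr892_c))) (BT.Fa_mk (BT.Fa_leaf (P := Itm.ok 206) (iqb tpr762_c)) (BT.Fa_leaf (P := Itm.ok 206) (iqf tpr118_c)))) (BT.Fa_mk (BT.Fa_mk (BT.Fa_leaf (P := Itm.ok 206) (iqb tpr763_c)) (BT.Fa_leaf (P := Itm.ok 206) (iqf tpr102_c))) (BT.Fa_leaf (P := Itm.ok 206) (iqf tpr30_c))))))) (BT.Fa_mk (BT.Fa_mk (BT.Fa_mk (BT.Fa_mk (BT.Fa_mk (BT.Fa_mk (BT.Fa_leaf (P := Itm.ok 206) (iqb tpr48_c)) (BT.Fa_leaf (P := Itm.ok 206) (iqb tpr7_c))) (BT.Fa_mk (BT.Fa_leaf (P := Itm.ok 206) (iqf tpr576_c)) (BT.Fa_leaf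 (P := Itm.ok 206) (iqb tpr318_c)))) (BT.Fa_mk (BT.Fa_mk (BT.Fa_leaf (P := Itm.ok 206) (iqb tpr832_c)) (BT.Fa_leaf (P := Itm.ok 206) (iqb tpr26_c))) (BT.Fa_mk (BT.Fa_leaf (P := Itm.ok 206) (iqb tpr74_c)) (BT.Fa_leaf (P := Itm.ok 206) (iqb tpr341_c))))) (BT.Fa_mk (BT.Fa_mk (BT.Fa_mk (BT.Fa_leaf (P := Itm.ok 206) (iqf tpr122_c)) (BT.Fa_leaf (P := Itm.ok 206) (iqb tpr256_c))) (BT.Fa_mk (BT.Fa_leaf (P := Itm.ok 206) (iqb tpr267_c)) (BT.Fa_leaf (P := Itm.ok 206) (iqf tpr374_c)))) (BT.Fa_mk (BT.Fa_mk (BT.Fa_leaf (P := Itm.ok 206) (iqf tpr219_c)) (BT.Fa_leaf (P := Itm.ok 206) (iqf tpr401_c))) (BT.Fa_leaf (P := Itm.ok 206) (iqb tpr349_c))))) (BT.Fa_mk (BT.Fa_mk (BT.Fa_mk (BT.Fa_mk (BT.Fa_leaf (P := Itm.ok 206) (iqf tpr121_c)) (BT.Fa_leaf (P := Itm.ok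 206) (iqb tpr129_c))) (BT.Fa_mk (BT.Fa_leaf (P := Itm.ok 206) (iqf tpr843_c)) (BT.Fa_leaf (P := Itm.ok 206) (iqf tpr123_c)))) (BT.Fa_mk (BT.Fa_mk (BT.Fa_leaf (P := Itm.ok 206) (iqb tpr10_c)) (BT.Fa_leaf (P := Itm.ok 206) (iqf tpr168_c))) (BT.Fa_leaf (P := Itm.ok 206) (iqf tpr12_c)))) (BT.Fa_mk (BT.Fa_mk (BT.Fa_mk (BT.Fa_leaf (P := Itm.ok 206) (iqf tpr893_c)) (BT.Fa_leaf (P := Itm.ok 206) (iqf tpr658_c))) (BT.Fa_mk (BT.Fa_leaf (P := Itm.ok 206) (iqf tpr877_c)) (BT.Fa_leaf (P := Itm.ok 206) (iqb tpr5_c)))) (BT.Fa_mk (BT.Fa_mk (BT.Fa_leaf (P := Itm.ok 206) (iqb tpr24_c)) (BT.Fa_leaf (P := Itm.ok 206) (iqf tpr894_c))) (BT.Fa_leaf (P := Itm.ok 206) (iqf tpr376_c)))))) (BT.Fa_mk (BT.Fa_mk (BT.Fa_mk (BT.Fa_mk (BT.Fa_mk (BT.Fa_leaf (P := Itm.ok 206)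 (iqb tpr460_c)) (BT.Fa_leaf (P := Itm.ok 206) (iqb tpr339_c))) (BT.Fa_mk (BT.Fa_leaf (P := Itm.ok 206) (iqb tpr881_c)) (BT.Fa_leaf (P := Itm.ok 206) (iqb tpr8_c)))) (BT.Fa_mk (BT.Fa_mk (BT.Fa_leaf (P := Itm.ok 206) (iqf tpr851_c)) (BT.Fa_leaf (P := Itm.ok 206) (iqb tpr879_c))) (BT.Fa_mk (BT.Fa_leaf (P := Itm.ok 206) (iqb tpr895_c)) (BT.Fa_leaf (P := Itm.ok 206) (iqf tpr211_c))))) (BT.Fa_mk (BT.Fa_mk (BT.Fa_mk (BT.Fa_leaf (P := Itm.ok 206) (iqb tpr896_c)) (BT.Fa_leaf (P := Itm.ok 206) (iqf tpr332_c))) (BT.Fa_mk (BT.Fa_leaf (P := Itm.ok 206) (iqb tpr203_c)) (BT.Fa_leaf (P := Itm.ok 206) (iqf tpr22_c)))) (BT.Fa_mk (BT.Fa_mk (BT.Fa_leaf (P := Itm.ok 206) (iqf tpr293_c)) (BT.Fa_leaf (P := Itm.ok 206) (iqb tpr898_c))) (BT.Fa_leaf (P := Itm.ok 206)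 (iqb tpr324_c))))) (BT.Fa_mk (BT.Fa_mk (BT.Fa_mk (BT.Fa_mk (BT.Fa_leaf (P := Itm.ok 206) (iqf tpr899_c)) (BT.Fa_leaf (P := Itm.ok 206) (iqf tpr216_c))) (BT.Fa_mk (BT.Fa_leaf (P := Itm.ok 206) (iqf tpr236_c)) (BT.Fa_leaf (P := Itm.ok 206) (iqb tpr900_c)))) (BT.Fa_mk (BT.Fa_mk (BT.Fa_leaf (P := Itm.ok 206) (iqf tpr901_c)) (BT.Fa_leaf (P := Itm.ok 206) (iqf tpr902_c))) (BT.Fa_leaf (P := Itm.ok 206) (iqb tpr903_c)))) (BT.Fa_mk (BT.Fa_mk (BT.Fa_mk (BT.Fa_leaf (P := Itm.ok 206) (iqb tpr904_c)) (BT.Fa_leaf (P := Itm.ok 206) (iqf tpr503_c))) (BT.Fa_mk (BT.Fa_leaf (P := Itm.ok 206) (iqb tpr769_c)) (BT.Fa_leaf (P := Itm.ok 206) (iqb tpr905_c)))) (BT.Fa_mk (BT.Fa_mk (BT.Fa_leaf (P := Itm.ok 206) (iqf tpr13_c)) (BT.Fa_leaf (P := Itm.ok 206) (iqb tpr707_c)))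 (BT.Fa_leaf (P := Itm.ok 206) (iqb tpr778_c))))))))

/-- all words of the class have labels -/
theorem pokNFzE2B3H2BzIzB3H3B2EzAzAzF : POK 206 xNFzE2B3H2BzIzB3H3B2EzAzAzF :=
  y_pok (C0 := ceNFzE2B3H2BzIzB3H3B2EzAzAzF) (C1 := coNFzE2B3H2BzIzB3H3B2EzAzAzF) topNFzE2B3H2BzIzB3H3B2EzAzAzF nbNFzE2B3H2BzIzB3H3B2EzAzAzF (BT.Fa_of_all iiNFzE2B3H2BzIzB3H3B2EzAzAzF_c)
    (cyE_spec zeNFzE2B3H2BzIzB3H3B2EzAzAzF_0)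
    (cyO_spec zoNFzE2B3H2BzIzB3H3B2EzAzAzF_0)
    iiNFzE2B3H2BzIzB3H3B2EzAzAzF_k

theorem iiNFzE2B3H2BzIzB3H3B2EzC_k : iiNFzE2B3H2BzIzB3H3B2EzC.Fa (Itm.ok 206) := (BT.Fa_mk (BT.Fa_mk (BT.Fa_mk (BT.Fa_mk (BT.Fa_leaf (P := Itm.ok 206) (iqf tpr4_c)) (BT.Fa_leaf (P := Itm.ok 206) (iqb tpr11_c))) (BT.Fa_leaf (P := Itm.ok 206) (iqf tpr8_c))) (BT.Fa_mk (BT.Fa_leaf (P := Itm.ok 206) (iqf tpr5_c)) (BT.Fa_leaf (P := Itm.ok 206) (iqb tpr319_c)))) (BT.Fa_mk (BT.Fa_mk (BT.Fa_mk (BT.Fa_leaf (P := Itm.ok 206) (iqb tpr14_c)) (BT.Fa_leaf (P := Itm.ok 206) (iqf tpr906_c))) (BT.Fa_leaf (P := Itm.ok 206) (iqb tpr107_c))) (BT.Fa_mk (BT.Fa_leaf (P := Itm.ok 206) (iqf tpr167_c)) (BT.Fa_leaf (P := Itm.ok 206) (iqb tpr5_c)))))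

/-- all words of the class have labels -/
theorem pokNFzE2B3H2BzIzB3H3B2EzC : POK 206 xNFzE2B3H2BzIzB3H3B2EzC :=
  y_pok (C0 := ceNFzE2B3H2BzIzB3H3B2EzC) (C1 := coNFzE2B3H2BzIzB3H3B2EzC) topNFzE2B3H2BzIzB3H3B2EzC nbNFzE2B3H2BzIzB3H3B2EzC (BT.Fa_of_all iiNFzE2B3H2BzIzB3H3B2EzC_c)
    (cyE_spec zeNFzE2B3H2BzIzB3H3B2EzC_0)
    (cyO_spec zoNFzE2B3H2BzIzB3H3B2EzC_0)
    iiNFzE2B3H2BzIzB3H3B2EzC_k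

theorem iiNFzE2B3H2BzIzB3H3ByA2EzF_k : iiNFzE2B3H2BzIzB3H3ByA2EzF.Fa (Itm.ok 206) := (BT.Fa_mk (BT.Fa_mk (BT.Fa_mk (BT.Fa_mk (BT.Fa_mk (BT.Fa_mk (BT.Fa_mk (BT.Fa_leaf (P := Itm.ok 206) (iqb tpr5_c)) (BT.Fa_leaf (P := Itm.ok 206) (iqf tpr4_c))) (BT.Fa_mk (BT.Fa_leaf (P := Itm.ok 206) (iqb tpr4_c)) (BT.Fa_leaf (P := Itm.ok 206) (iqb tpr11_c)))) (BT.Fa_mk (BT.Fa_mk (BT.Fa_leaf (P := Itm.ok 206) (iqf tpr907_c)) (BT.Fa_leaf (P := Itm.ok 206) (iqf tpr8_c))) (BT.Fa_leaf (P := Itm.ok 206) (iqb tpr9_c)))) (BT.Fa_mk (BT.Fa_mk (BT.Fa_mk (BT.Fa_leaf (P := Itm.ok 206) (iqb tpr455_c)) (BT.Fa_leaf (P := Itm.ok 206) (iqf tpr13_c))) (BT.Fa_leaf (P := Itm.ok 206) (iqb tpr14_c))) (BT.Fa_mk (BT.Fa_mk (BT.Fa_leaf (P := Itm.ok 206) (iqf tpr11_c)) (BT.Fa_leaf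 (P := Itm.ok 206) (iqb tpr18_c))) (BT.Fa_leaf (P := Itm.ok 206) (iqb tpr908_c))))) (BT.Fa_mk (BT.Fa_mk (BT.Fa_mk (BT.Fa_mk (BT.Fa_leaf (P := Itm.ok 206) (iqb tpr15_c)) (BT.Fa_leaf (P := Itm.ok 206) (iqf tpr23_c))) (BT.Fa_mk (BT.Fa_leaf (P := Itm.ok 206) (iqb tpr609_c)) (BT.Fa_leaf (P := Itm.ok 206) (iqb tpr74_c)))) (BT.Fa_mk (BT.Fa_mk (BT.Fa_leaf (P := Itm.ok 206) (iqb tpr80_c)) (BT.Fa_leaf (P := Itm.ok 206) (iqb tpr36_c))) (BT.Fa_leaf (P := Itm.ok 206) (iqb tpr795_c)))) (BT.Fa_mk (BT.Fa_mk (BT.Fa_mk (BT.Fa_leaf (P := Itm.ok 206) (iqf tpr37_c)) (BT.Fa_leaf (P := Itm.ok 206) (iqf tpr569_c))) (BT.Fa_leaf (P := Itm.ok 206) (iqf tpr152_c))) (BT.Fa_mk (BT.Fa_mk (BT.Fa_leaf (P := Itm.ok 206) (iqb tpr909_c)) (BT.Fa_leaf (P := Itm.ok 206) (iqb tpr354_c)))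 (BT.Fa_leaf (P := Itm.ok 206) (iqf tpr83_c)))))) (BT.Fa_mk (BT.Fa_mk (BT.Fa_mk (BT.Fa_mk (BT.Fa_mk (BT.Fa_leaf (P := Itm.ok 206) (iqf tpr461_c)) (BT.Fa_leaf (P := Itm.ok 206) (iqb tpr20_c))) (BT.Fa_mk (BT.Fa_leaf (P := Itm.ok 206) (iqf tpr758_c)) (BT.Fa_leaf (P := Itm.ok 206) (iqf tpr69_c)))) (BT.Fa_mk (BT.Fa_mk (BT.Fa_leaf (P := Itm.ok 206) (iqf tpr42_c)) (BT.Fa_leaf (P := Itm.ok 206) (iqb tpr103_c))) (BT.Fa_leaf (P := Itm.ok 206) (iqb tpr16_c)))) (BT.Fa_mk (BT.Fa_mk (BT.Fa_mk (BT.Fa_leaf (P := Itm.ok 206) (iqb tpr62_c)) (BT.Fa_leaf (P := Itm.ok 206) (iqb tpr57_c))) (BT.Fa_leaf (P := Itm.ok 206) (iqb tpr10_c))) (BT.Fa_mk (BT.Fa_mk (BT.Fa_leaf (P := Itm.ok 206) (iqb tpr239_c)) (BT.Fa_leaf (P := Itm.ok 206) (iqf tpr910_c))) (BT.Fa_leaf (P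 := Itm.ok 206) (iqf tpr911_c))))) (BT.Fa_mk (BT.Fa_mk (BT.Fa_mk (BT.Fa_mk (BT.Fa_leaf (P := Itm.ok 206) (iqb tpr605_c)) (BT.Fa_leaf (P := Itm.ok 206) (iqf tpr78_c))) (BT.Fa_leaf (P := Itm.ok 206) (iqb tpr134_c))) (BT.Fa_mk (BT.Fa_mk (BT.Fa_leaf (P := Itm.ok 206) (iqb tpr19_c)) (BT.Fa_leaf (P := Itm.ok 206) (iqf tpr912_c))) (BT.Fa_leaf (P := Itm.ok 206) (iqb tpr56_c)))) (BT.Fa_mk (BT.Fa_mk (BT.Fa_mk (BT.Fa_leaf (P := Itm.ok 206) (iqf tpr102_c)) (BT.Fa_leaf (P := Itm.ok 206) (iqf tpr30_c))) (BT.Fa_leaf (P := Itm.ok 206) (iqf tpr22_c))) (BT.Fa_mk (BT.Fa_mk (BT.Fa_leaf (P := Itm.ok 206) (iqb tpr17_c)) (BT.Fa_leaf (P := Itm.ok 206) (iqb tpr90_c))) (BT.Fa_leaf (P := Itm.ok 206) (iqb tpr707_c))))))) (BT.Fa_mk (BT.Fa_mk (BT.Fa_mk (BT.Fa_mk (BT.Fa_mk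 (BT.Fa_mk (BT.Fa_leaf (P := Itm.ok 206) (iqf tpr295_c)) (BT.Fa_leaf (P := Itm.ok 206) (iqf tpr913_c))) (BT.Fa_mk (BT.Fa_leaf (P := Itm.ok 206) (iqb tpr85_c)) (BT.Fa_leaf (P := Itm.ok 206) (iqb tpr914_c)))) (BT.Fa_mk (BT.Fa_mk (BT.Fa_leaf (P := Itm.ok 206) (iqb tpr915_c)) (BT.Fa_leaf (P := Itm.ok 206) (iqb tpr453_c))) (BT.Fa_leaf (P := Itm.ok 206) (iqb tpr82_c)))) (BT.Fa_mk (BT.Fa_mk (BT.Fa_mk (BT.Fa_leaf (P := Itm.ok 206) (iqf tpr414_c)) (BT.Fa_leaf (P := Itm.ok 206) (iqb tpr916_c))) (BT.Fa_leaf (P := Itm.ok 206) (iqf tpr81_c))) (BT.Fa_mk (BT.Fa_mk (BT.Fa_leaf (P := Itm.ok 206) (iqf tpr230_c)) (BT.Fa_leaf (P := Itm.ok 206) (iqb tpr26_c))) (BT.Fa_leaf (P := Itm.ok 206) (iqf tpr167_c))))) (BT.Fa_mk (BT.Fa_mk (BT.Fa_mk (BT.Fa_mk (BT.Fa_leaf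 (P := Itm.ok 206) (iqb tpr48_c)) (BT.Fa_leaf (P := Itm.ok 206) (iqb tpr842_c))) (BT.Fa_mk (BT.Fa_leaf (P := Itm.ok 206) (iqf tpr122_c)) (BT.Fa_leaf (P := Itm.ok 206) (iqb tpr7_c)))) (BT.Fa_mk (BT.Fa_mk (BT.Fa_leaf (P := Itm.ok 206) (iqb tpr220_c)) (BT.Fa_leaf (P := Itm.ok 206) (iqb tpr917_c))) (BT.Fa_leaf (P := Itm.ok 206) (iqf tpr918_c)))) (BT.Fa_mk (BT.Fa_mk (BT.Fa_mk (BT.Fa_leaf (P := Itm.ok 206) (iqf tpr151_c)) (BT.Fa_leaf (P := Itm.ok 206) (iqb tpr642_c))) (BT.Fa_leaf (P := Itm.ok 206) (iqb tpr258_c))) (BT.Fa_mk (BT.Fa_mk (BT.Fa_leaf (P := Itm.ok 206) (iqf tpr121_c)) (BT.Fa_leaf (P := Itm.ok 206) (iqb tpr265_c))) (BT.Fa_leaf (P := Itm.ok 206) (iqb tpr919_c)))))) (BT.Fa_mk (BT.Fa_mk (BT.Fa_mk (BT.Fa_mk (BT.Fa_mk (BT.Fa_leaf (P := Itm.ok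 206) (iqb tpr126_c)) (BT.Fa_leaf (P := Itm.ok 206) (iqf tpr920_c))) (BT.Fa_mk (BT.Fa_leaf (P := Itm.ok 206) (iqb tpr129_c)) (BT.Fa_leaf (P := Itm.ok 206) (iqb tpr349_c)))) (BT.Fa_mk (BT.Fa_mk (BT.Fa_leaf (P := Itm.ok 206) (iqf tpr123_c)) (BT.Fa_leaf (P := Itm.ok 206) (iqf tpr12_c))) (BT.Fa_leaf (P := Itm.ok 206) (iqf tpr168_c)))) (BT.Fa_mk (BT.Fa_mk (BT.Fa_mk (BT.Fa_leaf (P := Itm.ok 206) (iqf tpr893_c)) (BT.Fa_leaf (P := Itm.ok 206) (iqf tpr54_c))) (BT.Fa_leaf (P := Itm.ok 206) (iqf tpr921_c))) (BT.Fa_mk (BT.Fa_mk (BT.Fa_leaf (P := Itm.ok 206) (iqb tpr253_c)) (BT.Fa_leaf (P := Itm.ok 206) (iqf tpr302_c))) (BT.Fa_leaf (P := Itm.ok 206) (iqf tpr211_c))))) (BT.Fa_mk (BT.Fa_mk (BT.Fa_mk (BT.Fa_mk (BT.Fa_leaf (P := Itm.ok 206) (iqf tpr107_c))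 (BT.Fa_leaf (P := Itm.ok 206) (iqb tpr922_c))) (BT.Fa_leaf (P := Itm.ok 206) (iqb tpr284_c))) (BT.Fa_mk (BT.Fa_mk (BT.Fa_leaf (P := Itm.ok 206) (iqb tpr879_c)) (BT.Fa_leaf (P := Itm.ok 206) (iqb tpr24_c))) (BT.Fa_leaf (P := Itm.ok 206) (iqb tpr904_c)))) (BT.Fa_mk (BT.Fa_mk (BT.Fa_mk (BT.Fa_leaf (P := Itm.ok 206) (iqf tpr292_c)) (BT.Fa_leaf (P := Itm.ok 206) (iqb tpr869_c))) (BT.Fa_leaf (P := Itm.ok 206) (iqf tpr324_c))) (BT.Fa_mk (BT.Fa_mk (BT.Fa_leaf (P := Itm.ok 206) (iqf tpr544_c)) (BT.Fa_leaf (P := Itm.ok 206) (iqb tpr925_c))) (BT.Fa_leaf (P := Itm.ok 206) (iqb tpr23_c))))))))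

/-- all words of the class have labels -/
theorem pokNFzE2B3H2BzIzB3H3ByA2EzF : POK 206 xNFzE2B3H2BzIzB3H3ByA2EzF :=
  y_pok (C0 := ceNFzE2B3H2BzIzB3H3ByA2EzF) (C1 := coNFzE2B3H2BzIzB3H3ByA2EzF) topNFzE2B3H2BzIzB3H3ByA2EzF nbNFzE2B3H2BzIzB3H3ByA2EzF (BT.Fa_of_all iiNFzE2B3H2BzIzB3H3ByA2EzF_c)
    (cyE_spec zeNFzE2B3H2BzIzB3H3ByA2EzF_0)
    (cyO_spec zoNFzE2B3H2BzIzB3H3ByA2EzF_0)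
    iiNFzE2B3H2BzIzB3H3ByA2EzF_k


end MPb6R
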