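import Pool.Agent.Lib.MP_b6d339_lc.Cw3.YFzE2ByA3H2AzA2H3AyB2EzF
import Pool.Agent.Lib.MP_b6d339_lc.Cw3.XL
import Pool.Agent.Lib.MP_b6d339_lc.Cw3.T0
import Pool.Agent.Lib.MP_b6d339_lc.Cw3.T1
import Pool.Agent.Lib.MP_b6d339_lc.Cw3.T10
import Pool.Agent.Lib.MP_b6d339_lc.Cw3.T11
import Pool.Agent.Lib.MP_b6d339_lc.Cw3.T12
import Pool.Agent.Lib.MP_b6d339_lc.Cw3.T13
import Pool.Agent.Lib.MP_b6d339_lc.Cw3.T14
import Pool.Agent.Lib.MP_b6d339_lc.Cw3.T15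
import Pool.Agent.Lib.MP_b6d339_lc.Cw3.T18
import Pool.Agent.Lib.MP_b6d339_lc.Cw3.T2
import Pool.Agent.Lib.MP_b6d339_lc.Cw3.T21
import Pool.Agent.Lib.MP_b6d339_lc.Cw3.T3
import Pool.Agent.Lib.MP_b6d339_lc.Cw3.T37
import Pool.Agent.Lib.MP_b6d339_lc.Cw3.T5
import Pool.Agent.Lib.MP_b6d339_lc.Cw3.T6
import Pool.Agent.Lib.MP_b6d339_lc.Cw3.T7
import Pool.Agent.Lib.MP_b6d339_lc.Cw3.T8
import Pool.Agent.Lib.MP_b6d339_lc.Cw3.T9

/-!
# Erdős 592, three levels: items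
-/

namespace MPb6R

open MPb6P

noncomputable def iiNFzE2ByA3H2AzA2H3AyB2EzF : BT Itm := (.node (.node (.node (.node (.node (.node (.node (.node (.node (.leaf (.bwd 0 16 tpr168.df)) (.leaf (.bwd 16 13 tpr500.df))) (.leaf (.fwd 29 13 tpr500.df))) (.node (.node (.leaf (.fwd 42 16 tpr168.df)) (.leaf (.bwd 58 25 tpr531.df))) (.leaf (.fwd 83 25 tpr531.df)))) (.node (.node (.node (.leaf (.bwd 108 15 tpr525.df)) (.leaf (.fwd 123 15 tpr525.df))) (.leaf (.fwd 138 22 tpr239.df))) (.node (.node (.leaf (.bwd 160 22 tpr239.df)) (.leaf (.bwd 182 21 tpr90.df))) (.leaf (.fwd 203 29 tpr656.df))))) (.node (.node (.node (.node (.leaf (.fwd 232 21 tpr107.df)) (.leaf (.fwd 253 21 tpr8.df))) (.leaf (.bwd 274 28 tpr1013.df))) (.node (.node (.leaf (.fwd 302 29 tpr618.df)) (.leaf (.fwd 331 27 tpr82.df))) (.leaf (.bwd 358 27 tpr82.df)))) (.node (.node (.node (.leaf (.bwd 385 23 tpr605.df)) (.leaf (.bwd 408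 29 tpr618.df))) (.leaf (.bwd 437 21 tpr107.df))) (.node (.node (.leaf (.bwd 458 35 tpr259.df)) (.leaf (.fwd 493 27 tpr562.df))) (.leaf (.fwd 520 27 tpr236.df)))))) (.node (.node (.node (.node (.node (.leaf (.fwd 547 23 tpr5.df)) (.leaf (.fwd 570 33 tpr631.df))) (.leaf (.fwd 603 22 tpr560.df))) (.node (.node (.leaf (.fwd 625 35 tpr259.df)) (.leaf (.bwd 660 33 tpr501.df))) (.leaf (.bwd 693 31 tpr607.df)))) (.node (.node (.node (.leaf (.fwd 724 31 tpr527.df)) (.leaf (.fwd 755 23 tpr1014.df))) (.leaf (.bwd 778 36 tpr547.df))) (.node (.node (.leaf (.fwd 814 31 tpr607.df)) (.leaf (.fwd 845 31 tpr517.df))) (.leaf (.fwd 876 31 tpr975.df))))) (.node (.node (.node (.node (.leaf (.fwd 907 30 tpr577.df)) (.leaf (.bwd 937 23 tpr1014.df))) (.leaf (.bwd 960 21 tpr1045.df))) (.node (.node (.leaf (.bwd 981 39 tpr701.df)) (.leaf (.bwd 1020 27 tpr540.df))) (.leaf (.fwd 1047 45 tpr596.df)))) (.node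 (.node (.node (.leaf (.bwd 1092 25 tpr914.df)) (.leaf (.bwd 1117 19 tpr33.df))) (.leaf (.fwd 1136 23 tpr12.df))) (.node (.leaf (.fwd 1159 25 tpr586.df)) (.leaf (.fwd 1184 23 tpr780.df))))))) (.node (.node (.node (.node (.node (.node (.leaf (.fwd 1207 24 tpr789.df)) (.leaf (.fwd 1231 24 tpr609.df))) (.leaf (.bwd 1255 41 tpr188.df))) (.node (.node (.leaf (.fwd 1296 20 tpr768.df)) (.leaf (.bwd 1316 15 tpr419.df))) (.leaf (.bwd 1331 23 tpr133.df)))) (.node (.node (.node (.leaf (.bwd 1354 29 tpr9.df)) (.leaf (.fwd 1383 25 tpr51.df))) (.leaf (.bwd 1408 31 tpr517.df))) (.node (.node (.leaf (.bwd 1439 29 tpr641.df)) (.leaf (.bwd 1468 34 tpr15.df))) (.leaf (.bwd 1502 54 tpr1026.df))))) (.node (.node (.node (.node (.leaf (.bwd 1556 25 tpr10.df)) (.leaf (.bwd 1581 27 tpr236.df))) (.leaf (.bwd 1608 31 tpr557.df))) (.node (.node (.leaf (.fwd 1639 36 tpr665.df)) (.leaf (.fwd 1675 39 tpr962.df)))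 (.leaf (.fwd 1714 31 tpr606.df)))) (.node (.node (.node (.leaf (.bwd 1745 35 tpr1054.df)) (.leaf (.fwd 1780 37 tpr556.df))) (.leaf (.bwd 1817 29 tpr692.df))) (.node (.leaf (.fwd 1846 33 tpr501.df)) (.leaf (.bwd 1879 36 tpr453.df)))))) (.node (.node (.node (.node (.node (.leaf (.fwd 1915 54 tpr1008.df)) (.leaf (.bwd 1969 30 tpr626.df))) (.leaf (.bwd 1999 42 tpr1019.df))) (.node (.node (.leaf (.bwd 2041 31 tpr1010.df)) (.leaf (.bwd 2072 24 tpr609.df))) (.leaf (.bwd 2096 22 tpr20.df)))) (.node (.node (.node (.leaf (.bwd 2118 34 tpr54.df)) (.leaf (.bwd 2152 27 tpr788.df))) (.leaf (.bwd 2179 27 tpr506.df))) (.node (.node (.leaf (.fwd 2206 27 tpr506.df)) (.leaf (.bwd 2233 35 tpr541.df))) (.leaf (.fwd 2268 42 tpr612.df))))) (.node (.node (.node (.node (.leaf (.bwd 2310 32 tpr550.df)) (.leaf (.bwd 2342 28 tpr563.df))) (.leaf (.bwd 2370 30 tpr1730.df))) (.node (.node (.leaf (.bwd 2400 27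 tpr625.df)) (.leaf (.fwd 2427 22 tpr572.df))) (.leaf (.fwd 2449 28 tpr563.df)))) (.node (.node (.node (.leaf (.bwd 2477 20 tpr505.df)) (.leaf (.fwd 2497 37 tpr555.df))) (.leaf (.bwd 2534 19 tpr429.df))) (.node (.leaf (.fwd 2553 29 tpr623.df)) (.leaf (.fwd 2582 24 tpr635.df)))))))) (.node (.node (.node (.node (.node (.node (.node (.leaf (.bwd 2606 29 tpr623.df)) (.leaf (.bwd 2635 27 tpr562.df))) (.leaf (.fwd 2662 37 tpr1022.df))) (.node (.node (.leaf (.fwd 2699 35 tpr1015.df)) (.leaf (.bwd 2734 35 tpr1028.df))) (.leaf (.bwd 2769 31 tpr167.df)))) (.node (.node (.node (.leaf (.fwd 2800 28 tpr627.df)) (.leaf (.bwd 2828 30 tpr1058.df))) (.leaf (.fwd 2858 32 tpr1030.df))) (.node (.node (.leaf (.bwd 2890 47 tpr1070.df)) (.leaf (.fwd 2937 27 tpr1068.df))) (.leaf (.fwd 2964 36 tpr935.df))))) (.node (.node (.node (.node (.leaf (.bwd 3000 44 tpr1069.df)) (.leaf (.fwd 3044 30 tpr1037.df))) (.leaf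 (.bwd 3074 35 tpr585.df))) (.node (.node (.leaf (.fwd 3109 25 tpr679.df)) (.leaf (.bwd 3134 29 tpr570.df))) (.leaf (.fwd 3163 26 tpr222.df)))) (.node (.node (.node (.leaf (.fwd 3189 30 tpr626.df)) (.leaf (.bwd 3219 37 tpr1094.df))) (.leaf (.bwd 3256 32 tpr518.df))) (.node (.node (.leaf (.fwd 3288 19 tpr429.df)) (.leaf (.bwd 3307 30 tpr577.df))) (.leaf (.bwd 3337 22 tpr953.df)))))) (.node (.node (.node (.node (.node (.leaf (.bwd 3359 24 tpr1056.df)) (.leaf (.bwd 3383 29 tpr22.df))) (.leaf (.fwd 3412 19 tpr1103.df))) (.node (.node (.leaf (.bwd 3431 35 tpr568.df)) (.leaf (.bwd 3466 41 tpr965.df))) (.leaf (.fwd 3507 35 tpr568.df)))) (.node (.node (.node (.leaf (.bwd 3542 22 tpr572.df)) (.leaf (.bwd 3564 35 tpr969.df))) (.leaf (.fwd 3599 29 tpr582.df))) (.node (.node (.leaf (.fwd 3628 27 tpr540.df)) (.leaf (.fwd 3655 33 tpr645.df))) (.leaf (.fwd 3688 38 tpr526.df))))) (.node (.node (.node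 (.node (.leaf (.bwd 3726 36 tpr1033.df)) (.leaf (.bwd 3762 29 tpr582.df))) (.leaf (.fwd 3791 29 tpr46.df))) (.node (.node (.leaf (.bwd 3820 35 tpr554.df)) (.leaf (.bwd 3855 54 tpr1008.df))) (.leaf (.bwd 3909 59 tpr803.df)))) (.node (.node (.node (.leaf (.bwd 3968 32 tpr294.df)) (.leaf (.fwd 4000 28 tpr944.df))) (.leaf (.bwd 4028 34 tpr548.df))) (.node (.leaf (.fwd 4062 35 tpr1129.df)) (.leaf (.fwd 4097 51 tpr1023.df))))))) (.node (.node (.node (.node (.node (.node (.leaf (.bwd 4148 37 tpr571.df)) (.leaf (.bwd 4185 37 tpr556.df))) (.leaf (.fwd 4222 39 tpr210.df))) (.node (.node (.leaf (.bwd 4261 37 tpr555.df)) (.leaf (.bwd 4298 42 tpr946.df))) (.leaf (.fwd 4340 19 tpr33.df)))) (.node (.node (.node (.leaf (.bwd 4359 19 tpr616.df)) (.leaf (.bwd 4378 20 tpr768.df))) (.leaf (.bwd 4398 21 tpr8.df))) (.node (.node (.leaf (.bwd 4419 33 tpr1099.df)) (.leaf (.fwd 4452 32 tpr17.df))) (.leaf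 (.fwd 4484 32 tpr518.df))))) (.node (.node (.node (.node (.leaf (.bwd 4516 31 tpr576.df)) (.leaf (.fwd 4547 36 tpr683.df))) (.leaf (.bwd 4583 32 tpr1009.df))) (.node (.node (.leaf (.bwd 4615 39 tpr210.df)) (.leaf (.fwd 4654 34 tpr748.df))) (.leaf (.fwd 4688 28 tpr1013.df)))) (.node (.node (.node (.leaf (.bwd 4716 24 tpr635.df)) (.leaf (.bwd 4740 30 tpr235.df))) (.leaf (.fwd 4770 31 tpr167.df))) (.node (.leaf (.bwd 4801 21 tpr1043.df)) (.leaf (.bwd 4822 22 tpr560.df)))))) (.node (.node (.node (.node (.node (.leaf (.fwd 4844 22 tpr953.df)) (.leaf (.fwd 4866 15 tpr419.df))) (.leaf (.bwd 4881 32 tpr1017.df))) (.node (.node (.leaf (.fwd 4913 35 tpr1028.df)) (.leaf (.bwd 4948 29 tpr656.df))) (.leaf (.bwd 4977 28 tpr627.df)))) (.node (.node (.node (.leaf (.bwd 5005 25 tpr586.df)) (.leaf (.fwd 5030 29 tpr9.df))) (.leaf (.fwd 5059 23 tpr133.df))) (.node (.node (.leaf (.bwd 5082 23 tpr780.df))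 (.leaf (.fwd 5105 34 tpr15.df))) (.leaf (.fwd 5139 26 tpr516.df))))) (.node (.node (.node (.node (.leaf (.fwd 5165 21 tpr90.df)) (.leaf (.fwd 5186 35 tpr1054.df))) (.leaf (.bwd 5221 28 tpr1032.df))) (.node (.node (.leaf (.fwd 5249 32 tpr1017.df)) (.leaf (.fwd 5281 29 tpr570.df))) (.leaf (.bwd 5310 31 tpr975.df)))) (.node (.node (.node (.leaf (.bwd 5341 30 tpr1024.df)) (.leaf (.fwd 5371 36 tpr453.df))) (.leaf (.fwd 5407 35 tpr29.df))) (.node (.leaf (.fwd 5442 20 tpr48.df)) (.leaf (.fwd 5462 25 tpr914.df))))))))) (.node (.node (.node (.node (.node (.node (.node (.node (.leaf (.fwd 5487 22 tpr20.df)) (.leaf (.bwd 5509 25 tpr51.df))) (.leaf (.fwd 5534 46 tpr116.df))) (.node (.node (.leaf (.fwd 5580 41 tpr188.df)) (.leaf (.fwd 5621 47 tpr1057.df))) (.leaf (.fwd 5668 35 tpr601.df)))) (.node (.node (.node (.leaf (.fwd 5703 35 tpr541.df)) (.leaf (.fwd 5738 27 tpr788.df))) (.leaf (.bwd 5765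 24 tpr789.df))) (.node (.node (.leaf (.bwd 5789 29 tpr608.df)) (.leaf (.fwd 5818 34 tpr548.df))) (.leaf (.fwd 5852 29 tpr22.df))))) (.node (.node (.node (.node (.leaf (.fwd 5881 31 tpr576.df)) (.leaf (.fwd 5912 30 tpr613.df))) (.leaf (.bwd 5942 31 tpr704.df))) (.node (.node (.leaf (.fwd 5973 24 tpr1011.df)) (.leaf (.bwd 5997 42 tpr733.df))) (.leaf (.bwd 6039 29 tpr647.df)))) (.node (.node (.node (.leaf (.fwd 6068 29 tpr641.df)) (.leaf (.bwd 6097 35 tpr13.df))) (.leaf (.fwd 6132 29 tpr1059.df))) (.node (.node (.leaf (.fwd 6161 37 tpr571.df)) (.leaf (.fwd 6198 30 tpr1058.df))) (.leaf (.bwd 6228 34 tpr628.df)))))) (.node (.node (.node (.node (.node (.leaf (.fwd 6262 25 tpr644.df)) (.leaf (.fwd 6287 32 tpr294.df))) (.leaf (.fwd 6319 37 tpr503.df))) (.node (.node (.leaf (.fwd 6356 34 tpr628.df)) (.leaf (.bwd 6390 37 tpr1064.df))) (.leaf (.fwd 6427 31 tpr1044.df)))) (.node (.node (.node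 (.leaf (.fwd 6458 25 tpr2970.df)) (.leaf (.fwd 6483 31 tpr1047.df))) (.leaf (.fwd 6514 32 tpr620.df))) (.node (.node (.leaf (.fwd 6546 33 tpr680.df)) (.leaf (.bwd 6579 28 tpr721.df))) (.leaf (.bwd 6607 24 tpr1011.df))))) (.node (.node (.node (.node (.leaf (.bwd 6631 39 tpr962.df)) (.leaf (.bwd 6670 24 tpr730.df))) (.leaf (.fwd 6694 31 tpr1010.df))) (.node (.node (.leaf (.bwd 6725 31 tpr527.df)) (.leaf (.bwd 6756 36 tpr23.df))) (.leaf (.bwd 6792 32 tpr251.df)))) (.node (.node (.node (.leaf (.bwd 6824 54 tpr1035.df)) (.leaf (.bwd 6878 25 tpr679.df))) (.leaf (.bwd 6903 29 tpr1040.df))) (.node (.leaf (.bwd 6932 26 tpr245.df)) (.leaf (.bwd 6958 34 tpr748.df))))))) (.node (.node (.node (.node (.node (.node (.leaf (.fwd 6992 36 tpr23.df)) (.leaf (.fwd 7028 23 tpr640.df))) (.leaf (.fwd 7051 35 tpr585.df))) (.node (.node (.leaf (.bwd 7086 42 tpr558.df)) (.leaf (.fwd 7128 35 tpr954.df))) (.leaf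 (.fwd 7163 29 tpr692.df)))) (.node (.node (.node (.leaf (.fwd 7192 32 tpr1009.df)) (.leaf (.bwd 7224 35 tpr1129.df))) (.leaf (.bwd 7259 30 tpr727.df))) (.node (.node (.leaf (.fwd 7289 39 tpr701.df)) (.leaf (.bwd 7328 43 tpr1034.df))) (.leaf (.fwd 7371 35 tpr554.df))))) (.node (.node (.node (.node (.leaf (.fwd 7406 42 tpr946.df)) (.leaf (.fwd 7448 21 tpr1043.df))) (.leaf (.fwd 7469 25 tpr1016.df))) (.node (.node (.leaf (.fwd 7494 28 tpr1032.df)) (.leaf (.bwd 7522 47 tpr1038.df))) (.leaf (.fwd 7569 26 tpr245.df)))) (.node (.node (.node (.leaf (.fwd 7595 30 tpr1024.df)) (.leaf (.bwd 7625 41 tpr502.df))) (.leaf (.fwd 7666 31 tpr198.df))) (.node (.leaf (.bwd 7697 36 tpr683.df)) (.leaf (.bwd 7733 33 tpr680.df)))))) (.node (.node (.node (.node (.node (.leaf (.bwd 7766 31 tpr1049.df)) (.leaf (.fwd 7797 26 tpr675.df))) (.leaf (.fwd 7823 34 tpr1728.df))) (.node (.node (.leaf (.bwd 7857 33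 tpr631.df)) (.leaf (.bwd 7890 41 tpr1063.df))) (.leaf (.fwd 7931 19 tpr616.df)))) (.node (.node (.node (.leaf (.fwd 7950 29 tpr608.df)) (.leaf (.fwd 7979 24 tpr1060.df))) (.leaf (.bwd 8003 32 tpr17.df))) (.node (.node (.leaf (.bwd 8035 26 tpr516.df)) (.leaf (.bwd 8061 32 tpr1030.df))) (.leaf (.fwd 8093 47 tpr1070.df))))) (.node (.node (.node (.node (.leaf (.bwd 8140 28 tpr1018.df)) (.leaf (.fwd 8168 27 tpr625.df))) (.leaf (.bwd 8195 35 tpr1015.df))) (.node (.node (.leaf (.fwd 8230 27 tpr589.df)) (.leaf (.fwd 8257 44 tpr1042.df))) (.leaf (.bwd 8301 35 tpr2971.df)))) (.node (.node (.node (.leaf (.bwd 8336 33 tpr645.df)) (.leaf (.bwd 8369 42 tpr1138.df))) (.leaf (.bwd 8411 34 tpr619.df))) (.node (.leaf (.fwd 8445 38 tpr238.df)) (.leaf (.bwd 8483 35 tpr91.df)))))))) (.node (.node (.node (.node (.node (.node (.node (.leaf (.fwd 8518 34 tpr614.df)) (.leaf (.bwd 8552 45 tpr611.df))) (.leaf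 (.fwd 8597 42 tpr1050.df))) (.node (.node (.leaf (.fwd 8639 28 tpr721.df)) (.leaf (.fwd 8667 28 tpr610.df))) (.leaf (.fwd 8695 32 tpr1051.df)))) (.node (.node (.node (.leaf (.fwd 8727 28 tpr2972.df)) (.leaf (.bwd 8755 38 tpr203.df))) (.leaf (.bwd 8793 28 tpr610.df))) (.node (.node (.leaf (.fwd 8821 37 tpr1089.df)) (.leaf (.fwd 8858 40 tpr597.df))) (.leaf (.fwd 8898 45 tpr611.df))))) (.node (.node (.node (.node (.leaf (.bwd 8943 45 tpr596.df)) (.leaf (.fwd 8988 37 tpr1075.df))) (.leaf (.bwd 9025 37 tpr1075.df))) (.node (.node (.leaf (.bwd 9062 37 tpr1052.df)) (.leaf (.fwd 9099 37 tpr1064.df))) (.leaf (.fwd 9136 32 tpr251.df)))) (.node (.node (.node (.leaf (.fwd 9168 34 tpr619.df)) (.leaf (.fwd 9202 37 tpr639.df))) (.leaf (.bwd 9239 31 tpr1047.df))) (.node (.node (.leaf (.bwd 9270 30 tpr1227.df)) (.leaf (.bwd 9300 28 tpr944.df))) (.leaf (.fwd 9328 31 tpr704.df)))))) (.node (.node (.node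 (.node (.node (.leaf (.fwd 9359 36 tpr1033.df)) (.leaf (.fwd 9395 60 tpr1036.df))) (.leaf (.bwd 9455 25 tpr1016.df))) (.node (.node (.leaf (.bwd 9480 53 tpr1067.df)) (.leaf (.bwd 9533 30 tpr1037.df))) (.leaf (.bwd 9563 24 tpr1060.df)))) (.node (.node (.node (.leaf (.bwd 9587 34 tpr614.df)) (.leaf (.fwd 9621 42 tpr972.df))) (.leaf (.bwd 9663 34 tpr543.df))) (.node (.node (.leaf (.bwd 9697 27 tpr589.df)) (.leaf (.bwd 9724 35 tpr574.df))) (.leaf (.fwd 9759 41 tpr1063.df))))) (.node (.node (.node (.node (.leaf (.bwd 9800 42 tpr1050.df)) (.leaf (.bwd 9842 48 tpr684.df))) (.leaf (.fwd 9890 32 tpr1065.df))) (.node (.node (.leaf (.fwd 9922 37 tpr1052.df)) (.leaf (.bwd 9959 32 tpr1065.df))) (.leaf (.fwd 9991 34 tpr1061.df)))) (.node (.node (.node (.leaf (.bwd 10025 34 tpr1061.df)) (.leaf (.fwd 10059 29 tpr1072.df))) (.leaf (.bwd 10088 33 tpr1074.df))) (.node (.leaf (.bwd 10121 27 tpr1068.df))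 (.leaf (.fwd 10148 44 tpr1069.df))))))) (.node (.node (.node (.node (.node (.node (.leaf (.fwd 10192 35 tpr716.df)) (.leaf (.bwd 10227 60 tpr1036.df))) (.leaf (.bwd 10287 35 tpr703.df))) (.node (.node (.leaf (.fwd 10322 35 tpr703.df)) (.leaf (.bwd 10357 30 tpr613.df))) (.leaf (.fwd 10387 39 tpr514.df)))) (.node (.node (.node (.leaf (.fwd 10426 38 tpr203.df)) (.leaf (.bwd 10464 42 tpr612.df))) (.leaf (.bwd 10506 26 tpr700.df))) (.node (.node (.leaf (.fwd 10532 29 tpr1457.df)) (.leaf (.bwd 10561 20 tpr48.df))) (.leaf (.fwd 10581 43 tpr936.df))))) (.node (.node (.node (.node (.leaf (.fwd 10624 28 tpr546.df)) (.leaf (.fwd 10652 41 tpr502.df))) (.leaf (.fwd 10693 34 tpr92.df))) (.node (.node (.leaf (.bwd 10727 28 tpr295.df)) (.leaf (.bwd 10755 29 tpr1096.df))) (.leaf (.bwd 10784 29 tpr1059.df)))) (.node (.node (.node (.leaf (.fwd 10813 25 tpr1031.df)) (.leaf (.fwd 10838 37 tpr687.df)))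 (.leaf (.bwd 10875 37 tpr503.df))) (.node (.leaf (.fwd 10912 23 tpr1087.df)) (.leaf (.fwd 10935 28 tpr507.df)))))) (.node (.node (.node (.node (.node (.leaf (.bwd 10963 29 tpr1048.df)) (.leaf (.fwd 10992 29 tpr1048.df))) (.leaf (.bwd 11021 28 tpr507.df))) (.node (.node (.leaf (.bwd 11049 29 tpr1457.df)) (.leaf (.fwd 11078 26 tpr984.df))) (.leaf (.bwd 11104 31 tpr198.df)))) (.node (.node (.node (.leaf (.fwd 11135 39 tpr1077.df)) (.leaf (.fwd 11174 35 tpr1029.df))) (.leaf (.fwd 11209 24 tpr1056.df))) (.node (.node (.leaf (.fwd 11233 35 tpr1088.df)) (.leaf (.fwd 11268 35 tpr574.df))) (.leaf (.fwd 11303 31 tpr745.df))))) (.node (.node (.node (.node (.leaf (.fwd 11334 28 tpr295.df)) (.leaf (.fwd 11362 34 tpr54.df))) (.leaf (.bwd 11396 48 tpr649.df))) (.node (.node (.leaf (.bwd 11444 31 tpr761.df)) (.leaf (.bwd 11475 31 tpr745.df))) (.leaf (.fwd 11506 29 tpr647.df)))) (.node (.node (.node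 (.leaf (.fwd 11535 47 tpr1038.df)) (.leaf (.fwd 11582 53 tpr1067.df))) (.leaf (.fwd 11635 23 tpr605.df))) (.node (.leaf (.bwd 11658 39 tpr1077.df)) (.leaf (.fwd 11697 29 tpr637.df))))))))))

theorem iiNFzE2ByA3H2AzA2H3AyB2EzF_c : iiNFzE2ByA3H2AzA2H3AyB2EzF.all (itB (ng 60 nnNFzE2ByA3H2AzA2H3AyB2EzF)) = true := by decide +kernel
theorem nbNFzE2ByA3H2AzA2H3AyB2EzF : nbB 60 11786 nnNFzE2ByA3H2AzA2H3AyB2EzF = true := by decide +kernel
theorem topNFzE2ByA3H2AzA2H3AyB2EzF : topY 11786 ttNFzE2ByA3H2AzA2H3AyB2EzF ceNFzE2ByA3H2AzA2H3AyB2EzF xNFzE2ByA3H2AzA2H3AyB2EzF iiNFzE2ByA3H2AzA2H3AyB2EzF = true := by decide +kernel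

end MPb6R
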