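import Pool.Agent.Lib.MP_b6d339_lc.Cw3.YFzE2ByA3H2AzAyB2H3A2EzF
import Pool.Agent.Lib.MP_b6d339_lc.Cw3.XL
import Pool.Agent.Lib.MP_b6d339_lc.Cw3.T0
import Pool.Agent.Lib.MP_b6d339_lc.Cw3.T1
import Pool.Agent.Lib.MP_b6d339_lc.Cw3.T10
import Pool.Agent.Lib.MP_b6d339_lc.Cw3.T11
import Pool.Agent.Lib.MP_b6d339_lc.Cw3.T12
import Pool.Agent.Lib.MP_b6d339_lc.Cw3.T13
import Pool.Agent.Lib.MP_b6d339_lc.Cw3.T14
import Pool.Agent.Lib.MP_b6d339_lc.Cw3.T17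
import Pool.Agent.Lib.MP_b6d339_lc.Cw3.T2
import Pool.Agent.Lib.MP_b6d339_lc.Cw3.T20
import Pool.Agent.Lib.MP_b6d339_lc.Cw3.T22
import Pool.Agent.Lib.MP_b6d339_lc.Cw3.T23
import Pool.Agent.Lib.MP_b6d339_lc.Cw3.T3
import Pool.Agent.Lib.MP_b6d339_lc.Cw3.T4
import Pool.Agent.Lib.MP_b6d339_lc.Cw3.T5
import Pool.Agent.Lib.MP_b6d339_lc.Cw3.T6
import Pool.Agent.Lib.MP_b6d339_lc.Cw3.T7
import Pool.Agent.Lib.MP_b6d339_lc.Cw3.T8
import Pool.Agent.Lib.MP_b6d339_lc.Cw3.T9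

/-!
# Erdős 592, three levels: items
-/

namespace MPb6R

open MPb6P

noncomputable def iiNFzE2ByA3H2AzAyB2H3A2EzF : BT Itm := (.node (.node (.node (.node (.node (.node (.node (.node (.node (.leaf (.fwd 0 23 tpr5.df)) (.leaf (.fwd 23 13 tpr500.df))) (.leaf (.bwd 36 27 tpr499.df))) (.node (.leaf (.fwd 63 21 tpr8.df)) (.leaf (.fwd 84 27 tpr82.df)))) (.node (.node (.leaf (.fwd 111 37 tpr555.df)) (.leaf (.bwd 148 27 tpr82.df))) (.node (.leaf (.fwd 175 35 tpr568.df)) (.leaf (.fwd 210 27 tpr499.df))))) (.node (.node (.node (.node (.leaf (.bwd 237 30 tpr577.df)) (.leaf (.bwd 267 32 tpr17.df))) (.leaf (.fwd 299 33 tpr501.df))) (.node (.leaf (.bwd 332 23 tpr508.df)) (.leaf (.fwd 355 16 tpr168.df)))) (.node (.node (.leaf (.fwd 371 26 tpr516.df)) (.leaf (.bwd 397 26 tpr516.df))) (.node (.leaf (.fwd 423 31 tpr527.df)) (.leaf (.bwd 454 28 tpr507.df)))))) (.node (.node (.node (.node (.node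 (.leaf (.fwd 482 31 tpr576.df)) (.leaf (.fwd 513 29 tpr608.df))) (.leaf (.fwd 542 31 tpr198.df))) (.node (.leaf (.fwd 573 19 tpr616.df)) (.leaf (.fwd 592 23 tpr605.df)))) (.node (.node (.leaf (.bwd 615 31 tpr607.df)) (.leaf (.fwd 646 32 tpr251.df))) (.node (.leaf (.bwd 678 31 tpr517.df)) (.leaf (.bwd 709 27 tpr506.df))))) (.node (.node (.node (.leaf (.bwd 736 36 tpr547.df)) (.leaf (.fwd 772 45 tpr596.df))) (.node (.leaf (.fwd 817 30 tpr613.df)) (.leaf (.fwd 847 34 tpr614.df)))) (.node (.node (.leaf (.fwd 881 22 tpr515.df)) (.leaf (.bwd 903 37 tpr555.df))) (.node (.leaf (.fwd 940 45 tpr611.df)) (.leaf (.fwd 985 34 tpr619.df))))))) (.node (.node (.node (.node (.node (.node (.leaf (.fwd 1019 33 tpr44.df)) (.leaf (.fwd 1052 34 tpr548.df))) (.leaf (.bwd 1086 44 tpr592.df))) (.node (.leaf (.fwd 1130 31 tpr606.df)) (.leaf (.bwd 1161 49 tpr960.df)))) (.node (.node (.leaf (.bwd 1210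 26 tpr675.df)) (.leaf (.bwd 1236 37 tpr556.df))) (.node (.leaf (.fwd 1273 33 tpr968.df)) (.leaf (.bwd 1306 21 tpr72.df))))) (.node (.node (.node (.node (.leaf (.fwd 1327 23 tpr559.df)) (.leaf (.bwd 1350 22 tpr239.df))) (.leaf (.fwd 1372 27 tpr589.df))) (.node (.leaf (.bwd 1399 28 tpr546.df)) (.leaf (.fwd 1427 37 tpr553.df)))) (.node (.node (.leaf (.bwd 1464 39 tpr78.df)) (.leaf (.fwd 1503 29 tpr618.df))) (.node (.leaf (.bwd 1532 39 tpr636.df)) (.leaf (.fwd 1571 37 tpr687.df)))))) (.node (.node (.node (.node (.node (.leaf (.fwd 1608 42 tpr733.df)) (.leaf (.bwd 1650 40 tpr705.df))) (.leaf (.bwd 1690 43 tpr566.df))) (.node (.leaf (.bwd 1733 52 tpr1839.df)) (.leaf (.fwd 1785 32 tpr247.df)))) (.node (.node (.leaf (.fwd 1817 29 tpr641.df)) (.leaf (.bwd 1846 34 tpr15.df))) (.node (.leaf (.fwd 1880 30 tpr537.df)) (.leaf (.bwd 1910 31 tpr167.df))))) (.node (.node (.node (.leaf (.bwd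 1941 32 tpr1065.df)) (.leaf (.bwd 1973 22 tpr959.df))) (.node (.leaf (.fwd 1995 31 tpr704.df)) (.leaf (.bwd 2026 57 tpr1841.df)))) (.node (.node (.leaf (.fwd 2083 36 tpr75.df)) (.leaf (.bwd 2119 23 tpr133.df))) (.node (.leaf (.bwd 2142 36 tpr935.df)) (.leaf (.bwd 2178 48 tpr684.df)))))))) (.node (.node (.node (.node (.node (.node (.node (.leaf (.bwd 2226 44 tpr725.df)) (.leaf (.fwd 2270 39 tpr701.df))) (.leaf (.bwd 2309 35 tpr123.df))) (.node (.leaf (.fwd 2344 59 tpr803.df)) (.leaf (.fwd 2403 39 tpr962.df)))) (.node (.node (.leaf (.bwd 2442 60 tpr630.df)) (.leaf (.bwd 2502 35 tpr1028.df))) (.node (.leaf (.fwd 2537 61 tpr695.df)) (.leaf (.bwd 2598 31 tpr21.df))))) (.node (.node (.node (.node (.leaf (.fwd 2629 34 tpr92.df)) (.leaf (.fwd 2663 40 tpr966.df))) (.leaf (.fwd 2703 27 tpr131.df))) (.node (.leaf (.bwd 2730 33 tpr28.df)) (.leaf (.bwd 2763 38 tpr1137.df)))) (.node (.node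 (.leaf (.bwd 2801 33 tpr31.df)) (.leaf (.bwd 2834 37 tpr406.df))) (.node (.leaf (.bwd 2871 35 tpr954.df)) (.leaf (.bwd 2906 36 tpr244.df)))))) (.node (.node (.node (.node (.node (.leaf (.fwd 2942 24 tpr931.df)) (.leaf (.fwd 2966 42 tpr1138.df))) (.leaf (.fwd 3008 52 tpr814.df))) (.node (.leaf (.bwd 3060 53 tpr815.df)) (.leaf (.bwd 3113 34 tpr1842.df)))) (.node (.node (.leaf (.fwd 3147 44 tpr150.df)) (.leaf (.bwd 3191 27 tpr236.df))) (.node (.leaf (.fwd 3218 25 tpr51.df)) (.leaf (.fwd 3243 23 tpr12.df))))) (.node (.node (.node (.leaf (.bwd 3266 20 tpr48.df)) (.leaf (.fwd 3286 29 tpr570.df))) (.node (.leaf (.fwd 3315 40 tpr32.df)) (.leaf (.fwd 3355 24 tpr609.df)))) (.node (.node (.leaf (.bwd 3379 29 tpr9.df)) (.leaf (.bwd 3408 41 tpr188.df))) (.node (.leaf (.bwd 3449 22 tpr953.df)) (.leaf (.fwd 3471 41 tpr965.df))))))) (.node (.node (.node (.node (.node (.node (.leaf (.bwd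 3512 30 tpr626.df)) (.leaf (.fwd 3542 21 tpr50.df))) (.leaf (.bwd 3563 14 tpr49.df))) (.node (.leaf (.fwd 3577 34 tpr54.df)) (.leaf (.bwd 3611 29 tpr582.df)))) (.node (.node (.leaf (.fwd 3640 38 tpr526.df)) (.leaf (.bwd 3678 25 tpr10.df))) (.node (.leaf (.fwd 3703 29 tpr46.df)) (.leaf (.bwd 3732 28 tpr223.df))))) (.node (.node (.node (.leaf (.bwd 3760 19 tpr429.df)) (.leaf (.bwd 3779 19 tpr33.df))) (.node (.leaf (.bwd 3798 41 tpr97.df)) (.leaf (.bwd 3839 16 tpr804.df)))) (.node (.node (.leaf (.fwd 3855 27 tpr562.df)) (.leaf (.bwd 3882 35 tpr29.df))) (.node (.leaf (.bwd 3917 38 tpr6.df)) (.leaf (.bwd 3955 46 tpr116.df)))))) (.node (.node (.node (.node (.node (.leaf (.fwd 4001 20 tpr216.df)) (.leaf (.fwd 4021 33 tpr35.df))) (.leaf (.bwd 4054 32 tpr39.df))) (.node (.leaf (.fwd 4086 38 tpr105.df)) (.leaf (.fwd 4124 32 tpr61.df)))) (.node (.node (.leaf (.fwd 4156 25 tpr95.df))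 (.leaf (.fwd 4181 18 tpr161.df))) (.node (.leaf (.bwd 4199 17 tpr144.df)) (.leaf (.fwd 4216 30 tpr45.df))))) (.node (.node (.node (.leaf (.bwd 4246 19 tpr47.df)) (.leaf (.fwd 4265 32 tpr115.df))) (.node (.leaf (.bwd 4297 31 tpr939.df)) (.leaf (.bwd 4328 33 tpr221.df)))) (.node (.node (.leaf (.bwd 4361 34 tpr114.df)) (.leaf (.bwd 4395 28 tpr40.df))) (.node (.leaf (.bwd 4423 32 tpr113.df)) (.leaf (.bwd 4455 44 tpr1845.df))))))))) (.node (.node (.node (.node (.node (.node (.node (.node (.leaf (.bwd 4499 34 tpr1363.df)) (.leaf (.bwd 4533 21 tpr8.df))) (.leaf (.bwd 4554 20 tpr505.df))) (.node (.leaf (.bwd 4574 29 tpr22.df)) (.leaf (.bwd 4603 35 tpr585.df)))) (.node (.node (.leaf (.fwd 4638 29 tpr623.df)) (.leaf (.fwd 4667 42 tpr1196.df))) (.node (.leaf (.bwd 4709 32 tpr518.df)) (.leaf (.bwd 4741 41 tpr1126.df))))) (.node (.node (.node (.node (.leaf (.fwd 4782 39 tpr1112.df)) (.leaf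 (.bwd 4821 58 tpr1143.df))) (.leaf (.bwd 4879 38 tpr203.df))) (.node (.leaf (.fwd 4917 38 tpr203.df)) (.leaf (.fwd 4955 44 tpr617.df)))) (.node (.node (.leaf (.fwd 4999 23 tpr508.df)) (.leaf (.bwd 5022 24 tpr609.df))) (.node (.leaf (.bwd 5046 45 tpr740.df)) (.leaf (.fwd 5091 39 tpr210.df)))))) (.node (.node (.node (.node (.node (.leaf (.bwd 5130 32 tpr294.df)) (.leaf (.bwd 5162 28 tpr511.df))) (.leaf (.bwd 5190 21 tpr629.df))) (.node (.leaf (.fwd 5211 36 tpr547.df)) (.leaf (.bwd 5247 31 tpr527.df)))) (.node (.node (.leaf (.fwd 5278 41 tpr502.df)) (.leaf (.bwd 5319 39 tpr615.df))) (.node (.leaf (.fwd 5358 41 tpr624.df)) (.leaf (.bwd 5399 37 tpr706.df))))) (.node (.node (.node (.leaf (.fwd 5436 20 tpr103.df)) (.leaf (.fwd 5456 34 tpr748.df))) (.node (.leaf (.bwd 5490 27 tpr562.df)) (.leaf (.bwd 5517 22 tpr504.df)))) (.node (.node (.leaf (.bwd 5539 30 tpr513.df)) (.leaf (.fwd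 5569 29 tpr656.df))) (.node (.leaf (.fwd 5598 29 tpr9.df)) (.leaf (.bwd 5627 31 tpr606.df))))))) (.node (.node (.node (.node (.node (.node (.leaf (.fwd 5658 31 tpr167.df)) (.leaf (.fwd 5689 27 tpr236.df))) (.leaf (.fwd 5716 17 tpr16.df))) (.node (.leaf (.bwd 5733 39 tpr81.df)) (.leaf (.bwd 5772 56 tpr87.df)))) (.node (.node (.leaf (.bwd 5828 42 tpr612.df)) (.leaf (.fwd 5870 20 tpr48.df))) (.node (.leaf (.fwd 5890 25 tpr74.df)) (.leaf (.bwd 5915 24 tpr743.df))))) (.node (.node (.node (.leaf (.fwd 5939 37 tpr621.df)) (.leaf (.fwd 5976 31 tpr339.df))) (.node (.leaf (.fwd 6007 29 tpr637.df)) (.leaf (.fwd 6036 22 tpr536.df)))) (.node (.node (.leaf (.fwd 6058 42 tpr344.df)) (.leaf (.fwd 6100 37 tpr720.df))) (.node (.leaf (.fwd 6137 38 tpr393.df)) (.leaf (.bwd 6175 43 tpr122.df)))))) (.node (.node (.node (.node (.node (.leaf (.fwd 6218 33 tpr680.df)) (.leaf (.fwd 6251 30 tpr26.df)))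 (.leaf (.fwd 6281 41 tpr549.df))) (.node (.leaf (.fwd 6322 38 tpr265.df)) (.leaf (.fwd 6360 29 tpr22.df)))) (.node (.node (.leaf (.fwd 6389 32 tpr620.df)) (.leaf (.fwd 6421 27 tpr625.df))) (.node (.leaf (.bwd 6448 45 tpr596.df)) (.leaf (.fwd 6493 27 tpr506.df))))) (.node (.node (.node (.leaf (.bwd 6520 35 tpr541.df)) (.leaf (.fwd 6555 26 tpr245.df))) (.node (.leaf (.fwd 6581 36 tpr683.df)) (.leaf (.bwd 6617 32 tpr247.df)))) (.node (.node (.leaf (.fwd 6649 36 tpr23.df)) (.leaf (.fwd 6685 28 tpr1018.df))) (.node (.leaf (.bwd 6713 33 tpr646.df)) (.leaf (.bwd 6746 61 tpr1141.df)))))))) (.node (.node (.node (.node (.node (.node (.node (.leaf (.fwd 6807 32 tpr1633.df)) (.leaf (.bwd 6839 62 tpr1844.df))) (.leaf (.bwd 6901 40 tpr62.df))) (.node (.leaf (.fwd 6941 37 tpr503.df)) (.leaf (.bwd 6978 41 tpr502.df)))) (.node (.node (.leaf (.fwd 7019 37 tpr523.df)) (.leaf (.fwd 7056 32 tpr294.df)))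 (.node (.leaf (.bwd 7088 26 tpr509.df)) (.leaf (.bwd 7114 38 tpr519.df))))) (.node (.node (.node (.node (.leaf (.fwd 7152 32 tpr518.df)) (.leaf (.fwd 7184 20 tpr505.df))) (.leaf (.bwd 7204 25 tpr106.df))) (.node (.leaf (.bwd 7229 28 tpr1406.df)) (.leaf (.bwd 7257 35 tpr602.df)))) (.node (.node (.leaf (.fwd 7292 28 tpr627.df)) (.leaf (.fwd 7320 31 tpr517.df))) (.node (.leaf (.bwd 7351 28 tpr588.df)) (.leaf (.fwd 7379 35 tpr622.df)))))) (.node (.node (.node (.node (.node (.leaf (.fwd 7414 32 tpr591.df)) (.leaf (.fwd 7446 46 tpr593.df))) (.leaf (.fwd 7492 28 tpr610.df))) (.node (.leaf (.bwd 7520 29 tpr638.df)) (.leaf (.bwd 7549 30 tpr1058.df)))) (.node (.node (.leaf (.bwd 7579 31 tpr576.df)) (.leaf (.bwd 7610 29 tpr545.df))) (.node (.leaf (.fwd 7639 39 tpr514.df)) (.leaf (.fwd 7678 37 tpr520.df))))) (.node (.node (.node (.leaf (.bwd 7715 28 tpr510.df)) (.leaf (.fwd 7743 30 tpr626.df)))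 (.node (.leaf (.bwd 7773 28 tpr967.df)) (.leaf (.fwd 7801 36 tpr672.df)))) (.node (.node (.leaf (.fwd 7837 37 tpr1199.df)) (.leaf (.fwd 7874 15 tpr525.df))) (.node (.leaf (.fwd 7889 21 tpr25.df)) (.leaf (.fwd 7910 43 tpr676.df))))))) (.node (.node (.node (.node (.node (.node (.leaf (.bwd 7953 30 tpr537.df)) (.leaf (.bwd 7983 41 tpr549.df))) (.leaf (.bwd 8024 34 tpr628.df))) (.node (.leaf (.fwd 8058 34 tpr664.df)) (.leaf (.bwd 8092 36 tpr634.df)))) (.node (.node (.leaf (.fwd 8128 33 tpr631.df)) (.leaf (.bwd 8161 24 tpr667.df))) (.node (.leaf (.fwd 8185 33 tpr521.df)) (.leaf (.fwd 8218 40 tpr597.df))))) (.node (.node (.node (.leaf (.fwd 8258 36 tpr662.df)) (.leaf (.fwd 8294 36 tpr686.df))) (.node (.leaf (.fwd 8330 32 tpr674.df)) (.leaf (.bwd 8362 33 tpr689.df)))) (.node (.node (.leaf (.fwd 8395 25 tpr679.df)) (.leaf (.bwd 8420 36 tpr1194.df))) (.node (.leaf (.bwd 8456 40 tpr1002.df))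 (.leaf (.bwd 8496 34 tpr1822.df)))))) (.node (.node (.node (.node (.node (.leaf (.fwd 8530 33 tpr1664.df)) (.leaf (.fwd 8563 37 tpr571.df))) (.leaf (.bwd 8600 36 tpr1813.df))) (.node (.leaf (.bwd 8636 37 tpr583.df)) (.leaf (.fwd 8673 30 tpr989.df)))) (.node (.node (.leaf (.fwd 8703 37 tpr639.df)) (.leaf (.fwd 8740 29 tpr666.df))) (.node (.leaf (.fwd 8769 30 tpr1809.df)) (.leaf (.fwd 8799 40 tpr670.df))))) (.node (.node (.node (.leaf (.bwd 8839 29 tpr647.df)) (.leaf (.fwd 8868 33 tpr538.df))) (.node (.leaf (.bwd 8901 36 tpr23.df)) (.leaf (.bwd 8937 51 tpr1142.df)))) (.node (.node (.leaf (.fwd 8988 28 tpr511.df)) (.leaf (.bwd 9016 43 tpr734.df))) (.node (.leaf (.bwd 9059 60 tpr1145.df)) (.leaf (.fwd 9119 34 tpr628.df))))))))))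

theorem iiNFzE2ByA3H2AzAyB2H3A2EzF_c : iiNFzE2ByA3H2AzAyB2H3A2EzF.all (itB (ng 62 nnNFzE2ByA3H2AzAyB2H3A2EzF)) = true := by decide +kernel
theorem nbNFzE2ByA3H2AzAyB2H3A2EzF : nbB 62 9215 nnNFzE2ByA3H2AzAyB2H3A2EzF = true := by decide +kernel
theorem topNFzE2ByA3H2AzAyB2H3A2EzF : topY 9215 ttNFzE2ByA3H2AzAyB2H3A2EzF ceNFzE2ByA3H2AzAyB2H3A2EzF xNFzE2ByA3H2AzAyB2H3A2EzF iiNFzE2ByA3H2AzAyB2H3A2EzF = true := by decide +kernel

end MPb6R
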