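import Pool.Agent.Lib.MP_b6d339_lc.Cw3.YFzE2ByA3H2AzAyB2H3AyB2EzF
import Pool.Agent.Lib.MP_b6d339_lc.Cw3.XL
import Pool.Agent.Lib.MP_b6d339_lc.Cw3.T0
import Pool.Agent.Lib.MP_b6d339_lc.Cw3.T1
import Pool.Agent.Lib.MP_b6d339_lc.Cw3.T10
import Pool.Agent.Lib.MP_b6d339_lc.Cw3.T11
import Pool.Agent.Lib.MP_b6d339_lc.Cw3.T12
import Pool.Agent.Lib.MP_b6d339_lc.Cw3.T13
import Pool.Agent.Lib.MP_b6d339_lc.Cw3.T14
import Pool.Agent.Lib.MP_b6d339_lc.Cw3.T2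
import Pool.Agent.Lib.MP_b6d339_lc.Cw3.T21
import Pool.Agent.Lib.MP_b6d339_lc.Cw3.T3
import Pool.Agent.Lib.MP_b6d339_lc.Cw3.T5
import Pool.Agent.Lib.MP_b6d339_lc.Cw3.T6
import Pool.Agent.Lib.MP_b6d339_lc.Cw3.T7
import Pool.Agent.Lib.MP_b6d339_lc.Cw3.T8
import Pool.Agent.Lib.MP_b6d339_lc.Cw3.T9

/-!
# Erdős 592, three levels: items
-/

namespace MPb6R

open MPb6P

noncomputable def iiNFzE2ByA3H2AzAyB2H3AyB2EzF : BT Itm := (.node (.node (.node (.node (.node (.node (.node (.node (.leaf (.bwd 0 23 tpr5.df)) (.leaf (.fwd 23 27 tpr82.df))) (.node (.leaf (.bwd 50 30 tpr577.df)) (.leaf (.bwd 80 27 tpr82.df)))) (.node (.node (.leaf (.fwd 107 13 tpr500.df)) (.leaf (.bwd 120 22 tpr239.df))) (.node (.leaf (.fwd 142 31 tpr606.df)) (.leaf (.fwd 173 33 tpr501.df))))) (.node (.node (.node (.leaf (.fwd 206 31 tpr527.df)) (.leaf (.bwd 237 24 tpr609.df))) (.node (.leaf (.fwd 261 32 tpr518.df))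 (.leaf (.fwd 293 32 tpr17.df)))) (.node (.node (.leaf (.fwd 325 22 tpr239.df)) (.leaf (.fwd 347 26 tpr516.df))) (.node (.leaf (.bwd 373 32 tpr518.df)) (.leaf (.fwd 405 31 tpr517.df)))))) (.node (.node (.node (.node (.leaf (.bwd 436 37 tpr555.df)) (.leaf (.fwd 473 39 tpr701.df))) (.node (.leaf (.fwd 512 37 tpr555.df)) (.leaf (.fwd 549 38 tpr203.df)))) (.node (.node (.leaf (.bwd 587 31 tpr527.df)) (.leaf (.bwd 618 21 tpr90.df))) (.node (.leaf (.fwd 639 39 tpr210.df)) (.leaf (.bwd 678 31 tpr517.df))))) (.node (.node (.node (.leaf (.fwd 709 45 tpr596.df)) (.leaf (.fwd 754 33 tpr680.df))) (.node (.leaf (.fwd 787 36 tpr683.df)) (.leaf (.bwd 823 16 tpr168.df)))) (.node (.node (.leaf (.fwd 839 36 tpr547.df)) (.leaf (.fwd 875 45 tpr611.df))) (.node (.leaf (.fwd 920 29 tpr623.df)) (.leaf (.fwd 949 27 tpr236.df))))))) (.node (.node (.node (.node (.node (.leaf (.fwd 976 39 tpr615.df))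 (.leaf (.fwd 1015 25 tpr1016.df))) (.node (.leaf (.fwd 1040 23 tpr605.df)) (.leaf (.bwd 1063 48 tpr684.df)))) (.node (.node (.leaf (.bwd 1111 28 tpr563.df)) (.leaf (.fwd 1139 19 tpr429.df))) (.node (.leaf (.bwd 1158 34 tpr628.df)) (.leaf (.fwd 1192 33 tpr968.df))))) (.node (.node (.node (.leaf (.bwd 1225 39 tpr701.df)) (.leaf (.fwd 1264 32 tpr247.df))) (.node (.leaf (.bwd 1296 37 tpr1052.df)) (.leaf (.bwd 1333 32 tpr251.df)))) (.node (.node (.leaf (.fwd 1365 42 tpr733.df)) (.leaf (.bwd 1407 35 tpr541.df))) (.node (.leaf (.bwd 1442 35 tpr658.df)) (.leaf (.fwd 1477 34 tpr748.df)))))) (.node (.node (.node (.node (.leaf (.bwd 1511 28 tpr721.df)) (.leaf (.fwd 1539 25 tpr679.df))) (.node (.leaf (.fwd 1564 39 tpr962.df)) (.leaf (.bwd 1603 28 tpr967.df)))) (.node (.node (.leaf (.fwd 1631 51 tpr1023.df)) (.leaf (.bwd 1682 25 tpr1104.df))) (.node (.leaf (.fwd 1707 42 tpr1138.df))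 (.leaf (.bwd 1749 24 tpr635.df))))) (.node (.node (.node (.leaf (.bwd 1773 35 tpr585.df)) (.leaf (.bwd 1808 35 tpr1028.df))) (.node (.leaf (.fwd 1843 29 tpr637.df)) (.leaf (.fwd 1872 38 tpr1100.df)))) (.node (.node (.leaf (.bwd 1910 56 tpr1110.df)) (.leaf (.bwd 1966 37 tpr706.df))) (.leaf (.bwd 2003 38 tpr1137.df))))))) (.node (.node (.node (.node (.node (.node (.leaf (.bwd 2041 35 tpr954.df)) (.leaf (.bwd 2076 49 tpr1120.df))) (.node (.leaf (.bwd 2125 54 tpr1026.df)) (.leaf (.fwd 2179 21 tpr1132.df)))) (.node (.node (.leaf (.bwd 2200 61 tpr1141.df)) (.leaf (.fwd 2261 29 tpr1072.df))) (.node (.leaf (.bwd 2290 19 tpr1103.df)) (.leaf (.fwd 2309 16 tpr168.df))))) (.node (.node (.node (.leaf (.bwd 2325 27 tpr506.df)) (.leaf (.fwd 2352 21 tpr8.df))) (.node (.leaf (.fwd 2373 27 tpr506.df)) (.leaf (.bwd 2400 27 tpr236.df)))) (.node (.node (.leaf (.fwd 2427 24 tpr609.df)) (.leaf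 (.fwd 2451 23 tpr12.df))) (.node (.leaf (.fwd 2474 27 tpr562.df)) (.leaf (.fwd 2501 29 tpr570.df)))))) (.node (.node (.node (.node (.leaf (.fwd 2530 34 tpr54.df)) (.leaf (.bwd 2564 22 tpr572.df))) (.node (.leaf (.fwd 2586 31 tpr167.df)) (.leaf (.bwd 2617 29 tpr9.df)))) (.node (.node (.leaf (.bwd 2646 27 tpr625.df)) (.leaf (.fwd 2673 41 tpr965.df))) (.node (.leaf (.fwd 2714 35 tpr541.df)) (.leaf (.bwd 2749 29 tpr637.df))))) (.node (.node (.node (.leaf (.bwd 2778 35 tpr89.df)) (.leaf (.fwd 2813 24 tpr912.df))) (.node (.leaf (.bwd 2837 41 tpr188.df)) (.leaf (.bwd 2878 23 tpr133.df)))) (.node (.node (.leaf (.fwd 2901 35 tpr91.df)) (.leaf (.fwd 2936 32 tpr620.df))) (.leaf (.fwd 2968 59 tpr803.df)))))) (.node (.node (.node (.node (.node (.leaf (.fwd 3027 36 tpr573.df)) (.leaf (.bwd 3063 22 tpr20.df))) (.node (.leaf (.fwd 3085 60 tpr1036.df)) (.leaf (.bwd 3145 42 tpr1019.df))))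 (.node (.node (.leaf (.bwd 3187 41 tpr1123.df)) (.leaf (.bwd 3228 34 tpr548.df))) (.node (.leaf (.fwd 3262 23 tpr780.df)) (.leaf (.bwd 3285 20 tpr505.df))))) (.node (.node (.node (.leaf (.bwd 3305 29 tpr618.df)) (.leaf (.fwd 3334 28 tpr1021.df))) (.node (.leaf (.bwd 3362 29 tpr22.df)) (.leaf (.bwd 3391 37 tpr1022.df)))) (.node (.node (.leaf (.fwd 3428 34 tpr628.df)) (.leaf (.fwd 3462 46 tpr1105.df))) (.node (.leaf (.bwd 3508 22 tpr953.df)) (.leaf (.bwd 3530 33 tpr501.df)))))) (.node (.node (.node (.node (.leaf (.fwd 3563 26 tpr222.df)) (.leaf (.fwd 3589 26 tpr700.df))) (.node (.leaf (.bwd 3615 27 tpr562.df)) (.leaf (.bwd 3642 35 tpr969.df)))) (.node (.node (.leaf (.fwd 3677 32 tpr1111.df)) (.leaf (.fwd 3709 44 tpr617.df))) (.node (.leaf (.fwd 3753 28 tpr627.df)) (.leaf (.fwd 3781 33 tpr645.df))))) (.node (.node (.node (.leaf (.fwd 3814 39 tpr1112.df)) (.leaf (.bwd 3853 58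 tpr1143.df))) (.node (.leaf (.bwd 3911 45 tpr596.df)) (.leaf (.bwd 3956 29 tpr656.df)))) (.node (.node (.leaf (.fwd 3985 27 tpr625.df)) (.leaf (.bwd 4012 21 tpr8.df))) (.leaf (.fwd 4033 29 tpr656.df)))))))) (.node (.node (.node (.node (.node (.node (.node (.leaf (.fwd 4062 29 tpr9.df)) (.leaf (.bwd 4091 42 tpr612.df))) (.node (.leaf (.fwd 4133 21 tpr90.df)) (.leaf (.fwd 4154 31 tpr198.df)))) (.node (.node (.leaf (.bwd 4185 29 tpr608.df)) (.leaf (.fwd 4214 28 tpr610.df))) (.node (.leaf (.fwd 4242 33 tpr44.df)) (.leaf (.bwd 4275 35 tpr703.df))))) (.node (.node (.node (.leaf (.fwd 4310 34 tpr548.df)) (.leaf (.fwd 4344 36 tpr23.df))) (.node (.leaf (.fwd 4380 29 tpr641.df)) (.leaf (.fwd 4409 41 tpr1135.df)))) (.node (.node (.leaf (.bwd 4450 33 tpr646.df)) (.leaf (.bwd 4483 39 tpr210.df))) (.node (.leaf (.fwd 4522 29 tpr618.df)) (.leaf (.fwd 4551 35 tpr1015.df)))))) (.node (.node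 (.node (.node (.leaf (.fwd 4586 40 tpr597.df)) (.leaf (.fwd 4626 25 tpr739.df))) (.node (.leaf (.fwd 4651 41 tpr624.df)) (.leaf (.fwd 4692 23 tpr508.df)))) (.node (.node (.leaf (.bwd 4715 33 tpr680.df)) (.leaf (.fwd 4748 40 tpr966.df))) (.node (.leaf (.bwd 4788 29 tpr692.df)) (.leaf (.fwd 4817 33 tpr631.df))))) (.node (.node (.node (.leaf (.bwd 4850 38 tpr203.df)) (.leaf (.fwd 4888 28 tpr511.df))) (.node (.leaf (.fwd 4916 26 tpr675.df)) (.leaf (.bwd 4942 28 tpr610.df)))) (.node (.node (.leaf (.fwd 4970 39 tpr636.df)) (.leaf (.bwd 5009 37 tpr1064.df))) (.leaf (.fwd 5046 32 tpr251.df)))))) (.node (.node (.node (.node (.node (.leaf (.bwd 5078 31 tpr606.df)) (.leaf (.bwd 5109 41 tpr502.df))) (.node (.leaf (.bwd 5150 27 tpr589.df)) (.leaf (.bwd 5177 32 tpr620.df)))) (.node (.node (.leaf (.fwd 5209 32 tpr294.df)) (.leaf (.fwd 5241 34 tpr1062.df))) (.node (.leaf (.bwd 5275 21 tpr1108.df))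 (.leaf (.fwd 5296 42 tpr812.df))))) (.node (.node (.node (.leaf (.bwd 5338 37 tpr583.df)) (.leaf (.fwd 5375 29 tpr582.df))) (.node (.leaf (.fwd 5404 30 tpr235.df)) (.leaf (.bwd 5434 35 tpr1054.df)))) (.node (.node (.leaf (.bwd 5469 43 tpr1144.df)) (.leaf (.fwd 5512 28 tpr1013.df))) (.node (.leaf (.bwd 5540 25 tpr1016.df)) (.leaf (.bwd 5565 35 tpr554.df)))))) (.node (.node (.node (.node (.leaf (.fwd 5600 30 tpr1024.df)) (.leaf (.fwd 5630 28 tpr1032.df))) (.node (.leaf (.fwd 5658 25 tpr1130.df)) (.leaf (.bwd 5683 29 tpr641.df)))) (.node (.node (.leaf (.bwd 5712 41 tpr1126.df)) (.leaf (.bwd 5753 30 tpr1024.df))) (.node (.leaf (.bwd 5783 48 tpr1748.df)) (.leaf (.fwd 5831 35 tpr1029.df))))) (.node (.node (.node (.leaf (.bwd 5866 28 tpr1032.df)) (.leaf (.bwd 5894 27 tpr1068.df))) (.node (.leaf (.fwd 5921 41 tpr1148.df)) (.leaf (.fwd 5962 35 tpr89.df)))) (.node (.node (.leaf (.fwd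 5997 52 tpr1071.df)) (.leaf (.bwd 6049 35 tpr1154.df))) (.leaf (.fwd 6084 29 tpr22.df))))))) (.node (.node (.node (.node (.node (.node (.leaf (.bwd 6113 32 tpr17.df)) (.leaf (.fwd 6145 29 tpr608.df))) (.node (.leaf (.bwd 6174 26 tpr516.df)) (.leaf (.fwd 6200 27 tpr589.df)))) (.node (.node (.leaf (.bwd 6227 35 tpr1015.df)) (.leaf (.bwd 6262 26 tpr700.df))) (.node (.leaf (.fwd 6288 30 tpr577.df)) (.leaf (.bwd 6318 25 tpr679.df))))) (.node (.node (.node (.leaf (.fwd 6343 42 tpr1019.df)) (.leaf (.bwd 6385 34 tpr619.df))) (.node (.leaf (.fwd 6419 34 tpr614.df)) (.leaf (.bwd 6453 39 tpr615.df)))) (.node (.node (.leaf (.bwd 6492 26 tpr675.df)) (.leaf (.fwd 6518 42 tpr1050.df))) (.node (.leaf (.bwd 6560 32 tpr294.df)) (.leaf (.bwd 6592 37 tpr503.df)))))) (.node (.node (.node (.node (.leaf (.bwd 6629 39 tpr636.df)) (.leaf (.bwd 6668 36 tpr547.df))) (.node (.leaf (.bwd 6704 39 tpr514.df))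 (.leaf (.bwd 6743 37 tpr556.df)))) (.node (.node (.leaf (.bwd 6780 31 tpr745.df)) (.leaf (.fwd 6811 37 tpr1075.df))) (.node (.leaf (.bwd 6848 33 tpr631.df)) (.leaf (.fwd 6881 37 tpr1052.df))))) (.node (.node (.node (.leaf (.bwd 6918 31 tpr576.df)) (.leaf (.bwd 6949 40 tpr62.df))) (.node (.leaf (.bwd 6989 34 tpr614.df)) (.leaf (.fwd 7023 34 tpr619.df)))) (.node (.node (.leaf (.bwd 7057 31 tpr704.df)) (.leaf (.fwd 7088 28 tpr546.df))) (.leaf (.fwd 7116 31 tpr704.df)))))) (.node (.node (.node (.node (.node (.leaf (.bwd 7147 30 tpr1037.df)) (.leaf (.fwd 7177 21 tpr25.df))) (.node (.leaf (.fwd 7198 38 tpr519.df)) (.leaf (.fwd 7236 44 tpr1069.df)))) (.node (.node (.leaf (.fwd 7280 47 tpr1070.df)) (.leaf (.bwd 7327 33 tpr521.df))) (.node (.leaf (.fwd 7360 30 tpr983.df)) (.leaf (.bwd 7390 37 tpr1004.df))))) (.node (.node (.node (.leaf (.bwd 7427 40 tpr1066.df)) (.leaf (.fwd 7467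 37 tpr687.df))) (.node (.leaf (.fwd 7504 37 tpr553.df)) (.leaf (.fwd 7541 39 tpr514.df)))) (.node (.node (.leaf (.fwd 7580 37 tpr503.df)) (.leaf (.fwd 7617 31 tpr576.df))) (.node (.leaf (.bwd 7648 27 tpr499.df)) (.leaf (.fwd 7675 25 tpr1031.df)))))) (.node (.node (.node (.node (.leaf (.bwd 7700 31 tpr557.df)) (.leaf (.bwd 7731 29 tpr582.df))) (.node (.leaf (.bwd 7760 36 tpr665.df)) (.leaf (.bwd 7796 28 tpr223.df)))) (.node (.node (.leaf (.bwd 7824 23 tpr640.df)) (.leaf (.bwd 7847 29 tpr1171.df))) (.node (.leaf (.fwd 7876 41 tpr188.df)) (.leaf (.fwd 7917 30 tpr727.df))))) (.node (.node (.node (.leaf (.bwd 7947 30 tpr1169.df)) (.leaf (.fwd 7977 41 tpr1041.df))) (.node (.leaf (.bwd 8018 41 tpr1125.df)) (.leaf (.fwd 8059 54 tpr1090.df)))) (.node (.node (.leaf (.bwd 8113 25 tpr1031.df)) (.leaf (.bwd 8138 28 tpr1013.df))) (.leaf (.bwd 8166 37 tpr687.df)))))))))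

theorem iiNFzE2ByA3H2AzAyB2H3AyB2EzF_c : iiNFzE2ByA3H2AzAyB2H3AyB2EzF.all (itB (ng 61 nnNFzE2ByA3H2AzAyB2H3AyB2EzF)) = true := by decide +kernel
theorem nbNFzE2ByA3H2AzAyB2H3AyB2EzF : nbB 61 8264 nnNFzE2ByA3H2AzAyB2H3AyB2EzF = true := by decide +kernel
theorem topNFzE2ByA3H2AzAyB2H3AyB2EzF : topY 8264 ttNFzE2ByA3H2AzAyB2H3AyB2EzF ceNFzE2ByA3H2AzAyB2H3AyB2EzF xNFzE2ByA3H2AzAyB2H3AyB2EzF iiNFzE2ByA3H2AzAyB2H3AyB2EzF = true := by decide +kernel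

end MPb6R
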