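import Pool.Agent.Lib.MP_b6d339_lc.Cw3.YFzE2ByA3H2AzIzA2H3A2AzAyBzF
import Pool.Agent.Lib.MP_b6d339_lc.Cw3.XL
import Pool.Agent.Lib.MP_b6d339_lc.Cw3.T0
import Pool.Agent.Lib.MP_b6d339_lc.Cw3.T1
import Pool.Agent.Lib.MP_b6d339_lc.Cw3.T10
import Pool.Agent.Lib.MP_b6d339_lc.Cw3.T11
import Pool.Agent.Lib.MP_b6d339_lc.Cw3.T12
import Pool.Agent.Lib.MP_b6d339_lc.Cw3.T15
import Pool.Agent.Lib.MP_b6d339_lc.Cw3.T16
import Pool.Agent.Lib.MP_b6d339_lc.Cw3.T17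
import Pool.Agent.Lib.MP_b6d339_lc.Cw3.T2
import Pool.Agent.Lib.MP_b6d339_lc.Cw3.T21
import Pool.Agent.Lib.MP_b6d339_lc.Cw3.T25
import Pool.Agent.Lib.MP_b6d339_lc.Cw3.T26
import Pool.Agent.Lib.MP_b6d339_lc.Cw3.T29
import Pool.Agent.Lib.MP_b6d339_lc.Cw3.T3
import Pool.Agent.Lib.MP_b6d339_lc.Cw3.T30
import Pool.Agent.Lib.MP_b6d339_lc.Cw3.T31
import Pool.Agent.Lib.MP_b6d339_lc.Cw3.T32
import Pool.Agent.Lib.MP_b6d339_lc.Cw3.T33
import Pool.Agent.Lib.MP_b6d339_lc.Cw3.T36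
import Pool.Agent.Lib.MP_b6d339_lc.Cw3.T5
import Pool.Agent.Lib.MP_b6d339_lc.Cw3.T6
import Pool.Agent.Lib.MP_b6d339_lc.Cw3.T7
import Pool.Agent.Lib.MP_b6d339_lc.Cw3.T8
import Pool.Agent.Lib.MP_b6d339_lc.Cw3.T9

/-!
# Erdős 592, three levels: items
-/

namespace MPb6R

open MPb6P

noncomputable def iiNFzE2ByA3H2AzIzA2H3A2AzAyBzF : BT Itm := (.node (.node (.node (.node (.node (.node (.node (.leaf (.fwd 0 13 tpr500.df)) (.leaf (.fwd 13 16 tpr168.df))) (.node (.leaf (.bwd 29 13 tpr500.df)) (.leaf (.fwd 42 23 tpr5.df)))) (.node (.node (.leaf (.bwd 65 21 tpr90.df)) (.leaf (.fwd 86 20 tpr216.df))) (.node (.leaf (.bwd 106 21 tpr72.df)) (.leaf (.fwd 127 23 tpr12.df))))) (.node (.node (.node (.leaf (.fwd 150 35 tpr259.df)) (.leaf (.bwd 185 27 tpr506.df))) (.node (.leaf (.bwd 212 25 tpr106.df)) (.leaf (.bwd 237 20 tpr48.df)))) (.node (.node (.leaf (.bwd 257 37 tpr583.df))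 (.leaf (.bwd 294 17 tpr144.df))) (.node (.leaf (.bwd 311 25 tpr10.df)) (.leaf (.bwd 336 16 tpr804.df)))))) (.node (.node (.node (.node (.leaf (.bwd 352 23 tpr133.df)) (.leaf (.bwd 375 41 tpr188.df))) (.node (.leaf (.bwd 416 58 tpr2405.df)) (.leaf (.bwd 474 29 tpr582.df)))) (.node (.node (.leaf (.fwd 503 24 tpr931.df)) (.leaf (.fwd 527 45 tpr596.df))) (.node (.leaf (.bwd 572 33 tpr645.df)) (.leaf (.fwd 605 27 tpr131.df))))) (.node (.node (.node (.leaf (.bwd 632 15 tpr816.df)) (.leaf (.bwd 647 34 tpr748.df))) (.node (.leaf (.fwd 681 27 tpr977.df)) (.leaf (.fwd 708 28 tpr940.df)))) (.node (.node (.leaf (.fwd 736 30 tpr143.df)) (.leaf (.bwd 766 31 tpr2612.df))) (.node (.leaf (.bwd 797 18 tpr2494.df)) (.leaf (.fwd 815 39 tpr479.df))))))) (.node (.node (.node (.node (.node (.leaf (.bwd 854 24 tpr1681.df)) (.leaf (.fwd 878 23 tpr456.df))) (.node (.leaf (.fwd 901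 25 tpr1311.df)) (.leaf (.fwd 926 29 tpr464.df)))) (.node (.node (.leaf (.bwd 955 18 tpr2518.df)) (.leaf (.bwd 973 37 tpr2111.df))) (.node (.leaf (.fwd 1010 31 tpr2571.df)) (.leaf (.bwd 1041 62 tpr2540.df))))) (.node (.node (.node (.leaf (.fwd 1103 31 tpr1305.df)) (.leaf (.bwd 1134 56 tpr242.df))) (.node (.leaf (.bwd 1190 26 tpr1371.df)) (.leaf (.bwd 1216 41 tpr1349.df)))) (.node (.node (.leaf (.fwd 1257 25 tpr51.df)) (.leaf (.bwd 1282 22 tpr20.df))) (.node (.leaf (.bwd 1304 19 tpr33.df)) (.leaf (.fwd 1323 6 tpr4.df)))))) (.node (.node (.node (.node (.leaf (.fwd 1329 34 tpr92.df)) (.leaf (.bwd 1363 25 tpr677.df))) (.node (.leaf (.fwd 1388 21 tpr50.df)) (.leaf (.fwd 1409 24 tpr609.df)))) (.node (.node (.leaf (.bwd 1433 31 tpr557.df)) (.leaf (.bwd 1464 27 tpr788.df))) (.node (.leaf (.fwd 1491 40 tpr32.df)) (.leaf (.bwd 1531 32 tpr113.df))))) (.node (.node (.node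 (.leaf (.fwd 1563 24 tpr147.df)) (.leaf (.bwd 1587 44 tpr1747.df))) (.node (.leaf (.bwd 1631 50 tpr1233.df)) (.leaf (.bwd 1681 20 tpr63.df)))) (.node (.node (.leaf (.fwd 1701 27 tpr1320.df)) (.leaf (.fwd 1728 35 tpr541.df))) (.leaf (.fwd 1763 58 tpr67.df))))))) (.node (.node (.node (.node (.node (.node (.leaf (.fwd 1821 43 tpr1325.df)) (.leaf (.bwd 1864 56 tpr2562.df))) (.node (.leaf (.fwd 1920 56 tpr2520.df)) (.leaf (.bwd 1976 24 tpr1337.df)))) (.node (.node (.leaf (.fwd 2000 50 tpr1309.df)) (.leaf (.bwd 2050 6 tpr4.df))) (.node (.leaf (.fwd 2056 39 tpr2404.df)) (.leaf (.bwd 2095 52 tpr1328.df))))) (.node (.node (.node (.leaf (.bwd 2147 30 tpr1323.df)) (.leaf (.bwd 2177 19 tpr2932.df))) (.node (.leaf (.fwd 2196 43 tpr2024.df)) (.leaf (.fwd 2239 37 tpr1423.df)))) (.node (.node (.leaf (.bwd 2276 31 tpr2595.df)) (.leaf (.fwd 2307 32 tpr115.df))) (.node (.leaf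 (.fwd 2339 24 tpr454.df)) (.leaf (.bwd 2363 31 tpr517.df)))))) (.node (.node (.node (.node (.leaf (.fwd 2394 35 tpr568.df)) (.leaf (.bwd 2429 34 tpr54.df))) (.node (.leaf (.fwd 2463 38 tpr2485.df)) (.leaf (.bwd 2501 36 tpr547.df)))) (.node (.node (.leaf (.fwd 2537 35 tpr91.df)) (.leaf (.fwd 2572 31 tpr2398.df))) (.node (.leaf (.bwd 2603 35 tpr534.df)) (.leaf (.bwd 2638 28 tpr477.df))))) (.node (.node (.node (.leaf (.fwd 2666 44 tpr617.df)) (.leaf (.bwd 2710 28 tpr2031.df))) (.node (.leaf (.bwd 2738 37 tpr782.df)) (.leaf (.bwd 2775 30 tpr2488.df)))) (.node (.node (.leaf (.fwd 2805 35 tpr1313.df)) (.leaf (.bwd 2840 42 tpr812.df))) (.node (.leaf (.fwd 2882 35 tpr485.df)) (.leaf (.fwd 2917 31 tpr1010.df))))))) (.node (.node (.node (.node (.node (.leaf (.fwd 2948 33 tpr35.df)) (.leaf (.bwd 2981 33 tpr28.df))) (.node (.leaf (.fwd 3014 25 tpr95.df)) (.leaf (.bwd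 3039 32 tpr39.df)))) (.node (.node (.leaf (.fwd 3071 29 tpr820.df)) (.leaf (.bwd 3100 31 tpr21.df))) (.node (.leaf (.fwd 3131 59 tpr803.df)) (.leaf (.fwd 3190 37 tpr1359.df))))) (.node (.node (.node (.leaf (.bwd 3227 42 tpr1335.df)) (.leaf (.fwd 3269 61 tpr2671.df))) (.node (.leaf (.fwd 3330 30 tpr1374.df)) (.leaf (.fwd 3360 41 tpr1347.df)))) (.node (.node (.leaf (.fwd 3401 45 tpr611.df)) (.leaf (.fwd 3446 38 tpr1334.df))) (.node (.leaf (.fwd 3484 20 tpr1355.df)) (.leaf (.fwd 3504 45 tpr139.df)))))) (.node (.node (.node (.node (.leaf (.bwd 3549 27 tpr499.df)) (.leaf (.fwd 3576 29 tpr111.df))) (.node (.leaf (.bwd 3605 28 tpr941.df)) (.leaf (.fwd 3633 20 tpr186.df)))) (.node (.node (.leaf (.fwd 3653 34 tpr614.df)) (.leaf (.bwd 3687 27 tpr682.df))) (.node (.leaf (.fwd 3714 42 tpr733.df)) (.leaf (.bwd 3756 24 tpr789.df))))) (.node (.node (.node (.leaf (.fwd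 3780 24 tpr293.df)) (.leaf (.fwd 3804 23 tpr605.df))) (.node (.leaf (.fwd 3827 53 tpr947.df)) (.leaf (.bwd 3880 35 tpr849.df)))) (.node (.node (.leaf (.fwd 3915 51 tpr2934.df)) (.leaf (.bwd 3966 35 tpr29.df))) (.leaf (.fwd 4001 32 tpr737.df))))))))

theorem iiNFzE2ByA3H2AzIzA2H3A2AzAyBzF_c : iiNFzE2ByA3H2AzIzA2H3A2AzAyBzF.all (itB (ng 62 nnNFzE2ByA3H2AzIzA2H3A2AzAyBzF)) = true := by decide +kernel
theorem nbNFzE2ByA3H2AzIzA2H3A2AzAyBzF : nbB 62 4095 nnNFzE2ByA3H2AzIzA2H3A2AzAyBzF = true := by decide +kernel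
theorem topNFzE2ByA3H2AzIzA2H3A2AzAyBzF : topY 4095 ttNFzE2ByA3H2AzIzA2H3A2AzAyBzF ceNFzE2ByA3H2AzIzA2H3A2AzAyBzF xNFzE2ByA3H2AzIzA2H3A2AzAyBzF iiNFzE2ByA3H2AzIzA2H3A2AzAyBzF = true := by decide +kernel

end MPb6R
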