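import Pool.Agent.Lib.MP_b6d339_lc.Cw3.JFzE2ByA3H2AzA2H3A2EzF
import Pool.Agent.Lib.MP_b6d339_lc.Cw3.JFzE2ByA3H2AzA2H3AyB2EzF
import Pool.Agent.Lib.MP_b6d339_lc.Cw3.JFzE2ByA3H2AzAyB2H3A2EzF
import Pool.Agent.Lib.MP_b6d339_lc.Cw3.JFzE2ByA3H2AzAyB2H3AyB2EzF
import Pool.Agent.Lib.MP_b6d339_lc.Cw3.JFzE2ByA3H2AzIzA2H3A2AzAyBzF
import Pool.Agent.Lib.MP_b6d339_lc.Cw3.T0
import Pool.Agent.Lib.MP_b6d339_lc.Cw3.T1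
import Pool.Agent.Lib.MP_b6d339_lc.Cw3.T10
import Pool.Agent.Lib.MP_b6d339_lc.Cw3.T11
import Pool.Agent.Lib.MP_b6d339_lc.Cw3.T12
import Pool.Agent.Lib.MP_b6d339_lc.Cw3.T13
import Pool.Agent.Lib.MP_b6d339_lc.Cw3.T14
import Pool.Agent.Lib.MP_b6d339_lc.Cw3.T15
import Pool.Agent.Lib.MP_b6d339_lc.Cw3.T16
import Pool.Agent.Lib.MP_b6d339_lc.Cw3.T17
import Pool.Agent.Lib.MP_b6d339_lc.Cw3.T18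
import Pool.Agent.Lib.MP_b6d339_lc.Cw3.T2
import Pool.Agent.Lib.MP_b6d339_lc.Cw3.T20
import Pool.Agent.Lib.MP_b6d339_lc.Cw3.T21
import Pool.Agent.Lib.MP_b6d339_lc.Cw3.T22
import Pool.Agent.Lib.MP_b6d339_lc.Cw3.T23
import Pool.Agent.Lib.MP_b6d339_lc.Cw3.T25
import Pool.Agent.Lib.MP_b6d339_lc.Cw3.T26
import Pool.Agent.Lib.MP_b6d339_lc.Cw3.T29
import Pool.Agent.Lib.MP_b6d339_lc.Cw3.T3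
import Pool.Agent.Lib.MP_b6d339_lc.Cw3.T30
import Pool.Agent.Lib.MP_b6d339_lc.Cw3.T31
import Pool.Agent.Lib.MP_b6d339_lc.Cw3.T32
import Pool.Agent.Lib.MP_b6d339_lc.Cw3.T33
import Pool.Agent.Lib.MP_b6d339_lc.Cw3.T36
import Pool.Agent.Lib.MP_b6d339_lc.Cw3.T37
import Pool.Agent.Lib.MP_b6d339_lc.Cw3.T4
import Pool.Agent.Lib.MP_b6d339_lc.Cw3.T5
import Pool.Agent.Lib.MP_b6d339_lc.Cw3.T6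
import Pool.Agent.Lib.MP_b6d339_lc.Cw3.T7
import Pool.Agent.Lib.MP_b6d339_lc.Cw3.T8
import Pool.Agent.Lib.MP_b6d339_lc.Cw3.T9
import Pool.Agent.Lib.MP_b6d339_lc.Cw3.XL
import Pool.Agent.Lib.MP_b6d339_lc.Cw3.ZFzE2ByA3H2AzA2H3A2EzF_0
import Pool.Agent.Lib.MP_b6d339_lc.Cw3.ZFzE2ByA3H2AzA2H3A2EzF_1
import Pool.Agent.Lib.MP_b6d339_lc.Cw3.ZFzE2ByA3H2AzA2H3A2EzF_10
import Pool.Agent.Lib.MP_b6d339_lc.Cw3.ZFzE2ByA3H2AzA2H3A2EzF_11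
import Pool.Agent.Lib.MP_b6d339_lc.Cw3.ZFzE2ByA3H2AzA2H3A2EzF_12
import Pool.Agent.Lib.MP_b6d339_lc.Cw3.ZFzE2ByA3H2AzA2H3A2EzF_2
import Pool.Agent.Lib.MP_b6d339_lc.Cw3.ZFzE2ByA3H2AzA2H3A2EzF_3
import Pool.Agent.Lib.MP_b6d339_lc.Cw3.ZFzE2ByA3H2AzA2H3A2EzF_4
import Pool.Agent.Lib.MP_b6d339_lc.Cw3.ZFzE2ByA3H2AzA2H3A2EzF_5
import Pool.Agent.Lib.MP_b6d339_lc.Cw3.ZFzE2ByA3H2AzA2H3A2EzF_6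
import Pool.Agent.Lib.MP_b6d339_lc.Cw3.ZFzE2ByA3H2AzA2H3A2EzF_7
import Pool.Agent.Lib.MP_b6d339_lc.Cw3.ZFzE2ByA3H2AzA2H3A2EzF_8
import Pool.Agent.Lib.MP_b6d339_lc.Cw3.ZFzE2ByA3H2AzA2H3A2EzF_9
import Pool.Agent.Lib.MP_b6d339_lc.Cw3.ZFzE2ByA3H2AzA2H3AyB2EzF_0
import Pool.Agent.Lib.MP_b6d339_lc.Cw3.ZFzE2ByA3H2AzA2H3AyB2EzF_1
import Pool.Agent.Lib.MP_b6d339_lc.Cw3.ZFzE2ByA3H2AzA2H3AyB2EzF_10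
import Pool.Agent.Lib.MP_b6d339_lc.Cw3.ZFzE2ByA3H2AzA2H3AyB2EzF_11
import Pool.Agent.Lib.MP_b6d339_lc.Cw3.ZFzE2ByA3H2AzA2H3AyB2EzF_12
import Pool.Agent.Lib.MP_b6d339_lc.Cw3.ZFzE2ByA3H2AzA2H3AyB2EzF_13
import Pool.Agent.Lib.MP_b6d339_lc.Cw3.ZFzE2ByA3H2AzA2H3AyB2EzF_14
import Pool.Agent.Lib.MP_b6d339_lc.Cw3.ZFzE2ByA3H2AzA2H3AyB2EzF_15
import Pool.Agent.Lib.MP_b6d339_lc.Cw3.ZFzE2ByA3H2AzA2H3AyB2EzF_16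
import Pool.Agent.Lib.MP_b6d339_lc.Cw3.ZFzE2ByA3H2AzA2H3AyB2EzF_2
import Pool.Agent.Lib.MP_b6d339_lc.Cw3.ZFzE2ByA3H2AzA2H3AyB2EzF_3
import Pool.Agent.Lib.MP_b6d339_lc.Cw3.ZFzE2ByA3H2AzA2H3AyB2EzF_4
import Pool.Agent.Lib.MP_b6d339_lc.Cw3.ZFzE2ByA3H2AzA2H3AyB2EzF_5
import Pool.Agent.Lib.MP_b6d339_lc.Cw3.ZFzE2ByA3H2AzA2H3AyB2EzF_6
import Pool.Agent.Lib.MP_b6d339_lc.Cw3.ZFzE2ByA3H2AzA2H3AyB2EzF_7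
import Pool.Agent.Lib.MP_b6d339_lc.Cw3.ZFzE2ByA3H2AzA2H3AyB2EzF_8
import Pool.Agent.Lib.MP_b6d339_lc.Cw3.ZFzE2ByA3H2AzA2H3AyB2EzF_9
import Pool.Agent.Lib.MP_b6d339_lc.Cw3.ZFzE2ByA3H2AzAyB2H3A2EzF_0
import Pool.Agent.Lib.MP_b6d339_lc.Cw3.ZFzE2ByA3H2AzAyB2H3A2EzF_1
import Pool.Agent.Lib.MP_b6d339_lc.Cw3.ZFzE2ByA3H2AzAyB2H3A2EzF_10
import Pool.Agent.Lib.MP_b6d339_lc.Cw3.ZFzE2ByA3H2AzAyB2H3A2EzF_11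
import Pool.Agent.Lib.MP_b6d339_lc.Cw3.ZFzE2ByA3H2AzAyB2H3A2EzF_12
import Pool.Agent.Lib.MP_b6d339_lc.Cw3.ZFzE2ByA3H2AzAyB2H3A2EzF_2
import Pool.Agent.Lib.MP_b6d339_lc.Cw3.ZFzE2ByA3H2AzAyB2H3A2EzF_3
import Pool.Agent.Lib.MP_b6d339_lc.Cw3.ZFzE2ByA3H2AzAyB2H3A2EzF_4
import Pool.Agent.Lib.MP_b6d339_lc.Cw3.ZFzE2ByA3H2AzAyB2H3A2EzF_5
import Pool.Agent.Lib.MP_b6d339_lc.Cw3.ZFzE2ByA3H2AzAyB2H3A2EzF_6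
import Pool.Agent.Lib.MP_b6d339_lc.Cw3.ZFzE2ByA3H2AzAyB2H3A2EzF_7
import Pool.Agent.Lib.MP_b6d339_lc.Cw3.ZFzE2ByA3H2AzAyB2H3A2EzF_8
import Pool.Agent.Lib.MP_b6d339_lc.Cw3.ZFzE2ByA3H2AzAyB2H3A2EzF_9
import Pool.Agent.Lib.MP_b6d339_lc.Cw3.ZFzE2ByA3H2AzAyB2H3AyB2EzF_0
import Pool.Agent.Lib.MP_b6d339_lc.Cw3.ZFzE2ByA3H2AzAyB2H3AyB2EzF_1
import Pool.Agent.Lib.MP_b6d339_lc.Cw3.ZFzE2ByA3H2AzAyB2H3AyB2EzF_10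
import Pool.Agent.Lib.MP_b6d339_lc.Cw3.ZFzE2ByA3H2AzAyB2H3AyB2EzF_11
import Pool.Agent.Lib.MP_b6d339_lc.Cw3.ZFzE2ByA3H2AzAyB2H3AyB2EzF_12
import Pool.Agent.Lib.MP_b6d339_lc.Cw3.ZFzE2ByA3H2AzAyB2H3AyB2EzF_2
import Pool.Agent.Lib.MP_b6d339_lc.Cw3.ZFzE2ByA3H2AzAyB2H3AyB2EzF_3
import Pool.Agent.Lib.MP_b6d339_lc.Cw3.ZFzE2ByA3H2AzAyB2H3AyB2EzF_4
import Pool.Agent.Lib.MP_b6d339_lc.Cw3.ZFzE2ByA3H2AzAyB2H3AyB2EzF_5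
import Pool.Agent.Lib.MP_b6d339_lc.Cw3.ZFzE2ByA3H2AzAyB2H3AyB2EzF_6
import Pool.Agent.Lib.MP_b6d339_lc.Cw3.ZFzE2ByA3H2AzAyB2H3AyB2EzF_7
import Pool.Agent.Lib.MP_b6d339_lc.Cw3.ZFzE2ByA3H2AzAyB2H3AyB2EzF_8
import Pool.Agent.Lib.MP_b6d339_lc.Cw3.ZFzE2ByA3H2AzAyB2H3AyB2EzF_9
import Pool.Agent.Lib.MP_b6d339_lc.Cw3.ZFzE2ByA3H2AzIzA2H3A2AzAyBzF_0
import Pool.Agent.Lib.MP_b6d339_lc.Cw3.ZFzE2ByA3H2AzIzA2H3A2AzAyBzF_1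
import Pool.Agent.Lib.MP_b6d339_lc.Pos.XTreeC
import Pool.Agent.Lib.MP_b6d339_lc.Pos.YQ

/-!
# Erdős 592, three levels: classes of words
-/

namespace MPb6R

open MPb6P

theorem iiNFzE2ByA3H2AzA2H3A2EzF_k : iiNFzE2ByA3H2AzA2H3A2EzF.Fa (Itm.ok 206) := (BT.Fa_mk (BT.Fa_mk (BT.Fa_mk (BT.Fa_mk (BT.Fa_mk (BT.Fa_mk (BT.Fa_mk (BT.Fa_mk (BT.Fa_mk (BT.Fa_leaf (P := Itm.ok 206) (iqb tpr500_c)) (BT.Fa_leaf (P := Itm.ok 206) (iqf tpr168_c))) (BT.Fa_leaf (P := Itm.ok 206) (iqf tpr500_c))) (BT.Fa_mk (BT.Fa_leaf (P := Itm.ok 206) (iqb tpr508_c)) (BT.Fa_leaf (P := Itm.ok 206) (iqb tpr259_c)))) (BT.Fa_mk (BT.Fa_mk (BT.Fa_mk (BT.Fa_leaf (P := Itm.ok 206) (iqf tpr5_c)) (BT.Fa_leaf (P := Itm.ok 206) (iqf tpr8_c))) (BT.Fa_leaf (P := Itm.ok 206) (iqf tpr499_c)))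 (BT.Fa_mk (BT.Fa_leaf (P := Itm.ok 206) (iqf tpr259_c)) (BT.Fa_leaf (P := Itm.ok 206) (iqb tpr504_c))))) (BT.Fa_mk (BT.Fa_mk (BT.Fa_mk (BT.Fa_mk (BT.Fa_leaf (P := Itm.ok 206) (iqf tpr982_c)) (BT.Fa_leaf (P := Itm.ok 206) (iqb tpr90_c))) (BT.Fa_leaf (P := Itm.ok 206) (iqb tpr531_c))) (BT.Fa_mk (BT.Fa_leaf (P := Itm.ok 206) (iqb tpr525_c)) (BT.Fa_leaf (P := Itm.ok 206) (iqf tpr506_c)))) (BT.Fa_mk (BT.Fa_mk (BT.Fa_mk (BT.Fa_leaf (P := Itm.ok 206) (iqb tpr82_c)) (BT.Fa_leaf (P := Itm.ok 206) (iqb tpr501_c))) (BT.Fa_leaf (P := Itm.ok 206) (iqb tpr545_c))) (BT.Fa_mk (BT.Fa_leaf (P := Itm.ok 206) (iqb tpr607_c)) (BT.Fa_leaf (P := Itm.ok 206) (iqb tpr236_c)))))) (BT.Fa_mk (BT.Fa_mk (BT.Fa_mk (BT.Fa_mk (BT.Fa_mk (BT.Fa_leaf (P := Itm.ok 206) (iqb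 tpr566_c)) (BT.Fa_leaf (P := Itm.ok 206) (iqf tpr239_c))) (BT.Fa_leaf (P := Itm.ok 206) (iqb tpr558_c))) (BT.Fa_mk (BT.Fa_leaf (P := Itm.ok 206) (iqf tpr1014_c)) (BT.Fa_leaf (P := Itm.ok 206) (iqf tpr944_c)))) (BT.Fa_mk (BT.Fa_mk (BT.Fa_mk (BT.Fa_leaf (P := Itm.ok 206) (iqb tpr547_c)) (BT.Fa_leaf (P := Itm.ok 206) (iqb tpr582_c))) (BT.Fa_leaf (P := Itm.ok 206) (iqb tpr557_c))) (BT.Fa_mk (BT.Fa_leaf (P := Itm.ok 206) (iqf tpr528_c)) (BT.Fa_leaf (P := Itm.ok 206) (iqb tpr530_c))))) (BT.Fa_mk (BT.Fa_mk (BT.Fa_mk (BT.Fa_mk (BT.Fa_leaf (P := Itm.ok 206) (iqb tpr561_c)) (BT.Fa_leaf (P := Itm.ok 206) (iqb tpr263_c))) (BT.Fa_leaf (P := Itm.ok 206) (iqf tpr797_c))) (BT.Fa_mk (BT.Fa_leaf (P := Itm.ok 206) (iqf tpr139_c)) (BT.Fa_leaf (P := Itm.ok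 206) (iqb tpr499_c)))) (BT.Fa_mk (BT.Fa_mk (BT.Fa_leaf (P := Itm.ok 206) (iqf tpr107_c)) (BT.Fa_leaf (P := Itm.ok 206) (iqf tpr570_c))) (BT.Fa_mk (BT.Fa_leaf (P := Itm.ok 206) (iqf tpr12_c)) (BT.Fa_leaf (P := Itm.ok 206) (iqf tpr167_c))))))) (BT.Fa_mk (BT.Fa_mk (BT.Fa_mk (BT.Fa_mk (BT.Fa_mk (BT.Fa_mk (BT.Fa_leaf (P := Itm.ok 206) (iqb tpr48_c)) (BT.Fa_leaf (P := Itm.ok 206) (iqf tpr46_c))) (BT.Fa_leaf (P := Itm.ok 206) (iqb tpr49_c))) (BT.Fa_mk (BT.Fa_leaf (P := Itm.ok 206) (iqb tpr506_c)) (BT.Fa_leaf (P := Itm.ok 206) (iqb tpr133_c)))) (BT.Fa_mk (BT.Fa_mk (BT.Fa_mk (BT.Fa_leaf (P := Itm.ok 206) (iqb tpr540_c)) (BT.Fa_leaf (P := Itm.ok 206) (iqb tpr556_c))) (BT.Fa_leaf (P := Itm.ok 206) (iqf tpr596_c))) (BT.Fa_mk (BT.Fa_leaf (P := Itm.ok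 206) (iqb tpr429_c)) (BT.Fa_leaf (P := Itm.ok 206) (iqb tpr9_c))))) (BT.Fa_mk (BT.Fa_mk (BT.Fa_mk (BT.Fa_mk (BT.Fa_leaf (P := Itm.ok 206) (iqf tpr526_c)) (BT.Fa_leaf (P := Itm.ok 206) (iqb tpr295_c))) (BT.Fa_leaf (P := Itm.ok 206) (iqb tpr54_c))) (BT.Fa_mk (BT.Fa_leaf (P := Itm.ok 206) (iqf tpr92_c)) (BT.Fa_leaf (P := Itm.ok 206) (iqb tpr10_c)))) (BT.Fa_mk (BT.Fa_mk (BT.Fa_leaf (P := Itm.ok 206) (iqb tpr15_c)) (BT.Fa_leaf (P := Itm.ok 206) (iqb tpr29_c))) (BT.Fa_mk (BT.Fa_leaf (P := Itm.ok 206) (iqf tpr51_c)) (BT.Fa_leaf (P := Itm.ok 206) (iqf tpr558_c)))))) (BT.Fa_mk (BT.Fa_mk (BT.Fa_mk (BT.Fa_mk (BT.Fa_mk (BT.Fa_leaf (P := Itm.ok 206) (iqf tpr611_c)) (BT.Fa_leaf (P := Itm.ok 206) (iqf tpr733_c))) (BT.Fa_leaf (P := Itm.ok 206) (iqb tpr761_c)))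 (BT.Fa_mk (BT.Fa_leaf (P := Itm.ok 206) (iqb tpr963_c)) (BT.Fa_leaf (P := Itm.ok 206) (iqb tpr935_c)))) (BT.Fa_mk (BT.Fa_mk (BT.Fa_mk (BT.Fa_leaf (P := Itm.ok 206) (iqb tpr677_c)) (BT.Fa_leaf (P := Itm.ok 206) (iqf tpr44_c))) (BT.Fa_leaf (P := Itm.ok 206) (iqb tpr116_c))) (BT.Fa_mk (BT.Fa_leaf (P := Itm.ok 206) (iqb tpr63_c)) (BT.Fa_leaf (P := Itm.ok 206) (iqb tpr815_c))))) (BT.Fa_mk (BT.Fa_mk (BT.Fa_mk (BT.Fa_mk (BT.Fa_leaf (P := Itm.ok 206) (iqf tpr814_c)) (BT.Fa_leaf (P := Itm.ok 206) (iqb tpr97_c))) (BT.Fa_leaf (P := Itm.ok 206) (iqf tpr131_c))) (BT.Fa_mk (BT.Fa_leaf (P := Itm.ok 206) (iqf tpr931_c)) (BT.Fa_leaf (P := Itm.ok 206) (iqb tpr244_c)))) (BT.Fa_mk (BT.Fa_mk (BT.Fa_leaf (P := Itm.ok 206) (iqf tpr35_c)) (BT.Fa_leaf (P := Itm.ok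 206) (iqb tpr28_c))) (BT.Fa_mk (BT.Fa_leaf (P := Itm.ok 206) (iqb tpr47_c)) (BT.Fa_leaf (P := Itm.ok 206) (iqb tpr39_c)))))))) (BT.Fa_mk (BT.Fa_mk (BT.Fa_mk (BT.Fa_mk (BT.Fa_mk (BT.Fa_mk (BT.Fa_mk (BT.Fa_leaf (P := Itm.ok 206) (iqf tpr501_c)) (BT.Fa_leaf (P := Itm.ok 206) (iqb tpr31_c))) (BT.Fa_leaf (P := Itm.ok 206) (iqb tpr21_c))) (BT.Fa_mk (BT.Fa_leaf (P := Itm.ok 206) (iqf tpr216_c)) (BT.Fa_leaf (P := Itm.ok 206) (iqf tpr89_c)))) (BT.Fa_mk (BT.Fa_mk (BT.Fa_mk (BT.Fa_leaf (P := Itm.ok 206) (iqf tpr103_c)) (BT.Fa_leaf (P := Itm.ok 206) (iqf tpr82_c))) (BT.Fa_leaf (P := Itm.ok 206) (iqb tpr511_c))) (BT.Fa_mk (BT.Fa_leaf (P := Itm.ok 206) (iqb tpr570_c)) (BT.Fa_leaf (P := Itm.ok 206) (iqf tpr515_c))))) (BT.Fa_mk (BT.Fa_mk (BT.Fa_mk (BT.Fa_mk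 (BT.Fa_leaf (P := Itm.ok 206) (iqf tpr555_c)) (BT.Fa_leaf (P := Itm.ok 206) (iqb tpr167_c))) (BT.Fa_leaf (P := Itm.ok 206) (iqf tpr419_c))) (BT.Fa_mk (BT.Fa_leaf (P := Itm.ok 206) (iqb tpr572_c)) (BT.Fa_leaf (P := Itm.ok 206) (iqf tpr531_c)))) (BT.Fa_mk (BT.Fa_mk (BT.Fa_leaf (P := Itm.ok 206) (iqb tpr953_c)) (BT.Fa_leaf (P := Itm.ok 206) (iqb tpr518_c))) (BT.Fa_mk (BT.Fa_leaf (P := Itm.ok 206) (iqb tpr507_c)) (BT.Fa_leaf (P := Itm.ok 206) (iqb tpr22_c)))))) (BT.Fa_mk (BT.Fa_mk (BT.Fa_mk (BT.Fa_mk (BT.Fa_mk (BT.Fa_leaf (P := Itm.ok 206) (iqf tpr540_c)) (BT.Fa_leaf (P := Itm.ok 206) (iqb tpr577_c))) (BT.Fa_leaf (P := Itm.ok 206) (iqf tpr679_c))) (BT.Fa_mk (BT.Fa_leaf (P := Itm.ok 206) (iqb tpr554_c)) (BT.Fa_leaf (P := Itm.ok 206) (iqb tpr62_c))))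 (BT.Fa_mk (BT.Fa_mk (BT.Fa_mk (BT.Fa_leaf (P := Itm.ok 206) (iqf tpr968_c)) (BT.Fa_leaf (P := Itm.ok 206) (iqb tpr969_c))) (BT.Fa_leaf (P := Itm.ok 206) (iqf tpr635_c))) (BT.Fa_mk (BT.Fa_leaf (P := Itm.ok 206) (iqf tpr48_c)) (BT.Fa_leaf (P := Itm.ok 206) (iqb tpr519_c))))) (BT.Fa_mk (BT.Fa_mk (BT.Fa_mk (BT.Fa_mk (BT.Fa_leaf (P := Itm.ok 206) (iqb tpr505_c)) (BT.Fa_leaf (P := Itm.ok 206) (iqb tpr510_c))) (BT.Fa_leaf (P := Itm.ok 206) (iqb tpr562_c))) (BT.Fa_mk (BT.Fa_leaf (P := Itm.ok 206) (iqb tpr609_c)) (BT.Fa_leaf (P := Itm.ok 206) (iqb tpr568_c)))) (BT.Fa_mk (BT.Fa_mk (BT.Fa_leaf (P := Itm.ok 206) (iqb tpr960_c)) (BT.Fa_leaf (P := Itm.ok 206) (iqb tpr946_c))) (BT.Fa_mk (BT.Fa_leaf (P := Itm.ok 206) (iqb tpr555_c)) (BT.Fa_leaf (P := Itm.ok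 206) (iqb tpr513_c))))))) (BT.Fa_mk (BT.Fa_mk (BT.Fa_mk (BT.Fa_mk (BT.Fa_mk (BT.Fa_mk (BT.Fa_leaf (P := Itm.ok 206) (iqf tpr17_c)) (BT.Fa_leaf (P := Itm.ok 206) (iqf tpr518_c))) (BT.Fa_leaf (P := Itm.ok 206) (iqf tpr625_c))) (BT.Fa_mk (BT.Fa_leaf (P := Itm.ok 206) (iqf tpr547_c)) (BT.Fa_leaf (P := Itm.ok 206) (iqb tpr611_c)))) (BT.Fa_mk (BT.Fa_mk (BT.Fa_mk (BT.Fa_leaf (P := Itm.ok 206) (iqb tpr725_c)) (BT.Fa_leaf (P := Itm.ok 206) (iqb tpr294_c))) (BT.Fa_leaf (P := Itm.ok 206) (iqf tpr203_c))) (BT.Fa_mk (BT.Fa_leaf (P := Itm.ok 206) (iqb tpr629_c)) (BT.Fa_leaf (P := Itm.ok 206) (iqf tpr61_c))))) (BT.Fa_mk (BT.Fa_mk (BT.Fa_mk (BT.Fa_mk (BT.Fa_leaf (P := Itm.ok 206) (iqb tpr788_c)) (BT.Fa_leaf (P := Itm.ok 206) (iqf tpr541_c))) (BT.Fa_leaf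 (P := Itm.ok 206) (iqb tpr644_c))) (BT.Fa_mk (BT.Fa_leaf (P := Itm.ok 206) (iqf tpr105_c)) (BT.Fa_leaf (P := Itm.ok 206) (iqb tpr144_c)))) (BT.Fa_mk (BT.Fa_mk (BT.Fa_leaf (P := Itm.ok 206) (iqf tpr245_c)) (BT.Fa_leaf (P := Itm.ok 206) (iqb tpr782_c))) (BT.Fa_mk (BT.Fa_leaf (P := Itm.ok 206) (iqb tpr247_c)) (BT.Fa_leaf (P := Itm.ok 206) (iqb tpr816_c)))))) (BT.Fa_mk (BT.Fa_mk (BT.Fa_mk (BT.Fa_mk (BT.Fa_mk (BT.Fa_leaf (P := Itm.ok 206) (iqf tpr45_c)) (BT.Fa_leaf (P := Itm.ok 206) (iqb tpr188_c))) (BT.Fa_leaf (P := Itm.ok 206) (iqf tpr94_c))) (BT.Fa_mk (BT.Fa_leaf (P := Itm.ok 206) (iqb tpr606_c)) (BT.Fa_leaf (P := Itm.ok 206) (iqb tpr221_c)))) (BT.Fa_mk (BT.Fa_mk (BT.Fa_mk (BT.Fa_leaf (P := Itm.ok 206) (iqf tpr803_c)) (BT.Fa_leaf (P := Itm.ok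 206) (iqf tpr251_c))) (BT.Fa_leaf (P := Itm.ok 206) (iqf tpr186_c))) (BT.Fa_mk (BT.Fa_leaf (P := Itm.ok 206) (iqb tpr941_c)) (BT.Fa_leaf (P := Itm.ok 206) (iqf tpr50_c))))) (BT.Fa_mk (BT.Fa_mk (BT.Fa_mk (BT.Fa_mk (BT.Fa_leaf (P := Itm.ok 206) (iqb tpr730_c)) (BT.Fa_leaf (P := Itm.ok 206) (iqf tpr110_c))) (BT.Fa_leaf (P := Itm.ok 206) (iqb tpr40_c))) (BT.Fa_mk (BT.Fa_leaf (P := Itm.ok 206) (iqb tpr114_c)) (BT.Fa_leaf (P := Itm.ok 206) (iqf tpr115_c)))) (BT.Fa_mk (BT.Fa_mk (BT.Fa_leaf (P := Itm.ok 206) (iqf tpr961_c)) (BT.Fa_leaf (P := Itm.ok 206) (iqf tpr936_c))) (BT.Fa_mk (BT.Fa_leaf (P := Itm.ok 206) (iqb tpr38_c)) (BT.Fa_leaf (P := Itm.ok 206) (iqb tpr571_c))))))))) (BT.Fa_mk (BT.Fa_mk (BT.Fa_mk (BT.Fa_mk (BT.Fa_mk (BT.Fa_mk (BT.Fa_mk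 (BT.Fa_mk (BT.Fa_leaf (P := Itm.ok 206) (iqb tpr534_c)) (BT.Fa_leaf (P := Itm.ok 206) (iqb tpr589_c))) (BT.Fa_leaf (P := Itm.ok 206) (iqb tpr657_c))) (BT.Fa_mk (BT.Fa_leaf (P := Itm.ok 206) (iqf tpr2967_c)) (BT.Fa_leaf (P := Itm.ok 206) (iqf tpr95_c)))) (BT.Fa_mk (BT.Fa_mk (BT.Fa_mk (BT.Fa_leaf (P := Itm.ok 206) (iqf tpr656_c)) (BT.Fa_leaf (P := Itm.ok 206) (iqf tpr9_c))) (BT.Fa_leaf (P := Itm.ok 206) (iqf tpr236_c))) (BT.Fa_mk (BT.Fa_leaf (P := Itm.ok 206) (iqf tpr16_c)) (BT.Fa_leaf (P := Itm.ok 206) (iqb tpr216_c))))) (BT.Fa_mk (BT.Fa_mk (BT.Fa_mk (BT.Fa_mk (BT.Fa_leaf (P := Itm.ok 206) (iqf tpr618_c)) (BT.Fa_leaf (P := Itm.ok 206) (iqb tpr78_c))) (BT.Fa_leaf (P := Itm.ok 206) (iqf tpr10_c))) (BT.Fa_mk (BT.Fa_leaf (P := Itm.ok 206) (iqb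 tpr529_c)) (BT.Fa_leaf (P := Itm.ok 206) (iqb tpr81_c)))) (BT.Fa_mk (BT.Fa_mk (BT.Fa_mk (BT.Fa_leaf (P := Itm.ok 206) (iqf tpr572_c)) (BT.Fa_leaf (P := Itm.ok 206) (iqb tpr87_c))) (BT.Fa_leaf (P := Itm.ok 206) (iqf tpr609_c))) (BT.Fa_mk (BT.Fa_leaf (P := Itm.ok 206) (iqb tpr107_c)) (BT.Fa_leaf (P := Itm.ok 206) (iqf tpr557_c)))))) (BT.Fa_mk (BT.Fa_mk (BT.Fa_mk (BT.Fa_mk (BT.Fa_mk (BT.Fa_leaf (P := Itm.ok 206) (iqf tpr516_c)) (BT.Fa_leaf (P := Itm.ok 206) (iqb tpr612_c))) (BT.Fa_leaf (P := Itm.ok 206) (iqf tpr562_c))) (BT.Fa_mk (BT.Fa_leaf (P := Itm.ok 206) (iqb tpr768_c)) (BT.Fa_leaf (P := Itm.ok 206) (iqb tpr541_c)))) (BT.Fa_mk (BT.Fa_mk (BT.Fa_mk (BT.Fa_leaf (P := Itm.ok 206) (iqf tpr559_c)) (BT.Fa_leaf (P := Itm.ok 206) (iqf tpr583_c)))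 (BT.Fa_leaf (P := Itm.ok 206) (iqf tpr26_c))) (BT.Fa_mk (BT.Fa_leaf (P := Itm.ok 206) (iqb tpr944_c)) (BT.Fa_leaf (P := Itm.ok 206) (iqf tpr57_c))))) (BT.Fa_mk (BT.Fa_mk (BT.Fa_mk (BT.Fa_mk (BT.Fa_leaf (P := Itm.ok 206) (iqb tpr789_c)) (BT.Fa_leaf (P := Itm.ok 206) (iqf tpr637_c))) (BT.Fa_leaf (P := Itm.ok 206) (iqb tpr123_c))) (BT.Fa_mk (BT.Fa_leaf (P := Itm.ok 206) (iqf tpr537_c)) (BT.Fa_leaf (P := Itm.ok 206) (iqf tpr680_c)))) (BT.Fa_mk (BT.Fa_mk (BT.Fa_leaf (P := Itm.ok 206) (iqb tpr122_c)) (BT.Fa_leaf (P := Itm.ok 206) (iqb tpr743_c))) (BT.Fa_mk (BT.Fa_leaf (P := Itm.ok 206) (iqf tpr549_c)) (BT.Fa_leaf (P := Itm.ok 206) (iqf tpr74_c))))))) (BT.Fa_mk (BT.Fa_mk (BT.Fa_mk (BT.Fa_mk (BT.Fa_mk (BT.Fa_mk (BT.Fa_leaf (P := Itm.ok 206) (iqf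 tpr536_c)) (BT.Fa_leaf (P := Itm.ok 206) (iqb tpr225_c))) (BT.Fa_leaf (P := Itm.ok 206) (iqf tpr344_c))) (BT.Fa_mk (BT.Fa_leaf (P := Itm.ok 206) (iqf tpr474_c)) (BT.Fa_leaf (P := Itm.ok 206) (iqb tpr124_c)))) (BT.Fa_mk (BT.Fa_mk (BT.Fa_mk (BT.Fa_leaf (P := Itm.ok 206) (iqf tpr621_c)) (BT.Fa_leaf (P := Itm.ok 206) (iqf tpr648_c))) (BT.Fa_leaf (P := Itm.ok 206) (iqf tpr466_c))) (BT.Fa_mk (BT.Fa_leaf (P := Itm.ok 206) (iqf tpr339_c)) (BT.Fa_leaf (P := Itm.ok 206) (iqb tpr406_c))))) (BT.Fa_mk (BT.Fa_mk (BT.Fa_mk (BT.Fa_mk (BT.Fa_leaf (P := Itm.ok 206) (iqf tpr393_c)) (BT.Fa_leaf (P := Itm.ok 206) (iqf tpr655_c))) (BT.Fa_leaf (P := Itm.ok 206) (iqb tpr630_c))) (BT.Fa_mk (BT.Fa_leaf (P := Itm.ok 206) (iqf tpr75_c)) (BT.Fa_leaf (P := Itm.ok 206)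 (iqf tpr695_c)))) (BT.Fa_mk (BT.Fa_mk (BT.Fa_leaf (P := Itm.ok 206) (iqf tpr720_c)) (BT.Fa_leaf (P := Itm.ok 206) (iqb tpr627_c))) (BT.Fa_mk (BT.Fa_leaf (P := Itm.ok 206) (iqf tpr953_c)) (BT.Fa_leaf (P := Itm.ok 206) (iqf tpr2968_c)))))) (BT.Fa_mk (BT.Fa_mk (BT.Fa_mk (BT.Fa_mk (BT.Fa_mk (BT.Fa_leaf (P := Itm.ok 206) (iqf tpr654_c)) (BT.Fa_leaf (P := Itm.ok 206) (iqb tpr527_c))) (BT.Fa_leaf (P := Itm.ok 206) (iqb tpr2969_c))) (BT.Fa_mk (BT.Fa_leaf (P := Itm.ok 206) (iqf tpr715_c)) (BT.Fa_leaf (P := Itm.ok 206) (iqf tpr334_c)))) (BT.Fa_mk (BT.Fa_mk (BT.Fa_mk (BT.Fa_leaf (P := Itm.ok 206) (iqf tpr644_c)) (BT.Fa_leaf (P := Itm.ok 206) (iqf tpr631_c))) (BT.Fa_leaf (P := Itm.ok 206) (iqf tpr556_c))) (BT.Fa_mk (BT.Fa_leaf (P := Itm.ok 206) (iqf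 tpr702_c)) (BT.Fa_leaf (P := Itm.ok 206) (iqf tpr694_c))))) (BT.Fa_mk (BT.Fa_mk (BT.Fa_mk (BT.Fa_mk (BT.Fa_leaf (P := Itm.ok 206) (iqb tpr626_c)) (BT.Fa_leaf (P := Itm.ok 206) (iqf tpr571_c))) (BT.Fa_leaf (P := Itm.ok 206) (iqb tpr564_c))) (BT.Fa_mk (BT.Fa_leaf (P := Itm.ok 206) (iqf tpr22_c)) (BT.Fa_leaf (P := Itm.ok 206) (iqb tpr17_c)))) (BT.Fa_mk (BT.Fa_mk (BT.Fa_leaf (P := Itm.ok 206) (iqf tpr606_c)) (BT.Fa_leaf (P := Itm.ok 206) (iqf tpr520_c))) (BT.Fa_mk (BT.Fa_leaf (P := Itm.ok 206) (iqf tpr613_c)) (BT.Fa_leaf (P := Itm.ok 206) (iqb tpr509_c)))))))) (BT.Fa_mk (BT.Fa_mk (BT.Fa_mk (BT.Fa_mk (BT.Fa_mk (BT.Fa_mk (BT.Fa_mk (BT.Fa_leaf (P := Itm.ok 206) (iqf tpr503_c)) (BT.Fa_leaf (P := Itm.ok 206) (iqf tpr576_c))) (BT.Fa_leaf (P := Itm.ok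 206) (iqb tpr203_c))) (BT.Fa_mk (BT.Fa_leaf (P := Itm.ok 206) (iqb tpr675_c)) (BT.Fa_leaf (P := Itm.ok 206) (iqf tpr586_c)))) (BT.Fa_mk (BT.Fa_mk (BT.Fa_mk (BT.Fa_leaf (P := Itm.ok 206) (iqf tpr739_c)) (BT.Fa_leaf (P := Itm.ok 206) (iqf tpr573_c))) (BT.Fa_leaf (P := Itm.ok 206) (iqb tpr973_c))) (BT.Fa_mk (BT.Fa_leaf (P := Itm.ok 206) (iqf tpr974_c)) (BT.Fa_leaf (P := Itm.ok 206) (iqf tpr23_c))))) (BT.Fa_mk (BT.Fa_mk (BT.Fa_mk (BT.Fa_mk (BT.Fa_leaf (P := Itm.ok 206) (iqf tpr962_c)) (BT.Fa_leaf (P := Itm.ok 206) (iqf tpr1011_c))) (BT.Fa_leaf (P := Itm.ok 206) (iqf tpr966_c))) (BT.Fa_mk (BT.Fa_leaf (P := Itm.ok 206) (iqb tpr636_c)) (BT.Fa_leaf (P := Itm.ok 206) (iqf tpr521_c)))) (BT.Fa_mk (BT.Fa_mk (BT.Fa_leaf (P := Itm.ok 206) (iqb tpr975_c))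 (BT.Fa_leaf (P := Itm.ok 206) (iqf tpr965_c))) (BT.Fa_mk (BT.Fa_leaf (P := Itm.ok 206) (iqb tpr596_c)) (BT.Fa_leaf (P := Itm.ok 206) (iqb tpr23_c)))))) (BT.Fa_mk (BT.Fa_mk (BT.Fa_mk (BT.Fa_mk (BT.Fa_mk (BT.Fa_leaf (P := Itm.ok 206) (iqf tpr567_c)) (BT.Fa_leaf (P := Itm.ok 206) (iqb tpr573_c))) (BT.Fa_leaf (P := Itm.ok 206) (iqb tpr502_c))) (BT.Fa_mk (BT.Fa_leaf (P := Itm.ok 206) (iqf tpr198_c)) (BT.Fa_leaf (P := Itm.ok 206) (iqf tpr619_c)))) (BT.Fa_mk (BT.Fa_mk (BT.Fa_mk (BT.Fa_leaf (P := Itm.ok 206) (iqf tpr523_c)) (BT.Fa_leaf (P := Itm.ok 206) (iqf tpr294_c))) (BT.Fa_leaf (P := Itm.ok 206) (iqb tpr581_c))) (BT.Fa_mk (BT.Fa_leaf (P := Itm.ok 206) (iqf tpr527_c)) (BT.Fa_leaf (P := Itm.ok 206) (iqb tpr526_c))))) (BT.Fa_mk (BT.Fa_mk (BT.Fa_mk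 (BT.Fa_mk (BT.Fa_leaf (P := Itm.ok 206) (iqf tpr620_c)) (BT.Fa_leaf (P := Itm.ok 206) (iqf tpr151_c))) (BT.Fa_leaf (P := Itm.ok 206) (iqf tpr584_c))) (BT.Fa_mk (BT.Fa_leaf (P := Itm.ok 206) (iqf tpr608_c)) (BT.Fa_leaf (P := Itm.ok 206) (iqb tpr516_c)))) (BT.Fa_mk (BT.Fa_mk (BT.Fa_leaf (P := Itm.ok 206) (iqf tpr210_c)) (BT.Fa_leaf (P := Itm.ok 206) (iqb tpr106_c))) (BT.Fa_mk (BT.Fa_leaf (P := Itm.ok 206) (iqb tpr615_c)) (BT.Fa_leaf (P := Itm.ok 206) (iqf tpr529_c))))))) (BT.Fa_mk (BT.Fa_mk (BT.Fa_mk (BT.Fa_mk (BT.Fa_mk (BT.Fa_mk (BT.Fa_leaf (P := Itm.ok 206) (iqf tpr505_c)) (BT.Fa_leaf (P := Itm.ok 206) (iqf tpr972_c))) (BT.Fa_leaf (P := Itm.ok 206) (iqf tpr2970_c))) (BT.Fa_mk (BT.Fa_leaf (P := Itm.ok 206) (iqb tpr724_c)) (BT.Fa_leaf (P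 := Itm.ok 206) (iqb tpr978_c)))) (BT.Fa_mk (BT.Fa_mk (BT.Fa_mk (BT.Fa_leaf (P := Itm.ok 206) (iqb tpr979_c)) (BT.Fa_leaf (P := Itm.ok 206) (iqb tpr977_c))) (BT.Fa_leaf (P := Itm.ok 206) (iqb tpr151_c))) (BT.Fa_mk (BT.Fa_leaf (P := Itm.ok 206) (iqb tpr1843_c)) (BT.Fa_leaf (P := Itm.ok 206) (iqb tpr623_c))))) (BT.Fa_mk (BT.Fa_mk (BT.Fa_mk (BT.Fa_mk (BT.Fa_leaf (P := Itm.ok 206) (iqf tpr623_c)) (BT.Fa_leaf (P := Itm.ok 206) (iqf tpr665_c))) (BT.Fa_leaf (P := Itm.ok 206) (iqb tpr576_c))) (BT.Fa_mk (BT.Fa_leaf (P := Itm.ok 206) (iqb tpr533_c)) (BT.Fa_leaf (P := Itm.ok 206) (iqb tpr575_c)))) (BT.Fa_mk (BT.Fa_mk (BT.Fa_leaf (P := Itm.ok 206) (iqf tpr812_c)) (BT.Fa_leaf (P := Itm.ok 206) (iqf tpr945_c))) (BT.Fa_mk (BT.Fa_leaf (P := Itm.ok 206)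 (iqb tpr222_c)) (BT.Fa_leaf (P := Itm.ok 206) (iqb tpr560_c)))))) (BT.Fa_mk (BT.Fa_mk (BT.Fa_mk (BT.Fa_mk (BT.Fa_mk (BT.Fa_leaf (P := Itm.ok 206) (iqf tpr514_c)) (BT.Fa_leaf (P := Itm.ok 206) (iqb tpr728_c))) (BT.Fa_leaf (P := Itm.ok 206) (iqf tpr704_c))) (BT.Fa_mk (BT.Fa_leaf (P := Itm.ok 206) (iqb tpr72_c)) (BT.Fa_leaf (P := Itm.ok 206) (iqf tpr525_c)))) (BT.Fa_mk (BT.Fa_mk (BT.Fa_mk (BT.Fa_leaf (P := Itm.ok 206) (iqf tpr616_c)) (BT.Fa_leaf (P := Itm.ok 206) (iqf tpr548_c))) (BT.Fa_leaf (P := Itm.ok 206) (iqb tpr33_c))) (BT.Fa_mk (BT.Fa_leaf (P := Itm.ok 206) (iqf tpr502_c)) (BT.Fa_leaf (P := Itm.ok 206) (iqf tpr568_c))))) (BT.Fa_mk (BT.Fa_mk (BT.Fa_mk (BT.Fa_mk (BT.Fa_leaf (P := Itm.ok 206) (iqf tpr617_c)) (BT.Fa_leaf (P := Itm.ok 206)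 (iqb tpr965_c))) (BT.Fa_leaf (P := Itm.ok 206) (iqf tpr641_c))) (BT.Fa_mk (BT.Fa_leaf (P := Itm.ok 206) (iqb tpr198_c)) (BT.Fa_leaf (P := Itm.ok 206) (iqf tpr522_c)))) (BT.Fa_mk (BT.Fa_mk (BT.Fa_leaf (P := Itm.ok 206) (iqf tpr517_c)) (BT.Fa_leaf (P := Itm.ok 206) (iqf tpr605_c))) (BT.Fa_mk (BT.Fa_leaf (P := Itm.ok 206) (iqb tpr292_c)) (BT.Fa_leaf (P := Itm.ok 206) (iqf tpr222_c))))))))))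

/-- all words of the class have labels -/
theorem pokNFzE2ByA3H2AzA2H3A2EzF : POK 206 xNFzE2ByA3H2AzA2H3A2EzF :=
  y_pok (C0 := ceNFzE2ByA3H2AzA2H3A2EzF) (C1 := coNFzE2ByA3H2AzA2H3A2EzF) topNFzE2ByA3H2AzA2H3A2EzF nbNFzE2ByA3H2AzA2H3A2EzF (BT.Fa_of_all iiNFzE2ByA3H2AzA2H3A2EzF_c)
    (BT.Fa_mk (BT.Fa_mk (cyE_spec zeNFzE2ByA3H2AzA2H3A2EzF_0) (cyE_spec zeNFzE2ByA3H2AzA2H3A2EzF_1)) (BT.Fa_mk (BT.Fa_mk (cyE_spec zeNFzE2ByA3H2AzA2H3A2EzF_2) (BT.Fa_mk (cyE_spec zeNFzE2ByA3H2AzA2H3A2EzF_3) (cyE_spec zeNFzE2ByA3H2AzA2H3A2EzF_4))) (BT.Fa_mk (cyE_spec zeNFzE2ByA3H2AzA2H3A2EzF_5) (BT.Fa_mk (cyE_spec zeNFzE2ByA3H2AzA2H3A2EzF_6) (cyE_spec zeNFzE2ByA3H2AzA2H3A2EzF_7)))))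
    (BT.Fa_mk (BT.Fa_mk (cyO_spec zoNFzE2ByA3H2AzA2H3A2EzF_0) (cyO_spec zoNFzE2ByA3H2AzA2H3A2EzF_1)) (BT.Fa_mk (BT.Fa_mk (cyO_spec zoNFzE2ByA3H2AzA2H3A2EzF_2) (BT.Fa_mk (cyO_spec zoNFzE2ByA3H2AzA2H3A2EzF_3) (cyO_spec zoNFzE2ByA3H2AzA2H3A2EzF_4))) (BT.Fa_mk (BT.Fa_mk (cyO_spec zoNFzE2ByA3H2AzA2H3A2EzF_5) (cyO_spec zoNFzE2ByA3H2AzA2H3A2EzF_6)) (cyO_spec zoNFzE2ByA3H2AzA2H3A2EzF_7))))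
    iiNFzE2ByA3H2AzA2H3A2EzF_k

theorem iiNFzE2ByA3H2AzA2H3AyB2EzF_k : iiNFzE2ByA3H2AzA2H3AyB2EzF.Fa (Itm.ok 206) := (BT.Fa_mk (BT.Fa_mk (BT.Fa_mk (BT.Fa_mk (BT.Fa_mk (BT.Fa_mk (BT.Fa_mk (BT.Fa_mk (BT.Fa_mk (BT.Fa_leaf (P := Itm.ok 206) (iqb tpr168_c)) (BT.Fa_leaf (P := Itm.ok 206) (iqb tpr500_c))) (BT.Fa_leaf (P := Itm.ok 206) (iqf tpr500_c))) (BT.Fa_mk (BT.Fa_mk (BT.Fa_leaf (P := Itm.ok 206) (iqf tpr168_c)) (BT.Fa_leaf (P := Itm.ok 206) (iqb tpr531_c))) (BT.Fa_leaf (P := Itm.ok 206) (iqf tpr531_c)))) (BT.Fa_mk (BT.Fa_mk (BT.Fa_mk (BT.Fa_leaf (P := Itm.ok 206) (iqb tpr525_c)) (BT.Fa_leaf (P := Itm.ok 206) (iqf tpr525_c))) (BT.Fa_leaf (P := Itm.ok 206) (iqf tpr239_c))) (BT.Fa_mk (BT.Fa_mk (BT.Fa_leaf (P := Itm.ok 206) (iqb tpr239_c)) (BT.Fa_leaf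 (P := Itm.ok 206) (iqb tpr90_c))) (BT.Fa_leaf (P := Itm.ok 206) (iqf tpr656_c))))) (BT.Fa_mk (BT.Fa_mk (BT.Fa_mk (BT.Fa_mk (BT.Fa_leaf (P := Itm.ok 206) (iqf tpr107_c)) (BT.Fa_leaf (P := Itm.ok 206) (iqf tpr8_c))) (BT.Fa_leaf (P := Itm.ok 206) (iqb tpr1013_c))) (BT.Fa_mk (BT.Fa_mk (BT.Fa_leaf (P := Itm.ok 206) (iqf tpr618_c)) (BT.Fa_leaf (P := Itm.ok 206) (iqf tpr82_c))) (BT.Fa_leaf (P := Itm.ok 206) (iqb tpr82_c)))) (BT.Fa_mk (BT.Fa_mk (BT.Fa_mk (BT.Fa_leaf (P := Itm.ok 206) (iqb tpr605_c)) (BT.Fa_leaf (P := Itm.ok 206) (iqb tpr618_c))) (BT.Fa_leaf (P := Itm.ok 206) (iqb tpr107_c))) (BT.Fa_mk (BT.Fa_mk (BT.Fa_leaf (P := Itm.ok 206) (iqb tpr259_c)) (BT.Fa_leaf (P := Itm.ok 206) (iqf tpr562_c))) (BT.Fa_leaf (P := Itm.ok 206) (iqf tpr236_c))))))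 (BT.Fa_mk (BT.Fa_mk (BT.Fa_mk (BT.Fa_mk (BT.Fa_mk (BT.Fa_leaf (P := Itm.ok 206) (iqf tpr5_c)) (BT.Fa_leaf (P := Itm.ok 206) (iqf tpr631_c))) (BT.Fa_leaf (P := Itm.ok 206) (iqf tpr560_c))) (BT.Fa_mk (BT.Fa_mk (BT.Fa_leaf (P := Itm.ok 206) (iqf tpr259_c)) (BT.Fa_leaf (P := Itm.ok 206) (iqb tpr501_c))) (BT.Fa_leaf (P := Itm.ok 206) (iqb tpr607_c)))) (BT.Fa_mk (BT.Fa_mk (BT.Fa_mk (BT.Fa_leaf (P := Itm.ok 206) (iqf tpr527_c)) (BT.Fa_leaf (P := Itm.ok 206) (iqf tpr1014_c))) (BT.Fa_leaf (P := Itm.ok 206) (iqb tpr547_c))) (BT.Fa_mk (BT.Fa_mk (BT.Fa_leaf (P := Itm.ok 206) (iqf tpr607_c)) (BT.Fa_leaf (P := Itm.ok 206) (iqf tpr517_c))) (BT.Fa_leaf (P := Itm.ok 206) (iqf tpr975_c))))) (BT.Fa_mk (BT.Fa_mk (BT.Fa_mk (BT.Fa_mk (BT.Fa_leaf (P := Itm.ok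 206) (iqf tpr577_c)) (BT.Fa_leaf (P := Itm.ok 206) (iqb tpr1014_c))) (BT.Fa_leaf (P := Itm.ok 206) (iqb tpr1045_c))) (BT.Fa_mk (BT.Fa_mk (BT.Fa_leaf (P := Itm.ok 206) (iqb tpr701_c)) (BT.Fa_leaf (P := Itm.ok 206) (iqb tpr540_c))) (BT.Fa_leaf (P := Itm.ok 206) (iqf tpr596_c)))) (BT.Fa_mk (BT.Fa_mk (BT.Fa_mk (BT.Fa_leaf (P := Itm.ok 206) (iqb tpr914_c)) (BT.Fa_leaf (P := Itm.ok 206) (iqb tpr33_c))) (BT.Fa_leaf (P := Itm.ok 206) (iqf tpr12_c))) (BT.Fa_mk (BT.Fa_leaf (P := Itm.ok 206) (iqf tpr586_c)) (BT.Fa_leaf (P := Itm.ok 206) (iqf tpr780_c))))))) (BT.Fa_mk (BT.Fa_mk (BT.Fa_mk (BT.Fa_mk (BT.Fa_mk (BT.Fa_mk (BT.Fa_leaf (P := Itm.ok 206) (iqf tpr789_c)) (BT.Fa_leaf (P := Itm.ok 206) (iqf tpr609_c))) (BT.Fa_leaf (P := Itm.ok 206) (iqb tpr188_c)))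 (BT.Fa_mk (BT.Fa_mk (BT.Fa_leaf (P := Itm.ok 206) (iqf tpr768_c)) (BT.Fa_leaf (P := Itm.ok 206) (iqb tpr419_c))) (BT.Fa_leaf (P := Itm.ok 206) (iqb tpr133_c)))) (BT.Fa_mk (BT.Fa_mk (BT.Fa_mk (BT.Fa_leaf (P := Itm.ok 206) (iqb tpr9_c)) (BT.Fa_leaf (P := Itm.ok 206) (iqf tpr51_c))) (BT.Fa_leaf (P := Itm.ok 206) (iqb tpr517_c))) (BT.Fa_mk (BT.Fa_mk (BT.Fa_leaf (P := Itm.ok 206) (iqb tpr641_c)) (BT.Fa_leaf (P := Itm.ok 206) (iqb tpr15_c))) (BT.Fa_leaf (P := Itm.ok 206) (iqb tpr1026_c))))) (BT.Fa_mk (BT.Fa_mk (BT.Fa_mk (BT.Fa_mk (BT.Fa_leaf (P := Itm.ok 206) (iqb tpr10_c)) (BT.Fa_leaf (P := Itm.ok 206) (iqb tpr236_c))) (BT.Fa_leaf (P := Itm.ok 206) (iqb tpr557_c))) (BT.Fa_mk (BT.Fa_mk (BT.Fa_leaf (P := Itm.ok 206) (iqf tpr665_c)) (BT.Fa_leaf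 (P := Itm.ok 206) (iqf tpr962_c))) (BT.Fa_leaf (P := Itm.ok 206) (iqf tpr606_c)))) (BT.Fa_mk (BT.Fa_mk (BT.Fa_mk (BT.Fa_leaf (P := Itm.ok 206) (iqb tpr1054_c)) (BT.Fa_leaf (P := Itm.ok 206) (iqf tpr556_c))) (BT.Fa_leaf (P := Itm.ok 206) (iqb tpr692_c))) (BT.Fa_mk (BT.Fa_leaf (P := Itm.ok 206) (iqf tpr501_c)) (BT.Fa_leaf (P := Itm.ok 206) (iqb tpr453_c)))))) (BT.Fa_mk (BT.Fa_mk (BT.Fa_mk (BT.Fa_mk (BT.Fa_mk (BT.Fa_leaf (P := Itm.ok 206) (iqf tpr1008_c)) (BT.Fa_leaf (P := Itm.ok 206) (iqb tpr626_c))) (BT.Fa_leaf (P := Itm.ok 206) (iqb tpr1019_c))) (BT.Fa_mk (BT.Fa_mk (BT.Fa_leaf (P := Itm.ok 206) (iqb tpr1010_c)) (BT.Fa_leaf (P := Itm.ok 206) (iqb tpr609_c))) (BT.Fa_leaf (P := Itm.ok 206) (iqb tpr20_c)))) (BT.Fa_mk (BT.Fa_mk (BT.Fa_mk (BT.Fa_leaf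 (P := Itm.ok 206) (iqb tpr54_c)) (BT.Fa_leaf (P := Itm.ok 206) (iqb tpr788_c))) (BT.Fa_leaf (P := Itm.ok 206) (iqb tpr506_c))) (BT.Fa_mk (BT.Fa_mk (BT.Fa_leaf (P := Itm.ok 206) (iqf tpr506_c)) (BT.Fa_leaf (P := Itm.ok 206) (iqb tpr541_c))) (BT.Fa_leaf (P := Itm.ok 206) (iqf tpr612_c))))) (BT.Fa_mk (BT.Fa_mk (BT.Fa_mk (BT.Fa_mk (BT.Fa_leaf (P := Itm.ok 206) (iqb tpr550_c)) (BT.Fa_leaf (P := Itm.ok 206) (iqb tpr563_c))) (BT.Fa_leaf (P := Itm.ok 206) (iqb tpr1730_c))) (BT.Fa_mk (BT.Fa_mk (BT.Fa_leaf (P := Itm.ok 206) (iqb tpr625_c)) (BT.Fa_leaf (P := Itm.ok 206) (iqf tpr572_c))) (BT.Fa_leaf (P := Itm.ok 206) (iqf tpr563_c)))) (BT.Fa_mk (BT.Fa_mk (BT.Fa_mk (BT.Fa_leaf (P := Itm.ok 206) (iqb tpr505_c)) (BT.Fa_leaf (P := Itm.ok 206) (iqf tpr555_c)))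 (BT.Fa_leaf (P := Itm.ok 206) (iqb tpr429_c))) (BT.Fa_mk (BT.Fa_leaf (P := Itm.ok 206) (iqf tpr623_c)) (BT.Fa_leaf (P := Itm.ok 206) (iqf tpr635_c)))))))) (BT.Fa_mk (BT.Fa_mk (BT.Fa_mk (BT.Fa_mk (BT.Fa_mk (BT.Fa_mk (BT.Fa_mk (BT.Fa_leaf (P := Itm.ok 206) (iqb tpr623_c)) (BT.Fa_leaf (P := Itm.ok 206) (iqb tpr562_c))) (BT.Fa_leaf (P := Itm.ok 206) (iqf tpr1022_c))) (BT.Fa_mk (BT.Fa_mk (BT.Fa_leaf (P := Itm.ok 206) (iqf tpr1015_c)) (BT.Fa_leaf (P := Itm.ok 206) (iqb tpr1028_c))) (BT.Fa_leaf (P := Itm.ok 206) (iqb tpr167_c)))) (BT.Fa_mk (BT.Fa_mk (BT.Fa_mk (BT.Fa_leaf (P := Itm.ok 206) (iqf tpr627_c)) (BT.Fa_leaf (P := Itm.ok 206) (iqb tpr1058_c))) (BT.Fa_leaf (P := Itm.ok 206) (iqf tpr1030_c))) (BT.Fa_mk (BT.Fa_mk (BT.Fa_leaf (P := Itm.ok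 206) (iqb tpr1070_c)) (BT.Fa_leaf (P := Itm.ok 206) (iqf tpr1068_c))) (BT.Fa_leaf (P := Itm.ok 206) (iqf tpr935_c))))) (BT.Fa_mk (BT.Fa_mk (BT.Fa_mk (BT.Fa_mk (BT.Fa_leaf (P := Itm.ok 206) (iqb tpr1069_c)) (BT.Fa_leaf (P := Itm.ok 206) (iqf tpr1037_c))) (BT.Fa_leaf (P := Itm.ok 206) (iqb tpr585_c))) (BT.Fa_mk (BT.Fa_mk (BT.Fa_leaf (P := Itm.ok 206) (iqf tpr679_c)) (BT.Fa_leaf (P := Itm.ok 206) (iqb tpr570_c))) (BT.Fa_leaf (P := Itm.ok 206) (iqf tpr222_c)))) (BT.Fa_mk (BT.Fa_mk (BT.Fa_mk (BT.Fa_leaf (P := Itm.ok 206) (iqf tpr626_c)) (BT.Fa_leaf (P := Itm.ok 206) (iqb tpr1094_c))) (BT.Fa_leaf (P := Itm.ok 206) (iqb tpr518_c))) (BT.Fa_mk (BT.Fa_mk (BT.Fa_leaf (P := Itm.ok 206) (iqf tpr429_c)) (BT.Fa_leaf (P := Itm.ok 206) (iqb tpr577_c)))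 (BT.Fa_leaf (P := Itm.ok 206) (iqb tpr953_c)))))) (BT.Fa_mk (BT.Fa_mk (BT.Fa_mk (BT.Fa_mk (BT.Fa_mk (BT.Fa_leaf (P := Itm.ok 206) (iqb tpr1056_c)) (BT.Fa_leaf (P := Itm.ok 206) (iqb tpr22_c))) (BT.Fa_leaf (P := Itm.ok 206) (iqf tpr1103_c))) (BT.Fa_mk (BT.Fa_mk (BT.Fa_leaf (P := Itm.ok 206) (iqb tpr568_c)) (BT.Fa_leaf (P := Itm.ok 206) (iqb tpr965_c))) (BT.Fa_leaf (P := Itm.ok 206) (iqf tpr568_c)))) (BT.Fa_mk (BT.Fa_mk (BT.Fa_mk (BT.Fa_leaf (P := Itm.ok 206) (iqb tpr572_c)) (BT.Fa_leaf (P := Itm.ok 206) (iqb tpr969_c))) (BT.Fa_leaf (P := Itm.ok 206) (iqf tpr582_c))) (BT.Fa_mk (BT.Fa_mk (BT.Fa_leaf (P := Itm.ok 206) (iqf tpr540_c)) (BT.Fa_leaf (P := Itm.ok 206) (iqf tpr645_c))) (BT.Fa_leaf (P := Itm.ok 206) (iqf tpr526_c))))) (BT.Fa_mk (BT.Fa_mk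 (BT.Fa_mk (BT.Fa_mk (BT.Fa_leaf (P := Itm.ok 206) (iqb tpr1033_c)) (BT.Fa_leaf (P := Itm.ok 206) (iqb tpr582_c))) (BT.Fa_leaf (P := Itm.ok 206) (iqf tpr46_c))) (BT.Fa_mk (BT.Fa_mk (BT.Fa_leaf (P := Itm.ok 206) (iqb tpr554_c)) (BT.Fa_leaf (P := Itm.ok 206) (iqb tpr1008_c))) (BT.Fa_leaf (P := Itm.ok 206) (iqb tpr803_c)))) (BT.Fa_mk (BT.Fa_mk (BT.Fa_mk (BT.Fa_leaf (P := Itm.ok 206) (iqb tpr294_c)) (BT.Fa_leaf (P := Itm.ok 206) (iqf tpr944_c))) (BT.Fa_leaf (P := Itm.ok 206) (iqb tpr548_c))) (BT.Fa_mk (BT.Fa_leaf (P := Itm.ok 206) (iqf tpr1129_c)) (BT.Fa_leaf (P := Itm.ok 206) (iqf tpr1023_c))))))) (BT.Fa_mk (BT.Fa_mk (BT.Fa_mk (BT.Fa_mk (BT.Fa_mk (BT.Fa_mk (BT.Fa_leaf (P := Itm.ok 206) (iqb tpr571_c)) (BT.Fa_leaf (P := Itm.ok 206) (iqb tpr556_c)))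 (BT.Fa_leaf (P := Itm.ok 206) (iqf tpr210_c))) (BT.Fa_mk (BT.Fa_mk (BT.Fa_leaf (P := Itm.ok 206) (iqb tpr555_c)) (BT.Fa_leaf (P := Itm.ok 206) (iqb tpr946_c))) (BT.Fa_leaf (P := Itm.ok 206) (iqf tpr33_c)))) (BT.Fa_mk (BT.Fa_mk (BT.Fa_mk (BT.Fa_leaf (P := Itm.ok 206) (iqb tpr616_c)) (BT.Fa_leaf (P := Itm.ok 206) (iqb tpr768_c))) (BT.Fa_leaf (P := Itm.ok 206) (iqb tpr8_c))) (BT.Fa_mk (BT.Fa_mk (BT.Fa_leaf (P := Itm.ok 206) (iqb tpr1099_c)) (BT.Fa_leaf (P := Itm.ok 206) (iqf tpr17_c))) (BT.Fa_leaf (P := Itm.ok 206) (iqf tpr518_c))))) (BT.Fa_mk (BT.Fa_mk (BT.Fa_mk (BT.Fa_mk (BT.Fa_leaf (P := Itm.ok 206) (iqb tpr576_c)) (BT.Fa_leaf (P := Itm.ok 206) (iqf tpr683_c))) (BT.Fa_leaf (P := Itm.ok 206) (iqb tpr1009_c))) (BT.Fa_mk (BT.Fa_mk (BT.Fa_leaf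 (P := Itm.ok 206) (iqb tpr210_c)) (BT.Fa_leaf (P := Itm.ok 206) (iqf tpr748_c))) (BT.Fa_leaf (P := Itm.ok 206) (iqf tpr1013_c)))) (BT.Fa_mk (BT.Fa_mk (BT.Fa_mk (BT.Fa_leaf (P := Itm.ok 206) (iqb tpr635_c)) (BT.Fa_leaf (P := Itm.ok 206) (iqb tpr235_c))) (BT.Fa_leaf (P := Itm.ok 206) (iqf tpr167_c))) (BT.Fa_mk (BT.Fa_leaf (P := Itm.ok 206) (iqb tpr1043_c)) (BT.Fa_leaf (P := Itm.ok 206) (iqb tpr560_c)))))) (BT.Fa_mk (BT.Fa_mk (BT.Fa_mk (BT.Fa_mk (BT.Fa_mk (BT.Fa_leaf (P := Itm.ok 206) (iqf tpr953_c)) (BT.Fa_leaf (P := Itm.ok 206) (iqf tpr419_c))) (BT.Fa_leaf (P := Itm.ok 206) (iqb tpr1017_c))) (BT.Fa_mk (BT.Fa_mk (BT.Fa_leaf (P := Itm.ok 206) (iqf tpr1028_c)) (BT.Fa_leaf (P := Itm.ok 206) (iqb tpr656_c))) (BT.Fa_leaf (P := Itm.ok 206) (iqb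 tpr627_c)))) (BT.Fa_mk (BT.Fa_mk (BT.Fa_mk (BT.Fa_leaf (P := Itm.ok 206) (iqb tpr586_c)) (BT.Fa_leaf (P := Itm.ok 206) (iqf tpr9_c))) (BT.Fa_leaf (P := Itm.ok 206) (iqf tpr133_c))) (BT.Fa_mk (BT.Fa_mk (BT.Fa_leaf (P := Itm.ok 206) (iqb tpr780_c)) (BT.Fa_leaf (P := Itm.ok 206) (iqf tpr15_c))) (BT.Fa_leaf (P := Itm.ok 206) (iqf tpr516_c))))) (BT.Fa_mk (BT.Fa_mk (BT.Fa_mk (BT.Fa_mk (BT.Fa_leaf (P := Itm.ok 206) (iqf tpr90_c)) (BT.Fa_leaf (P := Itm.ok 206) (iqf tpr1054_c))) (BT.Fa_leaf (P := Itm.ok 206) (iqb tpr1032_c))) (BT.Fa_mk (BT.Fa_mk (BT.Fa_leaf (P := Itm.ok 206) (iqf tpr1017_c)) (BT.Fa_leaf (P := Itm.ok 206) (iqf tpr570_c))) (BT.Fa_leaf (P := Itm.ok 206) (iqb tpr975_c)))) (BT.Fa_mk (BT.Fa_mk (BT.Fa_mk (BT.Fa_leaf (P := Itm.ok 206) (iqb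 tpr1024_c)) (BT.Fa_leaf (P := Itm.ok 206) (iqf tpr453_c))) (BT.Fa_leaf (P := Itm.ok 206) (iqf tpr29_c))) (BT.Fa_mk (BT.Fa_leaf (P := Itm.ok 206) (iqf tpr48_c)) (BT.Fa_leaf (P := Itm.ok 206) (iqf tpr914_c))))))))) (BT.Fa_mk (BT.Fa_mk (BT.Fa_mk (BT.Fa_mk (BT.Fa_mk (BT.Fa_mk (BT.Fa_mk (BT.Fa_mk (BT.Fa_leaf (P := Itm.ok 206) (iqf tpr20_c)) (BT.Fa_leaf (P := Itm.ok 206) (iqb tpr51_c))) (BT.Fa_leaf (P := Itm.ok 206) (iqf tpr116_c))) (BT.Fa_mk (BT.Fa_mk (BT.Fa_leaf (P := Itm.ok 206) (iqf tpr188_c)) (BT.Fa_leaf (P := Itm.ok 206) (iqf tpr1057_c))) (BT.Fa_leaf (P := Itm.ok 206) (iqf tpr601_c)))) (BT.Fa_mk (BT.Fa_mk (BT.Fa_mk (BT.Fa_leaf (P := Itm.ok 206) (iqf tpr541_c)) (BT.Fa_leaf (P := Itm.ok 206) (iqf tpr788_c))) (BT.Fa_leaf (P := Itm.ok 206)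 (iqb tpr789_c))) (BT.Fa_mk (BT.Fa_mk (BT.Fa_leaf (P := Itm.ok 206) (iqb tpr608_c)) (BT.Fa_leaf (P := Itm.ok 206) (iqf tpr548_c))) (BT.Fa_leaf (P := Itm.ok 206) (iqf tpr22_c))))) (BT.Fa_mk (BT.Fa_mk (BT.Fa_mk (BT.Fa_mk (BT.Fa_leaf (P := Itm.ok 206) (iqf tpr576_c)) (BT.Fa_leaf (P := Itm.ok 206) (iqf tpr613_c))) (BT.Fa_leaf (P := Itm.ok 206) (iqb tpr704_c))) (BT.Fa_mk (BT.Fa_mk (BT.Fa_leaf (P := Itm.ok 206) (iqf tpr1011_c)) (BT.Fa_leaf (P := Itm.ok 206) (iqb tpr733_c))) (BT.Fa_leaf (P := Itm.ok 206) (iqb tpr647_c)))) (BT.Fa_mk (BT.Fa_mk (BT.Fa_mk (BT.Fa_leaf (P := Itm.ok 206) (iqf tpr641_c)) (BT.Fa_leaf (P := Itm.ok 206) (iqb tpr13_c))) (BT.Fa_leaf (P := Itm.ok 206) (iqf tpr1059_c))) (BT.Fa_mk (BT.Fa_mk (BT.Fa_leaf (P := Itm.ok 206) (iqf tpr571_c))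 (BT.Fa_leaf (P := Itm.ok 206) (iqf tpr1058_c))) (BT.Fa_leaf (P := Itm.ok 206) (iqb tpr628_c)))))) (BT.Fa_mk (BT.Fa_mk (BT.Fa_mk (BT.Fa_mk (BT.Fa_mk (BT.Fa_leaf (P := Itm.ok 206) (iqf tpr644_c)) (BT.Fa_leaf (P := Itm.ok 206) (iqf tpr294_c))) (BT.Fa_leaf (P := Itm.ok 206) (iqf tpr503_c))) (BT.Fa_mk (BT.Fa_mk (BT.Fa_leaf (P := Itm.ok 206) (iqf tpr628_c)) (BT.Fa_leaf (P := Itm.ok 206) (iqb tpr1064_c))) (BT.Fa_leaf (P := Itm.ok 206) (iqf tpr1044_c)))) (BT.Fa_mk (BT.Fa_mk (BT.Fa_mk (BT.Fa_leaf (P := Itm.ok 206) (iqf tpr2970_c)) (BT.Fa_leaf (P := Itm.ok 206) (iqf tpr1047_c))) (BT.Fa_leaf (P := Itm.ok 206) (iqf tpr620_c))) (BT.Fa_mk (BT.Fa_mk (BT.Fa_leaf (P := Itm.ok 206) (iqf tpr680_c)) (BT.Fa_leaf (P := Itm.ok 206) (iqb tpr721_c))) (BT.Fa_leaf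 (P := Itm.ok 206) (iqb tpr1011_c))))) (BT.Fa_mk (BT.Fa_mk (BT.Fa_mk (BT.Fa_mk (BT.Fa_leaf (P := Itm.ok 206) (iqb tpr962_c)) (BT.Fa_leaf (P := Itm.ok 206) (iqb tpr730_c))) (BT.Fa_leaf (P := Itm.ok 206) (iqf tpr1010_c))) (BT.Fa_mk (BT.Fa_mk (BT.Fa_leaf (P := Itm.ok 206) (iqb tpr527_c)) (BT.Fa_leaf (P := Itm.ok 206) (iqb tpr23_c))) (BT.Fa_leaf (P := Itm.ok 206) (iqb tpr251_c)))) (BT.Fa_mk (BT.Fa_mk (BT.Fa_mk (BT.Fa_leaf (P := Itm.ok 206) (iqb tpr1035_c)) (BT.Fa_leaf (P := Itm.ok 206) (iqb tpr679_c))) (BT.Fa_leaf (P := Itm.ok 206) (iqb tpr1040_c))) (BT.Fa_mk (BT.Fa_leaf (P := Itm.ok 206) (iqb tpr245_c)) (BT.Fa_leaf (P := Itm.ok 206) (iqb tpr748_c))))))) (BT.Fa_mk (BT.Fa_mk (BT.Fa_mk (BT.Fa_mk (BT.Fa_mk (BT.Fa_mk (BT.Fa_leaf (P := Itm.ok 206)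 (iqf tpr23_c)) (BT.Fa_leaf (P := Itm.ok 206) (iqf tpr640_c))) (BT.Fa_leaf (P := Itm.ok 206) (iqf tpr585_c))) (BT.Fa_mk (BT.Fa_mk (BT.Fa_leaf (P := Itm.ok 206) (iqb tpr558_c)) (BT.Fa_leaf (P := Itm.ok 206) (iqf tpr954_c))) (BT.Fa_leaf (P := Itm.ok 206) (iqf tpr692_c)))) (BT.Fa_mk (BT.Fa_mk (BT.Fa_mk (BT.Fa_leaf (P := Itm.ok 206) (iqf tpr1009_c)) (BT.Fa_leaf (P := Itm.ok 206) (iqb tpr1129_c))) (BT.Fa_leaf (P := Itm.ok 206) (iqb tpr727_c))) (BT.Fa_mk (BT.Fa_mk (BT.Fa_leaf (P := Itm.ok 206) (iqf tpr701_c)) (BT.Fa_leaf (P := Itm.ok 206) (iqb tpr1034_c))) (BT.Fa_leaf (P := Itm.ok 206) (iqf tpr554_c))))) (BT.Fa_mk (BT.Fa_mk (BT.Fa_mk (BT.Fa_mk (BT.Fa_leaf (P := Itm.ok 206) (iqf tpr946_c)) (BT.Fa_leaf (P := Itm.ok 206) (iqf tpr1043_c))) (BT.Fa_leaf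 (P := Itm.ok 206) (iqf tpr1016_c))) (BT.Fa_mk (BT.Fa_mk (BT.Fa_leaf (P := Itm.ok 206) (iqf tpr1032_c)) (BT.Fa_leaf (P := Itm.ok 206) (iqb tpr1038_c))) (BT.Fa_leaf (P := Itm.ok 206) (iqf tpr245_c)))) (BT.Fa_mk (BT.Fa_mk (BT.Fa_mk (BT.Fa_leaf (P := Itm.ok 206) (iqf tpr1024_c)) (BT.Fa_leaf (P := Itm.ok 206) (iqb tpr502_c))) (BT.Fa_leaf (P := Itm.ok 206) (iqf tpr198_c))) (BT.Fa_mk (BT.Fa_leaf (P := Itm.ok 206) (iqb tpr683_c)) (BT.Fa_leaf (P := Itm.ok 206) (iqb tpr680_c)))))) (BT.Fa_mk (BT.Fa_mk (BT.Fa_mk (BT.Fa_mk (BT.Fa_mk (BT.Fa_leaf (P := Itm.ok 206) (iqb tpr1049_c)) (BT.Fa_leaf (P := Itm.ok 206) (iqf tpr675_c))) (BT.Fa_leaf (P := Itm.ok 206) (iqf tpr1728_c))) (BT.Fa_mk (BT.Fa_mk (BT.Fa_leaf (P := Itm.ok 206) (iqb tpr631_c)) (BT.Fa_leaf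 (P := Itm.ok 206) (iqb tpr1063_c))) (BT.Fa_leaf (P := Itm.ok 206) (iqf tpr616_c)))) (BT.Fa_mk (BT.Fa_mk (BT.Fa_mk (BT.Fa_leaf (P := Itm.ok 206) (iqf tpr608_c)) (BT.Fa_leaf (P := Itm.ok 206) (iqf tpr1060_c))) (BT.Fa_leaf (P := Itm.ok 206) (iqb tpr17_c))) (BT.Fa_mk (BT.Fa_mk (BT.Fa_leaf (P := Itm.ok 206) (iqb tpr516_c)) (BT.Fa_leaf (P := Itm.ok 206) (iqb tpr1030_c))) (BT.Fa_leaf (P := Itm.ok 206) (iqf tpr1070_c))))) (BT.Fa_mk (BT.Fa_mk (BT.Fa_mk (BT.Fa_mk (BT.Fa_leaf (P := Itm.ok 206) (iqb tpr1018_c)) (BT.Fa_leaf (P := Itm.ok 206) (iqf tpr625_c))) (BT.Fa_leaf (P := Itm.ok 206) (iqb tpr1015_c))) (BT.Fa_mk (BT.Fa_mk (BT.Fa_leaf (P := Itm.ok 206) (iqf tpr589_c)) (BT.Fa_leaf (P := Itm.ok 206) (iqf tpr1042_c))) (BT.Fa_leaf (P := Itm.ok 206) (iqb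 tpr2971_c)))) (BT.Fa_mk (BT.Fa_mk (BT.Fa_mk (BT.Fa_leaf (P := Itm.ok 206) (iqb tpr645_c)) (BT.Fa_leaf (P := Itm.ok 206) (iqb tpr1138_c))) (BT.Fa_leaf (P := Itm.ok 206) (iqb tpr619_c))) (BT.Fa_mk (BT.Fa_leaf (P := Itm.ok 206) (iqf tpr238_c)) (BT.Fa_leaf (P := Itm.ok 206) (iqb tpr91_c)))))))) (BT.Fa_mk (BT.Fa_mk (BT.Fa_mk (BT.Fa_mk (BT.Fa_mk (BT.Fa_mk (BT.Fa_mk (BT.Fa_leaf (P := Itm.ok 206) (iqf tpr614_c)) (BT.Fa_leaf (P := Itm.ok 206) (iqb tpr611_c))) (BT.Fa_leaf (P := Itm.ok 206) (iqf tpr1050_c))) (BT.Fa_mk (BT.Fa_mk (BT.Fa_leaf (P := Itm.ok 206) (iqf tpr721_c)) (BT.Fa_leaf (P := Itm.ok 206) (iqf tpr610_c))) (BT.Fa_leaf (P := Itm.ok 206) (iqf tpr1051_c)))) (BT.Fa_mk (BT.Fa_mk (BT.Fa_mk (BT.Fa_leaf (P := Itm.ok 206) (iqf tpr2972_c)) (BT.Fa_leaf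 (P := Itm.ok 206) (iqb tpr203_c))) (BT.Fa_leaf (P := Itm.ok 206) (iqb tpr610_c))) (BT.Fa_mk (BT.Fa_mk (BT.Fa_leaf (P := Itm.ok 206) (iqf tpr1089_c)) (BT.Fa_leaf (P := Itm.ok 206) (iqf tpr597_c))) (BT.Fa_leaf (P := Itm.ok 206) (iqf tpr611_c))))) (BT.Fa_mk (BT.Fa_mk (BT.Fa_mk (BT.Fa_mk (BT.Fa_leaf (P := Itm.ok 206) (iqb tpr596_c)) (BT.Fa_leaf (P := Itm.ok 206) (iqf tpr1075_c))) (BT.Fa_leaf (P := Itm.ok 206) (iqb tpr1075_c))) (BT.Fa_mk (BT.Fa_mk (BT.Fa_leaf (P := Itm.ok 206) (iqb tpr1052_c)) (BT.Fa_leaf (P := Itm.ok 206) (iqf tpr1064_c))) (BT.Fa_leaf (P := Itm.ok 206) (iqf tpr251_c)))) (BT.Fa_mk (BT.Fa_mk (BT.Fa_mk (BT.Fa_leaf (P := Itm.ok 206) (iqf tpr619_c)) (BT.Fa_leaf (P := Itm.ok 206) (iqf tpr639_c))) (BT.Fa_leaf (P := Itm.ok 206) (iqb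 tpr1047_c))) (BT.Fa_mk (BT.Fa_mk (BT.Fa_leaf (P := Itm.ok 206) (iqb tpr1227_c)) (BT.Fa_leaf (P := Itm.ok 206) (iqb tpr944_c))) (BT.Fa_leaf (P := Itm.ok 206) (iqf tpr704_c)))))) (BT.Fa_mk (BT.Fa_mk (BT.Fa_mk (BT.Fa_mk (BT.Fa_mk (BT.Fa_leaf (P := Itm.ok 206) (iqf tpr1033_c)) (BT.Fa_leaf (P := Itm.ok 206) (iqf tpr1036_c))) (BT.Fa_leaf (P := Itm.ok 206) (iqb tpr1016_c))) (BT.Fa_mk (BT.Fa_mk (BT.Fa_leaf (P := Itm.ok 206) (iqb tpr1067_c)) (BT.Fa_leaf (P := Itm.ok 206) (iqb tpr1037_c))) (BT.Fa_leaf (P := Itm.ok 206) (iqb tpr1060_c)))) (BT.Fa_mk (BT.Fa_mk (BT.Fa_mk (BT.Fa_leaf (P := Itm.ok 206) (iqb tpr614_c)) (BT.Fa_leaf (P := Itm.ok 206) (iqf tpr972_c))) (BT.Fa_leaf (P := Itm.ok 206) (iqb tpr543_c))) (BT.Fa_mk (BT.Fa_mk (BT.Fa_leaf (P := Itm.ok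 206) (iqb tpr589_c)) (BT.Fa_leaf (P := Itm.ok 206) (iqb tpr574_c))) (BT.Fa_leaf (P := Itm.ok 206) (iqf tpr1063_c))))) (BT.Fa_mk (BT.Fa_mk (BT.Fa_mk (BT.Fa_mk (BT.Fa_leaf (P := Itm.ok 206) (iqb tpr1050_c)) (BT.Fa_leaf (P := Itm.ok 206) (iqb tpr684_c))) (BT.Fa_leaf (P := Itm.ok 206) (iqf tpr1065_c))) (BT.Fa_mk (BT.Fa_mk (BT.Fa_leaf (P := Itm.ok 206) (iqf tpr1052_c)) (BT.Fa_leaf (P := Itm.ok 206) (iqb tpr1065_c))) (BT.Fa_leaf (P := Itm.ok 206) (iqf tpr1061_c)))) (BT.Fa_mk (BT.Fa_mk (BT.Fa_mk (BT.Fa_leaf (P := Itm.ok 206) (iqb tpr1061_c)) (BT.Fa_leaf (P := Itm.ok 206) (iqf tpr1072_c))) (BT.Fa_leaf (P := Itm.ok 206) (iqb tpr1074_c))) (BT.Fa_mk (BT.Fa_leaf (P := Itm.ok 206) (iqb tpr1068_c)) (BT.Fa_leaf (P := Itm.ok 206) (iqf tpr1069_c)))))))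 (BT.Fa_mk (BT.Fa_mk (BT.Fa_mk (BT.Fa_mk (BT.Fa_mk (BT.Fa_mk (BT.Fa_leaf (P := Itm.ok 206) (iqf tpr716_c)) (BT.Fa_leaf (P := Itm.ok 206) (iqb tpr1036_c))) (BT.Fa_leaf (P := Itm.ok 206) (iqb tpr703_c))) (BT.Fa_mk (BT.Fa_mk (BT.Fa_leaf (P := Itm.ok 206) (iqf tpr703_c)) (BT.Fa_leaf (P := Itm.ok 206) (iqb tpr613_c))) (BT.Fa_leaf (P := Itm.ok 206) (iqf tpr514_c)))) (BT.Fa_mk (BT.Fa_mk (BT.Fa_mk (BT.Fa_leaf (P := Itm.ok 206) (iqf tpr203_c)) (BT.Fa_leaf (P := Itm.ok 206) (iqb tpr612_c))) (BT.Fa_leaf (P := Itm.ok 206) (iqb tpr700_c))) (BT.Fa_mk (BT.Fa_mk (BT.Fa_leaf (P := Itm.ok 206) (iqf tpr1457_c)) (BT.Fa_leaf (P := Itm.ok 206) (iqb tpr48_c))) (BT.Fa_leaf (P := Itm.ok 206) (iqf tpr936_c))))) (BT.Fa_mk (BT.Fa_mk (BT.Fa_mk (BT.Fa_mk (BT.Fa_leaf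 (P := Itm.ok 206) (iqf tpr546_c)) (BT.Fa_leaf (P := Itm.ok 206) (iqf tpr502_c))) (BT.Fa_leaf (P := Itm.ok 206) (iqf tpr92_c))) (BT.Fa_mk (BT.Fa_mk (BT.Fa_leaf (P := Itm.ok 206) (iqb tpr295_c)) (BT.Fa_leaf (P := Itm.ok 206) (iqb tpr1096_c))) (BT.Fa_leaf (P := Itm.ok 206) (iqb tpr1059_c)))) (BT.Fa_mk (BT.Fa_mk (BT.Fa_mk (BT.Fa_leaf (P := Itm.ok 206) (iqf tpr1031_c)) (BT.Fa_leaf (P := Itm.ok 206) (iqf tpr687_c))) (BT.Fa_leaf (P := Itm.ok 206) (iqb tpr503_c))) (BT.Fa_mk (BT.Fa_leaf (P := Itm.ok 206) (iqf tpr1087_c)) (BT.Fa_leaf (P := Itm.ok 206) (iqf tpr507_c)))))) (BT.Fa_mk (BT.Fa_mk (BT.Fa_mk (BT.Fa_mk (BT.Fa_mk (BT.Fa_leaf (P := Itm.ok 206) (iqb tpr1048_c)) (BT.Fa_leaf (P := Itm.ok 206) (iqf tpr1048_c))) (BT.Fa_leaf (P := Itm.ok 206) (iqb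 tpr507_c))) (BT.Fa_mk (BT.Fa_mk (BT.Fa_leaf (P := Itm.ok 206) (iqb tpr1457_c)) (BT.Fa_leaf (P := Itm.ok 206) (iqf tpr984_c))) (BT.Fa_leaf (P := Itm.ok 206) (iqb tpr198_c)))) (BT.Fa_mk (BT.Fa_mk (BT.Fa_mk (BT.Fa_leaf (P := Itm.ok 206) (iqf tpr1077_c)) (BT.Fa_leaf (P := Itm.ok 206) (iqf tpr1029_c))) (BT.Fa_leaf (P := Itm.ok 206) (iqf tpr1056_c))) (BT.Fa_mk (BT.Fa_mk (BT.Fa_leaf (P := Itm.ok 206) (iqf tpr1088_c)) (BT.Fa_leaf (P := Itm.ok 206) (iqf tpr574_c))) (BT.Fa_leaf (P := Itm.ok 206) (iqf tpr745_c))))) (BT.Fa_mk (BT.Fa_mk (BT.Fa_mk (BT.Fa_mk (BT.Fa_leaf (P := Itm.ok 206) (iqf tpr295_c)) (BT.Fa_leaf (P := Itm.ok 206) (iqf tpr54_c))) (BT.Fa_leaf (P := Itm.ok 206) (iqb tpr649_c))) (BT.Fa_mk (BT.Fa_mk (BT.Fa_leaf (P := Itm.ok 206) (iqb tpr761_c))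 (BT.Fa_leaf (P := Itm.ok 206) (iqb tpr745_c))) (BT.Fa_leaf (P := Itm.ok 206) (iqf tpr647_c)))) (BT.Fa_mk (BT.Fa_mk (BT.Fa_mk (BT.Fa_leaf (P := Itm.ok 206) (iqf tpr1038_c)) (BT.Fa_leaf (P := Itm.ok 206) (iqf tpr1067_c))) (BT.Fa_leaf (P := Itm.ok 206) (iqf tpr605_c))) (BT.Fa_mk (BT.Fa_leaf (P := Itm.ok 206) (iqb tpr1077_c)) (BT.Fa_leaf (P := Itm.ok 206) (iqf tpr637_c))))))))))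

/-- all words of the class have labels -/
theorem pokNFzE2ByA3H2AzA2H3AyB2EzF : POK 206 xNFzE2ByA3H2AzA2H3AyB2EzF :=
  y_pok (C0 := ceNFzE2ByA3H2AzA2H3AyB2EzF) (C1 := coNFzE2ByA3H2AzA2H3AyB2EzF) topNFzE2ByA3H2AzA2H3AyB2EzF nbNFzE2ByA3H2AzA2H3AyB2EzF (BT.Fa_of_all iiNFzE2ByA3H2AzA2H3AyB2EzF_c)
    (BT.Fa_mk (BT.Fa_mk (cyE_spec zeNFzE2ByA3H2AzA2H3AyB2EzF_0) (BT.Fa_mk (cyE_spec zeNFzE2ByA3H2AzA2H3AyB2EzF_1) (cyE_spec zeNFzE2ByA3H2AzA2H3AyB2EzF_2))) (BT.Fa_mk (BT.Fa_mk (BT.Fa_mk (cyE_spec zeNFzE2ByA3H2AzA2H3AyB2EzF_3) (BT.Fa_mk (cyE_spec zeNFzE2ByA3H2AzA2H3AyB2EzF_4) (cyE_spec zeNFzE2ByA3H2AzA2H3AyB2EzF_5))) (BT.Fa_mk (cyE_spec zeNFzE2ByA3H2AzA2H3AyB2EzF_6) (cyE_spec zeNFzE2ByA3H2AzA2H3AyB2EzF_7))) (BT.Fa_mk (BT.Fa_mk (BT.Fa_mk (cyE_spec zeNFzE2ByA3H2AzA2H3AyB2EzF_8)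 (cyE_spec zeNFzE2ByA3H2AzA2H3AyB2EzF_9)) (cyE_spec zeNFzE2ByA3H2AzA2H3AyB2EzF_10)) (BT.Fa_mk (cyE_spec zeNFzE2ByA3H2AzA2H3AyB2EzF_11) (cyE_spec zeNFzE2ByA3H2AzA2H3AyB2EzF_12)))))
    (BT.Fa_mk (BT.Fa_mk (BT.Fa_mk (cyO_spec zoNFzE2ByA3H2AzA2H3AyB2EzF_0) (cyO_spec zoNFzE2ByA3H2AzA2H3AyB2EzF_1)) (BT.Fa_mk (cyO_spec zoNFzE2ByA3H2AzA2H3AyB2EzF_2) (BT.Fa_mk (cyO_spec zoNFzE2ByA3H2AzA2H3AyB2EzF_3) (cyO_spec zoNFzE2ByA3H2AzA2H3AyB2EzF_4)))) (BT.Fa_mk (BT.Fa_mk (BT.Fa_mk (cyO_spec zoNFzE2ByA3H2AzA2H3AyB2EzF_5) (BT.Fa_mk (cyO_spec zoNFzE2ByA3H2AzA2H3AyB2EzF_6) (cyO_spec zoNFzE2ByA3H2AzA2H3AyB2EzF_7))) (BT.Fa_mk (cyO_spec zoNFzE2ByA3H2AzA2H3AyB2EzF_8) (cyO_spec zoNFzE2ByA3H2AzA2H3AyB2EzF_9))) (BT.Fa_mk (BT.Fa_mk (BT.Fa_mk (cyO_spec zoNFzE2ByA3H2AzA2H3AyB2EzF_10)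 (cyO_spec zoNFzE2ByA3H2AzA2H3AyB2EzF_11)) (cyO_spec zoNFzE2ByA3H2AzA2H3AyB2EzF_12)) (BT.Fa_mk (cyO_spec zoNFzE2ByA3H2AzA2H3AyB2EzF_13) (cyO_spec zoNFzE2ByA3H2AzA2H3AyB2EzF_14)))))
    iiNFzE2ByA3H2AzA2H3AyB2EzF_k

theorem iiNFzE2ByA3H2AzAyB2H3A2EzF_k : iiNFzE2ByA3H2AzAyB2H3A2EzF.Fa (Itm.ok 206) := (BT.Fa_mk (BT.Fa_mk (BT.Fa_mk (BT.Fa_mk (BT.Fa_mk (BT.Fa_mk (BT.Fa_mk (BT.Fa_mk (BT.Fa_mk (BT.Fa_leaf (P := Itm.ok 206) (iqf tpr5_c)) (BT.Fa_leaf (P := Itm.ok 206) (iqf tpr500_c))) (BT.Fa_leaf (P := Itm.ok 206) (iqb tpr499_c))) (BT.Fa_mk (BT.Fa_leaf (P := Itm.ok 206) (iqf tpr8_c)) (BT.Fa_leaf (P := Itm.ok 206) (iqf tpr82_c)))) (BT.Fa_mk (BT.Fa_mk (BT.Fa_leaf (P := Itm.ok 206) (iqf tpr555_c)) (BT.Fa_leaf (P := Itm.ok 206) (iqb tpr82_c))) (BT.Fa_mk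 (BT.Fa_leaf (P := Itm.ok 206) (iqf tpr568_c)) (BT.Fa_leaf (P := Itm.ok 206) (iqf tpr499_c))))) (BT.Fa_mk (BT.Fa_mk (BT.Fa_mk (BT.Fa_mk (BT.Fa_leaf (P := Itm.ok 206) (iqb tpr577_c)) (BT.Fa_leaf (P := Itm.ok 206) (iqb tpr17_c))) (BT.Fa_leaf (P := Itm.ok 206) (iqf tpr501_c))) (BT.Fa_mk (BT.Fa_leaf (P := Itm.ok 206) (iqb tpr508_c)) (BT.Fa_leaf (P := Itm.ok 206) (iqf tpr168_c)))) (BT.Fa_mk (BT.Fa_mk (BT.Fa_leaf (P := Itm.ok 206) (iqf tpr516_c)) (BT.Fa_leaf (P := Itm.ok 206) (iqb tpr516_c))) (BT.Fa_mk (BT.Fa_leaf (P := Itm.ok 206) (iqf tpr527_c)) (BT.Fa_leaf (P := Itm.ok 206) (iqb tpr507_c)))))) (BT.Fa_mk (BT.Fa_mk (BT.Fa_mk (BT.Fa_mk (BT.Fa_mk (BT.Fa_leaf (P := Itm.ok 206) (iqf tpr576_c)) (BT.Fa_leaf (P := Itm.ok 206) (iqf tpr608_c))) (BT.Fa_leaf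 (P := Itm.ok 206) (iqf tpr198_c))) (BT.Fa_mk (BT.Fa_leaf (P := Itm.ok 206) (iqf tpr616_c)) (BT.Fa_leaf (P := Itm.ok 206) (iqf tpr605_c)))) (BT.Fa_mk (BT.Fa_mk (BT.Fa_leaf (P := Itm.ok 206) (iqb tpr607_c)) (BT.Fa_leaf (P := Itm.ok 206) (iqf tpr251_c))) (BT.Fa_mk (BT.Fa_leaf (P := Itm.ok 206) (iqb tpr517_c)) (BT.Fa_leaf (P := Itm.ok 206) (iqb tpr506_c))))) (BT.Fa_mk (BT.Fa_mk (BT.Fa_mk (BT.Fa_leaf (P := Itm.ok 206) (iqb tpr547_c)) (BT.Fa_leaf (P := Itm.ok 206) (iqf tpr596_c))) (BT.Fa_mk (BT.Fa_leaf (P := Itm.ok 206) (iqf tpr613_c)) (BT.Fa_leaf (P := Itm.ok 206) (iqf tpr614_c)))) (BT.Fa_mk (BT.Fa_mk (BT.Fa_leaf (P := Itm.ok 206) (iqf tpr515_c)) (BT.Fa_leaf (P := Itm.ok 206) (iqb tpr555_c))) (BT.Fa_mk (BT.Fa_leaf (P := Itm.ok 206) (iqf tpr611_c))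 (BT.Fa_leaf (P := Itm.ok 206) (iqf tpr619_c))))))) (BT.Fa_mk (BT.Fa_mk (BT.Fa_mk (BT.Fa_mk (BT.Fa_mk (BT.Fa_mk (BT.Fa_leaf (P := Itm.ok 206) (iqf tpr44_c)) (BT.Fa_leaf (P := Itm.ok 206) (iqf tpr548_c))) (BT.Fa_leaf (P := Itm.ok 206) (iqb tpr592_c))) (BT.Fa_mk (BT.Fa_leaf (P := Itm.ok 206) (iqf tpr606_c)) (BT.Fa_leaf (P := Itm.ok 206) (iqb tpr960_c)))) (BT.Fa_mk (BT.Fa_mk (BT.Fa_leaf (P := Itm.ok 206) (iqb tpr675_c)) (BT.Fa_leaf (P := Itm.ok 206) (iqb tpr556_c))) (BT.Fa_mk (BT.Fa_leaf (P := Itm.ok 206) (iqf tpr968_c)) (BT.Fa_leaf (P := Itm.ok 206) (iqb tpr72_c))))) (BT.Fa_mk (BT.Fa_mk (BT.Fa_mk (BT.Fa_mk (BT.Fa_leaf (P := Itm.ok 206) (iqf tpr559_c)) (BT.Fa_leaf (P := Itm.ok 206) (iqb tpr239_c))) (BT.Fa_leaf (P := Itm.ok 206) (iqf tpr589_c)))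 (BT.Fa_mk (BT.Fa_leaf (P := Itm.ok 206) (iqb tpr546_c)) (BT.Fa_leaf (P := Itm.ok 206) (iqf tpr553_c)))) (BT.Fa_mk (BT.Fa_mk (BT.Fa_leaf (P := Itm.ok 206) (iqb tpr78_c)) (BT.Fa_leaf (P := Itm.ok 206) (iqf tpr618_c))) (BT.Fa_mk (BT.Fa_leaf (P := Itm.ok 206) (iqb tpr636_c)) (BT.Fa_leaf (P := Itm.ok 206) (iqf tpr687_c)))))) (BT.Fa_mk (BT.Fa_mk (BT.Fa_mk (BT.Fa_mk (BT.Fa_mk (BT.Fa_leaf (P := Itm.ok 206) (iqf tpr733_c)) (BT.Fa_leaf (P := Itm.ok 206) (iqb tpr705_c))) (BT.Fa_leaf (P := Itm.ok 206) (iqb tpr566_c))) (BT.Fa_mk (BT.Fa_leaf (P := Itm.ok 206) (iqb tpr1839_c)) (BT.Fa_leaf (P := Itm.ok 206) (iqf tpr247_c)))) (BT.Fa_mk (BT.Fa_mk (BT.Fa_leaf (P := Itm.ok 206) (iqf tpr641_c)) (BT.Fa_leaf (P := Itm.ok 206) (iqb tpr15_c))) (BT.Fa_mk (BT.Fa_leaf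 (P := Itm.ok 206) (iqf tpr537_c)) (BT.Fa_leaf (P := Itm.ok 206) (iqb tpr167_c))))) (BT.Fa_mk (BT.Fa_mk (BT.Fa_mk (BT.Fa_leaf (P := Itm.ok 206) (iqb tpr1065_c)) (BT.Fa_leaf (P := Itm.ok 206) (iqb tpr959_c))) (BT.Fa_mk (BT.Fa_leaf (P := Itm.ok 206) (iqf tpr704_c)) (BT.Fa_leaf (P := Itm.ok 206) (iqb tpr1841_c)))) (BT.Fa_mk (BT.Fa_mk (BT.Fa_leaf (P := Itm.ok 206) (iqf tpr75_c)) (BT.Fa_leaf (P := Itm.ok 206) (iqb tpr133_c))) (BT.Fa_mk (BT.Fa_leaf (P := Itm.ok 206) (iqb tpr935_c)) (BT.Fa_leaf (P := Itm.ok 206) (iqb tpr684_c)))))))) (BT.Fa_mk (BT.Fa_mk (BT.Fa_mk (BT.Fa_mk (BT.Fa_mk (BT.Fa_mk (BT.Fa_mk (BT.Fa_leaf (P := Itm.ok 206) (iqb tpr725_c)) (BT.Fa_leaf (P := Itm.ok 206) (iqf tpr701_c))) (BT.Fa_leaf (P := Itm.ok 206) (iqb tpr123_c))) (BT.Fa_mk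 (BT.Fa_leaf (P := Itm.ok 206) (iqf tpr803_c)) (BT.Fa_leaf (P := Itm.ok 206) (iqf tpr962_c)))) (BT.Fa_mk (BT.Fa_mk (BT.Fa_leaf (P := Itm.ok 206) (iqb tpr630_c)) (BT.Fa_leaf (P := Itm.ok 206) (iqb tpr1028_c))) (BT.Fa_mk (BT.Fa_leaf (P := Itm.ok 206) (iqf tpr695_c)) (BT.Fa_leaf (P := Itm.ok 206) (iqb tpr21_c))))) (BT.Fa_mk (BT.Fa_mk (BT.Fa_mk (BT.Fa_mk (BT.Fa_leaf (P := Itm.ok 206) (iqf tpr92_c)) (BT.Fa_leaf (P := Itm.ok 206) (iqf tpr966_c))) (BT.Fa_leaf (P := Itm.ok 206) (iqf tpr131_c))) (BT.Fa_mk (BT.Fa_leaf (P := Itm.ok 206) (iqb tpr28_c)) (BT.Fa_leaf (P := Itm.ok 206) (iqb tpr1137_c)))) (BT.Fa_mk (BT.Fa_mk (BT.Fa_leaf (P := Itm.ok 206) (iqb tpr31_c)) (BT.Fa_leaf (P := Itm.ok 206) (iqb tpr406_c))) (BT.Fa_mk (BT.Fa_leaf (P := Itm.ok 206)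 (iqb tpr954_c)) (BT.Fa_leaf (P := Itm.ok 206) (iqb tpr244_c)))))) (BT.Fa_mk (BT.Fa_mk (BT.Fa_mk (BT.Fa_mk (BT.Fa_mk (BT.Fa_leaf (P := Itm.ok 206) (iqf tpr931_c)) (BT.Fa_leaf (P := Itm.ok 206) (iqf tpr1138_c))) (BT.Fa_leaf (P := Itm.ok 206) (iqf tpr814_c))) (BT.Fa_mk (BT.Fa_leaf (P := Itm.ok 206) (iqb tpr815_c)) (BT.Fa_leaf (P := Itm.ok 206) (iqb tpr1842_c)))) (BT.Fa_mk (BT.Fa_mk (BT.Fa_leaf (P := Itm.ok 206) (iqf tpr150_c)) (BT.Fa_leaf (P := Itm.ok 206) (iqb tpr236_c))) (BT.Fa_mk (BT.Fa_leaf (P := Itm.ok 206) (iqf tpr51_c)) (BT.Fa_leaf (P := Itm.ok 206) (iqf tpr12_c))))) (BT.Fa_mk (BT.Fa_mk (BT.Fa_mk (BT.Fa_leaf (P := Itm.ok 206) (iqb tpr48_c)) (BT.Fa_leaf (P := Itm.ok 206) (iqf tpr570_c))) (BT.Fa_mk (BT.Fa_leaf (P := Itm.ok 206) (iqf tpr32_c))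 (BT.Fa_leaf (P := Itm.ok 206) (iqf tpr609_c)))) (BT.Fa_mk (BT.Fa_mk (BT.Fa_leaf (P := Itm.ok 206) (iqb tpr9_c)) (BT.Fa_leaf (P := Itm.ok 206) (iqb tpr188_c))) (BT.Fa_mk (BT.Fa_leaf (P := Itm.ok 206) (iqb tpr953_c)) (BT.Fa_leaf (P := Itm.ok 206) (iqf tpr965_c))))))) (BT.Fa_mk (BT.Fa_mk (BT.Fa_mk (BT.Fa_mk (BT.Fa_mk (BT.Fa_mk (BT.Fa_leaf (P := Itm.ok 206) (iqb tpr626_c)) (BT.Fa_leaf (P := Itm.ok 206) (iqf tpr50_c))) (BT.Fa_leaf (P := Itm.ok 206) (iqb tpr49_c))) (BT.Fa_mk (BT.Fa_leaf (P := Itm.ok 206) (iqf tpr54_c)) (BT.Fa_leaf (P := Itm.ok 206) (iqb tpr582_c)))) (BT.Fa_mk (BT.Fa_mk (BT.Fa_leaf (P := Itm.ok 206) (iqf tpr526_c)) (BT.Fa_leaf (P := Itm.ok 206) (iqb tpr10_c))) (BT.Fa_mk (BT.Fa_leaf (P := Itm.ok 206) (iqf tpr46_c)) (BT.Fa_leaf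 (P := Itm.ok 206) (iqb tpr223_c))))) (BT.Fa_mk (BT.Fa_mk (BT.Fa_mk (BT.Fa_leaf (P := Itm.ok 206) (iqb tpr429_c)) (BT.Fa_leaf (P := Itm.ok 206) (iqb tpr33_c))) (BT.Fa_mk (BT.Fa_leaf (P := Itm.ok 206) (iqb tpr97_c)) (BT.Fa_leaf (P := Itm.ok 206) (iqb tpr804_c)))) (BT.Fa_mk (BT.Fa_mk (BT.Fa_leaf (P := Itm.ok 206) (iqf tpr562_c)) (BT.Fa_leaf (P := Itm.ok 206) (iqb tpr29_c))) (BT.Fa_mk (BT.Fa_leaf (P := Itm.ok 206) (iqb tpr6_c)) (BT.Fa_leaf (P := Itm.ok 206) (iqb tpr116_c)))))) (BT.Fa_mk (BT.Fa_mk (BT.Fa_mk (BT.Fa_mk (BT.Fa_mk (BT.Fa_leaf (P := Itm.ok 206) (iqf tpr216_c)) (BT.Fa_leaf (P := Itm.ok 206) (iqf tpr35_c))) (BT.Fa_leaf (P := Itm.ok 206) (iqb tpr39_c))) (BT.Fa_mk (BT.Fa_leaf (P := Itm.ok 206) (iqf tpr105_c)) (BT.Fa_leaf (P := Itm.ok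 206) (iqf tpr61_c)))) (BT.Fa_mk (BT.Fa_mk (BT.Fa_leaf (P := Itm.ok 206) (iqf tpr95_c)) (BT.Fa_leaf (P := Itm.ok 206) (iqf tpr161_c))) (BT.Fa_mk (BT.Fa_leaf (P := Itm.ok 206) (iqb tpr144_c)) (BT.Fa_leaf (P := Itm.ok 206) (iqf tpr45_c))))) (BT.Fa_mk (BT.Fa_mk (BT.Fa_mk (BT.Fa_leaf (P := Itm.ok 206) (iqb tpr47_c)) (BT.Fa_leaf (P := Itm.ok 206) (iqf tpr115_c))) (BT.Fa_mk (BT.Fa_leaf (P := Itm.ok 206) (iqb tpr939_c)) (BT.Fa_leaf (P := Itm.ok 206) (iqb tpr221_c)))) (BT.Fa_mk (BT.Fa_mk (BT.Fa_leaf (P := Itm.ok 206) (iqb tpr114_c)) (BT.Fa_leaf (P := Itm.ok 206) (iqb tpr40_c))) (BT.Fa_mk (BT.Fa_leaf (P := Itm.ok 206) (iqb tpr113_c)) (BT.Fa_leaf (P := Itm.ok 206) (iqb tpr1845_c))))))))) (BT.Fa_mk (BT.Fa_mk (BT.Fa_mk (BT.Fa_mk (BT.Fa_mk (BT.Fa_mk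 (BT.Fa_mk (BT.Fa_mk (BT.Fa_leaf (P := Itm.ok 206) (iqb tpr1363_c)) (BT.Fa_leaf (P := Itm.ok 206) (iqb tpr8_c))) (BT.Fa_leaf (P := Itm.ok 206) (iqb tpr505_c))) (BT.Fa_mk (BT.Fa_leaf (P := Itm.ok 206) (iqb tpr22_c)) (BT.Fa_leaf (P := Itm.ok 206) (iqb tpr585_c)))) (BT.Fa_mk (BT.Fa_mk (BT.Fa_leaf (P := Itm.ok 206) (iqf tpr623_c)) (BT.Fa_leaf (P := Itm.ok 206) (iqf tpr1196_c))) (BT.Fa_mk (BT.Fa_leaf (P := Itm.ok 206) (iqb tpr518_c)) (BT.Fa_leaf (P := Itm.ok 206) (iqb tpr1126_c))))) (BT.Fa_mk (BT.Fa_mk (BT.Fa_mk (BT.Fa_mk (BT.Fa_leaf (P := Itm.ok 206) (iqf tpr1112_c)) (BT.Fa_leaf (P := Itm.ok 206) (iqb tpr1143_c))) (BT.Fa_leaf (P := Itm.ok 206) (iqb tpr203_c))) (BT.Fa_mk (BT.Fa_leaf (P := Itm.ok 206) (iqf tpr203_c)) (BT.Fa_leaf (P := Itm.ok 206)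 (iqf tpr617_c)))) (BT.Fa_mk (BT.Fa_mk (BT.Fa_leaf (P := Itm.ok 206) (iqf tpr508_c)) (BT.Fa_leaf (P := Itm.ok 206) (iqb tpr609_c))) (BT.Fa_mk (BT.Fa_leaf (P := Itm.ok 206) (iqb tpr740_c)) (BT.Fa_leaf (P := Itm.ok 206) (iqf tpr210_c)))))) (BT.Fa_mk (BT.Fa_mk (BT.Fa_mk (BT.Fa_mk (BT.Fa_mk (BT.Fa_leaf (P := Itm.ok 206) (iqb tpr294_c)) (BT.Fa_leaf (P := Itm.ok 206) (iqb tpr511_c))) (BT.Fa_leaf (P := Itm.ok 206) (iqb tpr629_c))) (BT.Fa_mk (BT.Fa_leaf (P := Itm.ok 206) (iqf tpr547_c)) (BT.Fa_leaf (P := Itm.ok 206) (iqb tpr527_c)))) (BT.Fa_mk (BT.Fa_mk (BT.Fa_leaf (P := Itm.ok 206) (iqf tpr502_c)) (BT.Fa_leaf (P := Itm.ok 206) (iqb tpr615_c))) (BT.Fa_mk (BT.Fa_leaf (P := Itm.ok 206) (iqf tpr624_c)) (BT.Fa_leaf (P := Itm.ok 206) (iqb tpr706_c)))))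 (BT.Fa_mk (BT.Fa_mk (BT.Fa_mk (BT.Fa_leaf (P := Itm.ok 206) (iqf tpr103_c)) (BT.Fa_leaf (P := Itm.ok 206) (iqf tpr748_c))) (BT.Fa_mk (BT.Fa_leaf (P := Itm.ok 206) (iqb tpr562_c)) (BT.Fa_leaf (P := Itm.ok 206) (iqb tpr504_c)))) (BT.Fa_mk (BT.Fa_mk (BT.Fa_leaf (P := Itm.ok 206) (iqb tpr513_c)) (BT.Fa_leaf (P := Itm.ok 206) (iqf tpr656_c))) (BT.Fa_mk (BT.Fa_leaf (P := Itm.ok 206) (iqf tpr9_c)) (BT.Fa_leaf (P := Itm.ok 206) (iqb tpr606_c))))))) (BT.Fa_mk (BT.Fa_mk (BT.Fa_mk (BT.Fa_mk (BT.Fa_mk (BT.Fa_mk (BT.Fa_leaf (P := Itm.ok 206) (iqf tpr167_c)) (BT.Fa_leaf (P := Itm.ok 206) (iqf tpr236_c))) (BT.Fa_leaf (P := Itm.ok 206) (iqf tpr16_c))) (BT.Fa_mk (BT.Fa_leaf (P := Itm.ok 206) (iqb tpr81_c)) (BT.Fa_leaf (P := Itm.ok 206) (iqb tpr87_c))))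 (BT.Fa_mk (BT.Fa_mk (BT.Fa_leaf (P := Itm.ok 206) (iqb tpr612_c)) (BT.Fa_leaf (P := Itm.ok 206) (iqf tpr48_c))) (BT.Fa_mk (BT.Fa_leaf (P := Itm.ok 206) (iqf tpr74_c)) (BT.Fa_leaf (P := Itm.ok 206) (iqb tpr743_c))))) (BT.Fa_mk (BT.Fa_mk (BT.Fa_mk (BT.Fa_leaf (P := Itm.ok 206) (iqf tpr621_c)) (BT.Fa_leaf (P := Itm.ok 206) (iqf tpr339_c))) (BT.Fa_mk (BT.Fa_leaf (P := Itm.ok 206) (iqf tpr637_c)) (BT.Fa_leaf (P := Itm.ok 206) (iqf tpr536_c)))) (BT.Fa_mk (BT.Fa_mk (BT.Fa_leaf (P := Itm.ok 206) (iqf tpr344_c)) (BT.Fa_leaf (P := Itm.ok 206) (iqf tpr720_c))) (BT.Fa_mk (BT.Fa_leaf (P := Itm.ok 206) (iqf tpr393_c)) (BT.Fa_leaf (P := Itm.ok 206) (iqb tpr122_c)))))) (BT.Fa_mk (BT.Fa_mk (BT.Fa_mk (BT.Fa_mk (BT.Fa_mk (BT.Fa_leaf (P := Itm.ok 206) (iqf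 tpr680_c)) (BT.Fa_leaf (P := Itm.ok 206) (iqf tpr26_c))) (BT.Fa_leaf (P := Itm.ok 206) (iqf tpr549_c))) (BT.Fa_mk (BT.Fa_leaf (P := Itm.ok 206) (iqf tpr265_c)) (BT.Fa_leaf (P := Itm.ok 206) (iqf tpr22_c)))) (BT.Fa_mk (BT.Fa_mk (BT.Fa_leaf (P := Itm.ok 206) (iqf tpr620_c)) (BT.Fa_leaf (P := Itm.ok 206) (iqf tpr625_c))) (BT.Fa_mk (BT.Fa_leaf (P := Itm.ok 206) (iqb tpr596_c)) (BT.Fa_leaf (P := Itm.ok 206) (iqf tpr506_c))))) (BT.Fa_mk (BT.Fa_mk (BT.Fa_mk (BT.Fa_leaf (P := Itm.ok 206) (iqb tpr541_c)) (BT.Fa_leaf (P := Itm.ok 206) (iqf tpr245_c))) (BT.Fa_mk (BT.Fa_leaf (P := Itm.ok 206) (iqf tpr683_c)) (BT.Fa_leaf (P := Itm.ok 206) (iqb tpr247_c)))) (BT.Fa_mk (BT.Fa_mk (BT.Fa_leaf (P := Itm.ok 206) (iqf tpr23_c)) (BT.Fa_leaf (P := Itm.ok 206)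 (iqf tpr1018_c))) (BT.Fa_mk (BT.Fa_leaf (P := Itm.ok 206) (iqb tpr646_c)) (BT.Fa_leaf (P := Itm.ok 206) (iqb tpr1141_c)))))))) (BT.Fa_mk (BT.Fa_mk (BT.Fa_mk (BT.Fa_mk (BT.Fa_mk (BT.Fa_mk (BT.Fa_mk (BT.Fa_leaf (P := Itm.ok 206) (iqf tpr1633_c)) (BT.Fa_leaf (P := Itm.ok 206) (iqb tpr1844_c))) (BT.Fa_leaf (P := Itm.ok 206) (iqb tpr62_c))) (BT.Fa_mk (BT.Fa_leaf (P := Itm.ok 206) (iqf tpr503_c)) (BT.Fa_leaf (P := Itm.ok 206) (iqb tpr502_c)))) (BT.Fa_mk (BT.Fa_mk (BT.Fa_leaf (P := Itm.ok 206) (iqf tpr523_c)) (BT.Fa_leaf (P := Itm.ok 206) (iqf tpr294_c))) (BT.Fa_mk (BT.Fa_leaf (P := Itm.ok 206) (iqb tpr509_c)) (BT.Fa_leaf (P := Itm.ok 206) (iqb tpr519_c))))) (BT.Fa_mk (BT.Fa_mk (BT.Fa_mk (BT.Fa_mk (BT.Fa_leaf (P := Itm.ok 206) (iqf tpr518_c))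 (BT.Fa_leaf (P := Itm.ok 206) (iqf tpr505_c))) (BT.Fa_leaf (P := Itm.ok 206) (iqb tpr106_c))) (BT.Fa_mk (BT.Fa_leaf (P := Itm.ok 206) (iqb tpr1406_c)) (BT.Fa_leaf (P := Itm.ok 206) (iqb tpr602_c)))) (BT.Fa_mk (BT.Fa_mk (BT.Fa_leaf (P := Itm.ok 206) (iqf tpr627_c)) (BT.Fa_leaf (P := Itm.ok 206) (iqf tpr517_c))) (BT.Fa_mk (BT.Fa_leaf (P := Itm.ok 206) (iqb tpr588_c)) (BT.Fa_leaf (P := Itm.ok 206) (iqf tpr622_c)))))) (BT.Fa_mk (BT.Fa_mk (BT.Fa_mk (BT.Fa_mk (BT.Fa_mk (BT.Fa_leaf (P := Itm.ok 206) (iqf tpr591_c)) (BT.Fa_leaf (P := Itm.ok 206) (iqf tpr593_c))) (BT.Fa_leaf (P := Itm.ok 206) (iqf tpr610_c))) (BT.Fa_mk (BT.Fa_leaf (P := Itm.ok 206) (iqb tpr638_c)) (BT.Fa_leaf (P := Itm.ok 206) (iqb tpr1058_c)))) (BT.Fa_mk (BT.Fa_mk (BT.Fa_leaf (P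 := Itm.ok 206) (iqb tpr576_c)) (BT.Fa_leaf (P := Itm.ok 206) (iqb tpr545_c))) (BT.Fa_mk (BT.Fa_leaf (P := Itm.ok 206) (iqf tpr514_c)) (BT.Fa_leaf (P := Itm.ok 206) (iqf tpr520_c))))) (BT.Fa_mk (BT.Fa_mk (BT.Fa_mk (BT.Fa_leaf (P := Itm.ok 206) (iqb tpr510_c)) (BT.Fa_leaf (P := Itm.ok 206) (iqf tpr626_c))) (BT.Fa_mk (BT.Fa_leaf (P := Itm.ok 206) (iqb tpr967_c)) (BT.Fa_leaf (P := Itm.ok 206) (iqf tpr672_c)))) (BT.Fa_mk (BT.Fa_mk (BT.Fa_leaf (P := Itm.ok 206) (iqf tpr1199_c)) (BT.Fa_leaf (P := Itm.ok 206) (iqf tpr525_c))) (BT.Fa_mk (BT.Fa_leaf (P := Itm.ok 206) (iqf tpr25_c)) (BT.Fa_leaf (P := Itm.ok 206) (iqf tpr676_c))))))) (BT.Fa_mk (BT.Fa_mk (BT.Fa_mk (BT.Fa_mk (BT.Fa_mk (BT.Fa_mk (BT.Fa_leaf (P := Itm.ok 206) (iqb tpr537_c)) (BT.Fa_leaf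 (P := Itm.ok 206) (iqb tpr549_c))) (BT.Fa_leaf (P := Itm.ok 206) (iqb tpr628_c))) (BT.Fa_mk (BT.Fa_leaf (P := Itm.ok 206) (iqf tpr664_c)) (BT.Fa_leaf (P := Itm.ok 206) (iqb tpr634_c)))) (BT.Fa_mk (BT.Fa_mk (BT.Fa_leaf (P := Itm.ok 206) (iqf tpr631_c)) (BT.Fa_leaf (P := Itm.ok 206) (iqb tpr667_c))) (BT.Fa_mk (BT.Fa_leaf (P := Itm.ok 206) (iqf tpr521_c)) (BT.Fa_leaf (P := Itm.ok 206) (iqf tpr597_c))))) (BT.Fa_mk (BT.Fa_mk (BT.Fa_mk (BT.Fa_leaf (P := Itm.ok 206) (iqf tpr662_c)) (BT.Fa_leaf (P := Itm.ok 206) (iqf tpr686_c))) (BT.Fa_mk (BT.Fa_leaf (P := Itm.ok 206) (iqf tpr674_c)) (BT.Fa_leaf (P := Itm.ok 206) (iqb tpr689_c)))) (BT.Fa_mk (BT.Fa_mk (BT.Fa_leaf (P := Itm.ok 206) (iqf tpr679_c)) (BT.Fa_leaf (P := Itm.ok 206) (iqb tpr1194_c))) (BT.Fa_mk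 (BT.Fa_leaf (P := Itm.ok 206) (iqb tpr1002_c)) (BT.Fa_leaf (P := Itm.ok 206) (iqb tpr1822_c)))))) (BT.Fa_mk (BT.Fa_mk (BT.Fa_mk (BT.Fa_mk (BT.Fa_mk (BT.Fa_leaf (P := Itm.ok 206) (iqf tpr1664_c)) (BT.Fa_leaf (P := Itm.ok 206) (iqf tpr571_c))) (BT.Fa_leaf (P := Itm.ok 206) (iqb tpr1813_c))) (BT.Fa_mk (BT.Fa_leaf (P := Itm.ok 206) (iqb tpr583_c)) (BT.Fa_leaf (P := Itm.ok 206) (iqf tpr989_c)))) (BT.Fa_mk (BT.Fa_mk (BT.Fa_leaf (P := Itm.ok 206) (iqf tpr639_c)) (BT.Fa_leaf (P := Itm.ok 206) (iqf tpr666_c))) (BT.Fa_mk (BT.Fa_leaf (P := Itm.ok 206) (iqf tpr1809_c)) (BT.Fa_leaf (P := Itm.ok 206) (iqf tpr670_c))))) (BT.Fa_mk (BT.Fa_mk (BT.Fa_mk (BT.Fa_leaf (P := Itm.ok 206) (iqb tpr647_c)) (BT.Fa_leaf (P := Itm.ok 206) (iqf tpr538_c))) (BT.Fa_mk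 (BT.Fa_leaf (P := Itm.ok 206) (iqb tpr23_c)) (BT.Fa_leaf (P := Itm.ok 206) (iqb tpr1142_c)))) (BT.Fa_mk (BT.Fa_mk (BT.Fa_leaf (P := Itm.ok 206) (iqf tpr511_c)) (BT.Fa_leaf (P := Itm.ok 206) (iqb tpr734_c))) (BT.Fa_mk (BT.Fa_leaf (P := Itm.ok 206) (iqb tpr1145_c)) (BT.Fa_leaf (P := Itm.ok 206) (iqf tpr628_c))))))))))

/-- all words of the class have labels -/
theorem pokNFzE2ByA3H2AzAyB2H3A2EzF : POK 206 xNFzE2ByA3H2AzAyB2H3A2EzF :=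
  y_pok (C0 := ceNFzE2ByA3H2AzAyB2H3A2EzF) (C1 := coNFzE2ByA3H2AzAyB2H3A2EzF) topNFzE2ByA3H2AzAyB2H3A2EzF nbNFzE2ByA3H2AzAyB2H3A2EzF (BT.Fa_of_all iiNFzE2ByA3H2AzAyB2H3A2EzF_c)
    (BT.Fa_mk (BT.Fa_mk (cyE_spec zeNFzE2ByA3H2AzAyB2H3A2EzF_0) (cyE_spec zeNFzE2ByA3H2AzAyB2H3A2EzF_1)) (BT.Fa_mk (BT.Fa_mk (BT.Fa_mk (cyE_spec zeNFzE2ByA3H2AzAyB2H3A2EzF_2) (cyE_spec zeNFzE2ByA3H2AzAyB2H3A2EzF_3)) (BT.Fa_mk (cyE_spec zeNFzE2ByA3H2AzAyB2H3A2EzF_4) (cyE_spec zeNFzE2ByA3H2AzAyB2H3A2EzF_5))) (BT.Fa_mk (BT.Fa_mk (cyE_spec zeNFzE2ByA3H2AzAyB2H3A2EzF_6) (cyE_spec zeNFzE2ByA3H2AzAyB2H3A2EzF_7)) (cyE_spec zeNFzE2ByA3H2AzAyB2H3A2EzF_8))))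
    (BT.Fa_mk (BT.Fa_mk (cyO_spec zoNFzE2ByA3H2AzAyB2H3A2EzF_0) (cyO_spec zoNFzE2ByA3H2AzAyB2H3A2EzF_1)) (BT.Fa_mk (BT.Fa_mk (BT.Fa_mk (cyO_spec zoNFzE2ByA3H2AzAyB2H3A2EzF_2) (cyO_spec zoNFzE2ByA3H2AzAyB2H3A2EzF_3)) (BT.Fa_mk (cyO_spec zoNFzE2ByA3H2AzAyB2H3A2EzF_4) (cyO_spec zoNFzE2ByA3H2AzAyB2H3A2EzF_5))) (BT.Fa_mk (BT.Fa_mk (cyO_spec zoNFzE2ByA3H2AzAyB2H3A2EzF_6) (cyO_spec zoNFzE2ByA3H2AzAyB2H3A2EzF_7)) (cyO_spec zoNFzE2ByA3H2AzAyB2H3A2EzF_8))))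
    iiNFzE2ByA3H2AzAyB2H3A2EzF_k

theorem iiNFzE2ByA3H2AzAyB2H3AyB2EzF_k : iiNFzE2ByA3H2AzAyB2H3AyB2EzF.Fa (Itm.ok 206) := (BT.Fa_mk (BT.Fa_mk (BT.Fa_mk (BT.Fa_mk (BT.Fa_mk (BT.Fa_mk (BT.Fa_mk (BT.Fa_mk (BT.Fa_leaf (P := Itm.ok 206) (iqb tpr5_c)) (BT.Fa_leaf (P := Itm.ok 206) (iqf tpr82_c))) (BT.Fa_mk (BT.Fa_leaf (P := Itm.ok 206) (iqb tpr577_c)) (BT.Fa_leaf (P := Itm.ok 206) (iqb tpr82_c)))) (BT.Fa_mk (BT.Fa_mk (BT.Fa_leaf (P := Itm.ok 206) (iqf tpr500_c)) (BT.Fa_leaf (P := Itm.ok 206) (iqb tpr239_c))) (BT.Fa_mk (BT.Fa_leaf (P := Itm.ok 206) (iqf tpr606_c)) (BT.Fa_leaf (P := Itm.ok 206) (iqf tpr501_c))))) (BT.Fa_mk (BT.Fa_mk (BT.Fa_mk (BT.Fa_leaf (P := Itm.ok 206) (iqf tpr527_c)) (BT.Fa_leaf (P := Itm.ok 206) (iqb tpr609_c))) (BT.Fa_mk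 (BT.Fa_leaf (P := Itm.ok 206) (iqf tpr518_c)) (BT.Fa_leaf (P := Itm.ok 206) (iqf tpr17_c)))) (BT.Fa_mk (BT.Fa_mk (BT.Fa_leaf (P := Itm.ok 206) (iqf tpr239_c)) (BT.Fa_leaf (P := Itm.ok 206) (iqf tpr516_c))) (BT.Fa_mk (BT.Fa_leaf (P := Itm.ok 206) (iqb tpr518_c)) (BT.Fa_leaf (P := Itm.ok 206) (iqf tpr517_c)))))) (BT.Fa_mk (BT.Fa_mk (BT.Fa_mk (BT.Fa_mk (BT.Fa_leaf (P := Itm.ok 206) (iqb tpr555_c)) (BT.Fa_leaf (P := Itm.ok 206) (iqf tpr701_c))) (BT.Fa_mk (BT.Fa_leaf (P := Itm.ok 206) (iqf tpr555_c)) (BT.Fa_leaf (P := Itm.ok 206) (iqf tpr203_c)))) (BT.Fa_mk (BT.Fa_mk (BT.Fa_leaf (P := Itm.ok 206) (iqb tpr527_c)) (BT.Fa_leaf (P := Itm.ok 206) (iqb tpr90_c))) (BT.Fa_mk (BT.Fa_leaf (P := Itm.ok 206) (iqf tpr210_c)) (BT.Fa_leaf (P := Itm.ok 206)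 (iqb tpr517_c))))) (BT.Fa_mk (BT.Fa_mk (BT.Fa_mk (BT.Fa_leaf (P := Itm.ok 206) (iqf tpr596_c)) (BT.Fa_leaf (P := Itm.ok 206) (iqf tpr680_c))) (BT.Fa_mk (BT.Fa_leaf (P := Itm.ok 206) (iqf tpr683_c)) (BT.Fa_leaf (P := Itm.ok 206) (iqb tpr168_c)))) (BT.Fa_mk (BT.Fa_mk (BT.Fa_leaf (P := Itm.ok 206) (iqf tpr547_c)) (BT.Fa_leaf (P := Itm.ok 206) (iqf tpr611_c))) (BT.Fa_mk (BT.Fa_leaf (P := Itm.ok 206) (iqf tpr623_c)) (BT.Fa_leaf (P := Itm.ok 206) (iqf tpr236_c))))))) (BT.Fa_mk (BT.Fa_mk (BT.Fa_mk (BT.Fa_mk (BT.Fa_mk (BT.Fa_leaf (P := Itm.ok 206) (iqf tpr615_c)) (BT.Fa_leaf (P := Itm.ok 206) (iqf tpr1016_c))) (BT.Fa_mk (BT.Fa_leaf (P := Itm.ok 206) (iqf tpr605_c)) (BT.Fa_leaf (P := Itm.ok 206) (iqb tpr684_c)))) (BT.Fa_mk (BT.Fa_mk (BT.Fa_leaf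 (P := Itm.ok 206) (iqb tpr563_c)) (BT.Fa_leaf (P := Itm.ok 206) (iqf tpr429_c))) (BT.Fa_mk (BT.Fa_leaf (P := Itm.ok 206) (iqb tpr628_c)) (BT.Fa_leaf (P := Itm.ok 206) (iqf tpr968_c))))) (BT.Fa_mk (BT.Fa_mk (BT.Fa_mk (BT.Fa_leaf (P := Itm.ok 206) (iqb tpr701_c)) (BT.Fa_leaf (P := Itm.ok 206) (iqf tpr247_c))) (BT.Fa_mk (BT.Fa_leaf (P := Itm.ok 206) (iqb tpr1052_c)) (BT.Fa_leaf (P := Itm.ok 206) (iqb tpr251_c)))) (BT.Fa_mk (BT.Fa_mk (BT.Fa_leaf (P := Itm.ok 206) (iqf tpr733_c)) (BT.Fa_leaf (P := Itm.ok 206) (iqb tpr541_c))) (BT.Fa_mk (BT.Fa_leaf (P := Itm.ok 206) (iqb tpr658_c)) (BT.Fa_leaf (P := Itm.ok 206) (iqf tpr748_c)))))) (BT.Fa_mk (BT.Fa_mk (BT.Fa_mk (BT.Fa_mk (BT.Fa_leaf (P := Itm.ok 206) (iqb tpr721_c)) (BT.Fa_leaf (P := Itm.ok 206)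 (iqf tpr679_c))) (BT.Fa_mk (BT.Fa_leaf (P := Itm.ok 206) (iqf tpr962_c)) (BT.Fa_leaf (P := Itm.ok 206) (iqb tpr967_c)))) (BT.Fa_mk (BT.Fa_mk (BT.Fa_leaf (P := Itm.ok 206) (iqf tpr1023_c)) (BT.Fa_leaf (P := Itm.ok 206) (iqb tpr1104_c))) (BT.Fa_mk (BT.Fa_leaf (P := Itm.ok 206) (iqf tpr1138_c)) (BT.Fa_leaf (P := Itm.ok 206) (iqb tpr635_c))))) (BT.Fa_mk (BT.Fa_mk (BT.Fa_mk (BT.Fa_leaf (P := Itm.ok 206) (iqb tpr585_c)) (BT.Fa_leaf (P := Itm.ok 206) (iqb tpr1028_c))) (BT.Fa_mk (BT.Fa_leaf (P := Itm.ok 206) (iqf tpr637_c)) (BT.Fa_leaf (P := Itm.ok 206) (iqf tpr1100_c)))) (BT.Fa_mk (BT.Fa_mk (BT.Fa_leaf (P := Itm.ok 206) (iqb tpr1110_c)) (BT.Fa_leaf (P := Itm.ok 206) (iqb tpr706_c))) (BT.Fa_leaf (P := Itm.ok 206) (iqb tpr1137_c))))))) (BT.Fa_mk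 (BT.Fa_mk (BT.Fa_mk (BT.Fa_mk (BT.Fa_mk (BT.Fa_mk (BT.Fa_leaf (P := Itm.ok 206) (iqb tpr954_c)) (BT.Fa_leaf (P := Itm.ok 206) (iqb tpr1120_c))) (BT.Fa_mk (BT.Fa_leaf (P := Itm.ok 206) (iqb tpr1026_c)) (BT.Fa_leaf (P := Itm.ok 206) (iqf tpr1132_c)))) (BT.Fa_mk (BT.Fa_mk (BT.Fa_leaf (P := Itm.ok 206) (iqb tpr1141_c)) (BT.Fa_leaf (P := Itm.ok 206) (iqf tpr1072_c))) (BT.Fa_mk (BT.Fa_leaf (P := Itm.ok 206) (iqb tpr1103_c)) (BT.Fa_leaf (P := Itm.ok 206) (iqf tpr168_c))))) (BT.Fa_mk (BT.Fa_mk (BT.Fa_mk (BT.Fa_leaf (P := Itm.ok 206) (iqb tpr506_c)) (BT.Fa_leaf (P := Itm.ok 206) (iqf tpr8_c))) (BT.Fa_mk (BT.Fa_leaf (P := Itm.ok 206) (iqf tpr506_c)) (BT.Fa_leaf (P := Itm.ok 206) (iqb tpr236_c)))) (BT.Fa_mk (BT.Fa_mk (BT.Fa_leaf (P := Itm.ok 206)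 (iqf tpr609_c)) (BT.Fa_leaf (P := Itm.ok 206) (iqf tpr12_c))) (BT.Fa_mk (BT.Fa_leaf (P := Itm.ok 206) (iqf tpr562_c)) (BT.Fa_leaf (P := Itm.ok 206) (iqf tpr570_c)))))) (BT.Fa_mk (BT.Fa_mk (BT.Fa_mk (BT.Fa_mk (BT.Fa_leaf (P := Itm.ok 206) (iqf tpr54_c)) (BT.Fa_leaf (P := Itm.ok 206) (iqb tpr572_c))) (BT.Fa_mk (BT.Fa_leaf (P := Itm.ok 206) (iqf tpr167_c)) (BT.Fa_leaf (P := Itm.ok 206) (iqb tpr9_c)))) (BT.Fa_mk (BT.Fa_mk (BT.Fa_leaf (P := Itm.ok 206) (iqb tpr625_c)) (BT.Fa_leaf (P := Itm.ok 206) (iqf tpr965_c))) (BT.Fa_mk (BT.Fa_leaf (P := Itm.ok 206) (iqf tpr541_c)) (BT.Fa_leaf (P := Itm.ok 206) (iqb tpr637_c))))) (BT.Fa_mk (BT.Fa_mk (BT.Fa_mk (BT.Fa_leaf (P := Itm.ok 206) (iqb tpr89_c)) (BT.Fa_leaf (P := Itm.ok 206) (iqf tpr912_c))) (BT.Fa_mk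 (BT.Fa_leaf (P := Itm.ok 206) (iqb tpr188_c)) (BT.Fa_leaf (P := Itm.ok 206) (iqb tpr133_c)))) (BT.Fa_mk (BT.Fa_mk (BT.Fa_leaf (P := Itm.ok 206) (iqf tpr91_c)) (BT.Fa_leaf (P := Itm.ok 206) (iqf tpr620_c))) (BT.Fa_leaf (P := Itm.ok 206) (iqf tpr803_c)))))) (BT.Fa_mk (BT.Fa_mk (BT.Fa_mk (BT.Fa_mk (BT.Fa_mk (BT.Fa_leaf (P := Itm.ok 206) (iqf tpr573_c)) (BT.Fa_leaf (P := Itm.ok 206) (iqb tpr20_c))) (BT.Fa_mk (BT.Fa_leaf (P := Itm.ok 206) (iqf tpr1036_c)) (BT.Fa_leaf (P := Itm.ok 206) (iqb tpr1019_c)))) (BT.Fa_mk (BT.Fa_mk (BT.Fa_leaf (P := Itm.ok 206) (iqb tpr1123_c)) (BT.Fa_leaf (P := Itm.ok 206) (iqb tpr548_c))) (BT.Fa_mk (BT.Fa_leaf (P := Itm.ok 206) (iqf tpr780_c)) (BT.Fa_leaf (P := Itm.ok 206) (iqb tpr505_c))))) (BT.Fa_mk (BT.Fa_mk (BT.Fa_mk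 (BT.Fa_leaf (P := Itm.ok 206) (iqb tpr618_c)) (BT.Fa_leaf (P := Itm.ok 206) (iqf tpr1021_c))) (BT.Fa_mk (BT.Fa_leaf (P := Itm.ok 206) (iqb tpr22_c)) (BT.Fa_leaf (P := Itm.ok 206) (iqb tpr1022_c)))) (BT.Fa_mk (BT.Fa_mk (BT.Fa_leaf (P := Itm.ok 206) (iqf tpr628_c)) (BT.Fa_leaf (P := Itm.ok 206) (iqf tpr1105_c))) (BT.Fa_mk (BT.Fa_leaf (P := Itm.ok 206) (iqb tpr953_c)) (BT.Fa_leaf (P := Itm.ok 206) (iqb tpr501_c)))))) (BT.Fa_mk (BT.Fa_mk (BT.Fa_mk (BT.Fa_mk (BT.Fa_leaf (P := Itm.ok 206) (iqf tpr222_c)) (BT.Fa_leaf (P := Itm.ok 206) (iqf tpr700_c))) (BT.Fa_mk (BT.Fa_leaf (P := Itm.ok 206) (iqb tpr562_c)) (BT.Fa_leaf (P := Itm.ok 206) (iqb tpr969_c)))) (BT.Fa_mk (BT.Fa_mk (BT.Fa_leaf (P := Itm.ok 206) (iqf tpr1111_c)) (BT.Fa_leaf (P := Itm.ok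 206) (iqf tpr617_c))) (BT.Fa_mk (BT.Fa_leaf (P := Itm.ok 206) (iqf tpr627_c)) (BT.Fa_leaf (P := Itm.ok 206) (iqf tpr645_c))))) (BT.Fa_mk (BT.Fa_mk (BT.Fa_mk (BT.Fa_leaf (P := Itm.ok 206) (iqf tpr1112_c)) (BT.Fa_leaf (P := Itm.ok 206) (iqb tpr1143_c))) (BT.Fa_mk (BT.Fa_leaf (P := Itm.ok 206) (iqb tpr596_c)) (BT.Fa_leaf (P := Itm.ok 206) (iqb tpr656_c)))) (BT.Fa_mk (BT.Fa_mk (BT.Fa_leaf (P := Itm.ok 206) (iqf tpr625_c)) (BT.Fa_leaf (P := Itm.ok 206) (iqb tpr8_c))) (BT.Fa_leaf (P := Itm.ok 206) (iqf tpr656_c)))))))) (BT.Fa_mk (BT.Fa_mk (BT.Fa_mk (BT.Fa_mk (BT.Fa_mk (BT.Fa_mk (BT.Fa_mk (BT.Fa_leaf (P := Itm.ok 206) (iqf tpr9_c)) (BT.Fa_leaf (P := Itm.ok 206) (iqb tpr612_c))) (BT.Fa_mk (BT.Fa_leaf (P := Itm.ok 206) (iqf tpr90_c)) (BT.Fa_leaf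 (P := Itm.ok 206) (iqf tpr198_c)))) (BT.Fa_mk (BT.Fa_mk (BT.Fa_leaf (P := Itm.ok 206) (iqb tpr608_c)) (BT.Fa_leaf (P := Itm.ok 206) (iqf tpr610_c))) (BT.Fa_mk (BT.Fa_leaf (P := Itm.ok 206) (iqf tpr44_c)) (BT.Fa_leaf (P := Itm.ok 206) (iqb tpr703_c))))) (BT.Fa_mk (BT.Fa_mk (BT.Fa_mk (BT.Fa_leaf (P := Itm.ok 206) (iqf tpr548_c)) (BT.Fa_leaf (P := Itm.ok 206) (iqf tpr23_c))) (BT.Fa_mk (BT.Fa_leaf (P := Itm.ok 206) (iqf tpr641_c)) (BT.Fa_leaf (P := Itm.ok 206) (iqf tpr1135_c)))) (BT.Fa_mk (BT.Fa_mk (BT.Fa_leaf (P := Itm.ok 206) (iqb tpr646_c)) (BT.Fa_leaf (P := Itm.ok 206) (iqb tpr210_c))) (BT.Fa_mk (BT.Fa_leaf (P := Itm.ok 206) (iqf tpr618_c)) (BT.Fa_leaf (P := Itm.ok 206) (iqf tpr1015_c)))))) (BT.Fa_mk (BT.Fa_mk (BT.Fa_mk (BT.Fa_mk (BT.Fa_leaf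 (P := Itm.ok 206) (iqf tpr597_c)) (BT.Fa_leaf (P := Itm.ok 206) (iqf tpr739_c))) (BT.Fa_mk (BT.Fa_leaf (P := Itm.ok 206) (iqf tpr624_c)) (BT.Fa_leaf (P := Itm.ok 206) (iqf tpr508_c)))) (BT.Fa_mk (BT.Fa_mk (BT.Fa_leaf (P := Itm.ok 206) (iqb tpr680_c)) (BT.Fa_leaf (P := Itm.ok 206) (iqf tpr966_c))) (BT.Fa_mk (BT.Fa_leaf (P := Itm.ok 206) (iqb tpr692_c)) (BT.Fa_leaf (P := Itm.ok 206) (iqf tpr631_c))))) (BT.Fa_mk (BT.Fa_mk (BT.Fa_mk (BT.Fa_leaf (P := Itm.ok 206) (iqb tpr203_c)) (BT.Fa_leaf (P := Itm.ok 206) (iqf tpr511_c))) (BT.Fa_mk (BT.Fa_leaf (P := Itm.ok 206) (iqf tpr675_c)) (BT.Fa_leaf (P := Itm.ok 206) (iqb tpr610_c)))) (BT.Fa_mk (BT.Fa_mk (BT.Fa_leaf (P := Itm.ok 206) (iqf tpr636_c)) (BT.Fa_leaf (P := Itm.ok 206) (iqb tpr1064_c))) (BT.Fa_leaf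 (P := Itm.ok 206) (iqf tpr251_c)))))) (BT.Fa_mk (BT.Fa_mk (BT.Fa_mk (BT.Fa_mk (BT.Fa_mk (BT.Fa_leaf (P := Itm.ok 206) (iqb tpr606_c)) (BT.Fa_leaf (P := Itm.ok 206) (iqb tpr502_c))) (BT.Fa_mk (BT.Fa_leaf (P := Itm.ok 206) (iqb tpr589_c)) (BT.Fa_leaf (P := Itm.ok 206) (iqb tpr620_c)))) (BT.Fa_mk (BT.Fa_mk (BT.Fa_leaf (P := Itm.ok 206) (iqf tpr294_c)) (BT.Fa_leaf (P := Itm.ok 206) (iqf tpr1062_c))) (BT.Fa_mk (BT.Fa_leaf (P := Itm.ok 206) (iqb tpr1108_c)) (BT.Fa_leaf (P := Itm.ok 206) (iqf tpr812_c))))) (BT.Fa_mk (BT.Fa_mk (BT.Fa_mk (BT.Fa_leaf (P := Itm.ok 206) (iqb tpr583_c)) (BT.Fa_leaf (P := Itm.ok 206) (iqf tpr582_c))) (BT.Fa_mk (BT.Fa_leaf (P := Itm.ok 206) (iqf tpr235_c)) (BT.Fa_leaf (P := Itm.ok 206) (iqb tpr1054_c)))) (BT.Fa_mk (BT.Fa_mk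 (BT.Fa_leaf (P := Itm.ok 206) (iqb tpr1144_c)) (BT.Fa_leaf (P := Itm.ok 206) (iqf tpr1013_c))) (BT.Fa_mk (BT.Fa_leaf (P := Itm.ok 206) (iqb tpr1016_c)) (BT.Fa_leaf (P := Itm.ok 206) (iqb tpr554_c)))))) (BT.Fa_mk (BT.Fa_mk (BT.Fa_mk (BT.Fa_mk (BT.Fa_leaf (P := Itm.ok 206) (iqf tpr1024_c)) (BT.Fa_leaf (P := Itm.ok 206) (iqf tpr1032_c))) (BT.Fa_mk (BT.Fa_leaf (P := Itm.ok 206) (iqf tpr1130_c)) (BT.Fa_leaf (P := Itm.ok 206) (iqb tpr641_c)))) (BT.Fa_mk (BT.Fa_mk (BT.Fa_leaf (P := Itm.ok 206) (iqb tpr1126_c)) (BT.Fa_leaf (P := Itm.ok 206) (iqb tpr1024_c))) (BT.Fa_mk (BT.Fa_leaf (P := Itm.ok 206) (iqb tpr1748_c)) (BT.Fa_leaf (P := Itm.ok 206) (iqf tpr1029_c))))) (BT.Fa_mk (BT.Fa_mk (BT.Fa_mk (BT.Fa_leaf (P := Itm.ok 206) (iqb tpr1032_c)) (BT.Fa_leaf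 (P := Itm.ok 206) (iqb tpr1068_c))) (BT.Fa_mk (BT.Fa_leaf (P := Itm.ok 206) (iqf tpr1148_c)) (BT.Fa_leaf (P := Itm.ok 206) (iqf tpr89_c)))) (BT.Fa_mk (BT.Fa_mk (BT.Fa_leaf (P := Itm.ok 206) (iqf tpr1071_c)) (BT.Fa_leaf (P := Itm.ok 206) (iqb tpr1154_c))) (BT.Fa_leaf (P := Itm.ok 206) (iqf tpr22_c))))))) (BT.Fa_mk (BT.Fa_mk (BT.Fa_mk (BT.Fa_mk (BT.Fa_mk (BT.Fa_mk (BT.Fa_leaf (P := Itm.ok 206) (iqb tpr17_c)) (BT.Fa_leaf (P := Itm.ok 206) (iqf tpr608_c))) (BT.Fa_mk (BT.Fa_leaf (P := Itm.ok 206) (iqb tpr516_c)) (BT.Fa_leaf (P := Itm.ok 206) (iqf tpr589_c)))) (BT.Fa_mk (BT.Fa_mk (BT.Fa_leaf (P := Itm.ok 206) (iqb tpr1015_c)) (BT.Fa_leaf (P := Itm.ok 206) (iqb tpr700_c))) (BT.Fa_mk (BT.Fa_leaf (P := Itm.ok 206) (iqf tpr577_c)) (BT.Fa_leaf (P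 := Itm.ok 206) (iqb tpr679_c))))) (BT.Fa_mk (BT.Fa_mk (BT.Fa_mk (BT.Fa_leaf (P := Itm.ok 206) (iqf tpr1019_c)) (BT.Fa_leaf (P := Itm.ok 206) (iqb tpr619_c))) (BT.Fa_mk (BT.Fa_leaf (P := Itm.ok 206) (iqf tpr614_c)) (BT.Fa_leaf (P := Itm.ok 206) (iqb tpr615_c)))) (BT.Fa_mk (BT.Fa_mk (BT.Fa_leaf (P := Itm.ok 206) (iqb tpr675_c)) (BT.Fa_leaf (P := Itm.ok 206) (iqf tpr1050_c))) (BT.Fa_mk (BT.Fa_leaf (P := Itm.ok 206) (iqb tpr294_c)) (BT.Fa_leaf (P := Itm.ok 206) (iqb tpr503_c)))))) (BT.Fa_mk (BT.Fa_mk (BT.Fa_mk (BT.Fa_mk (BT.Fa_leaf (P := Itm.ok 206) (iqb tpr636_c)) (BT.Fa_leaf (P := Itm.ok 206) (iqb tpr547_c))) (BT.Fa_mk (BT.Fa_leaf (P := Itm.ok 206) (iqb tpr514_c)) (BT.Fa_leaf (P := Itm.ok 206) (iqb tpr556_c)))) (BT.Fa_mk (BT.Fa_mk (BT.Fa_leaf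 (P := Itm.ok 206) (iqb tpr745_c)) (BT.Fa_leaf (P := Itm.ok 206) (iqf tpr1075_c))) (BT.Fa_mk (BT.Fa_leaf (P := Itm.ok 206) (iqb tpr631_c)) (BT.Fa_leaf (P := Itm.ok 206) (iqf tpr1052_c))))) (BT.Fa_mk (BT.Fa_mk (BT.Fa_mk (BT.Fa_leaf (P := Itm.ok 206) (iqb tpr576_c)) (BT.Fa_leaf (P := Itm.ok 206) (iqb tpr62_c))) (BT.Fa_mk (BT.Fa_leaf (P := Itm.ok 206) (iqb tpr614_c)) (BT.Fa_leaf (P := Itm.ok 206) (iqf tpr619_c)))) (BT.Fa_mk (BT.Fa_mk (BT.Fa_leaf (P := Itm.ok 206) (iqb tpr704_c)) (BT.Fa_leaf (P := Itm.ok 206) (iqf tpr546_c))) (BT.Fa_leaf (P := Itm.ok 206) (iqf tpr704_c)))))) (BT.Fa_mk (BT.Fa_mk (BT.Fa_mk (BT.Fa_mk (BT.Fa_mk (BT.Fa_leaf (P := Itm.ok 206) (iqb tpr1037_c)) (BT.Fa_leaf (P := Itm.ok 206) (iqf tpr25_c))) (BT.Fa_mk (BT.Fa_leaf (P :=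 Itm.ok 206) (iqf tpr519_c)) (BT.Fa_leaf (P := Itm.ok 206) (iqf tpr1069_c)))) (BT.Fa_mk (BT.Fa_mk (BT.Fa_leaf (P := Itm.ok 206) (iqf tpr1070_c)) (BT.Fa_leaf (P := Itm.ok 206) (iqb tpr521_c))) (BT.Fa_mk (BT.Fa_leaf (P := Itm.ok 206) (iqf tpr983_c)) (BT.Fa_leaf (P := Itm.ok 206) (iqb tpr1004_c))))) (BT.Fa_mk (BT.Fa_mk (BT.Fa_mk (BT.Fa_leaf (P := Itm.ok 206) (iqb tpr1066_c)) (BT.Fa_leaf (P := Itm.ok 206) (iqf tpr687_c))) (BT.Fa_mk (BT.Fa_leaf (P := Itm.ok 206) (iqf tpr553_c)) (BT.Fa_leaf (P := Itm.ok 206) (iqf tpr514_c)))) (BT.Fa_mk (BT.Fa_mk (BT.Fa_leaf (P := Itm.ok 206) (iqf tpr503_c)) (BT.Fa_leaf (P := Itm.ok 206) (iqf tpr576_c))) (BT.Fa_mk (BT.Fa_leaf (P := Itm.ok 206) (iqb tpr499_c)) (BT.Fa_leaf (P := Itm.ok 206) (iqf tpr1031_c)))))) (BT.Fa_mk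 (BT.Fa_mk (BT.Fa_mk (BT.Fa_mk (BT.Fa_leaf (P := Itm.ok 206) (iqb tpr557_c)) (BT.Fa_leaf (P := Itm.ok 206) (iqb tpr582_c))) (BT.Fa_mk (BT.Fa_leaf (P := Itm.ok 206) (iqb tpr665_c)) (BT.Fa_leaf (P := Itm.ok 206) (iqb tpr223_c)))) (BT.Fa_mk (BT.Fa_mk (BT.Fa_leaf (P := Itm.ok 206) (iqb tpr640_c)) (BT.Fa_leaf (P := Itm.ok 206) (iqb tpr1171_c))) (BT.Fa_mk (BT.Fa_leaf (P := Itm.ok 206) (iqf tpr188_c)) (BT.Fa_leaf (P := Itm.ok 206) (iqf tpr727_c))))) (BT.Fa_mk (BT.Fa_mk (BT.Fa_mk (BT.Fa_leaf (P := Itm.ok 206) (iqb tpr1169_c)) (BT.Fa_leaf (P := Itm.ok 206) (iqf tpr1041_c))) (BT.Fa_mk (BT.Fa_leaf (P := Itm.ok 206) (iqb tpr1125_c)) (BT.Fa_leaf (P := Itm.ok 206) (iqf tpr1090_c)))) (BT.Fa_mk (BT.Fa_mk (BT.Fa_leaf (P := Itm.ok 206) (iqb tpr1031_c)) (BT.Fa_leaf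 (P := Itm.ok 206) (iqb tpr1013_c))) (BT.Fa_leaf (P := Itm.ok 206) (iqb tpr687_c)))))))))

/-- all words of the class have labels -/
theorem pokNFzE2ByA3H2AzAyB2H3AyB2EzF : POK 206 xNFzE2ByA3H2AzAyB2H3AyB2EzF :=
  y_pok (C0 := ceNFzE2ByA3H2AzAyB2H3AyB2EzF) (C1 := coNFzE2ByA3H2AzAyB2H3AyB2EzF) topNFzE2ByA3H2AzAyB2H3AyB2EzF nbNFzE2ByA3H2AzAyB2H3AyB2EzF (BT.Fa_of_all iiNFzE2ByA3H2AzAyB2H3AyB2EzF_c)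
    (BT.Fa_mk (BT.Fa_mk (cyE_spec zeNFzE2ByA3H2AzAyB2H3AyB2EzF_0) (cyE_spec zeNFzE2ByA3H2AzAyB2H3AyB2EzF_1)) (BT.Fa_mk (BT.Fa_mk (BT.Fa_mk (cyE_spec zeNFzE2ByA3H2AzAyB2H3AyB2EzF_2) (cyE_spec zeNFzE2ByA3H2AzAyB2H3AyB2EzF_3)) (BT.Fa_mk (cyE_spec zeNFzE2ByA3H2AzAyB2H3AyB2EzF_4) (cyE_spec zeNFzE2ByA3H2AzAyB2H3AyB2EzF_5))) (BT.Fa_mk (BT.Fa_mk (cyE_spec zeNFzE2ByA3H2AzAyB2H3AyB2EzF_6) (cyE_spec zeNFzE2ByA3H2AzAyB2H3AyB2EzF_7)) (cyE_spec zeNFzE2ByA3H2AzAyB2H3AyB2EzF_8))))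
    (BT.Fa_mk (BT.Fa_mk (cyO_spec zoNFzE2ByA3H2AzAyB2H3AyB2EzF_0) (cyO_spec zoNFzE2ByA3H2AzAyB2H3AyB2EzF_1)) (BT.Fa_mk (BT.Fa_mk (BT.Fa_mk (cyO_spec zoNFzE2ByA3H2AzAyB2H3AyB2EzF_2) (cyO_spec zoNFzE2ByA3H2AzAyB2H3AyB2EzF_3)) (BT.Fa_mk (BT.Fa_mk (cyO_spec zoNFzE2ByA3H2AzAyB2H3AyB2EzF_4) (cyO_spec zoNFzE2ByA3H2AzAyB2H3AyB2EzF_5)) (cyO_spec zoNFzE2ByA3H2AzAyB2H3AyB2EzF_6))) (BT.Fa_mk (cyO_spec zoNFzE2ByA3H2AzAyB2H3AyB2EzF_7) (cyO_spec zoNFzE2ByA3H2AzAyB2H3AyB2EzF_8))))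
    iiNFzE2ByA3H2AzAyB2H3AyB2EzF_k

theorem iiNFzE2ByA3H2AzIzA2H3A2AzAyBzF_k : iiNFzE2ByA3H2AzIzA2H3A2AzAyBzF.Fa (Itm.ok 206) := (BT.Fa_mk (BT.Fa_mk (BT.Fa_mk (BT.Fa_mk (BT.Fa_mk (BT.Fa_mk (BT.Fa_mk (BT.Fa_leaf (P := Itm.ok 206) (iqf tpr500_c)) (BT.Fa_leaf (P := Itm.ok 206) (iqf tpr168_c))) (BT.Fa_mk (BT.Fa_leaf (P := Itm.ok 206) (iqb tpr500_c)) (BT.Fa_leaf (P := Itm.ok 206) (iqf tpr5_c)))) (BT.Fa_mk (BT.Fa_mk (BT.Fa_leaf (P := Itm.ok 206) (iqb tpr90_c)) (BT.Fa_leaf (P := Itm.ok 206) (iqf tpr216_c))) (BT.Fa_mk (BT.Fa_leaf (P := Itm.ok 206) (iqb tpr72_c)) (BT.Fa_leaf (P := Itm.ok 206) (iqf tpr12_c))))) (BT.Fa_mk (BT.Fa_mk (BT.Fa_mk (BT.Fa_leaf (P := Itm.ok 206) (iqf tpr259_c)) (BT.Fa_leaf (P := Itm.ok 206) (iqb tpr506_c))) (BT.Fa_mk (BT.Fa_leaf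 (P := Itm.ok 206) (iqb tpr106_c)) (BT.Fa_leaf (P := Itm.ok 206) (iqb tpr48_c)))) (BT.Fa_mk (BT.Fa_mk (BT.Fa_leaf (P := Itm.ok 206) (iqb tpr583_c)) (BT.Fa_leaf (P := Itm.ok 206) (iqb tpr144_c))) (BT.Fa_mk (BT.Fa_leaf (P := Itm.ok 206) (iqb tpr10_c)) (BT.Fa_leaf (P := Itm.ok 206) (iqb tpr804_c)))))) (BT.Fa_mk (BT.Fa_mk (BT.Fa_mk (BT.Fa_mk (BT.Fa_leaf (P := Itm.ok 206) (iqb tpr133_c)) (BT.Fa_leaf (P := Itm.ok 206) (iqb tpr188_c))) (BT.Fa_mk (BT.Fa_leaf (P := Itm.ok 206) (iqb tpr2405_c)) (BT.Fa_leaf (P := Itm.ok 206) (iqb tpr582_c)))) (BT.Fa_mk (BT.Fa_mk (BT.Fa_leaf (P := Itm.ok 206) (iqf tpr931_c)) (BT.Fa_leaf (P := Itm.ok 206) (iqf tpr596_c))) (BT.Fa_mk (BT.Fa_leaf (P := Itm.ok 206) (iqb tpr645_c)) (BT.Fa_leaf (P := Itm.ok 206) (iqf tpr131_c)))))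 (BT.Fa_mk (BT.Fa_mk (BT.Fa_mk (BT.Fa_leaf (P := Itm.ok 206) (iqb tpr816_c)) (BT.Fa_leaf (P := Itm.ok 206) (iqb tpr748_c))) (BT.Fa_mk (BT.Fa_leaf (P := Itm.ok 206) (iqf tpr977_c)) (BT.Fa_leaf (P := Itm.ok 206) (iqf tpr940_c)))) (BT.Fa_mk (BT.Fa_mk (BT.Fa_leaf (P := Itm.ok 206) (iqf tpr143_c)) (BT.Fa_leaf (P := Itm.ok 206) (iqb tpr2612_c))) (BT.Fa_mk (BT.Fa_leaf (P := Itm.ok 206) (iqb tpr2494_c)) (BT.Fa_leaf (P := Itm.ok 206) (iqf tpr479_c))))))) (BT.Fa_mk (BT.Fa_mk (BT.Fa_mk (BT.Fa_mk (BT.Fa_mk (BT.Fa_leaf (P := Itm.ok 206) (iqb tpr1681_c)) (BT.Fa_leaf (P := Itm.ok 206) (iqf tpr456_c))) (BT.Fa_mk (BT.Fa_leaf (P := Itm.ok 206) (iqf tpr1311_c)) (BT.Fa_leaf (P := Itm.ok 206) (iqf tpr464_c)))) (BT.Fa_mk (BT.Fa_mk (BT.Fa_leaf (P := Itm.ok 206)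 (iqb tpr2518_c)) (BT.Fa_leaf (P := Itm.ok 206) (iqb tpr2111_c))) (BT.Fa_mk (BT.Fa_leaf (P := Itm.ok 206) (iqf tpr2571_c)) (BT.Fa_leaf (P := Itm.ok 206) (iqb tpr2540_c))))) (BT.Fa_mk (BT.Fa_mk (BT.Fa_mk (BT.Fa_leaf (P := Itm.ok 206) (iqf tpr1305_c)) (BT.Fa_leaf (P := Itm.ok 206) (iqb tpr242_c))) (BT.Fa_mk (BT.Fa_leaf (P := Itm.ok 206) (iqb tpr1371_c)) (BT.Fa_leaf (P := Itm.ok 206) (iqb tpr1349_c)))) (BT.Fa_mk (BT.Fa_mk (BT.Fa_leaf (P := Itm.ok 206) (iqf tpr51_c)) (BT.Fa_leaf (P := Itm.ok 206) (iqb tpr20_c))) (BT.Fa_mk (BT.Fa_leaf (P := Itm.ok 206) (iqb tpr33_c)) (BT.Fa_leaf (P := Itm.ok 206) (iqf tpr4_c)))))) (BT.Fa_mk (BT.Fa_mk (BT.Fa_mk (BT.Fa_mk (BT.Fa_leaf (P := Itm.ok 206) (iqf tpr92_c)) (BT.Fa_leaf (P := Itm.ok 206) (iqb tpr677_c)))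 (BT.Fa_mk (BT.Fa_leaf (P := Itm.ok 206) (iqf tpr50_c)) (BT.Fa_leaf (P := Itm.ok 206) (iqf tpr609_c)))) (BT.Fa_mk (BT.Fa_mk (BT.Fa_leaf (P := Itm.ok 206) (iqb tpr557_c)) (BT.Fa_leaf (P := Itm.ok 206) (iqb tpr788_c))) (BT.Fa_mk (BT.Fa_leaf (P := Itm.ok 206) (iqf tpr32_c)) (BT.Fa_leaf (P := Itm.ok 206) (iqb tpr113_c))))) (BT.Fa_mk (BT.Fa_mk (BT.Fa_mk (BT.Fa_leaf (P := Itm.ok 206) (iqf tpr147_c)) (BT.Fa_leaf (P := Itm.ok 206) (iqb tpr1747_c))) (BT.Fa_mk (BT.Fa_leaf (P := Itm.ok 206) (iqb tpr1233_c)) (BT.Fa_leaf (P := Itm.ok 206) (iqb tpr63_c)))) (BT.Fa_mk (BT.Fa_mk (BT.Fa_leaf (P := Itm.ok 206) (iqf tpr1320_c)) (BT.Fa_leaf (P := Itm.ok 206) (iqf tpr541_c))) (BT.Fa_leaf (P := Itm.ok 206) (iqf tpr67_c))))))) (BT.Fa_mk (BT.Fa_mk (BT.Fa_mk (BT.Fa_mk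 (BT.Fa_mk (BT.Fa_mk (BT.Fa_leaf (P := Itm.ok 206) (iqf tpr1325_c)) (BT.Fa_leaf (P := Itm.ok 206) (iqb tpr2562_c))) (BT.Fa_mk (BT.Fa_leaf (P := Itm.ok 206) (iqf tpr2520_c)) (BT.Fa_leaf (P := Itm.ok 206) (iqb tpr1337_c)))) (BT.Fa_mk (BT.Fa_mk (BT.Fa_leaf (P := Itm.ok 206) (iqf tpr1309_c)) (BT.Fa_leaf (P := Itm.ok 206) (iqb tpr4_c))) (BT.Fa_mk (BT.Fa_leaf (P := Itm.ok 206) (iqf tpr2404_c)) (BT.Fa_leaf (P := Itm.ok 206) (iqb tpr1328_c))))) (BT.Fa_mk (BT.Fa_mk (BT.Fa_mk (BT.Fa_leaf (P := Itm.ok 206) (iqb tpr1323_c)) (BT.Fa_leaf (P := Itm.ok 206) (iqb tpr2932_c))) (BT.Fa_mk (BT.Fa_leaf (P := Itm.ok 206) (iqf tpr2024_c)) (BT.Fa_leaf (P := Itm.ok 206) (iqf tpr1423_c)))) (BT.Fa_mk (BT.Fa_mk (BT.Fa_leaf (P := Itm.ok 206) (iqb tpr2595_c)) (BT.Fa_leaf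 (P := Itm.ok 206) (iqf tpr115_c))) (BT.Fa_mk (BT.Fa_leaf (P := Itm.ok 206) (iqf tpr454_c)) (BT.Fa_leaf (P := Itm.ok 206) (iqb tpr517_c)))))) (BT.Fa_mk (BT.Fa_mk (BT.Fa_mk (BT.Fa_mk (BT.Fa_leaf (P := Itm.ok 206) (iqf tpr568_c)) (BT.Fa_leaf (P := Itm.ok 206) (iqb tpr54_c))) (BT.Fa_mk (BT.Fa_leaf (P := Itm.ok 206) (iqf tpr2485_c)) (BT.Fa_leaf (P := Itm.ok 206) (iqb tpr547_c)))) (BT.Fa_mk (BT.Fa_mk (BT.Fa_leaf (P := Itm.ok 206) (iqf tpr91_c)) (BT.Fa_leaf (P := Itm.ok 206) (iqf tpr2398_c))) (BT.Fa_mk (BT.Fa_leaf (P := Itm.ok 206) (iqb tpr534_c)) (BT.Fa_leaf (P := Itm.ok 206) (iqb tpr477_c))))) (BT.Fa_mk (BT.Fa_mk (BT.Fa_mk (BT.Fa_leaf (P := Itm.ok 206) (iqf tpr617_c)) (BT.Fa_leaf (P := Itm.ok 206) (iqb tpr2031_c))) (BT.Fa_mk (BT.Fa_leaf (P :=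 Itm.ok 206) (iqb tpr782_c)) (BT.Fa_leaf (P := Itm.ok 206) (iqb tpr2488_c)))) (BT.Fa_mk (BT.Fa_mk (BT.Fa_leaf (P := Itm.ok 206) (iqf tpr1313_c)) (BT.Fa_leaf (P := Itm.ok 206) (iqb tpr812_c))) (BT.Fa_mk (BT.Fa_leaf (P := Itm.ok 206) (iqf tpr485_c)) (BT.Fa_leaf (P := Itm.ok 206) (iqf tpr1010_c))))))) (BT.Fa_mk (BT.Fa_mk (BT.Fa_mk (BT.Fa_mk (BT.Fa_mk (BT.Fa_leaf (P := Itm.ok 206) (iqf tpr35_c)) (BT.Fa_leaf (P := Itm.ok 206) (iqb tpr28_c))) (BT.Fa_mk (BT.Fa_leaf (P := Itm.ok 206) (iqf tpr95_c)) (BT.Fa_leaf (P := Itm.ok 206) (iqb tpr39_c)))) (BT.Fa_mk (BT.Fa_mk (BT.Fa_leaf (P := Itm.ok 206) (iqf tpr820_c)) (BT.Fa_leaf (P := Itm.ok 206) (iqb tpr21_c))) (BT.Fa_mk (BT.Fa_leaf (P := Itm.ok 206) (iqf tpr803_c)) (BT.Fa_leaf (P := Itm.ok 206) (iqf tpr1359_c)))))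 (BT.Fa_mk (BT.Fa_mk (BT.Fa_mk (BT.Fa_leaf (P := Itm.ok 206) (iqb tpr1335_c)) (BT.Fa_leaf (P := Itm.ok 206) (iqf tpr2671_c))) (BT.Fa_mk (BT.Fa_leaf (P := Itm.ok 206) (iqf tpr1374_c)) (BT.Fa_leaf (P := Itm.ok 206) (iqf tpr1347_c)))) (BT.Fa_mk (BT.Fa_mk (BT.Fa_leaf (P := Itm.ok 206) (iqf tpr611_c)) (BT.Fa_leaf (P := Itm.ok 206) (iqf tpr1334_c))) (BT.Fa_mk (BT.Fa_leaf (P := Itm.ok 206) (iqf tpr1355_c)) (BT.Fa_leaf (P := Itm.ok 206) (iqf tpr139_c)))))) (BT.Fa_mk (BT.Fa_mk (BT.Fa_mk (BT.Fa_mk (BT.Fa_leaf (P := Itm.ok 206) (iqb tpr499_c)) (BT.Fa_leaf (P := Itm.ok 206) (iqf tpr111_c))) (BT.Fa_mk (BT.Fa_leaf (P := Itm.ok 206) (iqb tpr941_c)) (BT.Fa_leaf (P := Itm.ok 206) (iqf tpr186_c)))) (BT.Fa_mk (BT.Fa_mk (BT.Fa_leaf (P := Itm.ok 206) (iqf tpr614_c))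 (BT.Fa_leaf (P := Itm.ok 206) (iqb tpr682_c))) (BT.Fa_mk (BT.Fa_leaf (P := Itm.ok 206) (iqf tpr733_c)) (BT.Fa_leaf (P := Itm.ok 206) (iqb tpr789_c))))) (BT.Fa_mk (BT.Fa_mk (BT.Fa_mk (BT.Fa_leaf (P := Itm.ok 206) (iqf tpr293_c)) (BT.Fa_leaf (P := Itm.ok 206) (iqf tpr605_c))) (BT.Fa_mk (BT.Fa_leaf (P := Itm.ok 206) (iqf tpr947_c)) (BT.Fa_leaf (P := Itm.ok 206) (iqb tpr849_c)))) (BT.Fa_mk (BT.Fa_mk (BT.Fa_leaf (P := Itm.ok 206) (iqf tpr2934_c)) (BT.Fa_leaf (P := Itm.ok 206) (iqb tpr29_c))) (BT.Fa_leaf (P := Itm.ok 206) (iqf tpr737_c))))))))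

/-- all words of the class have labels -/
theorem pokNFzE2ByA3H2AzIzA2H3A2AzAyBzF : POK 206 xNFzE2ByA3H2AzIzA2H3A2AzAyBzF :=
  y_pok (C0 := ceNFzE2ByA3H2AzIzA2H3A2AzAyBzF) (C1 := coNFzE2ByA3H2AzIzA2H3A2AzAyBzF) topNFzE2ByA3H2AzIzA2H3A2AzAyBzF nbNFzE2ByA3H2AzIzA2H3A2AzAyBzF (BT.Fa_of_all iiNFzE2ByA3H2AzIzA2H3A2AzAyBzF_c)
    (cyE_spec zeNFzE2ByA3H2AzIzA2H3A2AzAyBzF_0)
    (cyO_spec zoNFzE2ByA3H2AzIzA2H3A2AzAyBzF_0)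
    iiNFzE2ByA3H2AzIzA2H3A2AzAyBzF_k


end MPb6R
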