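import Pool.Agent.Lib.MP_b6d339_lc.Cw3.F0
import Pool.Agent.Lib.MP_b6d339_lc.Cw3.F1
import Pool.Agent.Lib.MP_b6d339_lc.Cw3.F2
import Pool.Agent.Lib.MP_b6d339_lc.Cw3.F3
import Pool.Agent.Lib.MP_b6d339_lc.Cw3.F4
import Pool.Agent.Lib.MP_b6d339_lc.Cw3.F6
import Pool.Agent.Lib.MP_b6d339_lc.Cw3.F7
import Pool.Agent.Lib.MP_b6d339_lc.Cw3.F8
import Pool.Agent.Lib.MP_b6d339_lc.Cw3.F9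
import Pool.Agent.Lib.MP_b6d339_lc.Cw3.S11
import Pool.Agent.Lib.MP_b6d339_lc.Cw3.XL
import Pool.Agent.Lib.MP_b6d339_lc.Pos.XTreeC
import Pool.Agent.Lib.MP_b6d339_lc.Pos.YQ

/-!
# Erdős 592, three levels: classes of words
-/

namespace MPb6R

open MPb6P

theorem xNFzE2A3H2AzIzA2H3AyB2EzF_rNBzE2A3H2AzIzA2H3AyB2EzF_ok : POK 420 xNFzE2A3H2AzIzA2H3AyB2EzF_rNBzE2A3H2AzIzA2H3AyB2EzF := POK.rev' pokNBzE2A3H2AzIzA2H3AyB2EzF (by decide +kernel)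

theorem xNFzE2A3H2AzIzA2H3AyB2EzF_rNFzA2ByA3H2AzIzA2H3A2EzF_ok : POK 420 xNFzE2A3H2AzIzA2H3AyB2EzF_rNFzA2ByA3H2AzIzA2H3A2EzF := POK.rev' pokNFzA2ByA3H2AzIzA2H3A2EzF (by decide +kernel)

theorem xNFzE2A3H2AzIzA2H3AyB2EzF_rNFzA2E2ByA3H2AzIzA2H3A2EzAyBzF_ok : POK 420 xNFzE2A3H2AzIzA2H3AyB2EzF_rNFzA2E2ByA3H2AzIzA2H3A2EzAyBzF := POK.rev' pokNFzA2E2ByA3H2AzIzA2H3A2EzAyBzF (by decide +kernel)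

theorem xNFzE2A3H2AzIzA2H3AyB2EzF_rNFzAyE2ByA3H2AzIzA2AyH3A2A2AzAyBzF_ok : POK 420 xNFzE2A3H2AzIzA2H3AyB2EzF_rNFzAyE2ByA3H2AzIzA2AyH3A2A2AzAyBzF := POK.rev' pokNFzAyE2ByA3H2AzIzA2AyH3A2A2AzAyBzF (by decide +kernel)

theorem xNFzE2A3H2AzIzA2H3AyB2EzF_rNFzAyE2ByA3H2AzIzA2H3A2E2A2AzAyAyF_ok : POK 420 xNFzE2A3H2AzIzA2H3AyB2EzF_rNFzAyE2ByA3H2AzIzA2H3A2E2A2AzAyAyF := POK.rev' pokNFzAyE2ByA3H2AzIzA2H3A2E2A2AzAyAyF (by decide +kernel)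

theorem xNFzE2A3H2AzIzA2H3AyB2EzF_rNFzAyE2ByA3H2AzIzA2H3A2E2A2AzAyAzF_ok : POK 420 xNFzE2A3H2AzIzA2H3AyB2EzF_rNFzAyE2ByA3H2AzIzA2H3A2E2A2AzAyAzF := POK.rev' pokNFzAyE2ByA3H2AzIzA2H3A2E2A2AzAyAzF (by decide +kernel)

theorem xNFzE2A3H2AzIzA2H3AyB2EzF_rNFzAyE2ByA3H2AzIzA2H3A2EyA2AzAyBzF_ok : POK 420 xNFzE2A3H2AzIzA2H3AyB2EzF_rNFzAyE2ByA3H2AzIzA2H3A2EyA2AzAyBzF := POK.rev' pokNFzAyE2ByA3H2AzIzA2H3A2EyA2AzAyBzF (by decide +kernel)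

theorem xNFzE2A3H2AzIzA2H3AyB2EzF_rNFzAzE2A3H2AzIzA2H3AyB2EzF_ok : POK 420 xNFzE2A3H2AzIzA2H3AyB2EzF_rNFzAzE2A3H2AzIzA2H3AyB2EzF := POK.rev' pokNFzAzE2A3H2AzIzA2H3AyB2EzF (by decide +kernel)

theorem xNFzE2A3H2AzIzA2H3AyB2EzF_rNFzByAzA2A2A3H2A2AzIzA2H3AyB2EyAzF_ok : POK 420 xNFzE2A3H2AzIzA2H3AyB2EzF_rNFzByAzA2A2A3H2A2AzIzA2H3AyB2EyAzF := POK.rev' pokNFzByAzA2A2A3H2A2AzIzA2H3AyB2EyAzF (by decide +kernel)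

theorem xNFzE2A3H2AzIzA2H3AyB2EzF_rNFzE2A3A2AzIzA2H3AyB2EzF_ok : POK 420 xNFzE2A3H2AzIzA2H3AyB2EzF_rNFzE2A3A2AzIzA2H3AyB2EzF := POK.rev' pokNFzE2A3A2AzIzA2H3AyB2EzF (by decide +kernel)

theorem xNFzE2A3H2AzIzA2H3AyB2EzF_rNFzE2A3H3A2AzIzA2H3AyB2EzF_ok : POK 420 xNFzE2A3H2AzIzA2H3AyB2EzF_rNFzE2A3H3A2AzIzA2H3AyB2EzF := POK.rev' pokNFzE2A3H3A2AzIzA2H3AyB2EzF (by decide +kernel)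

theorem xNFzE2A3H2AzIzA2H3AyB2EzF_rNFzE2ByA3H2AzIzA2H3A2AzAyBzF_ok : POK 420 xNFzE2A3H2AzIzA2H3AyB2EzF_rNFzE2ByA3H2AzIzA2H3A2AzAyBzF := POK.rev' pokNFzE2ByA3H2AzIzA2H3A2AzAyBzF (by decide +kernel)

theorem xNFzE2A3H2AzIzA2H3AyB2EzF_rNFzE2ByA3H2AzIzA2H3A2EyAzF_ok : POK 420 xNFzE2A3H2AzIzA2H3AyB2EzF_rNFzE2ByA3H2AzIzA2H3A2EyAzF := POK.rev' pokNFzE2ByA3H2AzIzA2H3A2EyAzF (by decide +kernel)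

theorem xNFzE2A3H2AzIzA2H3AyB2EzF_rNFzE2ByA3H2AzIzA2H3A2EzB2F_ok : POK 420 xNFzE2A3H2AzIzA2H3AyB2EzF_rNFzE2ByA3H2AzIzA2H3A2EzB2F := POK.rev' pokNFzE2ByA3H2AzIzA2H3A2EzB2F (by decide +kernel)

theorem iiNFzE2A3H2AzIzA2H3AyB2EzF_k : iiNFzE2A3H2AzIzA2H3AyB2EzF.Fa (Itm.ok 420) := (BT.Fa_mk (BT.Fa_mk (BT.Fa_mk (BT.Fa_mk (BT.Fa_mk (BT.Fa_leaf (P := Itm.ok 420) (show Itm.ok 420 (.pat 0 xNBzE2A3H2AzIzA2H3AyB2EzF) from (POK.mono (by decide) pokNBzE2A3H2AzIzA2H3AyB2EzF))) (BT.Fa_leaf (P := Itm.ok 420) (show Itm.ok 420 (.pat 24 xNFzE2A3H2AzIzA2H3AyB2EzF_rNBzE2A3H2AzIzA2H3AyB2EzF) from (POK.mono (by decide) xNFzE2A3H2AzIzA2H3AyB2EzF_rNBzE2A3H2AzIzA2H3AyB2EzF_ok)))) (BT.Fa_mk (BT.Fa_leaf (P := Itm.ok 420) (show Itm.ok 420 (.pat 48 xNFzE2ByA3H2AzIzA2H3A2EzB2F)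 from (POK.mono (by decide) pokNFzE2ByA3H2AzIzA2H3A2EzB2F))) (BT.Fa_leaf (P := Itm.ok 420) (show Itm.ok 420 (.pat 74 xNFzE2A3H2AzIzA2H3AyB2EzF_rNFzE2ByA3H2AzIzA2H3A2EzB2F) from (POK.mono (by decide) xNFzE2A3H2AzIzA2H3AyB2EzF_rNFzE2ByA3H2AzIzA2H3A2EzB2F_ok))))) (BT.Fa_mk (BT.Fa_mk (BT.Fa_leaf (P := Itm.ok 420) (show Itm.ok 420 (.pat 100 xNFzAyE2ByA3H2AzIzA2H3A2E2A2AzAyAyF) from (POK.mono (by decide) pokNFzAyE2ByA3H2AzIzA2H3A2E2A2AzAyAyF))) (BT.Fa_leaf (P := Itm.ok 420) (show Itm.ok 420 (.pat 134 xNFzE2A3H2AzIzA2H3AyB2EzF_rNFzAyE2ByA3H2AzIzA2H3A2E2A2AzAyAyF) from (POK.mono (by decide) xNFzE2A3H2AzIzA2H3AyB2EzF_rNFzAyE2ByA3H2AzIzA2H3A2E2A2AzAyAyF_ok)))) (BT.Fa_leaf (P := Itm.ok 420) (show Itm.ok 420 (.pat 168 xNFzA2ByA3H2AzIzA2H3A2EzF)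 from (POK.mono (by decide) pokNFzA2ByA3H2AzIzA2H3A2EzF))))) (BT.Fa_mk (BT.Fa_mk (BT.Fa_mk (BT.Fa_leaf (P := Itm.ok 420) (show Itm.ok 420 (.pat 192 xNFzE2A3H2AzIzA2H3AyB2EzF_rNFzA2ByA3H2AzIzA2H3A2EzF) from (POK.mono (by decide) xNFzE2A3H2AzIzA2H3AyB2EzF_rNFzA2ByA3H2AzIzA2H3A2EzF_ok))) (BT.Fa_leaf (P := Itm.ok 420) (show Itm.ok 420 (.pat 216 xNFzA2E2ByA3H2AzIzA2H3A2EzAyBzF) from (POK.mono (by decide) pokNFzA2E2ByA3H2AzIzA2H3A2EzAyBzF)))) (BT.Fa_mk (BT.Fa_leaf (P := Itm.ok 420) (show Itm.ok 420 (.pat 246 xNFzE2A3H2AzIzA2H3AyB2EzF_rNFzA2E2ByA3H2AzIzA2H3A2EzAyBzF) from (POK.mono (by decide) xNFzE2A3H2AzIzA2H3AyB2EzF_rNFzA2E2ByA3H2AzIzA2H3A2EzAyBzF_ok))) (BT.Fa_leaf (P := Itm.ok 420) (show Itm.ok 420 (.pat 276 xNFzAyE2ByA3H2AzIzA2H3A2E2A2AzAyAzF)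 from (POK.mono (by decide) pokNFzAyE2ByA3H2AzIzA2H3A2E2A2AzAyAzF))))) (BT.Fa_mk (BT.Fa_mk (BT.Fa_leaf (P := Itm.ok 420) (show Itm.ok 420 (.pat 310 xNFzE2A3H2AzIzA2H3AyB2EzF_rNFzAyE2ByA3H2AzIzA2H3A2E2A2AzAyAzF) from (POK.mono (by decide) xNFzE2A3H2AzIzA2H3AyB2EzF_rNFzAyE2ByA3H2AzIzA2H3A2E2A2AzAyAzF_ok))) (BT.Fa_leaf (P := Itm.ok 420) (show Itm.ok 420 (.pat 344 xNFzE2ByA3H2AzIzA2H3A2EyAzF) from (POK.mono (by decide) pokNFzE2ByA3H2AzIzA2H3A2EyAzF)))) (BT.Fa_leaf (P := Itm.ok 420) (show Itm.ok 420 (.pat 370 xNFzE2A3H2AzIzA2H3AyB2EzF_rNFzE2ByA3H2AzIzA2H3A2EyAzF) from (POK.mono (by decide) xNFzE2A3H2AzIzA2H3AyB2EzF_rNFzE2ByA3H2AzIzA2H3A2EyAzF_ok)))))) (BT.Fa_mk (BT.Fa_mk (BT.Fa_mk (BT.Fa_mk (BT.Fa_leaf (P := Itm.ok 420) (show Itm.ok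 420 (.pat 396 xNFzByAzA2A2A3H2A2AzIzA2H3AyB2EyAzF) from (POK.mono (by decide) pokNFzByAzA2A2A3H2A2AzIzA2H3AyB2EyAzF))) (BT.Fa_leaf (P := Itm.ok 420) (show Itm.ok 420 (.pat 430 xNFzE2A3H2AzIzA2H3AyB2EzF_rNFzByAzA2A2A3H2A2AzIzA2H3AyB2EyAzF) from (POK.mono (by decide) xNFzE2A3H2AzIzA2H3AyB2EzF_rNFzByAzA2A2A3H2A2AzIzA2H3AyB2EyAzF_ok)))) (BT.Fa_mk (BT.Fa_leaf (P := Itm.ok 420) (show Itm.ok 420 (.pat 464 xNFzAyE2ByA3H2AzIzA2AyH3A2A2AzAyBzF) from (POK.mono (by decide) pokNFzAyE2ByA3H2AzIzA2AyH3A2A2AzAyBzF))) (BT.Fa_leaf (P := Itm.ok 420) (show Itm.ok 420 (.pat 498 xNFzE2A3H2AzIzA2H3AyB2EzF_rNFzAyE2ByA3H2AzIzA2AyH3A2A2AzAyBzF) from (POK.mono (by decide) xNFzE2A3H2AzIzA2H3AyB2EzF_rNFzAyE2ByA3H2AzIzA2AyH3A2A2AzAyBzF_ok))))) (BT.Fa_mk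 (BT.Fa_mk (BT.Fa_leaf (P := Itm.ok 420) (show Itm.ok 420 (.pat 532 xNFzAyE2ByA3H2AzIzA2H3A2EyA2AzAyBzF) from (POK.mono (by decide) pokNFzAyE2ByA3H2AzIzA2H3A2EyA2AzAyBzF))) (BT.Fa_leaf (P := Itm.ok 420) (show Itm.ok 420 (.pat 566 xNFzE2A3H2AzIzA2H3AyB2EzF_rNFzAyE2ByA3H2AzIzA2H3A2EyA2AzAyBzF) from (POK.mono (by decide) xNFzE2A3H2AzIzA2H3AyB2EzF_rNFzAyE2ByA3H2AzIzA2H3A2EyA2AzAyBzF_ok)))) (BT.Fa_leaf (P := Itm.ok 420) (show Itm.ok 420 (.pat 600 xNFzAzE2A3H2AzIzA2H3AyB2EzF) from (POK.mono (by decide) pokNFzAzE2A3H2AzIzA2H3AyB2EzF))))) (BT.Fa_mk (BT.Fa_mk (BT.Fa_mk (BT.Fa_leaf (P := Itm.ok 420) (show Itm.ok 420 (.pat 626 xNFzE2A3H2AzIzA2H3AyB2EzF_rNFzAzE2A3H2AzIzA2H3AyB2EzF) from (POK.mono (by decide) xNFzE2A3H2AzIzA2H3AyB2EzF_rNFzAzE2A3H2AzIzA2H3AyB2EzF_ok)))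 (BT.Fa_leaf (P := Itm.ok 420) (show Itm.ok 420 (.pat 652 xNFzE2ByA3H2AzIzA2H3A2AzAyBzF) from (POK.mono (by decide) pokNFzE2ByA3H2AzIzA2H3A2AzAyBzF)))) (BT.Fa_mk (BT.Fa_leaf (P := Itm.ok 420) (show Itm.ok 420 (.pat 680 xNFzE2A3H2AzIzA2H3AyB2EzF_rNFzE2ByA3H2AzIzA2H3A2AzAyBzF) from (POK.mono (by decide) xNFzE2A3H2AzIzA2H3AyB2EzF_rNFzE2ByA3H2AzIzA2H3A2AzAyBzF_ok))) (BT.Fa_leaf (P := Itm.ok 420) (show Itm.ok 420 (.pat 708 xNFzE2A3A2AzIzA2H3AyB2EzF) from (POK.mono (by decide) pokNFzE2A3A2AzIzA2H3AyB2EzF))))) (BT.Fa_mk (BT.Fa_mk (BT.Fa_leaf (P := Itm.ok 420) (show Itm.ok 420 (.pat 732 xNFzE2A3H2AzIzA2H3AyB2EzF_rNFzE2A3A2AzIzA2H3AyB2EzF) from (POK.mono (by decide) xNFzE2A3H2AzIzA2H3AyB2EzF_rNFzE2A3A2AzIzA2H3AyB2EzF_ok))) (BT.Fa_leaf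 (P := Itm.ok 420) (show Itm.ok 420 (.pat 756 xNFzE2A3H3A2AzIzA2H3AyB2EzF) from (POK.mono (by decide) pokNFzE2A3H3A2AzIzA2H3AyB2EzF)))) (BT.Fa_leaf (P := Itm.ok 420) (show Itm.ok 420 (.pat 782 xNFzE2A3H2AzIzA2H3AyB2EzF_rNFzE2A3H3A2AzIzA2H3AyB2EzF) from (POK.mono (by decide) xNFzE2A3H2AzIzA2H3AyB2EzF_rNFzE2A3H3A2AzIzA2H3AyB2EzF_ok)))))))

/-- all words of the class have labels -/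
theorem pokNFzE2A3H2AzIzA2H3AyB2EzF : POK 420 xNFzE2A3H2AzIzA2H3AyB2EzF :=
  y_pok (C0 := ceNFzE2A3H2AzIzA2H3AyB2EzF) (C1 := coNFzE2A3H2AzIzA2H3AyB2EzF) topNFzE2A3H2AzIzA2H3AyB2EzF nbNFzE2A3H2AzIzA2H3AyB2EzF (BT.Fa_of_all iiNFzE2A3H2AzIzA2H3AyB2EzF_c)
    (cyE_spec zeNFzE2A3H2AzIzA2H3AyB2EzF_0)
    (cyO_spec zoNFzE2A3H2AzIzA2H3AyB2EzF_0)
    iiNFzE2A3H2AzIzA2H3AyB2EzF_k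

theorem xNFzE2A3H2ByAzIzA2H3AyB2EzF_rNBzE2A3H2ByAzIzA2H3AyB2EzF_ok : POK 420 xNFzE2A3H2ByAzIzA2H3AyB2EzF_rNBzE2A3H2ByAzIzA2H3AyB2EzF := POK.rev' pokNBzE2A3H2ByAzIzA2H3AyB2EzF (by decide +kernel)

theorem xNFzE2A3H2ByAzIzA2H3AyB2EzF_rNBzE2ByA3H2AzIzAyB2H3A2EzF_ok : POK 420 xNFzE2A3H2ByAzIzA2H3AyB2EzF_rNBzE2ByA3H2AzIzAyB2H3A2EzF := POK.rev' pokNBzE2ByA3H2AzIzAyB2H3A2EzF (by decide +kernel)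

theorem xNFzE2A3H2ByAzIzA2H3AyB2EzF_rNF2BzAyE2ByA3H2AzIzAyB2H3A2E2A2AzAyBzF_ok : POK 420 xNFzE2A3H2ByAzIzA2H3AyB2EzF_rNF2BzAyE2ByA3H2AzIzAyB2H3A2E2A2AzAyBzF := POK.rev' pokNF2BzAyE2ByA3H2AzIzAyB2H3A2E2A2AzAyBzF (by decide +kernel)

theorem xNFzE2A3H2ByAzIzA2H3AyB2EzF_rNFzA2E2ByA3H2AzIzAyB2H3A2E2AzAyBzF_ok : POK 420 xNFzE2A3H2ByAzIzA2H3AyB2EzF_rNFzA2E2ByA3H2AzIzAyB2H3A2E2AzAyBzF := POK.rev' pokNFzA2E2ByA3H2AzIzAyB2H3A2E2AzAyBzF (by decide +kernel)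

theorem xNFzE2A3H2ByAzIzA2H3AyB2EzF_rNFzAyE2ByA3H2AzIzAyB2H3A2EyA2AzAyBzF_ok : POK 420 xNFzE2A3H2ByAzIzA2H3AyB2EzF_rNFzAyE2ByA3H2AzIzAyB2H3A2EyA2AzAyBzF := POK.rev' pokNFzAyE2ByA3H2AzIzAyB2H3A2EyA2AzAyBzF (by decide +kernel)

theorem xNFzE2A3H2ByAzIzA2H3AyB2EzF_rNFzByAzA2A2A3H2ByAzIzA2H3AyB2EyAzF_ok : POK 420 xNFzE2A3H2ByAzIzA2H3AyB2EzF_rNFzByAzA2A2A3H2ByAzIzA2H3AyB2EyAzF := POK.rev' pokNFzByAzA2A2A3H2ByAzIzA2H3AyB2EyAzF (by decide +kernel)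

theorem xNFzE2A3H2ByAzIzA2H3AyB2EzF_rNFzByAzA2A2E2A3H2ByAzIzA2H3AyB2EyAzAyBzF_ok : POK 420 xNFzE2A3H2ByAzIzA2H3AyB2EzF_rNFzByAzA2A2E2A3H2ByAzIzA2H3AyB2EyAzAyBzF := POK.rev' pokNFzByAzA2A2E2A3H2ByAzIzA2H3AyB2EyAzAyBzF (by decide +kernel)

theorem xNFzE2A3H2ByAzIzA2H3AyB2EzF_rNFzByAzA2A2E2A3H2ByAzIzA2H3AyB2EyAzAzF_ok : POK 420 xNFzE2A3H2ByAzIzA2H3AyB2EzF_rNFzByAzA2A2E2A3H2ByAzIzA2H3AyB2EyAzAzF := POK.rev' pokNFzByAzA2A2E2A3H2ByAzIzA2H3AyB2EyAzAzF (by decide +kernel)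

theorem xNFzE2A3H2ByAzIzA2H3AyB2EzF_rNFzByAzAyE2A3H2ByAzIzA2H3AyB2EzF_ok : POK 420 xNFzE2A3H2ByAzIzA2H3AyB2EzF_rNFzByAzAyE2A3H2ByAzIzA2H3AyB2EzF := POK.rev' pokNFzByAzAyE2A3H2ByAzIzA2H3AyB2EzF (by decide +kernel)

theorem xNFzE2A3H2ByAzIzA2H3AyB2EzF_rNFzByAzE2A3H2ByAzIzA2H3AyB2AzF_ok : POK 420 xNFzE2A3H2ByAzIzA2H3AyB2EzF_rNFzByAzE2A3H2ByAzIzA2H3AyB2AzF := POK.rev' pokNFzByAzE2A3H2ByAzIzA2H3AyB2AzF (by decide +kernel)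

theorem xNFzE2A3H2ByAzIzA2H3AyB2EzF_rNFzE2ByA3H2AzIzAyB2H3A2AzAyBzF_ok : POK 420 xNFzE2A3H2ByAzIzA2H3AyB2EzF_rNFzE2ByA3H2AzIzAyB2H3A2AzAyBzF := POK.rev' pokNFzE2ByA3H2AzIzAyB2H3A2AzAyBzF (by decide +kernel)

theorem xNFzE2A3H2ByAzIzA2H3AyB2EzF_rNFzE2ByA3H2AzIzAyB2H3A2EzAzF_ok : POK 420 xNFzE2A3H2ByAzIzA2H3AyB2EzF_rNFzE2ByA3H2AzIzAyB2H3A2EzAzF := POK.rev' pokNFzE2ByA3H2AzIzAyB2H3A2EzAzF (by decide +kernel)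

theorem xNFzE2A3H2ByAzIzA2H3AyB2EzF_rNFzE2ByA3H2AzIzAyB2H3A2EzB2F_ok : POK 420 xNFzE2A3H2ByAzIzA2H3AyB2EzF_rNFzE2ByA3H2AzIzAyB2H3A2EzB2F := POK.rev' pokNFzE2ByA3H2AzIzAyB2H3A2EzB2F (by decide +kernel)

theorem iiNFzE2A3H2ByAzIzA2H3AyB2EzF_k : iiNFzE2A3H2ByAzIzA2H3AyB2EzF.Fa (Itm.ok 420) := (BT.Fa_mk (BT.Fa_mk (BT.Fa_mk (BT.Fa_mk (BT.Fa_mk (BT.Fa_leaf (P := Itm.ok 420) (show Itm.ok 420 (.pat 0 xNBzE2A3H2ByAzIzA2H3AyB2EzF) from (POK.mono (by decide) pokNBzE2A3H2ByAzIzA2H3AyB2EzF))) (BT.Fa_leaf (P := Itm.ok 420) (show Itm.ok 420 (.pat 26 xNFzE2A3H2ByAzIzA2H3AyB2EzF_rNBzE2A3H2ByAzIzA2H3AyB2EzF) from (POK.mono (by decide) xNFzE2A3H2ByAzIzA2H3AyB2EzF_rNBzE2A3H2ByAzIzA2H3AyB2EzF_ok)))) (BT.Fa_mk (BT.Fa_leaf (P := Itm.ok 420) (show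 Itm.ok 420 (.pat 52 xNBzE2ByA3H2AzIzAyB2H3A2EzF) from (POK.mono (by decide) pokNBzE2ByA3H2AzIzAyB2H3A2EzF))) (BT.Fa_leaf (P := Itm.ok 420) (show Itm.ok 420 (.pat 78 xNFzE2A3H2ByAzIzA2H3AyB2EzF_rNBzE2ByA3H2AzIzAyB2H3A2EzF) from (POK.mono (by decide) xNFzE2A3H2ByAzIzA2H3AyB2EzF_rNBzE2ByA3H2AzIzAyB2H3A2EzF_ok))))) (BT.Fa_mk (BT.Fa_mk (BT.Fa_leaf (P := Itm.ok 420) (show Itm.ok 420 (.pat 104 xNF2BzAyE2ByA3H2AzIzAyB2H3A2E2A2AzAyBzF) from (POK.mono (by decide) pokNF2BzAyE2ByA3H2AzIzAyB2H3A2E2A2AzAyBzF))) (BT.Fa_leaf (P := Itm.ok 420) (show Itm.ok 420 (.pat 142 xNFzE2A3H2ByAzIzA2H3AyB2EzF_rNF2BzAyE2ByA3H2AzIzAyB2H3A2E2A2AzAyBzF) from (POK.mono (by decide) xNFzE2A3H2ByAzIzA2H3AyB2EzF_rNF2BzAyE2ByA3H2AzIzAyB2H3A2E2A2AzAyBzF_ok))))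 (BT.Fa_leaf (P := Itm.ok 420) (show Itm.ok 420 (.pat 180 xNFzE2ByA3H2AzIzAyB2H3A2EzB2F) from (POK.mono (by decide) pokNFzE2ByA3H2AzIzAyB2H3A2EzB2F))))) (BT.Fa_mk (BT.Fa_mk (BT.Fa_mk (BT.Fa_leaf (P := Itm.ok 420) (show Itm.ok 420 (.pat 208 xNFzE2A3H2ByAzIzA2H3AyB2EzF_rNFzE2ByA3H2AzIzAyB2H3A2EzB2F) from (POK.mono (by decide) xNFzE2A3H2ByAzIzA2H3AyB2EzF_rNFzE2ByA3H2AzIzAyB2H3A2EzB2F_ok))) (BT.Fa_leaf (P := Itm.ok 420) (show Itm.ok 420 (.pat 236 xNFzByAzE2A3H2ByAzIzA2H3AyB2AzF) from (POK.mono (by decide) pokNFzByAzE2A3H2ByAzIzA2H3AyB2AzF)))) (BT.Fa_leaf (P := Itm.ok 420) (show Itm.ok 420 (.pat 266 xNFzE2A3H2ByAzIzA2H3AyB2EzF_rNFzByAzE2A3H2ByAzIzA2H3AyB2AzF) from (POK.mono (by decide) xNFzE2A3H2ByAzIzA2H3AyB2EzF_rNFzByAzE2A3H2ByAzIzA2H3AyB2AzF_ok))))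 (BT.Fa_mk (BT.Fa_mk (BT.Fa_leaf (P := Itm.ok 420) (show Itm.ok 420 (.pat 296 xNFzA2E2ByA3H2AzIzAyB2H3A2E2AzAyBzF) from (POK.mono (by decide) pokNFzA2E2ByA3H2AzIzAyB2H3A2E2AzAyBzF))) (BT.Fa_leaf (P := Itm.ok 420) (show Itm.ok 420 (.pat 330 xNFzE2A3H2ByAzIzA2H3AyB2EzF_rNFzA2E2ByA3H2AzIzAyB2H3A2E2AzAyBzF) from (POK.mono (by decide) xNFzE2A3H2ByAzIzA2H3AyB2EzF_rNFzA2E2ByA3H2AzIzAyB2H3A2E2AzAyBzF_ok)))) (BT.Fa_leaf (P := Itm.ok 420) (show Itm.ok 420 (.pat 364 xNFzByAzA2A2A3H2ByAzIzA2H3AyB2EyAzF) from (POK.mono (by decide) pokNFzByAzA2A2A3H2ByAzIzA2H3AyB2EyAzF)))))) (BT.Fa_mk (BT.Fa_mk (BT.Fa_mk (BT.Fa_mk (BT.Fa_leaf (P := Itm.ok 420) (show Itm.ok 420 (.pat 398 xNFzE2A3H2ByAzIzA2H3AyB2EzF_rNFzByAzA2A2A3H2ByAzIzA2H3AyB2EyAzF) from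 (POK.mono (by decide) xNFzE2A3H2ByAzIzA2H3AyB2EzF_rNFzByAzA2A2A3H2ByAzIzA2H3AyB2EyAzF_ok))) (BT.Fa_leaf (P := Itm.ok 420) (show Itm.ok 420 (.pat 432 xNFzAyE2ByA3H2AzIzAyB2H3A2EyA2AzAyBzF) from (POK.mono (by decide) pokNFzAyE2ByA3H2AzIzAyB2H3A2EyA2AzAyBzF)))) (BT.Fa_mk (BT.Fa_leaf (P := Itm.ok 420) (show Itm.ok 420 (.pat 468 xNFzE2A3H2ByAzIzA2H3AyB2EzF_rNFzAyE2ByA3H2AzIzAyB2H3A2EyA2AzAyBzF) from (POK.mono (by decide) xNFzE2A3H2ByAzIzA2H3AyB2EzF_rNFzAyE2ByA3H2AzIzAyB2H3A2EyA2AzAyBzF_ok))) (BT.Fa_leaf (P := Itm.ok 420) (show Itm.ok 420 (.pat 504 xNFzByAzA2A2E2A3H2ByAzIzA2H3AyB2EyAzAzF) from (POK.mono (by decide) pokNFzByAzA2A2E2A3H2ByAzIzA2H3AyB2EyAzAzF))))) (BT.Fa_mk (BT.Fa_mk (BT.Fa_leaf (P := Itm.ok 420) (show Itm.ok 420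 (.pat 542 xNFzE2A3H2ByAzIzA2H3AyB2EzF_rNFzByAzA2A2E2A3H2ByAzIzA2H3AyB2EyAzAzF) from (POK.mono (by decide) xNFzE2A3H2ByAzIzA2H3AyB2EzF_rNFzByAzA2A2E2A3H2ByAzIzA2H3AyB2EyAzAzF_ok))) (BT.Fa_leaf (P := Itm.ok 420) (show Itm.ok 420 (.pat 580 xNFzE2ByA3H2AzIzAyB2H3A2EzAzF) from (POK.mono (by decide) pokNFzE2ByA3H2AzIzAyB2H3A2EzAzF)))) (BT.Fa_leaf (P := Itm.ok 420) (show Itm.ok 420 (.pat 608 xNFzE2A3H2ByAzIzA2H3AyB2EzF_rNFzE2ByA3H2AzIzAyB2H3A2EzAzF) from (POK.mono (by decide) xNFzE2A3H2ByAzIzA2H3AyB2EzF_rNFzE2ByA3H2AzIzAyB2H3A2EzAzF_ok))))) (BT.Fa_mk (BT.Fa_mk (BT.Fa_mk (BT.Fa_leaf (P := Itm.ok 420) (show Itm.ok 420 (.pat 636 xNFzByAzA2A2E2A3H2ByAzIzA2H3AyB2EyAzAyBzF) from (POK.mono (by decide) pokNFzByAzA2A2E2A3H2ByAzIzA2H3AyB2EyAzAyBzF)))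 (BT.Fa_leaf (P := Itm.ok 420) (show Itm.ok 420 (.pat 676 xNFzE2A3H2ByAzIzA2H3AyB2EzF_rNFzByAzA2A2E2A3H2ByAzIzA2H3AyB2EyAzAyBzF) from (POK.mono (by decide) xNFzE2A3H2ByAzIzA2H3AyB2EzF_rNFzByAzA2A2E2A3H2ByAzIzA2H3AyB2EyAzAyBzF_ok)))) (BT.Fa_leaf (P := Itm.ok 420) (show Itm.ok 420 (.pat 716 xNFzE2ByA3H2AzIzAyB2H3A2AzAyBzF) from (POK.mono (by decide) pokNFzE2ByA3H2AzIzAyB2H3A2AzAyBzF)))) (BT.Fa_mk (BT.Fa_mk (BT.Fa_leaf (P := Itm.ok 420) (show Itm.ok 420 (.pat 746 xNFzE2A3H2ByAzIzA2H3AyB2EzF_rNFzE2ByA3H2AzIzAyB2H3A2AzAyBzF) from (POK.mono (by decide) xNFzE2A3H2ByAzIzA2H3AyB2EzF_rNFzE2ByA3H2AzIzAyB2H3A2AzAyBzF_ok))) (BT.Fa_leaf (P := Itm.ok 420) (show Itm.ok 420 (.pat 776 xNFzByAzAyE2A3H2ByAzIzA2H3AyB2EzF) from (POK.mono (by decide)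 pokNFzByAzAyE2A3H2ByAzIzA2H3AyB2EzF)))) (BT.Fa_leaf (P := Itm.ok 420) (show Itm.ok 420 (.pat 808 xNFzE2A3H2ByAzIzA2H3AyB2EzF_rNFzByAzAyE2A3H2ByAzIzA2H3AyB2EzF) from (POK.mono (by decide) xNFzE2A3H2ByAzIzA2H3AyB2EzF_rNFzByAzAyE2A3H2ByAzIzA2H3AyB2EzF_ok)))))))

/-- all words of the class have labels -/
theorem pokNFzE2A3H2ByAzIzA2H3AyB2EzF : POK 420 xNFzE2A3H2ByAzIzA2H3AyB2EzF :=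
  y_pok (C0 := ceNFzE2A3H2ByAzIzA2H3AyB2EzF) (C1 := coNFzE2A3H2ByAzIzA2H3AyB2EzF) topNFzE2A3H2ByAzIzA2H3AyB2EzF nbNFzE2A3H2ByAzIzA2H3AyB2EzF (BT.Fa_of_all iiNFzE2A3H2ByAzIzA2H3AyB2EzF_c)
    (cyE_spec zeNFzE2A3H2ByAzIzA2H3AyB2EzF_0)
    (cyO_spec zoNFzE2A3H2ByAzIzA2H3AyB2EzF_0)
    iiNFzE2A3H2ByAzIzA2H3AyB2EzF_k

theorem xNFzE2A3H2ByAzIzAyB2H3A2EzF_rNBzE2A3H2ByAzIzAyB2H3A2EzF_ok : POK 420 xNFzE2A3H2ByAzIzAyB2H3A2EzF_rNBzE2A3H2ByAzIzAyB2H3A2EzF := POK.rev' pokNBzE2A3H2ByAzIzAyB2H3A2EzF (by decide +kernel)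

theorem xNFzE2A3H2ByAzIzAyB2H3A2EzF_rNF2BzA2E2A3H2ByAzIzAyB2H3A2EzF_ok : POK 420 xNFzE2A3H2ByAzIzAyB2H3A2EzF_rNF2BzA2E2A3H2ByAzIzAyB2H3A2EzF := POK.rev' pokNF2BzA2E2A3H2ByAzIzAyB2H3A2EzF (by decide +kernel)

theorem xNFzE2A3H2ByAzIzAyB2H3A2EzF_rNFzA2A3H2ByAzIzAyB2H3A2EzF_ok : POK 420 xNFzE2A3H2ByAzIzAyB2H3A2EzF_rNFzA2A3H2ByAzIzAyB2H3A2EzF := POK.rev' pokNFzA2A3H2ByAzIzAyB2H3A2EzF (by decide +kernel)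

theorem xNFzE2A3H2ByAzIzAyB2H3A2EzF_rNFzAzE2A3H2ByAzIzAyB2H3A2EzF_ok : POK 420 xNFzE2A3H2ByAzIzAyB2H3A2EzF_rNFzAzE2A3H2ByAzIzAyB2H3A2EzF := POK.rev' pokNFzAzE2A3H2ByAzIzAyB2H3A2EzF (by decide +kernel)

theorem xNFzE2A3H2ByAzIzAyB2H3A2EzF_rNFzByAzE2A3H2ByAzIzAyB2H3A2EzF_ok : POK 420 xNFzE2A3H2ByAzIzAyB2H3A2EzF_rNFzByAzE2A3H2ByAzIzAyB2H3A2EzF := POK.rev' pokNFzByAzE2A3H2ByAzIzAyB2H3A2EzF (by decide +kernel)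

theorem iiNFzE2A3H2ByAzIzAyB2H3A2EzF_k : iiNFzE2A3H2ByAzIzAyB2H3A2EzF.Fa (Itm.ok 420) := (BT.Fa_mk (BT.Fa_mk (BT.Fa_mk (BT.Fa_mk (BT.Fa_leaf (P := Itm.ok 420) (show Itm.ok 420 (.pat 0 xNBzE2A3H2ByAzIzAyB2H3A2EzF) from (POK.mono (by decide) pokNBzE2A3H2ByAzIzAyB2H3A2EzF))) (BT.Fa_leaf (P := Itm.ok 420) (show Itm.ok 420 (.pat 26 xNFzE2A3H2ByAzIzAyB2H3A2EzF_rNBzE2A3H2ByAzIzAyB2H3A2EzF) from (POK.mono (by decide) xNFzE2A3H2ByAzIzAyB2H3A2EzF_rNBzE2A3H2ByAzIzAyB2H3A2EzF_ok)))) (BT.Fa_leaf (P := Itm.ok 420) (show Itm.ok 420 (.pat 52 xNF2BzA2E2A3H2ByAzIzAyB2H3A2EzF) from (POK.mono (by decide) pokNF2BzA2E2A3H2ByAzIzAyB2H3A2EzF)))) (BT.Fa_mk (BT.Fa_mk (BT.Fa_leaf (P := Itm.ok 420) (show Itm.ok 420 (.pat 82 xNFzE2A3H2ByAzIzAyB2H3A2EzF_rNF2BzA2E2A3H2ByAzIzAyB2H3A2EzF)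 from (POK.mono (by decide) xNFzE2A3H2ByAzIzAyB2H3A2EzF_rNF2BzA2E2A3H2ByAzIzAyB2H3A2EzF_ok))) (BT.Fa_leaf (P := Itm.ok 420) (show Itm.ok 420 (.pat 112 xNF2BzAyE2A3H2ByAzIzAyB2H3A2EyAzB2F) from (POK.mono (by decide) pokNF2BzAyE2A3H2ByAzIzAyB2H3A2EyAzB2F)))) (BT.Fa_leaf (P := Itm.ok 420) (show Itm.ok 420 (.pat 146 xNFzA2A3H2ByAzIzAyB2H3A2EzF) from (POK.mono (by decide) pokNFzA2A3H2ByAzIzAyB2H3A2EzF))))) (BT.Fa_mk (BT.Fa_mk (BT.Fa_mk (BT.Fa_leaf (P := Itm.ok 420) (show Itm.ok 420 (.pat 172 xNFzE2A3H2ByAzIzAyB2H3A2EzF_rNFzA2A3H2ByAzIzAyB2H3A2EzF) from (POK.mono (by decide) xNFzE2A3H2ByAzIzAyB2H3A2EzF_rNFzA2A3H2ByAzIzAyB2H3A2EzF_ok))) (BT.Fa_leaf (P := Itm.ok 420) (show Itm.ok 420 (.pat 198 xNFzAzE2A3H2ByAzIzAyB2H3A2EzF) from (POK.mono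 (by decide) pokNFzAzE2A3H2ByAzIzAyB2H3A2EzF)))) (BT.Fa_leaf (P := Itm.ok 420) (show Itm.ok 420 (.pat 226 xNFzE2A3H2ByAzIzAyB2H3A2EzF_rNFzAzE2A3H2ByAzIzAyB2H3A2EzF) from (POK.mono (by decide) xNFzE2A3H2ByAzIzAyB2H3A2EzF_rNFzAzE2A3H2ByAzIzAyB2H3A2EzF_ok)))) (BT.Fa_mk (BT.Fa_leaf (P := Itm.ok 420) (show Itm.ok 420 (.pat 254 xNFzByAzE2A3H2ByAzIzAyB2H3A2EzF) from (POK.mono (by decide) pokNFzByAzE2A3H2ByAzIzAyB2H3A2EzF))) (BT.Fa_leaf (P := Itm.ok 420) (show Itm.ok 420 (.pat 284 xNFzE2A3H2ByAzIzAyB2H3A2EzF_rNFzByAzE2A3H2ByAzIzAyB2H3A2EzF) from (POK.mono (by decide) xNFzE2A3H2ByAzIzAyB2H3A2EzF_rNFzByAzE2A3H2ByAzIzAyB2H3A2EzF_ok))))))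

/-- all words of the class have labels -/
theorem pokNFzE2A3H2ByAzIzAyB2H3A2EzF : POK 420 xNFzE2A3H2ByAzIzAyB2H3A2EzF :=
  y_pok (C0 := ceNFzE2A3H2ByAzIzAyB2H3A2EzF) (C1 := coNFzE2A3H2ByAzIzAyB2H3A2EzF) topNFzE2A3H2ByAzIzAyB2H3A2EzF nbNFzE2A3H2ByAzIzAyB2H3A2EzF (BT.Fa_of_all iiNFzE2A3H2ByAzIzAyB2H3A2EzF_c)
    (cyE_spec zeNFzE2A3H2ByAzIzAyB2H3A2EzF_0)
    (cyO_spec zoNFzE2A3H2ByAzIzAyB2H3A2EzF_0)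
    iiNFzE2A3H2ByAzIzAyB2H3A2EzF_k

theorem xNFzE2A3H3AyB2EzF_rNBzE2A3H3AyB2EzF_ok : POK 420 xNFzE2A3H3AyB2EzF_rNBzE2A3H3AyB2EzF := POK.rev' pokNBzE2A3H3AyB2EzF (by decide +kernel)

theorem xNFzE2A3H3AyB2EzF_rNF2BzE2A3H3AyB2EzF_ok : POK 420 xNFzE2A3H3AyB2EzF_rNF2BzE2A3H3AyB2EzF := POK.rev' pokNF2BzE2A3H3AyB2EzF (by decide +kernel)

theorem xNFzE2A3H3AyB2EzF_rNFzA2E2ByA3H3A2EzAyBzF_ok : POK 420 xNFzE2A3H3AyB2EzF_rNFzA2E2ByA3H3A2EzAyBzF := POK.rev' pokNFzA2E2ByA3H3A2EzAyBzF (by decide +kernel)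

theorem xNFzE2A3H3AyB2EzF_rNFzAyE2ByA3H3A2E2A2AzAyBzF_ok : POK 420 xNFzE2A3H3AyB2EzF_rNFzAyE2ByA3H3A2E2A2AzAyBzF := POK.rev' pokNFzAyE2ByA3H3A2E2A2AzAyBzF (by decide +kernel)

theorem xNFzE2A3H3AyB2EzF_rNFzAzE2A3H3AyB2EzF_ok : POK 420 xNFzE2A3H3AyB2EzF_rNFzAzE2A3H3AyB2EzF := POK.rev' pokNFzAzE2A3H3AyB2EzF (by decide +kernel)

theorem xNFzE2A3H3AyB2EzF_rNFzByAzA2A2A3H3AyB2EyAzF_ok : POK 420 xNFzE2A3H3AyB2EzF_rNFzByAzA2A2A3H3AyB2EyAzF := POK.rev' pokNFzByAzA2A2A3H3AyB2EyAzF (by decide +kernel)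

theorem xNFzE2A3H3AyB2EzF_rNFzByAzA2A3H3AyB2EzF_ok : POK 420 xNFzE2A3H3AyB2EzF_rNFzByAzA2A3H3AyB2EzF := POK.rev' pokNFzByAzA2A3H3AyB2EzF (by decide +kernel)

theorem xNFzE2A3H3AyB2EzF_rNFzByAzA2AyE2A3H3AyB2EyAzF_ok : POK 420 xNFzE2A3H3AyB2EzF_rNFzByAzA2AyE2A3H3AyB2EyAzF := POK.rev' pokNFzByAzA2AyE2A3H3AyB2EyAzF (by decide +kernel)

theorem xNFzE2A3H3AyB2EzF_rNFzByAzAyE2A3H3AyB2EzF_ok : POK 420 xNFzE2A3H3AyB2EzF_rNFzByAzAyE2A3H3AyB2EzF := POK.rev' pokNFzByAzAyE2A3H3AyB2EzF (by decide +kernel)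

theorem xNFzE2A3H3AyB2EzF_rNFzE2A3H3AyB2AzF_ok : POK 420 xNFzE2A3H3AyB2EzF_rNFzE2A3H3AyB2AzF := POK.rev' pokNFzE2A3H3AyB2AzF (by decide +kernel)

theorem iiNFzE2A3H3AyB2EzF_k : iiNFzE2A3H3AyB2EzF.Fa (Itm.ok 420) := (BT.Fa_mk (BT.Fa_mk (BT.Fa_mk (BT.Fa_mk (BT.Fa_mk (BT.Fa_leaf (P := Itm.ok 420) (show Itm.ok 420 (.pat 0 xNBzE2A3H3AyB2EzF) from (POK.mono (by decide) pokNBzE2A3H3AyB2EzF))) (BT.Fa_leaf (P := Itm.ok 420) (show Itm.ok 420 (.pat 16 xNFzE2A3H3AyB2EzF_rNBzE2A3H3AyB2EzF) from (POK.mono (by decide) xNFzE2A3H3AyB2EzF_rNBzE2A3H3AyB2EzF_ok)))) (BT.Fa_leaf (P := Itm.ok 420) (show Itm.ok 420 (.pat 32 xNF2BzE2A3H3AyB2EzF) from (POK.mono (by decide) pokNF2BzE2A3H3AyB2EzF)))) (BT.Fa_mk (BT.Fa_leaf (P := Itm.ok 420) (show Itm.ok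 420 (.pat 50 xNFzE2A3H3AyB2EzF_rNF2BzE2A3H3AyB2EzF) from (POK.mono (by decide) xNFzE2A3H3AyB2EzF_rNF2BzE2A3H3AyB2EzF_ok))) (BT.Fa_leaf (P := Itm.ok 420) (show Itm.ok 420 (.pat 68 xNFzE2A3H3AyB2AzF) from (POK.mono (by decide) pokNFzE2A3H3AyB2AzF))))) (BT.Fa_mk (BT.Fa_mk (BT.Fa_mk (BT.Fa_leaf (P := Itm.ok 420) (show Itm.ok 420 (.pat 84 xNFzE2A3H3AyB2EzF_rNFzE2A3H3AyB2AzF) from (POK.mono (by decide) xNFzE2A3H3AyB2EzF_rNFzE2A3H3AyB2AzF_ok))) (BT.Fa_leaf (P := Itm.ok 420) (show Itm.ok 420 (.pat 100 xNFzA2E2ByA3H3A2EzAyBzF) from (POK.mono (by decide) pokNFzA2E2ByA3H3A2EzAyBzF)))) (BT.Fa_leaf (P := Itm.ok 420) (show Itm.ok 420 (.pat 122 xNFzE2A3H3AyB2EzF_rNFzA2E2ByA3H3A2EzAyBzF) from (POK.mono (by decide) xNFzE2A3H3AyB2EzF_rNFzA2E2ByA3H3A2EzAyBzF_ok))))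 (BT.Fa_mk (BT.Fa_leaf (P := Itm.ok 420) (show Itm.ok 420 (.pat 144 xNFzByAzA2A2A3H3AyB2EyAzF) from (POK.mono (by decide) pokNFzByAzA2A2A3H3AyB2EyAzF))) (BT.Fa_leaf (P := Itm.ok 420) (show Itm.ok 420 (.pat 168 xNFzE2A3H3AyB2EzF_rNFzByAzA2A2A3H3AyB2EyAzF) from (POK.mono (by decide) xNFzE2A3H3AyB2EzF_rNFzByAzA2A2A3H3AyB2EyAzF_ok)))))) (BT.Fa_mk (BT.Fa_mk (BT.Fa_mk (BT.Fa_mk (BT.Fa_leaf (P := Itm.ok 420) (show Itm.ok 420 (.pat 192 xNFzAyE2ByA3H3A2E2A2AzAyBzF) from (POK.mono (by decide) pokNFzAyE2ByA3H3A2E2A2AzAyBzF))) (BT.Fa_leaf (P := Itm.ok 420) (show Itm.ok 420 (.pat 218 xNFzE2A3H3AyB2EzF_rNFzAyE2ByA3H3A2E2A2AzAyBzF) from (POK.mono (by decide) xNFzE2A3H3AyB2EzF_rNFzAyE2ByA3H3A2E2A2AzAyBzF_ok)))) (BT.Fa_leaf (P := Itm.ok 420)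 (show Itm.ok 420 (.pat 244 xNFzByAzA2AyE2A3H3AyB2EyAzF) from (POK.mono (by decide) pokNFzByAzA2AyE2A3H3AyB2EyAzF)))) (BT.Fa_mk (BT.Fa_leaf (P := Itm.ok 420) (show Itm.ok 420 (.pat 270 xNFzE2A3H3AyB2EzF_rNFzByAzA2AyE2A3H3AyB2EyAzF) from (POK.mono (by decide) xNFzE2A3H3AyB2EzF_rNFzByAzA2AyE2A3H3AyB2EyAzF_ok))) (BT.Fa_leaf (P := Itm.ok 420) (show Itm.ok 420 (.pat 296 xNFzAzE2A3H3AyB2EzF) from (POK.mono (by decide) pokNFzAzE2A3H3AyB2EzF))))) (BT.Fa_mk (BT.Fa_mk (BT.Fa_mk (BT.Fa_leaf (P := Itm.ok 420) (show Itm.ok 420 (.pat 314 xNFzE2A3H3AyB2EzF_rNFzAzE2A3H3AyB2EzF) from (POK.mono (by decide) xNFzE2A3H3AyB2EzF_rNFzAzE2A3H3AyB2EzF_ok))) (BT.Fa_leaf (P := Itm.ok 420) (show Itm.ok 420 (.pat 332 xNFzByAzA2A3H3AyB2EzF) from (POK.mono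 (by decide) pokNFzByAzA2A3H3AyB2EzF)))) (BT.Fa_leaf (P := Itm.ok 420) (show Itm.ok 420 (.pat 352 xNFzE2A3H3AyB2EzF_rNFzByAzA2A3H3AyB2EzF) from (POK.mono (by decide) xNFzE2A3H3AyB2EzF_rNFzByAzA2A3H3AyB2EzF_ok)))) (BT.Fa_mk (BT.Fa_leaf (P := Itm.ok 420) (show Itm.ok 420 (.pat 372 xNFzByAzAyE2A3H3AyB2EzF) from (POK.mono (by decide) pokNFzByAzAyE2A3H3AyB2EzF))) (BT.Fa_leaf (P := Itm.ok 420) (show Itm.ok 420 (.pat 394 xNFzE2A3H3AyB2EzF_rNFzByAzAyE2A3H3AyB2EzF) from (POK.mono (by decide) xNFzE2A3H3AyB2EzF_rNFzByAzAyE2A3H3AyB2EzF_ok)))))))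

/-- all words of the class have labels -/
theorem pokNFzE2A3H3AyB2EzF : POK 420 xNFzE2A3H3AyB2EzF :=
  y_pok (C0 := ceNFzE2A3H3AyB2EzF) (C1 := coNFzE2A3H3AyB2EzF) topNFzE2A3H3AyB2EzF nbNFzE2A3H3AyB2EzF (BT.Fa_of_all iiNFzE2A3H3AyB2EzF_c)
    (cyE_spec zeNFzE2A3H3AyB2EzF_0)
    (cyO_spec zoNFzE2A3H3AyB2EzF_0)
    iiNFzE2A3H3AyB2EzF_k


end MPb6R
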