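import Pool.Agent.Lib.MP_b6d339_lc.Cw3.YFzE2A3H2AzAyB2H3AyB2EzF
import Pool.Agent.Lib.MP_b6d339_lc.Cw3.XL
import Pool.Agent.Lib.MP_b6d339_lc.Cw3.T0
import Pool.Agent.Lib.MP_b6d339_lc.Cw3.T1
import Pool.Agent.Lib.MP_b6d339_lc.Cw3.T2
import Pool.Agent.Lib.MP_b6d339_lc.Cw3.T3
import Pool.Agent.Lib.MP_b6d339_lc.Cw3.T4
import Pool.Agent.Lib.MP_b6d339_lc.Cw3.T5
import Pool.Agent.Lib.MP_b6d339_lc.Cw3.T6
import Pool.Agent.Lib.MP_b6d339_lc.Cw3.T7
import Pool.Agent.Lib.MP_b6d339_lc.Cw3.T8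
import Pool.Agent.Lib.MP_b6d339_lc.Cw3.T9

/-!
# Erdős 592, three levels: items
-/

namespace MPb6R

open MPb6P

noncomputable def iiNFzE2A3H2AzAyB2H3AyB2EzF : BT Itm := (.node (.node (.node (.node (.node (.node (.node (.node (.node (.leaf (.fwd 0 29 tpr9.df)) (.leaf (.bwd 29 47 tpr604.df))) (.leaf (.fwd 76 35 tpr568.df))) (.node (.node (.leaf (.fwd 111 27 tpr82.df)) (.leaf (.fwd 138 23 tpr605.df))) (.leaf (.fwd 161 31 tpr167.df)))) (.node (.node (.node (.leaf (.fwd 192 31 tpr527.df)) (.leaf (.fwd 223 37 tpr555.df))) (.leaf (.bwd 260 27 tpr82.df))) (.node (.leaf (.fwd 287 13 tpr500.df)) (.leaf (.bwd 300 27 tpr499.df))))) (.node (.node (.node (.node (.leaf (.fwd 327 38 tpr203.df)) (.leaf (.bwd 365 31 tpr527.df))) (.leaf (.bwd 396 13 tpr500.df))) (.node (.node (.leaf (.fwd 409 31 tpr606.df)) (.leaf (.bwd 440 37 tpr555.df))) (.leaf (.fwd 477 23 tpr508.df)))) (.node (.node (.node (.leaf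 (.fwd 500 32 tpr17.df)) (.leaf (.fwd 532 35 tpr585.df))) (.leaf (.fwd 567 26 tpr516.df))) (.node (.leaf (.bwd 593 29 tpr22.df)) (.leaf (.fwd 622 32 tpr518.df)))))) (.node (.node (.node (.node (.node (.leaf (.bwd 654 26 tpr516.df)) (.leaf (.bwd 680 38 tpr203.df))) (.leaf (.bwd 718 40 tpr62.df))) (.node (.node (.leaf (.bwd 758 32 tpr17.df)) (.leaf (.bwd 790 37 tpr503.df))) (.leaf (.fwd 827 30 tpr577.df)))) (.node (.node (.node (.leaf (.fwd 857 41 tpr502.df)) (.leaf (.bwd 898 35 tpr568.df))) (.leaf (.fwd 933 36 tpr547.df))) (.node (.leaf (.fwd 969 29 tpr22.df)) (.leaf (.bwd 998 29 tpr9.df))))) (.node (.node (.node (.node (.leaf (.fwd 1027 31 tpr607.df)) (.leaf (.bwd 1058 31 tpr576.df))) (.leaf (.bwd 1089 20 tpr505.df))) (.node (.node (.leaf (.fwd 1109 27 tpr499.df)) (.leaf (.fwd 1136 26 tpr509.df))) (.leaf (.fwd 1162 33 tpr501.df)))) (.node (.node (.node (.leaf (.bwd 1195 39 tpr514.df))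 (.leaf (.bwd 1234 29 tpr608.df))) (.leaf (.bwd 1263 24 tpr609.df))) (.node (.leaf (.fwd 1287 20 tpr505.df)) (.leaf (.bwd 1307 20 tpr103.df))))))) (.node (.node (.node (.node (.node (.node (.leaf (.bwd 1327 28 tpr610.df)) (.leaf (.fwd 1355 27 tpr236.df))) (.leaf (.fwd 1382 28 tpr511.df))) (.node (.node (.leaf (.fwd 1410 31 tpr517.df)) (.leaf (.fwd 1441 28 tpr610.df))) (.leaf (.fwd 1469 33 tpr44.df)))) (.node (.node (.node (.leaf (.fwd 1502 22 tpr504.df)) (.leaf (.bwd 1524 23 tpr605.df))) (.leaf (.fwd 1547 45 tpr611.df))) (.node (.leaf (.bwd 1592 22 tpr239.df)) (.leaf (.fwd 1614 34 tpr54.df))))) (.node (.node (.node (.node (.leaf (.fwd 1648 44 tpr592.df)) (.leaf (.fwd 1692 38 tpr519.df))) (.leaf (.fwd 1730 42 tpr612.df))) (.node (.node (.leaf (.bwd 1772 25 tpr106.df)) (.leaf (.bwd 1797 30 tpr613.df))) (.leaf (.fwd 1827 28 tpr507.df)))) (.node (.node (.node (.leaf (.fwd 1855 30 tpr513.df))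 (.leaf (.fwd 1885 27 tpr506.df))) (.leaf (.fwd 1912 28 tpr510.df))) (.node (.leaf (.bwd 1940 33 tpr521.df)) (.leaf (.fwd 1973 34 tpr614.df)))))) (.node (.node (.node (.node (.node (.leaf (.bwd 2007 22 tpr515.df)) (.leaf (.fwd 2029 28 tpr546.df))) (.leaf (.bwd 2057 32 tpr518.df))) (.node (.node (.leaf (.bwd 2089 30 tpr537.df)) (.leaf (.bwd 2119 38 tpr526.df))) (.leaf (.fwd 2157 23 tpr5.df)))) (.node (.node (.node (.leaf (.bwd 2180 39 tpr210.df)) (.leaf (.bwd 2219 37 tpr520.df))) (.leaf (.bwd 2256 37 tpr523.df))) (.node (.leaf (.bwd 2293 41 tpr549.df)) (.leaf (.bwd 2334 39 tpr615.df))))) (.node (.node (.node (.node (.leaf (.fwd 2373 39 tpr615.df)) (.leaf (.fwd 2412 27 tpr589.df))) (.leaf (.fwd 2439 30 tpr537.df))) (.node (.leaf (.bwd 2469 46 tpr593.df)) (.leaf (.fwd 2515 20 tpr48.df)))) (.node (.node (.node (.leaf (.bwd 2535 19 tpr616.df)) (.leaf (.bwd 2554 27 tpr562.df))) (.leaf (.bwd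 2581 32 tpr251.df))) (.node (.leaf (.fwd 2613 44 tpr617.df)) (.leaf (.fwd 2657 21 tpr90.df)))))))) (.node (.node (.node (.node (.node (.node (.node (.leaf (.bwd 2678 32 tpr591.df)) (.leaf (.fwd 2710 39 tpr78.df))) (.leaf (.fwd 2749 43 tpr566.df))) (.node (.node (.leaf (.bwd 2792 34 tpr614.df)) (.leaf (.bwd 2826 29 tpr618.df))) (.leaf (.fwd 2855 29 tpr582.df)))) (.node (.node (.node (.leaf (.bwd 2884 34 tpr619.df)) (.leaf (.bwd 2918 48 tpr77.df))) (.leaf (.bwd 2966 32 tpr620.df))) (.node (.leaf (.bwd 2998 25 tpr10.df)) (.leaf (.bwd 3023 45 tpr596.df))))) (.node (.node (.node (.node (.leaf (.fwd 3068 35 tpr91.df)) (.leaf (.fwd 3103 41 tpr549.df))) (.leaf (.bwd 3144 30 tpr26.df))) (.node (.node (.leaf (.bwd 3174 37 tpr621.df)) (.leaf (.bwd 3211 35 tpr622.df))) (.leaf (.bwd 3246 34 tpr543.df)))) (.node (.node (.node (.leaf (.fwd 3280 29 tpr623.df)) (.leaf (.fwd 3309 32 tpr247.df))) (.leaf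 (.fwd 3341 29 tpr545.df))) (.node (.leaf (.fwd 3370 31 tpr557.df)) (.leaf (.bwd 3401 41 tpr624.df)))))) (.node (.node (.node (.node (.node (.leaf (.bwd 3442 27 tpr625.df)) (.leaf (.bwd 3469 30 tpr626.df))) (.leaf (.fwd 3499 28 tpr627.df))) (.node (.node (.leaf (.fwd 3527 34 tpr628.df)) (.leaf (.fwd 3561 32 tpr620.df))) (.leaf (.fwd 3593 29 tpr570.df)))) (.node (.node (.node (.leaf (.fwd 3622 21 tpr629.df)) (.leaf (.fwd 3643 25 tpr51.df))) (.leaf (.fwd 3668 60 tpr630.df))) (.node (.leaf (.bwd 3728 33 tpr594.df)) (.leaf (.fwd 3761 33 tpr631.df))))) (.node (.node (.node (.node (.leaf (.bwd 3794 23 tpr632.df)) (.leaf (.bwd 3817 25 tpr633.df))) (.leaf (.fwd 3842 56 tpr87.df))) (.node (.node (.leaf (.bwd 3898 36 tpr634.df)) (.leaf (.bwd 3934 24 tpr57.df))) (.leaf (.bwd 3958 24 tpr635.df)))) (.node (.node (.node (.leaf (.bwd 3982 25 tpr74.df)) (.leaf (.fwd 4007 40 tpr32.df))) (.leaf (.fwd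 4047 39 tpr636.df))) (.node (.leaf (.bwd 4086 29 tpr637.df)) (.leaf (.bwd 4115 29 tpr638.df))))))) (.node (.node (.node (.node (.node (.node (.leaf (.bwd 4144 37 tpr639.df)) (.leaf (.fwd 4181 29 tpr637.df))) (.leaf (.bwd 4210 32 tpr550.df))) (.node (.node (.leaf (.bwd 4242 42 tpr344.df)) (.leaf (.bwd 4284 23 tpr640.df))) (.leaf (.bwd 4307 29 tpr641.df)))) (.node (.node (.node (.leaf (.bwd 4336 39 tpr642.df)) (.leaf (.bwd 4375 44 tpr466.df))) (.leaf (.fwd 4419 42 tpr124.df))) (.node (.leaf (.bwd 4461 24 tpr66.df)) (.leaf (.fwd 4485 34 tpr643.df))))) (.node (.node (.node (.node (.leaf (.bwd 4519 42 tpr587.df)) (.leaf (.fwd 4561 25 tpr644.df))) (.leaf (.bwd 4586 22 tpr572.df))) (.node (.node (.leaf (.fwd 4608 35 tpr123.df)) (.leaf (.fwd 4643 43 tpr122.df))) (.leaf (.fwd 4686 39 tpr81.df)))) (.node (.node (.node (.leaf (.fwd 4725 33 tpr645.df)) (.leaf (.bwd 4758 34 tpr15.df))) (.leaf (.bwd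 4792 20 tpr48.df))) (.node (.leaf (.fwd 4812 20 tpr216.df)) (.leaf (.bwd 4832 17 tpr16.df)))))) (.node (.node (.node (.node (.node (.leaf (.fwd 4849 33 tpr646.df)) (.leaf (.fwd 4882 24 tpr458.df))) (.leaf (.bwd 4906 38 tpr265.df))) (.node (.node (.leaf (.bwd 4944 31 tpr339.df)) (.leaf (.bwd 4975 36 tpr75.df))) (.leaf (.fwd 5011 29 tpr647.df)))) (.node (.node (.node (.leaf (.bwd 5040 31 tpr315.df)) (.leaf (.bwd 5071 18 tpr648.df))) (.leaf (.fwd 5089 28 tpr225.df))) (.node (.leaf (.bwd 5117 25 tpr457.df)) (.leaf (.bwd 5142 48 tpr649.df))))) (.node (.node (.node (.node (.leaf (.bwd 5190 31 tpr650.df)) (.leaf (.fwd 5221 31 tpr651.df))) (.leaf (.fwd 5252 37 tpr406.df))) (.node (.leaf (.bwd 5289 32 tpr652.df)) (.leaf (.fwd 5321 26 tpr653.df)))) (.node (.node (.node (.leaf (.bwd 5347 29 tpr654.df)) (.leaf (.bwd 5376 39 tpr655.df))) (.leaf (.bwd 5415 21 tpr8.df))) (.node (.leaf (.bwd 5436 16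 tpr168.df)) (.leaf (.bwd 5452 29 tpr656.df))))))))) (.node (.node (.node (.node (.node (.node (.node (.node (.leaf (.bwd 5481 34 tpr548.df)) (.leaf (.bwd 5515 37 tpr553.df))) (.leaf (.fwd 5552 35 tpr657.df))) (.node (.node (.leaf (.fwd 5587 40 tpr62.df)) (.leaf (.fwd 5627 35 tpr602.df))) (.leaf (.bwd 5662 35 tpr259.df)))) (.node (.node (.node (.leaf (.bwd 5697 31 tpr198.df)) (.leaf (.bwd 5728 36 tpr23.df))) (.leaf (.fwd 5764 19 tpr429.df))) (.node (.leaf (.fwd 5783 35 tpr658.df)) (.leaf (.fwd 5818 22 tpr581.df))))) (.node (.node (.node (.node (.leaf (.bwd 5840 42 tpr612.df)) (.leaf (.fwd 5882 37 tpr583.df))) (.leaf (.fwd 5919 35 tpr534.df))) (.node (.node (.leaf (.fwd 5954 23 tpr659.df)) (.leaf (.bwd 5977 24 tpr578.df))) (.leaf (.fwd 6001 40 tpr660.df)))) (.node (.node (.node (.leaf (.fwd 6041 36 tpr634.df)) (.leaf (.fwd 6077 33 tpr661.df))) (.leaf (.bwd 6110 36 tpr662.df))) (.node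 (.leaf (.bwd 6146 34 tpr643.df)) (.leaf (.bwd 6180 33 tpr663.df)))))) (.node (.node (.node (.node (.node (.leaf (.bwd 6213 34 tpr664.df)) (.leaf (.fwd 6247 29 tpr564.df))) (.leaf (.bwd 6276 36 tpr665.df))) (.node (.node (.leaf (.bwd 6312 29 tpr666.df)) (.leaf (.fwd 6341 24 tpr667.df))) (.leaf (.bwd 6365 51 tpr668.df)))) (.node (.node (.node (.leaf (.fwd 6416 32 tpr669.df)) (.leaf (.bwd 6448 40 tpr670.df))) (.leaf (.fwd 6488 37 tpr671.df))) (.node (.leaf (.bwd 6525 36 tpr672.df)) (.leaf (.bwd 6561 42 tpr673.df))))) (.node (.node (.node (.node (.leaf (.bwd 6603 32 tpr674.df)) (.leaf (.bwd 6635 35 tpr91.df))) (.leaf (.fwd 6670 26 tpr675.df))) (.node (.node (.leaf (.bwd 6696 43 tpr676.df)) (.leaf (.bwd 6739 45 tpr611.df))) (.leaf (.fwd 6784 22 tpr20.df)))) (.node (.node (.node (.leaf (.fwd 6806 21 tpr72.df)) (.leaf (.fwd 6827 25 tpr677.df))) (.leaf (.fwd 6852 36 tpr23.df))) (.node (.leaf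 (.bwd 6888 37 tpr583.df)) (.leaf (.bwd 6925 42 tpr678.df))))))) (.node (.node (.node (.node (.node (.node (.leaf (.bwd 6967 35 tpr554.df)) (.leaf (.fwd 7002 28 tpr588.df))) (.leaf (.fwd 7030 45 tpr596.df))) (.node (.node (.leaf (.fwd 7075 28 tpr223.df)) (.leaf (.fwd 7103 47 tpr542.df))) (.leaf (.fwd 7150 37 tpr556.df)))) (.node (.node (.node (.leaf (.bwd 7187 25 tpr679.df)) (.leaf (.bwd 7212 30 tpr577.df))) (.leaf (.bwd 7242 39 tpr636.df))) (.node (.leaf (.bwd 7281 33 tpr501.df)) (.leaf (.fwd 7314 30 tpr626.df))))) (.node (.node (.node (.node (.leaf (.bwd 7344 40 tpr544.df)) (.leaf (.fwd 7384 33 tpr680.df))) (.leaf (.bwd 7417 32 tpr567.df))) (.node (.node (.leaf (.fwd 7449 35 tpr595.df)) (.leaf (.bwd 7484 37 tpr681.df))) (.leaf (.fwd 7521 25 tpr106.df)))) (.node (.node (.node (.leaf (.bwd 7546 29 tpr151.df)) (.leaf (.fwd 7575 27 tpr682.df))) (.leaf (.fwd 7602 34 tpr575.df))) (.node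 (.leaf (.fwd 7636 36 tpr683.df)) (.leaf (.fwd 7672 48 tpr684.df)))))) (.node (.node (.node (.node (.node (.leaf (.fwd 7720 39 tpr685.df)) (.leaf (.bwd 7759 36 tpr686.df))) (.leaf (.bwd 7795 37 tpr687.df))) (.node (.node (.leaf (.bwd 7832 37 tpr688.df)) (.leaf (.fwd 7869 33 tpr689.df))) (.leaf (.bwd 7902 35 tpr658.df)))) (.node (.node (.node (.leaf (.bwd 7937 38 tpr690.df)) (.leaf (.bwd 7975 34 tpr691.df))) (.leaf (.bwd 8009 33 tpr680.df))) (.node (.leaf (.bwd 8042 29 tpr692.df)) (.leaf (.bwd 8071 22 tpr590.df))))) (.node (.node (.node (.node (.leaf (.fwd 8093 37 tpr693.df)) (.leaf (.bwd 8130 31 tpr694.df))) (.leaf (.bwd 8161 61 tpr695.df))) (.node (.leaf (.bwd 8222 22 tpr191.df)) (.leaf (.fwd 8244 27 tpr524.df)))) (.node (.node (.node (.leaf (.bwd 8271 29 tpr696.df)) (.leaf (.fwd 8300 24 tpr697.df))) (.leaf (.bwd 8324 27 tpr584.df))) (.node (.leaf (.bwd 8351 29 tpr698.df)) (.leaf (.fwd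 8380 38 tpr238.df)))))))) (.node (.node (.node (.node (.node (.node (.node (.leaf (.fwd 8418 58 tpr699.df)) (.leaf (.fwd 8476 38 tpr526.df))) (.leaf (.bwd 8514 30 tpr263.df))) (.node (.node (.leaf (.fwd 8544 35 tpr512.df)) (.leaf (.fwd 8579 26 tpr700.df))) (.leaf (.fwd 8605 39 tpr701.df)))) (.node (.node (.node (.leaf (.bwd 8644 25 tpr702.df)) (.leaf (.bwd 8669 28 tpr546.df))) (.leaf (.fwd 8697 30 tpr613.df))) (.node (.leaf (.bwd 8727 35 tpr703.df)) (.leaf (.bwd 8762 22 tpr598.df))))) (.node (.node (.node (.node (.leaf (.fwd 8784 43 tpr565.df)) (.leaf (.fwd 8827 30 tpr235.df))) (.leaf (.bwd 8857 31 tpr704.df))) (.node (.node (.leaf (.fwd 8888 21 tpr25.df)) (.leaf (.bwd 8909 18 tpr18.df))) (.leaf (.fwd 8927 56 tpr452.df)))) (.node (.node (.node (.leaf (.bwd 8983 40 tpr705.df)) (.leaf (.bwd 9023 37 tpr706.df))) (.leaf (.bwd 9060 28 tpr707.df))) (.node (.leaf (.bwd 9088 40 tpr708.df))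 (.leaf (.bwd 9128 30 tpr709.df)))))) (.node (.node (.node (.node (.node (.leaf (.bwd 9158 41 tpr120.df)) (.leaf (.bwd 9199 32 tpr710.df))) (.leaf (.bwd 9231 25 tpr711.df))) (.node (.node (.leaf (.fwd 9256 31 tpr712.df)) (.leaf (.bwd 9287 26 tpr334.df))) (.leaf (.fwd 9313 31 tpr713.df)))) (.node (.node (.node (.leaf (.fwd 9344 35 tpr461.df)) (.leaf (.fwd 9379 29 tpr714.df))) (.leaf (.bwd 9408 41 tpr715.df))) (.node (.leaf (.fwd 9449 35 tpr716.df)) (.leaf (.bwd 9484 17 tpr717.df))))) (.node (.node (.node (.node (.leaf (.fwd 9501 39 tpr718.df)) (.leaf (.bwd 9540 38 tpr393.df))) (.leaf (.fwd 9578 32 tpr719.df))) (.node (.leaf (.bwd 9610 37 tpr720.df)) (.leaf (.bwd 9647 28 tpr721.df)))) (.node (.node (.node (.leaf (.bwd 9675 32 tpr722.df)) (.leaf (.fwd 9707 29 tpr723.df))) (.leaf (.bwd 9736 40 tpr724.df))) (.node (.leaf (.bwd 9776 44 tpr725.df)) (.leaf (.bwd 9820 29 tpr726.df))))))) (.node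 (.node (.node (.node (.node (.node (.leaf (.fwd 9849 30 tpr727.df)) (.leaf (.fwd 9879 31 tpr198.df))) (.leaf (.bwd 9910 24 tpr293.df))) (.node (.node (.leaf (.bwd 9934 25 tpr728.df)) (.leaf (.bwd 9959 51 tpr729.df))) (.leaf (.fwd 10010 28 tpr295.df)))) (.node (.node (.node (.leaf (.fwd 10038 24 tpr730.df)) (.leaf (.fwd 10062 40 tpr731.df))) (.leaf (.fwd 10102 35 tpr13.df))) (.node (.leaf (.bwd 10137 31 tpr732.df)) (.leaf (.fwd 10168 42 tpr733.df))))) (.node (.node (.node (.node (.leaf (.fwd 10210 26 tpr222.df)) (.leaf (.bwd 10236 43 tpr734.df))) (.leaf (.fwd 10279 39 tpr735.df))) (.node (.node (.leaf (.fwd 10318 32 tpr736.df)) (.leaf (.bwd 10350 32 tpr737.df))) (.leaf (.fwd 10382 34 tpr738.df)))) (.node (.node (.node (.leaf (.bwd 10416 32 tpr287.df)) (.leaf (.fwd 10448 25 tpr586.df))) (.leaf (.bwd 10473 33 tpr631.df))) (.node (.leaf (.fwd 10506 25 tpr739.df)) (.leaf (.bwd 10531 41 tpr502.df))))))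 (.node (.node (.node (.node (.node (.leaf (.fwd 10572 32 tpr294.df)) (.leaf (.bwd 10604 45 tpr740.df))) (.leaf (.bwd 10649 49 tpr741.df))) (.node (.node (.leaf (.bwd 10698 24 tpr697.df)) (.leaf (.fwd 10722 32 tpr742.df))) (.leaf (.fwd 10754 24 tpr743.df)))) (.node (.node (.node (.leaf (.bwd 10778 30 tpr744.df)) (.leaf (.fwd 10808 41 tpr188.df))) (.leaf (.bwd 10849 31 tpr745.df))) (.node (.leaf (.bwd 10880 29 tpr746.df)) (.leaf (.fwd 10909 53 tpr747.df))))) (.node (.node (.node (.node (.leaf (.fwd 10962 34 tpr748.df)) (.leaf (.bwd 10996 45 tpr749.df))) (.leaf (.fwd 11041 35 tpr574.df))) (.node (.leaf (.fwd 11076 41 tpr750.df)) (.leaf (.bwd 11117 47 tpr751.df)))) (.node (.node (.node (.leaf (.fwd 11164 33 tpr752.df)) (.leaf (.fwd 11197 26 tpr753.df))) (.leaf (.bwd 11223 34 tpr755.df))) (.node (.leaf (.bwd 11257 23 tpr559.df)) (.leaf (.bwd 11280 39 tpr756.df))))))))))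

theorem iiNFzE2A3H2AzAyB2H3AyB2EzF_c : iiNFzE2A3H2AzAyB2H3AyB2EzF.all (itB (ng 61 nnNFzE2A3H2AzAyB2H3AyB2EzF)) = true := by decide +kernel
theorem nbNFzE2A3H2AzAyB2H3AyB2EzF : nbB 61 11380 nnNFzE2A3H2AzAyB2H3AyB2EzF = true := by decide +kernel
theorem topNFzE2A3H2AzAyB2H3AyB2EzF : topY 11380 ttNFzE2A3H2AzAyB2H3AyB2EzF ceNFzE2A3H2AzAyB2H3AyB2EzF xNFzE2A3H2AzAyB2H3AyB2EzF iiNFzE2A3H2AzAyB2H3AyB2EzF = true := by decide +kernel

end MPb6R
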