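import Pool.Agent.Lib.MP_b6d339_lc.Cw3.YFzE2A3H2AzIzA2H3A2EzF
import Pool.Agent.Lib.MP_b6d339_lc.Cw3.XL
import Pool.Agent.Lib.MP_b6d339_lc.Cw3.T0
import Pool.Agent.Lib.MP_b6d339_lc.Cw3.T1
import Pool.Agent.Lib.MP_b6d339_lc.Cw3.T11
import Pool.Agent.Lib.MP_b6d339_lc.Cw3.T12
import Pool.Agent.Lib.MP_b6d339_lc.Cw3.T13
import Pool.Agent.Lib.MP_b6d339_lc.Cw3.T14
import Pool.Agent.Lib.MP_b6d339_lc.Cw3.T15
import Pool.Agent.Lib.MP_b6d339_lc.Cw3.T19
import Pool.Agent.Lib.MP_b6d339_lc.Cw3.T2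
import Pool.Agent.Lib.MP_b6d339_lc.Cw3.T20
import Pool.Agent.Lib.MP_b6d339_lc.Cw3.T21
import Pool.Agent.Lib.MP_b6d339_lc.Cw3.T3
import Pool.Agent.Lib.MP_b6d339_lc.Cw3.T4
import Pool.Agent.Lib.MP_b6d339_lc.Cw3.T5
import Pool.Agent.Lib.MP_b6d339_lc.Cw3.T6
import Pool.Agent.Lib.MP_b6d339_lc.Cw3.T7
import Pool.Agent.Lib.MP_b6d339_lc.Cw3.T8
import Pool.Agent.Lib.MP_b6d339_lc.Cw3.T9

/-!
# Erdős 592, three levels: items
-/

namespace MPb6R

open MPb6P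

noncomputable def iiNFzE2A3H2AzIzA2H3A2EzF : BT Itm := (.node (.node (.node (.node (.node (.node (.node (.node (.node (.leaf (.bwd 0 13 tpr500.df)) (.leaf (.fwd 13 23 tpr5.df))) (.leaf (.fwd 36 13 tpr500.df))) (.node (.node (.leaf (.fwd 49 23 tpr508.df)) (.leaf (.bwd 72 23 tpr508.df))) (.leaf (.fwd 95 27 tpr499.df)))) (.node (.node (.node (.leaf (.bwd 122 27 tpr499.df)) (.leaf (.bwd 149 39 tpr514.df))) (.leaf (.fwd 188 35 tpr259.df))) (.node (.leaf (.bwd 223 35 tpr259.df)) (.leaf (.bwd 258 30 tpr513.df))))) (.node (.node (.node (.node (.leaf (.bwd 288 22 tpr504.df)) (.leaf (.fwd 310 25 tpr10.df))) (.leaf (.bwd 335 25 tpr10.df))) (.node (.node (.leaf (.fwd 360 28 tpr510.df)) (.leaf (.bwd 388 28 tpr510.df))) (.leaf (.bwd 416 41 tpr502.df)))) (.node (.node (.node (.leaf (.bwd 457 20 tpr48.df)) (.leaf (.fwd 477 20 tpr48.df))) (.leaf (.bwd 497 37 tpr503.df))) (.node (.leaf (.fwd 534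 31 tpr606.df)) (.leaf (.bwd 565 27 tpr236.df)))))) (.node (.node (.node (.node (.node (.leaf (.fwd 592 32 tpr17.df)) (.leaf (.bwd 624 31 tpr606.df))) (.leaf (.fwd 655 28 tpr507.df))) (.node (.node (.leaf (.bwd 683 28 tpr507.df)) (.leaf (.bwd 711 22 tpr515.df))) (.leaf (.fwd 733 40 tpr544.df)))) (.node (.node (.node (.leaf (.fwd 773 27 tpr529.df)) (.leaf (.fwd 800 35 tpr534.df))) (.leaf (.bwd 835 35 tpr534.df))) (.node (.leaf (.bwd 870 27 tpr529.df)) (.leaf (.bwd 897 31 tpr528.df))))) (.node (.node (.node (.node (.leaf (.fwd 928 31 tpr528.df)) (.leaf (.fwd 959 36 tpr547.df))) (.leaf (.bwd 995 36 tpr547.df))) (.node (.node (.leaf (.fwd 1031 20 tpr103.df)) (.leaf (.fwd 1051 6 tpr4.df))) (.leaf (.fwd 1057 24 tpr1681.df)))) (.node (.node (.node (.leaf (.bwd 1081 30 tpr26.df)) (.leaf (.bwd 1111 33 tpr521.df))) (.leaf (.bwd 1144 38 tpr526.df))) (.node (.leaf (.bwd 1182 39 tpr78.df)) (.leaf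 (.fwd 1221 20 tpr505.df))))))) (.node (.node (.node (.node (.node (.node (.leaf (.bwd 1241 29 tpr151.df)) (.leaf (.fwd 1270 43 tpr566.df))) (.leaf (.fwd 1313 26 tpr509.df))) (.node (.node (.leaf (.bwd 1339 43 tpr566.df)) (.leaf (.bwd 1382 23 tpr5.df))) (.leaf (.fwd 1405 35 tpr595.df)))) (.node (.node (.node (.leaf (.bwd 1440 28 tpr546.df)) (.leaf (.bwd 1468 34 tpr54.df))) (.leaf (.bwd 1502 56 tpr87.df))) (.node (.leaf (.bwd 1558 34 tpr543.df)) (.leaf (.bwd 1592 34 tpr575.df))))) (.node (.node (.node (.node (.leaf (.fwd 1626 42 tpr344.df)) (.leaf (.fwd 1668 32 tpr1633.df))) (.leaf (.bwd 1700 32 tpr1633.df))) (.node (.node (.leaf (.bwd 1732 28 tpr588.df)) (.leaf (.fwd 1760 40 tpr32.df))) (.leaf (.fwd 1800 35 tpr657.df)))) (.node (.node (.node (.leaf (.bwd 1835 60 tpr630.df)) (.leaf (.fwd 1895 29 tpr579.df))) (.leaf (.bwd 1924 29 tpr579.df))) (.node (.leaf (.fwd 1953 60 tpr630.df))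 (.leaf (.fwd 2013 36 tpr75.df)))))) (.node (.node (.node (.node (.node (.leaf (.bwd 2049 36 tpr75.df)) (.leaf (.fwd 2085 30 tpr1643.df))) (.leaf (.fwd 2115 61 tpr695.df))) (.node (.node (.leaf (.fwd 2176 31 tpr557.df)) (.leaf (.bwd 2207 30 tpr1643.df))) (.leaf (.bwd 2237 33 tpr968.df)))) (.node (.node (.node (.leaf (.fwd 2270 33 tpr968.df)) (.leaf (.fwd 2303 35 tpr1682.df))) (.leaf (.bwd 2338 25 tpr633.df))) (.node (.leaf (.bwd 2363 42 tpr587.df)) (.leaf (.bwd 2405 21 tpr107.df))))) (.node (.node (.node (.node (.leaf (.bwd 2426 28 tpr721.df)) (.leaf (.bwd 2454 30 tpr626.df))) (.leaf (.fwd 2484 37 tpr720.df))) (.node (.node (.leaf (.fwd 2521 32 tpr736.df)) (.leaf (.bwd 2553 32 tpr736.df))) (.leaf (.fwd 2585 49 tpr1683.df)))) (.node (.node (.node (.leaf (.bwd 2634 49 tpr1683.df)) (.leaf (.fwd 2683 29 tpr564.df))) (.leaf (.fwd 2712 25 tpr1257.df))) (.node (.leaf (.fwd 2737 36 tpr1644.df))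 (.leaf (.bwd 2773 34 tpr664.df)))))))) (.node (.node (.node (.node (.node (.node (.node (.leaf (.bwd 2807 36 tpr1644.df)) (.leaf (.fwd 2843 26 tpr1635.df))) (.leaf (.fwd 2869 54 tpr1193.df))) (.node (.node (.leaf (.bwd 2923 40 tpr1684.df)) (.leaf (.fwd 2963 21 tpr530.df))) (.leaf (.fwd 2984 29 tpr1685.df)))) (.node (.node (.node (.leaf (.bwd 3013 29 tpr1685.df)) (.leaf (.fwd 3042 37 tpr1190.df))) (.leaf (.fwd 3079 17 tpr317.df))) (.node (.leaf (.bwd 3096 20 tpr103.df)) (.leaf (.fwd 3116 22 tpr504.df))))) (.node (.node (.node (.node (.leaf (.bwd 3138 24 tpr57.df)) (.leaf (.fwd 3162 39 tpr78.df))) (.leaf (.bwd 3201 27 tpr506.df))) (.node (.node (.leaf (.bwd 3228 31 tpr198.df)) (.leaf (.bwd 3259 24 tpr1681.df))) (.leaf (.fwd 3283 42 tpr124.df)))) (.node (.node (.node (.leaf (.fwd 3325 39 tpr81.df)) (.leaf (.fwd 3364 38 tpr526.df))) (.leaf (.bwd 3402 17 tpr16.df))) (.node (.leaf (.fwd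 3419 56 tpr87.df)) (.leaf (.bwd 3475 31 tpr339.df)))))) (.node (.node (.node (.node (.node (.leaf (.fwd 3506 20 tpr216.df)) (.leaf (.fwd 3526 37 tpr406.df))) (.leaf (.bwd 3563 37 tpr782.df))) (.node (.node (.leaf (.bwd 3600 31 tpr315.df)) (.leaf (.bwd 3631 42 tpr1196.df))) (.leaf (.fwd 3673 35 tpr328.df)))) (.node (.node (.node (.leaf (.bwd 3708 18 tpr648.df)) (.leaf (.bwd 3726 61 tpr695.df))) (.leaf (.fwd 3787 35 tpr123.df))) (.node (.leaf (.fwd 3822 43 tpr122.df)) (.leaf (.bwd 3865 25 tpr457.df))))) (.node (.node (.node (.node (.leaf (.bwd 3890 46 tpr1686.df)) (.leaf (.bwd 3936 21 tpr474.df))) (.leaf (.bwd 3957 37 tpr1190.df))) (.node (.node (.leaf (.bwd 3994 26 tpr516.df)) (.leaf (.bwd 4020 37 tpr720.df))) (.leaf (.bwd 4057 27 tpr82.df)))) (.node (.node (.node (.leaf (.bwd 4084 38 tpr393.df)) (.leaf (.fwd 4122 22 tpr515.df))) (.leaf (.fwd 4144 30 tpr513.df))) (.node (.leaf (.fwd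 4174 41 tpr502.df)) (.leaf (.fwd 4215 38 tpr203.df))))))) (.node (.node (.node (.node (.node (.node (.leaf (.bwd 4253 31 tpr167.df)) (.leaf (.fwd 4284 31 tpr517.df))) (.leaf (.fwd 4315 27 tpr82.df))) (.node (.node (.leaf (.fwd 4342 29 tpr545.df)) (.leaf (.fwd 4371 38 tpr519.df))) (.leaf (.bwd 4409 43 tpr532.df)))) (.node (.node (.node (.leaf (.fwd 4452 29 tpr46.df)) (.leaf (.bwd 4481 25 tpr677.df))) (.leaf (.bwd 4506 23 tpr632.df))) (.node (.leaf (.fwd 4529 25 tpr586.df)) (.leaf (.fwd 4554 35 tpr541.df))))) (.node (.node (.node (.node (.leaf (.bwd 4589 32 tpr294.df)) (.leaf (.bwd 4621 27 tpr682.df))) (.leaf (.fwd 4648 32 tpr522.df))) (.node (.node (.leaf (.bwd 4680 29 tpr9.df)) (.leaf (.fwd 4709 27 tpr236.df))) (.leaf (.fwd 4736 31 tpr167.df)))) (.node (.node (.node (.leaf (.bwd 4767 20 tpr505.df)) (.leaf (.fwd 4787 29 tpr22.df))) (.leaf (.fwd 4816 26 tpr516.df))) (.node (.leaf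 (.fwd 4842 30 tpr26.df)) (.leaf (.fwd 4872 28 tpr546.df)))))) (.node (.node (.node (.node (.node (.leaf (.fwd 4900 17 tpr16.df)) (.leaf (.fwd 4917 22 tpr536.df))) (.leaf (.fwd 4939 21 tpr474.df))) (.node (.node (.leaf (.fwd 4960 31 tpr339.df)) (.leaf (.bwd 4991 15 tpr525.df))) (.leaf (.fwd 5006 24 tpr57.df)))) (.node (.node (.node (.leaf (.bwd 5030 42 tpr124.df)) (.leaf (.bwd 5072 39 tpr569.df))) (.leaf (.bwd 5111 40 tpr544.df))) (.node (.leaf (.bwd 5151 24 tpr743.df)) (.leaf (.fwd 5175 29 tpr9.df))))) (.node (.node (.node (.node (.leaf (.bwd 5204 39 tpr81.df)) (.leaf (.bwd 5243 32 tpr518.df))) (.leaf (.fwd 5275 24 tpr609.df))) (.node (.node (.leaf (.fwd 5299 37 tpr621.df)) (.leaf (.bwd 5336 28 tpr295.df))) (.leaf (.fwd 5364 25 tpr74.df)))) (.node (.node (.node (.leaf (.bwd 5389 35 tpr123.df)) (.leaf (.bwd 5424 37 tpr406.df))) (.leaf (.fwd 5461 38 tpr393.df))) (.node (.leaf (.fwd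 5499 31 tpr198.df)) (.leaf (.bwd 5530 43 tpr122.df))))))))) (.node (.node (.node (.node (.node (.node (.node (.node (.leaf (.fwd 5573 41 tpr549.df)) (.leaf (.bwd 5614 31 tpr517.df))) (.leaf (.fwd 5645 30 tpr537.df))) (.node (.node (.leaf (.fwd 5675 19 tpr33.df)) (.leaf (.fwd 5694 27 tpr682.df))) (.leaf (.fwd 5721 35 tpr585.df)))) (.node (.node (.node (.leaf (.fwd 5756 29 tpr151.df)) (.leaf (.bwd 5785 31 tpr557.df))) (.leaf (.fwd 5816 30 tpr626.df))) (.node (.leaf (.fwd 5846 43 tpr734.df)) (.leaf (.fwd 5889 29 tpr726.df))))) (.node (.node (.node (.node (.leaf (.bwd 5918 35 tpr533.df)) (.leaf (.bwd 5953 25 tpr1257.df))) (.leaf (.bwd 5978 39 tpr1653.df))) (.node (.node (.leaf (.bwd 6017 46 tpr324.df)) (.leaf (.fwd 6063 27 tpr506.df))) (.leaf (.fwd 6090 42 tpr587.df)))) (.node (.node (.node (.leaf (.bwd 6132 35 tpr541.df)) (.leaf (.fwd 6167 34 tpr54.df))) (.leaf (.bwd 6201 25 tpr644.df)))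 (.node (.leaf (.bwd 6226 25 tpr51.df)) (.leaf (.fwd 6251 40 tpr1684.df)))))) (.node (.node (.node (.node (.node (.leaf (.fwd 6291 22 tpr959.df)) (.leaf (.fwd 6313 23 tpr632.df))) (.leaf (.fwd 6336 25 tpr702.df))) (.node (.node (.leaf (.fwd 6361 25 tpr633.df)) (.leaf (.fwd 6386 22 tpr953.df))) (.leaf (.fwd 6408 22 tpr572.df)))) (.node (.node (.node (.leaf (.fwd 6430 15 tpr906.df)) (.leaf (.fwd 6445 26 tpr334.df))) (.leaf (.fwd 6471 27 tpr1646.df))) (.node (.leaf (.bwd 6498 32 tpr17.df)) (.leaf (.bwd 6530 22 tpr191.df))))) (.node (.node (.node (.node (.leaf (.fwd 6552 27 tpr524.df)) (.leaf (.fwd 6579 37 tpr503.df))) (.leaf (.bwd 6616 38 tpr203.df))) (.node (.node (.leaf (.bwd 6654 35 tpr657.df)) (.leaf (.bwd 6689 37 tpr520.df))) (.leaf (.bwd 6726 23 tpr559.df)))) (.node (.node (.node (.leaf (.fwd 6749 36 tpr23.df)) (.leaf (.fwd 6785 42 tpr972.df))) (.leaf (.fwd 6827 37 tpr556.df)))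 (.node (.leaf (.fwd 6864 44 tpr466.df)) (.leaf (.fwd 6908 24 tpr697.df))))))) (.node (.node (.node (.node (.node (.node (.leaf (.fwd 6932 28 tpr588.df)) (.leaf (.fwd 6960 43 tpr565.df))) (.leaf (.bwd 7003 36 tpr23.df))) (.node (.node (.leaf (.bwd 7039 44 tpr466.df)) (.leaf (.fwd 7083 37 tpr520.df))) (.leaf (.bwd 7120 22 tpr959.df)))) (.node (.node (.node (.leaf (.bwd 7142 24 tpr697.df)) (.leaf (.fwd 7166 47 tpr542.df))) (.leaf (.bwd 7213 37 tpr523.df))) (.node (.leaf (.bwd 7250 38 tpr519.df)) (.leaf (.fwd 7288 34 tpr575.df))))) (.node (.node (.node (.node (.leaf (.bwd 7322 47 tpr542.df)) (.leaf (.bwd 7369 54 tpr1193.df))) (.leaf (.fwd 7423 33 tpr521.df))) (.node (.node (.leaf (.fwd 7456 37 tpr523.df)) (.leaf (.fwd 7493 37 tpr571.df))) (.leaf (.fwd 7530 33 tpr44.df)))) (.node (.node (.node (.leaf (.fwd 7563 27 tpr562.df)) (.leaf (.fwd 7590 32 tpr294.df))) (.leaf (.fwd 7622 31 tpr576.df)))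 (.node (.leaf (.fwd 7653 35 tpr622.df)) (.leaf (.fwd 7688 43 tpr1144.df)))))) (.node (.node (.node (.node (.node (.leaf (.bwd 7731 29 tpr623.df)) (.leaf (.bwd 7760 22 tpr598.df))) (.leaf (.fwd 7782 34 tpr664.df))) (.node (.node (.leaf (.fwd 7816 28 tpr721.df)) (.leaf (.bwd 7844 24 tpr609.df))) (.leaf (.fwd 7868 44 tpr725.df)))) (.node (.node (.node (.leaf (.bwd 7912 43 tpr565.df)) (.leaf (.fwd 7955 43 tpr532.df))) (.leaf (.bwd 7998 32 tpr591.df))) (.node (.leaf (.bwd 8030 37 tpr571.df)) (.leaf (.bwd 8067 35 tpr622.df))))) (.node (.node (.node (.node (.leaf (.fwd 8102 35 tpr533.df)) (.leaf (.bwd 8137 26 tpr599.df))) (.leaf (.bwd 8163 43 tpr1144.df))) (.node (.node (.leaf (.bwd 8206 24 tpr1687.df)) (.leaf (.bwd 8230 27 tpr562.df))) (.leaf (.bwd 8257 6 tpr4.df)))) (.node (.node (.node (.leaf (.bwd 8263 23 tpr1688.df)) (.leaf (.bwd 8286 13 tpr11.df))) (.leaf (.fwd 8299 29 tpr623.df)))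 (.node (.leaf (.fwd 8328 35 tpr602.df)) (.leaf (.bwd 8363 36 tpr672.df)))))))) (.node (.node (.node (.node (.node (.node (.node (.leaf (.fwd 8399 38 tpr1636.df)) (.leaf (.bwd 8437 41 tpr1637.df))) (.leaf (.fwd 8478 24 tpr1687.df))) (.node (.node (.leaf (.fwd 8502 23 tpr1688.df)) (.leaf (.bwd 8525 26 tpr1635.df))) (.leaf (.fwd 8551 13 tpr11.df)))) (.node (.node (.node (.leaf (.fwd 8564 37 tpr583.df)) (.leaf (.fwd 8601 32 tpr518.df))) (.leaf (.bwd 8633 22 tpr581.df))) (.node (.leaf (.fwd 8655 22 tpr191.df)) (.leaf (.fwd 8677 46 tpr324.df))))) (.node (.node (.node (.node (.leaf (.fwd 8723 22 tpr581.df)) (.leaf (.bwd 8745 29 tpr564.df))) (.leaf (.bwd 8774 44 tpr725.df))) (.node (.node (.leaf (.fwd 8818 32 tpr591.df)) (.leaf (.bwd 8850 35 tpr602.df))) (.leaf (.bwd 8885 30 tpr1547.df)))) (.node (.node (.node (.leaf (.bwd 8915 29 tpr545.df)) (.leaf (.fwd 8944 39 tpr514.df))) (.leaf (.fwd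 8983 30 tpr1547.df))) (.node (.leaf (.bwd 9013 37 tpr583.df)) (.leaf (.bwd 9050 26 tpr509.df)))))) (.node (.node (.node (.node (.node (.leaf (.bwd 9076 32 tpr522.df)) (.leaf (.bwd 9108 35 tpr1682.df))) (.leaf (.fwd 9143 23 tpr559.df))) (.node (.node (.leaf (.fwd 9166 34 tpr543.df)) (.leaf (.fwd 9200 29 tpr1689.df))) (.leaf (.bwd 9229 29 tpr1689.df)))) (.node (.node (.node (.leaf (.fwd 9258 29 tpr1048.df)) (.leaf (.fwd 9287 38 tpr1262.df))) (.leaf (.bwd 9325 38 tpr1262.df))) (.node (.leaf (.bwd 9363 29 tpr1048.df)) (.leaf (.fwd 9392 32 tpr1690.df))))) (.node (.node (.node (.node (.leaf (.bwd 9424 25 tpr702.df)) (.leaf (.bwd 9449 27 tpr524.df))) (.leaf (.bwd 9476 35 tpr595.df))) (.node (.node (.leaf (.bwd 9511 31 tpr576.df)) (.leaf (.bwd 9542 36 tpr1691.df))) (.leaf (.fwd 9578 32 tpr1692.df)))) (.node (.node (.node (.leaf (.bwd 9610 15 tpr906.df)) (.leaf (.fwd 9625 29 tpr582.df)))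 (.leaf (.bwd 9654 37 tpr555.df))) (.node (.leaf (.bwd 9691 22 tpr572.df)) (.leaf (.bwd 9713 27 tpr1646.df))))))) (.node (.node (.node (.node (.node (.node (.leaf (.fwd 9740 36 tpr672.df)) (.leaf (.fwd 9776 32 tpr1693.df))) (.leaf (.fwd 9808 38 tpr1694.df))) (.node (.node (.leaf (.bwd 9846 32 tpr1693.df)) (.leaf (.bwd 9878 53 tpr1695.df))) (.leaf (.bwd 9931 38 tpr1694.df)))) (.node (.node (.node (.leaf (.fwd 9969 13 tpr757.df)) (.leaf (.bwd 9982 25 tpr74.df))) (.leaf (.bwd 10007 19 tpr33.df))) (.node (.leaf (.fwd 10026 39 tpr1653.df)) (.leaf (.fwd 10065 39 tpr569.df))))) (.node (.node (.node (.node (.leaf (.bwd 10104 37 tpr621.df)) (.leaf (.bwd 10141 26 tpr334.df))) (.leaf (.bwd 10167 32 tpr1696.df))) (.node (.node (.leaf (.bwd 10199 32 tpr1692.df)) (.leaf (.bwd 10231 38 tpr1636.df))) (.leaf (.fwd 10269 41 tpr1637.df)))) (.node (.node (.node (.leaf (.bwd 10310 31 tpr1697.df)) (.leaf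 (.bwd 10341 35 tpr1698.df))) (.leaf (.fwd 10376 28 tpr1699.df))) (.node (.leaf (.fwd 10404 25 tpr1700.df)) (.leaf (.bwd 10429 26 tpr1701.df)))))) (.node (.node (.node (.node (.node (.leaf (.fwd 10455 26 tpr1701.df)) (.leaf (.bwd 10481 25 tpr1700.df))) (.leaf (.fwd 10506 30 tpr1702.df))) (.node (.node (.leaf (.fwd 10536 26 tpr599.df)) (.leaf (.bwd 10562 24 tpr293.df))) (.leaf (.bwd 10586 42 tpr344.df)))) (.node (.node (.node (.leaf (.bwd 10628 32 tpr1703.df)) (.leaf (.fwd 10660 28 tpr295.df))) (.leaf (.fwd 10688 21 tpr107.df))) (.node (.leaf (.bwd 10709 25 tpr586.df)) (.leaf (.bwd 10734 38 tpr265.df))))) (.node (.node (.node (.node (.leaf (.bwd 10772 40 tpr32.df)) (.leaf (.bwd 10812 42 tpr972.df))) (.leaf (.fwd 10854 37 tpr1704.df))) (.node (.leaf (.fwd 10891 35 tpr194.df)) (.leaf (.fwd 10926 24 tpr743.df)))) (.node (.node (.node (.leaf (.fwd 10950 43 tpr292.df)) (.leaf (.bwd 10993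 32 tpr247.df))) (.leaf (.bwd 11025 29 tpr726.df))) (.node (.leaf (.fwd 11054 44 tpr1705.df)) (.leaf (.bwd 11098 22 tpr536.df))))))))))

theorem iiNFzE2A3H2AzIzA2H3A2EzF_c : iiNFzE2A3H2AzIzA2H3A2EzF.all (itB (ng 61 nnNFzE2A3H2AzIzA2H3A2EzF)) = true := by decide +kernel
theorem nbNFzE2A3H2AzIzA2H3A2EzF : nbB 61 11181 nnNFzE2A3H2AzIzA2H3A2EzF = true := by decide +kernel
theorem topNFzE2A3H2AzIzA2H3A2EzF : topY 11181 ttNFzE2A3H2AzIzA2H3A2EzF ceNFzE2A3H2AzIzA2H3A2EzF xNFzE2A3H2AzIzA2H3A2EzF iiNFzE2A3H2AzIzA2H3A2EzF = true := by decide +kernel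

end MPb6R
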