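import Pool.Agent.Lib.MP_b6d339_lc.Cw3.YFzE2A3H2AzIzAyB2H3AyB2EzF
import Pool.Agent.Lib.MP_b6d339_lc.Cw3.XL
import Pool.Agent.Lib.MP_b6d339_lc.Cw3.T0
import Pool.Agent.Lib.MP_b6d339_lc.Cw3.T1
import Pool.Agent.Lib.MP_b6d339_lc.Cw3.T10
import Pool.Agent.Lib.MP_b6d339_lc.Cw3.T11
import Pool.Agent.Lib.MP_b6d339_lc.Cw3.T12
import Pool.Agent.Lib.MP_b6d339_lc.Cw3.T13
import Pool.Agent.Lib.MP_b6d339_lc.Cw3.T14
import Pool.Agent.Lib.MP_b6d339_lc.Cw3.T15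
import Pool.Agent.Lib.MP_b6d339_lc.Cw3.T18
import Pool.Agent.Lib.MP_b6d339_lc.Cw3.T19
import Pool.Agent.Lib.MP_b6d339_lc.Cw3.T2
import Pool.Agent.Lib.MP_b6d339_lc.Cw3.T20
import Pool.Agent.Lib.MP_b6d339_lc.Cw3.T21
import Pool.Agent.Lib.MP_b6d339_lc.Cw3.T22
import Pool.Agent.Lib.MP_b6d339_lc.Cw3.T24
import Pool.Agent.Lib.MP_b6d339_lc.Cw3.T3
import Pool.Agent.Lib.MP_b6d339_lc.Cw3.T36
import Pool.Agent.Lib.MP_b6d339_lc.Cw3.T4
import Pool.Agent.Lib.MP_b6d339_lc.Cw3.T5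
import Pool.Agent.Lib.MP_b6d339_lc.Cw3.T6
import Pool.Agent.Lib.MP_b6d339_lc.Cw3.T7
import Pool.Agent.Lib.MP_b6d339_lc.Cw3.T8
import Pool.Agent.Lib.MP_b6d339_lc.Cw3.T9

/-!
# Erdős 592, three levels: items
-/

namespace MPb6R

open MPb6P

noncomputable def iiNFzE2A3H2AzIzAyB2H3AyB2EzF : BT Itm := (.node (.node (.node (.node (.node (.node (.node (.node (.node (.leaf (.bwd 0 16 tpr168.df)) (.leaf (.bwd 16 13 tpr500.df))) (.leaf (.fwd 29 13 tpr500.df))) (.node (.leaf (.fwd 42 6 tpr4.df)) (.leaf (.bwd 48 22 tpr982.df)))) (.node (.node (.node (.leaf (.bwd 70 24 tpr57.df)) (.leaf (.bwd 94 29 tpr608.df))) (.leaf (.fwd 123 21 tpr90.df))) (.node (.leaf (.bwd 144 23 tpr5.df)) (.leaf (.bwd 167 20 tpr103.df))))) (.node (.node (.node (.node (.leaf (.fwd 187 22 tpr504.df)) (.leaf (.bwd 209 35 tpr89.df))) (.leaf (.bwd 244 21 tpr8.df))) (.node (.leaf (.fwd 265 23 tpr640.df)) (.leaf (.bwd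 288 24 tpr609.df)))) (.node (.node (.leaf (.bwd 312 25 tpr74.df)) (.leaf (.fwd 337 35 tpr585.df))) (.node (.leaf (.bwd 372 34 tpr619.df)) (.leaf (.bwd 406 19 tpr616.df)))))) (.node (.node (.node (.node (.node (.leaf (.fwd 425 31 tpr606.df)) (.leaf (.fwd 456 29 tpr978.df))) (.leaf (.fwd 485 28 tpr510.df))) (.node (.leaf (.fwd 513 27 tpr506.df)) (.leaf (.bwd 540 32 tpr567.df)))) (.node (.node (.leaf (.fwd 572 33 tpr680.df)) (.leaf (.bwd 605 25 tpr457.df))) (.node (.leaf (.fwd 630 34 tpr575.df)) (.leaf (.fwd 664 29 tpr564.df))))) (.node (.node (.node (.node (.leaf (.fwd 693 32 tpr1065.df)) (.leaf (.fwd 725 41 tpr1182.df))) (.leaf (.bwd 766 32 tpr550.df))) (.node (.leaf (.bwd 798 42 tpr344.df)) (.leaf (.fwd 840 29 tpr582.df)))) (.node (.node (.leaf (.bwd 869 44 tpr466.df)) (.leaf (.fwd 913 60 tpr630.df))) (.node (.leaf (.fwd 973 28 tpr610.df)) (.leaf (.fwd 1001 34 tpr1253.df)))))))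 (.node (.node (.node (.node (.node (.node (.leaf (.bwd 1035 29 tpr692.df)) (.leaf (.fwd 1064 35 tpr461.df))) (.leaf (.bwd 1099 35 tpr658.df))) (.node (.leaf (.bwd 1134 34 tpr664.df)) (.leaf (.fwd 1168 22 tpr581.df)))) (.node (.node (.leaf (.fwd 1190 24 tpr667.df)) (.leaf (.bwd 1214 15 tpr419.df))) (.node (.leaf (.bwd 1229 20 tpr48.df)) (.leaf (.fwd 1249 20 tpr505.df))))) (.node (.node (.node (.node (.leaf (.bwd 1269 29 tpr1457.df)) (.leaf (.bwd 1298 22 tpr572.df))) (.leaf (.fwd 1320 34 tpr54.df))) (.node (.leaf (.fwd 1354 21 tpr107.df)) (.leaf (.bwd 1375 25 tpr10.df)))) (.node (.node (.leaf (.bwd 1400 23 tpr605.df)) (.leaf (.bwd 1423 16 tpr2940.df))) (.node (.leaf (.bwd 1439 23 tpr640.df)) (.leaf (.fwd 1462 23 tpr605.df)))))) (.node (.node (.node (.node (.node (.leaf (.bwd 1485 26 tpr334.df)) (.leaf (.bwd 1511 18 tpr18.df))) (.leaf (.bwd 1529 35 tpr568.df))) (.node (.leaf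 (.fwd 1564 31 tpr557.df)) (.leaf (.fwd 1595 26 tpr675.df)))) (.node (.node (.leaf (.fwd 1621 25 tpr644.df)) (.leaf (.fwd 1646 43 tpr122.df))) (.node (.leaf (.bwd 1689 43 tpr1144.df)) (.leaf (.bwd 1732 29 tpr637.df))))) (.node (.node (.node (.node (.leaf (.bwd 1761 28 tpr721.df)) (.leaf (.fwd 1789 19 tpr1259.df))) (.leaf (.bwd 1808 29 tpr618.df))) (.node (.leaf (.fwd 1837 25 tpr51.df)) (.leaf (.bwd 1862 39 tpr642.df)))) (.node (.node (.leaf (.fwd 1901 20 tpr216.df)) (.leaf (.bwd 1921 39 tpr210.df))) (.node (.leaf (.fwd 1960 33 tpr645.df)) (.leaf (.fwd 1993 24 tpr458.df)))))))) (.node (.node (.node (.node (.node (.node (.node (.leaf (.fwd 2017 39 tpr78.df)) (.leaf (.bwd 2056 22 tpr239.df))) (.leaf (.bwd 2078 26 tpr516.df))) (.node (.leaf (.bwd 2104 24 tpr24.df)) (.leaf (.bwd 2128 30 tpr537.df)))) (.node (.node (.node (.leaf (.bwd 2158 42 tpr587.df)) (.leaf (.bwd 2200 29 tpr641.df)))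 (.leaf (.bwd 2229 30 tpr26.df))) (.node (.leaf (.fwd 2259 37 tpr406.df)) (.leaf (.bwd 2296 31 tpr704.df))))) (.node (.node (.node (.node (.leaf (.bwd 2327 18 tpr648.df)) (.leaf (.fwd 2345 39 tpr81.df))) (.leaf (.bwd 2384 27 tpr625.df))) (.node (.leaf (.bwd 2411 21 tpr474.df)) (.leaf (.fwd 2432 42 tpr124.df)))) (.node (.node (.leaf (.bwd 2474 26 tpr1800.df)) (.leaf (.fwd 2500 43 tpr566.df))) (.node (.leaf (.bwd 2543 33 tpr968.df)) (.leaf (.fwd 2576 56 tpr87.df)))))) (.node (.node (.node (.node (.node (.leaf (.bwd 2632 36 tpr75.df)) (.leaf (.bwd 2668 27 tpr82.df))) (.leaf (.bwd 2695 37 tpr621.df))) (.node (.leaf (.bwd 2732 41 tpr549.df)) (.leaf (.bwd 2773 61 tpr695.df)))) (.node (.node (.leaf (.bwd 2834 26 tpr245.df)) (.leaf (.bwd 2860 27 tpr499.df))) (.node (.leaf (.bwd 2887 25 tpr702.df)) (.leaf (.bwd 2912 23 tpr632.df))))) (.node (.node (.node (.node (.leaf (.bwd 2935 39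 tpr1735.df)) (.leaf (.fwd 2974 28 tpr511.df))) (.leaf (.fwd 3002 27 tpr82.df))) (.node (.leaf (.fwd 3029 29 tpr545.df)) (.leaf (.bwd 3058 26 tpr1246.df)))) (.node (.node (.leaf (.fwd 3084 26 tpr509.df)) (.leaf (.fwd 3110 35 tpr568.df))) (.node (.leaf (.fwd 3145 28 tpr507.df)) (.leaf (.fwd 3173 31 tpr607.df))))))) (.node (.node (.node (.node (.node (.node (.leaf (.fwd 3204 21 tpr629.df)) (.leaf (.bwd 3225 31 tpr576.df))) (.leaf (.bwd 3256 32 tpr294.df))) (.node (.leaf (.fwd 3288 38 tpr203.df)) (.leaf (.bwd 3326 33 tpr680.df)))) (.node (.node (.leaf (.bwd 3359 38 tpr203.df)) (.leaf (.fwd 3397 26 tpr222.df))) (.node (.leaf (.fwd 3423 44 tpr617.df)) (.leaf (.fwd 3467 31 tpr517.df))))) (.node (.node (.node (.node (.leaf (.fwd 3498 36 tpr683.df)) (.leaf (.bwd 3534 35 tpr91.df))) (.leaf (.fwd 3569 34 tpr614.df))) (.node (.leaf (.fwd 3603 45 tpr596.df)) (.leaf (.fwd 3648 41 tpr624.df))))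 (.node (.node (.leaf (.fwd 3689 39 tpr701.df)) (.leaf (.fwd 3728 38 tpr519.df))) (.node (.leaf (.bwd 3766 38 tpr393.df)) (.leaf (.bwd 3804 37 tpr720.df)))))) (.node (.node (.node (.node (.node (.leaf (.fwd 3841 20 tpr768.df)) (.leaf (.fwd 3861 27 tpr589.df))) (.leaf (.bwd 3888 29 tpr9.df))) (.node (.leaf (.bwd 3917 23 tpr780.df)) (.leaf (.fwd 3940 21 tpr72.df)))) (.node (.node (.leaf (.bwd 3961 29 tpr656.df)) (.leaf (.bwd 3990 34 tpr628.df))) (.node (.leaf (.bwd 4024 20 tpr505.df)) (.leaf (.bwd 4044 17 tpr16.df))))) (.node (.node (.node (.node (.leaf (.bwd 4061 22 tpr191.df)) (.leaf (.fwd 4083 27 tpr236.df))) (.leaf (.fwd 4110 23 tpr508.df))) (.node (.leaf (.fwd 4133 22 tpr239.df)) (.leaf (.bwd 4155 28 tpr295.df)))) (.node (.node (.leaf (.bwd 4183 24 tpr789.df)) (.leaf (.fwd 4207 26 tpr516.df))) (.node (.leaf (.bwd 4233 21 tpr107.df)) (.leaf (.bwd 4254 23 tpr559.df)))))))))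 (.node (.node (.node (.node (.node (.node (.node (.node (.leaf (.fwd 4277 27 tpr1247.df)) (.leaf (.fwd 4304 28 tpr546.df))) (.leaf (.fwd 4332 37 tpr571.df))) (.node (.leaf (.bwd 4369 34 tpr548.df)) (.leaf (.bwd 4403 38 tpr526.df)))) (.node (.node (.node (.leaf (.fwd 4441 28 tpr1021.df)) (.leaf (.bwd 4469 32 tpr591.df))) (.leaf (.bwd 4501 30 tpr613.df))) (.node (.leaf (.bwd 4531 32 tpr620.df)) (.leaf (.bwd 4563 37 tpr639.df))))) (.node (.node (.node (.node (.leaf (.fwd 4600 16 tpr804.df)) (.leaf (.fwd 4616 34 tpr628.df))) (.leaf (.bwd 4650 48 tpr77.df))) (.node (.leaf (.bwd 4698 32 tpr251.df)) (.leaf (.fwd 4730 41 tpr549.df)))) (.node (.node (.leaf (.fwd 4771 35 tpr657.df)) (.leaf (.fwd 4806 30 tpr537.df))) (.node (.leaf (.fwd 4836 36 tpr547.df)) (.leaf (.fwd 4872 27 tpr979.df)))))) (.node (.node (.node (.node (.node (.leaf (.fwd 4899 27 tpr682.df)) (.leaf (.fwd 4926 31 tpr528.df)))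 (.leaf (.fwd 4957 29 tpr9.df))) (.node (.leaf (.bwd 4986 23 tpr1255.df)) (.leaf (.fwd 5009 31 tpr167.df)))) (.node (.node (.leaf (.bwd 5040 20 tpr1549.df)) (.leaf (.bwd 5060 23 tpr1180.df))) (.node (.leaf (.bwd 5083 46 tpr324.df)) (.leaf (.bwd 5129 39 tpr569.df))))) (.node (.node (.node (.node (.leaf (.fwd 5168 37 tpr555.df)) (.leaf (.fwd 5205 24 tpr697.df))) (.leaf (.bwd 5229 37 tpr553.df))) (.node (.leaf (.fwd 5266 37 tpr583.df)) (.leaf (.fwd 5303 31 tpr198.df)))) (.node (.node (.leaf (.fwd 5334 44 tpr592.df)) (.leaf (.fwd 5378 18 tpr18.df))) (.node (.leaf (.bwd 5396 35 tpr259.df)) (.leaf (.fwd 5431 19 tpr429.df))))))) (.node (.node (.node (.node (.node (.node (.leaf (.fwd 5450 27 tpr584.df)) (.leaf (.bwd 5477 35 tpr622.df))) (.leaf (.bwd 5512 31 tpr527.df))) (.node (.leaf (.fwd 5543 35 tpr534.df)) (.leaf (.fwd 5578 29 tpr579.df)))) (.node (.node (.leaf (.bwd 5607 27 tpr562.df))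 (.leaf (.bwd 5634 36 tpr665.df))) (.node (.leaf (.fwd 5670 35 tpr533.df)) (.leaf (.fwd 5705 22 tpr560.df))))) (.node (.node (.node (.node (.leaf (.fwd 5727 23 tpr659.df)) (.leaf (.bwd 5750 49 tpr1768.df))) (.leaf (.fwd 5799 35 tpr602.df))) (.node (.leaf (.bwd 5834 37 tpr688.df)) (.leaf (.bwd 5871 36 tpr672.df)))) (.node (.node (.leaf (.bwd 5907 37 tpr687.df)) (.leaf (.fwd 5944 33 tpr689.df))) (.node (.leaf (.fwd 5977 29 tpr151.df)) (.leaf (.fwd 6006 27 tpr1254.df)))))) (.node (.node (.node (.node (.node (.leaf (.fwd 6033 33 tpr501.df)) (.leaf (.bwd 6066 28 tpr610.df))) (.leaf (.fwd 6094 30 tpr626.df))) (.node (.leaf (.bwd 6124 33 tpr501.df)) (.leaf (.bwd 6157 30 tpr626.df)))) (.node (.node (.leaf (.bwd 6187 42 tpr1196.df)) (.leaf (.fwd 6229 40 tpr62.df))) (.node (.leaf (.fwd 6269 30 tpr513.df)) (.leaf (.fwd 6299 17 tpr1714.df))))) (.node (.node (.node (.node (.leaf (.bwd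 6316 37 tpr681.df)) (.leaf (.bwd 6353 35 tpr585.df))) (.leaf (.bwd 6388 37 tpr520.df))) (.node (.leaf (.fwd 6425 41 tpr502.df)) (.leaf (.fwd 6466 31 tpr527.df)))) (.node (.node (.leaf (.bwd 6497 30 tpr2941.df)) (.leaf (.bwd 6527 37 tpr583.df))) (.node (.leaf (.fwd 6564 25 tpr1257.df)) (.leaf (.fwd 6589 42 tpr612.df)))))))) (.node (.node (.node (.node (.node (.node (.node (.leaf (.fwd 6631 29 tpr723.df)) (.leaf (.bwd 6660 33 tpr594.df))) (.leaf (.fwd 6693 37 tpr556.df))) (.node (.leaf (.fwd 6730 39 tpr636.df)) (.leaf (.bwd 6769 33 tpr521.df)))) (.node (.node (.node (.leaf (.bwd 6802 31 tpr198.df)) (.leaf (.fwd 6833 26 tpr700.df))) (.leaf (.bwd 6859 30 tpr1730.df))) (.node (.leaf (.fwd 6889 36 tpr23.df)) (.leaf (.bwd 6925 36 tpr23.df))))) (.node (.node (.node (.node (.leaf (.fwd 6961 25 tpr106.df)) (.leaf (.bwd 6986 41 tpr502.df))) (.leaf (.fwd 7027 29 tpr641.df))) (.node (.leaf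 (.bwd 7056 39 tpr514.df)) (.leaf (.fwd 7095 32 tpr294.df)))) (.node (.node (.leaf (.fwd 7127 33 tpr1099.df)) (.leaf (.fwd 7160 31 tpr576.df))) (.node (.leaf (.fwd 7191 32 tpr620.df)) (.leaf (.fwd 7223 54 tpr1193.df)))))) (.node (.node (.node (.node (.node (.leaf (.bwd 7277 35 tpr541.df)) (.leaf (.bwd 7312 37 tpr523.df))) (.leaf (.fwd 7349 27 tpr524.df))) (.node (.leaf (.fwd 7376 29 tpr22.df)) (.leaf (.bwd 7405 32 tpr17.df)))) (.node (.node (.leaf (.bwd 7437 24 tpr635.df)) (.leaf (.fwd 7461 30 tpr577.df))) (.node (.leaf (.fwd 7491 32 tpr518.df)) (.leaf (.fwd 7523 36 tpr1258.df))))) (.node (.node (.node (.node (.leaf (.bwd 7559 13 tpr11.df)) (.leaf (.bwd 7572 25 tpr679.df))) (.leaf (.bwd 7597 36 tpr573.df))) (.node (.leaf (.fwd 7633 41 tpr1970.df)) (.leaf (.bwd 7674 40 tpr544.df)))) (.node (.node (.leaf (.fwd 7714 29 tpr623.df)) (.leaf (.bwd 7743 32 tpr522.df))) (.node (.leaf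 (.fwd 7775 40 tpr705.df)) (.leaf (.fwd 7815 40 tpr1811.df))))))) (.node (.node (.node (.node (.node (.node (.leaf (.fwd 7855 32 tpr1633.df)) (.leaf (.fwd 7887 34 tpr619.df))) (.leaf (.fwd 7921 35 tpr595.df))) (.node (.leaf (.bwd 7956 34 tpr543.df)) (.leaf (.fwd 7990 28 tpr588.df)))) (.node (.node (.leaf (.bwd 8018 29 tpr22.df)) (.leaf (.bwd 8047 35 tpr574.df))) (.node (.leaf (.bwd 8082 29 tpr1252.df)) (.leaf (.fwd 8111 28 tpr1250.df))))) (.node (.node (.node (.node (.leaf (.bwd 8139 33 tpr1256.df)) (.leaf (.bwd 8172 37 tpr503.df))) (.leaf (.fwd 8209 32 tpr247.df))) (.node (.leaf (.bwd 8241 22 tpr515.df)) (.leaf (.fwd 8263 28 tpr627.df)))) (.node (.node (.leaf (.bwd 8291 25 tpr633.df)) (.leaf (.fwd 8316 32 tpr17.df))) (.node (.leaf (.fwd 8348 35 tpr123.df)) (.leaf (.fwd 8383 29 tpr714.df)))))) (.node (.node (.node (.node (.node (.leaf (.bwd 8412 31 tpr339.df)) (.leaf (.fwd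 8443 34 tpr1251.df))) (.leaf (.bwd 8477 22 tpr953.df))) (.node (.leaf (.bwd 8499 22 tpr536.df)) (.leaf (.bwd 8521 36 tpr662.df)))) (.node (.node (.leaf (.fwd 8557 32 tpr669.df)) (.leaf (.fwd 8589 26 tpr599.df))) (.node (.leaf (.fwd 8615 51 tpr1263.df)) (.leaf (.bwd 8666 24 tpr293.df))))) (.node (.node (.node (.node (.leaf (.fwd 8690 30 tpr727.df)) (.leaf (.fwd 8720 28 tpr223.df))) (.leaf (.bwd 8748 33 tpr538.df))) (.node (.leaf (.fwd 8781 26 tpr984.df)) (.leaf (.fwd 8807 45 tpr740.df)))) (.node (.node (.leaf (.bwd 8852 24 tpr578.df)) (.leaf (.fwd 8876 28 tpr295.df))) (.node (.leaf (.bwd 8904 40 tpr670.df)) (.leaf (.bwd 8944 33 tpr631.df))))))))))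

theorem iiNFzE2A3H2AzIzAyB2H3AyB2EzF_c : iiNFzE2A3H2AzIzAyB2H3AyB2EzF.all (itB (ng 61 nnNFzE2A3H2AzIzAyB2H3AyB2EzF)) = true := by decide +kernel
theorem nbNFzE2A3H2AzIzAyB2H3AyB2EzF : nbB 61 9038 nnNFzE2A3H2AzIzAyB2H3AyB2EzF = true := by decide +kernel
theorem topNFzE2A3H2AzIzAyB2H3AyB2EzF : topY 9038 ttNFzE2A3H2AzIzAyB2H3AyB2EzF ceNFzE2A3H2AzIzAyB2H3AyB2EzF xNFzE2A3H2AzIzAyB2H3AyB2EzF iiNFzE2A3H2AzIzAyB2H3AyB2EzF = true := by decide +kernel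

end MPb6R
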