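import Pool.Agent.Lib.MP_b6d339_lc.Cw3.JFzE2A3H2AzAyB2H3A2EzF
import Pool.Agent.Lib.MP_b6d339_lc.Cw3.JFzE2A3H2AzAyB2H3AyB2EzF
import Pool.Agent.Lib.MP_b6d339_lc.Cw3.JFzE2A3H2AzIzA2H3A2EzF
import Pool.Agent.Lib.MP_b6d339_lc.Cw3.JFzE2A3H2AzIzAyB2H3AyB2EzF
import Pool.Agent.Lib.MP_b6d339_lc.Cw3.T0
import Pool.Agent.Lib.MP_b6d339_lc.Cw3.T1
import Pool.Agent.Lib.MP_b6d339_lc.Cw3.T10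
import Pool.Agent.Lib.MP_b6d339_lc.Cw3.T11
import Pool.Agent.Lib.MP_b6d339_lc.Cw3.T12
import Pool.Agent.Lib.MP_b6d339_lc.Cw3.T13
import Pool.Agent.Lib.MP_b6d339_lc.Cw3.T14
import Pool.Agent.Lib.MP_b6d339_lc.Cw3.T15
import Pool.Agent.Lib.MP_b6d339_lc.Cw3.T16
import Pool.Agent.Lib.MP_b6d339_lc.Cw3.T18
import Pool.Agent.Lib.MP_b6d339_lc.Cw3.T19
import Pool.Agent.Lib.MP_b6d339_lc.Cw3.T2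
import Pool.Agent.Lib.MP_b6d339_lc.Cw3.T20
import Pool.Agent.Lib.MP_b6d339_lc.Cw3.T21
import Pool.Agent.Lib.MP_b6d339_lc.Cw3.T22
import Pool.Agent.Lib.MP_b6d339_lc.Cw3.T23
import Pool.Agent.Lib.MP_b6d339_lc.Cw3.T24
import Pool.Agent.Lib.MP_b6d339_lc.Cw3.T3
import Pool.Agent.Lib.MP_b6d339_lc.Cw3.T36
import Pool.Agent.Lib.MP_b6d339_lc.Cw3.T4
import Pool.Agent.Lib.MP_b6d339_lc.Cw3.T5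
import Pool.Agent.Lib.MP_b6d339_lc.Cw3.T6
import Pool.Agent.Lib.MP_b6d339_lc.Cw3.T7
import Pool.Agent.Lib.MP_b6d339_lc.Cw3.T8
import Pool.Agent.Lib.MP_b6d339_lc.Cw3.T9
import Pool.Agent.Lib.MP_b6d339_lc.Cw3.XL
import Pool.Agent.Lib.MP_b6d339_lc.Cw3.ZFzE2A3H2AzAyB2H3A2EzF_0
import Pool.Agent.Lib.MP_b6d339_lc.Cw3.ZFzE2A3H2AzAyB2H3A2EzF_1
import Pool.Agent.Lib.MP_b6d339_lc.Cw3.ZFzE2A3H2AzAyB2H3A2EzF_10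
import Pool.Agent.Lib.MP_b6d339_lc.Cw3.ZFzE2A3H2AzAyB2H3A2EzF_11
import Pool.Agent.Lib.MP_b6d339_lc.Cw3.ZFzE2A3H2AzAyB2H3A2EzF_12
import Pool.Agent.Lib.MP_b6d339_lc.Cw3.ZFzE2A3H2AzAyB2H3A2EzF_13
import Pool.Agent.Lib.MP_b6d339_lc.Cw3.ZFzE2A3H2AzAyB2H3A2EzF_14
import Pool.Agent.Lib.MP_b6d339_lc.Cw3.ZFzE2A3H2AzAyB2H3A2EzF_15
import Pool.Agent.Lib.MP_b6d339_lc.Cw3.ZFzE2A3H2AzAyB2H3A2EzF_16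
import Pool.Agent.Lib.MP_b6d339_lc.Cw3.ZFzE2A3H2AzAyB2H3A2EzF_17
import Pool.Agent.Lib.MP_b6d339_lc.Cw3.ZFzE2A3H2AzAyB2H3A2EzF_18
import Pool.Agent.Lib.MP_b6d339_lc.Cw3.ZFzE2A3H2AzAyB2H3A2EzF_19
import Pool.Agent.Lib.MP_b6d339_lc.Cw3.ZFzE2A3H2AzAyB2H3A2EzF_2
import Pool.Agent.Lib.MP_b6d339_lc.Cw3.ZFzE2A3H2AzAyB2H3A2EzF_20
import Pool.Agent.Lib.MP_b6d339_lc.Cw3.ZFzE2A3H2AzAyB2H3A2EzF_21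
import Pool.Agent.Lib.MP_b6d339_lc.Cw3.ZFzE2A3H2AzAyB2H3A2EzF_22
import Pool.Agent.Lib.MP_b6d339_lc.Cw3.ZFzE2A3H2AzAyB2H3A2EzF_23
import Pool.Agent.Lib.MP_b6d339_lc.Cw3.ZFzE2A3H2AzAyB2H3A2EzF_3
import Pool.Agent.Lib.MP_b6d339_lc.Cw3.ZFzE2A3H2AzAyB2H3A2EzF_4
import Pool.Agent.Lib.MP_b6d339_lc.Cw3.ZFzE2A3H2AzAyB2H3A2EzF_5
import Pool.Agent.Lib.MP_b6d339_lc.Cw3.ZFzE2A3H2AzAyB2H3A2EzF_6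
import Pool.Agent.Lib.MP_b6d339_lc.Cw3.ZFzE2A3H2AzAyB2H3A2EzF_7
import Pool.Agent.Lib.MP_b6d339_lc.Cw3.ZFzE2A3H2AzAyB2H3A2EzF_8
import Pool.Agent.Lib.MP_b6d339_lc.Cw3.ZFzE2A3H2AzAyB2H3A2EzF_9
import Pool.Agent.Lib.MP_b6d339_lc.Cw3.ZFzE2A3H2AzAyB2H3AyB2EzF_0
import Pool.Agent.Lib.MP_b6d339_lc.Cw3.ZFzE2A3H2AzAyB2H3AyB2EzF_1
import Pool.Agent.Lib.MP_b6d339_lc.Cw3.ZFzE2A3H2AzAyB2H3AyB2EzF_10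
import Pool.Agent.Lib.MP_b6d339_lc.Cw3.ZFzE2A3H2AzAyB2H3AyB2EzF_11
import Pool.Agent.Lib.MP_b6d339_lc.Cw3.ZFzE2A3H2AzAyB2H3AyB2EzF_12
import Pool.Agent.Lib.MP_b6d339_lc.Cw3.ZFzE2A3H2AzAyB2H3AyB2EzF_13
import Pool.Agent.Lib.MP_b6d339_lc.Cw3.ZFzE2A3H2AzAyB2H3AyB2EzF_2
import Pool.Agent.Lib.MP_b6d339_lc.Cw3.ZFzE2A3H2AzAyB2H3AyB2EzF_3
import Pool.Agent.Lib.MP_b6d339_lc.Cw3.ZFzE2A3H2AzAyB2H3AyB2EzF_4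
import Pool.Agent.Lib.MP_b6d339_lc.Cw3.ZFzE2A3H2AzAyB2H3AyB2EzF_5
import Pool.Agent.Lib.MP_b6d339_lc.Cw3.ZFzE2A3H2AzAyB2H3AyB2EzF_6
import Pool.Agent.Lib.MP_b6d339_lc.Cw3.ZFzE2A3H2AzAyB2H3AyB2EzF_7
import Pool.Agent.Lib.MP_b6d339_lc.Cw3.ZFzE2A3H2AzAyB2H3AyB2EzF_8
import Pool.Agent.Lib.MP_b6d339_lc.Cw3.ZFzE2A3H2AzAyB2H3AyB2EzF_9
import Pool.Agent.Lib.MP_b6d339_lc.Cw3.ZFzE2A3H2AzIzA2H3A2EzF_0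
import Pool.Agent.Lib.MP_b6d339_lc.Cw3.ZFzE2A3H2AzIzA2H3A2EzF_1
import Pool.Agent.Lib.MP_b6d339_lc.Cw3.ZFzE2A3H2AzIzA2H3A2EzF_10
import Pool.Agent.Lib.MP_b6d339_lc.Cw3.ZFzE2A3H2AzIzA2H3A2EzF_11
import Pool.Agent.Lib.MP_b6d339_lc.Cw3.ZFzE2A3H2AzIzA2H3A2EzF_12
import Pool.Agent.Lib.MP_b6d339_lc.Cw3.ZFzE2A3H2AzIzA2H3A2EzF_13
import Pool.Agent.Lib.MP_b6d339_lc.Cw3.ZFzE2A3H2AzIzA2H3A2EzF_14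
import Pool.Agent.Lib.MP_b6d339_lc.Cw3.ZFzE2A3H2AzIzA2H3A2EzF_15
import Pool.Agent.Lib.MP_b6d339_lc.Cw3.ZFzE2A3H2AzIzA2H3A2EzF_16
import Pool.Agent.Lib.MP_b6d339_lc.Cw3.ZFzE2A3H2AzIzA2H3A2EzF_17
import Pool.Agent.Lib.MP_b6d339_lc.Cw3.ZFzE2A3H2AzIzA2H3A2EzF_18
import Pool.Agent.Lib.MP_b6d339_lc.Cw3.ZFzE2A3H2AzIzA2H3A2EzF_19
import Pool.Agent.Lib.MP_b6d339_lc.Cw3.ZFzE2A3H2AzIzA2H3A2EzF_2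
import Pool.Agent.Lib.MP_b6d339_lc.Cw3.ZFzE2A3H2AzIzA2H3A2EzF_20
import Pool.Agent.Lib.MP_b6d339_lc.Cw3.ZFzE2A3H2AzIzA2H3A2EzF_21
import Pool.Agent.Lib.MP_b6d339_lc.Cw3.ZFzE2A3H2AzIzA2H3A2EzF_22
import Pool.Agent.Lib.MP_b6d339_lc.Cw3.ZFzE2A3H2AzIzA2H3A2EzF_23
import Pool.Agent.Lib.MP_b6d339_lc.Cw3.ZFzE2A3H2AzIzA2H3A2EzF_24
import Pool.Agent.Lib.MP_b6d339_lc.Cw3.ZFzE2A3H2AzIzA2H3A2EzF_25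
import Pool.Agent.Lib.MP_b6d339_lc.Cw3.ZFzE2A3H2AzIzA2H3A2EzF_26
import Pool.Agent.Lib.MP_b6d339_lc.Cw3.ZFzE2A3H2AzIzA2H3A2EzF_27
import Pool.Agent.Lib.MP_b6d339_lc.Cw3.ZFzE2A3H2AzIzA2H3A2EzF_28
import Pool.Agent.Lib.MP_b6d339_lc.Cw3.ZFzE2A3H2AzIzA2H3A2EzF_3
import Pool.Agent.Lib.MP_b6d339_lc.Cw3.ZFzE2A3H2AzIzA2H3A2EzF_4
import Pool.Agent.Lib.MP_b6d339_lc.Cw3.ZFzE2A3H2AzIzA2H3A2EzF_5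
import Pool.Agent.Lib.MP_b6d339_lc.Cw3.ZFzE2A3H2AzIzA2H3A2EzF_6
import Pool.Agent.Lib.MP_b6d339_lc.Cw3.ZFzE2A3H2AzIzA2H3A2EzF_7
import Pool.Agent.Lib.MP_b6d339_lc.Cw3.ZFzE2A3H2AzIzA2H3A2EzF_8
import Pool.Agent.Lib.MP_b6d339_lc.Cw3.ZFzE2A3H2AzIzA2H3A2EzF_9
import Pool.Agent.Lib.MP_b6d339_lc.Cw3.ZFzE2A3H2AzIzAyB2H3AyB2EzF_0
import Pool.Agent.Lib.MP_b6d339_lc.Cw3.ZFzE2A3H2AzIzAyB2H3AyB2EzF_1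
import Pool.Agent.Lib.MP_b6d339_lc.Cw3.ZFzE2A3H2AzIzAyB2H3AyB2EzF_10
import Pool.Agent.Lib.MP_b6d339_lc.Cw3.ZFzE2A3H2AzIzAyB2H3AyB2EzF_11
import Pool.Agent.Lib.MP_b6d339_lc.Cw3.ZFzE2A3H2AzIzAyB2H3AyB2EzF_12
import Pool.Agent.Lib.MP_b6d339_lc.Cw3.ZFzE2A3H2AzIzAyB2H3AyB2EzF_13
import Pool.Agent.Lib.MP_b6d339_lc.Cw3.ZFzE2A3H2AzIzAyB2H3AyB2EzF_14
import Pool.Agent.Lib.MP_b6d339_lc.Cw3.ZFzE2A3H2AzIzAyB2H3AyB2EzF_2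
import Pool.Agent.Lib.MP_b6d339_lc.Cw3.ZFzE2A3H2AzIzAyB2H3AyB2EzF_3
import Pool.Agent.Lib.MP_b6d339_lc.Cw3.ZFzE2A3H2AzIzAyB2H3AyB2EzF_4
import Pool.Agent.Lib.MP_b6d339_lc.Cw3.ZFzE2A3H2AzIzAyB2H3AyB2EzF_5
import Pool.Agent.Lib.MP_b6d339_lc.Cw3.ZFzE2A3H2AzIzAyB2H3AyB2EzF_6
import Pool.Agent.Lib.MP_b6d339_lc.Cw3.ZFzE2A3H2AzIzAyB2H3AyB2EzF_7
import Pool.Agent.Lib.MP_b6d339_lc.Cw3.ZFzE2A3H2AzIzAyB2H3AyB2EzF_8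
import Pool.Agent.Lib.MP_b6d339_lc.Cw3.ZFzE2A3H2AzIzAyB2H3AyB2EzF_9
import Pool.Agent.Lib.MP_b6d339_lc.Pos.XTreeC
import Pool.Agent.Lib.MP_b6d339_lc.Pos.YQ

/-!
# Erdős 592, three levels: classes of words
-/

namespace MPb6R

open MPb6P

theorem iiNFzE2A3H2AzAyB2H3A2EzF_k : iiNFzE2A3H2AzAyB2H3A2EzF.Fa (Itm.ok 206) := (BT.Fa_mk (BT.Fa_mk (BT.Fa_mk (BT.Fa_mk (BT.Fa_mk (BT.Fa_mk (BT.Fa_mk (BT.Fa_mk (BT.Fa_mk (BT.Fa_leaf (P := Itm.ok 206) (iqb tpr500_c)) (BT.Fa_leaf (P := Itm.ok 206) (iqf tpr500_c))) (BT.Fa_leaf (P := Itm.ok 206) (iqf tpr605_c))) (BT.Fa_mk (BT.Fa_mk (BT.Fa_leaf (P := Itm.ok 206) (iqb tpr959_c)) (BT.Fa_leaf (P := Itm.ok 206) (iqf tpr570_c))) (BT.Fa_leaf (P := Itm.ok 206) (iqb tpr508_c)))) (BT.Fa_mk (BT.Fa_mk (BT.Fa_mk (BT.Fa_leaf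 (P := Itm.ok 206) (iqf tpr5_c)) (BT.Fa_leaf (P := Itm.ok 206) (iqf tpr682_c))) (BT.Fa_leaf (P := Itm.ok 206) (iqb tpr48_c))) (BT.Fa_mk (BT.Fa_mk (BT.Fa_leaf (P := Itm.ok 206) (iqf tpr589_c)) (BT.Fa_leaf (P := Itm.ok 206) (iqf tpr527_c))) (BT.Fa_leaf (P := Itm.ok 206) (iqf tpr216_c))))) (BT.Fa_mk (BT.Fa_mk (BT.Fa_mk (BT.Fa_mk (BT.Fa_leaf (P := Itm.ok 206) (iqf tpr9_c)) (BT.Fa_leaf (P := Itm.ok 206) (iqf tpr504_c))) (BT.Fa_leaf (P := Itm.ok 206) (iqb tpr103_c))) (BT.Fa_mk (BT.Fa_mk (BT.Fa_leaf (P := Itm.ok 206) (iqb tpr504_c)) (BT.Fa_leaf (P := Itm.ok 206) (iqf tpr22_c))) (BT.Fa_leaf (P := Itm.ok 206) (iqf tpr16_c)))) (BT.Fa_mk (BT.Fa_mk (BT.Fa_mk (BT.Fa_leaf (P := Itm.ok 206) (iqb tpr191_c)) (BT.Fa_leaf (P := Itm.ok 206) (iqf tpr508_c)))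 (BT.Fa_leaf (P := Itm.ok 206) (iqf tpr581_c))) (BT.Fa_mk (BT.Fa_leaf (P := Itm.ok 206) (iqb tpr516_c)) (BT.Fa_leaf (P := Itm.ok 206) (iqb tpr499_c)))))) (BT.Fa_mk (BT.Fa_mk (BT.Fa_mk (BT.Fa_mk (BT.Fa_mk (BT.Fa_leaf (P := Itm.ok 206) (iqf tpr48_c)) (BT.Fa_leaf (P := Itm.ok 206) (iqf tpr606_c))) (BT.Fa_leaf (P := Itm.ok 206) (iqf tpr557_c))) (BT.Fa_mk (BT.Fa_mk (BT.Fa_leaf (P := Itm.ok 206) (iqf tpr619_c)) (BT.Fa_leaf (P := Itm.ok 206) (iqf tpr631_c))) (BT.Fa_leaf (P := Itm.ok 206) (iqf tpr167_c)))) (BT.Fa_mk (BT.Fa_mk (BT.Fa_mk (BT.Fa_leaf (P := Itm.ok 206) (iqb tpr609_c)) (BT.Fa_leaf (P := Itm.ok 206) (iqf tpr569_c))) (BT.Fa_leaf (P := Itm.ok 206) (iqb tpr585_c))) (BT.Fa_mk (BT.Fa_leaf (P := Itm.ok 206) (iqf tpr225_c)) (BT.Fa_leaf (P :=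 Itm.ok 206) (iqb tpr151_c))))) (BT.Fa_mk (BT.Fa_mk (BT.Fa_mk (BT.Fa_mk (BT.Fa_leaf (P := Itm.ok 206) (iqf tpr586_c)) (BT.Fa_leaf (P := Itm.ok 206) (iqf tpr568_c))) (BT.Fa_leaf (P := Itm.ok 206) (iqf tpr1666_c))) (BT.Fa_mk (BT.Fa_mk (BT.Fa_leaf (P := Itm.ok 206) (iqb tpr566_c)) (BT.Fa_leaf (P := Itm.ok 206) (iqb tpr16_c))) (BT.Fa_leaf (P := Itm.ok 206) (iqb tpr74_c)))) (BT.Fa_mk (BT.Fa_mk (BT.Fa_mk (BT.Fa_leaf (P := Itm.ok 206) (iqf tpr429_c)) (BT.Fa_leaf (P := Itm.ok 206) (iqf tpr610_c))) (BT.Fa_leaf (P := Itm.ok 206) (iqb tpr636_c))) (BT.Fa_mk (BT.Fa_leaf (P := Itm.ok 206) (iqf tpr585_c)) (BT.Fa_leaf (P := Itm.ok 206) (iqb tpr1065_c))))))) (BT.Fa_mk (BT.Fa_mk (BT.Fa_mk (BT.Fa_mk (BT.Fa_mk (BT.Fa_mk (BT.Fa_leaf (P := Itm.ok 206) (iqf tpr571_c))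 (BT.Fa_leaf (P := Itm.ok 206) (iqb tpr906_c))) (BT.Fa_leaf (P := Itm.ok 206) (iqf tpr566_c))) (BT.Fa_mk (BT.Fa_mk (BT.Fa_leaf (P := Itm.ok 206) (iqf tpr613_c)) (BT.Fa_leaf (P := Itm.ok 206) (iqb tpr577_c))) (BT.Fa_leaf (P := Itm.ok 206) (iqf tpr559_c)))) (BT.Fa_mk (BT.Fa_mk (BT.Fa_mk (BT.Fa_leaf (P := Itm.ok 206) (iqf tpr743_c)) (BT.Fa_leaf (P := Itm.ok 206) (iqf tpr501_c))) (BT.Fa_leaf (P := Itm.ok 206) (iqf tpr515_c))) (BT.Fa_mk (BT.Fa_mk (BT.Fa_leaf (P := Itm.ok 206) (iqb tpr78_c)) (BT.Fa_leaf (P := Itm.ok 206) (iqf tpr528_c))) (BT.Fa_leaf (P := Itm.ok 206) (iqb tpr721_c))))) (BT.Fa_mk (BT.Fa_mk (BT.Fa_mk (BT.Fa_mk (BT.Fa_leaf (P := Itm.ok 206) (iqb tpr537_c)) (BT.Fa_leaf (P := Itm.ok 206) (iqb tpr509_c))) (BT.Fa_leaf (P := Itm.ok 206)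 (iqb tpr529_c))) (BT.Fa_mk (BT.Fa_mk (BT.Fa_leaf (P := Itm.ok 206) (iqf tpr91_c)) (BT.Fa_leaf (P := Itm.ok 206) (iqf tpr789_c))) (BT.Fa_leaf (P := Itm.ok 206) (iqb tpr702_c)))) (BT.Fa_mk (BT.Fa_mk (BT.Fa_mk (BT.Fa_leaf (P := Itm.ok 206) (iqf tpr611_c)) (BT.Fa_leaf (P := Itm.ok 206) (iqf tpr25_c))) (BT.Fa_leaf (P := Itm.ok 206) (iqb tpr1192_c))) (BT.Fa_mk (BT.Fa_leaf (P := Itm.ok 206) (iqb tpr549_c)) (BT.Fa_leaf (P := Itm.ok 206) (iqb tpr24_c)))))) (BT.Fa_mk (BT.Fa_mk (BT.Fa_mk (BT.Fa_mk (BT.Fa_mk (BT.Fa_leaf (P := Itm.ok 206) (iqf tpr579_c)) (BT.Fa_leaf (P := Itm.ok 206) (iqf tpr265_c))) (BT.Fa_leaf (P := Itm.ok 206) (iqb tpr661_c))) (BT.Fa_mk (BT.Fa_mk (BT.Fa_leaf (P := Itm.ok 206) (iqb tpr649_c)) (BT.Fa_leaf (P := Itm.ok 206) (iqb tpr559_c)))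 (BT.Fa_leaf (P := Itm.ok 206) (iqf tpr203_c)))) (BT.Fa_mk (BT.Fa_mk (BT.Fa_mk (BT.Fa_leaf (P := Itm.ok 206) (iqf tpr712_c)) (BT.Fa_leaf (P := Itm.ok 206) (iqf tpr968_c))) (BT.Fa_leaf (P := Itm.ok 206) (iqf tpr653_c))) (BT.Fa_mk (BT.Fa_leaf (P := Itm.ok 206) (iqb tpr66_c)) (BT.Fa_leaf (P := Itm.ok 206) (iqf tpr1227_c))))) (BT.Fa_mk (BT.Fa_mk (BT.Fa_mk (BT.Fa_mk (BT.Fa_leaf (P := Itm.ok 206) (iqf tpr124_c)) (BT.Fa_leaf (P := Itm.ok 206) (iqb tpr539_c))) (BT.Fa_leaf (P := Itm.ok 206) (iqf tpr637_c))) (BT.Fa_mk (BT.Fa_mk (BT.Fa_leaf (P := Itm.ok 206) (iqf tpr1633_c)) (BT.Fa_leaf (P := Itm.ok 206) (iqb tpr612_c))) (BT.Fa_leaf (P := Itm.ok 206) (iqf tpr547_c)))) (BT.Fa_mk (BT.Fa_mk (BT.Fa_mk (BT.Fa_leaf (P := Itm.ok 206) (iqb tpr203_c)) (BT.Fa_leaf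 (P := Itm.ok 206) (iqb tpr18_c))) (BT.Fa_leaf (P := Itm.ok 206) (iqb tpr654_c))) (BT.Fa_mk (BT.Fa_leaf (P := Itm.ok 206) (iqf tpr1639_c)) (BT.Fa_leaf (P := Itm.ok 206) (iqf tpr736_c)))))))) (BT.Fa_mk (BT.Fa_mk (BT.Fa_mk (BT.Fa_mk (BT.Fa_mk (BT.Fa_mk (BT.Fa_mk (BT.Fa_leaf (P := Itm.ok 206) (iqb tpr532_c)) (BT.Fa_leaf (P := Itm.ok 206) (iqf tpr575_c))) (BT.Fa_leaf (P := Itm.ok 206) (iqb tpr466_c))) (BT.Fa_mk (BT.Fa_mk (BT.Fa_leaf (P := Itm.ok 206) (iqf tpr621_c)) (BT.Fa_leaf (P := Itm.ok 206) (iqf tpr648_c))) (BT.Fa_leaf (P := Itm.ok 206) (iqf tpr1122_c)))) (BT.Fa_mk (BT.Fa_mk (BT.Fa_mk (BT.Fa_leaf (P := Itm.ok 206) (iqf tpr657_c)) (BT.Fa_leaf (P := Itm.ok 206) (iqf tpr630_c))) (BT.Fa_leaf (P := Itm.ok 206) (iqf tpr122_c))) (BT.Fa_mk (BT.Fa_mk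 (BT.Fa_leaf (P := Itm.ok 206) (iqf tpr123_c)) (BT.Fa_leaf (P := Itm.ok 206) (iqf tpr548_c))) (BT.Fa_leaf (P := Itm.ok 206) (iqb tpr63_c))))) (BT.Fa_mk (BT.Fa_mk (BT.Fa_mk (BT.Fa_mk (BT.Fa_leaf (P := Itm.ok 206) (iqb tpr633_c)) (BT.Fa_leaf (P := Itm.ok 206) (iqf tpr617_c))) (BT.Fa_leaf (P := Itm.ok 206) (iqf tpr530_c))) (BT.Fa_mk (BT.Fa_mk (BT.Fa_leaf (P := Itm.ok 206) (iqb tpr160_c)) (BT.Fa_leaf (P := Itm.ok 206) (iqb tpr621_c))) (BT.Fa_leaf (P := Itm.ok 206) (iqf tpr1630_c)))) (BT.Fa_mk (BT.Fa_mk (BT.Fa_mk (BT.Fa_leaf (P := Itm.ok 206) (iqb tpr695_c)) (BT.Fa_leaf (P := Itm.ok 206) (iqf tpr1651_c))) (BT.Fa_leaf (P := Itm.ok 206) (iqf tpr406_c))) (BT.Fa_mk (BT.Fa_leaf (P := Itm.ok 206) (iqf tpr1914_c)) (BT.Fa_leaf (P := Itm.ok 206) (iqb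 tpr565_c)))))) (BT.Fa_mk (BT.Fa_mk (BT.Fa_mk (BT.Fa_mk (BT.Fa_mk (BT.Fa_leaf (P := Itm.ok 206) (iqb tpr655_c)) (BT.Fa_leaf (P := Itm.ok 206) (iqf tpr534_c))) (BT.Fa_leaf (P := Itm.ok 206) (iqf tpr1635_c))) (BT.Fa_mk (BT.Fa_mk (BT.Fa_leaf (P := Itm.ok 206) (iqf tpr200_c)) (BT.Fa_leaf (P := Itm.ok 206) (iqb tpr268_c))) (BT.Fa_leaf (P := Itm.ok 206) (iqb tpr634_c)))) (BT.Fa_mk (BT.Fa_mk (BT.Fa_mk (BT.Fa_leaf (P := Itm.ok 206) (iqf tpr1634_c)) (BT.Fa_leaf (P := Itm.ok 206) (iqb tpr1668_c))) (BT.Fa_leaf (P := Itm.ok 206) (iqb tpr57_c))) (BT.Fa_mk (BT.Fa_leaf (P := Itm.ok 206) (iqb tpr259_c)) (BT.Fa_leaf (P := Itm.ok 206) (iqf tpr107_c))))) (BT.Fa_mk (BT.Fa_mk (BT.Fa_mk (BT.Fa_mk (BT.Fa_leaf (P := Itm.ok 206) (iqb tpr648_c)) (BT.Fa_leaf (P :=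 Itm.ok 206) (iqf tpr54_c))) (BT.Fa_leaf (P := Itm.ok 206) (iqb tpr9_c))) (BT.Fa_mk (BT.Fa_mk (BT.Fa_leaf (P := Itm.ok 206) (iqb tpr10_c)) (BT.Fa_leaf (P := Itm.ok 206) (iqf tpr235_c))) (BT.Fa_leaf (P := Itm.ok 206) (iqb tpr1123_c)))) (BT.Fa_mk (BT.Fa_mk (BT.Fa_mk (BT.Fa_leaf (P := Itm.ok 206) (iqb tpr26_c)) (BT.Fa_leaf (P := Itm.ok 206) (iqf tpr86_c))) (BT.Fa_leaf (P := Itm.ok 206) (iqb tpr642_c))) (BT.Fa_mk (BT.Fa_leaf (P := Itm.ok 206) (iqf tpr78_c)) (BT.Fa_leaf (P := Itm.ok 206) (iqf tpr81_c))))))) (BT.Fa_mk (BT.Fa_mk (BT.Fa_mk (BT.Fa_mk (BT.Fa_mk (BT.Fa_mk (BT.Fa_leaf (P := Itm.ok 206) (iqb tpr457_c)) (BT.Fa_leaf (P := Itm.ok 206) (iqb tpr315_c))) (BT.Fa_leaf (P := Itm.ok 206) (iqf tpr230_c))) (BT.Fa_mk (BT.Fa_mk (BT.Fa_leaf (P :=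 Itm.ok 206) (iqf tpr87_c)) (BT.Fa_leaf (P := Itm.ok 206) (iqf tpr539_c))) (BT.Fa_leaf (P := Itm.ok 206) (iqb tpr265_c)))) (BT.Fa_mk (BT.Fa_mk (BT.Fa_mk (BT.Fa_leaf (P := Itm.ok 206) (iqf tpr51_c)) (BT.Fa_leaf (P := Itm.ok 206) (iqf tpr13_c))) (BT.Fa_leaf (P := Itm.ok 206) (iqb tpr234_c))) (BT.Fa_mk (BT.Fa_mk (BT.Fa_leaf (P := Itm.ok 206) (iqf tpr119_c)) (BT.Fa_leaf (P := Itm.ok 206) (iqf tpr118_c))) (BT.Fa_leaf (P := Itm.ok 206) (iqf tpr103_c))))) (BT.Fa_mk (BT.Fa_mk (BT.Fa_mk (BT.Fa_mk (BT.Fa_leaf (P := Itm.ok 206) (iqf tpr419_c)) (BT.Fa_leaf (P := Itm.ok 206) (iqf tpr191_c))) (BT.Fa_leaf (P := Itm.ok 206) (iqb tpr505_c))) (BT.Fa_mk (BT.Fa_mk (BT.Fa_leaf (P := Itm.ok 206) (iqb tpr511_c)) (BT.Fa_leaf (P := Itm.ok 206) (iqf tpr564_c)))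 (BT.Fa_leaf (P := Itm.ok 206) (iqb tpr167_c)))) (BT.Fa_mk (BT.Fa_mk (BT.Fa_mk (BT.Fa_leaf (P := Itm.ok 206) (iqb tpr607_c)) (BT.Fa_leaf (P := Itm.ok 206) (iqf tpr626_c))) (BT.Fa_leaf (P := Itm.ok 206) (iqf tpr679_c))) (BT.Fa_mk (BT.Fa_leaf (P := Itm.ok 206) (iqf tpr511_c)) (BT.Fa_leaf (P := Itm.ok 206) (iqb tpr8_c)))))) (BT.Fa_mk (BT.Fa_mk (BT.Fa_mk (BT.Fa_mk (BT.Fa_mk (BT.Fa_leaf (P := Itm.ok 206) (iqb tpr572_c)) (BT.Fa_leaf (P := Itm.ok 206) (iqf tpr82_c))) (BT.Fa_leaf (P := Itm.ok 206) (iqf tpr513_c))) (BT.Fa_mk (BT.Fa_mk (BT.Fa_leaf (P := Itm.ok 206) (iqf tpr545_c)) (BT.Fa_leaf (P := Itm.ok 206) (iqb tpr616_c))) (BT.Fa_leaf (P := Itm.ok 206) (iqf tpr507_c)))) (BT.Fa_mk (BT.Fa_mk (BT.Fa_mk (BT.Fa_leaf (P := Itm.ok 206) (iqb tpr510_c))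 (BT.Fa_leaf (P := Itm.ok 206) (iqb tpr576_c))) (BT.Fa_leaf (P := Itm.ok 206) (iqb tpr294_c))) (BT.Fa_mk (BT.Fa_leaf (P := Itm.ok 206) (iqb tpr513_c)) (BT.Fa_leaf (P := Itm.ok 206) (iqb tpr658_c))))) (BT.Fa_mk (BT.Fa_mk (BT.Fa_mk (BT.Fa_mk (BT.Fa_leaf (P := Itm.ok 206) (iqb tpr1002_c)) (BT.Fa_leaf (P := Itm.ok 206) (iqb tpr1811_c))) (BT.Fa_leaf (P := Itm.ok 206) (iqb tpr1028_c))) (BT.Fa_mk (BT.Fa_mk (BT.Fa_leaf (P := Itm.ok 206) (iqb tpr960_c)) (BT.Fa_leaf (P := Itm.ok 206) (iqf tpr683_c))) (BT.Fa_leaf (P := Itm.ok 206) (iqf tpr623_c)))) (BT.Fa_mk (BT.Fa_mk (BT.Fa_mk (BT.Fa_leaf (P := Itm.ok 206) (iqf tpr614_c)) (BT.Fa_leaf (P := Itm.ok 206) (iqb tpr1844_c))) (BT.Fa_leaf (P := Itm.ok 206) (iqb tpr615_c))) (BT.Fa_mk (BT.Fa_leaf (P := Itm.ok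 206) (iqf tpr624_c)) (BT.Fa_leaf (P := Itm.ok 206) (iqb tpr1221_c))))))))) (BT.Fa_mk (BT.Fa_mk (BT.Fa_mk (BT.Fa_mk (BT.Fa_mk (BT.Fa_mk (BT.Fa_mk (BT.Fa_mk (BT.Fa_leaf (P := Itm.ok 206) (iqf tpr596_c)) (BT.Fa_leaf (P := Itm.ok 206) (iqf tpr1201_c))) (BT.Fa_leaf (P := Itm.ok 206) (iqf tpr519_c))) (BT.Fa_mk (BT.Fa_mk (BT.Fa_leaf (P := Itm.ok 206) (iqb tpr1547_c)) (BT.Fa_leaf (P := Itm.ok 206) (iqb tpr588_c))) (BT.Fa_leaf (P := Itm.ok 206) (iqf tpr502_c)))) (BT.Fa_mk (BT.Fa_mk (BT.Fa_mk (BT.Fa_leaf (P := Itm.ok 206) (iqb tpr503_c)) (BT.Fa_leaf (P := Itm.ok 206) (iqb tpr804_c))) (BT.Fa_leaf (P := Itm.ok 206) (iqb tpr198_c))) (BT.Fa_mk (BT.Fa_mk (BT.Fa_leaf (P := Itm.ok 206) (iqb tpr603_c)) (BT.Fa_leaf (P := Itm.ok 206) (iqb tpr15_c))) (BT.Fa_leaf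 (P := Itm.ok 206) (iqb tpr82_c))))) (BT.Fa_mk (BT.Fa_mk (BT.Fa_mk (BT.Fa_mk (BT.Fa_leaf (P := Itm.ok 206) (iqf tpr591_c)) (BT.Fa_leaf (P := Itm.ok 206) (iqb tpr599_c))) (BT.Fa_leaf (P := Itm.ok 206) (iqb tpr1800_c))) (BT.Fa_mk (BT.Fa_mk (BT.Fa_leaf (P := Itm.ok 206) (iqb tpr632_c)) (BT.Fa_leaf (P := Itm.ok 206) (iqb tpr75_c))) (BT.Fa_leaf (P := Itm.ok 206) (iqb tpr344_c)))) (BT.Fa_mk (BT.Fa_mk (BT.Fa_mk (BT.Fa_leaf (P := Itm.ok 206) (iqf tpr239_c)) (BT.Fa_leaf (P := Itm.ok 206) (iqf tpr236_c))) (BT.Fa_leaf (P := Itm.ok 206) (iqf tpr644_c))) (BT.Fa_mk (BT.Fa_leaf (P := Itm.ok 206) (iqf tpr516_c)) (BT.Fa_leaf (P := Itm.ok 206) (iqb tpr545_c)))))) (BT.Fa_mk (BT.Fa_mk (BT.Fa_mk (BT.Fa_mk (BT.Fa_mk (BT.Fa_leaf (P := Itm.ok 206) (iqf tpr537_c))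 (BT.Fa_leaf (P := Itm.ok 206) (iqf tpr607_c))) (BT.Fa_leaf (P := Itm.ok 206) (iqb tpr546_c))) (BT.Fa_mk (BT.Fa_mk (BT.Fa_leaf (P := Itm.ok 206) (iqf tpr546_c)) (BT.Fa_leaf (P := Itm.ok 206) (iqf tpr536_c))) (BT.Fa_leaf (P := Itm.ok 206) (iqf tpr499_c)))) (BT.Fa_mk (BT.Fa_mk (BT.Fa_mk (BT.Fa_leaf (P := Itm.ok 206) (iqb tpr123_c)) (BT.Fa_leaf (P := Itm.ok 206) (iqb tpr81_c))) (BT.Fa_leaf (P := Itm.ok 206) (iqb tpr122_c))) (BT.Fa_mk (BT.Fa_leaf (P := Itm.ok 206) (iqb tpr118_c)) (BT.Fa_leaf (P := Itm.ok 206) (iqb tpr87_c))))) (BT.Fa_mk (BT.Fa_mk (BT.Fa_mk (BT.Fa_mk (BT.Fa_leaf (P := Itm.ok 206) (iqf tpr26_c)) (BT.Fa_leaf (P := Itm.ok 206) (iqf tpr532_c))) (BT.Fa_leaf (P := Itm.ok 206) (iqf tpr549_c))) (BT.Fa_mk (BT.Fa_mk (BT.Fa_leaf (P :=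 Itm.ok 206) (iqf tpr1647_c)) (BT.Fa_leaf (P := Itm.ok 206) (iqf tpr518_c))) (BT.Fa_leaf (P := Itm.ok 206) (iqf tpr74_c)))) (BT.Fa_mk (BT.Fa_mk (BT.Fa_mk (BT.Fa_leaf (P := Itm.ok 206) (iqb tpr406_c)) (BT.Fa_leaf (P := Itm.ok 206) (iqf tpr344_c))) (BT.Fa_leaf (P := Itm.ok 206) (iqf tpr339_c))) (BT.Fa_mk (BT.Fa_leaf (P := Itm.ok 206) (iqf tpr720_c)) (BT.Fa_leaf (P := Itm.ok 206) (iqf tpr393_c))))))) (BT.Fa_mk (BT.Fa_mk (BT.Fa_mk (BT.Fa_mk (BT.Fa_mk (BT.Fa_mk (BT.Fa_leaf (P := Itm.ok 206) (iqf tpr702_c)) (BT.Fa_leaf (P := Itm.ok 206) (iqf tpr27_c))) (BT.Fa_leaf (P := Itm.ok 206) (iqf tpr1714_c))) (BT.Fa_mk (BT.Fa_mk (BT.Fa_leaf (P := Itm.ok 206) (iqf tpr198_c)) (BT.Fa_leaf (P := Itm.ok 206) (iqb tpr743_c))) (BT.Fa_leaf (P := Itm.ok 206) (iqf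 tpr75_c)))) (BT.Fa_mk (BT.Fa_mk (BT.Fa_mk (BT.Fa_leaf (P := Itm.ok 206) (iqf tpr495_c)) (BT.Fa_leaf (P := Itm.ok 206) (iqb tpr17_c))) (BT.Fa_leaf (P := Itm.ok 206) (iqf tpr982_c))) (BT.Fa_mk (BT.Fa_mk (BT.Fa_leaf (P := Itm.ok 206) (iqb tpr293_c)) (BT.Fa_leaf (P := Itm.ok 206) (iqf tpr590_c))) (BT.Fa_leaf (P := Itm.ok 206) (iqb tpr512_c))))) (BT.Fa_mk (BT.Fa_mk (BT.Fa_mk (BT.Fa_mk (BT.Fa_leaf (P := Itm.ok 206) (iqf tpr503_c)) (BT.Fa_leaf (P := Itm.ok 206) (iqf tpr506_c))) (BT.Fa_leaf (P := Itm.ok 206) (iqb tpr541_c))) (BT.Fa_mk (BT.Fa_mk (BT.Fa_leaf (P := Itm.ok 206) (iqb tpr1669_c)) (BT.Fa_leaf (P := Itm.ok 206) (iqf tpr1255_c))) (BT.Fa_leaf (P := Itm.ok 206) (iqb tpr968_c)))) (BT.Fa_mk (BT.Fa_mk (BT.Fa_mk (BT.Fa_leaf (P := Itm.ok 206)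 (iqb tpr520_c)) (BT.Fa_leaf (P := Itm.ok 206) (iqf tpr1681_c))) (BT.Fa_leaf (P := Itm.ok 206) (iqb tpr419_c))) (BT.Fa_mk (BT.Fa_leaf (P := Itm.ok 206) (iqb tpr982_c)) (BT.Fa_leaf (P := Itm.ok 206) (iqf tpr46_c)))))) (BT.Fa_mk (BT.Fa_mk (BT.Fa_mk (BT.Fa_mk (BT.Fa_mk (BT.Fa_leaf (P := Itm.ok 206) (iqb tpr1255_c)) (BT.Fa_leaf (P := Itm.ok 206) (iqf tpr588_c))) (BT.Fa_leaf (P := Itm.ok 206) (iqb tpr550_c))) (BT.Fa_mk (BT.Fa_mk (BT.Fa_leaf (P := Itm.ok 206) (iqb tpr1193_c)) (BT.Fa_leaf (P := Itm.ok 206) (iqf tpr23_c))) (BT.Fa_leaf (P := Itm.ok 206) (iqf tpr620_c)))) (BT.Fa_mk (BT.Fa_mk (BT.Fa_mk (BT.Fa_leaf (P := Itm.ok 206) (iqf tpr1689_c)) (BT.Fa_leaf (P := Itm.ok 206) (iqf tpr582_c))) (BT.Fa_leaf (P := Itm.ok 206) (iqb tpr568_c))) (BT.Fa_mk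 (BT.Fa_leaf (P := Itm.ok 206) (iqf tpr556_c)) (BT.Fa_leaf (P := Itm.ok 206) (iqb tpr1644_c))))) (BT.Fa_mk (BT.Fa_mk (BT.Fa_mk (BT.Fa_mk (BT.Fa_leaf (P := Itm.ok 206) (iqf tpr542_c)) (BT.Fa_leaf (P := Itm.ok 206) (iqf tpr510_c))) (BT.Fa_leaf (P := Itm.ok 206) (iqf tpr730_c))) (BT.Fa_mk (BT.Fa_mk (BT.Fa_leaf (P := Itm.ok 206) (iqb tpr567_c)) (BT.Fa_leaf (P := Itm.ok 206) (iqf tpr705_c))) (BT.Fa_leaf (P := Itm.ok 206) (iqb tpr594_c)))) (BT.Fa_mk (BT.Fa_mk (BT.Fa_mk (BT.Fa_leaf (P := Itm.ok 206) (iqb tpr678_c)) (BT.Fa_leaf (P := Itm.ok 206) (iqf tpr466_c))) (BT.Fa_leaf (P := Itm.ok 206) (iqb tpr502_c))) (BT.Fa_mk (BT.Fa_leaf (P := Itm.ok 206) (iqf tpr697_c)) (BT.Fa_leaf (P := Itm.ok 206) (iqb tpr514_c)))))))) (BT.Fa_mk (BT.Fa_mk (BT.Fa_mk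 (BT.Fa_mk (BT.Fa_mk (BT.Fa_mk (BT.Fa_mk (BT.Fa_leaf (P := Itm.ok 206) (iqb tpr23_c)) (BT.Fa_leaf (P := Itm.ok 206) (iqf tpr691_c))) (BT.Fa_leaf (P := Itm.ok 206) (iqb tpr660_c))) (BT.Fa_mk (BT.Fa_mk (BT.Fa_leaf (P := Itm.ok 206) (iqf tpr685_c)) (BT.Fa_leaf (P := Itm.ok 206) (iqf tpr576_c))) (BT.Fa_leaf (P := Itm.ok 206) (iqb tpr591_c)))) (BT.Fa_mk (BT.Fa_mk (BT.Fa_mk (BT.Fa_leaf (P := Itm.ok 206) (iqb tpr562_c)) (BT.Fa_leaf (P := Itm.ok 206) (iqf tpr1636_c))) (BT.Fa_leaf (P := Itm.ok 206) (iqb tpr622_c))) (BT.Fa_mk (BT.Fa_mk (BT.Fa_leaf (P := Itm.ok 206) (iqb tpr672_c)) (BT.Fa_leaf (P := Itm.ok 206) (iqf tpr602_c))) (BT.Fa_leaf (P := Itm.ok 206) (iqb tpr1637_c))))) (BT.Fa_mk (BT.Fa_mk (BT.Fa_mk (BT.Fa_mk (BT.Fa_leaf (P := Itm.ok 206) (iqb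 tpr543_c)) (BT.Fa_leaf (P := Itm.ok 206) (iqb tpr683_c))) (BT.Fa_leaf (P := Itm.ok 206) (iqf tpr1642_c))) (BT.Fa_mk (BT.Fa_mk (BT.Fa_leaf (P := Itm.ok 206) (iqb tpr1641_c)) (BT.Fa_leaf (P := Itm.ok 206) (iqf tpr1653_c))) (BT.Fa_leaf (P := Itm.ok 206) (iqb tpr1321_c)))) (BT.Fa_mk (BT.Fa_mk (BT.Fa_mk (BT.Fa_leaf (P := Itm.ok 206) (iqb tpr1681_c)) (BT.Fa_leaf (P := Itm.ok 206) (iqb tpr2939_c))) (BT.Fa_leaf (P := Itm.ok 206) (iqf tpr595_c))) (BT.Fa_mk (BT.Fa_leaf (P := Itm.ok 206) (iqf tpr524_c)) (BT.Fa_leaf (P := Itm.ok 206) (iqf tpr294_c)))))) (BT.Fa_mk (BT.Fa_mk (BT.Fa_mk (BT.Fa_mk (BT.Fa_mk (BT.Fa_leaf (P := Itm.ok 206) (iqb tpr519_c)) (BT.Fa_leaf (P := Itm.ok 206) (iqb tpr583_c))) (BT.Fa_leaf (P := Itm.ok 206) (iqb tpr581_c))) (BT.Fa_mk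 (BT.Fa_mk (BT.Fa_leaf (P := Itm.ok 206) (iqb tpr515_c)) (BT.Fa_leaf (P := Itm.ok 206) (iqb tpr590_c))) (BT.Fa_leaf (P := Itm.ok 206) (iqf tpr612_c)))) (BT.Fa_mk (BT.Fa_mk (BT.Fa_mk (BT.Fa_leaf (P := Itm.ok 206) (iqb tpr584_c)) (BT.Fa_leaf (P := Itm.ok 206) (iqb tpr592_c))) (BT.Fa_leaf (P := Itm.ok 206) (iqf tpr593_c))) (BT.Fa_mk (BT.Fa_leaf (P := Itm.ok 206) (iqf tpr520_c)) (BT.Fa_leaf (P := Itm.ok 206) (iqf tpr1193_c))))) (BT.Fa_mk (BT.Fa_mk (BT.Fa_mk (BT.Fa_mk (BT.Fa_leaf (P := Itm.ok 206) (iqb tpr1646_c)) (BT.Fa_leaf (P := Itm.ok 206) (iqb tpr524_c))) (BT.Fa_leaf (P := Itm.ok 206) (iqb tpr1006_c))) (BT.Fa_mk (BT.Fa_mk (BT.Fa_leaf (P := Itm.ok 206) (iqf tpr627_c)) (BT.Fa_leaf (P := Itm.ok 206) (iqf tpr247_c))) (BT.Fa_leaf (P := Itm.ok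 206) (iqf tpr1199_c)))) (BT.Fa_mk (BT.Fa_mk (BT.Fa_mk (BT.Fa_leaf (P := Itm.ok 206) (iqf tpr672_c)) (BT.Fa_leaf (P := Itm.ok 206) (iqf tpr676_c))) (BT.Fa_leaf (P := Itm.ok 206) (iqb tpr1650_c))) (BT.Fa_mk (BT.Fa_leaf (P := Itm.ok 206) (iqf tpr553_c)) (BT.Fa_leaf (P := Itm.ok 206) (iqf tpr565_c))))))) (BT.Fa_mk (BT.Fa_mk (BT.Fa_mk (BT.Fa_mk (BT.Fa_mk (BT.Fa_mk (BT.Fa_leaf (P := Itm.ok 206) (iqf tpr343_c)) (BT.Fa_leaf (P := Itm.ok 206) (iqb tpr935_c))) (BT.Fa_leaf (P := Itm.ok 206) (iqb tpr1665_c))) (BT.Fa_mk (BT.Fa_mk (BT.Fa_leaf (P := Itm.ok 206) (iqf tpr1624_c)) (BT.Fa_leaf (P := Itm.ok 206) (iqb tpr638_c))) (BT.Fa_leaf (P := Itm.ok 206) (iqb tpr1058_c)))) (BT.Fa_mk (BT.Fa_mk (BT.Fa_mk (BT.Fa_leaf (P := Itm.ok 206) (iqb tpr628_c)) (BT.Fa_leaf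 (P := Itm.ok 206) (iqf tpr989_c))) (BT.Fa_leaf (P := Itm.ok 206) (iqf tpr756_c))) (BT.Fa_mk (BT.Fa_leaf (P := Itm.ok 206) (iqf tpr1664_c)) (BT.Fa_leaf (P := Itm.ok 206) (iqf tpr597_c))))) (BT.Fa_mk (BT.Fa_mk (BT.Fa_mk (BT.Fa_mk (BT.Fa_leaf (P := Itm.ok 206) (iqf tpr525_c)) (BT.Fa_leaf (P := Itm.ok 206) (iqb tpr33_c))) (BT.Fa_leaf (P := Itm.ok 206) (iqf tpr1655_c))) (BT.Fa_mk (BT.Fa_mk (BT.Fa_leaf (P := Itm.ok 206) (iqb tpr650_c)) (BT.Fa_leaf (P := Itm.ok 206) (iqb tpr474_c))) (BT.Fa_leaf (P := Itm.ok 206) (iqf tpr772_c)))) (BT.Fa_mk (BT.Fa_mk (BT.Fa_mk (BT.Fa_leaf (P := Itm.ok 206) (iqf tpr1622_c)) (BT.Fa_leaf (P := Itm.ok 206) (iqb tpr1652_c))) (BT.Fa_leaf (P := Itm.ok 206) (iqb tpr1661_c))) (BT.Fa_mk (BT.Fa_leaf (P := Itm.ok 206) (iqb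 tpr1659_c)) (BT.Fa_leaf (P := Itm.ok 206) (iqf tpr1663_c)))))) (BT.Fa_mk (BT.Fa_mk (BT.Fa_mk (BT.Fa_mk (BT.Fa_mk (BT.Fa_leaf (P := Itm.ok 206) (iqf tpr1717_c)) (BT.Fa_leaf (P := Itm.ok 206) (iqb tpr602_c))) (BT.Fa_leaf (P := Itm.ok 206) (iqf tpr1637_c))) (BT.Fa_mk (BT.Fa_mk (BT.Fa_leaf (P := Itm.ok 206) (iqb tpr552_c)) (BT.Fa_leaf (P := Itm.ok 206) (iqb tpr62_c))) (BT.Fa_leaf (P := Itm.ok 206) (iqb tpr1670_c)))) (BT.Fa_mk (BT.Fa_mk (BT.Fa_mk (BT.Fa_leaf (P := Itm.ok 206) (iqb tpr1636_c)) (BT.Fa_leaf (P := Itm.ok 206) (iqf tpr906_c))) (BT.Fa_leaf (P := Itm.ok 206) (iqf tpr599_c))) (BT.Fa_mk (BT.Fa_leaf (P := Itm.ok 206) (iqf tpr295_c)) (BT.Fa_leaf (P := Itm.ok 206) (iqb tpr1649_c))))) (BT.Fa_mk (BT.Fa_mk (BT.Fa_mk (BT.Fa_mk (BT.Fa_leaf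 (P := Itm.ok 206) (iqf tpr32_c)) (BT.Fa_leaf (P := Itm.ok 206) (iqf tpr522_c))) (BT.Fa_leaf (P := Itm.ok 206) (iqb tpr570_c))) (BT.Fa_mk (BT.Fa_mk (BT.Fa_leaf (P := Itm.ok 206) (iqf tpr1675_c)) (BT.Fa_leaf (P := Itm.ok 206) (iqf tpr733_c))) (BT.Fa_leaf (P := Itm.ok 206) (iqb tpr1671_c)))) (BT.Fa_mk (BT.Fa_mk (BT.Fa_mk (BT.Fa_leaf (P := Itm.ok 206) (iqf tpr293_c)) (BT.Fa_leaf (P := Itm.ok 206) (iqb tpr640_c))) (BT.Fa_leaf (P := Itm.ok 206) (iqf tpr690_c))) (BT.Fa_mk (BT.Fa_leaf (P := Itm.ok 206) (iqf tpr1196_c)) (BT.Fa_leaf (P := Itm.ok 206) (iqb tpr1924_c))))))))))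

/-- all words of the class have labels -/
theorem pokNFzE2A3H2AzAyB2H3A2EzF : POK 206 xNFzE2A3H2AzAyB2H3A2EzF :=
  y_pok (C0 := ceNFzE2A3H2AzAyB2H3A2EzF) (C1 := coNFzE2A3H2AzAyB2H3A2EzF) topNFzE2A3H2AzAyB2H3A2EzF nbNFzE2A3H2AzAyB2H3A2EzF (BT.Fa_of_all iiNFzE2A3H2AzAyB2H3A2EzF_c)
    (BT.Fa_mk (BT.Fa_mk (BT.Fa_mk (cyE_spec zeNFzE2A3H2AzAyB2H3A2EzF_0) (cyE_spec zeNFzE2A3H2AzAyB2H3A2EzF_1)) (BT.Fa_mk (cyE_spec zeNFzE2A3H2AzAyB2H3A2EzF_2) (cyE_spec zeNFzE2A3H2AzAyB2H3A2EzF_3))) (BT.Fa_mk (BT.Fa_mk (BT.Fa_mk (BT.Fa_mk (cyE_spec zeNFzE2A3H2AzAyB2H3A2EzF_4) (cyE_spec zeNFzE2A3H2AzAyB2H3A2EzF_5)) (cyE_spec zeNFzE2A3H2AzAyB2H3A2EzF_6)) (BT.Fa_mk (BT.Fa_mk (cyE_spec zeNFzE2A3H2AzAyB2H3A2EzF_7) (cyE_spec zeNFzE2A3H2AzAyB2H3A2EzF_8)) (cyE_spec zeNFzE2A3H2AzAyB2H3A2EzF_9)))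 (BT.Fa_mk (BT.Fa_mk (BT.Fa_mk (cyE_spec zeNFzE2A3H2AzAyB2H3A2EzF_10) (cyE_spec zeNFzE2A3H2AzAyB2H3A2EzF_11)) (cyE_spec zeNFzE2A3H2AzAyB2H3A2EzF_12)) (cyE_spec zeNFzE2A3H2AzAyB2H3A2EzF_13))))
    (BT.Fa_mk (BT.Fa_mk (BT.Fa_mk (cyO_spec zoNFzE2A3H2AzAyB2H3A2EzF_0) (cyO_spec zoNFzE2A3H2AzAyB2H3A2EzF_1)) (BT.Fa_mk (cyO_spec zoNFzE2A3H2AzAyB2H3A2EzF_2) (BT.Fa_mk (cyO_spec zoNFzE2A3H2AzAyB2H3A2EzF_3) (BT.Fa_mk (cyO_spec zoNFzE2A3H2AzAyB2H3A2EzF_4) (cyO_spec zoNFzE2A3H2AzAyB2H3A2EzF_5))))) (BT.Fa_mk (BT.Fa_mk (BT.Fa_mk (BT.Fa_mk (BT.Fa_mk (cyO_spec zoNFzE2A3H2AzAyB2H3A2EzF_6) (cyO_spec zoNFzE2A3H2AzAyB2H3A2EzF_7)) (BT.Fa_mk (cyO_spec zoNFzE2A3H2AzAyB2H3A2EzF_8) (cyO_spec zoNFzE2A3H2AzAyB2H3A2EzF_9))) (BT.Fa_mk (cyO_spec zoNFzE2A3H2AzAyB2H3A2EzF_10)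 (cyO_spec zoNFzE2A3H2AzAyB2H3A2EzF_11))) (BT.Fa_mk (cyO_spec zoNFzE2A3H2AzAyB2H3A2EzF_12) (cyO_spec zoNFzE2A3H2AzAyB2H3A2EzF_13))) (BT.Fa_mk (BT.Fa_mk (cyO_spec zoNFzE2A3H2AzAyB2H3A2EzF_14) (cyO_spec zoNFzE2A3H2AzAyB2H3A2EzF_15)) (BT.Fa_mk (cyO_spec zoNFzE2A3H2AzAyB2H3A2EzF_16) (cyO_spec zoNFzE2A3H2AzAyB2H3A2EzF_17)))))
    iiNFzE2A3H2AzAyB2H3A2EzF_k

theorem iiNFzE2A3H2AzAyB2H3AyB2EzF_k : iiNFzE2A3H2AzAyB2H3AyB2EzF.Fa (Itm.ok 206) := (BT.Fa_mk (BT.Fa_mk (BT.Fa_mk (BT.Fa_mk (BT.Fa_mk (BT.Fa_mk (BT.Fa_mk (BT.Fa_mk (BT.Fa_mk (BT.Fa_leaf (P := Itm.ok 206) (iqf tpr9_c)) (BT.Fa_leaf (P := Itm.ok 206) (iqb tpr604_c))) (BT.Fa_leaf (P := Itm.ok 206) (iqf tpr568_c))) (BT.Fa_mk (BT.Fa_mk (BT.Fa_leaf (P := Itm.ok 206) (iqf tpr82_c)) (BT.Fa_leaf (P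 := Itm.ok 206) (iqf tpr605_c))) (BT.Fa_leaf (P := Itm.ok 206) (iqf tpr167_c)))) (BT.Fa_mk (BT.Fa_mk (BT.Fa_mk (BT.Fa_leaf (P := Itm.ok 206) (iqf tpr527_c)) (BT.Fa_leaf (P := Itm.ok 206) (iqf tpr555_c))) (BT.Fa_leaf (P := Itm.ok 206) (iqb tpr82_c))) (BT.Fa_mk (BT.Fa_leaf (P := Itm.ok 206) (iqf tpr500_c)) (BT.Fa_leaf (P := Itm.ok 206) (iqb tpr499_c))))) (BT.Fa_mk (BT.Fa_mk (BT.Fa_mk (BT.Fa_mk (BT.Fa_leaf (P := Itm.ok 206) (iqf tpr203_c)) (BT.Fa_leaf (P := Itm.ok 206) (iqb tpr527_c))) (BT.Fa_leaf (P := Itm.ok 206) (iqb tpr500_c))) (BT.Fa_mk (BT.Fa_mk (BT.Fa_leaf (P := Itm.ok 206) (iqf tpr606_c)) (BT.Fa_leaf (P := Itm.ok 206) (iqb tpr555_c))) (BT.Fa_leaf (P := Itm.ok 206) (iqf tpr508_c)))) (BT.Fa_mk (BT.Fa_mk (BT.Fa_mk (BT.Fa_leaf (P := Itm.ok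 206) (iqf tpr17_c)) (BT.Fa_leaf (P := Itm.ok 206) (iqf tpr585_c))) (BT.Fa_leaf (P := Itm.ok 206) (iqf tpr516_c))) (BT.Fa_mk (BT.Fa_leaf (P := Itm.ok 206) (iqb tpr22_c)) (BT.Fa_leaf (P := Itm.ok 206) (iqf tpr518_c)))))) (BT.Fa_mk (BT.Fa_mk (BT.Fa_mk (BT.Fa_mk (BT.Fa_mk (BT.Fa_leaf (P := Itm.ok 206) (iqb tpr516_c)) (BT.Fa_leaf (P := Itm.ok 206) (iqb tpr203_c))) (BT.Fa_leaf (P := Itm.ok 206) (iqb tpr62_c))) (BT.Fa_mk (BT.Fa_mk (BT.Fa_leaf (P := Itm.ok 206) (iqb tpr17_c)) (BT.Fa_leaf (P := Itm.ok 206) (iqb tpr503_c))) (BT.Fa_leaf (P := Itm.ok 206) (iqf tpr577_c)))) (BT.Fa_mk (BT.Fa_mk (BT.Fa_mk (BT.Fa_leaf (P := Itm.ok 206) (iqf tpr502_c)) (BT.Fa_leaf (P := Itm.ok 206) (iqb tpr568_c))) (BT.Fa_leaf (P := Itm.ok 206) (iqf tpr547_c))) (BT.Fa_mk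 (BT.Fa_leaf (P := Itm.ok 206) (iqf tpr22_c)) (BT.Fa_leaf (P := Itm.ok 206) (iqb tpr9_c))))) (BT.Fa_mk (BT.Fa_mk (BT.Fa_mk (BT.Fa_mk (BT.Fa_leaf (P := Itm.ok 206) (iqf tpr607_c)) (BT.Fa_leaf (P := Itm.ok 206) (iqb tpr576_c))) (BT.Fa_leaf (P := Itm.ok 206) (iqb tpr505_c))) (BT.Fa_mk (BT.Fa_mk (BT.Fa_leaf (P := Itm.ok 206) (iqf tpr499_c)) (BT.Fa_leaf (P := Itm.ok 206) (iqf tpr509_c))) (BT.Fa_leaf (P := Itm.ok 206) (iqf tpr501_c)))) (BT.Fa_mk (BT.Fa_mk (BT.Fa_mk (BT.Fa_leaf (P := Itm.ok 206) (iqb tpr514_c)) (BT.Fa_leaf (P := Itm.ok 206) (iqb tpr608_c))) (BT.Fa_leaf (P := Itm.ok 206) (iqb tpr609_c))) (BT.Fa_mk (BT.Fa_leaf (P := Itm.ok 206) (iqf tpr505_c)) (BT.Fa_leaf (P := Itm.ok 206) (iqb tpr103_c))))))) (BT.Fa_mk (BT.Fa_mk (BT.Fa_mk (BT.Fa_mk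 (BT.Fa_mk (BT.Fa_mk (BT.Fa_leaf (P := Itm.ok 206) (iqb tpr610_c)) (BT.Fa_leaf (P := Itm.ok 206) (iqf tpr236_c))) (BT.Fa_leaf (P := Itm.ok 206) (iqf tpr511_c))) (BT.Fa_mk (BT.Fa_mk (BT.Fa_leaf (P := Itm.ok 206) (iqf tpr517_c)) (BT.Fa_leaf (P := Itm.ok 206) (iqf tpr610_c))) (BT.Fa_leaf (P := Itm.ok 206) (iqf tpr44_c)))) (BT.Fa_mk (BT.Fa_mk (BT.Fa_mk (BT.Fa_leaf (P := Itm.ok 206) (iqf tpr504_c)) (BT.Fa_leaf (P := Itm.ok 206) (iqb tpr605_c))) (BT.Fa_leaf (P := Itm.ok 206) (iqf tpr611_c))) (BT.Fa_mk (BT.Fa_leaf (P := Itm.ok 206) (iqb tpr239_c)) (BT.Fa_leaf (P := Itm.ok 206) (iqf tpr54_c))))) (BT.Fa_mk (BT.Fa_mk (BT.Fa_mk (BT.Fa_mk (BT.Fa_leaf (P := Itm.ok 206) (iqf tpr592_c)) (BT.Fa_leaf (P := Itm.ok 206) (iqf tpr519_c))) (BT.Fa_leaf (P :=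 Itm.ok 206) (iqf tpr612_c))) (BT.Fa_mk (BT.Fa_mk (BT.Fa_leaf (P := Itm.ok 206) (iqb tpr106_c)) (BT.Fa_leaf (P := Itm.ok 206) (iqb tpr613_c))) (BT.Fa_leaf (P := Itm.ok 206) (iqf tpr507_c)))) (BT.Fa_mk (BT.Fa_mk (BT.Fa_mk (BT.Fa_leaf (P := Itm.ok 206) (iqf tpr513_c)) (BT.Fa_leaf (P := Itm.ok 206) (iqf tpr506_c))) (BT.Fa_leaf (P := Itm.ok 206) (iqf tpr510_c))) (BT.Fa_mk (BT.Fa_leaf (P := Itm.ok 206) (iqb tpr521_c)) (BT.Fa_leaf (P := Itm.ok 206) (iqf tpr614_c)))))) (BT.Fa_mk (BT.Fa_mk (BT.Fa_mk (BT.Fa_mk (BT.Fa_mk (BT.Fa_leaf (P := Itm.ok 206) (iqb tpr515_c)) (BT.Fa_leaf (P := Itm.ok 206) (iqf tpr546_c))) (BT.Fa_leaf (P := Itm.ok 206) (iqb tpr518_c))) (BT.Fa_mk (BT.Fa_mk (BT.Fa_leaf (P := Itm.ok 206) (iqb tpr537_c)) (BT.Fa_leaf (P := Itm.ok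 206) (iqb tpr526_c))) (BT.Fa_leaf (P := Itm.ok 206) (iqf tpr5_c)))) (BT.Fa_mk (BT.Fa_mk (BT.Fa_mk (BT.Fa_leaf (P := Itm.ok 206) (iqb tpr210_c)) (BT.Fa_leaf (P := Itm.ok 206) (iqb tpr520_c))) (BT.Fa_leaf (P := Itm.ok 206) (iqb tpr523_c))) (BT.Fa_mk (BT.Fa_leaf (P := Itm.ok 206) (iqb tpr549_c)) (BT.Fa_leaf (P := Itm.ok 206) (iqb tpr615_c))))) (BT.Fa_mk (BT.Fa_mk (BT.Fa_mk (BT.Fa_mk (BT.Fa_leaf (P := Itm.ok 206) (iqf tpr615_c)) (BT.Fa_leaf (P := Itm.ok 206) (iqf tpr589_c))) (BT.Fa_leaf (P := Itm.ok 206) (iqf tpr537_c))) (BT.Fa_mk (BT.Fa_leaf (P := Itm.ok 206) (iqb tpr593_c)) (BT.Fa_leaf (P := Itm.ok 206) (iqf tpr48_c)))) (BT.Fa_mk (BT.Fa_mk (BT.Fa_mk (BT.Fa_leaf (P := Itm.ok 206) (iqb tpr616_c)) (BT.Fa_leaf (P := Itm.ok 206) (iqb tpr562_c)))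 (BT.Fa_leaf (P := Itm.ok 206) (iqb tpr251_c))) (BT.Fa_mk (BT.Fa_leaf (P := Itm.ok 206) (iqf tpr617_c)) (BT.Fa_leaf (P := Itm.ok 206) (iqf tpr90_c)))))))) (BT.Fa_mk (BT.Fa_mk (BT.Fa_mk (BT.Fa_mk (BT.Fa_mk (BT.Fa_mk (BT.Fa_mk (BT.Fa_leaf (P := Itm.ok 206) (iqb tpr591_c)) (BT.Fa_leaf (P := Itm.ok 206) (iqf tpr78_c))) (BT.Fa_leaf (P := Itm.ok 206) (iqf tpr566_c))) (BT.Fa_mk (BT.Fa_mk (BT.Fa_leaf (P := Itm.ok 206) (iqb tpr614_c)) (BT.Fa_leaf (P := Itm.ok 206) (iqb tpr618_c))) (BT.Fa_leaf (P := Itm.ok 206) (iqf tpr582_c)))) (BT.Fa_mk (BT.Fa_mk (BT.Fa_mk (BT.Fa_leaf (P := Itm.ok 206) (iqb tpr619_c)) (BT.Fa_leaf (P := Itm.ok 206) (iqb tpr77_c))) (BT.Fa_leaf (P := Itm.ok 206) (iqb tpr620_c))) (BT.Fa_mk (BT.Fa_leaf (P := Itm.ok 206) (iqb tpr10_c))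 (BT.Fa_leaf (P := Itm.ok 206) (iqb tpr596_c))))) (BT.Fa_mk (BT.Fa_mk (BT.Fa_mk (BT.Fa_mk (BT.Fa_leaf (P := Itm.ok 206) (iqf tpr91_c)) (BT.Fa_leaf (P := Itm.ok 206) (iqf tpr549_c))) (BT.Fa_leaf (P := Itm.ok 206) (iqb tpr26_c))) (BT.Fa_mk (BT.Fa_mk (BT.Fa_leaf (P := Itm.ok 206) (iqb tpr621_c)) (BT.Fa_leaf (P := Itm.ok 206) (iqb tpr622_c))) (BT.Fa_leaf (P := Itm.ok 206) (iqb tpr543_c)))) (BT.Fa_mk (BT.Fa_mk (BT.Fa_mk (BT.Fa_leaf (P := Itm.ok 206) (iqf tpr623_c)) (BT.Fa_leaf (P := Itm.ok 206) (iqf tpr247_c))) (BT.Fa_leaf (P := Itm.ok 206) (iqf tpr545_c))) (BT.Fa_mk (BT.Fa_leaf (P := Itm.ok 206) (iqf tpr557_c)) (BT.Fa_leaf (P := Itm.ok 206) (iqb tpr624_c)))))) (BT.Fa_mk (BT.Fa_mk (BT.Fa_mk (BT.Fa_mk (BT.Fa_mk (BT.Fa_leaf (P := Itm.ok 206) (iqb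 tpr625_c)) (BT.Fa_leaf (P := Itm.ok 206) (iqb tpr626_c))) (BT.Fa_leaf (P := Itm.ok 206) (iqf tpr627_c))) (BT.Fa_mk (BT.Fa_mk (BT.Fa_leaf (P := Itm.ok 206) (iqf tpr628_c)) (BT.Fa_leaf (P := Itm.ok 206) (iqf tpr620_c))) (BT.Fa_leaf (P := Itm.ok 206) (iqf tpr570_c)))) (BT.Fa_mk (BT.Fa_mk (BT.Fa_mk (BT.Fa_leaf (P := Itm.ok 206) (iqf tpr629_c)) (BT.Fa_leaf (P := Itm.ok 206) (iqf tpr51_c))) (BT.Fa_leaf (P := Itm.ok 206) (iqf tpr630_c))) (BT.Fa_mk (BT.Fa_leaf (P := Itm.ok 206) (iqb tpr594_c)) (BT.Fa_leaf (P := Itm.ok 206) (iqf tpr631_c))))) (BT.Fa_mk (BT.Fa_mk (BT.Fa_mk (BT.Fa_mk (BT.Fa_leaf (P := Itm.ok 206) (iqb tpr632_c)) (BT.Fa_leaf (P := Itm.ok 206) (iqb tpr633_c))) (BT.Fa_leaf (P := Itm.ok 206) (iqf tpr87_c))) (BT.Fa_mk (BT.Fa_mk (BT.Fa_leaf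 (P := Itm.ok 206) (iqb tpr634_c)) (BT.Fa_leaf (P := Itm.ok 206) (iqb tpr57_c))) (BT.Fa_leaf (P := Itm.ok 206) (iqb tpr635_c)))) (BT.Fa_mk (BT.Fa_mk (BT.Fa_mk (BT.Fa_leaf (P := Itm.ok 206) (iqb tpr74_c)) (BT.Fa_leaf (P := Itm.ok 206) (iqf tpr32_c))) (BT.Fa_leaf (P := Itm.ok 206) (iqf tpr636_c))) (BT.Fa_mk (BT.Fa_leaf (P := Itm.ok 206) (iqb tpr637_c)) (BT.Fa_leaf (P := Itm.ok 206) (iqb tpr638_c))))))) (BT.Fa_mk (BT.Fa_mk (BT.Fa_mk (BT.Fa_mk (BT.Fa_mk (BT.Fa_mk (BT.Fa_leaf (P := Itm.ok 206) (iqb tpr639_c)) (BT.Fa_leaf (P := Itm.ok 206) (iqf tpr637_c))) (BT.Fa_leaf (P := Itm.ok 206) (iqb tpr550_c))) (BT.Fa_mk (BT.Fa_mk (BT.Fa_leaf (P := Itm.ok 206) (iqb tpr344_c)) (BT.Fa_leaf (P := Itm.ok 206) (iqb tpr640_c))) (BT.Fa_leaf (P := Itm.ok 206)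 (iqb tpr641_c)))) (BT.Fa_mk (BT.Fa_mk (BT.Fa_mk (BT.Fa_leaf (P := Itm.ok 206) (iqb tpr642_c)) (BT.Fa_leaf (P := Itm.ok 206) (iqb tpr466_c))) (BT.Fa_leaf (P := Itm.ok 206) (iqf tpr124_c))) (BT.Fa_mk (BT.Fa_leaf (P := Itm.ok 206) (iqb tpr66_c)) (BT.Fa_leaf (P := Itm.ok 206) (iqf tpr643_c))))) (BT.Fa_mk (BT.Fa_mk (BT.Fa_mk (BT.Fa_mk (BT.Fa_leaf (P := Itm.ok 206) (iqb tpr587_c)) (BT.Fa_leaf (P := Itm.ok 206) (iqf tpr644_c))) (BT.Fa_leaf (P := Itm.ok 206) (iqb tpr572_c))) (BT.Fa_mk (BT.Fa_mk (BT.Fa_leaf (P := Itm.ok 206) (iqf tpr123_c)) (BT.Fa_leaf (P := Itm.ok 206) (iqf tpr122_c))) (BT.Fa_leaf (P := Itm.ok 206) (iqf tpr81_c)))) (BT.Fa_mk (BT.Fa_mk (BT.Fa_mk (BT.Fa_leaf (P := Itm.ok 206) (iqf tpr645_c)) (BT.Fa_leaf (P := Itm.ok 206) (iqb tpr15_c)))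 (BT.Fa_leaf (P := Itm.ok 206) (iqb tpr48_c))) (BT.Fa_mk (BT.Fa_leaf (P := Itm.ok 206) (iqf tpr216_c)) (BT.Fa_leaf (P := Itm.ok 206) (iqb tpr16_c)))))) (BT.Fa_mk (BT.Fa_mk (BT.Fa_mk (BT.Fa_mk (BT.Fa_mk (BT.Fa_leaf (P := Itm.ok 206) (iqf tpr646_c)) (BT.Fa_leaf (P := Itm.ok 206) (iqf tpr458_c))) (BT.Fa_leaf (P := Itm.ok 206) (iqb tpr265_c))) (BT.Fa_mk (BT.Fa_mk (BT.Fa_leaf (P := Itm.ok 206) (iqb tpr339_c)) (BT.Fa_leaf (P := Itm.ok 206) (iqb tpr75_c))) (BT.Fa_leaf (P := Itm.ok 206) (iqf tpr647_c)))) (BT.Fa_mk (BT.Fa_mk (BT.Fa_mk (BT.Fa_leaf (P := Itm.ok 206) (iqb tpr315_c)) (BT.Fa_leaf (P := Itm.ok 206) (iqb tpr648_c))) (BT.Fa_leaf (P := Itm.ok 206) (iqf tpr225_c))) (BT.Fa_mk (BT.Fa_leaf (P := Itm.ok 206) (iqb tpr457_c)) (BT.Fa_leaf (P :=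 Itm.ok 206) (iqb tpr649_c))))) (BT.Fa_mk (BT.Fa_mk (BT.Fa_mk (BT.Fa_mk (BT.Fa_leaf (P := Itm.ok 206) (iqb tpr650_c)) (BT.Fa_leaf (P := Itm.ok 206) (iqf tpr651_c))) (BT.Fa_leaf (P := Itm.ok 206) (iqf tpr406_c))) (BT.Fa_mk (BT.Fa_leaf (P := Itm.ok 206) (iqb tpr652_c)) (BT.Fa_leaf (P := Itm.ok 206) (iqf tpr653_c)))) (BT.Fa_mk (BT.Fa_mk (BT.Fa_mk (BT.Fa_leaf (P := Itm.ok 206) (iqb tpr654_c)) (BT.Fa_leaf (P := Itm.ok 206) (iqb tpr655_c))) (BT.Fa_leaf (P := Itm.ok 206) (iqb tpr8_c))) (BT.Fa_mk (BT.Fa_leaf (P := Itm.ok 206) (iqb tpr168_c)) (BT.Fa_leaf (P := Itm.ok 206) (iqb tpr656_c))))))))) (BT.Fa_mk (BT.Fa_mk (BT.Fa_mk (BT.Fa_mk (BT.Fa_mk (BT.Fa_mk (BT.Fa_mk (BT.Fa_mk (BT.Fa_leaf (P := Itm.ok 206) (iqb tpr548_c)) (BT.Fa_leaf (P := Itm.ok 206)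 (iqb tpr553_c))) (BT.Fa_leaf (P := Itm.ok 206) (iqf tpr657_c))) (BT.Fa_mk (BT.Fa_mk (BT.Fa_leaf (P := Itm.ok 206) (iqf tpr62_c)) (BT.Fa_leaf (P := Itm.ok 206) (iqf tpr602_c))) (BT.Fa_leaf (P := Itm.ok 206) (iqb tpr259_c)))) (BT.Fa_mk (BT.Fa_mk (BT.Fa_mk (BT.Fa_leaf (P := Itm.ok 206) (iqb tpr198_c)) (BT.Fa_leaf (P := Itm.ok 206) (iqb tpr23_c))) (BT.Fa_leaf (P := Itm.ok 206) (iqf tpr429_c))) (BT.Fa_mk (BT.Fa_leaf (P := Itm.ok 206) (iqf tpr658_c)) (BT.Fa_leaf (P := Itm.ok 206) (iqf tpr581_c))))) (BT.Fa_mk (BT.Fa_mk (BT.Fa_mk (BT.Fa_mk (BT.Fa_leaf (P := Itm.ok 206) (iqb tpr612_c)) (BT.Fa_leaf (P := Itm.ok 206) (iqf tpr583_c))) (BT.Fa_leaf (P := Itm.ok 206) (iqf tpr534_c))) (BT.Fa_mk (BT.Fa_mk (BT.Fa_leaf (P := Itm.ok 206) (iqf tpr659_c)) (BT.Fa_leaf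 (P := Itm.ok 206) (iqb tpr578_c))) (BT.Fa_leaf (P := Itm.ok 206) (iqf tpr660_c)))) (BT.Fa_mk (BT.Fa_mk (BT.Fa_mk (BT.Fa_leaf (P := Itm.ok 206) (iqf tpr634_c)) (BT.Fa_leaf (P := Itm.ok 206) (iqf tpr661_c))) (BT.Fa_leaf (P := Itm.ok 206) (iqb tpr662_c))) (BT.Fa_mk (BT.Fa_leaf (P := Itm.ok 206) (iqb tpr643_c)) (BT.Fa_leaf (P := Itm.ok 206) (iqb tpr663_c)))))) (BT.Fa_mk (BT.Fa_mk (BT.Fa_mk (BT.Fa_mk (BT.Fa_mk (BT.Fa_leaf (P := Itm.ok 206) (iqb tpr664_c)) (BT.Fa_leaf (P := Itm.ok 206) (iqf tpr564_c))) (BT.Fa_leaf (P := Itm.ok 206) (iqb tpr665_c))) (BT.Fa_mk (BT.Fa_mk (BT.Fa_leaf (P := Itm.ok 206) (iqb tpr666_c)) (BT.Fa_leaf (P := Itm.ok 206) (iqf tpr667_c))) (BT.Fa_leaf (P := Itm.ok 206) (iqb tpr668_c)))) (BT.Fa_mk (BT.Fa_mk (BT.Fa_mk (BT.Fa_leaf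 (P := Itm.ok 206) (iqf tpr669_c)) (BT.Fa_leaf (P := Itm.ok 206) (iqb tpr670_c))) (BT.Fa_leaf (P := Itm.ok 206) (iqf tpr671_c))) (BT.Fa_mk (BT.Fa_leaf (P := Itm.ok 206) (iqb tpr672_c)) (BT.Fa_leaf (P := Itm.ok 206) (iqb tpr673_c))))) (BT.Fa_mk (BT.Fa_mk (BT.Fa_mk (BT.Fa_mk (BT.Fa_leaf (P := Itm.ok 206) (iqb tpr674_c)) (BT.Fa_leaf (P := Itm.ok 206) (iqb tpr91_c))) (BT.Fa_leaf (P := Itm.ok 206) (iqf tpr675_c))) (BT.Fa_mk (BT.Fa_mk (BT.Fa_leaf (P := Itm.ok 206) (iqb tpr676_c)) (BT.Fa_leaf (P := Itm.ok 206) (iqb tpr611_c))) (BT.Fa_leaf (P := Itm.ok 206) (iqf tpr20_c)))) (BT.Fa_mk (BT.Fa_mk (BT.Fa_mk (BT.Fa_leaf (P := Itm.ok 206) (iqf tpr72_c)) (BT.Fa_leaf (P := Itm.ok 206) (iqf tpr677_c))) (BT.Fa_leaf (P := Itm.ok 206) (iqf tpr23_c))) (BT.Fa_mk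 (BT.Fa_leaf (P := Itm.ok 206) (iqb tpr583_c)) (BT.Fa_leaf (P := Itm.ok 206) (iqb tpr678_c))))))) (BT.Fa_mk (BT.Fa_mk (BT.Fa_mk (BT.Fa_mk (BT.Fa_mk (BT.Fa_mk (BT.Fa_leaf (P := Itm.ok 206) (iqb tpr554_c)) (BT.Fa_leaf (P := Itm.ok 206) (iqf tpr588_c))) (BT.Fa_leaf (P := Itm.ok 206) (iqf tpr596_c))) (BT.Fa_mk (BT.Fa_mk (BT.Fa_leaf (P := Itm.ok 206) (iqf tpr223_c)) (BT.Fa_leaf (P := Itm.ok 206) (iqf tpr542_c))) (BT.Fa_leaf (P := Itm.ok 206) (iqf tpr556_c)))) (BT.Fa_mk (BT.Fa_mk (BT.Fa_mk (BT.Fa_leaf (P := Itm.ok 206) (iqb tpr679_c)) (BT.Fa_leaf (P := Itm.ok 206) (iqb tpr577_c))) (BT.Fa_leaf (P := Itm.ok 206) (iqb tpr636_c))) (BT.Fa_mk (BT.Fa_leaf (P := Itm.ok 206) (iqb tpr501_c)) (BT.Fa_leaf (P := Itm.ok 206) (iqf tpr626_c))))) (BT.Fa_mk (BT.Fa_mk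 (BT.Fa_mk (BT.Fa_mk (BT.Fa_leaf (P := Itm.ok 206) (iqb tpr544_c)) (BT.Fa_leaf (P := Itm.ok 206) (iqf tpr680_c))) (BT.Fa_leaf (P := Itm.ok 206) (iqb tpr567_c))) (BT.Fa_mk (BT.Fa_mk (BT.Fa_leaf (P := Itm.ok 206) (iqf tpr595_c)) (BT.Fa_leaf (P := Itm.ok 206) (iqb tpr681_c))) (BT.Fa_leaf (P := Itm.ok 206) (iqf tpr106_c)))) (BT.Fa_mk (BT.Fa_mk (BT.Fa_mk (BT.Fa_leaf (P := Itm.ok 206) (iqb tpr151_c)) (BT.Fa_leaf (P := Itm.ok 206) (iqf tpr682_c))) (BT.Fa_leaf (P := Itm.ok 206) (iqf tpr575_c))) (BT.Fa_mk (BT.Fa_leaf (P := Itm.ok 206) (iqf tpr683_c)) (BT.Fa_leaf (P := Itm.ok 206) (iqf tpr684_c)))))) (BT.Fa_mk (BT.Fa_mk (BT.Fa_mk (BT.Fa_mk (BT.Fa_mk (BT.Fa_leaf (P := Itm.ok 206) (iqf tpr685_c)) (BT.Fa_leaf (P := Itm.ok 206) (iqb tpr686_c))) (BT.Fa_leaf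 (P := Itm.ok 206) (iqb tpr687_c))) (BT.Fa_mk (BT.Fa_mk (BT.Fa_leaf (P := Itm.ok 206) (iqb tpr688_c)) (BT.Fa_leaf (P := Itm.ok 206) (iqf tpr689_c))) (BT.Fa_leaf (P := Itm.ok 206) (iqb tpr658_c)))) (BT.Fa_mk (BT.Fa_mk (BT.Fa_mk (BT.Fa_leaf (P := Itm.ok 206) (iqb tpr690_c)) (BT.Fa_leaf (P := Itm.ok 206) (iqb tpr691_c))) (BT.Fa_leaf (P := Itm.ok 206) (iqb tpr680_c))) (BT.Fa_mk (BT.Fa_leaf (P := Itm.ok 206) (iqb tpr692_c)) (BT.Fa_leaf (P := Itm.ok 206) (iqb tpr590_c))))) (BT.Fa_mk (BT.Fa_mk (BT.Fa_mk (BT.Fa_mk (BT.Fa_leaf (P := Itm.ok 206) (iqf tpr693_c)) (BT.Fa_leaf (P := Itm.ok 206) (iqb tpr694_c))) (BT.Fa_leaf (P := Itm.ok 206) (iqb tpr695_c))) (BT.Fa_mk (BT.Fa_leaf (P := Itm.ok 206) (iqb tpr191_c)) (BT.Fa_leaf (P := Itm.ok 206) (iqf tpr524_c))))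 (BT.Fa_mk (BT.Fa_mk (BT.Fa_mk (BT.Fa_leaf (P := Itm.ok 206) (iqb tpr696_c)) (BT.Fa_leaf (P := Itm.ok 206) (iqf tpr697_c))) (BT.Fa_leaf (P := Itm.ok 206) (iqb tpr584_c))) (BT.Fa_mk (BT.Fa_leaf (P := Itm.ok 206) (iqb tpr698_c)) (BT.Fa_leaf (P := Itm.ok 206) (iqf tpr238_c)))))))) (BT.Fa_mk (BT.Fa_mk (BT.Fa_mk (BT.Fa_mk (BT.Fa_mk (BT.Fa_mk (BT.Fa_mk (BT.Fa_leaf (P := Itm.ok 206) (iqf tpr699_c)) (BT.Fa_leaf (P := Itm.ok 206) (iqf tpr526_c))) (BT.Fa_leaf (P := Itm.ok 206) (iqb tpr263_c))) (BT.Fa_mk (BT.Fa_mk (BT.Fa_leaf (P := Itm.ok 206) (iqf tpr512_c)) (BT.Fa_leaf (P := Itm.ok 206) (iqf tpr700_c))) (BT.Fa_leaf (P := Itm.ok 206) (iqf tpr701_c)))) (BT.Fa_mk (BT.Fa_mk (BT.Fa_mk (BT.Fa_leaf (P := Itm.ok 206) (iqb tpr702_c)) (BT.Fa_leaf (P := Itm.ok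 206) (iqb tpr546_c))) (BT.Fa_leaf (P := Itm.ok 206) (iqf tpr613_c))) (BT.Fa_mk (BT.Fa_leaf (P := Itm.ok 206) (iqb tpr703_c)) (BT.Fa_leaf (P := Itm.ok 206) (iqb tpr598_c))))) (BT.Fa_mk (BT.Fa_mk (BT.Fa_mk (BT.Fa_mk (BT.Fa_leaf (P := Itm.ok 206) (iqf tpr565_c)) (BT.Fa_leaf (P := Itm.ok 206) (iqf tpr235_c))) (BT.Fa_leaf (P := Itm.ok 206) (iqb tpr704_c))) (BT.Fa_mk (BT.Fa_mk (BT.Fa_leaf (P := Itm.ok 206) (iqf tpr25_c)) (BT.Fa_leaf (P := Itm.ok 206) (iqb tpr18_c))) (BT.Fa_leaf (P := Itm.ok 206) (iqf tpr452_c)))) (BT.Fa_mk (BT.Fa_mk (BT.Fa_mk (BT.Fa_leaf (P := Itm.ok 206) (iqb tpr705_c)) (BT.Fa_leaf (P := Itm.ok 206) (iqb tpr706_c))) (BT.Fa_leaf (P := Itm.ok 206) (iqb tpr707_c))) (BT.Fa_mk (BT.Fa_leaf (P := Itm.ok 206) (iqb tpr708_c)) (BT.Fa_leaf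 (P := Itm.ok 206) (iqb tpr709_c)))))) (BT.Fa_mk (BT.Fa_mk (BT.Fa_mk (BT.Fa_mk (BT.Fa_mk (BT.Fa_leaf (P := Itm.ok 206) (iqb tpr120_c)) (BT.Fa_leaf (P := Itm.ok 206) (iqb tpr710_c))) (BT.Fa_leaf (P := Itm.ok 206) (iqb tpr711_c))) (BT.Fa_mk (BT.Fa_mk (BT.Fa_leaf (P := Itm.ok 206) (iqf tpr712_c)) (BT.Fa_leaf (P := Itm.ok 206) (iqb tpr334_c))) (BT.Fa_leaf (P := Itm.ok 206) (iqf tpr713_c)))) (BT.Fa_mk (BT.Fa_mk (BT.Fa_mk (BT.Fa_leaf (P := Itm.ok 206) (iqf tpr461_c)) (BT.Fa_leaf (P := Itm.ok 206) (iqf tpr714_c))) (BT.Fa_leaf (P := Itm.ok 206) (iqb tpr715_c))) (BT.Fa_mk (BT.Fa_leaf (P := Itm.ok 206) (iqf tpr716_c)) (BT.Fa_leaf (P := Itm.ok 206) (iqb tpr717_c))))) (BT.Fa_mk (BT.Fa_mk (BT.Fa_mk (BT.Fa_mk (BT.Fa_leaf (P := Itm.ok 206) (iqf tpr718_c))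 (BT.Fa_leaf (P := Itm.ok 206) (iqb tpr393_c))) (BT.Fa_leaf (P := Itm.ok 206) (iqf tpr719_c))) (BT.Fa_mk (BT.Fa_leaf (P := Itm.ok 206) (iqb tpr720_c)) (BT.Fa_leaf (P := Itm.ok 206) (iqb tpr721_c)))) (BT.Fa_mk (BT.Fa_mk (BT.Fa_mk (BT.Fa_leaf (P := Itm.ok 206) (iqb tpr722_c)) (BT.Fa_leaf (P := Itm.ok 206) (iqf tpr723_c))) (BT.Fa_leaf (P := Itm.ok 206) (iqb tpr724_c))) (BT.Fa_mk (BT.Fa_leaf (P := Itm.ok 206) (iqb tpr725_c)) (BT.Fa_leaf (P := Itm.ok 206) (iqb tpr726_c))))))) (BT.Fa_mk (BT.Fa_mk (BT.Fa_mk (BT.Fa_mk (BT.Fa_mk (BT.Fa_mk (BT.Fa_leaf (P := Itm.ok 206) (iqf tpr727_c)) (BT.Fa_leaf (P := Itm.ok 206) (iqf tpr198_c))) (BT.Fa_leaf (P := Itm.ok 206) (iqb tpr293_c))) (BT.Fa_mk (BT.Fa_mk (BT.Fa_leaf (P := Itm.ok 206) (iqb tpr728_c)) (BT.Fa_leaf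 (P := Itm.ok 206) (iqb tpr729_c))) (BT.Fa_leaf (P := Itm.ok 206) (iqf tpr295_c)))) (BT.Fa_mk (BT.Fa_mk (BT.Fa_mk (BT.Fa_leaf (P := Itm.ok 206) (iqf tpr730_c)) (BT.Fa_leaf (P := Itm.ok 206) (iqf tpr731_c))) (BT.Fa_leaf (P := Itm.ok 206) (iqf tpr13_c))) (BT.Fa_mk (BT.Fa_leaf (P := Itm.ok 206) (iqb tpr732_c)) (BT.Fa_leaf (P := Itm.ok 206) (iqf tpr733_c))))) (BT.Fa_mk (BT.Fa_mk (BT.Fa_mk (BT.Fa_mk (BT.Fa_leaf (P := Itm.ok 206) (iqf tpr222_c)) (BT.Fa_leaf (P := Itm.ok 206) (iqb tpr734_c))) (BT.Fa_leaf (P := Itm.ok 206) (iqf tpr735_c))) (BT.Fa_mk (BT.Fa_mk (BT.Fa_leaf (P := Itm.ok 206) (iqf tpr736_c)) (BT.Fa_leaf (P := Itm.ok 206) (iqb tpr737_c))) (BT.Fa_leaf (P := Itm.ok 206) (iqf tpr738_c)))) (BT.Fa_mk (BT.Fa_mk (BT.Fa_mk (BT.Fa_leaf (P :=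 Itm.ok 206) (iqb tpr287_c)) (BT.Fa_leaf (P := Itm.ok 206) (iqf tpr586_c))) (BT.Fa_leaf (P := Itm.ok 206) (iqb tpr631_c))) (BT.Fa_mk (BT.Fa_leaf (P := Itm.ok 206) (iqf tpr739_c)) (BT.Fa_leaf (P := Itm.ok 206) (iqb tpr502_c)))))) (BT.Fa_mk (BT.Fa_mk (BT.Fa_mk (BT.Fa_mk (BT.Fa_mk (BT.Fa_leaf (P := Itm.ok 206) (iqf tpr294_c)) (BT.Fa_leaf (P := Itm.ok 206) (iqb tpr740_c))) (BT.Fa_leaf (P := Itm.ok 206) (iqb tpr741_c))) (BT.Fa_mk (BT.Fa_mk (BT.Fa_leaf (P := Itm.ok 206) (iqb tpr697_c)) (BT.Fa_leaf (P := Itm.ok 206) (iqf tpr742_c))) (BT.Fa_leaf (P := Itm.ok 206) (iqf tpr743_c)))) (BT.Fa_mk (BT.Fa_mk (BT.Fa_mk (BT.Fa_leaf (P := Itm.ok 206) (iqb tpr744_c)) (BT.Fa_leaf (P := Itm.ok 206) (iqf tpr188_c))) (BT.Fa_leaf (P := Itm.ok 206) (iqb tpr745_c)))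 (BT.Fa_mk (BT.Fa_leaf (P := Itm.ok 206) (iqb tpr746_c)) (BT.Fa_leaf (P := Itm.ok 206) (iqf tpr747_c))))) (BT.Fa_mk (BT.Fa_mk (BT.Fa_mk (BT.Fa_mk (BT.Fa_leaf (P := Itm.ok 206) (iqf tpr748_c)) (BT.Fa_leaf (P := Itm.ok 206) (iqb tpr749_c))) (BT.Fa_leaf (P := Itm.ok 206) (iqf tpr574_c))) (BT.Fa_mk (BT.Fa_leaf (P := Itm.ok 206) (iqf tpr750_c)) (BT.Fa_leaf (P := Itm.ok 206) (iqb tpr751_c)))) (BT.Fa_mk (BT.Fa_mk (BT.Fa_mk (BT.Fa_leaf (P := Itm.ok 206) (iqf tpr752_c)) (BT.Fa_leaf (P := Itm.ok 206) (iqf tpr753_c))) (BT.Fa_leaf (P := Itm.ok 206) (iqb tpr755_c))) (BT.Fa_mk (BT.Fa_leaf (P := Itm.ok 206) (iqb tpr559_c)) (BT.Fa_leaf (P := Itm.ok 206) (iqb tpr756_c))))))))))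

/-- all words of the class have labels -/
theorem pokNFzE2A3H2AzAyB2H3AyB2EzF : POK 206 xNFzE2A3H2AzAyB2H3AyB2EzF :=
  y_pok (C0 := ceNFzE2A3H2AzAyB2H3AyB2EzF) (C1 := coNFzE2A3H2AzAyB2H3AyB2EzF) topNFzE2A3H2AzAyB2H3AyB2EzF nbNFzE2A3H2AzAyB2H3AyB2EzF (BT.Fa_of_all iiNFzE2A3H2AzAyB2H3AyB2EzF_c)
    (BT.Fa_mk (BT.Fa_mk (cyE_spec zeNFzE2A3H2AzAyB2H3AyB2EzF_0) (cyE_spec zeNFzE2A3H2AzAyB2H3AyB2EzF_1)) (BT.Fa_mk (BT.Fa_mk (cyE_spec zeNFzE2A3H2AzAyB2H3AyB2EzF_2) (BT.Fa_mk (cyE_spec zeNFzE2A3H2AzAyB2H3AyB2EzF_3) (cyE_spec zeNFzE2A3H2AzAyB2H3AyB2EzF_4))) (BT.Fa_mk (BT.Fa_mk (cyE_spec zeNFzE2A3H2AzAyB2H3AyB2EzF_5) (cyE_spec zeNFzE2A3H2AzAyB2H3AyB2EzF_6)) (BT.Fa_mk (cyE_spec zeNFzE2A3H2AzAyB2H3AyB2EzF_7) (cyE_spec zeNFzE2A3H2AzAyB2H3AyB2EzF_8)))))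
    (BT.Fa_mk (BT.Fa_mk (BT.Fa_mk (cyO_spec zoNFzE2A3H2AzAyB2H3AyB2EzF_0) (cyO_spec zoNFzE2A3H2AzAyB2H3AyB2EzF_1)) (cyO_spec zoNFzE2A3H2AzAyB2H3AyB2EzF_2)) (BT.Fa_mk (BT.Fa_mk (cyO_spec zoNFzE2A3H2AzAyB2H3AyB2EzF_3) (BT.Fa_mk (BT.Fa_mk (cyO_spec zoNFzE2A3H2AzAyB2H3AyB2EzF_4) (cyO_spec zoNFzE2A3H2AzAyB2H3AyB2EzF_5)) (cyO_spec zoNFzE2A3H2AzAyB2H3AyB2EzF_6))) (BT.Fa_mk (BT.Fa_mk (cyO_spec zoNFzE2A3H2AzAyB2H3AyB2EzF_7) (cyO_spec zoNFzE2A3H2AzAyB2H3AyB2EzF_8)) (cyO_spec zoNFzE2A3H2AzAyB2H3AyB2EzF_9))))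
    iiNFzE2A3H2AzAyB2H3AyB2EzF_k

theorem iiNFzE2A3H2AzIzA2H3A2EzF_k : iiNFzE2A3H2AzIzA2H3A2EzF.Fa (Itm.ok 206) := (BT.Fa_mk (BT.Fa_mk (BT.Fa_mk (BT.Fa_mk (BT.Fa_mk (BT.Fa_mk (BT.Fa_mk (BT.Fa_mk (BT.Fa_mk (BT.Fa_leaf (P := Itm.ok 206) (iqb tpr500_c)) (BT.Fa_leaf (P := Itm.ok 206) (iqf tpr5_c))) (BT.Fa_leaf (P := Itm.ok 206) (iqf tpr500_c))) (BT.Fa_mk (BT.Fa_mk (BT.Fa_leaf (P := Itm.ok 206) (iqf tpr508_c)) (BT.Fa_leaf (P := Itm.ok 206) (iqb tpr508_c))) (BT.Fa_leaf (P := Itm.ok 206) (iqf tpr499_c)))) (BT.Fa_mk (BT.Fa_mk (BT.Fa_mk (BT.Fa_leaf (P := Itm.ok 206) (iqb tpr499_c)) (BT.Fa_leaf (P := Itm.ok 206) (iqb tpr514_c))) (BT.Fa_leaf (P := Itm.ok 206) (iqf tpr259_c))) (BT.Fa_mk (BT.Fa_leaf (P := Itm.ok 206) (iqb tpr259_c)) (BT.Fa_leaf (P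 := Itm.ok 206) (iqb tpr513_c))))) (BT.Fa_mk (BT.Fa_mk (BT.Fa_mk (BT.Fa_mk (BT.Fa_leaf (P := Itm.ok 206) (iqb tpr504_c)) (BT.Fa_leaf (P := Itm.ok 206) (iqf tpr10_c))) (BT.Fa_leaf (P := Itm.ok 206) (iqb tpr10_c))) (BT.Fa_mk (BT.Fa_mk (BT.Fa_leaf (P := Itm.ok 206) (iqf tpr510_c)) (BT.Fa_leaf (P := Itm.ok 206) (iqb tpr510_c))) (BT.Fa_leaf (P := Itm.ok 206) (iqb tpr502_c)))) (BT.Fa_mk (BT.Fa_mk (BT.Fa_mk (BT.Fa_leaf (P := Itm.ok 206) (iqb tpr48_c)) (BT.Fa_leaf (P := Itm.ok 206) (iqf tpr48_c))) (BT.Fa_leaf (P := Itm.ok 206) (iqb tpr503_c))) (BT.Fa_mk (BT.Fa_leaf (P := Itm.ok 206) (iqf tpr606_c)) (BT.Fa_leaf (P := Itm.ok 206) (iqb tpr236_c)))))) (BT.Fa_mk (BT.Fa_mk (BT.Fa_mk (BT.Fa_mk (BT.Fa_mk (BT.Fa_leaf (P := Itm.ok 206) (iqf tpr17_c)) (BT.Fa_leaf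 (P := Itm.ok 206) (iqb tpr606_c))) (BT.Fa_leaf (P := Itm.ok 206) (iqf tpr507_c))) (BT.Fa_mk (BT.Fa_mk (BT.Fa_leaf (P := Itm.ok 206) (iqb tpr507_c)) (BT.Fa_leaf (P := Itm.ok 206) (iqb tpr515_c))) (BT.Fa_leaf (P := Itm.ok 206) (iqf tpr544_c)))) (BT.Fa_mk (BT.Fa_mk (BT.Fa_mk (BT.Fa_leaf (P := Itm.ok 206) (iqf tpr529_c)) (BT.Fa_leaf (P := Itm.ok 206) (iqf tpr534_c))) (BT.Fa_leaf (P := Itm.ok 206) (iqb tpr534_c))) (BT.Fa_mk (BT.Fa_leaf (P := Itm.ok 206) (iqb tpr529_c)) (BT.Fa_leaf (P := Itm.ok 206) (iqb tpr528_c))))) (BT.Fa_mk (BT.Fa_mk (BT.Fa_mk (BT.Fa_mk (BT.Fa_leaf (P := Itm.ok 206) (iqf tpr528_c)) (BT.Fa_leaf (P := Itm.ok 206) (iqf tpr547_c))) (BT.Fa_leaf (P := Itm.ok 206) (iqb tpr547_c))) (BT.Fa_mk (BT.Fa_mk (BT.Fa_leaf (P := Itm.ok 206)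 (iqf tpr103_c)) (BT.Fa_leaf (P := Itm.ok 206) (iqf tpr4_c))) (BT.Fa_leaf (P := Itm.ok 206) (iqf tpr1681_c)))) (BT.Fa_mk (BT.Fa_mk (BT.Fa_mk (BT.Fa_leaf (P := Itm.ok 206) (iqb tpr26_c)) (BT.Fa_leaf (P := Itm.ok 206) (iqb tpr521_c))) (BT.Fa_leaf (P := Itm.ok 206) (iqb tpr526_c))) (BT.Fa_mk (BT.Fa_leaf (P := Itm.ok 206) (iqb tpr78_c)) (BT.Fa_leaf (P := Itm.ok 206) (iqf tpr505_c))))))) (BT.Fa_mk (BT.Fa_mk (BT.Fa_mk (BT.Fa_mk (BT.Fa_mk (BT.Fa_mk (BT.Fa_leaf (P := Itm.ok 206) (iqb tpr151_c)) (BT.Fa_leaf (P := Itm.ok 206) (iqf tpr566_c))) (BT.Fa_leaf (P := Itm.ok 206) (iqf tpr509_c))) (BT.Fa_mk (BT.Fa_mk (BT.Fa_leaf (P := Itm.ok 206) (iqb tpr566_c)) (BT.Fa_leaf (P := Itm.ok 206) (iqb tpr5_c))) (BT.Fa_leaf (P := Itm.ok 206) (iqf tpr595_c)))) (BT.Fa_mk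 (BT.Fa_mk (BT.Fa_mk (BT.Fa_leaf (P := Itm.ok 206) (iqb tpr546_c)) (BT.Fa_leaf (P := Itm.ok 206) (iqb tpr54_c))) (BT.Fa_leaf (P := Itm.ok 206) (iqb tpr87_c))) (BT.Fa_mk (BT.Fa_leaf (P := Itm.ok 206) (iqb tpr543_c)) (BT.Fa_leaf (P := Itm.ok 206) (iqb tpr575_c))))) (BT.Fa_mk (BT.Fa_mk (BT.Fa_mk (BT.Fa_mk (BT.Fa_leaf (P := Itm.ok 206) (iqf tpr344_c)) (BT.Fa_leaf (P := Itm.ok 206) (iqf tpr1633_c))) (BT.Fa_leaf (P := Itm.ok 206) (iqb tpr1633_c))) (BT.Fa_mk (BT.Fa_mk (BT.Fa_leaf (P := Itm.ok 206) (iqb tpr588_c)) (BT.Fa_leaf (P := Itm.ok 206) (iqf tpr32_c))) (BT.Fa_leaf (P := Itm.ok 206) (iqf tpr657_c)))) (BT.Fa_mk (BT.Fa_mk (BT.Fa_mk (BT.Fa_leaf (P := Itm.ok 206) (iqb tpr630_c)) (BT.Fa_leaf (P := Itm.ok 206) (iqf tpr579_c))) (BT.Fa_leaf (P :=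 Itm.ok 206) (iqb tpr579_c))) (BT.Fa_mk (BT.Fa_leaf (P := Itm.ok 206) (iqf tpr630_c)) (BT.Fa_leaf (P := Itm.ok 206) (iqf tpr75_c)))))) (BT.Fa_mk (BT.Fa_mk (BT.Fa_mk (BT.Fa_mk (BT.Fa_mk (BT.Fa_leaf (P := Itm.ok 206) (iqb tpr75_c)) (BT.Fa_leaf (P := Itm.ok 206) (iqf tpr1643_c))) (BT.Fa_leaf (P := Itm.ok 206) (iqf tpr695_c))) (BT.Fa_mk (BT.Fa_mk (BT.Fa_leaf (P := Itm.ok 206) (iqf tpr557_c)) (BT.Fa_leaf (P := Itm.ok 206) (iqb tpr1643_c))) (BT.Fa_leaf (P := Itm.ok 206) (iqb tpr968_c)))) (BT.Fa_mk (BT.Fa_mk (BT.Fa_mk (BT.Fa_leaf (P := Itm.ok 206) (iqf tpr968_c)) (BT.Fa_leaf (P := Itm.ok 206) (iqf tpr1682_c))) (BT.Fa_leaf (P := Itm.ok 206) (iqb tpr633_c))) (BT.Fa_mk (BT.Fa_leaf (P := Itm.ok 206) (iqb tpr587_c)) (BT.Fa_leaf (P := Itm.ok 206) (iqb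 tpr107_c))))) (BT.Fa_mk (BT.Fa_mk (BT.Fa_mk (BT.Fa_mk (BT.Fa_leaf (P := Itm.ok 206) (iqb tpr721_c)) (BT.Fa_leaf (P := Itm.ok 206) (iqb tpr626_c))) (BT.Fa_leaf (P := Itm.ok 206) (iqf tpr720_c))) (BT.Fa_mk (BT.Fa_mk (BT.Fa_leaf (P := Itm.ok 206) (iqf tpr736_c)) (BT.Fa_leaf (P := Itm.ok 206) (iqb tpr736_c))) (BT.Fa_leaf (P := Itm.ok 206) (iqf tpr1683_c)))) (BT.Fa_mk (BT.Fa_mk (BT.Fa_mk (BT.Fa_leaf (P := Itm.ok 206) (iqb tpr1683_c)) (BT.Fa_leaf (P := Itm.ok 206) (iqf tpr564_c))) (BT.Fa_leaf (P := Itm.ok 206) (iqf tpr1257_c))) (BT.Fa_mk (BT.Fa_leaf (P := Itm.ok 206) (iqf tpr1644_c)) (BT.Fa_leaf (P := Itm.ok 206) (iqb tpr664_c)))))))) (BT.Fa_mk (BT.Fa_mk (BT.Fa_mk (BT.Fa_mk (BT.Fa_mk (BT.Fa_mk (BT.Fa_mk (BT.Fa_leaf (P := Itm.ok 206) (iqb tpr1644_c))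 (BT.Fa_leaf (P := Itm.ok 206) (iqf tpr1635_c))) (BT.Fa_leaf (P := Itm.ok 206) (iqf tpr1193_c))) (BT.Fa_mk (BT.Fa_mk (BT.Fa_leaf (P := Itm.ok 206) (iqb tpr1684_c)) (BT.Fa_leaf (P := Itm.ok 206) (iqf tpr530_c))) (BT.Fa_leaf (P := Itm.ok 206) (iqf tpr1685_c)))) (BT.Fa_mk (BT.Fa_mk (BT.Fa_mk (BT.Fa_leaf (P := Itm.ok 206) (iqb tpr1685_c)) (BT.Fa_leaf (P := Itm.ok 206) (iqf tpr1190_c))) (BT.Fa_leaf (P := Itm.ok 206) (iqf tpr317_c))) (BT.Fa_mk (BT.Fa_leaf (P := Itm.ok 206) (iqb tpr103_c)) (BT.Fa_leaf (P := Itm.ok 206) (iqf tpr504_c))))) (BT.Fa_mk (BT.Fa_mk (BT.Fa_mk (BT.Fa_mk (BT.Fa_leaf (P := Itm.ok 206) (iqb tpr57_c)) (BT.Fa_leaf (P := Itm.ok 206) (iqf tpr78_c))) (BT.Fa_leaf (P := Itm.ok 206) (iqb tpr506_c))) (BT.Fa_mk (BT.Fa_mk (BT.Fa_leaf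 (P := Itm.ok 206) (iqb tpr198_c)) (BT.Fa_leaf (P := Itm.ok 206) (iqb tpr1681_c))) (BT.Fa_leaf (P := Itm.ok 206) (iqf tpr124_c)))) (BT.Fa_mk (BT.Fa_mk (BT.Fa_mk (BT.Fa_leaf (P := Itm.ok 206) (iqf tpr81_c)) (BT.Fa_leaf (P := Itm.ok 206) (iqf tpr526_c))) (BT.Fa_leaf (P := Itm.ok 206) (iqb tpr16_c))) (BT.Fa_mk (BT.Fa_leaf (P := Itm.ok 206) (iqf tpr87_c)) (BT.Fa_leaf (P := Itm.ok 206) (iqb tpr339_c)))))) (BT.Fa_mk (BT.Fa_mk (BT.Fa_mk (BT.Fa_mk (BT.Fa_mk (BT.Fa_leaf (P := Itm.ok 206) (iqf tpr216_c)) (BT.Fa_leaf (P := Itm.ok 206) (iqf tpr406_c))) (BT.Fa_leaf (P := Itm.ok 206) (iqb tpr782_c))) (BT.Fa_mk (BT.Fa_mk (BT.Fa_leaf (P := Itm.ok 206) (iqb tpr315_c)) (BT.Fa_leaf (P := Itm.ok 206) (iqb tpr1196_c))) (BT.Fa_leaf (P := Itm.ok 206) (iqf tpr328_c))))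 (BT.Fa_mk (BT.Fa_mk (BT.Fa_mk (BT.Fa_leaf (P := Itm.ok 206) (iqb tpr648_c)) (BT.Fa_leaf (P := Itm.ok 206) (iqb tpr695_c))) (BT.Fa_leaf (P := Itm.ok 206) (iqf tpr123_c))) (BT.Fa_mk (BT.Fa_leaf (P := Itm.ok 206) (iqf tpr122_c)) (BT.Fa_leaf (P := Itm.ok 206) (iqb tpr457_c))))) (BT.Fa_mk (BT.Fa_mk (BT.Fa_mk (BT.Fa_mk (BT.Fa_leaf (P := Itm.ok 206) (iqb tpr1686_c)) (BT.Fa_leaf (P := Itm.ok 206) (iqb tpr474_c))) (BT.Fa_leaf (P := Itm.ok 206) (iqb tpr1190_c))) (BT.Fa_mk (BT.Fa_mk (BT.Fa_leaf (P := Itm.ok 206) (iqb tpr516_c)) (BT.Fa_leaf (P := Itm.ok 206) (iqb tpr720_c))) (BT.Fa_leaf (P := Itm.ok 206) (iqb tpr82_c)))) (BT.Fa_mk (BT.Fa_mk (BT.Fa_mk (BT.Fa_leaf (P := Itm.ok 206) (iqb tpr393_c)) (BT.Fa_leaf (P := Itm.ok 206) (iqf tpr515_c))) (BT.Fa_leaf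 (P := Itm.ok 206) (iqf tpr513_c))) (BT.Fa_mk (BT.Fa_leaf (P := Itm.ok 206) (iqf tpr502_c)) (BT.Fa_leaf (P := Itm.ok 206) (iqf tpr203_c))))))) (BT.Fa_mk (BT.Fa_mk (BT.Fa_mk (BT.Fa_mk (BT.Fa_mk (BT.Fa_mk (BT.Fa_leaf (P := Itm.ok 206) (iqb tpr167_c)) (BT.Fa_leaf (P := Itm.ok 206) (iqf tpr517_c))) (BT.Fa_leaf (P := Itm.ok 206) (iqf tpr82_c))) (BT.Fa_mk (BT.Fa_mk (BT.Fa_leaf (P := Itm.ok 206) (iqf tpr545_c)) (BT.Fa_leaf (P := Itm.ok 206) (iqf tpr519_c))) (BT.Fa_leaf (P := Itm.ok 206) (iqb tpr532_c)))) (BT.Fa_mk (BT.Fa_mk (BT.Fa_mk (BT.Fa_leaf (P := Itm.ok 206) (iqf tpr46_c)) (BT.Fa_leaf (P := Itm.ok 206) (iqb tpr677_c))) (BT.Fa_leaf (P := Itm.ok 206) (iqb tpr632_c))) (BT.Fa_mk (BT.Fa_leaf (P := Itm.ok 206) (iqf tpr586_c)) (BT.Fa_leaf (P :=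 Itm.ok 206) (iqf tpr541_c))))) (BT.Fa_mk (BT.Fa_mk (BT.Fa_mk (BT.Fa_mk (BT.Fa_leaf (P := Itm.ok 206) (iqb tpr294_c)) (BT.Fa_leaf (P := Itm.ok 206) (iqb tpr682_c))) (BT.Fa_leaf (P := Itm.ok 206) (iqf tpr522_c))) (BT.Fa_mk (BT.Fa_mk (BT.Fa_leaf (P := Itm.ok 206) (iqb tpr9_c)) (BT.Fa_leaf (P := Itm.ok 206) (iqf tpr236_c))) (BT.Fa_leaf (P := Itm.ok 206) (iqf tpr167_c)))) (BT.Fa_mk (BT.Fa_mk (BT.Fa_mk (BT.Fa_leaf (P := Itm.ok 206) (iqb tpr505_c)) (BT.Fa_leaf (P := Itm.ok 206) (iqf tpr22_c))) (BT.Fa_leaf (P := Itm.ok 206) (iqf tpr516_c))) (BT.Fa_mk (BT.Fa_leaf (P := Itm.ok 206) (iqf tpr26_c)) (BT.Fa_leaf (P := Itm.ok 206) (iqf tpr546_c)))))) (BT.Fa_mk (BT.Fa_mk (BT.Fa_mk (BT.Fa_mk (BT.Fa_mk (BT.Fa_leaf (P := Itm.ok 206) (iqf tpr16_c)) (BT.Fa_leaf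 (P := Itm.ok 206) (iqf tpr536_c))) (BT.Fa_leaf (P := Itm.ok 206) (iqf tpr474_c))) (BT.Fa_mk (BT.Fa_mk (BT.Fa_leaf (P := Itm.ok 206) (iqf tpr339_c)) (BT.Fa_leaf (P := Itm.ok 206) (iqb tpr525_c))) (BT.Fa_leaf (P := Itm.ok 206) (iqf tpr57_c)))) (BT.Fa_mk (BT.Fa_mk (BT.Fa_mk (BT.Fa_leaf (P := Itm.ok 206) (iqb tpr124_c)) (BT.Fa_leaf (P := Itm.ok 206) (iqb tpr569_c))) (BT.Fa_leaf (P := Itm.ok 206) (iqb tpr544_c))) (BT.Fa_mk (BT.Fa_leaf (P := Itm.ok 206) (iqb tpr743_c)) (BT.Fa_leaf (P := Itm.ok 206) (iqf tpr9_c))))) (BT.Fa_mk (BT.Fa_mk (BT.Fa_mk (BT.Fa_mk (BT.Fa_leaf (P := Itm.ok 206) (iqb tpr81_c)) (BT.Fa_leaf (P := Itm.ok 206) (iqb tpr518_c))) (BT.Fa_leaf (P := Itm.ok 206) (iqf tpr609_c))) (BT.Fa_mk (BT.Fa_mk (BT.Fa_leaf (P := Itm.ok 206) (iqf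 tpr621_c)) (BT.Fa_leaf (P := Itm.ok 206) (iqb tpr295_c))) (BT.Fa_leaf (P := Itm.ok 206) (iqf tpr74_c)))) (BT.Fa_mk (BT.Fa_mk (BT.Fa_mk (BT.Fa_leaf (P := Itm.ok 206) (iqb tpr123_c)) (BT.Fa_leaf (P := Itm.ok 206) (iqb tpr406_c))) (BT.Fa_leaf (P := Itm.ok 206) (iqf tpr393_c))) (BT.Fa_mk (BT.Fa_leaf (P := Itm.ok 206) (iqf tpr198_c)) (BT.Fa_leaf (P := Itm.ok 206) (iqb tpr122_c))))))))) (BT.Fa_mk (BT.Fa_mk (BT.Fa_mk (BT.Fa_mk (BT.Fa_mk (BT.Fa_mk (BT.Fa_mk (BT.Fa_mk (BT.Fa_leaf (P := Itm.ok 206) (iqf tpr549_c)) (BT.Fa_leaf (P := Itm.ok 206) (iqb tpr517_c))) (BT.Fa_leaf (P := Itm.ok 206) (iqf tpr537_c))) (BT.Fa_mk (BT.Fa_mk (BT.Fa_leaf (P := Itm.ok 206) (iqf tpr33_c)) (BT.Fa_leaf (P := Itm.ok 206) (iqf tpr682_c))) (BT.Fa_leaf (P := Itm.ok 206)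 (iqf tpr585_c)))) (BT.Fa_mk (BT.Fa_mk (BT.Fa_mk (BT.Fa_leaf (P := Itm.ok 206) (iqf tpr151_c)) (BT.Fa_leaf (P := Itm.ok 206) (iqb tpr557_c))) (BT.Fa_leaf (P := Itm.ok 206) (iqf tpr626_c))) (BT.Fa_mk (BT.Fa_leaf (P := Itm.ok 206) (iqf tpr734_c)) (BT.Fa_leaf (P := Itm.ok 206) (iqf tpr726_c))))) (BT.Fa_mk (BT.Fa_mk (BT.Fa_mk (BT.Fa_mk (BT.Fa_leaf (P := Itm.ok 206) (iqb tpr533_c)) (BT.Fa_leaf (P := Itm.ok 206) (iqb tpr1257_c))) (BT.Fa_leaf (P := Itm.ok 206) (iqb tpr1653_c))) (BT.Fa_mk (BT.Fa_mk (BT.Fa_leaf (P := Itm.ok 206) (iqb tpr324_c)) (BT.Fa_leaf (P := Itm.ok 206) (iqf tpr506_c))) (BT.Fa_leaf (P := Itm.ok 206) (iqf tpr587_c)))) (BT.Fa_mk (BT.Fa_mk (BT.Fa_mk (BT.Fa_leaf (P := Itm.ok 206) (iqb tpr541_c)) (BT.Fa_leaf (P := Itm.ok 206) (iqf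 tpr54_c))) (BT.Fa_leaf (P := Itm.ok 206) (iqb tpr644_c))) (BT.Fa_mk (BT.Fa_leaf (P := Itm.ok 206) (iqb tpr51_c)) (BT.Fa_leaf (P := Itm.ok 206) (iqf tpr1684_c)))))) (BT.Fa_mk (BT.Fa_mk (BT.Fa_mk (BT.Fa_mk (BT.Fa_mk (BT.Fa_leaf (P := Itm.ok 206) (iqf tpr959_c)) (BT.Fa_leaf (P := Itm.ok 206) (iqf tpr632_c))) (BT.Fa_leaf (P := Itm.ok 206) (iqf tpr702_c))) (BT.Fa_mk (BT.Fa_mk (BT.Fa_leaf (P := Itm.ok 206) (iqf tpr633_c)) (BT.Fa_leaf (P := Itm.ok 206) (iqf tpr953_c))) (BT.Fa_leaf (P := Itm.ok 206) (iqf tpr572_c)))) (BT.Fa_mk (BT.Fa_mk (BT.Fa_mk (BT.Fa_leaf (P := Itm.ok 206) (iqf tpr906_c)) (BT.Fa_leaf (P := Itm.ok 206) (iqf tpr334_c))) (BT.Fa_leaf (P := Itm.ok 206) (iqf tpr1646_c))) (BT.Fa_mk (BT.Fa_leaf (P := Itm.ok 206) (iqb tpr17_c)) (BT.Fa_leaf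 (P := Itm.ok 206) (iqb tpr191_c))))) (BT.Fa_mk (BT.Fa_mk (BT.Fa_mk (BT.Fa_mk (BT.Fa_leaf (P := Itm.ok 206) (iqf tpr524_c)) (BT.Fa_leaf (P := Itm.ok 206) (iqf tpr503_c))) (BT.Fa_leaf (P := Itm.ok 206) (iqb tpr203_c))) (BT.Fa_mk (BT.Fa_mk (BT.Fa_leaf (P := Itm.ok 206) (iqb tpr657_c)) (BT.Fa_leaf (P := Itm.ok 206) (iqb tpr520_c))) (BT.Fa_leaf (P := Itm.ok 206) (iqb tpr559_c)))) (BT.Fa_mk (BT.Fa_mk (BT.Fa_mk (BT.Fa_leaf (P := Itm.ok 206) (iqf tpr23_c)) (BT.Fa_leaf (P := Itm.ok 206) (iqf tpr972_c))) (BT.Fa_leaf (P := Itm.ok 206) (iqf tpr556_c))) (BT.Fa_mk (BT.Fa_leaf (P := Itm.ok 206) (iqf tpr466_c)) (BT.Fa_leaf (P := Itm.ok 206) (iqf tpr697_c))))))) (BT.Fa_mk (BT.Fa_mk (BT.Fa_mk (BT.Fa_mk (BT.Fa_mk (BT.Fa_mk (BT.Fa_leaf (P := Itm.ok 206) (iqf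 tpr588_c)) (BT.Fa_leaf (P := Itm.ok 206) (iqf tpr565_c))) (BT.Fa_leaf (P := Itm.ok 206) (iqb tpr23_c))) (BT.Fa_mk (BT.Fa_mk (BT.Fa_leaf (P := Itm.ok 206) (iqb tpr466_c)) (BT.Fa_leaf (P := Itm.ok 206) (iqf tpr520_c))) (BT.Fa_leaf (P := Itm.ok 206) (iqb tpr959_c)))) (BT.Fa_mk (BT.Fa_mk (BT.Fa_mk (BT.Fa_leaf (P := Itm.ok 206) (iqb tpr697_c)) (BT.Fa_leaf (P := Itm.ok 206) (iqf tpr542_c))) (BT.Fa_leaf (P := Itm.ok 206) (iqb tpr523_c))) (BT.Fa_mk (BT.Fa_leaf (P := Itm.ok 206) (iqb tpr519_c)) (BT.Fa_leaf (P := Itm.ok 206) (iqf tpr575_c))))) (BT.Fa_mk (BT.Fa_mk (BT.Fa_mk (BT.Fa_mk (BT.Fa_leaf (P := Itm.ok 206) (iqb tpr542_c)) (BT.Fa_leaf (P := Itm.ok 206) (iqb tpr1193_c))) (BT.Fa_leaf (P := Itm.ok 206) (iqf tpr521_c))) (BT.Fa_mk (BT.Fa_mk (BT.Fa_leaf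 (P := Itm.ok 206) (iqf tpr523_c)) (BT.Fa_leaf (P := Itm.ok 206) (iqf tpr571_c))) (BT.Fa_leaf (P := Itm.ok 206) (iqf tpr44_c)))) (BT.Fa_mk (BT.Fa_mk (BT.Fa_mk (BT.Fa_leaf (P := Itm.ok 206) (iqf tpr562_c)) (BT.Fa_leaf (P := Itm.ok 206) (iqf tpr294_c))) (BT.Fa_leaf (P := Itm.ok 206) (iqf tpr576_c))) (BT.Fa_mk (BT.Fa_leaf (P := Itm.ok 206) (iqf tpr622_c)) (BT.Fa_leaf (P := Itm.ok 206) (iqf tpr1144_c)))))) (BT.Fa_mk (BT.Fa_mk (BT.Fa_mk (BT.Fa_mk (BT.Fa_mk (BT.Fa_leaf (P := Itm.ok 206) (iqb tpr623_c)) (BT.Fa_leaf (P := Itm.ok 206) (iqb tpr598_c))) (BT.Fa_leaf (P := Itm.ok 206) (iqf tpr664_c))) (BT.Fa_mk (BT.Fa_mk (BT.Fa_leaf (P := Itm.ok 206) (iqf tpr721_c)) (BT.Fa_leaf (P := Itm.ok 206) (iqb tpr609_c))) (BT.Fa_leaf (P := Itm.ok 206) (iqf tpr725_c))))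 (BT.Fa_mk (BT.Fa_mk (BT.Fa_mk (BT.Fa_leaf (P := Itm.ok 206) (iqb tpr565_c)) (BT.Fa_leaf (P := Itm.ok 206) (iqf tpr532_c))) (BT.Fa_leaf (P := Itm.ok 206) (iqb tpr591_c))) (BT.Fa_mk (BT.Fa_leaf (P := Itm.ok 206) (iqb tpr571_c)) (BT.Fa_leaf (P := Itm.ok 206) (iqb tpr622_c))))) (BT.Fa_mk (BT.Fa_mk (BT.Fa_mk (BT.Fa_mk (BT.Fa_leaf (P := Itm.ok 206) (iqf tpr533_c)) (BT.Fa_leaf (P := Itm.ok 206) (iqb tpr599_c))) (BT.Fa_leaf (P := Itm.ok 206) (iqb tpr1144_c))) (BT.Fa_mk (BT.Fa_mk (BT.Fa_leaf (P := Itm.ok 206) (iqb tpr1687_c)) (BT.Fa_leaf (P := Itm.ok 206) (iqb tpr562_c))) (BT.Fa_leaf (P := Itm.ok 206) (iqb tpr4_c)))) (BT.Fa_mk (BT.Fa_mk (BT.Fa_mk (BT.Fa_leaf (P := Itm.ok 206) (iqb tpr1688_c)) (BT.Fa_leaf (P := Itm.ok 206) (iqb tpr11_c))) (BT.Fa_leaf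 (P := Itm.ok 206) (iqf tpr623_c))) (BT.Fa_mk (BT.Fa_leaf (P := Itm.ok 206) (iqf tpr602_c)) (BT.Fa_leaf (P := Itm.ok 206) (iqb tpr672_c)))))))) (BT.Fa_mk (BT.Fa_mk (BT.Fa_mk (BT.Fa_mk (BT.Fa_mk (BT.Fa_mk (BT.Fa_mk (BT.Fa_leaf (P := Itm.ok 206) (iqf tpr1636_c)) (BT.Fa_leaf (P := Itm.ok 206) (iqb tpr1637_c))) (BT.Fa_leaf (P := Itm.ok 206) (iqf tpr1687_c))) (BT.Fa_mk (BT.Fa_mk (BT.Fa_leaf (P := Itm.ok 206) (iqf tpr1688_c)) (BT.Fa_leaf (P := Itm.ok 206) (iqb tpr1635_c))) (BT.Fa_leaf (P := Itm.ok 206) (iqf tpr11_c)))) (BT.Fa_mk (BT.Fa_mk (BT.Fa_mk (BT.Fa_leaf (P := Itm.ok 206) (iqf tpr583_c)) (BT.Fa_leaf (P := Itm.ok 206) (iqf tpr518_c))) (BT.Fa_leaf (P := Itm.ok 206) (iqb tpr581_c))) (BT.Fa_mk (BT.Fa_leaf (P := Itm.ok 206) (iqf tpr191_c)) (BT.Fa_leaf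 (P := Itm.ok 206) (iqf tpr324_c))))) (BT.Fa_mk (BT.Fa_mk (BT.Fa_mk (BT.Fa_mk (BT.Fa_leaf (P := Itm.ok 206) (iqf tpr581_c)) (BT.Fa_leaf (P := Itm.ok 206) (iqb tpr564_c))) (BT.Fa_leaf (P := Itm.ok 206) (iqb tpr725_c))) (BT.Fa_mk (BT.Fa_mk (BT.Fa_leaf (P := Itm.ok 206) (iqf tpr591_c)) (BT.Fa_leaf (P := Itm.ok 206) (iqb tpr602_c))) (BT.Fa_leaf (P := Itm.ok 206) (iqb tpr1547_c)))) (BT.Fa_mk (BT.Fa_mk (BT.Fa_mk (BT.Fa_leaf (P := Itm.ok 206) (iqb tpr545_c)) (BT.Fa_leaf (P := Itm.ok 206) (iqf tpr514_c))) (BT.Fa_leaf (P := Itm.ok 206) (iqf tpr1547_c))) (BT.Fa_mk (BT.Fa_leaf (P := Itm.ok 206) (iqb tpr583_c)) (BT.Fa_leaf (P := Itm.ok 206) (iqb tpr509_c)))))) (BT.Fa_mk (BT.Fa_mk (BT.Fa_mk (BT.Fa_mk (BT.Fa_mk (BT.Fa_leaf (P := Itm.ok 206) (iqb tpr522_c))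 (BT.Fa_leaf (P := Itm.ok 206) (iqb tpr1682_c))) (BT.Fa_leaf (P := Itm.ok 206) (iqf tpr559_c))) (BT.Fa_mk (BT.Fa_mk (BT.Fa_leaf (P := Itm.ok 206) (iqf tpr543_c)) (BT.Fa_leaf (P := Itm.ok 206) (iqf tpr1689_c))) (BT.Fa_leaf (P := Itm.ok 206) (iqb tpr1689_c)))) (BT.Fa_mk (BT.Fa_mk (BT.Fa_mk (BT.Fa_leaf (P := Itm.ok 206) (iqf tpr1048_c)) (BT.Fa_leaf (P := Itm.ok 206) (iqf tpr1262_c))) (BT.Fa_leaf (P := Itm.ok 206) (iqb tpr1262_c))) (BT.Fa_mk (BT.Fa_leaf (P := Itm.ok 206) (iqb tpr1048_c)) (BT.Fa_leaf (P := Itm.ok 206) (iqf tpr1690_c))))) (BT.Fa_mk (BT.Fa_mk (BT.Fa_mk (BT.Fa_mk (BT.Fa_leaf (P := Itm.ok 206) (iqb tpr702_c)) (BT.Fa_leaf (P := Itm.ok 206) (iqb tpr524_c))) (BT.Fa_leaf (P := Itm.ok 206) (iqb tpr595_c))) (BT.Fa_mk (BT.Fa_mk (BT.Fa_leaf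 (P := Itm.ok 206) (iqb tpr576_c)) (BT.Fa_leaf (P := Itm.ok 206) (iqb tpr1691_c))) (BT.Fa_leaf (P := Itm.ok 206) (iqf tpr1692_c)))) (BT.Fa_mk (BT.Fa_mk (BT.Fa_mk (BT.Fa_leaf (P := Itm.ok 206) (iqb tpr906_c)) (BT.Fa_leaf (P := Itm.ok 206) (iqf tpr582_c))) (BT.Fa_leaf (P := Itm.ok 206) (iqb tpr555_c))) (BT.Fa_mk (BT.Fa_leaf (P := Itm.ok 206) (iqb tpr572_c)) (BT.Fa_leaf (P := Itm.ok 206) (iqb tpr1646_c))))))) (BT.Fa_mk (BT.Fa_mk (BT.Fa_mk (BT.Fa_mk (BT.Fa_mk (BT.Fa_mk (BT.Fa_leaf (P := Itm.ok 206) (iqf tpr672_c)) (BT.Fa_leaf (P := Itm.ok 206) (iqf tpr1693_c))) (BT.Fa_leaf (P := Itm.ok 206) (iqf tpr1694_c))) (BT.Fa_mk (BT.Fa_mk (BT.Fa_leaf (P := Itm.ok 206) (iqb tpr1693_c)) (BT.Fa_leaf (P := Itm.ok 206) (iqb tpr1695_c))) (BT.Fa_leaf (P := Itm.ok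 206) (iqb tpr1694_c)))) (BT.Fa_mk (BT.Fa_mk (BT.Fa_mk (BT.Fa_leaf (P := Itm.ok 206) (iqf tpr757_c)) (BT.Fa_leaf (P := Itm.ok 206) (iqb tpr74_c))) (BT.Fa_leaf (P := Itm.ok 206) (iqb tpr33_c))) (BT.Fa_mk (BT.Fa_leaf (P := Itm.ok 206) (iqf tpr1653_c)) (BT.Fa_leaf (P := Itm.ok 206) (iqf tpr569_c))))) (BT.Fa_mk (BT.Fa_mk (BT.Fa_mk (BT.Fa_mk (BT.Fa_leaf (P := Itm.ok 206) (iqb tpr621_c)) (BT.Fa_leaf (P := Itm.ok 206) (iqb tpr334_c))) (BT.Fa_leaf (P := Itm.ok 206) (iqb tpr1696_c))) (BT.Fa_mk (BT.Fa_mk (BT.Fa_leaf (P := Itm.ok 206) (iqb tpr1692_c)) (BT.Fa_leaf (P := Itm.ok 206) (iqb tpr1636_c))) (BT.Fa_leaf (P := Itm.ok 206) (iqf tpr1637_c)))) (BT.Fa_mk (BT.Fa_mk (BT.Fa_mk (BT.Fa_leaf (P := Itm.ok 206) (iqb tpr1697_c)) (BT.Fa_leaf (P := Itm.ok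 206) (iqb tpr1698_c))) (BT.Fa_leaf (P := Itm.ok 206) (iqf tpr1699_c))) (BT.Fa_mk (BT.Fa_leaf (P := Itm.ok 206) (iqf tpr1700_c)) (BT.Fa_leaf (P := Itm.ok 206) (iqb tpr1701_c)))))) (BT.Fa_mk (BT.Fa_mk (BT.Fa_mk (BT.Fa_mk (BT.Fa_mk (BT.Fa_leaf (P := Itm.ok 206) (iqf tpr1701_c)) (BT.Fa_leaf (P := Itm.ok 206) (iqb tpr1700_c))) (BT.Fa_leaf (P := Itm.ok 206) (iqf tpr1702_c))) (BT.Fa_mk (BT.Fa_mk (BT.Fa_leaf (P := Itm.ok 206) (iqf tpr599_c)) (BT.Fa_leaf (P := Itm.ok 206) (iqb tpr293_c))) (BT.Fa_leaf (P := Itm.ok 206) (iqb tpr344_c)))) (BT.Fa_mk (BT.Fa_mk (BT.Fa_mk (BT.Fa_leaf (P := Itm.ok 206) (iqb tpr1703_c)) (BT.Fa_leaf (P := Itm.ok 206) (iqf tpr295_c))) (BT.Fa_leaf (P := Itm.ok 206) (iqf tpr107_c))) (BT.Fa_mk (BT.Fa_leaf (P := Itm.ok 206) (iqb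 tpr586_c)) (BT.Fa_leaf (P := Itm.ok 206) (iqb tpr265_c))))) (BT.Fa_mk (BT.Fa_mk (BT.Fa_mk (BT.Fa_mk (BT.Fa_leaf (P := Itm.ok 206) (iqb tpr32_c)) (BT.Fa_leaf (P := Itm.ok 206) (iqb tpr972_c))) (BT.Fa_leaf (P := Itm.ok 206) (iqf tpr1704_c))) (BT.Fa_mk (BT.Fa_leaf (P := Itm.ok 206) (iqf tpr194_c)) (BT.Fa_leaf (P := Itm.ok 206) (iqf tpr743_c)))) (BT.Fa_mk (BT.Fa_mk (BT.Fa_mk (BT.Fa_leaf (P := Itm.ok 206) (iqf tpr292_c)) (BT.Fa_leaf (P := Itm.ok 206) (iqb tpr247_c))) (BT.Fa_leaf (P := Itm.ok 206) (iqb tpr726_c))) (BT.Fa_mk (BT.Fa_leaf (P := Itm.ok 206) (iqf tpr1705_c)) (BT.Fa_leaf (P := Itm.ok 206) (iqb tpr536_c))))))))))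

/-- all words of the class have labels -/
theorem pokNFzE2A3H2AzIzA2H3A2EzF : POK 206 xNFzE2A3H2AzIzA2H3A2EzF :=
  y_pok (C0 := ceNFzE2A3H2AzIzA2H3A2EzF) (C1 := coNFzE2A3H2AzIzA2H3A2EzF) topNFzE2A3H2AzIzA2H3A2EzF nbNFzE2A3H2AzIzA2H3A2EzF (BT.Fa_of_all iiNFzE2A3H2AzIzA2H3A2EzF_c)
    (BT.Fa_mk (BT.Fa_mk (BT.Fa_mk (cyE_spec zeNFzE2A3H2AzIzA2H3A2EzF_0) (cyE_spec zeNFzE2A3H2AzIzA2H3A2EzF_1)) (BT.Fa_mk (cyE_spec zeNFzE2A3H2AzIzA2H3A2EzF_2) (BT.Fa_mk (cyE_spec zeNFzE2A3H2AzIzA2H3A2EzF_3) (BT.Fa_mk (cyE_spec zeNFzE2A3H2AzIzA2H3A2EzF_4) (cyE_spec zeNFzE2A3H2AzIzA2H3A2EzF_5))))) (BT.Fa_mk (BT.Fa_mk (BT.Fa_mk (BT.Fa_mk (cyE_spec zeNFzE2A3H2AzIzA2H3A2EzF_6) (cyE_spec zeNFzE2A3H2AzIzA2H3A2EzF_7)) (BT.Fa_mk (cyE_spec zeNFzE2A3H2AzIzA2H3A2EzF_8) (cyE_spec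 zeNFzE2A3H2AzIzA2H3A2EzF_9))) (BT.Fa_mk (BT.Fa_mk (cyE_spec zeNFzE2A3H2AzIzA2H3A2EzF_10) (cyE_spec zeNFzE2A3H2AzIzA2H3A2EzF_11)) (cyE_spec zeNFzE2A3H2AzIzA2H3A2EzF_12))) (BT.Fa_mk (BT.Fa_mk (cyE_spec zeNFzE2A3H2AzIzA2H3A2EzF_13) (BT.Fa_mk (cyE_spec zeNFzE2A3H2AzIzA2H3A2EzF_14) (cyE_spec zeNFzE2A3H2AzIzA2H3A2EzF_15))) (BT.Fa_mk (cyE_spec zeNFzE2A3H2AzIzA2H3A2EzF_16) (cyE_spec zeNFzE2A3H2AzIzA2H3A2EzF_17)))))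
    (BT.Fa_mk (BT.Fa_mk (BT.Fa_mk (cyO_spec zoNFzE2A3H2AzIzA2H3A2EzF_0) (cyO_spec zoNFzE2A3H2AzIzA2H3A2EzF_1)) (BT.Fa_mk (cyO_spec zoNFzE2A3H2AzIzA2H3A2EzF_2) (BT.Fa_mk (cyO_spec zoNFzE2A3H2AzIzA2H3A2EzF_3) (BT.Fa_mk (cyO_spec zoNFzE2A3H2AzIzA2H3A2EzF_4) (cyO_spec zoNFzE2A3H2AzIzA2H3A2EzF_5))))) (BT.Fa_mk (BT.Fa_mk (BT.Fa_mk (BT.Fa_mk (cyO_spec zoNFzE2A3H2AzIzA2H3A2EzF_6) (cyO_spec zoNFzE2A3H2AzIzA2H3A2EzF_7)) (BT.Fa_mk (cyO_spec zoNFzE2A3H2AzIzA2H3A2EzF_8) (BT.Fa_mk (cyO_spec zoNFzE2A3H2AzIzA2H3A2EzF_9) (cyO_spec zoNFzE2A3H2AzIzA2H3A2EzF_10)))) (BT.Fa_mk (BT.Fa_mk (BT.Fa_mk (cyO_spec zoNFzE2A3H2AzIzA2H3A2EzF_11) (cyO_spec zoNFzE2A3H2AzIzA2H3A2EzF_12)) (BT.Fa_mk (cyO_spec zoNFzE2A3H2AzIzA2H3A2EzF_13) (cyO_spec zoNFzE2A3H2AzIzA2H3A2EzF_14)))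 (BT.Fa_mk (cyO_spec zoNFzE2A3H2AzIzA2H3A2EzF_15) (cyO_spec zoNFzE2A3H2AzIzA2H3A2EzF_16)))) (BT.Fa_mk (BT.Fa_mk (BT.Fa_mk (cyO_spec zoNFzE2A3H2AzIzA2H3A2EzF_17) (cyO_spec zoNFzE2A3H2AzIzA2H3A2EzF_18)) (cyO_spec zoNFzE2A3H2AzIzA2H3A2EzF_19)) (BT.Fa_mk (cyO_spec zoNFzE2A3H2AzIzA2H3A2EzF_20) (cyO_spec zoNFzE2A3H2AzIzA2H3A2EzF_21)))))
    iiNFzE2A3H2AzIzA2H3A2EzF_k

theorem iiNFzE2A3H2AzIzAyB2H3AyB2EzF_k : iiNFzE2A3H2AzIzAyB2H3AyB2EzF.Fa (Itm.ok 206) := (BT.Fa_mk (BT.Fa_mk (BT.Fa_mk (BT.Fa_mk (BT.Fa_mk (BT.Fa_mk (BT.Fa_mk (BT.Fa_mk (BT.Fa_mk (BT.Fa_leaf (P := Itm.ok 206) (iqb tpr168_c)) (BT.Fa_leaf (P := Itm.ok 206) (iqb tpr500_c))) (BT.Fa_leaf (P := Itm.ok 206) (iqf tpr500_c))) (BT.Fa_mk (BT.Fa_leaf (P := Itm.ok 206) (iqf tpr4_c)) (BT.Fa_leaf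 (P := Itm.ok 206) (iqb tpr982_c)))) (BT.Fa_mk (BT.Fa_mk (BT.Fa_mk (BT.Fa_leaf (P := Itm.ok 206) (iqb tpr57_c)) (BT.Fa_leaf (P := Itm.ok 206) (iqb tpr608_c))) (BT.Fa_leaf (P := Itm.ok 206) (iqf tpr90_c))) (BT.Fa_mk (BT.Fa_leaf (P := Itm.ok 206) (iqb tpr5_c)) (BT.Fa_leaf (P := Itm.ok 206) (iqb tpr103_c))))) (BT.Fa_mk (BT.Fa_mk (BT.Fa_mk (BT.Fa_mk (BT.Fa_leaf (P := Itm.ok 206) (iqf tpr504_c)) (BT.Fa_leaf (P := Itm.ok 206) (iqb tpr89_c))) (BT.Fa_leaf (P := Itm.ok 206) (iqb tpr8_c))) (BT.Fa_mk (BT.Fa_leaf (P := Itm.ok 206) (iqf tpr640_c)) (BT.Fa_leaf (P := Itm.ok 206) (iqb tpr609_c)))) (BT.Fa_mk (BT.Fa_mk (BT.Fa_leaf (P := Itm.ok 206) (iqb tpr74_c)) (BT.Fa_leaf (P := Itm.ok 206) (iqf tpr585_c))) (BT.Fa_mk (BT.Fa_leaf (P := Itm.ok 206) (iqb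 tpr619_c)) (BT.Fa_leaf (P := Itm.ok 206) (iqb tpr616_c)))))) (BT.Fa_mk (BT.Fa_mk (BT.Fa_mk (BT.Fa_mk (BT.Fa_mk (BT.Fa_leaf (P := Itm.ok 206) (iqf tpr606_c)) (BT.Fa_leaf (P := Itm.ok 206) (iqf tpr978_c))) (BT.Fa_leaf (P := Itm.ok 206) (iqf tpr510_c))) (BT.Fa_mk (BT.Fa_leaf (P := Itm.ok 206) (iqf tpr506_c)) (BT.Fa_leaf (P := Itm.ok 206) (iqb tpr567_c)))) (BT.Fa_mk (BT.Fa_mk (BT.Fa_leaf (P := Itm.ok 206) (iqf tpr680_c)) (BT.Fa_leaf (P := Itm.ok 206) (iqb tpr457_c))) (BT.Fa_mk (BT.Fa_leaf (P := Itm.ok 206) (iqf tpr575_c)) (BT.Fa_leaf (P := Itm.ok 206) (iqf tpr564_c))))) (BT.Fa_mk (BT.Fa_mk (BT.Fa_mk (BT.Fa_mk (BT.Fa_leaf (P := Itm.ok 206) (iqf tpr1065_c)) (BT.Fa_leaf (P := Itm.ok 206) (iqf tpr1182_c))) (BT.Fa_leaf (P := Itm.ok 206) (iqb tpr550_c)))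 (BT.Fa_mk (BT.Fa_leaf (P := Itm.ok 206) (iqb tpr344_c)) (BT.Fa_leaf (P := Itm.ok 206) (iqf tpr582_c)))) (BT.Fa_mk (BT.Fa_mk (BT.Fa_leaf (P := Itm.ok 206) (iqb tpr466_c)) (BT.Fa_leaf (P := Itm.ok 206) (iqf tpr630_c))) (BT.Fa_mk (BT.Fa_leaf (P := Itm.ok 206) (iqf tpr610_c)) (BT.Fa_leaf (P := Itm.ok 206) (iqf tpr1253_c))))))) (BT.Fa_mk (BT.Fa_mk (BT.Fa_mk (BT.Fa_mk (BT.Fa_mk (BT.Fa_mk (BT.Fa_leaf (P := Itm.ok 206) (iqb tpr692_c)) (BT.Fa_leaf (P := Itm.ok 206) (iqf tpr461_c))) (BT.Fa_leaf (P := Itm.ok 206) (iqb tpr658_c))) (BT.Fa_mk (BT.Fa_leaf (P := Itm.ok 206) (iqb tpr664_c)) (BT.Fa_leaf (P := Itm.ok 206) (iqf tpr581_c)))) (BT.Fa_mk (BT.Fa_mk (BT.Fa_leaf (P := Itm.ok 206) (iqf tpr667_c)) (BT.Fa_leaf (P := Itm.ok 206) (iqb tpr419_c))) (BT.Fa_mk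 (BT.Fa_leaf (P := Itm.ok 206) (iqb tpr48_c)) (BT.Fa_leaf (P := Itm.ok 206) (iqf tpr505_c))))) (BT.Fa_mk (BT.Fa_mk (BT.Fa_mk (BT.Fa_mk (BT.Fa_leaf (P := Itm.ok 206) (iqb tpr1457_c)) (BT.Fa_leaf (P := Itm.ok 206) (iqb tpr572_c))) (BT.Fa_leaf (P := Itm.ok 206) (iqf tpr54_c))) (BT.Fa_mk (BT.Fa_leaf (P := Itm.ok 206) (iqf tpr107_c)) (BT.Fa_leaf (P := Itm.ok 206) (iqb tpr10_c)))) (BT.Fa_mk (BT.Fa_mk (BT.Fa_leaf (P := Itm.ok 206) (iqb tpr605_c)) (BT.Fa_leaf (P := Itm.ok 206) (iqb tpr2940_c))) (BT.Fa_mk (BT.Fa_leaf (P := Itm.ok 206) (iqb tpr640_c)) (BT.Fa_leaf (P := Itm.ok 206) (iqf tpr605_c)))))) (BT.Fa_mk (BT.Fa_mk (BT.Fa_mk (BT.Fa_mk (BT.Fa_mk (BT.Fa_leaf (P := Itm.ok 206) (iqb tpr334_c)) (BT.Fa_leaf (P := Itm.ok 206) (iqb tpr18_c))) (BT.Fa_leaf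 (P := Itm.ok 206) (iqb tpr568_c))) (BT.Fa_mk (BT.Fa_leaf (P := Itm.ok 206) (iqf tpr557_c)) (BT.Fa_leaf (P := Itm.ok 206) (iqf tpr675_c)))) (BT.Fa_mk (BT.Fa_mk (BT.Fa_leaf (P := Itm.ok 206) (iqf tpr644_c)) (BT.Fa_leaf (P := Itm.ok 206) (iqf tpr122_c))) (BT.Fa_mk (BT.Fa_leaf (P := Itm.ok 206) (iqb tpr1144_c)) (BT.Fa_leaf (P := Itm.ok 206) (iqb tpr637_c))))) (BT.Fa_mk (BT.Fa_mk (BT.Fa_mk (BT.Fa_mk (BT.Fa_leaf (P := Itm.ok 206) (iqb tpr721_c)) (BT.Fa_leaf (P := Itm.ok 206) (iqf tpr1259_c))) (BT.Fa_leaf (P := Itm.ok 206) (iqb tpr618_c))) (BT.Fa_mk (BT.Fa_leaf (P := Itm.ok 206) (iqf tpr51_c)) (BT.Fa_leaf (P := Itm.ok 206) (iqb tpr642_c)))) (BT.Fa_mk (BT.Fa_mk (BT.Fa_leaf (P := Itm.ok 206) (iqf tpr216_c)) (BT.Fa_leaf (P := Itm.ok 206) (iqb tpr210_c)))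 (BT.Fa_mk (BT.Fa_leaf (P := Itm.ok 206) (iqf tpr645_c)) (BT.Fa_leaf (P := Itm.ok 206) (iqf tpr458_c)))))))) (BT.Fa_mk (BT.Fa_mk (BT.Fa_mk (BT.Fa_mk (BT.Fa_mk (BT.Fa_mk (BT.Fa_mk (BT.Fa_leaf (P := Itm.ok 206) (iqf tpr78_c)) (BT.Fa_leaf (P := Itm.ok 206) (iqb tpr239_c))) (BT.Fa_leaf (P := Itm.ok 206) (iqb tpr516_c))) (BT.Fa_mk (BT.Fa_leaf (P := Itm.ok 206) (iqb tpr24_c)) (BT.Fa_leaf (P := Itm.ok 206) (iqb tpr537_c)))) (BT.Fa_mk (BT.Fa_mk (BT.Fa_mk (BT.Fa_leaf (P := Itm.ok 206) (iqb tpr587_c)) (BT.Fa_leaf (P := Itm.ok 206) (iqb tpr641_c))) (BT.Fa_leaf (P := Itm.ok 206) (iqb tpr26_c))) (BT.Fa_mk (BT.Fa_leaf (P := Itm.ok 206) (iqf tpr406_c)) (BT.Fa_leaf (P := Itm.ok 206) (iqb tpr704_c))))) (BT.Fa_mk (BT.Fa_mk (BT.Fa_mk (BT.Fa_mk (BT.Fa_leaf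 (P := Itm.ok 206) (iqb tpr648_c)) (BT.Fa_leaf (P := Itm.ok 206) (iqf tpr81_c))) (BT.Fa_leaf (P := Itm.ok 206) (iqb tpr625_c))) (BT.Fa_mk (BT.Fa_leaf (P := Itm.ok 206) (iqb tpr474_c)) (BT.Fa_leaf (P := Itm.ok 206) (iqf tpr124_c)))) (BT.Fa_mk (BT.Fa_mk (BT.Fa_leaf (P := Itm.ok 206) (iqb tpr1800_c)) (BT.Fa_leaf (P := Itm.ok 206) (iqf tpr566_c))) (BT.Fa_mk (BT.Fa_leaf (P := Itm.ok 206) (iqb tpr968_c)) (BT.Fa_leaf (P := Itm.ok 206) (iqf tpr87_c)))))) (BT.Fa_mk (BT.Fa_mk (BT.Fa_mk (BT.Fa_mk (BT.Fa_mk (BT.Fa_leaf (P := Itm.ok 206) (iqb tpr75_c)) (BT.Fa_leaf (P := Itm.ok 206) (iqb tpr82_c))) (BT.Fa_leaf (P := Itm.ok 206) (iqb tpr621_c))) (BT.Fa_mk (BT.Fa_leaf (P := Itm.ok 206) (iqb tpr549_c)) (BT.Fa_leaf (P := Itm.ok 206) (iqb tpr695_c)))) (BT.Fa_mk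 (BT.Fa_mk (BT.Fa_leaf (P := Itm.ok 206) (iqb tpr245_c)) (BT.Fa_leaf (P := Itm.ok 206) (iqb tpr499_c))) (BT.Fa_mk (BT.Fa_leaf (P := Itm.ok 206) (iqb tpr702_c)) (BT.Fa_leaf (P := Itm.ok 206) (iqb tpr632_c))))) (BT.Fa_mk (BT.Fa_mk (BT.Fa_mk (BT.Fa_mk (BT.Fa_leaf (P := Itm.ok 206) (iqb tpr1735_c)) (BT.Fa_leaf (P := Itm.ok 206) (iqf tpr511_c))) (BT.Fa_leaf (P := Itm.ok 206) (iqf tpr82_c))) (BT.Fa_mk (BT.Fa_leaf (P := Itm.ok 206) (iqf tpr545_c)) (BT.Fa_leaf (P := Itm.ok 206) (iqb tpr1246_c)))) (BT.Fa_mk (BT.Fa_mk (BT.Fa_leaf (P := Itm.ok 206) (iqf tpr509_c)) (BT.Fa_leaf (P := Itm.ok 206) (iqf tpr568_c))) (BT.Fa_mk (BT.Fa_leaf (P := Itm.ok 206) (iqf tpr507_c)) (BT.Fa_leaf (P := Itm.ok 206) (iqf tpr607_c))))))) (BT.Fa_mk (BT.Fa_mk (BT.Fa_mk (BT.Fa_mk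 (BT.Fa_mk (BT.Fa_mk (BT.Fa_leaf (P := Itm.ok 206) (iqf tpr629_c)) (BT.Fa_leaf (P := Itm.ok 206) (iqb tpr576_c))) (BT.Fa_leaf (P := Itm.ok 206) (iqb tpr294_c))) (BT.Fa_mk (BT.Fa_leaf (P := Itm.ok 206) (iqf tpr203_c)) (BT.Fa_leaf (P := Itm.ok 206) (iqb tpr680_c)))) (BT.Fa_mk (BT.Fa_mk (BT.Fa_leaf (P := Itm.ok 206) (iqb tpr203_c)) (BT.Fa_leaf (P := Itm.ok 206) (iqf tpr222_c))) (BT.Fa_mk (BT.Fa_leaf (P := Itm.ok 206) (iqf tpr617_c)) (BT.Fa_leaf (P := Itm.ok 206) (iqf tpr517_c))))) (BT.Fa_mk (BT.Fa_mk (BT.Fa_mk (BT.Fa_mk (BT.Fa_leaf (P := Itm.ok 206) (iqf tpr683_c)) (BT.Fa_leaf (P := Itm.ok 206) (iqb tpr91_c))) (BT.Fa_leaf (P := Itm.ok 206) (iqf tpr614_c))) (BT.Fa_mk (BT.Fa_leaf (P := Itm.ok 206) (iqf tpr596_c)) (BT.Fa_leaf (P := Itm.ok 206)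 (iqf tpr624_c)))) (BT.Fa_mk (BT.Fa_mk (BT.Fa_leaf (P := Itm.ok 206) (iqf tpr701_c)) (BT.Fa_leaf (P := Itm.ok 206) (iqf tpr519_c))) (BT.Fa_mk (BT.Fa_leaf (P := Itm.ok 206) (iqb tpr393_c)) (BT.Fa_leaf (P := Itm.ok 206) (iqb tpr720_c)))))) (BT.Fa_mk (BT.Fa_mk (BT.Fa_mk (BT.Fa_mk (BT.Fa_mk (BT.Fa_leaf (P := Itm.ok 206) (iqf tpr768_c)) (BT.Fa_leaf (P := Itm.ok 206) (iqf tpr589_c))) (BT.Fa_leaf (P := Itm.ok 206) (iqb tpr9_c))) (BT.Fa_mk (BT.Fa_leaf (P := Itm.ok 206) (iqb tpr780_c)) (BT.Fa_leaf (P := Itm.ok 206) (iqf tpr72_c)))) (BT.Fa_mk (BT.Fa_mk (BT.Fa_leaf (P := Itm.ok 206) (iqb tpr656_c)) (BT.Fa_leaf (P := Itm.ok 206) (iqb tpr628_c))) (BT.Fa_mk (BT.Fa_leaf (P := Itm.ok 206) (iqb tpr505_c)) (BT.Fa_leaf (P := Itm.ok 206) (iqb tpr16_c)))))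 (BT.Fa_mk (BT.Fa_mk (BT.Fa_mk (BT.Fa_mk (BT.Fa_leaf (P := Itm.ok 206) (iqb tpr191_c)) (BT.Fa_leaf (P := Itm.ok 206) (iqf tpr236_c))) (BT.Fa_leaf (P := Itm.ok 206) (iqf tpr508_c))) (BT.Fa_mk (BT.Fa_leaf (P := Itm.ok 206) (iqf tpr239_c)) (BT.Fa_leaf (P := Itm.ok 206) (iqb tpr295_c)))) (BT.Fa_mk (BT.Fa_mk (BT.Fa_leaf (P := Itm.ok 206) (iqb tpr789_c)) (BT.Fa_leaf (P := Itm.ok 206) (iqf tpr516_c))) (BT.Fa_mk (BT.Fa_leaf (P := Itm.ok 206) (iqb tpr107_c)) (BT.Fa_leaf (P := Itm.ok 206) (iqb tpr559_c))))))))) (BT.Fa_mk (BT.Fa_mk (BT.Fa_mk (BT.Fa_mk (BT.Fa_mk (BT.Fa_mk (BT.Fa_mk (BT.Fa_mk (BT.Fa_leaf (P := Itm.ok 206) (iqf tpr1247_c)) (BT.Fa_leaf (P := Itm.ok 206) (iqf tpr546_c))) (BT.Fa_leaf (P := Itm.ok 206) (iqf tpr571_c))) (BT.Fa_mk (BT.Fa_leaf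 (P := Itm.ok 206) (iqb tpr548_c)) (BT.Fa_leaf (P := Itm.ok 206) (iqb tpr526_c)))) (BT.Fa_mk (BT.Fa_mk (BT.Fa_mk (BT.Fa_leaf (P := Itm.ok 206) (iqf tpr1021_c)) (BT.Fa_leaf (P := Itm.ok 206) (iqb tpr591_c))) (BT.Fa_leaf (P := Itm.ok 206) (iqb tpr613_c))) (BT.Fa_mk (BT.Fa_leaf (P := Itm.ok 206) (iqb tpr620_c)) (BT.Fa_leaf (P := Itm.ok 206) (iqb tpr639_c))))) (BT.Fa_mk (BT.Fa_mk (BT.Fa_mk (BT.Fa_mk (BT.Fa_leaf (P := Itm.ok 206) (iqf tpr804_c)) (BT.Fa_leaf (P := Itm.ok 206) (iqf tpr628_c))) (BT.Fa_leaf (P := Itm.ok 206) (iqb tpr77_c))) (BT.Fa_mk (BT.Fa_leaf (P := Itm.ok 206) (iqb tpr251_c)) (BT.Fa_leaf (P := Itm.ok 206) (iqf tpr549_c)))) (BT.Fa_mk (BT.Fa_mk (BT.Fa_leaf (P := Itm.ok 206) (iqf tpr657_c)) (BT.Fa_leaf (P := Itm.ok 206) (iqf tpr537_c)))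 (BT.Fa_mk (BT.Fa_leaf (P := Itm.ok 206) (iqf tpr547_c)) (BT.Fa_leaf (P := Itm.ok 206) (iqf tpr979_c)))))) (BT.Fa_mk (BT.Fa_mk (BT.Fa_mk (BT.Fa_mk (BT.Fa_mk (BT.Fa_leaf (P := Itm.ok 206) (iqf tpr682_c)) (BT.Fa_leaf (P := Itm.ok 206) (iqf tpr528_c))) (BT.Fa_leaf (P := Itm.ok 206) (iqf tpr9_c))) (BT.Fa_mk (BT.Fa_leaf (P := Itm.ok 206) (iqb tpr1255_c)) (BT.Fa_leaf (P := Itm.ok 206) (iqf tpr167_c)))) (BT.Fa_mk (BT.Fa_mk (BT.Fa_leaf (P := Itm.ok 206) (iqb tpr1549_c)) (BT.Fa_leaf (P := Itm.ok 206) (iqb tpr1180_c))) (BT.Fa_mk (BT.Fa_leaf (P := Itm.ok 206) (iqb tpr324_c)) (BT.Fa_leaf (P := Itm.ok 206) (iqb tpr569_c))))) (BT.Fa_mk (BT.Fa_mk (BT.Fa_mk (BT.Fa_mk (BT.Fa_leaf (P := Itm.ok 206) (iqf tpr555_c)) (BT.Fa_leaf (P := Itm.ok 206) (iqf tpr697_c)))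 (BT.Fa_leaf (P := Itm.ok 206) (iqb tpr553_c))) (BT.Fa_mk (BT.Fa_leaf (P := Itm.ok 206) (iqf tpr583_c)) (BT.Fa_leaf (P := Itm.ok 206) (iqf tpr198_c)))) (BT.Fa_mk (BT.Fa_mk (BT.Fa_leaf (P := Itm.ok 206) (iqf tpr592_c)) (BT.Fa_leaf (P := Itm.ok 206) (iqf tpr18_c))) (BT.Fa_mk (BT.Fa_leaf (P := Itm.ok 206) (iqb tpr259_c)) (BT.Fa_leaf (P := Itm.ok 206) (iqf tpr429_c))))))) (BT.Fa_mk (BT.Fa_mk (BT.Fa_mk (BT.Fa_mk (BT.Fa_mk (BT.Fa_mk (BT.Fa_leaf (P := Itm.ok 206) (iqf tpr584_c)) (BT.Fa_leaf (P := Itm.ok 206) (iqb tpr622_c))) (BT.Fa_leaf (P := Itm.ok 206) (iqb tpr527_c))) (BT.Fa_mk (BT.Fa_leaf (P := Itm.ok 206) (iqf tpr534_c)) (BT.Fa_leaf (P := Itm.ok 206) (iqf tpr579_c)))) (BT.Fa_mk (BT.Fa_mk (BT.Fa_leaf (P := Itm.ok 206) (iqb tpr562_c)) (BT.Fa_leaf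 (P := Itm.ok 206) (iqb tpr665_c))) (BT.Fa_mk (BT.Fa_leaf (P := Itm.ok 206) (iqf tpr533_c)) (BT.Fa_leaf (P := Itm.ok 206) (iqf tpr560_c))))) (BT.Fa_mk (BT.Fa_mk (BT.Fa_mk (BT.Fa_mk (BT.Fa_leaf (P := Itm.ok 206) (iqf tpr659_c)) (BT.Fa_leaf (P := Itm.ok 206) (iqb tpr1768_c))) (BT.Fa_leaf (P := Itm.ok 206) (iqf tpr602_c))) (BT.Fa_mk (BT.Fa_leaf (P := Itm.ok 206) (iqb tpr688_c)) (BT.Fa_leaf (P := Itm.ok 206) (iqb tpr672_c)))) (BT.Fa_mk (BT.Fa_mk (BT.Fa_leaf (P := Itm.ok 206) (iqb tpr687_c)) (BT.Fa_leaf (P := Itm.ok 206) (iqf tpr689_c))) (BT.Fa_mk (BT.Fa_leaf (P := Itm.ok 206) (iqf tpr151_c)) (BT.Fa_leaf (P := Itm.ok 206) (iqf tpr1254_c)))))) (BT.Fa_mk (BT.Fa_mk (BT.Fa_mk (BT.Fa_mk (BT.Fa_mk (BT.Fa_leaf (P := Itm.ok 206) (iqf tpr501_c)) (BT.Fa_leaf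 (P := Itm.ok 206) (iqb tpr610_c))) (BT.Fa_leaf (P := Itm.ok 206) (iqf tpr626_c))) (BT.Fa_mk (BT.Fa_leaf (P := Itm.ok 206) (iqb tpr501_c)) (BT.Fa_leaf (P := Itm.ok 206) (iqb tpr626_c)))) (BT.Fa_mk (BT.Fa_mk (BT.Fa_leaf (P := Itm.ok 206) (iqb tpr1196_c)) (BT.Fa_leaf (P := Itm.ok 206) (iqf tpr62_c))) (BT.Fa_mk (BT.Fa_leaf (P := Itm.ok 206) (iqf tpr513_c)) (BT.Fa_leaf (P := Itm.ok 206) (iqf tpr1714_c))))) (BT.Fa_mk (BT.Fa_mk (BT.Fa_mk (BT.Fa_mk (BT.Fa_leaf (P := Itm.ok 206) (iqb tpr681_c)) (BT.Fa_leaf (P := Itm.ok 206) (iqb tpr585_c))) (BT.Fa_leaf (P := Itm.ok 206) (iqb tpr520_c))) (BT.Fa_mk (BT.Fa_leaf (P := Itm.ok 206) (iqf tpr502_c)) (BT.Fa_leaf (P := Itm.ok 206) (iqf tpr527_c)))) (BT.Fa_mk (BT.Fa_mk (BT.Fa_leaf (P := Itm.ok 206) (iqb tpr2941_c))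 (BT.Fa_leaf (P := Itm.ok 206) (iqb tpr583_c))) (BT.Fa_mk (BT.Fa_leaf (P := Itm.ok 206) (iqf tpr1257_c)) (BT.Fa_leaf (P := Itm.ok 206) (iqf tpr612_c)))))))) (BT.Fa_mk (BT.Fa_mk (BT.Fa_mk (BT.Fa_mk (BT.Fa_mk (BT.Fa_mk (BT.Fa_mk (BT.Fa_leaf (P := Itm.ok 206) (iqf tpr723_c)) (BT.Fa_leaf (P := Itm.ok 206) (iqb tpr594_c))) (BT.Fa_leaf (P := Itm.ok 206) (iqf tpr556_c))) (BT.Fa_mk (BT.Fa_leaf (P := Itm.ok 206) (iqf tpr636_c)) (BT.Fa_leaf (P := Itm.ok 206) (iqb tpr521_c)))) (BT.Fa_mk (BT.Fa_mk (BT.Fa_mk (BT.Fa_leaf (P := Itm.ok 206) (iqb tpr198_c)) (BT.Fa_leaf (P := Itm.ok 206) (iqf tpr700_c))) (BT.Fa_leaf (P := Itm.ok 206) (iqb tpr1730_c))) (BT.Fa_mk (BT.Fa_leaf (P := Itm.ok 206) (iqf tpr23_c)) (BT.Fa_leaf (P := Itm.ok 206) (iqb tpr23_c))))) (BT.Fa_mk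 (BT.Fa_mk (BT.Fa_mk (BT.Fa_mk (BT.Fa_leaf (P := Itm.ok 206) (iqf tpr106_c)) (BT.Fa_leaf (P := Itm.ok 206) (iqb tpr502_c))) (BT.Fa_leaf (P := Itm.ok 206) (iqf tpr641_c))) (BT.Fa_mk (BT.Fa_leaf (P := Itm.ok 206) (iqb tpr514_c)) (BT.Fa_leaf (P := Itm.ok 206) (iqf tpr294_c)))) (BT.Fa_mk (BT.Fa_mk (BT.Fa_leaf (P := Itm.ok 206) (iqf tpr1099_c)) (BT.Fa_leaf (P := Itm.ok 206) (iqf tpr576_c))) (BT.Fa_mk (BT.Fa_leaf (P := Itm.ok 206) (iqf tpr620_c)) (BT.Fa_leaf (P := Itm.ok 206) (iqf tpr1193_c)))))) (BT.Fa_mk (BT.Fa_mk (BT.Fa_mk (BT.Fa_mk (BT.Fa_mk (BT.Fa_leaf (P := Itm.ok 206) (iqb tpr541_c)) (BT.Fa_leaf (P := Itm.ok 206) (iqb tpr523_c))) (BT.Fa_leaf (P := Itm.ok 206) (iqf tpr524_c))) (BT.Fa_mk (BT.Fa_leaf (P := Itm.ok 206) (iqf tpr22_c)) (BT.Fa_leaf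 (P := Itm.ok 206) (iqb tpr17_c)))) (BT.Fa_mk (BT.Fa_mk (BT.Fa_leaf (P := Itm.ok 206) (iqb tpr635_c)) (BT.Fa_leaf (P := Itm.ok 206) (iqf tpr577_c))) (BT.Fa_mk (BT.Fa_leaf (P := Itm.ok 206) (iqf tpr518_c)) (BT.Fa_leaf (P := Itm.ok 206) (iqf tpr1258_c))))) (BT.Fa_mk (BT.Fa_mk (BT.Fa_mk (BT.Fa_mk (BT.Fa_leaf (P := Itm.ok 206) (iqb tpr11_c)) (BT.Fa_leaf (P := Itm.ok 206) (iqb tpr679_c))) (BT.Fa_leaf (P := Itm.ok 206) (iqb tpr573_c))) (BT.Fa_mk (BT.Fa_leaf (P := Itm.ok 206) (iqf tpr1970_c)) (BT.Fa_leaf (P := Itm.ok 206) (iqb tpr544_c)))) (BT.Fa_mk (BT.Fa_mk (BT.Fa_leaf (P := Itm.ok 206) (iqf tpr623_c)) (BT.Fa_leaf (P := Itm.ok 206) (iqb tpr522_c))) (BT.Fa_mk (BT.Fa_leaf (P := Itm.ok 206) (iqf tpr705_c)) (BT.Fa_leaf (P := Itm.ok 206) (iqf tpr1811_c)))))))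 (BT.Fa_mk (BT.Fa_mk (BT.Fa_mk (BT.Fa_mk (BT.Fa_mk (BT.Fa_mk (BT.Fa_leaf (P := Itm.ok 206) (iqf tpr1633_c)) (BT.Fa_leaf (P := Itm.ok 206) (iqf tpr619_c))) (BT.Fa_leaf (P := Itm.ok 206) (iqf tpr595_c))) (BT.Fa_mk (BT.Fa_leaf (P := Itm.ok 206) (iqb tpr543_c)) (BT.Fa_leaf (P := Itm.ok 206) (iqf tpr588_c)))) (BT.Fa_mk (BT.Fa_mk (BT.Fa_leaf (P := Itm.ok 206) (iqb tpr22_c)) (BT.Fa_leaf (P := Itm.ok 206) (iqb tpr574_c))) (BT.Fa_mk (BT.Fa_leaf (P := Itm.ok 206) (iqb tpr1252_c)) (BT.Fa_leaf (P := Itm.ok 206) (iqf tpr1250_c))))) (BT.Fa_mk (BT.Fa_mk (BT.Fa_mk (BT.Fa_mk (BT.Fa_leaf (P := Itm.ok 206) (iqb tpr1256_c)) (BT.Fa_leaf (P := Itm.ok 206) (iqb tpr503_c))) (BT.Fa_leaf (P := Itm.ok 206) (iqf tpr247_c))) (BT.Fa_mk (BT.Fa_leaf (P := Itm.ok 206)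 (iqb tpr515_c)) (BT.Fa_leaf (P := Itm.ok 206) (iqf tpr627_c)))) (BT.Fa_mk (BT.Fa_mk (BT.Fa_leaf (P := Itm.ok 206) (iqb tpr633_c)) (BT.Fa_leaf (P := Itm.ok 206) (iqf tpr17_c))) (BT.Fa_mk (BT.Fa_leaf (P := Itm.ok 206) (iqf tpr123_c)) (BT.Fa_leaf (P := Itm.ok 206) (iqf tpr714_c)))))) (BT.Fa_mk (BT.Fa_mk (BT.Fa_mk (BT.Fa_mk (BT.Fa_mk (BT.Fa_leaf (P := Itm.ok 206) (iqb tpr339_c)) (BT.Fa_leaf (P := Itm.ok 206) (iqf tpr1251_c))) (BT.Fa_leaf (P := Itm.ok 206) (iqb tpr953_c))) (BT.Fa_mk (BT.Fa_leaf (P := Itm.ok 206) (iqb tpr536_c)) (BT.Fa_leaf (P := Itm.ok 206) (iqb tpr662_c)))) (BT.Fa_mk (BT.Fa_mk (BT.Fa_leaf (P := Itm.ok 206) (iqf tpr669_c)) (BT.Fa_leaf (P := Itm.ok 206) (iqf tpr599_c))) (BT.Fa_mk (BT.Fa_leaf (P := Itm.ok 206) (iqf tpr1263_c))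 (BT.Fa_leaf (P := Itm.ok 206) (iqb tpr293_c))))) (BT.Fa_mk (BT.Fa_mk (BT.Fa_mk (BT.Fa_mk (BT.Fa_leaf (P := Itm.ok 206) (iqf tpr727_c)) (BT.Fa_leaf (P := Itm.ok 206) (iqf tpr223_c))) (BT.Fa_leaf (P := Itm.ok 206) (iqb tpr538_c))) (BT.Fa_mk (BT.Fa_leaf (P := Itm.ok 206) (iqf tpr984_c)) (BT.Fa_leaf (P := Itm.ok 206) (iqf tpr740_c)))) (BT.Fa_mk (BT.Fa_mk (BT.Fa_leaf (P := Itm.ok 206) (iqb tpr578_c)) (BT.Fa_leaf (P := Itm.ok 206) (iqf tpr295_c))) (BT.Fa_mk (BT.Fa_leaf (P := Itm.ok 206) (iqb tpr670_c)) (BT.Fa_leaf (P := Itm.ok 206) (iqb tpr631_c))))))))))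

/-- all words of the class have labels -/
theorem pokNFzE2A3H2AzIzAyB2H3AyB2EzF : POK 206 xNFzE2A3H2AzIzAyB2H3AyB2EzF :=
  y_pok (C0 := ceNFzE2A3H2AzIzAyB2H3AyB2EzF) (C1 := coNFzE2A3H2AzIzAyB2H3AyB2EzF) topNFzE2A3H2AzIzAyB2H3AyB2EzF nbNFzE2A3H2AzIzAyB2H3AyB2EzF (BT.Fa_of_all iiNFzE2A3H2AzIzAyB2H3AyB2EzF_c)
    (BT.Fa_mk (BT.Fa_mk (cyE_spec zeNFzE2A3H2AzIzAyB2H3AyB2EzF_0) (BT.Fa_mk (cyE_spec zeNFzE2A3H2AzIzAyB2H3AyB2EzF_1) (cyE_spec zeNFzE2A3H2AzIzAyB2H3AyB2EzF_2))) (BT.Fa_mk (BT.Fa_mk (cyE_spec zeNFzE2A3H2AzIzAyB2H3AyB2EzF_3) (BT.Fa_mk (cyE_spec zeNFzE2A3H2AzIzAyB2H3AyB2EzF_4) (cyE_spec zeNFzE2A3H2AzIzAyB2H3AyB2EzF_5))) (BT.Fa_mk (BT.Fa_mk (cyE_spec zeNFzE2A3H2AzIzAyB2H3AyB2EzF_6) (cyE_spec zeNFzE2A3H2AzIzAyB2H3AyB2EzF_7)) (BT.Fa_mk (cyE_spec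 zeNFzE2A3H2AzIzAyB2H3AyB2EzF_8) (cyE_spec zeNFzE2A3H2AzIzAyB2H3AyB2EzF_9)))))
    (BT.Fa_mk (BT.Fa_mk (cyO_spec zoNFzE2A3H2AzIzAyB2H3AyB2EzF_0) (BT.Fa_mk (cyO_spec zoNFzE2A3H2AzIzAyB2H3AyB2EzF_1) (cyO_spec zoNFzE2A3H2AzIzAyB2H3AyB2EzF_2))) (BT.Fa_mk (BT.Fa_mk (BT.Fa_mk (cyO_spec zoNFzE2A3H2AzIzAyB2H3AyB2EzF_3) (cyO_spec zoNFzE2A3H2AzIzAyB2H3AyB2EzF_4)) (cyO_spec zoNFzE2A3H2AzIzAyB2H3AyB2EzF_5)) (BT.Fa_mk (BT.Fa_mk (cyO_spec zoNFzE2A3H2AzIzAyB2H3AyB2EzF_6) (cyO_spec zoNFzE2A3H2AzIzAyB2H3AyB2EzF_7)) (BT.Fa_mk (BT.Fa_mk (cyO_spec zoNFzE2A3H2AzIzAyB2H3AyB2EzF_8) (cyO_spec zoNFzE2A3H2AzIzAyB2H3AyB2EzF_9)) (cyO_spec zoNFzE2A3H2AzIzAyB2H3AyB2EzF_10)))))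
    iiNFzE2A3H2AzIzAyB2H3AyB2EzF_k


end MPb6R
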