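import Pool.Agent.Lib.MP_b6d339_lc.Cw3.YFzE2ByA3H2AzIzA2H3A2EzB2F
import Pool.Agent.Lib.MP_b6d339_lc.Cw3.XL
import Pool.Agent.Lib.MP_b6d339_lc.Cw3.T0
import Pool.Agent.Lib.MP_b6d339_lc.Cw3.T1
import Pool.Agent.Lib.MP_b6d339_lc.Cw3.T10
import Pool.Agent.Lib.MP_b6d339_lc.Cw3.T11
import Pool.Agent.Lib.MP_b6d339_lc.Cw3.T12
import Pool.Agent.Lib.MP_b6d339_lc.Cw3.T14
import Pool.Agent.Lib.MP_b6d339_lc.Cw3.T15
import Pool.Agent.Lib.MP_b6d339_lc.Cw3.T19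
import Pool.Agent.Lib.MP_b6d339_lc.Cw3.T2
import Pool.Agent.Lib.MP_b6d339_lc.Cw3.T20
import Pool.Agent.Lib.MP_b6d339_lc.Cw3.T22
import Pool.Agent.Lib.MP_b6d339_lc.Cw3.T25
import Pool.Agent.Lib.MP_b6d339_lc.Cw3.T3
import Pool.Agent.Lib.MP_b6d339_lc.Cw3.T31
import Pool.Agent.Lib.MP_b6d339_lc.Cw3.T32
import Pool.Agent.Lib.MP_b6d339_lc.Cw3.T6
import Pool.Agent.Lib.MP_b6d339_lc.Cw3.T7
import Pool.Agent.Lib.MP_b6d339_lc.Cw3.T8
import Pool.Agent.Lib.MP_b6d339_lc.Cw3.T9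

/-!
# Erdős 592, three levels: items
-/

namespace MPb6R

open MPb6P

noncomputable def iiNFzE2ByA3H2AzIzA2H3A2EzB2F : BT Itm := (.node (.node (.node (.node (.node (.node (.node (.node (.leaf (.fwd 0 16 tpr168.df)) (.leaf (.fwd 16 13 tpr500.df))) (.node (.leaf (.bwd 29 21 tpr90.df)) (.leaf (.bwd 50 13 tpr500.df)))) (.node (.node (.leaf (.fwd 63 29 tpr656.df)) (.leaf (.fwd 92 23 tpr12.df))) (.leaf (.fwd 115 18 tpr161.df)))) (.node (.node (.node (.leaf (.bwd 133 17 tpr144.df)) (.leaf (.bwd 150 38 tpr6.df))) (.node (.leaf (.fwd 188 21 tpr8.df)) (.leaf (.bwd 209 18 tpr18.df)))) (.node (.node (.leaf (.fwd 227 35 tpr259.df)) (.leaf (.bwd 262 27 tpr499.df))) (.leaf (.fwd 289 24 tpr609.df))))) (.node (.node (.node (.node (.leaf (.bwd 313 23 tpr133.df)) (.leaf (.fwd 336 23 tpr5.df))) (.node (.leaf (.fwd 359 22 tpr191.df)) (.leaf (.bwd 381 22 tpr953.df)))) (.node (.node (.leaf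 (.fwd 403 24 tpr931.df)) (.leaf (.fwd 427 25 tpr95.df))) (.leaf (.bwd 452 32 tpr518.df)))) (.node (.node (.node (.leaf (.fwd 484 35 tpr541.df)) (.leaf (.bwd 519 31 tpr606.df))) (.node (.leaf (.bwd 550 36 tpr547.df)) (.leaf (.bwd 586 24 tpr667.df)))) (.node (.node (.leaf (.bwd 610 40 tpr705.df)) (.leaf (.bwd 650 22 tpr504.df))) (.leaf (.bwd 672 28 tpr40.df)))))) (.node (.node (.node (.node (.node (.leaf (.bwd 700 35 tpr1028.df)) (.leaf (.bwd 735 31 tpr167.df))) (.node (.leaf (.bwd 766 28 tpr627.df)) (.leaf (.fwd 794 28 tpr721.df)))) (.node (.node (.leaf (.bwd 822 41 tpr1126.df)) (.leaf (.fwd 863 37 tpr520.df))) (.leaf (.fwd 900 29 tpr94.df)))) (.node (.node (.node (.leaf (.bwd 929 52 tpr1839.df)) (.leaf (.fwd 981 23 tpr632.df))) (.node (.leaf (.fwd 1004 27 tpr977.df)) (.leaf (.fwd 1031 37 tpr681.df)))) (.node (.node (.leaf (.fwd 1068 21 tpr107.df)) (.leaf (.bwd 1089 28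 tpr295.df))) (.leaf (.bwd 1117 18 tpr2494.df))))) (.node (.node (.node (.node (.leaf (.bwd 1135 33 tpr221.df)) (.leaf (.bwd 1168 36 tpr244.df))) (.node (.leaf (.bwd 1204 38 tpr55.df)) (.leaf (.bwd 1242 19 tpr47.df)))) (.node (.node (.leaf (.bwd 1261 23 tpr659.df)) (.leaf (.bwd 1284 22 tpr20.df))) (.leaf (.bwd 1306 19 tpr33.df)))) (.node (.node (.node (.leaf (.fwd 1325 34 tpr92.df)) (.leaf (.fwd 1359 34 tpr738.df))) (.node (.leaf (.bwd 1393 29 tpr9.df)) (.leaf (.bwd 1422 34 tpr15.df)))) (.node (.node (.leaf (.bwd 1456 27 tpr788.df)) (.leaf (.bwd 1483 20 tpr63.df))) (.leaf (.bwd 1503 25 tpr10.df))))))) (.node (.node (.node (.node (.node (.node (.leaf (.bwd 1528 41 tpr97.df)) (.leaf (.fwd 1569 27 tpr131.df))) (.node (.leaf (.fwd 1596 33 tpr35.df)) (.leaf (.bwd 1629 33 tpr28.df)))) (.node (.node (.leaf (.bwd 1662 33 tpr31.df)) (.leaf (.bwd 1695 31 tpr21.df))) (.leaf (.bwd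 1726 35 tpr849.df)))) (.node (.node (.node (.leaf (.fwd 1761 20 tpr216.df)) (.leaf (.fwd 1781 35 tpr89.df))) (.node (.leaf (.bwd 1816 41 tpr188.df)) (.leaf (.bwd 1857 25 tpr644.df)))) (.node (.node (.leaf (.fwd 1882 32 tpr61.df)) (.leaf (.fwd 1914 38 tpr105.df))) (.leaf (.fwd 1952 20 tpr103.df))))) (.node (.node (.node (.node (.leaf (.fwd 1972 22 tpr515.df)) (.leaf (.fwd 1994 29 tpr46.df))) (.node (.leaf (.bwd 2023 28 tpr510.df)) (.leaf (.bwd 2051 44 tpr725.df)))) (.node (.node (.leaf (.bwd 2095 27 tpr524.df)) (.leaf (.bwd 2122 20 tpr505.df))) (.leaf (.bwd 2142 30 tpr513.df)))) (.node (.node (.node (.leaf (.bwd 2172 23 tpr508.df)) (.leaf (.bwd 2195 31 tpr607.df))) (.node (.leaf (.bwd 2226 20 tpr768.df)) (.leaf (.fwd 2246 20 tpr48.df)))) (.node (.node (.leaf (.fwd 2266 27 tpr499.df)) (.leaf (.bwd 2293 46 tpr116.df))) (.leaf (.bwd 2339 15 tpr816.df)))))) (.node (.node (.node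 (.node (.node (.leaf (.fwd 2354 25 tpr51.df)) (.leaf (.bwd 2379 34 tpr54.df))) (.node (.leaf (.fwd 2413 30 tpr45.df)) (.leaf (.bwd 2443 35 tpr29.df)))) (.node (.node (.leaf (.bwd 2478 32 tpr39.df)) (.leaf (.fwd 2510 32 tpr251.df))) (.leaf (.bwd 2542 36 tpr101.df)))) (.node (.node (.node (.leaf (.bwd 2578 24 tpr730.df)) (.leaf (.bwd 2602 42 tpr1196.df))) (.node (.leaf (.bwd 2644 34 tpr114.df)) (.leaf (.fwd 2678 28 tpr940.df)))) (.node (.node (.leaf (.fwd 2706 30 tpr143.df)) (.leaf (.fwd 2736 45 tpr139.df))) (.leaf (.bwd 2781 32 tpr113.df))))) (.node (.node (.node (.node (.leaf (.fwd 2813 21 tpr50.df)) (.leaf (.fwd 2834 44 tpr150.df))) (.node (.leaf (.bwd 2878 29 tpr726.df)) (.leaf (.bwd 2907 27 tpr82.df)))) (.node (.node (.leaf (.bwd 2934 31 tpr557.df)) (.leaf (.bwd 2965 34 tpr628.df))) (.leaf (.bwd 2999 27 tpr236.df)))) (.node (.node (.node (.leaf (.fwd 3026 30 tpr26.df))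 (.leaf (.bwd 3056 28 tpr511.df))) (.leaf (.fwd 3084 33 tpr501.df))) (.node (.node (.leaf (.fwd 3117 17 tpr16.df)) (.leaf (.fwd 3134 25 tpr711.df))) (.leaf (.fwd 3159 25 tpr702.df)))))))) (.node (.node (.node (.node (.node (.node (.node (.leaf (.fwd 3184 25 tpr633.df)) (.leaf (.fwd 3209 29 tpr9.df))) (.node (.leaf (.fwd 3238 40 tpr985.df)) (.leaf (.bwd 3278 32 tpr247.df)))) (.node (.node (.leaf (.bwd 3310 28 tpr507.df)) (.leaf (.fwd 3338 36 tpr573.df))) (.leaf (.fwd 3374 29 tpr618.df)))) (.node (.node (.node (.leaf (.fwd 3403 22 tpr239.df)) (.leaf (.fwd 3425 27 tpr584.df))) (.node (.leaf (.bwd 3452 27 tpr589.df)) (.leaf (.fwd 3479 25 tpr10.df)))) (.node (.node (.leaf (.bwd 3504 43 tpr565.df)) (.leaf (.bwd 3547 38 tpr526.df))) (.leaf (.fwd 3585 27 tpr506.df))))) (.node (.node (.node (.node (.leaf (.fwd 3612 27 tpr236.df)) (.leaf (.fwd 3639 39 tpr256.df))) (.node (.leaf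 (.fwd 3678 31 tpr606.df)) (.leaf (.bwd 3709 26 tpr222.df)))) (.node (.node (.leaf (.fwd 3735 24 tpr1611.df)) (.leaf (.fwd 3759 37 tpr583.df))) (.leaf (.fwd 3796 27 tpr562.df)))) (.node (.node (.node (.leaf (.bwd 3823 42 tpr612.df)) (.leaf (.bwd 3865 35 tpr541.df))) (.node (.leaf (.fwd 3900 6 tpr4.df)) (.leaf (.bwd 3906 27 tpr506.df)))) (.node (.node (.leaf (.fwd 3933 28 tpr1666.df)) (.leaf (.fwd 3961 30 tpr613.df))) (.leaf (.bwd 3991 26 tpr984.df)))))) (.node (.node (.node (.node (.node (.leaf (.bwd 4017 26 tpr509.df)) (.leaf (.bwd 4043 38 tpr203.df))) (.node (.leaf (.fwd 4081 24 tpr24.df)) (.leaf (.bwd 4105 41 tpr502.df)))) (.node (.node (.leaf (.fwd 4146 37 tpr503.df)) (.leaf (.fwd 4183 34 tpr619.df))) (.leaf (.fwd 4217 27 tpr625.df)))) (.node (.node (.node (.leaf (.fwd 4244 18 tpr18.df)) (.leaf (.fwd 4262 36 tpr23.df))) (.node (.leaf (.fwd 4298 34 tpr548.df)) (.leaf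 (.bwd 4332 38 tpr519.df)))) (.node (.node (.leaf (.fwd 4370 34 tpr628.df)) (.leaf (.fwd 4404 32 tpr294.df))) (.leaf (.fwd 4436 33 tpr521.df))))) (.node (.node (.node (.node (.leaf (.fwd 4469 37 tpr556.df)) (.leaf (.fwd 4506 37 tpr523.df))) (.node (.leaf (.fwd 4543 31 tpr576.df)) (.leaf (.fwd 4574 36 tpr665.df)))) (.node (.node (.leaf (.fwd 4610 48 tpr77.df)) (.leaf (.fwd 4658 29 tpr22.df))) (.leaf (.fwd 4687 43 tpr676.df)))) (.node (.node (.node (.leaf (.fwd 4730 35 tpr622.df)) (.leaf (.fwd 4765 35 tpr585.df))) (.node (.leaf (.bwd 4800 29 tpr579.df)) (.leaf (.bwd 4829 26 tpr516.df)))) (.node (.node (.leaf (.bwd 4855 32 tpr17.df)) (.leaf (.fwd 4887 30 tpr1547.df))) (.leaf (.fwd 4917 18 tpr648.df))))))) (.node (.node (.node (.node (.node (.node (.leaf (.bwd 4935 29 tpr582.df)) (.leaf (.fwd 4964 39 tpr642.df))) (.node (.leaf (.fwd 5003 30 tpr1261.df)) (.leaf (.bwd 5033 20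 tpr48.df)))) (.node (.node (.leaf (.bwd 5053 31 tpr939.df)) (.leaf (.fwd 5084 31 tpr527.df))) (.leaf (.fwd 5115 29 tpr151.df)))) (.node (.node (.node (.leaf (.fwd 5144 32 tpr620.df)) (.leaf (.fwd 5176 29 tpr608.df))) (.node (.leaf (.fwd 5205 35 tpr568.df)) (.leaf (.bwd 5240 25 tpr106.df)))) (.node (.node (.leaf (.bwd 5265 26 tpr675.df)) (.leaf (.fwd 5291 19 tpr616.df))) (.leaf (.bwd 5310 25 tpr677.df))))) (.node (.node (.node (.node (.leaf (.fwd 5335 35 tpr91.df)) (.leaf (.fwd 5370 32 tpr591.df))) (.node (.leaf (.fwd 5402 28 tpr610.df)) (.leaf (.fwd 5430 38 tpr526.df)))) (.node (.node (.leaf (.bwd 5468 35 tpr534.df)) (.leaf (.fwd 5503 24 tpr578.df))) (.leaf (.fwd 5527 37 tpr687.df)))) (.node (.node (.node (.leaf (.bwd 5564 40 tpr62.df)) (.leaf (.bwd 5604 30 tpr626.df))) (.node (.leaf (.bwd 5634 44 tpr592.df)) (.leaf (.fwd 5678 46 tpr593.df)))) (.node (.node (.leaf (.bwd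 5724 30 tpr537.df)) (.leaf (.bwd 5754 41 tpr549.df))) (.leaf (.fwd 5795 38 tpr690.df)))))) (.node (.node (.node (.node (.node (.leaf (.fwd 5833 39 tpr514.df)) (.leaf (.fwd 5872 33 tpr538.df))) (.node (.leaf (.fwd 5905 37 tpr553.df)) (.leaf (.bwd 5942 31 tpr517.df)))) (.node (.node (.leaf (.bwd 5973 33 tpr661.df)) (.leaf (.fwd 6006 34 tpr664.df))) (.leaf (.bwd 6040 41 tpr715.df)))) (.node (.node (.node (.leaf (.bwd 6081 37 tpr671.df)) (.leaf (.fwd 6118 37 tpr555.df))) (.node (.leaf (.bwd 6155 35 tpr703.df)) (.leaf (.fwd 6190 43 tpr2024.df)))) (.node (.node (.leaf (.bwd 6233 21 tpr72.df)) (.leaf (.fwd 6254 15 tpr525.df))) (.leaf (.fwd 6269 21 tpr25.df))))) (.node (.node (.node (.node (.leaf (.fwd 6290 33 tpr663.df)) (.leaf (.fwd 6323 39 tpr210.df))) (.node (.leaf (.bwd 6362 29 tpr647.df)) (.leaf (.fwd 6391 38 tpr2565.df)))) (.node (.node (.leaf (.bwd 6429 34 tpr986.df))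 (.leaf (.fwd 6463 33 tpr44.df))) (.leaf (.fwd 6496 30 tpr603.df)))) (.node (.node (.node (.leaf (.fwd 6526 26 tpr245.df)) (.leaf (.bwd 6552 39 tpr2566.df))) (.leaf (.fwd 6591 22 tpr598.df))) (.node (.node (.leaf (.fwd 6613 24 tpr147.df)) (.leaf (.fwd 6637 53 tpr947.df))) (.leaf (.bwd 6690 37 tpr571.df)))))))))

theorem iiNFzE2ByA3H2AzIzA2H3A2EzB2F_c : iiNFzE2ByA3H2AzIzA2H3A2EzB2F.all (itB (ng 53 nnNFzE2ByA3H2AzIzA2H3A2EzB2F)) = true := by decide +kernel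
theorem nbNFzE2ByA3H2AzIzA2H3A2EzB2F : nbB 53 6780 nnNFzE2ByA3H2AzIzA2H3A2EzB2F = true := by decide +kernel
theorem topNFzE2ByA3H2AzIzA2H3A2EzB2F : topY 6780 ttNFzE2ByA3H2AzIzA2H3A2EzB2F ceNFzE2ByA3H2AzIzA2H3A2EzB2F xNFzE2ByA3H2AzIzA2H3A2EzB2F iiNFzE2ByA3H2AzIzA2H3A2EzB2F = true := by decide +kernel

end MPb6R
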