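import Pool.Agent.Lib.MP_b6d339_lc.Cw3.YFzE2ByA3H2AzIzA2H3AyB2EzF
import Pool.Agent.Lib.MP_b6d339_lc.Cw3.XL
import Pool.Agent.Lib.MP_b6d339_lc.Cw3.T0
import Pool.Agent.Lib.MP_b6d339_lc.Cw3.T1
import Pool.Agent.Lib.MP_b6d339_lc.Cw3.T10
import Pool.Agent.Lib.MP_b6d339_lc.Cw3.T11
import Pool.Agent.Lib.MP_b6d339_lc.Cw3.T12
import Pool.Agent.Lib.MP_b6d339_lc.Cw3.T13
import Pool.Agent.Lib.MP_b6d339_lc.Cw3.T14
import Pool.Agent.Lib.MP_b6d339_lc.Cw3.T15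
import Pool.Agent.Lib.MP_b6d339_lc.Cw3.T16
import Pool.Agent.Lib.MP_b6d339_lc.Cw3.T19
import Pool.Agent.Lib.MP_b6d339_lc.Cw3.T2
import Pool.Agent.Lib.MP_b6d339_lc.Cw3.T20
import Pool.Agent.Lib.MP_b6d339_lc.Cw3.T21
import Pool.Agent.Lib.MP_b6d339_lc.Cw3.T22
import Pool.Agent.Lib.MP_b6d339_lc.Cw3.T25
import Pool.Agent.Lib.MP_b6d339_lc.Cw3.T3
import Pool.Agent.Lib.MP_b6d339_lc.Cw3.T4
import Pool.Agent.Lib.MP_b6d339_lc.Cw3.T5
import Pool.Agent.Lib.MP_b6d339_lc.Cw3.T6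
import Pool.Agent.Lib.MP_b6d339_lc.Cw3.T7
import Pool.Agent.Lib.MP_b6d339_lc.Cw3.T8
import Pool.Agent.Lib.MP_b6d339_lc.Cw3.T9

/-!
# Erdős 592, three levels: items
-/

namespace MPb6R

open MPb6P

noncomputable def iiNFzE2ByA3H2AzIzA2H3AyB2EzF : BT Itm := (.node (.node (.node (.node (.node (.node (.node (.node (.node (.leaf (.fwd 0 23 tpr5.df)) (.leaf (.fwd 23 13 tpr500.df))) (.node (.leaf (.bwd 36 13 tpr500.df)) (.leaf (.fwd 49 27 tpr506.df)))) (.node (.node (.leaf (.bwd 76 27 tpr506.df)) (.leaf (.fwd 103 32 tpr518.df))) (.leaf (.bwd 135 32 tpr518.df)))) (.node (.node (.node (.leaf (.bwd 167 33 tpr501.df)) (.leaf (.fwd 200 33 tpr501.df))) (.node (.leaf (.fwd 233 35 tpr541.df)) (.leaf (.bwd 268 35 tpr541.df)))) (.node (.node (.leaf (.bwd 303 35 tpr89.df)) (.leaf (.bwd 338 27 tpr562.df))) (.leaf (.fwd 365 35 tpr1028.df))))) (.node (.node (.node (.node (.leaf (.bwd 400 35 tpr1028.df))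 (.leaf (.bwd 435 29 tpr618.df))) (.node (.leaf (.fwd 464 37 tpr555.df)) (.leaf (.fwd 501 22 tpr239.df)))) (.node (.node (.leaf (.bwd 523 22 tpr239.df)) (.leaf (.bwd 545 41 tpr188.df))) (.leaf (.fwd 586 39 tpr210.df)))) (.node (.node (.node (.leaf (.fwd 625 20 tpr48.df)) (.leaf (.bwd 645 20 tpr48.df))) (.node (.leaf (.bwd 665 30 tpr577.df)) (.leaf (.bwd 695 25 tpr679.df)))) (.node (.node (.leaf (.fwd 720 30 tpr1730.df)) (.leaf (.bwd 750 30 tpr1730.df))) (.leaf (.fwd 780 13 tpr11.df)))))) (.node (.node (.node (.node (.node (.leaf (.fwd 793 34 tpr748.df)) (.leaf (.bwd 827 34 tpr748.df))) (.node (.leaf (.fwd 861 16 tpr168.df)) (.leaf (.bwd 877 29 tpr582.df)))) (.node (.node (.leaf (.fwd 906 35 tpr1015.df)) (.leaf (.fwd 941 50 tpr1233.df))) (.leaf (.bwd 991 46 tpr1105.df)))) (.node (.node (.node (.leaf (.fwd 1037 48 tpr1740.df)) (.leaf (.bwd 1085 48 tpr1740.df))) (.node (.leaf (.bwd 1133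 53 tpr1067.df)) (.leaf (.fwd 1186 27 tpr540.df)))) (.node (.node (.leaf (.fwd 1213 27 tpr977.df)) (.leaf (.fwd 1240 37 tpr1750.df))) (.leaf (.fwd 1277 44 tpr1747.df))))) (.node (.node (.node (.node (.leaf (.fwd 1321 56 tpr2036.df)) (.leaf (.bwd 1377 29 tpr1072.df))) (.node (.leaf (.bwd 1406 29 tpr637.df)) (.leaf (.fwd 1435 19 tpr1103.df)))) (.node (.node (.leaf (.fwd 1454 24 tpr609.df)) (.leaf (.fwd 1478 21 tpr8.df))) (.leaf (.fwd 1499 31 tpr606.df)))) (.node (.node (.node (.leaf (.bwd 1530 31 tpr606.df)) (.leaf (.bwd 1561 31 tpr517.df))) (.node (.leaf (.fwd 1592 42 tpr812.df)) (.leaf (.bwd 1634 26 tpr222.df)))) (.node (.node (.leaf (.fwd 1660 35 tpr259.df)) (.leaf (.fwd 1695 22 tpr572.df))) (.leaf (.fwd 1717 36 tpr573.df))))))) (.node (.node (.node (.node (.node (.node (.leaf (.bwd 1753 29 tpr692.df)) (.leaf (.bwd 1782 37 tpr555.df))) (.node (.leaf (.fwd 1819 36 tpr547.df)) (.leaf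 (.fwd 1855 37 tpr556.df)))) (.node (.node (.leaf (.bwd 1892 24 tpr609.df)) (.leaf (.bwd 1916 29 tpr9.df))) (.leaf (.bwd 1945 27 tpr236.df)))) (.node (.node (.node (.leaf (.fwd 1972 27 tpr236.df)) (.leaf (.fwd 1999 27 tpr562.df))) (.node (.leaf (.fwd 2026 38 tpr526.df)) (.leaf (.bwd 2064 34 tpr54.df)))) (.node (.node (.leaf (.fwd 2098 34 tpr54.df)) (.leaf (.fwd 2132 35 tpr1029.df))) (.leaf (.bwd 2167 30 tpr1024.df))))) (.node (.node (.node (.node (.leaf (.bwd 2197 42 tpr812.df)) (.leaf (.bwd 2239 49 tpr1120.df))) (.node (.leaf (.fwd 2288 25 tpr51.df)) (.leaf (.bwd 2313 55 tpr314.df)))) (.node (.node (.leaf (.bwd 2368 43 tpr323.df)) (.leaf (.bwd 2411 35 tpr658.df))) (.leaf (.bwd 2446 44 tpr1747.df)))) (.node (.node (.node (.leaf (.bwd 2490 40 tpr1732.df)) (.leaf (.bwd 2530 29 tpr641.df))) (.node (.leaf (.bwd 2559 37 tpr706.df)) (.leaf (.bwd 2596 38 tpr1137.df)))) (.node (.node (.leaf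 (.fwd 2634 23 tpr780.df)) (.leaf (.bwd 2657 27 tpr499.df))) (.leaf (.bwd 2684 27 tpr625.df)))))) (.node (.node (.node (.node (.node (.leaf (.fwd 2711 31 tpr517.df)) (.leaf (.fwd 2742 29 tpr46.df))) (.node (.leaf (.bwd 2771 28 tpr721.df)) (.leaf (.bwd 2799 25 tpr10.df)))) (.node (.node (.leaf (.fwd 2824 24 tpr789.df)) (.leaf (.bwd 2848 30 tpr2041.df))) (.leaf (.bwd 2878 41 tpr1135.df)))) (.node (.node (.node (.leaf (.bwd 2919 25 tpr915.df)) (.leaf (.bwd 2944 37 tpr556.df))) (.node (.leaf (.bwd 2981 36 tpr665.df)) (.leaf (.fwd 3017 24 tpr912.df)))) (.node (.node (.leaf (.bwd 3041 28 tpr563.df)) (.leaf (.fwd 3069 53 tpr1067.df))) (.leaf (.bwd 3122 22 tpr953.df))))) (.node (.node (.node (.node (.leaf (.bwd 3144 28 tpr1013.df)) (.leaf (.fwd 3172 28 tpr627.df))) (.node (.leaf (.fwd 3200 20 tpr768.df)) (.leaf (.fwd 3220 28 tpr563.df)))) (.node (.node (.leaf (.bwd 3248 21 tpr8.df)) (.leaf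 (.bwd 3269 16 tpr168.df))) (.leaf (.bwd 3285 23 tpr780.df)))) (.node (.node (.node (.leaf (.fwd 3308 26 tpr222.df)) (.leaf (.bwd 3334 35 tpr969.df))) (.leaf (.bwd 3369 29 tpr22.df))) (.node (.node (.leaf (.bwd 3398 29 tpr656.df)) (.leaf (.bwd 3427 51 tpr1023.df))) (.leaf (.fwd 3478 51 tpr1023.df)))))))) (.node (.node (.node (.node (.node (.node (.node (.leaf (.fwd 3529 37 tpr1022.df)) (.leaf (.fwd 3566 46 tpr1105.df))) (.node (.leaf (.fwd 3612 25 tpr679.df)) (.leaf (.fwd 3637 26 tpr700.df)))) (.node (.node (.leaf (.fwd 3663 32 tpr1111.df)) (.leaf (.fwd 3695 38 tpr1100.df))) (.leaf (.bwd 3733 42 tpr1138.df)))) (.node (.node (.node (.leaf (.fwd 3775 42 tpr1138.df)) (.leaf (.fwd 3817 35 tpr568.df))) (.node (.leaf (.bwd 3852 45 tpr596.df)) (.leaf (.bwd 3897 31 tpr527.df)))) (.node (.node (.leaf (.fwd 3928 27 tpr625.df)) (.leaf (.fwd 3955 45 tpr596.df))) (.leaf (.fwd 4000 44 tpr617.df)))))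 (.node (.node (.node (.node (.leaf (.fwd 4044 29 tpr698.df)) (.leaf (.bwd 4073 13 tpr11.df))) (.node (.leaf (.fwd 4086 38 tpr1554.df)) (.leaf (.bwd 4124 35 tpr1029.df)))) (.node (.node (.leaf (.bwd 4159 41 tpr1126.df)) (.leaf (.bwd 4200 35 tpr554.df))) (.leaf (.bwd 4235 22 tpr572.df)))) (.node (.node (.node (.leaf (.bwd 4257 32 tpr1769.df)) (.leaf (.fwd 4289 39 tpr1112.df))) (.node (.leaf (.fwd 4328 21 tpr1132.df)) (.leaf (.bwd 4349 43 tpr734.df)))) (.node (.node (.leaf (.bwd 4392 37 tpr1094.df)) (.leaf (.fwd 4429 49 tpr2038.df))) (.leaf (.bwd 4478 58 tpr1143.df)))))) (.node (.node (.node (.node (.node (.leaf (.bwd 4536 35 tpr585.df)) (.leaf (.bwd 4571 39 tpr210.df))) (.node (.leaf (.fwd 4610 39 tpr701.df)) (.leaf (.bwd 4649 39 tpr701.df)))) (.node (.node (.leaf (.bwd 4688 31 tpr1010.df)) (.leaf (.fwd 4719 36 tpr683.df))) (.leaf (.fwd 4755 32 tpr17.df)))) (.node (.node (.node (.leaf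 (.fwd 4787 29 tpr656.df)) (.leaf (.fwd 4816 29 tpr579.df))) (.node (.leaf (.bwd 4845 35 tpr259.df)) (.leaf (.fwd 4880 29 tpr9.df)))) (.node (.node (.leaf (.bwd 4909 26 tpr700.df)) (.leaf (.bwd 4935 38 tpr526.df))) (.leaf (.fwd 4973 28 tpr1013.df))))) (.node (.node (.node (.node (.leaf (.fwd 5001 22 tpr560.df)) (.leaf (.bwd 5023 33 tpr2026.df))) (.node (.leaf (.bwd 5056 27 tpr540.df)) (.leaf (.bwd 5083 22 tpr560.df)))) (.node (.node (.leaf (.fwd 5105 35 tpr969.df)) (.leaf (.fwd 5140 56 tpr1742.df))) (.leaf (.bwd 5196 51 tpr1753.df)))) (.node (.node (.node (.leaf (.fwd 5247 31 tpr975.df)) (.leaf (.fwd 5278 54 tpr1008.df))) (.leaf (.bwd 5332 26 tpr2027.df))) (.node (.node (.leaf (.bwd 5358 32 tpr1111.df)) (.leaf (.bwd 5390 28 tpr507.df))) (.leaf (.bwd 5418 29 tpr698.df))))))) (.node (.node (.node (.node (.node (.node (.leaf (.bwd 5447 39 tpr1112.df)) (.leaf (.bwd 5486 49 tpr2038.df)))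 (.node (.leaf (.bwd 5535 23 tpr1014.df)) (.leaf (.bwd 5558 32 tpr251.df)))) (.node (.node (.leaf (.bwd 5590 30 tpr626.df)) (.leaf (.fwd 5620 23 tpr640.df))) (.leaf (.fwd 5643 37 tpr1094.df)))) (.node (.node (.node (.leaf (.fwd 5680 22 tpr953.df)) (.leaf (.fwd 5702 27 tpr499.df))) (.node (.leaf (.fwd 5729 28 tpr721.df)) (.leaf (.bwd 5757 31 tpr557.df)))) (.node (.node (.leaf (.fwd 5788 41 tpr188.df)) (.leaf (.bwd 5829 29 tpr46.df))) (.leaf (.bwd 5858 27 tpr589.df))))) (.node (.node (.node (.node (.leaf (.bwd 5885 25 tpr51.df)) (.leaf (.fwd 5910 43 tpr323.df))) (.node (.leaf (.fwd 5953 25 tpr1104.df)) (.leaf (.fwd 5978 61 tpr2037.df)))) (.node (.node (.leaf (.fwd 6039 42 tpr1568.df)) (.leaf (.fwd 6081 35 tpr658.df))) (.leaf (.fwd 6116 21 tpr90.df)))) (.node (.node (.node (.leaf (.bwd 6137 29 tpr579.df)) (.leaf (.fwd 6166 25 tpr10.df))) (.node (.leaf (.fwd 6191 31 tpr1538.df)) (.leaf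 (.fwd 6222 35 tpr1054.df)))) (.node (.node (.leaf (.bwd 6257 27 tpr977.df)) (.leaf (.fwd 6284 38 tpr1137.df))) (.leaf (.fwd 6322 30 tpr577.df)))))) (.node (.node (.node (.node (.node (.leaf (.bwd 6352 56 tpr1742.df)) (.leaf (.fwd 6408 37 tpr706.df))) (.node (.leaf (.bwd 6445 49 tpr1746.df)) (.leaf (.bwd 6494 46 tpr1744.df)))) (.node (.node (.leaf (.bwd 6540 54 tpr1745.df)) (.leaf (.fwd 6594 29 tpr618.df))) (.leaf (.bwd 6623 45 tpr611.df)))) (.node (.node (.node (.leaf (.fwd 6668 36 tpr665.df)) (.leaf (.bwd 6704 41 tpr1063.df))) (.node (.leaf (.fwd 6745 29 tpr641.df)) (.leaf (.fwd 6774 27 tpr82.df)))) (.node (.node (.leaf (.bwd 6801 28 tpr610.df)) (.leaf (.fwd 6829 32 tpr620.df))) (.leaf (.bwd 6861 37 tpr571.df))))) (.node (.node (.node (.node (.leaf (.bwd 6898 20 tpr505.df)) (.leaf (.bwd 6918 40 tpr544.df))) (.node (.leaf (.bwd 6958 6 tpr4.df)) (.leaf (.fwd 6964 40 tpr62.df)))) (.node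 (.node (.leaf (.bwd 7004 31 tpr167.df)) (.leaf (.bwd 7035 29 tpr608.df))) (.leaf (.fwd 7064 26 tpr516.df)))) (.node (.node (.node (.leaf (.fwd 7090 35 tpr554.df)) (.leaf (.bwd 7125 21 tpr1132.df))) (.leaf (.bwd 7146 56 tpr2036.df))) (.node (.node (.leaf (.fwd 7202 55 tpr314.df)) (.leaf (.fwd 7257 35 tpr89.df))) (.leaf (.fwd 7292 37 tpr639.df))))))))) (.node (.node (.node (.node (.node (.node (.node (.node (.leaf (.fwd 7329 36 tpr453.df)) (.leaf (.fwd 7365 49 tpr1768.df))) (.node (.leaf (.fwd 7414 61 tpr1736.df)) (.leaf (.bwd 7475 26 tpr2049.df)))) (.node (.node (.leaf (.bwd 7501 38 tpr1620.df)) (.leaf (.bwd 7539 24 tpr912.df))) (.leaf (.fwd 7563 40 tpr1732.df)))) (.node (.node (.node (.leaf (.fwd 7603 49 tpr1120.df)) (.leaf (.bwd 7652 23 tpr640.df))) (.node (.leaf (.bwd 7675 35 tpr1054.df)) (.leaf (.fwd 7710 32 tpr1769.df)))) (.node (.node (.leaf (.bwd 7742 32 tpr1017.df)) (.leaf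 (.fwd 7774 39 tpr1027.df))) (.leaf (.bwd 7813 23 tpr605.df))))) (.node (.node (.node (.node (.leaf (.fwd 7836 25 tpr915.df)) (.leaf (.fwd 7861 51 tpr1743.df))) (.node (.leaf (.bwd 7912 38 tpr1554.df)) (.leaf (.bwd 7950 28 tpr627.df)))) (.node (.node (.leaf (.bwd 7978 24 tpr789.df)) (.leaf (.fwd 8002 29 tpr692.df))) (.leaf (.bwd 8031 61 tpr2037.df)))) (.node (.node (.node (.leaf (.fwd 8092 49 tpr1746.df)) (.leaf (.bwd 8141 34 tpr548.df))) (.node (.leaf (.bwd 8175 37 tpr1064.df)) (.leaf (.fwd 8212 37 tpr583.df)))) (.node (.node (.leaf (.fwd 8249 44 tpr1731.df)) (.leaf (.bwd 8293 30 tpr2039.df))) (.leaf (.fwd 8323 40 tpr1751.df)))))) (.node (.node (.node (.node (.node (.leaf (.fwd 8363 39 tpr636.df)) (.leaf (.fwd 8402 39 tpr642.df))) (.node (.leaf (.fwd 8441 32 tpr251.df)) (.leaf (.bwd 8473 42 tpr1568.df)))) (.node (.node (.leaf (.bwd 8515 25 tpr1104.df)) (.leaf (.bwd 8540 51 tpr1743.df)))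 (.leaf (.bwd 8591 32 tpr247.df)))) (.node (.node (.node (.leaf (.fwd 8623 40 tpr544.df)) (.leaf (.fwd 8663 25 tpr1084.df))) (.node (.leaf (.fwd 8688 31 tpr527.df)) (.leaf (.bwd 8719 48 tpr684.df)))) (.node (.node (.leaf (.bwd 8767 34 tpr614.df)) (.leaf (.fwd 8801 48 tpr684.df))) (.leaf (.fwd 8849 39 tpr615.df))))) (.node (.node (.node (.node (.leaf (.fwd 8888 38 tpr238.df)) (.leaf (.fwd 8926 34 tpr619.df))) (.node (.leaf (.fwd 8960 38 tpr203.df)) (.leaf (.bwd 8998 38 tpr203.df)))) (.node (.node (.leaf (.fwd 9036 45 tpr611.df)) (.leaf (.bwd 9081 33 tpr680.df))) (.leaf (.bwd 9114 33 tpr631.df)))) (.node (.node (.node (.leaf (.bwd 9147 34 tpr619.df)) (.leaf (.fwd 9181 34 tpr548.df))) (.leaf (.fwd 9215 43 tpr734.df))) (.node (.node (.leaf (.fwd 9258 41 tpr1135.df)) (.leaf (.bwd 9299 50 tpr1233.df))) (.leaf (.fwd 9349 33 tpr645.df))))))) (.node (.node (.node (.node (.node (.node (.leaf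 (.bwd 9382 60 tpr1145.df)) (.leaf (.bwd 9442 31 tpr1538.df))) (.node (.leaf (.bwd 9473 44 tpr1731.df)) (.leaf (.fwd 9517 31 tpr1010.df)))) (.node (.node (.leaf (.bwd 9548 36 tpr683.df)) (.leaf (.fwd 9584 28 tpr507.df))) (.leaf (.fwd 9612 36 tpr23.df)))) (.node (.node (.node (.leaf (.fwd 9648 33 tpr680.df)) (.leaf (.bwd 9681 44 tpr617.df))) (.node (.leaf (.bwd 9725 36 tpr23.df)) (.leaf (.bwd 9761 39 tpr615.df)))) (.node (.node (.leaf (.bwd 9800 41 tpr624.df)) (.leaf (.fwd 9841 39 tpr2042.df))) (.leaf (.bwd 9880 39 tpr2042.df))))) (.node (.node (.node (.node (.leaf (.fwd 9919 49 tpr2028.df)) (.leaf (.fwd 9968 31 tpr198.df))) (.node (.leaf (.fwd 9999 30 tpr626.df)) (.leaf (.bwd 10029 49 tpr960.df)))) (.node (.node (.leaf (.bwd 10078 37 tpr2047.df)) (.leaf (.bwd 10115 36 tpr573.df))) (.leaf (.bwd 10151 25 tpr1016.df)))) (.node (.node (.node (.leaf (.fwd 10176 25 tpr1016.df)) (.leaf (.bwd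 10201 54 tpr1008.df))) (.node (.leaf (.bwd 10255 42 tpr1019.df)) (.leaf (.fwd 10297 49 tpr1156.df)))) (.node (.node (.leaf (.bwd 10346 29 tpr623.df)) (.leaf (.bwd 10375 41 tpr1148.df))) (.leaf (.bwd 10416 35 tpr91.df)))))) (.node (.node (.node (.node (.node (.leaf (.fwd 10451 52 tpr1071.df)) (.leaf (.bwd 10503 52 tpr1071.df))) (.node (.leaf (.fwd 10555 29 tpr623.df)) (.leaf (.bwd 10584 46 tpr1275.df)))) (.node (.node (.leaf (.fwd 10630 29 tpr1072.df)) (.leaf (.bwd 10659 28 tpr1032.df))) (.leaf (.fwd 10687 41 tpr1126.df)))) (.node (.node (.node (.leaf (.fwd 10728 32 tpr1017.df)) (.leaf (.fwd 10760 30 tpr1024.df))) (.node (.leaf (.bwd 10790 35 tpr1154.df)) (.leaf (.fwd 10825 60 tpr1145.df)))) (.node (.node (.leaf (.bwd 10885 37 tpr1075.df)) (.leaf (.fwd 10922 41 tpr1148.df))) (.leaf (.fwd 10963 46 tpr1275.df))))) (.node (.node (.node (.node (.leaf (.bwd 11009 39 tpr1027.df)) (.leaf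 (.fwd 11048 35 tpr1154.df))) (.node (.leaf (.fwd 11083 23 tpr2048.df)) (.leaf (.fwd 11106 29 tpr22.df)))) (.node (.node (.leaf (.bwd 11135 32 tpr17.df)) (.leaf (.bwd 11167 40 tpr62.df))) (.leaf (.fwd 11207 37 tpr1075.df)))) (.node (.node (.node (.leaf (.fwd 11244 41 tpr1063.df)) (.leaf (.bwd 11285 28 tpr295.df))) (.leaf (.fwd 11313 29 tpr608.df))) (.node (.node (.leaf (.bwd 11342 26 tpr516.df)) (.leaf (.bwd 11368 39 tpr642.df))) (.leaf (.fwd 11407 27 tpr589.df)))))))) (.node (.node (.node (.node (.node (.node (.node (.leaf (.bwd 11434 27 tpr82.df)) (.leaf (.bwd 11461 35 tpr1015.df))) (.node (.leaf (.bwd 11496 20 tpr768.df)) (.leaf (.fwd 11516 29 tpr582.df)))) (.node (.node (.leaf (.bwd 11545 38 tpr238.df)) (.leaf (.fwd 11583 32 tpr247.df))) (.leaf (.fwd 11615 26 tpr2027.df)))) (.node (.node (.node (.leaf (.fwd 11641 33 tpr2026.df)) (.leaf (.fwd 11674 30 tpr2039.df))) (.node (.leaf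 (.bwd 11704 28 tpr990.df)) (.leaf (.bwd 11732 37 tpr639.df)))) (.node (.node (.leaf (.bwd 11769 35 tpr1749.df)) (.leaf (.bwd 11804 49 tpr1768.df))) (.leaf (.bwd 11853 53 tpr1779.df))))) (.node (.node (.node (.node (.leaf (.bwd 11906 38 tpr2040.df)) (.leaf (.bwd 11944 35 tpr602.df))) (.node (.leaf (.fwd 11979 25 tpr1733.df)) (.leaf (.bwd 12004 37 tpr583.df)))) (.node (.node (.leaf (.fwd 12041 42 tpr1019.df)) (.leaf (.fwd 12083 25 tpr644.df))) (.leaf (.fwd 12108 58 tpr1143.df)))) (.node (.node (.node (.leaf (.fwd 12166 46 tpr1744.df)) (.leaf (.fwd 12212 48 tpr1053.df))) (.node (.leaf (.fwd 12260 37 tpr571.df)) (.leaf (.fwd 12297 41 tpr502.df)))) (.node (.node (.leaf (.bwd 12338 32 tpr294.df)) (.leaf (.bwd 12370 37 tpr503.df))) (.leaf (.fwd 12407 30 tpr613.df)))))) (.node (.node (.node (.node (.node (.leaf (.fwd 12437 37 tpr1052.df)) (.leaf (.bwd 12474 37 tpr1052.df))) (.node (.leaf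 (.bwd 12511 33 tpr44.df)) (.leaf (.bwd 12544 26 tpr245.df)))) (.node (.node (.leaf (.fwd 12570 26 tpr245.df)) (.leaf (.bwd 12596 25 tpr2023.df))) (.leaf (.bwd 12621 56 tpr2046.df)))) (.node (.node (.node (.leaf (.fwd 12677 51 tpr1753.df)) (.leaf (.bwd 12728 46 tpr2030.df))) (.node (.leaf (.bwd 12774 36 tpr547.df)) (.leaf (.bwd 12810 31 tpr975.df)))) (.node (.node (.leaf (.bwd 12841 38 tpr1100.df)) (.leaf (.bwd 12879 25 tpr1733.df))) (.leaf (.bwd 12904 46 tpr1765.df))))) (.node (.node (.node (.node (.leaf (.fwd 12950 28 tpr990.df)) (.leaf (.bwd 12978 43 tpr2024.df))) (.node (.leaf (.bwd 13021 37 tpr1750.df)) (.leaf (.fwd 13058 38 tpr2040.df)))) (.node (.node (.leaf (.bwd 13096 48 tpr1053.df)) (.leaf (.fwd 13144 37 tpr1064.df))) (.leaf (.fwd 13181 35 tpr1749.df)))) (.node (.node (.node (.leaf (.bwd 13216 34 tpr1061.df)) (.leaf (.bwd 13250 39 tpr514.df))) (.leaf (.fwd 13289 46 tpr1765.df)))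 (.node (.node (.leaf (.fwd 13335 35 tpr602.df)) (.leaf (.bwd 13370 35 tpr703.df))) (.leaf (.bwd 13405 32 tpr620.df))))))) (.node (.node (.node (.node (.node (.node (.leaf (.fwd 13437 34 tpr628.df)) (.leaf (.fwd 13471 33 tpr631.df))) (.node (.leaf (.bwd 13504 26 tpr675.df)) (.leaf (.fwd 13530 43 tpr2024.df)))) (.node (.node (.leaf (.fwd 13573 35 tpr703.df)) (.leaf (.bwd 13608 30 tpr613.df))) (.leaf (.fwd 13638 39 tpr514.df)))) (.node (.node (.node (.leaf (.fwd 13677 34 tpr543.df)) (.leaf (.bwd 13711 41 tpr502.df))) (.node (.leaf (.fwd 13752 32 tpr1065.df)) (.leaf (.fwd 13784 32 tpr294.df)))) (.node (.node (.leaf (.fwd 13816 37 tpr503.df)) (.leaf (.fwd 13853 34 tpr1061.df))) (.leaf (.fwd 13887 28 tpr610.df))))) (.node (.node (.node (.node (.leaf (.fwd 13915 28 tpr1032.df)) (.leaf (.bwd 13943 25 tpr1218.df))) (.node (.leaf (.fwd 13968 25 tpr1218.df)) (.leaf (.bwd 13993 32 tpr1065.df))))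 (.node (.node (.leaf (.fwd 14025 56 tpr2046.df)) (.leaf (.fwd 14081 26 tpr2049.df))) (.leaf (.fwd 14107 22 tpr2050.df)))) (.node (.node (.node (.leaf (.bwd 14129 49 tpr1156.df)) (.leaf (.bwd 14178 23 tpr2048.df))) (.node (.leaf (.fwd 14201 54 tpr1745.df)) (.leaf (.bwd 14255 48 tpr1748.df)))) (.node (.node (.leaf (.fwd 14303 48 tpr1748.df)) (.leaf (.fwd 14351 49 tpr960.df))) (.leaf (.fwd 14400 34 tpr614.df)))))) (.node (.node (.node (.node (.node (.leaf (.fwd 14434 37 tpr1224.df)) (.leaf (.fwd 14471 42 tpr2051.df))) (.node (.leaf (.bwd 14513 21 tpr90.df)) (.leaf (.bwd 14534 36 tpr453.df)))) (.node (.node (.leaf (.bwd 14570 39 tpr636.df)) (.leaf (.fwd 14609 34 tpr1728.df))) (.leaf (.bwd 14643 24 tpr1056.df)))) (.node (.node (.node (.leaf (.fwd 14667 24 tpr1056.df)) (.leaf (.fwd 14691 24 tpr1060.df))) (.node (.leaf (.fwd 14715 31 tpr1047.df)) (.leaf (.bwd 14746 31 tpr1047.df)))) (.node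 (.node (.leaf (.fwd 14777 30 tpr1227.df)) (.leaf (.bwd 14807 30 tpr1227.df))) (.leaf (.fwd 14837 21 tpr1045.df))))) (.node (.node (.node (.node (.leaf (.bwd 14858 21 tpr1045.df)) (.leaf (.bwd 14879 30 tpr727.df))) (.node (.leaf (.fwd 14909 31 tpr1044.df)) (.leaf (.fwd 14940 30 tpr263.df)))) (.node (.node (.leaf (.bwd 14970 30 tpr263.df)) (.leaf (.bwd 15000 24 tpr1280.df))) (.leaf (.bwd 15024 34 tpr628.df)))) (.node (.node (.node (.leaf (.fwd 15058 37 tpr2047.df)) (.leaf (.fwd 15095 35 tpr585.df))) (.leaf (.bwd 15130 44 tpr1228.df))) (.node (.node (.leaf (.fwd 15174 28 tpr295.df)) (.leaf (.bwd 15202 62 tpr1754.df))) (.leaf (.fwd 15264 37 tpr1789.df))))))))))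

theorem iiNFzE2ByA3H2AzIzA2H3AyB2EzF_c : iiNFzE2ByA3H2AzIzA2H3AyB2EzF.all (itB (ng 62 nnNFzE2ByA3H2AzIzA2H3AyB2EzF)) = true := by decide +kernel
theorem nbNFzE2ByA3H2AzIzA2H3AyB2EzF : nbB 62 15363 nnNFzE2ByA3H2AzIzA2H3AyB2EzF = true := by decide +kernel
theorem topNFzE2ByA3H2AzIzA2H3AyB2EzF : topY 15363 ttNFzE2ByA3H2AzIzA2H3AyB2EzF ceNFzE2ByA3H2AzIzA2H3AyB2EzF xNFzE2ByA3H2AzIzA2H3AyB2EzF iiNFzE2ByA3H2AzIzA2H3AyB2EzF = true := by decide +kernel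

end MPb6R
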