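import Pool.Agent.Lib.MP_b6d339_lc.Cw3.YFzE2ByA3H2AzIzAyB2H3A2AzAyBzF
import Pool.Agent.Lib.MP_b6d339_lc.Cw3.XL
import Pool.Agent.Lib.MP_b6d339_lc.Cw3.T0
import Pool.Agent.Lib.MP_b6d339_lc.Cw3.T1
import Pool.Agent.Lib.MP_b6d339_lc.Cw3.T10
import Pool.Agent.Lib.MP_b6d339_lc.Cw3.T11
import Pool.Agent.Lib.MP_b6d339_lc.Cw3.T12
import Pool.Agent.Lib.MP_b6d339_lc.Cw3.T13
import Pool.Agent.Lib.MP_b6d339_lc.Cw3.T15
import Pool.Agent.Lib.MP_b6d339_lc.Cw3.T16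
import Pool.Agent.Lib.MP_b6d339_lc.Cw3.T17
import Pool.Agent.Lib.MP_b6d339_lc.Cw3.T18
import Pool.Agent.Lib.MP_b6d339_lc.Cw3.T2
import Pool.Agent.Lib.MP_b6d339_lc.Cw3.T23
import Pool.Agent.Lib.MP_b6d339_lc.Cw3.T26
import Pool.Agent.Lib.MP_b6d339_lc.Cw3.T28
import Pool.Agent.Lib.MP_b6d339_lc.Cw3.T29
import Pool.Agent.Lib.MP_b6d339_lc.Cw3.T3
import Pool.Agent.Lib.MP_b6d339_lc.Cw3.T30
import Pool.Agent.Lib.MP_b6d339_lc.Cw3.T31
import Pool.Agent.Lib.MP_b6d339_lc.Cw3.T5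
import Pool.Agent.Lib.MP_b6d339_lc.Cw3.T6
import Pool.Agent.Lib.MP_b6d339_lc.Cw3.T7
import Pool.Agent.Lib.MP_b6d339_lc.Cw3.T8
import Pool.Agent.Lib.MP_b6d339_lc.Cw3.T9

/-!
# Erdős 592, three levels: items
-/

namespace MPb6R

open MPb6P

noncomputable def iiNFzE2ByA3H2AzIzAyB2H3A2AzAyBzF : BT Itm := (.node (.node (.node (.node (.node (.node (.node (.leaf (.fwd 0 13 tpr500.df)) (.leaf (.fwd 13 16 tpr168.df))) (.node (.leaf (.fwd 29 20 tpr216.df)) (.leaf (.fwd 49 23 tpr12.df)))) (.node (.node (.leaf (.fwd 72 23 tpr456.df)) (.leaf (.fwd 95 33 tpr35.df))) (.leaf (.fwd 128 27 tpr1320.df)))) (.node (.node (.node (.leaf (.bwd 155 17 tpr144.df)) (.leaf (.fwd 172 39 tpr479.df))) (.leaf (.fwd 211 24 tpr454.df))) (.node (.node (.leaf (.fwd 235 20 tpr1355.df)) (.leaf (.fwd 255 38 tpr1334.df))) (.leaf (.bwd 293 31 tpr21.df))))) (.node (.node (.node (.node (.leaf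 (.bwd 324 35 tpr1358.df)) (.leaf (.bwd 359 27 tpr506.df))) (.node (.leaf (.bwd 386 35 tpr2247.df)) (.leaf (.fwd 421 39 tpr2404.df)))) (.node (.node (.leaf (.bwd 460 25 tpr106.df)) (.leaf (.bwd 485 28 tpr477.df))) (.leaf (.fwd 513 21 tpr110.df)))) (.node (.node (.node (.leaf (.fwd 534 34 tpr1341.df)) (.leaf (.fwd 568 31 tpr1305.df))) (.leaf (.fwd 599 29 tpr464.df))) (.node (.node (.leaf (.fwd 628 34 tpr92.df)) (.leaf (.fwd 662 24 tpr931.df))) (.leaf (.bwd 686 32 tpr1315.df)))))) (.node (.node (.node (.node (.node (.leaf (.fwd 718 31 tpr2398.df)) (.leaf (.fwd 749 43 tpr1325.df))) (.node (.leaf (.fwd 792 25 tpr1311.df)) (.leaf (.fwd 817 21 tpr50.df)))) (.node (.node (.leaf (.bwd 838 20 tpr63.df)) (.leaf (.fwd 858 35 tpr1313.df))) (.leaf (.bwd 893 30 tpr1323.df)))) (.node (.node (.node (.leaf (.bwd 923 52 tpr1328.df)) (.leaf (.bwd 975 26 tpr1371.df))) (.leaf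 (.bwd 1001 47 tpr2143.df))) (.node (.node (.leaf (.fwd 1048 33 tpr1330.df)) (.leaf (.fwd 1081 23 tpr5.df))) (.leaf (.bwd 1104 18 tpr2494.df))))) (.node (.node (.node (.node (.leaf (.bwd 1122 19 tpr429.df)) (.leaf (.fwd 1141 37 tpr465.df))) (.node (.leaf (.bwd 1178 20 tpr48.df)) (.leaf (.bwd 1198 27 tpr788.df)))) (.node (.node (.leaf (.bwd 1225 24 tpr789.df)) (.leaf (.fwd 1249 29 tpr1457.df))) (.leaf (.fwd 1278 35 tpr485.df)))) (.node (.node (.node (.leaf (.fwd 1313 25 tpr51.df)) (.leaf (.bwd 1338 27 tpr499.df))) (.leaf (.bwd 1365 31 tpr517.df))) (.node (.node (.leaf (.bwd 1396 33 tpr645.df)) (.leaf (.bwd 1429 21 tpr72.df))) (.leaf (.bwd 1450 25 tpr10.df))))))) (.node (.node (.node (.node (.node (.node (.leaf (.bwd 1475 29 tpr582.df)) (.leaf (.bwd 1504 28 tpr1406.df))) (.node (.leaf (.fwd 1532 30 tpr143.df)) (.leaf (.bwd 1562 31 tpr1365.df)))) (.node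 (.node (.leaf (.bwd 1593 28 tpr223.df)) (.leaf (.fwd 1621 20 tpr186.df))) (.leaf (.bwd 1641 23 tpr133.df)))) (.node (.node (.node (.leaf (.fwd 1664 29 tpr46.df)) (.leaf (.bwd 1693 19 tpr824.df))) (.leaf (.bwd 1712 32 tpr113.df))) (.node (.node (.leaf (.fwd 1744 37 tpr2521.df)) (.leaf (.bwd 1781 54 tpr1354.df))) (.leaf (.fwd 1835 29 tpr820.df))))) (.node (.node (.node (.node (.leaf (.fwd 1864 50 tpr1309.df)) (.leaf (.bwd 1914 25 tpr677.df))) (.node (.leaf (.bwd 1939 36 tpr547.df)) (.leaf (.bwd 1975 37 tpr583.df)))) (.node (.node (.leaf (.fwd 2012 44 tpr617.df)) (.leaf (.bwd 2056 39 tpr615.df))) (.leaf (.bwd 2095 48 tpr1053.df)))) (.node (.node (.node (.leaf (.bwd 2143 33 tpr28.df)) (.leaf (.fwd 2176 31 tpr1331.df))) (.leaf (.bwd 2207 42 tpr1335.df))) (.node (.node (.leaf (.bwd 2249 26 tpr1336.df)) (.leaf (.fwd 2275 28 tpr940.df))) (.leaf (.bwd 2303 19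 tpr47.df)))))) (.node (.node (.node (.node (.node (.leaf (.fwd 2322 32 tpr115.df)) (.leaf (.fwd 2354 40 tpr32.df))) (.node (.leaf (.fwd 2394 29 tpr1344.df)) (.leaf (.bwd 2423 16 tpr804.df)))) (.node (.node (.leaf (.bwd 2439 24 tpr1337.df)) (.leaf (.bwd 2463 50 tpr1233.df))) (.leaf (.fwd 2513 45 tpr139.df)))) (.node (.node (.node (.leaf (.fwd 2558 24 tpr147.df)) (.leaf (.bwd 2582 15 tpr816.df))) (.leaf (.fwd 2597 35 tpr89.df))) (.node (.node (.leaf (.fwd 2632 37 tpr639.df)) (.leaf (.bwd 2669 44 tpr1845.df))) (.leaf (.fwd 2713 29 tpr111.df))))) (.node (.node (.node (.node (.leaf (.fwd 2742 27 tpr584.df)) (.leaf (.bwd 2769 27 tpr240.df))) (.node (.leaf (.fwd 2796 31 tpr1469.df)) (.leaf (.bwd 2827 28 tpr941.df)))) (.node (.node (.leaf (.bwd 2855 24 tpr24.df)) (.leaf (.fwd 2879 35 tpr568.df))) (.leaf (.bwd 2914 19 tpr33.df)))) (.node (.node (.node (.leaf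 (.fwd 2933 37 tpr1423.df)) (.leaf (.fwd 2970 46 tpr1429.df))) (.leaf (.fwd 3016 23 tpr2399.df))) (.node (.node (.leaf (.bwd 3039 32 tpr1017.df)) (.leaf (.fwd 3071 41 tpr624.df))) (.leaf (.fwd 3112 23 tpr605.df))))))))

theorem iiNFzE2ByA3H2AzIzAyB2H3A2AzAyBzF_c : iiNFzE2ByA3H2AzIzAyB2H3A2AzAyBzF.all (itB (ng 54 nnNFzE2ByA3H2AzIzAyB2H3A2AzAyBzF)) = true := by decide +kernel
theorem nbNFzE2ByA3H2AzIzAyB2H3A2AzAyBzF : nbB 54 3189 nnNFzE2ByA3H2AzIzAyB2H3A2AzAyBzF = true := by decide +kernel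
theorem topNFzE2ByA3H2AzIzAyB2H3A2AzAyBzF : topY 3189 ttNFzE2ByA3H2AzIzAyB2H3A2AzAyBzF ceNFzE2ByA3H2AzIzAyB2H3A2AzAyBzF xNFzE2ByA3H2AzIzAyB2H3A2AzAyBzF iiNFzE2ByA3H2AzIzAyB2H3A2AzAyBzF = true := by decide +kernel

end MPb6R
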