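import Pool.Agent.Lib.MP_b6d339_lc.Cw3.YFzE2ByA3H2AzIzAyB2H3A2EzAzF
import Pool.Agent.Lib.MP_b6d339_lc.Cw3.XL
import Pool.Agent.Lib.MP_b6d339_lc.Cw3.T0
import Pool.Agent.Lib.MP_b6d339_lc.Cw3.T1
import Pool.Agent.Lib.MP_b6d339_lc.Cw3.T10
import Pool.Agent.Lib.MP_b6d339_lc.Cw3.T12
import Pool.Agent.Lib.MP_b6d339_lc.Cw3.T14
import Pool.Agent.Lib.MP_b6d339_lc.Cw3.T15
import Pool.Agent.Lib.MP_b6d339_lc.Cw3.T17
import Pool.Agent.Lib.MP_b6d339_lc.Cw3.T2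
import Pool.Agent.Lib.MP_b6d339_lc.Cw3.T20
import Pool.Agent.Lib.MP_b6d339_lc.Cw3.T21
import Pool.Agent.Lib.MP_b6d339_lc.Cw3.T22
import Pool.Agent.Lib.MP_b6d339_lc.Cw3.T24
import Pool.Agent.Lib.MP_b6d339_lc.Cw3.T3
import Pool.Agent.Lib.MP_b6d339_lc.Cw3.T4
import Pool.Agent.Lib.MP_b6d339_lc.Cw3.T5
import Pool.Agent.Lib.MP_b6d339_lc.Cw3.T6
import Pool.Agent.Lib.MP_b6d339_lc.Cw3.T7
import Pool.Agent.Lib.MP_b6d339_lc.Cw3.T8
import Pool.Agent.Lib.MP_b6d339_lc.Cw3.T9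

/-!
# Erdős 592, three levels: items
-/

namespace MPb6R

open MPb6P

noncomputable def iiNFzE2ByA3H2AzIzAyB2H3A2EzAzF : BT Itm := (.node (.node (.node (.node (.node (.node (.node (.node (.leaf (.fwd 0 23 tpr5.df)) (.leaf (.fwd 23 13 tpr500.df))) (.leaf (.bwd 36 27 tpr499.df))) (.node (.node (.leaf (.fwd 63 21 tpr8.df)) (.leaf (.bwd 84 49 tpr960.df))) (.leaf (.bwd 133 21 tpr8.df)))) (.node (.node (.node (.leaf (.fwd 154 27 tpr82.df)) (.leaf (.bwd 181 27 tpr82.df))) (.leaf (.fwd 208 29 tpr656.df))) (.node (.node (.leaf (.fwd 237 16 tpr168.df)) (.leaf (.fwd 253 27 tpr499.df))) (.leaf (.fwd 280 24 tpr609.df))))) (.node (.node (.node (.node (.leaf (.fwd 304 31 tpr527.df)) (.leaf (.bwd 335 22 tpr504.df))) (.leaf (.bwd 357 31 tpr606.df))) (.node (.node (.leaf (.bwd 388 21 tpr90.df)) (.leaf (.fwd 409 25 tpr51.df))) (.leaf (.bwd 434 23 tpr508.df)))) (.node (.node (.node (.leaf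 (.bwd 457 36 tpr547.df)) (.leaf (.fwd 493 23 tpr605.df))) (.leaf (.fwd 516 32 tpr620.df))) (.node (.leaf (.fwd 548 22 tpr515.df)) (.leaf (.fwd 570 38 tpr526.df)))))) (.node (.node (.node (.node (.node (.leaf (.bwd 608 30 tpr577.df)) (.leaf (.fwd 638 30 tpr613.df))) (.leaf (.fwd 668 28 tpr507.df))) (.node (.node (.leaf (.fwd 696 34 tpr619.df)) (.leaf (.bwd 730 43 tpr566.df))) (.leaf (.bwd 773 30 tpr626.df)))) (.node (.node (.node (.leaf (.bwd 803 26 tpr675.df)) (.leaf (.fwd 829 27 tpr236.df))) (.leaf (.bwd 856 32 tpr247.df))) (.node (.leaf (.bwd 888 43 tpr734.df)) (.leaf (.fwd 931 27 tpr562.df))))) (.node (.node (.node (.node (.leaf (.fwd 958 41 tpr549.df)) (.leaf (.bwd 999 35 tpr703.df))) (.leaf (.bwd 1034 35 tpr585.df))) (.node (.node (.leaf (.bwd 1069 43 tpr323.df)) (.leaf (.fwd 1112 37 tpr316.df))) (.leaf (.bwd 1149 40 tpr1811.df)))) (.node (.node (.node (.leaf (.fwd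 1189 37 tpr621.df)) (.leaf (.bwd 1226 58 tpr1719.df))) (.leaf (.fwd 1284 30 tpr537.df))) (.node (.leaf (.bwd 1314 27 tpr1247.df)) (.leaf (.fwd 1341 37 tpr639.df))))))) (.node (.node (.node (.node (.node (.node (.leaf (.fwd 1378 32 tpr247.df)) (.leaf (.bwd 1410 35 tpr29.df))) (.leaf (.fwd 1445 25 tpr633.df))) (.node (.node (.leaf (.bwd 1470 36 tpr634.df)) (.leaf (.bwd 1506 24 tpr730.df))) (.leaf (.fwd 1530 37 tpr571.df)))) (.node (.node (.node (.leaf (.bwd 1567 46 tpr116.df)) (.leaf (.fwd 1613 42 tpr587.df))) (.leaf (.bwd 1655 34 tpr1204.df))) (.node (.node (.leaf (.bwd 1689 55 tpr314.df)) (.leaf (.bwd 1744 40 tpr1799.df))) (.leaf (.bwd 1784 36 tpr1813.df))))) (.node (.node (.node (.node (.leaf (.fwd 1820 29 tpr1639.df)) (.leaf (.fwd 1849 37 tpr555.df))) (.leaf (.bwd 1886 32 tpr518.df))) (.node (.node (.leaf (.fwd 1918 20 tpr103.df)) (.leaf (.bwd 1938 28 tpr507.df))) (.leaf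 (.bwd 1966 29 tpr22.df)))) (.node (.node (.node (.leaf (.fwd 1995 35 tpr568.df)) (.leaf (.bwd 2030 31 tpr607.df))) (.leaf (.bwd 2061 38 tpr203.df))) (.node (.leaf (.fwd 2099 23 tpr508.df)) (.leaf (.bwd 2122 21 tpr629.df)))))) (.node (.node (.node (.node (.node (.leaf (.fwd 2143 32 tpr17.df)) (.leaf (.fwd 2175 33 tpr521.df))) (.leaf (.bwd 2208 30 tpr513.df))) (.node (.node (.leaf (.fwd 2238 29 tpr9.df)) (.leaf (.bwd 2267 27 tpr506.df))) (.leaf (.bwd 2294 27 tpr236.df)))) (.node (.node (.node (.leaf (.fwd 2321 26 tpr516.df)) (.leaf (.fwd 2347 31 tpr606.df))) (.leaf (.bwd 2378 26 tpr222.df))) (.node (.leaf (.fwd 2404 36 tpr573.df)) (.leaf (.fwd 2440 33 tpr501.df))))) (.node (.node (.node (.node (.leaf (.bwd 2473 20 tpr505.df)) (.leaf (.fwd 2493 34 tpr548.df))) (.leaf (.bwd 2527 39 tpr78.df))) (.node (.node (.leaf (.fwd 2566 27 tpr506.df)) (.leaf (.fwd 2593 25 tpr702.df)))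 (.leaf (.fwd 2618 23 tpr632.df)))) (.node (.node (.node (.leaf (.bwd 2641 25 tpr51.df)) (.leaf (.bwd 2666 28 tpr295.df))) (.leaf (.bwd 2694 27 tpr589.df))) (.node (.leaf (.fwd 2721 33 tpr869.df)) (.leaf (.fwd 2754 29 tpr22.df)))))))) (.node (.node (.node (.node (.node (.node (.node (.leaf (.fwd 2783 35 tpr622.df)) (.leaf (.bwd 2818 44 tpr592.df))) (.leaf (.bwd 2862 32 tpr17.df))) (.node (.node (.leaf (.fwd 2894 46 tpr593.df)) (.leaf (.fwd 2940 43 tpr676.df))) (.leaf (.bwd 2983 31 tpr517.df)))) (.node (.node (.node (.leaf (.bwd 3014 34 tpr54.df)) (.leaf (.fwd 3048 24 tpr24.df))) (.leaf (.bwd 3072 41 tpr502.df))) (.node (.node (.leaf (.fwd 3113 37 tpr503.df)) (.leaf (.bwd 3150 38 tpr519.df))) (.leaf (.fwd 3188 37 tpr523.df))))) (.node (.node (.node (.node (.leaf (.bwd 3225 26 tpr509.df)) (.leaf (.fwd 3251 31 tpr576.df))) (.leaf (.fwd 3282 32 tpr294.df))) (.node (.node (.leaf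 (.fwd 3314 37 tpr520.df)) (.leaf (.fwd 3351 32 tpr251.df))) (.leaf (.fwd 3383 39 tpr642.df)))) (.node (.node (.node (.leaf (.fwd 3422 27 tpr625.df)) (.leaf (.bwd 3449 36 tpr23.df))) (.leaf (.fwd 3485 34 tpr614.df))) (.node (.leaf (.bwd 3519 42 tpr612.df)) (.leaf (.fwd 3561 23 tpr1180.df)))))) (.node (.node (.node (.node (.node (.leaf (.bwd 3584 28 tpr627.df)) (.leaf (.fwd 3612 29 tpr151.df))) (.leaf (.bwd 3641 27 tpr682.df))) (.node (.node (.leaf (.bwd 3668 29 tpr978.df)) (.leaf (.bwd 3697 35 tpr259.df))) (.leaf (.fwd 3732 29 tpr637.df)))) (.node (.node (.node (.leaf (.bwd 3761 24 tpr458.df)) (.leaf (.fwd 3785 34 tpr54.df))) (.leaf (.fwd 3819 44 tpr592.df))) (.node (.leaf (.fwd 3863 36 tpr547.df)) (.leaf (.fwd 3899 31 tpr198.df))))) (.node (.node (.node (.node (.leaf (.bwd 3930 43 tpr676.df)) (.leaf (.bwd 3973 46 tpr593.df))) (.leaf (.fwd 4019 29 tpr608.df))) (.node (.node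 (.leaf (.bwd 4048 26 tpr516.df)) (.leaf (.bwd 4074 25 tpr106.df))) (.leaf (.fwd 4099 34 tpr628.df)))) (.node (.node (.node (.leaf (.fwd 4133 19 tpr616.df)) (.leaf (.fwd 4152 39 tpr210.df))) (.leaf (.bwd 4191 28 tpr1406.df))) (.node (.leaf (.fwd 4219 27 tpr589.df)) (.leaf (.fwd 4246 37 tpr681.df))))))) (.node (.node (.node (.node (.node (.node (.leaf (.fwd 4283 39 tpr569.df)) (.leaf (.fwd 4322 40 tpr544.df))) (.leaf (.fwd 4362 29 tpr746.df))) (.node (.node (.leaf (.bwd 4391 28 tpr510.df)) (.leaf (.fwd 4419 23 tpr559.df))) (.leaf (.bwd 4442 28 tpr588.df)))) (.node (.node (.node (.leaf (.fwd 4470 35 tpr658.df)) (.leaf (.bwd 4505 23 tpr659.df))) (.leaf (.bwd 4528 41 tpr1970.df))) (.node (.leaf (.bwd 4569 29 tpr545.df)) (.leaf (.bwd 4598 35 tpr602.df))))) (.node (.node (.node (.node (.leaf (.fwd 4633 32 tpr591.df)) (.leaf (.fwd 4665 39 tpr514.df))) (.leaf (.fwd 4704 25 tpr679.df)))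 (.node (.node (.leaf (.bwd 4729 37 tpr583.df)) (.leaf (.bwd 4766 37 tpr555.df))) (.leaf (.fwd 4803 33 tpr538.df)))) (.node (.node (.node (.leaf (.fwd 4836 36 tpr672.df)) (.leaf (.fwd 4872 37 tpr1199.df))) (.leaf (.bwd 4909 28 tpr546.df))) (.node (.leaf (.bwd 4937 29 tpr647.df)) (.leaf (.fwd 4966 40 tpr670.df)))))) (.node (.node (.node (.node (.node (.leaf (.fwd 5006 28 tpr610.df)) (.leaf (.fwd 5034 30 tpr989.df))) (.leaf (.bwd 5064 24 tpr667.df))) (.node (.node (.leaf (.fwd 5088 37 tpr687.df)) (.leaf (.fwd 5125 37 tpr553.df))) (.leaf (.fwd 5162 34 tpr664.df)))) (.node (.node (.node (.leaf (.bwd 5196 29 tpr638.df)) (.leaf (.fwd 5225 29 tpr666.df))) (.leaf (.bwd 5254 16 tpr804.df))) (.node (.leaf (.fwd 5270 46 tpr324.df)) (.leaf (.bwd 5316 41 tpr552.df))))) (.node (.node (.node (.node (.leaf (.bwd 5357 37 tpr556.df)) (.leaf (.bwd 5394 33 tpr1205.df))) (.leaf (.fwd 5427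 36 tpr662.df))) (.node (.node (.leaf (.fwd 5463 32 tpr674.df)) (.leaf (.bwd 5495 33 tpr689.df))) (.leaf (.bwd 5528 36 tpr1194.df)))) (.node (.node (.node (.leaf (.fwd 5564 33 tpr663.df)) (.leaf (.fwd 5597 28 tpr295.df))) (.leaf (.fwd 5625 28 tpr511.df))) (.node (.leaf (.bwd 5653 26 tpr599.df)) (.leaf (.fwd 5679 32 tpr522.df)))))))))

theorem iiNFzE2ByA3H2AzIzAyB2H3A2EzAzF_c : iiNFzE2ByA3H2AzIzAyB2H3A2EzAzF.all (itB (ng 58 nnNFzE2ByA3H2AzIzAyB2H3A2EzAzF)) = true := by decide +kernel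
theorem nbNFzE2ByA3H2AzIzAyB2H3A2EzAzF : nbB 58 5769 nnNFzE2ByA3H2AzIzAyB2H3A2EzAzF = true := by decide +kernel
theorem topNFzE2ByA3H2AzIzAyB2H3A2EzAzF : topY 5769 ttNFzE2ByA3H2AzIzAyB2H3A2EzAzF ceNFzE2ByA3H2AzIzAyB2H3A2EzAzF xNFzE2ByA3H2AzIzAyB2H3A2EzAzF iiNFzE2ByA3H2AzIzAyB2H3A2EzAzF = true := by decide +kernel

end MPb6R
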