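import Pool.Agent.Lib.MP_b6d339_lc.Cw3.YFzE2ByA3H2AzIzA2H3A2EzB2F

/-!
# Erdős 592, three levels: checks of claims
-/

namespace MPb6R

open MPb6P

theorem zeNFzE2ByA3H2AzIzA2H3A2EzB2F_2 : cyE 53 6780 nnNFzE2ByA3H2AzIzA2H3A2EzB2F ttNFzE2ByA3H2AzIzA2H3A2EzB2F coNFzE2ByA3H2AzIzA2H3A2EzB2F xNFzE2ByA3H2AzIzA2H3A2EzB2F ceNFzE2ByA3H2AzIzA2H3A2EzB2F_2 = true := by decide +kernel

end MPb6R
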