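import Pool.Agent.Lib.MP_b6d339_lc.Cw3.JFzE2ByA3H2AzIzA2H3A2EyAzF
import Pool.Agent.Lib.MP_b6d339_lc.Cw3.JFzE2ByA3H2AzIzA2H3A2EzB2F
import Pool.Agent.Lib.MP_b6d339_lc.Cw3.JFzE2ByA3H2AzIzA2H3AyB2EzF
import Pool.Agent.Lib.MP_b6d339_lc.Cw3.JFzE2ByA3H2AzIzAyB2H3A2AzAyBzF
import Pool.Agent.Lib.MP_b6d339_lc.Cw3.JFzE2ByA3H2AzIzAyB2H3A2EzAzF
import Pool.Agent.Lib.MP_b6d339_lc.Cw3.JFzE2ByA3H2AzIzAyB2H3A2EzB2F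
import Pool.Agent.Lib.MP_b6d339_lc.Cw3.T0
import Pool.Agent.Lib.MP_b6d339_lc.Cw3.T1
import Pool.Agent.Lib.MP_b6d339_lc.Cw3.T10
import Pool.Agent.Lib.MP_b6d339_lc.Cw3.T11
import Pool.Agent.Lib.MP_b6d339_lc.Cw3.T12
import Pool.Agent.Lib.MP_b6d339_lc.Cw3.T13
import Pool.Agent.Lib.MP_b6d339_lc.Cw3.T14
import Pool.Agent.Lib.MP_b6d339_lc.Cw3.T15
import Pool.Agent.Lib.MP_b6d339_lc.Cw3.T16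
import Pool.Agent.Lib.MP_b6d339_lc.Cw3.T17
import Pool.Agent.Lib.MP_b6d339_lc.Cw3.T18
import Pool.Agent.Lib.MP_b6d339_lc.Cw3.T19
import Pool.Agent.Lib.MP_b6d339_lc.Cw3.T2
import Pool.Agent.Lib.MP_b6d339_lc.Cw3.T20
import Pool.Agent.Lib.MP_b6d339_lc.Cw3.T21
import Pool.Agent.Lib.MP_b6d339_lc.Cw3.T22
import Pool.Agent.Lib.MP_b6d339_lc.Cw3.T23
import Pool.Agent.Lib.MP_b6d339_lc.Cw3.T24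
import Pool.Agent.Lib.MP_b6d339_lc.Cw3.T25
import Pool.Agent.Lib.MP_b6d339_lc.Cw3.T26
import Pool.Agent.Lib.MP_b6d339_lc.Cw3.T28
import Pool.Agent.Lib.MP_b6d339_lc.Cw3.T29
import Pool.Agent.Lib.MP_b6d339_lc.Cw3.T3
import Pool.Agent.Lib.MP_b6d339_lc.Cw3.T30
import Pool.Agent.Lib.MP_b6d339_lc.Cw3.T31
import Pool.Agent.Lib.MP_b6d339_lc.Cw3.T32
import Pool.Agent.Lib.MP_b6d339_lc.Cw3.T34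
import Pool.Agent.Lib.MP_b6d339_lc.Cw3.T4
import Pool.Agent.Lib.MP_b6d339_lc.Cw3.T5
import Pool.Agent.Lib.MP_b6d339_lc.Cw3.T6
import Pool.Agent.Lib.MP_b6d339_lc.Cw3.T7
import Pool.Agent.Lib.MP_b6d339_lc.Cw3.T8
import Pool.Agent.Lib.MP_b6d339_lc.Cw3.T9
import Pool.Agent.Lib.MP_b6d339_lc.Cw3.XL
import Pool.Agent.Lib.MP_b6d339_lc.Cw3.ZFzE2ByA3H2AzIzA2H3A2EyAzF_0
import Pool.Agent.Lib.MP_b6d339_lc.Cw3.ZFzE2ByA3H2AzIzA2H3A2EyAzF_1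
import Pool.Agent.Lib.MP_b6d339_lc.Cw3.ZFzE2ByA3H2AzIzA2H3A2EyAzF_2
import Pool.Agent.Lib.MP_b6d339_lc.Cw3.ZFzE2ByA3H2AzIzA2H3A2EzB2F_0
import Pool.Agent.Lib.MP_b6d339_lc.Cw3.ZFzE2ByA3H2AzIzA2H3A2EzB2F_1
import Pool.Agent.Lib.MP_b6d339_lc.Cw3.ZFzE2ByA3H2AzIzA2H3A2EzB2F_2
import Pool.Agent.Lib.MP_b6d339_lc.Cw3.ZFzE2ByA3H2AzIzA2H3A2EzB2F_3
import Pool.Agent.Lib.MP_b6d339_lc.Cw3.ZFzE2ByA3H2AzIzA2H3AyB2EzF_0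
import Pool.Agent.Lib.MP_b6d339_lc.Cw3.ZFzE2ByA3H2AzIzA2H3AyB2EzF_1
import Pool.Agent.Lib.MP_b6d339_lc.Cw3.ZFzE2ByA3H2AzIzA2H3AyB2EzF_10
import Pool.Agent.Lib.MP_b6d339_lc.Cw3.ZFzE2ByA3H2AzIzA2H3AyB2EzF_11
import Pool.Agent.Lib.MP_b6d339_lc.Cw3.ZFzE2ByA3H2AzIzA2H3AyB2EzF_12
import Pool.Agent.Lib.MP_b6d339_lc.Cw3.ZFzE2ByA3H2AzIzA2H3AyB2EzF_13
import Pool.Agent.Lib.MP_b6d339_lc.Cw3.ZFzE2ByA3H2AzIzA2H3AyB2EzF_14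
import Pool.Agent.Lib.MP_b6d339_lc.Cw3.ZFzE2ByA3H2AzIzA2H3AyB2EzF_15
import Pool.Agent.Lib.MP_b6d339_lc.Cw3.ZFzE2ByA3H2AzIzA2H3AyB2EzF_16
import Pool.Agent.Lib.MP_b6d339_lc.Cw3.ZFzE2ByA3H2AzIzA2H3AyB2EzF_17
import Pool.Agent.Lib.MP_b6d339_lc.Cw3.ZFzE2ByA3H2AzIzA2H3AyB2EzF_18
import Pool.Agent.Lib.MP_b6d339_lc.Cw3.ZFzE2ByA3H2AzIzA2H3AyB2EzF_19
import Pool.Agent.Lib.MP_b6d339_lc.Cw3.ZFzE2ByA3H2AzIzA2H3AyB2EzF_2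
import Pool.Agent.Lib.MP_b6d339_lc.Cw3.ZFzE2ByA3H2AzIzA2H3AyB2EzF_20
import Pool.Agent.Lib.MP_b6d339_lc.Cw3.ZFzE2ByA3H2AzIzA2H3AyB2EzF_21
import Pool.Agent.Lib.MP_b6d339_lc.Cw3.ZFzE2ByA3H2AzIzA2H3AyB2EzF_22
import Pool.Agent.Lib.MP_b6d339_lc.Cw3.ZFzE2ByA3H2AzIzA2H3AyB2EzF_23
import Pool.Agent.Lib.MP_b6d339_lc.Cw3.ZFzE2ByA3H2AzIzA2H3AyB2EzF_24
import Pool.Agent.Lib.MP_b6d339_lc.Cw3.ZFzE2ByA3H2AzIzA2H3AyB2EzF_25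
import Pool.Agent.Lib.MP_b6d339_lc.Cw3.ZFzE2ByA3H2AzIzA2H3AyB2EzF_26
import Pool.Agent.Lib.MP_b6d339_lc.Cw3.ZFzE2ByA3H2AzIzA2H3AyB2EzF_27
import Pool.Agent.Lib.MP_b6d339_lc.Cw3.ZFzE2ByA3H2AzIzA2H3AyB2EzF_28
import Pool.Agent.Lib.MP_b6d339_lc.Cw3.ZFzE2ByA3H2AzIzA2H3AyB2EzF_29
import Pool.Agent.Lib.MP_b6d339_lc.Cw3.ZFzE2ByA3H2AzIzA2H3AyB2EzF_3
import Pool.Agent.Lib.MP_b6d339_lc.Cw3.ZFzE2ByA3H2AzIzA2H3AyB2EzF_30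
import Pool.Agent.Lib.MP_b6d339_lc.Cw3.ZFzE2ByA3H2AzIzA2H3AyB2EzF_31
import Pool.Agent.Lib.MP_b6d339_lc.Cw3.ZFzE2ByA3H2AzIzA2H3AyB2EzF_32
import Pool.Agent.Lib.MP_b6d339_lc.Cw3.ZFzE2ByA3H2AzIzA2H3AyB2EzF_33
import Pool.Agent.Lib.MP_b6d339_lc.Cw3.ZFzE2ByA3H2AzIzA2H3AyB2EzF_34
import Pool.Agent.Lib.MP_b6d339_lc.Cw3.ZFzE2ByA3H2AzIzA2H3AyB2EzF_35
import Pool.Agent.Lib.MP_b6d339_lc.Cw3.ZFzE2ByA3H2AzIzA2H3AyB2EzF_36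
import Pool.Agent.Lib.MP_b6d339_lc.Cw3.ZFzE2ByA3H2AzIzA2H3AyB2EzF_37
import Pool.Agent.Lib.MP_b6d339_lc.Cw3.ZFzE2ByA3H2AzIzA2H3AyB2EzF_38
import Pool.Agent.Lib.MP_b6d339_lc.Cw3.ZFzE2ByA3H2AzIzA2H3AyB2EzF_39
import Pool.Agent.Lib.MP_b6d339_lc.Cw3.ZFzE2ByA3H2AzIzA2H3AyB2EzF_4
import Pool.Agent.Lib.MP_b6d339_lc.Cw3.ZFzE2ByA3H2AzIzA2H3AyB2EzF_40
import Pool.Agent.Lib.MP_b6d339_lc.Cw3.ZFzE2ByA3H2AzIzA2H3AyB2EzF_41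
import Pool.Agent.Lib.MP_b6d339_lc.Cw3.ZFzE2ByA3H2AzIzA2H3AyB2EzF_42
import Pool.Agent.Lib.MP_b6d339_lc.Cw3.ZFzE2ByA3H2AzIzA2H3AyB2EzF_43
import Pool.Agent.Lib.MP_b6d339_lc.Cw3.ZFzE2ByA3H2AzIzA2H3AyB2EzF_44
import Pool.Agent.Lib.MP_b6d339_lc.Cw3.ZFzE2ByA3H2AzIzA2H3AyB2EzF_45
import Pool.Agent.Lib.MP_b6d339_lc.Cw3.ZFzE2ByA3H2AzIzA2H3AyB2EzF_46
import Pool.Agent.Lib.MP_b6d339_lc.Cw3.ZFzE2ByA3H2AzIzA2H3AyB2EzF_47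
import Pool.Agent.Lib.MP_b6d339_lc.Cw3.ZFzE2ByA3H2AzIzA2H3AyB2EzF_48
import Pool.Agent.Lib.MP_b6d339_lc.Cw3.ZFzE2ByA3H2AzIzA2H3AyB2EzF_49
import Pool.Agent.Lib.MP_b6d339_lc.Cw3.ZFzE2ByA3H2AzIzA2H3AyB2EzF_5
import Pool.Agent.Lib.MP_b6d339_lc.Cw3.ZFzE2ByA3H2AzIzA2H3AyB2EzF_50
import Pool.Agent.Lib.MP_b6d339_lc.Cw3.ZFzE2ByA3H2AzIzA2H3AyB2EzF_51
import Pool.Agent.Lib.MP_b6d339_lc.Cw3.ZFzE2ByA3H2AzIzA2H3AyB2EzF_52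
import Pool.Agent.Lib.MP_b6d339_lc.Cw3.ZFzE2ByA3H2AzIzA2H3AyB2EzF_53
import Pool.Agent.Lib.MP_b6d339_lc.Cw3.ZFzE2ByA3H2AzIzA2H3AyB2EzF_54
import Pool.Agent.Lib.MP_b6d339_lc.Cw3.ZFzE2ByA3H2AzIzA2H3AyB2EzF_55
import Pool.Agent.Lib.MP_b6d339_lc.Cw3.ZFzE2ByA3H2AzIzA2H3AyB2EzF_56
import Pool.Agent.Lib.MP_b6d339_lc.Cw3.ZFzE2ByA3H2AzIzA2H3AyB2EzF_57
import Pool.Agent.Lib.MP_b6d339_lc.Cw3.ZFzE2ByA3H2AzIzA2H3AyB2EzF_58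
import Pool.Agent.Lib.MP_b6d339_lc.Cw3.ZFzE2ByA3H2AzIzA2H3AyB2EzF_59
import Pool.Agent.Lib.MP_b6d339_lc.Cw3.ZFzE2ByA3H2AzIzA2H3AyB2EzF_6
import Pool.Agent.Lib.MP_b6d339_lc.Cw3.ZFzE2ByA3H2AzIzA2H3AyB2EzF_60
import Pool.Agent.Lib.MP_b6d339_lc.Cw3.ZFzE2ByA3H2AzIzA2H3AyB2EzF_61
import Pool.Agent.Lib.MP_b6d339_lc.Cw3.ZFzE2ByA3H2AzIzA2H3AyB2EzF_7
import Pool.Agent.Lib.MP_b6d339_lc.Cw3.ZFzE2ByA3H2AzIzA2H3AyB2EzF_8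
import Pool.Agent.Lib.MP_b6d339_lc.Cw3.ZFzE2ByA3H2AzIzA2H3AyB2EzF_9
import Pool.Agent.Lib.MP_b6d339_lc.Cw3.ZFzE2ByA3H2AzIzAyB2H3A2AzAyBzF_0
import Pool.Agent.Lib.MP_b6d339_lc.Cw3.ZFzE2ByA3H2AzIzAyB2H3A2EzAzF_0
import Pool.Agent.Lib.MP_b6d339_lc.Cw3.ZFzE2ByA3H2AzIzAyB2H3A2EzAzF_1
import Pool.Agent.Lib.MP_b6d339_lc.Cw3.ZFzE2ByA3H2AzIzAyB2H3A2EzAzF_2
import Pool.Agent.Lib.MP_b6d339_lc.Cw3.ZFzE2ByA3H2AzIzAyB2H3A2EzAzF_3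
import Pool.Agent.Lib.MP_b6d339_lc.Cw3.ZFzE2ByA3H2AzIzAyB2H3A2EzAzF_4
import Pool.Agent.Lib.MP_b6d339_lc.Cw3.ZFzE2ByA3H2AzIzAyB2H3A2EzAzF_5
import Pool.Agent.Lib.MP_b6d339_lc.Cw3.ZFzE2ByA3H2AzIzAyB2H3A2EzB2F_0
import Pool.Agent.Lib.MP_b6d339_lc.Cw3.ZFzE2ByA3H2AzIzAyB2H3A2EzB2F_1
import Pool.Agent.Lib.MP_b6d339_lc.Cw3.ZFzE2ByA3H2AzIzAyB2H3A2EzB2F_2
import Pool.Agent.Lib.MP_b6d339_lc.Cw3.ZFzE2ByA3H2AzIzAyB2H3A2EzB2F_3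
import Pool.Agent.Lib.MP_b6d339_lc.Cw3.ZFzE2ByA3H2AzIzAyB2H3A2EzB2F_4
import Pool.Agent.Lib.MP_b6d339_lc.Cw3.ZFzE2ByA3H2AzIzAyB2H3A2EzB2F_5
import Pool.Agent.Lib.MP_b6d339_lc.Pos.XTreeC
import Pool.Agent.Lib.MP_b6d339_lc.Pos.YQ

/-!
# Erdős 592, three levels: classes of words
-/

namespace MPb6R

open MPb6P

theorem iiNFzE2ByA3H2AzIzA2H3A2EyAzF_k : iiNFzE2ByA3H2AzIzA2H3A2EyAzF.Fa (Itm.ok 206) := (BT.Fa_mk (BT.Fa_mk (BT.Fa_mk (BT.Fa_mk (BT.Fa_mk (BT.Fa_mk (BT.Fa_mk (BT.Fa_mk (BT.Fa_leaf (P := Itm.ok 206) (iqf tpr168_c)) (BT.Fa_leaf (P := Itm.ok 206) (iqf tpr500_c))) (BT.Fa_leaf (P := Itm.ok 206) (iqb tpr500_c))) (BT.Fa_mk (BT.Fa_mk (BT.Fa_leaf (P := Itm.ok 206) (iqf tpr8_c)) (BT.Fa_leaf (P := Itm.ok 206) (iqf tpr5_c))) (BT.Fa_leaf (P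 := Itm.ok 206) (iqf tpr656_c)))) (BT.Fa_mk (BT.Fa_mk (BT.Fa_mk (BT.Fa_leaf (P := Itm.ok 206) (iqf tpr608_c)) (BT.Fa_leaf (P := Itm.ok 206) (iqb tpr72_c))) (BT.Fa_leaf (P := Itm.ok 206) (iqf tpr616_c))) (BT.Fa_mk (BT.Fa_leaf (P := Itm.ok 206) (iqf tpr618_c)) (BT.Fa_leaf (P := Itm.ok 206) (iqb tpr504_c))))) (BT.Fa_mk (BT.Fa_mk (BT.Fa_mk (BT.Fa_mk (BT.Fa_leaf (P := Itm.ok 206) (iqf tpr515_c)) (BT.Fa_leaf (P := Itm.ok 206) (iqf tpr103_c))) (BT.Fa_leaf (P := Itm.ok 206) (iqb tpr513_c))) (BT.Fa_mk (BT.Fa_mk (BT.Fa_leaf (P := Itm.ok 206) (iqf tpr239_c)) (BT.Fa_leaf (P := Itm.ok 206) (iqb tpr607_c))) (BT.Fa_leaf (P := Itm.ok 206) (iqb tpr589_c)))) (BT.Fa_mk (BT.Fa_mk (BT.Fa_mk (BT.Fa_leaf (P := Itm.ok 206) (iqf tpr666_c)) (BT.Fa_leaf (P :=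 Itm.ok 206) (iqf tpr562_c))) (BT.Fa_leaf (P := Itm.ok 206) (iqb tpr499_c))) (BT.Fa_mk (BT.Fa_leaf (P := Itm.ok 206) (iqf tpr4_c)) (BT.Fa_leaf (P := Itm.ok 206) (iqb tpr82_c)))))) (BT.Fa_mk (BT.Fa_mk (BT.Fa_mk (BT.Fa_mk (BT.Fa_mk (BT.Fa_leaf (P := Itm.ok 206) (iqf tpr499_c)) (BT.Fa_leaf (P := Itm.ok 206) (iqb tpr675_c))) (BT.Fa_leaf (P := Itm.ok 206) (iqf tpr622_c))) (BT.Fa_mk (BT.Fa_mk (BT.Fa_leaf (P := Itm.ok 206) (iqb tpr518_c)) (BT.Fa_leaf (P := Itm.ok 206) (iqf tpr609_c))) (BT.Fa_leaf (P := Itm.ok 206) (iqb tpr606_c)))) (BT.Fa_mk (BT.Fa_mk (BT.Fa_mk (BT.Fa_leaf (P := Itm.ok 206) (iqf tpr625_c)) (BT.Fa_leaf (P := Itm.ok 206) (iqf tpr576_c))) (BT.Fa_leaf (P := Itm.ok 206) (iqb tpr509_c))) (BT.Fa_mk (BT.Fa_leaf (P := Itm.ok 206) (iqf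 tpr210_c)) (BT.Fa_leaf (P := Itm.ok 206) (iqf tpr16_c))))) (BT.Fa_mk (BT.Fa_mk (BT.Fa_mk (BT.Fa_mk (BT.Fa_leaf (P := Itm.ok 206) (iqf tpr721_c)) (BT.Fa_leaf (P := Itm.ok 206) (iqb tpr259_c))) (BT.Fa_leaf (P := Itm.ok 206) (iqf tpr613_c))) (BT.Fa_mk (BT.Fa_leaf (P := Itm.ok 206) (iqb tpr508_c)) (BT.Fa_leaf (P := Itm.ok 206) (iqf tpr516_c)))) (BT.Fa_mk (BT.Fa_mk (BT.Fa_mk (BT.Fa_leaf (P := Itm.ok 206) (iqb tpr458_c)) (BT.Fa_leaf (P := Itm.ok 206) (iqb tpr236_c))) (BT.Fa_leaf (P := Itm.ok 206) (iqb tpr547_c))) (BT.Fa_mk (BT.Fa_leaf (P := Itm.ok 206) (iqb tpr647_c)) (BT.Fa_leaf (P := Itm.ok 206) (iqf tpr692_c))))))) (BT.Fa_mk (BT.Fa_mk (BT.Fa_mk (BT.Fa_mk (BT.Fa_mk (BT.Fa_mk (BT.Fa_leaf (P := Itm.ok 206) (iqf tpr474_c)) (BT.Fa_leaf (P :=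 Itm.ok 206) (iqb tpr566_c))) (BT.Fa_leaf (P := Itm.ok 206) (iqf tpr537_c))) (BT.Fa_mk (BT.Fa_mk (BT.Fa_leaf (P := Itm.ok 206) (iqf tpr501_c)) (BT.Fa_leaf (P := Itm.ok 206) (iqf tpr642_c))) (BT.Fa_leaf (P := Itm.ok 206) (iqb tpr524_c)))) (BT.Fa_mk (BT.Fa_mk (BT.Fa_mk (BT.Fa_leaf (P := Itm.ok 206) (iqb tpr545_c)) (BT.Fa_leaf (P := Itm.ok 206) (iqb tpr677_c))) (BT.Fa_leaf (P := Itm.ok 206) (iqf tpr294_c))) (BT.Fa_mk (BT.Fa_leaf (P := Itm.ok 206) (iqf tpr344_c)) (BT.Fa_leaf (P := Itm.ok 206) (iqf tpr26_c))))) (BT.Fa_mk (BT.Fa_mk (BT.Fa_mk (BT.Fa_mk (BT.Fa_leaf (P := Itm.ok 206) (iqb tpr630_c)) (BT.Fa_leaf (P := Itm.ok 206) (iqb tpr81_c))) (BT.Fa_leaf (P := Itm.ok 206) (iqb tpr571_c))) (BT.Fa_mk (BT.Fa_leaf (P := Itm.ok 206) (iqf tpr1681_c))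 (BT.Fa_leaf (P := Itm.ok 206) (iqf tpr702_c)))) (BT.Fa_mk (BT.Fa_mk (BT.Fa_mk (BT.Fa_leaf (P := Itm.ok 206) (iqf tpr514_c)) (BT.Fa_leaf (P := Itm.ok 206) (iqb tpr519_c))) (BT.Fa_leaf (P := Itm.ok 206) (iqf tpr549_c))) (BT.Fa_mk (BT.Fa_leaf (P := Itm.ok 206) (iqf tpr528_c)) (BT.Fa_leaf (P := Itm.ok 206) (iqb tpr123_c)))))) (BT.Fa_mk (BT.Fa_mk (BT.Fa_mk (BT.Fa_mk (BT.Fa_mk (BT.Fa_leaf (P := Itm.ok 206) (iqf tpr521_c)) (BT.Fa_leaf (P := Itm.ok 206) (iqb tpr502_c))) (BT.Fa_leaf (P := Itm.ok 206) (iqf tpr523_c))) (BT.Fa_mk (BT.Fa_mk (BT.Fa_leaf (P := Itm.ok 206) (iqf tpr637_c)) (BT.Fa_leaf (P := Itm.ok 206) (iqb tpr87_c))) (BT.Fa_leaf (P := Itm.ok 206) (iqf tpr695_c)))) (BT.Fa_mk (BT.Fa_mk (BT.Fa_mk (BT.Fa_leaf (P := Itm.ok 206) (iqb tpr736_c))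 (BT.Fa_leaf (P := Itm.ok 206) (iqf tpr555_c))) (BT.Fa_leaf (P := Itm.ok 206) (iqb tpr507_c))) (BT.Fa_mk (BT.Fa_leaf (P := Itm.ok 206) (iqb tpr203_c)) (BT.Fa_leaf (P := Itm.ok 206) (iqb tpr629_c))))) (BT.Fa_mk (BT.Fa_mk (BT.Fa_mk (BT.Fa_mk (BT.Fa_leaf (P := Itm.ok 206) (iqb tpr506_c)) (BT.Fa_leaf (P := Itm.ok 206) (iqb tpr51_c))) (BT.Fa_leaf (P := Itm.ok 206) (iqb tpr557_c))) (BT.Fa_mk (BT.Fa_leaf (P := Itm.ok 206) (iqf tpr9_c)) (BT.Fa_leaf (P := Itm.ok 206) (iqb tpr526_c)))) (BT.Fa_mk (BT.Fa_mk (BT.Fa_mk (BT.Fa_leaf (P := Itm.ok 206) (iqf tpr606_c)) (BT.Fa_leaf (P := Itm.ok 206) (iqb tpr247_c))) (BT.Fa_leaf (P := Itm.ok 206) (iqb tpr238_c))) (BT.Fa_mk (BT.Fa_leaf (P := Itm.ok 206) (iqf tpr236_c)) (BT.Fa_leaf (P := Itm.ok 206) (iqf tpr10_c))))))))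 (BT.Fa_mk (BT.Fa_mk (BT.Fa_mk (BT.Fa_mk (BT.Fa_mk (BT.Fa_mk (BT.Fa_mk (BT.Fa_leaf (P := Itm.ok 206) (iqb tpr78_c)) (BT.Fa_leaf (P := Itm.ok 206) (iqb tpr978_c))) (BT.Fa_leaf (P := Itm.ok 206) (iqf tpr587_c))) (BT.Fa_mk (BT.Fa_mk (BT.Fa_leaf (P := Itm.ok 206) (iqb tpr124_c)) (BT.Fa_leaf (P := Itm.ok 206) (iqb tpr612_c))) (BT.Fa_leaf (P := Itm.ok 206) (iqf tpr82_c)))) (BT.Fa_mk (BT.Fa_mk (BT.Fa_mk (BT.Fa_leaf (P := Itm.ok 206) (iqb tpr295_c)) (BT.Fa_leaf (P := Itm.ok 206) (iqf tpr74_c))) (BT.Fa_leaf (P := Itm.ok 206) (iqb tpr406_c))) (BT.Fa_mk (BT.Fa_leaf (P := Itm.ok 206) (iqf tpr621_c)) (BT.Fa_leaf (P := Itm.ok 206) (iqf tpr711_c))))) (BT.Fa_mk (BT.Fa_mk (BT.Fa_mk (BT.Fa_mk (BT.Fa_leaf (P := Itm.ok 206) (iqf tpr720_c)) (BT.Fa_leaf (P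 := Itm.ok 206) (iqf tpr393_c))) (BT.Fa_leaf (P := Itm.ok 206) (iqb tpr122_c))) (BT.Fa_mk (BT.Fa_mk (BT.Fa_leaf (P := Itm.ok 206) (iqf tpr632_c)) (BT.Fa_leaf (P := Itm.ok 206) (iqf tpr633_c))) (BT.Fa_leaf (P := Itm.ok 206) (iqf tpr619_c)))) (BT.Fa_mk (BT.Fa_mk (BT.Fa_mk (BT.Fa_leaf (P := Itm.ok 206) (iqb tpr1182_c)) (BT.Fa_leaf (P := Itm.ok 206) (iqf tpr953_c))) (BT.Fa_leaf (P := Itm.ok 206) (iqb tpr533_c))) (BT.Fa_mk (BT.Fa_leaf (P := Itm.ok 206) (iqb tpr2433_c)) (BT.Fa_leaf (P := Itm.ok 206) (iqf tpr1190_c)))))) (BT.Fa_mk (BT.Fa_mk (BT.Fa_mk (BT.Fa_mk (BT.Fa_mk (BT.Fa_leaf (P := Itm.ok 206) (iqf tpr631_c)) (BT.Fa_leaf (P := Itm.ok 206) (iqb tpr544_c))) (BT.Fa_leaf (P := Itm.ok 206) (iqb tpr636_c))) (BT.Fa_mk (BT.Fa_mk (BT.Fa_leaf (P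 := Itm.ok 206) (iqf tpr75_c)) (BT.Fa_leaf (P := Itm.ok 206) (iqf tpr315_c))) (BT.Fa_leaf (P := Itm.ok 206) (iqf tpr706_c)))) (BT.Fa_mk (BT.Fa_mk (BT.Fa_mk (BT.Fa_leaf (P := Itm.ok 206) (iqf tpr1137_c)) (BT.Fa_leaf (P := Itm.ok 206) (iqf tpr527_c))) (BT.Fa_leaf (P := Itm.ok 206) (iqb tpr516_c))) (BT.Fa_mk (BT.Fa_leaf (P := Itm.ok 206) (iqb tpr17_c)) (BT.Fa_leaf (P := Itm.ok 206) (iqf tpr568_c))))) (BT.Fa_mk (BT.Fa_mk (BT.Fa_mk (BT.Fa_mk (BT.Fa_leaf (P := Itm.ok 206) (iqb tpr106_c)) (BT.Fa_leaf (P := Itm.ok 206) (iqb tpr615_c))) (BT.Fa_leaf (P := Itm.ok 206) (iqb tpr582_c))) (BT.Fa_mk (BT.Fa_leaf (P := Itm.ok 206) (iqf tpr91_c)) (BT.Fa_leaf (P := Itm.ok 206) (iqf tpr681_c)))) (BT.Fa_mk (BT.Fa_mk (BT.Fa_mk (BT.Fa_leaf (P := Itm.ok 206)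 (iqf tpr591_c)) (BT.Fa_leaf (P := Itm.ok 206) (iqb tpr511_c))) (BT.Fa_leaf (P := Itm.ok 206) (iqb tpr534_c))) (BT.Fa_mk (BT.Fa_leaf (P := Itm.ok 206) (iqf tpr1457_c)) (BT.Fa_leaf (P := Itm.ok 206) (iqb tpr659_c))))))) (BT.Fa_mk (BT.Fa_mk (BT.Fa_mk (BT.Fa_mk (BT.Fa_mk (BT.Fa_mk (BT.Fa_leaf (P := Itm.ok 206) (iqf tpr573_c)) (BT.Fa_leaf (P := Itm.ok 206) (iqf tpr22_c))) (BT.Fa_leaf (P := Itm.ok 206) (iqb tpr517_c))) (BT.Fa_mk (BT.Fa_mk (BT.Fa_leaf (P := Itm.ok 206) (iqf tpr548_c)) (BT.Fa_leaf (P := Itm.ok 206) (iqf tpr665_c))) (BT.Fa_leaf (P := Itm.ok 206) (iqb tpr579_c)))) (BT.Fa_mk (BT.Fa_mk (BT.Fa_mk (BT.Fa_leaf (P := Itm.ok 206) (iqf tpr89_c)) (BT.Fa_leaf (P := Itm.ok 206) (iqf tpr2028_c))) (BT.Fa_leaf (P := Itm.ok 206) (iqf tpr251_c)))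 (BT.Fa_mk (BT.Fa_leaf (P := Itm.ok 206) (iqf tpr620_c)) (BT.Fa_leaf (P := Itm.ok 206) (iqb tpr602_c))))) (BT.Fa_mk (BT.Fa_mk (BT.Fa_mk (BT.Fa_mk (BT.Fa_leaf (P := Itm.ok 206) (iqf tpr687_c)) (BT.Fa_leaf (P := Itm.ok 206) (iqf tpr611_c))) (BT.Fa_leaf (P := Itm.ok 206) (iqf tpr526_c))) (BT.Fa_mk (BT.Fa_leaf (P := Itm.ok 206) (iqb tpr62_c)) (BT.Fa_leaf (P := Itm.ok 206) (iqb tpr537_c)))) (BT.Fa_mk (BT.Fa_mk (BT.Fa_mk (BT.Fa_leaf (P := Itm.ok 206) (iqb tpr549_c)) (BT.Fa_leaf (P := Itm.ok 206) (iqb tpr510_c))) (BT.Fa_leaf (P := Itm.ok 206) (iqf tpr520_c))) (BT.Fa_mk (BT.Fa_leaf (P := Itm.ok 206) (iqf tpr610_c)) (BT.Fa_leaf (P := Itm.ok 206) (iqf tpr2024_c)))))) (BT.Fa_mk (BT.Fa_mk (BT.Fa_mk (BT.Fa_mk (BT.Fa_mk (BT.Fa_leaf (P := Itm.ok 206)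 (iqf tpr191_c)) (BT.Fa_leaf (P := Itm.ok 206) (iqf tpr503_c))) (BT.Fa_leaf (P := Itm.ok 206) (iqf tpr1747_c))) (BT.Fa_mk (BT.Fa_mk (BT.Fa_leaf (P := Itm.ok 206) (iqf tpr1732_c)) (BT.Fa_leaf (P := Itm.ok 206) (iqf tpr672_c))) (BT.Fa_leaf (P := Itm.ok 206) (iqf tpr670_c)))) (BT.Fa_mk (BT.Fa_mk (BT.Fa_mk (BT.Fa_leaf (P := Itm.ok 206) (iqf tpr664_c)) (BT.Fa_leaf (P := Itm.ok 206) (iqf tpr704_c))) (BT.Fa_leaf (P := Itm.ok 206) (iqb tpr1813_c))) (BT.Fa_mk (BT.Fa_leaf (P := Itm.ok 206) (iqf tpr639_c)) (BT.Fa_leaf (P := Itm.ok 206) (iqf tpr688_c))))) (BT.Fa_mk (BT.Fa_mk (BT.Fa_mk (BT.Fa_mk (BT.Fa_leaf (P := Itm.ok 206) (iqb tpr689_c)) (BT.Fa_leaf (P := Itm.ok 206) (iqb tpr90_c))) (BT.Fa_leaf (P := Itm.ok 206) (iqf tpr522_c))) (BT.Fa_mk (BT.Fa_leaf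 (P := Itm.ok 206) (iqb tpr294_c)) (BT.Fa_leaf (P := Itm.ok 206) (iqb tpr556_c)))) (BT.Fa_mk (BT.Fa_mk (BT.Fa_mk (BT.Fa_leaf (P := Itm.ok 206) (iqf tpr605_c)) (BT.Fa_leaf (P := Itm.ok 206) (iqb tpr565_c))) (BT.Fa_leaf (P := Itm.ok 206) (iqf tpr628_c))) (BT.Fa_mk (BT.Fa_leaf (P := Itm.ok 206) (iqf tpr662_c)) (BT.Fa_leaf (P := Itm.ok 206) (iqf tpr686_c)))))))))

/-- all words of the class have labels -/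
theorem pokNFzE2ByA3H2AzIzA2H3A2EyAzF : POK 206 xNFzE2ByA3H2AzIzA2H3A2EyAzF :=
  y_pok (C0 := ceNFzE2ByA3H2AzIzA2H3A2EyAzF) (C1 := coNFzE2ByA3H2AzIzA2H3A2EyAzF) topNFzE2ByA3H2AzIzA2H3A2EyAzF nbNFzE2ByA3H2AzIzA2H3A2EyAzF (BT.Fa_of_all iiNFzE2ByA3H2AzIzA2H3A2EyAzF_c)
    (BT.Fa_mk (cyE_spec zeNFzE2ByA3H2AzIzA2H3A2EyAzF_0) (cyE_spec zeNFzE2ByA3H2AzIzA2H3A2EyAzF_1))
    (BT.Fa_mk (cyO_spec zoNFzE2ByA3H2AzIzA2H3A2EyAzF_0) (BT.Fa_mk (cyO_spec zoNFzE2ByA3H2AzIzA2H3A2EyAzF_1) (cyO_spec zoNFzE2ByA3H2AzIzA2H3A2EyAzF_2)))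
    iiNFzE2ByA3H2AzIzA2H3A2EyAzF_k

theorem iiNFzE2ByA3H2AzIzA2H3A2EzB2F_k : iiNFzE2ByA3H2AzIzA2H3A2EzB2F.Fa (Itm.ok 206) := (BT.Fa_mk (BT.Fa_mk (BT.Fa_mk (BT.Fa_mk (BT.Fa_mk (BT.Fa_mk (BT.Fa_mk (BT.Fa_mk (BT.Fa_leaf (P := Itm.ok 206) (iqf tpr168_c)) (BT.Fa_leaf (P := Itm.ok 206) (iqf tpr500_c))) (BT.Fa_mk (BT.Fa_leaf (P := Itm.ok 206) (iqb tpr90_c)) (BT.Fa_leaf (P := Itm.ok 206) (iqb tpr500_c)))) (BT.Fa_mk (BT.Fa_mk (BT.Fa_leaf (P := Itm.ok 206) (iqf tpr656_c)) (BT.Fa_leaf (P := Itm.ok 206) (iqf tpr12_c))) (BT.Fa_leaf (P := Itm.ok 206) (iqf tpr161_c)))) (BT.Fa_mk (BT.Fa_mk (BT.Fa_mk (BT.Fa_leaf (P := Itm.ok 206) (iqb tpr144_c)) (BT.Fa_leaf (P := Itm.ok 206) (iqb tpr6_c))) (BT.Fa_mk (BT.Fa_leaf (P := Itm.ok 206) (iqf tpr8_c)) (BT.Fa_leaf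 (P := Itm.ok 206) (iqb tpr18_c)))) (BT.Fa_mk (BT.Fa_mk (BT.Fa_leaf (P := Itm.ok 206) (iqf tpr259_c)) (BT.Fa_leaf (P := Itm.ok 206) (iqb tpr499_c))) (BT.Fa_leaf (P := Itm.ok 206) (iqf tpr609_c))))) (BT.Fa_mk (BT.Fa_mk (BT.Fa_mk (BT.Fa_mk (BT.Fa_leaf (P := Itm.ok 206) (iqb tpr133_c)) (BT.Fa_leaf (P := Itm.ok 206) (iqf tpr5_c))) (BT.Fa_mk (BT.Fa_leaf (P := Itm.ok 206) (iqf tpr191_c)) (BT.Fa_leaf (P := Itm.ok 206) (iqb tpr953_c)))) (BT.Fa_mk (BT.Fa_mk (BT.Fa_leaf (P := Itm.ok 206) (iqf tpr931_c)) (BT.Fa_leaf (P := Itm.ok 206) (iqf tpr95_c))) (BT.Fa_leaf (P := Itm.ok 206) (iqb tpr518_c)))) (BT.Fa_mk (BT.Fa_mk (BT.Fa_mk (BT.Fa_leaf (P := Itm.ok 206) (iqf tpr541_c)) (BT.Fa_leaf (P := Itm.ok 206) (iqb tpr606_c))) (BT.Fa_mk (BT.Fa_leaf (P :=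 Itm.ok 206) (iqb tpr547_c)) (BT.Fa_leaf (P := Itm.ok 206) (iqb tpr667_c)))) (BT.Fa_mk (BT.Fa_mk (BT.Fa_leaf (P := Itm.ok 206) (iqb tpr705_c)) (BT.Fa_leaf (P := Itm.ok 206) (iqb tpr504_c))) (BT.Fa_leaf (P := Itm.ok 206) (iqb tpr40_c)))))) (BT.Fa_mk (BT.Fa_mk (BT.Fa_mk (BT.Fa_mk (BT.Fa_mk (BT.Fa_leaf (P := Itm.ok 206) (iqb tpr1028_c)) (BT.Fa_leaf (P := Itm.ok 206) (iqb tpr167_c))) (BT.Fa_mk (BT.Fa_leaf (P := Itm.ok 206) (iqb tpr627_c)) (BT.Fa_leaf (P := Itm.ok 206) (iqf tpr721_c)))) (BT.Fa_mk (BT.Fa_mk (BT.Fa_leaf (P := Itm.ok 206) (iqb tpr1126_c)) (BT.Fa_leaf (P := Itm.ok 206) (iqf tpr520_c))) (BT.Fa_leaf (P := Itm.ok 206) (iqf tpr94_c)))) (BT.Fa_mk (BT.Fa_mk (BT.Fa_mk (BT.Fa_leaf (P := Itm.ok 206) (iqb tpr1839_c)) (BT.Fa_leaf (P :=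 Itm.ok 206) (iqf tpr632_c))) (BT.Fa_mk (BT.Fa_leaf (P := Itm.ok 206) (iqf tpr977_c)) (BT.Fa_leaf (P := Itm.ok 206) (iqf tpr681_c)))) (BT.Fa_mk (BT.Fa_mk (BT.Fa_leaf (P := Itm.ok 206) (iqf tpr107_c)) (BT.Fa_leaf (P := Itm.ok 206) (iqb tpr295_c))) (BT.Fa_leaf (P := Itm.ok 206) (iqb tpr2494_c))))) (BT.Fa_mk (BT.Fa_mk (BT.Fa_mk (BT.Fa_mk (BT.Fa_leaf (P := Itm.ok 206) (iqb tpr221_c)) (BT.Fa_leaf (P := Itm.ok 206) (iqb tpr244_c))) (BT.Fa_mk (BT.Fa_leaf (P := Itm.ok 206) (iqb tpr55_c)) (BT.Fa_leaf (P := Itm.ok 206) (iqb tpr47_c)))) (BT.Fa_mk (BT.Fa_mk (BT.Fa_leaf (P := Itm.ok 206) (iqb tpr659_c)) (BT.Fa_leaf (P := Itm.ok 206) (iqb tpr20_c))) (BT.Fa_leaf (P := Itm.ok 206) (iqb tpr33_c)))) (BT.Fa_mk (BT.Fa_mk (BT.Fa_mk (BT.Fa_leaf (P := Itm.ok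 206) (iqf tpr92_c)) (BT.Fa_leaf (P := Itm.ok 206) (iqf tpr738_c))) (BT.Fa_mk (BT.Fa_leaf (P := Itm.ok 206) (iqb tpr9_c)) (BT.Fa_leaf (P := Itm.ok 206) (iqb tpr15_c)))) (BT.Fa_mk (BT.Fa_mk (BT.Fa_leaf (P := Itm.ok 206) (iqb tpr788_c)) (BT.Fa_leaf (P := Itm.ok 206) (iqb tpr63_c))) (BT.Fa_leaf (P := Itm.ok 206) (iqb tpr10_c))))))) (BT.Fa_mk (BT.Fa_mk (BT.Fa_mk (BT.Fa_mk (BT.Fa_mk (BT.Fa_mk (BT.Fa_leaf (P := Itm.ok 206) (iqb tpr97_c)) (BT.Fa_leaf (P := Itm.ok 206) (iqf tpr131_c))) (BT.Fa_mk (BT.Fa_leaf (P := Itm.ok 206) (iqf tpr35_c)) (BT.Fa_leaf (P := Itm.ok 206) (iqb tpr28_c)))) (BT.Fa_mk (BT.Fa_mk (BT.Fa_leaf (P := Itm.ok 206) (iqb tpr31_c)) (BT.Fa_leaf (P := Itm.ok 206) (iqb tpr21_c))) (BT.Fa_leaf (P := Itm.ok 206) (iqb tpr849_c))))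 (BT.Fa_mk (BT.Fa_mk (BT.Fa_mk (BT.Fa_leaf (P := Itm.ok 206) (iqf tpr216_c)) (BT.Fa_leaf (P := Itm.ok 206) (iqf tpr89_c))) (BT.Fa_mk (BT.Fa_leaf (P := Itm.ok 206) (iqb tpr188_c)) (BT.Fa_leaf (P := Itm.ok 206) (iqb tpr644_c)))) (BT.Fa_mk (BT.Fa_mk (BT.Fa_leaf (P := Itm.ok 206) (iqf tpr61_c)) (BT.Fa_leaf (P := Itm.ok 206) (iqf tpr105_c))) (BT.Fa_leaf (P := Itm.ok 206) (iqf tpr103_c))))) (BT.Fa_mk (BT.Fa_mk (BT.Fa_mk (BT.Fa_mk (BT.Fa_leaf (P := Itm.ok 206) (iqf tpr515_c)) (BT.Fa_leaf (P := Itm.ok 206) (iqf tpr46_c))) (BT.Fa_mk (BT.Fa_leaf (P := Itm.ok 206) (iqb tpr510_c)) (BT.Fa_leaf (P := Itm.ok 206) (iqb tpr725_c)))) (BT.Fa_mk (BT.Fa_mk (BT.Fa_leaf (P := Itm.ok 206) (iqb tpr524_c)) (BT.Fa_leaf (P := Itm.ok 206) (iqb tpr505_c))) (BT.Fa_leaf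 (P := Itm.ok 206) (iqb tpr513_c)))) (BT.Fa_mk (BT.Fa_mk (BT.Fa_mk (BT.Fa_leaf (P := Itm.ok 206) (iqb tpr508_c)) (BT.Fa_leaf (P := Itm.ok 206) (iqb tpr607_c))) (BT.Fa_mk (BT.Fa_leaf (P := Itm.ok 206) (iqb tpr768_c)) (BT.Fa_leaf (P := Itm.ok 206) (iqf tpr48_c)))) (BT.Fa_mk (BT.Fa_mk (BT.Fa_leaf (P := Itm.ok 206) (iqf tpr499_c)) (BT.Fa_leaf (P := Itm.ok 206) (iqb tpr116_c))) (BT.Fa_leaf (P := Itm.ok 206) (iqb tpr816_c)))))) (BT.Fa_mk (BT.Fa_mk (BT.Fa_mk (BT.Fa_mk (BT.Fa_mk (BT.Fa_leaf (P := Itm.ok 206) (iqf tpr51_c)) (BT.Fa_leaf (P := Itm.ok 206) (iqb tpr54_c))) (BT.Fa_mk (BT.Fa_leaf (P := Itm.ok 206) (iqf tpr45_c)) (BT.Fa_leaf (P := Itm.ok 206) (iqb tpr29_c)))) (BT.Fa_mk (BT.Fa_mk (BT.Fa_leaf (P := Itm.ok 206) (iqb tpr39_c)) (BT.Fa_leaf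 (P := Itm.ok 206) (iqf tpr251_c))) (BT.Fa_leaf (P := Itm.ok 206) (iqb tpr101_c)))) (BT.Fa_mk (BT.Fa_mk (BT.Fa_mk (BT.Fa_leaf (P := Itm.ok 206) (iqb tpr730_c)) (BT.Fa_leaf (P := Itm.ok 206) (iqb tpr1196_c))) (BT.Fa_mk (BT.Fa_leaf (P := Itm.ok 206) (iqb tpr114_c)) (BT.Fa_leaf (P := Itm.ok 206) (iqf tpr940_c)))) (BT.Fa_mk (BT.Fa_mk (BT.Fa_leaf (P := Itm.ok 206) (iqf tpr143_c)) (BT.Fa_leaf (P := Itm.ok 206) (iqf tpr139_c))) (BT.Fa_leaf (P := Itm.ok 206) (iqb tpr113_c))))) (BT.Fa_mk (BT.Fa_mk (BT.Fa_mk (BT.Fa_mk (BT.Fa_leaf (P := Itm.ok 206) (iqf tpr50_c)) (BT.Fa_leaf (P := Itm.ok 206) (iqf tpr150_c))) (BT.Fa_mk (BT.Fa_leaf (P := Itm.ok 206) (iqb tpr726_c)) (BT.Fa_leaf (P := Itm.ok 206) (iqb tpr82_c)))) (BT.Fa_mk (BT.Fa_mk (BT.Fa_leaf (P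 := Itm.ok 206) (iqb tpr557_c)) (BT.Fa_leaf (P := Itm.ok 206) (iqb tpr628_c))) (BT.Fa_leaf (P := Itm.ok 206) (iqb tpr236_c)))) (BT.Fa_mk (BT.Fa_mk (BT.Fa_mk (BT.Fa_leaf (P := Itm.ok 206) (iqf tpr26_c)) (BT.Fa_leaf (P := Itm.ok 206) (iqb tpr511_c))) (BT.Fa_leaf (P := Itm.ok 206) (iqf tpr501_c))) (BT.Fa_mk (BT.Fa_mk (BT.Fa_leaf (P := Itm.ok 206) (iqf tpr16_c)) (BT.Fa_leaf (P := Itm.ok 206) (iqf tpr711_c))) (BT.Fa_leaf (P := Itm.ok 206) (iqf tpr702_c)))))))) (BT.Fa_mk (BT.Fa_mk (BT.Fa_mk (BT.Fa_mk (BT.Fa_mk (BT.Fa_mk (BT.Fa_mk (BT.Fa_leaf (P := Itm.ok 206) (iqf tpr633_c)) (BT.Fa_leaf (P := Itm.ok 206) (iqf tpr9_c))) (BT.Fa_mk (BT.Fa_leaf (P := Itm.ok 206) (iqf tpr985_c)) (BT.Fa_leaf (P := Itm.ok 206) (iqb tpr247_c)))) (BT.Fa_mk (BT.Fa_mk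 (BT.Fa_leaf (P := Itm.ok 206) (iqb tpr507_c)) (BT.Fa_leaf (P := Itm.ok 206) (iqf tpr573_c))) (BT.Fa_leaf (P := Itm.ok 206) (iqf tpr618_c)))) (BT.Fa_mk (BT.Fa_mk (BT.Fa_mk (BT.Fa_leaf (P := Itm.ok 206) (iqf tpr239_c)) (BT.Fa_leaf (P := Itm.ok 206) (iqf tpr584_c))) (BT.Fa_mk (BT.Fa_leaf (P := Itm.ok 206) (iqb tpr589_c)) (BT.Fa_leaf (P := Itm.ok 206) (iqf tpr10_c)))) (BT.Fa_mk (BT.Fa_mk (BT.Fa_leaf (P := Itm.ok 206) (iqb tpr565_c)) (BT.Fa_leaf (P := Itm.ok 206) (iqb tpr526_c))) (BT.Fa_leaf (P := Itm.ok 206) (iqf tpr506_c))))) (BT.Fa_mk (BT.Fa_mk (BT.Fa_mk (BT.Fa_mk (BT.Fa_leaf (P := Itm.ok 206) (iqf tpr236_c)) (BT.Fa_leaf (P := Itm.ok 206) (iqf tpr256_c))) (BT.Fa_mk (BT.Fa_leaf (P := Itm.ok 206) (iqf tpr606_c)) (BT.Fa_leaf (P := Itm.ok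 206) (iqb tpr222_c)))) (BT.Fa_mk (BT.Fa_mk (BT.Fa_leaf (P := Itm.ok 206) (iqf tpr1611_c)) (BT.Fa_leaf (P := Itm.ok 206) (iqf tpr583_c))) (BT.Fa_leaf (P := Itm.ok 206) (iqf tpr562_c)))) (BT.Fa_mk (BT.Fa_mk (BT.Fa_mk (BT.Fa_leaf (P := Itm.ok 206) (iqb tpr612_c)) (BT.Fa_leaf (P := Itm.ok 206) (iqb tpr541_c))) (BT.Fa_mk (BT.Fa_leaf (P := Itm.ok 206) (iqf tpr4_c)) (BT.Fa_leaf (P := Itm.ok 206) (iqb tpr506_c)))) (BT.Fa_mk (BT.Fa_mk (BT.Fa_leaf (P := Itm.ok 206) (iqf tpr1666_c)) (BT.Fa_leaf (P := Itm.ok 206) (iqf tpr613_c))) (BT.Fa_leaf (P := Itm.ok 206) (iqb tpr984_c)))))) (BT.Fa_mk (BT.Fa_mk (BT.Fa_mk (BT.Fa_mk (BT.Fa_mk (BT.Fa_leaf (P := Itm.ok 206) (iqb tpr509_c)) (BT.Fa_leaf (P := Itm.ok 206) (iqb tpr203_c))) (BT.Fa_mk (BT.Fa_leaf (P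 := Itm.ok 206) (iqf tpr24_c)) (BT.Fa_leaf (P := Itm.ok 206) (iqb tpr502_c)))) (BT.Fa_mk (BT.Fa_mk (BT.Fa_leaf (P := Itm.ok 206) (iqf tpr503_c)) (BT.Fa_leaf (P := Itm.ok 206) (iqf tpr619_c))) (BT.Fa_leaf (P := Itm.ok 206) (iqf tpr625_c)))) (BT.Fa_mk (BT.Fa_mk (BT.Fa_mk (BT.Fa_leaf (P := Itm.ok 206) (iqf tpr18_c)) (BT.Fa_leaf (P := Itm.ok 206) (iqf tpr23_c))) (BT.Fa_mk (BT.Fa_leaf (P := Itm.ok 206) (iqf tpr548_c)) (BT.Fa_leaf (P := Itm.ok 206) (iqb tpr519_c)))) (BT.Fa_mk (BT.Fa_mk (BT.Fa_leaf (P := Itm.ok 206) (iqf tpr628_c)) (BT.Fa_leaf (P := Itm.ok 206) (iqf tpr294_c))) (BT.Fa_leaf (P := Itm.ok 206) (iqf tpr521_c))))) (BT.Fa_mk (BT.Fa_mk (BT.Fa_mk (BT.Fa_mk (BT.Fa_leaf (P := Itm.ok 206) (iqf tpr556_c)) (BT.Fa_leaf (P := Itm.ok 206)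 (iqf tpr523_c))) (BT.Fa_mk (BT.Fa_leaf (P := Itm.ok 206) (iqf tpr576_c)) (BT.Fa_leaf (P := Itm.ok 206) (iqf tpr665_c)))) (BT.Fa_mk (BT.Fa_mk (BT.Fa_leaf (P := Itm.ok 206) (iqf tpr77_c)) (BT.Fa_leaf (P := Itm.ok 206) (iqf tpr22_c))) (BT.Fa_leaf (P := Itm.ok 206) (iqf tpr676_c)))) (BT.Fa_mk (BT.Fa_mk (BT.Fa_mk (BT.Fa_leaf (P := Itm.ok 206) (iqf tpr622_c)) (BT.Fa_leaf (P := Itm.ok 206) (iqf tpr585_c))) (BT.Fa_mk (BT.Fa_leaf (P := Itm.ok 206) (iqb tpr579_c)) (BT.Fa_leaf (P := Itm.ok 206) (iqb tpr516_c)))) (BT.Fa_mk (BT.Fa_mk (BT.Fa_leaf (P := Itm.ok 206) (iqb tpr17_c)) (BT.Fa_leaf (P := Itm.ok 206) (iqf tpr1547_c))) (BT.Fa_leaf (P := Itm.ok 206) (iqf tpr648_c))))))) (BT.Fa_mk (BT.Fa_mk (BT.Fa_mk (BT.Fa_mk (BT.Fa_mk (BT.Fa_mk (BT.Fa_leaf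 (P := Itm.ok 206) (iqb tpr582_c)) (BT.Fa_leaf (P := Itm.ok 206) (iqf tpr642_c))) (BT.Fa_mk (BT.Fa_leaf (P := Itm.ok 206) (iqf tpr1261_c)) (BT.Fa_leaf (P := Itm.ok 206) (iqb tpr48_c)))) (BT.Fa_mk (BT.Fa_mk (BT.Fa_leaf (P := Itm.ok 206) (iqb tpr939_c)) (BT.Fa_leaf (P := Itm.ok 206) (iqf tpr527_c))) (BT.Fa_leaf (P := Itm.ok 206) (iqf tpr151_c)))) (BT.Fa_mk (BT.Fa_mk (BT.Fa_mk (BT.Fa_leaf (P := Itm.ok 206) (iqf tpr620_c)) (BT.Fa_leaf (P := Itm.ok 206) (iqf tpr608_c))) (BT.Fa_mk (BT.Fa_leaf (P := Itm.ok 206) (iqf tpr568_c)) (BT.Fa_leaf (P := Itm.ok 206) (iqb tpr106_c)))) (BT.Fa_mk (BT.Fa_mk (BT.Fa_leaf (P := Itm.ok 206) (iqb tpr675_c)) (BT.Fa_leaf (P := Itm.ok 206) (iqf tpr616_c))) (BT.Fa_leaf (P := Itm.ok 206) (iqb tpr677_c))))) (BT.Fa_mk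 (BT.Fa_mk (BT.Fa_mk (BT.Fa_mk (BT.Fa_leaf (P := Itm.ok 206) (iqf tpr91_c)) (BT.Fa_leaf (P := Itm.ok 206) (iqf tpr591_c))) (BT.Fa_mk (BT.Fa_leaf (P := Itm.ok 206) (iqf tpr610_c)) (BT.Fa_leaf (P := Itm.ok 206) (iqf tpr526_c)))) (BT.Fa_mk (BT.Fa_mk (BT.Fa_leaf (P := Itm.ok 206) (iqb tpr534_c)) (BT.Fa_leaf (P := Itm.ok 206) (iqf tpr578_c))) (BT.Fa_leaf (P := Itm.ok 206) (iqf tpr687_c)))) (BT.Fa_mk (BT.Fa_mk (BT.Fa_mk (BT.Fa_leaf (P := Itm.ok 206) (iqb tpr62_c)) (BT.Fa_leaf (P := Itm.ok 206) (iqb tpr626_c))) (BT.Fa_mk (BT.Fa_leaf (P := Itm.ok 206) (iqb tpr592_c)) (BT.Fa_leaf (P := Itm.ok 206) (iqf tpr593_c)))) (BT.Fa_mk (BT.Fa_mk (BT.Fa_leaf (P := Itm.ok 206) (iqb tpr537_c)) (BT.Fa_leaf (P := Itm.ok 206) (iqb tpr549_c))) (BT.Fa_leaf (P :=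 Itm.ok 206) (iqf tpr690_c)))))) (BT.Fa_mk (BT.Fa_mk (BT.Fa_mk (BT.Fa_mk (BT.Fa_mk (BT.Fa_leaf (P := Itm.ok 206) (iqf tpr514_c)) (BT.Fa_leaf (P := Itm.ok 206) (iqf tpr538_c))) (BT.Fa_mk (BT.Fa_leaf (P := Itm.ok 206) (iqf tpr553_c)) (BT.Fa_leaf (P := Itm.ok 206) (iqb tpr517_c)))) (BT.Fa_mk (BT.Fa_mk (BT.Fa_leaf (P := Itm.ok 206) (iqb tpr661_c)) (BT.Fa_leaf (P := Itm.ok 206) (iqf tpr664_c))) (BT.Fa_leaf (P := Itm.ok 206) (iqb tpr715_c)))) (BT.Fa_mk (BT.Fa_mk (BT.Fa_mk (BT.Fa_leaf (P := Itm.ok 206) (iqb tpr671_c)) (BT.Fa_leaf (P := Itm.ok 206) (iqf tpr555_c))) (BT.Fa_mk (BT.Fa_leaf (P := Itm.ok 206) (iqb tpr703_c)) (BT.Fa_leaf (P := Itm.ok 206) (iqf tpr2024_c)))) (BT.Fa_mk (BT.Fa_mk (BT.Fa_leaf (P := Itm.ok 206) (iqb tpr72_c)) (BT.Fa_leaf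 (P := Itm.ok 206) (iqf tpr525_c))) (BT.Fa_leaf (P := Itm.ok 206) (iqf tpr25_c))))) (BT.Fa_mk (BT.Fa_mk (BT.Fa_mk (BT.Fa_mk (BT.Fa_leaf (P := Itm.ok 206) (iqf tpr663_c)) (BT.Fa_leaf (P := Itm.ok 206) (iqf tpr210_c))) (BT.Fa_mk (BT.Fa_leaf (P := Itm.ok 206) (iqb tpr647_c)) (BT.Fa_leaf (P := Itm.ok 206) (iqf tpr2565_c)))) (BT.Fa_mk (BT.Fa_mk (BT.Fa_leaf (P := Itm.ok 206) (iqb tpr986_c)) (BT.Fa_leaf (P := Itm.ok 206) (iqf tpr44_c))) (BT.Fa_leaf (P := Itm.ok 206) (iqf tpr603_c)))) (BT.Fa_mk (BT.Fa_mk (BT.Fa_mk (BT.Fa_leaf (P := Itm.ok 206) (iqf tpr245_c)) (BT.Fa_leaf (P := Itm.ok 206) (iqb tpr2566_c))) (BT.Fa_leaf (P := Itm.ok 206) (iqf tpr598_c))) (BT.Fa_mk (BT.Fa_mk (BT.Fa_leaf (P := Itm.ok 206) (iqf tpr147_c)) (BT.Fa_leaf (P := Itm.ok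 206) (iqf tpr947_c))) (BT.Fa_leaf (P := Itm.ok 206) (iqb tpr571_c)))))))))

/-- all words of the class have labels -/
theorem pokNFzE2ByA3H2AzIzA2H3A2EzB2F : POK 206 xNFzE2ByA3H2AzIzA2H3A2EzB2F :=
  y_pok (C0 := ceNFzE2ByA3H2AzIzA2H3A2EzB2F) (C1 := coNFzE2ByA3H2AzIzA2H3A2EzB2F) topNFzE2ByA3H2AzIzA2H3A2EzB2F nbNFzE2ByA3H2AzIzA2H3A2EzB2F (BT.Fa_of_all iiNFzE2ByA3H2AzIzA2H3A2EzB2F_c)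
    (BT.Fa_mk (cyE_spec zeNFzE2ByA3H2AzIzA2H3A2EzB2F_0) (BT.Fa_mk (cyE_spec zeNFzE2ByA3H2AzIzA2H3A2EzB2F_1) (cyE_spec zeNFzE2ByA3H2AzIzA2H3A2EzB2F_2)))
    (BT.Fa_mk (cyO_spec zoNFzE2ByA3H2AzIzA2H3A2EzB2F_0) (BT.Fa_mk (cyO_spec zoNFzE2ByA3H2AzIzA2H3A2EzB2F_1) (cyO_spec zoNFzE2ByA3H2AzIzA2H3A2EzB2F_2)))
    iiNFzE2ByA3H2AzIzA2H3A2EzB2F_k

theorem iiNFzE2ByA3H2AzIzA2H3AyB2EzF_k : iiNFzE2ByA3H2AzIzA2H3AyB2EzF.Fa (Itm.ok 206) := (BT.Fa_mk (BT.Fa_mk (BT.Fa_mk (BT.Fa_mk (BT.Fa_mk (BT.Fa_mk (BT.Fa_mk (BT.Fa_mk (BT.Fa_mk (BT.Fa_leaf (P := Itm.ok 206) (iqf tpr5_c)) (BT.Fa_leaf (P := Itm.ok 206) (iqf tpr500_c))) (BT.Fa_mk (BT.Fa_leaf (P := Itm.ok 206) (iqb tpr500_c)) (BT.Fa_leaf (P := Itm.ok 206) (iqf tpr506_c)))) (BT.Fa_mk (BT.Fa_mk (BT.Fa_leaf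 (P := Itm.ok 206) (iqb tpr506_c)) (BT.Fa_leaf (P := Itm.ok 206) (iqf tpr518_c))) (BT.Fa_leaf (P := Itm.ok 206) (iqb tpr518_c)))) (BT.Fa_mk (BT.Fa_mk (BT.Fa_mk (BT.Fa_leaf (P := Itm.ok 206) (iqb tpr501_c)) (BT.Fa_leaf (P := Itm.ok 206) (iqf tpr501_c))) (BT.Fa_mk (BT.Fa_leaf (P := Itm.ok 206) (iqf tpr541_c)) (BT.Fa_leaf (P := Itm.ok 206) (iqb tpr541_c)))) (BT.Fa_mk (BT.Fa_mk (BT.Fa_leaf (P := Itm.ok 206) (iqb tpr89_c)) (BT.Fa_leaf (P := Itm.ok 206) (iqb tpr562_c))) (BT.Fa_leaf (P := Itm.ok 206) (iqf tpr1028_c))))) (BT.Fa_mk (BT.Fa_mk (BT.Fa_mk (BT.Fa_mk (BT.Fa_leaf (P := Itm.ok 206) (iqb tpr1028_c)) (BT.Fa_leaf (P := Itm.ok 206) (iqb tpr618_c))) (BT.Fa_mk (BT.Fa_leaf (P := Itm.ok 206) (iqf tpr555_c)) (BT.Fa_leaf (P := Itm.ok 206) (iqf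 tpr239_c)))) (BT.Fa_mk (BT.Fa_mk (BT.Fa_leaf (P := Itm.ok 206) (iqb tpr239_c)) (BT.Fa_leaf (P := Itm.ok 206) (iqb tpr188_c))) (BT.Fa_leaf (P := Itm.ok 206) (iqf tpr210_c)))) (BT.Fa_mk (BT.Fa_mk (BT.Fa_mk (BT.Fa_leaf (P := Itm.ok 206) (iqf tpr48_c)) (BT.Fa_leaf (P := Itm.ok 206) (iqb tpr48_c))) (BT.Fa_mk (BT.Fa_leaf (P := Itm.ok 206) (iqb tpr577_c)) (BT.Fa_leaf (P := Itm.ok 206) (iqb tpr679_c)))) (BT.Fa_mk (BT.Fa_mk (BT.Fa_leaf (P := Itm.ok 206) (iqf tpr1730_c)) (BT.Fa_leaf (P := Itm.ok 206) (iqb tpr1730_c))) (BT.Fa_leaf (P := Itm.ok 206) (iqf tpr11_c)))))) (BT.Fa_mk (BT.Fa_mk (BT.Fa_mk (BT.Fa_mk (BT.Fa_mk (BT.Fa_leaf (P := Itm.ok 206) (iqf tpr748_c)) (BT.Fa_leaf (P := Itm.ok 206) (iqb tpr748_c))) (BT.Fa_mk (BT.Fa_leaf (P := Itm.ok 206)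 (iqf tpr168_c)) (BT.Fa_leaf (P := Itm.ok 206) (iqb tpr582_c)))) (BT.Fa_mk (BT.Fa_mk (BT.Fa_leaf (P := Itm.ok 206) (iqf tpr1015_c)) (BT.Fa_leaf (P := Itm.ok 206) (iqf tpr1233_c))) (BT.Fa_leaf (P := Itm.ok 206) (iqb tpr1105_c)))) (BT.Fa_mk (BT.Fa_mk (BT.Fa_mk (BT.Fa_leaf (P := Itm.ok 206) (iqf tpr1740_c)) (BT.Fa_leaf (P := Itm.ok 206) (iqb tpr1740_c))) (BT.Fa_mk (BT.Fa_leaf (P := Itm.ok 206) (iqb tpr1067_c)) (BT.Fa_leaf (P := Itm.ok 206) (iqf tpr540_c)))) (BT.Fa_mk (BT.Fa_mk (BT.Fa_leaf (P := Itm.ok 206) (iqf tpr977_c)) (BT.Fa_leaf (P := Itm.ok 206) (iqf tpr1750_c))) (BT.Fa_leaf (P := Itm.ok 206) (iqf tpr1747_c))))) (BT.Fa_mk (BT.Fa_mk (BT.Fa_mk (BT.Fa_mk (BT.Fa_leaf (P := Itm.ok 206) (iqf tpr2036_c)) (BT.Fa_leaf (P := Itm.ok 206) (iqb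 tpr1072_c))) (BT.Fa_mk (BT.Fa_leaf (P := Itm.ok 206) (iqb tpr637_c)) (BT.Fa_leaf (P := Itm.ok 206) (iqf tpr1103_c)))) (BT.Fa_mk (BT.Fa_mk (BT.Fa_leaf (P := Itm.ok 206) (iqf tpr609_c)) (BT.Fa_leaf (P := Itm.ok 206) (iqf tpr8_c))) (BT.Fa_leaf (P := Itm.ok 206) (iqf tpr606_c)))) (BT.Fa_mk (BT.Fa_mk (BT.Fa_mk (BT.Fa_leaf (P := Itm.ok 206) (iqb tpr606_c)) (BT.Fa_leaf (P := Itm.ok 206) (iqb tpr517_c))) (BT.Fa_mk (BT.Fa_leaf (P := Itm.ok 206) (iqf tpr812_c)) (BT.Fa_leaf (P := Itm.ok 206) (iqb tpr222_c)))) (BT.Fa_mk (BT.Fa_mk (BT.Fa_leaf (P := Itm.ok 206) (iqf tpr259_c)) (BT.Fa_leaf (P := Itm.ok 206) (iqf tpr572_c))) (BT.Fa_leaf (P := Itm.ok 206) (iqf tpr573_c))))))) (BT.Fa_mk (BT.Fa_mk (BT.Fa_mk (BT.Fa_mk (BT.Fa_mk (BT.Fa_mk (BT.Fa_leaf (P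 := Itm.ok 206) (iqb tpr692_c)) (BT.Fa_leaf (P := Itm.ok 206) (iqb tpr555_c))) (BT.Fa_mk (BT.Fa_leaf (P := Itm.ok 206) (iqf tpr547_c)) (BT.Fa_leaf (P := Itm.ok 206) (iqf tpr556_c)))) (BT.Fa_mk (BT.Fa_mk (BT.Fa_leaf (P := Itm.ok 206) (iqb tpr609_c)) (BT.Fa_leaf (P := Itm.ok 206) (iqb tpr9_c))) (BT.Fa_leaf (P := Itm.ok 206) (iqb tpr236_c)))) (BT.Fa_mk (BT.Fa_mk (BT.Fa_mk (BT.Fa_leaf (P := Itm.ok 206) (iqf tpr236_c)) (BT.Fa_leaf (P := Itm.ok 206) (iqf tpr562_c))) (BT.Fa_mk (BT.Fa_leaf (P := Itm.ok 206) (iqf tpr526_c)) (BT.Fa_leaf (P := Itm.ok 206) (iqb tpr54_c)))) (BT.Fa_mk (BT.Fa_mk (BT.Fa_leaf (P := Itm.ok 206) (iqf tpr54_c)) (BT.Fa_leaf (P := Itm.ok 206) (iqf tpr1029_c))) (BT.Fa_leaf (P := Itm.ok 206) (iqb tpr1024_c))))) (BT.Fa_mk (BT.Fa_mk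 (BT.Fa_mk (BT.Fa_mk (BT.Fa_leaf (P := Itm.ok 206) (iqb tpr812_c)) (BT.Fa_leaf (P := Itm.ok 206) (iqb tpr1120_c))) (BT.Fa_mk (BT.Fa_leaf (P := Itm.ok 206) (iqf tpr51_c)) (BT.Fa_leaf (P := Itm.ok 206) (iqb tpr314_c)))) (BT.Fa_mk (BT.Fa_mk (BT.Fa_leaf (P := Itm.ok 206) (iqb tpr323_c)) (BT.Fa_leaf (P := Itm.ok 206) (iqb tpr658_c))) (BT.Fa_leaf (P := Itm.ok 206) (iqb tpr1747_c)))) (BT.Fa_mk (BT.Fa_mk (BT.Fa_mk (BT.Fa_leaf (P := Itm.ok 206) (iqb tpr1732_c)) (BT.Fa_leaf (P := Itm.ok 206) (iqb tpr641_c))) (BT.Fa_mk (BT.Fa_leaf (P := Itm.ok 206) (iqb tpr706_c)) (BT.Fa_leaf (P := Itm.ok 206) (iqb tpr1137_c)))) (BT.Fa_mk (BT.Fa_mk (BT.Fa_leaf (P := Itm.ok 206) (iqf tpr780_c)) (BT.Fa_leaf (P := Itm.ok 206) (iqb tpr499_c))) (BT.Fa_leaf (P := Itm.ok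 206) (iqb tpr625_c)))))) (BT.Fa_mk (BT.Fa_mk (BT.Fa_mk (BT.Fa_mk (BT.Fa_mk (BT.Fa_leaf (P := Itm.ok 206) (iqf tpr517_c)) (BT.Fa_leaf (P := Itm.ok 206) (iqf tpr46_c))) (BT.Fa_mk (BT.Fa_leaf (P := Itm.ok 206) (iqb tpr721_c)) (BT.Fa_leaf (P := Itm.ok 206) (iqb tpr10_c)))) (BT.Fa_mk (BT.Fa_mk (BT.Fa_leaf (P := Itm.ok 206) (iqf tpr789_c)) (BT.Fa_leaf (P := Itm.ok 206) (iqb tpr2041_c))) (BT.Fa_leaf (P := Itm.ok 206) (iqb tpr1135_c)))) (BT.Fa_mk (BT.Fa_mk (BT.Fa_mk (BT.Fa_leaf (P := Itm.ok 206) (iqb tpr915_c)) (BT.Fa_leaf (P := Itm.ok 206) (iqb tpr556_c))) (BT.Fa_mk (BT.Fa_leaf (P := Itm.ok 206) (iqb tpr665_c)) (BT.Fa_leaf (P := Itm.ok 206) (iqf tpr912_c)))) (BT.Fa_mk (BT.Fa_mk (BT.Fa_leaf (P := Itm.ok 206) (iqb tpr563_c)) (BT.Fa_leaf (P :=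 Itm.ok 206) (iqf tpr1067_c))) (BT.Fa_leaf (P := Itm.ok 206) (iqb tpr953_c))))) (BT.Fa_mk (BT.Fa_mk (BT.Fa_mk (BT.Fa_mk (BT.Fa_leaf (P := Itm.ok 206) (iqb tpr1013_c)) (BT.Fa_leaf (P := Itm.ok 206) (iqf tpr627_c))) (BT.Fa_mk (BT.Fa_leaf (P := Itm.ok 206) (iqf tpr768_c)) (BT.Fa_leaf (P := Itm.ok 206) (iqf tpr563_c)))) (BT.Fa_mk (BT.Fa_mk (BT.Fa_leaf (P := Itm.ok 206) (iqb tpr8_c)) (BT.Fa_leaf (P := Itm.ok 206) (iqb tpr168_c))) (BT.Fa_leaf (P := Itm.ok 206) (iqb tpr780_c)))) (BT.Fa_mk (BT.Fa_mk (BT.Fa_mk (BT.Fa_leaf (P := Itm.ok 206) (iqf tpr222_c)) (BT.Fa_leaf (P := Itm.ok 206) (iqb tpr969_c))) (BT.Fa_leaf (P := Itm.ok 206) (iqb tpr22_c))) (BT.Fa_mk (BT.Fa_mk (BT.Fa_leaf (P := Itm.ok 206) (iqb tpr656_c)) (BT.Fa_leaf (P := Itm.ok 206) (iqb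 tpr1023_c))) (BT.Fa_leaf (P := Itm.ok 206) (iqf tpr1023_c)))))))) (BT.Fa_mk (BT.Fa_mk (BT.Fa_mk (BT.Fa_mk (BT.Fa_mk (BT.Fa_mk (BT.Fa_mk (BT.Fa_leaf (P := Itm.ok 206) (iqf tpr1022_c)) (BT.Fa_leaf (P := Itm.ok 206) (iqf tpr1105_c))) (BT.Fa_mk (BT.Fa_leaf (P := Itm.ok 206) (iqf tpr679_c)) (BT.Fa_leaf (P := Itm.ok 206) (iqf tpr700_c)))) (BT.Fa_mk (BT.Fa_mk (BT.Fa_leaf (P := Itm.ok 206) (iqf tpr1111_c)) (BT.Fa_leaf (P := Itm.ok 206) (iqf tpr1100_c))) (BT.Fa_leaf (P := Itm.ok 206) (iqb tpr1138_c)))) (BT.Fa_mk (BT.Fa_mk (BT.Fa_mk (BT.Fa_leaf (P := Itm.ok 206) (iqf tpr1138_c)) (BT.Fa_leaf (P := Itm.ok 206) (iqf tpr568_c))) (BT.Fa_mk (BT.Fa_leaf (P := Itm.ok 206) (iqb tpr596_c)) (BT.Fa_leaf (P := Itm.ok 206) (iqb tpr527_c)))) (BT.Fa_mk (BT.Fa_mk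 (BT.Fa_leaf (P := Itm.ok 206) (iqf tpr625_c)) (BT.Fa_leaf (P := Itm.ok 206) (iqf tpr596_c))) (BT.Fa_leaf (P := Itm.ok 206) (iqf tpr617_c))))) (BT.Fa_mk (BT.Fa_mk (BT.Fa_mk (BT.Fa_mk (BT.Fa_leaf (P := Itm.ok 206) (iqf tpr698_c)) (BT.Fa_leaf (P := Itm.ok 206) (iqb tpr11_c))) (BT.Fa_mk (BT.Fa_leaf (P := Itm.ok 206) (iqf tpr1554_c)) (BT.Fa_leaf (P := Itm.ok 206) (iqb tpr1029_c)))) (BT.Fa_mk (BT.Fa_mk (BT.Fa_leaf (P := Itm.ok 206) (iqb tpr1126_c)) (BT.Fa_leaf (P := Itm.ok 206) (iqb tpr554_c))) (BT.Fa_leaf (P := Itm.ok 206) (iqb tpr572_c)))) (BT.Fa_mk (BT.Fa_mk (BT.Fa_mk (BT.Fa_leaf (P := Itm.ok 206) (iqb tpr1769_c)) (BT.Fa_leaf (P := Itm.ok 206) (iqf tpr1112_c))) (BT.Fa_mk (BT.Fa_leaf (P := Itm.ok 206) (iqf tpr1132_c)) (BT.Fa_leaf (P :=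 Itm.ok 206) (iqb tpr734_c)))) (BT.Fa_mk (BT.Fa_mk (BT.Fa_leaf (P := Itm.ok 206) (iqb tpr1094_c)) (BT.Fa_leaf (P := Itm.ok 206) (iqf tpr2038_c))) (BT.Fa_leaf (P := Itm.ok 206) (iqb tpr1143_c)))))) (BT.Fa_mk (BT.Fa_mk (BT.Fa_mk (BT.Fa_mk (BT.Fa_mk (BT.Fa_leaf (P := Itm.ok 206) (iqb tpr585_c)) (BT.Fa_leaf (P := Itm.ok 206) (iqb tpr210_c))) (BT.Fa_mk (BT.Fa_leaf (P := Itm.ok 206) (iqf tpr701_c)) (BT.Fa_leaf (P := Itm.ok 206) (iqb tpr701_c)))) (BT.Fa_mk (BT.Fa_mk (BT.Fa_leaf (P := Itm.ok 206) (iqb tpr1010_c)) (BT.Fa_leaf (P := Itm.ok 206) (iqf tpr683_c))) (BT.Fa_leaf (P := Itm.ok 206) (iqf tpr17_c)))) (BT.Fa_mk (BT.Fa_mk (BT.Fa_mk (BT.Fa_leaf (P := Itm.ok 206) (iqf tpr656_c)) (BT.Fa_leaf (P := Itm.ok 206) (iqf tpr579_c))) (BT.Fa_mk (BT.Fa_leaf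 (P := Itm.ok 206) (iqb tpr259_c)) (BT.Fa_leaf (P := Itm.ok 206) (iqf tpr9_c)))) (BT.Fa_mk (BT.Fa_mk (BT.Fa_leaf (P := Itm.ok 206) (iqb tpr700_c)) (BT.Fa_leaf (P := Itm.ok 206) (iqb tpr526_c))) (BT.Fa_leaf (P := Itm.ok 206) (iqf tpr1013_c))))) (BT.Fa_mk (BT.Fa_mk (BT.Fa_mk (BT.Fa_mk (BT.Fa_leaf (P := Itm.ok 206) (iqf tpr560_c)) (BT.Fa_leaf (P := Itm.ok 206) (iqb tpr2026_c))) (BT.Fa_mk (BT.Fa_leaf (P := Itm.ok 206) (iqb tpr540_c)) (BT.Fa_leaf (P := Itm.ok 206) (iqb tpr560_c)))) (BT.Fa_mk (BT.Fa_mk (BT.Fa_leaf (P := Itm.ok 206) (iqf tpr969_c)) (BT.Fa_leaf (P := Itm.ok 206) (iqf tpr1742_c))) (BT.Fa_leaf (P := Itm.ok 206) (iqb tpr1753_c)))) (BT.Fa_mk (BT.Fa_mk (BT.Fa_mk (BT.Fa_leaf (P := Itm.ok 206) (iqf tpr975_c)) (BT.Fa_leaf (P := Itm.ok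 206) (iqf tpr1008_c))) (BT.Fa_leaf (P := Itm.ok 206) (iqb tpr2027_c))) (BT.Fa_mk (BT.Fa_mk (BT.Fa_leaf (P := Itm.ok 206) (iqb tpr1111_c)) (BT.Fa_leaf (P := Itm.ok 206) (iqb tpr507_c))) (BT.Fa_leaf (P := Itm.ok 206) (iqb tpr698_c))))))) (BT.Fa_mk (BT.Fa_mk (BT.Fa_mk (BT.Fa_mk (BT.Fa_mk (BT.Fa_mk (BT.Fa_leaf (P := Itm.ok 206) (iqb tpr1112_c)) (BT.Fa_leaf (P := Itm.ok 206) (iqb tpr2038_c))) (BT.Fa_mk (BT.Fa_leaf (P := Itm.ok 206) (iqb tpr1014_c)) (BT.Fa_leaf (P := Itm.ok 206) (iqb tpr251_c)))) (BT.Fa_mk (BT.Fa_mk (BT.Fa_leaf (P := Itm.ok 206) (iqb tpr626_c)) (BT.Fa_leaf (P := Itm.ok 206) (iqf tpr640_c))) (BT.Fa_leaf (P := Itm.ok 206) (iqf tpr1094_c)))) (BT.Fa_mk (BT.Fa_mk (BT.Fa_mk (BT.Fa_leaf (P := Itm.ok 206) (iqf tpr953_c)) (BT.Fa_leaf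 (P := Itm.ok 206) (iqf tpr499_c))) (BT.Fa_mk (BT.Fa_leaf (P := Itm.ok 206) (iqf tpr721_c)) (BT.Fa_leaf (P := Itm.ok 206) (iqb tpr557_c)))) (BT.Fa_mk (BT.Fa_mk (BT.Fa_leaf (P := Itm.ok 206) (iqf tpr188_c)) (BT.Fa_leaf (P := Itm.ok 206) (iqb tpr46_c))) (BT.Fa_leaf (P := Itm.ok 206) (iqb tpr589_c))))) (BT.Fa_mk (BT.Fa_mk (BT.Fa_mk (BT.Fa_mk (BT.Fa_leaf (P := Itm.ok 206) (iqb tpr51_c)) (BT.Fa_leaf (P := Itm.ok 206) (iqf tpr323_c))) (BT.Fa_mk (BT.Fa_leaf (P := Itm.ok 206) (iqf tpr1104_c)) (BT.Fa_leaf (P := Itm.ok 206) (iqf tpr2037_c)))) (BT.Fa_mk (BT.Fa_mk (BT.Fa_leaf (P := Itm.ok 206) (iqf tpr1568_c)) (BT.Fa_leaf (P := Itm.ok 206) (iqf tpr658_c))) (BT.Fa_leaf (P := Itm.ok 206) (iqf tpr90_c)))) (BT.Fa_mk (BT.Fa_mk (BT.Fa_mk (BT.Fa_leaf (P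 := Itm.ok 206) (iqb tpr579_c)) (BT.Fa_leaf (P := Itm.ok 206) (iqf tpr10_c))) (BT.Fa_mk (BT.Fa_leaf (P := Itm.ok 206) (iqf tpr1538_c)) (BT.Fa_leaf (P := Itm.ok 206) (iqf tpr1054_c)))) (BT.Fa_mk (BT.Fa_mk (BT.Fa_leaf (P := Itm.ok 206) (iqb tpr977_c)) (BT.Fa_leaf (P := Itm.ok 206) (iqf tpr1137_c))) (BT.Fa_leaf (P := Itm.ok 206) (iqf tpr577_c)))))) (BT.Fa_mk (BT.Fa_mk (BT.Fa_mk (BT.Fa_mk (BT.Fa_mk (BT.Fa_leaf (P := Itm.ok 206) (iqb tpr1742_c)) (BT.Fa_leaf (P := Itm.ok 206) (iqf tpr706_c))) (BT.Fa_mk (BT.Fa_leaf (P := Itm.ok 206) (iqb tpr1746_c)) (BT.Fa_leaf (P := Itm.ok 206) (iqb tpr1744_c)))) (BT.Fa_mk (BT.Fa_mk (BT.Fa_leaf (P := Itm.ok 206) (iqb tpr1745_c)) (BT.Fa_leaf (P := Itm.ok 206) (iqf tpr618_c))) (BT.Fa_leaf (P := Itm.ok 206) (iqb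 tpr611_c)))) (BT.Fa_mk (BT.Fa_mk (BT.Fa_mk (BT.Fa_leaf (P := Itm.ok 206) (iqf tpr665_c)) (BT.Fa_leaf (P := Itm.ok 206) (iqb tpr1063_c))) (BT.Fa_mk (BT.Fa_leaf (P := Itm.ok 206) (iqf tpr641_c)) (BT.Fa_leaf (P := Itm.ok 206) (iqf tpr82_c)))) (BT.Fa_mk (BT.Fa_mk (BT.Fa_leaf (P := Itm.ok 206) (iqb tpr610_c)) (BT.Fa_leaf (P := Itm.ok 206) (iqf tpr620_c))) (BT.Fa_leaf (P := Itm.ok 206) (iqb tpr571_c))))) (BT.Fa_mk (BT.Fa_mk (BT.Fa_mk (BT.Fa_mk (BT.Fa_leaf (P := Itm.ok 206) (iqb tpr505_c)) (BT.Fa_leaf (P := Itm.ok 206) (iqb tpr544_c))) (BT.Fa_mk (BT.Fa_leaf (P := Itm.ok 206) (iqb tpr4_c)) (BT.Fa_leaf (P := Itm.ok 206) (iqf tpr62_c)))) (BT.Fa_mk (BT.Fa_mk (BT.Fa_leaf (P := Itm.ok 206) (iqb tpr167_c)) (BT.Fa_leaf (P := Itm.ok 206) (iqb tpr608_c)))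 (BT.Fa_leaf (P := Itm.ok 206) (iqf tpr516_c)))) (BT.Fa_mk (BT.Fa_mk (BT.Fa_mk (BT.Fa_leaf (P := Itm.ok 206) (iqf tpr554_c)) (BT.Fa_leaf (P := Itm.ok 206) (iqb tpr1132_c))) (BT.Fa_leaf (P := Itm.ok 206) (iqb tpr2036_c))) (BT.Fa_mk (BT.Fa_mk (BT.Fa_leaf (P := Itm.ok 206) (iqf tpr314_c)) (BT.Fa_leaf (P := Itm.ok 206) (iqf tpr89_c))) (BT.Fa_leaf (P := Itm.ok 206) (iqf tpr639_c))))))))) (BT.Fa_mk (BT.Fa_mk (BT.Fa_mk (BT.Fa_mk (BT.Fa_mk (BT.Fa_mk (BT.Fa_mk (BT.Fa_mk (BT.Fa_leaf (P := Itm.ok 206) (iqf tpr453_c)) (BT.Fa_leaf (P := Itm.ok 206) (iqf tpr1768_c))) (BT.Fa_mk (BT.Fa_leaf (P := Itm.ok 206) (iqf tpr1736_c)) (BT.Fa_leaf (P := Itm.ok 206) (iqb tpr2049_c)))) (BT.Fa_mk (BT.Fa_mk (BT.Fa_leaf (P := Itm.ok 206) (iqb tpr1620_c)) (BT.Fa_leaf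 (P := Itm.ok 206) (iqb tpr912_c))) (BT.Fa_leaf (P := Itm.ok 206) (iqf tpr1732_c)))) (BT.Fa_mk (BT.Fa_mk (BT.Fa_mk (BT.Fa_leaf (P := Itm.ok 206) (iqf tpr1120_c)) (BT.Fa_leaf (P := Itm.ok 206) (iqb tpr640_c))) (BT.Fa_mk (BT.Fa_leaf (P := Itm.ok 206) (iqb tpr1054_c)) (BT.Fa_leaf (P := Itm.ok 206) (iqf tpr1769_c)))) (BT.Fa_mk (BT.Fa_mk (BT.Fa_leaf (P := Itm.ok 206) (iqb tpr1017_c)) (BT.Fa_leaf (P := Itm.ok 206) (iqf tpr1027_c))) (BT.Fa_leaf (P := Itm.ok 206) (iqb tpr605_c))))) (BT.Fa_mk (BT.Fa_mk (BT.Fa_mk (BT.Fa_mk (BT.Fa_leaf (P := Itm.ok 206) (iqf tpr915_c)) (BT.Fa_leaf (P := Itm.ok 206) (iqf tpr1743_c))) (BT.Fa_mk (BT.Fa_leaf (P := Itm.ok 206) (iqb tpr1554_c)) (BT.Fa_leaf (P := Itm.ok 206) (iqb tpr627_c)))) (BT.Fa_mk (BT.Fa_mk (BT.Fa_leaf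 (P := Itm.ok 206) (iqb tpr789_c)) (BT.Fa_leaf (P := Itm.ok 206) (iqf tpr692_c))) (BT.Fa_leaf (P := Itm.ok 206) (iqb tpr2037_c)))) (BT.Fa_mk (BT.Fa_mk (BT.Fa_mk (BT.Fa_leaf (P := Itm.ok 206) (iqf tpr1746_c)) (BT.Fa_leaf (P := Itm.ok 206) (iqb tpr548_c))) (BT.Fa_mk (BT.Fa_leaf (P := Itm.ok 206) (iqb tpr1064_c)) (BT.Fa_leaf (P := Itm.ok 206) (iqf tpr583_c)))) (BT.Fa_mk (BT.Fa_mk (BT.Fa_leaf (P := Itm.ok 206) (iqf tpr1731_c)) (BT.Fa_leaf (P := Itm.ok 206) (iqb tpr2039_c))) (BT.Fa_leaf (P := Itm.ok 206) (iqf tpr1751_c)))))) (BT.Fa_mk (BT.Fa_mk (BT.Fa_mk (BT.Fa_mk (BT.Fa_mk (BT.Fa_leaf (P := Itm.ok 206) (iqf tpr636_c)) (BT.Fa_leaf (P := Itm.ok 206) (iqf tpr642_c))) (BT.Fa_mk (BT.Fa_leaf (P := Itm.ok 206) (iqf tpr251_c)) (BT.Fa_leaf (P :=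 Itm.ok 206) (iqb tpr1568_c)))) (BT.Fa_mk (BT.Fa_mk (BT.Fa_leaf (P := Itm.ok 206) (iqb tpr1104_c)) (BT.Fa_leaf (P := Itm.ok 206) (iqb tpr1743_c))) (BT.Fa_leaf (P := Itm.ok 206) (iqb tpr247_c)))) (BT.Fa_mk (BT.Fa_mk (BT.Fa_mk (BT.Fa_leaf (P := Itm.ok 206) (iqf tpr544_c)) (BT.Fa_leaf (P := Itm.ok 206) (iqf tpr1084_c))) (BT.Fa_mk (BT.Fa_leaf (P := Itm.ok 206) (iqf tpr527_c)) (BT.Fa_leaf (P := Itm.ok 206) (iqb tpr684_c)))) (BT.Fa_mk (BT.Fa_mk (BT.Fa_leaf (P := Itm.ok 206) (iqb tpr614_c)) (BT.Fa_leaf (P := Itm.ok 206) (iqf tpr684_c))) (BT.Fa_leaf (P := Itm.ok 206) (iqf tpr615_c))))) (BT.Fa_mk (BT.Fa_mk (BT.Fa_mk (BT.Fa_mk (BT.Fa_leaf (P := Itm.ok 206) (iqf tpr238_c)) (BT.Fa_leaf (P := Itm.ok 206) (iqf tpr619_c))) (BT.Fa_mk (BT.Fa_leaf (P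 := Itm.ok 206) (iqf tpr203_c)) (BT.Fa_leaf (P := Itm.ok 206) (iqb tpr203_c)))) (BT.Fa_mk (BT.Fa_mk (BT.Fa_leaf (P := Itm.ok 206) (iqf tpr611_c)) (BT.Fa_leaf (P := Itm.ok 206) (iqb tpr680_c))) (BT.Fa_leaf (P := Itm.ok 206) (iqb tpr631_c)))) (BT.Fa_mk (BT.Fa_mk (BT.Fa_mk (BT.Fa_leaf (P := Itm.ok 206) (iqb tpr619_c)) (BT.Fa_leaf (P := Itm.ok 206) (iqf tpr548_c))) (BT.Fa_leaf (P := Itm.ok 206) (iqf tpr734_c))) (BT.Fa_mk (BT.Fa_mk (BT.Fa_leaf (P := Itm.ok 206) (iqf tpr1135_c)) (BT.Fa_leaf (P := Itm.ok 206) (iqb tpr1233_c))) (BT.Fa_leaf (P := Itm.ok 206) (iqf tpr645_c))))))) (BT.Fa_mk (BT.Fa_mk (BT.Fa_mk (BT.Fa_mk (BT.Fa_mk (BT.Fa_mk (BT.Fa_leaf (P := Itm.ok 206) (iqb tpr1145_c)) (BT.Fa_leaf (P := Itm.ok 206) (iqb tpr1538_c))) (BT.Fa_mk (BT.Fa_leaf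 (P := Itm.ok 206) (iqb tpr1731_c)) (BT.Fa_leaf (P := Itm.ok 206) (iqf tpr1010_c)))) (BT.Fa_mk (BT.Fa_mk (BT.Fa_leaf (P := Itm.ok 206) (iqb tpr683_c)) (BT.Fa_leaf (P := Itm.ok 206) (iqf tpr507_c))) (BT.Fa_leaf (P := Itm.ok 206) (iqf tpr23_c)))) (BT.Fa_mk (BT.Fa_mk (BT.Fa_mk (BT.Fa_leaf (P := Itm.ok 206) (iqf tpr680_c)) (BT.Fa_leaf (P := Itm.ok 206) (iqb tpr617_c))) (BT.Fa_mk (BT.Fa_leaf (P := Itm.ok 206) (iqb tpr23_c)) (BT.Fa_leaf (P := Itm.ok 206) (iqb tpr615_c)))) (BT.Fa_mk (BT.Fa_mk (BT.Fa_leaf (P := Itm.ok 206) (iqb tpr624_c)) (BT.Fa_leaf (P := Itm.ok 206) (iqf tpr2042_c))) (BT.Fa_leaf (P := Itm.ok 206) (iqb tpr2042_c))))) (BT.Fa_mk (BT.Fa_mk (BT.Fa_mk (BT.Fa_mk (BT.Fa_leaf (P := Itm.ok 206) (iqf tpr2028_c)) (BT.Fa_leaf (P := Itm.ok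 206) (iqf tpr198_c))) (BT.Fa_mk (BT.Fa_leaf (P := Itm.ok 206) (iqf tpr626_c)) (BT.Fa_leaf (P := Itm.ok 206) (iqb tpr960_c)))) (BT.Fa_mk (BT.Fa_mk (BT.Fa_leaf (P := Itm.ok 206) (iqb tpr2047_c)) (BT.Fa_leaf (P := Itm.ok 206) (iqb tpr573_c))) (BT.Fa_leaf (P := Itm.ok 206) (iqb tpr1016_c)))) (BT.Fa_mk (BT.Fa_mk (BT.Fa_mk (BT.Fa_leaf (P := Itm.ok 206) (iqf tpr1016_c)) (BT.Fa_leaf (P := Itm.ok 206) (iqb tpr1008_c))) (BT.Fa_mk (BT.Fa_leaf (P := Itm.ok 206) (iqb tpr1019_c)) (BT.Fa_leaf (P := Itm.ok 206) (iqf tpr1156_c)))) (BT.Fa_mk (BT.Fa_mk (BT.Fa_leaf (P := Itm.ok 206) (iqb tpr623_c)) (BT.Fa_leaf (P := Itm.ok 206) (iqb tpr1148_c))) (BT.Fa_leaf (P := Itm.ok 206) (iqb tpr91_c)))))) (BT.Fa_mk (BT.Fa_mk (BT.Fa_mk (BT.Fa_mk (BT.Fa_mk (BT.Fa_leaf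 (P := Itm.ok 206) (iqf tpr1071_c)) (BT.Fa_leaf (P := Itm.ok 206) (iqb tpr1071_c))) (BT.Fa_mk (BT.Fa_leaf (P := Itm.ok 206) (iqf tpr623_c)) (BT.Fa_leaf (P := Itm.ok 206) (iqb tpr1275_c)))) (BT.Fa_mk (BT.Fa_mk (BT.Fa_leaf (P := Itm.ok 206) (iqf tpr1072_c)) (BT.Fa_leaf (P := Itm.ok 206) (iqb tpr1032_c))) (BT.Fa_leaf (P := Itm.ok 206) (iqf tpr1126_c)))) (BT.Fa_mk (BT.Fa_mk (BT.Fa_mk (BT.Fa_leaf (P := Itm.ok 206) (iqf tpr1017_c)) (BT.Fa_leaf (P := Itm.ok 206) (iqf tpr1024_c))) (BT.Fa_mk (BT.Fa_leaf (P := Itm.ok 206) (iqb tpr1154_c)) (BT.Fa_leaf (P := Itm.ok 206) (iqf tpr1145_c)))) (BT.Fa_mk (BT.Fa_mk (BT.Fa_leaf (P := Itm.ok 206) (iqb tpr1075_c)) (BT.Fa_leaf (P := Itm.ok 206) (iqf tpr1148_c))) (BT.Fa_leaf (P := Itm.ok 206) (iqf tpr1275_c)))))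 (BT.Fa_mk (BT.Fa_mk (BT.Fa_mk (BT.Fa_mk (BT.Fa_leaf (P := Itm.ok 206) (iqb tpr1027_c)) (BT.Fa_leaf (P := Itm.ok 206) (iqf tpr1154_c))) (BT.Fa_mk (BT.Fa_leaf (P := Itm.ok 206) (iqf tpr2048_c)) (BT.Fa_leaf (P := Itm.ok 206) (iqf tpr22_c)))) (BT.Fa_mk (BT.Fa_mk (BT.Fa_leaf (P := Itm.ok 206) (iqb tpr17_c)) (BT.Fa_leaf (P := Itm.ok 206) (iqb tpr62_c))) (BT.Fa_leaf (P := Itm.ok 206) (iqf tpr1075_c)))) (BT.Fa_mk (BT.Fa_mk (BT.Fa_mk (BT.Fa_leaf (P := Itm.ok 206) (iqf tpr1063_c)) (BT.Fa_leaf (P := Itm.ok 206) (iqb tpr295_c))) (BT.Fa_leaf (P := Itm.ok 206) (iqf tpr608_c))) (BT.Fa_mk (BT.Fa_mk (BT.Fa_leaf (P := Itm.ok 206) (iqb tpr516_c)) (BT.Fa_leaf (P := Itm.ok 206) (iqb tpr642_c))) (BT.Fa_leaf (P := Itm.ok 206) (iqf tpr589_c)))))))) (BT.Fa_mk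 (BT.Fa_mk (BT.Fa_mk (BT.Fa_mk (BT.Fa_mk (BT.Fa_mk (BT.Fa_mk (BT.Fa_leaf (P := Itm.ok 206) (iqb tpr82_c)) (BT.Fa_leaf (P := Itm.ok 206) (iqb tpr1015_c))) (BT.Fa_mk (BT.Fa_leaf (P := Itm.ok 206) (iqb tpr768_c)) (BT.Fa_leaf (P := Itm.ok 206) (iqf tpr582_c)))) (BT.Fa_mk (BT.Fa_mk (BT.Fa_leaf (P := Itm.ok 206) (iqb tpr238_c)) (BT.Fa_leaf (P := Itm.ok 206) (iqf tpr247_c))) (BT.Fa_leaf (P := Itm.ok 206) (iqf tpr2027_c)))) (BT.Fa_mk (BT.Fa_mk (BT.Fa_mk (BT.Fa_leaf (P := Itm.ok 206) (iqf tpr2026_c)) (BT.Fa_leaf (P := Itm.ok 206) (iqf tpr2039_c))) (BT.Fa_mk (BT.Fa_leaf (P := Itm.ok 206) (iqb tpr990_c)) (BT.Fa_leaf (P := Itm.ok 206) (iqb tpr639_c)))) (BT.Fa_mk (BT.Fa_mk (BT.Fa_leaf (P := Itm.ok 206) (iqb tpr1749_c)) (BT.Fa_leaf (P := Itm.ok 206)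 (iqb tpr1768_c))) (BT.Fa_leaf (P := Itm.ok 206) (iqb tpr1779_c))))) (BT.Fa_mk (BT.Fa_mk (BT.Fa_mk (BT.Fa_mk (BT.Fa_leaf (P := Itm.ok 206) (iqb tpr2040_c)) (BT.Fa_leaf (P := Itm.ok 206) (iqb tpr602_c))) (BT.Fa_mk (BT.Fa_leaf (P := Itm.ok 206) (iqf tpr1733_c)) (BT.Fa_leaf (P := Itm.ok 206) (iqb tpr583_c)))) (BT.Fa_mk (BT.Fa_mk (BT.Fa_leaf (P := Itm.ok 206) (iqf tpr1019_c)) (BT.Fa_leaf (P := Itm.ok 206) (iqf tpr644_c))) (BT.Fa_leaf (P := Itm.ok 206) (iqf tpr1143_c)))) (BT.Fa_mk (BT.Fa_mk (BT.Fa_mk (BT.Fa_leaf (P := Itm.ok 206) (iqf tpr1744_c)) (BT.Fa_leaf (P := Itm.ok 206) (iqf tpr1053_c))) (BT.Fa_mk (BT.Fa_leaf (P := Itm.ok 206) (iqf tpr571_c)) (BT.Fa_leaf (P := Itm.ok 206) (iqf tpr502_c)))) (BT.Fa_mk (BT.Fa_mk (BT.Fa_leaf (P := Itm.ok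 206) (iqb tpr294_c)) (BT.Fa_leaf (P := Itm.ok 206) (iqb tpr503_c))) (BT.Fa_leaf (P := Itm.ok 206) (iqf tpr613_c)))))) (BT.Fa_mk (BT.Fa_mk (BT.Fa_mk (BT.Fa_mk (BT.Fa_mk (BT.Fa_leaf (P := Itm.ok 206) (iqf tpr1052_c)) (BT.Fa_leaf (P := Itm.ok 206) (iqb tpr1052_c))) (BT.Fa_mk (BT.Fa_leaf (P := Itm.ok 206) (iqb tpr44_c)) (BT.Fa_leaf (P := Itm.ok 206) (iqb tpr245_c)))) (BT.Fa_mk (BT.Fa_mk (BT.Fa_leaf (P := Itm.ok 206) (iqf tpr245_c)) (BT.Fa_leaf (P := Itm.ok 206) (iqb tpr2023_c))) (BT.Fa_leaf (P := Itm.ok 206) (iqb tpr2046_c)))) (BT.Fa_mk (BT.Fa_mk (BT.Fa_mk (BT.Fa_leaf (P := Itm.ok 206) (iqf tpr1753_c)) (BT.Fa_leaf (P := Itm.ok 206) (iqb tpr2030_c))) (BT.Fa_mk (BT.Fa_leaf (P := Itm.ok 206) (iqb tpr547_c)) (BT.Fa_leaf (P := Itm.ok 206) (iqb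 tpr975_c)))) (BT.Fa_mk (BT.Fa_mk (BT.Fa_leaf (P := Itm.ok 206) (iqb tpr1100_c)) (BT.Fa_leaf (P := Itm.ok 206) (iqb tpr1733_c))) (BT.Fa_leaf (P := Itm.ok 206) (iqb tpr1765_c))))) (BT.Fa_mk (BT.Fa_mk (BT.Fa_mk (BT.Fa_mk (BT.Fa_leaf (P := Itm.ok 206) (iqf tpr990_c)) (BT.Fa_leaf (P := Itm.ok 206) (iqb tpr2024_c))) (BT.Fa_mk (BT.Fa_leaf (P := Itm.ok 206) (iqb tpr1750_c)) (BT.Fa_leaf (P := Itm.ok 206) (iqf tpr2040_c)))) (BT.Fa_mk (BT.Fa_mk (BT.Fa_leaf (P := Itm.ok 206) (iqb tpr1053_c)) (BT.Fa_leaf (P := Itm.ok 206) (iqf tpr1064_c))) (BT.Fa_leaf (P := Itm.ok 206) (iqf tpr1749_c)))) (BT.Fa_mk (BT.Fa_mk (BT.Fa_mk (BT.Fa_leaf (P := Itm.ok 206) (iqb tpr1061_c)) (BT.Fa_leaf (P := Itm.ok 206) (iqb tpr514_c))) (BT.Fa_leaf (P := Itm.ok 206) (iqf tpr1765_c)))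 (BT.Fa_mk (BT.Fa_mk (BT.Fa_leaf (P := Itm.ok 206) (iqf tpr602_c)) (BT.Fa_leaf (P := Itm.ok 206) (iqb tpr703_c))) (BT.Fa_leaf (P := Itm.ok 206) (iqb tpr620_c))))))) (BT.Fa_mk (BT.Fa_mk (BT.Fa_mk (BT.Fa_mk (BT.Fa_mk (BT.Fa_mk (BT.Fa_leaf (P := Itm.ok 206) (iqf tpr628_c)) (BT.Fa_leaf (P := Itm.ok 206) (iqf tpr631_c))) (BT.Fa_mk (BT.Fa_leaf (P := Itm.ok 206) (iqb tpr675_c)) (BT.Fa_leaf (P := Itm.ok 206) (iqf tpr2024_c)))) (BT.Fa_mk (BT.Fa_mk (BT.Fa_leaf (P := Itm.ok 206) (iqf tpr703_c)) (BT.Fa_leaf (P := Itm.ok 206) (iqb tpr613_c))) (BT.Fa_leaf (P := Itm.ok 206) (iqf tpr514_c)))) (BT.Fa_mk (BT.Fa_mk (BT.Fa_mk (BT.Fa_leaf (P := Itm.ok 206) (iqf tpr543_c)) (BT.Fa_leaf (P := Itm.ok 206) (iqb tpr502_c))) (BT.Fa_mk (BT.Fa_leaf (P := Itm.ok 206)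 (iqf tpr1065_c)) (BT.Fa_leaf (P := Itm.ok 206) (iqf tpr294_c)))) (BT.Fa_mk (BT.Fa_mk (BT.Fa_leaf (P := Itm.ok 206) (iqf tpr503_c)) (BT.Fa_leaf (P := Itm.ok 206) (iqf tpr1061_c))) (BT.Fa_leaf (P := Itm.ok 206) (iqf tpr610_c))))) (BT.Fa_mk (BT.Fa_mk (BT.Fa_mk (BT.Fa_mk (BT.Fa_leaf (P := Itm.ok 206) (iqf tpr1032_c)) (BT.Fa_leaf (P := Itm.ok 206) (iqb tpr1218_c))) (BT.Fa_mk (BT.Fa_leaf (P := Itm.ok 206) (iqf tpr1218_c)) (BT.Fa_leaf (P := Itm.ok 206) (iqb tpr1065_c)))) (BT.Fa_mk (BT.Fa_mk (BT.Fa_leaf (P := Itm.ok 206) (iqf tpr2046_c)) (BT.Fa_leaf (P := Itm.ok 206) (iqf tpr2049_c))) (BT.Fa_leaf (P := Itm.ok 206) (iqf tpr2050_c)))) (BT.Fa_mk (BT.Fa_mk (BT.Fa_mk (BT.Fa_leaf (P := Itm.ok 206) (iqb tpr1156_c)) (BT.Fa_leaf (P := Itm.ok 206) (iqb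 tpr2048_c))) (BT.Fa_mk (BT.Fa_leaf (P := Itm.ok 206) (iqf tpr1745_c)) (BT.Fa_leaf (P := Itm.ok 206) (iqb tpr1748_c)))) (BT.Fa_mk (BT.Fa_mk (BT.Fa_leaf (P := Itm.ok 206) (iqf tpr1748_c)) (BT.Fa_leaf (P := Itm.ok 206) (iqf tpr960_c))) (BT.Fa_leaf (P := Itm.ok 206) (iqf tpr614_c)))))) (BT.Fa_mk (BT.Fa_mk (BT.Fa_mk (BT.Fa_mk (BT.Fa_mk (BT.Fa_leaf (P := Itm.ok 206) (iqf tpr1224_c)) (BT.Fa_leaf (P := Itm.ok 206) (iqf tpr2051_c))) (BT.Fa_mk (BT.Fa_leaf (P := Itm.ok 206) (iqb tpr90_c)) (BT.Fa_leaf (P := Itm.ok 206) (iqb tpr453_c)))) (BT.Fa_mk (BT.Fa_mk (BT.Fa_leaf (P := Itm.ok 206) (iqb tpr636_c)) (BT.Fa_leaf (P := Itm.ok 206) (iqf tpr1728_c))) (BT.Fa_leaf (P := Itm.ok 206) (iqb tpr1056_c)))) (BT.Fa_mk (BT.Fa_mk (BT.Fa_mk (BT.Fa_leaf (P :=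 Itm.ok 206) (iqf tpr1056_c)) (BT.Fa_leaf (P := Itm.ok 206) (iqf tpr1060_c))) (BT.Fa_mk (BT.Fa_leaf (P := Itm.ok 206) (iqf tpr1047_c)) (BT.Fa_leaf (P := Itm.ok 206) (iqb tpr1047_c)))) (BT.Fa_mk (BT.Fa_mk (BT.Fa_leaf (P := Itm.ok 206) (iqf tpr1227_c)) (BT.Fa_leaf (P := Itm.ok 206) (iqb tpr1227_c))) (BT.Fa_leaf (P := Itm.ok 206) (iqf tpr1045_c))))) (BT.Fa_mk (BT.Fa_mk (BT.Fa_mk (BT.Fa_mk (BT.Fa_leaf (P := Itm.ok 206) (iqb tpr1045_c)) (BT.Fa_leaf (P := Itm.ok 206) (iqb tpr727_c))) (BT.Fa_mk (BT.Fa_leaf (P := Itm.ok 206) (iqf tpr1044_c)) (BT.Fa_leaf (P := Itm.ok 206) (iqf tpr263_c)))) (BT.Fa_mk (BT.Fa_mk (BT.Fa_leaf (P := Itm.ok 206) (iqb tpr263_c)) (BT.Fa_leaf (P := Itm.ok 206) (iqb tpr1280_c))) (BT.Fa_leaf (P := Itm.ok 206) (iqb tpr628_c))))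 (BT.Fa_mk (BT.Fa_mk (BT.Fa_mk (BT.Fa_leaf (P := Itm.ok 206) (iqf tpr2047_c)) (BT.Fa_leaf (P := Itm.ok 206) (iqf tpr585_c))) (BT.Fa_leaf (P := Itm.ok 206) (iqb tpr1228_c))) (BT.Fa_mk (BT.Fa_mk (BT.Fa_leaf (P := Itm.ok 206) (iqf tpr295_c)) (BT.Fa_leaf (P := Itm.ok 206) (iqb tpr1754_c))) (BT.Fa_leaf (P := Itm.ok 206) (iqf tpr1789_c))))))))))

/-- all words of the class have labels -/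
theorem pokNFzE2ByA3H2AzIzA2H3AyB2EzF : POK 206 xNFzE2ByA3H2AzIzA2H3AyB2EzF :=
  y_pok (C0 := ceNFzE2ByA3H2AzIzA2H3AyB2EzF) (C1 := coNFzE2ByA3H2AzIzA2H3AyB2EzF) topNFzE2ByA3H2AzIzA2H3AyB2EzF nbNFzE2ByA3H2AzIzA2H3AyB2EzF (BT.Fa_of_all iiNFzE2ByA3H2AzIzA2H3AyB2EzF_c)
    (BT.Fa_mk (BT.Fa_mk (BT.Fa_mk (BT.Fa_mk (BT.Fa_mk (cyE_spec zeNFzE2ByA3H2AzIzA2H3AyB2EzF_0) (BT.Fa_mk (cyE_spec zeNFzE2ByA3H2AzIzA2H3AyB2EzF_1) (BT.Fa_mk (cyE_spec zeNFzE2ByA3H2AzIzA2H3AyB2EzF_2) (cyE_spec zeNFzE2ByA3H2AzIzA2H3AyB2EzF_3)))) (BT.Fa_mk (BT.Fa_mk (cyE_spec zeNFzE2ByA3H2AzIzA2H3AyB2EzF_4) (cyE_spec zeNFzE2ByA3H2AzIzA2H3AyB2EzF_5)) (BT.Fa_mk (cyE_spec zeNFzE2ByA3H2AzIzA2H3AyB2EzF_6) (cyE_spec zeNFzE2ByA3H2AzIzA2H3AyB2EzF_7)))) (BT.Fa_mk (BT.Fa_mk (BT.Fa_mk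 (cyE_spec zeNFzE2ByA3H2AzIzA2H3AyB2EzF_8) (cyE_spec zeNFzE2ByA3H2AzIzA2H3AyB2EzF_9)) (cyE_spec zeNFzE2ByA3H2AzIzA2H3AyB2EzF_10)) (cyE_spec zeNFzE2ByA3H2AzIzA2H3AyB2EzF_11))) (BT.Fa_mk (BT.Fa_mk (BT.Fa_mk (cyE_spec zeNFzE2ByA3H2AzIzA2H3AyB2EzF_12) (cyE_spec zeNFzE2ByA3H2AzIzA2H3AyB2EzF_13)) (cyE_spec zeNFzE2ByA3H2AzIzA2H3AyB2EzF_14)) (BT.Fa_mk (BT.Fa_mk (cyE_spec zeNFzE2ByA3H2AzIzA2H3AyB2EzF_15) (cyE_spec zeNFzE2ByA3H2AzIzA2H3AyB2EzF_16)) (BT.Fa_mk (cyE_spec zeNFzE2ByA3H2AzIzA2H3AyB2EzF_17) (cyE_spec zeNFzE2ByA3H2AzIzA2H3AyB2EzF_18))))) (BT.Fa_mk (BT.Fa_mk (BT.Fa_mk (BT.Fa_mk (cyE_spec zeNFzE2ByA3H2AzIzA2H3AyB2EzF_19) (cyE_spec zeNFzE2ByA3H2AzIzA2H3AyB2EzF_20)) (BT.Fa_mk (BT.Fa_mk (cyE_spec zeNFzE2ByA3H2AzIzA2H3AyB2EzF_21) (cyE_spec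 zeNFzE2ByA3H2AzIzA2H3AyB2EzF_22)) (cyE_spec zeNFzE2ByA3H2AzIzA2H3AyB2EzF_23))) (BT.Fa_mk (BT.Fa_mk (cyE_spec zeNFzE2ByA3H2AzIzA2H3AyB2EzF_24) (BT.Fa_mk (cyE_spec zeNFzE2ByA3H2AzIzA2H3AyB2EzF_25) (cyE_spec zeNFzE2ByA3H2AzIzA2H3AyB2EzF_26))) (BT.Fa_mk (BT.Fa_mk (cyE_spec zeNFzE2ByA3H2AzIzA2H3AyB2EzF_27) (cyE_spec zeNFzE2ByA3H2AzIzA2H3AyB2EzF_28)) (BT.Fa_mk (cyE_spec zeNFzE2ByA3H2AzIzA2H3AyB2EzF_29) (cyE_spec zeNFzE2ByA3H2AzIzA2H3AyB2EzF_30))))) (BT.Fa_mk (BT.Fa_mk (BT.Fa_mk (BT.Fa_mk (cyE_spec zeNFzE2ByA3H2AzIzA2H3AyB2EzF_31) (cyE_spec zeNFzE2ByA3H2AzIzA2H3AyB2EzF_32)) (BT.Fa_mk (cyE_spec zeNFzE2ByA3H2AzIzA2H3AyB2EzF_33) (cyE_spec zeNFzE2ByA3H2AzIzA2H3AyB2EzF_34))) (BT.Fa_mk (BT.Fa_mk (cyE_spec zeNFzE2ByA3H2AzIzA2H3AyB2EzF_35) (cyE_spec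 zeNFzE2ByA3H2AzIzA2H3AyB2EzF_36)) (BT.Fa_mk (cyE_spec zeNFzE2ByA3H2AzIzA2H3AyB2EzF_37) (cyE_spec zeNFzE2ByA3H2AzIzA2H3AyB2EzF_38)))) (BT.Fa_mk (BT.Fa_mk (BT.Fa_mk (cyE_spec zeNFzE2ByA3H2AzIzA2H3AyB2EzF_39) (cyE_spec zeNFzE2ByA3H2AzIzA2H3AyB2EzF_40)) (BT.Fa_mk (cyE_spec zeNFzE2ByA3H2AzIzA2H3AyB2EzF_41) (cyE_spec zeNFzE2ByA3H2AzIzA2H3AyB2EzF_42))) (BT.Fa_mk (BT.Fa_mk (cyE_spec zeNFzE2ByA3H2AzIzA2H3AyB2EzF_43) (cyE_spec zeNFzE2ByA3H2AzIzA2H3AyB2EzF_44)) (cyE_spec zeNFzE2ByA3H2AzIzA2H3AyB2EzF_45))))))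
    (BT.Fa_mk (BT.Fa_mk (BT.Fa_mk (BT.Fa_mk (BT.Fa_mk (cyO_spec zoNFzE2ByA3H2AzIzA2H3AyB2EzF_0) (BT.Fa_mk (cyO_spec zoNFzE2ByA3H2AzIzA2H3AyB2EzF_1) (BT.Fa_mk (cyO_spec zoNFzE2ByA3H2AzIzA2H3AyB2EzF_2) (cyO_spec zoNFzE2ByA3H2AzIzA2H3AyB2EzF_3)))) (BT.Fa_mk (BT.Fa_mk (BT.Fa_mk (cyO_spec zoNFzE2ByA3H2AzIzA2H3AyB2EzF_4) (cyO_spec zoNFzE2ByA3H2AzIzA2H3AyB2EzF_5)) (BT.Fa_mk (BT.Fa_mk (cyO_spec zoNFzE2ByA3H2AzIzA2H3AyB2EzF_6) (cyO_spec zoNFzE2ByA3H2AzIzA2H3AyB2EzF_7)) (cyO_spec zoNFzE2ByA3H2AzIzA2H3AyB2EzF_8))) (BT.Fa_mk (BT.Fa_mk (cyO_spec zoNFzE2ByA3H2AzIzA2H3AyB2EzF_9) (cyO_spec zoNFzE2ByA3H2AzIzA2H3AyB2EzF_10)) (BT.Fa_mk (cyO_spec zoNFzE2ByA3H2AzIzA2H3AyB2EzF_11) (cyO_spec zoNFzE2ByA3H2AzIzA2H3AyB2EzF_12))))) (BT.Fa_mk (BT.Fa_mk (cyO_spec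 zoNFzE2ByA3H2AzIzA2H3AyB2EzF_13) (cyO_spec zoNFzE2ByA3H2AzIzA2H3AyB2EzF_14)) (cyO_spec zoNFzE2ByA3H2AzIzA2H3AyB2EzF_15))) (BT.Fa_mk (BT.Fa_mk (BT.Fa_mk (cyO_spec zoNFzE2ByA3H2AzIzA2H3AyB2EzF_16) (cyO_spec zoNFzE2ByA3H2AzIzA2H3AyB2EzF_17)) (cyO_spec zoNFzE2ByA3H2AzIzA2H3AyB2EzF_18)) (BT.Fa_mk (BT.Fa_mk (BT.Fa_mk (cyO_spec zoNFzE2ByA3H2AzIzA2H3AyB2EzF_19) (cyO_spec zoNFzE2ByA3H2AzIzA2H3AyB2EzF_20)) (cyO_spec zoNFzE2ByA3H2AzIzA2H3AyB2EzF_21)) (cyO_spec zoNFzE2ByA3H2AzIzA2H3AyB2EzF_22)))) (BT.Fa_mk (BT.Fa_mk (BT.Fa_mk (BT.Fa_mk (cyO_spec zoNFzE2ByA3H2AzIzA2H3AyB2EzF_23) (cyO_spec zoNFzE2ByA3H2AzIzA2H3AyB2EzF_24)) (BT.Fa_mk (BT.Fa_mk (cyO_spec zoNFzE2ByA3H2AzIzA2H3AyB2EzF_25) (cyO_spec zoNFzE2ByA3H2AzIzA2H3AyB2EzF_26)) (cyO_spec zoNFzE2ByA3H2AzIzA2H3AyB2EzF_27)))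 (BT.Fa_mk (BT.Fa_mk (BT.Fa_mk (cyO_spec zoNFzE2ByA3H2AzIzA2H3AyB2EzF_28) (cyO_spec zoNFzE2ByA3H2AzIzA2H3AyB2EzF_29)) (BT.Fa_mk (cyO_spec zoNFzE2ByA3H2AzIzA2H3AyB2EzF_30) (cyO_spec zoNFzE2ByA3H2AzIzA2H3AyB2EzF_31))) (BT.Fa_mk (cyO_spec zoNFzE2ByA3H2AzIzA2H3AyB2EzF_32) (cyO_spec zoNFzE2ByA3H2AzIzA2H3AyB2EzF_33)))) (BT.Fa_mk (BT.Fa_mk (BT.Fa_mk (BT.Fa_mk (cyO_spec zoNFzE2ByA3H2AzIzA2H3AyB2EzF_34) (cyO_spec zoNFzE2ByA3H2AzIzA2H3AyB2EzF_35)) (BT.Fa_mk (cyO_spec zoNFzE2ByA3H2AzIzA2H3AyB2EzF_36) (cyO_spec zoNFzE2ByA3H2AzIzA2H3AyB2EzF_37))) (BT.Fa_mk (BT.Fa_mk (cyO_spec zoNFzE2ByA3H2AzIzA2H3AyB2EzF_38) (cyO_spec zoNFzE2ByA3H2AzIzA2H3AyB2EzF_39)) (BT.Fa_mk (cyO_spec zoNFzE2ByA3H2AzIzA2H3AyB2EzF_40) (cyO_spec zoNFzE2ByA3H2AzIzA2H3AyB2EzF_41))))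 (BT.Fa_mk (BT.Fa_mk (BT.Fa_mk (cyO_spec zoNFzE2ByA3H2AzIzA2H3AyB2EzF_42) (cyO_spec zoNFzE2ByA3H2AzIzA2H3AyB2EzF_43)) (BT.Fa_mk (cyO_spec zoNFzE2ByA3H2AzIzA2H3AyB2EzF_44) (cyO_spec zoNFzE2ByA3H2AzIzA2H3AyB2EzF_45))) (BT.Fa_mk (cyO_spec zoNFzE2ByA3H2AzIzA2H3AyB2EzF_46) (cyO_spec zoNFzE2ByA3H2AzIzA2H3AyB2EzF_47))))))
    iiNFzE2ByA3H2AzIzA2H3AyB2EzF_k

theorem iiNFzE2ByA3H2AzIzAyB2H3A2AzAyBzF_k : iiNFzE2ByA3H2AzIzAyB2H3A2AzAyBzF.Fa (Itm.ok 206) := (BT.Fa_mk (BT.Fa_mk (BT.Fa_mk (BT.Fa_mk (BT.Fa_mk (BT.Fa_mk (BT.Fa_mk (BT.Fa_leaf (P := Itm.ok 206) (iqf tpr500_c)) (BT.Fa_leaf (P := Itm.ok 206) (iqf tpr168_c))) (BT.Fa_mk (BT.Fa_leaf (P := Itm.ok 206) (iqf tpr216_c)) (BT.Fa_leaf (P := Itm.ok 206) (iqf tpr12_c)))) (BT.Fa_mk (BT.Fa_mk (BT.Fa_leaf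 (P := Itm.ok 206) (iqf tpr456_c)) (BT.Fa_leaf (P := Itm.ok 206) (iqf tpr35_c))) (BT.Fa_leaf (P := Itm.ok 206) (iqf tpr1320_c)))) (BT.Fa_mk (BT.Fa_mk (BT.Fa_mk (BT.Fa_leaf (P := Itm.ok 206) (iqb tpr144_c)) (BT.Fa_leaf (P := Itm.ok 206) (iqf tpr479_c))) (BT.Fa_leaf (P := Itm.ok 206) (iqf tpr454_c))) (BT.Fa_mk (BT.Fa_mk (BT.Fa_leaf (P := Itm.ok 206) (iqf tpr1355_c)) (BT.Fa_leaf (P := Itm.ok 206) (iqf tpr1334_c))) (BT.Fa_leaf (P := Itm.ok 206) (iqb tpr21_c))))) (BT.Fa_mk (BT.Fa_mk (BT.Fa_mk (BT.Fa_mk (BT.Fa_leaf (P := Itm.ok 206) (iqb tpr1358_c)) (BT.Fa_leaf (P := Itm.ok 206) (iqb tpr506_c))) (BT.Fa_mk (BT.Fa_leaf (P := Itm.ok 206) (iqb tpr2247_c)) (BT.Fa_leaf (P := Itm.ok 206) (iqf tpr2404_c)))) (BT.Fa_mk (BT.Fa_mk (BT.Fa_leaf (P := Itm.ok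 206) (iqb tpr106_c)) (BT.Fa_leaf (P := Itm.ok 206) (iqb tpr477_c))) (BT.Fa_leaf (P := Itm.ok 206) (iqf tpr110_c)))) (BT.Fa_mk (BT.Fa_mk (BT.Fa_mk (BT.Fa_leaf (P := Itm.ok 206) (iqf tpr1341_c)) (BT.Fa_leaf (P := Itm.ok 206) (iqf tpr1305_c))) (BT.Fa_leaf (P := Itm.ok 206) (iqf tpr464_c))) (BT.Fa_mk (BT.Fa_mk (BT.Fa_leaf (P := Itm.ok 206) (iqf tpr92_c)) (BT.Fa_leaf (P := Itm.ok 206) (iqf tpr931_c))) (BT.Fa_leaf (P := Itm.ok 206) (iqb tpr1315_c)))))) (BT.Fa_mk (BT.Fa_mk (BT.Fa_mk (BT.Fa_mk (BT.Fa_mk (BT.Fa_leaf (P := Itm.ok 206) (iqf tpr2398_c)) (BT.Fa_leaf (P := Itm.ok 206) (iqf tpr1325_c))) (BT.Fa_mk (BT.Fa_leaf (P := Itm.ok 206) (iqf tpr1311_c)) (BT.Fa_leaf (P := Itm.ok 206) (iqf tpr50_c)))) (BT.Fa_mk (BT.Fa_mk (BT.Fa_leaf (P := Itm.ok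 206) (iqb tpr63_c)) (BT.Fa_leaf (P := Itm.ok 206) (iqf tpr1313_c))) (BT.Fa_leaf (P := Itm.ok 206) (iqb tpr1323_c)))) (BT.Fa_mk (BT.Fa_mk (BT.Fa_mk (BT.Fa_leaf (P := Itm.ok 206) (iqb tpr1328_c)) (BT.Fa_leaf (P := Itm.ok 206) (iqb tpr1371_c))) (BT.Fa_leaf (P := Itm.ok 206) (iqb tpr2143_c))) (BT.Fa_mk (BT.Fa_mk (BT.Fa_leaf (P := Itm.ok 206) (iqf tpr1330_c)) (BT.Fa_leaf (P := Itm.ok 206) (iqf tpr5_c))) (BT.Fa_leaf (P := Itm.ok 206) (iqb tpr2494_c))))) (BT.Fa_mk (BT.Fa_mk (BT.Fa_mk (BT.Fa_mk (BT.Fa_leaf (P := Itm.ok 206) (iqb tpr429_c)) (BT.Fa_leaf (P := Itm.ok 206) (iqf tpr465_c))) (BT.Fa_mk (BT.Fa_leaf (P := Itm.ok 206) (iqb tpr48_c)) (BT.Fa_leaf (P := Itm.ok 206) (iqb tpr788_c)))) (BT.Fa_mk (BT.Fa_mk (BT.Fa_leaf (P := Itm.ok 206) (iqb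 tpr789_c)) (BT.Fa_leaf (P := Itm.ok 206) (iqf tpr1457_c))) (BT.Fa_leaf (P := Itm.ok 206) (iqf tpr485_c)))) (BT.Fa_mk (BT.Fa_mk (BT.Fa_mk (BT.Fa_leaf (P := Itm.ok 206) (iqf tpr51_c)) (BT.Fa_leaf (P := Itm.ok 206) (iqb tpr499_c))) (BT.Fa_leaf (P := Itm.ok 206) (iqb tpr517_c))) (BT.Fa_mk (BT.Fa_mk (BT.Fa_leaf (P := Itm.ok 206) (iqb tpr645_c)) (BT.Fa_leaf (P := Itm.ok 206) (iqb tpr72_c))) (BT.Fa_leaf (P := Itm.ok 206) (iqb tpr10_c))))))) (BT.Fa_mk (BT.Fa_mk (BT.Fa_mk (BT.Fa_mk (BT.Fa_mk (BT.Fa_mk (BT.Fa_leaf (P := Itm.ok 206) (iqb tpr582_c)) (BT.Fa_leaf (P := Itm.ok 206) (iqb tpr1406_c))) (BT.Fa_mk (BT.Fa_leaf (P := Itm.ok 206) (iqf tpr143_c)) (BT.Fa_leaf (P := Itm.ok 206) (iqb tpr1365_c)))) (BT.Fa_mk (BT.Fa_mk (BT.Fa_leaf (P := Itm.ok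 206) (iqb tpr223_c)) (BT.Fa_leaf (P := Itm.ok 206) (iqf tpr186_c))) (BT.Fa_leaf (P := Itm.ok 206) (iqb tpr133_c)))) (BT.Fa_mk (BT.Fa_mk (BT.Fa_mk (BT.Fa_leaf (P := Itm.ok 206) (iqf tpr46_c)) (BT.Fa_leaf (P := Itm.ok 206) (iqb tpr824_c))) (BT.Fa_leaf (P := Itm.ok 206) (iqb tpr113_c))) (BT.Fa_mk (BT.Fa_mk (BT.Fa_leaf (P := Itm.ok 206) (iqf tpr2521_c)) (BT.Fa_leaf (P := Itm.ok 206) (iqb tpr1354_c))) (BT.Fa_leaf (P := Itm.ok 206) (iqf tpr820_c))))) (BT.Fa_mk (BT.Fa_mk (BT.Fa_mk (BT.Fa_mk (BT.Fa_leaf (P := Itm.ok 206) (iqf tpr1309_c)) (BT.Fa_leaf (P := Itm.ok 206) (iqb tpr677_c))) (BT.Fa_mk (BT.Fa_leaf (P := Itm.ok 206) (iqb tpr547_c)) (BT.Fa_leaf (P := Itm.ok 206) (iqb tpr583_c)))) (BT.Fa_mk (BT.Fa_mk (BT.Fa_leaf (P := Itm.ok 206) (iqf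 tpr617_c)) (BT.Fa_leaf (P := Itm.ok 206) (iqb tpr615_c))) (BT.Fa_leaf (P := Itm.ok 206) (iqb tpr1053_c)))) (BT.Fa_mk (BT.Fa_mk (BT.Fa_mk (BT.Fa_leaf (P := Itm.ok 206) (iqb tpr28_c)) (BT.Fa_leaf (P := Itm.ok 206) (iqf tpr1331_c))) (BT.Fa_leaf (P := Itm.ok 206) (iqb tpr1335_c))) (BT.Fa_mk (BT.Fa_mk (BT.Fa_leaf (P := Itm.ok 206) (iqb tpr1336_c)) (BT.Fa_leaf (P := Itm.ok 206) (iqf tpr940_c))) (BT.Fa_leaf (P := Itm.ok 206) (iqb tpr47_c)))))) (BT.Fa_mk (BT.Fa_mk (BT.Fa_mk (BT.Fa_mk (BT.Fa_mk (BT.Fa_leaf (P := Itm.ok 206) (iqf tpr115_c)) (BT.Fa_leaf (P := Itm.ok 206) (iqf tpr32_c))) (BT.Fa_mk (BT.Fa_leaf (P := Itm.ok 206) (iqf tpr1344_c)) (BT.Fa_leaf (P := Itm.ok 206) (iqb tpr804_c)))) (BT.Fa_mk (BT.Fa_mk (BT.Fa_leaf (P := Itm.ok 206) (iqb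 tpr1337_c)) (BT.Fa_leaf (P := Itm.ok 206) (iqb tpr1233_c))) (BT.Fa_leaf (P := Itm.ok 206) (iqf tpr139_c)))) (BT.Fa_mk (BT.Fa_mk (BT.Fa_mk (BT.Fa_leaf (P := Itm.ok 206) (iqf tpr147_c)) (BT.Fa_leaf (P := Itm.ok 206) (iqb tpr816_c))) (BT.Fa_leaf (P := Itm.ok 206) (iqf tpr89_c))) (BT.Fa_mk (BT.Fa_mk (BT.Fa_leaf (P := Itm.ok 206) (iqf tpr639_c)) (BT.Fa_leaf (P := Itm.ok 206) (iqb tpr1845_c))) (BT.Fa_leaf (P := Itm.ok 206) (iqf tpr111_c))))) (BT.Fa_mk (BT.Fa_mk (BT.Fa_mk (BT.Fa_mk (BT.Fa_leaf (P := Itm.ok 206) (iqf tpr584_c)) (BT.Fa_leaf (P := Itm.ok 206) (iqb tpr240_c))) (BT.Fa_mk (BT.Fa_leaf (P := Itm.ok 206) (iqf tpr1469_c)) (BT.Fa_leaf (P := Itm.ok 206) (iqb tpr941_c)))) (BT.Fa_mk (BT.Fa_mk (BT.Fa_leaf (P := Itm.ok 206) (iqb tpr24_c))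 (BT.Fa_leaf (P := Itm.ok 206) (iqf tpr568_c))) (BT.Fa_leaf (P := Itm.ok 206) (iqb tpr33_c)))) (BT.Fa_mk (BT.Fa_mk (BT.Fa_mk (BT.Fa_leaf (P := Itm.ok 206) (iqf tpr1423_c)) (BT.Fa_leaf (P := Itm.ok 206) (iqf tpr1429_c))) (BT.Fa_leaf (P := Itm.ok 206) (iqf tpr2399_c))) (BT.Fa_mk (BT.Fa_mk (BT.Fa_leaf (P := Itm.ok 206) (iqb tpr1017_c)) (BT.Fa_leaf (P := Itm.ok 206) (iqf tpr624_c))) (BT.Fa_leaf (P := Itm.ok 206) (iqf tpr605_c))))))))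

/-- all words of the class have labels -/
theorem pokNFzE2ByA3H2AzIzAyB2H3A2AzAyBzF : POK 206 xNFzE2ByA3H2AzIzAyB2H3A2AzAyBzF :=
  y_pok (C0 := ceNFzE2ByA3H2AzIzAyB2H3A2AzAyBzF) (C1 := coNFzE2ByA3H2AzIzAyB2H3A2AzAyBzF) topNFzE2ByA3H2AzIzAyB2H3A2AzAyBzF nbNFzE2ByA3H2AzIzAyB2H3A2AzAyBzF (BT.Fa_of_all iiNFzE2ByA3H2AzIzAyB2H3A2AzAyBzF_c)
    (cyE_spec zeNFzE2ByA3H2AzIzAyB2H3A2AzAyBzF_0)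
    (cyO_spec zoNFzE2ByA3H2AzIzAyB2H3A2AzAyBzF_0)
    iiNFzE2ByA3H2AzIzAyB2H3A2AzAyBzF_k

theorem iiNFzE2ByA3H2AzIzAyB2H3A2EzAzF_k : iiNFzE2ByA3H2AzIzAyB2H3A2EzAzF.Fa (Itm.ok 206) := (BT.Fa_mk (BT.Fa_mk (BT.Fa_mk (BT.Fa_mk (BT.Fa_mk (BT.Fa_mk (BT.Fa_mk (BT.Fa_mk (BT.Fa_leaf (P := Itm.ok 206) (iqf tpr5_c)) (BT.Fa_leaf (P := Itm.ok 206) (iqf tpr500_c))) (BT.Fa_leaf (P := Itm.ok 206) (iqb tpr499_c))) (BT.Fa_mk (BT.Fa_mk (BT.Fa_leaf (P := Itm.ok 206) (iqf tpr8_c)) (BT.Fa_leaf (P := Itm.ok 206) (iqb tpr960_c))) (BT.Fa_leaf (P := Itm.ok 206) (iqb tpr8_c)))) (BT.Fa_mk (BT.Fa_mk (BT.Fa_mk (BT.Fa_leaf (P := Itm.ok 206) (iqf tpr82_c)) (BT.Fa_leaf (P := Itm.ok 206) (iqb tpr82_c))) (BT.Fa_leaf (P := Itm.ok 206) (iqf tpr656_c))) (BT.Fa_mk (BT.Fa_mk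 (BT.Fa_leaf (P := Itm.ok 206) (iqf tpr168_c)) (BT.Fa_leaf (P := Itm.ok 206) (iqf tpr499_c))) (BT.Fa_leaf (P := Itm.ok 206) (iqf tpr609_c))))) (BT.Fa_mk (BT.Fa_mk (BT.Fa_mk (BT.Fa_mk (BT.Fa_leaf (P := Itm.ok 206) (iqf tpr527_c)) (BT.Fa_leaf (P := Itm.ok 206) (iqb tpr504_c))) (BT.Fa_leaf (P := Itm.ok 206) (iqb tpr606_c))) (BT.Fa_mk (BT.Fa_mk (BT.Fa_leaf (P := Itm.ok 206) (iqb tpr90_c)) (BT.Fa_leaf (P := Itm.ok 206) (iqf tpr51_c))) (BT.Fa_leaf (P := Itm.ok 206) (iqb tpr508_c)))) (BT.Fa_mk (BT.Fa_mk (BT.Fa_mk (BT.Fa_leaf (P := Itm.ok 206) (iqb tpr547_c)) (BT.Fa_leaf (P := Itm.ok 206) (iqf tpr605_c))) (BT.Fa_leaf (P := Itm.ok 206) (iqf tpr620_c))) (BT.Fa_mk (BT.Fa_leaf (P := Itm.ok 206) (iqf tpr515_c)) (BT.Fa_leaf (P := Itm.ok 206) (iqf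 tpr526_c)))))) (BT.Fa_mk (BT.Fa_mk (BT.Fa_mk (BT.Fa_mk (BT.Fa_mk (BT.Fa_leaf (P := Itm.ok 206) (iqb tpr577_c)) (BT.Fa_leaf (P := Itm.ok 206) (iqf tpr613_c))) (BT.Fa_leaf (P := Itm.ok 206) (iqf tpr507_c))) (BT.Fa_mk (BT.Fa_mk (BT.Fa_leaf (P := Itm.ok 206) (iqf tpr619_c)) (BT.Fa_leaf (P := Itm.ok 206) (iqb tpr566_c))) (BT.Fa_leaf (P := Itm.ok 206) (iqb tpr626_c)))) (BT.Fa_mk (BT.Fa_mk (BT.Fa_mk (BT.Fa_leaf (P := Itm.ok 206) (iqb tpr675_c)) (BT.Fa_leaf (P := Itm.ok 206) (iqf tpr236_c))) (BT.Fa_leaf (P := Itm.ok 206) (iqb tpr247_c))) (BT.Fa_mk (BT.Fa_leaf (P := Itm.ok 206) (iqb tpr734_c)) (BT.Fa_leaf (P := Itm.ok 206) (iqf tpr562_c))))) (BT.Fa_mk (BT.Fa_mk (BT.Fa_mk (BT.Fa_mk (BT.Fa_leaf (P := Itm.ok 206) (iqf tpr549_c)) (BT.Fa_leaf (P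 := Itm.ok 206) (iqb tpr703_c))) (BT.Fa_leaf (P := Itm.ok 206) (iqb tpr585_c))) (BT.Fa_mk (BT.Fa_mk (BT.Fa_leaf (P := Itm.ok 206) (iqb tpr323_c)) (BT.Fa_leaf (P := Itm.ok 206) (iqf tpr316_c))) (BT.Fa_leaf (P := Itm.ok 206) (iqb tpr1811_c)))) (BT.Fa_mk (BT.Fa_mk (BT.Fa_mk (BT.Fa_leaf (P := Itm.ok 206) (iqf tpr621_c)) (BT.Fa_leaf (P := Itm.ok 206) (iqb tpr1719_c))) (BT.Fa_leaf (P := Itm.ok 206) (iqf tpr537_c))) (BT.Fa_mk (BT.Fa_leaf (P := Itm.ok 206) (iqb tpr1247_c)) (BT.Fa_leaf (P := Itm.ok 206) (iqf tpr639_c))))))) (BT.Fa_mk (BT.Fa_mk (BT.Fa_mk (BT.Fa_mk (BT.Fa_mk (BT.Fa_mk (BT.Fa_leaf (P := Itm.ok 206) (iqf tpr247_c)) (BT.Fa_leaf (P := Itm.ok 206) (iqb tpr29_c))) (BT.Fa_leaf (P := Itm.ok 206) (iqf tpr633_c))) (BT.Fa_mk (BT.Fa_mk (BT.Fa_leaf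 (P := Itm.ok 206) (iqb tpr634_c)) (BT.Fa_leaf (P := Itm.ok 206) (iqb tpr730_c))) (BT.Fa_leaf (P := Itm.ok 206) (iqf tpr571_c)))) (BT.Fa_mk (BT.Fa_mk (BT.Fa_mk (BT.Fa_leaf (P := Itm.ok 206) (iqb tpr116_c)) (BT.Fa_leaf (P := Itm.ok 206) (iqf tpr587_c))) (BT.Fa_leaf (P := Itm.ok 206) (iqb tpr1204_c))) (BT.Fa_mk (BT.Fa_mk (BT.Fa_leaf (P := Itm.ok 206) (iqb tpr314_c)) (BT.Fa_leaf (P := Itm.ok 206) (iqb tpr1799_c))) (BT.Fa_leaf (P := Itm.ok 206) (iqb tpr1813_c))))) (BT.Fa_mk (BT.Fa_mk (BT.Fa_mk (BT.Fa_mk (BT.Fa_leaf (P := Itm.ok 206) (iqf tpr1639_c)) (BT.Fa_leaf (P := Itm.ok 206) (iqf tpr555_c))) (BT.Fa_leaf (P := Itm.ok 206) (iqb tpr518_c))) (BT.Fa_mk (BT.Fa_mk (BT.Fa_leaf (P := Itm.ok 206) (iqf tpr103_c)) (BT.Fa_leaf (P := Itm.ok 206) (iqb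 tpr507_c))) (BT.Fa_leaf (P := Itm.ok 206) (iqb tpr22_c)))) (BT.Fa_mk (BT.Fa_mk (BT.Fa_mk (BT.Fa_leaf (P := Itm.ok 206) (iqf tpr568_c)) (BT.Fa_leaf (P := Itm.ok 206) (iqb tpr607_c))) (BT.Fa_leaf (P := Itm.ok 206) (iqb tpr203_c))) (BT.Fa_mk (BT.Fa_leaf (P := Itm.ok 206) (iqf tpr508_c)) (BT.Fa_leaf (P := Itm.ok 206) (iqb tpr629_c)))))) (BT.Fa_mk (BT.Fa_mk (BT.Fa_mk (BT.Fa_mk (BT.Fa_mk (BT.Fa_leaf (P := Itm.ok 206) (iqf tpr17_c)) (BT.Fa_leaf (P := Itm.ok 206) (iqf tpr521_c))) (BT.Fa_leaf (P := Itm.ok 206) (iqb tpr513_c))) (BT.Fa_mk (BT.Fa_mk (BT.Fa_leaf (P := Itm.ok 206) (iqf tpr9_c)) (BT.Fa_leaf (P := Itm.ok 206) (iqb tpr506_c))) (BT.Fa_leaf (P := Itm.ok 206) (iqb tpr236_c)))) (BT.Fa_mk (BT.Fa_mk (BT.Fa_mk (BT.Fa_leaf (P := Itm.ok 206)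 (iqf tpr516_c)) (BT.Fa_leaf (P := Itm.ok 206) (iqf tpr606_c))) (BT.Fa_leaf (P := Itm.ok 206) (iqb tpr222_c))) (BT.Fa_mk (BT.Fa_leaf (P := Itm.ok 206) (iqf tpr573_c)) (BT.Fa_leaf (P := Itm.ok 206) (iqf tpr501_c))))) (BT.Fa_mk (BT.Fa_mk (BT.Fa_mk (BT.Fa_mk (BT.Fa_leaf (P := Itm.ok 206) (iqb tpr505_c)) (BT.Fa_leaf (P := Itm.ok 206) (iqf tpr548_c))) (BT.Fa_leaf (P := Itm.ok 206) (iqb tpr78_c))) (BT.Fa_mk (BT.Fa_mk (BT.Fa_leaf (P := Itm.ok 206) (iqf tpr506_c)) (BT.Fa_leaf (P := Itm.ok 206) (iqf tpr702_c))) (BT.Fa_leaf (P := Itm.ok 206) (iqf tpr632_c)))) (BT.Fa_mk (BT.Fa_mk (BT.Fa_mk (BT.Fa_leaf (P := Itm.ok 206) (iqb tpr51_c)) (BT.Fa_leaf (P := Itm.ok 206) (iqb tpr295_c))) (BT.Fa_leaf (P := Itm.ok 206) (iqb tpr589_c))) (BT.Fa_mk (BT.Fa_leaf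 (P := Itm.ok 206) (iqf tpr869_c)) (BT.Fa_leaf (P := Itm.ok 206) (iqf tpr22_c)))))))) (BT.Fa_mk (BT.Fa_mk (BT.Fa_mk (BT.Fa_mk (BT.Fa_mk (BT.Fa_mk (BT.Fa_mk (BT.Fa_leaf (P := Itm.ok 206) (iqf tpr622_c)) (BT.Fa_leaf (P := Itm.ok 206) (iqb tpr592_c))) (BT.Fa_leaf (P := Itm.ok 206) (iqb tpr17_c))) (BT.Fa_mk (BT.Fa_mk (BT.Fa_leaf (P := Itm.ok 206) (iqf tpr593_c)) (BT.Fa_leaf (P := Itm.ok 206) (iqf tpr676_c))) (BT.Fa_leaf (P := Itm.ok 206) (iqb tpr517_c)))) (BT.Fa_mk (BT.Fa_mk (BT.Fa_mk (BT.Fa_leaf (P := Itm.ok 206) (iqb tpr54_c)) (BT.Fa_leaf (P := Itm.ok 206) (iqf tpr24_c))) (BT.Fa_leaf (P := Itm.ok 206) (iqb tpr502_c))) (BT.Fa_mk (BT.Fa_mk (BT.Fa_leaf (P := Itm.ok 206) (iqf tpr503_c)) (BT.Fa_leaf (P := Itm.ok 206) (iqb tpr519_c))) (BT.Fa_leaf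 (P := Itm.ok 206) (iqf tpr523_c))))) (BT.Fa_mk (BT.Fa_mk (BT.Fa_mk (BT.Fa_mk (BT.Fa_leaf (P := Itm.ok 206) (iqb tpr509_c)) (BT.Fa_leaf (P := Itm.ok 206) (iqf tpr576_c))) (BT.Fa_leaf (P := Itm.ok 206) (iqf tpr294_c))) (BT.Fa_mk (BT.Fa_mk (BT.Fa_leaf (P := Itm.ok 206) (iqf tpr520_c)) (BT.Fa_leaf (P := Itm.ok 206) (iqf tpr251_c))) (BT.Fa_leaf (P := Itm.ok 206) (iqf tpr642_c)))) (BT.Fa_mk (BT.Fa_mk (BT.Fa_mk (BT.Fa_leaf (P := Itm.ok 206) (iqf tpr625_c)) (BT.Fa_leaf (P := Itm.ok 206) (iqb tpr23_c))) (BT.Fa_leaf (P := Itm.ok 206) (iqf tpr614_c))) (BT.Fa_mk (BT.Fa_leaf (P := Itm.ok 206) (iqb tpr612_c)) (BT.Fa_leaf (P := Itm.ok 206) (iqf tpr1180_c)))))) (BT.Fa_mk (BT.Fa_mk (BT.Fa_mk (BT.Fa_mk (BT.Fa_mk (BT.Fa_leaf (P := Itm.ok 206) (iqb tpr627_c))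 (BT.Fa_leaf (P := Itm.ok 206) (iqf tpr151_c))) (BT.Fa_leaf (P := Itm.ok 206) (iqb tpr682_c))) (BT.Fa_mk (BT.Fa_mk (BT.Fa_leaf (P := Itm.ok 206) (iqb tpr978_c)) (BT.Fa_leaf (P := Itm.ok 206) (iqb tpr259_c))) (BT.Fa_leaf (P := Itm.ok 206) (iqf tpr637_c)))) (BT.Fa_mk (BT.Fa_mk (BT.Fa_mk (BT.Fa_leaf (P := Itm.ok 206) (iqb tpr458_c)) (BT.Fa_leaf (P := Itm.ok 206) (iqf tpr54_c))) (BT.Fa_leaf (P := Itm.ok 206) (iqf tpr592_c))) (BT.Fa_mk (BT.Fa_leaf (P := Itm.ok 206) (iqf tpr547_c)) (BT.Fa_leaf (P := Itm.ok 206) (iqf tpr198_c))))) (BT.Fa_mk (BT.Fa_mk (BT.Fa_mk (BT.Fa_mk (BT.Fa_leaf (P := Itm.ok 206) (iqb tpr676_c)) (BT.Fa_leaf (P := Itm.ok 206) (iqb tpr593_c))) (BT.Fa_leaf (P := Itm.ok 206) (iqf tpr608_c))) (BT.Fa_mk (BT.Fa_mk (BT.Fa_leaf (P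 := Itm.ok 206) (iqb tpr516_c)) (BT.Fa_leaf (P := Itm.ok 206) (iqb tpr106_c))) (BT.Fa_leaf (P := Itm.ok 206) (iqf tpr628_c)))) (BT.Fa_mk (BT.Fa_mk (BT.Fa_mk (BT.Fa_leaf (P := Itm.ok 206) (iqf tpr616_c)) (BT.Fa_leaf (P := Itm.ok 206) (iqf tpr210_c))) (BT.Fa_leaf (P := Itm.ok 206) (iqb tpr1406_c))) (BT.Fa_mk (BT.Fa_leaf (P := Itm.ok 206) (iqf tpr589_c)) (BT.Fa_leaf (P := Itm.ok 206) (iqf tpr681_c))))))) (BT.Fa_mk (BT.Fa_mk (BT.Fa_mk (BT.Fa_mk (BT.Fa_mk (BT.Fa_mk (BT.Fa_leaf (P := Itm.ok 206) (iqf tpr569_c)) (BT.Fa_leaf (P := Itm.ok 206) (iqf tpr544_c))) (BT.Fa_leaf (P := Itm.ok 206) (iqf tpr746_c))) (BT.Fa_mk (BT.Fa_mk (BT.Fa_leaf (P := Itm.ok 206) (iqb tpr510_c)) (BT.Fa_leaf (P := Itm.ok 206) (iqf tpr559_c))) (BT.Fa_leaf (P := Itm.ok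 206) (iqb tpr588_c)))) (BT.Fa_mk (BT.Fa_mk (BT.Fa_mk (BT.Fa_leaf (P := Itm.ok 206) (iqf tpr658_c)) (BT.Fa_leaf (P := Itm.ok 206) (iqb tpr659_c))) (BT.Fa_leaf (P := Itm.ok 206) (iqb tpr1970_c))) (BT.Fa_mk (BT.Fa_leaf (P := Itm.ok 206) (iqb tpr545_c)) (BT.Fa_leaf (P := Itm.ok 206) (iqb tpr602_c))))) (BT.Fa_mk (BT.Fa_mk (BT.Fa_mk (BT.Fa_mk (BT.Fa_leaf (P := Itm.ok 206) (iqf tpr591_c)) (BT.Fa_leaf (P := Itm.ok 206) (iqf tpr514_c))) (BT.Fa_leaf (P := Itm.ok 206) (iqf tpr679_c))) (BT.Fa_mk (BT.Fa_mk (BT.Fa_leaf (P := Itm.ok 206) (iqb tpr583_c)) (BT.Fa_leaf (P := Itm.ok 206) (iqb tpr555_c))) (BT.Fa_leaf (P := Itm.ok 206) (iqf tpr538_c)))) (BT.Fa_mk (BT.Fa_mk (BT.Fa_mk (BT.Fa_leaf (P := Itm.ok 206) (iqf tpr672_c)) (BT.Fa_leaf (P := Itm.ok 206)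 (iqf tpr1199_c))) (BT.Fa_leaf (P := Itm.ok 206) (iqb tpr546_c))) (BT.Fa_mk (BT.Fa_leaf (P := Itm.ok 206) (iqb tpr647_c)) (BT.Fa_leaf (P := Itm.ok 206) (iqf tpr670_c)))))) (BT.Fa_mk (BT.Fa_mk (BT.Fa_mk (BT.Fa_mk (BT.Fa_mk (BT.Fa_leaf (P := Itm.ok 206) (iqf tpr610_c)) (BT.Fa_leaf (P := Itm.ok 206) (iqf tpr989_c))) (BT.Fa_leaf (P := Itm.ok 206) (iqb tpr667_c))) (BT.Fa_mk (BT.Fa_mk (BT.Fa_leaf (P := Itm.ok 206) (iqf tpr687_c)) (BT.Fa_leaf (P := Itm.ok 206) (iqf tpr553_c))) (BT.Fa_leaf (P := Itm.ok 206) (iqf tpr664_c)))) (BT.Fa_mk (BT.Fa_mk (BT.Fa_mk (BT.Fa_leaf (P := Itm.ok 206) (iqb tpr638_c)) (BT.Fa_leaf (P := Itm.ok 206) (iqf tpr666_c))) (BT.Fa_leaf (P := Itm.ok 206) (iqb tpr804_c))) (BT.Fa_mk (BT.Fa_leaf (P := Itm.ok 206) (iqf tpr324_c))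 (BT.Fa_leaf (P := Itm.ok 206) (iqb tpr552_c))))) (BT.Fa_mk (BT.Fa_mk (BT.Fa_mk (BT.Fa_mk (BT.Fa_leaf (P := Itm.ok 206) (iqb tpr556_c)) (BT.Fa_leaf (P := Itm.ok 206) (iqb tpr1205_c))) (BT.Fa_leaf (P := Itm.ok 206) (iqf tpr662_c))) (BT.Fa_mk (BT.Fa_mk (BT.Fa_leaf (P := Itm.ok 206) (iqf tpr674_c)) (BT.Fa_leaf (P := Itm.ok 206) (iqb tpr689_c))) (BT.Fa_leaf (P := Itm.ok 206) (iqb tpr1194_c)))) (BT.Fa_mk (BT.Fa_mk (BT.Fa_mk (BT.Fa_leaf (P := Itm.ok 206) (iqf tpr663_c)) (BT.Fa_leaf (P := Itm.ok 206) (iqf tpr295_c))) (BT.Fa_leaf (P := Itm.ok 206) (iqf tpr511_c))) (BT.Fa_mk (BT.Fa_leaf (P := Itm.ok 206) (iqb tpr599_c)) (BT.Fa_leaf (P := Itm.ok 206) (iqf tpr522_c)))))))))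

/-- all words of the class have labels -/
theorem pokNFzE2ByA3H2AzIzAyB2H3A2EzAzF : POK 206 xNFzE2ByA3H2AzIzAyB2H3A2EzAzF :=
  y_pok (C0 := ceNFzE2ByA3H2AzIzAyB2H3A2EzAzF) (C1 := coNFzE2ByA3H2AzIzAyB2H3A2EzAzF) topNFzE2ByA3H2AzIzAyB2H3A2EzAzF nbNFzE2ByA3H2AzIzAyB2H3A2EzAzF (BT.Fa_of_all iiNFzE2ByA3H2AzIzAyB2H3A2EzAzF_c)
    (BT.Fa_mk (cyE_spec zeNFzE2ByA3H2AzIzAyB2H3A2EzAzF_0) (BT.Fa_mk (cyE_spec zeNFzE2ByA3H2AzIzAyB2H3A2EzAzF_1) (cyE_spec zeNFzE2ByA3H2AzIzAyB2H3A2EzAzF_2)))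
    (BT.Fa_mk (cyO_spec zoNFzE2ByA3H2AzIzAyB2H3A2EzAzF_0) (BT.Fa_mk (cyO_spec zoNFzE2ByA3H2AzIzAyB2H3A2EzAzF_1) (cyO_spec zoNFzE2ByA3H2AzIzAyB2H3A2EzAzF_2)))
    iiNFzE2ByA3H2AzIzAyB2H3A2EzAzF_k

theorem iiNFzE2ByA3H2AzIzAyB2H3A2EzB2F_k : iiNFzE2ByA3H2AzIzAyB2H3A2EzB2F.Fa (Itm.ok 206) := (BT.Fa_mk (BT.Fa_mk (BT.Fa_mk (BT.Fa_mk (BT.Fa_mk (BT.Fa_mk (BT.Fa_mk (BT.Fa_mk (BT.Fa_leaf (P := Itm.ok 206) (iqf tpr5_c)) (BT.Fa_leaf (P := Itm.ok 206) (iqf tpr500_c))) (BT.Fa_mk (BT.Fa_leaf (P := Itm.ok 206) (iqb tpr499_c)) (BT.Fa_leaf (P := Itm.ok 206) (iqf tpr168_c)))) (BT.Fa_mk (BT.Fa_mk (BT.Fa_leaf (P := Itm.ok 206) (iqb tpr8_c)) (BT.Fa_leaf (P := Itm.ok 206) (iqf tpr12_c))) (BT.Fa_mk (BT.Fa_leaf (P := Itm.ok 206) (iqf tpr609_c)) (BT.Fa_leaf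 (P := Itm.ok 206) (iqb tpr90_c))))) (BT.Fa_mk (BT.Fa_mk (BT.Fa_mk (BT.Fa_leaf (P := Itm.ok 206) (iqf tpr51_c)) (BT.Fa_leaf (P := Itm.ok 206) (iqf tpr82_c))) (BT.Fa_mk (BT.Fa_leaf (P := Itm.ok 206) (iqb tpr505_c)) (BT.Fa_leaf (P := Itm.ok 206) (iqf tpr620_c)))) (BT.Fa_mk (BT.Fa_mk (BT.Fa_leaf (P := Itm.ok 206) (iqf tpr527_c)) (BT.Fa_leaf (P := Itm.ok 206) (iqb tpr626_c))) (BT.Fa_mk (BT.Fa_leaf (P := Itm.ok 206) (iqb tpr10_c)) (BT.Fa_leaf (P := Itm.ok 206) (iqf tpr613_c)))))) (BT.Fa_mk (BT.Fa_mk (BT.Fa_mk (BT.Fa_mk (BT.Fa_leaf (P := Itm.ok 206) (iqf tpr216_c)) (BT.Fa_leaf (P := Itm.ok 206) (iqf tpr639_c))) (BT.Fa_mk (BT.Fa_leaf (P := Itm.ok 206) (iqb tpr647_c)) (BT.Fa_leaf (P := Itm.ok 206) (iqf tpr548_c)))) (BT.Fa_mk (BT.Fa_mk (BT.Fa_leaf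 (P := Itm.ok 206) (iqb tpr703_c)) (BT.Fa_leaf (P := Itm.ok 206) (iqb tpr675_c))) (BT.Fa_mk (BT.Fa_leaf (P := Itm.ok 206) (iqf tpr670_c)) (BT.Fa_leaf (P := Itm.ok 206) (iqf tpr32_c))))) (BT.Fa_mk (BT.Fa_mk (BT.Fa_mk (BT.Fa_leaf (P := Itm.ok 206) (iqb tpr116_c)) (BT.Fa_leaf (P := Itm.ok 206) (iqb tpr33_c))) (BT.Fa_mk (BT.Fa_leaf (P := Itm.ok 206) (iqb tpr1204_c)) (BT.Fa_leaf (P := Itm.ok 206) (iqb tpr953_c)))) (BT.Fa_mk (BT.Fa_mk (BT.Fa_leaf (P := Itm.ok 206) (iqb tpr188_c)) (BT.Fa_leaf (P := Itm.ok 206) (iqf tpr50_c))) (BT.Fa_mk (BT.Fa_leaf (P := Itm.ok 206) (iqf tpr92_c)) (BT.Fa_leaf (P := Itm.ok 206) (iqb tpr39_c))))))) (BT.Fa_mk (BT.Fa_mk (BT.Fa_mk (BT.Fa_mk (BT.Fa_mk (BT.Fa_leaf (P := Itm.ok 206) (iqb tpr31_c)) (BT.Fa_leaf (P :=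 Itm.ok 206) (iqf tpr968_c))) (BT.Fa_mk (BT.Fa_leaf (P := Itm.ok 206) (iqb tpr97_c)) (BT.Fa_leaf (P := Itm.ok 206) (iqb tpr705_c)))) (BT.Fa_mk (BT.Fa_mk (BT.Fa_leaf (P := Itm.ok 206) (iqb tpr6_c)) (BT.Fa_leaf (P := Itm.ok 206) (iqb tpr244_c))) (BT.Fa_mk (BT.Fa_leaf (P := Itm.ok 206) (iqb tpr725_c)) (BT.Fa_leaf (P := Itm.ok 206) (iqb tpr1839_c))))) (BT.Fa_mk (BT.Fa_mk (BT.Fa_mk (BT.Fa_leaf (P := Itm.ok 206) (iqf tpr8_c)) (BT.Fa_leaf (P := Itm.ok 206) (iqb tpr506_c))) (BT.Fa_mk (BT.Fa_leaf (P := Itm.ok 206) (iqb tpr236_c)) (BT.Fa_leaf (P := Itm.ok 206) (iqb tpr659_c)))) (BT.Fa_mk (BT.Fa_mk (BT.Fa_leaf (P := Itm.ok 206) (iqb tpr49_c)) (BT.Fa_leaf (P := Itm.ok 206) (iqb tpr48_c))) (BT.Fa_mk (BT.Fa_leaf (P := Itm.ok 206) (iqb tpr223_c)) (BT.Fa_leaf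 (P := Itm.ok 206) (iqb tpr429_c)))))) (BT.Fa_mk (BT.Fa_mk (BT.Fa_mk (BT.Fa_mk (BT.Fa_leaf (P := Itm.ok 206) (iqf tpr658_c)) (BT.Fa_leaf (P := Itm.ok 206) (iqb tpr788_c))) (BT.Fa_mk (BT.Fa_leaf (P := Itm.ok 206) (iqb tpr9_c)) (BT.Fa_leaf (P := Itm.ok 206) (iqb tpr582_c)))) (BT.Fa_mk (BT.Fa_mk (BT.Fa_leaf (P := Itm.ok 206) (iqb tpr941_c)) (BT.Fa_leaf (P := Itm.ok 206) (iqf tpr46_c))) (BT.Fa_mk (BT.Fa_leaf (P := Itm.ok 206) (iqb tpr609_c)) (BT.Fa_leaf (P := Itm.ok 206) (iqb tpr15_c))))) (BT.Fa_mk (BT.Fa_mk (BT.Fa_mk (BT.Fa_leaf (P := Itm.ok 206) (iqb tpr2747_c)) (BT.Fa_leaf (P := Itm.ok 206) (iqb tpr133_c))) (BT.Fa_mk (BT.Fa_leaf (P := Itm.ok 206) (iqf tpr107_c)) (BT.Fa_leaf (P := Itm.ok 206) (iqf tpr215_c)))) (BT.Fa_mk (BT.Fa_mk (BT.Fa_leaf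 (P := Itm.ok 206) (iqf tpr131_c)) (BT.Fa_leaf (P := Itm.ok 206) (iqf tpr35_c))) (BT.Fa_leaf (P := Itm.ok 206) (iqb tpr28_c))))))) (BT.Fa_mk (BT.Fa_mk (BT.Fa_mk (BT.Fa_mk (BT.Fa_mk (BT.Fa_mk (BT.Fa_leaf (P := Itm.ok 206) (iqb tpr21_c)) (BT.Fa_leaf (P := Itm.ok 206) (iqb tpr607_c))) (BT.Fa_mk (BT.Fa_leaf (P := Itm.ok 206) (iqf tpr568_c)) (BT.Fa_leaf (P := Itm.ok 206) (iqf tpr507_c)))) (BT.Fa_mk (BT.Fa_mk (BT.Fa_leaf (P := Itm.ok 206) (iqb tpr167_c)) (BT.Fa_leaf (P := Itm.ok 206) (iqb tpr518_c))) (BT.Fa_mk (BT.Fa_leaf (P := Itm.ok 206) (iqb tpr508_c)) (BT.Fa_leaf (P := Itm.ok 206) (iqb tpr507_c))))) (BT.Fa_mk (BT.Fa_mk (BT.Fa_mk (BT.Fa_leaf (P := Itm.ok 206) (iqf tpr555_c)) (BT.Fa_leaf (P := Itm.ok 206) (iqb tpr22_c))) (BT.Fa_mk (BT.Fa_leaf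 (P := Itm.ok 206) (iqb tpr203_c)) (BT.Fa_leaf (P := Itm.ok 206) (iqf tpr521_c)))) (BT.Fa_mk (BT.Fa_mk (BT.Fa_leaf (P := Itm.ok 206) (iqf tpr515_c)) (BT.Fa_leaf (P := Itm.ok 206) (iqb tpr18_c))) (BT.Fa_mk (BT.Fa_leaf (P := Itm.ok 206) (iqb tpr1126_c)) (BT.Fa_leaf (P := Itm.ok 206) (iqf tpr17_c)))))) (BT.Fa_mk (BT.Fa_mk (BT.Fa_mk (BT.Fa_mk (BT.Fa_leaf (P := Itm.ok 206) (iqb tpr513_c)) (BT.Fa_leaf (P := Itm.ok 206) (iqf tpr103_c))) (BT.Fa_mk (BT.Fa_leaf (P := Itm.ok 206) (iqb tpr504_c)) (BT.Fa_leaf (P := Itm.ok 206) (iqf tpr499_c)))) (BT.Fa_mk (BT.Fa_mk (BT.Fa_leaf (P := Itm.ok 206) (iqf tpr95_c)) (BT.Fa_leaf (P := Itm.ok 206) (iqf tpr61_c))) (BT.Fa_mk (BT.Fa_leaf (P := Itm.ok 206) (iqf tpr161_c)) (BT.Fa_leaf (P := Itm.ok 206) (iqf tpr105_c)))))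 (BT.Fa_mk (BT.Fa_mk (BT.Fa_mk (BT.Fa_leaf (P := Itm.ok 206) (iqb tpr144_c)) (BT.Fa_leaf (P := Itm.ok 206) (iqb tpr47_c))) (BT.Fa_mk (BT.Fa_leaf (P := Itm.ok 206) (iqf tpr45_c)) (BT.Fa_leaf (P := Itm.ok 206) (iqf tpr1018_c)))) (BT.Fa_mk (BT.Fa_mk (BT.Fa_leaf (P := Itm.ok 206) (iqf tpr2746_c)) (BT.Fa_leaf (P := Itm.ok 206) (iqf tpr139_c))) (BT.Fa_leaf (P := Itm.ok 206) (iqf tpr940_c)))))) (BT.Fa_mk (BT.Fa_mk (BT.Fa_mk (BT.Fa_mk (BT.Fa_mk (BT.Fa_leaf (P := Itm.ok 206) (iqf tpr143_c)) (BT.Fa_leaf (P := Itm.ok 206) (iqf tpr606_c))) (BT.Fa_mk (BT.Fa_leaf (P := Itm.ok 206) (iqb tpr4_c)) (BT.Fa_leaf (P := Itm.ok 206) (iqf tpr557_c)))) (BT.Fa_mk (BT.Fa_mk (BT.Fa_leaf (P := Itm.ok 206) (iqb tpr939_c)) (BT.Fa_leaf (P := Itm.ok 206) (iqf tpr11_c)))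 (BT.Fa_mk (BT.Fa_leaf (P := Itm.ok 206) (iqb tpr221_c)) (BT.Fa_leaf (P := Itm.ok 206) (iqf tpr251_c))))) (BT.Fa_mk (BT.Fa_mk (BT.Fa_mk (BT.Fa_leaf (P := Itm.ok 206) (iqb tpr101_c)) (BT.Fa_leaf (P := Itm.ok 206) (iqf tpr656_c))) (BT.Fa_mk (BT.Fa_leaf (P := Itm.ok 206) (iqb tpr114_c)) (BT.Fa_leaf (P := Itm.ok 206) (iqb tpr40_c)))) (BT.Fa_mk (BT.Fa_mk (BT.Fa_leaf (P := Itm.ok 206) (iqf tpr150_c)) (BT.Fa_leaf (P := Itm.ok 206) (iqf tpr501_c))) (BT.Fa_mk (BT.Fa_leaf (P := Itm.ok 206) (iqf tpr9_c)) (BT.Fa_leaf (P := Itm.ok 206) (iqf tpr573_c)))))) (BT.Fa_mk (BT.Fa_mk (BT.Fa_mk (BT.Fa_mk (BT.Fa_leaf (P := Itm.ok 206) (iqf tpr508_c)) (BT.Fa_leaf (P := Itm.ok 206) (iqf tpr1666_c))) (BT.Fa_mk (BT.Fa_leaf (P := Itm.ok 206) (iqb tpr526_c)) (BT.Fa_leaf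 (P := Itm.ok 206) (iqf tpr628_c)))) (BT.Fa_mk (BT.Fa_mk (BT.Fa_leaf (P := Itm.ok 206) (iqf tpr571_c)) (BT.Fa_leaf (P := Itm.ok 206) (iqf tpr236_c))) (BT.Fa_mk (BT.Fa_leaf (P := Itm.ok 206) (iqf tpr516_c)) (BT.Fa_leaf (P := Itm.ok 206) (iqb tpr606_c))))) (BT.Fa_mk (BT.Fa_mk (BT.Fa_mk (BT.Fa_leaf (P := Itm.ok 206) (iqb tpr247_c)) (BT.Fa_leaf (P := Itm.ok 206) (iqf tpr48_c))) (BT.Fa_mk (BT.Fa_leaf (P := Itm.ok 206) (iqf tpr16_c)) (BT.Fa_leaf (P := Itm.ok 206) (iqf tpr239_c)))) (BT.Fa_mk (BT.Fa_mk (BT.Fa_leaf (P := Itm.ok 206) (iqb tpr51_c)) (BT.Fa_leaf (P := Itm.ok 206) (iqb tpr295_c))) (BT.Fa_leaf (P := Itm.ok 206) (iqb tpr978_c)))))))) (BT.Fa_mk (BT.Fa_mk (BT.Fa_mk (BT.Fa_mk (BT.Fa_mk (BT.Fa_mk (BT.Fa_mk (BT.Fa_leaf (P := Itm.ok 206)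 (iqf tpr26_c)) (BT.Fa_leaf (P := Itm.ok 206) (iqb tpr589_c))) (BT.Fa_mk (BT.Fa_leaf (P := Itm.ok 206) (iqf tpr637_c)) (BT.Fa_leaf (P := Itm.ok 206) (iqb tpr458_c)))) (BT.Fa_mk (BT.Fa_mk (BT.Fa_leaf (P := Itm.ok 206) (iqf tpr642_c)) (BT.Fa_leaf (P := Itm.ok 206) (iqb tpr222_c))) (BT.Fa_mk (BT.Fa_leaf (P := Itm.ok 206) (iqf tpr562_c)) (BT.Fa_leaf (P := Itm.ok 206) (iqb tpr23_c))))) (BT.Fa_mk (BT.Fa_mk (BT.Fa_mk (BT.Fa_leaf (P := Itm.ok 206) (iqf tpr54_c)) (BT.Fa_leaf (P := Itm.ok 206) (iqf tpr977_c))) (BT.Fa_mk (BT.Fa_leaf (P := Itm.ok 206) (iqb tpr612_c)) (BT.Fa_leaf (P := Itm.ok 206) (iqf tpr74_c)))) (BT.Fa_mk (BT.Fa_mk (BT.Fa_leaf (P := Itm.ok 206) (iqf tpr339_c)) (BT.Fa_leaf (P := Itm.ok 206) (iqb tpr743_c))) (BT.Fa_mk (BT.Fa_leaf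 (P := Itm.ok 206) (iqb tpr740_c)) (BT.Fa_leaf (P := Itm.ok 206) (iqb tpr122_c)))))) (BT.Fa_mk (BT.Fa_mk (BT.Fa_mk (BT.Fa_mk (BT.Fa_leaf (P := Itm.ok 206) (iqf tpr75_c)) (BT.Fa_leaf (P := Itm.ok 206) (iqf tpr344_c))) (BT.Fa_mk (BT.Fa_leaf (P := Itm.ok 206) (iqb tpr406_c)) (BT.Fa_leaf (P := Itm.ok 206) (iqf tpr621_c)))) (BT.Fa_mk (BT.Fa_mk (BT.Fa_leaf (P := Itm.ok 206) (iqf tpr720_c)) (BT.Fa_leaf (P := Itm.ok 206) (iqf tpr393_c))) (BT.Fa_mk (BT.Fa_leaf (P := Itm.ok 206) (iqf tpr632_c)) (BT.Fa_leaf (P := Itm.ok 206) (iqf tpr702_c))))) (BT.Fa_mk (BT.Fa_mk (BT.Fa_mk (BT.Fa_leaf (P := Itm.ok 206) (iqf tpr1190_c)) (BT.Fa_leaf (P := Itm.ok 206) (iqf tpr506_c))) (BT.Fa_mk (BT.Fa_leaf (P := Itm.ok 206) (iqf tpr633_c)) (BT.Fa_leaf (P := Itm.ok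 206) (iqb tpr259_c)))) (BT.Fa_mk (BT.Fa_mk (BT.Fa_leaf (P := Itm.ok 206) (iqb tpr1200_c)) (BT.Fa_leaf (P := Itm.ok 206) (iqf tpr315_c))) (BT.Fa_mk (BT.Fa_leaf (P := Itm.ok 206) (iqb tpr517_c)) (BT.Fa_leaf (P := Itm.ok 206) (iqf tpr592_c))))))) (BT.Fa_mk (BT.Fa_mk (BT.Fa_mk (BT.Fa_mk (BT.Fa_mk (BT.Fa_leaf (P := Itm.ok 206) (iqb tpr676_c)) (BT.Fa_leaf (P := Itm.ok 206) (iqb tpr593_c))) (BT.Fa_mk (BT.Fa_leaf (P := Itm.ok 206) (iqf tpr24_c)) (BT.Fa_leaf (P := Itm.ok 206) (iqf tpr503_c)))) (BT.Fa_mk (BT.Fa_mk (BT.Fa_leaf (P := Itm.ok 206) (iqf tpr625_c)) (BT.Fa_leaf (P := Itm.ok 206) (iqb tpr519_c))) (BT.Fa_mk (BT.Fa_leaf (P := Itm.ok 206) (iqb tpr82_c)) (BT.Fa_leaf (P := Itm.ok 206) (iqb tpr502_c))))) (BT.Fa_mk (BT.Fa_mk (BT.Fa_mk (BT.Fa_leaf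 (P := Itm.ok 206) (iqb tpr509_c)) (BT.Fa_leaf (P := Itm.ok 206) (iqf tpr523_c))) (BT.Fa_mk (BT.Fa_leaf (P := Itm.ok 206) (iqf tpr576_c)) (BT.Fa_leaf (P := Itm.ok 206) (iqf tpr294_c)))) (BT.Fa_mk (BT.Fa_mk (BT.Fa_leaf (P := Itm.ok 206) (iqb tpr592_c)) (BT.Fa_leaf (P := Itm.ok 206) (iqf tpr676_c))) (BT.Fa_mk (BT.Fa_leaf (P := Itm.ok 206) (iqf tpr622_c)) (BT.Fa_leaf (P := Itm.ok 206) (iqb tpr17_c)))))) (BT.Fa_mk (BT.Fa_mk (BT.Fa_mk (BT.Fa_mk (BT.Fa_leaf (P := Itm.ok 206) (iqf tpr520_c)) (BT.Fa_leaf (P := Itm.ok 206) (iqf tpr593_c))) (BT.Fa_mk (BT.Fa_leaf (P := Itm.ok 206) (iqb tpr545_c)) (BT.Fa_leaf (P := Itm.ok 206) (iqf tpr608_c)))) (BT.Fa_mk (BT.Fa_mk (BT.Fa_leaf (P := Itm.ok 206) (iqb tpr516_c)) (BT.Fa_leaf (P := Itm.ok 206) (iqb tpr106_c)))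 (BT.Fa_mk (BT.Fa_leaf (P := Itm.ok 206) (iqf tpr616_c)) (BT.Fa_leaf (P := Itm.ok 206) (iqb tpr1406_c))))) (BT.Fa_mk (BT.Fa_mk (BT.Fa_mk (BT.Fa_leaf (P := Itm.ok 206) (iqf tpr614_c)) (BT.Fa_leaf (P := Itm.ok 206) (iqf tpr210_c))) (BT.Fa_mk (BT.Fa_leaf (P := Itm.ok 206) (iqb tpr638_c)) (BT.Fa_leaf (P := Itm.ok 206) (iqf tpr681_c)))) (BT.Fa_mk (BT.Fa_mk (BT.Fa_leaf (P := Itm.ok 206) (iqf tpr610_c)) (BT.Fa_leaf (P := Itm.ok 206) (iqf tpr22_c))) (BT.Fa_leaf (P := Itm.ok 206) (iqb tpr602_c))))))) (BT.Fa_mk (BT.Fa_mk (BT.Fa_mk (BT.Fa_mk (BT.Fa_mk (BT.Fa_mk (BT.Fa_leaf (P := Itm.ok 206) (iqf tpr591_c)) (BT.Fa_leaf (P := Itm.ok 206) (iqf tpr619_c))) (BT.Fa_mk (BT.Fa_leaf (P := Itm.ok 206) (iqb tpr546_c)) (BT.Fa_leaf (P := Itm.ok 206) (iqb tpr935_c))))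 (BT.Fa_mk (BT.Fa_mk (BT.Fa_leaf (P := Itm.ok 206) (iqf tpr687_c)) (BT.Fa_leaf (P := Itm.ok 206) (iqb tpr1247_c))) (BT.Fa_mk (BT.Fa_leaf (P := Itm.ok 206) (iqf tpr514_c)) (BT.Fa_leaf (P := Itm.ok 206) (iqb tpr547_c))))) (BT.Fa_mk (BT.Fa_mk (BT.Fa_mk (BT.Fa_leaf (P := Itm.ok 206) (iqb tpr510_c)) (BT.Fa_leaf (P := Itm.ok 206) (iqf tpr672_c))) (BT.Fa_mk (BT.Fa_leaf (P := Itm.ok 206) (iqf tpr1199_c)) (BT.Fa_leaf (P := Itm.ok 206) (iqf tpr626_c)))) (BT.Fa_mk (BT.Fa_mk (BT.Fa_leaf (P := Itm.ok 206) (iqb tpr634_c)) (BT.Fa_leaf (P := Itm.ok 206) (iqb tpr667_c))) (BT.Fa_mk (BT.Fa_leaf (P := Itm.ok 206) (iqf tpr553_c)) (BT.Fa_leaf (P := Itm.ok 206) (iqf tpr664_c)))))) (BT.Fa_mk (BT.Fa_mk (BT.Fa_mk (BT.Fa_mk (BT.Fa_leaf (P := Itm.ok 206) (iqf tpr666_c))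 (BT.Fa_leaf (P := Itm.ok 206) (iqf tpr989_c))) (BT.Fa_mk (BT.Fa_leaf (P := Itm.ok 206) (iqf tpr1639_c)) (BT.Fa_leaf (P := Itm.ok 206) (iqb tpr552_c)))) (BT.Fa_mk (BT.Fa_mk (BT.Fa_leaf (P := Itm.ok 206) (iqb tpr1205_c)) (BT.Fa_leaf (P := Itm.ok 206) (iqf tpr526_c))) (BT.Fa_mk (BT.Fa_leaf (P := Itm.ok 206) (iqb tpr583_c)) (BT.Fa_leaf (P := Itm.ok 206) (iqb tpr804_c))))) (BT.Fa_mk (BT.Fa_mk (BT.Fa_mk (BT.Fa_leaf (P := Itm.ok 206) (iqf tpr538_c)) (BT.Fa_leaf (P := Itm.ok 206) (iqb tpr627_c))) (BT.Fa_mk (BT.Fa_leaf (P := Itm.ok 206) (iqf tpr543_c)) (BT.Fa_leaf (P := Itm.ok 206) (iqb tpr542_c)))) (BT.Fa_mk (BT.Fa_mk (BT.Fa_leaf (P := Itm.ok 206) (iqf tpr547_c)) (BT.Fa_leaf (P := Itm.ok 206) (iqb tpr565_c))) (BT.Fa_leaf (P := Itm.ok 206) (iqb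 tpr72_c)))))) (BT.Fa_mk (BT.Fa_mk (BT.Fa_mk (BT.Fa_mk (BT.Fa_mk (BT.Fa_leaf (P := Itm.ok 206) (iqf tpr525_c)) (BT.Fa_leaf (P := Itm.ok 206) (iqf tpr25_c))) (BT.Fa_mk (BT.Fa_leaf (P := Itm.ok 206) (iqb tpr562_c)) (BT.Fa_leaf (P := Itm.ok 206) (iqf tpr662_c)))) (BT.Fa_mk (BT.Fa_mk (BT.Fa_leaf (P := Itm.ok 206) (iqb tpr1194_c)) (BT.Fa_leaf (P := Itm.ok 206) (iqf tpr686_c))) (BT.Fa_mk (BT.Fa_leaf (P := Itm.ok 206) (iqf tpr247_c)) (BT.Fa_leaf (P := Itm.ok 206) (iqb tpr555_c))))) (BT.Fa_mk (BT.Fa_mk (BT.Fa_mk (BT.Fa_leaf (P := Itm.ok 206) (iqb tpr689_c)) (BT.Fa_leaf (P := Itm.ok 206) (iqb tpr1813_c))) (BT.Fa_mk (BT.Fa_leaf (P := Itm.ok 206) (iqf tpr746_c)) (BT.Fa_leaf (P := Itm.ok 206) (iqf tpr688_c)))) (BT.Fa_mk (BT.Fa_mk (BT.Fa_leaf (P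 := Itm.ok 206) (iqf tpr690_c)) (BT.Fa_leaf (P := Itm.ok 206) (iqb tpr1799_c))) (BT.Fa_mk (BT.Fa_leaf (P := Itm.ok 206) (iqb tpr1195_c)) (BT.Fa_leaf (P := Itm.ok 206) (iqf tpr631_c)))))) (BT.Fa_mk (BT.Fa_mk (BT.Fa_mk (BT.Fa_mk (BT.Fa_leaf (P := Itm.ok 206) (iqb tpr715_c)) (BT.Fa_leaf (P := Itm.ok 206) (iqb tpr1196_c))) (BT.Fa_mk (BT.Fa_leaf (P := Itm.ok 206) (iqf tpr546_c)) (BT.Fa_leaf (P := Itm.ok 206) (iqb tpr251_c)))) (BT.Fa_mk (BT.Fa_mk (BT.Fa_leaf (P := Itm.ok 206) (iqf tpr536_c)) (BT.Fa_leaf (P := Itm.ok 206) (iqf tpr198_c))) (BT.Fa_mk (BT.Fa_leaf (P := Itm.ok 206) (iqf tpr177_c)) (BT.Fa_leaf (P := Itm.ok 206) (iqb tpr549_c))))) (BT.Fa_mk (BT.Fa_mk (BT.Fa_mk (BT.Fa_leaf (P := Itm.ok 206) (iqb tpr537_c)) (BT.Fa_leaf (P := Itm.ok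 206) (iqf tpr295_c))) (BT.Fa_mk (BT.Fa_leaf (P := Itm.ok 206) (iqf tpr245_c)) (BT.Fa_leaf (P := Itm.ok 206) (iqf tpr605_c)))) (BT.Fa_mk (BT.Fa_mk (BT.Fa_leaf (P := Itm.ok 206) (iqb tpr943_c)) (BT.Fa_leaf (P := Itm.ok 206) (iqf tpr147_c))) (BT.Fa_leaf (P := Itm.ok 206) (iqf tpr691_c)))))))))

/-- all words of the class have labels -/
theorem pokNFzE2ByA3H2AzIzAyB2H3A2EzB2F : POK 206 xNFzE2ByA3H2AzIzAyB2H3A2EzB2F :=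
  y_pok (C0 := ceNFzE2ByA3H2AzIzAyB2H3A2EzB2F) (C1 := coNFzE2ByA3H2AzIzAyB2H3A2EzB2F) topNFzE2ByA3H2AzIzAyB2H3A2EzB2F nbNFzE2ByA3H2AzIzAyB2H3A2EzB2F (BT.Fa_of_all iiNFzE2ByA3H2AzIzAyB2H3A2EzB2F_c)
    (BT.Fa_mk (cyE_spec zeNFzE2ByA3H2AzIzAyB2H3A2EzB2F_0) (BT.Fa_mk (cyE_spec zeNFzE2ByA3H2AzIzAyB2H3A2EzB2F_1) (BT.Fa_mk (cyE_spec zeNFzE2ByA3H2AzIzAyB2H3A2EzB2F_2) (cyE_spec zeNFzE2ByA3H2AzIzAyB2H3A2EzB2F_3))))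
    (BT.Fa_mk (cyO_spec zoNFzE2ByA3H2AzIzAyB2H3A2EzB2F_0) (BT.Fa_mk (cyO_spec zoNFzE2ByA3H2AzIzAyB2H3A2EzB2F_1) (BT.Fa_mk (cyO_spec zoNFzE2ByA3H2AzIzAyB2H3A2EzB2F_2) (cyO_spec zoNFzE2ByA3H2AzIzAyB2H3A2EzB2F_3))))
    iiNFzE2ByA3H2AzIzAyB2H3A2EzB2F_k


end MPb6R
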