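import Pool.Agent.Lib.MP_b6d339_lc.Cw.F6
import Pool.Agent.Lib.MP_b6d339_lc.Cw.F7
import Pool.Agent.Lib.MP_b6d339_lc.Cw.XL
import Pool.Agent.Lib.MP_b6d339_lc.Cw3.F0
import Pool.Agent.Lib.MP_b6d339_lc.Cw3.F1
import Pool.Agent.Lib.MP_b6d339_lc.Cw3.F10
import Pool.Agent.Lib.MP_b6d339_lc.Cw3.F11
import Pool.Agent.Lib.MP_b6d339_lc.Cw3.F12
import Pool.Agent.Lib.MP_b6d339_lc.Cw3.F4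
import Pool.Agent.Lib.MP_b6d339_lc.Cw3.F5
import Pool.Agent.Lib.MP_b6d339_lc.Cw3.F6
import Pool.Agent.Lib.MP_b6d339_lc.Cw3.F7
import Pool.Agent.Lib.MP_b6d339_lc.Cw3.F8
import Pool.Agent.Lib.MP_b6d339_lc.Cw3.F9
import Pool.Agent.Lib.MP_b6d339_lc.Cw3.S12
import Pool.Agent.Lib.MP_b6d339_lc.Cw3.XL
import Pool.Agent.Lib.MP_b6d339_lc.Pos.XTreeC
import Pool.Agent.Lib.MP_b6d339_lc.Pos.YQ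

/-!
# Erdős 592, three levels: classes of words
-/

namespace MPb6R

open MPb6P

theorem xNFzE2B3I3B2EzF_rNA2AzE2B3I3B2EzF_ok : POK 420 xNFzE2B3I3B2EzF_rNA2AzE2B3I3B2EzF := POK.rev' pokNA2AzE2B3I3B2EzF (by decide +kernel)

theorem xNFzE2B3I3B2EzF_rNFyAzAzE2B3H3BzIzB2H3B2EzF_ok : POK 420 xNFzE2B3I3B2EzF_rNFyAzAzE2B3H3BzIzB2H3B2EzF := POK.rev' pokNFyAzAzE2B3H3BzIzB2H3B2EzF (by decide +kernel)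

theorem xNFzE2B3I3B2EzF_rNFzA2AzE2B3H3BzIzB2H3B2EzF_ok : POK 420 xNFzE2B3I3B2EzF_rNFzA2AzE2B3H3BzIzB2H3B2EzF := POK.rev' pokNFzA2AzE2B3H3BzIzB2H3B2EzF (by decide +kernel)

theorem xNFzE2B3I3B2EzF_rNFzAyAzE2B3H3BzIzB2H3A2EzF_ok : POK 420 xNFzE2B3I3B2EzF_rNFzAyAzE2B3H3BzIzB2H3A2EzF := POK.rev' pokNFzAyAzE2B3H3BzIzB2H3A2EzF (by decide +kernel)

theorem xNFzE2B3I3B2EzF_rNFzE2A3H2AzAyB2H3A2EzF_ok : POK 420 xNFzE2B3I3B2EzF_rNFzE2A3H2AzAyB2H3A2EzF := POK.rev' pokNFzE2A3H2AzAyB2H3A2EzF (by decide +kernel)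

theorem xNFzE2B3I3B2EzF_rNFzE2A3H2AzAyB2H3AyB2EzF_ok : POK 420 xNFzE2B3I3B2EzF_rNFzE2A3H2AzAyB2H3AyB2EzF := POK.rev' pokNFzE2A3H2AzAyB2H3AyB2EzF (by decide +kernel)

theorem xNFzE2B3I3B2EzF_rNFzE2A3H2AzIzA2H3AyB2EzF_ok : POK 848 xNFzE2B3I3B2EzF_rNFzE2A3H2AzIzA2H3AyB2EzF := POK.rev' pokNFzE2A3H2AzIzA2H3AyB2EzF (by decide +kernel)

theorem xNFzE2B3I3B2EzF_rNFzE2A3H2AzIzAyB2H3AyB2EzF_ok : POK 420 xNFzE2B3I3B2EzF_rNFzE2A3H2AzIzAyB2H3AyB2EzF := POK.rev' pokNFzE2A3H2AzIzAyB2H3AyB2EzF (by decide +kernel)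

theorem xNFzE2B3I3B2EzF_rNFzE2A3H2ByAzIzA2H3A2EzF_ok : POK 420 xNFzE2B3I3B2EzF_rNFzE2A3H2ByAzIzA2H3A2EzF := POK.rev' pokNFzE2A3H2ByAzIzA2H3A2EzF (by decide +kernel)

theorem xNFzE2B3I3B2EzF_rNFzE2A3H2ByAzIzA2H3AyB2EzF_ok : POK 848 xNFzE2B3I3B2EzF_rNFzE2A3H2ByAzIzA2H3AyB2EzF := POK.rev' pokNFzE2A3H2ByAzIzA2H3AyB2EzF (by decide +kernel)

theorem xNFzE2B3I3B2EzF_rNFzE2A3H2BzIzB3H3A2EzAyAyF_ok : POK 420 xNFzE2B3I3B2EzF_rNFzE2A3H2BzIzB3H3A2EzAyAyF := POK.rev' pokNFzE2A3H2BzIzB3H3A2EzAyAyF (by decide +kernel)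

theorem xNFzE2B3I3B2EzF_rNFzE2A3H3AyB2EzF_ok : POK 848 xNFzE2B3I3B2EzF_rNFzE2A3H3AyB2EzF := POK.rev' pokNFzE2A3H3AyB2EzF (by decide +kernel)

theorem xNFzE2B3I3B2EzF_rNFzE2B3H2BzAyB3H3B2EzF_ok : POK 420 xNFzE2B3I3B2EzF_rNFzE2B3H2BzAyB3H3B2EzF := POK.rev' pokNFzE2B3H2BzAyB3H3B2EzF (by decide +kernel)

theorem xNFzE2B3I3B2EzF_rNFzE2B3H2BzIzB3H3B2EzA2A2F_ok : POK 420 xNFzE2B3I3B2EzF_rNFzE2B3H2BzIzB3H3B2EzA2A2F := POK.rev' pokNFzE2B3H2BzIzB3H3B2EzA2A2F (by decide +kernel)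

theorem xNFzE2B3I3B2EzF_rNFzE2B3H2BzIzB3H3B2EzA2AyF_ok : POK 420 xNFzE2B3I3B2EzF_rNFzE2B3H2BzIzB3H3B2EzA2AyF := POK.rev' pokNFzE2B3H2BzIzB3H3B2EzA2AyF (by decide +kernel)

theorem xNFzE2B3I3B2EzF_rNFzE2B3H2BzIzB3H3B2EzAyA2F_ok : POK 420 xNFzE2B3I3B2EzF_rNFzE2B3H2BzIzB3H3B2EzAyA2F := POK.rev' pokNFzE2B3H2BzIzB3H3B2EzAyA2F (by decide +kernel)

theorem xNFzE2B3I3B2EzF_rNFzE2B3H2BzIzB3H3B2EzAzA2F_ok : POK 420 xNFzE2B3I3B2EzF_rNFzE2B3H2BzIzB3H3B2EzAzA2F := POK.rev' pokNFzE2B3H2BzIzB3H3B2EzAzA2F (by decide +kernel)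

theorem xNFzE2B3I3B2EzF_rNFzE2B3H2BzIzB3H3B2EzAzAzF_ok : POK 420 xNFzE2B3I3B2EzF_rNFzE2B3H2BzIzB3H3B2EzAzAzF := POK.rev' pokNFzE2B3H2BzIzB3H3B2EzAzAzF (by decide +kernel)

theorem xNFzE2B3I3B2EzF_rNFzE2B3H2BzIzB3H3B2EzC_ok : POK 420 xNFzE2B3I3B2EzF_rNFzE2B3H2BzIzB3H3B2EzC := POK.rev' pokNFzE2B3H2BzIzB3H3B2EzC (by decide +kernel)

theorem xNFzE2B3I3B2EzF_rNFzE2B3H2BzIzB3H3ByA2EzF_ok : POK 420 xNFzE2B3I3B2EzF_rNFzE2B3H2BzIzB3H3ByA2EzF := POK.rev' pokNFzE2B3H2BzIzB3H3ByA2EzF (by decide +kernel)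

theorem xNFzE2B3I3B2EzF_rNFzE2B3H3AzB2H3B2EzF_ok : POK 420 xNFzE2B3I3B2EzF_rNFzE2B3H3AzB2H3B2EzF := POK.rev' pokNFzE2B3H3AzB2H3B2EzF (by decide +kernel)

theorem xNFzE2B3I3B2EzF_rNFzE2B3IzC3B2EzF_ok : POK 420 xNFzE2B3I3B2EzF_rNFzE2B3IzC3B2EzF := POK.rev' pokNFzE2B3IzC3B2EzF (by decide +kernel)

theorem xNFzE2B3I3B2EzF_rNFzE2ByA3H2AzA2H3A2EzF_ok : POK 420 xNFzE2B3I3B2EzF_rNFzE2ByA3H2AzA2H3A2EzF := POK.rev' pokNFzE2ByA3H2AzA2H3A2EzF (by decide +kernel)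

theorem xNFzE2B3I3B2EzF_rNFzE2ByA3H2AzAyB2H3A2EzF_ok : POK 420 xNFzE2B3I3B2EzF_rNFzE2ByA3H2AzAyB2H3A2EzF := POK.rev' pokNFzE2ByA3H2AzAyB2H3A2EzF (by decide +kernel)

theorem xNFzE2B3I3B2EzF_rNFzE2ByA3H2AzAyB2H3AyB2EzF_ok : POK 420 xNFzE2B3I3B2EzF_rNFzE2ByA3H2AzAyB2H3AyB2EzF := POK.rev' pokNFzE2ByA3H2AzAyB2H3AyB2EzF (by decide +kernel)

theorem xNFzE2B3I3B2EzF_rNFzE2ByA3H2AzIzAyB2H3AyB2EzF_ok : POK 420 xNFzE2B3I3B2EzF_rNFzE2ByA3H2AzIzAyB2H3AyB2EzF := POK.rev' pokNFzE2ByA3H2AzIzAyB2H3AyB2EzF (by decide +kernel)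

theorem xNFzE2B3I3B2EzF_rNFzE2ByA3H2ByAzAyB2H3A2EzF_ok : POK 420 xNFzE2B3I3B2EzF_rNFzE2ByA3H2ByAzAyB2H3A2EzF := POK.rev' pokNFzE2ByA3H2ByAzAyB2H3A2EzF (by decide +kernel)

theorem xNFzE2B3I3B2EzF_rNFzE2ByA3H2ByAzIzAyB2H3A2EzF_ok : POK 420 xNFzE2B3I3B2EzF_rNFzE2ByA3H2ByAzIzAyB2H3A2EzF := POK.rev' pokNFzE2ByA3H2ByAzIzAyB2H3A2EzF (by decide +kernel)

theorem xNFzE2B3I3B2EzF_rNFzE2ByA3H2BzIzB3H3A2EzAyAyF_ok : POK 420 xNFzE2B3I3B2EzF_rNFzE2ByA3H2BzIzB3H3A2EzAyAyF := POK.rev' pokNFzE2ByA3H2BzIzB3H3A2EzAyAyF (by decide +kernel)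

theorem xNFzE2B3I3B2EzF_rNFzE2ByA3H2BzIzB3H3A2EzAyAzF_ok : POK 420 xNFzE2B3I3B2EzF_rNFzE2ByA3H2BzIzB3H3A2EzAyAzF := POK.rev' pokNFzE2ByA3H2BzIzB3H3A2EzAyAzF (by decide +kernel)

theorem iiNFzE2B3I3B2EzF_k : iiNFzE2B3I3B2EzF.Fa (Itm.ok 848) := (BT.Fa_mk (BT.Fa_mk (BT.Fa_mk (BT.Fa_mk (BT.Fa_mk (BT.Fa_mk (BT.Fa_mk (BT.Fa_leaf (P := Itm.ok 848) (show Itm.ok 848 (.pat 0 xNA2AzE2B3I3B2EzF) from (POK.mono (by decide) pokNA2AzE2B3I3B2EzF))) (BT.Fa_leaf (P := Itm.ok 848) (show Itm.ok 848 (.pat 16 xNFzE2B3I3B2EzF_rNA2AzE2B3I3B2EzF) from (POK.mono (by decide) xNFzE2B3I3B2EzF_rNA2AzE2B3I3B2EzF_ok)))) (BT.Fa_leaf (P := Itm.ok 848) (show Itm.ok 848 (.pat 32 xNFzE2B3H2BzIzB3H3B2EzC) from (POK.mono (by decide) pokNFzE2B3H2BzIzB3H3B2EzC)))) (BT.Fa_mk (BT.Fa_leaf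 (P := Itm.ok 848) (show Itm.ok 848 (.pat 54 xNFzE2B3I3B2EzF_rNFzE2B3H2BzIzB3H3B2EzC) from (POK.mono (by decide) xNFzE2B3I3B2EzF_rNFzE2B3H2BzIzB3H3B2EzC_ok))) (BT.Fa_leaf (P := Itm.ok 848) (show Itm.ok 848 (.pat 76 xNFzE2B3H2BzIzB3H3B2EzA2A2F) from (POK.mono (by decide) pokNFzE2B3H2BzIzB3H3B2EzA2A2F))))) (BT.Fa_mk (BT.Fa_mk (BT.Fa_leaf (P := Itm.ok 848) (show Itm.ok 848 (.pat 102 xNFzE2B3I3B2EzF_rNFzE2B3H2BzIzB3H3B2EzA2A2F) from (POK.mono (by decide) xNFzE2B3I3B2EzF_rNFzE2B3H2BzIzB3H3B2EzA2A2F_ok))) (BT.Fa_leaf (P := Itm.ok 848) (show Itm.ok 848 (.pat 128 xNFzE2B3H2BzIzB3H3B2EzAyA2F) from (POK.mono (by decide) pokNFzE2B3H2BzIzB3H3B2EzAyA2F)))) (BT.Fa_mk (BT.Fa_leaf (P := Itm.ok 848) (show Itm.ok 848 (.pat 154 xNFzE2B3I3B2EzF_rNFzE2B3H2BzIzB3H3B2EzAyA2F)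 from (POK.mono (by decide) xNFzE2B3I3B2EzF_rNFzE2B3H2BzIzB3H3B2EzAyA2F_ok))) (BT.Fa_leaf (P := Itm.ok 848) (show Itm.ok 848 (.pat 180 xNFzE2B3H2BzIzB3H3B2EzAzA2F) from (POK.mono (by decide) pokNFzE2B3H2BzIzB3H3B2EzAzA2F)))))) (BT.Fa_mk (BT.Fa_mk (BT.Fa_mk (BT.Fa_mk (BT.Fa_leaf (P := Itm.ok 848) (show Itm.ok 848 (.pat 206 xNFzE2B3I3B2EzF_rNFzE2B3H2BzIzB3H3B2EzAzA2F) from (POK.mono (by decide) xNFzE2B3I3B2EzF_rNFzE2B3H2BzIzB3H3B2EzAzA2F_ok))) (BT.Fa_leaf (P := Itm.ok 848) (show Itm.ok 848 (.pat 232 xNFzE2B3H2BzIzB3H3B2EzA2AyF) from (POK.mono (by decide) pokNFzE2B3H2BzIzB3H3B2EzA2AyF)))) (BT.Fa_leaf (P := Itm.ok 848) (show Itm.ok 848 (.pat 258 xNFzE2B3I3B2EzF_rNFzE2B3H2BzIzB3H3B2EzA2AyF) from (POK.mono (by decide) xNFzE2B3I3B2EzF_rNFzE2B3H2BzIzB3H3B2EzA2AyF_ok))))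 (BT.Fa_mk (BT.Fa_leaf (P := Itm.ok 848) (show Itm.ok 848 (.pat 284 xNFzE2A3H2BzIzB3H3A2EzAyAyF) from (POK.mono (by decide) pokNFzE2A3H2BzIzB3H3A2EzAyAyF))) (BT.Fa_leaf (P := Itm.ok 848) (show Itm.ok 848 (.pat 310 xNFzE2B3I3B2EzF_rNFzE2A3H2BzIzB3H3A2EzAyAyF) from (POK.mono (by decide) xNFzE2B3I3B2EzF_rNFzE2A3H2BzIzB3H3A2EzAyAyF_ok))))) (BT.Fa_mk (BT.Fa_mk (BT.Fa_leaf (P := Itm.ok 848) (show Itm.ok 848 (.pat 336 xNFzE2ByA3H2BzIzB3H3A2EzAyAyF) from (POK.mono (by decide) pokNFzE2ByA3H2BzIzB3H3A2EzAyAyF))) (BT.Fa_leaf (P := Itm.ok 848) (show Itm.ok 848 (.pat 364 xNFzE2B3I3B2EzF_rNFzE2ByA3H2BzIzB3H3A2EzAyAyF) from (POK.mono (by decide) xNFzE2B3I3B2EzF_rNFzE2ByA3H2BzIzB3H3A2EzAyAyF_ok)))) (BT.Fa_mk (BT.Fa_leaf (P := Itm.ok 848) (show Itm.ok 848 (.pat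 392 xNFyAzAzE2B3H3BzIzB2H3B2EzF) from (POK.mono (by decide) pokNFyAzAzE2B3H3BzIzB2H3B2EzF))) (BT.Fa_leaf (P := Itm.ok 848) (show Itm.ok 848 (.pat 418 xNFzE2B3I3B2EzF_rNFyAzAzE2B3H3BzIzB2H3B2EzF) from (POK.mono (by decide) xNFzE2B3I3B2EzF_rNFyAzAzE2B3H3BzIzB2H3B2EzF_ok))))))) (BT.Fa_mk (BT.Fa_mk (BT.Fa_mk (BT.Fa_mk (BT.Fa_mk (BT.Fa_leaf (P := Itm.ok 848) (show Itm.ok 848 (.pat 444 xNFzA2AzE2B3H3BzIzB2H3B2EzF) from (POK.mono (by decide) pokNFzA2AzE2B3H3BzIzB2H3B2EzF))) (BT.Fa_leaf (P := Itm.ok 848) (show Itm.ok 848 (.pat 470 xNFzE2B3I3B2EzF_rNFzA2AzE2B3H3BzIzB2H3B2EzF) from (POK.mono (by decide) xNFzE2B3I3B2EzF_rNFzA2AzE2B3H3BzIzB2H3B2EzF_ok)))) (BT.Fa_leaf (P := Itm.ok 848) (show Itm.ok 848 (.pat 496 xNFzE2ByA3H2BzIzB3H3A2EzAyAzF) from (POK.mono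 (by decide) pokNFzE2ByA3H2BzIzB3H3A2EzAyAzF)))) (BT.Fa_mk (BT.Fa_leaf (P := Itm.ok 848) (show Itm.ok 848 (.pat 524 xNFzE2B3I3B2EzF_rNFzE2ByA3H2BzIzB3H3A2EzAyAzF) from (POK.mono (by decide) xNFzE2B3I3B2EzF_rNFzE2ByA3H2BzIzB3H3A2EzAyAzF_ok))) (BT.Fa_leaf (P := Itm.ok 848) (show Itm.ok 848 (.pat 552 xNFzAyAzE2B3H3BzIzB2H3A2EzF) from (POK.mono (by decide) pokNFzAyAzE2B3H3BzIzB2H3A2EzF))))) (BT.Fa_mk (BT.Fa_mk (BT.Fa_leaf (P := Itm.ok 848) (show Itm.ok 848 (.pat 578 xNFzE2B3I3B2EzF_rNFzAyAzE2B3H3BzIzB2H3A2EzF) from (POK.mono (by decide) xNFzE2B3I3B2EzF_rNFzAyAzE2B3H3BzIzB2H3A2EzF_ok))) (BT.Fa_leaf (P := Itm.ok 848) (show Itm.ok 848 (.pat 604 xNFzE2B3H2BzIzB3H3B2EzAzAzF) from (POK.mono (by decide) pokNFzE2B3H2BzIzB3H3B2EzAzAzF)))) (BT.Fa_mk (BT.Fa_leaf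 (P := Itm.ok 848) (show Itm.ok 848 (.pat 630 xNFzE2B3I3B2EzF_rNFzE2B3H2BzIzB3H3B2EzAzAzF) from (POK.mono (by decide) xNFzE2B3I3B2EzF_rNFzE2B3H2BzIzB3H3B2EzAzAzF_ok))) (BT.Fa_leaf (P := Itm.ok 848) (show Itm.ok 848 (.pat 656 xNFzE2A3H2AzA2H3A2EzF) from (POK.mono (by decide) pokNFzE2A3H2AzA2H3A2EzF)))))) (BT.Fa_mk (BT.Fa_mk (BT.Fa_mk (BT.Fa_mk (BT.Fa_leaf (P := Itm.ok 848) (show Itm.ok 848 (.pat 676 xNFzE2ByA3H2AzA2H3A2EzF) from (POK.mono (by decide) pokNFzE2ByA3H2AzA2H3A2EzF))) (BT.Fa_leaf (P := Itm.ok 848) (show Itm.ok 848 (.pat 698 xNFzE2B3I3B2EzF_rNFzE2ByA3H2AzA2H3A2EzF) from (POK.mono (by decide) xNFzE2B3I3B2EzF_rNFzE2ByA3H2AzA2H3A2EzF_ok)))) (BT.Fa_leaf (P := Itm.ok 848) (show Itm.ok 848 (.pat 720 xNFzE2A3H2AzAyB2H3A2EzF) from (POK.mono (by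 decide) pokNFzE2A3H2AzAyB2H3A2EzF)))) (BT.Fa_mk (BT.Fa_leaf (P := Itm.ok 848) (show Itm.ok 848 (.pat 742 xNFzE2B3I3B2EzF_rNFzE2A3H2AzAyB2H3A2EzF) from (POK.mono (by decide) xNFzE2B3I3B2EzF_rNFzE2A3H2AzAyB2H3A2EzF_ok))) (BT.Fa_leaf (P := Itm.ok 848) (show Itm.ok 848 (.pat 764 xNFzE2A3H2AzAyB2H3AyB2EzF) from (POK.mono (by decide) pokNFzE2A3H2AzAyB2H3AyB2EzF))))) (BT.Fa_mk (BT.Fa_mk (BT.Fa_leaf (P := Itm.ok 848) (show Itm.ok 848 (.pat 788 xNFzE2B3I3B2EzF_rNFzE2A3H2AzAyB2H3AyB2EzF) from (POK.mono (by decide) xNFzE2B3I3B2EzF_rNFzE2A3H2AzAyB2H3AyB2EzF_ok))) (BT.Fa_leaf (P := Itm.ok 848) (show Itm.ok 848 (.pat 812 xNFzE2A3H2AzIzA2H3A2EzF) from (POK.mono (by decide) pokNFzE2A3H2AzIzA2H3A2EzF)))) (BT.Fa_mk (BT.Fa_leaf (P := Itm.ok 848) (show Itm.ok 848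 (.pat 834 xNFzE2A3H2AzIzA2H3AyB2EzF) from (POK.mono (by decide) pokNFzE2A3H2AzIzA2H3AyB2EzF))) (BT.Fa_leaf (P := Itm.ok 848) (show Itm.ok 848 (.pat 858 xNFzE2B3I3B2EzF_rNFzE2A3H2AzIzA2H3AyB2EzF) from (POK.mono (by decide) xNFzE2B3I3B2EzF_rNFzE2A3H2AzIzA2H3AyB2EzF_ok)))))))) (BT.Fa_mk (BT.Fa_mk (BT.Fa_mk (BT.Fa_mk (BT.Fa_mk (BT.Fa_mk (BT.Fa_leaf (P := Itm.ok 848) (show Itm.ok 848 (.pat 882 xNFzE2A3H2ByAzIzA2H3A2EzF) from (POK.mono (by decide) pokNFzE2A3H2ByAzIzA2H3A2EzF))) (BT.Fa_leaf (P := Itm.ok 848) (show Itm.ok 848 (.pat 906 xNFzE2B3I3B2EzF_rNFzE2A3H2ByAzIzA2H3A2EzF) from (POK.mono (by decide) xNFzE2B3I3B2EzF_rNFzE2A3H2ByAzIzA2H3A2EzF_ok)))) (BT.Fa_leaf (P := Itm.ok 848) (show Itm.ok 848 (.pat 930 xNFzE2A3H2AzIzAyB2H3AyB2EzF) from (POK.mono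 (by decide) pokNFzE2A3H2AzIzAyB2H3AyB2EzF)))) (BT.Fa_mk (BT.Fa_leaf (P := Itm.ok 848) (show Itm.ok 848 (.pat 956 xNFzE2B3I3B2EzF_rNFzE2A3H2AzIzAyB2H3AyB2EzF) from (POK.mono (by decide) xNFzE2B3I3B2EzF_rNFzE2A3H2AzIzAyB2H3AyB2EzF_ok))) (BT.Fa_leaf (P := Itm.ok 848) (show Itm.ok 848 (.pat 982 xNFzE2ByA3H2AzAyB2H3A2EzF) from (POK.mono (by decide) pokNFzE2ByA3H2AzAyB2H3A2EzF))))) (BT.Fa_mk (BT.Fa_mk (BT.Fa_leaf (P := Itm.ok 848) (show Itm.ok 848 (.pat 1006 xNFzE2B3I3B2EzF_rNFzE2ByA3H2AzAyB2H3A2EzF) from (POK.mono (by decide) xNFzE2B3I3B2EzF_rNFzE2ByA3H2AzAyB2H3A2EzF_ok))) (BT.Fa_leaf (P := Itm.ok 848) (show Itm.ok 848 (.pat 1030 xNFzE2A3H2ByAzAyB2H3A2EzF) from (POK.mono (by decide) pokNFzE2A3H2ByAzAyB2H3A2EzF)))) (BT.Fa_mk (BT.Fa_leaf (P := Itm.ok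 848) (show Itm.ok 848 (.pat 1054 xNFzE2ByA3H2ByAzAyB2H3A2EzF) from (POK.mono (by decide) pokNFzE2ByA3H2ByAzAyB2H3A2EzF))) (BT.Fa_leaf (P := Itm.ok 848) (show Itm.ok 848 (.pat 1080 xNFzE2B3I3B2EzF_rNFzE2ByA3H2ByAzAyB2H3A2EzF) from (POK.mono (by decide) xNFzE2B3I3B2EzF_rNFzE2ByA3H2ByAzAyB2H3A2EzF_ok)))))) (BT.Fa_mk (BT.Fa_mk (BT.Fa_mk (BT.Fa_mk (BT.Fa_leaf (P := Itm.ok 848) (show Itm.ok 848 (.pat 1106 xNFzE2A3H2ByAzIzA2H3AyB2EzF) from (POK.mono (by decide) pokNFzE2A3H2ByAzIzA2H3AyB2EzF))) (BT.Fa_leaf (P := Itm.ok 848) (show Itm.ok 848 (.pat 1132 xNFzE2B3I3B2EzF_rNFzE2A3H2ByAzIzA2H3AyB2EzF) from (POK.mono (by decide) xNFzE2B3I3B2EzF_rNFzE2A3H2ByAzIzA2H3AyB2EzF_ok)))) (BT.Fa_leaf (P := Itm.ok 848) (show Itm.ok 848 (.pat 1158 xNFzE2A3H2ByAzIzAyB2H3A2EzF)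 from (POK.mono (by decide) pokNFzE2A3H2ByAzIzAyB2H3A2EzF)))) (BT.Fa_mk (BT.Fa_leaf (P := Itm.ok 848) (show Itm.ok 848 (.pat 1184 xNFzE2ByA3H2ByAzIzAyB2H3A2EzF) from (POK.mono (by decide) pokNFzE2ByA3H2ByAzIzAyB2H3A2EzF))) (BT.Fa_leaf (P := Itm.ok 848) (show Itm.ok 848 (.pat 1212 xNFzE2B3I3B2EzF_rNFzE2ByA3H2ByAzIzAyB2H3A2EzF) from (POK.mono (by decide) xNFzE2B3I3B2EzF_rNFzE2ByA3H2ByAzIzAyB2H3A2EzF_ok))))) (BT.Fa_mk (BT.Fa_mk (BT.Fa_leaf (P := Itm.ok 848) (show Itm.ok 848 (.pat 1240 xNFzE2A3H3A2EzF) from (POK.mono (by decide) pokNFzE2A3H3A2EzF))) (BT.Fa_leaf (P := Itm.ok 848) (show Itm.ok 848 (.pat 1254 xNFzE2A3H3AyB2EzF) from (POK.mono (by decide) pokNFzE2A3H3AyB2EzF)))) (BT.Fa_mk (BT.Fa_leaf (P := Itm.ok 848) (show Itm.ok 848 (.pat 1270 xNFzE2B3I3B2EzF_rNFzE2A3H3AyB2EzF)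 from (POK.mono (by decide) xNFzE2B3I3B2EzF_rNFzE2A3H3AyB2EzF_ok))) (BT.Fa_leaf (P := Itm.ok 848) (show Itm.ok 848 (.pat 1286 xNFzE2B3H2BzIzB3H3ByA2EzF) from (POK.mono (by decide) pokNFzE2B3H2BzIzB3H3ByA2EzF))))))) (BT.Fa_mk (BT.Fa_mk (BT.Fa_mk (BT.Fa_mk (BT.Fa_mk (BT.Fa_leaf (P := Itm.ok 848) (show Itm.ok 848 (.pat 1310 xNFzE2B3I3B2EzF_rNFzE2B3H2BzIzB3H3ByA2EzF) from (POK.mono (by decide) xNFzE2B3I3B2EzF_rNFzE2B3H2BzIzB3H3ByA2EzF_ok))) (BT.Fa_leaf (P := Itm.ok 848) (show Itm.ok 848 (.pat 1334 xNFzE2B3IzC3B2EzF) from (POK.mono (by decide) pokNFzE2B3IzC3B2EzF)))) (BT.Fa_leaf (P := Itm.ok 848) (show Itm.ok 848 (.pat 1350 xNFzE2B3I3B2EzF_rNFzE2B3IzC3B2EzF) from (POK.mono (by decide) xNFzE2B3I3B2EzF_rNFzE2B3IzC3B2EzF_ok)))) (BT.Fa_mk (BT.Fa_leaf (P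 := Itm.ok 848) (show Itm.ok 848 (.pat 1366 xNFzE2B3H3AzB2H3B2EzF) from (POK.mono (by decide) pokNFzE2B3H3AzB2H3B2EzF))) (BT.Fa_leaf (P := Itm.ok 848) (show Itm.ok 848 (.pat 1386 xNFzE2B3I3B2EzF_rNFzE2B3H3AzB2H3B2EzF) from (POK.mono (by decide) xNFzE2B3I3B2EzF_rNFzE2B3H3AzB2H3B2EzF_ok))))) (BT.Fa_mk (BT.Fa_mk (BT.Fa_leaf (P := Itm.ok 848) (show Itm.ok 848 (.pat 1406 xNFzE2B3H2BzAyB3H3B2EzF) from (POK.mono (by decide) pokNFzE2B3H2BzAyB3H3B2EzF))) (BT.Fa_leaf (P := Itm.ok 848) (show Itm.ok 848 (.pat 1428 xNFzE2B3I3B2EzF_rNFzE2B3H2BzAyB3H3B2EzF) from (POK.mono (by decide) xNFzE2B3I3B2EzF_rNFzE2B3H2BzAyB3H3B2EzF_ok)))) (BT.Fa_mk (BT.Fa_leaf (P := Itm.ok 848) (show Itm.ok 848 (.pat 1450 xNFzE2B3H3BzB3H3B2EzF) from (POK.mono (by decide) pokNFzE2B3H3BzB3H3B2EzF)))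 (BT.Fa_leaf (P := Itm.ok 848) (show Itm.ok 848 (.pat 1470 xNFzE2B3H3BzIzB3H3B2EzF) from (POK.mono (by decide) pokNFzE2B3H3BzIzB3H3B2EzF)))))) (BT.Fa_mk (BT.Fa_mk (BT.Fa_mk (BT.Fa_mk (BT.Fa_leaf (P := Itm.ok 848) (show Itm.ok 848 (.pat 1492 xNFzE2ByA3H2AzA2H3AyB2EzF) from (POK.mono (by decide) pokNFzE2ByA3H2AzA2H3AyB2EzF))) (BT.Fa_leaf (P := Itm.ok 848) (show Itm.ok 848 (.pat 1516 xNFzE2ByA3H2AzAyB2H3AyB2EzF) from (POK.mono (by decide) pokNFzE2ByA3H2AzAyB2H3AyB2EzF)))) (BT.Fa_leaf (P := Itm.ok 848) (show Itm.ok 848 (.pat 1542 xNFzE2B3I3B2EzF_rNFzE2ByA3H2AzAyB2H3AyB2EzF) from (POK.mono (by decide) xNFzE2B3I3B2EzF_rNFzE2ByA3H2AzAyB2H3AyB2EzF_ok)))) (BT.Fa_mk (BT.Fa_leaf (P := Itm.ok 848) (show Itm.ok 848 (.pat 1568 xNFzE2ByA3H2AzIzA2H3AyB2EzF) from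 (POK.mono (by decide) pokNFzE2ByA3H2AzIzA2H3AyB2EzF))) (BT.Fa_leaf (P := Itm.ok 848) (show Itm.ok 848 (.pat 1594 xNFzE2ByA3H2AzIzAyB2H3AyB2EzF) from (POK.mono (by decide) pokNFzE2ByA3H2AzIzAyB2H3AyB2EzF))))) (BT.Fa_mk (BT.Fa_mk (BT.Fa_leaf (P := Itm.ok 848) (show Itm.ok 848 (.pat 1622 xNFzE2B3I3B2EzF_rNFzE2ByA3H2AzIzAyB2H3AyB2EzF) from (POK.mono (by decide) xNFzE2B3I3B2EzF_rNFzE2ByA3H2AzIzAyB2H3AyB2EzF_ok))) (BT.Fa_leaf (P := Itm.ok 848) (show Itm.ok 848 (.pat 1650 xNFzE2ByA3H2ByAzAyB2H3AyB2EzF) from (POK.mono (by decide) pokNFzE2ByA3H2ByAzAyB2H3AyB2EzF)))) (BT.Fa_mk (BT.Fa_leaf (P := Itm.ok 848) (show Itm.ok 848 (.pat 1678 xNFzE2ByA3H2ByAzIzAyB2H3AyB2EzF) from (POK.mono (by decide) pokNFzE2ByA3H2ByAzIzAyB2H3AyB2EzF))) (BT.Fa_leaf (P := Itm.ok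 848) (show Itm.ok 848 (.pat 1708 xNFzE2ByA3H3AyB2EzF) from (POK.mono (by decide) pokNFzE2ByA3H3AyB2EzF)))))))))

/-- all words of the class have labels -/
theorem pokNFzE2B3I3B2EzF : POK 848 xNFzE2B3I3B2EzF :=
  y_pok (C0 := ceNFzE2B3I3B2EzF) (C1 := coNFzE2B3I3B2EzF) topNFzE2B3I3B2EzF nbNFzE2B3I3B2EzF (BT.Fa_of_all iiNFzE2B3I3B2EzF_c)
    (cyE_spec zeNFzE2B3I3B2EzF_0)
    (cyO_spec zoNFzE2B3I3B2EzF_0)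
    iiNFzE2B3I3B2EzF_k


end MPb6R
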