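import Pool.Agent.Lib.MP_b6d339_lc.Cw.F1
import Pool.Agent.Lib.MP_b6d339_lc.Cw.F8
import Pool.Agent.Lib.MP_b6d339_lc.Cw.XL
import Pool.Agent.Lib.MP_b6d339_lc.Cw3.F13
import Pool.Agent.Lib.MP_b6d339_lc.Cw3.S13
import Pool.Agent.Lib.MP_b6d339_lc.Cw3.XL
import Pool.Agent.Lib.MP_b6d339_lc.Pos.XTreeC
import Pool.Agent.Lib.MP_b6d339_lc.Pos.YQ

/-!
# Erdős 592, three levels: classes of words
-/

namespace MPb6R

open MPb6P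

theorem xNF2B3I3B2F_rNFzE2B3I3B2E_ok : POK 848 xNF2B3I3B2F_rNFzE2B3I3B2E := POK.rev' pokNFzE2B3I3B2E (by decide +kernel)

theorem iiNF2B3I3B2F_k : iiNF2B3I3B2F.Fa (Itm.ok 848) := (BT.Fa_mk (BT.Fa_mk (BT.Fa_leaf (P := Itm.ok 848) (show Itm.ok 848 (.pat 0 xNE2B3I3B2E) from (POK.mono (by decide) pokNE2B3I3B2E))) (BT.Fa_leaf (P := Itm.ok 848) (show Itm.ok 848 (.pat 10 xNFzE2B3I3B2E) from (POK.mono (by decide) pokNFzE2B3I3B2E)))) (BT.Fa_mk (BT.Fa_leaf (P := Itm.ok 848) (show Itm.ok 848 (.pat 22 xNF2B3I3B2F_rNFzE2B3I3B2E) from (POK.mono (by decide) xNF2B3I3B2F_rNFzE2B3I3B2E_ok))) (BT.Fa_leaf (P := Itm.ok 848) (show Itm.ok 848 (.pat 34 xNFzE2B3I3B2EzF) from (POK.mono (by decide) pokNFzE2B3I3B2EzF)))))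

/-- all words of the class have labels -/
theorem pokNF2B3I3B2F : POK 848 xNF2B3I3B2F :=
  y_pok (C0 := ceNF2B3I3B2F) (C1 := coNF2B3I3B2F) topNF2B3I3B2F nbNF2B3I3B2F (BT.Fa_of_all iiNF2B3I3B2F_c)
    (cyE_spec zeNF2B3I3B2F_0)
    (cyO_spec zoNF2B3I3B2F_0)
    iiNF2B3I3B2F_k


end MPb6R
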