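import Pool.Agent.Lib.MP_b6d339_lc.Cw.F0
import Pool.Agent.Lib.MP_b6d339_lc.Cw.F3
import Pool.Agent.Lib.MP_b6d339_lc.Cw.XL
import Pool.Agent.Lib.MP_b6d339_lc.Cw3.F14
import Pool.Agent.Lib.MP_b6d339_lc.Cw3.S14
import Pool.Agent.Lib.MP_b6d339_lc.Cw3.XL
import Pool.Agent.Lib.MP_b6d339_lc.Pos.XTreeC
import Pool.Agent.Lib.MP_b6d339_lc.Pos.YQ

/-!
# Erdős 592, three levels: classes of words
-/

namespace MPb6R

open MPb6P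

theorem xNF3I3F_rNB3I3F_ok : POK 420 xNF3I3F_rNB3I3F := POK.rev' pokNB3I3F (by decide +kernel)

theorem xNF3I3F_rNCzB3I3B2F_ok : POK 420 xNF3I3F_rNCzB3I3B2F := POK.rev' pokNCzB3I3B2F (by decide +kernel)

theorem xNF3I3F_rNCzB3I3BzC2F_ok : POK 420 xNF3I3F_rNCzB3I3BzC2F := POK.rev' pokNCzB3I3BzC2F (by decide +kernel)

theorem xNF3I3F_rNF2B3I3BzC2F_ok : POK 420 xNF3I3F_rNF2B3I3BzC2F := POK.rev' pokNF2B3I3BzC2F (by decide +kernel)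

theorem iiNF3I3F_k : iiNF3I3F.Fa (Itm.ok 848) := (BT.Fa_mk (BT.Fa_mk (BT.Fa_mk (BT.Fa_mk (BT.Fa_leaf (P := Itm.ok 848) (show Itm.ok 848 (.pat 0 xNB3I3F) from (POK.mono (by decide) pokNB3I3F))) (BT.Fa_leaf (P := Itm.ok 848) (show Itm.ok 848 (.pat 6 xNF3I3F_rNB3I3F) from (POK.mono (by decide) xNF3I3F_rNB3I3F_ok)))) (BT.Fa_leaf (P := Itm.ok 848) (show Itm.ok 848 (.pat 12 xNCzB3I3BzC) from (POK.mono (by decide) pokNCzB3I3BzC)))) (BT.Fa_mk (BT.Fa_mk (BT.Fa_leaf (P := Itm.ok 848) (show Itm.ok 848 (.pat 22 xNCzB3I3B2F) from (POK.mono (by decide) pokNCzB3I3B2F))) (BT.Fa_leaf (P := Itm.ok 848) (show Itm.ok 848 (.pat 32 xNF3I3F_rNCzB3I3B2F) from (POK.mono (by decide) xNF3I3F_rNCzB3I3B2F_ok)))) (BT.Fa_leaf (P := Itm.ok 848) (show Itm.ok 848 (.pat 42 xNCzB3I3BzC2F) from (POK.mono (by decide) pokNCzB3I3BzC2F))))) (BT.Fa_mk (BT.Fa_mk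 (BT.Fa_mk (BT.Fa_leaf (P := Itm.ok 848) (show Itm.ok 848 (.pat 54 xNF3I3F_rNCzB3I3BzC2F) from (POK.mono (by decide) xNF3I3F_rNCzB3I3BzC2F_ok))) (BT.Fa_leaf (P := Itm.ok 848) (show Itm.ok 848 (.pat 66 xNF2CzB3I3BzC2F) from (POK.mono (by decide) pokNF2CzB3I3BzC2F)))) (BT.Fa_leaf (P := Itm.ok 848) (show Itm.ok 848 (.pat 80 xNF2B3I3B2F) from (POK.mono (by decide) pokNF2B3I3B2F)))) (BT.Fa_mk (BT.Fa_leaf (P := Itm.ok 848) (show Itm.ok 848 (.pat 90 xNF2B3I3BzC2F) from (POK.mono (by decide) pokNF2B3I3BzC2F))) (BT.Fa_leaf (P := Itm.ok 848) (show Itm.ok 848 (.pat 102 xNF3I3F_rNF2B3I3BzC2F) from (POK.mono (by decide) xNF3I3F_rNF2B3I3BzC2F_ok))))))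

/-- all words of the class have labels -/
theorem pokNF3I3F : POK 848 xNF3I3F :=
  y_pok (C0 := ceNF3I3F) (C1 := coNF3I3F) topNF3I3F nbNF3I3F (BT.Fa_of_all iiNF3I3F_c)
    (cyE_spec zeNF3I3F_0)
    (cyO_spec zoNF3I3F_0)
    iiNF3I3F_k


end MPb6R
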