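import Pool.Agent.Lib.MP_b6d339_lc.Cw3.YF2BzA2E2A3H2ByAzIzAyB2H3A2EzF
import Pool.Agent.Lib.MP_b6d339_lc.Cw3.XL
import Pool.Agent.Lib.MP_b6d339_lc.Cw3.T0
import Pool.Agent.Lib.MP_b6d339_lc.Cw3.T1
import Pool.Agent.Lib.MP_b6d339_lc.Cw3.T10
import Pool.Agent.Lib.MP_b6d339_lc.Cw3.T11
import Pool.Agent.Lib.MP_b6d339_lc.Cw3.T12
import Pool.Agent.Lib.MP_b6d339_lc.Cw3.T14
import Pool.Agent.Lib.MP_b6d339_lc.Cw3.T15
import Pool.Agent.Lib.MP_b6d339_lc.Cw3.T2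
import Pool.Agent.Lib.MP_b6d339_lc.Cw3.T20
import Pool.Agent.Lib.MP_b6d339_lc.Cw3.T21
import Pool.Agent.Lib.MP_b6d339_lc.Cw3.T25
import Pool.Agent.Lib.MP_b6d339_lc.Cw3.T26
import Pool.Agent.Lib.MP_b6d339_lc.Cw3.T3
import Pool.Agent.Lib.MP_b6d339_lc.Cw3.T30
import Pool.Agent.Lib.MP_b6d339_lc.Cw3.T4
import Pool.Agent.Lib.MP_b6d339_lc.Cw3.T5
import Pool.Agent.Lib.MP_b6d339_lc.Cw3.T6
import Pool.Agent.Lib.MP_b6d339_lc.Cw3.T7
import Pool.Agent.Lib.MP_b6d339_lc.Cw3.T8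
import Pool.Agent.Lib.MP_b6d339_lc.Cw3.T9

/-!
# Erdős 592, three levels: items
-/

namespace MPb6R

open MPb6P

noncomputable def iiNF2BzA2E2A3H2ByAzIzAyB2H3A2EzF : BT Itm := (.node (.node (.node (.node (.node (.node (.node (.node (.leaf (.fwd 0 23 tpr5.df)) (.leaf (.fwd 23 27 tpr499.df))) (.leaf (.fwd 50 34 tpr15.df))) (.node (.leaf (.fwd 84 13 tpr500.df)) (.leaf (.bwd 97 23 tpr508.df)))) (.node (.node (.leaf (.bwd 120 36 tpr23.df)) (.leaf (.bwd 156 16 tpr804.df))) (.node (.leaf (.fwd 172 29 tpr22.df)) (.leaf (.bwd 201 31 tpr167.df))))) (.node (.node (.node (.node (.leaf (.fwd 232 36 tpr1644.df)) (.leaf (.fwd 268 22 tpr504.df))) (.leaf (.bwd 290 31 tpr607.df))) (.node (.leaf (.bwd 321 37 tpr583.df)) (.leaf (.bwd 358 26 tpr509.df)))) (.node (.node (.leaf (.fwd 384 31 tpr198.df)) (.leaf (.bwd 415 38 tpr519.df))) (.node (.leaf (.bwd 453 28 tpr511.df)) (.leaf (.fwd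 481 33 tpr968.df)))))) (.node (.node (.node (.node (.node (.leaf (.bwd 514 39 tpr701.df)) (.leaf (.bwd 553 22 tpr959.df))) (.leaf (.bwd 575 39 tpr569.df))) (.node (.leaf (.fwd 614 37 tpr503.df)) (.leaf (.bwd 651 54 tpr1193.df)))) (.node (.node (.leaf (.bwd 705 29 tpr545.df)) (.leaf (.bwd 734 36 tpr683.df))) (.node (.leaf (.fwd 770 17 tpr1714.df)) (.leaf (.fwd 787 32 tpr1248.df))))) (.node (.node (.node (.node (.leaf (.fwd 819 27 tpr979.df)) (.leaf (.bwd 846 21 tpr25.df))) (.leaf (.fwd 867 39 tpr514.df))) (.node (.leaf (.fwd 906 33 tpr631.df)) (.leaf (.bwd 939 13 tpr500.df)))) (.node (.node (.leaf (.fwd 952 24 tpr57.df)) (.leaf (.bwd 976 20 tpr216.df))) (.node (.leaf (.bwd 996 35 tpr123.df)) (.leaf (.bwd 1031 30 tpr1655.df))))))) (.node (.node (.node (.node (.node (.node (.leaf (.bwd 1061 33 tpr968.df)) (.leaf (.fwd 1094 20 tpr63.df))) (.leaf (.fwd 1114 40 tpr705.df)))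 (.node (.leaf (.fwd 1154 39 tpr636.df)) (.leaf (.fwd 1193 31 tpr167.df)))) (.node (.node (.leaf (.bwd 1224 24 tpr200.df)) (.leaf (.bwd 1248 35 tpr2461.df))) (.node (.leaf (.fwd 1283 37 tpr327.df)) (.leaf (.bwd 1320 57 tpr767.df))))) (.node (.node (.node (.node (.leaf (.fwd 1377 43 tpr565.df)) (.leaf (.fwd 1420 23 tpr12.df))) (.leaf (.bwd 1443 20 tpr103.df))) (.node (.leaf (.fwd 1463 34 tpr54.df)) (.leaf (.bwd 1497 24 tpr789.df)))) (.node (.node (.leaf (.bwd 1521 29 tpr22.df)) (.leaf (.fwd 1550 21 tpr8.df))) (.node (.leaf (.bwd 1571 26 tpr2071.df)) (.leaf (.bwd 1597 23 tpr559.df)))))) (.node (.node (.node (.node (.node (.leaf (.bwd 1620 46 tpr324.df)) (.leaf (.bwd 1666 37 tpr555.df))) (.leaf (.bwd 1703 36 tpr75.df))) (.node (.leaf (.bwd 1739 21 tpr107.df)) (.leaf (.bwd 1760 25 tpr51.df)))) (.node (.node (.leaf (.bwd 1785 20 tpr505.df)) (.leaf (.bwd 1805 17 tpr215.df)))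 (.node (.leaf (.bwd 1822 15 tpr525.df)) (.leaf (.fwd 1837 20 tpr103.df))))) (.node (.node (.node (.leaf (.fwd 1857 29 tpr9.df)) (.leaf (.fwd 1886 18 tpr18.df))) (.node (.leaf (.bwd 1904 21 tpr8.df)) (.leaf (.bwd 1925 28 tpr507.df)))) (.node (.node (.leaf (.bwd 1953 22 tpr581.df)) (.leaf (.bwd 1975 32 tpr518.df))) (.node (.leaf (.fwd 2007 37 tpr555.df)) (.leaf (.fwd 2044 23 tpr1255.df)))))))) (.node (.node (.node (.node (.node (.node (.node (.leaf (.bwd 2067 45 tpr740.df)) (.leaf (.fwd 2112 28 tpr510.df))) (.leaf (.bwd 2140 22 tpr982.df))) (.node (.leaf (.fwd 2162 28 tpr588.df)) (.leaf (.bwd 2190 28 tpr588.df)))) (.node (.node (.leaf (.bwd 2218 32 tpr522.df)) (.leaf (.bwd 2250 28 tpr510.df))) (.node (.leaf (.fwd 2278 27 tpr82.df)) (.leaf (.fwd 2305 44 tpr617.df))))) (.node (.node (.node (.node (.leaf (.bwd 2349 31 tpr527.df)) (.leaf (.fwd 2380 23 tpr559.df)))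 (.leaf (.bwd 2403 44 tpr617.df))) (.node (.leaf (.fwd 2447 28 tpr610.df)) (.leaf (.fwd 2475 31 tpr527.df)))) (.node (.node (.leaf (.fwd 2506 40 tpr544.df)) (.leaf (.bwd 2546 39 tpr514.df))) (.node (.leaf (.fwd 2585 36 tpr683.df)) (.leaf (.fwd 2621 23 tpr508.df)))))) (.node (.node (.node (.node (.node (.leaf (.fwd 2644 30 tpr613.df)) (.leaf (.fwd 2674 38 tpr1262.df))) (.leaf (.fwd 2712 28 tpr511.df))) (.node (.leaf (.fwd 2740 29 tpr545.df)) (.leaf (.fwd 2769 26 tpr509.df)))) (.node (.node (.leaf (.bwd 2795 22 tpr504.df)) (.leaf (.fwd 2817 37 tpr583.df))) (.node (.leaf (.bwd 2854 28 tpr1250.df)) (.leaf (.bwd 2882 28 tpr627.df))))) (.node (.node (.node (.node (.leaf (.fwd 2910 32 tpr17.df)) (.leaf (.fwd 2942 33 tpr680.df))) (.leaf (.fwd 2975 30 tpr263.df))) (.node (.leaf (.fwd 3005 34 tpr543.df)) (.leaf (.fwd 3039 45 tpr596.df)))) (.node (.node (.leaf (.bwd 3084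 34 tpr575.df)) (.leaf (.fwd 3118 32 tpr522.df))) (.node (.leaf (.fwd 3150 38 tpr519.df)) (.leaf (.fwd 3188 36 tpr75.df))))))) (.node (.node (.node (.node (.node (.node (.leaf (.fwd 3224 30 tpr26.df)) (.leaf (.fwd 3254 18 tpr648.df))) (.leaf (.bwd 3272 42 tpr124.df))) (.node (.leaf (.fwd 3314 44 tpr466.df)) (.leaf (.fwd 3358 30 tpr603.df)))) (.node (.node (.leaf (.fwd 3388 42 tpr587.df)) (.leaf (.fwd 3430 33 tpr2090.df))) (.node (.leaf (.bwd 3463 41 tpr1637.df)) (.leaf (.fwd 3504 36 tpr1670.df))))) (.node (.node (.node (.node (.leaf (.fwd 3540 38 tpr1636.df)) (.leaf (.bwd 3578 43 tpr565.df))) (.leaf (.fwd 3621 31 tpr315.df))) (.node (.leaf (.fwd 3652 61 tpr695.df)) (.leaf (.bwd 3713 60 tpr630.df)))) (.node (.node (.leaf (.fwd 3773 40 tpr1684.df)) (.leaf (.bwd 3813 43 tpr676.df))) (.node (.leaf (.bwd 3856 40 tpr544.df)) (.leaf (.fwd 3896 44 tpr592.df)))))) (.node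 (.node (.node (.node (.node (.leaf (.fwd 3940 16 tpr804.df)) (.leaf (.fwd 3956 29 tpr151.df))) (.leaf (.bwd 3985 49 tpr1647.df))) (.node (.leaf (.fwd 4034 22 tpr239.df)) (.leaf (.bwd 4056 46 tpr593.df)))) (.node (.node (.leaf (.fwd 4102 24 tpr24.df)) (.leaf (.fwd 4126 26 tpr349.df))) (.node (.leaf (.fwd 4152 33 tpr129.df)) (.leaf (.fwd 4185 24 tpr789.df))))) (.node (.node (.node (.leaf (.fwd 4209 36 tpr23.df)) (.leaf (.bwd 4245 35 tpr585.df))) (.node (.leaf (.bwd 4280 43 tpr566.df)) (.leaf (.bwd 4323 17 tpr1714.df)))) (.node (.node (.leaf (.fwd 4340 25 tpr702.df)) (.leaf (.fwd 4365 33 tpr1213.df))) (.node (.leaf (.fwd 4398 35 tpr568.df)) (.leaf (.bwd 4433 24 tpr697.df)))))))))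

theorem iiNF2BzA2E2A3H2ByAzIzAyB2H3A2EzF_c : iiNF2BzA2E2A3H2ByAzIzAyB2H3A2EzF.all (itB (ng 61 nnNF2BzA2E2A3H2ByAzIzAyB2H3A2EzF)) = true := by decide +kernel
theorem nbNF2BzA2E2A3H2ByAzIzAyB2H3A2EzF : nbB 61 4518 nnNF2BzA2E2A3H2ByAzIzAyB2H3A2EzF = true := by decide +kernel
theorem topNF2BzA2E2A3H2ByAzIzAyB2H3A2EzF : topY 4518 ttNF2BzA2E2A3H2ByAzIzAyB2H3A2EzF ceNF2BzA2E2A3H2ByAzIzAyB2H3A2EzF xNF2BzA2E2A3H2ByAzIzAyB2H3A2EzF iiNF2BzA2E2A3H2ByAzIzAyB2H3A2EzF = true := by decide +kernel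

end MPb6R
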