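import Pool.Agent.Lib.MP_b6d339_lc.Cw3.YFzA2ByA3H2AzIzA2H3A2EzF
import Pool.Agent.Lib.MP_b6d339_lc.Cw3.XL
import Pool.Agent.Lib.MP_b6d339_lc.Cw3.T0
import Pool.Agent.Lib.MP_b6d339_lc.Cw3.T1
import Pool.Agent.Lib.MP_b6d339_lc.Cw3.T11
import Pool.Agent.Lib.MP_b6d339_lc.Cw3.T12
import Pool.Agent.Lib.MP_b6d339_lc.Cw3.T13
import Pool.Agent.Lib.MP_b6d339_lc.Cw3.T14
import Pool.Agent.Lib.MP_b6d339_lc.Cw3.T15
import Pool.Agent.Lib.MP_b6d339_lc.Cw3.T2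
import Pool.Agent.Lib.MP_b6d339_lc.Cw3.T20
import Pool.Agent.Lib.MP_b6d339_lc.Cw3.T21
import Pool.Agent.Lib.MP_b6d339_lc.Cw3.T22
import Pool.Agent.Lib.MP_b6d339_lc.Cw3.T25
import Pool.Agent.Lib.MP_b6d339_lc.Cw3.T3
import Pool.Agent.Lib.MP_b6d339_lc.Cw3.T31
import Pool.Agent.Lib.MP_b6d339_lc.Cw3.T4
import Pool.Agent.Lib.MP_b6d339_lc.Cw3.T5
import Pool.Agent.Lib.MP_b6d339_lc.Cw3.T6
import Pool.Agent.Lib.MP_b6d339_lc.Cw3.T7
import Pool.Agent.Lib.MP_b6d339_lc.Cw3.T8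
import Pool.Agent.Lib.MP_b6d339_lc.Cw3.T9

/-!
# Erdős 592, three levels: items
-/

namespace MPb6R

open MPb6P

noncomputable def iiNFzA2ByA3H2AzIzA2H3A2EzF : BT Itm := (.node (.node (.node (.node (.node (.node (.node (.leaf (.fwd 0 23 tpr5.df)) (.leaf (.bwd 23 27 tpr499.df))) (.node (.leaf (.fwd 50 35 tpr259.df)) (.leaf (.bwd 85 13 tpr500.df)))) (.node (.node (.leaf (.fwd 98 13 tpr500.df)) (.leaf (.fwd 111 21 tpr8.df))) (.leaf (.bwd 132 18 tpr2494.df)))) (.node (.node (.node (.leaf (.bwd 150 31 tpr557.df)) (.leaf (.fwd 181 24 tpr609.df))) (.node (.leaf (.fwd 205 27 tpr562.df)) (.leaf (.bwd 232 24 tpr1681.df)))) (.node (.node (.leaf (.fwd 256 21 tpr110.df)) (.leaf (.bwd 277 29 tpr579.df))) (.leaf (.bwd 306 50 tpr1233.df))))) (.node (.node (.node (.node (.leaf (.fwd 356 22 tpr572.df)) (.leaf (.bwd 378 31 tpr606.df))) (.node (.leaf (.bwd 409 29 tpr623.df)) (.leaf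 (.fwd 438 43 tpr734.df)))) (.node (.node (.leaf (.fwd 481 36 tpr573.df)) (.leaf (.bwd 517 27 tpr236.df))) (.leaf (.fwd 544 38 tpr1264.df)))) (.node (.node (.node (.leaf (.fwd 582 35 tpr585.df)) (.leaf (.fwd 617 30 tpr1730.df))) (.node (.leaf (.bwd 647 23 tpr508.df)) (.leaf (.bwd 670 29 tpr978.df)))) (.node (.node (.leaf (.bwd 699 30 tpr626.df)) (.leaf (.bwd 729 28 tpr2031.df))) (.leaf (.fwd 757 39 tpr1735.df)))))) (.node (.node (.node (.node (.node (.leaf (.bwd 796 29 tpr545.df)) (.leaf (.fwd 825 37 tpr1094.df))) (.node (.leaf (.bwd 862 36 tpr1258.df)) (.leaf (.bwd 898 35 tpr533.df)))) (.node (.node (.leaf (.bwd 933 27 tpr529.df)) (.leaf (.fwd 960 29 tpr570.df))) (.leaf (.bwd 989 23 tpr659.df)))) (.node (.node (.node (.leaf (.fwd 1012 16 tpr168.df)) (.leaf (.fwd 1028 23 tpr12.df))) (.node (.leaf (.bwd 1051 20 tpr281.df)) (.leaf (.fwd 1071 36 tpr665.df)))) (.node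 (.node (.leaf (.bwd 1107 29 tpr564.df)) (.leaf (.fwd 1136 20 tpr186.df))) (.leaf (.bwd 1156 23 tpr640.df))))) (.node (.node (.node (.node (.leaf (.bwd 1179 32 tpr1633.df)) (.leaf (.bwd 1211 38 tpr238.df))) (.node (.leaf (.fwd 1249 33 tpr501.df)) (.leaf (.bwd 1282 41 tpr188.df)))) (.node (.node (.leaf (.fwd 1323 29 tpr656.df)) (.leaf (.fwd 1352 19 tpr616.df))) (.leaf (.bwd 1371 21 tpr72.df)))) (.node (.node (.node (.leaf (.bwd 1392 25 tpr677.df)) (.leaf (.bwd 1417 31 tpr761.df))) (.node (.leaf (.fwd 1448 15 tpr525.df)) (.leaf (.bwd 1463 27 tpr788.df)))) (.node (.node (.leaf (.fwd 1490 34 tpr54.df)) (.leaf (.fwd 1524 23 tpr780.df))) (.leaf (.bwd 1547 27 tpr589.df))))))) (.node (.node (.node (.node (.node (.node (.leaf (.fwd 1574 29 tpr46.df)) (.leaf (.bwd 1603 25 tpr10.df))) (.node (.leaf (.fwd 1628 41 tpr1126.df)) (.leaf (.fwd 1669 37 tpr316.df)))) (.node (.node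 (.leaf (.bwd 1706 62 tpr2540.df)) (.leaf (.bwd 1768 31 tpr528.df))) (.leaf (.bwd 1799 25 tpr51.df)))) (.node (.node (.node (.leaf (.fwd 1824 29 tpr9.df)) (.leaf (.bwd 1853 35 tpr259.df))) (.node (.leaf (.fwd 1888 27 tpr499.df)) (.leaf (.fwd 1915 20 tpr103.df)))) (.node (.node (.leaf (.fwd 1935 22 tpr953.df)) (.leaf (.fwd 1957 56 tpr1742.df))) (.leaf (.fwd 2013 15 tpr419.df))))) (.node (.node (.node (.node (.leaf (.fwd 2028 25 tpr10.df)) (.leaf (.bwd 2053 28 tpr511.df))) (.node (.leaf (.bwd 2081 28 tpr507.df)) (.leaf (.bwd 2109 26 tpr509.df)))) (.node (.node (.leaf (.bwd 2135 38 tpr519.df)) (.leaf (.fwd 2173 32 tpr1633.df))) (.leaf (.fwd 2205 22 tpr982.df)))) (.node (.node (.node (.leaf (.bwd 2227 25 tpr1257.df)) (.leaf (.bwd 2252 44 tpr725.df))) (.node (.leaf (.bwd 2296 55 tpr1829.df)) (.leaf (.bwd 2351 29 tpr151.df)))) (.node (.node (.leaf (.fwd 2380 28 tpr721.df))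 (.leaf (.fwd 2408 35 tpr658.df))) (.leaf (.fwd 2443 35 tpr622.df)))))) (.node (.node (.node (.node (.node (.leaf (.fwd 2478 23 tpr640.df)) (.leaf (.bwd 2501 34 tpr54.df))) (.node (.leaf (.bwd 2535 37 tpr782.df)) (.leaf (.fwd 2572 57 tpr2029.df)))) (.node (.node (.leaf (.fwd 2629 43 tpr323.df)) (.leaf (.fwd 2672 18 tpr18.df))) (.leaf (.fwd 2690 27 tpr236.df)))) (.node (.node (.node (.leaf (.fwd 2717 24 tpr1681.df)) (.leaf (.fwd 2741 27 tpr625.df))) (.node (.leaf (.fwd 2768 17 tpr16.df)) (.leaf (.bwd 2785 39 tpr78.df)))) (.node (.node (.leaf (.bwd 2824 39 tpr81.df)) (.leaf (.bwd 2863 56 tpr87.df))) (.leaf (.fwd 2919 30 tpr26.df))))) (.node (.node (.node (.node (.leaf (.fwd 2949 42 tpr587.df)) (.leaf (.fwd 2991 21 tpr474.df))) (.node (.leaf (.bwd 3012 42 tpr124.df)) (.leaf (.bwd 3054 60 tpr630.df)))) (.node (.node (.leaf (.bwd 3114 24 tpr458.df)) (.leaf (.bwd 3138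 24 tpr730.df))) (.leaf (.fwd 3162 37 tpr556.df)))) (.node (.node (.node (.leaf (.fwd 3199 20 tpr48.df)) (.leaf (.bwd 3219 20 tpr768.df))) (.leaf (.bwd 3239 22 tpr504.df))) (.node (.node (.leaf (.fwd 3261 24 tpr931.df)) (.leaf (.fwd 3285 34 tpr548.df))) (.leaf (.fwd 3319 42 tpr972.df))))))))

theorem iiNFzA2ByA3H2AzIzA2H3A2EzF_c : iiNFzA2ByA3H2AzIzA2H3A2EzF.all (itB (ng 62 nnNFzA2ByA3H2AzIzA2H3A2EzF)) = true := by decide +kernel
theorem nbNFzA2ByA3H2AzIzA2H3A2EzF : nbB 62 3423 nnNFzA2ByA3H2AzIzA2H3A2EzF = true := by decide +kernel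
theorem topNFzA2ByA3H2AzIzA2H3A2EzF : topY 3423 ttNFzA2ByA3H2AzIzA2H3A2EzF ceNFzA2ByA3H2AzIzA2H3A2EzF xNFzA2ByA3H2AzIzA2H3A2EzF iiNFzA2ByA3H2AzIzA2H3A2EzF = true := by decide +kernel

end MPb6R
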