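import Pool.Agent.Lib.MP_b6d339_lc.Cw3.YFzAyE2ByA3H2AzIzA2H3A2E2A2AzAyAyF
import Pool.Agent.Lib.MP_b6d339_lc.Cw3.XL
import Pool.Agent.Lib.MP_b6d339_lc.Cw3.T0
import Pool.Agent.Lib.MP_b6d339_lc.Cw3.T1
import Pool.Agent.Lib.MP_b6d339_lc.Cw3.T10
import Pool.Agent.Lib.MP_b6d339_lc.Cw3.T11
import Pool.Agent.Lib.MP_b6d339_lc.Cw3.T12
import Pool.Agent.Lib.MP_b6d339_lc.Cw3.T13
import Pool.Agent.Lib.MP_b6d339_lc.Cw3.T14
import Pool.Agent.Lib.MP_b6d339_lc.Cw3.T15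
import Pool.Agent.Lib.MP_b6d339_lc.Cw3.T16
import Pool.Agent.Lib.MP_b6d339_lc.Cw3.T17
import Pool.Agent.Lib.MP_b6d339_lc.Cw3.T18
import Pool.Agent.Lib.MP_b6d339_lc.Cw3.T19
import Pool.Agent.Lib.MP_b6d339_lc.Cw3.T2
import Pool.Agent.Lib.MP_b6d339_lc.Cw3.T20
import Pool.Agent.Lib.MP_b6d339_lc.Cw3.T21
import Pool.Agent.Lib.MP_b6d339_lc.Cw3.T22
import Pool.Agent.Lib.MP_b6d339_lc.Cw3.T23
import Pool.Agent.Lib.MP_b6d339_lc.Cw3.T25
import Pool.Agent.Lib.MP_b6d339_lc.Cw3.T26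
import Pool.Agent.Lib.MP_b6d339_lc.Cw3.T27
import Pool.Agent.Lib.MP_b6d339_lc.Cw3.T28
import Pool.Agent.Lib.MP_b6d339_lc.Cw3.T29
import Pool.Agent.Lib.MP_b6d339_lc.Cw3.T3
import Pool.Agent.Lib.MP_b6d339_lc.Cw3.T30
import Pool.Agent.Lib.MP_b6d339_lc.Cw3.T31
import Pool.Agent.Lib.MP_b6d339_lc.Cw3.T32
import Pool.Agent.Lib.MP_b6d339_lc.Cw3.T33
import Pool.Agent.Lib.MP_b6d339_lc.Cw3.T36
import Pool.Agent.Lib.MP_b6d339_lc.Cw3.T5
import Pool.Agent.Lib.MP_b6d339_lc.Cw3.T6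
import Pool.Agent.Lib.MP_b6d339_lc.Cw3.T7
import Pool.Agent.Lib.MP_b6d339_lc.Cw3.T8
import Pool.Agent.Lib.MP_b6d339_lc.Cw3.T9

/-!
# Erdős 592, three levels: items
-/

namespace MPb6R

open MPb6P

noncomputable def iiNFzAyE2ByA3H2AzIzA2H3A2E2A2AzAyAyF : BT Itm := (.node (.node (.node (.node (.node (.node (.node (.node (.node (.leaf (.bwd 0 19 tpr33.df)) (.leaf (.fwd 19 23 tpr5.df))) (.leaf (.bwd 42 21 tpr8.df))) (.node (.leaf (.fwd 63 13 tpr500.df)) (.leaf (.bwd 76 30 tpr577.df)))) (.node (.node (.leaf (.bwd 106 28 tpr2112.df)) (.leaf (.bwd 134 23 tpr780.df))) (.node (.leaf (.bwd 157 36 tpr2208.df)) (.leaf (.fwd 193 46 tpr1765.df))))) (.node (.node (.node (.node (.leaf (.fwd 239 45 tpr596.df)) (.leaf (.bwd 284 40 tpr2005.df))) (.leaf (.fwd 324 16 tpr168.df))) (.node (.leaf (.bwd 340 39 tpr636.df)) (.leaf (.fwd 379 28 tpr2113.df)))) (.node (.node (.leaf (.fwd 407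 37 tpr2239.df)) (.leaf (.bwd 444 36 tpr547.df))) (.node (.leaf (.fwd 480 60 tpr2493.df)) (.leaf (.bwd 540 30 tpr997.df)))))) (.node (.node (.node (.node (.node (.leaf (.fwd 570 24 tpr454.df)) (.leaf (.bwd 594 28 tpr990.df))) (.leaf (.bwd 622 44 tpr1747.df))) (.node (.leaf (.fwd 666 37 tpr1359.df)) (.leaf (.fwd 703 49 tpr2133.df)))) (.node (.node (.leaf (.fwd 752 35 tpr1313.df)) (.leaf (.fwd 787 27 tpr82.df))) (.node (.leaf (.bwd 814 39 tpr1001.df)) (.leaf (.fwd 853 43 tpr2024.df))))) (.node (.node (.node (.node (.leaf (.fwd 896 23 tpr559.df)) (.leaf (.bwd 919 35 tpr534.df))) (.leaf (.bwd 954 39 tpr2123.df))) (.node (.leaf (.fwd 993 27 tpr562.df)) (.leaf (.fwd 1020 33 tpr2026.df)))) (.node (.node (.leaf (.bwd 1053 58 tpr2230.df)) (.leaf (.fwd 1111 37 tpr465.df))) (.node (.leaf (.bwd 1148 31 tpr2499.df)) (.leaf (.bwd 1179 42 tpr2233.df))))))) (.node (.node (.node (.node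 (.node (.node (.leaf (.fwd 1221 15 tpr419.df)) (.leaf (.bwd 1236 36 tpr1644.df))) (.leaf (.bwd 1272 48 tpr2114.df))) (.node (.leaf (.bwd 1320 29 tpr2269.df)) (.leaf (.bwd 1349 30 tpr2488.df)))) (.node (.node (.leaf (.fwd 1379 60 tpr2495.df)) (.leaf (.bwd 1439 43 tpr2491.df))) (.node (.leaf (.fwd 1482 49 tpr1647.df)) (.leaf (.fwd 1531 59 tpr2526.df))))) (.node (.node (.node (.node (.leaf (.bwd 1590 53 tpr815.df)) (.leaf (.bwd 1643 22 tpr2487.df))) (.leaf (.bwd 1665 32 tpr294.df))) (.node (.leaf (.fwd 1697 52 tpr814.df)) (.leaf (.fwd 1749 38 tpr2116.df)))) (.node (.node (.leaf (.bwd 1787 18 tpr2494.df)) (.leaf (.fwd 1805 22 tpr2227.df))) (.node (.leaf (.bwd 1827 61 tpr1736.df)) (.leaf (.fwd 1888 37 tpr555.df)))))) (.node (.node (.node (.node (.node (.leaf (.fwd 1925 34 tpr619.df)) (.leaf (.bwd 1959 42 tpr1138.df))) (.leaf (.fwd 2001 35 tpr541.df))) (.node (.leaf (.bwd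 2036 29 tpr2486.df)) (.leaf (.bwd 2065 25 tpr1257.df)))) (.node (.node (.leaf (.bwd 2090 38 tpr2040.df)) (.leaf (.bwd 2128 39 tpr615.df))) (.node (.leaf (.fwd 2167 48 tpr2177.df)) (.leaf (.bwd 2215 37 tpr782.df))))) (.node (.node (.node (.leaf (.bwd 2252 29 tpr2225.df)) (.leaf (.bwd 2281 43 tpr2125.df))) (.node (.leaf (.bwd 2324 27 tpr2496.df)) (.leaf (.bwd 2351 34 tpr2504.df)))) (.node (.node (.leaf (.fwd 2385 29 tpr111.df)) (.leaf (.bwd 2414 33 tpr2501.df))) (.node (.leaf (.fwd 2447 28 tpr2492.df)) (.leaf (.fwd 2475 28 tpr507.df)))))))) (.node (.node (.node (.node (.node (.node (.node (.leaf (.fwd 2503 39 tpr1112.df)) (.leaf (.bwd 2542 42 tpr812.df))) (.leaf (.bwd 2584 58 tpr1143.df))) (.node (.leaf (.bwd 2642 62 tpr1844.df)) (.leaf (.fwd 2704 32 tpr2545.df)))) (.node (.node (.leaf (.fwd 2736 40 tpr2546.df)) (.leaf (.fwd 2776 42 tpr2543.df))) (.node (.leaf (.bwd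 2818 30 tpr2205.df)) (.leaf (.bwd 2848 32 tpr2528.df))))) (.node (.node (.node (.node (.leaf (.fwd 2880 44 tpr2260.df)) (.leaf (.fwd 2924 47 tpr1762.df))) (.leaf (.fwd 2971 37 tpr2334.df))) (.node (.leaf (.fwd 3008 37 tpr2497.df)) (.leaf (.bwd 3045 21 tpr2590.df)))) (.node (.node (.leaf (.fwd 3066 30 tpr2039.df)) (.leaf (.bwd 3096 29 tpr2516.df))) (.node (.leaf (.bwd 3125 37 tpr706.df)) (.leaf (.bwd 3162 45 tpr2503.df)))))) (.node (.node (.node (.node (.node (.leaf (.fwd 3207 29 tpr608.df)) (.leaf (.bwd 3236 51 tpr2505.df))) (.leaf (.fwd 3287 42 tpr2507.df))) (.node (.leaf (.bwd 3329 27 tpr1254.df)) (.leaf (.bwd 3356 25 tpr106.df)))) (.node (.node (.leaf (.fwd 3381 33 tpr968.df)) (.leaf (.bwd 3414 40 tpr705.df))) (.node (.leaf (.fwd 3454 28 tpr2195.df)) (.leaf (.bwd 3482 35 tpr533.df))))) (.node (.node (.node (.node (.leaf (.fwd 3517 37 tpr1789.df)) (.leaf (.fwd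 3554 44 tpr2506.df))) (.leaf (.bwd 3598 34 tpr2512.df))) (.node (.leaf (.bwd 3632 34 tpr2013.df)) (.leaf (.bwd 3666 52 tpr1328.df)))) (.node (.node (.leaf (.bwd 3718 26 tpr2539.df)) (.leaf (.bwd 3744 38 tpr6.df))) (.node (.leaf (.bwd 3782 33 tpr2513.df)) (.leaf (.fwd 3815 34 tpr738.df))))))) (.node (.node (.node (.node (.node (.node (.leaf (.fwd 3849 42 tpr2542.df)) (.leaf (.bwd 3891 34 tpr54.df))) (.leaf (.bwd 3925 45 tpr2544.df))) (.node (.leaf (.fwd 3970 32 tpr2277.df)) (.leaf (.bwd 4002 40 tpr2538.df)))) (.node (.node (.leaf (.bwd 4042 39 tpr2099.df)) (.leaf (.bwd 4081 36 tpr2659.df))) (.node (.leaf (.bwd 4117 37 tpr2533.df)) (.leaf (.fwd 4154 38 tpr2903.df))))) (.node (.node (.node (.node (.leaf (.fwd 4192 23 tpr12.df)) (.leaf (.bwd 4215 13 tpr500.df))) (.leaf (.fwd 4228 25 tpr51.df))) (.node (.leaf (.bwd 4253 28 tpr941.df)) (.leaf (.bwd 4281 22 tpr20.df))))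 (.node (.node (.leaf (.fwd 4303 35 tpr259.df)) (.leaf (.fwd 4338 23 tpr605.df))) (.node (.leaf (.bwd 4361 47 tpr2143.df)) (.leaf (.fwd 4408 29 tpr582.df)))))) (.node (.node (.node (.node (.node (.leaf (.bwd 4437 37 tpr555.df)) (.leaf (.bwd 4474 25 tpr677.df))) (.leaf (.bwd 4499 35 tpr541.df))) (.node (.leaf (.bwd 4534 27 tpr506.df)) (.leaf (.bwd 4561 25 tpr10.df)))) (.node (.node (.leaf (.bwd 4586 32 tpr113.df)) (.leaf (.bwd 4618 38 tpr1137.df))) (.node (.leaf (.bwd 4656 31 tpr557.df)) (.leaf (.fwd 4687 42 tpr733.df))))) (.node (.node (.node (.leaf (.bwd 4729 19 tpr2932.df)) (.leaf (.fwd 4748 29 tpr820.df))) (.node (.leaf (.fwd 4777 32 tpr1479.df)) (.leaf (.fwd 4809 38 tpr2485.df)))) (.node (.node (.leaf (.fwd 4847 31 tpr2398.df)) (.leaf (.bwd 4878 40 tpr62.df))) (.node (.leaf (.bwd 4918 35 tpr2131.df)) (.leaf (.bwd 4953 61 tpr2519.df))))))))) (.node (.node (.node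 (.node (.node (.node (.node (.node (.leaf (.bwd 5014 18 tpr18.df)) (.leaf (.bwd 5032 37 tpr2111.df))) (.leaf (.bwd 5069 27 tpr788.df))) (.node (.leaf (.bwd 5096 41 tpr188.df)) (.leaf (.bwd 5137 50 tpr1233.df)))) (.node (.node (.leaf (.bwd 5187 32 tpr39.df)) (.leaf (.bwd 5219 31 tpr606.df))) (.node (.leaf (.fwd 5250 27 tpr131.df)) (.leaf (.fwd 5277 56 tpr2520.df))))) (.node (.node (.node (.node (.leaf (.bwd 5333 22 tpr239.df)) (.leaf (.fwd 5355 20 tpr216.df))) (.leaf (.bwd 5375 29 tpr9.df))) (.node (.leaf (.fwd 5404 33 tpr35.df)) (.leaf (.bwd 5437 20 tpr63.df)))) (.node (.node (.leaf (.fwd 5457 39 tpr2404.df)) (.leaf (.bwd 5496 33 tpr28.df))) (.node (.leaf (.fwd 5529 38 tpr526.df)) (.leaf (.bwd 5567 33 tpr31.df)))))) (.node (.node (.node (.node (.node (.leaf (.bwd 5600 31 tpr21.df)) (.leaf (.bwd 5631 27 tpr499.df))) (.leaf (.fwd 5658 24 tpr609.df))) (.node (.leaf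 (.bwd 5682 35 tpr259.df)) (.leaf (.bwd 5717 25 tpr2502.df)))) (.node (.node (.leaf (.fwd 5742 23 tpr780.df)) (.leaf (.fwd 5765 27 tpr252.df))) (.node (.leaf (.fwd 5792 37 tpr2521.df)) (.leaf (.bwd 5829 42 tpr2388.df))))) (.node (.node (.node (.node (.leaf (.fwd 5871 31 tpr1331.df)) (.leaf (.bwd 5902 35 tpr53.df))) (.leaf (.fwd 5937 18 tpr161.df))) (.node (.leaf (.fwd 5955 27 tpr1320.df)) (.leaf (.bwd 5982 39 tpr2295.df)))) (.node (.node (.leaf (.fwd 6021 20 tpr1355.df)) (.leaf (.fwd 6041 34 tpr1341.df))) (.node (.leaf (.bwd 6075 28 tpr2031.df)) (.leaf (.bwd 6103 28 tpr721.df))))))) (.node (.node (.node (.node (.node (.node (.leaf (.bwd 6131 34 tpr748.df)) (.leaf (.bwd 6165 24 tpr1681.df))) (.leaf (.bwd 6189 32 tpr518.df))) (.node (.leaf (.bwd 6221 19 tpr616.df)) (.leaf (.fwd 6240 39 tpr210.df)))) (.node (.node (.leaf (.fwd 6279 33 tpr1215.df)) (.leaf (.fwd 6312 32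 tpr1111.df))) (.node (.leaf (.bwd 6344 36 tpr2904.df)) (.leaf (.fwd 6380 19 tpr2905.df))))) (.node (.node (.node (.node (.leaf (.fwd 6399 33 tpr645.df)) (.leaf (.fwd 6432 38 tpr1100.df))) (.leaf (.bwd 6470 44 tpr725.df))) (.node (.leaf (.fwd 6514 62 tpr1754.df)) (.leaf (.fwd 6576 36 tpr683.df)))) (.node (.node (.leaf (.fwd 6612 36 tpr2179.df)) (.leaf (.fwd 6648 35 tpr2166.df))) (.node (.leaf (.fwd 6683 39 tpr701.df)) (.leaf (.fwd 6722 29 tpr656.df)))))) (.node (.node (.node (.node (.node (.leaf (.fwd 6751 29 tpr2523.df)) (.leaf (.bwd 6780 30 tpr1547.df))) (.leaf (.fwd 6810 33 tpr2171.df))) (.node (.leaf (.bwd 6843 35 tpr2215.df)) (.leaf (.bwd 6878 26 tpr2272.df)))) (.node (.node (.leaf (.bwd 6904 50 tpr2206.df)) (.leaf (.bwd 6954 23 tpr1562.df))) (.node (.leaf (.fwd 6977 29 tpr2163.df)) (.leaf (.fwd 7006 33 tpr680.df))))) (.node (.node (.node (.leaf (.fwd 7039 22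 tpr239.df)) (.leaf (.bwd 7061 28 tpr588.df))) (.node (.leaf (.fwd 7089 22 tpr982.df)) (.leaf (.bwd 7111 28 tpr295.df)))) (.node (.node (.leaf (.bwd 7139 20 tpr505.df)) (.leaf (.fwd 7159 22 tpr1870.df))) (.node (.leaf (.fwd 7181 20 tpr48.df)) (.leaf (.fwd 7201 29 tpr618.df)))))))) (.node (.node (.node (.node (.node (.node (.node (.leaf (.fwd 7230 38 tpr1767.df)) (.leaf (.bwd 7268 31 tpr517.df))) (.leaf (.bwd 7299 41 tpr1182.df))) (.node (.leaf (.fwd 7340 30 tpr613.df)) (.leaf (.bwd 7370 29 tpr22.df)))) (.node (.node (.leaf (.bwd 7399 22 tpr581.df)) (.leaf (.bwd 7421 37 tpr2164.df))) (.node (.leaf (.fwd 7458 23 tpr1255.df)) (.leaf (.bwd 7481 29 tpr582.df))))) (.node (.node (.node (.node (.leaf (.fwd 7510 30 tpr2167.df)) (.leaf (.fwd 7540 35 tpr2490.df))) (.leaf (.fwd 7575 50 tpr2489.df))) (.node (.leaf (.fwd 7625 39 tpr2532.df)) (.leaf (.fwd 7664 27 tpr2267.df))))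 (.node (.node (.leaf (.bwd 7691 41 tpr2524.df)) (.leaf (.bwd 7732 36 tpr2278.df))) (.node (.leaf (.bwd 7768 33 tpr2351.df)) (.leaf (.fwd 7801 38 tpr2510.df)))))) (.node (.node (.node (.node (.node (.leaf (.fwd 7839 28 tpr2236.df)) (.leaf (.fwd 7867 36 tpr2511.df))) (.leaf (.fwd 7903 35 tpr2229.df))) (.node (.leaf (.fwd 7938 35 tpr568.df)) (.leaf (.fwd 7973 40 tpr2007.df)))) (.node (.node (.leaf (.bwd 8013 36 tpr2509.df)) (.leaf (.bwd 8049 31 tpr2498.df))) (.node (.leaf (.fwd 8080 32 tpr591.df)) (.leaf (.fwd 8112 28 tpr627.df))))) (.node (.node (.node (.leaf (.fwd 8140 32 tpr17.df)) (.leaf (.bwd 8172 28 tpr2508.df))) (.node (.leaf (.fwd 8200 26 tpr2515.df)) (.leaf (.fwd 8226 25 tpr1733.df)))) (.node (.node (.leaf (.fwd 8251 51 tpr2525.df)) (.leaf (.bwd 8302 22 tpr504.df))) (.node (.leaf (.fwd 8324 30 tpr744.df)) (.leaf (.bwd 8354 49 tpr2137.df))))))) (.node (.node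 (.node (.node (.node (.node (.leaf (.bwd 8403 34 tpr575.df)) (.leaf (.fwd 8437 34 tpr1764.df))) (.leaf (.fwd 8471 21 tpr25.df))) (.node (.leaf (.fwd 8492 23 tpr456.df)) (.leaf (.bwd 8515 35 tpr2244.df)))) (.node (.node (.leaf (.bwd 8550 28 tpr477.df)) (.leaf (.fwd 8578 39 tpr479.df))) (.node (.leaf (.fwd 8617 25 tpr1311.df)) (.leaf (.fwd 8642 35 tpr485.df))))) (.node (.node (.node (.node (.leaf (.fwd 8677 31 tpr198.df)) (.leaf (.fwd 8708 46 tpr2153.df))) (.leaf (.bwd 8754 35 tpr849.df))) (.node (.leaf (.fwd 8789 29 tpr2500.df)) (.leaf (.bwd 8818 33 tpr1370.df)))) (.node (.node (.leaf (.bwd 8851 21 tpr90.df)) (.leaf (.fwd 8872 31 tpr527.df))) (.node (.leaf (.fwd 8903 44 tpr617.df)) (.leaf (.bwd 8947 30 tpr263.df)))))) (.node (.node (.node (.node (.node (.leaf (.fwd 8977 31 tpr1010.df)) (.leaf (.fwd 9008 32 tpr522.df))) (.leaf (.bwd 9040 52 tpr1839.df))) (.node (.leaf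 (.bwd 9092 27 tpr1247.df)) (.leaf (.fwd 9119 29 tpr464.df)))) (.node (.node (.leaf (.bwd 9148 32 tpr2243.df)) (.leaf (.fwd 9180 24 tpr931.df))) (.node (.leaf (.fwd 9204 34 tpr2310.df)) (.leaf (.fwd 9238 36 tpr1771.df))))) (.node (.node (.node (.leaf (.fwd 9274 37 tpr2933.df)) (.leaf (.bwd 9311 41 tpr2635.df))) (.node (.leaf (.fwd 9352 35 tpr2660.df)) (.leaf (.fwd 9387 36 tpr2307.df)))) (.node (.node (.leaf (.fwd 9423 27 tpr2549.df)) (.leaf (.fwd 9450 44 tpr466.df))) (.node (.leaf (.bwd 9494 41 tpr2554.df)) (.leaf (.bwd 9535 33 tpr645.df))))))))))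

theorem iiNFzAyE2ByA3H2AzIzA2H3A2E2A2AzAyAyF_c : iiNFzAyE2ByA3H2AzIzA2H3A2E2A2AzAyAyF.all (itB (ng 62 nnNFzAyE2ByA3H2AzIzA2H3A2E2A2AzAyAyF)) = true := by decide +kernel
theorem nbNFzAyE2ByA3H2AzIzA2H3A2E2A2AzAyAyF : nbB 62 9630 nnNFzAyE2ByA3H2AzIzA2H3A2E2A2AzAyAyF = true := by decide +kernel
theorem topNFzAyE2ByA3H2AzIzA2H3A2E2A2AzAyAyF : topY 9630 ttNFzAyE2ByA3H2AzIzA2H3A2E2A2AzAyAyF ceNFzAyE2ByA3H2AzIzA2H3A2E2A2AzAyAyF xNFzAyE2ByA3H2AzIzA2H3A2E2A2AzAyAyF iiNFzAyE2ByA3H2AzIzA2H3A2E2A2AzAyAyF = true := by decide +kernel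

end MPb6R
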