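import Pool.Agent.Lib.MP_b6d339_lc.Cw3.YFzAyE2ByA3H2AzIzA2H3A2E2A2AzAyAzF
import Pool.Agent.Lib.MP_b6d339_lc.Cw3.XL
import Pool.Agent.Lib.MP_b6d339_lc.Cw3.T0
import Pool.Agent.Lib.MP_b6d339_lc.Cw3.T1
import Pool.Agent.Lib.MP_b6d339_lc.Cw3.T10
import Pool.Agent.Lib.MP_b6d339_lc.Cw3.T11
import Pool.Agent.Lib.MP_b6d339_lc.Cw3.T12
import Pool.Agent.Lib.MP_b6d339_lc.Cw3.T13
import Pool.Agent.Lib.MP_b6d339_lc.Cw3.T14
import Pool.Agent.Lib.MP_b6d339_lc.Cw3.T15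
import Pool.Agent.Lib.MP_b6d339_lc.Cw3.T16
import Pool.Agent.Lib.MP_b6d339_lc.Cw3.T17
import Pool.Agent.Lib.MP_b6d339_lc.Cw3.T18
import Pool.Agent.Lib.MP_b6d339_lc.Cw3.T19
import Pool.Agent.Lib.MP_b6d339_lc.Cw3.T2
import Pool.Agent.Lib.MP_b6d339_lc.Cw3.T20
import Pool.Agent.Lib.MP_b6d339_lc.Cw3.T21
import Pool.Agent.Lib.MP_b6d339_lc.Cw3.T22
import Pool.Agent.Lib.MP_b6d339_lc.Cw3.T23
import Pool.Agent.Lib.MP_b6d339_lc.Cw3.T25
import Pool.Agent.Lib.MP_b6d339_lc.Cw3.T26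
import Pool.Agent.Lib.MP_b6d339_lc.Cw3.T27
import Pool.Agent.Lib.MP_b6d339_lc.Cw3.T28
import Pool.Agent.Lib.MP_b6d339_lc.Cw3.T29
import Pool.Agent.Lib.MP_b6d339_lc.Cw3.T3
import Pool.Agent.Lib.MP_b6d339_lc.Cw3.T30
import Pool.Agent.Lib.MP_b6d339_lc.Cw3.T31
import Pool.Agent.Lib.MP_b6d339_lc.Cw3.T32
import Pool.Agent.Lib.MP_b6d339_lc.Cw3.T33
import Pool.Agent.Lib.MP_b6d339_lc.Cw3.T36
import Pool.Agent.Lib.MP_b6d339_lc.Cw3.T5
import Pool.Agent.Lib.MP_b6d339_lc.Cw3.T6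
import Pool.Agent.Lib.MP_b6d339_lc.Cw3.T7
import Pool.Agent.Lib.MP_b6d339_lc.Cw3.T8
import Pool.Agent.Lib.MP_b6d339_lc.Cw3.T9

/-!
# Erdős 592, three levels: items
-/

namespace MPb6R

open MPb6P

noncomputable def iiNFzAyE2ByA3H2AzIzA2H3A2E2A2AzAyAzF : BT Itm := (.node (.node (.node (.node (.node (.node (.node (.node (.node (.leaf (.fwd 0 16 tpr168.df)) (.leaf (.bwd 16 6 tpr4.df))) (.leaf (.bwd 22 13 tpr500.df))) (.node (.leaf (.fwd 35 13 tpr500.df)) (.leaf (.fwd 48 6 tpr4.df)))) (.node (.node (.leaf (.bwd 54 35 tpr2244.df)) (.leaf (.fwd 89 22 tpr982.df))) (.node (.leaf (.fwd 111 23 tpr5.df)) (.leaf (.bwd 134 19 tpr616.df))))) (.node (.node (.node (.leaf (.bwd 153 28 tpr2112.df)) (.leaf (.bwd 181 21 tpr8.df))) (.node (.leaf (.fwd 202 23 tpr12.df)) (.leaf (.fwd 225 29 tpr2523.df)))) (.node (.node (.leaf (.fwd 254 37 tpr2239.df)) (.leaf (.fwd 291 29 tpr656.df)))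 (.node (.leaf (.bwd 320 29 tpr2486.df)) (.leaf (.fwd 349 44 tpr466.df)))))) (.node (.node (.node (.node (.node (.leaf (.fwd 393 28 tpr2113.df)) (.leaf (.bwd 421 26 tpr2272.df))) (.leaf (.bwd 447 35 tpr2215.df))) (.node (.leaf (.bwd 482 23 tpr1562.df)) (.leaf (.fwd 505 27 tpr2267.df)))) (.node (.node (.leaf (.fwd 532 32 tpr2545.df)) (.leaf (.bwd 564 27 tpr2496.df))) (.node (.leaf (.bwd 591 30 tpr577.df)) (.leaf (.bwd 621 33 tpr2501.df))))) (.node (.node (.node (.leaf (.fwd 654 35 tpr2490.df)) (.leaf (.fwd 689 39 tpr2532.df))) (.node (.leaf (.bwd 728 29 tpr2541.df)) (.leaf (.bwd 757 32 tpr518.df)))) (.node (.node (.leaf (.bwd 789 22 tpr504.df)) (.leaf (.fwd 811 30 tpr2039.df))) (.node (.leaf (.bwd 841 37 tpr2164.df)) (.leaf (.fwd 878 29 tpr464.df))))))) (.node (.node (.node (.node (.node (.node (.leaf (.bwd 907 32 tpr113.df)) (.leaf (.bwd 939 25 tpr106.df))) (.leaf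 (.bwd 964 21 tpr2590.df))) (.node (.leaf (.fwd 985 29 tpr46.df)) (.leaf (.fwd 1014 49 tpr2133.df)))) (.node (.node (.leaf (.bwd 1063 36 tpr2208.df)) (.leaf (.fwd 1099 48 tpr2177.df))) (.node (.leaf (.bwd 1147 34 tpr2512.df)) (.leaf (.fwd 1181 29 tpr2500.df))))) (.node (.node (.node (.leaf (.bwd 1210 45 tpr2544.df)) (.leaf (.fwd 1255 44 tpr2506.df))) (.node (.leaf (.bwd 1299 19 tpr33.df)) (.leaf (.bwd 1318 28 tpr295.df)))) (.node (.node (.leaf (.bwd 1346 53 tpr815.df)) (.leaf (.bwd 1399 18 tpr2494.df))) (.node (.leaf (.fwd 1417 52 tpr814.df)) (.leaf (.bwd 1469 25 tpr10.df)))))) (.node (.node (.node (.node (.node (.leaf (.bwd 1494 44 tpr1747.df)) (.leaf (.bwd 1538 25 tpr677.df))) (.leaf (.fwd 1563 35 tpr259.df))) (.node (.leaf (.bwd 1598 41 tpr188.df)) (.leaf (.fwd 1639 39 tpr2404.df)))) (.node (.node (.leaf (.fwd 1678 25 tpr51.df)) (.leaf (.bwd 1703 30 tpr2488.df)))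 (.node (.leaf (.fwd 1733 35 tpr541.df)) (.leaf (.bwd 1768 27 tpr506.df))))) (.node (.node (.node (.leaf (.bwd 1795 25 tpr644.df)) (.leaf (.bwd 1820 42 tpr812.df))) (.node (.leaf (.bwd 1862 37 tpr782.df)) (.leaf (.bwd 1899 47 tpr2143.df)))) (.node (.node (.leaf (.fwd 1946 38 tpr2485.df)) (.leaf (.fwd 1984 31 tpr2398.df))) (.node (.leaf (.bwd 2015 35 tpr259.df)) (.leaf (.fwd 2050 27 tpr1320.df)))))))) (.node (.node (.node (.node (.node (.node (.node (.leaf (.fwd 2077 33 tpr35.df)) (.leaf (.fwd 2110 38 tpr1334.df))) (.leaf (.bwd 2148 61 tpr2519.df))) (.node (.leaf (.bwd 2209 31 tpr557.df)) (.leaf (.bwd 2240 33 tpr28.df)))) (.node (.node (.leaf (.bwd 2273 37 tpr2111.df)) (.leaf (.fwd 2310 35 tpr89.df))) (.node (.leaf (.bwd 2345 32 tpr39.df)) (.leaf (.bwd 2377 31 tpr21.df))))) (.node (.node (.node (.leaf (.fwd 2408 45 tpr596.df)) (.leaf (.bwd 2453 34 tpr54.df))) (.node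 (.leaf (.bwd 2487 37 tpr556.df)) (.leaf (.bwd 2524 52 tpr1328.df)))) (.node (.node (.leaf (.fwd 2576 37 tpr2521.df)) (.leaf (.bwd 2613 50 tpr1233.df))) (.node (.leaf (.bwd 2663 39 tpr2295.df)) (.leaf (.fwd 2702 37 tpr1359.df)))))) (.node (.node (.node (.node (.node (.leaf (.fwd 2739 29 tpr820.df)) (.leaf (.bwd 2768 28 tpr2031.df))) (.leaf (.fwd 2796 24 tpr609.df))) (.node (.leaf (.bwd 2820 36 tpr547.df)) (.leaf (.bwd 2856 40 tpr62.df)))) (.node (.node (.leaf (.fwd 2896 27 tpr131.df)) (.leaf (.fwd 2923 56 tpr2520.df))) (.node (.leaf (.fwd 2979 43 tpr2024.df)) (.leaf (.bwd 3022 31 tpr606.df))))) (.node (.node (.node (.leaf (.fwd 3053 42 tpr733.df)) (.leaf (.bwd 3095 62 tpr1844.df))) (.node (.leaf (.bwd 3157 35 tpr533.df)) (.leaf (.bwd 3192 27 tpr499.df)))) (.node (.node (.leaf (.fwd 3219 20 tpr216.df)) (.leaf (.fwd 3239 20 tpr1355.df))) (.node (.leaf (.bwd 3259 25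 tpr2502.df)) (.leaf (.fwd 3284 33 tpr2026.df))))))) (.node (.node (.node (.node (.node (.node (.leaf (.bwd 3317 24 tpr1681.df)) (.leaf (.fwd 3341 32 tpr1479.df))) (.leaf (.bwd 3373 28 tpr721.df))) (.node (.leaf (.fwd 3401 34 tpr738.df)) (.leaf (.bwd 3435 27 tpr788.df)))) (.node (.node (.leaf (.bwd 3462 20 tpr48.df)) (.leaf (.fwd 3482 29 tpr111.df))) (.node (.leaf (.bwd 3511 35 tpr541.df)) (.leaf (.bwd 3546 35 tpr534.df))))) (.node (.node (.node (.leaf (.bwd 3581 61 tpr1736.df)) (.leaf (.bwd 3642 29 tpr9.df))) (.node (.leaf (.bwd 3671 37 tpr706.df)) (.leaf (.bwd 3708 38 tpr1137.df)))) (.node (.node (.leaf (.fwd 3746 13 tpr11.df)) (.leaf (.fwd 3759 34 tpr1341.df))) (.node (.leaf (.bwd 3793 34 tpr748.df)) (.leaf (.fwd 3827 15 tpr419.df)))))) (.node (.node (.node (.node (.leaf (.fwd 3842 27 tpr82.df)) (.leaf (.bwd 3869 42 tpr1138.df))) (.node (.leaf (.bwd 3911 58 tpr1143.df))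 (.leaf (.fwd 3969 38 tpr2510.df)))) (.node (.node (.leaf (.bwd 4007 33 tpr2513.df)) (.leaf (.fwd 4040 59 tpr2526.df))) (.node (.leaf (.fwd 4099 39 tpr1112.df)) (.leaf (.fwd 4138 39 tpr210.df))))) (.node (.node (.node (.leaf (.bwd 4177 32 tpr294.df)) (.leaf (.fwd 4209 41 tpr502.df))) (.node (.leaf (.fwd 4250 62 tpr1754.df)) (.leaf (.fwd 4312 36 tpr683.df)))) (.node (.node (.leaf (.fwd 4348 39 tpr701.df)) (.leaf (.fwd 4387 29 tpr2163.df))) (.node (.leaf (.fwd 4416 27 tpr562.df)) (.leaf (.fwd 4443 60 tpr2493.df))))))))) (.node (.node (.node (.node (.node (.node (.node (.node (.leaf (.bwd 4503 30 tpr1547.df)) (.leaf (.bwd 4533 22 tpr2487.df))) (.leaf (.bwd 4555 29 tpr2516.df))) (.node (.leaf (.bwd 4584 30 tpr997.df)) (.leaf (.bwd 4614 39 tpr636.df)))) (.node (.node (.leaf (.fwd 4653 23 tpr780.df)) (.leaf (.fwd 4676 22 tpr239.df))) (.node (.leaf (.fwd 4698 23 tpr559.df))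 (.leaf (.bwd 4721 23 tpr780.df))))) (.node (.node (.node (.leaf (.bwd 4744 20 tpr505.df)) (.leaf (.fwd 4764 29 tpr618.df))) (.node (.leaf (.fwd 4793 33 tpr680.df)) (.leaf (.fwd 4826 37 tpr555.df)))) (.node (.node (.leaf (.fwd 4863 22 tpr1870.df)) (.leaf (.fwd 4885 20 tpr48.df))) (.node (.leaf (.fwd 4905 34 tpr619.df)) (.leaf (.bwd 4939 41 tpr1182.df)))))) (.node (.node (.node (.node (.node (.leaf (.fwd 4980 30 tpr2167.df)) (.leaf (.fwd 5010 30 tpr613.df))) (.leaf (.fwd 5040 30 tpr744.df))) (.node (.leaf (.fwd 5070 21 tpr474.df)) (.leaf (.fwd 5091 25 tpr74.df)))) (.node (.node (.leaf (.bwd 5116 42 tpr124.df)) (.leaf (.bwd 5158 54 tpr1193.df))) (.node (.leaf (.fwd 5212 22 tpr2227.df)) (.leaf (.bwd 5234 27 tpr1254.df))))) (.node (.node (.node (.leaf (.bwd 5261 13 tpr11.df)) (.leaf (.bwd 5274 29 tpr2269.df))) (.node (.leaf (.fwd 5303 33 tpr2171.df)) (.leaf (.bwd 5336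 32 tpr2243.df)))) (.node (.node (.leaf (.fwd 5368 32 tpr2277.df)) (.leaf (.bwd 5400 35 tpr2131.df))) (.node (.leaf (.bwd 5435 28 tpr2508.df)) (.leaf (.fwd 5463 42 tpr2507.df))))))) (.node (.node (.node (.node (.node (.node (.leaf (.fwd 5505 38 tpr526.df)) (.leaf (.bwd 5543 28 tpr941.df))) (.leaf (.fwd 5571 28 tpr2492.df))) (.node (.leaf (.bwd 5599 25 tpr1257.df)) (.leaf (.bwd 5624 30 tpr2205.df)))) (.node (.node (.leaf (.bwd 5654 29 tpr22.df)) (.leaf (.bwd 5683 22 tpr581.df))) (.node (.leaf (.bwd 5705 24 tpr1011.df)) (.leaf (.fwd 5729 38 tpr2116.df))))) (.node (.node (.node (.leaf (.bwd 5767 38 tpr2040.df)) (.leaf (.bwd 5805 22 tpr239.df))) (.node (.leaf (.bwd 5827 37 tpr555.df)) (.leaf (.fwd 5864 50 tpr2489.df)))) (.node (.node (.leaf (.fwd 5914 60 tpr2495.df)) (.leaf (.bwd 5974 32 tpr2528.df))) (.node (.leaf (.fwd 6006 23 tpr1255.df)) (.leaf (.fwd 6029 28 tpr2236.df))))))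 (.node (.node (.node (.node (.leaf (.fwd 6057 28 tpr507.df)) (.leaf (.fwd 6085 32 tpr591.df))) (.node (.leaf (.bwd 6117 36 tpr2278.df)) (.leaf (.bwd 6153 43 tpr2125.df)))) (.node (.node (.leaf (.fwd 6196 33 tpr1215.df)) (.leaf (.bwd 6229 29 tpr582.df))) (.node (.leaf (.fwd 6258 46 tpr1765.df)) (.leaf (.fwd 6304 40 tpr2007.df))))) (.node (.node (.node (.leaf (.bwd 6344 36 tpr2509.df)) (.leaf (.fwd 6380 44 tpr2260.df))) (.node (.leaf (.fwd 6424 28 tpr627.df)) (.leaf (.bwd 6452 31 tpr2498.df)))) (.node (.node (.leaf (.bwd 6483 33 tpr2351.df)) (.leaf (.bwd 6516 28 tpr990.df))) (.node (.leaf (.bwd 6544 39 tpr2529.df)) (.leaf (.bwd 6583 39 tpr1001.df)))))))) (.node (.node (.node (.node (.node (.node (.node (.leaf (.bwd 6622 39 tpr2123.df)) (.leaf (.fwd 6661 35 tpr2229.df))) (.leaf (.fwd 6696 29 tpr582.df))) (.node (.leaf (.fwd 6725 35 tpr568.df)) (.leaf (.fwd 6760 39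 tpr2042.df)))) (.node (.node (.leaf (.fwd 6799 37 tpr2334.df)) (.leaf (.fwd 6836 25 tpr1733.df))) (.node (.leaf (.bwd 6861 34 tpr2504.df)) (.leaf (.bwd 6895 36 tpr1644.df))))) (.node (.node (.node (.leaf (.bwd 6931 45 tpr2503.df)) (.leaf (.bwd 6976 39 tpr2099.df))) (.node (.leaf (.bwd 7015 31 tpr2499.df)) (.leaf (.bwd 7046 31 tpr2149.df)))) (.node (.node (.leaf (.fwd 7077 26 tpr2515.df)) (.leaf (.fwd 7103 33 tpr44.df))) (.node (.leaf (.bwd 7136 34 tpr2013.df)) (.leaf (.bwd 7170 39 tpr2042.df)))))) (.node (.node (.node (.node (.node (.leaf (.bwd 7209 33 tpr2517.df)) (.leaf (.bwd 7242 29 tpr2936.df))) (.leaf (.fwd 7271 36 tpr2511.df))) (.node (.leaf (.bwd 7307 51 tpr2505.df)) (.leaf (.bwd 7358 42 tpr2233.df)))) (.node (.node (.leaf (.bwd 7400 40 tpr2005.df)) (.leaf (.fwd 7440 49 tpr1647.df))) (.node (.leaf (.bwd 7489 28 tpr588.df)) (.leaf (.fwd 7517 51 tpr2525.df)))))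 (.node (.node (.node (.leaf (.bwd 7568 41 tpr2524.df)) (.leaf (.bwd 7609 43 tpr2491.df))) (.node (.leaf (.fwd 7652 37 tpr2497.df)) (.leaf (.bwd 7689 50 tpr2206.df)))) (.node (.node (.leaf (.bwd 7739 36 tpr2659.df)) (.leaf (.fwd 7775 32 tpr17.df))) (.node (.leaf (.bwd 7807 34 tpr575.df)) (.leaf (.fwd 7841 31 tpr527.df))))))) (.node (.node (.node (.node (.node (.node (.leaf (.bwd 7872 39 tpr615.df)) (.leaf (.fwd 7911 34 tpr1764.df))) (.leaf (.bwd 7945 40 tpr2538.df))) (.node (.leaf (.fwd 7985 25 tpr679.df)) (.leaf (.bwd 8010 58 tpr2230.df)))) (.node (.node (.leaf (.bwd 8068 48 tpr2114.df)) (.leaf (.bwd 8116 49 tpr2137.df))) (.node (.leaf (.fwd 8165 23 tpr456.df)) (.leaf (.bwd 8188 28 tpr477.df))))) (.node (.node (.node (.leaf (.fwd 8216 37 tpr465.df)) (.leaf (.fwd 8253 39 tpr479.df))) (.node (.leaf (.fwd 8292 35 tpr485.df)) (.leaf (.fwd 8327 35 tpr1313.df)))) (.node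 (.node (.leaf (.fwd 8362 25 tpr1311.df)) (.leaf (.fwd 8387 24 tpr454.df))) (.node (.leaf (.fwd 8411 31 tpr1010.df)) (.leaf (.bwd 8442 33 tpr1370.df)))))) (.node (.node (.node (.node (.leaf (.bwd 8475 26 tpr2539.df)) (.leaf (.bwd 8501 21 tpr90.df))) (.node (.leaf (.bwd 8522 31 tpr761.df)) (.leaf (.bwd 8553 35 tpr849.df)))) (.node (.node (.leaf (.bwd 8588 27 tpr1247.df)) (.leaf (.fwd 8615 38 tpr1767.df))) (.node (.leaf (.fwd 8653 40 tpr2546.df)) (.leaf (.fwd 8693 42 tpr2542.df))))) (.node (.node (.node (.leaf (.fwd 8735 42 tpr2543.df)) (.leaf (.fwd 8777 32 tpr2547.df))) (.node (.leaf (.fwd 8809 23 tpr605.df)) (.leaf (.fwd 8832 47 tpr1762.df)))) (.node (.node (.leaf (.fwd 8879 27 tpr2549.df)) (.leaf (.fwd 8906 47 tpr2553.df))) (.node (.leaf (.bwd 8953 24 tpr2168.df)) (.leaf (.bwd 8977 55 tpr2552.df))))))))))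

theorem iiNFzAyE2ByA3H2AzIzA2H3A2E2A2AzAyAzF_c : iiNFzAyE2ByA3H2AzIzA2H3A2E2A2AzAyAzF.all (itB (ng 62 nnNFzAyE2ByA3H2AzIzA2H3A2E2A2AzAyAzF)) = true := by decide +kernel
theorem nbNFzAyE2ByA3H2AzIzA2H3A2E2A2AzAyAzF : nbB 62 9094 nnNFzAyE2ByA3H2AzIzA2H3A2E2A2AzAyAzF = true := by decide +kernel
theorem topNFzAyE2ByA3H2AzIzA2H3A2E2A2AzAyAzF : topY 9094 ttNFzAyE2ByA3H2AzIzA2H3A2E2A2AzAyAzF ceNFzAyE2ByA3H2AzIzA2H3A2E2A2AzAyAzF xNFzAyE2ByA3H2AzIzA2H3A2E2A2AzAyAzF iiNFzAyE2ByA3H2AzIzA2H3A2E2A2AzAyAzF = true := by decide +kernel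

end MPb6R
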