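import Pool.Agent.Lib.MP_b6d339_lc.Cw3.YFzAzE2A3H2ByAzIzAyB2H3A2EzF
import Pool.Agent.Lib.MP_b6d339_lc.Cw3.XL
import Pool.Agent.Lib.MP_b6d339_lc.Cw3.T0
import Pool.Agent.Lib.MP_b6d339_lc.Cw3.T1
import Pool.Agent.Lib.MP_b6d339_lc.Cw3.T10
import Pool.Agent.Lib.MP_b6d339_lc.Cw3.T11
import Pool.Agent.Lib.MP_b6d339_lc.Cw3.T12
import Pool.Agent.Lib.MP_b6d339_lc.Cw3.T14
import Pool.Agent.Lib.MP_b6d339_lc.Cw3.T15
import Pool.Agent.Lib.MP_b6d339_lc.Cw3.T2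
import Pool.Agent.Lib.MP_b6d339_lc.Cw3.T20
import Pool.Agent.Lib.MP_b6d339_lc.Cw3.T21
import Pool.Agent.Lib.MP_b6d339_lc.Cw3.T22
import Pool.Agent.Lib.MP_b6d339_lc.Cw3.T23
import Pool.Agent.Lib.MP_b6d339_lc.Cw3.T24
import Pool.Agent.Lib.MP_b6d339_lc.Cw3.T25
import Pool.Agent.Lib.MP_b6d339_lc.Cw3.T29
import Pool.Agent.Lib.MP_b6d339_lc.Cw3.T3
import Pool.Agent.Lib.MP_b6d339_lc.Cw3.T4
import Pool.Agent.Lib.MP_b6d339_lc.Cw3.T5
import Pool.Agent.Lib.MP_b6d339_lc.Cw3.T6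
import Pool.Agent.Lib.MP_b6d339_lc.Cw3.T7
import Pool.Agent.Lib.MP_b6d339_lc.Cw3.T8
import Pool.Agent.Lib.MP_b6d339_lc.Cw3.T9

/-!
# Erdős 592, three levels: items
-/

namespace MPb6R

open MPb6P

noncomputable def iiNFzAzE2A3H2ByAzIzAyB2H3A2EzF : BT Itm := (.node (.node (.node (.node (.node (.node (.node (.node (.leaf (.fwd 0 23 tpr5.df)) (.leaf (.fwd 23 13 tpr500.df))) (.node (.leaf (.bwd 36 13 tpr500.df)) (.leaf (.fwd 49 27 tpr499.df)))) (.node (.node (.leaf (.bwd 76 23 tpr508.df)) (.leaf (.fwd 99 21 tpr8.df))) (.leaf (.bwd 120 27 tpr499.df)))) (.node (.node (.node (.leaf (.bwd 147 22 tpr504.df)) (.leaf (.fwd 169 22 tpr504.df))) (.leaf (.bwd 191 37 tpr555.df))) (.node (.node (.leaf (.fwd 228 31 tpr198.df)) (.leaf (.bwd 259 29 tpr545.df))) (.leaf (.fwd 288 26 tpr516.df))))) (.node (.node (.node (.node (.leaf (.fwd 314 37 tpr555.df)) (.leaf (.fwd 351 39 tpr514.df)))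 (.node (.leaf (.bwd 390 28 tpr510.df)) (.leaf (.fwd 418 23 tpr632.df)))) (.node (.node (.leaf (.bwd 441 23 tpr559.df)) (.leaf (.fwd 464 29 tpr545.df))) (.leaf (.bwd 493 29 tpr151.df)))) (.node (.node (.node (.leaf (.fwd 522 25 tpr74.df)) (.leaf (.fwd 547 39 tpr569.df))) (.leaf (.bwd 586 60 tpr630.df))) (.node (.node (.leaf (.fwd 646 35 tpr585.df)) (.leaf (.bwd 681 37 tpr621.df))) (.leaf (.fwd 718 31 tpr315.df)))))) (.node (.node (.node (.node (.node (.leaf (.bwd 749 33 tpr521.df)) (.leaf (.fwd 782 61 tpr695.df))) (.node (.leaf (.fwd 843 29 tpr9.df)) (.leaf (.bwd 872 43 tpr566.df)))) (.node (.node (.leaf (.fwd 915 33 tpr968.df)) (.leaf (.fwd 948 35 tpr602.df))) (.leaf (.bwd 983 43 tpr565.df)))) (.node (.node (.node (.leaf (.bwd 1026 37 tpr1199.df)) (.leaf (.fwd 1063 44 tpr466.df))) (.leaf (.fwd 1107 43 tpr734.df))) (.node (.node (.leaf (.fwd 1150 22 tpr982.df)) (.leaf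 (.fwd 1172 41 tpr549.df))) (.leaf (.bwd 1213 27 tpr1646.df))))) (.node (.node (.node (.node (.leaf (.fwd 1240 36 tpr1933.df)) (.leaf (.bwd 1276 57 tpr767.df))) (.leaf (.fwd 1333 43 tpr1929.df))) (.node (.node (.leaf (.fwd 1376 27 tpr1646.df)) (.leaf (.fwd 1403 26 tpr349.df))) (.leaf (.bwd 1429 54 tpr1193.df)))) (.node (.node (.node (.leaf (.bwd 1483 42 tpr587.df)) (.leaf (.fwd 1525 55 tpr1926.df))) (.leaf (.fwd 1580 30 tpr26.df))) (.node (.node (.leaf (.fwd 1610 29 tpr2369.df)) (.leaf (.fwd 1639 32 tpr1899.df))) (.leaf (.fwd 1671 40 tpr2368.df))))))) (.node (.node (.node (.node (.node (.node (.leaf (.bwd 1711 25 tpr2070.df)) (.leaf (.bwd 1736 56 tpr87.df))) (.node (.leaf (.fwd 1792 37 tpr327.df)) (.leaf (.fwd 1829 38 tpr1903.df)))) (.node (.node (.leaf (.fwd 1867 32 tpr652.df)) (.leaf (.bwd 1899 41 tpr2372.df))) (.leaf (.fwd 1940 46 tpr1932.df)))) (.node (.node (.node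 (.leaf (.fwd 1986 28 tpr1927.df)) (.leaf (.fwd 2014 41 tpr2015.df))) (.leaf (.bwd 2055 37 tpr2373.df))) (.node (.node (.leaf (.bwd 2092 40 tpr1684.df)) (.leaf (.fwd 2132 22 tpr2375.df))) (.leaf (.bwd 2154 27 tpr2376.df))))) (.node (.node (.node (.node (.leaf (.fwd 2181 39 tpr78.df)) (.leaf (.bwd 2220 20 tpr103.df))) (.node (.leaf (.bwd 2240 24 tpr24.df)) (.leaf (.fwd 2264 20 tpr103.df)))) (.node (.node (.leaf (.fwd 2284 23 tpr508.df)) (.leaf (.bwd 2307 21 tpr8.df))) (.leaf (.fwd 2328 28 tpr511.df)))) (.node (.node (.node (.leaf (.bwd 2356 29 tpr22.df)) (.leaf (.bwd 2385 28 tpr511.df))) (.leaf (.bwd 2413 28 tpr507.df))) (.node (.node (.leaf (.fwd 2441 27 tpr82.df)) (.leaf (.fwd 2468 26 tpr509.df))) (.leaf (.bwd 2494 38 tpr203.df)))))) (.node (.node (.node (.node (.node (.leaf (.bwd 2532 31 tpr607.df)) (.leaf (.bwd 2563 35 tpr568.df))) (.node (.leaf (.fwd 2598 21 tpr530.df))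 (.leaf (.bwd 2619 38 tpr519.df)))) (.node (.node (.leaf (.fwd 2657 32 tpr518.df)) (.leaf (.fwd 2689 38 tpr519.df))) (.leaf (.bwd 2727 32 tpr294.df)))) (.node (.node (.node (.leaf (.bwd 2759 37 tpr503.df)) (.leaf (.fwd 2796 43 tpr566.df))) (.leaf (.bwd 2839 23 tpr632.df))) (.node (.node (.leaf (.bwd 2862 25 tpr106.df)) (.leaf (.fwd 2887 29 tpr22.df))) (.leaf (.bwd 2916 32 tpr17.df))))) (.node (.node (.node (.node (.leaf (.fwd 2948 28 tpr510.df)) (.leaf (.fwd 2976 41 tpr502.df))) (.leaf (.fwd 3017 40 tpr544.df))) (.node (.node (.leaf (.bwd 3057 39 tpr514.df)) (.leaf (.fwd 3096 26 tpr599.df))) (.leaf (.fwd 3122 31 tpr527.df)))) (.node (.node (.node (.leaf (.fwd 3153 34 tpr619.df)) (.leaf (.bwd 3187 31 tpr167.df))) (.leaf (.bwd 3218 35 tpr585.df))) (.node (.node (.leaf (.fwd 3253 30 tpr577.df)) (.leaf (.bwd 3283 27 tpr82.df))) (.leaf (.fwd 3310 58 tpr1719.df)))))))) (.node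 (.node (.node (.node (.node (.node (.node (.leaf (.fwd 3368 36 tpr683.df)) (.leaf (.bwd 3404 24 tpr293.df))) (.node (.leaf (.bwd 3428 26 tpr509.df)) (.leaf (.bwd 3454 28 tpr588.df)))) (.node (.node (.leaf (.fwd 3482 28 tpr588.df)) (.leaf (.fwd 3510 23 tpr559.df))) (.leaf (.fwd 3533 32 tpr294.df)))) (.node (.node (.node (.leaf (.bwd 3565 36 tpr683.df)) (.leaf (.bwd 3601 41 tpr502.df))) (.leaf (.fwd 3642 22 tpr515.df))) (.node (.node (.leaf (.fwd 3664 49 tpr960.df)) (.leaf (.fwd 3713 30 tpr626.df))) (.leaf (.bwd 3743 30 tpr626.df))))) (.node (.node (.node (.node (.leaf (.fwd 3773 40 tpr1811.df)) (.leaf (.fwd 3813 34 tpr54.df))) (.node (.leaf (.bwd 3847 25 tpr702.df)) (.leaf (.bwd 3872 25 tpr633.df)))) (.node (.node (.leaf (.fwd 3897 24 tpr743.df)) (.leaf (.bwd 3921 17 tpr1714.df))) (.leaf (.fwd 3938 32 tpr17.df)))) (.node (.node (.node (.leaf (.bwd 3970 31 tpr576.df))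 (.leaf (.fwd 4001 37 tpr520.df))) (.leaf (.fwd 4038 30 tpr513.df))) (.node (.node (.leaf (.fwd 4068 34 tpr543.df)) (.leaf (.bwd 4102 34 tpr575.df))) (.leaf (.bwd 4136 20 tpr505.df)))))) (.node (.node (.node (.node (.node (.leaf (.fwd 4156 22 tpr536.df)) (.leaf (.fwd 4178 55 tpr314.df))) (.node (.leaf (.fwd 4233 30 tpr320.df)) (.leaf (.bwd 4263 32 tpr591.df)))) (.node (.node (.leaf (.fwd 4295 28 tpr546.df)) (.leaf (.bwd 4323 23 tpr605.df))) (.leaf (.fwd 4346 17 tpr16.df)))) (.node (.node (.node (.leaf (.bwd 4363 35 tpr123.df)) (.leaf (.bwd 4398 39 tpr78.df))) (.leaf (.fwd 4437 31 tpr339.df))) (.node (.node (.leaf (.fwd 4468 37 tpr621.df)) (.leaf (.bwd 4505 37 tpr406.df))) (.leaf (.fwd 4542 37 tpr720.df))))) (.node (.node (.node (.node (.leaf (.bwd 4579 39 tpr81.df)) (.leaf (.fwd 4618 38 tpr393.df))) (.leaf (.bwd 4656 43 tpr122.df))) (.node (.node (.leaf (.fwd 4699 30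 tpr537.df)) (.leaf (.fwd 4729 25 tpr702.df))) (.leaf (.fwd 4754 25 tpr633.df)))) (.node (.node (.node (.leaf (.bwd 4779 38 tpr526.df)) (.leaf (.bwd 4817 36 tpr672.df))) (.leaf (.fwd 4853 38 tpr1817.df))) (.node (.node (.leaf (.fwd 4891 36 tpr1194.df)) (.leaf (.fwd 4927 29 tpr151.df))) (.leaf (.bwd 4956 33 tpr501.df))))))) (.node (.node (.node (.node (.node (.node (.leaf (.fwd 4989 48 tpr879.df)) (.leaf (.bwd 5037 37 tpr316.df))) (.node (.leaf (.bwd 5074 49 tpr1647.df)) (.leaf (.fwd 5123 42 tpr344.df)))) (.node (.node (.leaf (.fwd 5165 17 tpr1714.df)) (.leaf (.fwd 5182 30 tpr603.df))) (.leaf (.fwd 5212 44 tpr592.df)))) (.node (.node (.node (.leaf (.fwd 5256 33 tpr1213.df)) (.leaf (.bwd 5289 43 tpr292.df))) (.leaf (.fwd 5332 39 tpr256.df))) (.node (.node (.leaf (.fwd 5371 37 tpr583.df)) (.leaf (.bwd 5408 41 tpr1637.df))) (.leaf (.fwd 5449 38 tpr1636.df))))) (.node (.node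 (.node (.node (.leaf (.bwd 5487 46 tpr593.df)) (.leaf (.fwd 5533 24 tpr24.df))) (.leaf (.bwd 5557 35 tpr13.df))) (.node (.node (.leaf (.fwd 5592 36 tpr23.df)) (.leaf (.fwd 5628 25 tpr106.df))) (.leaf (.fwd 5653 33 tpr521.df)))) (.node (.node (.node (.leaf (.fwd 5686 37 tpr523.df)) (.leaf (.fwd 5723 43 tpr532.df))) (.leaf (.fwd 5766 33 tpr129.df))) (.node (.node (.leaf (.bwd 5799 26 tpr1917.df)) (.leaf (.bwd 5825 41 tpr1824.df))) (.leaf (.bwd 5866 32 tpr2068.df)))))) (.node (.node (.node (.node (.node (.leaf (.bwd 5898 38 tpr2371.df)) (.leaf (.fwd 5936 38 tpr2377.df))) (.node (.leaf (.fwd 5974 39 tpr1909.df)) (.leaf (.fwd 6013 39 tpr2374.df)))) (.node (.node (.leaf (.fwd 6052 47 tpr1883.df)) (.leaf (.fwd 6099 39 tpr2378.df))) (.leaf (.fwd 6138 33 tpr1828.df)))) (.node (.node (.node (.leaf (.bwd 6171 61 tpr1879.df)) (.leaf (.bwd 6232 32 tpr1988.df))) (.leaf (.bwd 6264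 56 tpr1935.df))) (.node (.node (.leaf (.bwd 6320 41 tpr2370.df)) (.leaf (.fwd 6361 34 tpr1865.df))) (.leaf (.bwd 6395 43 tpr676.df))))) (.node (.node (.node (.node (.leaf (.fwd 6438 37 tpr503.df)) (.leaf (.fwd 6475 31 tpr576.df))) (.leaf (.bwd 6506 22 tpr959.df))) (.node (.node (.leaf (.bwd 6528 22 tpr118.df)) (.leaf (.fwd 6550 24 tpr160.df))) (.leaf (.fwd 6574 23 tpr1255.df)))) (.node (.node (.node (.leaf (.bwd 6597 35 tpr595.df)) (.leaf (.bwd 6632 41 tpr549.df))) (.leaf (.fwd 6673 27 tpr1202.df))) (.node (.node (.leaf (.fwd 6700 35 tpr568.df)) (.leaf (.bwd 6735 39 tpr569.df))) (.leaf (.fwd 6774 35 tpr2379.df)))))))))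

theorem iiNFzAzE2A3H2ByAzIzAyB2H3A2EzF_c : iiNFzAzE2A3H2ByAzIzAyB2H3A2EzF.all (itB (ng 61 nnNFzAzE2A3H2ByAzIzAyB2H3A2EzF)) = true := by decide +kernel
theorem nbNFzAzE2A3H2ByAzIzAyB2H3A2EzF : nbB 61 6870 nnNFzAzE2A3H2ByAzIzAyB2H3A2EzF = true := by decide +kernel
theorem topNFzAzE2A3H2ByAzIzAyB2H3A2EzF : topY 6870 ttNFzAzE2A3H2ByAzIzAyB2H3A2EzF ceNFzAzE2A3H2ByAzIzAyB2H3A2EzF xNFzAzE2A3H2ByAzIzAyB2H3A2EzF iiNFzAzE2A3H2ByAzIzAyB2H3A2EzF = true := by decide +kernel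

end MPb6R
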