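import Pool.Agent.Lib.MP_b6d339_lc.Cw3.YFzAzE2A3H3AyB2EzF
import Pool.Agent.Lib.MP_b6d339_lc.Cw3.XL
import Pool.Agent.Lib.MP_b6d339_lc.Cw3.T0
import Pool.Agent.Lib.MP_b6d339_lc.Cw3.T1
import Pool.Agent.Lib.MP_b6d339_lc.Cw3.T10
import Pool.Agent.Lib.MP_b6d339_lc.Cw3.T11
import Pool.Agent.Lib.MP_b6d339_lc.Cw3.T12
import Pool.Agent.Lib.MP_b6d339_lc.Cw3.T14
import Pool.Agent.Lib.MP_b6d339_lc.Cw3.T15
import Pool.Agent.Lib.MP_b6d339_lc.Cw3.T17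
import Pool.Agent.Lib.MP_b6d339_lc.Cw3.T18
import Pool.Agent.Lib.MP_b6d339_lc.Cw3.T19
import Pool.Agent.Lib.MP_b6d339_lc.Cw3.T2
import Pool.Agent.Lib.MP_b6d339_lc.Cw3.T20
import Pool.Agent.Lib.MP_b6d339_lc.Cw3.T22
import Pool.Agent.Lib.MP_b6d339_lc.Cw3.T23
import Pool.Agent.Lib.MP_b6d339_lc.Cw3.T24
import Pool.Agent.Lib.MP_b6d339_lc.Cw3.T25
import Pool.Agent.Lib.MP_b6d339_lc.Cw3.T26
import Pool.Agent.Lib.MP_b6d339_lc.Cw3.T27
import Pool.Agent.Lib.MP_b6d339_lc.Cw3.T29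
import Pool.Agent.Lib.MP_b6d339_lc.Cw3.T3
import Pool.Agent.Lib.MP_b6d339_lc.Cw3.T4
import Pool.Agent.Lib.MP_b6d339_lc.Cw3.T5
import Pool.Agent.Lib.MP_b6d339_lc.Cw3.T6
import Pool.Agent.Lib.MP_b6d339_lc.Cw3.T7
import Pool.Agent.Lib.MP_b6d339_lc.Cw3.T8
import Pool.Agent.Lib.MP_b6d339_lc.Cw3.T9

/-!
# Erdős 592, three levels: items
-/

namespace MPb6R

open MPb6P

noncomputable def iiNFzAzE2A3H3AyB2EzF : BT Itm := (.node (.node (.node (.node (.node (.node (.node (.node (.leaf (.bwd 0 23 tpr5.df)) (.leaf (.bwd 23 21 tpr8.df))) (.leaf (.bwd 44 16 tpr168.df))) (.node (.node (.leaf (.bwd 60 29 tpr656.df)) (.leaf (.bwd 89 23 tpr780.df))) (.leaf (.bwd 112 31 tpr1532.df)))) (.node (.node (.node (.leaf (.fwd 143 32 tpr518.df)) (.leaf (.fwd 175 21 tpr72.df))) (.leaf (.bwd 196 32 tpr591.df))) (.node (.leaf (.bwd 228 34 tpr619.df)) (.leaf (.fwd 262 27 tpr506.df))))) (.node (.node (.node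 (.node (.leaf (.fwd 289 23 tpr508.df)) (.leaf (.bwd 312 29 tpr608.df))) (.leaf (.fwd 341 31 tpr606.df))) (.node (.leaf (.fwd 372 27 tpr236.df)) (.leaf (.bwd 399 13 tpr500.df)))) (.node (.node (.node (.leaf (.fwd 412 38 tpr203.df)) (.leaf (.bwd 450 37 tpr555.df))) (.leaf (.fwd 487 40 tpr1811.df))) (.node (.leaf (.bwd 527 32 tpr620.df)) (.leaf (.bwd 559 37 tpr520.df)))))) (.node (.node (.node (.node (.node (.leaf (.bwd 596 23 tpr2381.df)) (.leaf (.bwd 619 24 tpr609.df))) (.leaf (.fwd 643 20 tpr48.df))) (.node (.node (.leaf (.fwd 663 39 tpr78.df)) (.leaf (.fwd 702 35 tpr585.df))) (.leaf (.fwd 737 43 tpr734.df)))) (.node (.node (.node (.leaf (.fwd 780 28 tpr1619.df)) (.leaf (.bwd 808 27 tpr499.df))) (.leaf (.bwd 835 46 tpr593.df))) (.node (.leaf (.fwd 881 25 tpr2079.df)) (.leaf (.bwd 906 33 tpr663.df))))) (.node (.node (.node (.node (.leaf (.fwd 939 35 tpr29.df)) (.leaf (.bwd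 974 27 tpr82.df))) (.leaf (.fwd 1001 24 tpr2147.df))) (.node (.leaf (.bwd 1025 41 tpr549.df)) (.leaf (.bwd 1066 30 tpr537.df)))) (.node (.node (.node (.leaf (.bwd 1096 39 tpr642.df)) (.leaf (.bwd 1135 39 tpr210.df))) (.leaf (.bwd 1174 20 tpr103.df))) (.node (.leaf (.fwd 1194 22 tpr504.df)) (.leaf (.bwd 1216 29 tpr618.df))))))) (.node (.node (.node (.node (.node (.node (.leaf (.bwd 1245 26 tpr245.df)) (.leaf (.fwd 1271 25 tpr1266.df))) (.leaf (.bwd 1296 29 tpr637.df))) (.node (.node (.leaf (.bwd 1325 27 tpr625.df)) (.leaf (.bwd 1352 26 tpr516.df))) (.leaf (.bwd 1378 28 tpr1666.df)))) (.node (.node (.node (.leaf (.fwd 1406 24 tpr458.df)) (.leaf (.bwd 1430 23 tpr1180.df))) (.leaf (.fwd 1453 25 tpr644.df))) (.node (.leaf (.bwd 1478 36 tpr573.df)) (.leaf (.bwd 1514 27 tpr562.df))))) (.node (.node (.node (.node (.leaf (.bwd 1541 28 tpr721.df)) (.leaf (.bwd 1569 29 tpr9.df)))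 (.leaf (.fwd 1598 35 tpr461.df))) (.node (.leaf (.bwd 1633 25 tpr10.df)) (.leaf (.fwd 1658 31 tpr1571.df)))) (.node (.node (.node (.leaf (.bwd 1689 37 tpr621.df)) (.leaf (.fwd 1726 27 tpr82.df))) (.leaf (.bwd 1753 19 tpr616.df))) (.node (.leaf (.bwd 1772 29 tpr22.df)) (.leaf (.fwd 1801 31 tpr607.df)))))) (.node (.node (.node (.node (.node (.leaf (.bwd 1832 37 tpr503.df)) (.leaf (.fwd 1869 26 tpr509.df))) (.leaf (.fwd 1895 28 tpr507.df))) (.node (.node (.leaf (.fwd 1923 28 tpr511.df)) (.leaf (.bwd 1951 38 tpr203.df))) (.leaf (.fwd 1989 36 tpr547.df)))) (.node (.node (.node (.leaf (.fwd 2025 29 tpr545.df)) (.leaf (.fwd 2054 21 tpr629.df))) (.leaf (.fwd 2075 38 tpr519.df))) (.node (.leaf (.fwd 2113 27 tpr589.df)) (.leaf (.bwd 2140 25 tpr702.df))))) (.node (.node (.node (.node (.leaf (.bwd 2165 23 tpr632.df)) (.leaf (.bwd 2188 25 tpr51.df))) (.leaf (.fwd 2213 30 tpr320.df)))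 (.node (.leaf (.bwd 2243 37 tpr316.df)) (.leaf (.fwd 2280 46 tpr116.df)))) (.node (.node (.node (.leaf (.fwd 2326 43 tpr566.df)) (.leaf (.bwd 2369 23 tpr559.df))) (.leaf (.bwd 2392 32 tpr251.df))) (.node (.leaf (.fwd 2424 37 tpr1570.df)) (.leaf (.bwd 2461 33 tpr501.df)))))))) (.node (.node (.node (.node (.node (.node (.node (.leaf (.fwd 2494 43 tpr323.df)) (.leaf (.fwd 2537 25 tpr1583.df))) (.leaf (.bwd 2562 35 tpr568.df))) (.node (.node (.leaf (.fwd 2597 37 tpr2382.df)) (.leaf (.fwd 2634 37 tpr1861.df))) (.leaf (.bwd 2671 28 tpr1018.df)))) (.node (.node (.node (.leaf (.fwd 2699 16 tpr804.df)) (.leaf (.fwd 2715 55 tpr314.df))) (.leaf (.bwd 2770 30 tpr613.df))) (.node (.leaf (.fwd 2800 41 tpr1970.df)) (.leaf (.fwd 2841 28 tpr510.df))))) (.node (.node (.node (.node (.leaf (.fwd 2869 30 tpr513.df)) (.leaf (.bwd 2899 22 tpr191.df))) (.leaf (.fwd 2921 27 tpr682.df))) (.node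 (.leaf (.fwd 2948 42 tpr612.df)) (.leaf (.bwd 2990 22 tpr239.df)))) (.node (.node (.node (.leaf (.bwd 3012 34 tpr548.df)) (.leaf (.fwd 3046 27 tpr524.df))) (.leaf (.fwd 3073 32 tpr247.df))) (.node (.leaf (.fwd 3105 24 tpr730.df)) (.leaf (.fwd 3129 28 tpr1406.df)))))) (.node (.node (.node (.node (.node (.leaf (.fwd 3157 33 tpr44.df)) (.leaf (.fwd 3190 30 tpr2384.df))) (.leaf (.fwd 3220 34 tpr628.df))) (.node (.node (.leaf (.bwd 3254 29 tpr1457.df)) (.leaf (.bwd 3283 22 tpr515.df))) (.leaf (.bwd 3305 39 tpr514.df)))) (.node (.node (.node (.leaf (.bwd 3344 45 tpr611.df)) (.leaf (.fwd 3389 39 tpr636.df))) (.leaf (.bwd 3428 32 tpr522.df))) (.node (.leaf (.fwd 3460 28 tpr588.df)) (.leaf (.fwd 3488 32 tpr17.df))))) (.node (.node (.node (.node (.leaf (.bwd 3520 32 tpr294.df)) (.leaf (.bwd 3552 31 tpr576.df))) (.leaf (.fwd 3583 25 tpr1908.df))) (.node (.leaf (.fwd 3608 28 tpr627.df))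 (.leaf (.bwd 3636 27 tpr584.df)))) (.node (.node (.node (.leaf (.bwd 3663 29 tpr151.df)) (.leaf (.fwd 3692 30 tpr537.df))) (.leaf (.fwd 3722 33 tpr1205.df))) (.node (.leaf (.bwd 3755 37 tpr553.df)) (.leaf (.fwd 3792 26 tpr675.df))))))) (.node (.node (.node (.node (.node (.node (.leaf (.bwd 3818 30 tpr989.df)) (.leaf (.fwd 3848 36 tpr634.df))) (.leaf (.bwd 3884 35 tpr622.df))) (.node (.node (.leaf (.bwd 3919 28 tpr610.df)) (.leaf (.fwd 3947 40 tpr1905.df))) (.leaf (.bwd 3987 42 tpr1912.df)))) (.node (.node (.node (.leaf (.fwd 4029 33 tpr661.df)) (.leaf (.bwd 4062 35 tpr1904.df))) (.leaf (.bwd 4097 31 tpr527.df))) (.node (.leaf (.bwd 4128 37 tpr639.df)) (.leaf (.bwd 4165 34 tpr664.df))))) (.node (.node (.node (.node (.leaf (.bwd 4199 29 tpr666.df)) (.leaf (.fwd 4228 27 tpr1553.df))) (.leaf (.bwd 4255 24 tpr2232.df))) (.node (.leaf (.fwd 4279 27 tpr1247.df)) (.leaf (.fwd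 4306 35 tpr602.df)))) (.node (.node (.node (.leaf (.bwd 4341 41 tpr1637.df)) (.leaf (.bwd 4382 37 tpr1199.df))) (.leaf (.fwd 4419 35 tpr703.df))) (.node (.leaf (.fwd 4454 41 tpr549.df)) (.leaf (.fwd 4495 24 tpr667.df)))))) (.node (.node (.node (.node (.node (.leaf (.fwd 4519 37 tpr583.df)) (.leaf (.fwd 4556 44 tpr592.df))) (.leaf (.bwd 4600 43 tpr676.df))) (.node (.leaf (.bwd 4643 33 tpr521.df)) (.leaf (.fwd 4676 39 tpr615.df)))) (.node (.node (.node (.leaf (.bwd 4715 37 tpr523.df)) (.leaf (.bwd 4752 35 tpr89.df))) (.leaf (.fwd 4787 15 tpr906.df))) (.node (.leaf (.bwd 4802 20 tpr505.df)) (.leaf (.bwd 4822 37 tpr681.df))))) (.node (.node (.node (.node (.leaf (.fwd 4859 22 tpr590.df)) (.leaf (.fwd 4881 31 tpr576.df))) (.leaf (.bwd 4912 49 tpr1647.df))) (.node (.leaf (.fwd 4961 37 tpr556.df)) (.leaf (.fwd 4998 36 tpr23.df)))) (.node (.node (.node (.leaf (.fwd 5034 27 tpr240.df))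 (.leaf (.bwd 5061 24 tpr293.df))) (.leaf (.fwd 5085 31 tpr557.df))) (.node (.leaf (.bwd 5116 37 tpr687.df)) (.leaf (.bwd 5153 28 tpr1609.df)))))))))

theorem iiNFzAzE2A3H3AyB2EzF_c : iiNFzAzE2A3H3AyB2EzF.all (itB (ng 55 nnNFzAzE2A3H3AyB2EzF)) = true := by decide +kernel
theorem nbNFzAzE2A3H3AyB2EzF : nbB 55 5236 nnNFzAzE2A3H3AyB2EzF = true := by decide +kernel
theorem topNFzAzE2A3H3AyB2EzF : topY 5236 ttNFzAzE2A3H3AyB2EzF ceNFzAzE2A3H3AyB2EzF xNFzAzE2A3H3AyB2EzF iiNFzAzE2A3H3AyB2EzF = true := by decide +kernel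

end MPb6R
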