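import Pool.Agent.Lib.MP_b6d339_lc.Cw3.YFzByAzA2A3H3AyB2EzF
import Pool.Agent.Lib.MP_b6d339_lc.Cw3.XL
import Pool.Agent.Lib.MP_b6d339_lc.Cw3.T0
import Pool.Agent.Lib.MP_b6d339_lc.Cw3.T1
import Pool.Agent.Lib.MP_b6d339_lc.Cw3.T10
import Pool.Agent.Lib.MP_b6d339_lc.Cw3.T11
import Pool.Agent.Lib.MP_b6d339_lc.Cw3.T12
import Pool.Agent.Lib.MP_b6d339_lc.Cw3.T13
import Pool.Agent.Lib.MP_b6d339_lc.Cw3.T14
import Pool.Agent.Lib.MP_b6d339_lc.Cw3.T16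
import Pool.Agent.Lib.MP_b6d339_lc.Cw3.T17
import Pool.Agent.Lib.MP_b6d339_lc.Cw3.T18
import Pool.Agent.Lib.MP_b6d339_lc.Cw3.T19
import Pool.Agent.Lib.MP_b6d339_lc.Cw3.T2
import Pool.Agent.Lib.MP_b6d339_lc.Cw3.T20
import Pool.Agent.Lib.MP_b6d339_lc.Cw3.T21
import Pool.Agent.Lib.MP_b6d339_lc.Cw3.T22
import Pool.Agent.Lib.MP_b6d339_lc.Cw3.T23
import Pool.Agent.Lib.MP_b6d339_lc.Cw3.T25
import Pool.Agent.Lib.MP_b6d339_lc.Cw3.T26
import Pool.Agent.Lib.MP_b6d339_lc.Cw3.T27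
import Pool.Agent.Lib.MP_b6d339_lc.Cw3.T28
import Pool.Agent.Lib.MP_b6d339_lc.Cw3.T29
import Pool.Agent.Lib.MP_b6d339_lc.Cw3.T3
import Pool.Agent.Lib.MP_b6d339_lc.Cw3.T30
import Pool.Agent.Lib.MP_b6d339_lc.Cw3.T4
import Pool.Agent.Lib.MP_b6d339_lc.Cw3.T5
import Pool.Agent.Lib.MP_b6d339_lc.Cw3.T6
import Pool.Agent.Lib.MP_b6d339_lc.Cw3.T7
import Pool.Agent.Lib.MP_b6d339_lc.Cw3.T8
import Pool.Agent.Lib.MP_b6d339_lc.Cw3.T9

/-!
# Erdős 592, three levels: items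
-/

namespace MPb6R

open MPb6P

noncomputable def iiNFzByAzA2A3H3AyB2EzF : BT Itm := (.node (.node (.node (.node (.node (.node (.node (.node (.leaf (.bwd 0 23 tpr5.df)) (.leaf (.bwd 23 29 tpr656.df))) (.node (.leaf (.bwd 52 16 tpr168.df)) (.leaf (.fwd 68 21 tpr90.df)))) (.node (.node (.leaf (.fwd 89 27 tpr499.df)) (.leaf (.fwd 116 27 tpr236.df))) (.leaf (.fwd 143 20 tpr48.df)))) (.node (.node (.node (.leaf (.bwd 163 31 tpr1532.df)) (.leaf (.bwd 194 20 tpr216.df))) (.node (.leaf (.bwd 214 34 tpr92.df)) (.leaf (.fwd 248 25 tpr644.df)))) (.node (.node (.leaf (.fwd 273 28 tpr223.df)) (.leaf (.fwd 301 33 tpr31.df))) (.leaf (.bwd 334 23 tpr12.df))))) (.node (.node (.node (.node (.leaf (.fwd 357 39 tpr1559.df)) (.leaf (.bwd 396 28 tpr225.df))) (.node (.leaf (.bwd 424 20 tpr2078.df)) (.leaf (.fwd 444 27 tpr589.df)))) (.node (.node (.leaf (.fwd 471 33 tpr44.df)) (.leaf (.fwd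 504 26 tpr222.df))) (.leaf (.bwd 530 45 tpr611.df)))) (.node (.node (.node (.leaf (.fwd 575 32 tpr247.df)) (.leaf (.fwd 607 23 tpr133.df))) (.leaf (.bwd 630 36 tpr573.df))) (.node (.node (.leaf (.bwd 666 37 tpr555.df)) (.leaf (.fwd 703 25 tpr106.df))) (.leaf (.bwd 728 35 tpr568.df)))))) (.node (.node (.node (.node (.node (.leaf (.bwd 763 37 tpr681.df)) (.leaf (.fwd 800 21 tpr72.df))) (.node (.leaf (.bwd 821 39 tpr210.df)) (.leaf (.fwd 860 28 tpr1406.df)))) (.node (.node (.leaf (.bwd 888 30 tpr45.df)) (.leaf (.bwd 918 22 tpr572.df))) (.leaf (.bwd 940 35 tpr89.df)))) (.node (.node (.node (.leaf (.bwd 975 23 tpr605.df)) (.leaf (.fwd 998 16 tpr804.df))) (.node (.leaf (.bwd 1014 32 tpr251.df)) (.leaf (.fwd 1046 32 tpr39.df)))) (.node (.node (.leaf (.fwd 1078 31 tpr606.df)) (.leaf (.fwd 1109 27 tpr506.df))) (.leaf (.fwd 1136 19 tpr429.df))))) (.node (.node (.node (.node (.leaf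 (.bwd 1155 27 tpr562.df)) (.leaf (.bwd 1182 32 tpr1584.df))) (.node (.leaf (.fwd 1214 33 tpr645.df)) (.leaf (.fwd 1247 37 tpr583.df)))) (.node (.node (.leaf (.bwd 1284 24 tpr609.df)) (.leaf (.fwd 1308 29 tpr582.df))) (.leaf (.fwd 1337 24 tpr24.df)))) (.node (.node (.node (.leaf (.fwd 1361 33 tpr28.df)) (.leaf (.fwd 1394 24 tpr255.df))) (.leaf (.bwd 1418 45 tpr596.df))) (.node (.node (.leaf (.bwd 1463 38 tpr526.df)) (.leaf (.fwd 1501 36 tpr23.df))) (.leaf (.bwd 1537 13 tpr500.df))))))) (.node (.node (.node (.node (.node (.node (.leaf (.bwd 1550 26 tpr245.df)) (.leaf (.bwd 1576 27 tpr584.df))) (.node (.leaf (.bwd 1603 25 tpr51.df)) (.leaf (.fwd 1628 38 tpr1542.df)))) (.node (.node (.leaf (.fwd 1666 15 tpr816.df)) (.leaf (.fwd 1681 27 tpr682.df))) (.leaf (.bwd 1708 28 tpr721.df)))) (.node (.node (.node (.leaf (.fwd 1736 24 tpr789.df)) (.leaf (.fwd 1760 31 tpr939.df))) (.node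 (.leaf (.bwd 1791 24 tpr293.df)) (.leaf (.bwd 1815 21 tpr50.df)))) (.node (.node (.leaf (.fwd 1836 39 tpr636.df)) (.leaf (.bwd 1875 42 tpr733.df))) (.leaf (.fwd 1917 14 tpr49.df))))) (.node (.node (.node (.node (.leaf (.bwd 1931 24 tpr2101.df)) (.leaf (.bwd 1955 25 tpr970.df))) (.node (.leaf (.fwd 1980 37 tpr556.df)) (.leaf (.bwd 2017 23 tpr2381.df)))) (.node (.node (.leaf (.fwd 2040 39 tpr615.df)) (.leaf (.fwd 2079 29 tpr623.df))) (.leaf (.fwd 2108 26 tpr700.df)))) (.node (.node (.node (.leaf (.fwd 2134 18 tpr2401.df)) (.leaf (.bwd 2152 32 tpr518.df))) (.leaf (.fwd 2184 37 tpr2402.df))) (.node (.node (.leaf (.bwd 2221 34 tpr614.df)) (.leaf (.fwd 2255 37 tpr782.df))) (.leaf (.bwd 2292 21 tpr2110.df)))))) (.node (.node (.node (.node (.node (.leaf (.bwd 2313 35 tpr658.df)) (.leaf (.bwd 2348 40 tpr2403.df))) (.node (.leaf (.bwd 2388 24 tpr454.df)) (.leaf (.bwd 2412 35 tpr541.df))))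 (.node (.node (.leaf (.bwd 2447 23 tpr456.df)) (.leaf (.fwd 2470 22 tpr20.df))) (.leaf (.bwd 2492 20 tpr1355.df)))) (.node (.node (.node (.leaf (.fwd 2512 31 tpr21.df)) (.leaf (.bwd 2543 38 tpr1334.df))) (.leaf (.fwd 2581 28 tpr477.df))) (.node (.node (.leaf (.bwd 2609 39 tpr479.df)) (.leaf (.bwd 2648 25 tpr1311.df))) (.leaf (.bwd 2673 31 tpr1305.df))))) (.node (.node (.node (.node (.leaf (.bwd 2704 35 tpr1313.df)) (.leaf (.fwd 2739 27 tpr788.df))) (.node (.leaf (.fwd 2766 37 tpr2111.df)) (.leaf (.bwd 2803 27 tpr977.df)))) (.node (.node (.leaf (.bwd 2830 43 tpr1325.df)) (.leaf (.bwd 2873 59 tpr803.df))) (.leaf (.bwd 2932 39 tpr2404.df)))) (.node (.node (.node (.leaf (.bwd 2971 35 tpr485.df)) (.leaf (.fwd 3006 58 tpr2405.df))) (.leaf (.fwd 3064 26 tpr2084.df))) (.node (.node (.leaf (.bwd 3090 34 tpr1341.df)) (.leaf (.fwd 3124 17 tpr2406.df))) (.leaf (.fwd 3141 31 tpr2393.df))))))))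 (.node (.node (.node (.node (.node (.node (.node (.leaf (.fwd 3172 20 tpr63.df)) (.leaf (.bwd 3192 33 tpr35.df))) (.node (.leaf (.bwd 3225 46 tpr1464.df)) (.leaf (.fwd 3271 35 tpr2247.df)))) (.node (.node (.leaf (.bwd 3306 17 tpr2407.df)) (.leaf (.bwd 3323 43 tpr1573.df))) (.leaf (.fwd 3366 27 tpr2408.df)))) (.node (.node (.node (.leaf (.bwd 3393 23 tpr478.df)) (.leaf (.bwd 3416 22 tpr483.df))) (.node (.leaf (.bwd 3438 44 tpr2238.df)) (.leaf (.fwd 3482 49 tpr2409.df)))) (.node (.node (.leaf (.fwd 3531 19 tpr33.df)) (.leaf (.fwd 3550 31 tpr761.df))) (.leaf (.fwd 3581 44 tpr2242.df))))) (.node (.node (.node (.node (.leaf (.fwd 3625 35 tpr2410.df)) (.leaf (.fwd 3660 29 tpr579.df))) (.node (.leaf (.bwd 3689 21 tpr1450.df)) (.leaf (.fwd 3710 28 tpr941.df)))) (.node (.node (.leaf (.bwd 3738 30 tpr1730.df)) (.leaf (.bwd 3768 44 tpr617.df))) (.leaf (.bwd 3812 41 tpr624.df))))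 (.node (.node (.node (.leaf (.fwd 3853 36 tpr1346.df)) (.leaf (.bwd 3889 29 tpr2411.df))) (.leaf (.bwd 3918 41 tpr715.df))) (.node (.node (.leaf (.fwd 3959 27 tpr1343.df)) (.leaf (.bwd 3986 27 tpr1475.df))) (.leaf (.fwd 4013 20 tpr2412.df)))))) (.node (.node (.node (.node (.node (.leaf (.bwd 4033 50 tpr1309.df)) (.leaf (.fwd 4083 35 tpr1358.df))) (.node (.leaf (.bwd 4118 28 tpr1121.df)) (.leaf (.bwd 4146 33 tpr2413.df)))) (.node (.node (.leaf (.fwd 4179 24 tpr2109.df)) (.leaf (.fwd 4203 25 tpr677.df))) (.leaf (.bwd 4228 27 tpr131.df)))) (.node (.node (.node (.leaf (.bwd 4255 21 tpr110.df)) (.leaf (.bwd 4276 41 tpr1126.df))) (.node (.leaf (.bwd 4317 29 tpr111.df)) (.leaf (.fwd 4346 36 tpr2392.df)))) (.node (.node (.leaf (.bwd 4382 19 tpr2414.df)) (.leaf (.fwd 4401 29 tpr564.df))) (.leaf (.fwd 4430 26 tpr1882.df))))) (.node (.node (.node (.node (.leaf (.bwd 4456 33 tpr2415.df))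 (.leaf (.bwd 4489 32 tpr1395.df))) (.node (.leaf (.fwd 4521 29 tpr2416.df)) (.leaf (.bwd 4550 32 tpr2417.df)))) (.node (.node (.leaf (.bwd 4582 51 tpr2418.df)) (.leaf (.bwd 4633 25 tpr2241.df))) (.leaf (.fwd 4658 31 tpr198.df)))) (.node (.node (.node (.leaf (.fwd 4689 23 tpr508.df)) (.leaf (.bwd 4712 21 tpr8.df))) (.leaf (.bwd 4733 29 tpr608.df))) (.node (.node (.leaf (.bwd 4762 33 tpr968.df)) (.leaf (.fwd 4795 20 tpr2075.df))) (.leaf (.bwd 4815 38 tpr393.df))))))) (.node (.node (.node (.node (.node (.node (.leaf (.bwd 4853 21 tpr25.df)) (.leaf (.bwd 4874 29 tpr641.df))) (.node (.leaf (.bwd 4903 34 tpr619.df)) (.leaf (.bwd 4937 29 tpr1540.df)))) (.node (.node (.leaf (.bwd 4966 34 tpr548.df)) (.leaf (.bwd 5000 37 tpr465.df))) (.leaf (.fwd 5037 41 tpr97.df)))) (.node (.node (.node (.leaf (.bwd 5078 60 tpr1826.df)) (.leaf (.bwd 5138 25 tpr74.df))) (.node (.leaf (.fwd 5163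 22 tpr504.df)) (.leaf (.bwd 5185 34 tpr628.df)))) (.node (.node (.leaf (.bwd 5219 35 tpr91.df)) (.leaf (.fwd 5254 46 tpr324.df))) (.leaf (.fwd 5300 36 tpr976.df))))) (.node (.node (.node (.node (.leaf (.bwd 5336 22 tpr959.df)) (.leaf (.bwd 5358 25 tpr95.df))) (.node (.leaf (.fwd 5383 38 tpr203.df)) (.leaf (.bwd 5421 37 tpr523.df)))) (.node (.node (.leaf (.fwd 5458 28 tpr510.df)) (.leaf (.fwd 5486 25 tpr2079.df))) (.leaf (.bwd 5511 35 tpr13.df)))) (.node (.node (.node (.leaf (.bwd 5546 32 tpr17.df)) (.leaf (.fwd 5578 31 tpr2419.df))) (.leaf (.fwd 5609 37 tpr1004.df))) (.node (.node (.leaf (.bwd 5646 38 tpr203.df)) (.leaf (.bwd 5684 24 tpr1604.df))) (.leaf (.fwd 5708 26 tpr509.df)))))) (.node (.node (.node (.node (.node (.leaf (.bwd 5734 37 tpr687.df)) (.leaf (.fwd 5771 30 tpr235.df))) (.node (.leaf (.bwd 5801 37 tpr639.df)) (.leaf (.bwd 5838 28 tpr546.df)))) (.node (.node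 (.leaf (.bwd 5866 32 tpr710.df)) (.leaf (.fwd 5898 28 tpr2421.df))) (.leaf (.fwd 5926 28 tpr507.df)))) (.node (.node (.node (.leaf (.bwd 5954 37 tpr520.df)) (.leaf (.fwd 5991 36 tpr547.df))) (.leaf (.fwd 6027 40 tpr544.df))) (.node (.node (.leaf (.fwd 6067 30 tpr1572.df)) (.leaf (.bwd 6097 18 tpr161.df))) (.leaf (.fwd 6115 38 tpr6.df))))) (.node (.node (.node (.node (.leaf (.fwd 6153 31 tpr517.df)) (.leaf (.bwd 6184 22 tpr191.df))) (.node (.leaf (.bwd 6206 26 tpr516.df)) (.leaf (.bwd 6232 22 tpr239.df)))) (.node (.node (.leaf (.bwd 6254 24 tpr996.df)) (.leaf (.bwd 6278 19 tpr616.df))) (.leaf (.fwd 6297 43 tpr2422.df)))) (.node (.node (.node (.leaf (.bwd 6340 29 tpr9.df)) (.leaf (.bwd 6369 33 tpr2423.df))) (.leaf (.bwd 6402 46 tpr1603.df))) (.node (.node (.leaf (.bwd 6448 32 tpr620.df)) (.leaf (.fwd 6480 41 tpr1041.df))) (.leaf (.fwd 6521 41 tpr1637.df)))))))))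

theorem iiNFzByAzA2A3H3AyB2EzF_c : iiNFzByAzA2A3H3AyB2EzF.all (itB (ng 60 nnNFzByAzA2A3H3AyB2EzF)) = true := by decide +kernel
theorem nbNFzByAzA2A3H3AyB2EzF : nbB 60 6622 nnNFzByAzA2A3H3AyB2EzF = true := by decide +kernel
theorem topNFzByAzA2A3H3AyB2EzF : topY 6622 ttNFzByAzA2A3H3AyB2EzF ceNFzByAzA2A3H3AyB2EzF xNFzByAzA2A3H3AyB2EzF iiNFzByAzA2A3H3AyB2EzF = true := by decide +kernel

end MPb6R
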