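import Pool.Agent.Lib.MP_b6d339_lc.Cw3.YFzByAzAyE2A3H2ByAzIzA2H3AyB2EzF
import Pool.Agent.Lib.MP_b6d339_lc.Cw3.XL
import Pool.Agent.Lib.MP_b6d339_lc.Cw3.T0
import Pool.Agent.Lib.MP_b6d339_lc.Cw3.T1
import Pool.Agent.Lib.MP_b6d339_lc.Cw3.T10
import Pool.Agent.Lib.MP_b6d339_lc.Cw3.T11
import Pool.Agent.Lib.MP_b6d339_lc.Cw3.T12
import Pool.Agent.Lib.MP_b6d339_lc.Cw3.T14
import Pool.Agent.Lib.MP_b6d339_lc.Cw3.T15
import Pool.Agent.Lib.MP_b6d339_lc.Cw3.T17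
import Pool.Agent.Lib.MP_b6d339_lc.Cw3.T2
import Pool.Agent.Lib.MP_b6d339_lc.Cw3.T20
import Pool.Agent.Lib.MP_b6d339_lc.Cw3.T22
import Pool.Agent.Lib.MP_b6d339_lc.Cw3.T23
import Pool.Agent.Lib.MP_b6d339_lc.Cw3.T3
import Pool.Agent.Lib.MP_b6d339_lc.Cw3.T33
import Pool.Agent.Lib.MP_b6d339_lc.Cw3.T34
import Pool.Agent.Lib.MP_b6d339_lc.Cw3.T35
import Pool.Agent.Lib.MP_b6d339_lc.Cw3.T4
import Pool.Agent.Lib.MP_b6d339_lc.Cw3.T5
import Pool.Agent.Lib.MP_b6d339_lc.Cw3.T6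
import Pool.Agent.Lib.MP_b6d339_lc.Cw3.T7
import Pool.Agent.Lib.MP_b6d339_lc.Cw3.T8
import Pool.Agent.Lib.MP_b6d339_lc.Cw3.T9

/-!
# Erdős 592, three levels: items
-/

namespace MPb6R

open MPb6P

noncomputable def iiNFzByAzAyE2A3H2ByAzIzA2H3AyB2EzF : BT Itm := (.node (.node (.node (.node (.node (.node (.node (.node (.node (.leaf (.bwd 0 23 tpr5.df)) (.leaf (.bwd 23 21 tpr8.df))) (.leaf (.bwd 44 13 tpr500.df))) (.node (.leaf (.fwd 57 21 tpr8.df)) (.leaf (.fwd 78 27 tpr499.df)))) (.node (.node (.leaf (.fwd 105 6 tpr4.df)) (.leaf (.bwd 111 20 tpr505.df))) (.node (.leaf (.fwd 131 28 tpr507.df)) (.leaf (.fwd 159 31 tpr607.df))))) (.node (.node (.node (.leaf (.bwd 190 37 tpr555.df)) (.leaf (.fwd 227 41 tpr502.df))) (.node (.leaf (.bwd 268 19 tpr616.df)) (.leaf (.fwd 287 28 tpr546.df)))) (.node (.node (.leaf (.bwd 315 37 tpr621.df)) (.leaf (.fwd 352 21 tpr629.df))) (.node (.leaf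 (.fwd 373 29 tpr582.df)) (.leaf (.bwd 402 29 tpr22.df)))))) (.node (.node (.node (.node (.node (.leaf (.fwd 431 26 tpr509.df)) (.leaf (.bwd 457 37 tpr503.df))) (.leaf (.fwd 494 29 tpr545.df))) (.node (.leaf (.fwd 523 38 tpr519.df)) (.leaf (.bwd 561 27 tpr82.df)))) (.node (.node (.leaf (.bwd 588 23 tpr508.df)) (.leaf (.fwd 611 27 tpr82.df))) (.node (.leaf (.fwd 638 26 tpr516.df)) (.leaf (.fwd 664 29 tpr22.df))))) (.node (.node (.node (.leaf (.bwd 693 23 tpr12.df)) (.leaf (.bwd 716 16 tpr168.df))) (.node (.leaf (.fwd 732 27 tpr236.df)) (.leaf (.bwd 759 27 tpr236.df)))) (.node (.node (.leaf (.fwd 786 24 tpr609.df)) (.leaf (.bwd 810 32 tpr251.df))) (.node (.leaf (.bwd 842 48 tpr77.df)) (.leaf (.bwd 890 27 tpr589.df))))))) (.node (.node (.node (.node (.node (.node (.leaf (.fwd 917 27 tpr506.df)) (.leaf (.bwd 944 27 tpr506.df))) (.leaf (.fwd 971 30 tpr537.df))) (.node (.leaf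 (.fwd 1001 31 tpr606.df)) (.leaf (.bwd 1032 31 tpr606.df)))) (.node (.node (.leaf (.bwd 1063 29 tpr656.df)) (.leaf (.bwd 1092 46 tpr324.df))) (.node (.leaf (.fwd 1138 21 tpr90.df)) (.leaf (.bwd 1159 31 tpr527.df))))) (.node (.node (.node (.leaf (.bwd 1190 38 tpr526.df)) (.leaf (.bwd 1228 29 tpr608.df))) (.node (.leaf (.fwd 1257 38 tpr526.df)) (.leaf (.fwd 1295 22 tpr239.df)))) (.node (.node (.leaf (.fwd 1317 21 tpr72.df)) (.leaf (.bwd 1338 32 tpr247.df))) (.node (.leaf (.bwd 1370 30 tpr613.df)) (.leaf (.bwd 1400 35 tpr622.df)))))) (.node (.node (.node (.node (.leaf (.bwd 1435 36 tpr672.df)) (.leaf (.bwd 1471 34 tpr619.df))) (.node (.leaf (.bwd 1505 32 tpr620.df)) (.leaf (.bwd 1537 34 tpr691.df)))) (.node (.node (.leaf (.fwd 1571 35 tpr703.df)) (.leaf (.fwd 1606 26 tpr675.df))) (.node (.leaf (.bwd 1632 37 tpr553.df)) (.leaf (.bwd 1669 32 tpr674.df))))) (.node (.node (.node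 (.leaf (.fwd 1701 29 tpr647.df)) (.leaf (.bwd 1730 37 tpr639.df))) (.node (.leaf (.bwd 1767 34 tpr664.df)) (.leaf (.bwd 1801 29 tpr666.df)))) (.node (.node (.leaf (.bwd 1830 34 tpr643.df)) (.leaf (.bwd 1864 37 tpr571.df))) (.node (.leaf (.fwd 1901 39 tpr78.df)) (.leaf (.bwd 1940 22 tpr572.df)))))))) (.node (.node (.node (.node (.node (.node (.node (.leaf (.fwd 1962 28 tpr223.df)) (.leaf (.bwd 1990 32 tpr591.df))) (.leaf (.bwd 2022 23 tpr605.df))) (.node (.leaf (.fwd 2045 34 tpr628.df)) (.leaf (.fwd 2079 32 tpr518.df)))) (.node (.node (.leaf (.fwd 2111 35 tpr602.df)) (.leaf (.fwd 2146 36 tpr547.df))) (.node (.leaf (.fwd 2182 41 tpr549.df)) (.leaf (.bwd 2223 34 tpr548.df))))) (.node (.node (.node (.leaf (.fwd 2257 33 tpr661.df)) (.leaf (.bwd 2290 36 tpr662.df))) (.node (.leaf (.bwd 2326 33 tpr663.df)) (.leaf (.fwd 2359 23 tpr508.df)))) (.node (.node (.leaf (.bwd 2382 28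 tpr1666.df)) (.leaf (.fwd 2410 41 tpr552.df))) (.node (.leaf (.fwd 2451 36 tpr935.df)) (.leaf (.bwd 2487 29 tpr637.df)))))) (.node (.node (.node (.node (.leaf (.fwd 2516 43 tpr1198.df)) (.leaf (.bwd 2559 40 tpr670.df))) (.node (.leaf (.fwd 2599 33 tpr1205.df)) (.leaf (.bwd 2632 33 tpr2745.df)))) (.node (.node (.leaf (.bwd 2665 30 tpr989.df)) (.leaf (.fwd 2695 24 tpr667.df))) (.node (.leaf (.fwd 2719 36 tpr1194.df)) (.leaf (.fwd 2755 25 tpr644.df))))) (.node (.node (.node (.leaf (.bwd 2780 29 tpr545.df)) (.leaf (.fwd 2809 16 tpr804.df))) (.node (.leaf (.bwd 2825 27 tpr499.df)) (.leaf (.bwd 2852 20 tpr103.df)))) (.node (.node (.leaf (.fwd 2872 43 tpr566.df)) (.leaf (.bwd 2915 25 tpr677.df))) (.node (.leaf (.fwd 2940 30 tpr626.df)) (.leaf (.bwd 2970 22 tpr515.df))))))) (.node (.node (.node (.node (.node (.node (.leaf (.fwd 2992 32 tpr17.df)) (.leaf (.bwd 3024 34 tpr54.df)))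 (.leaf (.fwd 3058 31 tpr517.df))) (.node (.leaf (.fwd 3089 19 tpr429.df)) (.leaf (.bwd 3108 37 tpr782.df)))) (.node (.node (.leaf (.fwd 3145 27 tpr682.df)) (.leaf (.bwd 3172 24 tpr609.df))) (.node (.leaf (.bwd 3196 26 tpr245.df)) (.leaf (.fwd 3222 20 tpr48.df))))) (.node (.node (.node (.leaf (.fwd 3242 26 tpr222.df)) (.leaf (.bwd 3268 13 tpr11.df))) (.node (.leaf (.fwd 3281 27 tpr562.df)) (.leaf (.bwd 3308 37 tpr687.df)))) (.node (.node (.leaf (.bwd 3345 30 tpr1809.df)) (.leaf (.fwd 3375 29 tpr638.df))) (.node (.leaf (.fwd 3404 34 tpr1195.df)) (.leaf (.fwd 3438 37 tpr555.df)))))) (.node (.node (.node (.node (.leaf (.bwd 3475 33 tpr538.df)) (.leaf (.fwd 3508 36 tpr23.df))) (.node (.leaf (.bwd 3544 33 tpr521.df)) (.leaf (.bwd 3577 32 tpr17.df)))) (.node (.node (.leaf (.fwd 3609 28 tpr510.df)) (.leaf (.fwd 3637 32 tpr247.df))) (.node (.leaf (.fwd 3669 36 tpr1813.df)) (.leaf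 (.fwd 3705 37 tpr583.df))))) (.node (.node (.node (.leaf (.bwd 3742 42 tpr673.df)) (.leaf (.fwd 3784 27 tpr1760.df))) (.node (.leaf (.fwd 3811 33 tpr689.df)) (.leaf (.bwd 3844 37 tpr688.df)))) (.node (.node (.leaf (.bwd 3881 46 tpr593.df)) (.leaf (.bwd 3927 43 tpr676.df))) (.node (.leaf (.fwd 3970 27 tpr1247.df)) (.leaf (.bwd 3997 27 tpr562.df))))))))) (.node (.node (.node (.node (.node (.node (.node (.node (.leaf (.fwd 4024 27 tpr589.df)) (.leaf (.bwd 4051 33 tpr501.df))) (.leaf (.fwd 4084 36 tpr634.df))) (.node (.leaf (.bwd 4120 58 tpr988.df)) (.leaf (.fwd 4178 32 tpr2654.df)))) (.node (.node (.leaf (.fwd 4210 20 tpr505.df)) (.leaf (.fwd 4230 25 tpr51.df))) (.node (.leaf (.fwd 4255 20 tpr768.df)) (.leaf (.bwd 4275 27 tpr625.df))))) (.node (.node (.node (.leaf (.bwd 4302 39 tpr642.df)) (.leaf (.fwd 4341 24 tpr458.df))) (.node (.leaf (.bwd 4365 36 tpr573.df)) (.leaf (.fwd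 4401 44 tpr592.df)))) (.node (.node (.leaf (.fwd 4445 47 tpr542.df)) (.leaf (.fwd 4492 38 tpr203.df))) (.node (.leaf (.fwd 4530 33 tpr645.df)) (.leaf (.bwd 4563 35 tpr568.df)))))) (.node (.node (.node (.node (.leaf (.bwd 4598 37 tpr523.df)) (.leaf (.fwd 4635 30 tpr513.df))) (.node (.leaf (.bwd 4665 39 tpr514.df)) (.leaf (.bwd 4704 32 tpr522.df)))) (.node (.node (.leaf (.fwd 4736 46 tpr324.df)) (.leaf (.fwd 4782 37 tpr556.df))) (.node (.leaf (.bwd 4819 36 tpr686.df)) (.leaf (.bwd 4855 34 tpr628.df))))) (.node (.node (.node (.leaf (.fwd 4889 34 tpr1204.df)) (.leaf (.fwd 4923 42 tpr812.df))) (.node (.leaf (.fwd 4965 28 tpr1406.df)) (.leaf (.bwd 4993 35 tpr13.df)))) (.node (.node (.leaf (.bwd 5028 37 tpr520.df)) (.leaf (.fwd 5065 25 tpr106.df))) (.node (.leaf (.bwd 5090 37 tpr681.df)) (.leaf (.bwd 5127 37 tpr1199.df))))))) (.node (.node (.node (.node (.node (.node (.leaf (.bwd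 5164 28 tpr610.df)) (.leaf (.fwd 5192 46 tpr593.df))) (.leaf (.bwd 5238 40 tpr544.df))) (.node (.leaf (.bwd 5278 39 tpr210.df)) (.leaf (.fwd 5317 42 tpr612.df)))) (.node (.node (.leaf (.bwd 5359 44 tpr592.df)) (.leaf (.bwd 5403 31 tpr517.df))) (.node (.leaf (.fwd 5434 24 tpr730.df)) (.leaf (.fwd 5458 35 tpr259.df))))) (.node (.node (.node (.leaf (.bwd 5493 29 tpr151.df)) (.leaf (.fwd 5522 28 tpr627.df))) (.node (.leaf (.fwd 5550 43 tpr676.df)) (.leaf (.bwd 5593 29 tpr9.df)))) (.node (.node (.leaf (.fwd 5622 29 tpr978.df)) (.leaf (.bwd 5651 26 tpr516.df))) (.node (.leaf (.fwd 5677 26 tpr599.df)) (.leaf (.bwd 5703 32 tpr294.df)))))) (.node (.node (.node (.node (.leaf (.bwd 5735 34 tpr543.df)) (.leaf (.bwd 5769 31 tpr576.df))) (.node (.leaf (.bwd 5800 25 tpr702.df)) (.leaf (.bwd 5825 36 tpr547.df)))) (.node (.node (.leaf (.bwd 5861 37 tpr556.df)) (.leaf (.bwd 5898 25 tpr633.df)))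 (.node (.leaf (.bwd 5923 34 tpr614.df)) (.leaf (.bwd 5957 28 tpr546.df))))) (.node (.node (.node (.leaf (.fwd 5985 31 tpr557.df)) (.leaf (.bwd 6016 28 tpr721.df))) (.node (.leaf (.bwd 6044 30 tpr626.df)) (.leaf (.fwd 6074 38 tpr2866.df)))) (.node (.node (.leaf (.bwd 6112 18 tpr18.df)) (.leaf (.bwd 6130 29 tpr641.df))) (.node (.leaf (.bwd 6159 17 tpr2867.df)) (.leaf (.bwd 6176 31 tpr704.df)))))))) (.node (.node (.node (.node (.node (.node (.node (.leaf (.fwd 6207 34 tpr1822.df)) (.leaf (.fwd 6241 60 tpr630.df))) (.leaf (.fwd 6301 20 tpr2868.df))) (.node (.leaf (.fwd 6321 37 tpr406.df)) (.leaf (.bwd 6358 61 tpr695.df)))) (.node (.node (.leaf (.bwd 6419 38 tpr393.df)) (.leaf (.bwd 6457 23 tpr2869.df))) (.node (.leaf (.fwd 6480 22 tpr953.df)) (.leaf (.fwd 6502 22 tpr504.df))))) (.node (.node (.node (.leaf (.fwd 6524 39 tpr81.df)) (.leaf (.bwd 6563 23 tpr632.df))) (.node (.leaf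 (.bwd 6586 27 tpr977.df)) (.leaf (.fwd 6613 56 tpr87.df)))) (.node (.node (.leaf (.bwd 6669 25 tpr74.df)) (.leaf (.fwd 6694 35 tpr123.df))) (.node (.leaf (.fwd 6729 43 tpr122.df)) (.leaf (.bwd 6772 31 tpr315.df)))))) (.node (.node (.node (.node (.leaf (.bwd 6803 37 tpr720.df)) (.leaf (.fwd 6840 17 tpr2872.df))) (.node (.leaf (.fwd 6857 41 tpr1182.df)) (.leaf (.fwd 6898 40 tpr1811.df)))) (.node (.node (.leaf (.bwd 6938 28 tpr507.df)) (.leaf (.fwd 6966 35 tpr943.df))) (.node (.leaf (.fwd 7001 49 tpr960.df)) (.leaf (.fwd 7050 25 tpr10.df))))) (.node (.node (.node (.leaf (.bwd 7075 24 tpr293.df)) (.leaf (.bwd 7099 33 tpr869.df))) (.node (.leaf (.fwd 7132 38 tpr2751.df)) (.leaf (.bwd 7170 25 tpr51.df)))) (.node (.node (.leaf (.bwd 7195 31 tpr167.df)) (.leaf (.fwd 7226 39 tpr514.df))) (.node (.leaf (.fwd 7265 39 tpr1001.df)) (.leaf (.fwd 7304 40 tpr1799.df))))))) (.node (.node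 (.node (.node (.node (.node (.leaf (.bwd 7344 37 tpr2750.df)) (.leaf (.fwd 7381 43 tpr896.df))) (.leaf (.bwd 7424 32 tpr518.df))) (.node (.leaf (.bwd 7456 32 tpr1859.df)) (.leaf (.fwd 7488 26 tpr753.df)))) (.node (.node (.leaf (.fwd 7514 28 tpr295.df)) (.leaf (.bwd 7542 24 tpr24.df))) (.node (.leaf (.bwd 7566 40 tpr62.df)) (.leaf (.fwd 7606 37 tpr2753.df))))) (.node (.node (.node (.leaf (.fwd 7643 36 tpr665.df)) (.leaf (.bwd 7679 27 tpr2752.df))) (.node (.leaf (.bwd 7706 31 tpr557.df)) (.leaf (.fwd 7737 34 tpr54.df)))) (.node (.node (.leaf (.fwd 7771 24 tpr743.df)) (.leaf (.fwd 7795 30 tpr577.df))) (.node (.leaf (.bwd 7825 41 tpr549.df)) (.leaf (.bwd 7866 30 tpr537.df)))))) (.node (.node (.node (.node (.leaf (.fwd 7896 46 tpr2754.df)) (.leaf (.fwd 7942 15 tpr906.df))) (.node (.leaf (.bwd 7957 23 tpr559.df)) (.leaf (.fwd 7980 27 tpr1214.df)))) (.node (.node (.leaf (.bwd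 8007 41 tpr502.df)) (.leaf (.fwd 8048 40 tpr544.df))) (.node (.leaf (.fwd 8088 27 tpr1202.df)) (.leaf (.fwd 8115 25 tpr739.df))))) (.node (.node (.node (.leaf (.bwd 8140 29 tpr746.df)) (.leaf (.bwd 8169 42 tpr733.df))) (.node (.leaf (.bwd 8211 35 tpr658.df)) (.leaf (.fwd 8246 31 tpr527.df)))) (.node (.node (.leaf (.bwd 8277 26 tpr509.df)) (.leaf (.bwd 8303 35 tpr554.df))) (.node (.leaf (.bwd 8338 28 tpr1849.df)) (.leaf (.bwd 8366 35 tpr2756.df))))))))))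

theorem iiNFzByAzAyE2A3H2ByAzIzA2H3AyB2EzF_c : iiNFzByAzAyE2A3H2ByAzIzA2H3AyB2EzF.all (itB (ng 61 nnNFzByAzAyE2A3H2ByAzIzA2H3AyB2EzF)) = true := by decide +kernel
theorem nbNFzByAzAyE2A3H2ByAzIzA2H3AyB2EzF : nbB 61 8462 nnNFzByAzAyE2A3H2ByAzIzA2H3AyB2EzF = true := by decide +kernel
theorem topNFzByAzAyE2A3H2ByAzIzA2H3AyB2EzF : topY 8462 ttNFzByAzAyE2A3H2ByAzIzA2H3AyB2EzF ceNFzByAzAyE2A3H2ByAzIzA2H3AyB2EzF xNFzByAzAyE2A3H2ByAzIzA2H3AyB2EzF iiNFzByAzAyE2A3H2ByAzIzA2H3AyB2EzF = true := by decide +kernel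

end MPb6R
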