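import Pool.Agent.Lib.MP_b6d339_lc.Cw3.YFzE2A3H2AzAyB2H3A2EzF
import Pool.Agent.Lib.MP_b6d339_lc.Cw3.XL
import Pool.Agent.Lib.MP_b6d339_lc.Cw3.T0
import Pool.Agent.Lib.MP_b6d339_lc.Cw3.T1
import Pool.Agent.Lib.MP_b6d339_lc.Cw3.T10
import Pool.Agent.Lib.MP_b6d339_lc.Cw3.T11
import Pool.Agent.Lib.MP_b6d339_lc.Cw3.T12
import Pool.Agent.Lib.MP_b6d339_lc.Cw3.T13
import Pool.Agent.Lib.MP_b6d339_lc.Cw3.T14
import Pool.Agent.Lib.MP_b6d339_lc.Cw3.T15
import Pool.Agent.Lib.MP_b6d339_lc.Cw3.T16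
import Pool.Agent.Lib.MP_b6d339_lc.Cw3.T19
import Pool.Agent.Lib.MP_b6d339_lc.Cw3.T2
import Pool.Agent.Lib.MP_b6d339_lc.Cw3.T20
import Pool.Agent.Lib.MP_b6d339_lc.Cw3.T21
import Pool.Agent.Lib.MP_b6d339_lc.Cw3.T22
import Pool.Agent.Lib.MP_b6d339_lc.Cw3.T23
import Pool.Agent.Lib.MP_b6d339_lc.Cw3.T24
import Pool.Agent.Lib.MP_b6d339_lc.Cw3.T3
import Pool.Agent.Lib.MP_b6d339_lc.Cw3.T36
import Pool.Agent.Lib.MP_b6d339_lc.Cw3.T4
import Pool.Agent.Lib.MP_b6d339_lc.Cw3.T5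
import Pool.Agent.Lib.MP_b6d339_lc.Cw3.T6
import Pool.Agent.Lib.MP_b6d339_lc.Cw3.T7
import Pool.Agent.Lib.MP_b6d339_lc.Cw3.T8
import Pool.Agent.Lib.MP_b6d339_lc.Cw3.T9

/-!
# Erdős 592, three levels: items
-/

namespace MPb6R

open MPb6P

noncomputable def iiNFzE2A3H2AzAyB2H3A2EzF : BT Itm := (.node (.node (.node (.node (.node (.node (.node (.node (.node (.leaf (.bwd 0 13 tpr500.df)) (.leaf (.fwd 13 13 tpr500.df))) (.leaf (.fwd 26 23 tpr605.df))) (.node (.node (.leaf (.bwd 49 22 tpr959.df)) (.leaf (.fwd 71 29 tpr570.df))) (.leaf (.bwd 100 23 tpr508.df)))) (.node (.node (.node (.leaf (.fwd 123 23 tpr5.df)) (.leaf (.fwd 146 27 tpr682.df))) (.leaf (.bwd 173 20 tpr48.df))) (.node (.node (.leaf (.fwd 193 27 tpr589.df)) (.leaf (.fwd 220 31 tpr527.df))) (.leaf (.fwd 251 20 tpr216.df))))) (.node (.node (.node (.node (.leaf (.fwd 271 29 tpr9.df)) (.leaf (.fwd 300 22 tpr504.df))) (.leaf (.bwd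 322 20 tpr103.df))) (.node (.node (.leaf (.bwd 342 22 tpr504.df)) (.leaf (.fwd 364 29 tpr22.df))) (.leaf (.fwd 393 17 tpr16.df)))) (.node (.node (.node (.leaf (.bwd 410 22 tpr191.df)) (.leaf (.fwd 432 23 tpr508.df))) (.leaf (.fwd 455 22 tpr581.df))) (.node (.leaf (.bwd 477 26 tpr516.df)) (.leaf (.bwd 503 27 tpr499.df)))))) (.node (.node (.node (.node (.node (.leaf (.fwd 530 20 tpr48.df)) (.leaf (.fwd 550 31 tpr606.df))) (.leaf (.fwd 581 31 tpr557.df))) (.node (.node (.leaf (.fwd 612 34 tpr619.df)) (.leaf (.fwd 646 33 tpr631.df))) (.leaf (.fwd 679 31 tpr167.df)))) (.node (.node (.node (.leaf (.bwd 710 24 tpr609.df)) (.leaf (.fwd 734 39 tpr569.df))) (.leaf (.bwd 773 35 tpr585.df))) (.node (.leaf (.fwd 808 28 tpr225.df)) (.leaf (.bwd 836 29 tpr151.df))))) (.node (.node (.node (.node (.leaf (.fwd 865 25 tpr586.df)) (.leaf (.fwd 890 35 tpr568.df))) (.leaf (.fwd 925 28 tpr1666.df))) (.node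 (.node (.leaf (.bwd 953 43 tpr566.df)) (.leaf (.bwd 996 17 tpr16.df))) (.leaf (.bwd 1013 25 tpr74.df)))) (.node (.node (.node (.leaf (.fwd 1038 19 tpr429.df)) (.leaf (.fwd 1057 28 tpr610.df))) (.leaf (.bwd 1085 39 tpr636.df))) (.node (.leaf (.fwd 1124 35 tpr585.df)) (.leaf (.bwd 1159 32 tpr1065.df))))))) (.node (.node (.node (.node (.node (.node (.leaf (.fwd 1191 37 tpr571.df)) (.leaf (.bwd 1228 15 tpr906.df))) (.leaf (.fwd 1243 43 tpr566.df))) (.node (.node (.leaf (.fwd 1286 30 tpr613.df)) (.leaf (.bwd 1316 30 tpr577.df))) (.leaf (.fwd 1346 23 tpr559.df)))) (.node (.node (.node (.leaf (.fwd 1369 24 tpr743.df)) (.leaf (.fwd 1393 33 tpr501.df))) (.leaf (.fwd 1426 22 tpr515.df))) (.node (.node (.leaf (.bwd 1448 39 tpr78.df)) (.leaf (.fwd 1487 31 tpr528.df))) (.leaf (.bwd 1518 28 tpr721.df))))) (.node (.node (.node (.node (.leaf (.bwd 1546 30 tpr537.df)) (.leaf (.bwd 1576 26 tpr509.df)))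 (.leaf (.bwd 1602 27 tpr529.df))) (.node (.node (.leaf (.fwd 1629 35 tpr91.df)) (.leaf (.fwd 1664 24 tpr789.df))) (.leaf (.bwd 1688 25 tpr702.df)))) (.node (.node (.node (.leaf (.fwd 1713 45 tpr611.df)) (.leaf (.fwd 1758 21 tpr25.df))) (.leaf (.bwd 1779 29 tpr1192.df))) (.node (.leaf (.bwd 1808 41 tpr549.df)) (.leaf (.bwd 1849 24 tpr24.df)))))) (.node (.node (.node (.node (.node (.leaf (.fwd 1873 29 tpr579.df)) (.leaf (.fwd 1902 38 tpr265.df))) (.leaf (.bwd 1940 33 tpr661.df))) (.node (.node (.leaf (.bwd 1973 48 tpr649.df)) (.leaf (.bwd 2021 23 tpr559.df))) (.leaf (.fwd 2044 38 tpr203.df)))) (.node (.node (.node (.leaf (.fwd 2082 31 tpr712.df)) (.leaf (.fwd 2113 33 tpr968.df))) (.leaf (.fwd 2146 26 tpr653.df))) (.node (.leaf (.bwd 2172 24 tpr66.df)) (.leaf (.fwd 2196 30 tpr1227.df))))) (.node (.node (.node (.node (.leaf (.fwd 2226 42 tpr124.df)) (.leaf (.bwd 2268 29 tpr539.df)))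 (.leaf (.fwd 2297 29 tpr637.df))) (.node (.node (.leaf (.fwd 2326 32 tpr1633.df)) (.leaf (.bwd 2358 42 tpr612.df))) (.leaf (.fwd 2400 36 tpr547.df)))) (.node (.node (.node (.leaf (.bwd 2436 38 tpr203.df)) (.leaf (.bwd 2474 18 tpr18.df))) (.leaf (.bwd 2492 29 tpr654.df))) (.node (.leaf (.fwd 2521 29 tpr1639.df)) (.leaf (.fwd 2550 32 tpr736.df)))))))) (.node (.node (.node (.node (.node (.node (.node (.leaf (.bwd 2582 43 tpr532.df)) (.leaf (.fwd 2625 34 tpr575.df))) (.leaf (.bwd 2659 44 tpr466.df))) (.node (.node (.leaf (.fwd 2703 37 tpr621.df)) (.leaf (.fwd 2740 18 tpr648.df))) (.leaf (.fwd 2758 25 tpr1122.df)))) (.node (.node (.node (.leaf (.fwd 2783 35 tpr657.df)) (.leaf (.fwd 2818 60 tpr630.df))) (.leaf (.fwd 2878 43 tpr122.df))) (.node (.node (.leaf (.fwd 2921 35 tpr123.df)) (.leaf (.fwd 2956 34 tpr548.df))) (.leaf (.bwd 2990 20 tpr63.df))))) (.node (.node (.node (.node (.leaf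 (.bwd 3010 25 tpr633.df)) (.leaf (.fwd 3035 44 tpr617.df))) (.leaf (.fwd 3079 21 tpr530.df))) (.node (.node (.leaf (.bwd 3100 24 tpr160.df)) (.leaf (.bwd 3124 37 tpr621.df))) (.leaf (.fwd 3161 34 tpr1630.df)))) (.node (.node (.node (.leaf (.bwd 3195 61 tpr695.df)) (.leaf (.fwd 3256 33 tpr1651.df))) (.leaf (.fwd 3289 37 tpr406.df))) (.node (.leaf (.fwd 3326 29 tpr1914.df)) (.leaf (.bwd 3355 43 tpr565.df)))))) (.node (.node (.node (.node (.node (.leaf (.bwd 3398 39 tpr655.df)) (.leaf (.fwd 3437 35 tpr534.df))) (.leaf (.fwd 3472 26 tpr1635.df))) (.node (.node (.leaf (.fwd 3498 24 tpr200.df)) (.leaf (.bwd 3522 20 tpr268.df))) (.leaf (.bwd 3542 36 tpr634.df)))) (.node (.node (.node (.leaf (.fwd 3578 32 tpr1634.df)) (.leaf (.bwd 3610 35 tpr1668.df))) (.leaf (.bwd 3645 24 tpr57.df))) (.node (.leaf (.bwd 3669 35 tpr259.df)) (.leaf (.fwd 3704 21 tpr107.df))))) (.node (.node (.node (.node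 (.leaf (.bwd 3725 18 tpr648.df)) (.leaf (.fwd 3743 34 tpr54.df))) (.leaf (.bwd 3777 29 tpr9.df))) (.node (.node (.leaf (.bwd 3806 25 tpr10.df)) (.leaf (.fwd 3831 30 tpr235.df))) (.leaf (.bwd 3861 41 tpr1123.df)))) (.node (.node (.node (.leaf (.bwd 3902 30 tpr26.df)) (.leaf (.fwd 3932 22 tpr86.df))) (.leaf (.bwd 3954 39 tpr642.df))) (.node (.leaf (.fwd 3993 39 tpr78.df)) (.leaf (.fwd 4032 39 tpr81.df))))))) (.node (.node (.node (.node (.node (.node (.leaf (.bwd 4071 25 tpr457.df)) (.leaf (.bwd 4096 31 tpr315.df))) (.leaf (.fwd 4127 22 tpr230.df))) (.node (.node (.leaf (.fwd 4149 56 tpr87.df)) (.leaf (.fwd 4205 29 tpr539.df))) (.leaf (.bwd 4234 38 tpr265.df)))) (.node (.node (.node (.leaf (.fwd 4272 25 tpr51.df)) (.leaf (.fwd 4297 35 tpr13.df))) (.leaf (.bwd 4332 26 tpr234.df))) (.node (.node (.leaf (.fwd 4358 27 tpr119.df)) (.leaf (.fwd 4385 22 tpr118.df))) (.leaf (.fwd 4407 20 tpr103.df)))))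 (.node (.node (.node (.node (.leaf (.fwd 4427 15 tpr419.df)) (.leaf (.fwd 4442 22 tpr191.df))) (.leaf (.bwd 4464 20 tpr505.df))) (.node (.node (.leaf (.bwd 4484 28 tpr511.df)) (.leaf (.fwd 4512 29 tpr564.df))) (.leaf (.bwd 4541 31 tpr167.df)))) (.node (.node (.node (.leaf (.bwd 4572 31 tpr607.df)) (.leaf (.fwd 4603 30 tpr626.df))) (.leaf (.fwd 4633 25 tpr679.df))) (.node (.leaf (.fwd 4658 28 tpr511.df)) (.leaf (.bwd 4686 21 tpr8.df)))))) (.node (.node (.node (.node (.node (.leaf (.bwd 4707 22 tpr572.df)) (.leaf (.fwd 4729 27 tpr82.df))) (.leaf (.fwd 4756 30 tpr513.df))) (.node (.node (.leaf (.fwd 4786 29 tpr545.df)) (.leaf (.bwd 4815 19 tpr616.df))) (.leaf (.fwd 4834 28 tpr507.df)))) (.node (.node (.node (.leaf (.bwd 4862 28 tpr510.df)) (.leaf (.bwd 4890 31 tpr576.df))) (.leaf (.bwd 4921 32 tpr294.df))) (.node (.leaf (.bwd 4953 30 tpr513.df)) (.leaf (.bwd 4983 35 tpr658.df)))))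 (.node (.node (.node (.node (.leaf (.bwd 5018 40 tpr1002.df)) (.leaf (.bwd 5058 40 tpr1811.df))) (.leaf (.bwd 5098 35 tpr1028.df))) (.node (.node (.leaf (.bwd 5133 49 tpr960.df)) (.leaf (.fwd 5182 36 tpr683.df))) (.leaf (.fwd 5218 29 tpr623.df)))) (.node (.node (.node (.leaf (.fwd 5247 34 tpr614.df)) (.leaf (.bwd 5281 62 tpr1844.df))) (.leaf (.bwd 5343 39 tpr615.df))) (.node (.leaf (.fwd 5382 41 tpr624.df)) (.leaf (.bwd 5423 32 tpr1221.df))))))))) (.node (.node (.node (.node (.node (.node (.node (.node (.leaf (.fwd 5455 45 tpr596.df)) (.leaf (.fwd 5500 55 tpr1201.df))) (.leaf (.fwd 5555 38 tpr519.df))) (.node (.node (.leaf (.bwd 5593 30 tpr1547.df)) (.leaf (.bwd 5623 28 tpr588.df))) (.leaf (.fwd 5651 41 tpr502.df)))) (.node (.node (.node (.leaf (.bwd 5692 37 tpr503.df)) (.leaf (.bwd 5729 16 tpr804.df))) (.leaf (.bwd 5745 31 tpr198.df))) (.node (.node (.leaf (.bwd 5776 30 tpr603.df))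 (.leaf (.bwd 5806 34 tpr15.df))) (.leaf (.bwd 5840 27 tpr82.df))))) (.node (.node (.node (.node (.leaf (.fwd 5867 32 tpr591.df)) (.leaf (.bwd 5899 26 tpr599.df))) (.leaf (.bwd 5925 26 tpr1800.df))) (.node (.node (.leaf (.bwd 5951 23 tpr632.df)) (.leaf (.bwd 5974 36 tpr75.df))) (.leaf (.bwd 6010 42 tpr344.df)))) (.node (.node (.node (.leaf (.fwd 6052 22 tpr239.df)) (.leaf (.fwd 6074 27 tpr236.df))) (.leaf (.fwd 6101 25 tpr644.df))) (.node (.leaf (.fwd 6126 26 tpr516.df)) (.leaf (.bwd 6152 29 tpr545.df)))))) (.node (.node (.node (.node (.node (.leaf (.fwd 6181 30 tpr537.df)) (.leaf (.fwd 6211 31 tpr607.df))) (.leaf (.bwd 6242 28 tpr546.df))) (.node (.node (.leaf (.fwd 6270 28 tpr546.df)) (.leaf (.fwd 6298 22 tpr536.df))) (.leaf (.fwd 6320 27 tpr499.df)))) (.node (.node (.node (.leaf (.bwd 6347 35 tpr123.df)) (.leaf (.bwd 6382 39 tpr81.df))) (.leaf (.bwd 6421 43 tpr122.df))) (.node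 (.leaf (.bwd 6464 22 tpr118.df)) (.leaf (.bwd 6486 56 tpr87.df))))) (.node (.node (.node (.node (.leaf (.fwd 6542 30 tpr26.df)) (.leaf (.fwd 6572 43 tpr532.df))) (.leaf (.fwd 6615 41 tpr549.df))) (.node (.node (.leaf (.fwd 6656 49 tpr1647.df)) (.leaf (.fwd 6705 32 tpr518.df))) (.leaf (.fwd 6737 25 tpr74.df)))) (.node (.node (.node (.leaf (.bwd 6762 37 tpr406.df)) (.leaf (.fwd 6799 42 tpr344.df))) (.leaf (.fwd 6841 31 tpr339.df))) (.node (.leaf (.fwd 6872 37 tpr720.df)) (.leaf (.fwd 6909 38 tpr393.df))))))) (.node (.node (.node (.node (.node (.node (.leaf (.fwd 6947 25 tpr702.df)) (.leaf (.fwd 6972 28 tpr27.df))) (.leaf (.fwd 7000 17 tpr1714.df))) (.node (.node (.leaf (.fwd 7017 31 tpr198.df)) (.leaf (.bwd 7048 24 tpr743.df))) (.leaf (.fwd 7072 36 tpr75.df)))) (.node (.node (.node (.leaf (.fwd 7108 34 tpr495.df)) (.leaf (.bwd 7142 32 tpr17.df))) (.leaf (.fwd 7174 22 tpr982.df)))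 (.node (.node (.leaf (.bwd 7196 24 tpr293.df)) (.leaf (.fwd 7220 22 tpr590.df))) (.leaf (.bwd 7242 35 tpr512.df))))) (.node (.node (.node (.node (.leaf (.fwd 7277 37 tpr503.df)) (.leaf (.fwd 7314 27 tpr506.df))) (.leaf (.bwd 7341 35 tpr541.df))) (.node (.node (.leaf (.bwd 7376 29 tpr1669.df)) (.leaf (.fwd 7405 23 tpr1255.df))) (.leaf (.bwd 7428 33 tpr968.df)))) (.node (.node (.node (.leaf (.bwd 7461 37 tpr520.df)) (.leaf (.fwd 7498 24 tpr1681.df))) (.leaf (.bwd 7522 15 tpr419.df))) (.node (.leaf (.bwd 7537 22 tpr982.df)) (.leaf (.fwd 7559 29 tpr46.df)))))) (.node (.node (.node (.node (.node (.leaf (.bwd 7588 23 tpr1255.df)) (.leaf (.fwd 7611 28 tpr588.df))) (.leaf (.bwd 7639 32 tpr550.df))) (.node (.node (.leaf (.bwd 7671 54 tpr1193.df)) (.leaf (.fwd 7725 36 tpr23.df))) (.leaf (.fwd 7761 32 tpr620.df)))) (.node (.node (.node (.leaf (.fwd 7793 29 tpr1689.df)) (.leaf (.fwd 7822 29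 tpr582.df))) (.leaf (.bwd 7851 35 tpr568.df))) (.node (.leaf (.fwd 7886 37 tpr556.df)) (.leaf (.bwd 7923 36 tpr1644.df))))) (.node (.node (.node (.node (.leaf (.fwd 7959 47 tpr542.df)) (.leaf (.fwd 8006 28 tpr510.df))) (.leaf (.fwd 8034 24 tpr730.df))) (.node (.node (.leaf (.bwd 8058 32 tpr567.df)) (.leaf (.fwd 8090 40 tpr705.df))) (.leaf (.bwd 8130 33 tpr594.df)))) (.node (.node (.node (.leaf (.bwd 8163 42 tpr678.df)) (.leaf (.fwd 8205 44 tpr466.df))) (.leaf (.bwd 8249 41 tpr502.df))) (.node (.leaf (.fwd 8290 24 tpr697.df)) (.leaf (.bwd 8314 39 tpr514.df)))))))) (.node (.node (.node (.node (.node (.node (.node (.leaf (.bwd 8353 36 tpr23.df)) (.leaf (.fwd 8389 34 tpr691.df))) (.leaf (.bwd 8423 40 tpr660.df))) (.node (.node (.leaf (.fwd 8463 39 tpr685.df)) (.leaf (.fwd 8502 31 tpr576.df))) (.leaf (.bwd 8533 32 tpr591.df)))) (.node (.node (.node (.leaf (.bwd 8565 27 tpr562.df)) (.leaf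 (.fwd 8592 38 tpr1636.df))) (.leaf (.bwd 8630 35 tpr622.df))) (.node (.node (.leaf (.bwd 8665 36 tpr672.df)) (.leaf (.fwd 8701 35 tpr602.df))) (.leaf (.bwd 8736 41 tpr1637.df))))) (.node (.node (.node (.node (.leaf (.bwd 8777 34 tpr543.df)) (.leaf (.bwd 8811 36 tpr683.df))) (.leaf (.fwd 8847 31 tpr1642.df))) (.node (.node (.leaf (.bwd 8878 24 tpr1641.df)) (.leaf (.fwd 8902 39 tpr1653.df))) (.leaf (.bwd 8941 39 tpr1321.df)))) (.node (.node (.node (.leaf (.bwd 8980 24 tpr1681.df)) (.leaf (.bwd 9004 29 tpr2939.df))) (.leaf (.fwd 9033 35 tpr595.df))) (.node (.leaf (.fwd 9068 27 tpr524.df)) (.leaf (.fwd 9095 32 tpr294.df)))))) (.node (.node (.node (.node (.node (.leaf (.bwd 9127 38 tpr519.df)) (.leaf (.bwd 9165 37 tpr583.df))) (.leaf (.bwd 9202 22 tpr581.df))) (.node (.node (.leaf (.bwd 9224 22 tpr515.df)) (.leaf (.bwd 9246 22 tpr590.df))) (.leaf (.fwd 9268 42 tpr612.df)))) (.node (.node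 (.node (.leaf (.bwd 9310 27 tpr584.df)) (.leaf (.bwd 9337 44 tpr592.df))) (.leaf (.fwd 9381 46 tpr593.df))) (.node (.leaf (.fwd 9427 37 tpr520.df)) (.leaf (.fwd 9464 54 tpr1193.df))))) (.node (.node (.node (.node (.leaf (.bwd 9518 27 tpr1646.df)) (.leaf (.bwd 9545 27 tpr524.df))) (.leaf (.bwd 9572 29 tpr1006.df))) (.node (.node (.leaf (.fwd 9601 28 tpr627.df)) (.leaf (.fwd 9629 32 tpr247.df))) (.leaf (.fwd 9661 37 tpr1199.df)))) (.node (.node (.node (.leaf (.fwd 9698 36 tpr672.df)) (.leaf (.fwd 9734 43 tpr676.df))) (.leaf (.bwd 9777 28 tpr1650.df))) (.node (.leaf (.fwd 9805 37 tpr553.df)) (.leaf (.fwd 9842 43 tpr565.df))))))) (.node (.node (.node (.node (.node (.node (.leaf (.fwd 9885 48 tpr343.df)) (.leaf (.bwd 9933 36 tpr935.df))) (.leaf (.bwd 9969 49 tpr1665.df))) (.node (.node (.leaf (.fwd 10018 37 tpr1624.df)) (.leaf (.bwd 10055 29 tpr638.df))) (.leaf (.bwd 10084 30 tpr1058.df))))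 (.node (.node (.node (.leaf (.bwd 10114 34 tpr628.df)) (.leaf (.fwd 10148 30 tpr989.df))) (.leaf (.fwd 10178 39 tpr756.df))) (.node (.leaf (.fwd 10217 33 tpr1664.df)) (.leaf (.fwd 10250 40 tpr597.df))))) (.node (.node (.node (.node (.leaf (.fwd 10290 15 tpr525.df)) (.leaf (.bwd 10305 19 tpr33.df))) (.leaf (.fwd 10324 30 tpr1655.df))) (.node (.node (.leaf (.bwd 10354 31 tpr650.df)) (.leaf (.bwd 10385 21 tpr474.df))) (.leaf (.fwd 10406 33 tpr772.df)))) (.node (.node (.node (.leaf (.fwd 10439 33 tpr1622.df)) (.leaf (.bwd 10472 40 tpr1652.df))) (.leaf (.bwd 10512 60 tpr1661.df))) (.node (.leaf (.bwd 10572 36 tpr1659.df)) (.leaf (.fwd 10608 36 tpr1663.df)))))) (.node (.node (.node (.node (.node (.leaf (.fwd 10644 44 tpr1717.df)) (.leaf (.bwd 10688 35 tpr602.df))) (.leaf (.fwd 10723 41 tpr1637.df))) (.node (.node (.leaf (.bwd 10764 41 tpr552.df)) (.leaf (.bwd 10805 40 tpr62.df))) (.leaf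 (.bwd 10845 36 tpr1670.df)))) (.node (.node (.node (.leaf (.bwd 10881 38 tpr1636.df)) (.leaf (.fwd 10919 15 tpr906.df))) (.leaf (.fwd 10934 26 tpr599.df))) (.node (.leaf (.fwd 10960 28 tpr295.df)) (.leaf (.bwd 10988 45 tpr1649.df))))) (.node (.node (.node (.node (.leaf (.fwd 11033 40 tpr32.df)) (.leaf (.fwd 11073 32 tpr522.df))) (.leaf (.bwd 11105 29 tpr570.df))) (.node (.node (.leaf (.fwd 11134 24 tpr1675.df)) (.leaf (.fwd 11158 42 tpr733.df))) (.leaf (.bwd 11200 32 tpr1671.df)))) (.node (.node (.node (.leaf (.fwd 11232 24 tpr293.df)) (.leaf (.bwd 11256 23 tpr640.df))) (.leaf (.fwd 11279 38 tpr690.df))) (.node (.leaf (.fwd 11317 42 tpr1196.df)) (.leaf (.bwd 11359 32 tpr1924.df))))))))))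

theorem iiNFzE2A3H2AzAyB2H3A2EzF_c : iiNFzE2A3H2AzAyB2H3A2EzF.all (itB (ng 62 nnNFzE2A3H2AzAyB2H3A2EzF)) = true := by decide +kernel
theorem nbNFzE2A3H2AzAyB2H3A2EzF : nbB 62 11453 nnNFzE2A3H2AzAyB2H3A2EzF = true := by decide +kernel
theorem topNFzE2A3H2AzAyB2H3A2EzF : topY 11453 ttNFzE2A3H2AzAyB2H3A2EzF ceNFzE2A3H2AzAyB2H3A2EzF xNFzE2A3H2AzAyB2H3A2EzF iiNFzE2A3H2AzAyB2H3A2EzF = true := by decide +kernel

end MPb6R
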