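import Pool.Agent.Lib.MP_b6d339_lc.Cw3.YFzE2A3H2ByAzAyB2H3A2EzF
import Pool.Agent.Lib.MP_b6d339_lc.Cw3.XL
import Pool.Agent.Lib.MP_b6d339_lc.Cw3.T0
import Pool.Agent.Lib.MP_b6d339_lc.Cw3.T1
import Pool.Agent.Lib.MP_b6d339_lc.Cw3.T10
import Pool.Agent.Lib.MP_b6d339_lc.Cw3.T11
import Pool.Agent.Lib.MP_b6d339_lc.Cw3.T12
import Pool.Agent.Lib.MP_b6d339_lc.Cw3.T13
import Pool.Agent.Lib.MP_b6d339_lc.Cw3.T14
import Pool.Agent.Lib.MP_b6d339_lc.Cw3.T15
import Pool.Agent.Lib.MP_b6d339_lc.Cw3.T2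
import Pool.Agent.Lib.MP_b6d339_lc.Cw3.T20
import Pool.Agent.Lib.MP_b6d339_lc.Cw3.T21
import Pool.Agent.Lib.MP_b6d339_lc.Cw3.T3
import Pool.Agent.Lib.MP_b6d339_lc.Cw3.T4
import Pool.Agent.Lib.MP_b6d339_lc.Cw3.T5
import Pool.Agent.Lib.MP_b6d339_lc.Cw3.T6
import Pool.Agent.Lib.MP_b6d339_lc.Cw3.T7
import Pool.Agent.Lib.MP_b6d339_lc.Cw3.T8
import Pool.Agent.Lib.MP_b6d339_lc.Cw3.T9

/-!
# Erdős 592, three levels: items
-/

namespace MPb6R

open MPb6P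

noncomputable def iiNFzE2A3H2ByAzAyB2H3A2EzF : BT Itm := (.node (.node (.node (.node (.node (.node (.node (.node (.node (.leaf (.bwd 0 27 tpr82.df)) (.leaf (.fwd 27 13 tpr500.df))) (.node (.leaf (.fwd 40 27 tpr499.df)) (.leaf (.bwd 67 22 tpr504.df)))) (.node (.node (.leaf (.fwd 89 45 tpr740.df)) (.leaf (.fwd 134 23 tpr5.df))) (.node (.leaf (.fwd 157 21 tpr8.df)) (.leaf (.bwd 178 23 tpr508.df))))) (.node (.node (.node (.leaf (.fwd 201 37 tpr555.df)) (.leaf (.bwd 238 32 tpr518.df))) (.node (.leaf (.fwd 270 31 tpr607.df)) (.leaf (.bwd 301 22 tpr581.df)))) (.node (.node (.leaf (.fwd 323 20 tpr103.df)) (.leaf (.bwd 343 21 tpr8.df))) (.leaf (.bwd 364 29 tpr22.df))))) (.node (.node (.node (.node (.leaf (.fwd 393 27 tpr82.df)) (.leaf (.fwd 420 35 tpr568.df))) (.node (.leaf (.fwd 455 22 tpr515.df)) (.leaf (.bwd 477 30 tpr577.df)))) (.node (.node (.leaf (.bwd 507 33 tpr501.df)) (.leaf (.bwd 540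 31 tpr167.df))) (.leaf (.bwd 571 22 tpr239.df)))) (.node (.node (.node (.leaf (.fwd 593 32 tpr17.df)) (.leaf (.fwd 625 30 tpr613.df))) (.node (.leaf (.bwd 655 39 tpr78.df)) (.leaf (.fwd 694 31 tpr704.df)))) (.node (.node (.leaf (.fwd 725 17 tpr16.df)) (.leaf (.bwd 742 29 tpr545.df))) (.leaf (.bwd 771 39 tpr81.df)))))) (.node (.node (.node (.node (.node (.leaf (.bwd 810 56 tpr87.df)) (.leaf (.bwd 866 30 tpr513.df))) (.node (.leaf (.bwd 896 37 tpr555.df)) (.leaf (.bwd 933 31 tpr607.df)))) (.node (.node (.leaf (.fwd 964 41 tpr502.df)) (.leaf (.fwd 1005 34 tpr619.df))) (.node (.leaf (.bwd 1039 35 tpr13.df)) (.leaf (.fwd 1074 34 tpr614.df))))) (.node (.node (.node (.leaf (.bwd 1108 33 tpr968.df)) (.leaf (.bwd 1141 42 tpr612.df))) (.node (.leaf (.bwd 1183 28 tpr511.df)) (.leaf (.bwd 1211 35 tpr568.df)))) (.node (.node (.leaf (.bwd 1246 38 tpr519.df)) (.leaf (.bwd 1284 36 tpr683.df))) (.leaf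 (.bwd 1320 39 tpr701.df))))) (.node (.node (.node (.node (.leaf (.bwd 1359 26 tpr509.df)) (.leaf (.bwd 1385 28 tpr295.df))) (.node (.leaf (.fwd 1413 31 tpr198.df)) (.leaf (.fwd 1444 46 tpr324.df)))) (.node (.node (.leaf (.fwd 1490 27 tpr584.df)) (.leaf (.bwd 1517 25 tpr51.df))) (.leaf (.bwd 1542 24 tpr743.df)))) (.node (.node (.node (.leaf (.fwd 1566 34 tpr15.df)) (.leaf (.fwd 1600 40 tpr705.df))) (.node (.leaf (.bwd 1640 60 tpr630.df)) (.leaf (.fwd 1700 33 tpr968.df)))) (.node (.node (.leaf (.bwd 1733 43 tpr292.df)) (.leaf (.fwd 1776 30 tpr26.df))) (.leaf (.fwd 1806 36 tpr75.df))))))) (.node (.node (.node (.node (.node (.node (.leaf (.fwd 1842 28 tpr27.df)) (.leaf (.fwd 1870 61 tpr695.df))) (.node (.leaf (.fwd 1931 26 tpr516.df)) (.leaf (.fwd 1957 33 tpr869.df)))) (.node (.node (.leaf (.fwd 1990 35 tpr1200.df)) (.leaf (.fwd 2025 33 tpr501.df))) (.node (.leaf (.fwd 2058 45 tpr596.df))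 (.leaf (.fwd 2103 35 tpr574.df))))) (.node (.node (.node (.leaf (.bwd 2138 40 tpr705.df)) (.leaf (.bwd 2178 35 tpr1183.df))) (.node (.leaf (.bwd 2213 34 tpr54.df)) (.leaf (.bwd 2247 29 tpr638.df)))) (.node (.node (.leaf (.fwd 2276 37 tpr706.df)) (.leaf (.fwd 2313 23 tpr508.df))) (.leaf (.fwd 2336 44 tpr617.df))))) (.node (.node (.node (.node (.leaf (.fwd 2380 28 tpr511.df)) (.leaf (.fwd 2408 33 tpr680.df))) (.node (.leaf (.fwd 2441 38 tpr519.df)) (.leaf (.bwd 2479 28 tpr546.df)))) (.node (.node (.leaf (.fwd 2507 27 tpr625.df)) (.leaf (.fwd 2534 34 tpr548.df))) (.leaf (.bwd 2568 38 tpr203.df)))) (.node (.node (.node (.leaf (.bwd 2606 54 tpr1193.df)) (.leaf (.bwd 2660 32 tpr17.df))) (.node (.leaf (.bwd 2692 35 tpr585.df)) (.leaf (.fwd 2727 44 tpr466.df)))) (.node (.node (.leaf (.fwd 2771 36 tpr23.df)) (.leaf (.bwd 2807 43 tpr566.df))) (.leaf (.fwd 2850 29 tpr22.df)))))) (.node (.node (.node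 (.node (.node (.leaf (.fwd 2879 42 tpr612.df)) (.leaf (.fwd 2921 39 tpr615.df))) (.node (.leaf (.bwd 2960 41 tpr624.df)) (.leaf (.bwd 3001 41 tpr502.df)))) (.node (.node (.leaf (.fwd 3042 35 tpr622.df)) (.leaf (.fwd 3077 35 tpr58.df))) (.node (.leaf (.bwd 3112 30 tpr626.df)) (.leaf (.fwd 3142 37 tpr503.df))))) (.node (.node (.node (.leaf (.fwd 3179 31 tpr576.df)) (.leaf (.fwd 3210 55 tpr1189.df))) (.node (.leaf (.fwd 3265 23 tpr559.df)) (.leaf (.fwd 3288 37 tpr621.df)))) (.node (.node (.leaf (.fwd 3325 31 tpr339.df)) (.leaf (.bwd 3356 43 tpr122.df))) (.leaf (.fwd 3399 25 tpr74.df))))) (.node (.node (.node (.node (.leaf (.bwd 3424 35 tpr123.df)) (.leaf (.fwd 3459 42 tpr344.df))) (.node (.leaf (.bwd 3501 37 tpr406.df)) (.leaf (.fwd 3538 37 tpr720.df)))) (.node (.node (.leaf (.fwd 3575 38 tpr393.df)) (.leaf (.bwd 3613 28 tpr627.df))) (.leaf (.bwd 3641 44 tpr725.df)))) (.node (.node (.node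 (.leaf (.bwd 3685 43 tpr676.df)) (.leaf (.bwd 3728 46 tpr593.df))) (.node (.leaf (.fwd 3774 28 tpr967.df)) (.leaf (.bwd 3802 35 tpr1200.df)))) (.node (.node (.leaf (.bwd 3837 32 tpr294.df)) (.leaf (.bwd 3869 20 tpr505.df))) (.leaf (.fwd 3889 20 tpr505.df)))))))) (.node (.node (.node (.node (.node (.node (.node (.leaf (.fwd 3909 31 tpr527.df)) (.leaf (.fwd 3940 19 tpr616.df))) (.node (.leaf (.fwd 3959 34 tpr54.df)) (.leaf (.bwd 3993 23 tpr640.df)))) (.node (.node (.leaf (.fwd 4016 31 tpr712.df)) (.leaf (.bwd 4047 27 tpr625.df))) (.node (.leaf (.bwd 4074 29 tpr1184.df)) (.leaf (.bwd 4103 26 tpr516.df))))) (.node (.node (.node (.leaf (.bwd 4129 28 tpr588.df)) (.leaf (.bwd 4157 27 tpr499.df))) (.node (.leaf (.fwd 4184 29 tpr1098.df)) (.leaf (.bwd 4213 31 tpr527.df)))) (.node (.node (.leaf (.bwd 4244 44 tpr617.df)) (.leaf (.fwd 4288 41 tpr624.df))) (.leaf (.bwd 4329 34 tpr575.df))))) (.node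 (.node (.node (.node (.leaf (.fwd 4363 39 tpr569.df)) (.leaf (.bwd 4402 45 tpr596.df))) (.node (.leaf (.bwd 4447 43 tpr734.df)) (.leaf (.fwd 4490 37 tpr583.df)))) (.node (.node (.leaf (.bwd 4527 48 tpr77.df)) (.leaf (.bwd 4575 42 tpr1196.df))) (.leaf (.fwd 4617 32 tpr620.df)))) (.node (.node (.node (.leaf (.fwd 4649 43 tpr676.df)) (.leaf (.bwd 4692 44 tpr592.df))) (.node (.leaf (.fwd 4736 46 tpr593.df)) (.leaf (.fwd 4782 25 tpr106.df)))) (.node (.node (.leaf (.fwd 4807 28 tpr610.df)) (.leaf (.bwd 4835 33 tpr661.df))) (.leaf (.fwd 4868 34 tpr664.df)))))) (.node (.node (.node (.node (.node (.leaf (.fwd 4902 30 tpr626.df)) (.leaf (.bwd 4932 49 tpr960.df))) (.node (.leaf (.fwd 4981 29 tpr698.df)) (.leaf (.fwd 5010 37 tpr1190.df)))) (.node (.node (.leaf (.fwd 5047 25 tpr702.df)) (.leaf (.bwd 5072 39 tpr636.df))) (.node (.leaf (.bwd 5111 28 tpr610.df)) (.leaf (.bwd 5139 30 tpr1058.df)))))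 (.node (.node (.node (.leaf (.bwd 5169 29 tpr151.df)) (.leaf (.bwd 5198 40 tpr62.df))) (.node (.leaf (.fwd 5238 28 tpr627.df)) (.leaf (.fwd 5266 36 tpr672.df)))) (.node (.node (.leaf (.fwd 5302 29 tpr637.df)) (.leaf (.fwd 5331 32 tpr591.df))) (.leaf (.fwd 5363 40 tpr544.df))))) (.node (.node (.node (.node (.leaf (.bwd 5403 37 tpr583.df)) (.leaf (.bwd 5440 16 tpr804.df))) (.node (.leaf (.fwd 5456 29 tpr641.df)) (.leaf (.fwd 5485 22 tpr536.df)))) (.node (.node (.leaf (.bwd 5507 23 tpr605.df)) (.leaf (.bwd 5530 29 tpr641.df))) (.leaf (.bwd 5559 39 tpr615.df)))) (.node (.node (.node (.leaf (.fwd 5598 37 tpr523.df)) (.leaf (.fwd 5635 33 tpr521.df))) (.node (.leaf (.bwd 5668 40 tpr1002.df)) (.leaf (.bwd 5708 25 tpr106.df)))) (.node (.node (.leaf (.fwd 5733 38 tpr203.df)) (.leaf (.bwd 5771 29 tpr1192.df))) (.leaf (.fwd 5800 37 tpr520.df))))))) (.node (.node (.node (.node (.node (.node (.leaf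 (.fwd 5837 39 tpr636.df)) (.leaf (.bwd 5876 34 tpr614.df))) (.node (.leaf (.bwd 5910 34 tpr1195.df)) (.leaf (.fwd 5944 32 tpr294.df)))) (.node (.node (.leaf (.fwd 5976 39 tpr514.df)) (.leaf (.fwd 6015 23 tpr605.df))) (.node (.leaf (.bwd 6038 15 tpr419.df)) (.leaf (.bwd 6053 34 tpr628.df))))) (.node (.node (.node (.leaf (.fwd 6087 29 tpr151.df)) (.leaf (.fwd 6116 23 tpr640.df))) (.node (.leaf (.bwd 6139 35 tpr602.df)) (.leaf (.bwd 6174 33 tpr680.df)))) (.node (.node (.leaf (.fwd 6207 30 tpr577.df)) (.leaf (.bwd 6237 33 tpr631.df))) (.leaf (.bwd 6270 42 tpr678.df))))) (.node (.node (.node (.node (.leaf (.fwd 6312 33 tpr44.df)) (.leaf (.bwd 6345 40 tpr724.df))) (.node (.leaf (.bwd 6385 32 tpr1065.df)) (.leaf (.fwd 6417 33 tpr538.df)))) (.node (.node (.leaf (.bwd 6450 37 tpr503.df)) (.leaf (.bwd 6487 28 tpr967.df))) (.leaf (.fwd 6515 37 tpr1199.df)))) (.node (.node (.node (.leaf (.bwd 6552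 41 tpr552.df)) (.leaf (.bwd 6593 36 tpr634.df))) (.node (.leaf (.fwd 6629 34 tpr543.df)) (.leaf (.bwd 6663 36 tpr23.df)))) (.node (.node (.leaf (.bwd 6699 33 tpr521.df)) (.leaf (.bwd 6732 41 tpr715.df))) (.leaf (.bwd 6773 28 tpr510.df)))))) (.node (.node (.node (.node (.node (.leaf (.bwd 6801 26 tpr700.df)) (.leaf (.fwd 6827 43 tpr565.df))) (.node (.leaf (.bwd 6870 33 tpr1205.df)) (.leaf (.fwd 6903 37 tpr553.df)))) (.node (.node (.leaf (.fwd 6940 27 tpr1202.df)) (.leaf (.bwd 6967 30 tpr537.df))) (.leaf (.bwd 6997 41 tpr549.df)))) (.node (.node (.node (.leaf (.fwd 7038 40 tpr597.df)) (.leaf (.fwd 7078 35 tpr554.df))) (.node (.leaf (.bwd 7113 22 tpr590.df)) (.leaf (.bwd 7135 41 tpr1197.df)))) (.node (.node (.leaf (.bwd 7176 34 tpr1204.df)) (.leaf (.fwd 7210 55 tpr1201.df))) (.leaf (.fwd 7265 34 tpr643.df))))) (.node (.node (.node (.node (.leaf (.bwd 7299 37 tpr671.df)) (.leaf (.fwd 7336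 30 tpr235.df))) (.node (.leaf (.fwd 7366 31 tpr650.df)) (.leaf (.fwd 7397 34 tpr691.df)))) (.node (.node (.leaf (.bwd 7431 34 tpr543.df)) (.leaf (.fwd 7465 33 tpr594.df))) (.leaf (.bwd 7498 39 tpr569.df)))) (.node (.node (.node (.leaf (.fwd 7537 28 tpr546.df)) (.leaf (.bwd 7565 22 tpr536.df))) (.node (.leaf (.fwd 7587 38 tpr526.df)) (.leaf (.bwd 7625 31 tpr576.df)))) (.node (.node (.leaf (.bwd 7656 24 tpr293.df)) (.leaf (.fwd 7680 44 tpr592.df))) (.leaf (.bwd 7724 33 tpr1213.df))))))))) (.node (.node (.node (.node (.node (.node (.node (.node (.leaf (.bwd 7757 32 tpr620.df)) (.leaf (.fwd 7789 23 tpr12.df))) (.node (.leaf (.bwd 7812 26 tpr222.df)) (.leaf (.bwd 7838 13 tpr500.df)))) (.node (.node (.leaf (.fwd 7851 22 tpr504.df)) (.leaf (.bwd 7873 34 tpr619.df))) (.node (.leaf (.bwd 7907 24 tpr57.df)) (.leaf (.bwd 7931 25 tpr74.df))))) (.node (.node (.node (.leaf (.bwd 7956 34 tpr15.df))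 (.leaf (.bwd 7990 42 tpr344.df))) (.node (.leaf (.fwd 8032 30 tpr537.df)) (.leaf (.bwd 8062 31 tpr712.df)))) (.node (.node (.leaf (.bwd 8093 44 tpr466.df)) (.leaf (.fwd 8137 39 tpr78.df))) (.leaf (.bwd 8176 29 tpr654.df))))) (.node (.node (.node (.node (.leaf (.bwd 8205 30 tpr1227.df)) (.leaf (.fwd 8235 39 tpr81.df))) (.node (.leaf (.fwd 8274 26 tpr653.df)) (.leaf (.fwd 8300 54 tpr1193.df)))) (.node (.node (.leaf (.bwd 8354 37 tpr621.df)) (.leaf (.fwd 8391 60 tpr630.df))) (.leaf (.bwd 8451 39 tpr655.df)))) (.node (.node (.node (.leaf (.bwd 8490 37 tpr720.df)) (.leaf (.fwd 8527 37 tpr406.df))) (.node (.leaf (.fwd 8564 39 tpr655.df)) (.leaf (.fwd 8603 31 tpr1642.df)))) (.node (.node (.leaf (.bwd 8634 38 tpr393.df)) (.leaf (.fwd 8672 22 tpr118.df))) (.leaf (.fwd 8694 34 tpr1216.df)))))) (.node (.node (.node (.node (.node (.leaf (.fwd 8728 27 tpr1254.df)) (.leaf (.bwd 8755 27 tpr1254.df)))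 (.node (.leaf (.fwd 8782 36 tpr634.df)) (.leaf (.fwd 8818 24 tpr160.df)))) (.node (.node (.leaf (.fwd 8842 45 tpr1716.df)) (.leaf (.bwd 8887 37 tpr1190.df))) (.node (.leaf (.bwd 8924 27 tpr1718.df)) (.leaf (.fwd 8951 33 tpr1622.df))))) (.node (.node (.node (.leaf (.bwd 8984 46 tpr1249.df)) (.leaf (.fwd 9030 44 tpr1717.df))) (.node (.leaf (.bwd 9074 20 tpr103.df)) (.leaf (.fwd 9094 20 tpr216.df)))) (.node (.node (.leaf (.bwd 9114 24 tpr24.df)) (.leaf (.bwd 9138 30 tpr26.df))) (.leaf (.fwd 9168 35 tpr123.df))))) (.node (.node (.node (.node (.leaf (.fwd 9203 43 tpr122.df)) (.leaf (.fwd 9246 35 tpr13.df))) (.node (.leaf (.bwd 9281 29 tpr9.df)) (.leaf (.bwd 9310 35 tpr194.df)))) (.node (.node (.leaf (.bwd 9345 18 tpr648.df)) (.leaf (.bwd 9363 31 tpr339.df))) (.leaf (.fwd 9394 29 tpr539.df)))) (.node (.node (.node (.leaf (.bwd 9423 19 tpr33.df)) (.leaf (.fwd 9442 56 tpr87.df))) (.node (.leaf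 (.fwd 9498 21 tpr107.df)) (.leaf (.bwd 9519 26 tpr334.df)))) (.node (.node (.leaf (.bwd 9545 43 tpr1706.df)) (.leaf (.bwd 9588 24 tpr160.df))) (.leaf (.bwd 9612 25 tpr457.df))))))) (.node (.node (.node (.node (.node (.node (.leaf (.bwd 9637 31 tpr315.df)) (.leaf (.bwd 9668 21 tpr530.df))) (.node (.leaf (.fwd 9689 29 tpr545.df)) (.leaf (.fwd 9718 26 tpr509.df)))) (.node (.node (.leaf (.bwd 9744 17 tpr16.df)) (.leaf (.fwd 9761 43 tpr566.df))) (.node (.leaf (.bwd 9804 25 tpr702.df)) (.leaf (.bwd 9829 17 tpr1714.df))))) (.node (.node (.node (.leaf (.fwd 9846 26 tpr599.df)) (.leaf (.bwd 9872 39 tpr256.df))) (.node (.leaf (.fwd 9911 24 tpr743.df)) (.leaf (.fwd 9935 24 tpr57.df)))) (.node (.node (.leaf (.bwd 9959 20 tpr216.df)) (.leaf (.fwd 9979 19 tpr33.df))) (.leaf (.bwd 9998 21 tpr107.df))))) (.node (.node (.node (.node (.leaf (.bwd 10019 32 tpr591.df)) (.leaf (.bwd 10051 43 tpr565.df)))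 (.node (.leaf (.bwd 10094 37 tpr1199.df)) (.leaf (.fwd 10131 41 tpr549.df)))) (.node (.node (.leaf (.bwd 10172 49 tpr1647.df)) (.leaf (.fwd 10221 55 tpr314.df))) (.leaf (.fwd 10276 35 tpr602.df)))) (.node (.node (.node (.leaf (.bwd 10311 36 tpr672.df)) (.leaf (.fwd 10347 42 tpr1196.df))) (.node (.leaf (.fwd 10389 36 tpr1670.df)) (.leaf (.fwd 10425 38 tpr1636.df)))) (.node (.node (.leaf (.bwd 10463 41 tpr1637.df)) (.leaf (.bwd 10504 38 tpr526.df))) (.leaf (.bwd 10542 26 tpr653.df)))))) (.node (.node (.node (.node (.node (.leaf (.bwd 10568 15 tpr525.df)) (.leaf (.fwd 10583 31 tpr315.df))) (.node (.leaf (.fwd 10614 25 tpr457.df)) (.leaf (.fwd 10639 29 tpr9.df)))) (.node (.node (.leaf (.fwd 10668 33 tpr1709.df)) (.leaf (.bwd 10701 22 tpr959.df))) (.node (.leaf (.bwd 10723 30 tpr603.df)) (.leaf (.fwd 10753 30 tpr1227.df))))) (.node (.node (.node (.leaf (.bwd 10783 43 tpr532.df)) (.leaf (.fwd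 10826 34 tpr628.df))) (.node (.leaf (.bwd 10860 28 tpr1715.df)) (.leaf (.fwd 10888 29 tpr654.df)))) (.node (.node (.leaf (.fwd 10917 35 tpr194.df)) (.leaf (.bwd 10952 22 tpr118.df))) (.leaf (.bwd 10974 29 tpr539.df))))) (.node (.node (.node (.node (.leaf (.bwd 11003 31 tpr1642.df)) (.leaf (.fwd 11034 43 tpr532.df))) (.node (.leaf (.fwd 11077 46 tpr1249.df)) (.leaf (.bwd 11123 33 tpr1622.df)))) (.node (.node (.leaf (.bwd 11156 44 tpr1717.df)) (.leaf (.fwd 11200 17 tpr1714.df))) (.leaf (.bwd 11217 25 tpr325.df)))) (.node (.node (.node (.leaf (.fwd 11242 40 tpr1652.df)) (.leaf (.fwd 11282 30 tpr603.df))) (.node (.leaf (.fwd 11312 27 tpr1646.df)) (.leaf (.bwd 11339 33 tpr663.df)))) (.node (.node (.leaf (.bwd 11372 29 tpr637.df)) (.leaf (.bwd 11401 30 tpr613.df))) (.leaf (.fwd 11431 41 tpr552.df)))))))) (.node (.node (.node (.node (.node (.node (.node (.leaf (.fwd 11472 33 tpr661.df)) (.leaf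 (.bwd 11505 37 tpr553.df))) (.node (.leaf (.fwd 11542 34 tpr1710.df)) (.leaf (.fwd 11576 37 tpr671.df)))) (.node (.node (.leaf (.bwd 11613 35 tpr622.df)) (.leaf (.fwd 11648 41 tpr715.df))) (.node (.leaf (.bwd 11689 34 tpr643.df)) (.leaf (.fwd 11723 28 tpr1650.df))))) (.node (.node (.node (.leaf (.bwd 11751 45 tpr1716.df)) (.leaf (.fwd 11796 32 tpr1065.df))) (.node (.leaf (.bwd 11828 41 tpr1239.df)) (.leaf (.fwd 11869 28 tpr1715.df)))) (.node (.node (.leaf (.bwd 11897 55 tpr1712.df)) (.leaf (.bwd 11952 32 tpr522.df))) (.leaf (.fwd 11984 33 tpr1213.df))))) (.node (.node (.node (.node (.leaf (.fwd 12017 39 tpr256.df)) (.leaf (.bwd 12056 38 tpr690.df))) (.node (.leaf (.fwd 12094 27 tpr1718.df)) (.leaf (.bwd 12121 33 tpr646.df)))) (.node (.node (.leaf (.fwd 12154 28 tpr510.df)) (.leaf (.bwd 12182 23 tpr559.df))) (.leaf (.bwd 12205 39 tpr514.df)))) (.node (.node (.node (.leaf (.bwd 12244 22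 tpr515.df)) (.leaf (.fwd 12266 30 tpr513.df))) (.node (.leaf (.fwd 12296 28 tpr588.df)) (.leaf (.fwd 12324 36 tpr683.df)))) (.node (.node (.leaf (.fwd 12360 49 tpr1647.df)) (.leaf (.fwd 12409 33 tpr631.df))) (.leaf (.bwd 12442 30 tpr1711.df)))))) (.node (.node (.node (.node (.node (.leaf (.bwd 12472 61 tpr695.df)) (.leaf (.fwd 12533 34 tpr987.df))) (.node (.leaf (.fwd 12567 41 tpr1648.df)) (.leaf (.bwd 12608 28 tpr1650.df)))) (.node (.node (.leaf (.bwd 12636 38 tpr1720.df)) (.leaf (.fwd 12674 30 tpr1711.df))) (.node (.leaf (.fwd 12704 22 tpr959.df)) (.leaf (.bwd 12726 34 tpr1216.df))))) (.node (.node (.node (.leaf (.fwd 12760 22 tpr982.df)) (.leaf (.fwd 12782 25 tpr1257.df))) (.node (.leaf (.fwd 12807 34 tpr575.df)) (.leaf (.bwd 12841 25 tpr1257.df)))) (.node (.node (.leaf (.bwd 12866 35 tpr1640.df)) (.leaf (.fwd 12901 35 tpr1640.df))) (.leaf (.bwd 12936 35 tpr595.df))))) (.node (.node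 (.node (.node (.leaf (.fwd 12971 28 tpr1722.df)) (.leaf (.bwd 12999 33 tpr1709.df))) (.node (.leaf (.bwd 13032 31 tpr650.df)) (.leaf (.fwd 13063 25 tpr325.df)))) (.node (.node (.leaf (.fwd 13088 55 tpr1712.df)) (.leaf (.fwd 13143 33 tpr646.df))) (.leaf (.bwd 13176 40 tpr1652.df)))) (.node (.node (.node (.leaf (.fwd 13216 15 tpr525.df)) (.leaf (.fwd 13231 41 tpr1637.df))) (.node (.leaf (.bwd 13272 36 tpr1670.df)) (.leaf (.bwd 13308 38 tpr1636.df)))) (.node (.node (.leaf (.fwd 13346 43 tpr1706.df)) (.leaf (.fwd 13389 38 tpr690.df))) (.leaf (.bwd 13427 34 tpr1710.df))))))) (.node (.node (.node (.node (.node (.node (.leaf (.fwd 13461 38 tpr1720.df)) (.leaf (.fwd 13499 41 tpr1239.df))) (.node (.leaf (.fwd 13540 36 tpr1724.df)) (.leaf (.fwd 13576 34 tpr1721.df)))) (.node (.node (.leaf (.fwd 13610 35 tpr595.df)) (.leaf (.fwd 13645 26 tpr1725.df))) (.node (.leaf (.fwd 13671 24 tpr24.df)) (.leaf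 (.bwd 13695 33 tpr44.df))))) (.node (.node (.node (.leaf (.fwd 13728 47 tpr1188.df)) (.leaf (.bwd 13775 46 tpr1186.df))) (.node (.leaf (.fwd 13821 28 tpr295.df)) (.leaf (.fwd 13849 31 tpr1210.df)))) (.node (.node (.leaf (.bwd 13880 32 tpr742.df)) (.leaf (.fwd 13912 32 tpr287.df))) (.leaf (.fwd 13944 42 tpr587.df))))) (.node (.node (.node (.node (.leaf (.fwd 13986 33 tpr1215.df)) (.leaf (.fwd 14019 31 tpr1212.df))) (.node (.leaf (.fwd 14050 17 tpr1209.df)) (.leaf (.fwd 14067 27 tpr1211.df)))) (.node (.node (.leaf (.fwd 14094 37 tpr687.df)) (.leaf (.bwd 14131 53 tpr1207.df))) (.leaf (.fwd 14184 32 tpr674.df)))) (.node (.node (.node (.leaf (.fwd 14216 32 tpr742.df)) (.leaf (.bwd 14248 45 tpr740.df))) (.node (.leaf (.bwd 14293 32 tpr247.df)) (.leaf (.bwd 14325 41 tpr1182.df)))) (.node (.node (.leaf (.bwd 14366 38 tpr265.df)) (.leaf (.bwd 14404 27 tpr1214.df))) (.leaf (.fwd 14431 41 tpr1185.df))))))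 (.node (.node (.node (.node (.node (.leaf (.bwd 14472 27 tpr506.df)) (.leaf (.fwd 14499 26 tpr245.df))) (.node (.leaf (.bwd 14525 34 tpr1206.df)) (.leaf (.bwd 14559 26 tpr675.df)))) (.node (.node (.leaf (.bwd 14585 37 tpr556.df)) (.leaf (.bwd 14622 30 tpr727.df))) (.leaf (.bwd 14652 36 tpr1194.df)))) (.node (.node (.node (.leaf (.bwd 14688 32 tpr1221.df)) (.leaf (.fwd 14720 36 tpr662.df))) (.node (.leaf (.bwd 14756 33 tpr1099.df)) (.leaf (.bwd 14789 32 tpr287.df)))) (.node (.node (.leaf (.fwd 14821 27 tpr1203.df)) (.leaf (.bwd 14848 27 tpr584.df))) (.leaf (.bwd 14875 37 tpr1208.df))))) (.node (.node (.node (.node (.leaf (.bwd 14912 32 tpr669.df)) (.leaf (.fwd 14944 35 tpr703.df))) (.node (.leaf (.bwd 14979 38 tpr1187.df)) (.leaf (.fwd 15017 37 tpr688.df)))) (.node (.node (.leaf (.fwd 15054 39 tpr642.df)) (.leaf (.fwd 15093 24 tpr609.df))) (.leaf (.bwd 15117 27 tpr236.df)))) (.node (.node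 (.node (.leaf (.bwd 15144 27 tpr589.df)) (.leaf (.bwd 15171 27 tpr682.df))) (.node (.leaf (.fwd 15198 36 tpr686.df)) (.leaf (.bwd 15234 36 tpr547.df)))) (.node (.node (.leaf (.bwd 15270 29 tpr579.df)) (.leaf (.fwd 15299 54 tpr1090.df))) (.leaf (.bwd 15353 39 tpr1001.df))))))))))

theorem iiNFzE2A3H2ByAzAyB2H3A2EzF_c : iiNFzE2A3H2ByAzAyB2H3A2EzF.all (itB (ng 61 nnNFzE2A3H2ByAzAyB2H3A2EzF)) = true := by decide +kernel
theorem nbNFzE2A3H2ByAzAyB2H3A2EzF : nbB 61 15453 nnNFzE2A3H2ByAzAyB2H3A2EzF = true := by decide +kernel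
theorem topNFzE2A3H2ByAzAyB2H3A2EzF : topY 15453 ttNFzE2A3H2ByAzAyB2H3A2EzF ceNFzE2A3H2ByAzAyB2H3A2EzF xNFzE2A3H2ByAzAyB2H3A2EzF iiNFzE2A3H2ByAzAyB2H3A2EzF = true := by decide +kernel

end MPb6R
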