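import Pool.Agent.Lib.MP_b6d339_lc.Cw3.YFzE2A3H3A2EzF
import Pool.Agent.Lib.MP_b6d339_lc.Cw3.XL
import Pool.Agent.Lib.MP_b6d339_lc.Cw3.T0
import Pool.Agent.Lib.MP_b6d339_lc.Cw3.T1
import Pool.Agent.Lib.MP_b6d339_lc.Cw3.T10
import Pool.Agent.Lib.MP_b6d339_lc.Cw3.T11
import Pool.Agent.Lib.MP_b6d339_lc.Cw3.T12
import Pool.Agent.Lib.MP_b6d339_lc.Cw3.T13
import Pool.Agent.Lib.MP_b6d339_lc.Cw3.T14
import Pool.Agent.Lib.MP_b6d339_lc.Cw3.T15
import Pool.Agent.Lib.MP_b6d339_lc.Cw3.T16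
import Pool.Agent.Lib.MP_b6d339_lc.Cw3.T18
import Pool.Agent.Lib.MP_b6d339_lc.Cw3.T19
import Pool.Agent.Lib.MP_b6d339_lc.Cw3.T2
import Pool.Agent.Lib.MP_b6d339_lc.Cw3.T20
import Pool.Agent.Lib.MP_b6d339_lc.Cw3.T21
import Pool.Agent.Lib.MP_b6d339_lc.Cw3.T22
import Pool.Agent.Lib.MP_b6d339_lc.Cw3.T23
import Pool.Agent.Lib.MP_b6d339_lc.Cw3.T24
import Pool.Agent.Lib.MP_b6d339_lc.Cw3.T26
import Pool.Agent.Lib.MP_b6d339_lc.Cw3.T3
import Pool.Agent.Lib.MP_b6d339_lc.Cw3.T30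
import Pool.Agent.Lib.MP_b6d339_lc.Cw3.T33
import Pool.Agent.Lib.MP_b6d339_lc.Cw3.T36
import Pool.Agent.Lib.MP_b6d339_lc.Cw3.T37
import Pool.Agent.Lib.MP_b6d339_lc.Cw3.T4
import Pool.Agent.Lib.MP_b6d339_lc.Cw3.T5
import Pool.Agent.Lib.MP_b6d339_lc.Cw3.T6
import Pool.Agent.Lib.MP_b6d339_lc.Cw3.T7
import Pool.Agent.Lib.MP_b6d339_lc.Cw3.T8
import Pool.Agent.Lib.MP_b6d339_lc.Cw3.T9

/-!
# Erdős 592, three levels: items
-/

namespace MPb6R

open MPb6P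

noncomputable def iiNFzE2A3H3A2EzF : BT Itm := (.node (.node (.node (.node (.node (.node (.node (.node (.node (.node (.leaf (.fwd 0 23 tpr5.df)) (.leaf (.bwd 23 27 tpr499.df))) (.leaf (.fwd 50 31 tpr975.df))) (.node (.leaf (.bwd 81 20 tpr48.df)) (.leaf (.fwd 101 34 tpr15.df)))) (.node (.node (.node (.leaf (.bwd 135 23 tpr508.df)) (.leaf (.fwd 158 31 tpr198.df))) (.leaf (.bwd 189 28 tpr511.df))) (.node (.leaf (.bwd 217 38 tpr519.df)) (.leaf (.fwd 255 46 tpr324.df))))) (.node (.node (.node (.node (.leaf (.bwd 301 26 tpr509.df)) (.leaf (.fwd 327 20 tpr216.df))) (.leaf (.fwd 347 27 tpr499.df))) (.node (.leaf (.bwd 374 28 tpr507.df)) (.leaf (.bwd 402 32 tpr518.df)))) (.node (.node (.leaf (.bwd 434 22 tpr581.df)) (.leaf (.fwd 456 25 tpr10.df))) (.node (.leaf (.bwd 481 38 tpr1542.df)) (.leaf (.bwd 519 24 tpr24.df)))))) (.node (.node (.node (.node (.node (.leaf (.fwd 543 13 tpr500.df)) (.leaf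 (.bwd 556 31 tpr607.df))) (.leaf (.bwd 587 22 tpr504.df))) (.node (.leaf (.bwd 609 30 tpr513.df)) (.leaf (.fwd 639 27 tpr82.df)))) (.node (.node (.leaf (.fwd 666 15 tpr419.df)) (.leaf (.fwd 681 37 tpr583.df))) (.node (.leaf (.fwd 718 24 tpr1611.df)) (.leaf (.bwd 742 24 tpr789.df))))) (.node (.node (.node (.node (.leaf (.fwd 766 20 tpr103.df)) (.leaf (.fwd 786 22 tpr191.df))) (.leaf (.bwd 808 20 tpr63.df))) (.node (.leaf (.fwd 828 23 tpr559.df)) (.leaf (.fwd 851 28 tpr295.df)))) (.node (.node (.leaf (.fwd 879 29 tpr9.df)) (.leaf (.bwd 908 37 tpr583.df))) (.node (.leaf (.bwd 945 22 tpr818.df)) (.leaf (.bwd 967 27 tpr240.df))))))) (.node (.node (.node (.node (.node (.node (.leaf (.bwd 994 31 tpr167.df)) (.leaf (.fwd 1025 15 tpr525.df))) (.leaf (.bwd 1040 27 tpr524.df))) (.node (.leaf (.fwd 1067 34 tpr54.df)) (.leaf (.bwd 1101 35 tpr13.df)))) (.node (.node (.leaf (.fwd 1136 29 tpr22.df)) (.leaf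 (.fwd 1165 37 tpr503.df))) (.node (.leaf (.bwd 1202 27 tpr82.df)) (.leaf (.bwd 1229 25 tpr51.df))))) (.node (.node (.node (.node (.leaf (.fwd 1254 31 tpr576.df)) (.leaf (.fwd 1285 30 tpr26.df))) (.leaf (.fwd 1315 30 tpr1572.df))) (.node (.leaf (.bwd 1345 25 tpr677.df)) (.leaf (.fwd 1370 17 tpr16.df)))) (.node (.node (.leaf (.fwd 1387 24 tpr2101.df)) (.leaf (.fwd 1411 40 tpr966.df))) (.node (.leaf (.fwd 1451 36 tpr1724.df)) (.leaf (.bwd 1487 22 tpr2424.df)))))) (.node (.node (.node (.node (.node (.leaf (.bwd 1509 37 tpr1199.df)) (.leaf (.bwd 1546 32 tpr17.df))) (.leaf (.fwd 1578 33 tpr501.df))) (.node (.leaf (.bwd 1611 38 tpr203.df)) (.leaf (.bwd 1649 29 tpr723.df)))) (.node (.node (.leaf (.fwd 1678 39 tpr569.df)) (.leaf (.fwd 1717 29 tpr46.df))) (.node (.leaf (.bwd 1746 34 tpr575.df)) (.leaf (.fwd 1780 24 tpr789.df))))) (.node (.node (.node (.node (.leaf (.fwd 1804 25 tpr1257.df)) (.leaf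 (.fwd 1829 32 tpr567.df))) (.leaf (.fwd 1861 37 tpr523.df))) (.node (.leaf (.fwd 1898 44 tpr466.df)) (.leaf (.fwd 1942 33 tpr521.df)))) (.node (.node (.leaf (.fwd 1975 22 tpr590.df)) (.leaf (.bwd 1997 39 tpr735.df))) (.node (.leaf (.bwd 2036 46 tpr324.df)) (.leaf (.fwd 2082 36 tpr23.df)))))))) (.node (.node (.node (.node (.node (.node (.node (.leaf (.bwd 2118 43 tpr566.df)) (.leaf (.bwd 2161 21 tpr8.df))) (.leaf (.bwd 2182 41 tpr502.df))) (.node (.leaf (.bwd 2223 28 tpr588.df)) (.leaf (.fwd 2251 22 tpr515.df)))) (.node (.node (.node (.leaf (.bwd 2273 29 tpr9.df)) (.leaf (.bwd 2302 34 tpr15.df))) (.leaf (.fwd 2336 21 tpr25.df))) (.node (.leaf (.fwd 2357 20 tpr1355.df)) (.leaf (.fwd 2377 27 tpr2948.df))))) (.node (.node (.node (.node (.leaf (.fwd 2404 33 tpr44.df)) (.leaf (.bwd 2437 36 tpr1724.df))) (.leaf (.bwd 2473 35 tpr1605.df))) (.node (.leaf (.fwd 2508 30 tpr320.df)) (.leaf (.fwd 2538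 43 tpr2665.df)))) (.node (.node (.leaf (.fwd 2581 43 tpr734.df)) (.leaf (.bwd 2624 34 tpr1253.df))) (.node (.leaf (.fwd 2658 32 tpr1248.df)) (.leaf (.fwd 2690 35 tpr574.df)))))) (.node (.node (.node (.node (.node (.leaf (.fwd 2725 30 tpr1547.df)) (.leaf (.bwd 2755 35 tpr585.df))) (.leaf (.fwd 2790 33 tpr968.df))) (.node (.leaf (.bwd 2823 40 tpr705.df)) (.leaf (.fwd 2863 34 tpr1934.df)))) (.node (.node (.leaf (.fwd 2897 34 tpr691.df)) (.leaf (.fwd 2931 38 tpr526.df))) (.node (.leaf (.fwd 2969 35 tpr58.df)) (.leaf (.fwd 3004 22 tpr959.df))))) (.node (.node (.node (.node (.leaf (.fwd 3026 32 tpr294.df)) (.leaf (.bwd 3058 29 tpr2949.df))) (.leaf (.bwd 3087 47 tpr542.df))) (.node (.leaf (.fwd 3134 23 tpr1255.df)) (.leaf (.bwd 3157 24 tpr743.df)))) (.node (.node (.leaf (.bwd 3181 30 tpr626.df)) (.leaf (.bwd 3211 28 tpr546.df))) (.node (.leaf (.fwd 3239 34 tpr543.df)) (.leaf (.fwd 3273 25 tpr2950.df)))))))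 (.node (.node (.node (.node (.node (.node (.leaf (.fwd 3298 40 tpr2951.df)) (.leaf (.bwd 3338 29 tpr545.df))) (.leaf (.bwd 3367 20 tpr505.df))) (.node (.leaf (.bwd 3387 44 tpr2952.df)) (.leaf (.fwd 3431 35 tpr512.df)))) (.node (.node (.leaf (.fwd 3466 35 tpr585.df)) (.leaf (.fwd 3501 30 tpr626.df))) (.node (.leaf (.fwd 3531 42 tpr344.df)) (.leaf (.fwd 3573 20 tpr1549.df))))) (.node (.node (.node (.node (.leaf (.fwd 3593 33 tpr1256.df)) (.leaf (.fwd 3626 30 tpr2941.df))) (.leaf (.bwd 3656 37 tpr1570.df))) (.node (.leaf (.bwd 3693 32 tpr294.df)) (.leaf (.bwd 3725 27 tpr979.df)))) (.node (.node (.leaf (.fwd 3752 38 tpr238.df)) (.leaf (.fwd 3790 37 tpr520.df))) (.node (.leaf (.fwd 3827 24 tpr293.df)) (.leaf (.fwd 3851 38 tpr265.df)))))) (.node (.node (.node (.node (.node (.leaf (.bwd 3889 26 tpr516.df)) (.leaf (.bwd 3915 25 tpr204.df))) (.leaf (.fwd 3940 21 tpr107.df))) (.node (.leaf (.bwd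 3961 18 tpr18.df)) (.leaf (.bwd 3979 47 tpr2953.df)))) (.node (.node (.leaf (.bwd 4026 44 tpr1953.df)) (.leaf (.fwd 4070 61 tpr695.df))) (.node (.leaf (.bwd 4131 28 tpr510.df)) (.leaf (.bwd 4159 26 tpr700.df))))) (.node (.node (.node (.node (.leaf (.bwd 4185 43 tpr292.df)) (.leaf (.bwd 4228 24 tpr2954.df))) (.leaf (.bwd 4252 33 tpr501.df))) (.node (.leaf (.bwd 4285 37 tpr503.df)) (.leaf (.bwd 4322 44 tpr592.df)))) (.node (.node (.leaf (.fwd 4366 46 tpr593.df)) (.leaf (.fwd 4412 35 tpr13.df))) (.node (.leaf (.bwd 4447 48 tpr77.df)) (.leaf (.fwd 4495 29 tpr1457.df))))))))) (.node (.node (.node (.node (.node (.node (.node (.node (.leaf (.bwd 4524 22 tpr20.df)) (.leaf (.fwd 4546 28 tpr507.df))) (.leaf (.fwd 4574 38 tpr519.df))) (.node (.leaf (.bwd 4612 13 tpr500.df)) (.leaf (.fwd 4625 20 tpr48.df)))) (.node (.node (.node (.leaf (.fwd 4645 31 tpr167.df)) (.leaf (.bwd 4676 15 tpr525.df))) (.leaf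 (.fwd 4691 24 tpr57.df))) (.node (.leaf (.bwd 4715 40 tpr62.df)) (.leaf (.fwd 4755 56 tpr87.df))))) (.node (.node (.node (.node (.leaf (.fwd 4811 22 tpr504.df)) (.leaf (.bwd 4833 20 tpr103.df))) (.leaf (.fwd 4853 20 tpr505.df))) (.node (.leaf (.bwd 4873 17 tpr16.df)) (.leaf (.fwd 4890 26 tpr509.df)))) (.node (.node (.leaf (.fwd 4916 42 tpr124.df)) (.leaf (.fwd 4958 39 tpr81.df))) (.node (.leaf (.bwd 4997 30 tpr26.df)) (.leaf (.fwd 5027 29 tpr539.df)))))) (.node (.node (.node (.node (.node (.leaf (.bwd 5056 28 tpr241.df)) (.leaf (.bwd 5084 56 tpr87.df))) (.leaf (.bwd 5140 39 tpr78.df))) (.node (.leaf (.bwd 5179 39 tpr81.df)) (.leaf (.fwd 5218 28 tpr511.df)))) (.node (.node (.leaf (.bwd 5246 42 tpr124.df)) (.leaf (.bwd 5288 33 tpr521.df))) (.node (.leaf (.bwd 5321 29 tpr539.df)) (.leaf (.fwd 5350 28 tpr510.df))))) (.node (.node (.node (.node (.leaf (.bwd 5378 22 tpr191.df)) (.leaf (.fwd 5400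 27 tpr524.df))) (.leaf (.bwd 5427 33 tpr594.df))) (.node (.leaf (.bwd 5460 43 tpr532.df)) (.leaf (.fwd 5503 30 tpr513.df)))) (.node (.node (.leaf (.bwd 5533 32 tpr567.df)) (.leaf (.fwd 5565 34 tpr575.df))) (.node (.leaf (.bwd 5599 22 tpr515.df)) (.leaf (.fwd 5621 41 tpr502.df))))))) (.node (.node (.node (.node (.node (.node (.leaf (.bwd 5662 35 tpr512.df)) (.leaf (.bwd 5697 40 tpr544.df))) (.leaf (.fwd 5737 47 tpr542.df))) (.node (.leaf (.fwd 5784 26 tpr599.df)) (.leaf (.bwd 5810 28 tpr295.df)))) (.node (.node (.leaf (.fwd 5838 22 tpr581.df)) (.leaf (.fwd 5860 27 tpr584.df))) (.node (.leaf (.bwd 5887 35 tpr534.df)) (.leaf (.fwd 5922 40 tpr544.df))))) (.node (.node (.node (.node (.leaf (.bwd 5962 31 tpr198.df)) (.leaf (.bwd 5993 37 tpr520.df))) (.leaf (.bwd 6030 30 tpr537.df))) (.node (.leaf (.bwd 6060 41 tpr549.df)) (.leaf (.bwd 6101 23 tpr559.df)))) (.node (.node (.leaf (.fwd 6124 38 tpr203.df))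 (.leaf (.bwd 6162 37 tpr523.df))) (.node (.leaf (.bwd 6199 34 tpr543.df)) (.leaf (.bwd 6233 29 tpr151.df)))))) (.node (.node (.node (.node (.node (.leaf (.fwd 6262 28 tpr580.df)) (.leaf (.fwd 6290 42 tpr587.df))) (.leaf (.bwd 6332 27 tpr584.df))) (.node (.leaf (.bwd 6359 24 tpr293.df)) (.leaf (.fwd 6383 39 tpr514.df)))) (.node (.node (.leaf (.fwd 6422 29 tpr151.df)) (.leaf (.fwd 6451 30 tpr537.df))) (.node (.leaf (.fwd 6481 37 tpr571.df)) (.leaf (.bwd 6518 39 tpr514.df))))) (.node (.node (.node (.node (.leaf (.fwd 6557 32 tpr522.df)) (.leaf (.bwd 6589 34 tpr54.df))) (.leaf (.fwd 6623 32 tpr591.df))) (.node (.leaf (.bwd 6655 31 tpr576.df)) (.leaf (.bwd 6686 42 tpr587.df)))) (.node (.node (.leaf (.fwd 6728 35 tpr595.df)) (.leaf (.fwd 6763 28 tpr588.df))) (.node (.leaf (.bwd 6791 43 tpr565.df)) (.leaf (.bwd 6834 35 tpr602.df)))))))) (.node (.node (.node (.node (.node (.node (.node (.leaf (.bwd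 6869 30 tpr603.df)) (.leaf (.fwd 6899 23 tpr508.df))) (.leaf (.fwd 6922 22 tpr1870.df))) (.node (.leaf (.fwd 6944 29 tpr1914.df)) (.leaf (.fwd 6973 25 tpr74.df)))) (.node (.node (.node (.leaf (.bwd 6998 25 tpr74.df)) (.leaf (.bwd 7023 40 tpr1863.df))) (.leaf (.fwd 7063 28 tpr546.df))) (.node (.leaf (.fwd 7091 26 tpr1889.df)) (.leaf (.bwd 7117 31 tpr315.df))))) (.node (.node (.node (.node (.leaf (.fwd 7148 41 tpr549.df)) (.leaf (.bwd 7189 30 tpr1655.df))) (.leaf (.fwd 7219 15 tpr906.df))) (.node (.leaf (.fwd 7234 30 tpr1655.df)) (.leaf (.fwd 7264 26 tpr1917.df)))) (.node (.node (.leaf (.fwd 7290 34 tpr1865.df)) (.leaf (.bwd 7324 32 tpr1924.df))) (.node (.leaf (.fwd 7356 25 tpr702.df)) (.leaf (.bwd 7381 25 tpr702.df)))))) (.node (.node (.node (.node (.node (.leaf (.bwd 7406 44 tpr466.df)) (.leaf (.bwd 7450 42 tpr344.df))) (.leaf (.bwd 7492 35 tpr1867.df))) (.node (.leaf (.fwd 7527 35 tpr123.df))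 (.leaf (.fwd 7562 35 tpr1867.df)))) (.node (.node (.leaf (.bwd 7597 21 tpr107.df)) (.leaf (.fwd 7618 43 tpr565.df))) (.node (.leaf (.bwd 7661 38 tpr1869.df)) (.leaf (.fwd 7699 37 tpr720.df))))) (.node (.node (.node (.node (.leaf (.bwd 7736 39 tpr1909.df)) (.leaf (.fwd 7775 43 tpr122.df))) (.leaf (.bwd 7818 60 tpr630.df))) (.node (.leaf (.bwd 7878 25 tpr1908.df)) (.leaf (.bwd 7903 37 tpr621.df)))) (.node (.node (.leaf (.fwd 7940 38 tpr1869.df)) (.leaf (.fwd 7978 39 tpr1909.df))) (.node (.leaf (.bwd 8017 37 tpr720.df)) (.leaf (.fwd 8054 45 tpr1887.df))))))) (.node (.node (.node (.node (.node (.node (.leaf (.bwd 8099 45 tpr1887.df)) (.leaf (.bwd 8144 46 tpr1864.df))) (.leaf (.bwd 8190 60 tpr1862.df))) (.node (.leaf (.bwd 8250 35 tpr1925.df)) (.leaf (.fwd 8285 34 tpr1944.df)))) (.node (.node (.leaf (.fwd 8319 46 tpr1864.df)) (.leaf (.fwd 8365 60 tpr1862.df))) (.node (.leaf (.bwd 8425 61 tpr695.df))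 (.leaf (.fwd 8486 26 tpr1882.df))))) (.node (.node (.node (.node (.leaf (.fwd 8512 30 tpr1897.df)) (.leaf (.fwd 8542 60 tpr630.df))) (.leaf (.bwd 8602 28 tpr1715.df))) (.node (.leaf (.fwd 8630 40 tpr1652.df)) (.leaf (.fwd 8670 41 tpr1923.df)))) (.node (.node (.leaf (.bwd 8711 38 tpr265.df)) (.leaf (.bwd 8749 36 tpr1933.df))) (.node (.leaf (.fwd 8785 57 tpr767.df)) (.leaf (.fwd 8842 30 tpr1886.df)))))) (.node (.node (.node (.node (.node (.leaf (.fwd 8872 22 tpr1878.df)) (.leaf (.fwd 8894 51 tpr729.df))) (.leaf (.bwd 8945 40 tpr1652.df))) (.node (.leaf (.bwd 8985 42 tpr1930.df)) (.leaf (.bwd 9027 43 tpr1929.df)))) (.node (.node (.leaf (.fwd 9070 47 tpr1895.df)) (.leaf (.bwd 9117 47 tpr1883.df))) (.node (.leaf (.bwd 9164 22 tpr1878.df)) (.leaf (.bwd 9186 46 tpr1932.df))))) (.node (.node (.node (.node (.leaf (.bwd 9232 51 tpr729.df)) (.leaf (.fwd 9283 34 tpr1251.df))) (.leaf (.fwd 9317 35 tpr1938.df)))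 (.node (.leaf (.fwd 9352 44 tpr1866.df)) (.leaf (.fwd 9396 38 tpr1903.df)))) (.node (.node (.leaf (.fwd 9434 27 tpr1967.df)) (.leaf (.fwd 9461 44 tpr1717.df))) (.node (.leaf (.fwd 9505 24 tpr200.df)) (.leaf (.fwd 9529 37 tpr1966.df)))))))))) (.node (.node (.node (.node (.node (.node (.node (.node (.node (.leaf (.bwd 9566 17 tpr317.df)) (.leaf (.bwd 9583 13 tpr757.df))) (.leaf (.fwd 9596 21 tpr1890.df))) (.node (.leaf (.bwd 9617 21 tpr1890.df)) (.leaf (.bwd 9638 26 tpr1888.df)))) (.node (.node (.node (.leaf (.bwd 9664 26 tpr1800.df)) (.leaf (.fwd 9690 32 tpr736.df))) (.leaf (.bwd 9722 49 tpr1683.df))) (.node (.leaf (.fwd 9771 25 tpr1877.df)) (.leaf (.fwd 9796 37 tpr1885.df))))) (.node (.node (.node (.node (.leaf (.bwd 9833 37 tpr1190.df)) (.leaf (.bwd 9870 37 tpr327.df))) (.leaf (.bwd 9907 30 tpr1886.df))) (.node (.leaf (.bwd 9937 22 tpr982.df)) (.leaf (.fwd 9959 44 tpr1964.df)))) (.node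 (.node (.leaf (.fwd 10003 27 tpr979.df)) (.leaf (.bwd 10030 33 tpr44.df))) (.node (.leaf (.bwd 10063 22 tpr1870.df)) (.leaf (.bwd 10085 28 tpr1915.df)))))) (.node (.node (.node (.node (.node (.leaf (.bwd 10113 26 tpr1882.df)) (.leaf (.bwd 10139 44 tpr1866.df))) (.leaf (.fwd 10183 29 tpr1892.df))) (.node (.leaf (.fwd 10212 43 tpr566.df)) (.leaf (.fwd 10255 31 tpr1896.df)))) (.node (.node (.leaf (.fwd 10286 25 tpr51.df)) (.leaf (.bwd 10311 18 tpr648.df))) (.node (.leaf (.bwd 10329 25 tpr10.df)) (.leaf (.fwd 10354 22 tpr86.df))))) (.node (.node (.node (.node (.leaf (.bwd 10376 24 tpr57.df)) (.leaf (.fwd 10400 43 tpr292.df))) (.leaf (.bwd 10443 47 tpr1895.df))) (.node (.leaf (.bwd 10490 38 tpr1873.df)) (.leaf (.bwd 10528 30 tpr1897.df)))) (.node (.node (.leaf (.bwd 10558 48 tpr1884.df)) (.leaf (.bwd 10606 33 tpr1875.df))) (.node (.leaf (.bwd 10639 31 tpr1881.df)) (.leaf (.bwd 10670 33 tpr129.df)))))))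 (.node (.node (.node (.node (.node (.node (.leaf (.bwd 10703 26 tpr349.df)) (.leaf (.bwd 10729 45 tpr851.df))) (.leaf (.bwd 10774 26 tpr1889.df))) (.node (.leaf (.fwd 10800 33 tpr1801.df)) (.leaf (.fwd 10833 22 tpr118.df)))) (.node (.node (.leaf (.bwd 10855 48 tpr1874.df)) (.leaf (.bwd 10903 32 tpr652.df))) (.node (.leaf (.bwd 10935 26 tpr763.df)) (.leaf (.fwd 10961 41 tpr326.df))))) (.node (.node (.node (.node (.leaf (.bwd 11002 38 tpr393.df)) (.leaf (.bwd 11040 28 tpr1927.df))) (.leaf (.bwd 11068 32 tpr1893.df))) (.node (.leaf (.fwd 11100 31 tpr1898.df)) (.leaf (.fwd 11131 29 tpr545.df)))) (.node (.node (.leaf (.bwd 11160 26 tpr599.df)) (.leaf (.bwd 11186 15 tpr906.df))) (.node (.leaf (.bwd 11201 35 tpr1937.df)) (.leaf (.bwd 11236 23 tpr632.df)))))) (.node (.node (.node (.node (.node (.leaf (.bwd 11259 38 tpr1817.df)) (.leaf (.bwd 11297 33 tpr1213.df))) (.leaf (.fwd 11330 39 tpr1900.df)))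 (.node (.leaf (.bwd 11369 36 tpr75.df)) (.leaf (.bwd 11405 35 tpr123.df)))) (.node (.node (.leaf (.bwd 11440 24 tpr200.df)) (.leaf (.bwd 11464 25 tpr95.df))) (.node (.leaf (.fwd 11489 26 tpr516.df)) (.leaf (.fwd 11515 26 tpr1888.df))))) (.node (.node (.node (.node (.leaf (.bwd 11541 29 tpr714.df)) (.leaf (.bwd 11570 34 tpr1251.df))) (.leaf (.fwd 11604 26 tpr234.df))) (.node (.leaf (.fwd 11630 37 tpr621.df)) (.leaf (.fwd 11667 38 tpr393.df)))) (.node (.node (.leaf (.bwd 11705 43 tpr122.df)) (.leaf (.fwd 11748 30 tpr603.df))) (.node (.leaf (.bwd 11778 32 tpr591.df)) (.leaf (.fwd 11810 27 tpr1646.df)))))))) (.node (.node (.node (.node (.node (.node (.node (.leaf (.fwd 11837 18 tpr18.df)) (.leaf (.fwd 11855 31 tpr315.df))) (.leaf (.bwd 11886 21 tpr25.df))) (.node (.leaf (.fwd 11907 19 tpr33.df)) (.leaf (.bwd 11926 23 tpr1255.df)))) (.node (.node (.node (.leaf (.bwd 11949 49 tpr1647.df)) (.leaf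 (.bwd 11998 29 tpr1914.df))) (.leaf (.fwd 12027 35 tpr29.df))) (.node (.leaf (.fwd 12062 38 tpr1817.df)) (.leaf (.fwd 12100 33 tpr1213.df))))) (.node (.node (.node (.node (.leaf (.fwd 12133 37 tpr1570.df)) (.leaf (.fwd 12170 33 tpr1943.df))) (.leaf (.fwd 12203 27 tpr1902.df))) (.node (.leaf (.bwd 12230 35 tpr622.df)) (.leaf (.bwd 12265 36 tpr662.df)))) (.node (.node (.leaf (.fwd 12301 32 tpr1924.df)) (.leaf (.fwd 12333 35 tpr602.df))) (.node (.leaf (.bwd 12368 32 tpr674.df)) (.leaf (.fwd 12400 23 tpr632.df)))))) (.node (.node (.node (.node (.node (.leaf (.fwd 12423 17 tpr1913.df)) (.leaf (.fwd 12440 26 tpr349.df))) (.leaf (.bwd 12466 33 tpr968.df))) (.node (.leaf (.fwd 12499 40 tpr1905.df)) (.leaf (.fwd 12539 40 tpr1684.df)))) (.node (.node (.leaf (.bwd 12579 41 tpr1637.df)) (.leaf (.bwd 12620 35 tpr1904.df))) (.node (.leaf (.fwd 12655 38 tpr1636.df)) (.leaf (.fwd 12693 28 tpr1715.df)))))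 (.node (.node (.node (.node (.leaf (.fwd 12721 22 tpr982.df)) (.leaf (.fwd 12743 36 tpr75.df))) (.leaf (.bwd 12779 28 tpr1963.df))) (.node (.leaf (.bwd 12807 29 tpr1892.df)) (.leaf (.fwd 12836 20 tpr63.df)))) (.node (.node (.leaf (.fwd 12856 49 tpr1683.df)) (.leaf (.bwd 12905 24 tpr458.df))) (.node (.leaf (.bwd 12929 32 tpr736.df)) (.leaf (.bwd 12961 30 tpr1547.df))))))) (.node (.node (.node (.node (.node (.node (.leaf (.bwd 12991 22 tpr959.df)) (.leaf (.fwd 13013 24 tpr697.df))) (.leaf (.bwd 13037 27 tpr1646.df))) (.node (.leaf (.bwd 13064 32 tpr1899.df)) (.leaf (.bwd 13096 35 tpr1938.df)))) (.node (.node (.leaf (.bwd 13131 37 tpr1861.df)) (.leaf (.fwd 13168 49 tpr1647.df))) (.node (.leaf (.bwd 13217 30 tpr1572.df)) (.leaf (.bwd 13247 35 tpr1942.df))))) (.node (.node (.node (.node (.leaf (.fwd 13282 36 tpr672.df)) (.leaf (.fwd 13318 25 tpr1908.df))) (.leaf (.fwd 13343 37 tpr1199.df)))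 (.node (.leaf (.bwd 13380 22 tpr598.df)) (.leaf (.bwd 13402 24 tpr1611.df)))) (.node (.node (.leaf (.fwd 13426 37 tpr1004.df)) (.leaf (.bwd 13463 34 tpr1062.df))) (.node (.leaf (.fwd 13497 39 tpr1941.df)) (.leaf (.bwd 13536 33 tpr1943.df)))))) (.node (.node (.node (.node (.node (.leaf (.bwd 13569 27 tpr1902.df)) (.leaf (.fwd 13596 35 tpr1904.df))) (.leaf (.fwd 13631 41 tpr1637.df))) (.node (.leaf (.bwd 13672 22 tpr118.df)) (.leaf (.fwd 13694 26 tpr43.df)))) (.node (.node (.leaf (.bwd 13720 22 tpr86.df)) (.leaf (.fwd 13742 32 tpr1893.df))) (.node (.leaf (.fwd 13774 48 tpr1874.df)) (.leaf (.bwd 13822 27 tpr1876.df))))) (.node (.node (.node (.node (.leaf (.fwd 13849 35 tpr622.df)) (.leaf (.bwd 13884 26 tpr1917.df))) (.leaf (.bwd 13910 51 tpr846.df))) (.node (.leaf (.fwd 13961 43 tpr676.df)) (.leaf (.fwd 14004 39 tpr1868.df)))) (.node (.node (.leaf (.fwd 14043 40 tpr1936.df)) (.leaf (.bwd 14083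 34 tpr1865.df))) (.node (.leaf (.fwd 14117 26 tpr763.df)) (.leaf (.bwd 14143 37 tpr1004.df))))))))) (.node (.node (.node (.node (.node (.node (.node (.node (.leaf (.fwd 14180 41 tpr1939.df)) (.leaf (.fwd 14221 42 tpr1930.df))) (.leaf (.bwd 14263 37 tpr671.df))) (.node (.leaf (.fwd 14300 37 tpr1918.df)) (.leaf (.fwd 14337 34 tpr1919.df)))) (.node (.node (.node (.leaf (.bwd 14371 38 tpr1920.df)) (.leaf (.fwd 14409 27 tpr1876.df))) (.leaf (.bwd 14436 31 tpr1921.df))) (.node (.leaf (.bwd 14467 55 tpr1926.df)) (.leaf (.bwd 14522 27 tpr1940.df))))) (.node (.node (.node (.node (.leaf (.fwd 14549 24 tpr1681.df)) (.leaf (.fwd 14573 31 tpr1881.df))) (.leaf (.fwd 14604 23 tpr1907.df))) (.node (.leaf (.fwd 14627 33 tpr1875.df)) (.leaf (.fwd 14660 45 tpr851.df)))) (.node (.node (.leaf (.bwd 14705 31 tpr1896.df)) (.leaf (.bwd 14736 44 tpr1717.df))) (.node (.leaf (.fwd 14780 38 tpr1873.df)) (.leaf (.bwd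 14818 57 tpr767.df)))))) (.node (.node (.node (.node (.node (.leaf (.fwd 14875 33 tpr129.df)) (.leaf (.fwd 14908 37 tpr327.df))) (.leaf (.bwd 14945 47 tpr1958.df))) (.node (.leaf (.fwd 14992 37 tpr1948.df)) (.leaf (.fwd 15029 41 tpr1960.df)))) (.node (.node (.leaf (.fwd 15070 38 tpr1949.df)) (.leaf (.fwd 15108 44 tpr1953.df))) (.node (.leaf (.fwd 15152 38 tpr1920.df)) (.leaf (.fwd 15190 31 tpr1626.df))))) (.node (.node (.node (.node (.leaf (.fwd 15221 51 tpr846.df)) (.leaf (.fwd 15272 36 tpr1933.df))) (.leaf (.fwd 15308 55 tpr1926.df))) (.node (.leaf (.bwd 15363 39 tpr569.df)) (.leaf (.fwd 15402 34 tpr628.df)))) (.node (.node (.leaf (.fwd 15436 35 tpr1925.df)) (.leaf (.fwd 15471 47 tpr1883.df))) (.node (.leaf (.bwd 15518 45 tpr1945.df)) (.leaf (.fwd 15563 37 tpr671.df))))))) (.node (.node (.node (.node (.node (.node (.leaf (.bwd 15600 37 tpr1918.df)) (.leaf (.bwd 15637 34 tpr1919.df)))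 (.leaf (.fwd 15671 32 tpr1899.df))) (.node (.leaf (.fwd 15703 28 tpr1927.df)) (.leaf (.bwd 15731 39 tpr1900.df)))) (.node (.node (.leaf (.bwd 15770 25 tpr1877.df)) (.leaf (.fwd 15795 27 tpr1962.df))) (.node (.leaf (.bwd 15822 37 tpr1966.df)) (.leaf (.bwd 15859 41 tpr326.df))))) (.node (.node (.node (.node (.leaf (.fwd 15900 32 tpr652.df)) (.leaf (.fwd 15932 37 tpr1190.df))) (.leaf (.fwd 15969 43 tpr1929.df))) (.node (.leaf (.bwd 16012 34 tpr1944.df)) (.leaf (.bwd 16046 40 tpr1936.df)))) (.node (.node (.leaf (.bwd 16086 32 tpr522.df)) (.leaf (.bwd 16118 46 tpr593.df))) (.node (.leaf (.bwd 16164 43 tpr676.df)) (.leaf (.bwd 16207 39 tpr1941.df)))))) (.node (.node (.node (.node (.node (.leaf (.fwd 16246 34 tpr1062.df)) (.leaf (.bwd 16280 38 tpr1636.df))) (.leaf (.fwd 16318 18 tpr648.df))) (.node (.leaf (.fwd 16336 31 tpr339.df)) (.leaf (.fwd 16367 35 tpr657.df)))) (.node (.node (.leaf (.bwd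 16402 44 tpr1964.df)) (.leaf (.fwd 16446 28 tpr1915.df))) (.node (.leaf (.bwd 16474 40 tpr1916.df)) (.leaf (.fwd 16514 46 tpr1932.df))))) (.node (.node (.node (.node (.leaf (.fwd 16560 27 tpr1940.df)) (.leaf (.fwd 16587 39 tpr78.df))) (.leaf (.bwd 16626 23 tpr1907.df))) (.node (.leaf (.fwd 16649 29 tpr714.df)) (.leaf (.bwd 16678 27 tpr1962.df)))) (.node (.node (.leaf (.bwd 16705 19 tpr33.df)) (.leaf (.bwd 16724 31 tpr339.df))) (.node (.leaf (.fwd 16755 40 tpr1916.df)) (.leaf (.bwd 16795 27 tpr1967.df)))))))) (.node (.node (.node (.node (.node (.node (.node (.leaf (.fwd 16822 36 tpr662.df)) (.leaf (.fwd 16858 32 tpr674.df))) (.leaf (.bwd 16890 38 tpr1903.df))) (.node (.leaf (.fwd 16928 34 tpr987.df)) (.leaf (.bwd 16962 17 tpr1913.df)))) (.node (.node (.node (.leaf (.fwd 16979 21 tpr8.df)) (.leaf (.bwd 17000 39 tpr1559.df))) (.leaf (.fwd 17039 35 tpr658.df))) (.node (.leaf (.fwd 17074 44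 tpr1891.df)) (.leaf (.fwd 17118 30 tpr2955.df))))) (.node (.node (.node (.node (.leaf (.fwd 17148 35 tpr534.df)) (.leaf (.bwd 17183 40 tpr32.df))) (.leaf (.bwd 17223 26 tpr2084.df))) (.node (.leaf (.fwd 17249 40 tpr2956.df)) (.leaf (.fwd 17289 39 tpr642.df)))) (.node (.node (.leaf (.fwd 17328 43 tpr1973.df)) (.leaf (.fwd 17371 24 tpr24.df))) (.node (.leaf (.bwd 17395 31 tpr535.df)) (.leaf (.bwd 17426 48 tpr1872.df)))))) (.node (.node (.node (.node (.node (.leaf (.bwd 17474 41 tpr1939.df)) (.leaf (.bwd 17515 21 tpr2957.df))) (.leaf (.fwd 17536 49 tpr1911.df))) (.node (.leaf (.bwd 17585 45 tpr1649.df)) (.leaf (.fwd 17630 31 tpr1921.df)))) (.node (.node (.leaf (.bwd 17661 49 tpr1911.df)) (.leaf (.fwd 17710 35 tpr554.df))) (.node (.leaf (.bwd 17745 25 tpr2958.df)) (.leaf (.fwd 17770 33 tpr594.df))))) (.node (.node (.node (.node (.leaf (.fwd 17803 27 tpr2959.df)) (.leaf (.bwd 17830 31 tpr1626.df)))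 (.leaf (.fwd 17861 35 tpr194.df))) (.node (.leaf (.fwd 17896 27 tpr625.df)) (.leaf (.fwd 17923 45 tpr1649.df)))) (.node (.node (.leaf (.bwd 17968 30 tpr320.df)) (.leaf (.bwd 17998 43 tpr323.df))) (.node (.leaf (.bwd 18041 33 tpr1980.df)) (.leaf (.bwd 18074 27 tpr1343.df))))))) (.node (.node (.node (.node (.node (.node (.leaf (.fwd 18101 49 tpr1922.df)) (.leaf (.fwd 18150 22 tpr536.df))) (.leaf (.bwd 18172 38 tpr526.df))) (.node (.leaf (.bwd 18210 26 tpr2960.df)) (.leaf (.bwd 18236 38 tpr2961.df)))) (.node (.node (.leaf (.bwd 18274 38 tpr1949.df)) (.leaf (.bwd 18312 56 tpr1952.df))) (.node (.leaf (.bwd 18368 37 tpr556.df)) (.leaf (.fwd 18405 31 tpr1538.df))))) (.node (.node (.node (.node (.leaf (.fwd 18436 28 tpr1963.df)) (.leaf (.fwd 18464 28 tpr1951.df))) (.leaf (.bwd 18492 42 tpr812.df))) (.node (.leaf (.fwd 18534 33 tpr2962.df)) (.leaf (.bwd 18567 40 tpr1590.df)))) (.node (.node (.leaf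 (.fwd 18607 24 tpr810.df)) (.leaf (.bwd 18631 39 tpr1868.df))) (.node (.leaf (.bwd 18670 37 tpr1885.df)) (.leaf (.fwd 18707 36 tpr1194.df)))))) (.node (.node (.node (.node (.node (.leaf (.bwd 18743 20 tpr600.df)) (.leaf (.fwd 18763 31 tpr528.df))) (.leaf (.bwd 18794 35 tpr554.df))) (.node (.leaf (.bwd 18829 29 tpr1971.df)) (.leaf (.bwd 18858 39 tpr718.df)))) (.node (.node (.leaf (.bwd 18897 30 tpr727.df)) (.leaf (.bwd 18927 33 tpr1950.df))) (.node (.leaf (.bwd 18960 44 tpr1891.df)) (.leaf (.bwd 19004 21 tpr2963.df))))) (.node (.node (.node (.node (.leaf (.bwd 19025 22 tpr536.df)) (.leaf (.fwd 19047 30 tpr1730.df))) (.leaf (.bwd 19077 31 tpr527.df))) (.node (.leaf (.fwd 19108 42 tpr1196.df)) (.leaf (.bwd 19150 41 tpr1923.df)))) (.node (.node (.leaf (.fwd 19191 31 tpr527.df)) (.leaf (.bwd 19222 42 tpr558.df))) (.node (.leaf (.fwd 19264 27 tpr589.df)) (.leaf (.fwd 19291 24 tpr578.df)))))))))))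

theorem iiNFzE2A3H3A2EzF_c : iiNFzE2A3H3A2EzF.all (itB (ng 61 nnNFzE2A3H3A2EzF)) = true := by decide +kernel
theorem nbNFzE2A3H3A2EzF : nbB 61 19376 nnNFzE2A3H3A2EzF = true := by decide +kernel
theorem topNFzE2A3H3A2EzF : topY 19376 ttNFzE2A3H3A2EzF ceNFzE2A3H3A2EzF xNFzE2A3H3A2EzF iiNFzE2A3H3A2EzF = true := by decide +kernel

end MPb6R
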