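import Pool.Agent.Lib.MP_b6d339_lc.Cw3.YFzE2B3H2BzIzB3H3ByA2EzF
import Pool.Agent.Lib.MP_b6d339_lc.Cw3.XL
import Pool.Agent.Lib.MP_b6d339_lc.Cw3.T0
import Pool.Agent.Lib.MP_b6d339_lc.Cw3.T1
import Pool.Agent.Lib.MP_b6d339_lc.Cw3.T10
import Pool.Agent.Lib.MP_b6d339_lc.Cw3.T11
import Pool.Agent.Lib.MP_b6d339_lc.Cw3.T2
import Pool.Agent.Lib.MP_b6d339_lc.Cw3.T3
import Pool.Agent.Lib.MP_b6d339_lc.Cw3.T4
import Pool.Agent.Lib.MP_b6d339_lc.Cw3.T5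
import Pool.Agent.Lib.MP_b6d339_lc.Cw3.T6
import Pool.Agent.Lib.MP_b6d339_lc.Cw3.T7
import Pool.Agent.Lib.MP_b6d339_lc.Cw3.T8
import Pool.Agent.Lib.MP_b6d339_lc.Cw3.T9

/-!
# Erdős 592, three levels: items
-/

namespace MPb6R

open MPb6P

noncomputable def iiNFzE2B3H2BzIzB3H3ByA2EzF : BT Itm := (.node (.node (.node (.node (.node (.node (.node (.leaf (.bwd 0 23 tpr5.df)) (.leaf (.fwd 23 6 tpr4.df))) (.node (.leaf (.bwd 29 6 tpr4.df)) (.leaf (.bwd 35 13 tpr11.df)))) (.node (.node (.leaf (.fwd 48 28 tpr907.df)) (.leaf (.fwd 76 21 tpr8.df))) (.leaf (.bwd 97 29 tpr9.df)))) (.node (.node (.node (.leaf (.bwd 126 42 tpr455.df)) (.leaf (.fwd 168 35 tpr13.df))) (.leaf (.bwd 203 13 tpr14.df))) (.node (.node (.leaf (.fwd 216 13 tpr11.df)) (.leaf (.bwd 229 18 tpr18.df))) (.leaf (.bwd 247 38 tpr908.df))))) (.node (.node (.node (.node (.leaf (.bwd 285 34 tpr15.df)) (.leaf (.fwd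 319 36 tpr23.df))) (.node (.leaf (.bwd 355 24 tpr609.df)) (.leaf (.bwd 379 25 tpr74.df)))) (.node (.node (.leaf (.bwd 404 26 tpr80.df)) (.leaf (.bwd 430 21 tpr36.df))) (.leaf (.bwd 451 22 tpr795.df)))) (.node (.node (.node (.leaf (.fwd 473 18 tpr37.df)) (.leaf (.fwd 491 39 tpr569.df))) (.leaf (.fwd 530 15 tpr152.df))) (.node (.node (.leaf (.bwd 545 28 tpr909.df)) (.leaf (.bwd 573 39 tpr354.df))) (.leaf (.fwd 612 22 tpr83.df)))))) (.node (.node (.node (.node (.node (.leaf (.fwd 634 35 tpr461.df)) (.leaf (.bwd 669 22 tpr20.df))) (.node (.leaf (.fwd 691 19 tpr758.df)) (.leaf (.fwd 710 25 tpr69.df)))) (.node (.node (.leaf (.fwd 735 20 tpr42.df)) (.leaf (.bwd 755 20 tpr103.df))) (.leaf (.bwd 775 17 tpr16.df)))) (.node (.node (.node (.leaf (.bwd 792 40 tpr62.df)) (.leaf (.bwd 832 24 tpr57.df))) (.leaf (.bwd 856 25 tpr10.df))) (.node (.node (.leaf (.bwd 881 22 tpr239.df))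 (.leaf (.fwd 903 42 tpr910.df))) (.leaf (.fwd 945 24 tpr911.df))))) (.node (.node (.node (.node (.leaf (.bwd 969 23 tpr605.df)) (.leaf (.fwd 992 39 tpr78.df))) (.leaf (.bwd 1031 27 tpr134.df))) (.node (.node (.leaf (.bwd 1058 20 tpr19.df)) (.leaf (.fwd 1078 24 tpr912.df))) (.leaf (.bwd 1102 27 tpr56.df)))) (.node (.node (.node (.leaf (.fwd 1129 20 tpr102.df)) (.leaf (.fwd 1149 23 tpr30.df))) (.leaf (.fwd 1172 29 tpr22.df))) (.node (.node (.leaf (.bwd 1201 32 tpr17.df)) (.leaf (.bwd 1233 21 tpr90.df))) (.leaf (.bwd 1254 28 tpr707.df))))))) (.node (.node (.node (.node (.node (.node (.leaf (.fwd 1282 28 tpr295.df)) (.leaf (.fwd 1310 24 tpr913.df))) (.node (.leaf (.bwd 1334 27 tpr85.df)) (.leaf (.bwd 1361 25 tpr914.df)))) (.node (.node (.leaf (.bwd 1386 25 tpr915.df)) (.leaf (.bwd 1411 36 tpr453.df))) (.leaf (.bwd 1447 27 tpr82.df)))) (.node (.node (.node (.leaf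 (.fwd 1474 18 tpr414.df)) (.leaf (.bwd 1492 28 tpr916.df))) (.leaf (.fwd 1520 39 tpr81.df))) (.node (.node (.leaf (.fwd 1559 22 tpr230.df)) (.leaf (.bwd 1581 30 tpr26.df))) (.leaf (.fwd 1611 31 tpr167.df))))) (.node (.node (.node (.node (.leaf (.bwd 1642 20 tpr48.df)) (.leaf (.bwd 1662 42 tpr842.df))) (.node (.leaf (.fwd 1704 43 tpr122.df)) (.leaf (.bwd 1747 39 tpr7.df)))) (.node (.node (.leaf (.bwd 1786 16 tpr220.df)) (.leaf (.bwd 1802 23 tpr917.df))) (.leaf (.fwd 1825 62 tpr918.df)))) (.node (.node (.node (.leaf (.fwd 1887 29 tpr151.df)) (.leaf (.bwd 1916 39 tpr642.df))) (.leaf (.bwd 1955 31 tpr258.df))) (.node (.node (.leaf (.fwd 1986 29 tpr121.df)) (.leaf (.bwd 2015 38 tpr265.df))) (.leaf (.bwd 2053 22 tpr919.df)))))) (.node (.node (.node (.node (.node (.leaf (.bwd 2075 23 tpr126.df)) (.leaf (.fwd 2098 36 tpr920.df))) (.node (.leaf (.bwd 2134 33 tpr129.df))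 (.leaf (.bwd 2167 26 tpr349.df)))) (.node (.node (.leaf (.fwd 2193 35 tpr123.df)) (.leaf (.fwd 2228 23 tpr12.df))) (.leaf (.fwd 2251 16 tpr168.df)))) (.node (.node (.node (.leaf (.fwd 2267 30 tpr893.df)) (.leaf (.fwd 2297 34 tpr54.df))) (.leaf (.fwd 2331 29 tpr921.df))) (.node (.node (.leaf (.bwd 2360 40 tpr253.df)) (.leaf (.fwd 2400 16 tpr302.df))) (.leaf (.fwd 2416 50 tpr211.df))))) (.node (.node (.node (.node (.leaf (.fwd 2466 21 tpr107.df)) (.leaf (.bwd 2487 41 tpr922.df))) (.leaf (.bwd 2528 31 tpr284.df))) (.node (.node (.leaf (.bwd 2559 48 tpr879.df)) (.leaf (.bwd 2607 24 tpr24.df))) (.leaf (.bwd 2631 24 tpr904.df)))) (.node (.node (.node (.leaf (.fwd 2655 43 tpr292.df)) (.leaf (.bwd 2698 33 tpr869.df))) (.leaf (.fwd 2731 46 tpr324.df))) (.node (.node (.leaf (.fwd 2777 40 tpr544.df)) (.leaf (.bwd 2817 45 tpr925.df))) (.leaf (.bwd 2862 36 tpr23.df))))))))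

theorem iiNFzE2B3H2BzIzB3H3ByA2EzF_c : iiNFzE2B3H2BzIzB3H3ByA2EzF.all (itB (ng 62 nnNFzE2B3H2BzIzB3H3ByA2EzF)) = true := by decide +kernel
theorem nbNFzE2B3H2BzIzB3H3ByA2EzF : nbB 62 2960 nnNFzE2B3H2BzIzB3H3ByA2EzF = true := by decide +kernel
theorem topNFzE2B3H2BzIzB3H3ByA2EzF : topY 2960 ttNFzE2B3H2BzIzB3H3ByA2EzF ceNFzE2B3H2BzIzB3H3ByA2EzF xNFzE2B3H2BzIzB3H3ByA2EzF iiNFzE2B3H2BzIzB3H3ByA2EzF = true := by decide +kernel

end MPb6R
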