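import Pool.Agent.Lib.MP_b6d339_lc.Cw3.YFzE2ByA3H2AzA2H3A2EzF
import Pool.Agent.Lib.MP_b6d339_lc.Cw3.XL
import Pool.Agent.Lib.MP_b6d339_lc.Cw3.T0
import Pool.Agent.Lib.MP_b6d339_lc.Cw3.T1
import Pool.Agent.Lib.MP_b6d339_lc.Cw3.T10
import Pool.Agent.Lib.MP_b6d339_lc.Cw3.T11
import Pool.Agent.Lib.MP_b6d339_lc.Cw3.T12
import Pool.Agent.Lib.MP_b6d339_lc.Cw3.T2
import Pool.Agent.Lib.MP_b6d339_lc.Cw3.T23
import Pool.Agent.Lib.MP_b6d339_lc.Cw3.T3
import Pool.Agent.Lib.MP_b6d339_lc.Cw3.T37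
import Pool.Agent.Lib.MP_b6d339_lc.Cw3.T4
import Pool.Agent.Lib.MP_b6d339_lc.Cw3.T5
import Pool.Agent.Lib.MP_b6d339_lc.Cw3.T6
import Pool.Agent.Lib.MP_b6d339_lc.Cw3.T7
import Pool.Agent.Lib.MP_b6d339_lc.Cw3.T8
import Pool.Agent.Lib.MP_b6d339_lc.Cw3.T9

/-!
# Erdős 592, three levels: items
-/

namespace MPb6R

open MPb6P

noncomputable def iiNFzE2ByA3H2AzA2H3A2EzF : BT Itm := (.node (.node (.node (.node (.node (.node (.node (.node (.node (.leaf (.bwd 0 13 tpr500.df)) (.leaf (.fwd 13 16 tpr168.df))) (.leaf (.fwd 29 13 tpr500.df))) (.node (.leaf (.bwd 42 23 tpr508.df)) (.leaf (.bwd 65 35 tpr259.df)))) (.node (.node (.node (.leaf (.fwd 100 23 tpr5.df)) (.leaf (.fwd 123 21 tpr8.df))) (.leaf (.fwd 144 27 tpr499.df))) (.node (.leaf (.fwd 171 35 tpr259.df)) (.leaf (.bwd 206 22 tpr504.df))))) (.node (.node (.node (.node (.leaf (.fwd 228 22 tpr982.df)) (.leaf (.bwd 250 21 tpr90.df))) (.leaf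 (.bwd 271 25 tpr531.df))) (.node (.leaf (.bwd 296 15 tpr525.df)) (.leaf (.fwd 311 27 tpr506.df)))) (.node (.node (.node (.leaf (.bwd 338 27 tpr82.df)) (.leaf (.bwd 365 33 tpr501.df))) (.leaf (.bwd 398 29 tpr545.df))) (.node (.leaf (.bwd 427 31 tpr607.df)) (.leaf (.bwd 458 27 tpr236.df)))))) (.node (.node (.node (.node (.node (.leaf (.bwd 485 43 tpr566.df)) (.leaf (.fwd 528 22 tpr239.df))) (.leaf (.bwd 550 42 tpr558.df))) (.node (.leaf (.fwd 592 23 tpr1014.df)) (.leaf (.fwd 615 28 tpr944.df)))) (.node (.node (.node (.leaf (.bwd 643 36 tpr547.df)) (.leaf (.bwd 679 29 tpr582.df))) (.leaf (.bwd 708 31 tpr557.df))) (.node (.leaf (.fwd 739 31 tpr528.df)) (.leaf (.bwd 770 21 tpr530.df))))) (.node (.node (.node (.node (.leaf (.bwd 791 41 tpr561.df)) (.leaf (.bwd 832 30 tpr263.df))) (.leaf (.fwd 862 35 tpr797.df))) (.node (.leaf (.fwd 897 45 tpr139.df)) (.leaf (.bwd 942 27 tpr499.df))))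 (.node (.node (.leaf (.fwd 969 21 tpr107.df)) (.leaf (.fwd 990 29 tpr570.df))) (.node (.leaf (.fwd 1019 23 tpr12.df)) (.leaf (.fwd 1042 31 tpr167.df))))))) (.node (.node (.node (.node (.node (.node (.leaf (.bwd 1073 20 tpr48.df)) (.leaf (.fwd 1093 29 tpr46.df))) (.leaf (.bwd 1122 14 tpr49.df))) (.node (.leaf (.bwd 1136 27 tpr506.df)) (.leaf (.bwd 1163 23 tpr133.df)))) (.node (.node (.node (.leaf (.bwd 1186 27 tpr540.df)) (.leaf (.bwd 1213 37 tpr556.df))) (.leaf (.fwd 1250 45 tpr596.df))) (.node (.leaf (.bwd 1295 19 tpr429.df)) (.leaf (.bwd 1314 29 tpr9.df))))) (.node (.node (.node (.node (.leaf (.fwd 1343 38 tpr526.df)) (.leaf (.bwd 1381 28 tpr295.df))) (.leaf (.bwd 1409 34 tpr54.df))) (.node (.leaf (.fwd 1443 34 tpr92.df)) (.leaf (.bwd 1477 25 tpr10.df)))) (.node (.node (.leaf (.bwd 1502 34 tpr15.df)) (.leaf (.bwd 1536 35 tpr29.df))) (.node (.leaf (.fwd 1571 25 tpr51.df)) (.leaf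 (.fwd 1596 42 tpr558.df)))))) (.node (.node (.node (.node (.node (.leaf (.fwd 1638 45 tpr611.df)) (.leaf (.fwd 1683 42 tpr733.df))) (.leaf (.bwd 1725 31 tpr761.df))) (.node (.leaf (.bwd 1756 32 tpr963.df)) (.leaf (.bwd 1788 36 tpr935.df)))) (.node (.node (.node (.leaf (.bwd 1824 25 tpr677.df)) (.leaf (.fwd 1849 33 tpr44.df))) (.leaf (.bwd 1882 46 tpr116.df))) (.node (.leaf (.bwd 1928 20 tpr63.df)) (.leaf (.bwd 1948 53 tpr815.df))))) (.node (.node (.node (.node (.leaf (.fwd 2001 52 tpr814.df)) (.leaf (.bwd 2053 41 tpr97.df))) (.leaf (.fwd 2094 27 tpr131.df))) (.node (.leaf (.fwd 2121 24 tpr931.df)) (.leaf (.bwd 2145 36 tpr244.df)))) (.node (.node (.leaf (.fwd 2181 33 tpr35.df)) (.leaf (.bwd 2214 33 tpr28.df))) (.node (.leaf (.bwd 2247 19 tpr47.df)) (.leaf (.bwd 2266 32 tpr39.df)))))))) (.node (.node (.node (.node (.node (.node (.node (.leaf (.fwd 2298 33 tpr501.df)) (.leaf (.bwd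 2331 33 tpr31.df))) (.leaf (.bwd 2364 31 tpr21.df))) (.node (.leaf (.fwd 2395 20 tpr216.df)) (.leaf (.fwd 2415 35 tpr89.df)))) (.node (.node (.node (.leaf (.fwd 2450 20 tpr103.df)) (.leaf (.fwd 2470 27 tpr82.df))) (.leaf (.bwd 2497 28 tpr511.df))) (.node (.leaf (.bwd 2525 29 tpr570.df)) (.leaf (.fwd 2554 22 tpr515.df))))) (.node (.node (.node (.node (.leaf (.fwd 2576 37 tpr555.df)) (.leaf (.bwd 2613 31 tpr167.df))) (.leaf (.fwd 2644 15 tpr419.df))) (.node (.leaf (.bwd 2659 22 tpr572.df)) (.leaf (.fwd 2681 25 tpr531.df)))) (.node (.node (.leaf (.bwd 2706 22 tpr953.df)) (.leaf (.bwd 2728 32 tpr518.df))) (.node (.leaf (.bwd 2760 28 tpr507.df)) (.leaf (.bwd 2788 29 tpr22.df)))))) (.node (.node (.node (.node (.node (.leaf (.fwd 2817 27 tpr540.df)) (.leaf (.bwd 2844 30 tpr577.df))) (.leaf (.fwd 2874 25 tpr679.df))) (.node (.leaf (.bwd 2899 35 tpr554.df)) (.leaf (.bwd 2934 40 tpr62.df))))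 (.node (.node (.node (.leaf (.fwd 2974 33 tpr968.df)) (.leaf (.bwd 3007 35 tpr969.df))) (.leaf (.fwd 3042 24 tpr635.df))) (.node (.leaf (.fwd 3066 20 tpr48.df)) (.leaf (.bwd 3086 38 tpr519.df))))) (.node (.node (.node (.node (.leaf (.bwd 3124 20 tpr505.df)) (.leaf (.bwd 3144 28 tpr510.df))) (.leaf (.bwd 3172 27 tpr562.df))) (.node (.leaf (.bwd 3199 24 tpr609.df)) (.leaf (.bwd 3223 35 tpr568.df)))) (.node (.node (.leaf (.bwd 3258 49 tpr960.df)) (.leaf (.bwd 3307 42 tpr946.df))) (.node (.leaf (.bwd 3349 37 tpr555.df)) (.leaf (.bwd 3386 30 tpr513.df))))))) (.node (.node (.node (.node (.node (.node (.leaf (.fwd 3416 32 tpr17.df)) (.leaf (.fwd 3448 32 tpr518.df))) (.leaf (.fwd 3480 27 tpr625.df))) (.node (.leaf (.fwd 3507 36 tpr547.df)) (.leaf (.bwd 3543 45 tpr611.df)))) (.node (.node (.node (.leaf (.bwd 3588 44 tpr725.df)) (.leaf (.bwd 3632 32 tpr294.df))) (.leaf (.fwd 3664 38 tpr203.df)))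 (.node (.leaf (.bwd 3702 21 tpr629.df)) (.leaf (.fwd 3723 32 tpr61.df))))) (.node (.node (.node (.node (.leaf (.bwd 3755 27 tpr788.df)) (.leaf (.fwd 3782 35 tpr541.df))) (.leaf (.bwd 3817 25 tpr644.df))) (.node (.leaf (.fwd 3842 38 tpr105.df)) (.leaf (.bwd 3880 17 tpr144.df)))) (.node (.node (.leaf (.fwd 3897 26 tpr245.df)) (.leaf (.bwd 3923 37 tpr782.df))) (.node (.leaf (.bwd 3960 32 tpr247.df)) (.leaf (.bwd 3992 15 tpr816.df)))))) (.node (.node (.node (.node (.node (.leaf (.fwd 4007 30 tpr45.df)) (.leaf (.bwd 4037 41 tpr188.df))) (.leaf (.fwd 4078 29 tpr94.df))) (.node (.leaf (.bwd 4107 31 tpr606.df)) (.leaf (.bwd 4138 33 tpr221.df)))) (.node (.node (.node (.leaf (.fwd 4171 59 tpr803.df)) (.leaf (.fwd 4230 32 tpr251.df))) (.leaf (.fwd 4262 20 tpr186.df))) (.node (.leaf (.bwd 4282 28 tpr941.df)) (.leaf (.fwd 4310 21 tpr50.df))))) (.node (.node (.node (.node (.leaf (.bwd 4331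 24 tpr730.df)) (.leaf (.fwd 4355 21 tpr110.df))) (.leaf (.bwd 4376 28 tpr40.df))) (.node (.leaf (.bwd 4404 34 tpr114.df)) (.leaf (.fwd 4438 32 tpr115.df)))) (.node (.node (.leaf (.fwd 4470 25 tpr961.df)) (.leaf (.fwd 4495 43 tpr936.df))) (.node (.leaf (.bwd 4538 15 tpr38.df)) (.leaf (.bwd 4553 37 tpr571.df))))))))) (.node (.node (.node (.node (.node (.node (.node (.node (.leaf (.bwd 4590 35 tpr534.df)) (.leaf (.bwd 4625 27 tpr589.df))) (.leaf (.bwd 4652 35 tpr657.df))) (.node (.leaf (.fwd 4687 25 tpr2967.df)) (.leaf (.fwd 4712 25 tpr95.df)))) (.node (.node (.node (.leaf (.fwd 4737 29 tpr656.df)) (.leaf (.fwd 4766 29 tpr9.df))) (.leaf (.fwd 4795 27 tpr236.df))) (.node (.leaf (.fwd 4822 17 tpr16.df)) (.leaf (.bwd 4839 20 tpr216.df))))) (.node (.node (.node (.node (.leaf (.fwd 4859 29 tpr618.df)) (.leaf (.bwd 4888 39 tpr78.df))) (.leaf (.fwd 4927 25 tpr10.df))) (.node (.leaf (.bwd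 4952 27 tpr529.df)) (.leaf (.bwd 4979 39 tpr81.df)))) (.node (.node (.node (.leaf (.fwd 5018 22 tpr572.df)) (.leaf (.bwd 5040 56 tpr87.df))) (.leaf (.fwd 5096 24 tpr609.df))) (.node (.leaf (.bwd 5120 21 tpr107.df)) (.leaf (.fwd 5141 31 tpr557.df)))))) (.node (.node (.node (.node (.node (.leaf (.fwd 5172 26 tpr516.df)) (.leaf (.bwd 5198 42 tpr612.df))) (.leaf (.fwd 5240 27 tpr562.df))) (.node (.leaf (.bwd 5267 20 tpr768.df)) (.leaf (.bwd 5287 35 tpr541.df)))) (.node (.node (.node (.leaf (.fwd 5322 23 tpr559.df)) (.leaf (.fwd 5345 37 tpr583.df))) (.leaf (.fwd 5382 30 tpr26.df))) (.node (.leaf (.bwd 5412 28 tpr944.df)) (.leaf (.fwd 5440 24 tpr57.df))))) (.node (.node (.node (.node (.leaf (.bwd 5464 24 tpr789.df)) (.leaf (.fwd 5488 29 tpr637.df))) (.leaf (.bwd 5517 35 tpr123.df))) (.node (.leaf (.fwd 5552 30 tpr537.df)) (.leaf (.fwd 5582 33 tpr680.df)))) (.node (.node (.leaf (.bwd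 5615 43 tpr122.df)) (.leaf (.bwd 5658 24 tpr743.df))) (.node (.leaf (.fwd 5682 41 tpr549.df)) (.leaf (.fwd 5723 25 tpr74.df))))))) (.node (.node (.node (.node (.node (.node (.leaf (.fwd 5748 22 tpr536.df)) (.leaf (.bwd 5770 28 tpr225.df))) (.leaf (.fwd 5798 42 tpr344.df))) (.node (.leaf (.fwd 5840 21 tpr474.df)) (.leaf (.bwd 5861 42 tpr124.df)))) (.node (.node (.node (.leaf (.fwd 5903 37 tpr621.df)) (.leaf (.fwd 5940 18 tpr648.df))) (.leaf (.fwd 5958 44 tpr466.df))) (.node (.leaf (.fwd 6002 31 tpr339.df)) (.leaf (.bwd 6033 37 tpr406.df))))) (.node (.node (.node (.node (.leaf (.fwd 6070 38 tpr393.df)) (.leaf (.fwd 6108 39 tpr655.df))) (.leaf (.bwd 6147 60 tpr630.df))) (.node (.leaf (.fwd 6207 36 tpr75.df)) (.leaf (.fwd 6243 61 tpr695.df)))) (.node (.node (.leaf (.fwd 6304 37 tpr720.df)) (.leaf (.bwd 6341 28 tpr627.df))) (.node (.leaf (.fwd 6369 22 tpr953.df)) (.leaf (.fwd 6391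 32 tpr2968.df)))))) (.node (.node (.node (.node (.node (.leaf (.fwd 6423 29 tpr654.df)) (.leaf (.bwd 6452 31 tpr527.df))) (.leaf (.bwd 6483 34 tpr2969.df))) (.node (.leaf (.fwd 6517 41 tpr715.df)) (.leaf (.fwd 6558 26 tpr334.df)))) (.node (.node (.node (.leaf (.fwd 6584 25 tpr644.df)) (.leaf (.fwd 6609 33 tpr631.df))) (.leaf (.fwd 6642 37 tpr556.df))) (.node (.leaf (.fwd 6679 25 tpr702.df)) (.leaf (.fwd 6704 31 tpr694.df))))) (.node (.node (.node (.node (.leaf (.bwd 6735 30 tpr626.df)) (.leaf (.fwd 6765 37 tpr571.df))) (.leaf (.bwd 6802 29 tpr564.df))) (.node (.leaf (.fwd 6831 29 tpr22.df)) (.leaf (.bwd 6860 32 tpr17.df)))) (.node (.node (.leaf (.fwd 6892 31 tpr606.df)) (.leaf (.fwd 6923 37 tpr520.df))) (.node (.leaf (.fwd 6960 30 tpr613.df)) (.leaf (.bwd 6990 26 tpr509.df)))))))) (.node (.node (.node (.node (.node (.node (.node (.leaf (.fwd 7016 37 tpr503.df)) (.leaf (.fwd 7053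 31 tpr576.df))) (.leaf (.bwd 7084 38 tpr203.df))) (.node (.leaf (.bwd 7122 26 tpr675.df)) (.leaf (.fwd 7148 25 tpr586.df)))) (.node (.node (.node (.leaf (.fwd 7173 25 tpr739.df)) (.leaf (.fwd 7198 36 tpr573.df))) (.leaf (.bwd 7234 30 tpr973.df))) (.node (.leaf (.fwd 7264 28 tpr974.df)) (.leaf (.fwd 7292 36 tpr23.df))))) (.node (.node (.node (.node (.leaf (.fwd 7328 39 tpr962.df)) (.leaf (.fwd 7367 24 tpr1011.df))) (.leaf (.fwd 7391 40 tpr966.df))) (.node (.leaf (.bwd 7431 39 tpr636.df)) (.leaf (.fwd 7470 33 tpr521.df)))) (.node (.node (.leaf (.bwd 7503 31 tpr975.df)) (.leaf (.fwd 7534 41 tpr965.df))) (.node (.leaf (.bwd 7575 45 tpr596.df)) (.leaf (.bwd 7620 36 tpr23.df)))))) (.node (.node (.node (.node (.node (.leaf (.fwd 7656 32 tpr567.df)) (.leaf (.bwd 7688 36 tpr573.df))) (.leaf (.bwd 7724 41 tpr502.df))) (.node (.leaf (.fwd 7765 31 tpr198.df)) (.leaf (.fwd 7796 34 tpr619.df))))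 (.node (.node (.node (.leaf (.fwd 7830 37 tpr523.df)) (.leaf (.fwd 7867 32 tpr294.df))) (.leaf (.bwd 7899 22 tpr581.df))) (.node (.leaf (.fwd 7921 31 tpr527.df)) (.leaf (.bwd 7952 38 tpr526.df))))) (.node (.node (.node (.node (.leaf (.fwd 7990 32 tpr620.df)) (.leaf (.fwd 8022 29 tpr151.df))) (.leaf (.fwd 8051 27 tpr584.df))) (.node (.leaf (.fwd 8078 29 tpr608.df)) (.leaf (.bwd 8107 26 tpr516.df)))) (.node (.node (.leaf (.fwd 8133 39 tpr210.df)) (.leaf (.bwd 8172 25 tpr106.df))) (.node (.leaf (.bwd 8197 39 tpr615.df)) (.leaf (.fwd 8236 27 tpr529.df))))))) (.node (.node (.node (.node (.node (.node (.leaf (.fwd 8263 20 tpr505.df)) (.leaf (.fwd 8283 42 tpr972.df))) (.leaf (.fwd 8325 25 tpr2970.df))) (.node (.leaf (.bwd 8350 40 tpr724.df)) (.leaf (.bwd 8390 29 tpr978.df)))) (.node (.node (.node (.leaf (.bwd 8419 27 tpr979.df)) (.leaf (.bwd 8446 27 tpr977.df))) (.leaf (.bwd 8473 29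 tpr151.df))) (.node (.leaf (.bwd 8502 21 tpr1843.df)) (.leaf (.bwd 8523 29 tpr623.df))))) (.node (.node (.node (.node (.leaf (.fwd 8552 29 tpr623.df)) (.leaf (.fwd 8581 36 tpr665.df))) (.leaf (.bwd 8617 31 tpr576.df))) (.node (.leaf (.bwd 8648 35 tpr533.df)) (.leaf (.bwd 8683 34 tpr575.df)))) (.node (.node (.leaf (.fwd 8717 42 tpr812.df)) (.leaf (.fwd 8759 29 tpr945.df))) (.node (.leaf (.bwd 8788 26 tpr222.df)) (.leaf (.bwd 8814 22 tpr560.df)))))) (.node (.node (.node (.node (.node (.leaf (.fwd 8836 39 tpr514.df)) (.leaf (.bwd 8875 25 tpr728.df))) (.leaf (.fwd 8900 31 tpr704.df))) (.node (.leaf (.bwd 8931 21 tpr72.df)) (.leaf (.fwd 8952 15 tpr525.df)))) (.node (.node (.node (.leaf (.fwd 8967 19 tpr616.df)) (.leaf (.fwd 8986 34 tpr548.df))) (.leaf (.bwd 9020 19 tpr33.df))) (.node (.leaf (.fwd 9039 41 tpr502.df)) (.leaf (.fwd 9080 35 tpr568.df))))) (.node (.node (.node (.node (.leaf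 (.fwd 9115 44 tpr617.df)) (.leaf (.bwd 9159 41 tpr965.df))) (.leaf (.fwd 9200 29 tpr641.df))) (.node (.leaf (.bwd 9229 31 tpr198.df)) (.leaf (.fwd 9260 32 tpr522.df)))) (.node (.node (.leaf (.fwd 9292 31 tpr517.df)) (.leaf (.fwd 9323 23 tpr605.df))) (.node (.leaf (.bwd 9346 43 tpr292.df)) (.leaf (.fwd 9389 26 tpr222.df))))))))))

theorem iiNFzE2ByA3H2AzA2H3A2EzF_c : iiNFzE2ByA3H2AzA2H3A2EzF.all (itB (ng 61 nnNFzE2ByA3H2AzA2H3A2EzF)) = true := by decide +kernel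
theorem nbNFzE2ByA3H2AzA2H3A2EzF : nbB 61 9476 nnNFzE2ByA3H2AzA2H3A2EzF = true := by decide +kernel
theorem topNFzE2ByA3H2AzA2H3A2EzF : topY 9476 ttNFzE2ByA3H2AzA2H3A2EzF ceNFzE2ByA3H2AzA2H3A2EzF xNFzE2ByA3H2AzA2H3A2EzF iiNFzE2ByA3H2AzA2H3A2EzF = true := by decide +kernel

end MPb6R
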