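import Pool.Agent.Lib.MP_b6d339_lc.Cw3.YFzE2ByA3H2AzIzA2H3A2EyAzF
import Pool.Agent.Lib.MP_b6d339_lc.Cw3.XL
import Pool.Agent.Lib.MP_b6d339_lc.Cw3.T0
import Pool.Agent.Lib.MP_b6d339_lc.Cw3.T1
import Pool.Agent.Lib.MP_b6d339_lc.Cw3.T11
import Pool.Agent.Lib.MP_b6d339_lc.Cw3.T12
import Pool.Agent.Lib.MP_b6d339_lc.Cw3.T14
import Pool.Agent.Lib.MP_b6d339_lc.Cw3.T18
import Pool.Agent.Lib.MP_b6d339_lc.Cw3.T2
import Pool.Agent.Lib.MP_b6d339_lc.Cw3.T21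
import Pool.Agent.Lib.MP_b6d339_lc.Cw3.T22
import Pool.Agent.Lib.MP_b6d339_lc.Cw3.T25
import Pool.Agent.Lib.MP_b6d339_lc.Cw3.T3
import Pool.Agent.Lib.MP_b6d339_lc.Cw3.T30
import Pool.Agent.Lib.MP_b6d339_lc.Cw3.T4
import Pool.Agent.Lib.MP_b6d339_lc.Cw3.T5
import Pool.Agent.Lib.MP_b6d339_lc.Cw3.T6
import Pool.Agent.Lib.MP_b6d339_lc.Cw3.T7
import Pool.Agent.Lib.MP_b6d339_lc.Cw3.T8
import Pool.Agent.Lib.MP_b6d339_lc.Cw3.T9

/-!
# Erdős 592, three levels: items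
-/

namespace MPb6R

open MPb6P

noncomputable def iiNFzE2ByA3H2AzIzA2H3A2EyAzF : BT Itm := (.node (.node (.node (.node (.node (.node (.node (.node (.leaf (.fwd 0 16 tpr168.df)) (.leaf (.fwd 16 13 tpr500.df))) (.leaf (.bwd 29 13 tpr500.df))) (.node (.node (.leaf (.fwd 42 21 tpr8.df)) (.leaf (.fwd 63 23 tpr5.df))) (.leaf (.fwd 86 29 tpr656.df)))) (.node (.node (.node (.leaf (.fwd 115 29 tpr608.df)) (.leaf (.bwd 144 21 tpr72.df))) (.leaf (.fwd 165 19 tpr616.df))) (.node (.leaf (.fwd 184 29 tpr618.df)) (.leaf (.bwd 213 22 tpr504.df))))) (.node (.node (.node (.node (.leaf (.fwd 235 22 tpr515.df)) (.leaf (.fwd 257 20 tpr103.df))) (.leaf (.bwd 277 30 tpr513.df))) (.node (.node (.leaf (.fwd 307 22 tpr239.df)) (.leaf (.bwd 329 31 tpr607.df))) (.leaf (.bwd 360 27 tpr589.df)))) (.node (.node (.node (.leaf (.fwd 387 29 tpr666.df)) (.leaf (.fwd 416 27 tpr562.df))) (.leaf (.bwd 443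 27 tpr499.df))) (.node (.leaf (.fwd 470 6 tpr4.df)) (.leaf (.bwd 476 27 tpr82.df)))))) (.node (.node (.node (.node (.node (.leaf (.fwd 503 27 tpr499.df)) (.leaf (.bwd 530 26 tpr675.df))) (.leaf (.fwd 556 35 tpr622.df))) (.node (.node (.leaf (.bwd 591 32 tpr518.df)) (.leaf (.fwd 623 24 tpr609.df))) (.leaf (.bwd 647 31 tpr606.df)))) (.node (.node (.node (.leaf (.fwd 678 27 tpr625.df)) (.leaf (.fwd 705 31 tpr576.df))) (.leaf (.bwd 736 26 tpr509.df))) (.node (.leaf (.fwd 762 39 tpr210.df)) (.leaf (.fwd 801 17 tpr16.df))))) (.node (.node (.node (.node (.leaf (.fwd 818 28 tpr721.df)) (.leaf (.bwd 846 35 tpr259.df))) (.leaf (.fwd 881 30 tpr613.df))) (.node (.leaf (.bwd 911 23 tpr508.df)) (.leaf (.fwd 934 26 tpr516.df)))) (.node (.node (.node (.leaf (.bwd 960 24 tpr458.df)) (.leaf (.bwd 984 27 tpr236.df))) (.leaf (.bwd 1011 36 tpr547.df))) (.node (.leaf (.bwd 1047 29 tpr647.df))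 (.leaf (.fwd 1076 29 tpr692.df))))))) (.node (.node (.node (.node (.node (.node (.leaf (.fwd 1105 21 tpr474.df)) (.leaf (.bwd 1126 43 tpr566.df))) (.leaf (.fwd 1169 30 tpr537.df))) (.node (.node (.leaf (.fwd 1199 33 tpr501.df)) (.leaf (.fwd 1232 39 tpr642.df))) (.leaf (.bwd 1271 27 tpr524.df)))) (.node (.node (.node (.leaf (.bwd 1298 29 tpr545.df)) (.leaf (.bwd 1327 25 tpr677.df))) (.leaf (.fwd 1352 32 tpr294.df))) (.node (.leaf (.fwd 1384 42 tpr344.df)) (.leaf (.fwd 1426 30 tpr26.df))))) (.node (.node (.node (.node (.leaf (.bwd 1456 60 tpr630.df)) (.leaf (.bwd 1516 39 tpr81.df))) (.leaf (.bwd 1555 37 tpr571.df))) (.node (.leaf (.fwd 1592 24 tpr1681.df)) (.leaf (.fwd 1616 25 tpr702.df)))) (.node (.node (.node (.leaf (.fwd 1641 39 tpr514.df)) (.leaf (.bwd 1680 38 tpr519.df))) (.leaf (.fwd 1718 41 tpr549.df))) (.node (.leaf (.fwd 1759 31 tpr528.df)) (.leaf (.bwd 1790 35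 tpr123.df)))))) (.node (.node (.node (.node (.node (.leaf (.fwd 1825 33 tpr521.df)) (.leaf (.bwd 1858 41 tpr502.df))) (.leaf (.fwd 1899 37 tpr523.df))) (.node (.node (.leaf (.fwd 1936 29 tpr637.df)) (.leaf (.bwd 1965 56 tpr87.df))) (.leaf (.fwd 2021 61 tpr695.df)))) (.node (.node (.node (.leaf (.bwd 2082 32 tpr736.df)) (.leaf (.fwd 2114 37 tpr555.df))) (.leaf (.bwd 2151 28 tpr507.df))) (.node (.leaf (.bwd 2179 38 tpr203.df)) (.leaf (.bwd 2217 21 tpr629.df))))) (.node (.node (.node (.node (.leaf (.bwd 2238 27 tpr506.df)) (.leaf (.bwd 2265 25 tpr51.df))) (.leaf (.bwd 2290 31 tpr557.df))) (.node (.leaf (.fwd 2321 29 tpr9.df)) (.leaf (.bwd 2350 38 tpr526.df)))) (.node (.node (.node (.leaf (.fwd 2388 31 tpr606.df)) (.leaf (.bwd 2419 32 tpr247.df))) (.leaf (.bwd 2451 38 tpr238.df))) (.node (.leaf (.fwd 2489 27 tpr236.df)) (.leaf (.fwd 2516 25 tpr10.df)))))))) (.node (.node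 (.node (.node (.node (.node (.node (.leaf (.bwd 2541 39 tpr78.df)) (.leaf (.bwd 2580 29 tpr978.df))) (.leaf (.fwd 2609 42 tpr587.df))) (.node (.node (.leaf (.bwd 2651 42 tpr124.df)) (.leaf (.bwd 2693 42 tpr612.df))) (.leaf (.fwd 2735 27 tpr82.df)))) (.node (.node (.node (.leaf (.bwd 2762 28 tpr295.df)) (.leaf (.fwd 2790 25 tpr74.df))) (.leaf (.bwd 2815 37 tpr406.df))) (.node (.leaf (.fwd 2852 37 tpr621.df)) (.leaf (.fwd 2889 25 tpr711.df))))) (.node (.node (.node (.node (.leaf (.fwd 2914 37 tpr720.df)) (.leaf (.fwd 2951 38 tpr393.df))) (.leaf (.bwd 2989 43 tpr122.df))) (.node (.node (.leaf (.fwd 3032 23 tpr632.df)) (.leaf (.fwd 3055 25 tpr633.df))) (.leaf (.fwd 3080 34 tpr619.df)))) (.node (.node (.node (.leaf (.bwd 3114 41 tpr1182.df)) (.leaf (.fwd 3155 22 tpr953.df))) (.leaf (.bwd 3177 35 tpr533.df))) (.node (.leaf (.bwd 3212 43 tpr2433.df)) (.leaf (.fwd 3255 37 tpr1190.df))))))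 (.node (.node (.node (.node (.node (.leaf (.fwd 3292 33 tpr631.df)) (.leaf (.bwd 3325 40 tpr544.df))) (.leaf (.bwd 3365 39 tpr636.df))) (.node (.node (.leaf (.fwd 3404 36 tpr75.df)) (.leaf (.fwd 3440 31 tpr315.df))) (.leaf (.fwd 3471 37 tpr706.df)))) (.node (.node (.node (.leaf (.fwd 3508 38 tpr1137.df)) (.leaf (.fwd 3546 31 tpr527.df))) (.leaf (.bwd 3577 26 tpr516.df))) (.node (.leaf (.bwd 3603 32 tpr17.df)) (.leaf (.fwd 3635 35 tpr568.df))))) (.node (.node (.node (.node (.leaf (.bwd 3670 25 tpr106.df)) (.leaf (.bwd 3695 39 tpr615.df))) (.leaf (.bwd 3734 29 tpr582.df))) (.node (.leaf (.fwd 3763 35 tpr91.df)) (.leaf (.fwd 3798 37 tpr681.df)))) (.node (.node (.node (.leaf (.fwd 3835 32 tpr591.df)) (.leaf (.bwd 3867 28 tpr511.df))) (.leaf (.bwd 3895 35 tpr534.df))) (.node (.leaf (.fwd 3930 29 tpr1457.df)) (.leaf (.bwd 3959 23 tpr659.df))))))) (.node (.node (.node (.node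 (.node (.node (.leaf (.fwd 3982 36 tpr573.df)) (.leaf (.fwd 4018 29 tpr22.df))) (.leaf (.bwd 4047 31 tpr517.df))) (.node (.node (.leaf (.fwd 4078 34 tpr548.df)) (.leaf (.fwd 4112 36 tpr665.df))) (.leaf (.bwd 4148 29 tpr579.df)))) (.node (.node (.node (.leaf (.fwd 4177 35 tpr89.df)) (.leaf (.fwd 4212 49 tpr2028.df))) (.leaf (.fwd 4261 32 tpr251.df))) (.node (.leaf (.fwd 4293 32 tpr620.df)) (.leaf (.bwd 4325 35 tpr602.df))))) (.node (.node (.node (.node (.leaf (.fwd 4360 37 tpr687.df)) (.leaf (.fwd 4397 45 tpr611.df))) (.leaf (.fwd 4442 38 tpr526.df))) (.node (.leaf (.bwd 4480 40 tpr62.df)) (.leaf (.bwd 4520 30 tpr537.df)))) (.node (.node (.node (.leaf (.bwd 4550 41 tpr549.df)) (.leaf (.bwd 4591 28 tpr510.df))) (.leaf (.fwd 4619 37 tpr520.df))) (.node (.leaf (.fwd 4656 28 tpr610.df)) (.leaf (.fwd 4684 43 tpr2024.df)))))) (.node (.node (.node (.node (.node (.leaf (.fwd 4727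 22 tpr191.df)) (.leaf (.fwd 4749 37 tpr503.df))) (.leaf (.fwd 4786 44 tpr1747.df))) (.node (.node (.leaf (.fwd 4830 40 tpr1732.df)) (.leaf (.fwd 4870 36 tpr672.df))) (.leaf (.fwd 4906 40 tpr670.df)))) (.node (.node (.node (.leaf (.fwd 4946 34 tpr664.df)) (.leaf (.fwd 4980 31 tpr704.df))) (.leaf (.bwd 5011 36 tpr1813.df))) (.node (.leaf (.fwd 5047 37 tpr639.df)) (.leaf (.fwd 5084 37 tpr688.df))))) (.node (.node (.node (.node (.leaf (.bwd 5121 33 tpr689.df)) (.leaf (.bwd 5154 21 tpr90.df))) (.leaf (.fwd 5175 32 tpr522.df))) (.node (.leaf (.bwd 5207 32 tpr294.df)) (.leaf (.bwd 5239 37 tpr556.df)))) (.node (.node (.node (.leaf (.fwd 5276 23 tpr605.df)) (.leaf (.bwd 5299 43 tpr565.df))) (.leaf (.fwd 5342 34 tpr628.df))) (.node (.leaf (.fwd 5376 36 tpr662.df)) (.leaf (.fwd 5412 36 tpr686.df)))))))))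

theorem iiNFzE2ByA3H2AzIzA2H3A2EyAzF_c : iiNFzE2ByA3H2AzIzA2H3A2EyAzF.all (itB (ng 61 nnNFzE2ByA3H2AzIzA2H3A2EyAzF)) = true := by decide +kernel
theorem nbNFzE2ByA3H2AzIzA2H3A2EyAzF : nbB 61 5509 nnNFzE2ByA3H2AzIzA2H3A2EyAzF = true := by decide +kernel
theorem topNFzE2ByA3H2AzIzA2H3A2EyAzF : topY 5509 ttNFzE2ByA3H2AzIzA2H3A2EyAzF ceNFzE2ByA3H2AzIzA2H3A2EyAzF xNFzE2ByA3H2AzIzA2H3A2EyAzF iiNFzE2ByA3H2AzIzA2H3A2EyAzF = true := by decide +kernel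

end MPb6R
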