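import Pool.Agent.Lib.MP_b6d339_lc.Cw3.YFzE2ByA3H2AzIzAyB2H3A2EzB2F
import Pool.Agent.Lib.MP_b6d339_lc.Cw3.XL
import Pool.Agent.Lib.MP_b6d339_lc.Cw3.T0
import Pool.Agent.Lib.MP_b6d339_lc.Cw3.T1
import Pool.Agent.Lib.MP_b6d339_lc.Cw3.T10
import Pool.Agent.Lib.MP_b6d339_lc.Cw3.T11
import Pool.Agent.Lib.MP_b6d339_lc.Cw3.T12
import Pool.Agent.Lib.MP_b6d339_lc.Cw3.T14
import Pool.Agent.Lib.MP_b6d339_lc.Cw3.T15
import Pool.Agent.Lib.MP_b6d339_lc.Cw3.T17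
import Pool.Agent.Lib.MP_b6d339_lc.Cw3.T2
import Pool.Agent.Lib.MP_b6d339_lc.Cw3.T20
import Pool.Agent.Lib.MP_b6d339_lc.Cw3.T22
import Pool.Agent.Lib.MP_b6d339_lc.Cw3.T3
import Pool.Agent.Lib.MP_b6d339_lc.Cw3.T34
import Pool.Agent.Lib.MP_b6d339_lc.Cw3.T4
import Pool.Agent.Lib.MP_b6d339_lc.Cw3.T5
import Pool.Agent.Lib.MP_b6d339_lc.Cw3.T6
import Pool.Agent.Lib.MP_b6d339_lc.Cw3.T7
import Pool.Agent.Lib.MP_b6d339_lc.Cw3.T8
import Pool.Agent.Lib.MP_b6d339_lc.Cw3.T9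

/-!
# Erdős 592, three levels: items
-/

namespace MPb6R

open MPb6P

noncomputable def iiNFzE2ByA3H2AzIzAyB2H3A2EzB2F : BT Itm := (.node (.node (.node (.node (.node (.node (.node (.node (.leaf (.fwd 0 23 tpr5.df)) (.leaf (.fwd 23 13 tpr500.df))) (.node (.leaf (.bwd 36 27 tpr499.df)) (.leaf (.fwd 63 16 tpr168.df)))) (.node (.node (.leaf (.bwd 79 21 tpr8.df)) (.leaf (.fwd 100 23 tpr12.df))) (.node (.leaf (.fwd 123 24 tpr609.df)) (.leaf (.bwd 147 21 tpr90.df))))) (.node (.node (.node (.leaf (.fwd 168 25 tpr51.df)) (.leaf (.fwd 193 27 tpr82.df))) (.node (.leaf (.bwd 220 20 tpr505.df)) (.leaf (.fwd 240 32 tpr620.df)))) (.node (.node (.leaf (.fwd 272 31 tpr527.df)) (.leaf (.bwd 303 30 tpr626.df))) (.node (.leaf (.bwd 333 25 tpr10.df)) (.leaf (.fwd 358 30 tpr613.df)))))) (.node (.node (.node (.node (.leaf (.fwd 388 20 tpr216.df)) (.leaf (.fwd 408 37 tpr639.df))) (.node (.leaf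 (.bwd 445 29 tpr647.df)) (.leaf (.fwd 474 34 tpr548.df)))) (.node (.node (.leaf (.bwd 508 35 tpr703.df)) (.leaf (.bwd 543 26 tpr675.df))) (.node (.leaf (.fwd 569 40 tpr670.df)) (.leaf (.fwd 609 40 tpr32.df))))) (.node (.node (.node (.leaf (.bwd 649 46 tpr116.df)) (.leaf (.bwd 695 19 tpr33.df))) (.node (.leaf (.bwd 714 34 tpr1204.df)) (.leaf (.bwd 748 22 tpr953.df)))) (.node (.node (.leaf (.bwd 770 41 tpr188.df)) (.leaf (.fwd 811 21 tpr50.df))) (.node (.leaf (.fwd 832 34 tpr92.df)) (.leaf (.bwd 866 32 tpr39.df))))))) (.node (.node (.node (.node (.node (.leaf (.bwd 898 33 tpr31.df)) (.leaf (.fwd 931 33 tpr968.df))) (.node (.leaf (.bwd 964 41 tpr97.df)) (.leaf (.bwd 1005 40 tpr705.df)))) (.node (.node (.leaf (.bwd 1045 38 tpr6.df)) (.leaf (.bwd 1083 36 tpr244.df))) (.node (.leaf (.bwd 1119 44 tpr725.df)) (.leaf (.bwd 1163 52 tpr1839.df))))) (.node (.node (.node (.leaf (.fwd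 1215 21 tpr8.df)) (.leaf (.bwd 1236 27 tpr506.df))) (.node (.leaf (.bwd 1263 27 tpr236.df)) (.leaf (.bwd 1290 23 tpr659.df)))) (.node (.node (.leaf (.bwd 1313 14 tpr49.df)) (.leaf (.bwd 1327 20 tpr48.df))) (.node (.leaf (.bwd 1347 28 tpr223.df)) (.leaf (.bwd 1375 19 tpr429.df)))))) (.node (.node (.node (.node (.leaf (.fwd 1394 35 tpr658.df)) (.leaf (.bwd 1429 27 tpr788.df))) (.node (.leaf (.bwd 1456 29 tpr9.df)) (.leaf (.bwd 1485 29 tpr582.df)))) (.node (.node (.leaf (.bwd 1514 28 tpr941.df)) (.leaf (.fwd 1542 29 tpr46.df))) (.node (.leaf (.bwd 1571 24 tpr609.df)) (.leaf (.bwd 1595 34 tpr15.df))))) (.node (.node (.node (.leaf (.bwd 1629 33 tpr2747.df)) (.leaf (.bwd 1662 23 tpr133.df))) (.node (.leaf (.fwd 1685 21 tpr107.df)) (.leaf (.fwd 1706 17 tpr215.df)))) (.node (.node (.leaf (.fwd 1723 27 tpr131.df)) (.leaf (.fwd 1750 33 tpr35.df))) (.leaf (.bwd 1783 33 tpr28.df)))))))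 (.node (.node (.node (.node (.node (.node (.leaf (.bwd 1816 31 tpr21.df)) (.leaf (.bwd 1847 31 tpr607.df))) (.node (.leaf (.fwd 1878 35 tpr568.df)) (.leaf (.fwd 1913 28 tpr507.df)))) (.node (.node (.leaf (.bwd 1941 31 tpr167.df)) (.leaf (.bwd 1972 32 tpr518.df))) (.node (.leaf (.bwd 2004 23 tpr508.df)) (.leaf (.bwd 2027 28 tpr507.df))))) (.node (.node (.node (.leaf (.fwd 2055 37 tpr555.df)) (.leaf (.bwd 2092 29 tpr22.df))) (.node (.leaf (.bwd 2121 38 tpr203.df)) (.leaf (.fwd 2159 33 tpr521.df)))) (.node (.node (.leaf (.fwd 2192 22 tpr515.df)) (.leaf (.bwd 2214 18 tpr18.df))) (.node (.leaf (.bwd 2232 41 tpr1126.df)) (.leaf (.fwd 2273 32 tpr17.df)))))) (.node (.node (.node (.node (.leaf (.bwd 2305 30 tpr513.df)) (.leaf (.fwd 2335 20 tpr103.df))) (.node (.leaf (.bwd 2355 22 tpr504.df)) (.leaf (.fwd 2377 27 tpr499.df)))) (.node (.node (.leaf (.fwd 2404 25 tpr95.df)) (.leaf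 (.fwd 2429 32 tpr61.df))) (.node (.leaf (.fwd 2461 18 tpr161.df)) (.leaf (.fwd 2479 38 tpr105.df))))) (.node (.node (.node (.leaf (.bwd 2517 17 tpr144.df)) (.leaf (.bwd 2534 19 tpr47.df))) (.node (.leaf (.fwd 2553 30 tpr45.df)) (.leaf (.fwd 2583 28 tpr1018.df)))) (.node (.node (.leaf (.fwd 2611 24 tpr2746.df)) (.leaf (.fwd 2635 45 tpr139.df))) (.leaf (.fwd 2680 28 tpr940.df)))))) (.node (.node (.node (.node (.node (.leaf (.fwd 2708 30 tpr143.df)) (.leaf (.fwd 2738 31 tpr606.df))) (.node (.leaf (.bwd 2769 6 tpr4.df)) (.leaf (.fwd 2775 31 tpr557.df)))) (.node (.node (.leaf (.bwd 2806 31 tpr939.df)) (.leaf (.fwd 2837 13 tpr11.df))) (.node (.leaf (.bwd 2850 33 tpr221.df)) (.leaf (.fwd 2883 32 tpr251.df))))) (.node (.node (.node (.leaf (.bwd 2915 36 tpr101.df)) (.leaf (.fwd 2951 29 tpr656.df))) (.node (.leaf (.bwd 2980 34 tpr114.df)) (.leaf (.bwd 3014 28 tpr40.df)))) (.node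 (.node (.leaf (.fwd 3042 44 tpr150.df)) (.leaf (.fwd 3086 33 tpr501.df))) (.node (.leaf (.fwd 3119 29 tpr9.df)) (.leaf (.fwd 3148 36 tpr573.df)))))) (.node (.node (.node (.node (.leaf (.fwd 3184 23 tpr508.df)) (.leaf (.fwd 3207 28 tpr1666.df))) (.node (.leaf (.bwd 3235 38 tpr526.df)) (.leaf (.fwd 3273 34 tpr628.df)))) (.node (.node (.leaf (.fwd 3307 37 tpr571.df)) (.leaf (.fwd 3344 27 tpr236.df))) (.node (.leaf (.fwd 3371 26 tpr516.df)) (.leaf (.bwd 3397 31 tpr606.df))))) (.node (.node (.node (.leaf (.bwd 3428 32 tpr247.df)) (.leaf (.fwd 3460 20 tpr48.df))) (.node (.leaf (.fwd 3480 17 tpr16.df)) (.leaf (.fwd 3497 22 tpr239.df)))) (.node (.node (.leaf (.bwd 3519 25 tpr51.df)) (.leaf (.bwd 3544 28 tpr295.df))) (.leaf (.bwd 3572 29 tpr978.df)))))))) (.node (.node (.node (.node (.node (.node (.node (.leaf (.fwd 3601 30 tpr26.df)) (.leaf (.bwd 3631 27 tpr589.df))) (.node (.leaf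 (.fwd 3658 29 tpr637.df)) (.leaf (.bwd 3687 24 tpr458.df)))) (.node (.node (.leaf (.fwd 3711 39 tpr642.df)) (.leaf (.bwd 3750 26 tpr222.df))) (.node (.leaf (.fwd 3776 27 tpr562.df)) (.leaf (.bwd 3803 36 tpr23.df))))) (.node (.node (.node (.leaf (.fwd 3839 34 tpr54.df)) (.leaf (.fwd 3873 27 tpr977.df))) (.node (.leaf (.bwd 3900 42 tpr612.df)) (.leaf (.fwd 3942 25 tpr74.df)))) (.node (.node (.leaf (.fwd 3967 31 tpr339.df)) (.leaf (.bwd 3998 24 tpr743.df))) (.node (.leaf (.bwd 4022 45 tpr740.df)) (.leaf (.bwd 4067 43 tpr122.df)))))) (.node (.node (.node (.node (.leaf (.fwd 4110 36 tpr75.df)) (.leaf (.fwd 4146 42 tpr344.df))) (.node (.leaf (.bwd 4188 37 tpr406.df)) (.leaf (.fwd 4225 37 tpr621.df)))) (.node (.node (.leaf (.fwd 4262 37 tpr720.df)) (.leaf (.fwd 4299 38 tpr393.df))) (.node (.leaf (.fwd 4337 23 tpr632.df)) (.leaf (.fwd 4360 25 tpr702.df))))) (.node (.node (.node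 (.leaf (.fwd 4385 37 tpr1190.df)) (.leaf (.fwd 4422 27 tpr506.df))) (.node (.leaf (.fwd 4449 25 tpr633.df)) (.leaf (.bwd 4474 35 tpr259.df)))) (.node (.node (.leaf (.bwd 4509 35 tpr1200.df)) (.leaf (.fwd 4544 31 tpr315.df))) (.node (.leaf (.bwd 4575 31 tpr517.df)) (.leaf (.fwd 4606 44 tpr592.df))))))) (.node (.node (.node (.node (.node (.leaf (.bwd 4650 43 tpr676.df)) (.leaf (.bwd 4693 46 tpr593.df))) (.node (.leaf (.fwd 4739 24 tpr24.df)) (.leaf (.fwd 4763 37 tpr503.df)))) (.node (.node (.leaf (.fwd 4800 27 tpr625.df)) (.leaf (.bwd 4827 38 tpr519.df))) (.node (.leaf (.bwd 4865 27 tpr82.df)) (.leaf (.bwd 4892 41 tpr502.df))))) (.node (.node (.node (.leaf (.bwd 4933 26 tpr509.df)) (.leaf (.fwd 4959 37 tpr523.df))) (.node (.leaf (.fwd 4996 31 tpr576.df)) (.leaf (.fwd 5027 32 tpr294.df)))) (.node (.node (.leaf (.bwd 5059 44 tpr592.df)) (.leaf (.fwd 5103 43 tpr676.df))) (.node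 (.leaf (.fwd 5146 35 tpr622.df)) (.leaf (.bwd 5181 32 tpr17.df)))))) (.node (.node (.node (.node (.leaf (.fwd 5213 37 tpr520.df)) (.leaf (.fwd 5250 46 tpr593.df))) (.node (.leaf (.bwd 5296 29 tpr545.df)) (.leaf (.fwd 5325 29 tpr608.df)))) (.node (.node (.leaf (.bwd 5354 26 tpr516.df)) (.leaf (.bwd 5380 25 tpr106.df))) (.node (.leaf (.fwd 5405 19 tpr616.df)) (.leaf (.bwd 5424 28 tpr1406.df))))) (.node (.node (.node (.leaf (.fwd 5452 34 tpr614.df)) (.leaf (.fwd 5486 39 tpr210.df))) (.node (.leaf (.bwd 5525 29 tpr638.df)) (.leaf (.fwd 5554 37 tpr681.df)))) (.node (.node (.leaf (.fwd 5591 28 tpr610.df)) (.leaf (.fwd 5619 29 tpr22.df))) (.leaf (.bwd 5648 35 tpr602.df))))))) (.node (.node (.node (.node (.node (.node (.leaf (.fwd 5683 32 tpr591.df)) (.leaf (.fwd 5715 34 tpr619.df))) (.node (.leaf (.bwd 5749 28 tpr546.df)) (.leaf (.bwd 5777 36 tpr935.df)))) (.node (.node (.leaf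 (.fwd 5813 37 tpr687.df)) (.leaf (.bwd 5850 27 tpr1247.df))) (.node (.leaf (.fwd 5877 39 tpr514.df)) (.leaf (.bwd 5916 36 tpr547.df))))) (.node (.node (.node (.leaf (.bwd 5952 28 tpr510.df)) (.leaf (.fwd 5980 36 tpr672.df))) (.node (.leaf (.fwd 6016 37 tpr1199.df)) (.leaf (.fwd 6053 30 tpr626.df)))) (.node (.node (.leaf (.bwd 6083 36 tpr634.df)) (.leaf (.bwd 6119 24 tpr667.df))) (.node (.leaf (.fwd 6143 37 tpr553.df)) (.leaf (.fwd 6180 34 tpr664.df)))))) (.node (.node (.node (.node (.leaf (.fwd 6214 29 tpr666.df)) (.leaf (.fwd 6243 30 tpr989.df))) (.node (.leaf (.fwd 6273 29 tpr1639.df)) (.leaf (.bwd 6302 41 tpr552.df)))) (.node (.node (.leaf (.bwd 6343 33 tpr1205.df)) (.leaf (.fwd 6376 38 tpr526.df))) (.node (.leaf (.bwd 6414 37 tpr583.df)) (.leaf (.bwd 6451 16 tpr804.df))))) (.node (.node (.node (.leaf (.fwd 6467 33 tpr538.df)) (.leaf (.bwd 6500 28 tpr627.df))) (.node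 (.leaf (.fwd 6528 34 tpr543.df)) (.leaf (.bwd 6562 47 tpr542.df)))) (.node (.node (.leaf (.fwd 6609 36 tpr547.df)) (.leaf (.bwd 6645 43 tpr565.df))) (.leaf (.bwd 6688 21 tpr72.df)))))) (.node (.node (.node (.node (.node (.leaf (.fwd 6709 15 tpr525.df)) (.leaf (.fwd 6724 21 tpr25.df))) (.node (.leaf (.bwd 6745 27 tpr562.df)) (.leaf (.fwd 6772 36 tpr662.df)))) (.node (.node (.leaf (.bwd 6808 36 tpr1194.df)) (.leaf (.fwd 6844 36 tpr686.df))) (.node (.leaf (.fwd 6880 32 tpr247.df)) (.leaf (.bwd 6912 37 tpr555.df))))) (.node (.node (.node (.leaf (.bwd 6949 33 tpr689.df)) (.leaf (.bwd 6982 36 tpr1813.df))) (.node (.leaf (.fwd 7018 29 tpr746.df)) (.leaf (.fwd 7047 37 tpr688.df)))) (.node (.node (.leaf (.fwd 7084 38 tpr690.df)) (.leaf (.bwd 7122 40 tpr1799.df))) (.node (.leaf (.bwd 7162 34 tpr1195.df)) (.leaf (.fwd 7196 33 tpr631.df)))))) (.node (.node (.node (.node (.leaf (.bwd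 7229 41 tpr715.df)) (.leaf (.bwd 7270 42 tpr1196.df))) (.node (.leaf (.fwd 7312 28 tpr546.df)) (.leaf (.bwd 7340 32 tpr251.df)))) (.node (.node (.leaf (.fwd 7372 22 tpr536.df)) (.leaf (.fwd 7394 31 tpr198.df))) (.node (.leaf (.fwd 7425 54 tpr177.df)) (.leaf (.bwd 7479 41 tpr549.df))))) (.node (.node (.node (.leaf (.bwd 7520 30 tpr537.df)) (.leaf (.fwd 7550 28 tpr295.df))) (.node (.leaf (.fwd 7578 26 tpr245.df)) (.leaf (.fwd 7604 23 tpr605.df)))) (.node (.node (.leaf (.bwd 7627 35 tpr943.df)) (.leaf (.fwd 7662 24 tpr147.df))) (.leaf (.fwd 7686 34 tpr691.df)))))))))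

theorem iiNFzE2ByA3H2AzIzAyB2H3A2EzB2F_c : iiNFzE2ByA3H2AzIzAyB2H3A2EzB2F.all (itB (ng 54 nnNFzE2ByA3H2AzIzAyB2H3A2EzB2F)) = true := by decide +kernel
theorem nbNFzE2ByA3H2AzIzAyB2H3A2EzB2F : nbB 54 7774 nnNFzE2ByA3H2AzIzAyB2H3A2EzB2F = true := by decide +kernel
theorem topNFzE2ByA3H2AzIzAyB2H3A2EzB2F : topY 7774 ttNFzE2ByA3H2AzIzAyB2H3A2EzB2F ceNFzE2ByA3H2AzIzAyB2H3A2EzB2F xNFzE2ByA3H2AzIzAyB2H3A2EzB2F iiNFzE2ByA3H2AzIzAyB2H3A2EzB2F = true := by decide +kernel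

end MPb6R
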