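import Pool.Agent.Lib.MP_b6d339_lc.Cw3.YFzE2ByA3H2AzIzAyB2H3AyB2EzF
import Pool.Agent.Lib.MP_b6d339_lc.Cw3.XL
import Pool.Agent.Lib.MP_b6d339_lc.Cw3.T0
import Pool.Agent.Lib.MP_b6d339_lc.Cw3.T1
import Pool.Agent.Lib.MP_b6d339_lc.Cw3.T10
import Pool.Agent.Lib.MP_b6d339_lc.Cw3.T11
import Pool.Agent.Lib.MP_b6d339_lc.Cw3.T12
import Pool.Agent.Lib.MP_b6d339_lc.Cw3.T13
import Pool.Agent.Lib.MP_b6d339_lc.Cw3.T14
import Pool.Agent.Lib.MP_b6d339_lc.Cw3.T15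
import Pool.Agent.Lib.MP_b6d339_lc.Cw3.T16
import Pool.Agent.Lib.MP_b6d339_lc.Cw3.T18
import Pool.Agent.Lib.MP_b6d339_lc.Cw3.T19
import Pool.Agent.Lib.MP_b6d339_lc.Cw3.T2
import Pool.Agent.Lib.MP_b6d339_lc.Cw3.T20
import Pool.Agent.Lib.MP_b6d339_lc.Cw3.T21
import Pool.Agent.Lib.MP_b6d339_lc.Cw3.T22
import Pool.Agent.Lib.MP_b6d339_lc.Cw3.T25
import Pool.Agent.Lib.MP_b6d339_lc.Cw3.T3
import Pool.Agent.Lib.MP_b6d339_lc.Cw3.T4
import Pool.Agent.Lib.MP_b6d339_lc.Cw3.T5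
import Pool.Agent.Lib.MP_b6d339_lc.Cw3.T6
import Pool.Agent.Lib.MP_b6d339_lc.Cw3.T7
import Pool.Agent.Lib.MP_b6d339_lc.Cw3.T8
import Pool.Agent.Lib.MP_b6d339_lc.Cw3.T9

/-!
# Erdős 592, three levels: items
-/

namespace MPb6R

open MPb6P

noncomputable def iiNFzE2ByA3H2AzIzAyB2H3AyB2EzF : BT Itm := (.node (.node (.node (.node (.node (.node (.node (.node (.node (.leaf (.bwd 0 16 tpr168.df)) (.leaf (.fwd 16 16 tpr168.df))) (.node (.leaf (.fwd 32 13 tpr500.df)) (.leaf (.fwd 45 6 tpr4.df)))) (.node (.node (.leaf (.bwd 51 21 tpr8.df)) (.leaf (.fwd 72 24 tpr789.df))) (.leaf (.bwd 96 29 tpr656.df)))) (.node (.node (.node (.leaf (.bwd 125 6 tpr4.df)) (.leaf (.bwd 131 21 tpr90.df))) (.leaf (.bwd 152 23 tpr5.df))) (.node (.node (.leaf (.bwd 175 22 tpr239.df)) (.leaf (.fwd 197 21 tpr8.df))) (.leaf (.bwd 218 27 tpr589.df))))) (.node (.node (.node (.node (.leaf (.fwd 245 29 tpr618.df)) (.leaf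 (.bwd 274 29 tpr618.df))) (.leaf (.fwd 303 27 tpr506.df))) (.node (.node (.leaf (.fwd 330 23 tpr508.df)) (.leaf (.bwd 353 22 tpr953.df))) (.leaf (.fwd 375 27 tpr589.df)))) (.node (.node (.node (.leaf (.fwd 402 23 tpr605.df)) (.leaf (.bwd 425 29 tpr608.df))) (.leaf (.bwd 454 27 tpr236.df))) (.node (.node (.leaf (.fwd 481 39 tpr210.df)) (.leaf (.bwd 520 31 tpr606.df))) (.leaf (.bwd 551 28 tpr1013.df)))))) (.node (.node (.node (.node (.node (.leaf (.bwd 579 35 tpr1054.df)) (.leaf (.bwd 614 39 tpr210.df))) (.node (.leaf (.fwd 653 31 tpr606.df)) (.leaf (.fwd 684 31 tpr527.df)))) (.node (.node (.leaf (.bwd 715 31 tpr527.df)) (.leaf (.bwd 746 27 tpr562.df))) (.leaf (.bwd 773 35 tpr585.df)))) (.node (.node (.node (.leaf (.fwd 808 31 tpr607.df)) (.leaf (.bwd 839 35 tpr541.df))) (.leaf (.fwd 874 28 tpr1013.df))) (.node (.node (.leaf (.fwd 902 31 tpr517.df)) (.leaf (.bwd 933 36 tpr547.df)))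 (.leaf (.bwd 969 33 tpr631.df))))) (.node (.node (.node (.node (.leaf (.bwd 1002 30 tpr1730.df)) (.leaf (.fwd 1032 32 tpr251.df))) (.leaf (.fwd 1064 29 tpr579.df))) (.node (.node (.leaf (.bwd 1093 27 tpr625.df)) (.leaf (.fwd 1120 29 tpr641.df))) (.leaf (.fwd 1149 28 tpr627.df)))) (.node (.node (.node (.leaf (.bwd 1177 24 tpr635.df)) (.leaf (.bwd 1201 26 tpr700.df))) (.leaf (.bwd 1227 39 tpr636.df))) (.node (.node (.leaf (.fwd 1266 28 tpr610.df)) (.leaf (.bwd 1294 22 tpr572.df))) (.leaf (.bwd 1316 37 tpr583.df))))))) (.node (.node (.node (.node (.node (.node (.leaf (.fwd 1353 39 tpr701.df)) (.leaf (.bwd 1392 30 tpr577.df))) (.node (.leaf (.fwd 1422 34 tpr619.df)) (.leaf (.bwd 1456 39 tpr701.df)))) (.node (.node (.leaf (.fwd 1495 35 tpr1054.df)) (.leaf (.bwd 1530 37 tpr1094.df))) (.leaf (.fwd 1567 23 tpr12.df)))) (.node (.node (.node (.leaf (.fwd 1590 25 tpr1016.df)) (.leaf (.fwd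 1615 29 tpr582.df))) (.leaf (.fwd 1644 21 tpr1108.df))) (.node (.node (.leaf (.fwd 1665 37 tpr556.df)) (.leaf (.bwd 1702 25 tpr10.df))) (.leaf (.fwd 1727 30 tpr235.df))))) (.node (.node (.node (.node (.leaf (.bwd 1757 46 tpr1737.df)) (.leaf (.fwd 1803 36 tpr683.df))) (.leaf (.bwd 1839 29 tpr641.df))) (.node (.node (.leaf (.bwd 1868 35 tpr1028.df)) (.leaf (.fwd 1903 34 tpr748.df))) (.leaf (.bwd 1937 35 tpr1015.df)))) (.node (.node (.node (.leaf (.bwd 1972 31 tpr1538.df)) (.leaf (.fwd 2003 37 tpr1064.df))) (.leaf (.bwd 2040 29 tpr692.df))) (.node (.node (.leaf (.bwd 2069 37 tpr1052.df)) (.leaf (.bwd 2106 41 tpr188.df))) (.leaf (.bwd 2147 46 tpr1744.df)))))) (.node (.node (.node (.node (.node (.leaf (.bwd 2193 32 tpr1065.df)) (.leaf (.fwd 2225 43 tpr734.df))) (.node (.leaf (.fwd 2268 21 tpr1132.df)) (.leaf (.bwd 2289 36 tpr1757.df)))) (.node (.node (.leaf (.bwd 2325 42 tpr1568.df))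 (.leaf (.bwd 2367 28 tpr1121.df))) (.leaf (.bwd 2395 44 tpr1739.df)))) (.node (.node (.node (.leaf (.bwd 2439 51 tpr1743.df)) (.leaf (.fwd 2490 32 tpr1111.df))) (.leaf (.bwd 2522 28 tpr1032.df))) (.node (.node (.leaf (.bwd 2550 48 tpr1740.df)) (.leaf (.bwd 2598 51 tpr1753.df))) (.leaf (.fwd 2649 48 tpr1053.df))))) (.node (.node (.node (.node (.leaf (.bwd 2697 25 tpr1218.df)) (.leaf (.fwd 2722 37 tpr1750.df))) (.leaf (.fwd 2759 24 tpr912.df))) (.node (.node (.leaf (.fwd 2783 29 tpr1457.df)) (.leaf (.bwd 2812 32 tpr1769.df))) (.leaf (.bwd 2844 29 tpr1457.df)))) (.node (.node (.node (.leaf (.fwd 2873 24 tpr609.df)) (.leaf (.bwd 2897 28 tpr721.df))) (.leaf (.bwd 2925 26 tpr245.df))) (.node (.node (.leaf (.fwd 2951 20 tpr768.df)) (.leaf (.fwd 2971 27 tpr236.df))) (.leaf (.fwd 2998 25 tpr51.df)))))))) (.node (.node (.node (.node (.node (.node (.node (.leaf (.bwd 3023 31 tpr557.df)) (.leaf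 (.fwd 3054 23 tpr780.df))) (.node (.leaf (.bwd 3077 18 tpr18.df)) (.leaf (.bwd 3095 27 tpr499.df)))) (.node (.node (.leaf (.fwd 3122 25 tpr644.df)) (.leaf (.fwd 3147 19 tpr429.df))) (.leaf (.bwd 3166 29 tpr9.df)))) (.node (.node (.node (.leaf (.bwd 3195 46 tpr116.df)) (.leaf (.bwd 3241 40 tpr1732.df))) (.leaf (.bwd 3281 44 tpr1756.df))) (.node (.node (.leaf (.bwd 3325 44 tpr1747.df)) (.leaf (.bwd 3369 35 tpr29.df))) (.leaf (.bwd 3404 35 tpr601.df))))) (.node (.node (.node (.node (.leaf (.bwd 3439 31 tpr1010.df)) (.leaf (.fwd 3470 22 tpr953.df))) (.leaf (.bwd 3492 34 tpr1728.df))) (.node (.node (.leaf (.bwd 3526 24 tpr609.df)) (.leaf (.bwd 3550 25 tpr915.df))) (.leaf (.bwd 3575 19 tpr429.df)))) (.node (.node (.node (.leaf (.bwd 3594 36 tpr665.df)) (.leaf (.bwd 3630 28 tpr223.df))) (.leaf (.bwd 3658 28 tpr563.df))) (.node (.node (.leaf (.bwd 3686 39 tpr1735.df)) (.leaf (.bwd 3725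 43 tpr323.df))) (.leaf (.bwd 3768 24 tpr1056.df)))))) (.node (.node (.node (.node (.node (.leaf (.bwd 3792 35 tpr969.df)) (.leaf (.bwd 3827 55 tpr314.df))) (.node (.leaf (.fwd 3882 28 tpr1021.df)) (.leaf (.fwd 3910 35 tpr568.df)))) (.node (.node (.leaf (.fwd 3945 51 tpr1023.df)) (.leaf (.bwd 3996 37 tpr1022.df))) (.leaf (.bwd 4033 19 tpr1103.df)))) (.node (.node (.node (.leaf (.bwd 4052 31 tpr607.df)) (.leaf (.fwd 4083 37 tpr555.df))) (.leaf (.bwd 4120 19 tpr616.df))) (.node (.node (.leaf (.fwd 4139 26 tpr700.df)) (.leaf (.fwd 4165 25 tpr679.df))) (.leaf (.fwd 4190 24 tpr635.df))))) (.node (.node (.node (.node (.leaf (.fwd 4214 46 tpr1105.df)) (.leaf (.fwd 4260 38 tpr1100.df))) (.leaf (.fwd 4298 13 tpr11.df))) (.node (.node (.leaf (.fwd 4311 27 tpr82.df)) (.leaf (.bwd 4338 29 tpr22.df))) (.leaf (.fwd 4367 32 tpr1009.df)))) (.node (.node (.node (.leaf (.bwd 4399 33 tpr1099.df)) (.leaf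 (.fwd 4432 38 tpr1554.df))) (.leaf (.fwd 4470 39 tpr1112.df))) (.node (.node (.leaf (.bwd 4509 58 tpr1143.df)) (.leaf (.bwd 4567 37 tpr555.df))) (.leaf (.fwd 4604 29 tpr564.df))))))) (.node (.node (.node (.node (.node (.node (.leaf (.bwd 4633 30 tpr727.df)) (.leaf (.bwd 4663 21 tpr629.df))) (.node (.leaf (.bwd 4684 37 tpr639.df)) (.leaf (.bwd 4721 31 tpr576.df)))) (.node (.node (.leaf (.bwd 4752 32 tpr294.df)) (.leaf (.fwd 4784 28 tpr511.df))) (.leaf (.fwd 4812 28 tpr563.df)))) (.node (.node (.node (.leaf (.fwd 4840 41 tpr502.df)) (.leaf (.fwd 4881 29 tpr545.df))) (.leaf (.fwd 4910 32 tpr17.df))) (.node (.node (.leaf (.bwd 4942 49 tpr960.df)) (.leaf (.bwd 4991 35 tpr658.df))) (.leaf (.fwd 5026 44 tpr617.df))))) (.node (.node (.node (.node (.leaf (.bwd 5070 34 tpr548.df)) (.leaf (.fwd 5104 36 tpr547.df))) (.leaf (.bwd 5140 36 tpr573.df))) (.node (.node (.leaf (.bwd 5176 43 tpr1144.df))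 (.leaf (.bwd 5219 35 tpr91.df))) (.leaf (.fwd 5254 34 tpr614.df)))) (.node (.node (.node (.leaf (.fwd 5288 45 tpr596.df)) (.leaf (.fwd 5333 29 tpr656.df))) (.leaf (.bwd 5362 22 tpr560.df))) (.node (.node (.leaf (.fwd 5384 22 tpr239.df)) (.leaf (.fwd 5406 18 tpr18.df))) (.leaf (.fwd 5424 26 tpr245.df)))))) (.node (.node (.node (.node (.node (.leaf (.bwd 5450 49 tpr1768.df)) (.leaf (.fwd 5499 32 tpr550.df))) (.leaf (.bwd 5531 30 tpr1227.df))) (.node (.node (.leaf (.bwd 5561 37 tpr556.df)) (.leaf (.bwd 5598 32 tpr247.df))) (.leaf (.fwd 5630 26 tpr516.df)))) (.node (.node (.node (.leaf (.fwd 5656 21 tpr90.df)) (.leaf (.fwd 5677 27 tpr584.df))) (.leaf (.fwd 5704 23 tpr640.df))) (.node (.node (.leaf (.fwd 5727 35 tpr89.df)) (.leaf (.bwd 5762 42 tpr1196.df))) (.leaf (.fwd 5804 36 tpr453.df))))) (.node (.node (.node (.node (.leaf (.bwd 5840 31 tpr517.df)) (.leaf (.bwd 5871 25 tpr51.df)))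 (.leaf (.fwd 5896 28 tpr295.df))) (.node (.node (.leaf (.fwd 5924 20 tpr48.df)) (.leaf (.fwd 5944 61 tpr2037.df))) (.leaf (.bwd 6005 36 tpr23.df)))) (.node (.node (.node (.leaf (.fwd 6041 35 tpr259.df)) (.leaf (.fwd 6076 27 tpr562.df))) (.leaf (.fwd 6103 23 tpr1180.df))) (.node (.node (.leaf (.fwd 6126 22 tpr572.df)) (.leaf (.bwd 6148 20 tpr768.df))) (.leaf (.bwd 6168 23 tpr559.df))))))))) (.node (.node (.node (.node (.node (.node (.node (.node (.leaf (.bwd 6191 27 tpr506.df)) (.leaf (.bwd 6218 24 tpr789.df))) (.node (.leaf (.bwd 6242 28 tpr627.df)) (.leaf (.fwd 6270 35 tpr585.df)))) (.node (.node (.leaf (.fwd 6305 31 tpr167.df)) (.leaf (.bwd 6336 33 tpr968.df))) (.leaf (.fwd 6369 25 tpr1257.df)))) (.node (.node (.node (.leaf (.fwd 6394 24 tpr293.df)) (.leaf (.fwd 6418 22 tpr560.df))) (.leaf (.fwd 6440 35 tpr1028.df))) (.node (.node (.leaf (.bwd 6475 33 tpr501.df)) (.leaf (.fwd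 6508 29 tpr692.df))) (.leaf (.fwd 6537 39 tpr642.df))))) (.node (.node (.node (.node (.leaf (.fwd 6576 35 tpr1015.df)) (.leaf (.bwd 6611 24 tpr293.df))) (.leaf (.bwd 6635 54 tpr1745.df))) (.node (.node (.leaf (.bwd 6689 35 tpr1749.df)) (.leaf (.bwd 6724 24 tpr1280.df))) (.leaf (.fwd 6748 34 tpr628.df)))) (.node (.node (.node (.leaf (.fwd 6782 31 tpr576.df)) (.leaf (.fwd 6813 32 tpr294.df))) (.leaf (.fwd 6845 37 tpr571.df))) (.node (.node (.leaf (.fwd 6882 33 tpr1099.df)) (.leaf (.bwd 6915 41 tpr502.df))) (.leaf (.fwd 6956 34 tpr548.df)))))) (.node (.node (.node (.node (.node (.leaf (.bwd 6990 31 tpr704.df)) (.leaf (.fwd 7021 30 tpr613.df))) (.node (.leaf (.bwd 7051 20 tpr505.df)) (.leaf (.fwd 7071 27 tpr625.df)))) (.node (.node (.leaf (.fwd 7098 28 tpr721.df)) (.leaf (.bwd 7126 29 tpr637.df))) (.leaf (.fwd 7155 26 tpr675.df)))) (.node (.node (.node (.leaf (.fwd 7181 32 tpr1065.df))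 (.leaf (.fwd 7213 31 tpr1047.df))) (.leaf (.bwd 7244 38 tpr203.df))) (.node (.node (.leaf (.fwd 7282 25 tpr1266.df)) (.leaf (.bwd 7307 29 tpr582.df))) (.leaf (.bwd 7336 25 tpr1770.df))))) (.node (.node (.node (.node (.leaf (.fwd 7361 33 tpr680.df)) (.leaf (.fwd 7394 41 tpr1135.df))) (.leaf (.fwd 7435 33 tpr645.df))) (.node (.node (.leaf (.fwd 7468 31 tpr198.df)) (.leaf (.bwd 7499 28 tpr990.df))) (.leaf (.bwd 7527 44 tpr1731.df)))) (.node (.node (.node (.leaf (.bwd 7571 35 tpr89.df)) (.leaf (.bwd 7606 43 tpr734.df))) (.leaf (.bwd 7649 27 tpr540.df))) (.node (.node (.leaf (.fwd 7676 31 tpr975.df)) (.leaf (.fwd 7707 33 tpr501.df))) (.leaf (.fwd 7740 26 tpr1729.df))))))) (.node (.node (.node (.node (.node (.node (.leaf (.fwd 7766 32 tpr1051.df)) (.leaf (.fwd 7798 28 tpr1018.df))) (.node (.leaf (.fwd 7826 36 tpr573.df)) (.leaf (.fwd 7862 45 tpr611.df)))) (.node (.node (.leaf (.bwd 7907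 29 tpr579.df)) (.leaf (.bwd 7936 27 tpr977.df))) (.leaf (.bwd 7963 23 tpr1180.df)))) (.node (.node (.node (.leaf (.fwd 7986 32 tpr620.df)) (.leaf (.fwd 8018 24 tpr1056.df))) (.leaf (.bwd 8042 35 tpr259.df))) (.node (.node (.leaf (.bwd 8077 27 tpr82.df)) (.leaf (.fwd 8104 39 tpr1735.df))) (.leaf (.fwd 8143 29 tpr22.df))))) (.node (.node (.node (.node (.leaf (.bwd 8172 56 tpr1742.df)) (.leaf (.fwd 8228 41 tpr965.df))) (.leaf (.fwd 8269 36 tpr23.df))) (.node (.node (.leaf (.fwd 8305 59 tpr803.df)) (.leaf (.fwd 8364 39 tpr1580.df))) (.leaf (.fwd 8403 35 tpr658.df)))) (.node (.node (.node (.leaf (.fwd 8438 42 tpr1138.df)) (.leaf (.bwd 8480 37 tpr1064.df))) (.leaf (.bwd 8517 35 tpr568.df))) (.node (.node (.leaf (.fwd 8552 26 tpr509.df)) (.leaf (.fwd 8578 41 tpr188.df))) (.leaf (.bwd 8619 27 tpr1247.df)))))) (.node (.node (.node (.node (.node (.leaf (.bwd 8646 30 tpr235.df)) (.leaf (.bwd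 8676 50 tpr1233.df))) (.node (.leaf (.bwd 8726 13 tpr11.df)) (.leaf (.bwd 8739 28 tpr546.df)))) (.node (.node (.leaf (.fwd 8767 32 tpr518.df)) (.leaf (.bwd 8799 32 tpr17.df))) (.leaf (.fwd 8831 31 tpr1044.df)))) (.node (.node (.node (.leaf (.fwd 8862 38 tpr1767.df)) (.leaf (.bwd 8900 42 tpr612.df))) (.leaf (.fwd 8942 27 tpr977.df))) (.node (.node (.leaf (.bwd 8969 25 tpr679.df)) (.leaf (.fwd 8994 28 tpr1032.df))) (.leaf (.bwd 9022 28 tpr507.df))))) (.node (.node (.node (.node (.leaf (.fwd 9050 61 tpr1141.df)) (.leaf (.bwd 9111 32 tpr518.df))) (.leaf (.bwd 9143 25 tpr1016.df))) (.node (.node (.leaf (.fwd 9168 39 tpr1077.df)) (.leaf (.fwd 9207 29 tpr1072.df))) (.leaf (.bwd 9236 53 tpr1067.df)))) (.node (.node (.node (.leaf (.bwd 9289 47 tpr1070.df)) (.leaf (.bwd 9336 48 tpr1748.df))) (.leaf (.fwd 9384 35 tpr91.df))) (.node (.node (.leaf (.fwd 9419 48 tpr649.df)) (.leaf (.bwd 9467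 35 tpr1154.df))) (.leaf (.fwd 9502 52 tpr1071.df)))))))) (.node (.node (.node (.node (.node (.node (.node (.leaf (.fwd 9554 30 tpr1024.df)) (.leaf (.bwd 9584 29 tpr1040.df))) (.node (.leaf (.bwd 9613 34 tpr619.df)) (.leaf (.fwd 9647 39 tpr636.df)))) (.node (.node (.leaf (.fwd 9686 34 tpr1728.df)) (.leaf (.bwd 9720 29 tpr1059.df))) (.leaf (.bwd 9749 21 tpr1045.df)))) (.node (.node (.node (.leaf (.fwd 9770 30 tpr1227.df)) (.leaf (.bwd 9800 41 tpr1063.df))) (.leaf (.bwd 9841 31 tpr1049.df))) (.node (.node (.leaf (.fwd 9872 29 tpr608.df)) (.leaf (.fwd 9901 24 tpr1060.df))) (.leaf (.bwd 9925 26 tpr516.df))))) (.node (.node (.node (.node (.leaf (.bwd 9951 39 tpr642.df)) (.leaf (.bwd 9990 49 tpr1120.df))) (.leaf (.fwd 10039 25 tpr1733.df))) (.node (.node (.leaf (.bwd 10064 40 tpr1751.df)) (.leaf (.bwd 10104 25 tpr1104.df))) (.leaf (.fwd 10129 30 tpr1772.df)))) (.node (.node (.node (.leaf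 (.fwd 10159 27 tpr1766.df)) (.leaf (.bwd 10186 49 tpr1746.df))) (.leaf (.bwd 10235 53 tpr1779.df))) (.node (.node (.leaf (.fwd 10288 44 tpr1228.df)) (.leaf (.bwd 10332 40 tpr1775.df))) (.leaf (.bwd 10372 35 tpr602.df)))))) (.node (.node (.node (.node (.node (.leaf (.bwd 10407 27 tpr1760.df)) (.leaf (.bwd 10434 27 tpr240.df))) (.node (.leaf (.fwd 10461 35 tpr554.df)) (.leaf (.bwd 10496 44 tpr617.df)))) (.node (.node (.leaf (.fwd 10540 38 tpr238.df)) (.leaf (.fwd 10578 30 tpr577.df))) (.leaf (.bwd 10608 30 tpr1024.df)))) (.node (.node (.node (.leaf (.fwd 10638 42 tpr1019.df)) (.leaf (.fwd 10680 21 tpr629.df))) (.leaf (.fwd 10701 41 tpr624.df))) (.node (.node (.leaf (.fwd 10742 39 tpr962.df)) (.leaf (.bwd 10781 36 tpr683.df))) (.leaf (.bwd 10817 33 tpr680.df))))) (.node (.node (.node (.node (.leaf (.fwd 10850 42 tpr1050.df)) (.leaf (.bwd 10892 28 tpr610.df))) (.leaf (.fwd 10920 32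 tpr247.df))) (.node (.node (.leaf (.fwd 10952 36 tpr672.df)) (.leaf (.fwd 10988 33 tpr631.df))) (.leaf (.bwd 11021 34 tpr614.df)))) (.node (.node (.node (.leaf (.fwd 11055 39 tpr615.df)) (.leaf (.fwd 11094 41 tpr1063.df))) (.leaf (.fwd 11135 32 tpr1633.df))) (.node (.node (.leaf (.bwd 11167 45 tpr596.df)) (.leaf (.bwd 11212 34 tpr748.df))) (.leaf (.bwd 11246 37 tpr1075.df))))))) (.node (.node (.node (.node (.node (.node (.leaf (.fwd 11283 34 tpr1061.df)) (.leaf (.bwd 11317 39 tpr514.df))) (.node (.leaf (.bwd 11356 45 tpr611.df)) (.leaf (.bwd 11401 48 tpr684.df)))) (.node (.node (.leaf (.fwd 11449 37 tpr1052.df)) (.leaf (.bwd 11486 31 tpr1047.df))) (.leaf (.bwd 11517 34 tpr1061.df)))) (.node (.node (.node (.leaf (.bwd 11551 35 tpr703.df)) (.leaf (.bwd 11586 30 tpr613.df))) (.leaf (.fwd 11616 35 tpr703.df))) (.node (.node (.leaf (.bwd 11651 34 tpr1195.df)) (.leaf (.bwd 11685 39 tpr615.df)))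 (.leaf (.bwd 11724 47 tpr542.df))))) (.node (.node (.node (.node (.leaf (.fwd 11771 40 tpr597.df)) (.leaf (.fwd 11811 31 tpr704.df))) (.leaf (.fwd 11842 34 tpr1764.df))) (.node (.node (.leaf (.bwd 11876 30 tpr1734.df)) (.leaf (.bwd 11906 33 tpr689.df))) (.leaf (.fwd 11939 37 tpr1199.df)))) (.node (.node (.node (.leaf (.bwd 11976 32 tpr1219.df)) (.leaf (.fwd 12008 56 tpr1278.df))) (.leaf (.bwd 12064 29 tpr1234.df))) (.node (.node (.leaf (.fwd 12093 50 tpr1233.df)) (.leaf (.fwd 12143 46 tpr1275.df))) (.leaf (.fwd 12189 55 tpr1279.df)))))) (.node (.node (.node (.node (.node (.leaf (.fwd 12244 53 tpr1067.df)) (.leaf (.fwd 12297 30 tpr626.df))) (.leaf (.fwd 12327 29 tpr698.df))) (.node (.node (.leaf (.fwd 12356 34 tpr54.df)) (.leaf (.fwd 12390 38 tpr519.df))) (.leaf (.bwd 12428 36 tpr453.df)))) (.node (.node (.node (.leaf (.fwd 12464 46 tpr1765.df)) (.leaf (.fwd 12510 39 tpr514.df)))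 (.leaf (.bwd 12549 48 tpr1053.df))) (.node (.node (.leaf (.fwd 12597 41 tpr1148.df)) (.leaf (.bwd 12638 33 tpr645.df))) (.leaf (.bwd 12671 19 tpr33.df))))) (.node (.node (.node (.node (.leaf (.fwd 12690 28 tpr546.df)) (.leaf (.bwd 12718 37 tpr706.df))) (.leaf (.bwd 12755 32 tpr1017.df))) (.node (.node (.leaf (.fwd 12787 25 tpr1031.df)) (.leaf (.bwd 12812 23 tpr640.df))) (.leaf (.fwd 12835 33 tpr44.df)))) (.node (.node (.node (.leaf (.bwd 12868 24 tpr578.df)) (.leaf (.fwd 12892 30 tpr727.df))) (.leaf (.fwd 12922 26 tpr984.df))) (.node (.node (.leaf (.bwd 12948 37 tpr1789.df)) (.leaf (.fwd 12985 38 tpr203.df))) (.leaf (.fwd 13023 25 tpr1084.df))))))))))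

theorem iiNFzE2ByA3H2AzIzAyB2H3AyB2EzF_c : iiNFzE2ByA3H2AzIzAyB2H3AyB2EzF.all (itB (ng 61 nnNFzE2ByA3H2AzIzAyB2H3AyB2EzF)) = true := by decide +kernel
theorem nbNFzE2ByA3H2AzIzAyB2H3AyB2EzF : nbB 61 13109 nnNFzE2ByA3H2AzIzAyB2H3AyB2EzF = true := by decide +kernel
theorem topNFzE2ByA3H2AzIzAyB2H3AyB2EzF : topY 13109 ttNFzE2ByA3H2AzIzAyB2H3AyB2EzF ceNFzE2ByA3H2AzIzAyB2H3AyB2EzF xNFzE2ByA3H2AzIzAyB2H3AyB2EzF iiNFzE2ByA3H2AzIzAyB2H3AyB2EzF = true := by decide +kernel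

end MPb6R
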