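import Pool.Agent.Lib.MP_b6d339_lc.Cw3.YFzE2ByA3H2ByAzIzAyB2H3AyB2EzF
import Pool.Agent.Lib.MP_b6d339_lc.Cw3.XL
import Pool.Agent.Lib.MP_b6d339_lc.Cw3.T0
import Pool.Agent.Lib.MP_b6d339_lc.Cw3.T1
import Pool.Agent.Lib.MP_b6d339_lc.Cw3.T10
import Pool.Agent.Lib.MP_b6d339_lc.Cw3.T12
import Pool.Agent.Lib.MP_b6d339_lc.Cw3.T13
import Pool.Agent.Lib.MP_b6d339_lc.Cw3.T14
import Pool.Agent.Lib.MP_b6d339_lc.Cw3.T15
import Pool.Agent.Lib.MP_b6d339_lc.Cw3.T16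
import Pool.Agent.Lib.MP_b6d339_lc.Cw3.T19
import Pool.Agent.Lib.MP_b6d339_lc.Cw3.T2
import Pool.Agent.Lib.MP_b6d339_lc.Cw3.T21
import Pool.Agent.Lib.MP_b6d339_lc.Cw3.T23
import Pool.Agent.Lib.MP_b6d339_lc.Cw3.T26
import Pool.Agent.Lib.MP_b6d339_lc.Cw3.T3
import Pool.Agent.Lib.MP_b6d339_lc.Cw3.T31
import Pool.Agent.Lib.MP_b6d339_lc.Cw3.T37
import Pool.Agent.Lib.MP_b6d339_lc.Cw3.T5
import Pool.Agent.Lib.MP_b6d339_lc.Cw3.T6
import Pool.Agent.Lib.MP_b6d339_lc.Cw3.T7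
import Pool.Agent.Lib.MP_b6d339_lc.Cw3.T8
import Pool.Agent.Lib.MP_b6d339_lc.Cw3.T9

/-!
# Erdős 592, three levels: items
-/

namespace MPb6R

open MPb6P

noncomputable def iiNFzE2ByA3H2ByAzIzAyB2H3AyB2EzF : BT Itm := (.node (.node (.node (.node (.node (.node (.node (.node (.node (.leaf (.bwd 0 21 tpr8.df)) (.leaf (.fwd 21 21 tpr8.df))) (.leaf (.fwd 42 32 tpr17.df))) (.node (.node (.leaf (.fwd 74 37 tpr555.df)) (.leaf (.bwd 111 32 tpr17.df))) (.leaf (.bwd 143 29 tpr22.df)))) (.node (.node (.node (.leaf (.fwd 172 27 tpr82.df)) (.leaf (.bwd 199 37 tpr555.df))) (.leaf (.fwd 236 32 tpr518.df))) (.node (.node (.leaf (.fwd 268 44 tpr617.df)) (.leaf (.bwd 312 31 tpr527.df))) (.leaf (.bwd 343 44 tpr617.df))))) (.node (.node (.node (.node (.leaf (.bwd 387 16 tpr168.df)) (.leaf (.bwd 403 29 tpr656.df))) (.leaf (.fwd 432 31 tpr606.df))) (.node (.node (.leaf (.fwd 463 31 tpr607.df)) (.leaf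 (.bwd 494 32 tpr518.df))) (.leaf (.bwd 526 24 tpr609.df)))) (.node (.node (.node (.leaf (.bwd 550 31 tpr607.df)) (.leaf (.fwd 581 27 tpr625.df))) (.leaf (.bwd 608 29 tpr608.df))) (.node (.node (.leaf (.bwd 637 39 tpr701.df)) (.leaf (.fwd 676 34 tpr614.df))) (.leaf (.fwd 710 21 tpr90.df)))))) (.node (.node (.node (.node (.node (.leaf (.fwd 731 39 tpr701.df)) (.leaf (.fwd 770 28 tpr1021.df))) (.leaf (.bwd 798 33 tpr501.df))) (.node (.node (.leaf (.bwd 831 28 tpr546.df)) (.leaf (.bwd 859 28 tpr1013.df))) (.leaf (.bwd 887 35 tpr568.df)))) (.node (.node (.node (.leaf (.fwd 922 26 tpr700.df)) (.leaf (.bwd 948 30 tpr577.df))) (.leaf (.bwd 978 34 tpr614.df))) (.node (.node (.leaf (.fwd 1012 36 tpr683.df)) (.leaf (.fwd 1048 25 tpr679.df))) (.leaf (.bwd 1073 23 tpr5.df))))) (.node (.node (.node (.node (.leaf (.bwd 1096 23 tpr780.df)) (.leaf (.fwd 1119 30 tpr626.df))) (.leaf (.bwd 1149 28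 tpr563.df))) (.node (.node (.leaf (.bwd 1177 51 tpr1023.df)) (.leaf (.bwd 1228 24 tpr635.df))) (.leaf (.fwd 1252 24 tpr635.df)))) (.node (.node (.node (.leaf (.fwd 1276 35 tpr1015.df)) (.leaf (.fwd 1311 39 tpr210.df))) (.leaf (.bwd 1350 45 tpr596.df))) (.node (.leaf (.fwd 1395 45 tpr596.df)) (.leaf (.bwd 1440 33 tpr1099.df))))))) (.node (.node (.node (.node (.node (.node (.leaf (.fwd 1473 42 tpr1050.df)) (.leaf (.bwd 1515 32 tpr550.df))) (.leaf (.bwd 1547 20 tpr505.df))) (.node (.node (.leaf (.fwd 1567 39 tpr642.df)) (.leaf (.fwd 1606 22 tpr239.df))) (.leaf (.fwd 1628 27 tpr506.df)))) (.node (.node (.node (.leaf (.bwd 1655 31 tpr606.df)) (.leaf (.bwd 1686 32 tpr247.df))) (.leaf (.bwd 1718 27 tpr589.df))) (.node (.node (.leaf (.bwd 1745 27 tpr236.df)) (.leaf (.bwd 1772 38 tpr526.df))) (.leaf (.bwd 1810 28 tpr295.df))))) (.node (.node (.node (.node (.leaf (.fwd 1838 23 tpr640.df))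 (.leaf (.bwd 1861 27 tpr82.df))) (.leaf (.fwd 1888 29 tpr22.df))) (.node (.node (.leaf (.bwd 1917 26 tpr516.df)) (.leaf (.fwd 1943 20 tpr505.df))) (.leaf (.bwd 1963 27 tpr625.df)))) (.node (.node (.node (.leaf (.bwd 1990 29 tpr9.df)) (.leaf (.fwd 2019 29 tpr608.df))) (.leaf (.bwd 2048 29 tpr618.df))) (.node (.node (.leaf (.fwd 2077 28 tpr223.df)) (.leaf (.fwd 2105 34 tpr54.df))) (.leaf (.fwd 2139 20 tpr768.df)))))) (.node (.node (.node (.node (.node (.leaf (.bwd 2159 18 tpr18.df)) (.leaf (.fwd 2177 36 tpr23.df))) (.leaf (.fwd 2213 39 tpr636.df))) (.node (.node (.leaf (.fwd 2252 41 tpr1063.df)) (.leaf (.bwd 2293 39 tpr642.df))) (.leaf (.fwd 2332 39 tpr569.df)))) (.node (.node (.node (.leaf (.bwd 2371 36 tpr453.df)) (.leaf (.fwd 2407 23 tpr605.df))) (.leaf (.fwd 2430 27 tpr562.df))) (.node (.node (.leaf (.fwd 2457 30 tpr577.df)) (.leaf (.fwd 2487 29 tpr618.df))) (.leaf (.fwd 2516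 28 tpr1013.df))))) (.node (.node (.node (.node (.leaf (.bwd 2544 34 tpr54.df)) (.leaf (.fwd 2578 31 tpr704.df))) (.leaf (.bwd 2609 35 tpr89.df))) (.node (.node (.leaf (.fwd 2644 31 tpr527.df)) (.leaf (.fwd 2675 33 tpr44.df))) (.leaf (.fwd 2708 27 tpr236.df)))) (.node (.node (.node (.leaf (.fwd 2735 24 tpr609.df)) (.leaf (.fwd 2759 32 tpr620.df))) (.leaf (.fwd 2791 37 tpr556.df))) (.node (.leaf (.fwd 2828 31 tpr576.df)) (.leaf (.fwd 2859 35 tpr969.df)))))))) (.node (.node (.node (.node (.node (.node (.node (.leaf (.fwd 2894 35 tpr1054.df)) (.leaf (.fwd 2929 26 tpr516.df))) (.leaf (.bwd 2955 42 tpr612.df))) (.node (.node (.leaf (.bwd 2997 27 tpr506.df)) (.leaf (.fwd 3024 40 tpr62.df))) (.leaf (.fwd 3064 37 tpr583.df)))) (.node (.node (.node (.leaf (.fwd 3101 22 tpr572.df)) (.leaf (.bwd 3123 19 tpr429.df))) (.leaf (.bwd 3142 28 tpr627.df))) (.node (.node (.leaf (.fwd 3170 36 tpr453.df))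 (.leaf (.fwd 3206 15 tpr419.df))) (.leaf (.fwd 3221 27 tpr977.df))))) (.node (.node (.node (.node (.leaf (.bwd 3248 23 tpr559.df)) (.leaf (.bwd 3271 32 tpr1051.df))) (.leaf (.bwd 3303 24 tpr730.df))) (.node (.node (.leaf (.bwd 3327 31 tpr517.df)) (.leaf (.bwd 3358 32 tpr294.df))) (.leaf (.fwd 3390 35 tpr568.df)))) (.node (.node (.node (.leaf (.bwd 3425 23 tpr640.df)) (.leaf (.fwd 3448 28 tpr610.df))) (.leaf (.bwd 3476 22 tpr239.df))) (.node (.node (.leaf (.bwd 3498 39 tpr210.df)) (.leaf (.bwd 3537 23 tpr508.df))) (.leaf (.bwd 3560 22 tpr572.df)))))) (.node (.node (.node (.node (.node (.leaf (.bwd 3582 41 tpr624.df)) (.leaf (.bwd 3623 35 tpr703.df))) (.leaf (.fwd 3658 26 tpr675.df))) (.node (.node (.leaf (.bwd 3684 28 tpr511.df)) (.leaf (.fwd 3712 48 tpr684.df))) (.leaf (.bwd 3760 36 tpr573.df)))) (.node (.node (.node (.leaf (.fwd 3796 39 tpr615.df)) (.leaf (.bwd 3835 29 tpr545.df)))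 (.leaf (.fwd 3864 25 tpr644.df))) (.node (.node (.leaf (.fwd 3889 34 tpr619.df)) (.leaf (.fwd 3923 30 tpr613.df))) (.leaf (.fwd 3953 31 tpr198.df))))) (.node (.node (.node (.node (.leaf (.bwd 3984 38 tpr519.df)) (.leaf (.bwd 4022 38 tpr203.df))) (.leaf (.fwd 4060 33 tpr631.df))) (.node (.node (.leaf (.fwd 4093 31 tpr745.df)) (.leaf (.bwd 4124 41 tpr1063.df))) (.leaf (.fwd 4165 32 tpr550.df)))) (.node (.node (.node (.leaf (.fwd 4197 37 tpr1064.df)) (.leaf (.fwd 4234 34 tpr1728.df))) (.leaf (.bwd 4268 28 tpr610.df))) (.node (.leaf (.fwd 4296 36 tpr547.df)) (.leaf (.fwd 4332 23 tpr508.df))))))) (.node (.node (.node (.node (.node (.node (.leaf (.fwd 4355 19 tpr429.df)) (.leaf (.bwd 4374 35 tpr91.df))) (.leaf (.fwd 4409 42 tpr1196.df))) (.node (.node (.leaf (.fwd 4451 29 tpr564.df)) (.leaf (.bwd 4480 37 tpr639.df))) (.leaf (.bwd 4517 32 tpr620.df)))) (.node (.node (.node (.leaf (.bwd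 4549 29 tpr623.df)) (.leaf (.fwd 4578 26 tpr222.df))) (.leaf (.fwd 4604 25 tpr1016.df))) (.node (.node (.leaf (.bwd 4629 25 tpr1016.df)) (.leaf (.fwd 4654 28 tpr1032.df))) (.leaf (.fwd 4682 44 tpr592.df))))) (.node (.node (.node (.node (.leaf (.fwd 4726 34 tpr548.df)) (.leaf (.fwd 4760 31 tpr517.df))) (.leaf (.bwd 4791 32 tpr251.df))) (.node (.node (.leaf (.bwd 4823 27 tpr562.df)) (.leaf (.fwd 4850 33 tpr680.df))) (.leaf (.bwd 4883 29 tpr582.df)))) (.node (.node (.node (.leaf (.bwd 4912 26 tpr509.df)) (.leaf (.bwd 4938 37 tpr583.df))) (.leaf (.bwd 4975 36 tpr683.df))) (.node (.leaf (.fwd 5011 29 tpr582.df)) (.leaf (.bwd 5040 23 tpr605.df)))))) (.node (.node (.node (.node (.node (.leaf (.bwd 5063 34 tpr548.df)) (.leaf (.bwd 5097 29 tpr641.df))) (.leaf (.fwd 5126 33 tpr1099.df))) (.node (.node (.leaf (.bwd 5159 28 tpr223.df)) (.leaf (.bwd 5187 40 tpr597.df))) (.leaf (.bwd 5227 41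 tpr1126.df)))) (.node (.node (.node (.leaf (.bwd 5268 37 tpr1064.df)) (.leaf (.bwd 5305 42 tpr678.df))) (.leaf (.bwd 5347 35 tpr1028.df))) (.node (.node (.leaf (.bwd 5382 39 tpr569.df)) (.leaf (.bwd 5421 43 tpr676.df))) (.leaf (.bwd 5464 46 tpr593.df))))) (.node (.node (.node (.node (.leaf (.bwd 5510 33 tpr680.df)) (.leaf (.bwd 5543 35 tpr658.df))) (.leaf (.fwd 5578 27 tpr589.df))) (.node (.node (.leaf (.bwd 5605 35 tpr1015.df)) (.leaf (.fwd 5640 32 tpr247.df))) (.leaf (.fwd 5672 42 tpr612.df)))) (.node (.node (.node (.leaf (.bwd 5714 36 tpr547.df)) (.leaf (.fwd 5750 29 tpr1055.df))) (.leaf (.bwd 5779 25 tpr51.df))) (.node (.leaf (.fwd 5804 30 tpr235.df)) (.leaf (.bwd 5834 31 tpr704.df))))))))) (.node (.node (.node (.node (.node (.node (.node (.node (.leaf (.fwd 5865 41 tpr502.df)) (.leaf (.bwd 5906 39 tpr1077.df))) (.leaf (.bwd 5945 39 tpr514.df))) (.node (.node (.leaf (.fwd 5984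 37 tpr523.df)) (.leaf (.bwd 6021 35 tpr875.df))) (.leaf (.fwd 6056 48 tpr1053.df)))) (.node (.node (.node (.leaf (.fwd 6104 30 tpr983.df)) (.leaf (.bwd 6134 35 tpr554.df))) (.leaf (.fwd 6169 32 tpr251.df))) (.node (.node (.leaf (.bwd 6201 43 tpr734.df)) (.leaf (.bwd 6244 32 tpr1065.df))) (.leaf (.fwd 6276 29 tpr623.df))))) (.node (.node (.node (.node (.leaf (.bwd 6305 28 tpr721.df)) (.leaf (.fwd 6333 32 tpr294.df))) (.leaf (.fwd 6365 31 tpr1044.df))) (.node (.node (.leaf (.fwd 6396 32 tpr1009.df)) (.leaf (.bwd 6428 30 tpr727.df))) (.leaf (.fwd 6458 28 tpr627.df)))) (.node (.node (.node (.leaf (.bwd 6486 23 tpr659.df)) (.leaf (.bwd 6509 29 tpr692.df))) (.leaf (.bwd 6538 27 tpr584.df))) (.node (.node (.leaf (.bwd 6565 39 tpr636.df)) (.leaf (.fwd 6604 29 tpr1040.df))) (.leaf (.bwd 6633 24 tpr1056.df)))))) (.node (.node (.node (.node (.node (.leaf (.bwd 6657 34 tpr619.df)) (.leaf (.bwd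 6691 21 tpr1045.df))) (.leaf (.fwd 6712 40 tpr1066.df))) (.node (.node (.leaf (.bwd 6752 34 tpr1061.df)) (.leaf (.bwd 6786 39 tpr615.df))) (.leaf (.bwd 6825 34 tpr1062.df)))) (.node (.node (.node (.leaf (.bwd 6859 37 tpr681.df)) (.leaf (.bwd 6896 31 tpr1047.df))) (.leaf (.fwd 6927 30 tpr1058.df))) (.node (.node (.leaf (.fwd 6957 41 tpr1239.df)) (.leaf (.bwd 6998 34 tpr628.df))) (.leaf (.fwd 7032 22 tpr536.df))))) (.node (.node (.node (.node (.leaf (.bwd 7054 31 tpr576.df)) (.leaf (.fwd 7085 37 tpr693.df))) (.leaf (.bwd 7122 37 tpr1052.df))) (.node (.node (.leaf (.fwd 7159 37 tpr1052.df)) (.leaf (.bwd 7196 26 tpr675.df))) (.leaf (.bwd 7222 41 tpr502.df)))) (.node (.node (.node (.leaf (.fwd 7263 24 tpr1056.df)) (.leaf (.fwd 7287 31 tpr1047.df))) (.leaf (.bwd 7318 30 tpr1058.df))) (.node (.leaf (.bwd 7348 25 tpr1266.df)) (.leaf (.bwd 7373 24 tpr1060.df))))))) (.node (.node (.node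 (.node (.node (.node (.leaf (.fwd 7397 34 tpr1061.df)) (.leaf (.bwd 7431 24 tpr2978.df))) (.leaf (.fwd 7455 29 tpr545.df))) (.node (.node (.leaf (.bwd 7484 40 tpr966.df)) (.leaf (.fwd 7524 26 tpr509.df))) (.leaf (.bwd 7550 29 tpr637.df)))) (.node (.node (.node (.leaf (.fwd 7579 34 tpr1195.df)) (.leaf (.fwd 7613 30 tpr1227.df))) (.leaf (.bwd 7643 30 tpr1225.df))) (.node (.node (.leaf (.bwd 7673 29 tpr638.df)) (.leaf (.fwd 7702 38 tpr203.df))) (.leaf (.fwd 7740 45 tpr611.df))))) (.node (.node (.node (.node (.leaf (.fwd 7785 28 tpr511.df)) (.leaf (.fwd 7813 38 tpr519.df))) (.leaf (.fwd 7851 27 tpr1202.df))) (.node (.node (.leaf (.fwd 7878 37 tpr681.df)) (.leaf (.fwd 7915 24 tpr1280.df))) (.leaf (.bwd 7939 40 tpr62.df)))) (.node (.node (.node (.leaf (.fwd 7979 35 tpr1181.df)) (.leaf (.bwd 8014 31 tpr557.df))) (.leaf (.fwd 8045 38 tpr526.df))) (.node (.leaf (.bwd 8083 48 tpr684.df))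 (.leaf (.fwd 8131 39 tpr962.df)))))) (.node (.node (.node (.node (.node (.leaf (.fwd 8170 29 tpr9.df)) (.leaf (.fwd 8199 41 tpr188.df))) (.leaf (.bwd 8240 30 tpr1024.df))) (.node (.node (.leaf (.bwd 8270 25 tpr644.df)) (.leaf (.fwd 8295 25 tpr739.df))) (.leaf (.bwd 8320 32 tpr737.df)))) (.node (.node (.node (.leaf (.bwd 8352 45 tpr611.df)) (.leaf (.fwd 8397 30 tpr2481.df))) (.leaf (.fwd 8427 29 tpr1059.df))) (.node (.node (.leaf (.bwd 8456 39 tpr962.df)) (.leaf (.fwd 8495 24 tpr730.df))) (.leaf (.fwd 8519 16 tpr168.df))))) (.node (.node (.node (.node (.leaf (.fwd 8535 35 tpr89.df)) (.leaf (.fwd 8570 37 tpr639.df))) (.leaf (.fwd 8607 28 tpr721.df))) (.node (.node (.leaf (.fwd 8635 32 tpr1219.df)) (.leaf (.bwd 8667 32 tpr1219.df))) (.leaf (.fwd 8699 19 tpr1103.df)))) (.node (.node (.node (.leaf (.bwd 8718 29 tpr1040.df)) (.leaf (.fwd 8747 55 tpr1279.df))) (.leaf (.bwd 8802 25 tpr1218.df)))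 (.node (.leaf (.bwd 8827 23 tpr2979.df)) (.leaf (.bwd 8850 6 tpr4.df)))))))) (.node (.node (.node (.node (.node (.node (.node (.leaf (.bwd 8856 13 tpr11.df)) (.leaf (.fwd 8869 6 tpr4.df))) (.leaf (.fwd 8875 13 tpr11.df))) (.node (.node (.leaf (.bwd 8888 17 tpr1106.df)) (.leaf (.fwd 8905 51 tpr1023.df))) (.leaf (.fwd 8956 24 tpr1565.df)))) (.node (.node (.node (.leaf (.bwd 8980 22 tpr2980.df)) (.leaf (.fwd 9002 29 tpr656.df))) (.leaf (.bwd 9031 21 tpr90.df))) (.node (.node (.leaf (.fwd 9052 36 tpr573.df)) (.leaf (.fwd 9088 33 tpr501.df))) (.leaf (.bwd 9121 26 tpr222.df))))) (.node (.node (.node (.node (.leaf (.fwd 9147 18 tpr18.df)) (.leaf (.bwd 9165 27 tpr977.df))) (.leaf (.fwd 9192 35 tpr1028.df))) (.node (.node (.leaf (.bwd 9227 26 tpr700.df)) (.leaf (.fwd 9253 29 tpr641.df))) (.leaf (.fwd 9282 42 tpr733.df)))) (.node (.node (.node (.leaf (.fwd 9324 46 tpr1275.df)) (.leaf (.fwd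 9370 35 tpr91.df))) (.leaf (.fwd 9405 47 tpr1070.df))) (.node (.node (.leaf (.bwd 9452 29 tpr564.df)) (.leaf (.bwd 9481 42 tpr1196.df))) (.leaf (.fwd 9523 43 tpr676.df)))))) (.node (.node (.node (.node (.node (.leaf (.bwd 9566 44 tpr592.df)) (.leaf (.fwd 9610 46 tpr593.df))) (.leaf (.fwd 9656 23 tpr559.df))) (.node (.node (.leaf (.bwd 9679 36 tpr23.df)) (.leaf (.fwd 9715 37 tpr1075.df))) (.leaf (.bwd 9752 42 tpr1050.df)))) (.node (.node (.node (.leaf (.fwd 9794 27 tpr584.df)) (.leaf (.fwd 9821 29 tpr1072.df))) (.leaf (.bwd 9850 47 tpr1070.df))) (.node (.node (.leaf (.fwd 9897 56 tpr1278.df)) (.leaf (.bwd 9953 56 tpr1278.df))) (.leaf (.bwd 10009 55 tpr1279.df))))) (.node (.node (.node (.node (.leaf (.bwd 10064 46 tpr1275.df)) (.leaf (.bwd 10110 28 tpr1032.df))) (.leaf (.fwd 10138 20 tpr1267.df))) (.node (.node (.leaf (.fwd 10158 43 tpr1000.df)) (.leaf (.bwd 10201 43 tpr1000.df)))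 (.leaf (.bwd 10244 50 tpr1233.df)))) (.node (.node (.node (.leaf (.bwd 10294 35 tpr1154.df)) (.leaf (.fwd 10329 29 tpr570.df))) (.leaf (.fwd 10358 25 tpr1218.df))) (.node (.leaf (.fwd 10383 52 tpr1071.df)) (.leaf (.fwd 10435 25 tpr1266.df))))))) (.node (.node (.node (.node (.node (.node (.leaf (.fwd 10460 30 tpr1024.df)) (.leaf (.bwd 10490 29 tpr1234.df))) (.leaf (.bwd 10519 41 tpr188.df))) (.node (.node (.leaf (.fwd 10560 50 tpr1233.df)) (.leaf (.fwd 10610 34 tpr628.df))) (.leaf (.fwd 10644 29 tpr638.df)))) (.node (.node (.node (.leaf (.fwd 10673 27 tpr499.df)) (.leaf (.fwd 10700 41 tpr1148.df))) (.leaf (.fwd 10741 21 tpr2981.df))) (.node (.node (.leaf (.fwd 10762 44 tpr1069.df)) (.leaf (.bwd 10806 25 tpr1031.df))) (.leaf (.bwd 10831 33 tpr44.df))))) (.node (.node (.node (.node (.leaf (.fwd 10864 37 tpr687.df)) (.leaf (.bwd 10901 37 tpr503.df))) (.leaf (.bwd 10938 54 tpr1090.df)))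 (.node (.node (.leaf (.fwd 10992 39 tpr1077.df)) (.leaf (.bwd 11031 31 tpr167.df))) (.leaf (.bwd 11062 30 tpr1037.df)))) (.node (.node (.node (.leaf (.bwd 11092 42 tpr733.df)) (.leaf (.bwd 11134 27 tpr1203.df))) (.leaf (.fwd 11161 37 tpr1119.df))) (.node (.leaf (.fwd 11198 39 tpr1027.df)) (.leaf (.fwd 11237 25 tpr1031.df)))))) (.node (.node (.node (.node (.node (.leaf (.bwd 11262 61 tpr1141.df)) (.leaf (.bwd 11323 21 tpr2981.df))) (.leaf (.fwd 11344 19 tpr2982.df))) (.node (.node (.leaf (.fwd 11363 29 tpr1245.df)) (.leaf (.bwd 11392 33 tpr521.df))) (.leaf (.fwd 11425 37 tpr1089.df)))) (.node (.node (.node (.leaf (.fwd 11462 53 tpr1067.df)) (.leaf (.fwd 11515 30 tpr727.df))) (.leaf (.bwd 11545 30 tpr613.df))) (.node (.node (.leaf (.bwd 11575 36 tpr665.df)) (.leaf (.fwd 11611 27 tpr1214.df))) (.leaf (.bwd 11638 24 tpr578.df))))) (.node (.node (.node (.node (.leaf (.bwd 11662 37 tpr687.df))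 (.leaf (.fwd 11699 31 tpr557.df))) (.leaf (.bwd 11730 28 tpr1849.df))) (.node (.node (.leaf (.fwd 11758 37 tpr553.df)) (.leaf (.bwd 11795 36 tpr551.df))) (.leaf (.fwd 11831 38 tpr1288.df)))) (.node (.node (.node (.leaf (.bwd 11869 26 tpr245.df)) (.leaf (.fwd 11895 29 tpr637.df))) (.leaf (.bwd 11924 60 tpr1145.df))) (.node (.leaf (.fwd 11984 32 tpr2089.df)) (.leaf (.bwd 12016 22 tpr536.df))))))))))

theorem iiNFzE2ByA3H2ByAzIzAyB2H3AyB2EzF_c : iiNFzE2ByA3H2ByAzIzAyB2H3AyB2EzF.all (itB (ng 61 nnNFzE2ByA3H2ByAzIzAyB2H3AyB2EzF)) = true := by decide +kernel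
theorem nbNFzE2ByA3H2ByAzIzAyB2H3AyB2EzF : nbB 61 12099 nnNFzE2ByA3H2ByAzIzAyB2H3AyB2EzF = true := by decide +kernel
theorem topNFzE2ByA3H2ByAzIzAyB2H3AyB2EzF : topY 12099 ttNFzE2ByA3H2ByAzIzAyB2H3AyB2EzF ceNFzE2ByA3H2ByAzIzAyB2H3AyB2EzF xNFzE2ByA3H2ByAzIzAyB2H3AyB2EzF iiNFzE2ByA3H2ByAzIzAyB2H3AyB2EzF = true := by decide +kernel

end MPb6R
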