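import Pool.Agent.Lib.MP_b6d339_lc.Pos.Lx
import Pool.Agent.Lib.MP_b6d339_lc.Cw3.YF2BzAyE2ByA3H2AzIzAyB2H3A2E2A2AzAyBzF_0
import Pool.Agent.Lib.MP_b6d339_lc.Cw3.YF2BzAyE2ByA3H2AzIzAyB2H3A2E2A2AzAyBzF_1

/-!
# Erdős 592, three levels: tables
-/

namespace MPb6R

open MPb6P

/-- class of words -/
def xNF2BzAyE2ByA3H2AzIzAyB2H3A2E2A2AzAyBzF : List PE := [⟨0, 4, 4, 0⟩, ⟨1, 4, 4, 11⟩, ⟨0, 2, 2, 6⟩, ⟨1, 3, 3, 5⟩, ⟨1, 2, 2, 10⟩, ⟨0, 2, 2, 6⟩, ⟨1, 2, 2, 5⟩, ⟨0, 3, 3, 14⟩, ⟨0, 2, 2, 5⟩, ⟨1, 3, 3, 15⟩, ⟨1, 3, 3, 5⟩, ⟨1, 2, 2, 6⟩, ⟨0, 2, 2, 14⟩, ⟨0, 3, 3, 5⟩, ⟨0, 2, 2, 10⟩, ⟨0, 2, 2, 5⟩, ⟨0, 2, 2, 5⟩, ⟨1, 3, 3, 5⟩, ⟨1, 2, 2, 6⟩, ⟨1, 3, 3, 11⟩, ⟨1, 4, 4, 0⟩, ⟨0, 4, 4, 0⟩]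

noncomputable def nnNF2BzAyE2ByA3H2AzIzAyB2H3A2E2A2AzAyBzF : BT Nat := (.node (.node nnNF2BzAyE2ByA3H2AzIzAyB2H3A2E2A2AzAyBzF_0 nnNF2BzAyE2ByA3H2AzIzAyB2H3A2E2A2AzAyBzF_1) (.node nnNF2BzAyE2ByA3H2AzIzAyB2H3A2E2A2AzAyBzF_2 nnNF2BzAyE2ByA3H2AzIzAyB2H3A2E2A2AzAyBzF_3))
noncomputable def ttNF2BzAyE2ByA3H2AzIzAyB2H3A2E2A2AzAyBzF : BT Nat := (.node (.node (.node (.node (.node ttNF2BzAyE2ByA3H2AzIzAyB2H3A2E2A2AzAyBzF_0 ttNF2BzAyE2ByA3H2AzIzAyB2H3A2E2A2AzAyBzF_1) (.node ttNF2BzAyE2ByA3H2AzIzAyB2H3A2E2A2AzAyBzF_2 ttNF2BzAyE2ByA3H2AzIzAyB2H3A2E2A2AzAyBzF_3)) (.node (.node ttNF2BzAyE2ByA3H2AzIzAyB2H3A2E2A2AzAyBzF_4 ttNF2BzAyE2ByA3H2AzIzAyB2H3A2E2A2AzAyBzF_5) (.node ttNF2BzAyE2ByA3H2AzIzAyB2H3A2E2A2AzAyBzF_6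 ttNF2BzAyE2ByA3H2AzIzAyB2H3A2E2A2AzAyBzF_7))) (.node (.node (.node ttNF2BzAyE2ByA3H2AzIzAyB2H3A2E2A2AzAyBzF_8 ttNF2BzAyE2ByA3H2AzIzAyB2H3A2E2A2AzAyBzF_9) (.node ttNF2BzAyE2ByA3H2AzIzAyB2H3A2E2A2AzAyBzF_10 ttNF2BzAyE2ByA3H2AzIzAyB2H3A2E2A2AzAyBzF_11)) (.node (.node ttNF2BzAyE2ByA3H2AzIzAyB2H3A2E2A2AzAyBzF_12 ttNF2BzAyE2ByA3H2AzIzAyB2H3A2E2A2AzAyBzF_13) (.node ttNF2BzAyE2ByA3H2AzIzAyB2H3A2E2A2AzAyBzF_14 ttNF2BzAyE2ByA3H2AzIzAyB2H3A2E2A2AzAyBzF_15)))) (.node (.node (.node (.node ttNF2BzAyE2ByA3H2AzIzAyB2H3A2E2A2AzAyBzF_16 ttNF2BzAyE2ByA3H2AzIzAyB2H3A2E2A2AzAyBzF_17) (.node ttNF2BzAyE2ByA3H2AzIzAyB2H3A2E2A2AzAyBzF_18 ttNF2BzAyE2ByA3H2AzIzAyB2H3A2E2A2AzAyBzF_19)) (.node (.node ttNF2BzAyE2ByA3H2AzIzAyB2H3A2E2A2AzAyBzF_20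 ttNF2BzAyE2ByA3H2AzIzAyB2H3A2E2A2AzAyBzF_21) (.node ttNF2BzAyE2ByA3H2AzIzAyB2H3A2E2A2AzAyBzF_22 ttNF2BzAyE2ByA3H2AzIzAyB2H3A2E2A2AzAyBzF_23))) (.node (.node (.node ttNF2BzAyE2ByA3H2AzIzAyB2H3A2E2A2AzAyBzF_24 ttNF2BzAyE2ByA3H2AzIzAyB2H3A2E2A2AzAyBzF_25) (.node ttNF2BzAyE2ByA3H2AzIzAyB2H3A2E2A2AzAyBzF_26 ttNF2BzAyE2ByA3H2AzIzAyB2H3A2E2A2AzAyBzF_27)) (.node (.node ttNF2BzAyE2ByA3H2AzIzAyB2H3A2E2A2AzAyBzF_28 ttNF2BzAyE2ByA3H2AzIzAyB2H3A2E2A2AzAyBzF_29) (.node ttNF2BzAyE2ByA3H2AzIzAyB2H3A2E2A2AzAyBzF_30 ttNF2BzAyE2ByA3H2AzIzAyB2H3A2E2A2AzAyBzF_31)))))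
noncomputable def ceNF2BzAyE2ByA3H2AzIzAyB2H3A2E2A2AzAyBzF_0 : BT Nat := ceNF2BzAyE2ByA3H2AzIzAyB2H3A2E2A2AzAyBzF_0_0
noncomputable def ceNF2BzAyE2ByA3H2AzIzAyB2H3A2E2A2AzAyBzF_1 : BT Nat := ceNF2BzAyE2ByA3H2AzIzAyB2H3A2E2A2AzAyBzF_1_0
noncomputable def ceNF2BzAyE2ByA3H2AzIzAyB2H3A2E2A2AzAyBzF_2 : BT Nat := ceNF2BzAyE2ByA3H2AzIzAyB2H3A2E2A2AzAyBzF_2_0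
noncomputable def ceNF2BzAyE2ByA3H2AzIzAyB2H3A2E2A2AzAyBzF_3 : BT Nat := ceNF2BzAyE2ByA3H2AzIzAyB2H3A2E2A2AzAyBzF_3_0
noncomputable def ceNF2BzAyE2ByA3H2AzIzAyB2H3A2E2A2AzAyBzF_4 : BT Nat := ceNF2BzAyE2ByA3H2AzIzAyB2H3A2E2A2AzAyBzF_4_0
noncomputable def ceNF2BzAyE2ByA3H2AzIzAyB2H3A2E2A2AzAyBzF_5 : BT Nat := ceNF2BzAyE2ByA3H2AzIzAyB2H3A2E2A2AzAyBzF_5_0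
noncomputable def ceNF2BzAyE2ByA3H2AzIzAyB2H3A2E2A2AzAyBzF_6 : BT Nat := ceNF2BzAyE2ByA3H2AzIzAyB2H3A2E2A2AzAyBzF_6_0
noncomputable def ceNF2BzAyE2ByA3H2AzIzAyB2H3A2E2A2AzAyBzF_7 : BT Nat := ceNF2BzAyE2ByA3H2AzIzAyB2H3A2E2A2AzAyBzF_7_0
noncomputable def ceNF2BzAyE2ByA3H2AzIzAyB2H3A2E2A2AzAyBzF_8 : BT Nat := ceNF2BzAyE2ByA3H2AzIzAyB2H3A2E2A2AzAyBzF_8_0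
noncomputable def ceNF2BzAyE2ByA3H2AzIzAyB2H3A2E2A2AzAyBzF_9 : BT Nat := ceNF2BzAyE2ByA3H2AzIzAyB2H3A2E2A2AzAyBzF_9_0
noncomputable def ceNF2BzAyE2ByA3H2AzIzAyB2H3A2E2A2AzAyBzF_10 : BT Nat := ceNF2BzAyE2ByA3H2AzIzAyB2H3A2E2A2AzAyBzF_10_0
noncomputable def ceNF2BzAyE2ByA3H2AzIzAyB2H3A2E2A2AzAyBzF_11 : BT Nat := ceNF2BzAyE2ByA3H2AzIzAyB2H3A2E2A2AzAyBzF_11_0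
noncomputable def ceNF2BzAyE2ByA3H2AzIzAyB2H3A2E2A2AzAyBzF_12 : BT Nat := ceNF2BzAyE2ByA3H2AzIzAyB2H3A2E2A2AzAyBzF_12_0
noncomputable def ceNF2BzAyE2ByA3H2AzIzAyB2H3A2E2A2AzAyBzF_13 : BT Nat := ceNF2BzAyE2ByA3H2AzIzAyB2H3A2E2A2AzAyBzF_13_0
noncomputable def ceNF2BzAyE2ByA3H2AzIzAyB2H3A2E2A2AzAyBzF_14 : BT Nat := ceNF2BzAyE2ByA3H2AzIzAyB2H3A2E2A2AzAyBzF_14_0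
noncomputable def ceNF2BzAyE2ByA3H2AzIzAyB2H3A2E2A2AzAyBzF_15 : BT Nat := ceNF2BzAyE2ByA3H2AzIzAyB2H3A2E2A2AzAyBzF_15_0
noncomputable def ceNF2BzAyE2ByA3H2AzIzAyB2H3A2E2A2AzAyBzF : BT Nat := (.node (.node (.node (.node ceNF2BzAyE2ByA3H2AzIzAyB2H3A2E2A2AzAyBzF_0 ceNF2BzAyE2ByA3H2AzIzAyB2H3A2E2A2AzAyBzF_1) ceNF2BzAyE2ByA3H2AzIzAyB2H3A2E2A2AzAyBzF_2) (.node ceNF2BzAyE2ByA3H2AzIzAyB2H3A2E2A2AzAyBzF_3 ceNF2BzAyE2ByA3H2AzIzAyB2H3A2E2A2AzAyBzF_4)) (.node (.node (.node ceNF2BzAyE2ByA3H2AzIzAyB2H3A2E2A2AzAyBzF_5 (.node ceNF2BzAyE2ByA3H2AzIzAyB2H3A2E2A2AzAyBzF_6 ceNF2BzAyE2ByA3H2AzIzAyB2H3A2E2A2AzAyBzF_7)) (.node (.node ceNF2BzAyE2ByA3H2AzIzAyB2H3A2E2A2AzAyBzF_8 ceNF2BzAyE2ByA3H2AzIzAyB2H3A2E2A2AzAyBzF_9)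 ceNF2BzAyE2ByA3H2AzIzAyB2H3A2E2A2AzAyBzF_10)) (.node (.node (.node ceNF2BzAyE2ByA3H2AzIzAyB2H3A2E2A2AzAyBzF_11 ceNF2BzAyE2ByA3H2AzIzAyB2H3A2E2A2AzAyBzF_12) ceNF2BzAyE2ByA3H2AzIzAyB2H3A2E2A2AzAyBzF_13) (.node ceNF2BzAyE2ByA3H2AzIzAyB2H3A2E2A2AzAyBzF_14 ceNF2BzAyE2ByA3H2AzIzAyB2H3A2E2A2AzAyBzF_15))))
noncomputable def coNF2BzAyE2ByA3H2AzIzAyB2H3A2E2A2AzAyBzF_0 : BT Nat := coNF2BzAyE2ByA3H2AzIzAyB2H3A2E2A2AzAyBzF_0_0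
noncomputable def coNF2BzAyE2ByA3H2AzIzAyB2H3A2E2A2AzAyBzF_1 : BT Nat := coNF2BzAyE2ByA3H2AzIzAyB2H3A2E2A2AzAyBzF_1_0
noncomputable def coNF2BzAyE2ByA3H2AzIzAyB2H3A2E2A2AzAyBzF_2 : BT Nat := coNF2BzAyE2ByA3H2AzIzAyB2H3A2E2A2AzAyBzF_2_0
noncomputable def coNF2BzAyE2ByA3H2AzIzAyB2H3A2E2A2AzAyBzF_3 : BT Nat := coNF2BzAyE2ByA3H2AzIzAyB2H3A2E2A2AzAyBzF_3_0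
noncomputable def coNF2BzAyE2ByA3H2AzIzAyB2H3A2E2A2AzAyBzF_4 : BT Nat := coNF2BzAyE2ByA3H2AzIzAyB2H3A2E2A2AzAyBzF_4_0
noncomputable def coNF2BzAyE2ByA3H2AzIzAyB2H3A2E2A2AzAyBzF_5 : BT Nat := coNF2BzAyE2ByA3H2AzIzAyB2H3A2E2A2AzAyBzF_5_0
noncomputable def coNF2BzAyE2ByA3H2AzIzAyB2H3A2E2A2AzAyBzF_6 : BT Nat := coNF2BzAyE2ByA3H2AzIzAyB2H3A2E2A2AzAyBzF_6_0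
noncomputable def coNF2BzAyE2ByA3H2AzIzAyB2H3A2E2A2AzAyBzF_7 : BT Nat := coNF2BzAyE2ByA3H2AzIzAyB2H3A2E2A2AzAyBzF_7_0
noncomputable def coNF2BzAyE2ByA3H2AzIzAyB2H3A2E2A2AzAyBzF_8 : BT Nat := coNF2BzAyE2ByA3H2AzIzAyB2H3A2E2A2AzAyBzF_8_0
noncomputable def coNF2BzAyE2ByA3H2AzIzAyB2H3A2E2A2AzAyBzF_9 : BT Nat := coNF2BzAyE2ByA3H2AzIzAyB2H3A2E2A2AzAyBzF_9_0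
noncomputable def coNF2BzAyE2ByA3H2AzIzAyB2H3A2E2A2AzAyBzF_10 : BT Nat := coNF2BzAyE2ByA3H2AzIzAyB2H3A2E2A2AzAyBzF_10_0
noncomputable def coNF2BzAyE2ByA3H2AzIzAyB2H3A2E2A2AzAyBzF_11 : BT Nat := coNF2BzAyE2ByA3H2AzIzAyB2H3A2E2A2AzAyBzF_11_0
noncomputable def coNF2BzAyE2ByA3H2AzIzAyB2H3A2E2A2AzAyBzF : BT Nat := (.node (.node (.node coNF2BzAyE2ByA3H2AzIzAyB2H3A2E2A2AzAyBzF_0 coNF2BzAyE2ByA3H2AzIzAyB2H3A2E2A2AzAyBzF_1) (.node coNF2BzAyE2ByA3H2AzIzAyB2H3A2E2A2AzAyBzF_2 coNF2BzAyE2ByA3H2AzIzAyB2H3A2E2A2AzAyBzF_3)) (.node (.node (.node coNF2BzAyE2ByA3H2AzIzAyB2H3A2E2A2AzAyBzF_4 coNF2BzAyE2ByA3H2AzIzAyB2H3A2E2A2AzAyBzF_5) (.node coNF2BzAyE2ByA3H2AzIzAyB2H3A2E2A2AzAyBzF_6 coNF2BzAyE2ByA3H2AzIzAyB2H3A2E2A2AzAyBzF_7))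 (.node (.node coNF2BzAyE2ByA3H2AzIzAyB2H3A2E2A2AzAyBzF_8 coNF2BzAyE2ByA3H2AzIzAyB2H3A2E2A2AzAyBzF_9) (.node coNF2BzAyE2ByA3H2AzIzAyB2H3A2E2A2AzAyBzF_10 coNF2BzAyE2ByA3H2AzIzAyB2H3A2E2A2AzAyBzF_11))))

end MPb6R
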