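import Pool.Agent.Lib.MP_b6d339_lc.Pos.Lx
import Pool.Agent.Lib.MP_b6d339_lc.Cw3.YFzAyE2ByA3H2AzIzA2H3A2E2A2AzAyAyF_0
import Pool.Agent.Lib.MP_b6d339_lc.Cw3.YFzAyE2ByA3H2AzIzA2H3A2E2A2AzAyAyF_1

/-!
# Erdős 592, three levels: tables
-/

namespace MPb6R

open MPb6P

/-- class of words -/
def xNFzAyE2ByA3H2AzIzA2H3A2E2A2AzAyAyF : List PE := [⟨0, 4, 4, 0⟩, ⟨1, 4, 4, 11⟩, ⟨1, 3, 3, 5⟩, ⟨1, 2, 2, 10⟩, ⟨0, 2, 2, 6⟩, ⟨1, 2, 2, 5⟩, ⟨0, 3, 3, 14⟩, ⟨0, 2, 2, 5⟩, ⟨1, 3, 3, 15⟩, ⟨1, 3, 3, 5⟩, ⟨0, 2, 2, 14⟩, ⟨0, 3, 3, 5⟩, ⟨0, 2, 2, 10⟩, ⟨0, 2, 2, 5⟩, ⟨0, 2, 2, 5⟩, ⟨1, 3, 3, 5⟩, ⟨1, 2, 2, 5⟩, ⟨1, 2, 2, 11⟩, ⟨1, 4, 4, 0⟩, ⟨0, 4, 4, 0⟩]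

noncomputable def nnNFzAyE2ByA3H2AzIzA2H3A2E2A2AzAyAyF : BT Nat := (.node (.node nnNFzAyE2ByA3H2AzIzA2H3A2E2A2AzAyAyF_0 nnNFzAyE2ByA3H2AzIzA2H3A2E2A2AzAyAyF_1) (.node nnNFzAyE2ByA3H2AzIzA2H3A2E2A2AzAyAyF_2 nnNFzAyE2ByA3H2AzIzA2H3A2E2A2AzAyAyF_3))
noncomputable def ttNFzAyE2ByA3H2AzIzA2H3A2E2A2AzAyAyF : BT Nat := (.node (.node (.node (.node (.node ttNFzAyE2ByA3H2AzIzA2H3A2E2A2AzAyAyF_0 ttNFzAyE2ByA3H2AzIzA2H3A2E2A2AzAyAyF_1) (.node ttNFzAyE2ByA3H2AzIzA2H3A2E2A2AzAyAyF_2 ttNFzAyE2ByA3H2AzIzA2H3A2E2A2AzAyAyF_3)) (.node (.node ttNFzAyE2ByA3H2AzIzA2H3A2E2A2AzAyAyF_4 ttNFzAyE2ByA3H2AzIzA2H3A2E2A2AzAyAyF_5) (.node ttNFzAyE2ByA3H2AzIzA2H3A2E2A2AzAyAyF_6 ttNFzAyE2ByA3H2AzIzA2H3A2E2A2AzAyAyF_7)))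 (.node (.node (.node ttNFzAyE2ByA3H2AzIzA2H3A2E2A2AzAyAyF_8 ttNFzAyE2ByA3H2AzIzA2H3A2E2A2AzAyAyF_9) (.node ttNFzAyE2ByA3H2AzIzA2H3A2E2A2AzAyAyF_10 ttNFzAyE2ByA3H2AzIzA2H3A2E2A2AzAyAyF_11)) (.node (.node ttNFzAyE2ByA3H2AzIzA2H3A2E2A2AzAyAyF_12 ttNFzAyE2ByA3H2AzIzA2H3A2E2A2AzAyAyF_13) (.node ttNFzAyE2ByA3H2AzIzA2H3A2E2A2AzAyAyF_14 ttNFzAyE2ByA3H2AzIzA2H3A2E2A2AzAyAyF_15)))) (.node (.node (.node (.node ttNFzAyE2ByA3H2AzIzA2H3A2E2A2AzAyAyF_16 ttNFzAyE2ByA3H2AzIzA2H3A2E2A2AzAyAyF_17) (.node ttNFzAyE2ByA3H2AzIzA2H3A2E2A2AzAyAyF_18 ttNFzAyE2ByA3H2AzIzA2H3A2E2A2AzAyAyF_19)) (.node (.node ttNFzAyE2ByA3H2AzIzA2H3A2E2A2AzAyAyF_20 ttNFzAyE2ByA3H2AzIzA2H3A2E2A2AzAyAyF_21) (.node ttNFzAyE2ByA3H2AzIzA2H3A2E2A2AzAyAyF_22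 ttNFzAyE2ByA3H2AzIzA2H3A2E2A2AzAyAyF_23))) (.node (.node (.node ttNFzAyE2ByA3H2AzIzA2H3A2E2A2AzAyAyF_24 ttNFzAyE2ByA3H2AzIzA2H3A2E2A2AzAyAyF_25) (.node ttNFzAyE2ByA3H2AzIzA2H3A2E2A2AzAyAyF_26 ttNFzAyE2ByA3H2AzIzA2H3A2E2A2AzAyAyF_27)) (.node (.node ttNFzAyE2ByA3H2AzIzA2H3A2E2A2AzAyAyF_28 ttNFzAyE2ByA3H2AzIzA2H3A2E2A2AzAyAyF_29) (.node ttNFzAyE2ByA3H2AzIzA2H3A2E2A2AzAyAyF_30 ttNFzAyE2ByA3H2AzIzA2H3A2E2A2AzAyAyF_31)))))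
noncomputable def ceNFzAyE2ByA3H2AzIzA2H3A2E2A2AzAyAyF_0 : BT Nat := ceNFzAyE2ByA3H2AzIzA2H3A2E2A2AzAyAyF_0_0
noncomputable def ceNFzAyE2ByA3H2AzIzA2H3A2E2A2AzAyAyF_1 : BT Nat := ceNFzAyE2ByA3H2AzIzA2H3A2E2A2AzAyAyF_1_0
noncomputable def ceNFzAyE2ByA3H2AzIzA2H3A2E2A2AzAyAyF_2 : BT Nat := ceNFzAyE2ByA3H2AzIzA2H3A2E2A2AzAyAyF_2_0
noncomputable def ceNFzAyE2ByA3H2AzIzA2H3A2E2A2AzAyAyF_3 : BT Nat := ceNFzAyE2ByA3H2AzIzA2H3A2E2A2AzAyAyF_3_0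
noncomputable def ceNFzAyE2ByA3H2AzIzA2H3A2E2A2AzAyAyF_4 : BT Nat := ceNFzAyE2ByA3H2AzIzA2H3A2E2A2AzAyAyF_4_0
noncomputable def ceNFzAyE2ByA3H2AzIzA2H3A2E2A2AzAyAyF_5 : BT Nat := ceNFzAyE2ByA3H2AzIzA2H3A2E2A2AzAyAyF_5_0
noncomputable def ceNFzAyE2ByA3H2AzIzA2H3A2E2A2AzAyAyF_6 : BT Nat := ceNFzAyE2ByA3H2AzIzA2H3A2E2A2AzAyAyF_6_0
noncomputable def ceNFzAyE2ByA3H2AzIzA2H3A2E2A2AzAyAyF_7 : BT Nat := ceNFzAyE2ByA3H2AzIzA2H3A2E2A2AzAyAyF_7_0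
noncomputable def ceNFzAyE2ByA3H2AzIzA2H3A2E2A2AzAyAyF_8 : BT Nat := ceNFzAyE2ByA3H2AzIzA2H3A2E2A2AzAyAyF_8_0
noncomputable def ceNFzAyE2ByA3H2AzIzA2H3A2E2A2AzAyAyF_9 : BT Nat := ceNFzAyE2ByA3H2AzIzA2H3A2E2A2AzAyAyF_9_0
noncomputable def ceNFzAyE2ByA3H2AzIzA2H3A2E2A2AzAyAyF_10 : BT Nat := ceNFzAyE2ByA3H2AzIzA2H3A2E2A2AzAyAyF_10_0
noncomputable def ceNFzAyE2ByA3H2AzIzA2H3A2E2A2AzAyAyF : BT Nat := (.node (.node (.node ceNFzAyE2ByA3H2AzIzA2H3A2E2A2AzAyAyF_0 ceNFzAyE2ByA3H2AzIzA2H3A2E2A2AzAyAyF_1) (.node ceNFzAyE2ByA3H2AzIzA2H3A2E2A2AzAyAyF_2 ceNFzAyE2ByA3H2AzIzA2H3A2E2A2AzAyAyF_3)) (.node (.node ceNFzAyE2ByA3H2AzIzA2H3A2E2A2AzAyAyF_4 (.node ceNFzAyE2ByA3H2AzIzA2H3A2E2A2AzAyAyF_5 ceNFzAyE2ByA3H2AzIzA2H3A2E2A2AzAyAyF_6))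 (.node (.node ceNFzAyE2ByA3H2AzIzA2H3A2E2A2AzAyAyF_7 ceNFzAyE2ByA3H2AzIzA2H3A2E2A2AzAyAyF_8) (.node ceNFzAyE2ByA3H2AzIzA2H3A2E2A2AzAyAyF_9 ceNFzAyE2ByA3H2AzIzA2H3A2E2A2AzAyAyF_10))))
noncomputable def coNFzAyE2ByA3H2AzIzA2H3A2E2A2AzAyAyF_0 : BT Nat := coNFzAyE2ByA3H2AzIzA2H3A2E2A2AzAyAyF_0_0
noncomputable def coNFzAyE2ByA3H2AzIzA2H3A2E2A2AzAyAyF_1 : BT Nat := coNFzAyE2ByA3H2AzIzA2H3A2E2A2AzAyAyF_1_0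
noncomputable def coNFzAyE2ByA3H2AzIzA2H3A2E2A2AzAyAyF_2 : BT Nat := coNFzAyE2ByA3H2AzIzA2H3A2E2A2AzAyAyF_2_0
noncomputable def coNFzAyE2ByA3H2AzIzA2H3A2E2A2AzAyAyF_3 : BT Nat := coNFzAyE2ByA3H2AzIzA2H3A2E2A2AzAyAyF_3_0
noncomputable def coNFzAyE2ByA3H2AzIzA2H3A2E2A2AzAyAyF_4 : BT Nat := coNFzAyE2ByA3H2AzIzA2H3A2E2A2AzAyAyF_4_0
noncomputable def coNFzAyE2ByA3H2AzIzA2H3A2E2A2AzAyAyF_5 : BT Nat := coNFzAyE2ByA3H2AzIzA2H3A2E2A2AzAyAyF_5_0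
noncomputable def coNFzAyE2ByA3H2AzIzA2H3A2E2A2AzAyAyF_6 : BT Nat := coNFzAyE2ByA3H2AzIzA2H3A2E2A2AzAyAyF_6_0
noncomputable def coNFzAyE2ByA3H2AzIzA2H3A2E2A2AzAyAyF_7 : BT Nat := coNFzAyE2ByA3H2AzIzA2H3A2E2A2AzAyAyF_7_0
noncomputable def coNFzAyE2ByA3H2AzIzA2H3A2E2A2AzAyAyF_8 : BT Nat := coNFzAyE2ByA3H2AzIzA2H3A2E2A2AzAyAyF_8_0
noncomputable def coNFzAyE2ByA3H2AzIzA2H3A2E2A2AzAyAyF_9 : BT Nat := coNFzAyE2ByA3H2AzIzA2H3A2E2A2AzAyAyF_9_0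
noncomputable def coNFzAyE2ByA3H2AzIzA2H3A2E2A2AzAyAyF_10 : BT Nat := coNFzAyE2ByA3H2AzIzA2H3A2E2A2AzAyAyF_10_0
noncomputable def coNFzAyE2ByA3H2AzIzA2H3A2E2A2AzAyAyF : BT Nat := (.node (.node (.node coNFzAyE2ByA3H2AzIzA2H3A2E2A2AzAyAyF_0 coNFzAyE2ByA3H2AzIzA2H3A2E2A2AzAyAyF_1) (.node coNFzAyE2ByA3H2AzIzA2H3A2E2A2AzAyAyF_2 coNFzAyE2ByA3H2AzIzA2H3A2E2A2AzAyAyF_3)) (.node (.node coNFzAyE2ByA3H2AzIzA2H3A2E2A2AzAyAyF_4 (.node coNFzAyE2ByA3H2AzIzA2H3A2E2A2AzAyAyF_5 coNFzAyE2ByA3H2AzIzA2H3A2E2A2AzAyAyF_6)) (.node (.node coNFzAyE2ByA3H2AzIzA2H3A2E2A2AzAyAyF_7 coNFzAyE2ByA3H2AzIzA2H3A2E2A2AzAyAyF_8) (.node coNFzAyE2ByA3H2AzIzA2H3A2E2A2AzAyAyF_9 coNFzAyE2ByA3H2AzIzA2H3A2E2A2AzAyAyF_10))))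

end MPb6R
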