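import Pool.Agent.Lib.MP_b6d339_lc.Pos.Lx
import Pool.Agent.Lib.MP_b6d339_lc.Cw3.YFzAyE2ByA3H2AzIzA2H3A2E2A2AzAyAzF_0
import Pool.Agent.Lib.MP_b6d339_lc.Cw3.YFzAyE2ByA3H2AzIzA2H3A2E2A2AzAyAzF_1

/-!
# Erdős 592, three levels: tables
-/

namespace MPb6R

open MPb6P

/-- class of words -/
def xNFzAyE2ByA3H2AzIzA2H3A2E2A2AzAyAzF : List PE := [⟨0, 4, 4, 0⟩, ⟨1, 4, 4, 11⟩, ⟨1, 3, 3, 5⟩, ⟨1, 2, 2, 10⟩, ⟨0, 2, 2, 6⟩, ⟨1, 2, 2, 5⟩, ⟨0, 3, 3, 14⟩, ⟨0, 2, 2, 5⟩, ⟨1, 3, 3, 15⟩, ⟨1, 3, 3, 5⟩, ⟨0, 2, 2, 14⟩, ⟨0, 3, 3, 5⟩, ⟨0, 2, 2, 10⟩, ⟨0, 2, 2, 5⟩, ⟨0, 2, 2, 5⟩, ⟨1, 3, 3, 5⟩, ⟨1, 2, 2, 5⟩, ⟨1, 3, 3, 11⟩, ⟨1, 4, 4, 0⟩, ⟨0, 4, 4, 0⟩]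

noncomputable def nnNFzAyE2ByA3H2AzIzA2H3A2E2A2AzAyAzF : BT Nat := (.node (.node nnNFzAyE2ByA3H2AzIzA2H3A2E2A2AzAyAzF_0 nnNFzAyE2ByA3H2AzIzA2H3A2E2A2AzAyAzF_1) (.node nnNFzAyE2ByA3H2AzIzA2H3A2E2A2AzAyAzF_2 nnNFzAyE2ByA3H2AzIzA2H3A2E2A2AzAyAzF_3))
noncomputable def ttNFzAyE2ByA3H2AzIzA2H3A2E2A2AzAyAzF : BT Nat := (.node (.node (.node (.node (.node ttNFzAyE2ByA3H2AzIzA2H3A2E2A2AzAyAzF_0 ttNFzAyE2ByA3H2AzIzA2H3A2E2A2AzAyAzF_1) (.node ttNFzAyE2ByA3H2AzIzA2H3A2E2A2AzAyAzF_2 ttNFzAyE2ByA3H2AzIzA2H3A2E2A2AzAyAzF_3)) (.node (.node ttNFzAyE2ByA3H2AzIzA2H3A2E2A2AzAyAzF_4 ttNFzAyE2ByA3H2AzIzA2H3A2E2A2AzAyAzF_5) (.node ttNFzAyE2ByA3H2AzIzA2H3A2E2A2AzAyAzF_6 ttNFzAyE2ByA3H2AzIzA2H3A2E2A2AzAyAzF_7)))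 (.node (.node (.node ttNFzAyE2ByA3H2AzIzA2H3A2E2A2AzAyAzF_8 ttNFzAyE2ByA3H2AzIzA2H3A2E2A2AzAyAzF_9) (.node ttNFzAyE2ByA3H2AzIzA2H3A2E2A2AzAyAzF_10 ttNFzAyE2ByA3H2AzIzA2H3A2E2A2AzAyAzF_11)) (.node (.node ttNFzAyE2ByA3H2AzIzA2H3A2E2A2AzAyAzF_12 ttNFzAyE2ByA3H2AzIzA2H3A2E2A2AzAyAzF_13) (.node ttNFzAyE2ByA3H2AzIzA2H3A2E2A2AzAyAzF_14 ttNFzAyE2ByA3H2AzIzA2H3A2E2A2AzAyAzF_15)))) (.node (.node (.node (.node ttNFzAyE2ByA3H2AzIzA2H3A2E2A2AzAyAzF_16 ttNFzAyE2ByA3H2AzIzA2H3A2E2A2AzAyAzF_17) (.node ttNFzAyE2ByA3H2AzIzA2H3A2E2A2AzAyAzF_18 ttNFzAyE2ByA3H2AzIzA2H3A2E2A2AzAyAzF_19)) (.node (.node ttNFzAyE2ByA3H2AzIzA2H3A2E2A2AzAyAzF_20 ttNFzAyE2ByA3H2AzIzA2H3A2E2A2AzAyAzF_21) (.node ttNFzAyE2ByA3H2AzIzA2H3A2E2A2AzAyAzF_22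 ttNFzAyE2ByA3H2AzIzA2H3A2E2A2AzAyAzF_23))) (.node (.node (.node ttNFzAyE2ByA3H2AzIzA2H3A2E2A2AzAyAzF_24 ttNFzAyE2ByA3H2AzIzA2H3A2E2A2AzAyAzF_25) (.node ttNFzAyE2ByA3H2AzIzA2H3A2E2A2AzAyAzF_26 ttNFzAyE2ByA3H2AzIzA2H3A2E2A2AzAyAzF_27)) (.node (.node ttNFzAyE2ByA3H2AzIzA2H3A2E2A2AzAyAzF_28 ttNFzAyE2ByA3H2AzIzA2H3A2E2A2AzAyAzF_29) (.node ttNFzAyE2ByA3H2AzIzA2H3A2E2A2AzAyAzF_30 ttNFzAyE2ByA3H2AzIzA2H3A2E2A2AzAyAzF_31)))))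
noncomputable def ceNFzAyE2ByA3H2AzIzA2H3A2E2A2AzAyAzF_0 : BT Nat := ceNFzAyE2ByA3H2AzIzA2H3A2E2A2AzAyAzF_0_0
noncomputable def ceNFzAyE2ByA3H2AzIzA2H3A2E2A2AzAyAzF_1 : BT Nat := ceNFzAyE2ByA3H2AzIzA2H3A2E2A2AzAyAzF_1_0
noncomputable def ceNFzAyE2ByA3H2AzIzA2H3A2E2A2AzAyAzF_2 : BT Nat := (.node ceNFzAyE2ByA3H2AzIzA2H3A2E2A2AzAyAzF_2_0 ceNFzAyE2ByA3H2AzIzA2H3A2E2A2AzAyAzF_2_1)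
noncomputable def ceNFzAyE2ByA3H2AzIzA2H3A2E2A2AzAyAzF_3 : BT Nat := ceNFzAyE2ByA3H2AzIzA2H3A2E2A2AzAyAzF_3_0
noncomputable def ceNFzAyE2ByA3H2AzIzA2H3A2E2A2AzAyAzF_4 : BT Nat := ceNFzAyE2ByA3H2AzIzA2H3A2E2A2AzAyAzF_4_0
noncomputable def ceNFzAyE2ByA3H2AzIzA2H3A2E2A2AzAyAzF_5 : BT Nat := ceNFzAyE2ByA3H2AzIzA2H3A2E2A2AzAyAzF_5_0
noncomputable def ceNFzAyE2ByA3H2AzIzA2H3A2E2A2AzAyAzF_6 : BT Nat := ceNFzAyE2ByA3H2AzIzA2H3A2E2A2AzAyAzF_6_0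
noncomputable def ceNFzAyE2ByA3H2AzIzA2H3A2E2A2AzAyAzF_7 : BT Nat := ceNFzAyE2ByA3H2AzIzA2H3A2E2A2AzAyAzF_7_0
noncomputable def ceNFzAyE2ByA3H2AzIzA2H3A2E2A2AzAyAzF_8 : BT Nat := ceNFzAyE2ByA3H2AzIzA2H3A2E2A2AzAyAzF_8_0
noncomputable def ceNFzAyE2ByA3H2AzIzA2H3A2E2A2AzAyAzF_9 : BT Nat := ceNFzAyE2ByA3H2AzIzA2H3A2E2A2AzAyAzF_9_0
noncomputable def ceNFzAyE2ByA3H2AzIzA2H3A2E2A2AzAyAzF_10 : BT Nat := ceNFzAyE2ByA3H2AzIzA2H3A2E2A2AzAyAzF_10_0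
noncomputable def ceNFzAyE2ByA3H2AzIzA2H3A2E2A2AzAyAzF : BT Nat := (.node (.node (.node ceNFzAyE2ByA3H2AzIzA2H3A2E2A2AzAyAzF_0 ceNFzAyE2ByA3H2AzIzA2H3A2E2A2AzAyAzF_1) ceNFzAyE2ByA3H2AzIzA2H3A2E2A2AzAyAzF_2) (.node (.node (.node ceNFzAyE2ByA3H2AzIzA2H3A2E2A2AzAyAzF_3 ceNFzAyE2ByA3H2AzIzA2H3A2E2A2AzAyAzF_4) (.node ceNFzAyE2ByA3H2AzIzA2H3A2E2A2AzAyAzF_5 ceNFzAyE2ByA3H2AzIzA2H3A2E2A2AzAyAzF_6)) (.node (.node ceNFzAyE2ByA3H2AzIzA2H3A2E2A2AzAyAzF_7 ceNFzAyE2ByA3H2AzIzA2H3A2E2A2AzAyAzF_8) (.node ceNFzAyE2ByA3H2AzIzA2H3A2E2A2AzAyAzF_9 ceNFzAyE2ByA3H2AzIzA2H3A2E2A2AzAyAzF_10))))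
noncomputable def coNFzAyE2ByA3H2AzIzA2H3A2E2A2AzAyAzF_0 : BT Nat := (.node coNFzAyE2ByA3H2AzIzA2H3A2E2A2AzAyAzF_0_0 coNFzAyE2ByA3H2AzIzA2H3A2E2A2AzAyAzF_0_1)
noncomputable def coNFzAyE2ByA3H2AzIzA2H3A2E2A2AzAyAzF_1 : BT Nat := (.node coNFzAyE2ByA3H2AzIzA2H3A2E2A2AzAyAzF_1_0 coNFzAyE2ByA3H2AzIzA2H3A2E2A2AzAyAzF_1_1)
noncomputable def coNFzAyE2ByA3H2AzIzA2H3A2E2A2AzAyAzF_2 : BT Nat := coNFzAyE2ByA3H2AzIzA2H3A2E2A2AzAyAzF_2_0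
noncomputable def coNFzAyE2ByA3H2AzIzA2H3A2E2A2AzAyAzF_3 : BT Nat := coNFzAyE2ByA3H2AzIzA2H3A2E2A2AzAyAzF_3_0
noncomputable def coNFzAyE2ByA3H2AzIzA2H3A2E2A2AzAyAzF_4 : BT Nat := coNFzAyE2ByA3H2AzIzA2H3A2E2A2AzAyAzF_4_0
noncomputable def coNFzAyE2ByA3H2AzIzA2H3A2E2A2AzAyAzF_5 : BT Nat := coNFzAyE2ByA3H2AzIzA2H3A2E2A2AzAyAzF_5_0
noncomputable def coNFzAyE2ByA3H2AzIzA2H3A2E2A2AzAyAzF_6 : BT Nat := coNFzAyE2ByA3H2AzIzA2H3A2E2A2AzAyAzF_6_0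
noncomputable def coNFzAyE2ByA3H2AzIzA2H3A2E2A2AzAyAzF_7 : BT Nat := coNFzAyE2ByA3H2AzIzA2H3A2E2A2AzAyAzF_7_0
noncomputable def coNFzAyE2ByA3H2AzIzA2H3A2E2A2AzAyAzF_8 : BT Nat := coNFzAyE2ByA3H2AzIzA2H3A2E2A2AzAyAzF_8_0
noncomputable def coNFzAyE2ByA3H2AzIzA2H3A2E2A2AzAyAzF : BT Nat := (.node (.node coNFzAyE2ByA3H2AzIzA2H3A2E2A2AzAyAzF_0 coNFzAyE2ByA3H2AzIzA2H3A2E2A2AzAyAzF_1) (.node (.node (.node coNFzAyE2ByA3H2AzIzA2H3A2E2A2AzAyAzF_2 coNFzAyE2ByA3H2AzIzA2H3A2E2A2AzAyAzF_3) (.node coNFzAyE2ByA3H2AzIzA2H3A2E2A2AzAyAzF_4 coNFzAyE2ByA3H2AzIzA2H3A2E2A2AzAyAzF_5)) (.node (.node coNFzAyE2ByA3H2AzIzA2H3A2E2A2AzAyAzF_6 coNFzAyE2ByA3H2AzIzA2H3A2E2A2AzAyAzF_7) coNFzAyE2ByA3H2AzIzA2H3A2E2A2AzAyAzF_8)))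

end MPb6R
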