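import Pool.Agent.Lib.MP_b6d339_lc.Pos.Lx
import Pool.Agent.Lib.MP_b6d339_lc.Cw3.YFzByAzA2A2E2A3H2ByAzIzA2H3AyB2EyAzAyBzF_0
import Pool.Agent.Lib.MP_b6d339_lc.Cw3.YFzByAzA2A2E2A3H2ByAzIzA2H3AyB2EyAzAyBzF_1

/-!
# Erdős 592, three levels: tables
-/

namespace MPb6R

open MPb6P

/-- class of words -/
def xNFzByAzA2A2E2A3H2ByAzIzA2H3AyB2EyAzAyBzF : List PE := [⟨0, 4, 4, 0⟩, ⟨1, 4, 4, 11⟩, ⟨1, 3, 3, 6⟩, ⟨1, 2, 2, 5⟩, ⟨1, 3, 3, 5⟩, ⟨0, 2, 2, 5⟩, ⟨0, 2, 2, 10⟩, ⟨0, 2, 2, 5⟩, ⟨0, 3, 3, 14⟩, ⟨0, 2, 2, 6⟩, ⟨1, 2, 2, 5⟩, ⟨1, 3, 3, 15⟩, ⟨1, 3, 3, 5⟩, ⟨0, 2, 2, 14⟩, ⟨0, 3, 3, 5⟩, ⟨1, 2, 2, 6⟩, ⟨0, 2, 2, 10⟩, ⟨1, 2, 2, 5⟩, ⟨1, 3, 3, 5⟩, ⟨1, 2, 2, 6⟩, ⟨1, 3, 3, 11⟩, ⟨1, 4, 4, 0⟩, ⟨0, 4, 4, 0⟩]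

noncomputable def nnNFzByAzA2A2E2A3H2ByAzIzA2H3AyB2EyAzAyBzF : BT Nat := (.node nnNFzByAzA2A2E2A3H2ByAzIzA2H3AyB2EyAzAyBzF_0 nnNFzByAzA2A2E2A3H2ByAzIzA2H3AyB2EyAzAyBzF_1)
noncomputable def ttNFzByAzA2A2E2A3H2ByAzIzA2H3AyB2EyAzAyBzF : BT Nat := (.node (.node (.node (.node (.node (.node ttNFzByAzA2A2E2A3H2ByAzIzA2H3AyB2EyAzAyBzF_0 ttNFzByAzA2A2E2A3H2ByAzIzA2H3AyB2EyAzAyBzF_1) (.node ttNFzByAzA2A2E2A3H2ByAzIzA2H3AyB2EyAzAyBzF_2 ttNFzByAzA2A2E2A3H2ByAzIzA2H3AyB2EyAzAyBzF_3)) (.node (.node ttNFzByAzA2A2E2A3H2ByAzIzA2H3AyB2EyAzAyBzF_4 ttNFzByAzA2A2E2A3H2ByAzIzA2H3AyB2EyAzAyBzF_5) (.node ttNFzByAzA2A2E2A3H2ByAzIzA2H3AyB2EyAzAyBzF_6 ttNFzByAzA2A2E2A3H2ByAzIzA2H3AyB2EyAzAyBzF_7))) (.node (.node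 (.node ttNFzByAzA2A2E2A3H2ByAzIzA2H3AyB2EyAzAyBzF_8 ttNFzByAzA2A2E2A3H2ByAzIzA2H3AyB2EyAzAyBzF_9) (.node ttNFzByAzA2A2E2A3H2ByAzIzA2H3AyB2EyAzAyBzF_10 ttNFzByAzA2A2E2A3H2ByAzIzA2H3AyB2EyAzAyBzF_11)) (.node (.node ttNFzByAzA2A2E2A3H2ByAzIzA2H3AyB2EyAzAyBzF_12 ttNFzByAzA2A2E2A3H2ByAzIzA2H3AyB2EyAzAyBzF_13) (.node ttNFzByAzA2A2E2A3H2ByAzIzA2H3AyB2EyAzAyBzF_14 ttNFzByAzA2A2E2A3H2ByAzIzA2H3AyB2EyAzAyBzF_15)))) (.node (.node (.node (.node ttNFzByAzA2A2E2A3H2ByAzIzA2H3AyB2EyAzAyBzF_16 ttNFzByAzA2A2E2A3H2ByAzIzA2H3AyB2EyAzAyBzF_17) (.node ttNFzByAzA2A2E2A3H2ByAzIzA2H3AyB2EyAzAyBzF_18 ttNFzByAzA2A2E2A3H2ByAzIzA2H3AyB2EyAzAyBzF_19)) (.node (.node ttNFzByAzA2A2E2A3H2ByAzIzA2H3AyB2EyAzAyBzF_20 ttNFzByAzA2A2E2A3H2ByAzIzA2H3AyB2EyAzAyBzF_21)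 (.node ttNFzByAzA2A2E2A3H2ByAzIzA2H3AyB2EyAzAyBzF_22 ttNFzByAzA2A2E2A3H2ByAzIzA2H3AyB2EyAzAyBzF_23))) (.node (.node (.node ttNFzByAzA2A2E2A3H2ByAzIzA2H3AyB2EyAzAyBzF_24 ttNFzByAzA2A2E2A3H2ByAzIzA2H3AyB2EyAzAyBzF_25) (.node ttNFzByAzA2A2E2A3H2ByAzIzA2H3AyB2EyAzAyBzF_26 ttNFzByAzA2A2E2A3H2ByAzIzA2H3AyB2EyAzAyBzF_27)) (.node (.node ttNFzByAzA2A2E2A3H2ByAzIzA2H3AyB2EyAzAyBzF_28 ttNFzByAzA2A2E2A3H2ByAzIzA2H3AyB2EyAzAyBzF_29) (.node ttNFzByAzA2A2E2A3H2ByAzIzA2H3AyB2EyAzAyBzF_30 ttNFzByAzA2A2E2A3H2ByAzIzA2H3AyB2EyAzAyBzF_31))))) (.node (.node (.node (.node (.node ttNFzByAzA2A2E2A3H2ByAzIzA2H3AyB2EyAzAyBzF_32 ttNFzByAzA2A2E2A3H2ByAzIzA2H3AyB2EyAzAyBzF_33) (.node ttNFzByAzA2A2E2A3H2ByAzIzA2H3AyB2EyAzAyBzF_34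 ttNFzByAzA2A2E2A3H2ByAzIzA2H3AyB2EyAzAyBzF_35)) (.node (.node ttNFzByAzA2A2E2A3H2ByAzIzA2H3AyB2EyAzAyBzF_36 ttNFzByAzA2A2E2A3H2ByAzIzA2H3AyB2EyAzAyBzF_37) (.node ttNFzByAzA2A2E2A3H2ByAzIzA2H3AyB2EyAzAyBzF_38 ttNFzByAzA2A2E2A3H2ByAzIzA2H3AyB2EyAzAyBzF_39))) (.node (.node (.node ttNFzByAzA2A2E2A3H2ByAzIzA2H3AyB2EyAzAyBzF_40 ttNFzByAzA2A2E2A3H2ByAzIzA2H3AyB2EyAzAyBzF_41) (.node ttNFzByAzA2A2E2A3H2ByAzIzA2H3AyB2EyAzAyBzF_42 ttNFzByAzA2A2E2A3H2ByAzIzA2H3AyB2EyAzAyBzF_43)) (.node (.node ttNFzByAzA2A2E2A3H2ByAzIzA2H3AyB2EyAzAyBzF_44 ttNFzByAzA2A2E2A3H2ByAzIzA2H3AyB2EyAzAyBzF_45) (.node ttNFzByAzA2A2E2A3H2ByAzIzA2H3AyB2EyAzAyBzF_46 ttNFzByAzA2A2E2A3H2ByAzIzA2H3AyB2EyAzAyBzF_47)))) (.node (.node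 (.node (.node ttNFzByAzA2A2E2A3H2ByAzIzA2H3AyB2EyAzAyBzF_48 ttNFzByAzA2A2E2A3H2ByAzIzA2H3AyB2EyAzAyBzF_49) (.node ttNFzByAzA2A2E2A3H2ByAzIzA2H3AyB2EyAzAyBzF_50 ttNFzByAzA2A2E2A3H2ByAzIzA2H3AyB2EyAzAyBzF_51)) (.node (.node ttNFzByAzA2A2E2A3H2ByAzIzA2H3AyB2EyAzAyBzF_52 ttNFzByAzA2A2E2A3H2ByAzIzA2H3AyB2EyAzAyBzF_53) (.node ttNFzByAzA2A2E2A3H2ByAzIzA2H3AyB2EyAzAyBzF_54 ttNFzByAzA2A2E2A3H2ByAzIzA2H3AyB2EyAzAyBzF_55))) (.node (.node (.node ttNFzByAzA2A2E2A3H2ByAzIzA2H3AyB2EyAzAyBzF_56 ttNFzByAzA2A2E2A3H2ByAzIzA2H3AyB2EyAzAyBzF_57) (.node ttNFzByAzA2A2E2A3H2ByAzIzA2H3AyB2EyAzAyBzF_58 ttNFzByAzA2A2E2A3H2ByAzIzA2H3AyB2EyAzAyBzF_59)) (.node (.node ttNFzByAzA2A2E2A3H2ByAzIzA2H3AyB2EyAzAyBzF_60 ttNFzByAzA2A2E2A3H2ByAzIzA2H3AyB2EyAzAyBzF_61)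 (.node ttNFzByAzA2A2E2A3H2ByAzIzA2H3AyB2EyAzAyBzF_62 ttNFzByAzA2A2E2A3H2ByAzIzA2H3AyB2EyAzAyBzF_63))))))
noncomputable def ceNFzByAzA2A2E2A3H2ByAzIzA2H3AyB2EyAzAyBzF_0 : BT Nat := ceNFzByAzA2A2E2A3H2ByAzIzA2H3AyB2EyAzAyBzF_0_0
noncomputable def ceNFzByAzA2A2E2A3H2ByAzIzA2H3AyB2EyAzAyBzF_1 : BT Nat := ceNFzByAzA2A2E2A3H2ByAzIzA2H3AyB2EyAzAyBzF_1_0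
noncomputable def ceNFzByAzA2A2E2A3H2ByAzIzA2H3AyB2EyAzAyBzF_2 : BT Nat := ceNFzByAzA2A2E2A3H2ByAzIzA2H3AyB2EyAzAyBzF_2_0
noncomputable def ceNFzByAzA2A2E2A3H2ByAzIzA2H3AyB2EyAzAyBzF_3 : BT Nat := ceNFzByAzA2A2E2A3H2ByAzIzA2H3AyB2EyAzAyBzF_3_0
noncomputable def ceNFzByAzA2A2E2A3H2ByAzIzA2H3AyB2EyAzAyBzF_4 : BT Nat := ceNFzByAzA2A2E2A3H2ByAzIzA2H3AyB2EyAzAyBzF_4_0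
noncomputable def ceNFzByAzA2A2E2A3H2ByAzIzA2H3AyB2EyAzAyBzF_5 : BT Nat := ceNFzByAzA2A2E2A3H2ByAzIzA2H3AyB2EyAzAyBzF_5_0
noncomputable def ceNFzByAzA2A2E2A3H2ByAzIzA2H3AyB2EyAzAyBzF_6 : BT Nat := ceNFzByAzA2A2E2A3H2ByAzIzA2H3AyB2EyAzAyBzF_6_0
noncomputable def ceNFzByAzA2A2E2A3H2ByAzIzA2H3AyB2EyAzAyBzF_7 : BT Nat := ceNFzByAzA2A2E2A3H2ByAzIzA2H3AyB2EyAzAyBzF_7_0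
noncomputable def ceNFzByAzA2A2E2A3H2ByAzIzA2H3AyB2EyAzAyBzF_8 : BT Nat := ceNFzByAzA2A2E2A3H2ByAzIzA2H3AyB2EyAzAyBzF_8_0
noncomputable def ceNFzByAzA2A2E2A3H2ByAzIzA2H3AyB2EyAzAyBzF_9 : BT Nat := ceNFzByAzA2A2E2A3H2ByAzIzA2H3AyB2EyAzAyBzF_9_0
noncomputable def ceNFzByAzA2A2E2A3H2ByAzIzA2H3AyB2EyAzAyBzF_10 : BT Nat := ceNFzByAzA2A2E2A3H2ByAzIzA2H3AyB2EyAzAyBzF_10_0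
noncomputable def ceNFzByAzA2A2E2A3H2ByAzIzA2H3AyB2EyAzAyBzF_11 : BT Nat := ceNFzByAzA2A2E2A3H2ByAzIzA2H3AyB2EyAzAyBzF_11_0
noncomputable def ceNFzByAzA2A2E2A3H2ByAzIzA2H3AyB2EyAzAyBzF_12 : BT Nat := ceNFzByAzA2A2E2A3H2ByAzIzA2H3AyB2EyAzAyBzF_12_0
noncomputable def ceNFzByAzA2A2E2A3H2ByAzIzA2H3AyB2EyAzAyBzF : BT Nat := (.node (.node (.node ceNFzByAzA2A2E2A3H2ByAzIzA2H3AyB2EyAzAyBzF_0 ceNFzByAzA2A2E2A3H2ByAzIzA2H3AyB2EyAzAyBzF_1) (.node ceNFzByAzA2A2E2A3H2ByAzIzA2H3AyB2EyAzAyBzF_2 (.node ceNFzByAzA2A2E2A3H2ByAzIzA2H3AyB2EyAzAyBzF_3 ceNFzByAzA2A2E2A3H2ByAzIzA2H3AyB2EyAzAyBzF_4))) (.node (.node (.node ceNFzByAzA2A2E2A3H2ByAzIzA2H3AyB2EyAzAyBzF_5 (.node ceNFzByAzA2A2E2A3H2ByAzIzA2H3AyB2EyAzAyBzF_6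 ceNFzByAzA2A2E2A3H2ByAzIzA2H3AyB2EyAzAyBzF_7)) (.node ceNFzByAzA2A2E2A3H2ByAzIzA2H3AyB2EyAzAyBzF_8 ceNFzByAzA2A2E2A3H2ByAzIzA2H3AyB2EyAzAyBzF_9)) (.node (.node ceNFzByAzA2A2E2A3H2ByAzIzA2H3AyB2EyAzAyBzF_10 ceNFzByAzA2A2E2A3H2ByAzIzA2H3AyB2EyAzAyBzF_11) ceNFzByAzA2A2E2A3H2ByAzIzA2H3AyB2EyAzAyBzF_12)))
noncomputable def coNFzByAzA2A2E2A3H2ByAzIzA2H3AyB2EyAzAyBzF_0 : BT Nat := coNFzByAzA2A2E2A3H2ByAzIzA2H3AyB2EyAzAyBzF_0_0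
noncomputable def coNFzByAzA2A2E2A3H2ByAzIzA2H3AyB2EyAzAyBzF_1 : BT Nat := coNFzByAzA2A2E2A3H2ByAzIzA2H3AyB2EyAzAyBzF_1_0
noncomputable def coNFzByAzA2A2E2A3H2ByAzIzA2H3AyB2EyAzAyBzF_2 : BT Nat := coNFzByAzA2A2E2A3H2ByAzIzA2H3AyB2EyAzAyBzF_2_0
noncomputable def coNFzByAzA2A2E2A3H2ByAzIzA2H3AyB2EyAzAyBzF_3 : BT Nat := coNFzByAzA2A2E2A3H2ByAzIzA2H3AyB2EyAzAyBzF_3_0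
noncomputable def coNFzByAzA2A2E2A3H2ByAzIzA2H3AyB2EyAzAyBzF_4 : BT Nat := coNFzByAzA2A2E2A3H2ByAzIzA2H3AyB2EyAzAyBzF_4_0
noncomputable def coNFzByAzA2A2E2A3H2ByAzIzA2H3AyB2EyAzAyBzF_5 : BT Nat := coNFzByAzA2A2E2A3H2ByAzIzA2H3AyB2EyAzAyBzF_5_0
noncomputable def coNFzByAzA2A2E2A3H2ByAzIzA2H3AyB2EyAzAyBzF_6 : BT Nat := coNFzByAzA2A2E2A3H2ByAzIzA2H3AyB2EyAzAyBzF_6_0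
noncomputable def coNFzByAzA2A2E2A3H2ByAzIzA2H3AyB2EyAzAyBzF_7 : BT Nat := coNFzByAzA2A2E2A3H2ByAzIzA2H3AyB2EyAzAyBzF_7_0
noncomputable def coNFzByAzA2A2E2A3H2ByAzIzA2H3AyB2EyAzAyBzF_8 : BT Nat := coNFzByAzA2A2E2A3H2ByAzIzA2H3AyB2EyAzAyBzF_8_0
noncomputable def coNFzByAzA2A2E2A3H2ByAzIzA2H3AyB2EyAzAyBzF_9 : BT Nat := coNFzByAzA2A2E2A3H2ByAzIzA2H3AyB2EyAzAyBzF_9_0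
noncomputable def coNFzByAzA2A2E2A3H2ByAzIzA2H3AyB2EyAzAyBzF_10 : BT Nat := coNFzByAzA2A2E2A3H2ByAzIzA2H3AyB2EyAzAyBzF_10_0
noncomputable def coNFzByAzA2A2E2A3H2ByAzIzA2H3AyB2EyAzAyBzF_11 : BT Nat := coNFzByAzA2A2E2A3H2ByAzIzA2H3AyB2EyAzAyBzF_11_0
noncomputable def coNFzByAzA2A2E2A3H2ByAzIzA2H3AyB2EyAzAyBzF_12 : BT Nat := coNFzByAzA2A2E2A3H2ByAzIzA2H3AyB2EyAzAyBzF_12_0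
noncomputable def coNFzByAzA2A2E2A3H2ByAzIzA2H3AyB2EyAzAyBzF_13 : BT Nat := coNFzByAzA2A2E2A3H2ByAzIzA2H3AyB2EyAzAyBzF_13_0
noncomputable def coNFzByAzA2A2E2A3H2ByAzIzA2H3AyB2EyAzAyBzF_14 : BT Nat := coNFzByAzA2A2E2A3H2ByAzIzA2H3AyB2EyAzAyBzF_14_0
noncomputable def coNFzByAzA2A2E2A3H2ByAzIzA2H3AyB2EyAzAyBzF_15 : BT Nat := coNFzByAzA2A2E2A3H2ByAzIzA2H3AyB2EyAzAyBzF_15_0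
noncomputable def coNFzByAzA2A2E2A3H2ByAzIzA2H3AyB2EyAzAyBzF : BT Nat := (.node (.node (.node coNFzByAzA2A2E2A3H2ByAzIzA2H3AyB2EyAzAyBzF_0 coNFzByAzA2A2E2A3H2ByAzIzA2H3AyB2EyAzAyBzF_1) (.node coNFzByAzA2A2E2A3H2ByAzIzA2H3AyB2EyAzAyBzF_2 (.node coNFzByAzA2A2E2A3H2ByAzIzA2H3AyB2EyAzAyBzF_3 coNFzByAzA2A2E2A3H2ByAzIzA2H3AyB2EyAzAyBzF_4))) (.node (.node (.node coNFzByAzA2A2E2A3H2ByAzIzA2H3AyB2EyAzAyBzF_5 (.node (.node coNFzByAzA2A2E2A3H2ByAzIzA2H3AyB2EyAzAyBzF_6 coNFzByAzA2A2E2A3H2ByAzIzA2H3AyB2EyAzAyBzF_7) (.node coNFzByAzA2A2E2A3H2ByAzIzA2H3AyB2EyAzAyBzF_8 coNFzByAzA2A2E2A3H2ByAzIzA2H3AyB2EyAzAyBzF_9))) (.node coNFzByAzA2A2E2A3H2ByAzIzA2H3AyB2EyAzAyBzF_10 coNFzByAzA2A2E2A3H2ByAzIzA2H3AyB2EyAzAyBzF_11))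 (.node (.node coNFzByAzA2A2E2A3H2ByAzIzA2H3AyB2EyAzAyBzF_12 coNFzByAzA2A2E2A3H2ByAzIzA2H3AyB2EyAzAyBzF_13) (.node coNFzByAzA2A2E2A3H2ByAzIzA2H3AyB2EyAzAyBzF_14 coNFzByAzA2A2E2A3H2ByAzIzA2H3AyB2EyAzAyBzF_15))))

end MPb6R
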