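import Pool.Agent.Lib.MP_b6d339_lc.Pos.Lx
import Pool.Agent.Lib.MP_b6d339_lc.Cw3.YFzByAzE2A3H2ByAzIzAyB2H3A2EzF_0
import Pool.Agent.Lib.MP_b6d339_lc.Cw3.YFzByAzE2A3H2ByAzIzAyB2H3A2EzF_1
import Pool.Agent.Lib.MP_b6d339_lc.Cw3.YFzByAzE2A3H2ByAzIzAyB2H3A2EzF_2

/-!
# Erdős 592, three levels: tables
-/

namespace MPb6R

open MPb6P

/-- class of words -/
def xNFzByAzE2A3H2ByAzIzAyB2H3A2EzF : List PE := [⟨0, 4, 4, 0⟩, ⟨1, 4, 4, 11⟩, ⟨1, 3, 3, 6⟩, ⟨1, 2, 2, 5⟩, ⟨1, 3, 3, 10⟩, ⟨0, 2, 2, 5⟩, ⟨0, 3, 3, 14⟩, ⟨0, 2, 2, 6⟩, ⟨1, 2, 2, 5⟩, ⟨1, 3, 3, 15⟩, ⟨1, 3, 3, 5⟩, ⟨1, 2, 2, 6⟩, ⟨0, 2, 2, 14⟩, ⟨0, 3, 3, 5⟩, ⟨0, 2, 2, 10⟩, ⟨1, 3, 3, 11⟩, ⟨1, 4, 4, 0⟩, ⟨0, 4, 4, 0⟩]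

noncomputable def nnNFzByAzE2A3H2ByAzIzAyB2H3A2EzF : BT Nat := (.node (.node nnNFzByAzE2A3H2ByAzIzAyB2H3A2EzF_0 nnNFzByAzE2A3H2ByAzIzAyB2H3A2EzF_1) (.node nnNFzByAzE2A3H2ByAzIzAyB2H3A2EzF_2 nnNFzByAzE2A3H2ByAzIzAyB2H3A2EzF_3))
noncomputable def ttNFzByAzE2A3H2ByAzIzAyB2H3A2EzF : BT Nat := (.node (.node (.node (.node (.node (.node ttNFzByAzE2A3H2ByAzIzAyB2H3A2EzF_0 ttNFzByAzE2A3H2ByAzIzAyB2H3A2EzF_1) (.node ttNFzByAzE2A3H2ByAzIzAyB2H3A2EzF_2 ttNFzByAzE2A3H2ByAzIzAyB2H3A2EzF_3)) (.node (.node ttNFzByAzE2A3H2ByAzIzAyB2H3A2EzF_4 ttNFzByAzE2A3H2ByAzIzAyB2H3A2EzF_5) (.node ttNFzByAzE2A3H2ByAzIzAyB2H3A2EzF_6 ttNFzByAzE2A3H2ByAzIzAyB2H3A2EzF_7))) (.node (.node (.node ttNFzByAzE2A3H2ByAzIzAyB2H3A2EzF_8 ttNFzByAzE2A3H2ByAzIzAyB2H3A2EzF_9)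 (.node ttNFzByAzE2A3H2ByAzIzAyB2H3A2EzF_10 ttNFzByAzE2A3H2ByAzIzAyB2H3A2EzF_11)) (.node (.node ttNFzByAzE2A3H2ByAzIzAyB2H3A2EzF_12 ttNFzByAzE2A3H2ByAzIzAyB2H3A2EzF_13) (.node ttNFzByAzE2A3H2ByAzIzAyB2H3A2EzF_14 ttNFzByAzE2A3H2ByAzIzAyB2H3A2EzF_15)))) (.node (.node (.node (.node ttNFzByAzE2A3H2ByAzIzAyB2H3A2EzF_16 ttNFzByAzE2A3H2ByAzIzAyB2H3A2EzF_17) (.node ttNFzByAzE2A3H2ByAzIzAyB2H3A2EzF_18 ttNFzByAzE2A3H2ByAzIzAyB2H3A2EzF_19)) (.node (.node ttNFzByAzE2A3H2ByAzIzAyB2H3A2EzF_20 ttNFzByAzE2A3H2ByAzIzAyB2H3A2EzF_21) (.node ttNFzByAzE2A3H2ByAzIzAyB2H3A2EzF_22 ttNFzByAzE2A3H2ByAzIzAyB2H3A2EzF_23))) (.node (.node (.node ttNFzByAzE2A3H2ByAzIzAyB2H3A2EzF_24 ttNFzByAzE2A3H2ByAzIzAyB2H3A2EzF_25) (.node ttNFzByAzE2A3H2ByAzIzAyB2H3A2EzF_26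 ttNFzByAzE2A3H2ByAzIzAyB2H3A2EzF_27)) (.node (.node ttNFzByAzE2A3H2ByAzIzAyB2H3A2EzF_28 ttNFzByAzE2A3H2ByAzIzAyB2H3A2EzF_29) (.node ttNFzByAzE2A3H2ByAzIzAyB2H3A2EzF_30 ttNFzByAzE2A3H2ByAzIzAyB2H3A2EzF_31))))) (.node (.node (.node (.node (.node ttNFzByAzE2A3H2ByAzIzAyB2H3A2EzF_32 ttNFzByAzE2A3H2ByAzIzAyB2H3A2EzF_33) (.node ttNFzByAzE2A3H2ByAzIzAyB2H3A2EzF_34 ttNFzByAzE2A3H2ByAzIzAyB2H3A2EzF_35)) (.node (.node ttNFzByAzE2A3H2ByAzIzAyB2H3A2EzF_36 ttNFzByAzE2A3H2ByAzIzAyB2H3A2EzF_37) (.node ttNFzByAzE2A3H2ByAzIzAyB2H3A2EzF_38 ttNFzByAzE2A3H2ByAzIzAyB2H3A2EzF_39))) (.node (.node (.node ttNFzByAzE2A3H2ByAzIzAyB2H3A2EzF_40 ttNFzByAzE2A3H2ByAzIzAyB2H3A2EzF_41) (.node ttNFzByAzE2A3H2ByAzIzAyB2H3A2EzF_42 ttNFzByAzE2A3H2ByAzIzAyB2H3A2EzF_43))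 (.node (.node ttNFzByAzE2A3H2ByAzIzAyB2H3A2EzF_44 ttNFzByAzE2A3H2ByAzIzAyB2H3A2EzF_45) (.node ttNFzByAzE2A3H2ByAzIzAyB2H3A2EzF_46 ttNFzByAzE2A3H2ByAzIzAyB2H3A2EzF_47)))) (.node (.node (.node (.node ttNFzByAzE2A3H2ByAzIzAyB2H3A2EzF_48 ttNFzByAzE2A3H2ByAzIzAyB2H3A2EzF_49) (.node ttNFzByAzE2A3H2ByAzIzAyB2H3A2EzF_50 ttNFzByAzE2A3H2ByAzIzAyB2H3A2EzF_51)) (.node (.node ttNFzByAzE2A3H2ByAzIzAyB2H3A2EzF_52 ttNFzByAzE2A3H2ByAzIzAyB2H3A2EzF_53) (.node ttNFzByAzE2A3H2ByAzIzAyB2H3A2EzF_54 ttNFzByAzE2A3H2ByAzIzAyB2H3A2EzF_55))) (.node (.node (.node ttNFzByAzE2A3H2ByAzIzAyB2H3A2EzF_56 ttNFzByAzE2A3H2ByAzIzAyB2H3A2EzF_57) (.node ttNFzByAzE2A3H2ByAzIzAyB2H3A2EzF_58 ttNFzByAzE2A3H2ByAzIzAyB2H3A2EzF_59)) (.node (.node ttNFzByAzE2A3H2ByAzIzAyB2H3A2EzF_60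 ttNFzByAzE2A3H2ByAzIzAyB2H3A2EzF_61) (.node ttNFzByAzE2A3H2ByAzIzAyB2H3A2EzF_62 ttNFzByAzE2A3H2ByAzIzAyB2H3A2EzF_63))))))
noncomputable def ceNFzByAzE2A3H2ByAzIzAyB2H3A2EzF_0 : BT Nat := ceNFzByAzE2A3H2ByAzIzAyB2H3A2EzF_0_0
noncomputable def ceNFzByAzE2A3H2ByAzIzAyB2H3A2EzF_1 : BT Nat := ceNFzByAzE2A3H2ByAzIzAyB2H3A2EzF_1_0
noncomputable def ceNFzByAzE2A3H2ByAzIzAyB2H3A2EzF_2 : BT Nat := ceNFzByAzE2A3H2ByAzIzAyB2H3A2EzF_2_0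
noncomputable def ceNFzByAzE2A3H2ByAzIzAyB2H3A2EzF_3 : BT Nat := ceNFzByAzE2A3H2ByAzIzAyB2H3A2EzF_3_0
noncomputable def ceNFzByAzE2A3H2ByAzIzAyB2H3A2EzF_4 : BT Nat := ceNFzByAzE2A3H2ByAzIzAyB2H3A2EzF_4_0
noncomputable def ceNFzByAzE2A3H2ByAzIzAyB2H3A2EzF_5 : BT Nat := ceNFzByAzE2A3H2ByAzIzAyB2H3A2EzF_5_0
noncomputable def ceNFzByAzE2A3H2ByAzIzAyB2H3A2EzF_6 : BT Nat := ceNFzByAzE2A3H2ByAzIzAyB2H3A2EzF_6_0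
noncomputable def ceNFzByAzE2A3H2ByAzIzAyB2H3A2EzF_7 : BT Nat := ceNFzByAzE2A3H2ByAzIzAyB2H3A2EzF_7_0
noncomputable def ceNFzByAzE2A3H2ByAzIzAyB2H3A2EzF_8 : BT Nat := ceNFzByAzE2A3H2ByAzIzAyB2H3A2EzF_8_0
noncomputable def ceNFzByAzE2A3H2ByAzIzAyB2H3A2EzF_9 : BT Nat := ceNFzByAzE2A3H2ByAzIzAyB2H3A2EzF_9_0
noncomputable def ceNFzByAzE2A3H2ByAzIzAyB2H3A2EzF_10 : BT Nat := ceNFzByAzE2A3H2ByAzIzAyB2H3A2EzF_10_0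
noncomputable def ceNFzByAzE2A3H2ByAzIzAyB2H3A2EzF_11 : BT Nat := ceNFzByAzE2A3H2ByAzIzAyB2H3A2EzF_11_0
noncomputable def ceNFzByAzE2A3H2ByAzIzAyB2H3A2EzF_12 : BT Nat := ceNFzByAzE2A3H2ByAzIzAyB2H3A2EzF_12_0
noncomputable def ceNFzByAzE2A3H2ByAzIzAyB2H3A2EzF_13 : BT Nat := ceNFzByAzE2A3H2ByAzIzAyB2H3A2EzF_13_0
noncomputable def ceNFzByAzE2A3H2ByAzIzAyB2H3A2EzF_14 : BT Nat := ceNFzByAzE2A3H2ByAzIzAyB2H3A2EzF_14_0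
noncomputable def ceNFzByAzE2A3H2ByAzIzAyB2H3A2EzF_15 : BT Nat := ceNFzByAzE2A3H2ByAzIzAyB2H3A2EzF_15_0
noncomputable def ceNFzByAzE2A3H2ByAzIzAyB2H3A2EzF_16 : BT Nat := ceNFzByAzE2A3H2ByAzIzAyB2H3A2EzF_16_0
noncomputable def ceNFzByAzE2A3H2ByAzIzAyB2H3A2EzF_17 : BT Nat := ceNFzByAzE2A3H2ByAzIzAyB2H3A2EzF_17_0
noncomputable def ceNFzByAzE2A3H2ByAzIzAyB2H3A2EzF : BT Nat := (.node (.node (.node ceNFzByAzE2A3H2ByAzIzAyB2H3A2EzF_0 ceNFzByAzE2A3H2ByAzIzAyB2H3A2EzF_1) (.node ceNFzByAzE2A3H2ByAzIzAyB2H3A2EzF_2 (.node ceNFzByAzE2A3H2ByAzIzAyB2H3A2EzF_3 ceNFzByAzE2A3H2ByAzIzAyB2H3A2EzF_4))) (.node (.node (.node (.node ceNFzByAzE2A3H2ByAzIzAyB2H3A2EzF_5 ceNFzByAzE2A3H2ByAzIzAyB2H3A2EzF_6) (.node ceNFzByAzE2A3H2ByAzIzAyB2H3A2EzF_7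 ceNFzByAzE2A3H2ByAzIzAyB2H3A2EzF_8)) (.node (.node ceNFzByAzE2A3H2ByAzIzAyB2H3A2EzF_9 ceNFzByAzE2A3H2ByAzIzAyB2H3A2EzF_10) (.node ceNFzByAzE2A3H2ByAzIzAyB2H3A2EzF_11 ceNFzByAzE2A3H2ByAzIzAyB2H3A2EzF_12))) (.node (.node (.node ceNFzByAzE2A3H2ByAzIzAyB2H3A2EzF_13 ceNFzByAzE2A3H2ByAzIzAyB2H3A2EzF_14) ceNFzByAzE2A3H2ByAzIzAyB2H3A2EzF_15) (.node ceNFzByAzE2A3H2ByAzIzAyB2H3A2EzF_16 ceNFzByAzE2A3H2ByAzIzAyB2H3A2EzF_17))))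
noncomputable def coNFzByAzE2A3H2ByAzIzAyB2H3A2EzF_0 : BT Nat := coNFzByAzE2A3H2ByAzIzAyB2H3A2EzF_0_0
noncomputable def coNFzByAzE2A3H2ByAzIzAyB2H3A2EzF_1 : BT Nat := coNFzByAzE2A3H2ByAzIzAyB2H3A2EzF_1_0
noncomputable def coNFzByAzE2A3H2ByAzIzAyB2H3A2EzF_2 : BT Nat := coNFzByAzE2A3H2ByAzIzAyB2H3A2EzF_2_0
noncomputable def coNFzByAzE2A3H2ByAzIzAyB2H3A2EzF_3 : BT Nat := coNFzByAzE2A3H2ByAzIzAyB2H3A2EzF_3_0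
noncomputable def coNFzByAzE2A3H2ByAzIzAyB2H3A2EzF_4 : BT Nat := coNFzByAzE2A3H2ByAzIzAyB2H3A2EzF_4_0
noncomputable def coNFzByAzE2A3H2ByAzIzAyB2H3A2EzF_5 : BT Nat := coNFzByAzE2A3H2ByAzIzAyB2H3A2EzF_5_0
noncomputable def coNFzByAzE2A3H2ByAzIzAyB2H3A2EzF_6 : BT Nat := coNFzByAzE2A3H2ByAzIzAyB2H3A2EzF_6_0
noncomputable def coNFzByAzE2A3H2ByAzIzAyB2H3A2EzF_7 : BT Nat := coNFzByAzE2A3H2ByAzIzAyB2H3A2EzF_7_0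
noncomputable def coNFzByAzE2A3H2ByAzIzAyB2H3A2EzF_8 : BT Nat := coNFzByAzE2A3H2ByAzIzAyB2H3A2EzF_8_0
noncomputable def coNFzByAzE2A3H2ByAzIzAyB2H3A2EzF_9 : BT Nat := coNFzByAzE2A3H2ByAzIzAyB2H3A2EzF_9_0
noncomputable def coNFzByAzE2A3H2ByAzIzAyB2H3A2EzF_10 : BT Nat := coNFzByAzE2A3H2ByAzIzAyB2H3A2EzF_10_0
noncomputable def coNFzByAzE2A3H2ByAzIzAyB2H3A2EzF_11 : BT Nat := coNFzByAzE2A3H2ByAzIzAyB2H3A2EzF_11_0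
noncomputable def coNFzByAzE2A3H2ByAzIzAyB2H3A2EzF_12 : BT Nat := coNFzByAzE2A3H2ByAzIzAyB2H3A2EzF_12_0
noncomputable def coNFzByAzE2A3H2ByAzIzAyB2H3A2EzF_13 : BT Nat := coNFzByAzE2A3H2ByAzIzAyB2H3A2EzF_13_0
noncomputable def coNFzByAzE2A3H2ByAzIzAyB2H3A2EzF_14 : BT Nat := coNFzByAzE2A3H2ByAzIzAyB2H3A2EzF_14_0
noncomputable def coNFzByAzE2A3H2ByAzIzAyB2H3A2EzF_15 : BT Nat := coNFzByAzE2A3H2ByAzIzAyB2H3A2EzF_15_0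
noncomputable def coNFzByAzE2A3H2ByAzIzAyB2H3A2EzF_16 : BT Nat := coNFzByAzE2A3H2ByAzIzAyB2H3A2EzF_16_0
noncomputable def coNFzByAzE2A3H2ByAzIzAyB2H3A2EzF_17 : BT Nat := coNFzByAzE2A3H2ByAzIzAyB2H3A2EzF_17_0
noncomputable def coNFzByAzE2A3H2ByAzIzAyB2H3A2EzF_18 : BT Nat := coNFzByAzE2A3H2ByAzIzAyB2H3A2EzF_18_0
noncomputable def coNFzByAzE2A3H2ByAzIzAyB2H3A2EzF_19 : BT Nat := coNFzByAzE2A3H2ByAzIzAyB2H3A2EzF_19_0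
noncomputable def coNFzByAzE2A3H2ByAzIzAyB2H3A2EzF : BT Nat := (.node (.node (.node coNFzByAzE2A3H2ByAzIzAyB2H3A2EzF_0 coNFzByAzE2A3H2ByAzIzAyB2H3A2EzF_1) (.node coNFzByAzE2A3H2ByAzIzAyB2H3A2EzF_2 (.node coNFzByAzE2A3H2ByAzIzAyB2H3A2EzF_3 coNFzByAzE2A3H2ByAzIzAyB2H3A2EzF_4))) (.node (.node (.node (.node coNFzByAzE2A3H2ByAzIzAyB2H3A2EzF_5 coNFzByAzE2A3H2ByAzIzAyB2H3A2EzF_6) (.node coNFzByAzE2A3H2ByAzIzAyB2H3A2EzF_7 (.node coNFzByAzE2A3H2ByAzIzAyB2H3A2EzF_8 coNFzByAzE2A3H2ByAzIzAyB2H3A2EzF_9))) (.node (.node coNFzByAzE2A3H2ByAzIzAyB2H3A2EzF_10 coNFzByAzE2A3H2ByAzIzAyB2H3A2EzF_11) coNFzByAzE2A3H2ByAzIzAyB2H3A2EzF_12)) (.node (.node (.node coNFzByAzE2A3H2ByAzIzAyB2H3A2EzF_13 coNFzByAzE2A3H2ByAzIzAyB2H3A2EzF_14) (.node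 coNFzByAzE2A3H2ByAzIzAyB2H3A2EzF_15 coNFzByAzE2A3H2ByAzIzAyB2H3A2EzF_16)) (.node (.node coNFzByAzE2A3H2ByAzIzAyB2H3A2EzF_17 coNFzByAzE2A3H2ByAzIzAyB2H3A2EzF_18) coNFzByAzE2A3H2ByAzIzAyB2H3A2EzF_19))))

end MPb6R
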