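import Pool.Agent.Lib.MP_b6d339_lc.Pos.Lx
import Pool.Agent.Lib.MP_b6d339_lc.Cw3.YFzE2A3H2AzA2H3A2EzF_0
import Pool.Agent.Lib.MP_b6d339_lc.Cw3.YFzE2A3H2AzA2H3A2EzF_1

/-!
# Erdős 592, three levels: tables
-/

namespace MPb6R

open MPb6P

/-- class of words -/
def xNFzE2A3H2AzA2H3A2EzF : List PE := [⟨0, 4, 4, 0⟩, ⟨1, 4, 4, 11⟩, ⟨1, 3, 3, 10⟩, ⟨0, 2, 2, 5⟩, ⟨0, 3, 3, 14⟩, ⟨0, 2, 2, 5⟩, ⟨1, 3, 3, 5⟩, ⟨0, 2, 2, 14⟩, ⟨0, 3, 3, 5⟩, ⟨0, 2, 2, 10⟩, ⟨1, 3, 3, 11⟩, ⟨1, 4, 4, 0⟩, ⟨0, 4, 4, 0⟩]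

noncomputable def nnNFzE2A3H2AzA2H3A2EzF : BT Nat := (.node (.node nnNFzE2A3H2AzA2H3A2EzF_0 nnNFzE2A3H2AzA2H3A2EzF_1) (.node nnNFzE2A3H2AzA2H3A2EzF_2 nnNFzE2A3H2AzA2H3A2EzF_3))
noncomputable def ttNFzE2A3H2AzA2H3A2EzF : BT Nat := (.node (.node (.node (.node (.node ttNFzE2A3H2AzA2H3A2EzF_0 ttNFzE2A3H2AzA2H3A2EzF_1) (.node ttNFzE2A3H2AzA2H3A2EzF_2 ttNFzE2A3H2AzA2H3A2EzF_3)) (.node (.node ttNFzE2A3H2AzA2H3A2EzF_4 ttNFzE2A3H2AzA2H3A2EzF_5) (.node ttNFzE2A3H2AzA2H3A2EzF_6 ttNFzE2A3H2AzA2H3A2EzF_7))) (.node (.node (.node ttNFzE2A3H2AzA2H3A2EzF_8 ttNFzE2A3H2AzA2H3A2EzF_9) (.node ttNFzE2A3H2AzA2H3A2EzF_10 ttNFzE2A3H2AzA2H3A2EzF_11)) (.node (.node ttNFzE2A3H2AzA2H3A2EzF_12 ttNFzE2A3H2AzA2H3A2EzF_13) (.node ttNFzE2A3H2AzA2H3A2EzF_14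 ttNFzE2A3H2AzA2H3A2EzF_15)))) (.node (.node (.node (.node ttNFzE2A3H2AzA2H3A2EzF_16 ttNFzE2A3H2AzA2H3A2EzF_17) (.node ttNFzE2A3H2AzA2H3A2EzF_18 ttNFzE2A3H2AzA2H3A2EzF_19)) (.node (.node ttNFzE2A3H2AzA2H3A2EzF_20 ttNFzE2A3H2AzA2H3A2EzF_21) (.node ttNFzE2A3H2AzA2H3A2EzF_22 ttNFzE2A3H2AzA2H3A2EzF_23))) (.node (.node (.node ttNFzE2A3H2AzA2H3A2EzF_24 ttNFzE2A3H2AzA2H3A2EzF_25) (.node ttNFzE2A3H2AzA2H3A2EzF_26 ttNFzE2A3H2AzA2H3A2EzF_27)) (.node (.node ttNFzE2A3H2AzA2H3A2EzF_28 ttNFzE2A3H2AzA2H3A2EzF_29) (.node ttNFzE2A3H2AzA2H3A2EzF_30 ttNFzE2A3H2AzA2H3A2EzF_31)))))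
noncomputable def ceNFzE2A3H2AzA2H3A2EzF_0 : BT Nat := ceNFzE2A3H2AzA2H3A2EzF_0_0
noncomputable def ceNFzE2A3H2AzA2H3A2EzF_1 : BT Nat := ceNFzE2A3H2AzA2H3A2EzF_1_0
noncomputable def ceNFzE2A3H2AzA2H3A2EzF_2 : BT Nat := ceNFzE2A3H2AzA2H3A2EzF_2_0
noncomputable def ceNFzE2A3H2AzA2H3A2EzF_3 : BT Nat := ceNFzE2A3H2AzA2H3A2EzF_3_0
noncomputable def ceNFzE2A3H2AzA2H3A2EzF_4 : BT Nat := ceNFzE2A3H2AzA2H3A2EzF_4_0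
noncomputable def ceNFzE2A3H2AzA2H3A2EzF_5 : BT Nat := ceNFzE2A3H2AzA2H3A2EzF_5_0
noncomputable def ceNFzE2A3H2AzA2H3A2EzF_6 : BT Nat := ceNFzE2A3H2AzA2H3A2EzF_6_0
noncomputable def ceNFzE2A3H2AzA2H3A2EzF_7 : BT Nat := ceNFzE2A3H2AzA2H3A2EzF_7_0
noncomputable def ceNFzE2A3H2AzA2H3A2EzF : BT Nat := (.node (.node ceNFzE2A3H2AzA2H3A2EzF_0 (.node ceNFzE2A3H2AzA2H3A2EzF_1 ceNFzE2A3H2AzA2H3A2EzF_2)) (.node (.node ceNFzE2A3H2AzA2H3A2EzF_3 ceNFzE2A3H2AzA2H3A2EzF_4) (.node (.node ceNFzE2A3H2AzA2H3A2EzF_5 ceNFzE2A3H2AzA2H3A2EzF_6) ceNFzE2A3H2AzA2H3A2EzF_7)))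
noncomputable def coNFzE2A3H2AzA2H3A2EzF_0 : BT Nat := coNFzE2A3H2AzA2H3A2EzF_0_0
noncomputable def coNFzE2A3H2AzA2H3A2EzF_1 : BT Nat := coNFzE2A3H2AzA2H3A2EzF_1_0
noncomputable def coNFzE2A3H2AzA2H3A2EzF_2 : BT Nat := coNFzE2A3H2AzA2H3A2EzF_2_0
noncomputable def coNFzE2A3H2AzA2H3A2EzF_3 : BT Nat := coNFzE2A3H2AzA2H3A2EzF_3_0
noncomputable def coNFzE2A3H2AzA2H3A2EzF_4 : BT Nat := coNFzE2A3H2AzA2H3A2EzF_4_0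
noncomputable def coNFzE2A3H2AzA2H3A2EzF_5 : BT Nat := coNFzE2A3H2AzA2H3A2EzF_5_0
noncomputable def coNFzE2A3H2AzA2H3A2EzF_6 : BT Nat := coNFzE2A3H2AzA2H3A2EzF_6_0
noncomputable def coNFzE2A3H2AzA2H3A2EzF : BT Nat := (.node (.node coNFzE2A3H2AzA2H3A2EzF_0 coNFzE2A3H2AzA2H3A2EzF_1) (.node (.node coNFzE2A3H2AzA2H3A2EzF_2 coNFzE2A3H2AzA2H3A2EzF_3) (.node (.node coNFzE2A3H2AzA2H3A2EzF_4 coNFzE2A3H2AzA2H3A2EzF_5) coNFzE2A3H2AzA2H3A2EzF_6)))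

end MPb6R
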