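import Pool.Agent.Lib.MP_b6d339_lc.Pos.Lx
import Pool.Agent.Lib.MP_b6d339_lc.Cw3.YFzE2A3H2AzAyB2H3A2EzF_0
import Pool.Agent.Lib.MP_b6d339_lc.Cw3.YFzE2A3H2AzAyB2H3A2EzF_1

/-!
# Erdős 592, three levels: tables
-/

namespace MPb6R

open MPb6P

/-- class of words -/
def xNFzE2A3H2AzAyB2H3A2EzF : List PE := [⟨0, 4, 4, 0⟩, ⟨1, 4, 4, 11⟩, ⟨1, 3, 3, 10⟩, ⟨0, 2, 2, 5⟩, ⟨0, 3, 3, 14⟩, ⟨0, 2, 2, 5⟩, ⟨1, 3, 3, 5⟩, ⟨1, 2, 2, 6⟩, ⟨0, 2, 2, 14⟩, ⟨0, 3, 3, 5⟩, ⟨0, 2, 2, 10⟩, ⟨1, 3, 3, 11⟩, ⟨1, 4, 4, 0⟩, ⟨0, 4, 4, 0⟩]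

noncomputable def nnNFzE2A3H2AzAyB2H3A2EzF : BT Nat := (.node (.node nnNFzE2A3H2AzAyB2H3A2EzF_0 nnNFzE2A3H2AzAyB2H3A2EzF_1) (.node nnNFzE2A3H2AzAyB2H3A2EzF_2 nnNFzE2A3H2AzAyB2H3A2EzF_3))
noncomputable def ttNFzE2A3H2AzAyB2H3A2EzF : BT Nat := (.node (.node (.node (.node (.node (.node ttNFzE2A3H2AzAyB2H3A2EzF_0 ttNFzE2A3H2AzAyB2H3A2EzF_1) (.node ttNFzE2A3H2AzAyB2H3A2EzF_2 ttNFzE2A3H2AzAyB2H3A2EzF_3)) (.node (.node ttNFzE2A3H2AzAyB2H3A2EzF_4 ttNFzE2A3H2AzAyB2H3A2EzF_5) (.node ttNFzE2A3H2AzAyB2H3A2EzF_6 ttNFzE2A3H2AzAyB2H3A2EzF_7))) (.node (.node (.node ttNFzE2A3H2AzAyB2H3A2EzF_8 ttNFzE2A3H2AzAyB2H3A2EzF_9) (.node ttNFzE2A3H2AzAyB2H3A2EzF_10 ttNFzE2A3H2AzAyB2H3A2EzF_11)) (.node (.node ttNFzE2A3H2AzAyB2H3A2EzF_12 ttNFzE2A3H2AzAyB2H3A2EzF_13)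 (.node ttNFzE2A3H2AzAyB2H3A2EzF_14 ttNFzE2A3H2AzAyB2H3A2EzF_15)))) (.node (.node (.node (.node ttNFzE2A3H2AzAyB2H3A2EzF_16 ttNFzE2A3H2AzAyB2H3A2EzF_17) (.node ttNFzE2A3H2AzAyB2H3A2EzF_18 ttNFzE2A3H2AzAyB2H3A2EzF_19)) (.node (.node ttNFzE2A3H2AzAyB2H3A2EzF_20 ttNFzE2A3H2AzAyB2H3A2EzF_21) (.node ttNFzE2A3H2AzAyB2H3A2EzF_22 ttNFzE2A3H2AzAyB2H3A2EzF_23))) (.node (.node (.node ttNFzE2A3H2AzAyB2H3A2EzF_24 ttNFzE2A3H2AzAyB2H3A2EzF_25) (.node ttNFzE2A3H2AzAyB2H3A2EzF_26 ttNFzE2A3H2AzAyB2H3A2EzF_27)) (.node (.node ttNFzE2A3H2AzAyB2H3A2EzF_28 ttNFzE2A3H2AzAyB2H3A2EzF_29) (.node ttNFzE2A3H2AzAyB2H3A2EzF_30 ttNFzE2A3H2AzAyB2H3A2EzF_31))))) (.node (.node (.node (.node (.node ttNFzE2A3H2AzAyB2H3A2EzF_32 ttNFzE2A3H2AzAyB2H3A2EzF_33) (.node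 ttNFzE2A3H2AzAyB2H3A2EzF_34 ttNFzE2A3H2AzAyB2H3A2EzF_35)) (.node (.node ttNFzE2A3H2AzAyB2H3A2EzF_36 ttNFzE2A3H2AzAyB2H3A2EzF_37) (.node ttNFzE2A3H2AzAyB2H3A2EzF_38 ttNFzE2A3H2AzAyB2H3A2EzF_39))) (.node (.node (.node ttNFzE2A3H2AzAyB2H3A2EzF_40 ttNFzE2A3H2AzAyB2H3A2EzF_41) (.node ttNFzE2A3H2AzAyB2H3A2EzF_42 ttNFzE2A3H2AzAyB2H3A2EzF_43)) (.node (.node ttNFzE2A3H2AzAyB2H3A2EzF_44 ttNFzE2A3H2AzAyB2H3A2EzF_45) (.node ttNFzE2A3H2AzAyB2H3A2EzF_46 ttNFzE2A3H2AzAyB2H3A2EzF_47)))) (.node (.node (.node (.node ttNFzE2A3H2AzAyB2H3A2EzF_48 ttNFzE2A3H2AzAyB2H3A2EzF_49) (.node ttNFzE2A3H2AzAyB2H3A2EzF_50 ttNFzE2A3H2AzAyB2H3A2EzF_51)) (.node (.node ttNFzE2A3H2AzAyB2H3A2EzF_52 ttNFzE2A3H2AzAyB2H3A2EzF_53) (.node ttNFzE2A3H2AzAyB2H3A2EzF_54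 ttNFzE2A3H2AzAyB2H3A2EzF_55))) (.node (.node (.node ttNFzE2A3H2AzAyB2H3A2EzF_56 ttNFzE2A3H2AzAyB2H3A2EzF_57) (.node ttNFzE2A3H2AzAyB2H3A2EzF_58 ttNFzE2A3H2AzAyB2H3A2EzF_59)) (.node (.node ttNFzE2A3H2AzAyB2H3A2EzF_60 ttNFzE2A3H2AzAyB2H3A2EzF_61) (.node ttNFzE2A3H2AzAyB2H3A2EzF_62 ttNFzE2A3H2AzAyB2H3A2EzF_63))))))
noncomputable def ceNFzE2A3H2AzAyB2H3A2EzF_0 : BT Nat := ceNFzE2A3H2AzAyB2H3A2EzF_0_0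
noncomputable def ceNFzE2A3H2AzAyB2H3A2EzF_1 : BT Nat := ceNFzE2A3H2AzAyB2H3A2EzF_1_0
noncomputable def ceNFzE2A3H2AzAyB2H3A2EzF_2 : BT Nat := ceNFzE2A3H2AzAyB2H3A2EzF_2_0
noncomputable def ceNFzE2A3H2AzAyB2H3A2EzF_3 : BT Nat := ceNFzE2A3H2AzAyB2H3A2EzF_3_0
noncomputable def ceNFzE2A3H2AzAyB2H3A2EzF_4 : BT Nat := ceNFzE2A3H2AzAyB2H3A2EzF_4_0
noncomputable def ceNFzE2A3H2AzAyB2H3A2EzF_5 : BT Nat := ceNFzE2A3H2AzAyB2H3A2EzF_5_0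
noncomputable def ceNFzE2A3H2AzAyB2H3A2EzF_6 : BT Nat := ceNFzE2A3H2AzAyB2H3A2EzF_6_0
noncomputable def ceNFzE2A3H2AzAyB2H3A2EzF_7 : BT Nat := ceNFzE2A3H2AzAyB2H3A2EzF_7_0
noncomputable def ceNFzE2A3H2AzAyB2H3A2EzF_8 : BT Nat := ceNFzE2A3H2AzAyB2H3A2EzF_8_0
noncomputable def ceNFzE2A3H2AzAyB2H3A2EzF_9 : BT Nat := ceNFzE2A3H2AzAyB2H3A2EzF_9_0
noncomputable def ceNFzE2A3H2AzAyB2H3A2EzF_10 : BT Nat := ceNFzE2A3H2AzAyB2H3A2EzF_10_0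
noncomputable def ceNFzE2A3H2AzAyB2H3A2EzF_11 : BT Nat := ceNFzE2A3H2AzAyB2H3A2EzF_11_0
noncomputable def ceNFzE2A3H2AzAyB2H3A2EzF_12 : BT Nat := ceNFzE2A3H2AzAyB2H3A2EzF_12_0
noncomputable def ceNFzE2A3H2AzAyB2H3A2EzF_13 : BT Nat := ceNFzE2A3H2AzAyB2H3A2EzF_13_0
noncomputable def ceNFzE2A3H2AzAyB2H3A2EzF : BT Nat := (.node (.node (.node ceNFzE2A3H2AzAyB2H3A2EzF_0 ceNFzE2A3H2AzAyB2H3A2EzF_1) (.node ceNFzE2A3H2AzAyB2H3A2EzF_2 ceNFzE2A3H2AzAyB2H3A2EzF_3)) (.node (.node (.node (.node ceNFzE2A3H2AzAyB2H3A2EzF_4 ceNFzE2A3H2AzAyB2H3A2EzF_5) ceNFzE2A3H2AzAyB2H3A2EzF_6) (.node (.node ceNFzE2A3H2AzAyB2H3A2EzF_7 ceNFzE2A3H2AzAyB2H3A2EzF_8) ceNFzE2A3H2AzAyB2H3A2EzF_9)) (.node (.node (.node ceNFzE2A3H2AzAyB2H3A2EzF_10 ceNFzE2A3H2AzAyB2H3A2EzF_11)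 ceNFzE2A3H2AzAyB2H3A2EzF_12) ceNFzE2A3H2AzAyB2H3A2EzF_13)))
noncomputable def coNFzE2A3H2AzAyB2H3A2EzF_0 : BT Nat := coNFzE2A3H2AzAyB2H3A2EzF_0_0
noncomputable def coNFzE2A3H2AzAyB2H3A2EzF_1 : BT Nat := coNFzE2A3H2AzAyB2H3A2EzF_1_0
noncomputable def coNFzE2A3H2AzAyB2H3A2EzF_2 : BT Nat := coNFzE2A3H2AzAyB2H3A2EzF_2_0
noncomputable def coNFzE2A3H2AzAyB2H3A2EzF_3 : BT Nat := coNFzE2A3H2AzAyB2H3A2EzF_3_0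
noncomputable def coNFzE2A3H2AzAyB2H3A2EzF_4 : BT Nat := coNFzE2A3H2AzAyB2H3A2EzF_4_0
noncomputable def coNFzE2A3H2AzAyB2H3A2EzF_5 : BT Nat := coNFzE2A3H2AzAyB2H3A2EzF_5_0
noncomputable def coNFzE2A3H2AzAyB2H3A2EzF_6 : BT Nat := coNFzE2A3H2AzAyB2H3A2EzF_6_0
noncomputable def coNFzE2A3H2AzAyB2H3A2EzF_7 : BT Nat := coNFzE2A3H2AzAyB2H3A2EzF_7_0
noncomputable def coNFzE2A3H2AzAyB2H3A2EzF_8 : BT Nat := coNFzE2A3H2AzAyB2H3A2EzF_8_0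
noncomputable def coNFzE2A3H2AzAyB2H3A2EzF_9 : BT Nat := coNFzE2A3H2AzAyB2H3A2EzF_9_0
noncomputable def coNFzE2A3H2AzAyB2H3A2EzF_10 : BT Nat := coNFzE2A3H2AzAyB2H3A2EzF_10_0
noncomputable def coNFzE2A3H2AzAyB2H3A2EzF_11 : BT Nat := coNFzE2A3H2AzAyB2H3A2EzF_11_0
noncomputable def coNFzE2A3H2AzAyB2H3A2EzF_12 : BT Nat := coNFzE2A3H2AzAyB2H3A2EzF_12_0
noncomputable def coNFzE2A3H2AzAyB2H3A2EzF_13 : BT Nat := coNFzE2A3H2AzAyB2H3A2EzF_13_0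
noncomputable def coNFzE2A3H2AzAyB2H3A2EzF_14 : BT Nat := coNFzE2A3H2AzAyB2H3A2EzF_14_0
noncomputable def coNFzE2A3H2AzAyB2H3A2EzF_15 : BT Nat := coNFzE2A3H2AzAyB2H3A2EzF_15_0
noncomputable def coNFzE2A3H2AzAyB2H3A2EzF_16 : BT Nat := coNFzE2A3H2AzAyB2H3A2EzF_16_0
noncomputable def coNFzE2A3H2AzAyB2H3A2EzF_17 : BT Nat := coNFzE2A3H2AzAyB2H3A2EzF_17_0
noncomputable def coNFzE2A3H2AzAyB2H3A2EzF : BT Nat := (.node (.node (.node coNFzE2A3H2AzAyB2H3A2EzF_0 coNFzE2A3H2AzAyB2H3A2EzF_1) (.node coNFzE2A3H2AzAyB2H3A2EzF_2 (.node coNFzE2A3H2AzAyB2H3A2EzF_3 (.node coNFzE2A3H2AzAyB2H3A2EzF_4 coNFzE2A3H2AzAyB2H3A2EzF_5)))) (.node (.node (.node (.node (.node coNFzE2A3H2AzAyB2H3A2EzF_6 coNFzE2A3H2AzAyB2H3A2EzF_7) (.node coNFzE2A3H2AzAyB2H3A2EzF_8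 coNFzE2A3H2AzAyB2H3A2EzF_9)) (.node coNFzE2A3H2AzAyB2H3A2EzF_10 coNFzE2A3H2AzAyB2H3A2EzF_11)) (.node coNFzE2A3H2AzAyB2H3A2EzF_12 coNFzE2A3H2AzAyB2H3A2EzF_13)) (.node (.node coNFzE2A3H2AzAyB2H3A2EzF_14 coNFzE2A3H2AzAyB2H3A2EzF_15) (.node coNFzE2A3H2AzAyB2H3A2EzF_16 coNFzE2A3H2AzAyB2H3A2EzF_17))))

end MPb6R
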