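import Pool.Agent.Lib.MP_b6d339_lc.Pos.Lx
import Pool.Agent.Lib.MP_b6d339_lc.Cw3.YFzE2A3H2ByAzAyB2H3A2EzF_0
import Pool.Agent.Lib.MP_b6d339_lc.Cw3.YFzE2A3H2ByAzAyB2H3A2EzF_1
import Pool.Agent.Lib.MP_b6d339_lc.Cw3.YFzE2A3H2ByAzAyB2H3A2EzF_2
import Pool.Agent.Lib.MP_b6d339_lc.Cw3.YFzE2A3H2ByAzAyB2H3A2EzF_3
import Pool.Agent.Lib.MP_b6d339_lc.Cw3.YFzE2A3H2ByAzAyB2H3A2EzF_4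

/-!
# Erdős 592, three levels: tables
-/

namespace MPb6R

open MPb6P

/-- class of words -/
def xNFzE2A3H2ByAzAyB2H3A2EzF : List PE := [⟨0, 4, 4, 0⟩, ⟨1, 4, 4, 11⟩, ⟨1, 3, 3, 10⟩, ⟨0, 2, 2, 5⟩, ⟨0, 3, 3, 14⟩, ⟨0, 2, 2, 6⟩, ⟨1, 2, 2, 5⟩, ⟨1, 3, 3, 5⟩, ⟨1, 2, 2, 6⟩, ⟨0, 2, 2, 14⟩, ⟨0, 3, 3, 5⟩, ⟨0, 2, 2, 10⟩, ⟨1, 3, 3, 11⟩, ⟨1, 4, 4, 0⟩, ⟨0, 4, 4, 0⟩]

noncomputable def nnNFzE2A3H2ByAzAyB2H3A2EzF : BT Nat := (.node (.node nnNFzE2A3H2ByAzAyB2H3A2EzF_0 nnNFzE2A3H2ByAzAyB2H3A2EzF_1) (.node nnNFzE2A3H2ByAzAyB2H3A2EzF_2 nnNFzE2A3H2ByAzAyB2H3A2EzF_3))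
noncomputable def ttNFzE2A3H2ByAzAyB2H3A2EzF : BT Nat := (.node (.node (.node (.node (.node (.node (.node ttNFzE2A3H2ByAzAyB2H3A2EzF_0 ttNFzE2A3H2ByAzAyB2H3A2EzF_1) (.node ttNFzE2A3H2ByAzAyB2H3A2EzF_2 ttNFzE2A3H2ByAzAyB2H3A2EzF_3)) (.node (.node ttNFzE2A3H2ByAzAyB2H3A2EzF_4 ttNFzE2A3H2ByAzAyB2H3A2EzF_5) (.node ttNFzE2A3H2ByAzAyB2H3A2EzF_6 ttNFzE2A3H2ByAzAyB2H3A2EzF_7))) (.node (.node (.node ttNFzE2A3H2ByAzAyB2H3A2EzF_8 ttNFzE2A3H2ByAzAyB2H3A2EzF_9) (.node ttNFzE2A3H2ByAzAyB2H3A2EzF_10 ttNFzE2A3H2ByAzAyB2H3A2EzF_11)) (.node (.node ttNFzE2A3H2ByAzAyB2H3A2EzF_12 ttNFzE2A3H2ByAzAyB2H3A2EzF_13) (.node ttNFzE2A3H2ByAzAyB2H3A2EzF_14 ttNFzE2A3H2ByAzAyB2H3A2EzF_15)))) (.node (.node (.node (.node ttNFzE2A3H2ByAzAyB2H3A2EzF_16 ttNFzE2A3H2ByAzAyB2H3A2EzF_17)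 (.node ttNFzE2A3H2ByAzAyB2H3A2EzF_18 ttNFzE2A3H2ByAzAyB2H3A2EzF_19)) (.node (.node ttNFzE2A3H2ByAzAyB2H3A2EzF_20 ttNFzE2A3H2ByAzAyB2H3A2EzF_21) (.node ttNFzE2A3H2ByAzAyB2H3A2EzF_22 ttNFzE2A3H2ByAzAyB2H3A2EzF_23))) (.node (.node (.node ttNFzE2A3H2ByAzAyB2H3A2EzF_24 ttNFzE2A3H2ByAzAyB2H3A2EzF_25) (.node ttNFzE2A3H2ByAzAyB2H3A2EzF_26 ttNFzE2A3H2ByAzAyB2H3A2EzF_27)) (.node (.node ttNFzE2A3H2ByAzAyB2H3A2EzF_28 ttNFzE2A3H2ByAzAyB2H3A2EzF_29) (.node ttNFzE2A3H2ByAzAyB2H3A2EzF_30 ttNFzE2A3H2ByAzAyB2H3A2EzF_31))))) (.node (.node (.node (.node (.node ttNFzE2A3H2ByAzAyB2H3A2EzF_32 ttNFzE2A3H2ByAzAyB2H3A2EzF_33) (.node ttNFzE2A3H2ByAzAyB2H3A2EzF_34 ttNFzE2A3H2ByAzAyB2H3A2EzF_35)) (.node (.node ttNFzE2A3H2ByAzAyB2H3A2EzF_36 ttNFzE2A3H2ByAzAyB2H3A2EzF_37)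 (.node ttNFzE2A3H2ByAzAyB2H3A2EzF_38 ttNFzE2A3H2ByAzAyB2H3A2EzF_39))) (.node (.node (.node ttNFzE2A3H2ByAzAyB2H3A2EzF_40 ttNFzE2A3H2ByAzAyB2H3A2EzF_41) (.node ttNFzE2A3H2ByAzAyB2H3A2EzF_42 ttNFzE2A3H2ByAzAyB2H3A2EzF_43)) (.node (.node ttNFzE2A3H2ByAzAyB2H3A2EzF_44 ttNFzE2A3H2ByAzAyB2H3A2EzF_45) (.node ttNFzE2A3H2ByAzAyB2H3A2EzF_46 ttNFzE2A3H2ByAzAyB2H3A2EzF_47)))) (.node (.node (.node (.node ttNFzE2A3H2ByAzAyB2H3A2EzF_48 ttNFzE2A3H2ByAzAyB2H3A2EzF_49) (.node ttNFzE2A3H2ByAzAyB2H3A2EzF_50 ttNFzE2A3H2ByAzAyB2H3A2EzF_51)) (.node (.node ttNFzE2A3H2ByAzAyB2H3A2EzF_52 ttNFzE2A3H2ByAzAyB2H3A2EzF_53) (.node ttNFzE2A3H2ByAzAyB2H3A2EzF_54 ttNFzE2A3H2ByAzAyB2H3A2EzF_55))) (.node (.node (.node ttNFzE2A3H2ByAzAyB2H3A2EzF_56 ttNFzE2A3H2ByAzAyB2H3A2EzF_57)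 (.node ttNFzE2A3H2ByAzAyB2H3A2EzF_58 ttNFzE2A3H2ByAzAyB2H3A2EzF_59)) (.node (.node ttNFzE2A3H2ByAzAyB2H3A2EzF_60 ttNFzE2A3H2ByAzAyB2H3A2EzF_61) (.node ttNFzE2A3H2ByAzAyB2H3A2EzF_62 ttNFzE2A3H2ByAzAyB2H3A2EzF_63)))))) (.node (.node (.node (.node (.node (.node ttNFzE2A3H2ByAzAyB2H3A2EzF_64 ttNFzE2A3H2ByAzAyB2H3A2EzF_65) (.node ttNFzE2A3H2ByAzAyB2H3A2EzF_66 ttNFzE2A3H2ByAzAyB2H3A2EzF_67)) (.node (.node ttNFzE2A3H2ByAzAyB2H3A2EzF_68 ttNFzE2A3H2ByAzAyB2H3A2EzF_69) (.node ttNFzE2A3H2ByAzAyB2H3A2EzF_70 ttNFzE2A3H2ByAzAyB2H3A2EzF_71))) (.node (.node (.node ttNFzE2A3H2ByAzAyB2H3A2EzF_72 ttNFzE2A3H2ByAzAyB2H3A2EzF_73) (.node ttNFzE2A3H2ByAzAyB2H3A2EzF_74 ttNFzE2A3H2ByAzAyB2H3A2EzF_75)) (.node (.node ttNFzE2A3H2ByAzAyB2H3A2EzF_76 ttNFzE2A3H2ByAzAyB2H3A2EzF_77)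 (.node ttNFzE2A3H2ByAzAyB2H3A2EzF_78 ttNFzE2A3H2ByAzAyB2H3A2EzF_79)))) (.node (.node (.node (.node ttNFzE2A3H2ByAzAyB2H3A2EzF_80 ttNFzE2A3H2ByAzAyB2H3A2EzF_81) (.node ttNFzE2A3H2ByAzAyB2H3A2EzF_82 ttNFzE2A3H2ByAzAyB2H3A2EzF_83)) (.node (.node ttNFzE2A3H2ByAzAyB2H3A2EzF_84 ttNFzE2A3H2ByAzAyB2H3A2EzF_85) (.node ttNFzE2A3H2ByAzAyB2H3A2EzF_86 ttNFzE2A3H2ByAzAyB2H3A2EzF_87))) (.node (.node (.node ttNFzE2A3H2ByAzAyB2H3A2EzF_88 ttNFzE2A3H2ByAzAyB2H3A2EzF_89) (.node ttNFzE2A3H2ByAzAyB2H3A2EzF_90 ttNFzE2A3H2ByAzAyB2H3A2EzF_91)) (.node (.node ttNFzE2A3H2ByAzAyB2H3A2EzF_92 ttNFzE2A3H2ByAzAyB2H3A2EzF_93) (.node ttNFzE2A3H2ByAzAyB2H3A2EzF_94 ttNFzE2A3H2ByAzAyB2H3A2EzF_95))))) (.node (.node (.node (.node (.node ttNFzE2A3H2ByAzAyB2H3A2EzF_96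 ttNFzE2A3H2ByAzAyB2H3A2EzF_97) (.node ttNFzE2A3H2ByAzAyB2H3A2EzF_98 ttNFzE2A3H2ByAzAyB2H3A2EzF_99)) (.node (.node ttNFzE2A3H2ByAzAyB2H3A2EzF_100 ttNFzE2A3H2ByAzAyB2H3A2EzF_101) (.node ttNFzE2A3H2ByAzAyB2H3A2EzF_102 ttNFzE2A3H2ByAzAyB2H3A2EzF_103))) (.node (.node (.node ttNFzE2A3H2ByAzAyB2H3A2EzF_104 ttNFzE2A3H2ByAzAyB2H3A2EzF_105) (.node ttNFzE2A3H2ByAzAyB2H3A2EzF_106 ttNFzE2A3H2ByAzAyB2H3A2EzF_107)) (.node (.node ttNFzE2A3H2ByAzAyB2H3A2EzF_108 ttNFzE2A3H2ByAzAyB2H3A2EzF_109) (.node ttNFzE2A3H2ByAzAyB2H3A2EzF_110 ttNFzE2A3H2ByAzAyB2H3A2EzF_111)))) (.node (.node (.node (.node ttNFzE2A3H2ByAzAyB2H3A2EzF_112 ttNFzE2A3H2ByAzAyB2H3A2EzF_113) (.node ttNFzE2A3H2ByAzAyB2H3A2EzF_114 ttNFzE2A3H2ByAzAyB2H3A2EzF_115)) (.node (.node ttNFzE2A3H2ByAzAyB2H3A2EzF_116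 ttNFzE2A3H2ByAzAyB2H3A2EzF_117) (.node ttNFzE2A3H2ByAzAyB2H3A2EzF_118 ttNFzE2A3H2ByAzAyB2H3A2EzF_119))) (.node (.node (.node ttNFzE2A3H2ByAzAyB2H3A2EzF_120 ttNFzE2A3H2ByAzAyB2H3A2EzF_121) (.node ttNFzE2A3H2ByAzAyB2H3A2EzF_122 ttNFzE2A3H2ByAzAyB2H3A2EzF_123)) (.node (.node ttNFzE2A3H2ByAzAyB2H3A2EzF_124 ttNFzE2A3H2ByAzAyB2H3A2EzF_125) (.node ttNFzE2A3H2ByAzAyB2H3A2EzF_126 ttNFzE2A3H2ByAzAyB2H3A2EzF_127)))))))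
noncomputable def ceNFzE2A3H2ByAzAyB2H3A2EzF_0 : BT Nat := ceNFzE2A3H2ByAzAyB2H3A2EzF_0_0
noncomputable def ceNFzE2A3H2ByAzAyB2H3A2EzF_1 : BT Nat := ceNFzE2A3H2ByAzAyB2H3A2EzF_1_0
noncomputable def ceNFzE2A3H2ByAzAyB2H3A2EzF_2 : BT Nat := ceNFzE2A3H2ByAzAyB2H3A2EzF_2_0
noncomputable def ceNFzE2A3H2ByAzAyB2H3A2EzF_3 : BT Nat := ceNFzE2A3H2ByAzAyB2H3A2EzF_3_0
noncomputable def ceNFzE2A3H2ByAzAyB2H3A2EzF_4 : BT Nat := ceNFzE2A3H2ByAzAyB2H3A2EzF_4_0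
noncomputable def ceNFzE2A3H2ByAzAyB2H3A2EzF_5 : BT Nat := ceNFzE2A3H2ByAzAyB2H3A2EzF_5_0
noncomputable def ceNFzE2A3H2ByAzAyB2H3A2EzF_6 : BT Nat := ceNFzE2A3H2ByAzAyB2H3A2EzF_6_0
noncomputable def ceNFzE2A3H2ByAzAyB2H3A2EzF_7 : BT Nat := ceNFzE2A3H2ByAzAyB2H3A2EzF_7_0
noncomputable def ceNFzE2A3H2ByAzAyB2H3A2EzF_8 : BT Nat := ceNFzE2A3H2ByAzAyB2H3A2EzF_8_0
noncomputable def ceNFzE2A3H2ByAzAyB2H3A2EzF_9 : BT Nat := ceNFzE2A3H2ByAzAyB2H3A2EzF_9_0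
noncomputable def ceNFzE2A3H2ByAzAyB2H3A2EzF_10 : BT Nat := ceNFzE2A3H2ByAzAyB2H3A2EzF_10_0
noncomputable def ceNFzE2A3H2ByAzAyB2H3A2EzF_11 : BT Nat := ceNFzE2A3H2ByAzAyB2H3A2EzF_11_0
noncomputable def ceNFzE2A3H2ByAzAyB2H3A2EzF_12 : BT Nat := ceNFzE2A3H2ByAzAyB2H3A2EzF_12_0
noncomputable def ceNFzE2A3H2ByAzAyB2H3A2EzF_13 : BT Nat := ceNFzE2A3H2ByAzAyB2H3A2EzF_13_0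
noncomputable def ceNFzE2A3H2ByAzAyB2H3A2EzF_14 : BT Nat := ceNFzE2A3H2ByAzAyB2H3A2EzF_14_0
noncomputable def ceNFzE2A3H2ByAzAyB2H3A2EzF_15 : BT Nat := ceNFzE2A3H2ByAzAyB2H3A2EzF_15_0
noncomputable def ceNFzE2A3H2ByAzAyB2H3A2EzF_16 : BT Nat := ceNFzE2A3H2ByAzAyB2H3A2EzF_16_0
noncomputable def ceNFzE2A3H2ByAzAyB2H3A2EzF_17 : BT Nat := ceNFzE2A3H2ByAzAyB2H3A2EzF_17_0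
noncomputable def ceNFzE2A3H2ByAzAyB2H3A2EzF_18 : BT Nat := ceNFzE2A3H2ByAzAyB2H3A2EzF_18_0
noncomputable def ceNFzE2A3H2ByAzAyB2H3A2EzF_19 : BT Nat := ceNFzE2A3H2ByAzAyB2H3A2EzF_19_0
noncomputable def ceNFzE2A3H2ByAzAyB2H3A2EzF_20 : BT Nat := ceNFzE2A3H2ByAzAyB2H3A2EzF_20_0
noncomputable def ceNFzE2A3H2ByAzAyB2H3A2EzF_21 : BT Nat := ceNFzE2A3H2ByAzAyB2H3A2EzF_21_0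
noncomputable def ceNFzE2A3H2ByAzAyB2H3A2EzF_22 : BT Nat := ceNFzE2A3H2ByAzAyB2H3A2EzF_22_0
noncomputable def ceNFzE2A3H2ByAzAyB2H3A2EzF_23 : BT Nat := ceNFzE2A3H2ByAzAyB2H3A2EzF_23_0
noncomputable def ceNFzE2A3H2ByAzAyB2H3A2EzF_24 : BT Nat := ceNFzE2A3H2ByAzAyB2H3A2EzF_24_0
noncomputable def ceNFzE2A3H2ByAzAyB2H3A2EzF_25 : BT Nat := ceNFzE2A3H2ByAzAyB2H3A2EzF_25_0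
noncomputable def ceNFzE2A3H2ByAzAyB2H3A2EzF_26 : BT Nat := ceNFzE2A3H2ByAzAyB2H3A2EzF_26_0
noncomputable def ceNFzE2A3H2ByAzAyB2H3A2EzF_27 : BT Nat := ceNFzE2A3H2ByAzAyB2H3A2EzF_27_0
noncomputable def ceNFzE2A3H2ByAzAyB2H3A2EzF_28 : BT Nat := ceNFzE2A3H2ByAzAyB2H3A2EzF_28_0
noncomputable def ceNFzE2A3H2ByAzAyB2H3A2EzF_29 : BT Nat := ceNFzE2A3H2ByAzAyB2H3A2EzF_29_0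
noncomputable def ceNFzE2A3H2ByAzAyB2H3A2EzF_30 : BT Nat := ceNFzE2A3H2ByAzAyB2H3A2EzF_30_0
noncomputable def ceNFzE2A3H2ByAzAyB2H3A2EzF_31 : BT Nat := ceNFzE2A3H2ByAzAyB2H3A2EzF_31_0
noncomputable def ceNFzE2A3H2ByAzAyB2H3A2EzF_32 : BT Nat := ceNFzE2A3H2ByAzAyB2H3A2EzF_32_0
noncomputable def ceNFzE2A3H2ByAzAyB2H3A2EzF_33 : BT Nat := ceNFzE2A3H2ByAzAyB2H3A2EzF_33_0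
noncomputable def ceNFzE2A3H2ByAzAyB2H3A2EzF_34 : BT Nat := ceNFzE2A3H2ByAzAyB2H3A2EzF_34_0
noncomputable def ceNFzE2A3H2ByAzAyB2H3A2EzF_35 : BT Nat := ceNFzE2A3H2ByAzAyB2H3A2EzF_35_0
noncomputable def ceNFzE2A3H2ByAzAyB2H3A2EzF_36 : BT Nat := ceNFzE2A3H2ByAzAyB2H3A2EzF_36_0
noncomputable def ceNFzE2A3H2ByAzAyB2H3A2EzF_37 : BT Nat := ceNFzE2A3H2ByAzAyB2H3A2EzF_37_0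
noncomputable def ceNFzE2A3H2ByAzAyB2H3A2EzF_38 : BT Nat := ceNFzE2A3H2ByAzAyB2H3A2EzF_38_0
noncomputable def ceNFzE2A3H2ByAzAyB2H3A2EzF : BT Nat := (.node (.node (.node (.node (.node ceNFzE2A3H2ByAzAyB2H3A2EzF_0 ceNFzE2A3H2ByAzAyB2H3A2EzF_1) ceNFzE2A3H2ByAzAyB2H3A2EzF_2) (.node ceNFzE2A3H2ByAzAyB2H3A2EzF_3 ceNFzE2A3H2ByAzAyB2H3A2EzF_4)) (.node (.node ceNFzE2A3H2ByAzAyB2H3A2EzF_5 ceNFzE2A3H2ByAzAyB2H3A2EzF_6) (.node (.node ceNFzE2A3H2ByAzAyB2H3A2EzF_7 ceNFzE2A3H2ByAzAyB2H3A2EzF_8) (.node (.node ceNFzE2A3H2ByAzAyB2H3A2EzF_9 ceNFzE2A3H2ByAzAyB2H3A2EzF_10) ceNFzE2A3H2ByAzAyB2H3A2EzF_11)))) (.node (.node (.node (.node ceNFzE2A3H2ByAzAyB2H3A2EzF_12 ceNFzE2A3H2ByAzAyB2H3A2EzF_13) (.node ceNFzE2A3H2ByAzAyB2H3A2EzF_14 (.node ceNFzE2A3H2ByAzAyB2H3A2EzF_15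 ceNFzE2A3H2ByAzAyB2H3A2EzF_16))) (.node (.node (.node ceNFzE2A3H2ByAzAyB2H3A2EzF_17 ceNFzE2A3H2ByAzAyB2H3A2EzF_18) (.node ceNFzE2A3H2ByAzAyB2H3A2EzF_19 ceNFzE2A3H2ByAzAyB2H3A2EzF_20)) (.node (.node ceNFzE2A3H2ByAzAyB2H3A2EzF_21 ceNFzE2A3H2ByAzAyB2H3A2EzF_22) (.node ceNFzE2A3H2ByAzAyB2H3A2EzF_23 ceNFzE2A3H2ByAzAyB2H3A2EzF_24)))) (.node (.node (.node (.node ceNFzE2A3H2ByAzAyB2H3A2EzF_25 ceNFzE2A3H2ByAzAyB2H3A2EzF_26) (.node ceNFzE2A3H2ByAzAyB2H3A2EzF_27 ceNFzE2A3H2ByAzAyB2H3A2EzF_28)) (.node (.node ceNFzE2A3H2ByAzAyB2H3A2EzF_29 ceNFzE2A3H2ByAzAyB2H3A2EzF_30) (.node ceNFzE2A3H2ByAzAyB2H3A2EzF_31 ceNFzE2A3H2ByAzAyB2H3A2EzF_32))) (.node (.node (.node ceNFzE2A3H2ByAzAyB2H3A2EzF_33 ceNFzE2A3H2ByAzAyB2H3A2EzF_34) (.node ceNFzE2A3H2ByAzAyB2H3A2EzF_35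 ceNFzE2A3H2ByAzAyB2H3A2EzF_36)) (.node ceNFzE2A3H2ByAzAyB2H3A2EzF_37 ceNFzE2A3H2ByAzAyB2H3A2EzF_38)))))
noncomputable def coNFzE2A3H2ByAzAyB2H3A2EzF_0 : BT Nat := coNFzE2A3H2ByAzAyB2H3A2EzF_0_0
noncomputable def coNFzE2A3H2ByAzAyB2H3A2EzF_1 : BT Nat := coNFzE2A3H2ByAzAyB2H3A2EzF_1_0
noncomputable def coNFzE2A3H2ByAzAyB2H3A2EzF_2 : BT Nat := coNFzE2A3H2ByAzAyB2H3A2EzF_2_0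
noncomputable def coNFzE2A3H2ByAzAyB2H3A2EzF_3 : BT Nat := coNFzE2A3H2ByAzAyB2H3A2EzF_3_0
noncomputable def coNFzE2A3H2ByAzAyB2H3A2EzF_4 : BT Nat := coNFzE2A3H2ByAzAyB2H3A2EzF_4_0
noncomputable def coNFzE2A3H2ByAzAyB2H3A2EzF_5 : BT Nat := coNFzE2A3H2ByAzAyB2H3A2EzF_5_0
noncomputable def coNFzE2A3H2ByAzAyB2H3A2EzF_6 : BT Nat := coNFzE2A3H2ByAzAyB2H3A2EzF_6_0
noncomputable def coNFzE2A3H2ByAzAyB2H3A2EzF_7 : BT Nat := coNFzE2A3H2ByAzAyB2H3A2EzF_7_0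
noncomputable def coNFzE2A3H2ByAzAyB2H3A2EzF_8 : BT Nat := coNFzE2A3H2ByAzAyB2H3A2EzF_8_0
noncomputable def coNFzE2A3H2ByAzAyB2H3A2EzF_9 : BT Nat := coNFzE2A3H2ByAzAyB2H3A2EzF_9_0
noncomputable def coNFzE2A3H2ByAzAyB2H3A2EzF_10 : BT Nat := coNFzE2A3H2ByAzAyB2H3A2EzF_10_0
noncomputable def coNFzE2A3H2ByAzAyB2H3A2EzF_11 : BT Nat := coNFzE2A3H2ByAzAyB2H3A2EzF_11_0
noncomputable def coNFzE2A3H2ByAzAyB2H3A2EzF_12 : BT Nat := coNFzE2A3H2ByAzAyB2H3A2EzF_12_0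
noncomputable def coNFzE2A3H2ByAzAyB2H3A2EzF_13 : BT Nat := coNFzE2A3H2ByAzAyB2H3A2EzF_13_0
noncomputable def coNFzE2A3H2ByAzAyB2H3A2EzF_14 : BT Nat := coNFzE2A3H2ByAzAyB2H3A2EzF_14_0
noncomputable def coNFzE2A3H2ByAzAyB2H3A2EzF_15 : BT Nat := coNFzE2A3H2ByAzAyB2H3A2EzF_15_0
noncomputable def coNFzE2A3H2ByAzAyB2H3A2EzF_16 : BT Nat := coNFzE2A3H2ByAzAyB2H3A2EzF_16_0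
noncomputable def coNFzE2A3H2ByAzAyB2H3A2EzF_17 : BT Nat := coNFzE2A3H2ByAzAyB2H3A2EzF_17_0
noncomputable def coNFzE2A3H2ByAzAyB2H3A2EzF_18 : BT Nat := coNFzE2A3H2ByAzAyB2H3A2EzF_18_0
noncomputable def coNFzE2A3H2ByAzAyB2H3A2EzF_19 : BT Nat := coNFzE2A3H2ByAzAyB2H3A2EzF_19_0
noncomputable def coNFzE2A3H2ByAzAyB2H3A2EzF_20 : BT Nat := coNFzE2A3H2ByAzAyB2H3A2EzF_20_0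
noncomputable def coNFzE2A3H2ByAzAyB2H3A2EzF_21 : BT Nat := coNFzE2A3H2ByAzAyB2H3A2EzF_21_0
noncomputable def coNFzE2A3H2ByAzAyB2H3A2EzF_22 : BT Nat := coNFzE2A3H2ByAzAyB2H3A2EzF_22_0
noncomputable def coNFzE2A3H2ByAzAyB2H3A2EzF_23 : BT Nat := coNFzE2A3H2ByAzAyB2H3A2EzF_23_0
noncomputable def coNFzE2A3H2ByAzAyB2H3A2EzF_24 : BT Nat := coNFzE2A3H2ByAzAyB2H3A2EzF_24_0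
noncomputable def coNFzE2A3H2ByAzAyB2H3A2EzF_25 : BT Nat := coNFzE2A3H2ByAzAyB2H3A2EzF_25_0
noncomputable def coNFzE2A3H2ByAzAyB2H3A2EzF_26 : BT Nat := coNFzE2A3H2ByAzAyB2H3A2EzF_26_0
noncomputable def coNFzE2A3H2ByAzAyB2H3A2EzF_27 : BT Nat := coNFzE2A3H2ByAzAyB2H3A2EzF_27_0
noncomputable def coNFzE2A3H2ByAzAyB2H3A2EzF_28 : BT Nat := coNFzE2A3H2ByAzAyB2H3A2EzF_28_0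
noncomputable def coNFzE2A3H2ByAzAyB2H3A2EzF_29 : BT Nat := coNFzE2A3H2ByAzAyB2H3A2EzF_29_0
noncomputable def coNFzE2A3H2ByAzAyB2H3A2EzF_30 : BT Nat := coNFzE2A3H2ByAzAyB2H3A2EzF_30_0
noncomputable def coNFzE2A3H2ByAzAyB2H3A2EzF_31 : BT Nat := coNFzE2A3H2ByAzAyB2H3A2EzF_31_0
noncomputable def coNFzE2A3H2ByAzAyB2H3A2EzF_32 : BT Nat := coNFzE2A3H2ByAzAyB2H3A2EzF_32_0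
noncomputable def coNFzE2A3H2ByAzAyB2H3A2EzF_33 : BT Nat := coNFzE2A3H2ByAzAyB2H3A2EzF_33_0
noncomputable def coNFzE2A3H2ByAzAyB2H3A2EzF_34 : BT Nat := coNFzE2A3H2ByAzAyB2H3A2EzF_34_0
noncomputable def coNFzE2A3H2ByAzAyB2H3A2EzF_35 : BT Nat := coNFzE2A3H2ByAzAyB2H3A2EzF_35_0
noncomputable def coNFzE2A3H2ByAzAyB2H3A2EzF_36 : BT Nat := coNFzE2A3H2ByAzAyB2H3A2EzF_36_0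
noncomputable def coNFzE2A3H2ByAzAyB2H3A2EzF_37 : BT Nat := coNFzE2A3H2ByAzAyB2H3A2EzF_37_0
noncomputable def coNFzE2A3H2ByAzAyB2H3A2EzF_38 : BT Nat := coNFzE2A3H2ByAzAyB2H3A2EzF_38_0
noncomputable def coNFzE2A3H2ByAzAyB2H3A2EzF_39 : BT Nat := coNFzE2A3H2ByAzAyB2H3A2EzF_39_0
noncomputable def coNFzE2A3H2ByAzAyB2H3A2EzF_40 : BT Nat := coNFzE2A3H2ByAzAyB2H3A2EzF_40_0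
noncomputable def coNFzE2A3H2ByAzAyB2H3A2EzF : BT Nat := (.node (.node (.node (.node coNFzE2A3H2ByAzAyB2H3A2EzF_0 coNFzE2A3H2ByAzAyB2H3A2EzF_1) (.node (.node coNFzE2A3H2ByAzAyB2H3A2EzF_2 coNFzE2A3H2ByAzAyB2H3A2EzF_3) coNFzE2A3H2ByAzAyB2H3A2EzF_4)) (.node (.node (.node coNFzE2A3H2ByAzAyB2H3A2EzF_5 coNFzE2A3H2ByAzAyB2H3A2EzF_6) coNFzE2A3H2ByAzAyB2H3A2EzF_7) (.node (.node coNFzE2A3H2ByAzAyB2H3A2EzF_8 (.node coNFzE2A3H2ByAzAyB2H3A2EzF_9 coNFzE2A3H2ByAzAyB2H3A2EzF_10)) (.node (.node coNFzE2A3H2ByAzAyB2H3A2EzF_11 coNFzE2A3H2ByAzAyB2H3A2EzF_12) coNFzE2A3H2ByAzAyB2H3A2EzF_13)))) (.node (.node (.node (.node (.node coNFzE2A3H2ByAzAyB2H3A2EzF_14 coNFzE2A3H2ByAzAyB2H3A2EzF_15) coNFzE2A3H2ByAzAyB2H3A2EzF_16) (.node coNFzE2A3H2ByAzAyB2H3A2EzF_17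 coNFzE2A3H2ByAzAyB2H3A2EzF_18)) (.node (.node (.node (.node coNFzE2A3H2ByAzAyB2H3A2EzF_19 coNFzE2A3H2ByAzAyB2H3A2EzF_20) (.node coNFzE2A3H2ByAzAyB2H3A2EzF_21 coNFzE2A3H2ByAzAyB2H3A2EzF_22)) (.node (.node coNFzE2A3H2ByAzAyB2H3A2EzF_23 coNFzE2A3H2ByAzAyB2H3A2EzF_24) coNFzE2A3H2ByAzAyB2H3A2EzF_25)) (.node coNFzE2A3H2ByAzAyB2H3A2EzF_26 coNFzE2A3H2ByAzAyB2H3A2EzF_27))) (.node (.node (.node (.node coNFzE2A3H2ByAzAyB2H3A2EzF_28 coNFzE2A3H2ByAzAyB2H3A2EzF_29) coNFzE2A3H2ByAzAyB2H3A2EzF_30) (.node (.node coNFzE2A3H2ByAzAyB2H3A2EzF_31 coNFzE2A3H2ByAzAyB2H3A2EzF_32) (.node (.node coNFzE2A3H2ByAzAyB2H3A2EzF_33 coNFzE2A3H2ByAzAyB2H3A2EzF_34) (.node coNFzE2A3H2ByAzAyB2H3A2EzF_35 coNFzE2A3H2ByAzAyB2H3A2EzF_36)))) (.node (.node coNFzE2A3H2ByAzAyB2H3A2EzF_37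 coNFzE2A3H2ByAzAyB2H3A2EzF_38) (.node coNFzE2A3H2ByAzAyB2H3A2EzF_39 coNFzE2A3H2ByAzAyB2H3A2EzF_40)))))

end MPb6R
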