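import Pool.Agent.Lib.MP_b6d339_lc.Pos.Lx
import Pool.Agent.Lib.MP_b6d339_lc.Cw3.YFzE2ByA3H2AzIzA2H3AyB2EzF_0
import Pool.Agent.Lib.MP_b6d339_lc.Cw3.YFzE2ByA3H2AzIzA2H3AyB2EzF_1
import Pool.Agent.Lib.MP_b6d339_lc.Cw3.YFzE2ByA3H2AzIzA2H3AyB2EzF_2
import Pool.Agent.Lib.MP_b6d339_lc.Cw3.YFzE2ByA3H2AzIzA2H3AyB2EzF_3
import Pool.Agent.Lib.MP_b6d339_lc.Cw3.YFzE2ByA3H2AzIzA2H3AyB2EzF_4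

/-!
# Erdős 592, three levels: tables
-/

namespace MPb6R

open MPb6P

/-- class of words -/
def xNFzE2ByA3H2AzIzA2H3AyB2EzF : List PE := [⟨0, 4, 4, 0⟩, ⟨1, 4, 4, 11⟩, ⟨1, 3, 3, 10⟩, ⟨0, 2, 2, 6⟩, ⟨1, 2, 2, 5⟩, ⟨0, 3, 3, 14⟩, ⟨0, 2, 2, 5⟩, ⟨1, 3, 3, 15⟩, ⟨1, 3, 3, 5⟩, ⟨0, 2, 2, 14⟩, ⟨0, 3, 3, 5⟩, ⟨1, 2, 2, 6⟩, ⟨0, 2, 2, 10⟩, ⟨1, 3, 3, 11⟩, ⟨1, 4, 4, 0⟩, ⟨0, 4, 4, 0⟩]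

noncomputable def nnNFzE2ByA3H2AzIzA2H3AyB2EzF : BT Nat := (.node (.node nnNFzE2ByA3H2AzIzA2H3AyB2EzF_0 nnNFzE2ByA3H2AzIzA2H3AyB2EzF_1) (.node nnNFzE2ByA3H2AzIzA2H3AyB2EzF_2 nnNFzE2ByA3H2AzIzA2H3AyB2EzF_3))
noncomputable def ttNFzE2ByA3H2AzIzA2H3AyB2EzF : BT Nat := (.node (.node (.node (.node (.node (.node (.node ttNFzE2ByA3H2AzIzA2H3AyB2EzF_0 ttNFzE2ByA3H2AzIzA2H3AyB2EzF_1) (.node ttNFzE2ByA3H2AzIzA2H3AyB2EzF_2 ttNFzE2ByA3H2AzIzA2H3AyB2EzF_3)) (.node (.node ttNFzE2ByA3H2AzIzA2H3AyB2EzF_4 ttNFzE2ByA3H2AzIzA2H3AyB2EzF_5) (.node ttNFzE2ByA3H2AzIzA2H3AyB2EzF_6 ttNFzE2ByA3H2AzIzA2H3AyB2EzF_7))) (.node (.node (.node ttNFzE2ByA3H2AzIzA2H3AyB2EzF_8 ttNFzE2ByA3H2AzIzA2H3AyB2EzF_9) (.node ttNFzE2ByA3H2AzIzA2H3AyB2EzF_10 ttNFzE2ByA3H2AzIzA2H3AyB2EzF_11))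 (.node (.node ttNFzE2ByA3H2AzIzA2H3AyB2EzF_12 ttNFzE2ByA3H2AzIzA2H3AyB2EzF_13) (.node ttNFzE2ByA3H2AzIzA2H3AyB2EzF_14 ttNFzE2ByA3H2AzIzA2H3AyB2EzF_15)))) (.node (.node (.node (.node ttNFzE2ByA3H2AzIzA2H3AyB2EzF_16 ttNFzE2ByA3H2AzIzA2H3AyB2EzF_17) (.node ttNFzE2ByA3H2AzIzA2H3AyB2EzF_18 ttNFzE2ByA3H2AzIzA2H3AyB2EzF_19)) (.node (.node ttNFzE2ByA3H2AzIzA2H3AyB2EzF_20 ttNFzE2ByA3H2AzIzA2H3AyB2EzF_21) (.node ttNFzE2ByA3H2AzIzA2H3AyB2EzF_22 ttNFzE2ByA3H2AzIzA2H3AyB2EzF_23))) (.node (.node (.node ttNFzE2ByA3H2AzIzA2H3AyB2EzF_24 ttNFzE2ByA3H2AzIzA2H3AyB2EzF_25) (.node ttNFzE2ByA3H2AzIzA2H3AyB2EzF_26 ttNFzE2ByA3H2AzIzA2H3AyB2EzF_27)) (.node (.node ttNFzE2ByA3H2AzIzA2H3AyB2EzF_28 ttNFzE2ByA3H2AzIzA2H3AyB2EzF_29) (.node ttNFzE2ByA3H2AzIzA2H3AyB2EzF_30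 ttNFzE2ByA3H2AzIzA2H3AyB2EzF_31))))) (.node (.node (.node (.node (.node ttNFzE2ByA3H2AzIzA2H3AyB2EzF_32 ttNFzE2ByA3H2AzIzA2H3AyB2EzF_33) (.node ttNFzE2ByA3H2AzIzA2H3AyB2EzF_34 ttNFzE2ByA3H2AzIzA2H3AyB2EzF_35)) (.node (.node ttNFzE2ByA3H2AzIzA2H3AyB2EzF_36 ttNFzE2ByA3H2AzIzA2H3AyB2EzF_37) (.node ttNFzE2ByA3H2AzIzA2H3AyB2EzF_38 ttNFzE2ByA3H2AzIzA2H3AyB2EzF_39))) (.node (.node (.node ttNFzE2ByA3H2AzIzA2H3AyB2EzF_40 ttNFzE2ByA3H2AzIzA2H3AyB2EzF_41) (.node ttNFzE2ByA3H2AzIzA2H3AyB2EzF_42 ttNFzE2ByA3H2AzIzA2H3AyB2EzF_43)) (.node (.node ttNFzE2ByA3H2AzIzA2H3AyB2EzF_44 ttNFzE2ByA3H2AzIzA2H3AyB2EzF_45) (.node ttNFzE2ByA3H2AzIzA2H3AyB2EzF_46 ttNFzE2ByA3H2AzIzA2H3AyB2EzF_47)))) (.node (.node (.node (.node ttNFzE2ByA3H2AzIzA2H3AyB2EzF_48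 ttNFzE2ByA3H2AzIzA2H3AyB2EzF_49) (.node ttNFzE2ByA3H2AzIzA2H3AyB2EzF_50 ttNFzE2ByA3H2AzIzA2H3AyB2EzF_51)) (.node (.node ttNFzE2ByA3H2AzIzA2H3AyB2EzF_52 ttNFzE2ByA3H2AzIzA2H3AyB2EzF_53) (.node ttNFzE2ByA3H2AzIzA2H3AyB2EzF_54 ttNFzE2ByA3H2AzIzA2H3AyB2EzF_55))) (.node (.node (.node ttNFzE2ByA3H2AzIzA2H3AyB2EzF_56 ttNFzE2ByA3H2AzIzA2H3AyB2EzF_57) (.node ttNFzE2ByA3H2AzIzA2H3AyB2EzF_58 ttNFzE2ByA3H2AzIzA2H3AyB2EzF_59)) (.node (.node ttNFzE2ByA3H2AzIzA2H3AyB2EzF_60 ttNFzE2ByA3H2AzIzA2H3AyB2EzF_61) (.node ttNFzE2ByA3H2AzIzA2H3AyB2EzF_62 ttNFzE2ByA3H2AzIzA2H3AyB2EzF_63)))))) (.node (.node (.node (.node (.node (.node ttNFzE2ByA3H2AzIzA2H3AyB2EzF_64 ttNFzE2ByA3H2AzIzA2H3AyB2EzF_65) (.node ttNFzE2ByA3H2AzIzA2H3AyB2EzF_66 ttNFzE2ByA3H2AzIzA2H3AyB2EzF_67))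 (.node (.node ttNFzE2ByA3H2AzIzA2H3AyB2EzF_68 ttNFzE2ByA3H2AzIzA2H3AyB2EzF_69) (.node ttNFzE2ByA3H2AzIzA2H3AyB2EzF_70 ttNFzE2ByA3H2AzIzA2H3AyB2EzF_71))) (.node (.node (.node ttNFzE2ByA3H2AzIzA2H3AyB2EzF_72 ttNFzE2ByA3H2AzIzA2H3AyB2EzF_73) (.node ttNFzE2ByA3H2AzIzA2H3AyB2EzF_74 ttNFzE2ByA3H2AzIzA2H3AyB2EzF_75)) (.node (.node ttNFzE2ByA3H2AzIzA2H3AyB2EzF_76 ttNFzE2ByA3H2AzIzA2H3AyB2EzF_77) (.node ttNFzE2ByA3H2AzIzA2H3AyB2EzF_78 ttNFzE2ByA3H2AzIzA2H3AyB2EzF_79)))) (.node (.node (.node (.node ttNFzE2ByA3H2AzIzA2H3AyB2EzF_80 ttNFzE2ByA3H2AzIzA2H3AyB2EzF_81) (.node ttNFzE2ByA3H2AzIzA2H3AyB2EzF_82 ttNFzE2ByA3H2AzIzA2H3AyB2EzF_83)) (.node (.node ttNFzE2ByA3H2AzIzA2H3AyB2EzF_84 ttNFzE2ByA3H2AzIzA2H3AyB2EzF_85) (.node ttNFzE2ByA3H2AzIzA2H3AyB2EzF_86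 ttNFzE2ByA3H2AzIzA2H3AyB2EzF_87))) (.node (.node (.node ttNFzE2ByA3H2AzIzA2H3AyB2EzF_88 ttNFzE2ByA3H2AzIzA2H3AyB2EzF_89) (.node ttNFzE2ByA3H2AzIzA2H3AyB2EzF_90 ttNFzE2ByA3H2AzIzA2H3AyB2EzF_91)) (.node (.node ttNFzE2ByA3H2AzIzA2H3AyB2EzF_92 ttNFzE2ByA3H2AzIzA2H3AyB2EzF_93) (.node ttNFzE2ByA3H2AzIzA2H3AyB2EzF_94 ttNFzE2ByA3H2AzIzA2H3AyB2EzF_95))))) (.node (.node (.node (.node (.node ttNFzE2ByA3H2AzIzA2H3AyB2EzF_96 ttNFzE2ByA3H2AzIzA2H3AyB2EzF_97) (.node ttNFzE2ByA3H2AzIzA2H3AyB2EzF_98 ttNFzE2ByA3H2AzIzA2H3AyB2EzF_99)) (.node (.node ttNFzE2ByA3H2AzIzA2H3AyB2EzF_100 ttNFzE2ByA3H2AzIzA2H3AyB2EzF_101) (.node ttNFzE2ByA3H2AzIzA2H3AyB2EzF_102 ttNFzE2ByA3H2AzIzA2H3AyB2EzF_103))) (.node (.node (.node ttNFzE2ByA3H2AzIzA2H3AyB2EzF_104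 ttNFzE2ByA3H2AzIzA2H3AyB2EzF_105) (.node ttNFzE2ByA3H2AzIzA2H3AyB2EzF_106 ttNFzE2ByA3H2AzIzA2H3AyB2EzF_107)) (.node (.node ttNFzE2ByA3H2AzIzA2H3AyB2EzF_108 ttNFzE2ByA3H2AzIzA2H3AyB2EzF_109) (.node ttNFzE2ByA3H2AzIzA2H3AyB2EzF_110 ttNFzE2ByA3H2AzIzA2H3AyB2EzF_111)))) (.node (.node (.node (.node ttNFzE2ByA3H2AzIzA2H3AyB2EzF_112 ttNFzE2ByA3H2AzIzA2H3AyB2EzF_113) (.node ttNFzE2ByA3H2AzIzA2H3AyB2EzF_114 ttNFzE2ByA3H2AzIzA2H3AyB2EzF_115)) (.node (.node ttNFzE2ByA3H2AzIzA2H3AyB2EzF_116 ttNFzE2ByA3H2AzIzA2H3AyB2EzF_117) (.node ttNFzE2ByA3H2AzIzA2H3AyB2EzF_118 ttNFzE2ByA3H2AzIzA2H3AyB2EzF_119))) (.node (.node (.node ttNFzE2ByA3H2AzIzA2H3AyB2EzF_120 ttNFzE2ByA3H2AzIzA2H3AyB2EzF_121) (.node ttNFzE2ByA3H2AzIzA2H3AyB2EzF_122 ttNFzE2ByA3H2AzIzA2H3AyB2EzF_123))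 (.node (.node ttNFzE2ByA3H2AzIzA2H3AyB2EzF_124 ttNFzE2ByA3H2AzIzA2H3AyB2EzF_125) (.node ttNFzE2ByA3H2AzIzA2H3AyB2EzF_126 ttNFzE2ByA3H2AzIzA2H3AyB2EzF_127)))))))
noncomputable def ceNFzE2ByA3H2AzIzA2H3AyB2EzF_0 : BT Nat := ceNFzE2ByA3H2AzIzA2H3AyB2EzF_0_0
noncomputable def ceNFzE2ByA3H2AzIzA2H3AyB2EzF_1 : BT Nat := ceNFzE2ByA3H2AzIzA2H3AyB2EzF_1_0
noncomputable def ceNFzE2ByA3H2AzIzA2H3AyB2EzF_2 : BT Nat := ceNFzE2ByA3H2AzIzA2H3AyB2EzF_2_0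
noncomputable def ceNFzE2ByA3H2AzIzA2H3AyB2EzF_3 : BT Nat := ceNFzE2ByA3H2AzIzA2H3AyB2EzF_3_0
noncomputable def ceNFzE2ByA3H2AzIzA2H3AyB2EzF_4 : BT Nat := ceNFzE2ByA3H2AzIzA2H3AyB2EzF_4_0
noncomputable def ceNFzE2ByA3H2AzIzA2H3AyB2EzF_5 : BT Nat := ceNFzE2ByA3H2AzIzA2H3AyB2EzF_5_0
noncomputable def ceNFzE2ByA3H2AzIzA2H3AyB2EzF_6 : BT Nat := ceNFzE2ByA3H2AzIzA2H3AyB2EzF_6_0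
noncomputable def ceNFzE2ByA3H2AzIzA2H3AyB2EzF_7 : BT Nat := ceNFzE2ByA3H2AzIzA2H3AyB2EzF_7_0
noncomputable def ceNFzE2ByA3H2AzIzA2H3AyB2EzF_8 : BT Nat := ceNFzE2ByA3H2AzIzA2H3AyB2EzF_8_0
noncomputable def ceNFzE2ByA3H2AzIzA2H3AyB2EzF_9 : BT Nat := ceNFzE2ByA3H2AzIzA2H3AyB2EzF_9_0
noncomputable def ceNFzE2ByA3H2AzIzA2H3AyB2EzF_10 : BT Nat := ceNFzE2ByA3H2AzIzA2H3AyB2EzF_10_0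
noncomputable def ceNFzE2ByA3H2AzIzA2H3AyB2EzF_11 : BT Nat := ceNFzE2ByA3H2AzIzA2H3AyB2EzF_11_0
noncomputable def ceNFzE2ByA3H2AzIzA2H3AyB2EzF_12 : BT Nat := ceNFzE2ByA3H2AzIzA2H3AyB2EzF_12_0
noncomputable def ceNFzE2ByA3H2AzIzA2H3AyB2EzF_13 : BT Nat := ceNFzE2ByA3H2AzIzA2H3AyB2EzF_13_0
noncomputable def ceNFzE2ByA3H2AzIzA2H3AyB2EzF_14 : BT Nat := ceNFzE2ByA3H2AzIzA2H3AyB2EzF_14_0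
noncomputable def ceNFzE2ByA3H2AzIzA2H3AyB2EzF_15 : BT Nat := ceNFzE2ByA3H2AzIzA2H3AyB2EzF_15_0
noncomputable def ceNFzE2ByA3H2AzIzA2H3AyB2EzF_16 : BT Nat := ceNFzE2ByA3H2AzIzA2H3AyB2EzF_16_0
noncomputable def ceNFzE2ByA3H2AzIzA2H3AyB2EzF_17 : BT Nat := ceNFzE2ByA3H2AzIzA2H3AyB2EzF_17_0
noncomputable def ceNFzE2ByA3H2AzIzA2H3AyB2EzF_18 : BT Nat := ceNFzE2ByA3H2AzIzA2H3AyB2EzF_18_0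
noncomputable def ceNFzE2ByA3H2AzIzA2H3AyB2EzF_19 : BT Nat := ceNFzE2ByA3H2AzIzA2H3AyB2EzF_19_0
noncomputable def ceNFzE2ByA3H2AzIzA2H3AyB2EzF_20 : BT Nat := ceNFzE2ByA3H2AzIzA2H3AyB2EzF_20_0
noncomputable def ceNFzE2ByA3H2AzIzA2H3AyB2EzF_21 : BT Nat := ceNFzE2ByA3H2AzIzA2H3AyB2EzF_21_0
noncomputable def ceNFzE2ByA3H2AzIzA2H3AyB2EzF_22 : BT Nat := ceNFzE2ByA3H2AzIzA2H3AyB2EzF_22_0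
noncomputable def ceNFzE2ByA3H2AzIzA2H3AyB2EzF_23 : BT Nat := ceNFzE2ByA3H2AzIzA2H3AyB2EzF_23_0
noncomputable def ceNFzE2ByA3H2AzIzA2H3AyB2EzF_24 : BT Nat := ceNFzE2ByA3H2AzIzA2H3AyB2EzF_24_0
noncomputable def ceNFzE2ByA3H2AzIzA2H3AyB2EzF_25 : BT Nat := ceNFzE2ByA3H2AzIzA2H3AyB2EzF_25_0
noncomputable def ceNFzE2ByA3H2AzIzA2H3AyB2EzF_26 : BT Nat := ceNFzE2ByA3H2AzIzA2H3AyB2EzF_26_0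
noncomputable def ceNFzE2ByA3H2AzIzA2H3AyB2EzF_27 : BT Nat := ceNFzE2ByA3H2AzIzA2H3AyB2EzF_27_0
noncomputable def ceNFzE2ByA3H2AzIzA2H3AyB2EzF_28 : BT Nat := ceNFzE2ByA3H2AzIzA2H3AyB2EzF_28_0
noncomputable def ceNFzE2ByA3H2AzIzA2H3AyB2EzF_29 : BT Nat := ceNFzE2ByA3H2AzIzA2H3AyB2EzF_29_0
noncomputable def ceNFzE2ByA3H2AzIzA2H3AyB2EzF_30 : BT Nat := ceNFzE2ByA3H2AzIzA2H3AyB2EzF_30_0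
noncomputable def ceNFzE2ByA3H2AzIzA2H3AyB2EzF_31 : BT Nat := ceNFzE2ByA3H2AzIzA2H3AyB2EzF_31_0
noncomputable def ceNFzE2ByA3H2AzIzA2H3AyB2EzF_32 : BT Nat := ceNFzE2ByA3H2AzIzA2H3AyB2EzF_32_0
noncomputable def ceNFzE2ByA3H2AzIzA2H3AyB2EzF_33 : BT Nat := ceNFzE2ByA3H2AzIzA2H3AyB2EzF_33_0
noncomputable def ceNFzE2ByA3H2AzIzA2H3AyB2EzF_34 : BT Nat := ceNFzE2ByA3H2AzIzA2H3AyB2EzF_34_0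
noncomputable def ceNFzE2ByA3H2AzIzA2H3AyB2EzF_35 : BT Nat := ceNFzE2ByA3H2AzIzA2H3AyB2EzF_35_0
noncomputable def ceNFzE2ByA3H2AzIzA2H3AyB2EzF_36 : BT Nat := ceNFzE2ByA3H2AzIzA2H3AyB2EzF_36_0
noncomputable def ceNFzE2ByA3H2AzIzA2H3AyB2EzF_37 : BT Nat := ceNFzE2ByA3H2AzIzA2H3AyB2EzF_37_0
noncomputable def ceNFzE2ByA3H2AzIzA2H3AyB2EzF_38 : BT Nat := ceNFzE2ByA3H2AzIzA2H3AyB2EzF_38_0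
noncomputable def ceNFzE2ByA3H2AzIzA2H3AyB2EzF_39 : BT Nat := ceNFzE2ByA3H2AzIzA2H3AyB2EzF_39_0
noncomputable def ceNFzE2ByA3H2AzIzA2H3AyB2EzF_40 : BT Nat := ceNFzE2ByA3H2AzIzA2H3AyB2EzF_40_0
noncomputable def ceNFzE2ByA3H2AzIzA2H3AyB2EzF_41 : BT Nat := ceNFzE2ByA3H2AzIzA2H3AyB2EzF_41_0
noncomputable def ceNFzE2ByA3H2AzIzA2H3AyB2EzF_42 : BT Nat := ceNFzE2ByA3H2AzIzA2H3AyB2EzF_42_0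
noncomputable def ceNFzE2ByA3H2AzIzA2H3AyB2EzF_43 : BT Nat := ceNFzE2ByA3H2AzIzA2H3AyB2EzF_43_0
noncomputable def ceNFzE2ByA3H2AzIzA2H3AyB2EzF_44 : BT Nat := ceNFzE2ByA3H2AzIzA2H3AyB2EzF_44_0
noncomputable def ceNFzE2ByA3H2AzIzA2H3AyB2EzF_45 : BT Nat := ceNFzE2ByA3H2AzIzA2H3AyB2EzF_45_0
noncomputable def ceNFzE2ByA3H2AzIzA2H3AyB2EzF : BT Nat := (.node (.node (.node (.node (.node ceNFzE2ByA3H2AzIzA2H3AyB2EzF_0 (.node ceNFzE2ByA3H2AzIzA2H3AyB2EzF_1 (.node ceNFzE2ByA3H2AzIzA2H3AyB2EzF_2 ceNFzE2ByA3H2AzIzA2H3AyB2EzF_3))) (.node (.node ceNFzE2ByA3H2AzIzA2H3AyB2EzF_4 ceNFzE2ByA3H2AzIzA2H3AyB2EzF_5) (.node ceNFzE2ByA3H2AzIzA2H3AyB2EzF_6 ceNFzE2ByA3H2AzIzA2H3AyB2EzF_7))) (.node (.node (.node ceNFzE2ByA3H2AzIzA2H3AyB2EzF_8 ceNFzE2ByA3H2AzIzA2H3AyB2EzF_9)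 ceNFzE2ByA3H2AzIzA2H3AyB2EzF_10) ceNFzE2ByA3H2AzIzA2H3AyB2EzF_11)) (.node (.node (.node ceNFzE2ByA3H2AzIzA2H3AyB2EzF_12 ceNFzE2ByA3H2AzIzA2H3AyB2EzF_13) ceNFzE2ByA3H2AzIzA2H3AyB2EzF_14) (.node (.node ceNFzE2ByA3H2AzIzA2H3AyB2EzF_15 ceNFzE2ByA3H2AzIzA2H3AyB2EzF_16) (.node ceNFzE2ByA3H2AzIzA2H3AyB2EzF_17 ceNFzE2ByA3H2AzIzA2H3AyB2EzF_18)))) (.node (.node (.node (.node ceNFzE2ByA3H2AzIzA2H3AyB2EzF_19 ceNFzE2ByA3H2AzIzA2H3AyB2EzF_20) (.node (.node ceNFzE2ByA3H2AzIzA2H3AyB2EzF_21 ceNFzE2ByA3H2AzIzA2H3AyB2EzF_22) ceNFzE2ByA3H2AzIzA2H3AyB2EzF_23)) (.node (.node ceNFzE2ByA3H2AzIzA2H3AyB2EzF_24 (.node ceNFzE2ByA3H2AzIzA2H3AyB2EzF_25 ceNFzE2ByA3H2AzIzA2H3AyB2EzF_26)) (.node (.node ceNFzE2ByA3H2AzIzA2H3AyB2EzF_27 ceNFzE2ByA3H2AzIzA2H3AyB2EzF_28)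 (.node ceNFzE2ByA3H2AzIzA2H3AyB2EzF_29 ceNFzE2ByA3H2AzIzA2H3AyB2EzF_30)))) (.node (.node (.node (.node ceNFzE2ByA3H2AzIzA2H3AyB2EzF_31 ceNFzE2ByA3H2AzIzA2H3AyB2EzF_32) (.node ceNFzE2ByA3H2AzIzA2H3AyB2EzF_33 ceNFzE2ByA3H2AzIzA2H3AyB2EzF_34)) (.node (.node ceNFzE2ByA3H2AzIzA2H3AyB2EzF_35 ceNFzE2ByA3H2AzIzA2H3AyB2EzF_36) (.node ceNFzE2ByA3H2AzIzA2H3AyB2EzF_37 ceNFzE2ByA3H2AzIzA2H3AyB2EzF_38))) (.node (.node (.node ceNFzE2ByA3H2AzIzA2H3AyB2EzF_39 ceNFzE2ByA3H2AzIzA2H3AyB2EzF_40) (.node ceNFzE2ByA3H2AzIzA2H3AyB2EzF_41 ceNFzE2ByA3H2AzIzA2H3AyB2EzF_42)) (.node (.node ceNFzE2ByA3H2AzIzA2H3AyB2EzF_43 ceNFzE2ByA3H2AzIzA2H3AyB2EzF_44) ceNFzE2ByA3H2AzIzA2H3AyB2EzF_45)))))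
noncomputable def coNFzE2ByA3H2AzIzA2H3AyB2EzF_0 : BT Nat := coNFzE2ByA3H2AzIzA2H3AyB2EzF_0_0
noncomputable def coNFzE2ByA3H2AzIzA2H3AyB2EzF_1 : BT Nat := coNFzE2ByA3H2AzIzA2H3AyB2EzF_1_0
noncomputable def coNFzE2ByA3H2AzIzA2H3AyB2EzF_2 : BT Nat := coNFzE2ByA3H2AzIzA2H3AyB2EzF_2_0
noncomputable def coNFzE2ByA3H2AzIzA2H3AyB2EzF_3 : BT Nat := coNFzE2ByA3H2AzIzA2H3AyB2EzF_3_0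
noncomputable def coNFzE2ByA3H2AzIzA2H3AyB2EzF_4 : BT Nat := coNFzE2ByA3H2AzIzA2H3AyB2EzF_4_0
noncomputable def coNFzE2ByA3H2AzIzA2H3AyB2EzF_5 : BT Nat := coNFzE2ByA3H2AzIzA2H3AyB2EzF_5_0
noncomputable def coNFzE2ByA3H2AzIzA2H3AyB2EzF_6 : BT Nat := coNFzE2ByA3H2AzIzA2H3AyB2EzF_6_0
noncomputable def coNFzE2ByA3H2AzIzA2H3AyB2EzF_7 : BT Nat := coNFzE2ByA3H2AzIzA2H3AyB2EzF_7_0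
noncomputable def coNFzE2ByA3H2AzIzA2H3AyB2EzF_8 : BT Nat := coNFzE2ByA3H2AzIzA2H3AyB2EzF_8_0
noncomputable def coNFzE2ByA3H2AzIzA2H3AyB2EzF_9 : BT Nat := coNFzE2ByA3H2AzIzA2H3AyB2EzF_9_0
noncomputable def coNFzE2ByA3H2AzIzA2H3AyB2EzF_10 : BT Nat := coNFzE2ByA3H2AzIzA2H3AyB2EzF_10_0
noncomputable def coNFzE2ByA3H2AzIzA2H3AyB2EzF_11 : BT Nat := coNFzE2ByA3H2AzIzA2H3AyB2EzF_11_0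
noncomputable def coNFzE2ByA3H2AzIzA2H3AyB2EzF_12 : BT Nat := coNFzE2ByA3H2AzIzA2H3AyB2EzF_12_0
noncomputable def coNFzE2ByA3H2AzIzA2H3AyB2EzF_13 : BT Nat := coNFzE2ByA3H2AzIzA2H3AyB2EzF_13_0
noncomputable def coNFzE2ByA3H2AzIzA2H3AyB2EzF_14 : BT Nat := coNFzE2ByA3H2AzIzA2H3AyB2EzF_14_0
noncomputable def coNFzE2ByA3H2AzIzA2H3AyB2EzF_15 : BT Nat := coNFzE2ByA3H2AzIzA2H3AyB2EzF_15_0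
noncomputable def coNFzE2ByA3H2AzIzA2H3AyB2EzF_16 : BT Nat := coNFzE2ByA3H2AzIzA2H3AyB2EzF_16_0
noncomputable def coNFzE2ByA3H2AzIzA2H3AyB2EzF_17 : BT Nat := coNFzE2ByA3H2AzIzA2H3AyB2EzF_17_0
noncomputable def coNFzE2ByA3H2AzIzA2H3AyB2EzF_18 : BT Nat := coNFzE2ByA3H2AzIzA2H3AyB2EzF_18_0
noncomputable def coNFzE2ByA3H2AzIzA2H3AyB2EzF_19 : BT Nat := coNFzE2ByA3H2AzIzA2H3AyB2EzF_19_0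
noncomputable def coNFzE2ByA3H2AzIzA2H3AyB2EzF_20 : BT Nat := coNFzE2ByA3H2AzIzA2H3AyB2EzF_20_0
noncomputable def coNFzE2ByA3H2AzIzA2H3AyB2EzF_21 : BT Nat := coNFzE2ByA3H2AzIzA2H3AyB2EzF_21_0
noncomputable def coNFzE2ByA3H2AzIzA2H3AyB2EzF_22 : BT Nat := coNFzE2ByA3H2AzIzA2H3AyB2EzF_22_0
noncomputable def coNFzE2ByA3H2AzIzA2H3AyB2EzF_23 : BT Nat := coNFzE2ByA3H2AzIzA2H3AyB2EzF_23_0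
noncomputable def coNFzE2ByA3H2AzIzA2H3AyB2EzF_24 : BT Nat := coNFzE2ByA3H2AzIzA2H3AyB2EzF_24_0
noncomputable def coNFzE2ByA3H2AzIzA2H3AyB2EzF_25 : BT Nat := coNFzE2ByA3H2AzIzA2H3AyB2EzF_25_0
noncomputable def coNFzE2ByA3H2AzIzA2H3AyB2EzF_26 : BT Nat := coNFzE2ByA3H2AzIzA2H3AyB2EzF_26_0
noncomputable def coNFzE2ByA3H2AzIzA2H3AyB2EzF_27 : BT Nat := coNFzE2ByA3H2AzIzA2H3AyB2EzF_27_0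
noncomputable def coNFzE2ByA3H2AzIzA2H3AyB2EzF_28 : BT Nat := coNFzE2ByA3H2AzIzA2H3AyB2EzF_28_0
noncomputable def coNFzE2ByA3H2AzIzA2H3AyB2EzF_29 : BT Nat := coNFzE2ByA3H2AzIzA2H3AyB2EzF_29_0
noncomputable def coNFzE2ByA3H2AzIzA2H3AyB2EzF_30 : BT Nat := coNFzE2ByA3H2AzIzA2H3AyB2EzF_30_0
noncomputable def coNFzE2ByA3H2AzIzA2H3AyB2EzF_31 : BT Nat := coNFzE2ByA3H2AzIzA2H3AyB2EzF_31_0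
noncomputable def coNFzE2ByA3H2AzIzA2H3AyB2EzF_32 : BT Nat := coNFzE2ByA3H2AzIzA2H3AyB2EzF_32_0
noncomputable def coNFzE2ByA3H2AzIzA2H3AyB2EzF_33 : BT Nat := coNFzE2ByA3H2AzIzA2H3AyB2EzF_33_0
noncomputable def coNFzE2ByA3H2AzIzA2H3AyB2EzF_34 : BT Nat := coNFzE2ByA3H2AzIzA2H3AyB2EzF_34_0
noncomputable def coNFzE2ByA3H2AzIzA2H3AyB2EzF_35 : BT Nat := coNFzE2ByA3H2AzIzA2H3AyB2EzF_35_0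
noncomputable def coNFzE2ByA3H2AzIzA2H3AyB2EzF_36 : BT Nat := coNFzE2ByA3H2AzIzA2H3AyB2EzF_36_0
noncomputable def coNFzE2ByA3H2AzIzA2H3AyB2EzF_37 : BT Nat := coNFzE2ByA3H2AzIzA2H3AyB2EzF_37_0
noncomputable def coNFzE2ByA3H2AzIzA2H3AyB2EzF_38 : BT Nat := coNFzE2ByA3H2AzIzA2H3AyB2EzF_38_0
noncomputable def coNFzE2ByA3H2AzIzA2H3AyB2EzF_39 : BT Nat := coNFzE2ByA3H2AzIzA2H3AyB2EzF_39_0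
noncomputable def coNFzE2ByA3H2AzIzA2H3AyB2EzF_40 : BT Nat := coNFzE2ByA3H2AzIzA2H3AyB2EzF_40_0
noncomputable def coNFzE2ByA3H2AzIzA2H3AyB2EzF_41 : BT Nat := coNFzE2ByA3H2AzIzA2H3AyB2EzF_41_0
noncomputable def coNFzE2ByA3H2AzIzA2H3AyB2EzF_42 : BT Nat := coNFzE2ByA3H2AzIzA2H3AyB2EzF_42_0
noncomputable def coNFzE2ByA3H2AzIzA2H3AyB2EzF_43 : BT Nat := coNFzE2ByA3H2AzIzA2H3AyB2EzF_43_0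
noncomputable def coNFzE2ByA3H2AzIzA2H3AyB2EzF_44 : BT Nat := coNFzE2ByA3H2AzIzA2H3AyB2EzF_44_0
noncomputable def coNFzE2ByA3H2AzIzA2H3AyB2EzF_45 : BT Nat := coNFzE2ByA3H2AzIzA2H3AyB2EzF_45_0
noncomputable def coNFzE2ByA3H2AzIzA2H3AyB2EzF_46 : BT Nat := coNFzE2ByA3H2AzIzA2H3AyB2EzF_46_0
noncomputable def coNFzE2ByA3H2AzIzA2H3AyB2EzF_47 : BT Nat := coNFzE2ByA3H2AzIzA2H3AyB2EzF_47_0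
noncomputable def coNFzE2ByA3H2AzIzA2H3AyB2EzF : BT Nat := (.node (.node (.node (.node (.node coNFzE2ByA3H2AzIzA2H3AyB2EzF_0 (.node coNFzE2ByA3H2AzIzA2H3AyB2EzF_1 (.node coNFzE2ByA3H2AzIzA2H3AyB2EzF_2 coNFzE2ByA3H2AzIzA2H3AyB2EzF_3))) (.node (.node (.node coNFzE2ByA3H2AzIzA2H3AyB2EzF_4 coNFzE2ByA3H2AzIzA2H3AyB2EzF_5) (.node (.node coNFzE2ByA3H2AzIzA2H3AyB2EzF_6 coNFzE2ByA3H2AzIzA2H3AyB2EzF_7) coNFzE2ByA3H2AzIzA2H3AyB2EzF_8)) (.node (.node coNFzE2ByA3H2AzIzA2H3AyB2EzF_9 coNFzE2ByA3H2AzIzA2H3AyB2EzF_10) (.node coNFzE2ByA3H2AzIzA2H3AyB2EzF_11 coNFzE2ByA3H2AzIzA2H3AyB2EzF_12)))) (.node (.node coNFzE2ByA3H2AzIzA2H3AyB2EzF_13 coNFzE2ByA3H2AzIzA2H3AyB2EzF_14) coNFzE2ByA3H2AzIzA2H3AyB2EzF_15)) (.node (.node (.node coNFzE2ByA3H2AzIzA2H3AyB2EzF_16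 coNFzE2ByA3H2AzIzA2H3AyB2EzF_17) coNFzE2ByA3H2AzIzA2H3AyB2EzF_18) (.node (.node (.node coNFzE2ByA3H2AzIzA2H3AyB2EzF_19 coNFzE2ByA3H2AzIzA2H3AyB2EzF_20) coNFzE2ByA3H2AzIzA2H3AyB2EzF_21) coNFzE2ByA3H2AzIzA2H3AyB2EzF_22))) (.node (.node (.node (.node coNFzE2ByA3H2AzIzA2H3AyB2EzF_23 coNFzE2ByA3H2AzIzA2H3AyB2EzF_24) (.node (.node coNFzE2ByA3H2AzIzA2H3AyB2EzF_25 coNFzE2ByA3H2AzIzA2H3AyB2EzF_26) coNFzE2ByA3H2AzIzA2H3AyB2EzF_27)) (.node (.node (.node coNFzE2ByA3H2AzIzA2H3AyB2EzF_28 coNFzE2ByA3H2AzIzA2H3AyB2EzF_29) (.node coNFzE2ByA3H2AzIzA2H3AyB2EzF_30 coNFzE2ByA3H2AzIzA2H3AyB2EzF_31)) (.node coNFzE2ByA3H2AzIzA2H3AyB2EzF_32 coNFzE2ByA3H2AzIzA2H3AyB2EzF_33))) (.node (.node (.node (.node coNFzE2ByA3H2AzIzA2H3AyB2EzF_34 coNFzE2ByA3H2AzIzA2H3AyB2EzF_35)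 (.node coNFzE2ByA3H2AzIzA2H3AyB2EzF_36 coNFzE2ByA3H2AzIzA2H3AyB2EzF_37)) (.node (.node coNFzE2ByA3H2AzIzA2H3AyB2EzF_38 coNFzE2ByA3H2AzIzA2H3AyB2EzF_39) (.node coNFzE2ByA3H2AzIzA2H3AyB2EzF_40 coNFzE2ByA3H2AzIzA2H3AyB2EzF_41))) (.node (.node (.node coNFzE2ByA3H2AzIzA2H3AyB2EzF_42 coNFzE2ByA3H2AzIzA2H3AyB2EzF_43) (.node coNFzE2ByA3H2AzIzA2H3AyB2EzF_44 coNFzE2ByA3H2AzIzA2H3AyB2EzF_45)) (.node coNFzE2ByA3H2AzIzA2H3AyB2EzF_46 coNFzE2ByA3H2AzIzA2H3AyB2EzF_47)))))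

end MPb6R
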