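import Pool.Agent.Lib.MP_b6d339_lc.Cw3.YFzAyE2ByA3H2AzIzA2H3A2E2A2AzAyAyF

/-!
# Erdős 592, three levels: checks of claims
-/

namespace MPb6R

open MPb6P

theorem zoNFzAyE2ByA3H2AzIzA2H3A2E2A2AzAyAyF_4 : cyO 62 9630 nnNFzAyE2ByA3H2AzIzA2H3A2E2A2AzAyAyF ttNFzAyE2ByA3H2AzIzA2H3A2E2A2AzAyAyF ceNFzAyE2ByA3H2AzIzA2H3A2E2A2AzAyAyF xNFzAyE2ByA3H2AzIzA2H3A2E2A2AzAyAyF coNFzAyE2ByA3H2AzIzA2H3A2E2A2AzAyAyF_4 = true := by decide +kernel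

end MPb6R
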